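import Pool.Agent.Work.MP_a2680c_ag.HA.DefsW

/-!
# MP_a2680c_ag, block HA, part C: crepant covers of quotients of arrangements, canonical b-divisors
-/

set_option autoImplicit false

noncomputable section

namespace Pool.Agent.Work.MP_a2680c_ag.HA

open MP7b66e6 MP7b66e6.Q
open scoped BigOperators

universe u

/-- THEOREM CG. -/
def MainCG : Prop := ∀ n δ : ℕ, 1 ≤ n → 1 ≤ δ → ∀ I : Set ℝ, I ⊆ Set.Ioc 0 1 → DCC I →
  ∃ (J Γ : Set ℝ) (m : ℕ), J ⊆ Set.Ioc 0 1 ∧ DCC J ∧ Γ ⊆ Set.Ioc 0 1 ∧ Γ.Finite ∧ 1 ≤ m ∧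
    ∀ (κ : Prop) (k K F₀ F K' F' : Type u) [Field k] [CharZero k] [Field K] [Field F₀] [Field F] [Field K'] [Field F']
      [Algebra k K] [Algebra k F₀] [Algebra k F] [Algebra k K'] [Algebra k F'] [Algebra K F₀] [Algebra K F] [Algebra K K']
      [Algebra K F'] [Algebra F₀ F] [Algebra F₀ F'] [Algebra K' F'] [IsScalarTower k K F₀] [IsScalarTower k K F]
      [IsScalarTower k F₀ F] [IsScalarTower K F₀ F] [IsScalarTower k K K'] [IsScalarTower k F₀ F'] [IsScalarTower k K' F']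
      [IsScalarTower K F₀ F'] [IsScalarTower K K' F'] [FiniteDimensional F₀ F] [Algebra.EssFiniteType k F₀]
      [FiniteDimensional K K'] [IsGalois K K'] [FiniteDimensional F₀ F'] [IsGalois F₀ F']
      (e N : ℕ) (r : Fin e → K) (x : Fin n → F) (y : Fin n → F') (Z : Set (Subalgebra k K)) (X : Set (Subalgebra k F))
      (D : AddValuation F (WithTop ℤ) → ℝ) (L : AddValuation K (WithTop ℤ) → ℝ) (𝔻₀ : AddValuation F₀ (WithTop ℤ) → ℝ)
      (a : Fin N → Fin (n + 1) → K') (d : Fin N → ℝ),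
      Fib κ I r x Z X D L → IsTranscendenceBasis k (cor r x) →
      (∀ (ν : AddValuation F₀ (WithTop ℤ)) (ν' : AddValuation F (WithTop ℤ)) (ε : ℕ), Divisorial k ν →
        (∃ π : F, ν' π = 1) → Lies ν ν' ε → 1 - crp r x X D ν' = ε * (1 - 𝔻₀ ν)) →
      Cvd (K := K) k δ I y 𝔻₀ a d →
      ∃ Dd Dm : AddValuation K (WithTop ℤ) → ℝ, AdjG κ J Γ m r x Z X D a d Dd Dm

/-- THEOREM CH. -/
def MainCH : Prop := ∀ n M δ : ℕ, 1 ≤ n → 1 ≤ M → 1 ≤ δ →
    ∀ (κ : Prop) (k K F₀ F K' F' : Type u) [Field k] [CharZero k] [Field K] [Field F₀] [Field F] [Field K'] [Field F']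
      [Algebra k K] [Algebra k F₀] [Algebra k F] [Algebra k K'] [Algebra k F'] [Algebra K F₀] [Algebra K F] [Algebra K K']
      [Algebra K F'] [Algebra F₀ F] [Algebra F₀ F'] [Algebra K' F'] [IsScalarTower k K F₀] [IsScalarTower k K F]
      [IsScalarTower k F₀ F] [IsScalarTower K F₀ F] [IsScalarTower k K K'] [IsScalarTower k F₀ F'] [IsScalarTower k K' F']
      [IsScalarTower K F₀ F'] [IsScalarTower K K' F'] [FiniteDimensional F₀ F] [Algebra.EssFiniteType k F₀]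
      [FiniteDimensional K K'] [IsGalois K K'] [FiniteDimensional F₀ F'] [IsGalois F₀ F']
      (e N : ℕ) (r : Fin e → K) (x : Fin n → F) (y : Fin n → F') (Z : Set (Subalgebra k K)) (X : Set (Subalgebra k F))
      (D : AddValuation F (WithTop ℤ) → ℝ) (L : AddValuation K (WithTop ℤ) → ℝ) (𝔻₀ : AddValuation F₀ (WithTop ℤ) → ℝ)
      (a : Fin N → Fin (n + 1) → K') (d : Fin N → ℝ),
      Fib κ (IM M) r x Z X D L → IsTranscendenceBasis k (cor r x) →
      (∀ (ν : AddValuation F₀ (WithTop ℤ)) (ν' : AddValuation F (WithTop ℤ)) (ε : ℕ), Divisorial k ν →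
        (∃ π : F, ν' π = 1) → Lies ν ν' ε → 1 - crp r x X D ν' = ε * (1 - 𝔻₀ ν)) →
      Cvd (K := K) k δ (IM M) y 𝔻₀ a d →
      ∃ Dd Dm : AddValuation K (WithTop ℤ) → ℝ, AdjH κ M δ r x Z X D a d Dd Dm

end Pool.Agent.Work.MP_a2680c_ag.HA
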