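import Pool.Agent.Work.MP_a2680c_ag.HA.StmtsW

set_option autoImplicit false

noncomputable section

namespace Pool.Agent.Work.MP_a2680c_ag.HA

open MP7b66e6 MP7b66e6.Q
open scoped BigOperators

universe u

namespace XFbf

theorem uniq (hEff : StEff.{u}) {k F : Type u} [Field k] [CharZero k] [Field F] [Algebra k F]
    {X : Set (Subalgebra k F)} (vx : Vty X) {d : ℕ} {c : Fin d → F} (hc : IsTranscendenceBasis k c)
    {E : AddValuation F (WithTop ℤ) → ℝ} {O : Subalgebra k F} (hO : O ∈ X) {φ ψ : Fˣ →₀ ℝ}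
    (hφ : Rep X E O φ) (hψ : Rep X E O ψ) (w : AddValuation F (WithTop ℤ)) (hw : ∀ f ∈ O, 0 ≤ w f) :
    ev w φ = ev w ψ := by
  have h1 := hEff k F X vx d c hc O hO (φ - ψ) (by
    intro ν hν
    rw [Api.ev_sub, ← hφ ν hν, ← hψ ν hν, sub_self]) w hw
  have h2 := hEff k F X vx d c hc O hO (ψ - φ) (by
    intro ν hν
    rw [Api.ev_sub, ← hφ ν hν, ← hψ ν hν, sub_self]) w hw
  rw [Api.ev_sub] at h1 h2
  linarith

theorem crp_eq (hEff : StEff.{u}) (hLoc : StLoc.{u}) {k K F : Type u} [Field k] [CharZero k] [Field K] [Field F]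
    [Algebra k K] [Algebra k F] [Algebra K F] {e n : ℕ} {r : Fin e → K} {x : Fin n → F}
    {X : Set (Subalgebra k F)} (vx : Vty X) (hc : IsTranscendenceBasis k (cor r x))
    {D : AddValuation F (WithTop ℤ) → ℝ} {ν : AddValuation F (WithTop ℤ)} {A : ℝ}
    (h : LDis r x X D ν A) : crp r x X D ν = 1 - A := by
  have hs : {B : ℝ | LDis r x X D ν B} = {A} := by
    ext B
    simp only [Set.mem_setOf_eq, Set.mem_singleton_iff]
    refine ⟨fun hB => ?_, fun hB => hB ▸ h⟩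
    obtain ⟨_, O, hO, hcO, φ, hφ, hA⟩ := h
    obtain ⟨_, O', hO', hcO', φ', hφ', hA'⟩ := hB
    have hOO : O' = O := (hLoc k F X vx).2.2 O' hO' O hO ν hcO' hcO
    subst hOO
    rw [hA', hA, uniq hEff vx hc hO hφ hφ' ν hcO.1]
  unfold crp
  rw [hs, csSup_singleton]

end XFbf

theorem pr_Fbf (hGrm : StGrm.{u}) (hPdd : StPdd.{u}) (hEff : StEff.{u}) (hWdl : StWdl.{u}) (hCnt : StCnt.{u})
    (hLoc : StLoc.{u}) : StFbf.{u} := by
  intro κ k K F _ _ _ _ _ _ _ _ e n I r x Z X D L hF hb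
  obtain ⟨Φ, hΦ⟩ := hF.triv
  refine ⟨⟨Φ, ?_⟩, ?_⟩
  · refine ⟨hF.vz, hF.basis, hb, (hGrm k F X hF.vx).1, hF.divL, hF.carL, ?_, ?_⟩
    · intro ν hν hov
      obtain ⟨O, hO, hcen⟩ := (hCnt k K F Z hF.vz).2 X hF.prp ν hov
      obtain ⟨ψ, hψ⟩ := hF.lc.1 O hO
      have hl : LDis r x X D ν (1 + can k (cor r x) ν - ev ν ψ) := ⟨hν, O, hO, hcen, ψ, hψ, rfl⟩
      rw [XFbf.crp_eq hEff hLoc hF.vx hb hl, sub_sub_cancel]
      exact hF.lc.2 O hO ψ hψ ν hν hcen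
    · intro ν hν hov
      obtain ⟨O, hO, hcen⟩ := (hCnt k K F Z hF.vz).2 X hF.prp ν hov
      obtain ⟨ψ, hψ⟩ := hF.lc.1 O hO
      have hl : LDis r x X D ν (1 + can k (cor r x) ν - ev ν ψ) := ⟨hν, O, hO, hcen, ψ, hψ, rfl⟩
      rw [XFbf.crp_eq hEff hLoc hF.vx hb hl]
      obtain ⟨P, hP, hdom⟩ := hF.mor O hO
      obtain ⟨φ, hφ⟩ := hF.carL P hP
      have hrep : Rep X (fun μ => can k (cor r x) μ + D μ) O (push K F φ + Φ) := by
        intro μ hμ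
        rw [Api.ev_add]
        exact hΦ O hO P hP hdom φ hφ μ hμ
      have h1 := XFbf.uniq hEff hF.vx hb hO hψ hrep ν hcen.1
      rw [Api.ev_add] at h1
      have h2 : Lv Z L (Api.res K ν) = ev (Api.res K ν) φ :=
        hWdl k K Z hF.vz e r hF.basis L P hP φ hφ (Api.res K ν) (by
          intro f hf
          exact hcen.1 _ (hdom f hf).1)
      rw [Api.ev_res] at h2
      rw [h2]
      linarith
  · intro ν hν
    obtain ⟨hdiv, R, hR, hcen, hring⟩ := hPdd k F X hF.vx ν hν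
    obtain ⟨ψ, hψ⟩ := hF.lc.1 R hR
    have hl : LDis r x X D ν (1 + can k (cor r x) ν - ev ν ψ) := ⟨hdiv, R, hR, hcen, ψ, hψ, rfl⟩
    have h1 := hψ ν ⟨hν, hcen.1⟩
    rw [XFbf.crp_eq hEff hLoc hF.vx hb hl]
    simp only at h1
    linarith

end Pool.Agent.Work.MP_a2680c_ag.HA
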