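import Pool.Agent.Work.MP_a2680c_ag.HA.StmtsE

/-! Item [a2680c HA Ixa] (helper9): explicit coefficients of the discriminant. -/

set_option autoImplicit false

noncomputable section

namespace Pool.Agent.Work.MP_a2680c_ag.HA

open MP7b66e6 MP7b66e6.Q
open scoped BigOperators

universe u

namespace XIxa

/-- the decomposition given by an `M`-tuple of bases -/
def dec {n N M : ℕ} (B : Fin M → Fin (n + 1) → Fin N) : (Fin (n + 1) → Fin N) → ℝ := by
  classical exact fun b => (∑ t, if B t = b then (1 : ℝ) else 0) / M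

theorem sum_dec {n N M : ℕ} (B : Fin M → Fin (n + 1) → Fin N) (g : (Fin (n + 1) → Fin N) → ℝ) :
    ∑ b, dec B b * g b = (∑ t, g (B t)) / M := by
  classical
  unfold dec
  have h1 : ∀ b : Fin (n + 1) → Fin N, (∑ t, if B t = b then (1 : ℝ) else 0) / M * g b =
      (∑ t, if B t = b then g b else 0) / M := by
    intro b
    rw [div_mul_eq_mul_div, Finset.sum_mul]
    congr 1
    apply Finset.sum_congr rfl
    intro t _
    split_ifs <;> simp
  rw [Finset.sum_congr rfl fun b _ => h1 b, ← Finset.sum_div, Finset.sum_comm]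
  congr 1
  apply Finset.sum_congr rfl
  intro t _
  simp

theorem feas_dec {K : Type u} [Field K] {n N M : ℕ} (hM : 0 < M) (a : Fin N → Fin (n + 1) → K) (d : Fin N → ℝ)
    (B : Fin M → Fin (n + 1) → Fin N) (hB : B ∈ Tup a d M) : Feas (bas a) d (dec B) := by
  classical
  have hM' : (M : ℝ) ≠ 0 := by exact_mod_cast hM.ne'
  refine ⟨fun b => ?_, fun b hb => ?_, fun i => ?_⟩
  · unfold dec
    apply div_nonneg _ (Nat.cast_nonneg _)
    apply Finset.sum_nonneg
    intro t _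
    split_ifs <;> norm_num
  · unfold dec
    have : (∑ t, if B t = b then (1 : ℝ) else 0) = 0 := by
      apply Finset.sum_eq_zero
      intro t _
      rw [if_neg]
      intro h
      exact hb (h ▸ hB.1 t)
    rw [this, zero_div]
  · rw [sum_dec B (fun b => ∑ j, if b j = i then (1 : ℝ) else 0)]
    have h1 := hB.2 i
    push_cast at h1
    rw [h1, mul_div_cancel_left₀ _ hM']

end XIxa

theorem pr_Ixa (hGrm : StGrm.{u}) (hPdd : StPdd.{u}) (hKru : StKru.{u}) (hAvg : StAvg.{u}) (hImn : StImn.{u}) :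
    StIxa.{u} := by
  classical
  intro κ k K F _ _ _ _ _ _ _ _ e n N M I r y Z X D L a d Ξ hF hG ha hK hM hu v hv hO
  have hM' : (M : ℝ) ≠ 0 := by exact_mod_cast hM.ne'
  haveI : Algebra.EssFiniteType k K := (hGrm k K Z hF.vz).1
  obtain ⟨E, m, O, P, hE, hL, hOX, hEO, hP, hdom, hPv⟩ :=
    hKru k K F e n r y Z X hF.basis hG hF.vz hF.vx hF.mor hF.prp v hv
  obtain ⟨⟨B, hB, hBs⟩, _⟩ := hImn κ K v hv.1 n N M a d (Tv r Z L Ξ v) hM hu hK.1 hO
  obtain ⟨_, _, _, _, _, hpos, _⟩ := hO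
  have hl := XIxa.feas_dec hM a d B hB
  have hmv : mv a d v = ∑ b, XIxa.dec B b * (val v (mnr a b) : ℝ) := by
    rw [XIxa.sum_dec B (fun b => (val v (mnr a b) : ℝ)), ← hBs, mul_div_cancel_left₀ _ hM']
  obtain ⟨ψ, hψ⟩ := hF.lc.1 O hOX
  obtain ⟨c, hc⟩ := hAvg κ k K F e n N I r y Z X D L a d Ξ hF hG ha hK v (hPdd k K Z hF.vz v hv).1 _ hl hmv E m O P hE hL
    hOX hP hdom hEO.2 (fun f hf => (hPv f).1 hf) ψ hψ
  rw [XIxa.sum_dec B (fun b => (c b : ℝ))] at hc
  have h1 := hψ E hEO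
  have hm : (0 : ℝ) < m := by exact_mod_cast hL.1
  have hj : (∑ t, (c (B t) : ℝ)) / M = (((∑ t, c (B t) : ℕ) : ℕ) : ℝ) / M := by push_cast; rfl
  rw [hj] at hc
  have h2 : 1 - D E = m * (Tv r Z L Ξ v - mv a d v) + (((∑ t, c (B t) : ℕ) : ℕ) : ℝ) / M := by
    rw [← hc, ← h1]; ring
  have h3 : 0 ≤ (m : ℝ) * (Tv r Z L Ξ v - mv a d v) := mul_nonneg hm.le hpos.1
  refine ⟨E, ∑ t, c (B t), m, hEO.1, hL, by linarith, ?_⟩
  unfold Ddd
  have h4 : 1 - D E - (((∑ t, c (B t) : ℕ) : ℕ) : ℝ) / M = m * (Tv r Z L Ξ v - mv a d v) := by linarith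
  rw [h4, mul_div_cancel_left₀ _ hm.ne']

end Pool.Agent.Work.MP_a2680c_ag.HA
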