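import Pool.Agent.Work.MP_a2680c_ag.HA.Defs

/-!
# MP_a2680c_ag, block HA: decompositions of `M d` into bases, coefficient sets with denominator `M`
-/

set_option autoImplicit false

noncomputable section

namespace Pool.Agent.Work.MP_a2680c_ag.HA

open MP7b66e6 MP7b66e6.Q
open scoped BigOperators

universe u

/-- the `M`-tuples of bases `B 0, ..., B (M-1)` with `Σ_t 1_(B t) = M d` -/
def Tup {K : Type u} [Field K] {n N : ℕ} (a : Fin N → Fin (n + 1) → K) (d : Fin N → ℝ) (M : ℕ) :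
    Set (Fin M → Fin (n + 1) → Fin N) :=
  {B | (∀ t, B t ∈ bas a) ∧ ∀ i, (((∑ t, ∑ j, if B t j = i then 1 else 0 : ℕ) : ℕ) : ℝ) = M * d i}

/-- the coefficients `j/M`, `1 ≤ j ≤ M` -/
def IM (M : ℕ) : Set ℝ := {t | ∃ j : ℕ, 0 < j ∧ j ≤ M ∧ t = (j : ℝ) / M}

/-- the coefficients `1 - (1 - j/M)/μ`, `0 ≤ j ≤ M`, `μ ≥ 1` -/
def JM (M : ℕ) : Set ℝ := {t | ∃ j μ : ℕ, j ≤ M ∧ 0 < μ ∧ t = 1 - (1 - (j : ℝ) / M) / μ}

section
variable {k K F : Type u} [Field k] [Field K] [Field F] [Algebra k K] [Algebra k F] [Algebra K F]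

/-- The conclusion for coefficients with denominator `M`: (a) with `J = JM M`, (b) with `m = M`, `Γ = {1}`; (c) if the trace of
`D_mod` on `Z` is `ℝ`-Cartier, in particular if `Z` is `ℚ`-factorial, and `1 - D_div v > 0` (`≥ 0`) for all `v` in general;
(d); `D_div` is the discriminant, and `- M D_mod v` is the least value of `Σ_t v(det_(B t))` over the `M`-tuples of bases
`B 0, ..., B (M-1)` of the arrangement with `Σ_t 1_(B t) = M d`. -/
structure AdjM (κ : Prop) (M : ℕ) {e n N : ℕ} (r : Fin e → K) (y : Fin n → F) (Z : Set (Subalgebra k K))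
    (X : Set (Subalgebra k F)) (D : AddValuation F (WithTop ℤ) → ℝ) (a : Fin N → Fin (n + 1) → K) (d : Fin N → ℝ)
    (Dd Dm : AddValuation K (WithTop ℤ) → ℝ) : Prop where
  bdiv : IsB Z Dd
  bmod : IsB Z Dm
  pa : ∀ ν : AddValuation K (WithTop ℤ), PD Z ν → Dd ν ∈ JM M
  pb : Bpf Z (fun ν => M * Dm ν)
  car : QFac Z → RCar Z Dm
  pc : RCar Z Dm → Lc κ Z r Dd
  pg : ∀ ν : AddValuation K (WithTop ℤ), DivOver Z ν → Pos κ (1 - Dd ν)
  pd : Crep r y Z X D Dd Dm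
  dis : ∀ v : AddValuation K (WithTop ℤ), DivOver Z v → IsLeast (Dis r y X D v) (1 - Dd v)
  hull : ∀ v : AddValuation K (WithTop ℤ), DivOver Z v →
    IsLeast {s : ℝ | ∃ B ∈ Tup a d M, s = ∑ t, (val v (mnr a (B t)) : ℝ)} (- (M * Dm v))

end

/-- THEOREM HM. -/
def MainHM : Prop := ∀ n M : ℕ, 1 ≤ n → 1 ≤ M →
  ∀ (κ : Prop) (k K F : Type u) [Field k] [CharZero k] [Field K] [Field F] [Algebra k K] [Algebra k F] [Algebra K F]
    [IsScalarTower k K F] (e N : ℕ) (r : Fin e → K) (y : Fin n → F) (Z : Set (Subalgebra k K)) (X : Set (Subalgebra k F))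
    (D : AddValuation F (WithTop ℤ) → ℝ) (L : AddValuation K (WithTop ℤ) → ℝ) (a : Fin N → Fin (n + 1) → K) (d : Fin N → ℝ),
    Fib κ (IM M) r y Z X D L → Arr (IM M) y X D a d →
    ∃ Dd Dm : AddValuation K (WithTop ℤ) → ℝ, AdjM κ M r y Z X D a d Dd Dm

end Pool.Agent.Work.MP_a2680c_ag.HA
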