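import Pool.Agent.Work.MP_a2680c_ag.HA.DefsG
import Pool.Agent.Work.MP_a2680c_ag.HA.DefsT

/-!
# MP_a2680c_ag, block HA: the final statement for finite quotients with coefficients of denominator `M`
-/

set_option autoImplicit false

noncomputable section

namespace Pool.Agent.Work.MP_a2680c_ag.HA

open MP7b66e6 MP7b66e6.Q
open scoped BigOperators

universe u

/-- the coefficients `1 - (1 - j/(M η))/μ`, `0 ≤ j ≤ M η`, `1 ≤ η ≤ δ`, `μ ≥ 1` -/
def JMG (M δ : ℕ) : Set ℝ :=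
  {t | ∃ j η μ : ℕ, 0 < η ∧ η ≤ δ ∧ j ≤ M * η ∧ 0 < μ ∧ t = 1 - (1 - (j : ℝ) / (M * η)) / μ}

section
variable {k K F K' : Type u} [Field k] [Field K] [Field F] [Field K'] [Algebra k K] [Algebra k F] [Algebra k K'] [Algebra K F]
  [Algebra K K']

/-- The conclusion for coefficients with denominator `M`: (a) with `J = JMG M δ`, (b) with `m = M γ`, `γ = [K' : K]`, and
`Γ = {1}`; (c) if the trace of `D_mod` on `Z` is `ℝ`-Cartier, in particular if `Z` is `ℚ`-factorial, and `1 - D_div v > 0`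
(`≥ 0`) for all `v` in general; (d); `D_div` is the discriminant, and `- M D_mod v = (Σ_g τ_g) / (γ ε)` for every divisorial `v'`
over `v` of ramification index `ε`, where `τ_g` is the least value of `Σ_t v'(g(det_(B t)))` over the `M`-tuples of bases
`B 0, ..., B (M-1)` with `Σ_t 1_(B t) = M d`. -/
structure AdjH (κ : Prop) (M δ : ℕ) {e n N : ℕ} (r : Fin e → K) (x : Fin n → F) (Z : Set (Subalgebra k K))
    (X : Set (Subalgebra k F)) (D : AddValuation F (WithTop ℤ) → ℝ) (a : Fin N → Fin (n + 1) → K') (d : Fin N → ℝ)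
    [FiniteDimensional K K'] (Dd Dm : AddValuation K (WithTop ℤ) → ℝ) : Prop where
  bdiv : IsB Z Dd
  bmod : IsB Z Dm
  pa : ∀ ν : AddValuation K (WithTop ℤ), PD Z ν → Dd ν ∈ JMG M δ
  pb : Bpf Z (fun ν => ((M * Module.finrank K K' : ℕ) : ℝ) * Dm ν)
  car : QFac Z → RCar Z Dm
  pc : RCar Z Dm → Lc κ Z r Dd
  pg : ∀ ν : AddValuation K (WithTop ℤ), DivOver Z ν → Pos κ (1 - Dd ν)
  pd : Crep r x Z X D Dd Dm
  dis : ∀ v : AddValuation K (WithTop ℤ), DivOver Z v → IsLeast (Dis r x X D v) (1 - Dd v)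
  hull : ∀ v : AddValuation K (WithTop ℤ), DivOver Z v → ∀ (v' : AddValuation K' (WithTop ℤ)) (ε : ℕ), Divisorial k v' →
    Lies v v' ε → ∃ τ : (K' ≃ₐ[K] K') → ℝ,
      (∀ g : K' ≃ₐ[K] K', IsLeast {s : ℝ | ∃ B ∈ Tup a d M, s = ∑ t, (val v' (g (mnr a (B t))) : ℝ)} (τ g)) ∧
      (Module.finrank K K' : ℝ) * (ε * (- (M * Dm v))) = ∑ g, τ g

end

/-- THEOREM HH. -/
def MainHH : Prop := ∀ n M δ : ℕ, 1 ≤ n → 1 ≤ M → 1 ≤ δ →
  ∀ (κ : Prop) (k K F K' F' : Type u) [Field k] [CharZero k] [Field K] [Field F] [Field K'] [Field F'] [Algebra k K]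
    [Algebra k F] [Algebra k K'] [Algebra k F'] [Algebra K F] [Algebra K K'] [Algebra K F'] [Algebra F F'] [Algebra K' F']
    [IsScalarTower k K F] [IsScalarTower k K K'] [IsScalarTower k F F'] [IsScalarTower k K' F'] [IsScalarTower K F F']
    [IsScalarTower K K' F'] [FiniteDimensional K K'] [IsGalois K K'] [FiniteDimensional F F'] [IsGalois F F']
    (e N : ℕ) (r : Fin e → K) (x : Fin n → F) (y : Fin n → F') (Z : Set (Subalgebra k K)) (X : Set (Subalgebra k F))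
    (D : AddValuation F (WithTop ℤ) → ℝ) (L : AddValuation K (WithTop ℤ) → ℝ) (a : Fin N → Fin (n + 1) → K')
    (d : Fin N → ℝ),
    Fib κ (IM M) r x Z X D L → Cov (K := K) δ (IM M) x y X D a d →
    ∃ Dd Dm : AddValuation K (WithTop ℤ) → ℝ, AdjH κ M δ r x Z X D a d Dd Dm

end Pool.Agent.Work.MP_a2680c_ag.HA
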