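import Pool.Agent.Work.MP_a2680c_ag.HA.StmtsY
import Pool.Agent.Work.MP_a2680c_ag.HA.DefsC
import Pool.Agent.Work.MP_a2680c_ag.HA.I_Mag
import Pool.Agent.Work.MP_a2680c_ag.HA.I_Ixa
import Pool.Agent.Work.MP_a2680c_ag.HA.I_Fbf

/-! [a2680c HA Mcc] (helper9): assembly of part C. -/

set_option autoImplicit false

noncomputable section

namespace Pool.Agent.Work.MP_a2680c_ag.HA

open MP7b66e6 MP7b66e6.Q
open scoped BigOperators

universe u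

/-- the integral part of the conclusion -/
def IntC (M δ : ℕ) {k K F K' : Type u} [Field k] [Field K] [Field F] [Field K'] [Algebra k K]
    [Algebra k F] [Algebra k K'] [Algebra K F] [Algebra K K'] {n N : ℕ}
    (Z : Set (Subalgebra k K)) (X : Set (Subalgebra k F)) (D : AddValuation F (WithTop ℤ) → ℝ)
    (a : Fin N → Fin (n + 1) → K') (d : Fin N → ℝ) (Dd Dm : AddValuation K (WithTop ℤ) → ℝ) : Prop :=
  Bpf Z (fun ν => ((M * Module.finrank K K' : ℕ) : ℝ) * Dm ν) ∧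
  (∀ v : AddValuation K (WithTop ℤ), DivOver Z v → ∀ (v' : AddValuation K' (WithTop ℤ)) (ε : ℕ), Divisorial k v' →
    Lies v v' ε → ∀ g : K' ≃ₐ[K] K',
    IsLeast {s : ℝ | ∃ B ∈ Tup a d M, s = ∑ t, (val v' (g (mnr a (B t))) : ℝ)} (M * mv a d (cg g v'))) ∧
  ∀ v : AddValuation K (WithTop ℤ), PD Z v → ∃ (E : AddValuation F (WithTop ℤ)) (j μ η : ℕ), PD X E ∧ Lies v E μ ∧
    0 < η ∧ η ≤ δ ∧ D E + j / (M * η) ≤ 1 ∧ Dd v = 1 - (1 - D E - j / (M * η)) / μ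

namespace XMcc

/-- the discriminant of `X → Z` is the one of the b-fibration -/
theorem dis_eq (hEff : StEff.{u}) (hLoc : StLoc.{u}) (hCnt : StCnt.{u}) {κ : Prop} {k K F : Type u} [Field k] [CharZero k]
    [Field K] [Field F] [Algebra k K] [Algebra k F] [Algebra K F] [IsScalarTower k K F] {e n : ℕ} {I : Set ℝ} {r : Fin e → K}
    {x : Fin n → F} {Z : Set (Subalgebra k K)} {X : Set (Subalgebra k F)} {D : AddValuation F (WithTop ℤ) → ℝ}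
    {L : AddValuation K (WithTop ℤ) → ℝ} (hF : Fib κ I r x Z X D L) (hb : IsTranscendenceBasis k (cor r x))
    {v : AddValuation K (WithTop ℤ)} (hv : DivOver Z v) : Dis r x X D v = DisB k (crp r x X D) v := by
  ext t
  constructor
  · rintro ⟨W, m, O, φ, hW, hL, hO, hc, hφ, ht⟩
    refine ⟨W, m, hW, hL, ?_⟩
    rw [ht, XFbf.crp_eq hEff hLoc hF.vx hb ⟨hW, O, hO, hc, φ, hφ, rfl⟩, sub_sub_cancel]
  · rintro ⟨W, m, hW, hL, ht⟩
    obtain ⟨P, hP, hcen⟩ := hv.2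
    have hOv : Ov Z W := by
      refine ⟨P, hP, fun f hf => ?_⟩
      by_cases hf0 : f = 0
      · rw [hf0, map_zero, AddValuation.map_zero]; exact le_top
      have hf1 : algebraMap K F f ≠ 0 := by
        rw [map_ne_zero_iff _ (algebraMap K F).injective]; exact hf0
      rw [← Api.val_nonneg W hf1, hL.2 f hf0]
      exact mul_nonneg (by exact_mod_cast Nat.zero_le _) ((Api.val_nonneg v hf0).2 (hcen.1 f hf))
    obtain ⟨O, hO, hc⟩ := (hCnt k K F Z hF.vz).2 X hF.prp W hOv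
    obtain ⟨φ, hφ⟩ := hF.lc.1 O hO
    refine ⟨W, m, O, φ, hW, hL, hO, hc, hφ, ?_⟩
    rw [ht, XFbf.crp_eq hEff hLoc hF.vx hb ⟨hW, O, hO, hc, φ, hφ, rfl⟩, sub_sub_cancel]

/-- the discriminants of a cover and of the base coincide -/
theorem disB_eq (hEXT : StEXT.{u, u, u}) (hRsv : StRsv.{u}) {k K F₀ F : Type u} [Field k] [CharZero k]
    [Field K] [Field F₀] [Field F] [Algebra k K] [Algebra k F₀] [Algebra k F] [Algebra K F₀] [Algebra K F] [Algebra F₀ F]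
    [IsScalarTower k K F₀] [IsScalarTower k K F] [IsScalarTower k F₀ F] [IsScalarTower K F₀ F] [FiniteDimensional F₀ F]
    [Algebra.EssFiniteType k F₀] [Algebra.EssFiniteType k F] {d₀ d : ℕ} {c₀ : Fin d₀ → F₀} {c : Fin d → F}
    (hc₀ : IsTranscendenceBasis k c₀) (hc : IsTranscendenceBasis k c) {𝔻₀ : AddValuation F₀ (WithTop ℤ) → ℝ}
    {𝔻 : AddValuation F (WithTop ℤ) → ℝ} (h𝔻 : ∀ (ν : AddValuation F₀ (WithTop ℤ)) (ν' : AddValuation F (WithTop ℤ)) (ε : ℕ),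
      Divisorial k ν → (∃ π : F, ν' π = 1) → Lies ν ν' ε → 1 - 𝔻 ν' = ε * (1 - 𝔻₀ ν)) {v : AddValuation K (WithTop ℤ)}
    (hv : ∃ π : K, v π = 1) : DisB k 𝔻 v = DisB k 𝔻₀ v := by
  ext t
  constructor
  · rintro ⟨W, m, hW, hL, ht⟩
    obtain ⟨π, hπ⟩ := hv
    have hπ0 : π ≠ 0 := by
      intro h0; rw [h0, AddValuation.map_zero] at hπ; exact absurd hπ (by simp)
    have hvπ : val v π = 1 := Api.val_of v hπ
    obtain ⟨W₀, θ, hW₀, hL₀⟩ := hRsv k F₀ F d₀ d c₀ c hc₀ hc W hW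
      ⟨algebraMap K F₀ π, by rw [map_ne_zero_iff _ (algebraMap K F₀).injective]; exact hπ0, by
        rw [← IsScalarTower.algebraMap_apply K F₀ F, hL.2 π hπ0, hvπ, mul_one]
        exact_mod_cast hL.1.ne'⟩
    obtain ⟨μ, hLμ, hmul⟩ := Api.lies_mid (v := v) (W := W₀) (W' := W) ⟨π, hπ⟩ hL₀ hL
    refine ⟨W₀, μ, hW₀, hLμ, ?_⟩
    rw [ht, h𝔻 W₀ W θ hW₀ hW.1 hL₀, ← hmul]
    have h1 : (0 : ℝ) < θ := by exact_mod_cast hL₀.1
    push_cast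
    rw [mul_div_mul_left _ _ h1.ne']
  · rintro ⟨W₀, m₀, hW₀, hL₀, ht⟩
    obtain ⟨W, θ, hW, hL⟩ := hEXT k F₀ F W₀ hW₀
    refine ⟨W, θ * m₀, hW, Api.lies_trans hL₀ hL, ?_⟩
    rw [ht, h𝔻 W₀ W θ hW₀ hW.1 hL]
    have h1 : (0 : ℝ) < θ := by exact_mod_cast hL.1
    push_cast
    rw [mul_div_mul_left _ _ h1.ne']

end XMcc

theorem pr_Mcc (hEXT : StEXT.{u, u, u}) (hGrm : StGrm.{u}) (hPdd : StPdd.{u}) (hCgd : StCgd.{u}) (hNmx : StNmx.{u})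
    (hCsg : StCsg) (hHul : StHul.{u}) (hLst : StLst.{u}) (hAbg : StAbg.{u}) (hAcg : StAcg.{u}) (hAdg : StAdg.{u})
    (hAfg : StAfg.{u}) (hImn : StImn.{u}) (hIbg : StIbg.{u}) (hEff : StEff.{u}) (hLoc : StLoc.{u}) (hCnt : StCnt.{u})
    (hTb : StTb.{u}) (hCmp : StCmp.{u}) (hRmi : StRmi.{u}) (hKrg : StKrg.{u}) (hFbf : StFbf.{u}) (hGex : StGex.{u})
    (hRsv : StRsv.{u}) (hEtb : StEtb.{u}) (hDim : StDim.{u}) (hQbf : StQbf.{u}) (hKeb : StKeb.{u}) (hOpb : StOpb.{u})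
    (hDsb : StDsb.{u}) (hAvb : StAvb.{u}) : ∀ n δ : ℕ, 1 ≤ n → 1 ≤ δ → ∀ I : Set ℝ, I ⊆ Set.Ioc 0 1 → DCC I →
  ∃ (J Γ : Set ℝ) (m : ℕ), J ⊆ Set.Ioc 0 1 ∧ DCC J ∧ Γ ⊆ Set.Ioc 0 1 ∧ Γ.Finite ∧ 1 ≤ m ∧
    ∀ (κ : Prop) (k K F₀ F K' F' : Type u) [Field k] [CharZero k] [Field K] [Field F₀] [Field F] [Field K'] [Field F']
      [Algebra k K] [Algebra k F₀] [Algebra k F] [Algebra k K'] [Algebra k F'] [Algebra K F₀] [Algebra K F] [Algebra K K']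
      [Algebra K F'] [Algebra F₀ F] [Algebra F₀ F'] [Algebra K' F'] [IsScalarTower k K F₀] [IsScalarTower k K F]
      [IsScalarTower k F₀ F] [IsScalarTower K F₀ F] [IsScalarTower k K K'] [IsScalarTower k F₀ F'] [IsScalarTower k K' F']
      [IsScalarTower K F₀ F'] [IsScalarTower K K' F'] [FiniteDimensional F₀ F] [Algebra.EssFiniteType k F₀]
      [FiniteDimensional K K'] [IsGalois K K'] [FiniteDimensional F₀ F'] [IsGalois F₀ F']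
      (e N : ℕ) (r : Fin e → K) (x : Fin n → F) (y : Fin n → F') (Z : Set (Subalgebra k K)) (X : Set (Subalgebra k F))
      (D : AddValuation F (WithTop ℤ) → ℝ) (L : AddValuation K (WithTop ℤ) → ℝ) (𝔻₀ : AddValuation F₀ (WithTop ℤ) → ℝ)
      (a : Fin N → Fin (n + 1) → K') (d : Fin N → ℝ),
      Fib κ I r x Z X D L → IsTranscendenceBasis k (cor r x) →
      (∀ (ν : AddValuation F₀ (WithTop ℤ)) (ν' : AddValuation F (WithTop ℤ)) (ε : ℕ), Divisorial k ν →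
        (∃ π : F, ν' π = 1) → Lies ν ν' ε → 1 - crp r x X D ν' = ε * (1 - 𝔻₀ ν)) →
      Cvd (K := K) k δ I y 𝔻₀ a d →
      ∃ Dd Dm : AddValuation K (WithTop ℤ) → ℝ, AdjG κ J Γ m r x Z X D a d Dd Dm ∧
        ∀ M : ℕ, 0 < M → (∀ i, ∃ u : ℕ, (M : ℝ) * d i = u) → IntC M δ Z X D a d Dd Dm := by
  classical
  intro n δ hn hδ I hI hD
  obtain ⟨J, Γ, m, hJ, hJD, hΓ, hΓf, hm, hC⟩ := hCsg n δ I hI hD
  refine ⟨J, Γ, m * δ.factorial, hJ, hJD, hΓ, hΓf, Nat.mul_pos hm (Nat.factorial_pos δ), ?_⟩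
  intro κ k K F₀ F K' F' _ _ _ _ _ _ _ _ _ _ _ _ _ _ _ _ _ _ _ _ _ _ _ _ _ _ _ _ _ _ _ _ _ _ e N r x y Z X D L 𝔻₀ a d
    hF hb h𝔻 hA
  have hG : GenBy K' y := ⟨hA.indep, hA.gen⟩
  haveI hK1 : Algebra.EssFiniteType k K := (hGrm k K Z hF.vz).1
  haveI hF1 : Algebra.EssFiniteType k F := (hGrm k F X hF.vx).1
  obtain ⟨⟨Φ, hB⟩, hcrp⟩ := hFbf κ k K F e n I r x Z X D L hF hb
  obtain ⟨d₀, c₀, hc₀⟩ := hEtb k F₀
  have hd₀ : d₀ = e + n := hDim.1 k K F₀ K' F' e d₀ n r c₀ y hF.basis hc₀ hG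
  subst hd₀
  obtain ⟨Φ₀, hB₀⟩ := hQbf κ k K F₀ F e (e + n) (e + n) r c₀ (cor r x) Z 𝔻₀ (crp r x X D) L Φ hB hc₀
    (fun ν ν' ε h1 _ h3 h4 => h𝔻 ν ν' ε h1 h3 h4)
  obtain ⟨Ξ, J', hΞ⟩ := hKeb κ k K F₀ K' F' δ e n N I r c₀ y Z 𝔻₀ L Φ₀ a d hn hB₀ hA
  have hd : ∀ i, 0 ≤ d i := fun i => (hI (hA.mem i)).1.le
  have hO : ∀ v : AddValuation K (WithTop ℤ), DivOver Z v → ∀ (v' : AddValuation K' (WithTop ℤ)) (ε : ℕ),
      Divisorial k v' → Lies v v' ε → OptC κ a d (Tg r Z L Ξ v v' ε) v' := fun v hv v' ε hv' hL =>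
    hOpb κ k K F₀ K' F' e n N r c₀ y Z 𝔻₀ L Φ₀ a d Ξ J' hB₀ hG hA.nz hd hΞ v hv v' ε hv' hL
  have hDs0 : ∀ v : AddValuation K (WithTop ℤ), DivOver Z v → ∀ (v' : AddValuation K' (WithTop ℤ)) (ε : ℕ),
      Divisorial k v' → Lies v v' ε → IsLeast (DisB k 𝔻₀ v) ((Tg r Z L Ξ v v' ε - mv a d v') / ε) :=
    fun v hv v' ε hv' hL => hDsb κ k K F₀ K' F' e n N r c₀ y Z 𝔻₀ L Φ₀ a d Ξ J' hB₀ hG hA.nz hd hΞ hA.conn v hv v' ε
      hv' hL (hO v hv v' ε hv' hL)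
  have hDs : ∀ v : AddValuation K (WithTop ℤ), DivOver Z v → ∀ (v' : AddValuation K' (WithTop ℤ)) (ε : ℕ),
      Divisorial k v' → Lies v v' ε → IsLeast (Dis r x X D v) ((Tg r Z L Ξ v v' ε - mv a d v') / ε) := by
    intro v hv v' ε hv' hL
    rw [XMcc.dis_eq hEff hLoc hCnt hF hb hv, XMcc.disB_eq hEXT hRsv hc₀ hb h𝔻 hv.1.1]
    exact hDs0 v hv v' ε hv' hL
  -- the coefficients
  have hAag : ∀ v : AddValuation K (WithTop ℤ), PD Z v → ∀ (v' : AddValuation K' (WithTop ℤ)) (ε : ℕ), Divisorial k v' →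
      Lies v v' ε → DivOver Z v → ∀ l : (Fin (n + 1) → Fin N) → ℝ, Feas (bas a) d l →
      mv a d v' = ∑ b, l b * (val v' (mnr a b) : ℝ) →
      ∃ (E : AddValuation F (WithTop ℤ)) (c : (Fin (n + 1) → Fin N) → ℕ) (μ η : ℕ), PD X E ∧ Lies v E μ ∧ 0 < η ∧
        η ≤ Module.finrank F₀ F' ∧
        1 - D E - (∑ b, l b * (c b : ℝ)) / η = μ * ((Tg r Z L Ξ v v' ε - mv a d v') / ε) := by
    intro v hv v' ε hv' hL hv1 l hl hmv
    obtain ⟨W₁, m₁, hW₁, hL₁⟩ := hGex k K F e (e + n) r (cor r x) hF.basis hb v hv1.1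
    obtain ⟨E, μ, O, P, hE, hLE, hO', hPE, _, _, _⟩ := hKrg k K F (e + n) Z X (hTb k F (e + n) (cor r x) hb).2 hF.vz hF.vx
      hF.mor hF.prp v hv ⟨W₁, m₁, fun c => by
        obtain ⟨C, _, hC0, _⟩ := hW₁.2
        exact hC0 _ (C.algebraMap_mem c), hL₁⟩
    obtain ⟨π, hπ⟩ := hv1.1.1
    have hπ0 : π ≠ 0 := by
      intro h0; rw [h0, AddValuation.map_zero] at hπ; exact absurd hπ (by simp)
    have hvπ : val v π = 1 := Api.val_of v hπ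
    obtain ⟨W, θ, hW, hLW⟩ := hRsv k F₀ F (e + n) (e + n) c₀ (cor r x) hc₀ hb E hE
      ⟨algebraMap K F₀ π, by rw [map_ne_zero_iff _ (algebraMap K F₀).injective]; exact hπ0, by
        rw [← IsScalarTower.algebraMap_apply K F₀ F, hLE.2 π hπ0, hvπ, mul_one]
        exact_mod_cast hLE.1.ne'⟩
    obtain ⟨μ₀, hLv, hmul⟩ := Api.lies_mid (v := v) (W := W) (W' := E) ⟨π, hπ⟩ hLW hLE
    obtain ⟨W', η, m', hW', hη, hm'⟩ := hCmp k K F₀ K' F' hA.conn v W v' μ₀ ε hW hLv hv'.1 hL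
    obtain ⟨b', hb'⟩ := hAvb κ k K F₀ K' F' e n N r c₀ y Z 𝔻₀ L Φ₀ a d Ξ J' hB₀ hG hA.nz hd hΞ v v' ε hv1 hv' hL l hl hmv
      W W' η m' hW hW' hη hm'
    have hidx : η * μ₀ = m' * ε := by
      have h1 := (Api.lies_trans hLv hη).2 π hπ0
      have h2 := (Api.lies_trans hL hm').2 π hπ0
      rw [h1, hvπ, mul_one, mul_one] at h2
      exact_mod_cast h2
    have hη0 : (0 : ℝ) < η := by exact_mod_cast hη.1
    have hε0 : (0 : ℝ) < ε := by exact_mod_cast hL.1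
    have hcr := h𝔻 W E θ hW hE.1 hLW
    rw [hcrp E hPE.1] at hcr
    have hidx' : (η : ℝ) * μ₀ = m' * ε := by exact_mod_cast hidx
    have hmul' : (θ : ℝ) * μ₀ = μ := by exact_mod_cast hmul
    refine ⟨E, fun b => θ * b' b, μ, η, hPE.1, hLE, hη.1, hRmi F₀ F' W W' η hη hW'.1, ?_⟩
    have hs : (∑ b, l b * (((θ * b' b : ℕ) : ℕ) : ℝ)) = θ * ∑ b, l b * (b' b : ℝ) := by
      rw [Finset.mul_sum]
      apply Finset.sum_congr rfl
      intro b _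
      push_cast
      ring
    rw [hs, hcr, ← hmul']
    have h3 : (1 : ℝ) - 𝔻₀ W = (m' * (Tg r Z L Ξ v v' ε - mv a d v') + ∑ b, l b * (b' b : ℝ)) / η := by
      rw [eq_div_iff hη0.ne', mul_comm]; exact hb'
    rw [h3]
    have h4 : (μ₀ : ℝ) = m' * ε / η := by
      rw [eq_div_iff hη0.ne', mul_comm]; exact hidx'
    rw [h4]
    field_simp
    ring
  have hPDO : ∀ v : AddValuation K (WithTop ℤ), PD Z v → DivOver Z v := by
    intro v hv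
    obtain ⟨h1, R, hR, hc, _⟩ := hPdd k K Z hF.vz v hv
    exact ⟨h1, R, hR, hc⟩
  obtain ⟨hC1, l, w, G, hw, hw1, hP⟩ := hC N d hA.mem hΞ.1
  have hw0 : ∀ i, 0 ≤ w i := fun i => (hΓ (hw i)).1.le
  -- the finite sets
  obtain ⟨S, hS, hSv⟩ : ∃ S : Fin l → Finset Kˣ, (∀ i, (S i).Nonempty) ∧
      ∀ v : AddValuation K (WithTop ℤ), DivOver Z v → ∀ (v' : AddValuation K' (WithTop ℤ)) (ε : ℕ), Lies v v' ε →
      (∀ m : ℕ, m ≠ 0 → v' (m : K') = 0) →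
      (∀ g : K' ≃ₐ[K] K', IsLeast (vals (bas a) d fun b => val (cg g v') (mnr a b)) (mv a d (cg g v'))) →
      (m : ℝ) * ∑ g : K' ≃ₐ[K] K', mv a d (cg g v') = ε * ∑ i, w i * (mnS (S i) v : ℝ) := by
    by_cases h0 : ∃ l₀, Feas (bas a) d l₀
    · haveI : CharZero K := charZero_of_injective_algebraMap (algebraMap k K).injective
      obtain ⟨S, hS, hSv⟩ := hHul K K' n N a d m l w G hP h0
      exact ⟨S, hS, fun v _ v' ε => hSv v v' ε⟩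
    · refine ⟨fun _ => {1}, fun _ => Finset.singleton_nonempty 1, ?_⟩
      intro v hv
      exfalso
      obtain ⟨v', ε, hv', hL⟩ := hEXT k K K' v hv.1
      obtain ⟨l₀, hl₀, _⟩ := hO v hv v' ε hv' hL
      exact h0 ⟨l₀, hl₀⟩
  obtain ⟨Ξ₀, hΞ₀⟩ := hNmx K K' Ξ
  set γ : ℕ := Module.finrank K K' with hγ
  have hγ0 : 0 < γ := Module.finrank_pos
  have hM : 0 < m * γ := Nat.mul_pos hm hγ0
  have hlst : ∀ v : AddValuation K (WithTop ℤ), DivOver Z v → ∀ (v' : AddValuation K' (WithTop ℤ)) (ε : ℕ),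
      Divisorial k v' → Lies v v' ε →
      (γ : ℝ) * (ε * (- Dmg w S (m * γ) v)) = ∑ g : K' ≃ₐ[K] K', mv a d (cg g v') ∧
      (Tg r Z L Ξ v v' ε - mv a d v') / ε = Tv r Z L Ξ₀ v + Dmg w S (m * γ) v := by
    intro v hv
    refine hLst k K K' e n N m l r Z L a d Ξ Ξ₀ w S v (Dis r x X D v) hm (hΞ₀ v) (hSv v hv) ?_
    intro v' ε hv' hL
    obtain ⟨_, _, _, _, hle, _⟩ := hO v hv v' ε hv' hL
    exact ⟨hle, hDs v hv v' ε hv' hL⟩
  have hpos : ∀ v : AddValuation K (WithTop ℤ), DivOver Z v → Pos κ (Tv r Z L Ξ₀ v + Dmg w S (m * γ) v) := by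
    intro v hv
    obtain ⟨v', ε, hv', hL⟩ := hEXT k K K' v hv.1
    rw [← (hlst v hv v' ε hv' hL).2]
    obtain ⟨_, _, _, _, _, hp, _⟩ := hO v hv v' ε hv' hL
    have hε : (0 : ℝ) < ε := by exact_mod_cast hL.1
    exact ⟨div_nonneg hp.1 hε.le, fun hk => div_pos (hp.2 hk) hε⟩
  have hfs := hAfg k K e l (m * γ) r Z L Ξ₀ w S hF.basis hF.vz hF.divL hF.carL
  have hcc := hAcg κ k K e l (m * γ) r Z L Ξ₀ w S hF.basis hF.vz hF.divL hF.carL hM hw0 hS hpos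
  have hsub : ∀ v : AddValuation K (WithTop ℤ), 1 - Ddg r Z L Ξ₀ w S (m * γ) v = Tv r Z L Ξ₀ v + Dmg w S (m * γ) v := by
    intro v; unfold Ddg; ring
  refine ⟨Ddg r Z L Ξ₀ w S (m * γ), Dmg w S (m * γ), ?_, ?_⟩
  refine
    { bdiv := hfs.1
      bmod := hfs.2
      pa := ?_
      pb := ?_
      car := hcc.1
      pc := hcc.2
      pg := ?_
      pd := ?_
      dis := ?_
      hull := ?_ }
  · intro v hv
    have hv1 := hPDO v hv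
    obtain ⟨v', ε, hv', hL⟩ := hEXT k K K' v hv1.1
    obtain ⟨l', hl', hbas, hmv, _, hp, _⟩ := hO v hv1 v' ε hv' hL
    obtain ⟨E, c, μ, η, hE, hLE, hη, hηδ, heq⟩ := hAag v hv v' ε hv' hL hv1 l' hl' hmv
    have hμ : (0 : ℝ) < μ := by exact_mod_cast hLE.1
    have hε : (0 : ℝ) < ε := by exact_mod_cast hL.1
    rw [(hlst v hv1 v' ε hv' hL).2] at heq
    have h1 : Ddg r Z L Ξ₀ w S (m * γ) v = 1 - (1 - D E - (∑ b, l' b * (c b : ℝ)) / η) / μ := by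
      rw [heq, mul_div_cancel_left₀ _ hμ.ne', ← hsub v]; ring
    rw [h1]
    refine hC1 (bas a) l' c (D E) μ η hl' hbas (hF.coef E hE) hLE.1 hη (le_trans hηδ hA.degF) ?_
    have h2 : 0 ≤ (μ : ℝ) * (Tv r Z L Ξ₀ v + Dmg w S (m * γ) v) := mul_nonneg hμ.le (hpos v hv1).1
    linarith
  · have hdvd : γ ∣ δ.factorial := Nat.dvd_factorial hγ0 hA.degK
    obtain ⟨c, hc⟩ := hdvd
    have hc0 : 0 < c := by
      rcases Nat.eq_zero_or_pos c with h | h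
      · rw [h, mul_zero] at hc
        exact absurd hc (Nat.factorial_pos δ).ne'
      · exact h
    have h1 := hAbg k K e l (m * γ) c r Z Γ w S hF.basis hF.vz hM hc0 hw hw1 hS
    have h2 : c * (m * γ) = m * δ.factorial := by rw [hc]; ring
    rw [h2] at h1
    exact h1
  · intro v hv
    rw [hsub v]
    exact hpos v hv
  · refine hAdg κ k K F e n I r x Z X D L Ξ₀ _ _ hF hb ?_
    intro ν
    unfold Ddg Tv
    ring
  · intro v hv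
    obtain ⟨v', ε, hv', hL⟩ := hEXT k K K' v hv.1
    rw [hsub v, ← (hlst v hv v' ε hv' hL).2]
    exact hDs v hv v' ε hv' hL
  · intro v hv v' ε hv' hL
    refine ⟨fun g => ?_, (hlst v hv v' ε hv' hL).1⟩
    obtain ⟨_, _, _, _, hle, _⟩ := hO v hv (cg g v') ε (hCgd k K K' g v' hv') (Api.lies_cg hL g)
    exact hle
  · intro M hM0 hu
    have hM' : (M : ℝ) ≠ 0 := by exact_mod_cast hM0.ne'
    refine ⟨?_, ?_, ?_⟩
    · refine hIbg κ k K K' e n N M r Z a d (Dmg w S (m * γ)) hF.basis hF.vz hM0 hu hΞ.1 ?_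
      intro v hv
      obtain ⟨v', ε, hv', hL⟩ := hEXT k K K' v hv.1
      refine ⟨v', ε, hv', hL, fun g => ⟨(hCgd k K K' g v' hv').1, _, hO v hv (cg g v') ε (hCgd k K K' g v' hv')
        (Api.lies_cg hL g)⟩, (hlst v hv v' ε hv' hL).1⟩
    · intro v hv v' ε hv' hL g
      exact hImn κ K' (cg g v') (hCgd k K K' g v' hv').1 n N M a d _ hM0 hu hΞ.1
        (hO v hv (cg g v') ε (hCgd k K K' g v' hv') (Api.lies_cg hL g))
    · intro v hv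
      have hv1 := hPDO v hv
      obtain ⟨v', ε, hv', hL⟩ := hEXT k K K' v hv1.1
      obtain ⟨⟨B, hB, hBs⟩, _⟩ := hImn κ K' v' hv'.1 n N M a d _ hM0 hu hΞ.1 (hO v hv1 v' ε hv' hL)
      have hl := XIxa.feas_dec hM0 a d B hB
      have hmv : mv a d v' = ∑ b, XIxa.dec B b * (val v' (mnr a b) : ℝ) := by
        rw [XIxa.sum_dec B (fun b => (val v' (mnr a b) : ℝ)), ← hBs, mul_div_cancel_left₀ _ hM']
      obtain ⟨E, c, μ, η, hE, hLE, hη, hηδ, heq⟩ := hAag v hv v' ε hv' hL hv1 _ hl hmv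
      have hμ : (0 : ℝ) < μ := by exact_mod_cast hLE.1
      rw [(hlst v hv1 v' ε hv' hL).2, XIxa.sum_dec B (fun b => (c b : ℝ)), div_div] at heq
      have hj : (∑ t, (c (B t) : ℝ)) = (((∑ t, c (B t) : ℕ) : ℕ) : ℝ) := by push_cast; rfl
      rw [hj] at heq
      have h2 : 0 ≤ (μ : ℝ) * (Tv r Z L Ξ₀ v + Dmg w S (m * γ) v) := mul_nonneg hμ.le (hpos v hv1).1
      refine ⟨E, ∑ t, c (B t), μ, η, hE, hLE, hη, le_trans hηδ hA.degF, by linarith, ?_⟩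
      rw [heq, mul_div_cancel_left₀ _ hμ.ne', ← hsub v]; ring


theorem pr_Mcg (h : ∀ n δ : ℕ, 1 ≤ n → 1 ≤ δ → ∀ I : Set ℝ, I ⊆ Set.Ioc 0 1 → DCC I →
  ∃ (J Γ : Set ℝ) (m : ℕ), J ⊆ Set.Ioc 0 1 ∧ DCC J ∧ Γ ⊆ Set.Ioc 0 1 ∧ Γ.Finite ∧ 1 ≤ m ∧
    ∀ (κ : Prop) (k K F₀ F K' F' : Type u) [Field k] [CharZero k] [Field K] [Field F₀] [Field F] [Field K'] [Field F']
      [Algebra k K] [Algebra k F₀] [Algebra k F] [Algebra k K'] [Algebra k F'] [Algebra K F₀] [Algebra K F] [Algebra K K']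
      [Algebra K F'] [Algebra F₀ F] [Algebra F₀ F'] [Algebra K' F'] [IsScalarTower k K F₀] [IsScalarTower k K F]
      [IsScalarTower k F₀ F] [IsScalarTower K F₀ F] [IsScalarTower k K K'] [IsScalarTower k F₀ F'] [IsScalarTower k K' F']
      [IsScalarTower K F₀ F'] [IsScalarTower K K' F'] [FiniteDimensional F₀ F] [Algebra.EssFiniteType k F₀]
      [FiniteDimensional K K'] [IsGalois K K'] [FiniteDimensional F₀ F'] [IsGalois F₀ F']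
      (e N : ℕ) (r : Fin e → K) (x : Fin n → F) (y : Fin n → F') (Z : Set (Subalgebra k K)) (X : Set (Subalgebra k F))
      (D : AddValuation F (WithTop ℤ) → ℝ) (L : AddValuation K (WithTop ℤ) → ℝ) (𝔻₀ : AddValuation F₀ (WithTop ℤ) → ℝ)
      (a : Fin N → Fin (n + 1) → K') (d : Fin N → ℝ),
      Fib κ I r x Z X D L → IsTranscendenceBasis k (cor r x) →
      (∀ (ν : AddValuation F₀ (WithTop ℤ)) (ν' : AddValuation F (WithTop ℤ)) (ε : ℕ), Divisorial k ν →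
        (∃ π : F, ν' π = 1) → Lies ν ν' ε → 1 - crp r x X D ν' = ε * (1 - 𝔻₀ ν)) →
      Cvd (K := K) k δ I y 𝔻₀ a d →
      ∃ Dd Dm : AddValuation K (WithTop ℤ) → ℝ, AdjG κ J Γ m r x Z X D a d Dd Dm ∧
        ∀ M : ℕ, 0 < M → (∀ i, ∃ u : ℕ, (M : ℝ) * d i = u) → IntC M δ Z X D a d Dd Dm) : MainCG.{u} := by
  intro n δ hn hδ I hI hD
  obtain ⟨J, Γ, m, hJ, hJD, hΓ, hΓf, hm, hC⟩ := h n δ hn hδ I hI hD
  refine ⟨J, Γ, m, hJ, hJD, hΓ, hΓf, hm, ?_⟩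
  intro κ k K F₀ F K' F' _ _ _ _ _ _ _ _ _ _ _ _ _ _ _ _ _ _ _ _ _ _ _ _ _ _ _ _ _ _ _ _ _ _ e N r x y Z X D L 𝔻₀ a d
    hF hb h𝔻 hA
  obtain ⟨Dd, Dm, h, _⟩ := hC κ k K F₀ F K' F' e N r x y Z X D L 𝔻₀ a d hF hb h𝔻 hA
  exact ⟨Dd, Dm, h⟩

theorem pr_Mch (h : ∀ n δ : ℕ, 1 ≤ n → 1 ≤ δ → ∀ I : Set ℝ, I ⊆ Set.Ioc 0 1 → DCC I →
  ∃ (J Γ : Set ℝ) (m : ℕ), J ⊆ Set.Ioc 0 1 ∧ DCC J ∧ Γ ⊆ Set.Ioc 0 1 ∧ Γ.Finite ∧ 1 ≤ m ∧
    ∀ (κ : Prop) (k K F₀ F K' F' : Type u) [Field k] [CharZero k] [Field K] [Field F₀] [Field F] [Field K'] [Field F']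
      [Algebra k K] [Algebra k F₀] [Algebra k F] [Algebra k K'] [Algebra k F'] [Algebra K F₀] [Algebra K F] [Algebra K K']
      [Algebra K F'] [Algebra F₀ F] [Algebra F₀ F'] [Algebra K' F'] [IsScalarTower k K F₀] [IsScalarTower k K F]
      [IsScalarTower k F₀ F] [IsScalarTower K F₀ F] [IsScalarTower k K K'] [IsScalarTower k F₀ F'] [IsScalarTower k K' F']
      [IsScalarTower K F₀ F'] [IsScalarTower K K' F'] [FiniteDimensional F₀ F] [Algebra.EssFiniteType k F₀]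
      [FiniteDimensional K K'] [IsGalois K K'] [FiniteDimensional F₀ F'] [IsGalois F₀ F']
      (e N : ℕ) (r : Fin e → K) (x : Fin n → F) (y : Fin n → F') (Z : Set (Subalgebra k K)) (X : Set (Subalgebra k F))
      (D : AddValuation F (WithTop ℤ) → ℝ) (L : AddValuation K (WithTop ℤ) → ℝ) (𝔻₀ : AddValuation F₀ (WithTop ℤ) → ℝ)
      (a : Fin N → Fin (n + 1) → K') (d : Fin N → ℝ),
      Fib κ I r x Z X D L → IsTranscendenceBasis k (cor r x) →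
      (∀ (ν : AddValuation F₀ (WithTop ℤ)) (ν' : AddValuation F (WithTop ℤ)) (ε : ℕ), Divisorial k ν →
        (∃ π : F, ν' π = 1) → Lies ν ν' ε → 1 - crp r x X D ν' = ε * (1 - 𝔻₀ ν)) →
      Cvd (K := K) k δ I y 𝔻₀ a d →
      ∃ Dd Dm : AddValuation K (WithTop ℤ) → ℝ, AdjG κ J Γ m r x Z X D a d Dd Dm ∧
        ∀ M : ℕ, 0 < M → (∀ i, ∃ u : ℕ, (M : ℝ) * d i = u) → IntC M δ Z X D a d Dd Dm) : MainCH.{u} := by
  intro n M δ hn hM hδ κ k K F₀ F K' F' _ _ _ _ _ _ _ _ _ _ _ _ _ _ _ _ _ _ _ _ _ _ _ _ _ _ _ _ _ _ _ _ _ _ e N r x y Z X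
    D L 𝔻₀ a d hF hb h𝔻 hA
  obtain ⟨J, Γ, m, _, _, _, _, _, hC⟩ := h n δ hn hδ (IM M) (XMag_sub M) (XMag_dcc M)
  obtain ⟨Dd, Dm, h, ho⟩ := hC κ k K F₀ F K' F' e N r x y Z X D L 𝔻₀ a d hF hb h𝔻 hA
  have hM' : (0 : ℝ) < M := by exact_mod_cast hM
  have hu : ∀ i, ∃ u : ℕ, (M : ℝ) * d i = u := by
    intro i
    obtain ⟨j, _, _, hj⟩ := hA.mem i
    exact ⟨j, by rw [hj, mul_div_cancel₀ _ hM'.ne']⟩
  obtain ⟨h1, h2, h3⟩ := ho M hM hu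
  refine ⟨Dd, Dm, h.bdiv, h.bmod, ?_, h1, h.car, h.pc, h.pg, h.pd, h.dis, ?_⟩
  · intro ν hν
    obtain ⟨E, j, μ, η, hE, hL, hη, hηδ, hle, heq⟩ := h3 ν hν
    have hη' : (0 : ℝ) < η := by exact_mod_cast hη
    have hDE : ∃ j₀ : ℕ, D E = (j₀ : ℝ) / M := by
      rcases hF.coef E hE with h0 | ⟨j₀, _, _, hj₀⟩
      · exact ⟨0, by rw [h0]; simp⟩
      · exact ⟨j₀, hj₀⟩
    obtain ⟨j₀, hj₀⟩ := hDE
    have h5 : (j₀ : ℝ) / M + j / (M * η) = ((j₀ * η + j : ℕ) : ℝ) / (M * η) := by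
      push_cast
      field_simp
    rw [hj₀] at hle heq
    rw [h5] at hle
    refine ⟨j₀ * η + j, η, μ, hη, hηδ, ?_, hL.1, ?_⟩
    · rw [div_le_one (mul_pos hM' hη')] at hle
      exact_mod_cast hle
    · rw [heq, ← h5]; ring
  · intro v hv v' ε hv' hL
    refine ⟨fun g => M * mv a d (cg g v'), fun g => h2 v hv v' ε hv' hL g, ?_⟩
    rw [← Finset.mul_sum, ← (h.hull v hv v' ε hv' hL).2]
    ring

end Pool.Agent.Work.MP_a2680c_ag.HA
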