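import Pool.Agent.Work.MP_a2680c_ag.HA.MainY
import Pool.Agent.Work.MP_a2680c_ag.HA.I_Mcc

/-! # MP_a2680c_ag, block HA, part C: assembly -/

set_option autoImplicit false

noncomputable section

namespace Pool.Agent.Work.MP_a2680c_ag.HA

open MP7b66e6 MP7b66e6.Q

universe u

/-- THEOREM CG. -/
theorem mainCG : MainCG.{u} :=
  pr_Mcg (pr_Mcc kEXT gGrm pr_Pdd pr_Cgd pr_Nmx gCsg gHul gLst gAbg gAcg gAdg gAfg gImn gIbg gEff pr_Loc gCnt pr_Tb gCmp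
    pr_Rmi gKrg gFbf gGex gRsv pr_Etb gDim gQbf gKeb gOpb gDsb gAvb)

/-- THEOREM CH. -/
theorem mainCH : MainCH.{u} :=
  pr_Mch (pr_Mcc kEXT gGrm pr_Pdd pr_Cgd pr_Nmx gCsg gHul gLst gAbg gAcg gAdg gAfg gImn gIbg gEff pr_Loc gCnt pr_Tb gCmp
    pr_Rmi gKrg gFbf gGex gRsv pr_Etb gDim gQbf gKeb gOpb gDsb gAvb)

end Pool.Agent.Work.MP_a2680c_ag.HA
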