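import Pool.Agent.Work.MP_a2680c_ag.HA.DefsZ

/-!
# MP_a2680c_ag, block HA: the class of towers, step by step
-/

set_option autoImplicit false

noncomputable section

namespace Pool.Agent.Work.MP_a2680c_ag.HA

open MP7b66e6 MP7b66e6.Q
open scoped BigOperators

universe u

/-- A class of fibrations `X → Z` with a b-divisor `𝔻` over `X`: a property of the function fields `K` of `Z` and `F` of `X`, of the
variety `Z` and of the function `𝔻`. -/
abbrev Cls (k : Type u) [Field k] : Type (u + 1) := ∀ (K F : Type u) (_ : Field K) (_ : Field F) (_ : Algebra k K)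
  (_ : Algebra k F) (_ : Algebra K F), Set (Subalgebra k K) → (AddValuation F (WithTop ℤ) → ℝ) → Prop

/-- (curves) `X → Z` is birational to a fibration of relative dimension one, and all multiplicities of the boundary at the points of
the generic fibre are `0` or in `I`. -/
def B1 {k : Type u} [Field k] (I : Set ℝ) : Cls k := fun K F _ _ _ _ _ Z 𝔻 =>
  ∃ Y : Set (Subalgebra k F), Fb1 Z Y ∧ ∀ w : AddValuation F (WithTop ℤ), Plc K w → 𝔻 w = 0 ∨ 𝔻 w ∈ I

/-- (arrangements) the generic fibre is crepantly dominated by an `n`-dimensional projective space over `K'` with weighted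
hyperplanes, with weights in `I`, as in `Cvd`; `K'/K` and `F'/F` are finite Galois extensions of degree at most `δ`. -/
def B2 {k : Type u} [Field k] (n δ : ℕ) (I : Set ℝ) : Cls k := fun K F _ _ _ _ _ _ 𝔻 =>
  ∃ (K' F' : Type u) (_ : Field K') (_ : Field F') (_ : Algebra k K') (_ : Algebra k F') (_ : Algebra K K')
    (_ : Algebra K F') (_ : Algebra F F') (_ : Algebra K' F') (_ : IsScalarTower k K K') (_ : IsScalarTower k F F')
    (_ : IsScalarTower k K' F') (_ : IsScalarTower K F F') (_ : IsScalarTower K K' F') (_ : FiniteDimensional K K')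
    (_ : IsGalois K K') (_ : FiniteDimensional F F') (_ : IsGalois F F') (y : Fin n → F') (N : ℕ)
    (a : Fin N → Fin (n + 1) → K') (d : Fin N → ℝ), Cvd (K := K) k δ I y 𝔻 a d

/-- (fibration) there are a fibration `Y → Z` of relative dimension one and a rational map `X ⇢ Y` over `Z` (`K ⊆ E ⊆ F`), such that
`X ⇢ Y` is in the class `T`, and every point of the generic fibre of `Y → Z` is dominated by a divisor `ν` with `𝔻 ν = 0` or
`𝔻 ν ∈ I` (for example a prime divisor of `X`). -/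
def S1 {k : Type u} [Field k] (I : Set ℝ) (T : Cls k) : Cls k := fun K F _ fF _ kF _ Z 𝔻 =>
  ∃ (E : Type u) (fE : Field E) (kE : Algebra k E) (_ : Algebra K E) (EF : Algebra E F) (_ : IsScalarTower k K E)
    (_ : IsScalarTower k E F) (_ : IsScalarTower K E F) (Y : Set (Subalgebra k E)), Fb1 Z Y ∧
    (∀ w : AddValuation E (WithTop ℤ), Plc K w → ∃ (ν : AddValuation F (WithTop ℤ)) (m : ℕ), Divisorial k ν ∧
      Lies w ν m ∧ (𝔻 ν = 0 ∨ 𝔻 ν ∈ I)) ∧ T E F fE fF kE kF EF Y 𝔻

/-- (base change, Galois cover) there are finite Galois extensions `K'/K` and `F'/F` of degree at most `δ`, `K' ⊆ F'`, and a normal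
variety `Z'` with function field `K'`, proper over `Z`, such that the crepant pull-back `𝔻'` of `𝔻` is in the class `T` over `Z'`;
`K` is algebraically closed in `F`. -/
def S2 {k : Type u} [Field k] (δ : ℕ) (T : Cls k) : Cls k := fun K F _ _ _ _ _ Z 𝔻 =>
  ∃ (K' F' : Type u) (fK : Field K') (fF : Field F') (kK : Algebra k K') (kF : Algebra k F') (_ : Algebra K K')
    (_ : Algebra K F') (_ : Algebra F F') (KF : Algebra K' F') (_ : IsScalarTower k K K') (_ : IsScalarTower k F F')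
    (_ : IsScalarTower k K' F') (_ : IsScalarTower K F F') (_ : IsScalarTower K K' F') (_ : FiniteDimensional K K')
    (_ : IsGalois K K') (_ : FiniteDimensional F F') (_ : IsGalois F F') (Z' : Set (Subalgebra k K'))
    (𝔻' : AddValuation F' (WithTop ℤ) → ℝ), (∀ f : F, IsAlgebraic K f → ∃ c : K, algebraMap K F c = f) ∧
    Module.finrank K K' ≤ δ ∧ Module.finrank F F' ≤ δ ∧ Vty Z' ∧ Mor Z' Z ∧ Prp Z' Z ∧
    (∀ (ν : AddValuation F (WithTop ℤ)) (ν' : AddValuation F' (WithTop ℤ)) (ε : ℕ), Divisorial k ν → Lies ν ν' ε →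
      1 - 𝔻' ν' = ε * (1 - 𝔻 ν)) ∧ T K' F' fK fF kK kF KF Z' 𝔻'

/-- (crepant cover) `F` is finite over a field `F₀ ⊇ K`, and `𝔻` is the crepant pull-back of some `𝔻₀` in the class `T`. -/
def S3 {k : Type u} [Field k] (T : Cls k) : Cls k := fun K F fK _ kK _ _ Z 𝔻 =>
  ∃ (F₀ : Type u) (f₀ : Field F₀) (k₀ : Algebra k F₀) (K₀ : Algebra K F₀) (_ : Algebra F₀ F) (_ : IsScalarTower k K F₀)
    (_ : IsScalarTower k F₀ F) (_ : IsScalarTower K F₀ F) (_ : FiniteDimensional F₀ F) (_ : Algebra.EssFiniteType k F₀)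
    (𝔻₀ : AddValuation F₀ (WithTop ℤ) → ℝ),
    (∀ (ν : AddValuation F₀ (WithTop ℤ)) (ν' : AddValuation F (WithTop ℤ)) (ε : ℕ), Divisorial k ν →
      (∃ π : F, ν' π = 1) → Lies ν ν' ε → 1 - 𝔻 ν' = ε * (1 - 𝔻₀ ν)) ∧ T K F₀ fK f₀ kK k₀ K₀ Z 𝔻₀

/-- The fibrations obtained from `T` in at most one step. -/
def Stp {k : Type u} [Field k] (δ : ℕ) (I : Set ℝ) (T : Cls k) : Cls k := fun K F fK fF kK kF KF Z 𝔻 =>
  T K F fK fF kK kF KF Z 𝔻 ∨ S1 I T K F fK fF kK kF KF Z 𝔻 ∨ S2 δ T K F fK fF kK kF KF Z 𝔻 ∨ S3 T K F fK fF kK kF KF Z 𝔻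

/-- THE CLASS of height `s`: obtained in at most `s` steps from curves and arrangements.  `𝔻 ν` is the multiplicity along `ν` of the
boundary on a sufficiently high model of `X`. -/
def Tws {k : Type u} [Field k] (n δ : ℕ) (I : Set ℝ) (s : ℕ) (K F : Type u) [fK : Field K] [fF : Field F] [kK : Algebra k K]
    [kF : Algebra k F] [KF : Algebra K F] (Z : Set (Subalgebra k K)) (𝔻 : AddValuation F (WithTop ℤ) → ℝ) : Prop :=
  (Stp δ I)^[s] (fun K F fK fF kK kF KF Z 𝔻 => B1 I K F fK fF kK kF KF Z 𝔻 ∨ B2 n δ I K F fK fF kK kF KF Z 𝔻)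
    K F fK fF kK kF KF Z 𝔻

theorem tws_it {k : Type u} [Field k] (n δ : ℕ) (I : Set ℝ) : ∀ s : ℕ,
    (Stp δ I)^[s] (fun K F fK fF kK kF KF Z 𝔻 => B1 (k := k) I K F fK fF kK kF KF Z 𝔻 ∨ B2 n δ I K F fK fF kK kF KF Z 𝔻) =
      fun K F fK fF kK kF KF Z 𝔻 => @Twc k _ n δ I s K F fK fF kK kF KF Z 𝔻
  | 0 => rfl
  | s + 1 => by
    have h := tws_it (k := k) n δ I s
    rw [Function.iterate_succ_apply', h]
    rfl

theorem tws_eq {k : Type u} [Field k] (n δ : ℕ) (I : Set ℝ) (s : ℕ) (K F : Type u) [Field K] [Field F] [Algebra k K]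
    [Algebra k F] [Algebra K F] (Z : Set (Subalgebra k K)) (𝔻 : AddValuation F (WithTop ℤ) → ℝ) :
    Tws n δ I s K F Z 𝔻 = Twc n δ I s K F Z 𝔻 := by
  unfold Tws
  rw [tws_it]

end Pool.Agent.Work.MP_a2680c_ag.HA
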