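import Pool.Agent.Work.MP_a2680c_ag.HA.MainZ

/-! # MP_a2680c_ag, block HA: relative dimension one, or a tower -/

set_option autoImplicit false

noncomputable section

namespace Pool.Agent.Work.MP_a2680c_ag.HA

open MP7b66e6 MP7b66e6.Q

universe u

/-- a fibration of relative dimension one is in the class (of height `0`) -/
theorem twc_rel_one {κ : Prop} {k K F : Type u} [Field k] [CharZero k] [Field K] [Field F] [Algebra k K] [Algebra k F]
    [Algebra K F] [IsScalarTower k K F] (n δ : ℕ) {e m : ℕ} {I : Set ℝ} {r : Fin e → K} {x : Fin m → F}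
    {Z : Set (Subalgebra k K)} {X : Set (Subalgebra k F)} {D : AddValuation F (WithTop ℤ) → ℝ}
    {L : AddValuation K (WithTop ℤ) → ℝ} (hF : Fib κ I r x Z X D L) (hb : IsTranscendenceBasis k (cor r x))
    (hconn : ∀ f : F, IsAlgebraic K f → ∃ c : K, algebraMap K F c = f) (hdim : Algebra.trdeg K F = 1) :
    Twc n δ I 0 K F Z (crp r x X D) := by
  left
  refine ⟨X, ⟨hconn, hdim, hF.vx, hF.mor, hF.prp⟩, fun w hw => ?_⟩
  obtain ⟨y, hy⟩ := XCrz.basis_one K F hdim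
  have hPD : PD X w := gGcp k K F e r (cor r y) Z X hF.basis (XCrz.basis_cor hF.basis hy) hF.vz hF.vx hF.mor hF.prp w hw
  rw [(gFbf κ k K F e m I r x Z X D L hF hb).2 w hPD]
  exact hF.coef w hPD

theorem twc_mono {k : Type u} [Field k] (n δ : ℕ) (I : Set ℝ) (K F : Type u) [Field K] [Field F] [Algebra k K] [Algebra k F]
    [Algebra K F] (Z : Set (Subalgebra k K)) (𝔻 : AddValuation F (WithTop ℤ) → ℝ) (h : Twc n δ I 0 K F Z 𝔻) :
    ∀ s : ℕ, Twc n δ I s K F Z 𝔻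
  | 0 => h
  | s + 1 => Or.inl (twc_mono n δ I K F Z 𝔻 h s)

/-- THEOREM T. -/
theorem mainT (n δ s : ℕ) (hn : 1 ≤ n) (hδ : 1 ≤ δ) (I : Set ℝ) (hI : I ⊆ Set.Ioc 0 1) (hD : DCC I) :
    ∃ J : Set ℝ, J ⊆ Set.Ioc 0 1 ∧ DCC J ∧
      ∀ (κ : Prop) (k K F : Type u) [Field k] [CharZero k] [IsAlgClosed k] [Field K] [Field F] [Algebra k K] [Algebra k F]
        [Algebra K F] [IsScalarTower k K F] (e m : ℕ) (r : Fin e → K) (x : Fin m → F) (Z : Set (Subalgebra k K))
        (X : Set (Subalgebra k F)) (D : AddValuation F (WithTop ℤ) → ℝ) (L : AddValuation K (WithTop ℤ) → ℝ),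
        Cardinal.aleph0 ≤ Algebra.trdeg ℚ k → Fib κ I r x Z X D L → IsTranscendenceBasis k (cor r x) →
        ((∀ f : F, IsAlgebraic K f → ∃ c : K, algebraMap K F c = f) ∧ Algebra.trdeg K F = 1) ∨
          Twc n δ I s K F Z (crp r x X D) →
        ∃ Dd : AddValuation K (WithTop ℤ) → ℝ, Q1 κ J {1} 1 r x Z X D Dd (fun _ => 0) := by
  obtain ⟨J, hJ, hJD, hC⟩ := mainZ.{u} n δ s hn hδ I hI hD
  refine ⟨J, hJ, hJD, ?_⟩
  intro κ k K F _ _ _ _ _ _ _ _ _ e m r x Z X D L htr hF hb hT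
  refine hC κ k K F e m r x Z X D L htr hF hb ?_
  rcases hT with ⟨h1, h2⟩ | h
  · exact twc_mono n δ I K F Z _ (twc_rel_one n δ hF hb h1 h2) s
  · exact h

end Pool.Agent.Work.MP_a2680c_ag.HA
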