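import Pool.Agent.Work.MP_a2680c_ag.HA.StmtsB

/-!
# MP_a2680c_ag, block HA: small proved lemmas (API) for parts C and D
-/

set_option autoImplicit false

noncomputable section

namespace Pool.Agent.Work.MP_a2680c_ag.HA.Api

open MP7b66e6 MP7b66e6.Q
open scoped BigOperators

universe u

section val
variable {K : Type u} [Field K] (ν : AddValuation K (WithTop ℤ))

theorem coe_val {f : K} (hf : f ≠ 0) : ν f = (val ν f : WithTop ℤ) := by
  have h : ν f ≠ ⊤ := by
    intro h; exact hf ((AddValuation.top_iff ν).1 h)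
  obtain ⟨m, hm⟩ := WithTop.ne_top_iff_exists.1 h
  rw [val, ← hm]; rfl

theorem val_of {f : K} {m : ℤ} (h : ν f = (m : WithTop ℤ)) : val ν f = m := by
  rw [val, h]; rfl

theorem val_mul {f g : K} (hf : f ≠ 0) (hg : g ≠ 0) : val ν (f * g) = val ν f + val ν g := by
  apply val_of
  rw [AddValuation.map_mul, coe_val ν hf, coe_val ν hg]; rfl

theorem val_one : val ν (1 : K) = 0 := val_of ν (by rw [AddValuation.map_one]; rfl)

theorem val_inv {f : K} (hf : f ≠ 0) : val ν f⁻¹ = - val ν f := by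
  have h := val_mul ν hf (inv_ne_zero hf)
  rw [mul_inv_cancel₀ hf, val_one] at h
  omega

theorem val_div {f g : K} (hf : f ≠ 0) (hg : g ≠ 0) : val ν (f / g) = val ν f - val ν g := by
  rw [div_eq_mul_inv, val_mul ν hf (inv_ne_zero hg), val_inv ν hg]; ring

theorem val_pow {f : K} (hf : f ≠ 0) (n : ℕ) : val ν (f ^ n) = n * val ν f := by
  induction n with
  | zero => simp [val_one]
  | succ n ih => rw [pow_succ, val_mul ν (pow_ne_zero n hf) hf, ih]; push_cast; ring

theorem val_zpow {f : K} (hf : f ≠ 0) (n : ℤ) : val ν (f ^ n) = n * val ν f := by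
  cases n with
  | ofNat n => simpa using val_pow ν hf n
  | negSucc n =>
    rw [zpow_negSucc, val_inv ν (pow_ne_zero _ hf), val_pow ν hf, Int.negSucc_eq]
    push_cast
    ring

theorem val_nonneg {f : K} (hf : f ≠ 0) : 0 ≤ val ν f ↔ 0 ≤ ν f := by
  rw [coe_val ν hf, ← WithTop.coe_zero, WithTop.coe_le_coe]

theorem val_prod {ι : Type*} (s : Finset ι) (f : ι → K) (h : ∀ i ∈ s, f i ≠ 0) :
    val ν (∏ i ∈ s, f i) = ∑ i ∈ s, val ν (f i) := by
  classical
  induction s using Finset.induction_on with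
  | empty => simp [val_one]
  | insert i s hi ih =>
    rw [Finset.prod_insert hi, Finset.sum_insert hi,
      val_mul ν (h i (Finset.mem_insert_self i s))
        (Finset.prod_ne_zero_iff.2 fun j hj => h j (Finset.mem_insert_of_mem hj)),
      ih fun j hj => h j (Finset.mem_insert_of_mem hj)]

end val

section ev
variable {K F : Type u} [Field K] [Field F] [Algebra K F]

theorem ev_zero (ν : AddValuation K (WithTop ℤ)) : ev ν (0 : Kˣ →₀ ℝ) = 0 := by simp [ev]

theorem ev_add (ν : AddValuation K (WithTop ℤ)) (φ ψ : Kˣ →₀ ℝ) : ev ν (φ + ψ) = ev ν φ + ev ν ψ := by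
  rw [ev, Finsupp.sum_add_index']
  · rfl
  · intro s; ring
  · intro s a b; ring

theorem ev_smul (ν : AddValuation K (WithTop ℤ)) (c : ℝ) (φ : Kˣ →₀ ℝ) : ev ν (c • φ) = c * ev ν φ := by
  rw [ev, Finsupp.sum_smul_index' (by intro s; ring), ev, Finsupp.mul_sum]
  apply Finsupp.sum_congr
  intro s _
  simp only [smul_eq_mul]
  ring

theorem ev_neg (ν : AddValuation K (WithTop ℤ)) (φ : Kˣ →₀ ℝ) : ev ν (-φ) = - ev ν φ := by
  have := ev_smul ν (-1) φ
  rw [neg_one_smul] at this
  rw [this]; ring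

theorem ev_sub (ν : AddValuation K (WithTop ℤ)) (φ ψ : Kˣ →₀ ℝ) : ev ν (φ - ψ) = ev ν φ - ev ν ψ := by
  rw [sub_eq_add_neg, ev_add, ev_neg]; ring

theorem ev_single (ν : AddValuation K (WithTop ℤ)) (s : Kˣ) (c : ℝ) :
    ev ν (Finsupp.single s c) = c * (val ν (s : K) : ℝ) := by
  rw [ev, Finsupp.sum_single_index (by ring)]

theorem ev_sum (ν : AddValuation K (WithTop ℤ)) {ι : Type*} (s : Finset ι) (φ : ι → Kˣ →₀ ℝ) :
    ev ν (∑ i ∈ s, φ i) = ∑ i ∈ s, ev ν (φ i) := by
  classical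
  induction s using Finset.induction_on with
  | empty => simp [ev_zero]
  | insert i s hi ih => rw [Finset.sum_insert hi, Finset.sum_insert hi, ev_add, ih]

/-- `ev W (push φ)` is computed with the restriction of `W` to `K`. -/
theorem ev_push (W : AddValuation F (WithTop ℤ)) (φ : Kˣ →₀ ℝ) :
    ev W (push K F φ) = φ.sum fun s r => r * (val W (algebraMap K F (s : K)) : ℝ) := by
  rw [push, ev, Finsupp.sum_mapDomain_index (by intro s; ring) (by intro s a b; ring)]
  rfl

theorem push_add (φ ψ : Kˣ →₀ ℝ) : push K F (φ + ψ) = push K F φ + push K F ψ := Finsupp.mapDomain_add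

theorem ev_push_lies {v : AddValuation K (WithTop ℤ)} {W : AddValuation F (WithTop ℤ)} {m : ℕ} (h : Lies v W m)
    (φ : Kˣ →₀ ℝ) : ev W (push K F φ) = m * ev v φ := by
  rw [ev_push, ev, Finsupp.mul_sum]
  apply Finsupp.sum_congr
  intro s _
  rw [h.2 (s : K) s.ne_zero]
  push_cast
  ring

/-- the restriction of a valuation to `K` -/
def res (K : Type u) {F : Type u} [Field K] [Field F] [Algebra K F] (W : AddValuation F (WithTop ℤ)) :
    AddValuation K (WithTop ℤ) := W.comap (algebraMap K F)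

theorem res_apply (W : AddValuation F (WithTop ℤ)) (f : K) : res K W f = W (algebraMap K F f) := rfl

theorem ev_res (W : AddValuation F (WithTop ℤ)) (φ : Kˣ →₀ ℝ) : ev (res K W) φ = ev W (push K F φ) := by
  rw [ev_push]; rfl

end ev

section can

theorem logDisc_unique {k K : Type u} [Field k] [Field K] [Algebra k K] {d : ℕ} {x : Fin d → K}
    {ν : AddValuation K (WithTop ℤ)} {A B : ℤ} (hA : LogDisc k ν x A) (hB : LogDisc k ν x B) : A = B := by
  obtain ⟨⟨δ, h1, h2⟩, h3⟩ := hA
  obtain ⟨⟨δ', h1', h2'⟩, h3'⟩ := hB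
  have a1 := h3 δ' h1'
  have a2 := h3' δ h1
  rw [h2'] at a1
  rw [h2] at a2
  exact le_antisymm (WithTop.coe_le_coe.1 a1) (WithTop.coe_le_coe.1 a2)

theorem can_eq {k K : Type u} [Field k] [Field K] [Algebra k K] {d : ℕ} {x : Fin d → K}
    {ν : AddValuation K (WithTop ℤ)} {A : ℤ} (hA : LogDisc k ν x A) : can k x ν = (A : ℝ) - 1 := by
  have h : LogDisc k ν x (Classical.epsilon (LogDisc k ν x)) := Classical.epsilon_spec ⟨A, hA⟩
  rw [can, logDisc_unique h hA]

end can

section rings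
variable {k K F : Type u} [Field k] [Field K] [Field F] [Algebra k K] [Algebra k F] [Algebra K F]

/-- the valuation ring of `ν` as a `k`-subalgebra, if `ν ≥ 0` on `k` -/
def ring (ν : AddValuation K (WithTop ℤ)) (h : ∀ c : k, 0 ≤ ν (algebraMap k K c)) : Subalgebra k K where
  carrier := {f | 0 ≤ ν f}
  mul_mem' := by
    intro a b ha hb
    simp only [Set.mem_setOf_eq] at *
    rw [AddValuation.map_mul]
    exact add_nonneg ha hb
  add_mem' := by
    intro a b ha hb
    simp only [Set.mem_setOf_eq] at *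
    exact le_trans (le_min ha hb) (AddValuation.map_add ν a b)
  algebraMap_mem' := h

theorem mem_ring {ν : AddValuation K (WithTop ℤ)} {h : ∀ c : k, 0 ≤ ν (algebraMap k K c)} {f : K} :
    f ∈ ring ν h ↔ 0 ≤ ν f := Iff.rfl

theorem nonneg_of_mem {ν : AddValuation K (WithTop ℤ)} {O : Subalgebra k K} (h : ∀ f ∈ O, 0 ≤ ν f) (c : k) :
    0 ≤ ν (algebraMap k K c) := h _ (O.algebraMap_mem c)

theorem val_algebraMap {ν : AddValuation K (WithTop ℤ)} (h : ∀ c : k, 0 ≤ ν (algebraMap k K c)) {c : k} (hc : c ≠ 0) :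
    ν (algebraMap k K c) = 0 := by
  have h1 := h c
  have h2 := h c⁻¹
  have h3 : ν (algebraMap k K c) + ν (algebraMap k K c⁻¹) = 0 := by
    rw [← AddValuation.map_mul, ← map_mul, mul_inv_cancel₀ hc, map_one, AddValuation.map_one]
  have hne : algebraMap k K c ≠ 0 := by simpa using hc
  have hne' : algebraMap k K c⁻¹ ≠ 0 := by simpa using hc
  rw [coe_val ν hne] at h1 h3 ⊢
  rw [coe_val ν hne'] at h2 h3
  rw [← WithTop.coe_zero, WithTop.coe_le_coe] at h1 h2
  rw [← WithTop.coe_add, ← WithTop.coe_zero, WithTop.coe_inj] at h3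
  rw [← WithTop.coe_zero, WithTop.coe_inj]
  omega

theorem isVal_ring (ν : AddValuation K (WithTop ℤ)) (h : ∀ c : k, 0 ≤ ν (algebraMap k K c)) : IsVal (ring ν h) := by
  intro f
  by_cases hf : f = 0
  · left; rw [hf]; exact (ring ν h).zero_mem
  rw [mem_ring, mem_ring, ← val_nonneg ν hf, ← val_nonneg ν (inv_ne_zero hf), val_inv ν hf]
  omega

theorem dom_ring_iff (ν : AddValuation K (WithTop ℤ)) (h : ∀ c : k, 0 ≤ ν (algebraMap k K c)) (O : Subalgebra k K) :
    Dom O (ring ν h) ↔ Cen O ν := by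
  constructor
  · intro H
    refine ⟨fun f hf => (H f hf).1, fun f hf h0 => ?_⟩
    have hne : f ≠ 0 := by
      intro h1; rw [h1, AddValuation.map_zero] at h0; exact absurd h0 (by simp)
    refine (H f hf).2 hne ?_
    change 0 ≤ ν f⁻¹
    rw [← val_nonneg ν (inv_ne_zero hne), val_inv ν hne, val_of ν (m := 0) h0]
    simp
  · intro H f hf
    refine ⟨H.1 f hf, fun hne hi => ?_⟩
    apply H.2 f hf
    have h1 : 0 ≤ ν f := H.1 f hf
    have h2 : 0 ≤ ν f⁻¹ := hi
    rw [← val_nonneg ν hne] at h1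
    rw [← val_nonneg ν (inv_ne_zero hne), val_inv ν hne] at h2
    rw [coe_val ν hne, show val ν f = 0 by omega]; rfl

end rings

end Pool.Agent.Work.MP_a2680c_ag.HA.Api
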