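import Pool.Agent.Work.MP_a2680c_ag.HA.Defs

/-!
# MP_a2680c_ag, block HA, part G: definitions

Finite quotients and forms: `K'/K` and `F'/F` are finite Galois extensions, `K' ⊆ F'`, and `F' = K'(y_1, ..., y_n)`; the generic
fibre of `X → Z` with its boundary is dominated (crepantly) by the projective space over `K'` with weighted hyperplanes.
-/

set_option autoImplicit false

noncomputable section

namespace Pool.Agent.Work.MP_a2680c_ag.HA

open MP7b66e6 MP7b66e6.Q
open scoped BigOperators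

universe u

/-- the conjugate valuation `v' ∘ g` -/
def cg {K K' : Type u} [Field K] [Field K'] [Algebra K K'] (g : K' ≃ₐ[K] K') (v' : AddValuation K' (WithTop ℤ)) :
    AddValuation K' (WithTop ℤ) := v'.comap (g : K' →+* K')

section
variable {k K F K' F' : Type u} [Field k] [Field K] [Field F] [Field K'] [Field F'] [Algebra k K] [Algebra k F] [Algebra k K']
  [Algebra k F'] [Algebra K F] [Algebra K K'] [Algebra F F'] [Algebra K' F']

/-- `X → Z` has connected fibres (`K` is algebraically closed in `F`), `x_1, ..., x_n` are algebraically independent over `K`, and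
the generic fibre is dominated by the projective space `P` over `K'` with coordinates `y` and boundary `Σ d_i H_i`,
`H_i` the hyperplane `lin y (a i) = 0` (up to codimension two, or a crepant modification): `F' = K'(y)`, `F'/F` and `K'/K` have
degree at most `δ`, and every prime divisor `ν'` of `P` lies over a prime divisor `ν` of `X` with ramification index `ε` such that
`1 - ε (1 - D ν)` (the multiplicity along `ν'` of the crepant pull-back of `D`) is the sum of the `d_i` with `H_i = ν'`. -/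
structure Cov (δ : ℕ) (I : Set ℝ) {n : ℕ} (x : Fin n → F) (y : Fin n → F') (X : Set (Subalgebra k F))
    (D : AddValuation F (WithTop ℤ) → ℝ) {N : ℕ} (a : Fin N → Fin (n + 1) → K') (d : Fin N → ℝ) : Prop where
  conn : ∀ f : F, IsAlgebraic K f → ∃ c : K, algebraMap K F c = f
  base : AlgebraicIndependent K x
  indep : AlgebraicIndependent K' y
  gen : IntermediateField.adjoin K' (Set.range y) = ⊤
  degK : Module.finrank K K' ≤ δ
  degF : Module.finrank F F' ≤ δ
  nz : ∀ i, a i ≠ 0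
  mem : ∀ i, d i ∈ I
  fin : ∀ (p : MvPolynomial (Fin n) K') (ν' : AddValuation F' (WithTop ℤ)), OrdP y p ν' →
    ∃ (ν : AddValuation F (WithTop ℤ)) (ε : ℕ), PD X ν ∧ Lies ν ν' ε ∧
      1 - ε * (1 - D ν) = ∑ i, d i * (val ν' (lin y (a i)) : ℝ)
  inf : ∀ ν' : AddValuation F' (WithTop ℤ), OrdI K' y ν' →
    ∃ (ν : AddValuation F (WithTop ℤ)) (ε : ℕ), PD X ν ∧ Lies ν ν' ε ∧
      1 - ε * (1 - D ν) = ∑ i, d i * (1 + (val ν' (lin y (a i)) : ℝ))

/-- The conclusion: (a), (b), (d); (c) if the trace of `D_mod` on `Z` is `ℝ`-Cartier, in particular if `Z` is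
`ℚ`-factorial, and `1 - D_div v > 0` (`≥ 0`) for all `v` in general; `D_div` is the discriminant, and
`- D_mod v = (Σ_g m_(v' ∘ g)(d)) / (γ ε)`, `γ` the order of the Galois group of `K'/K`, for every divisorial
`v'` over `v` of ramification index `ε`, where `m_(v' ∘ g)(d)` is the least value of `Σ λ_b v'(g(det_b))` over all
decompositions `d = Σ λ_b 1_b` into bases of the arrangement. -/
structure AdjG (κ : Prop) (J Γ : Set ℝ) (m : ℕ) {e n N : ℕ} (r : Fin e → K) (x : Fin n → F) (Z : Set (Subalgebra k K))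
    (X : Set (Subalgebra k F)) (D : AddValuation F (WithTop ℤ) → ℝ) (a : Fin N → Fin (n + 1) → K') (d : Fin N → ℝ)
    [FiniteDimensional K K'] (Dd Dm : AddValuation K (WithTop ℤ) → ℝ) : Prop where
  bdiv : IsB Z Dd
  bmod : IsB Z Dm
  pa : ∀ ν : AddValuation K (WithTop ℤ), PD Z ν → Dd ν = 0 ∨ Dd ν ∈ J
  pb : GBpf Z Γ (fun ν => m * Dm ν)
  car : QFac Z → RCar Z Dm
  pc : RCar Z Dm → Lc κ Z r Dd
  pg : ∀ ν : AddValuation K (WithTop ℤ), DivOver Z ν → Pos κ (1 - Dd ν)
  pd : Crep r x Z X D Dd Dm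
  dis : ∀ v : AddValuation K (WithTop ℤ), DivOver Z v → IsLeast (Dis r x X D v) (1 - Dd v)
  hull : ∀ v : AddValuation K (WithTop ℤ), DivOver Z v → ∀ (v' : AddValuation K' (WithTop ℤ)) (ε : ℕ), Divisorial k v' →
    Lies v v' ε → (∀ g : K' ≃ₐ[K] K', IsLeast (vals (bas a) d fun b => val v' (g (mnr a b))) (mv a d (cg g v'))) ∧
    (Module.finrank K K' : ℝ) * (ε * (- Dm v)) = ∑ g : K' ≃ₐ[K] K', mv a d (cg g v')

end

/-- THEOREM HG. -/
def MainHG : Prop := ∀ n δ : ℕ, 1 ≤ n → 1 ≤ δ → ∀ I : Set ℝ, I ⊆ Set.Ioc 0 1 → DCC I →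
  ∃ (J Γ : Set ℝ) (m : ℕ), J ⊆ Set.Ioc 0 1 ∧ DCC J ∧ Γ ⊆ Set.Ioc 0 1 ∧ Γ.Finite ∧ 1 ≤ m ∧
    ∀ (κ : Prop) (k K F K' F' : Type u) [Field k] [CharZero k] [Field K] [Field F] [Field K'] [Field F'] [Algebra k K]
      [Algebra k F] [Algebra k K'] [Algebra k F'] [Algebra K F] [Algebra K K'] [Algebra K F'] [Algebra F F'] [Algebra K' F']
      [IsScalarTower k K F] [IsScalarTower k K K'] [IsScalarTower k F F'] [IsScalarTower k K' F'] [IsScalarTower K F F']
      [IsScalarTower K K' F'] [FiniteDimensional K K'] [IsGalois K K'] [FiniteDimensional F F'] [IsGalois F F']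
      (e N : ℕ) (r : Fin e → K) (x : Fin n → F) (y : Fin n → F') (Z : Set (Subalgebra k K)) (X : Set (Subalgebra k F))
      (D : AddValuation F (WithTop ℤ) → ℝ) (L : AddValuation K (WithTop ℤ) → ℝ) (a : Fin N → Fin (n + 1) → K')
      (d : Fin N → ℝ),
      Fib κ I r x Z X D L → Cov (K := K) δ I x y X D a d →
      ∃ Dd Dm : AddValuation K (WithTop ℤ) → ℝ, AdjG κ J Γ m r x Z X D a d Dd Dm

end Pool.Agent.Work.MP_a2680c_ag.HA
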