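import Pool.Agent.Work.MP_a2680c_ag.HA.StmtsE
import Pool.Agent.Work.MP_a2680c_ag.HA.DefsG

/-!
# MP_a2680c_ag, block HA, part G: auxiliary definitions and small proved lemmas (API)
-/

set_option autoImplicit false

noncomputable section

namespace Pool.Agent.Work.MP_a2680c_ag.HA

open MP7b66e6 MP7b66e6.Q
open scoped BigOperators

universe u

/-- the elements `x_j` of `K` as elements of `K'` -/
def up (K' : Type u) {K : Type u} [Field K] [Field K'] [Algebra K K'] {d : ℕ} (x : Fin d → K) (j : Fin d) : K' :=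
  algebraMap K K' (x j)

/-- the least value of `v` on the finite set `S` -/
def mnS {K : Type u} [Field K] (S : Finset Kˣ) (v : AddValuation K (WithTop ℤ)) : ℤ :=
  sInf {t : ℤ | ∃ s ∈ S, t = val v (s : K)}

section
variable {k K : Type u} [Field k] [Field K] [Algebra k K]

/-- the moduli part given by the finite sets `S i` -/
def Dmg {l : ℕ} (w : Fin l → ℝ) (S : Fin l → Finset Kˣ) (M : ℕ) (v : AddValuation K (WithTop ℤ)) : ℝ :=
  - (∑ i, w i * (mnS (S i) v : ℝ)) / M

/-- the discriminant, `1 - (T_v + D_mod v)` -/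
def Ddg {e l : ℕ} (r : Fin e → K) (Z : Set (Subalgebra k K)) (L : AddValuation K (WithTop ℤ) → ℝ) (Ξ : Kˣ →₀ ℝ)
    (w : Fin l → ℝ) (S : Fin l → Finset Kˣ) (M : ℕ) (v : AddValuation K (WithTop ℤ)) : ℝ :=
  1 - (Tv r Z L Ξ v + Dmg w S M v)

end

section
variable {k K F K' F' : Type u} [Field k] [Field K] [Field F] [Field K'] [Field F'] [Algebra k K] [Algebra k F] [Algebra k K']
  [Algebra k F'] [Algebra K F] [Algebra K K'] [Algebra K F'] [Algebra F F'] [Algebra K' F']

/-- `T` of the valuation `v'` of `K'` over `v`: `ε (1 + v(K_Z) - v(L)) - v'(Ξ)` -/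
def Tg {e : ℕ} (r : Fin e → K) (Z : Set (Subalgebra k K)) (L : AddValuation K (WithTop ℤ) → ℝ) (Ξ : K'ˣ →₀ ℝ)
    (v : AddValuation K (WithTop ℤ)) (v' : AddValuation K' (WithTop ℤ)) (ε : ℕ) : ℝ :=
  ε * (1 + can k r v - Lv Z L v) - ev v' Ξ

/-- the key identity of a cover: on `F'` the divisor `K_X + D` is `L + Ξ + Σ d_i div (l_i) + div J`, for all valuations, where `J`
is the quotient of the differential forms `dr ∧ dx` and `dr ∧ dy`; and `Σ d_i = n + 1` -/
def KeyG {e n N : ℕ} (r : Fin e → K) (x : Fin n → F) (y : Fin n → F') (Z : Set (Subalgebra k K)) (X : Set (Subalgebra k F))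
    (D : AddValuation F (WithTop ℤ) → ℝ) (L : AddValuation K (WithTop ℤ) → ℝ) (a : Fin N → Fin (n + 1) → K') (d : Fin N → ℝ)
    (Ξ : K'ˣ →₀ ℝ) (J : F'ˣ) : Prop :=
  ∑ i, d i = n + 1 ∧
  (∀ (W' : AddValuation F' (WithTop ℤ)) (A : ℤ), LogDisc k W' (cor (up K' r) y) A →
    LogDisc k W' (up F' (cor r x)) (A + val W' (J : F'))) ∧
  ∀ O ∈ X, ∀ P ∈ Z, Dom P O → ∀ φ : Kˣ →₀ ℝ, Rep Z L P φ → ∀ ψ : Fˣ →₀ ℝ,
    Rep X (fun ν => can k (cor r x) ν + D ν) O ψ →
    ∀ W' : AddValuation F' (WithTop ℤ), (∀ f ∈ O, 0 ≤ W' (algebraMap F F' f)) →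
    ev W' (push F F' ψ) = ev W' (push K F' φ) + val W' (J : F') + ev W' (push K' F' Ξ) +
      ∑ i, d i * (val W' (lin y (a i)) : ℝ)

end

namespace Api

section
variable {K K' F F' : Type u} [Field K] [Field K'] [Field F] [Field F'] [Algebra K K'] [Algebra K F] [Algebra K F']
  [Algebra F F'] [Algebra K' F']

theorem cg_apply (g : K' ≃ₐ[K] K') (v' : AddValuation K' (WithTop ℤ)) (f : K') : cg g v' f = v' (g f) := rfl

theorem val_cg (g : K' ≃ₐ[K] K') (v' : AddValuation K' (WithTop ℤ)) (f : K') : val (cg g v') f = val v' (g f) := rfl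

theorem mnS_isLeast {S : Finset Kˣ} (hS : S.Nonempty) (v : AddValuation K (WithTop ℤ)) :
    IsLeast {t : ℤ | ∃ s ∈ S, t = val v (s : K)} (mnS S v) := by
  have hfin : {t : ℤ | ∃ s ∈ S, t = val v (s : K)}.Finite := by
    refine (S.finite_toSet.image fun s : Kˣ => val v (s : K)).subset ?_
    rintro t ⟨s, hs, rfl⟩
    exact ⟨s, hs, rfl⟩
  obtain ⟨s, hs⟩ := hS
  have hne : {t : ℤ | ∃ s ∈ S, t = val v (s : K)}.Nonempty := ⟨_, s, hs, rfl⟩
  exact ⟨Int.csInf_mem hne hfin.bddBelow, fun t ht => csInf_le hfin.bddBelow ht⟩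

/-- the least value is attained and a lower bound -/
theorem mnS_spec {S : Finset Kˣ} (hS : S.Nonempty) (v : AddValuation K (WithTop ℤ)) :
    (∃ s ∈ S, mnS S v = val v (s : K)) ∧ ∀ s ∈ S, mnS S v ≤ val v (s : K) :=
  ⟨(mnS_isLeast hS v).1, fun s hs => (mnS_isLeast hS v).2 ⟨s, hs, rfl⟩⟩

theorem lies_trans [IsScalarTower K K' F'] {v : AddValuation K (WithTop ℤ)} {v' : AddValuation K' (WithTop ℤ)}
    {W' : AddValuation F' (WithTop ℤ)} {ε m : ℕ} (h : Lies v v' ε) (h' : Lies v' W' m) : Lies v W' (m * ε) := by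
  refine ⟨Nat.mul_pos h'.1 h.1, fun f hf => ?_⟩
  have hf' : algebraMap K K' f ≠ 0 := by
    rw [map_ne_zero_iff _ (algebraMap K K').injective]; exact hf
  rw [IsScalarTower.algebraMap_apply K K' F', h'.2 _ hf', h.2 f hf]
  push_cast
  ring

theorem lies_cg {v : AddValuation K (WithTop ℤ)} {v' : AddValuation K' (WithTop ℤ)} {ε : ℕ} (h : Lies v v' ε)
    (g : K' ≃ₐ[K] K') : Lies v (cg g v') ε := by
  refine ⟨h.1, fun f hf => ?_⟩
  rw [val_cg, g.commutes]
  exact h.2 f hf

/-- a valuation over `v`, restricted to a field between -/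
theorem lies_mid [IsScalarTower K F F'] {v : AddValuation K (WithTop ℤ)} {W : AddValuation F (WithTop ℤ)}
    {W' : AddValuation F' (WithTop ℤ)} {η t : ℕ} (hv : ∃ π : K, v π = 1) (h : Lies W W' η) (h' : Lies v W' t) :
    ∃ μ : ℕ, Lies v W μ ∧ η * μ = t := by
  obtain ⟨π, hπ⟩ := hv
  have hπ0 : π ≠ 0 := by
    intro h0; rw [h0, AddValuation.map_zero] at hπ; exact absurd hπ (by simp)
  have hvπ : val v π = 1 := val_of v hπ
  have hη : (0 : ℤ) < η := by exact_mod_cast h.1
  have ht : (0 : ℤ) < t := by exact_mod_cast h'.1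
  have hne : ∀ f : K, f ≠ 0 → algebraMap K F f ≠ 0 := by
    intro f hf
    rw [map_ne_zero_iff _ (algebraMap K F).injective]; exact hf
  have key : ∀ f : K, f ≠ 0 → (η : ℤ) * val W (algebraMap K F f) = t * val v f := by
    intro f hf
    rw [← h.2 _ (hne f hf), ← h'.2 f hf, ← IsScalarTower.algebraMap_apply K F F']
  have h1 := key π hπ0
  rw [hvπ, mul_one] at h1
  have hpos : 0 < val W (algebraMap K F π) := by
    by_contra hcon
    have : (η : ℤ) * val W (algebraMap K F π) ≤ 0 := mul_nonpos_of_nonneg_of_nonpos hη.le (not_lt.1 hcon)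
    omega
  refine ⟨(val W (algebraMap K F π)).toNat, ⟨?_, ?_⟩, ?_⟩
  · omega
  · intro f hf
    have h2 := key f hf
    rw [Int.toNat_of_nonneg hpos.le]
    have h3 : (η : ℤ) * val W (algebraMap K F f) = η * (val W (algebraMap K F π) * val v f) := by
      rw [h2, ← h1]; ring
    exact mul_left_cancel₀ hη.ne' h3
  · have : ((η * (val W (algebraMap K F π)).toNat : ℕ) : ℤ) = t := by
      push_cast
      rw [Int.toNat_of_nonneg hpos.le]; exact h1
    exact_mod_cast this

/-- `ev` of a pull-back in two steps -/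
theorem ev_push_push [IsScalarTower K K' F'] (W' : AddValuation F' (WithTop ℤ)) (φ : Kˣ →₀ ℝ) :
    ev W' (push K' F' (push K K' φ)) = ev W' (push K F' φ) := by
  rw [← ev_res W' (push K K' φ), ← ev_res (res K' W') φ, ← ev_res W' φ]
  unfold ev
  apply Finsupp.sum_congr
  intro s _
  change φ s * (val W' (algebraMap K' F' (algebraMap K K' (s : K))) : ℝ) = φ s * (val W' (algebraMap K F' (s : K)) : ℝ)
  rw [← IsScalarTower.algebraMap_apply K K' F']

/-- nonzero natural numbers have value `0` if `k` has characteristic zero and `v ≥ 0` on `k` -/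
theorem val_natCast {k : Type u} [Field k] [CharZero k] [Algebra k K] {v : AddValuation K (WithTop ℤ)}
    (h : ∀ c : k, 0 ≤ v (algebraMap k K c)) (n : ℕ) (hn : n ≠ 0) : v (n : K) = 0 := by
  have h1 : (n : k) ≠ 0 := by exact_mod_cast hn
  have h2 := val_algebraMap h h1
  rwa [map_natCast] at h2

end

end Api

end Pool.Agent.Work.MP_a2680c_ag.HA
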