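import Pool.Agent.Work.MP_7b66e6_ag.N.Stmts

/-!
# MP_a2680c_ag, block HA: definitions

lc-trivial fibrations whose generic fibre is a projective space with weighted hyperplanes.

A normal variety over `k` with function field `K` is given by the set `Z` of its local rings (subalgebras of `K`), as in
Chevalley's and Grothendieck's definition (EGA I 8): `Vty Z`.  A dominant morphism `X → Z`, where `K ⊆ F` are the function
fields, is `Mor X Z`: every local ring of `X` dominates one of `Z`; it is proper if the valuative criterion holds (`Prp`).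
Prime divisors over a variety are divisorial valuations `ν : K → ℤ ∪ {∞}` (`Divisorial`, from MP_7b66e6_ag).
-/

set_option autoImplicit false

noncomputable section

namespace Pool.Agent.Work.MP_a2680c_ag.HA

open MP7b66e6 MP7b66e6.Q
open scoped BigOperators

universe u

/-! ## Varieties and morphisms -/

section
variable {k K F : Type u} [Field k] [Field K] [Field F] [Algebra k K] [Algebra k F] [Algebra K F]

/-- `R` is the local ring of `Spec C` at the prime ideal `p`. -/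
def IsLoc (C : Subalgebra k K) (p : Ideal C) (R : Subalgebra k K) : Prop :=
  ∀ f : K, f ∈ R ↔ ∃ a s : C, s ∉ p ∧ f * s = a

/-- `V` is a valuation ring of `K`. -/
def IsVal (V : Subalgebra k K) : Prop := ∀ f : K, f ∈ V ∨ f⁻¹ ∈ V

/-- The local ring `S` of `F` dominates the local ring `R` of `K ⊆ F`: `R ⊆ S`, and non-units of `R` are non-units of `S`. -/
def Dom (R : Subalgebra k K) (S : Subalgebra k F) : Prop :=
  ∀ f ∈ R, algebraMap K F f ∈ S ∧ (f ≠ 0 → (algebraMap K F f)⁻¹ ∈ S → f⁻¹ ∈ R)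

/-- `X` is the set of local rings of a normal variety over `k` with function field `K`: it is covered by finitely many affine
varieties, and every valuation ring of `K` has at most one centre (`X` is separated). -/
structure Vty (X : Set (Subalgebra k K)) : Prop where
  charts : ∃ s : Set (Subalgebra k K), s.Finite ∧ s.Nonempty ∧
    (∀ C ∈ s, C.FG ∧ IsIntegrallyClosed C ∧ IsFractionRing C K) ∧
    ∀ R : Subalgebra k K, R ∈ X ↔ ∃ C ∈ s, ∃ p : Ideal C, p.IsPrime ∧ IsLoc C p R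
  sep : ∀ R ∈ X, ∀ S ∈ X, ∀ V : Subalgebra k K, IsVal V → Dom R V → Dom S V → R = S

/-- The inclusion `K ⊆ F` of the function fields is a morphism `X → Z`. -/
def Mor (X : Set (Subalgebra k F)) (Z : Set (Subalgebra k K)) : Prop := ∀ O ∈ X, ∃ P ∈ Z, Dom P O

/-- Valuative criterion: the morphism `X → Z` is proper. -/
def Prp (X : Set (Subalgebra k F)) (Z : Set (Subalgebra k K)) : Prop :=
  ∀ V : Subalgebra k F, IsVal V → (∃ P ∈ Z, Dom P V) → ∃ O ∈ X, Dom O V

/-! ## Divisors -/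

/-- `ν` is the valuation of a prime divisor of `X`: it takes the value `1` and its ring is a local ring of `X`. -/
def PD (X : Set (Subalgebra k K)) (ν : AddValuation K (WithTop ℤ)) : Prop :=
  (∃ π : K, ν π = 1) ∧ ∃ R ∈ X, ∀ f : K, f ∈ R ↔ 0 ≤ ν f

/-- `ν` is a prime divisor of `X` through the point `O`. -/
def PDat (X : Set (Subalgebra k K)) (O : Subalgebra k K) (ν : AddValuation K (WithTop ℤ)) : Prop :=
  PD X ν ∧ ∀ f ∈ O, 0 ≤ ν f

/-- The centre of `ν` is the point `O`. -/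
def Cen (O : Subalgebra k K) (ν : AddValuation K (WithTop ℤ)) : Prop :=
  (∀ f ∈ O, 0 ≤ ν f) ∧ ∀ f ∈ O, ν f = 0 → f⁻¹ ∈ O

/-- `ν` is a prime divisor over `X`. -/
def DivOver (X : Set (Subalgebra k K)) (ν : AddValuation K (WithTop ℤ)) : Prop :=
  Divisorial k ν ∧ ∃ O ∈ X, Cen O ν

/-- The multiplicity along `ν` of `φ = Σ r_j div s_j` (`s_j ∈ K^*`, `r_j` real). -/
def ev (ν : AddValuation K (WithTop ℤ)) (φ : Kˣ →₀ ℝ) : ℝ := φ.sum fun s r => r * (val ν (s : K) : ℝ)

/-- Pull-back of `Σ r_j div s_j` to `F`. -/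
def push (K F : Type u) [Field K] [Field F] [Algebra K F] (φ : Kˣ →₀ ℝ) : Fˣ →₀ ℝ :=
  φ.mapDomain (Units.map (algebraMap K F : K →* F))

/-- Near the point `O` the divisor `D` of `X` is `Σ r_j div s_j`. -/
def Rep (X : Set (Subalgebra k K)) (D : AddValuation K (WithTop ℤ) → ℝ) (O : Subalgebra k K) (φ : Kˣ →₀ ℝ) : Prop :=
  ∀ ν : AddValuation K (WithTop ℤ), PDat X O ν → D ν = ev ν φ

/-- The divisor `D` of `X` is `ℝ`-Cartier. -/
def RCar (X : Set (Subalgebra k K)) (D : AddValuation K (WithTop ℤ) → ℝ) : Prop :=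
  ∀ O ∈ X, ∃ φ : Kˣ →₀ ℝ, Rep X D O φ

/-- `D` is an `ℝ`-divisor on `X`: finitely many multiplicities are not zero. -/
def IsDiv (X : Set (Subalgebra k K)) (D : AddValuation K (WithTop ℤ) → ℝ) : Prop :=
  {ν | PD X ν ∧ D ν ≠ 0}.Finite

/-- Multiplicity of the canonical divisor `div (dx_1 ∧ ... ∧ dx_d)` along `ν`: log discrepancy minus `1`. -/
def can (k : Type u) [Field k] [Algebra k K] {d : ℕ} (x : Fin d → K) (ν : AddValuation K (WithTop ℤ)) : ℝ :=
  ((Classical.epsilon (LogDisc k ν x) : ℤ) : ℝ) - 1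

/-- `t ≥ 0`, and `t > 0` if `κ`. -/
def Pos (κ : Prop) (t : ℝ) : Prop := 0 ≤ t ∧ (κ → 0 < t)

/-- `(X, D)` is lc, and klt if `κ`: `K_X + D` is `ℝ`-Cartier, and all divisors over `X` have log discrepancy `≥ 0` (`> 0` if `κ`);
canonical divisor `K_X = div (dx_1 ∧ ... ∧ dx_d)`. -/
def Lc (κ : Prop) (X : Set (Subalgebra k K)) {d : ℕ} (x : Fin d → K) (D : AddValuation K (WithTop ℤ) → ℝ) : Prop :=
  RCar X (fun ν => can k x ν + D ν) ∧
  ∀ O ∈ X, ∀ φ : Kˣ →₀ ℝ, Rep X (fun ν => can k x ν + D ν) O φ →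
    ∀ ν : AddValuation K (WithTop ℤ), Divisorial k ν → Cen O ν → Pos κ (1 + can k x ν - ev ν φ)

/-- `Z` is `ℚ`-factorial. -/
def QFac (Z : Set (Subalgebra k K)) : Prop :=
  ∀ μ : AddValuation K (WithTop ℤ), PD Z μ → ∃ m : ℕ, 0 < m ∧ ∀ P ∈ Z, ∃ s : Kˣ,
    ∀ ν : AddValuation K (WithTop ℤ), PDat Z P ν → (ν = μ → val ν (s : K) = m) ∧ (ν ≠ μ → val ν (s : K) = 0)

/-! ## b-divisors -/

/-- `M` is an `ℝ`-b-divisor over `Z`: its trace on every birational model is a divisor. -/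
def IsB (Z : Set (Subalgebra k K)) (M : AddValuation K (WithTop ℤ) → ℝ) : Prop :=
  ∀ Z' : Set (Subalgebra k K), Vty Z' → Mor Z' Z → IsDiv Z' M

/-- `M` is a base-point free b-divisor: on some birational model `Z''`, proper over `Z`, the trace is a Cartier divisor generated by
its global sections (`s` is a section, `M + div s ≥ 0`, which generates at `P`), and `M` is its pull-back on all models over `Z''`. -/
def Bpf (Z : Set (Subalgebra k K)) (M : AddValuation K (WithTop ℤ) → ℝ) : Prop :=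
  ∃ Z' : Set (Subalgebra k K), Vty Z' ∧ Mor Z' Z ∧ Prp Z' Z ∧
    (∀ P ∈ Z', ∃ s : Kˣ, (∀ ν : AddValuation K (WithTop ℤ), PDat Z' P ν → M ν + val ν (s : K) = 0) ∧
      ∀ ν : AddValuation K (WithTop ℤ), PD Z' ν → 0 ≤ M ν + val ν (s : K)) ∧
    ∀ P ∈ Z', ∀ s : Kˣ, (∀ ν : AddValuation K (WithTop ℤ), PDat Z' P ν → M ν + val ν (s : K) = 0) →
      ∀ ν : AddValuation K (WithTop ℤ), Divisorial k ν → Cen P ν → M ν + val ν (s : K) = 0

/-- `M` is `Γ`-base-point free. -/
def GBpf (Z : Set (Subalgebra k K)) (Γ : Set ℝ) (M : AddValuation K (WithTop ℤ) → ℝ) : Prop :=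
  ∃ (l : ℕ) (a : Fin l → ℝ) (N : Fin l → AddValuation K (WithTop ℤ) → ℝ), (∀ i, a i ∈ Γ) ∧ ∑ i, a i = 1 ∧
    (∀ i, Bpf Z (N i)) ∧ ∀ ν : AddValuation K (WithTop ℤ), DivOver Z ν → M ν = ∑ i, a i * N i ν

/-! ## Fibrations -/

/-- the coordinates `r_1, ..., r_e, y_1, ..., y_n` -/
def cor {e n : ℕ} (r : Fin e → K) (y : Fin n → F) : Fin (e + n) → F :=
  Fin.append (fun i => algebraMap K F (r i)) y

/-- `(X, D) → Z` is an lc-trivial fibration: `Z`, `X` are normal varieties, the morphism is proper (and surjective), `(X, D)` is lc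
(klt if `κ`) with coefficients in `I`, and `K_X + D ~ f^* L` (over `ℝ`); `K_Z = div (dr_1 ∧ ... ∧ dr_e)`,
`K_X = div (dr_1 ∧ ... ∧ dr_e ∧ dy_1 ∧ ... ∧ dy_n)`. -/
structure Fib (κ : Prop) (I : Set ℝ) {e n : ℕ} (r : Fin e → K) (y : Fin n → F) (Z : Set (Subalgebra k K))
    (X : Set (Subalgebra k F)) (D : AddValuation F (WithTop ℤ) → ℝ) (L : AddValuation K (WithTop ℤ) → ℝ) : Prop where
  vz : Vty Z
  vx : Vty X
  mor : Mor X Z
  prp : Prp X Z
  basis : IsTranscendenceBasis k r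
  divD : IsDiv X D
  coef : ∀ ν : AddValuation F (WithTop ℤ), PD X ν → D ν = 0 ∨ D ν ∈ I
  lc : Lc κ X (cor r y) D
  divL : IsDiv Z L
  carL : RCar Z L
  triv : ∃ Φ : Fˣ →₀ ℝ, ∀ O ∈ X, ∀ P ∈ Z, Dom P O → ∀ φ : Kˣ →₀ ℝ, Rep Z L P φ →
    ∀ ν : AddValuation F (WithTop ℤ), PDat X O ν → can k (cor r y) ν + D ν = ev ν (push K F φ) + ev ν Φ

end

/-! ## Projective space over `K` -/

section
variable {K F : Type u} [Field K] [Field F] [Algebra K F] {n : ℕ}

/-- the linear form with coefficients `a` in the affine coordinates `1, y_1, ..., y_n` -/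
def lin (y : Fin n → F) (a : Fin (n + 1) → K) : F :=
  algebraMap K F (a 0) + ∑ j : Fin n, algebraMap K F (a j.succ) * y j

/-- `ν` is the order of vanishing along the irreducible polynomial `p` in `y` -/
def OrdP (y : Fin n → F) (p : MvPolynomial (Fin n) K) (ν : AddValuation F (WithTop ℤ)) : Prop :=
  Irreducible p ∧ ∀ (g : MvPolynomial (Fin n) K) (m : ℕ), ((m : ℤ) : WithTop ℤ) ≤ ν (MvPolynomial.aeval y g) ↔ p ^ m ∣ g

/-- `ν` is the order of vanishing along the hyperplane at infinity -/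
def OrdI (K : Type u) [Field K] [Algebra K F] (y : Fin n → F) (ν : AddValuation F (WithTop ℤ)) : Prop :=
  ∀ g : MvPolynomial (Fin n) K, g ≠ 0 → ν (MvPolynomial.aeval y g) = ((-(g.totalDegree : ℤ) : ℤ) : WithTop ℤ)

/-- The generic fibre is the projective space over `K` with coordinates `y` and boundary `Σ d_i H_i` (up to codimension two, or a
crepant modification of it): `F = K(y)`, every prime divisor `ν` of the projective space is a prime divisor of `X`, and `D ν` is the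
sum of the `d_i` with `H_i = ν`, `H_i` the hyperplane with the equation `lin y (a i) = 0`. -/
structure Arr {k : Type u} [Field k] [Algebra k F] (I : Set ℝ) (y : Fin n → F) (X : Set (Subalgebra k F))
    (D : AddValuation F (WithTop ℤ) → ℝ) {N : ℕ} (a : Fin N → Fin (n + 1) → K) (d : Fin N → ℝ) : Prop where
  indep : AlgebraicIndependent K y
  gen : IntermediateField.adjoin K (Set.range y) = ⊤
  nz : ∀ i, a i ≠ 0
  mem : ∀ i, d i ∈ I
  fin : ∀ (p : MvPolynomial (Fin n) K) (ν : AddValuation F (WithTop ℤ)), OrdP y p ν →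
    PD X ν ∧ D ν = ∑ i, d i * (val ν (lin y (a i)) : ℝ)
  inf : ∀ ν : AddValuation F (WithTop ℤ), OrdI K y ν → PD X ν ∧ D ν = ∑ i, d i * (1 + (val ν (lin y (a i)) : ℝ))

end

/-! ## The lower hull of the valuated matroid -/

section
variable {K : Type u} [Field K] {n N : ℕ}

/-- the maximal minor of the rows `b 0, ..., b n` -/
def mnr (a : Fin N → Fin (n + 1) → K) (b : Fin (n + 1) → Fin N) : K := Matrix.det (fun i j => a (b i) j)

/-- `λ ≥ 0` is a decomposition of `d` into bases from the set `S`: `Σ_b λ_b 1_b = d` -/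
structure Feas {𝕜 : Type} [Field 𝕜] [LinearOrder 𝕜] (S : Set (Fin (n + 1) → Fin N)) (d : Fin N → 𝕜)
    (l : (Fin (n + 1) → Fin N) → 𝕜) : Prop where
  nonneg : ∀ b, 0 ≤ l b
  supp : ∀ b, b ∉ S → l b = 0
  sum : ∀ i, ∑ b, l b * (∑ j, if b j = i then 1 else 0) = d i

/-- the values of the decompositions -/
def vals (S : Set (Fin (n + 1) → Fin N)) (d : Fin N → ℝ) (c : (Fin (n + 1) → Fin N) → ℤ) : Set ℝ :=
  {t | ∃ l, Feas S d l ∧ t = ∑ b, l b * (c b : ℝ)}

/-- the bases of the arrangement -/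
def bas (a : Fin N → Fin (n + 1) → K) : Set (Fin (n + 1) → Fin N) := {b | mnr a b ≠ 0}

/-- `m_v(d)` = the least value of `Σ λ_b v(det_b)` over all decompositions `d = Σ λ_b 1_b` into bases of the arrangement -/
def mv (a : Fin N → Fin (n + 1) → K) (d : Fin N → ℝ) (v : AddValuation K (WithTop ℤ)) : ℝ :=
  sInf (vals (bas a) d fun b => val v (mnr a b))

end

/-! ## Conclusion -/

section
variable {k K F : Type u} [Field k] [Field K] [Field F] [Algebra k K] [Algebra k F] [Algebra K F]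

/-- DCC: no infinite strictly decreasing sequences -/
def DCC (I : Set ℝ) : Prop := ∀ s : ℕ → ℝ, (∀ j, s j ∈ I) → ¬ StrictAnti s

/-- Crepant formula (d) for all models `Z' → Z`, `X' → X` with a morphism `X' → Z'`. -/
def Crep {e n : ℕ} (r : Fin e → K) (y : Fin n → F) (Z : Set (Subalgebra k K))
    (X : Set (Subalgebra k F)) (D : AddValuation F (WithTop ℤ) → ℝ) (Dd Dm : AddValuation K (WithTop ℤ) → ℝ) : Prop :=
  ∀ (Z' : Set (Subalgebra k K)) (X' : Set (Subalgebra k F)), Vty Z' → Vty X' → Mor Z' Z → Mor X' X → Mor X' Z' →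
    RCar Z' (fun ν => can k r ν + Dd ν + Dm ν) ∧
    ∃ Ψ : Fˣ →₀ ℝ, ∀ O' ∈ X', ∀ O ∈ X, ∀ P' ∈ Z', Dom O O' → Dom P' O' →
      ∀ (φ : Fˣ →₀ ℝ) (ψ : Kˣ →₀ ℝ), Rep X (fun ν => can k (cor r y) ν + D ν) O φ →
        Rep Z' (fun ν => can k r ν + Dd ν + Dm ν) P' ψ →
        ∀ ν : AddValuation F (WithTop ℤ), PDat X' O' ν → ev ν φ = ev ν (push K F ψ) + ev ν Ψ

/-- The log discrepancies of the divisors over `X` which lie over `v`, divided by the ramification index. -/
def Dis {e n : ℕ} (r : Fin e → K) (y : Fin n → F) (X : Set (Subalgebra k F))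
    (D : AddValuation F (WithTop ℤ) → ℝ) (v : AddValuation K (WithTop ℤ)) : Set ℝ :=
  {t | ∃ (W : AddValuation F (WithTop ℤ)) (m : ℕ) (O : Subalgebra k F) (φ : Fˣ →₀ ℝ), Divisorial k W ∧ Lies v W m ∧ O ∈ X ∧
    Cen O W ∧ Rep X (fun ν => can k (cor r y) ν + D ν) O φ ∧ t = (1 + can k (cor r y) W - ev W φ) / m}

/-- The conclusion: `ℝ`-b-divisors `D_div`, `D_mod` on `Z` with (a), (b), (d), with (c) for `ℚ`-factorial `Z` and
`1 - D_div v > 0` (`≥ 0`) for all `v` in general; `D_div` is the discriminant and `D_mod v = - m_v(d)`. -/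
structure Adj (κ : Prop) (J Γ : Set ℝ) (m : ℕ) {e n N : ℕ} (r : Fin e → K) (y : Fin n → F) (Z : Set (Subalgebra k K))
    (X : Set (Subalgebra k F)) (D : AddValuation F (WithTop ℤ) → ℝ) (a : Fin N → Fin (n + 1) → K) (d : Fin N → ℝ)
    (Dd Dm : AddValuation K (WithTop ℤ) → ℝ) : Prop where
  bdiv : IsB Z Dd
  bmod : IsB Z Dm
  pa : ∀ ν : AddValuation K (WithTop ℤ), PD Z ν → Dd ν = 0 ∨ Dd ν ∈ J
  pb : GBpf Z Γ (fun ν => m * Dm ν)
  pc : QFac Z → Lc κ Z r Dd
  pg : ∀ ν : AddValuation K (WithTop ℤ), DivOver Z ν → Pos κ (1 - Dd ν)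
  pd : Crep r y Z X D Dd Dm
  dis : ∀ v : AddValuation K (WithTop ℤ), DivOver Z v → IsLeast (Dis r y X D v) (1 - Dd v)
  hull : ∀ v : AddValuation K (WithTop ℤ), DivOver Z v → IsLeast (vals (bas a) d fun b => val v (mnr a b)) (- Dm v)

end

/-- THEOREM HA. -/
def MainHA : Prop := ∀ (n : ℕ), 1 ≤ n → ∀ I : Set ℝ, I ⊆ Set.Ioc 0 1 → DCC I →
  ∃ (J Γ : Set ℝ) (m : ℕ), J ⊆ Set.Ioc 0 1 ∧ DCC J ∧ Γ ⊆ Set.Ioc 0 1 ∧ Γ.Finite ∧ 1 ≤ m ∧
    ∀ (κ : Prop) (k K F : Type u) [Field k] [CharZero k] [Field K] [Field F] [Algebra k K] [Algebra k F] [Algebra K F]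
      [IsScalarTower k K F] (e N : ℕ) (r : Fin e → K) (y : Fin n → F) (Z : Set (Subalgebra k K)) (X : Set (Subalgebra k F))
      (D : AddValuation F (WithTop ℤ) → ℝ) (L : AddValuation K (WithTop ℤ) → ℝ) (a : Fin N → Fin (n + 1) → K) (d : Fin N → ℝ),
      Fib κ I r y Z X D L → Arr I y X D a d →
      ∃ Dd Dm : AddValuation K (WithTop ℤ) → ℝ, Adj κ J Γ m r y Z X D a d Dd Dm

end Pool.Agent.Work.MP_a2680c_ag.HA
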