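import Pool.Agent.Work.MP_a2680c_ag.HA.Defs

/-!
# MP_a2680c_ag, block HA: the final statement for DCC sets of real coefficients
-/

set_option autoImplicit false

noncomputable section

namespace Pool.Agent.Work.MP_a2680c_ag.HA

open MP7b66e6 MP7b66e6.Q
open scoped BigOperators

universe u

section
variable {k K F : Type u} [Field k] [Field K] [Field F] [Algebra k K] [Algebra k F] [Algebra K F]

/-- The conclusion: `Adj`, and (c) holds whenever the trace of `D_mod` on `Z` is `ℝ`-Cartier, in particular if `Z` is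
`ℚ`-factorial. -/
structure AdjE (κ : Prop) (J Γ : Set ℝ) (m : ℕ) {e n N : ℕ} (r : Fin e → K) (y : Fin n → F) (Z : Set (Subalgebra k K))
    (X : Set (Subalgebra k F)) (D : AddValuation F (WithTop ℤ) → ℝ) (a : Fin N → Fin (n + 1) → K) (d : Fin N → ℝ)
    (Dd Dm : AddValuation K (WithTop ℤ) → ℝ) : Prop extends Adj κ J Γ m r y Z X D a d Dd Dm where
  car : QFac Z → RCar Z Dm
  lcc : RCar Z Dm → Lc κ Z r Dd

end

/-- THEOREM HE. -/
def MainHE : Prop := ∀ (n : ℕ), 1 ≤ n → ∀ I : Set ℝ, I ⊆ Set.Ioc 0 1 → DCC I →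
  ∃ (J Γ : Set ℝ) (m : ℕ), J ⊆ Set.Ioc 0 1 ∧ DCC J ∧ Γ ⊆ Set.Ioc 0 1 ∧ Γ.Finite ∧ 1 ≤ m ∧
    ∀ (κ : Prop) (k K F : Type u) [Field k] [CharZero k] [Field K] [Field F] [Algebra k K] [Algebra k F] [Algebra K F]
      [IsScalarTower k K F] (e N : ℕ) (r : Fin e → K) (y : Fin n → F) (Z : Set (Subalgebra k K)) (X : Set (Subalgebra k F))
      (D : AddValuation F (WithTop ℤ) → ℝ) (L : AddValuation K (WithTop ℤ) → ℝ) (a : Fin N → Fin (n + 1) → K) (d : Fin N → ℝ),
      Fib κ I r y Z X D L → Arr I y X D a d →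
      ∃ Dd Dm : AddValuation K (WithTop ℤ) → ℝ, AdjE κ J Γ m r y Z X D a d Dd Dm

end Pool.Agent.Work.MP_a2680c_ag.HA
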