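import Pool.Agent.Work.MP_a2680c_ag.HA.DefsG

/-!
# MP_a2680c_ag, block HA, part R: question Q1 for one fibration
-/

set_option autoImplicit false

noncomputable section

namespace Pool.Agent.Work.MP_a2680c_ag.HA

open MP7b66e6 MP7b66e6.Q
open scoped BigOperators

universe u

section
variable {k K F : Type u} [Field k] [Field K] [Field F] [Algebra k K] [Algebra k F] [Algebra K F]

/-- Question Q1 for one fibration: the `ℝ`-b-divisors `D_div`, `D_mod` on `Z` satisfy (a), (b), (c) and (d). -/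
structure Q1 (κ : Prop) (J Γ : Set ℝ) (m : ℕ) {e n : ℕ} (r : Fin e → K) (x : Fin n → F) (Z : Set (Subalgebra k K))
    (X : Set (Subalgebra k F)) (D : AddValuation F (WithTop ℤ) → ℝ) (Dd Dm : AddValuation K (WithTop ℤ) → ℝ) : Prop where
  bdiv : IsB Z Dd
  bmod : IsB Z Dm
  pa : ∀ ν : AddValuation K (WithTop ℤ), PD Z ν → Dd ν = 0 ∨ Dd ν ∈ J
  pb : GBpf Z Γ (fun ν => m * Dm ν)
  pc : Lc κ Z r Dd
  pd : Crep r x Z X D Dd Dm

end

/-- THEOREM HR. -/
def MainHR : Prop := ∀ n δ : ℕ, 1 ≤ n → 1 ≤ δ → ∀ I : Set ℝ, I ⊆ Set.Ioc 0 1 → DCC I →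
  ∃ J : Set ℝ, J ⊆ Set.Ioc 0 1 ∧ DCC J ∧
    ∀ (κ : Prop) (k K F K' F' : Type u) [Field k] [CharZero k] [Field K] [Field F] [Field K'] [Field F'] [Algebra k K]
      [Algebra k F] [Algebra k K'] [Algebra k F'] [Algebra K F] [Algebra K K'] [Algebra K F'] [Algebra F F'] [Algebra K' F']
      [IsScalarTower k K F] [IsScalarTower k K K'] [IsScalarTower k F F'] [IsScalarTower k K' F'] [IsScalarTower K F F']
      [IsScalarTower K K' F'] [FiniteDimensional K K'] [IsGalois K K'] [FiniteDimensional F F'] [IsGalois F F']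
      [IsAlgClosed k]
      (e N : ℕ) (r : Fin e → K) (x : Fin n → F) (y : Fin n → F') (Z : Set (Subalgebra k K)) (X : Set (Subalgebra k F))
      (D : AddValuation F (WithTop ℤ) → ℝ) (L : AddValuation K (WithTop ℤ) → ℝ) (a : Fin N → Fin (n + 1) → K')
      (d : Fin N → ℝ), Cardinal.aleph0 ≤ Algebra.trdeg ℚ k →
      Fib κ I r x Z X D L → Cov (K := K) δ I x y X D a d →
      ∃ Dd : AddValuation K (WithTop ℤ) → ℝ, Q1 κ J {1} 1 r x Z X D Dd (fun _ => 0)

end Pool.Agent.Work.MP_a2680c_ag.HA
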