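import Pool.Agent.Work.MP_a2680c_ag.HA.DefsH
import Pool.Agent.Work.MP_a2680c_ag.HA.DefsR

/-!
# MP_a2680c_ag, block HA, part V: crepant covers in the birational sense
-/

set_option autoImplicit false

noncomputable section

namespace Pool.Agent.Work.MP_a2680c_ag.HA

open MP7b66e6 MP7b66e6.Q
open scoped BigOperators

universe u

section
variable {k K F : Type u} [Field k] [Field K] [Field F] [Algebra k K] [Algebra k F] [Algebra K F]

/-- `A` is the log discrepancy of the divisor `ν` over `X` with respect to `(X, D)`; it is `1 - D ν` if `ν` is a prime divisor of `X`. -/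
def LDis {e n : ℕ} (r : Fin e → K) (x : Fin n → F) (X : Set (Subalgebra k F)) (D : AddValuation F (WithTop ℤ) → ℝ)
    (ν : AddValuation F (WithTop ℤ)) (A : ℝ) : Prop :=
  Divisorial k ν ∧ ∃ O ∈ X, Cen O ν ∧ ∃ φ : Fˣ →₀ ℝ, Rep X (fun μ => can k (cor r x) μ + D μ) O φ ∧
    A = 1 + can k (cor r x) ν - ev ν φ

end

section
variable {k K F K' F' : Type u} [Field k] [Field K] [Field F] [Field K'] [Field F'] [Algebra k K] [Algebra k F] [Algebra k K']
  [Algebra k F'] [Algebra K F] [Algebra K K'] [Algebra F F'] [Algebra K' F']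

/-- `X → Z` has connected fibres (`K` is algebraically closed in `F`), `x_1, ..., x_n` are algebraically independent over `K`, and
the generic fibre is crepantly dominated, in the birational sense, by the projective space `P` over `K'` with coordinates `y` and
boundary `Σ d_i H_i`, `H_i` the hyperplane `lin y (a i) = 0`: `F' = K'(y)`, `F'/F` and `K'/K` have degree at most `δ`, and every
prime divisor `ν'` of `P` lies over a divisor `ν` over `X` with ramification index `ε`, such that `1 - ε A`, `A` the log discrepancy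
of `ν` with respect to `(X, D)`, is the sum of the `d_i` with `H_i = ν'`. -/
structure Cvb (δ : ℕ) (I : Set ℝ) {e n : ℕ} (r : Fin e → K) (x : Fin n → F) (y : Fin n → F') (X : Set (Subalgebra k F))
    (D : AddValuation F (WithTop ℤ) → ℝ) {N : ℕ} (a : Fin N → Fin (n + 1) → K') (d : Fin N → ℝ) : Prop where
  conn : ∀ f : F, IsAlgebraic K f → ∃ c : K, algebraMap K F c = f
  base : AlgebraicIndependent K x
  indep : AlgebraicIndependent K' y
  gen : IntermediateField.adjoin K' (Set.range y) = ⊤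
  degK : Module.finrank K K' ≤ δ
  degF : Module.finrank F F' ≤ δ
  nz : ∀ i, a i ≠ 0
  mem : ∀ i, d i ∈ I
  fin : ∀ (p : MvPolynomial (Fin n) K') (ν' : AddValuation F' (WithTop ℤ)), OrdP y p ν' →
    ∃ (ν : AddValuation F (WithTop ℤ)) (ε : ℕ) (A : ℝ), LDis r x X D ν A ∧ Lies ν ν' ε ∧
      1 - ε * A = ∑ i, d i * (val ν' (lin y (a i)) : ℝ)
  inf : ∀ ν' : AddValuation F' (WithTop ℤ), OrdI K' y ν' →
    ∃ (ν : AddValuation F (WithTop ℤ)) (ε : ℕ) (A : ℝ), LDis r x X D ν A ∧ Lies ν ν' ε ∧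
      1 - ε * A = ∑ i, d i * (1 + (val ν' (lin y (a i)) : ℝ))

end

/-- THEOREM VG. -/
def MainVG : Prop := ∀ n δ : ℕ, 1 ≤ n → 1 ≤ δ → ∀ I : Set ℝ, I ⊆ Set.Ioc 0 1 → DCC I →
  ∃ (J Γ : Set ℝ) (m : ℕ), J ⊆ Set.Ioc 0 1 ∧ DCC J ∧ Γ ⊆ Set.Ioc 0 1 ∧ Γ.Finite ∧ 1 ≤ m ∧
    ∀ (κ : Prop) (k K F K' F' : Type u) [Field k] [CharZero k] [Field K] [Field F] [Field K'] [Field F'] [Algebra k K]
      [Algebra k F] [Algebra k K'] [Algebra k F'] [Algebra K F] [Algebra K K'] [Algebra K F'] [Algebra F F'] [Algebra K' F']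
      [IsScalarTower k K F] [IsScalarTower k K K'] [IsScalarTower k F F'] [IsScalarTower k K' F'] [IsScalarTower K F F']
      [IsScalarTower K K' F'] [FiniteDimensional K K'] [IsGalois K K'] [FiniteDimensional F F'] [IsGalois F F']
      (e N : ℕ) (r : Fin e → K) (x : Fin n → F) (y : Fin n → F') (Z : Set (Subalgebra k K)) (X : Set (Subalgebra k F))
      (D : AddValuation F (WithTop ℤ) → ℝ) (L : AddValuation K (WithTop ℤ) → ℝ) (a : Fin N → Fin (n + 1) → K')
      (d : Fin N → ℝ),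
      Fib κ I r x Z X D L → Cvb δ I r x y X D a d →
      ∃ Dd Dm : AddValuation K (WithTop ℤ) → ℝ, AdjG κ J Γ m r x Z X D a d Dd Dm

/-- THEOREM VH. -/
def MainVH : Prop := ∀ n M δ : ℕ, 1 ≤ n → 1 ≤ M → 1 ≤ δ →
  ∀ (κ : Prop) (k K F K' F' : Type u) [Field k] [CharZero k] [Field K] [Field F] [Field K'] [Field F'] [Algebra k K]
    [Algebra k F] [Algebra k K'] [Algebra k F'] [Algebra K F] [Algebra K K'] [Algebra K F'] [Algebra F F'] [Algebra K' F']
    [IsScalarTower k K F] [IsScalarTower k K K'] [IsScalarTower k F F'] [IsScalarTower k K' F'] [IsScalarTower K F F']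
    [IsScalarTower K K' F'] [FiniteDimensional K K'] [IsGalois K K'] [FiniteDimensional F F'] [IsGalois F F']
    (e N : ℕ) (r : Fin e → K) (x : Fin n → F) (y : Fin n → F') (Z : Set (Subalgebra k K)) (X : Set (Subalgebra k F))
    (D : AddValuation F (WithTop ℤ) → ℝ) (L : AddValuation K (WithTop ℤ) → ℝ) (a : Fin N → Fin (n + 1) → K')
    (d : Fin N → ℝ),
    Fib κ (IM M) r x Z X D L → Cvb δ (IM M) r x y X D a d →
    ∃ Dd Dm : AddValuation K (WithTop ℤ) → ℝ, AdjH κ M δ r x Z X D a d Dd Dm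

/-- THEOREM VR. -/
def MainVR : Prop := ∀ n δ : ℕ, 1 ≤ n → 1 ≤ δ → ∀ I : Set ℝ, I ⊆ Set.Ioc 0 1 → DCC I →
  ∃ J : Set ℝ, J ⊆ Set.Ioc 0 1 ∧ DCC J ∧
    ∀ (κ : Prop) (k K F K' F' : Type u) [Field k] [CharZero k] [Field K] [Field F] [Field K'] [Field F'] [Algebra k K]
      [Algebra k F] [Algebra k K'] [Algebra k F'] [Algebra K F] [Algebra K K'] [Algebra K F'] [Algebra F F'] [Algebra K' F']
      [IsScalarTower k K F] [IsScalarTower k K K'] [IsScalarTower k F F'] [IsScalarTower k K' F'] [IsScalarTower K F F']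
      [IsScalarTower K K' F'] [FiniteDimensional K K'] [IsGalois K K'] [FiniteDimensional F F'] [IsGalois F F']
      [IsAlgClosed k]
      (e N : ℕ) (r : Fin e → K) (x : Fin n → F) (y : Fin n → F') (Z : Set (Subalgebra k K)) (X : Set (Subalgebra k F))
      (D : AddValuation F (WithTop ℤ) → ℝ) (L : AddValuation K (WithTop ℤ) → ℝ) (a : Fin N → Fin (n + 1) → K')
      (d : Fin N → ℝ), Cardinal.aleph0 ≤ Algebra.trdeg ℚ k →
      Fib κ I r x Z X D L → Cvb δ I r x y X D a d →
      ∃ Dd : AddValuation K (WithTop ℤ) → ℝ, Q1 κ J {1} 1 r x Z X D Dd (fun _ => 0)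

end Pool.Agent.Work.MP_a2680c_ag.HA
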