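import Pool.Agent.Work.MP_a2680c_ag.HA.DefsV

/-!
# MP_a2680c_ag, block HA, part W: towers

lc-trivial fibrations whose generic fibre is a tower of geometrically rational curves over a quotient of a projective space.
-/

set_option autoImplicit false

noncomputable section

namespace Pool.Agent.Work.MP_a2680c_ag.HA

open MP7b66e6 MP7b66e6.Q
open scoped BigOperators

universe u

/-! ## Curves over `K` -/

/-- `ν` is a point of the (normal proper) curve over `K` with function field `E`: a normalized discrete valuation, trivial on `K`. -/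
def Plc (K : Type u) {E : Type u} [Field K] [Field E] [Algebra K E] (ν : AddValuation E (WithTop ℤ)) : Prop :=
  (∃ π : E, ν π = 1) ∧ ∀ c : K, 0 ≤ ν (algebraMap K E c)

/-- `E` is the function field of a geometrically rational curve (a conic) over `K`: `K` is algebraically closed in `E`, and there are
a finite Galois extension `K₁` of `K` and a field `F₁` generated by `E` and `K₁`, such that `F₁ = K₁(y)` is a field of rational
functions. -/
def GRat (K E : Type u) [Field K] [Field E] [Algebra K E] : Prop :=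
  (∀ f : E, IsAlgebraic K f → ∃ c : K, algebraMap K E c = f) ∧
  ∃ (K₁ F₁ : Type u) (_ : Field K₁) (_ : Field F₁) (_ : Algebra K K₁) (_ : Algebra K F₁) (_ : Algebra E F₁)
    (_ : Algebra K₁ F₁) (_ : IsScalarTower K E F₁) (_ : IsScalarTower K K₁ F₁) (_ : FiniteDimensional K K₁) (_ : IsGalois K K₁)
    (y : Fin 1 → F₁), IntermediateField.adjoin E (Set.range (algebraMap K₁ F₁)) = ⊤ ∧ AlgebraicIndependent K₁ y ∧
      IntermediateField.adjoin K₁ (Set.range y) = ⊤

section
variable {k K E : Type u} [Field k] [Field K] [Field E] [Algebra k K] [Algebra k E] [Algebra K E]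

/-- `Y` is a normal variety, proper over `Z`, whose generic fibre is a geometrically rational curve. -/
structure Cnc (Z : Set (Subalgebra k K)) (Y : Set (Subalgebra k E)) : Prop where
  rat : GRat K E
  vy : Vty Y
  mor : Mor Y Z
  prp : Prp Y Z

end

section
variable {k K F : Type u} [Field k] [Field K] [Field F] [Algebra k K] [Algebra k F] [Algebra K F]

/-- The multiplicity along the divisor `ν` over `X` of the crepant pull-back of `D`: `1` minus the log discrepancy (the set below is
`{A}`, `A` the log discrepancy; it is empty, and the value is `1`, if `ν` has no centre on `X`). -/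
def crp {e n : ℕ} (r : Fin e → K) (x : Fin n → F) (X : Set (Subalgebra k F)) (D : AddValuation F (WithTop ℤ) → ℝ)
    (ν : AddValuation F (WithTop ℤ)) : ℝ := 1 - sSup {A : ℝ | LDis r x X D ν A}

end

section
variable {k K F K' F' : Type u} [Field k] [Field K] [Field F] [Field K'] [Field F'] [Algebra k K] [Algebra k F] [Algebra k K']
  [Algebra k F'] [Algebra K F] [Algebra K K'] [Algebra F F'] [Algebra K' F']

/-- `K` is algebraically closed in `F`, and the generic fibre is crepantly dominated, in the birational sense, by the projective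
space `P` over `K'` with coordinates `y` and boundary `Σ d_i H_i`, `H_i` the hyperplane `lin y (a i) = 0`: `F' = K'(y)`, `F'/F` and
`K'/K` have degree at most `δ`, and every prime divisor `ν'` of `P` lies over a divisor `ν` with ramification index `ε`, such that
`1 - ε (1 - 𝔻 ν)` (the multiplicity along `ν'` of the crepant pull-back of `𝔻`) is the sum of the `d_i` with `H_i = ν'`. -/
structure Cvd (k : Type u) {K F K' F' : Type u} [Field k] [Field K] [Field F] [Field K'] [Field F'] [Algebra k F] [Algebra K F]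
    [Algebra K K'] [Algebra F F'] [Algebra K' F'] (δ : ℕ) (I : Set ℝ) {n : ℕ} (y : Fin n → F')
    (𝔻 : AddValuation F (WithTop ℤ) → ℝ) {N : ℕ} (a : Fin N → Fin (n + 1) → K') (d : Fin N → ℝ) : Prop where
  conn : ∀ f : F, IsAlgebraic K f → ∃ c : K, algebraMap K F c = f
  indep : AlgebraicIndependent K' y
  gen : IntermediateField.adjoin K' (Set.range y) = ⊤
  degK : Module.finrank K K' ≤ δ
  degF : Module.finrank F F' ≤ δ
  nz : ∀ i, a i ≠ 0
  mem : ∀ i, d i ∈ I
  fin : ∀ (p : MvPolynomial (Fin n) K') (ν' : AddValuation F' (WithTop ℤ)), OrdP y p ν' →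
    ∃ (ν : AddValuation F (WithTop ℤ)) (ε : ℕ), Divisorial k ν ∧ Lies ν ν' ε ∧
      1 - ε * (1 - 𝔻 ν) = ∑ i, d i * (val ν' (lin y (a i)) : ℝ)
  inf : ∀ ν' : AddValuation F' (WithTop ℤ), OrdI K' y ν' →
    ∃ (ν : AddValuation F (WithTop ℤ)) (ε : ℕ), Divisorial k ν ∧ Lies ν ν' ε ∧
      1 - ε * (1 - 𝔻 ν) = ∑ i, d i * (1 + (val ν' (lin y (a i)) : ℝ))

end

/-- THE CLASS.  `𝔻 ν` is the multiplicity along `ν` of the boundary on a sufficiently high model of `X`.  The generic fibre of
`X → Z` is in the class of height `0` if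
* `X → Z` is birational to a fibration whose generic fibre is a geometrically rational curve, all multiplicities of the boundary at
  the points of this curve being `0` or in `I`; or
* it is crepantly dominated by an `n`-dimensional projective space with weighted hyperplanes, with weights in `I`, as in `Cvd`.
It is in the class of height `s + 1` if it is in the class of height `s`, or
* (fibration) there are a normal variety `Y`, proper over `Z`, whose generic fibre is a geometrically rational curve, and a rational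
  map `X ⇢ Y` over `Z` (`K ⊆ E ⊆ F`), such that `X ⇢ Y` is of height `s`, and every point of the generic fibre of `Y → Z` is
  dominated by a divisor `ν` with `𝔻 ν = 0` or `𝔻 ν ∈ I` (for example a prime divisor of `X`); or
* (base change) there are finite Galois extensions `K'/K` and `F'/F` of degree at most `δ`, `K' ⊆ F'`, and a normal variety `Z'`
  with function field `K'`, proper over `Z`, such that the pull-back `𝔻'` of `𝔻` is of height `s` over `Z'`. -/
def Tow {k : Type u} [Field k] (n δ : ℕ) (I : Set ℝ) : ℕ → ∀ (K F : Type u) [Field K] [Field F] [Algebra k K] [Algebra k F]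
    [Algebra K F], Set (Subalgebra k K) → (AddValuation F (WithTop ℤ) → ℝ) → Prop
  | 0 => fun K F _ _ _ _ _ Z 𝔻 =>
      (∃ Y : Set (Subalgebra k F), Cnc Z Y ∧ ∀ w : AddValuation F (WithTop ℤ), Plc K w → 𝔻 w = 0 ∨ 𝔻 w ∈ I) ∨
      ∃ (K' F' : Type u) (_ : Field K') (_ : Field F') (_ : Algebra k K') (_ : Algebra k F') (_ : Algebra K K')
        (_ : Algebra K F') (_ : Algebra F F') (_ : Algebra K' F') (_ : IsScalarTower k K K') (_ : IsScalarTower k F F')
        (_ : IsScalarTower k K' F') (_ : IsScalarTower K F F') (_ : IsScalarTower K K' F') (_ : FiniteDimensional K K')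
        (_ : IsGalois K K') (_ : FiniteDimensional F F') (_ : IsGalois F F') (y : Fin n → F') (N : ℕ)
        (a : Fin N → Fin (n + 1) → K') (d : Fin N → ℝ), Cvd (K := K) k δ I y 𝔻 a d
  | s + 1 => fun K F _ _ _ _ _ Z 𝔻 => Tow n δ I s K F Z 𝔻 ∨
      (∃ (E : Type u) (_ : Field E) (_ : Algebra k E) (_ : Algebra K E) (_ : Algebra E F) (_ : IsScalarTower k K E)
        (_ : IsScalarTower k E F) (_ : IsScalarTower K E F) (Y : Set (Subalgebra k E)), Cnc Z Y ∧
        (∀ w : AddValuation E (WithTop ℤ), Plc K w → ∃ (ν : AddValuation F (WithTop ℤ)) (m : ℕ), Divisorial k ν ∧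
          Lies w ν m ∧ (𝔻 ν = 0 ∨ 𝔻 ν ∈ I)) ∧ Tow n δ I s E F Y 𝔻) ∨
      ∃ (K' F' : Type u) (_ : Field K') (_ : Field F') (_ : Algebra k K') (_ : Algebra k F') (_ : Algebra K K')
        (_ : Algebra K F') (_ : Algebra F F') (_ : Algebra K' F') (_ : IsScalarTower k K K') (_ : IsScalarTower k F F')
        (_ : IsScalarTower k K' F') (_ : IsScalarTower K F F') (_ : IsScalarTower K K' F') (_ : FiniteDimensional K K')
        (_ : IsGalois K K') (_ : FiniteDimensional F F') (_ : IsGalois F F') (Z' : Set (Subalgebra k K'))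
        (𝔻' : AddValuation F' (WithTop ℤ) → ℝ), (∀ f : F, IsAlgebraic K f → ∃ c : K, algebraMap K F c = f) ∧
        Module.finrank K K' ≤ δ ∧ Module.finrank F F' ≤ δ ∧ Vty Z' ∧ Mor Z' Z ∧ Prp Z' Z ∧
        (∀ (ν : AddValuation F (WithTop ℤ)) (ν' : AddValuation F' (WithTop ℤ)) (ε : ℕ), Divisorial k ν → Lies ν ν' ε →
          1 - 𝔻' ν' = ε * (1 - 𝔻 ν)) ∧ Tow n δ I s K' F' Z' 𝔻'

/-- THEOREM W. -/
def MainW : Prop := ∀ n δ s : ℕ, 1 ≤ n → 1 ≤ δ → ∀ I : Set ℝ, I ⊆ Set.Ioc 0 1 → DCC I →
  ∃ J : Set ℝ, J ⊆ Set.Ioc 0 1 ∧ DCC J ∧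
    ∀ (κ : Prop) (k K F : Type u) [Field k] [CharZero k] [IsAlgClosed k] [Field K] [Field F] [Algebra k K] [Algebra k F]
      [Algebra K F] [IsScalarTower k K F] (e m : ℕ) (r : Fin e → K) (x : Fin m → F) (Z : Set (Subalgebra k K))
      (X : Set (Subalgebra k F)) (D : AddValuation F (WithTop ℤ) → ℝ) (L : AddValuation K (WithTop ℤ) → ℝ),
      Cardinal.aleph0 ≤ Algebra.trdeg ℚ k → Fib κ I r x Z X D L → IsTranscendenceBasis k (cor r x) →
      Tow n δ I s K F Z (crp r x X D) →
      ∃ Dd : AddValuation K (WithTop ℤ) → ℝ, Q1 κ J {1} 1 r x Z X D Dd (fun _ => 0)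

end Pool.Agent.Work.MP_a2680c_ag.HA
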