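import Pool.Agent.Work.MP_a2680c_ag.HA.DefsW

/-!
# MP_a2680c_ag, block HA, part Y: towers of curves

The class `Twr` enlarges the class `Tow` of part W: curves of genus one, and finite quotients.
-/

set_option autoImplicit false

noncomputable section

namespace Pool.Agent.Work.MP_a2680c_ag.HA

open MP7b66e6 MP7b66e6.Q
open scoped BigOperators

universe u

/-- `E` is the function field of a curve over `K` which has a vector field without zeros and poles (a curve of genus one); `K` is
algebraically closed in `E`. -/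
def GOne (K E : Type u) [Field K] [Field E] [Algebra K E] : Prop :=
  (∀ f : E, IsAlgebraic K f → ∃ c : K, algebraMap K E c = f) ∧
  ∃ θ : Derivation K E E, ∀ w : AddValuation E (WithTop ℤ), Plc K w →
    (∀ f : E, 0 ≤ w f → 0 ≤ w (θ f)) ∧ ∃ f : E, 0 ≤ w f ∧ w (θ f) = 0

section
variable {k K E : Type u} [Field k] [Field K] [Field E] [Algebra k K] [Algebra k E] [Algebra K E]

/-- `Y` is a normal variety, proper over `Z`, whose generic fibre is
* a geometrically rational curve, or
* a curve of genus one with a finite map to a geometrically rational curve (function field `E₀`, `Y₀` a model) such that all points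
  over a point have the same ramification index (for a curve `C` of genus one, `C → Jac C → Jac C / ±1` is such a map). -/
def Cur (Z : Set (Subalgebra k K)) (Y : Set (Subalgebra k E)) : Prop :=
  Cnc Z Y ∨ (Vty Y ∧ Mor Y Z ∧ Prp Y Z ∧ GOne K E ∧
    ∃ (E₀ : Type u) (_ : Field E₀) (_ : Algebra k E₀) (_ : Algebra K E₀) (_ : Algebra E₀ E) (_ : IsScalarTower k K E₀)
      (_ : IsScalarTower k E₀ E) (_ : IsScalarTower K E₀ E) (_ : FiniteDimensional E₀ E) (Y₀ : Set (Subalgebra k E₀)),
      Cnc Z Y₀ ∧ ∀ (w₀ : AddValuation E₀ (WithTop ℤ)) (w w' : AddValuation E (WithTop ℤ)) (m m' : ℕ), Plc K w → Plc K w' →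
        Lies w₀ w m → Lies w₀ w' m' → m = m')

end

/-- THE CLASS.  `𝔻 ν` is the multiplicity along `ν` of the boundary on a sufficiently high model of `X`.  The generic fibre of
`X → Z` is in the class of height `0` if
* `X → Z` is birational to a fibration whose generic fibre is a curve as in `Cur`, all multiplicities of the boundary at
  the points of this curve being `0` or in `I`; or
* it is crepantly dominated by an `n`-dimensional projective space with weighted hyperplanes, with weights in `I`, as in `Cvd`.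
It is in the class of height `s + 1` if it is in the class of height `s`, or
* (fibration) there are a normal variety `Y`, proper over `Z`, whose generic fibre is a curve as in `Cur`, and a rational
  map `X ⇢ Y` over `Z` (`K ⊆ E ⊆ F`), such that `X ⇢ Y` is of height `s`, and every point of the generic fibre of `Y → Z` is
  dominated by a divisor `ν` with `𝔻 ν = 0` or `𝔻 ν ∈ I` (for example a prime divisor of `X`); or
* (base change, cover) there are finite Galois extensions `K'/K` and `F'/F` of degree at most `δ`, `K' ⊆ F'`, and a normal variety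
  `Z'` with function field `K'`, proper over `Z`, such that the crepant pull-back `𝔻'` of `𝔻` is of height `s` over `Z'`; or
* (quotient) `F` is finite over a field `F₀ ⊇ K`, and `𝔻` is the crepant pull-back of some `𝔻₀` of height `s`. -/
def Twr {k : Type u} [Field k] (n δ : ℕ) (I : Set ℝ) : ℕ → ∀ (K F : Type u) [Field K] [Field F] [Algebra k K] [Algebra k F]
    [Algebra K F], Set (Subalgebra k K) → (AddValuation F (WithTop ℤ) → ℝ) → Prop
  | 0 => fun K F _ _ _ _ _ Z 𝔻 =>
      (∃ Y : Set (Subalgebra k F), Cur Z Y ∧ ∀ w : AddValuation F (WithTop ℤ), Plc K w → 𝔻 w = 0 ∨ 𝔻 w ∈ I) ∨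
      ∃ (K' F' : Type u) (_ : Field K') (_ : Field F') (_ : Algebra k K') (_ : Algebra k F') (_ : Algebra K K')
        (_ : Algebra K F') (_ : Algebra F F') (_ : Algebra K' F') (_ : IsScalarTower k K K') (_ : IsScalarTower k F F')
        (_ : IsScalarTower k K' F') (_ : IsScalarTower K F F') (_ : IsScalarTower K K' F') (_ : FiniteDimensional K K')
        (_ : IsGalois K K') (_ : FiniteDimensional F F') (_ : IsGalois F F') (y : Fin n → F') (N : ℕ)
        (a : Fin N → Fin (n + 1) → K') (d : Fin N → ℝ), Cvd (K := K) k δ I y 𝔻 a d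
  | s + 1 => fun K F _ _ _ _ _ Z 𝔻 => Twr n δ I s K F Z 𝔻 ∨
      (∃ (E : Type u) (_ : Field E) (_ : Algebra k E) (_ : Algebra K E) (_ : Algebra E F) (_ : IsScalarTower k K E)
        (_ : IsScalarTower k E F) (_ : IsScalarTower K E F) (Y : Set (Subalgebra k E)), Cur Z Y ∧
        (∀ w : AddValuation E (WithTop ℤ), Plc K w → ∃ (ν : AddValuation F (WithTop ℤ)) (m : ℕ), Divisorial k ν ∧
          Lies w ν m ∧ (𝔻 ν = 0 ∨ 𝔻 ν ∈ I)) ∧ Twr n δ I s E F Y 𝔻) ∨
      (∃ (K' F' : Type u) (_ : Field K') (_ : Field F') (_ : Algebra k K') (_ : Algebra k F') (_ : Algebra K K')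
        (_ : Algebra K F') (_ : Algebra F F') (_ : Algebra K' F') (_ : IsScalarTower k K K') (_ : IsScalarTower k F F')
        (_ : IsScalarTower k K' F') (_ : IsScalarTower K F F') (_ : IsScalarTower K K' F') (_ : FiniteDimensional K K')
        (_ : IsGalois K K') (_ : FiniteDimensional F F') (_ : IsGalois F F') (Z' : Set (Subalgebra k K'))
        (𝔻' : AddValuation F' (WithTop ℤ) → ℝ), (∀ f : F, IsAlgebraic K f → ∃ c : K, algebraMap K F c = f) ∧
        Module.finrank K K' ≤ δ ∧ Module.finrank F F' ≤ δ ∧ Vty Z' ∧ Mor Z' Z ∧ Prp Z' Z ∧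
        (∀ (ν : AddValuation F (WithTop ℤ)) (ν' : AddValuation F' (WithTop ℤ)) (ε : ℕ), Divisorial k ν → Lies ν ν' ε →
          1 - 𝔻' ν' = ε * (1 - 𝔻 ν)) ∧ Twr n δ I s K' F' Z' 𝔻') ∨
      ∃ (F₀ : Type u) (_ : Field F₀) (_ : Algebra k F₀) (_ : Algebra K F₀) (_ : Algebra F₀ F) (_ : IsScalarTower k K F₀)
        (_ : IsScalarTower k F₀ F) (_ : IsScalarTower K F₀ F) (_ : FiniteDimensional F₀ F) (_ : Algebra.EssFiniteType k F₀)
        (𝔻₀ : AddValuation F₀ (WithTop ℤ) → ℝ),
        (∀ (ν : AddValuation F₀ (WithTop ℤ)) (ν' : AddValuation F (WithTop ℤ)) (ε : ℕ), Divisorial k ν →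
          (∃ π : F, ν' π = 1) → Lies ν ν' ε → 1 - 𝔻 ν' = ε * (1 - 𝔻₀ ν)) ∧ Twr n δ I s K F₀ Z 𝔻₀

/-- THEOREM Y. -/
def MainY : Prop := ∀ n δ s : ℕ, 1 ≤ n → 1 ≤ δ → ∀ I : Set ℝ, I ⊆ Set.Ioc 0 1 → DCC I →
  ∃ J : Set ℝ, J ⊆ Set.Ioc 0 1 ∧ DCC J ∧
    ∀ (κ : Prop) (k K F : Type u) [Field k] [CharZero k] [IsAlgClosed k] [Field K] [Field F] [Algebra k K] [Algebra k F]
      [Algebra K F] [IsScalarTower k K F] (e m : ℕ) (r : Fin e → K) (x : Fin m → F) (Z : Set (Subalgebra k K))
      (X : Set (Subalgebra k F)) (D : AddValuation F (WithTop ℤ) → ℝ) (L : AddValuation K (WithTop ℤ) → ℝ),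
      Cardinal.aleph0 ≤ Algebra.trdeg ℚ k → Fib κ I r x Z X D L → IsTranscendenceBasis k (cor r x) →
      Twr n δ I s K F Z (crp r x X D) →
      ∃ Dd : AddValuation K (WithTop ℤ) → ℝ, Q1 κ J {1} 1 r x Z X D Dd (fun _ => 0)

end Pool.Agent.Work.MP_a2680c_ag.HA
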