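import Pool.Agent.Work.MP_a2680c_ag.HA.StmtsG

/-! Item [a2680c HA Aag] (helper15): coefficients of the discriminant. -/

set_option autoImplicit false

noncomputable section

namespace Pool.Agent.Work.MP_a2680c_ag.HA

open MP7b66e6 MP7b66e6.Q
open scoped BigOperators

universe u

namespace XAag

/-- the Gauss valuation of `F' = K'(y)` over `v'` -/
theorem gauss {K' F' : Type u} [Field K'] [Field F'] [Algebra K' F'] {n : ℕ} {y : Fin n → F'} (hMnv : StMnv.{u})
    (hG : GenBy K' y) (v' : AddValuation K' (WithTop ℤ)) (hπ : ∃ π : K', v' π = 1) :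
    ∃ W : AddValuation F' (WithTop ℤ), Lies v' W 1 := by
  obtain ⟨π, hπ⟩ := hπ
  have hπ0 : π ≠ 0 := by
    intro h0
    rw [h0, AddValuation.map_zero] at hπ
    exact absurd hπ (by decide)
  have hvπ : val v' π = 1 := Api.val_of v' hπ
  obtain ⟨W, g, hg, _, hW⟩ := hMnv K' F' n y hG v' ⟨π, hπ⟩ 1 (fun _ => 0) one_pos
  have hWK : ∀ c : K', c ≠ 0 → (g : ℤ) * val W (algebraMap K' F' c) = val v' c := by
    intro c hc
    obtain ⟨s, hs, h⟩ := (hW (MvPolynomial.C c) (by simpa using hc)).2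
    have hs0 : s = 0 := by
      by_contra hcon
      rw [MvPolynomial.mem_support_iff, MvPolynomial.coeff_C, if_neg (fun h => hcon h.symm)] at hs
      exact hs rfl
    subst hs0
    simpa using h
  have hg1 : g = 1 := by
    have h1 := hWK π hπ0
    rw [hvπ] at h1
    have : (g : ℤ) ∣ 1 := ⟨_, h1.symm⟩
    exact_mod_cast Int.eq_one_of_dvd_one (by positivity) this
  subst hg1
  refine ⟨W, one_pos, fun f hf => ?_⟩
  have := hWK f hf
  push_cast at this ⊢
  linarith

end XAag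

theorem pr_Aag (_hTbs : StTbs.{u}) (hTbx : StTbx.{u}) (hTb : StTb.{u}) (hGrm : StGrm.{u}) (hPdd : StPdd.{u})
    (hMnv : StMnv.{u}) (hKrg : StKrg.{u}) (hCmp : StCmp.{u}) (hRmi : StRmi.{u}) (hAvc : StAvc.{u}) : StAag.{u} := by
  intro κ k K F K' F' _ _ _ _ _ _ _ _ _ _ _ _ _ _ _ _ _ _ _ _ _ _ _ _ e n N I r x y Z X D L a d Ξ J hFib hG hx ha hd
    hKey hconn v hv v' ε hv' hL l hl hmv
  have hEK : Algebra.EssFiniteType k K := (hGrm k K Z hFib.vz).1
  have hEF : Algebra.EssFiniteType k F := (hGrm k F X hFib.vx).1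
  have hbs := hTbx k K F K' F' e n r x y hEK hFib.basis hG hx
  have htr : Algebra.trdeg k F = ((e + n : ℕ) : Cardinal) := (hTb k F (e + n) (cor r x) hbs.1).2
  obtain ⟨W, hLW⟩ := XAag.gauss hMnv hG v' hv'.1
  have hvW : Lies v W (1 * ε) := Api.lies_trans hL hLW
  have hres : Lies v (Api.res F W) ε := by
    refine ⟨hL.1, fun f hf => ?_⟩
    have h1 := hvW.2 f hf
    rw [one_mul, IsScalarTower.algebraMap_apply K F F'] at h1
    exact h1
  have hv'k : ∀ c : k, 0 ≤ v' (algebraMap k K' c) := by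
    obtain ⟨_, C, _, hC, _⟩ := hv'
    exact fun t => hC _ (C.algebraMap_mem t)
  have hWk : ∀ c : k, 0 ≤ Api.res F W (algebraMap k F c) := by
    intro c
    rw [Api.res_apply, ← IsScalarTower.algebraMap_apply k F F', IsScalarTower.algebraMap_apply k K' F']
    by_cases h0 : algebraMap k K' c = 0
    · rw [h0, map_zero, AddValuation.map_zero]; exact le_top
    · have h0' : algebraMap K' F' (algebraMap k K' c) ≠ 0 := by simpa using h0
      rw [← Api.val_nonneg W h0', hLW.2 _ h0]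
      have := (Api.val_nonneg v' h0).2 (hv'k c)
      push_cast
      linarith
  obtain ⟨E, μ, O, P, hE, hLE, hO, hEO, hP, hdom, hPv⟩ := hKrg k K F (e + n) Z X htr hFib.vz hFib.vx hFib.mor hFib.prp v hv
    ⟨Api.res F W, ε, hWk, hres⟩
  obtain ⟨W', η, m', hW', hEW', hvW'⟩ := hCmp k K F K' F' hconn v E v' μ ε hE hLE hv'.1 hL
  have hη : η ≤ Module.finrank F F' := hRmi F F' E W' η hEW' hW'.1
  have hidx : (m' : ℤ) * ε = η * μ := by
    obtain ⟨π, hπ⟩ := hv.1
    have hπ0 : π ≠ 0 := by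
      intro h0
      rw [h0, AddValuation.map_zero] at hπ
      exact absurd hπ (by decide)
    have hvπ : val v π = 1 := Api.val_of v hπ
    have h1 := (Api.lies_trans hL hvW').2 π hπ0
    have h2 := (Api.lies_trans hLE hEW').2 π hπ0
    rw [hvπ, mul_one] at h1 h2
    rw [h1] at h2
    exact_mod_cast h2
  obtain ⟨ψ, hψ⟩ := hFib.lc.1 O hO
  obtain ⟨c, hc⟩ := hAvc κ k K F K' F' e n N I r x y Z X D L a d Ξ J hFib hG hx ha hd hKey v v' ε
    (hPdd k K Z hFib.vz v hv).1 hv' hL l hl hmv E W' η m' O P hE hW' hEW' hvW' hO hP hdom hEO.2 (fun f hf => (hPv f).1 hf)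
    ψ hψ
  have hD := hψ E hEO
  refine ⟨E, c, μ, η, hEO.1, hLE, hEW'.1, hη, ?_⟩
  have hη0 : (η : ℝ) ≠ 0 := by exact_mod_cast hEW'.1.ne'
  have hε0 : (ε : ℝ) ≠ 0 := by exact_mod_cast hL.1.ne'
  have hidx' : (m' : ℝ) * ε = η * μ := by exact_mod_cast hidx
  have hc' : (η : ℝ) * (1 - D E) = m' * (Tg r Z L Ξ v v' ε - mv a d v') + ∑ b, l b * (c b : ℝ) := by
    rw [← hc]
    have : can k (cor r x) E + D E = ev E ψ := hD
    rw [← this]
    ring
  generalize Tg r Z L Ξ v v' ε - mv a d v' = T at hc' ⊢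
  generalize ∑ b, l b * (c b : ℝ) = S at hc' ⊢
  rw [sub_div' hη0, mul_div_assoc', div_eq_div_iff hη0 hε0]
  have h3 : ((1 - D E) * η - S) = m' * T := by
    rw [mul_comm (1 - D E) (η : ℝ), hc']; ring
  rw [h3]
  calc (m' : ℝ) * T * ε = (m' * ε) * T := by ring
    _ = (η * μ) * T := by rw [hidx']
    _ = μ * T * η := by ring

end Pool.Agent.Work.MP_a2680c_ag.HA
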