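import Pool.Agent.Work.MP_a2680c_ag.HA.StmtsG

/-! Item [a2680c HA Abg] (helper99): the moduli part is generated up to a positive integral multiple. -/

set_option autoImplicit false

noncomputable section

namespace Pool.Agent.Work.MP_a2680c_ag.HA

open MP7b66e6 MP7b66e6.Q
open scoped BigOperators

universe u

namespace XAbg

variable {K : Type u} [Field K]

/-- the set of the `c`-th powers -/
def pw (S : Finset Kˣ) (c : ℕ) : Finset Kˣ := by
  classical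
  exact S.image fun s => s ^ c

theorem mem_pw {S : Finset Kˣ} {c : ℕ} {t : Kˣ} : t ∈ pw S c ↔ ∃ s ∈ S, s ^ c = t := by
  classical
  unfold pw
  simp

theorem val_pw (ν : AddValuation K (WithTop ℤ)) (s : Kˣ) (c : ℕ) :
    (val ν ((s ^ c : Kˣ) : K) : ℝ) = (c : ℝ) * (val ν (s : K) : ℝ) := by
  rw [Units.val_pow_eq_pow_val, Api.val_pow ν (Units.ne_zero s) c]
  push_cast
  ring

end XAbg

theorem pr_Abg (hBp3 : StBp3.{u}) : StAbg.{u} := by
  intro k K _ _ _ _ e l M c r Z Γ w S hr hZ hM hc hwΓ hw1 hS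
  refine ⟨l, w, fun i ν => - ((c : ℝ) * (mnS (S i) ν : ℝ)), hwΓ, hw1, ?_, ?_⟩
  · intro i
    refine hBp3 k K Z hZ e r hr (XAbg.pw (S i) c) ?_ _ ?_
    · obtain ⟨s, hs⟩ := hS i
      exact ⟨s ^ c, XAbg.mem_pw.2 ⟨s, hs, rfl⟩⟩
    · intro ν
      obtain ⟨⟨s, hs, hmin⟩, hle⟩ := Api.mnS_spec (hS i) ν
      refine ⟨⟨s ^ c, XAbg.mem_pw.2 ⟨s, hs, rfl⟩, ?_⟩, ?_⟩
      · rw [XAbg.val_pw]
        show - ((c : ℝ) * (mnS (S i) ν : ℝ)) + (c : ℝ) * (val ν (s : K) : ℝ) = 0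
        rw [hmin]
        ring
      · intro t ht
        obtain ⟨s', hs', rfl⟩ := XAbg.mem_pw.1 ht
        rw [XAbg.val_pw]
        show 0 ≤ - ((c : ℝ) * (mnS (S i) ν : ℝ)) + (c : ℝ) * (val ν (s' : K) : ℝ)
        have h1 : (mnS (S i) ν : ℝ) ≤ (val ν (s' : K) : ℝ) := by exact_mod_cast hle s' hs'
        have h2 : (0 : ℝ) ≤ c := Nat.cast_nonneg c
        nlinarith [mul_le_mul_of_nonneg_left h1 h2]
  · intro ν _
    have hM0 : (M : ℝ) ≠ 0 := by exact_mod_cast hM.ne'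
    have h : (((c * M : ℕ) : ℝ)) * Dmg w S M ν = - ((c : ℝ) * ∑ i, w i * (mnS (S i) ν : ℝ)) := by
      unfold Dmg
      push_cast
      field_simp
    show ((c * M : ℕ) : ℝ) * Dmg w S M ν = ∑ i, w i * (- ((c : ℝ) * (mnS (S i) ν : ℝ)))
    rw [h, Finset.mul_sum, ← Finset.sum_neg_distrib]
    refine Finset.sum_congr rfl fun i _ => ?_
    ring

end Pool.Agent.Work.MP_a2680c_ag.HA
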