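import Pool.Agent.Work.MP_a2680c_ag.HA.StmtsG

/-! Item [a2680c HA Acg] (helper73, after I_Asg of helper82): part (c) for the moduli part given by finite sets. -/

set_option autoImplicit false

noncomputable section

namespace Pool.Agent.Work.MP_a2680c_ag.HA

open MP7b66e6 MP7b66e6.Q
open scoped BigOperators

universe u

namespace XAcg

variable {K : Type u} [Field K] {l : ℕ}

/-- minus the moduli part -/
def mg (w : Fin l → ℝ) (S : Fin l → Finset Kˣ) (M : ℕ) (ν : AddValuation K (WithTop ℤ)) : ℝ :=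
  (∑ i, w i * (mnS (S i) ν : ℝ)) / M

theorem dmg_eq (w : Fin l → ℝ) (S : Fin l → Finset Kˣ) (M : ℕ) (ν : AddValuation K (WithTop ℤ)) :
    Dmg w S M ν = - mg w S M ν := by
  unfold Dmg mg
  rw [neg_div]

theorem mg_zero (w : Fin l → ℝ) (S : Fin l → Finset Kˣ) (M : ℕ) (hS : ∀ i, (S i).Nonempty)
    (ν : AddValuation K (WithTop ℤ)) (h : ∀ i, ∀ s ∈ S i, val ν (s : K) = 0) : mg w S M ν = 0 := by
  unfold mg
  rw [Finset.sum_eq_zero, zero_div]
  intro i _
  obtain ⟨s, hs, h1⟩ := (Api.mnS_spec (hS i) ν).1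
  rw [h1, h i s hs]
  simp

theorem ev_om (w : Fin l → ℝ) (M : ℕ) (s : Fin l → Kˣ) (ν : AddValuation K (WithTop ℤ)) :
    ev ν (∑ i, Finsupp.single (s i) (w i / M)) = (∑ i, w i * (val ν (s i : K) : ℝ)) / M := by
  rw [Api.ev_sum, Finset.sum_div]
  apply Finset.sum_congr rfl
  intro i _
  rw [Api.ev_single]
  ring

end XAcg

theorem pr_Acg (_hPdd : StPdd.{u}) (hEff : StEff.{u}) (hWdl : StWdl.{u}) (hFsp : StFsp.{u}) : StAcg.{u} := by
  classical
  intro κ k K _ _ _ _ e l M r Z L Ξ w S hr hZ hdL hcL hM hw hS hO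
  have hfun : ∀ ν : AddValuation K (WithTop ℤ),
      can k r ν + Ddg r Z L Ξ w S M ν = Lv Z L ν + ev ν Ξ + XAcg.mg w S M ν := by
    intro ν; unfold Ddg Tv; rw [XAcg.dmg_eq]; ring
  refine ⟨?_, ?_⟩
  · intro hQ
    have hfin : {ν : AddValuation K (WithTop ℤ) | PD Z ν ∧ XAcg.mg w S M ν ≠ 0}.Finite := by
      have h1 : (⋃ i : Fin l, ⋃ s ∈ S i,
          {ν : AddValuation K (WithTop ℤ) | PD Z ν ∧ val ν (s : K) ≠ 0}).Finite := by
        apply Set.finite_iUnion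
        intro i
        apply Set.Finite.biUnion (Finset.finite_toSet _)
        intro s _
        exact (hFsp k K Z hZ).1 (s : K) s.ne_zero
      refine h1.subset ?_
      rintro ν ⟨h2, h3⟩
      have : ∃ i, ∃ s ∈ S i, val ν (s : K) ≠ 0 := by
        by_contra hcon
        push Not at hcon
        exact h3 (XAcg.mg_zero w S M hS ν hcon)
      obtain ⟨i, s, hs, hs1⟩ := this
      exact Set.mem_iUnion.2 ⟨i, Set.mem_biUnion (show s ∈ (↑(S i) : Set Kˣ) from hs) ⟨h2, hs1⟩⟩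
    set V := hfin.toFinset with hV
    intro P hP
    have h1 : ∀ μ : AddValuation K (WithTop ℤ), PD Z μ → ∃ m : ℕ, 0 < m ∧ ∃ s : Kˣ,
        ∀ ν : AddValuation K (WithTop ℤ), PDat Z P ν → (ν = μ → val ν (s : K) = m) ∧ (ν ≠ μ → val ν (s : K) = 0) := by
      intro μ hμ
      obtain ⟨m, hm, h2⟩ := hQ μ hμ
      exact ⟨m, hm, h2 P hP⟩
    choose! m hm s hs using h1
    have hχ : ∀ ν : AddValuation K (WithTop ℤ), PDat Z P ν →
        XAcg.mg w S M ν = ev ν (∑ μ ∈ V, Finsupp.single (s μ) (XAcg.mg w S M μ / m μ)) := by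
      intro ν hν
      rw [Api.ev_sum]
      have hPDV : ∀ μ ∈ V, PD Z μ := fun μ hμ => ((Set.Finite.mem_toFinset hfin).1 hμ).1
      by_cases hνV : ν ∈ V
      · rw [Finset.sum_eq_single ν]
        · rw [Api.ev_single, (hs ν (hPDV ν hνV) ν hν).1 rfl]
          have : ((m ν : ℕ) : ℝ) ≠ 0 := by
            have := hm ν (hPDV ν hνV)
            positivity
          push_cast
          field_simp
        · intro μ hμ hne
          rw [Api.ev_single, (hs μ (hPDV μ hμ) ν hν).2 (fun h => hne h.symm)]; simp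
        · intro h; exact absurd hνV h
      · rw [Finset.sum_eq_zero]
        · by_contra hcon
          exact hνV ((Set.Finite.mem_toFinset hfin).2 ⟨hν.1, hcon⟩)
        · intro μ hμ
          rw [Api.ev_single, (hs μ (hPDV μ hμ) ν hν).2 (fun h => hνV (h ▸ hμ))]; simp
    refine ⟨-(∑ μ ∈ V, Finsupp.single (s μ) (XAcg.mg w S M μ / m μ)), ?_⟩
    intro ν hν
    rw [Api.ev_neg, ← hχ ν hν]
    exact XAcg.dmg_eq w S M ν
  intro hQ
  have hχ : ∀ P ∈ Z, ∃ χ : Kˣ →₀ ℝ, ∀ ν : AddValuation K (WithTop ℤ), PDat Z P ν → XAcg.mg w S M ν = ev ν χ := by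
    intro P hP
    obtain ⟨χ, hχ⟩ := hQ P hP
    refine ⟨-χ, fun ν hν => ?_⟩
    have h1 : Dmg w S M ν = ev ν χ := hχ ν hν
    rw [Api.ev_neg, ← h1, XAcg.dmg_eq, neg_neg]
  have hrep : ∀ P ∈ Z, ∀ (φ χ : Kˣ →₀ ℝ), Rep Z L P φ →
      (∀ ν : AddValuation K (WithTop ℤ), PDat Z P ν → XAcg.mg w S M ν = ev ν χ) →
      Rep Z (fun ν => can k r ν + Ddg r Z L Ξ w S M ν) P (φ + Ξ + χ) := by
    intro P hP φ χ hφ hχ ν hν
    change can k r ν + Ddg r Z L Ξ w S M ν = _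
    rw [hfun, hWdl k K Z hZ e r hr L P hP φ hφ ν hν.2, Api.ev_add, Api.ev_add, hχ ν hν]
  constructor
  · intro P hP
    obtain ⟨φ, hφ⟩ := hcL P hP
    obtain ⟨χ, hχ'⟩ := hχ P hP
    exact ⟨φ + Ξ + χ, hrep P hP φ χ hφ hχ'⟩
  · intro P hP φ' hφ' v hv hcen
    obtain ⟨φ, hφ⟩ := hcL P hP
    obtain ⟨χ, hχ'⟩ := hχ P hP
    have hr1 := hrep P hP φ χ hφ hχ'
    have h4 : 0 ≤ ev v (φ' - (φ + Ξ + χ)) := by
      refine hEff k K Z hZ e r hr P hP _ ?_ v hcen.1
      intro μ hμ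
      rw [Api.ev_sub, ← hφ' μ hμ, ← hr1 μ hμ, sub_self]
    have h5 : 0 ≤ ev v ((φ + Ξ + χ) - φ') := by
      refine hEff k K Z hZ e r hr P hP _ ?_ v hcen.1
      intro μ hμ
      rw [Api.ev_sub, ← hφ' μ hμ, ← hr1 μ hμ, sub_self]
    rw [Api.ev_sub, Api.ev_add, Api.ev_add] at h4 h5
    have h6 := hWdl k K Z hZ e r hr L P hP φ hφ v hcen.1
    have hpos := hO v ⟨hv, P, hP, hcen⟩
    rw [XAcg.dmg_eq] at hpos
    have hch : ∀ i, ∃ s ∈ S i, mnS (S i) v = val v (s : K) := fun i => (Api.mnS_spec (hS i) v).1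
    choose s hs hsv using hch
    have hMr : (0 : ℝ) < M := by exact_mod_cast hM
    have hev : ev v (∑ i, Finsupp.single (s i) (w i / M)) = XAcg.mg w S M v := by
      rw [XAcg.ev_om]
      unfold XAcg.mg
      congr 1
      apply Finset.sum_congr rfl
      intro i _
      rw [hsv i]
    have h7 : 0 ≤ ev v ((∑ i, Finsupp.single (s i) (w i / M)) - χ) := by
      refine hEff k K Z hZ e r hr P hP _ ?_ v hcen.1
      intro μ hμ
      rw [Api.ev_sub, XAcg.ev_om, ← hχ' μ hμ]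
      unfold XAcg.mg
      rw [← sub_div, ← Finset.sum_sub_distrib]
      apply div_nonneg _ hMr.le
      apply Finset.sum_nonneg
      intro i _
      rw [← mul_sub]
      apply mul_nonneg (hw i)
      have := (Api.mnS_spec (hS i) μ).2 (s i) (hs i)
      have h8 : ((mnS (S i) μ : ℤ) : ℝ) ≤ ((val μ (s i : K) : ℤ) : ℝ) := by exact_mod_cast this
      linarith
    rw [Api.ev_sub, hev] at h7
    have h9 : Tv r Z L Ξ v + - XAcg.mg w S M v ≤ 1 + can k r v - ev v φ' := by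
      unfold Tv
      rw [h6]
      linarith
    exact ⟨le_trans hpos.1 h9, fun hk => lt_of_lt_of_le (hpos.2 hk) h9⟩

end Pool.Agent.Work.MP_a2680c_ag.HA
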