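import Pool.Agent.Work.MP_a2680c_ag.HA.StmtsG

/-! Item [a2680c HA Adg] (helper63): part (d) in general. -/

set_option autoImplicit false

noncomputable section

namespace Pool.Agent.Work.MP_a2680c_ag.HA

open MP7b66e6 MP7b66e6.Q
open scoped BigOperators

universe u

theorem pr_Adg (_hLoc : StLoc.{u}) (_hTb : StTb.{u}) (_hGrm : StGrm.{u}) (_hPdd : StPdd.{u})
    (hEff : StEff.{u}) (hWdl : StWdl.{u}) : StAdg.{u} := by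
  classical
  intro κ k K F _ _ _ _ _ _ _ _ e n I r x Z X D L Ξ Dd Dm hF hxb hsum Z' X' hZ' hX' hmZ hmX hmXZ
  have hrep : ∀ P' ∈ Z', ∀ P ∈ Z, Dom P P' → ∀ φ : Kˣ →₀ ℝ, Rep Z L P φ →
      Rep Z' (fun ν => can k r ν + Dd ν + Dm ν) P' (φ + Ξ) := by
    intro P' hP' P hP hd φ hφ ν hν
    change can k r ν + Dd ν + Dm ν = _
    rw [hsum, hWdl k K Z hF.vz e r hF.basis L P hP φ hφ ν (fun f hf => hν.2 f (hd f hf).1), Api.ev_add]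
  refine ⟨?_, ?_⟩
  · intro P' hP'
    obtain ⟨P, hP, hd⟩ := hmZ P' hP'
    obtain ⟨φ, hφ⟩ := hF.carL P hP
    exact ⟨φ + Ξ, hrep P' hP' P hP hd φ hφ⟩
  · obtain ⟨Φ, hΦ⟩ := hF.triv
    refine ⟨Φ - push K F Ξ, ?_⟩
    intro O' hO' O hO P' hP' hOO' hP'O' φ ψ hφ hψ ν hν
    obtain ⟨P, hP, hPP'⟩ := hmZ P' hP'
    obtain ⟨P₀, hP₀, hP₀O⟩ := hF.mor O hO
    obtain ⟨φ₀, hφ₀⟩ := hF.carL P₀ hP₀
    obtain ⟨φ₁, hφ₁⟩ := hF.carL P hP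
    have hνO : ∀ f ∈ O, 0 ≤ ν f := fun f hf => hν.2 f (hOO' f hf).1
    have hwP' : ∀ f ∈ P', 0 ≤ Api.res K ν f := fun f hf => hν.2 _ (hP'O' f hf).1
    have hwP : ∀ f ∈ P, 0 ≤ Api.res K ν f := fun f hf => hwP' f (hPP' f hf).1
    have hwP₀ : ∀ f ∈ P₀, 0 ≤ Api.res K ν f := fun f hf => hνO _ (hP₀O f hf).1
    have hrφ : ∀ μ : AddValuation F (WithTop ℤ), PDat X O μ → can k (cor r x) μ + D μ = ev μ φ :=
      fun μ hμ => hφ μ hμ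
    have h1 : 0 ≤ ev ν (φ - (push K F φ₀ + Φ)) := by
      refine hEff k F X hF.vx (e + n) (cor r x) hxb O hO _ ?_ _ hνO
      intro μ hμ
      rw [Api.ev_sub, Api.ev_add, ← hΦ O hO P₀ hP₀ hP₀O φ₀ hφ₀ μ hμ, ← hrφ μ hμ, sub_self]
    have h1' : 0 ≤ ev ν ((push K F φ₀ + Φ) - φ) := by
      refine hEff k F X hF.vx (e + n) (cor r x) hxb O hO _ ?_ _ hνO
      intro μ hμ
      rw [Api.ev_sub, Api.ev_add, ← hΦ O hO P₀ hP₀ hP₀O φ₀ hφ₀ μ hμ, ← hrφ μ hμ, sub_self]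
    have h2 := hWdl k K Z hF.vz e r hF.basis L P₀ hP₀ φ₀ hφ₀ _ hwP₀
    have h3 := hWdl k K Z hF.vz e r hF.basis L P hP φ₁ hφ₁ _ hwP
    have hr := hrep P' hP' P hP hPP' φ₁ hφ₁
    have h4 : 0 ≤ ev (Api.res K ν) (ψ - (φ₁ + Ξ)) := by
      refine hEff k K Z' hZ' e r hF.basis P' hP' _ ?_ _ hwP'
      intro μ hμ
      rw [Api.ev_sub, ← hψ μ hμ, ← hr μ hμ, sub_self]
    have h5 : 0 ≤ ev (Api.res K ν) ((φ₁ + Ξ) - ψ) := by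
      refine hEff k K Z' hZ' e r hF.basis P' hP' _ ?_ _ hwP'
      intro μ hμ
      rw [Api.ev_sub, ← hψ μ hμ, ← hr μ hμ, sub_self]
    rw [Api.ev_sub, Api.ev_add] at h1 h1' h4 h5
    rw [← Api.ev_res] at h1 h1'
    rw [← Api.ev_res, Api.ev_sub, ← Api.ev_res]
    linarith

end Pool.Agent.Work.MP_a2680c_ag.HA
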