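import Pool.Agent.Work.MP_a2680c_ag.HA.StmtsG

/-!
# MP_a2680c_ag, block HA, item Afg: finite supports
-/

set_option autoImplicit false

noncomputable section

namespace Pool.Agent.Work.MP_a2680c_ag.HA

open MP7b66e6 MP7b66e6.Q
open scoped BigOperators

universe u

namespace XAfg

theorem mnS_zero {K : Type u} [Field K] (S : Finset Kˣ) (ν : AddValuation K (WithTop ℤ))
    (h : ∀ s ∈ S, val ν (s : K) = 0) : mnS S ν = 0 := by
  unfold mnS
  have h1 : {t : ℤ | ∃ s ∈ S, t = val ν (s : K)} ⊆ {0} := by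
    rintro t ⟨s, hs, rfl⟩
    rw [Set.mem_singleton_iff]
    exact h s hs
  rcases Set.subset_singleton_iff_eq.1 h1 with h2 | h2
  · rw [h2, Int.csInf_empty]
  · rw [h2, csInf_singleton]

theorem Dmg_zero {K : Type u} [Field K] {l : ℕ} (w : Fin l → ℝ) (S : Fin l → Finset Kˣ) (M : ℕ)
    (ν : AddValuation K (WithTop ℤ)) (h : ∀ i, ∀ s ∈ S i, val ν (s : K) = 0) :
    Dmg w S M ν = 0 := by
  unfold Dmg
  have h1 : ∑ i, w i * (mnS (S i) ν : ℝ) = 0 := by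
    refine Finset.sum_eq_zero fun i _ => ?_
    rw [mnS_zero (S i) ν (h i), Int.cast_zero, mul_zero]
  rw [h1, neg_zero, zero_div]

theorem fin_Dmg (hFsp : StFsp.{u}) {k K : Type u} [Field k] [Field K] [Algebra k K]
    {l : ℕ} (Z : Set (Subalgebra k K)) (hZ : Vty Z) (w : Fin l → ℝ) (S : Fin l → Finset Kˣ)
    (M : ℕ) : {ν : AddValuation K (WithTop ℤ) | PD Z ν ∧ Dmg w S M ν ≠ 0}.Finite := by
  have h1 : (⋃ i : Fin l, ⋃ s ∈ S i,
      {ν : AddValuation K (WithTop ℤ) | PD Z ν ∧ val ν (s : K) ≠ 0}).Finite := by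
    refine Set.finite_iUnion fun i => Set.Finite.biUnion (S i).finite_toSet fun s _ => ?_
    exact (hFsp k K Z hZ).1 (s : K) s.ne_zero
  refine h1.subset ?_
  rintro ν ⟨h2, h3⟩
  by_contra h4
  apply h3
  apply Dmg_zero
  intro i s hs
  by_contra h5
  exact h4 (Set.mem_iUnion.2 ⟨i, Set.mem_iUnion₂.2 ⟨s, hs, h2, h5⟩⟩)

theorem fin_ev (hFsp : StFsp.{u}) {k K : Type u} [Field k] [Field K] [Algebra k K]
    (Z : Set (Subalgebra k K)) (hZ : Vty Z) (Ξ : Kˣ →₀ ℝ) :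
    {ν : AddValuation K (WithTop ℤ) | PD Z ν ∧ ev ν Ξ ≠ 0}.Finite := by
  have h1 : (⋃ s ∈ Ξ.support,
      {ν : AddValuation K (WithTop ℤ) | PD Z ν ∧ val ν (s : K) ≠ 0}).Finite := by
    refine Set.Finite.biUnion Ξ.support.finite_toSet fun s _ => ?_
    exact (hFsp k K Z hZ).1 (s : K) s.ne_zero
  refine h1.subset ?_
  rintro ν ⟨h2, h3⟩
  by_contra h4
  apply h3
  unfold ev
  rw [Finsupp.sum]
  refine Finset.sum_eq_zero fun s hs => ?_
  by_cases h5 : val ν (s : K) = 0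
  · rw [h5, Int.cast_zero, mul_zero]
  · exact (h4 (Set.mem_iUnion₂.2 ⟨s, hs, h2, h5⟩)).elim

end XAfg

theorem pr_Afg (hFsp : StFsp.{u}) (hFsc : StFsc.{u}) (hLfs : StLfs.{u}) : StAfg.{u} := by
  intro k K _ _ _ _ e l M r Z L Ξ w S hr hZ hL hC
  constructor
  · intro Z' hZ' hM
    have h1 := hFsc k K Z' hZ' e r hr
    have h2 := hLfs k K Z hZ e r hr L hL hC Z' hZ' hM
    have h3 := XAfg.fin_ev hFsp Z' hZ' Ξ
    have h4 := XAfg.fin_Dmg hFsp Z' hZ' w S M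
    refine (((h1.union h2).union h3).union h4).subset ?_
    rintro ν ⟨h5, h6⟩
    by_contra h7
    simp only [Set.mem_union, Set.mem_ofPred_eq, not_or, not_and, not_not] at h7
    obtain ⟨⟨⟨a1, a2⟩, a3⟩, a4⟩ := h7
    apply h6
    unfold Ddg Tv
    rw [a1 h5, a2 h5, a3 h5, a4 h5]
    ring
  · intro Z' hZ' hM
    exact XAfg.fin_Dmg hFsp Z' hZ' w S M

end Pool.Agent.Work.MP_a2680c_ag.HA
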