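import Pool.Agent.Work.MP_a2680c_ag.HA.StmtsD

/-! Item [a2680c HA Asa] (helper9): part (a). -/

set_option autoImplicit false

noncomputable section

namespace Pool.Agent.Work.MP_a2680c_ag.HA

open MP7b66e6 MP7b66e6.Q
open scoped BigOperators

universe u

theorem pr_Asa (hGrm : StGrm.{u}) (hPdd : StPdd.{u}) (hKru : StKru.{u}) (hAvg : StAvg.{u}) : StAsa.{u} := by
  intro κ k K F _ _ _ _ _ _ _ _ e n N I r y Z X D L a d Ξ hF hG ha hK v hv hO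
  haveI : Algebra.EssFiniteType k K := (hGrm k K Z hF.vz).1
  obtain ⟨E, m, O, P, hE, hL, hOX, hEO, hP, hdom, hPv⟩ :=
    hKru k K F e n r y Z X hF.basis hG hF.vz hF.vx hF.mor hF.prp v hv
  obtain ⟨l, hl, hb, hmv, _, hpos, _⟩ := hO
  obtain ⟨ψ, hψ⟩ := hF.lc.1 O hOX
  obtain ⟨c, hc⟩ := hAvg κ k K F e n N I r y Z X D L a d Ξ hF hG ha hK v (hPdd k K Z hF.vz v hv).1 l hl hmv E m O P hE hL
    hOX hP hdom hEO.2 (fun f hf => (hPv f).1 hf) ψ hψ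
  have h1 := hψ E hEO
  have hm : (0 : ℝ) < m := by exact_mod_cast hL.1
  have h2 : 1 - D E = m * (Tv r Z L Ξ v - mv a d v) + ∑ b, l b * (c b : ℝ) := by
    rw [← hc, ← h1]; ring
  have h3 : 0 ≤ (m : ℝ) * (Tv r Z L Ξ v - mv a d v) := mul_nonneg hm.le hpos.1
  refine ⟨l, c, D E, m, hl, hb, hF.coef E hEO.1, hL.1, by linarith, ?_⟩
  unfold Ddd
  have h4 : 1 - D E - ∑ b, l b * (c b : ℝ) = m * (Tv r Z L Ξ v - mv a d v) := by linarith
  rw [h4, mul_div_cancel_left₀ _ hm.ne']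

end Pool.Agent.Work.MP_a2680c_ag.HA
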