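import Pool.Agent.Work.MP_a2680c_ag.HA.StmtsD

/-! Item [a2680c HA Asb] (helper9): part (b). -/

set_option autoImplicit false

noncomputable section

namespace Pool.Agent.Work.MP_a2680c_ag.HA

open MP7b66e6 MP7b66e6.Q
open scoped BigOperators

universe u

namespace XAsb

variable {K : Type u} [Field K] {n N : ℕ}

/-- the unit `mnr a b` -/
def un (a : Fin N → Fin (n + 1) → K) (b : Fin (n + 1) → Fin N) : Kˣ := by
  classical exact if h : mnr a b ≠ 0 then Units.mk0 _ h else 1

/-- bracket monomials -/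
def mon (a : Fin N → Fin (n + 1) → K) (c : (Fin (n + 1) → Fin N) → ℕ) : Kˣ := ∏ b, un a b ^ c b

theorem val_mon (a : Fin N → Fin (n + 1) → K) (c : (Fin (n + 1) → Fin N) → ℕ) (hc : ∀ b, b ∉ bas a → c b = 0)
    (ν : AddValuation K (WithTop ℤ)) : val ν ((mon a c : Kˣ) : K) = ∑ b, (c b : ℤ) * val ν (mnr a b) := by
  have : ((mon a c : Kˣ) : K) = ∏ b, ((un a b : Kˣ) : K) ^ c b := by
    unfold mon
    push_cast
    rfl
  rw [this, Api.val_prod ν Finset.univ _ (fun b _ => pow_ne_zero _ (un a b).ne_zero)]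
  apply Finset.sum_congr rfl
  intro b _
  rw [Api.val_pow ν (un a b).ne_zero]
  by_cases hb : b ∈ bas a
  · have hb' : mnr a b ≠ 0 := hb
    unfold un
    rw [dif_pos hb']
    rfl
  · rw [hc b hb]; simp

end XAsb

theorem pr_Asb (hBp3 : StBp3.{u}) : StAsb.{u} := by
  classical
  intro k K _ _ _ _ e n N r Z a d Γ m l w G hr hZ hw hw1 hP hopt
  by_cases hex : ∃ l₀, Feas (bas a) d l₀
  · obtain ⟨h1, h2⟩ := hP (bas a) hex
    let S : Fin l → Finset Kˣ := fun i => ((G i).filter fun c => ∀ b, b ∉ bas a → c b = 0).image (XAsb.mon a)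
    have hS : ∀ i, (S i).Nonempty := by
      intro i
      obtain ⟨c, hc, hc0⟩ := h1 i
      exact ⟨_, Finset.mem_image_of_mem _ (Finset.mem_filter.2 ⟨hc, hc0⟩)⟩
    let τ : Fin l → AddValuation K (WithTop ℤ) → ℤ := fun i ν => (S i).inf' (hS i) fun s => val ν (s : K)
    refine ⟨l, w, fun i ν => -((τ i ν : ℤ) : ℝ), hw, hw1, ?_, ?_⟩
    · intro i
      refine hBp3 k K Z hZ e r hr (S i) (hS i) _ ?_
      intro ν
      constructor
      · obtain ⟨s, hs, hs1⟩ := Finset.exists_mem_eq_inf' (hS i) (fun s => val ν (s : K))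
        refine ⟨s, hs, ?_⟩
        have : τ i ν = val ν (s : K) := hs1
        change -((τ i ν : ℤ) : ℝ) + ((val ν (s : K) : ℤ) : ℝ) = 0
        rw [this]; ring
      · intro s hs
        have : τ i ν ≤ val ν (s : K) := Finset.inf'_le _ hs
        have h3 : ((τ i ν : ℤ) : ℝ) ≤ ((val ν (s : K) : ℤ) : ℝ) := by exact_mod_cast this
        change 0 ≤ -((τ i ν : ℤ) : ℝ) + ((val ν (s : K) : ℤ) : ℝ)
        linarith
    · intro v hv
      have h3 := h2 (fun b => val v (mnr a b)) (mv a d v) (hopt v hv) (fun i => τ i v) (by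
        intro i
        constructor
        · obtain ⟨s, hs, hs1⟩ := Finset.exists_mem_eq_inf' (hS i) (fun s => val v (s : K))
          obtain ⟨c, hc, rfl⟩ := Finset.mem_image.1 hs
          obtain ⟨hc1, hc2⟩ := Finset.mem_filter.1 hc
          refine ⟨c, hc1, hc2, ?_⟩
          change τ i v = _
          rw [show τ i v = _ from hs1, XAsb.val_mon a c hc2]
        · rintro t ⟨c, hc, hc0, rfl⟩
          rw [← XAsb.val_mon a c hc0]
          exact Finset.inf'_le (fun s : Kˣ => val v (s : K))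
            (Finset.mem_image_of_mem _ (Finset.mem_filter.2 ⟨hc, hc0⟩)))
      change (m : ℝ) * Dmm a d v = _
      unfold Dmm
      change _ = ∑ i, w i * -((τ i v : ℤ) : ℝ)
      have h4 : ∑ i, w i * -((τ i v : ℤ) : ℝ) = - ∑ i, w i * ((τ i v : ℤ) : ℝ) := by
        rw [← Finset.sum_neg_distrib]
        apply Finset.sum_congr rfl
        intro i _
        ring
      rw [h4, ← h3]
      ring
  · refine ⟨l, w, fun _ _ => 0, hw, hw1, ?_, ?_⟩
    · intro i
      refine hBp3 k K Z hZ e r hr {1} (Finset.singleton_nonempty _) _ ?_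
      intro ν
      have h0 : val ν (((1 : Kˣ) : K)) = 0 := by
        rw [Units.val_one]; exact Api.val_one ν
      refine ⟨⟨1, Finset.mem_singleton_self _, ?_⟩, ?_⟩
      · rw [h0]; simp
      · intro s hs
        rw [Finset.mem_singleton.1 hs, h0]; simp
    · intro v hv
      exfalso
      obtain ⟨l₀, hl₀, _⟩ := (hopt v hv).1
      exact hex ⟨l₀, hl₀⟩

end Pool.Agent.Work.MP_a2680c_ag.HA
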