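import Pool.Agent.Work.MP_a2680c_ag.HA.StmtsD

/-! Item [a2680c HA Asd] (helper9): part (d). -/

set_option autoImplicit false

noncomputable section

namespace Pool.Agent.Work.MP_a2680c_ag.HA

open MP7b66e6 MP7b66e6.Q
open scoped BigOperators

universe u

theorem pr_Asd (_hLoc : StLoc.{u}) (_hTb : StTb.{u}) (_hTfr : StTfr.{u}) (_hGrm : StGrm.{u}) (_hPdd : StPdd.{u})
    (hEff : StEff.{u}) (hWdl : StWdl.{u}) : StAsd.{u} := by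
  classical
  intro κ k K F _ _ _ _ _ _ _ _ e n N I r y Z X D L a d Ξ hF hG ha hlin hK Z' X' hZ' hX' hmZ hmX hmXZ
  have h0 : ∀ ν : AddValuation K (WithTop ℤ), can k r ν + Ddd r Z L Ξ a d ν + Dmm a d ν = Lv Z L ν + ev ν Ξ := by
    intro ν
    unfold Ddd Dmm Tv
    ring
  have hrep : ∀ P' ∈ Z', ∀ P ∈ Z, Dom P P' → ∀ φ : Kˣ →₀ ℝ, Rep Z L P φ →
      Rep Z' (fun ν => can k r ν + Ddd r Z L Ξ a d ν + Dmm a d ν) P' (φ + Ξ) := by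
    intro P' hP' P hP hd φ hφ ν hν
    change can k r ν + Ddd r Z L Ξ a d ν + Dmm a d ν = _
    rw [h0, hWdl k K Z hF.vz e r hF.basis L P hP φ hφ ν (fun f hf => hν.2 f (hd f hf).1), Api.ev_add]
  refine ⟨?_, ?_⟩
  · intro P' hP'
    obtain ⟨P, hP, hd⟩ := hmZ P' hP'
    obtain ⟨φ, hφ⟩ := hF.carL P hP
    exact ⟨φ + Ξ, hrep P' hP' P hP hd φ hφ⟩
  · refine ⟨∑ i, Finsupp.single (Units.mk0 (lin y (a i)) (hlin i)) (d i), ?_⟩
    intro O' hO' O hO P' hP' hOO' hP'O' φ ψ hφ hψ ν hν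
    obtain ⟨P, hP, hPP'⟩ := hmZ P' hP'
    obtain ⟨P₀, hP₀, hP₀O⟩ := hF.mor O hO
    obtain ⟨φ₀, hφ₀⟩ := hF.carL P₀ hP₀
    obtain ⟨φ₁, hφ₁⟩ := hF.carL P hP
    have hνO : ∀ f ∈ O, 0 ≤ ν f := fun f hf => hν.2 f (hOO' f hf).1
    have hwP' : ∀ f ∈ P', 0 ≤ Api.res K ν f := fun f hf => hν.2 _ (hP'O' f hf).1
    have hwP : ∀ f ∈ P, 0 ≤ Api.res K ν f := fun f hf => hwP' f (hPP' f hf).1
    have hwP₀ : ∀ f ∈ P₀, 0 ≤ Api.res K ν f := fun f hf => hνO _ (hP₀O f hf).1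
    have h1 := hK.2 O hO P₀ hP₀ hP₀O φ₀ hφ₀ φ hφ ν hνO
    have h2 := hWdl k K Z hF.vz e r hF.basis L P₀ hP₀ φ₀ hφ₀ _ hwP₀
    have h3 := hWdl k K Z hF.vz e r hF.basis L P hP φ₁ hφ₁ _ hwP
    have hr := hrep P' hP' P hP hPP' φ₁ hφ₁
    have h4 : 0 ≤ ev (Api.res K ν) (ψ - (φ₁ + Ξ)) := by
      refine hEff k K Z' hZ' e r hF.basis P' hP' _ ?_ _ hwP'
      intro μ hμ
      rw [Api.ev_sub, ← hψ μ hμ, ← hr μ hμ, sub_self]
    have h5 : 0 ≤ ev (Api.res K ν) ((φ₁ + Ξ) - ψ) := by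
      refine hEff k K Z' hZ' e r hF.basis P' hP' _ ?_ _ hwP'
      intro μ hμ
      rw [Api.ev_sub, ← hψ μ hμ, ← hr μ hμ, sub_self]
    rw [Api.ev_sub, Api.ev_add] at h4 h5
    rw [← Api.ev_res, ← Api.ev_res] at h1
    rw [← Api.ev_res, Api.ev_sum]
    have h6 : ∑ i, ev ν (Finsupp.single (Units.mk0 (lin y (a i)) (hlin i)) (d i)) =
        ∑ i, d i * (val ν (lin y (a i)) : ℝ) := by
      apply Finset.sum_congr rfl
      intro i _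
      rw [Api.ev_single]
      rfl
    rw [h6, h1, ← h2, h3]
    have h7 : ev (Api.res K ν) ψ = ev (Api.res K ν) φ₁ + ev (Api.res K ν) Ξ := by linarith
    rw [h7]

end Pool.Agent.Work.MP_a2680c_ag.HA
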