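import Pool.Agent.Work.MP_a2680c_ag.HA.StmtsD

/-! Item [a2680c HA Ase] (helper9): the discriminant. -/

set_option autoImplicit false

noncomputable section

namespace Pool.Agent.Work.MP_a2680c_ag.HA

open MP7b66e6 MP7b66e6.Q
open scoped BigOperators

universe u

theorem pr_Ase (hGrm : StGrm.{u}) (hCtr : StCtr.{u}) (_hLoc : StLoc.{u}) (hCan : StCan.{u}) (hTb : StTb.{u})
    (hCor : StCor.{u}) (hWdl : StWdl.{u}) (hTwa : StTwa.{u}) (hAvg : StAvg.{u}) : StAse.{u} := by
  classical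
  intro κ k K F _ _ _ _ _ _ _ _ e n N I r y Z X D L a d Ξ hF hG ha hd hK v hv hO
  haveI : Algebra.EssFiniteType k K := (hGrm k K Z hF.vz).1
  obtain ⟨l, hl, hb, hmv, hleast, hpos, q, Y, hq, hY, hqY⟩ := hO
  obtain ⟨⟨pd, hpd⟩, _⟩ := hTb k K e r hF.basis
  obtain ⟨A, hA⟩ := (hCan k K e r v).2 pd hpd hv.1
  obtain ⟨pe, hpe, _, _⟩ := hCor k K F e n r y hF.basis hG pd hpd
  have hD : 1 - Ddd r Z L Ξ a d v = Tv r Z L Ξ v - mv a d v := by unfold Ddd; ring
  rw [hD]
  -- lower bound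
  have low : ∀ (W : AddValuation F (WithTop ℤ)) (m : ℕ) (O : Subalgebra k F) (ψ : Fˣ →₀ ℝ), Divisorial k W → Lies v W m →
      O ∈ X → Cen O W → Rep X (fun ν => can k (cor r y) ν + D ν) O ψ →
      Tv r Z L Ξ v - mv a d v ≤ (1 + can k (cor r y) W - ev W ψ) / m := by
    intro W m O ψ hW hL hOX hc hψ
    obtain ⟨P, hP, hdom⟩ := hF.mor O hOX
    have hm : (0 : ℝ) < m := by exact_mod_cast hL.1
    have hvP : ∀ f ∈ P, 0 ≤ v f := by
      intro f hf
      by_cases hf0 : f = 0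
      · rw [hf0, AddValuation.map_zero]; exact le_top
      rw [← Api.val_nonneg v hf0]
      have h1 : 0 ≤ W (algebraMap K F f) := hc.1 _ (hdom f hf).1
      have hne : algebraMap K F f ≠ 0 := by simpa using hf0
      rw [← Api.val_nonneg W hne, hL.2 f hf0] at h1
      have hm' : (0 : ℤ) < m := by exact_mod_cast hL.1
      by_contra hcon
      push Not at hcon
      have := mul_neg_of_pos_of_neg hm' hcon
      omega
    obtain ⟨c, hc'⟩ := hAvg κ k K F e n N I r y Z X D L a d Ξ hF hG ha hK v hv.1 l hl hmv W m O P hW hL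
      hOX hP hdom hc.1 hvP ψ hψ
    rw [hc', le_div_iff₀ hm]
    have : 0 ≤ ∑ b, l b * (c b : ℝ) := Finset.sum_nonneg fun b _ => mul_nonneg (hl.nonneg b) (Nat.cast_nonneg _)
    linarith
  constructor
  · -- attained
    have hne : (bas a).Nonempty := by
      by_contra hcon
      rw [Set.not_nonempty_iff_eq_empty] at hcon
      have h0 : ∀ b, l b = 0 := fun b => hl.supp b (by rw [hcon]; exact Set.notMem_empty b)
      have h1 : ∀ i, d i = 0 := by
        intro i
        rw [← hl.sum i]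
        apply Finset.sum_eq_zero
        intro b _
        rw [h0 b, zero_mul]
      have h2 := hK.1
      rw [Finset.sum_eq_zero fun i _ => h1 i] at h2
      have : (0 : ℝ) < n + 1 := by positivity
      linarith
    obtain ⟨W, m, g, c, hW, hL, hg, hgm, hc, hA'⟩ :=
      hTwa k K F e n N r y a hF.basis hG ha hne v hv.1 q Y hq hY A hA
    obtain ⟨P, hP, hcen⟩ := hv.2
    have hWk : ∀ t : k, 0 ≤ W (algebraMap k F t) := by
      obtain ⟨_, C, _, hC, _⟩ := hW
      exact fun t => hC _ (C.algebraMap_mem t)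
    obtain ⟨O, hOX, hcO, hdom⟩ := hCtr k K F Z X hF.vz hF.vx hF.mor hF.prp v W m hWk hL P hP hcen
    obtain ⟨φ, hφ⟩ := hF.carL P hP
    obtain ⟨ψ, hψ⟩ := hF.lc.1 O hOX
    obtain ⟨A', hA1⟩ := (hCan k F (e + n) (cor r y) W).2 pe hpe hW
    have h2 := hK.2 O hOX P hP hdom φ hφ ψ hψ W hcO.1
    rw [Api.ev_push_lies hL, Api.ev_push_lies hL] at h2
    have h3 := hWdl k K Z hF.vz e r hF.basis L P hP φ hφ v hcen.1
    have h4 : (g : ℝ) * A' ≤ q * A + (n + 1) * c := by
      have := hA' A' hA1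
      exact_mod_cast this
    have h5 : ∑ i, d i * ((c : ℝ) + Y i) ≤ ∑ i, d i * ((g : ℝ) * (val W (lin y (a i)) : ℝ)) := by
      apply Finset.sum_le_sum
      intro i _
      apply mul_le_mul_of_nonneg_left _ (hd i)
      exact_mod_cast hc i
    have h6 : ∑ i, d i * ((c : ℝ) + Y i) = (n + 1) * c + ∑ i, d i * (Y i : ℝ) := by
      have : ∀ i, d i * ((c : ℝ) + Y i) = d i * c + d i * Y i := fun i => by ring
      rw [Finset.sum_congr rfl fun i _ => this i, Finset.sum_add_distrib, ← Finset.sum_mul, hK.1]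
    have h7 : ∑ i, d i * ((g : ℝ) * (val W (lin y (a i)) : ℝ)) = g * ∑ i, d i * (val W (lin y (a i)) : ℝ) := by
      rw [Finset.mul_sum]
      apply Finset.sum_congr rfl
      intro i _
      ring
    have hq' : (q : ℝ) = g * m := by
      rw [← hgm]; push_cast; ring
    have hg' : (0 : ℝ) < g := by exact_mod_cast hg
    have hm : (0 : ℝ) < m := by exact_mod_cast hL.1
    have key : (g : ℝ) * (1 + can k (cor r y) W - ev W ψ) ≤ g * (m * (Tv r Z L Ξ v - mv a d v)) := by
      have e1 : (g : ℝ) * (m * (Tv r Z L Ξ v - mv a d v)) = q * Tv r Z L Ξ v - ∑ i, d i * (Y i : ℝ) := by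
        rw [← hqY, hq']; ring
      rw [e1, Api.can_eq hA1]
      unfold Tv
      rw [Api.can_eq hA, h3, h2]
      rw [h6, h7] at h5
      rw [hq'] at h4 ⊢
      nlinarith [h4, h5]
    have key2 := le_of_mul_le_mul_left key hg'
    refine ⟨W, m, O, ψ, hW, hL, hOX, hcO, hψ, ?_⟩
    apply le_antisymm (low W m O ψ hW hL hOX hcO hψ)
    rw [div_le_iff₀ hm]
    linarith
  · rintro t ⟨W, m, O, ψ, hW, hL, hOX, hcO, hψ, rfl⟩
    exact low W m O ψ hW hL hOX hcO hψ

end Pool.Agent.Work.MP_a2680c_ag.HA
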