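import Pool.Agent.Work.MP_a2680c_ag.HA.StmtsD

/-!
# MP_a2680c_ag, block HA, item Asf: finite supports
-/

set_option autoImplicit false

noncomputable section

namespace Pool.Agent.Work.MP_a2680c_ag.HA

open MP7b66e6 MP7b66e6.Q
open scoped BigOperators

universe u

namespace XAsf

theorem mv_zero {K : Type u} [Field K] {n N : ℕ} (a : Fin N → Fin (n + 1) → K) (d : Fin N → ℝ)
    (ν : AddValuation K (WithTop ℤ)) (h : ∀ b, mnr a b ≠ 0 → val ν (mnr a b) = 0) :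
    mv a d ν = 0 := by
  unfold mv
  have h1 : vals (bas a) d (fun b => val ν (mnr a b)) ⊆ {0} := by
    rintro t ⟨l, hl, rfl⟩
    rw [Set.mem_singleton_iff]
    refine Finset.sum_eq_zero fun b _ => ?_
    by_cases hb : mnr a b = 0
    · rw [hl.supp b (fun h2 => h2 hb), zero_mul]
    · show l b * ((val ν (mnr a b) : ℤ) : ℝ) = 0
      rw [h b hb, Int.cast_zero, mul_zero]
  rcases Set.subset_singleton_iff_eq.1 h1 with h2 | h2
  · rw [h2, Real.sInf_empty]
  · rw [h2, csInf_singleton]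

theorem fin_mv (hFsp : StFsp.{u}) {k K : Type u} [Field k] [Field K] [Algebra k K]
    {n N : ℕ} (Z : Set (Subalgebra k K)) (hZ : Vty Z) (a : Fin N → Fin (n + 1) → K)
    (d : Fin N → ℝ) : {ν : AddValuation K (WithTop ℤ) | PD Z ν ∧ mv a d ν ≠ 0}.Finite := by
  have h1 : (⋃ b : Fin (n + 1) → Fin N,
      {ν : AddValuation K (WithTop ℤ) | mnr a b ≠ 0 ∧ PD Z ν ∧ val ν (mnr a b) ≠ 0}).Finite := by
    refine Set.finite_iUnion fun b => ?_
    by_cases hb : mnr a b = 0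
    · refine Set.Finite.subset Set.finite_empty ?_
      rintro ν ⟨h2, -⟩
      exact absurd hb h2
    · refine ((hFsp k K Z hZ).1 (mnr a b) hb).subset ?_
      rintro ν ⟨-, h3⟩
      exact h3
  refine h1.subset ?_
  rintro ν ⟨h2, h3⟩
  by_contra h4
  apply h3
  apply mv_zero
  intro b hb
  by_contra h5
  exact h4 (Set.mem_iUnion.2 ⟨b, hb, h2, h5⟩)

theorem fin_ev (hFsp : StFsp.{u}) {k K : Type u} [Field k] [Field K] [Algebra k K]
    (Z : Set (Subalgebra k K)) (hZ : Vty Z) (Ξ : Kˣ →₀ ℝ) :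
    {ν : AddValuation K (WithTop ℤ) | PD Z ν ∧ ev ν Ξ ≠ 0}.Finite := by
  have h1 : (⋃ s ∈ Ξ.support,
      {ν : AddValuation K (WithTop ℤ) | PD Z ν ∧ val ν (s : K) ≠ 0}).Finite := by
    refine Set.Finite.biUnion Ξ.support.finite_toSet fun s _ => ?_
    exact (hFsp k K Z hZ).1 (s : K) s.ne_zero
  refine h1.subset ?_
  rintro ν ⟨h2, h3⟩
  by_contra h4
  apply h3
  unfold ev
  rw [Finsupp.sum]
  refine Finset.sum_eq_zero fun s hs => ?_
  by_cases h5 : val ν (s : K) = 0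
  · rw [h5, Int.cast_zero, mul_zero]
  · exact (h4 (Set.mem_iUnion₂.2 ⟨s, hs, h2, h5⟩)).elim

end XAsf

theorem pr_Asf (hFsp : StFsp.{u}) (hFsc : StFsc.{u}) (hLfs : StLfs.{u}) : StAsf.{u} := by
  intro k K _ _ _ _ e n N r Z L a d Ξ hr hZ hL hC
  constructor
  · intro Z' hZ' hM
    have h1 := hFsc k K Z' hZ' e r hr
    have h2 := hLfs k K Z hZ e r hr L hL hC Z' hZ' hM
    have h3 := XAsf.fin_ev hFsp Z' hZ' Ξ
    have h4 := XAsf.fin_mv hFsp Z' hZ' a d
    refine (((h1.union h2).union h3).union h4).subset ?_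
    rintro ν ⟨h5, h6⟩
    by_contra h7
    simp only [Set.mem_union, Set.mem_ofPred_eq, not_or, not_and, not_not] at h7
    obtain ⟨⟨⟨a1, a2⟩, a3⟩, a4⟩ := h7
    apply h6
    unfold Ddd Tv
    rw [a1 h5, a2 h5, a3 h5, a4 h5]
    ring
  · intro Z' hZ' hM
    have h4 := XAsf.fin_mv hFsp Z' hZ' a d
    refine h4.subset ?_
    rintro ν ⟨h5, h6⟩
    refine ⟨h5, fun h7 => h6 ?_⟩
    unfold Dmm
    rw [h7, neg_zero]

end Pool.Agent.Work.MP_a2680c_ag.HA
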