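import Pool.Agent.Work.MP_a2680c_ag.HA.StmtsE

/-! Item [a2680c HA Asg] (helper82, after I_Asc of helper9): part (c) in general. -/

set_option autoImplicit false

noncomputable section

namespace Pool.Agent.Work.MP_a2680c_ag.HA

open MP7b66e6 MP7b66e6.Q
open scoped BigOperators

universe u

namespace XAsg

variable {K : Type u} [Field K] {n N : ℕ}

theorem mv_zero (a : Fin N → Fin (n + 1) → K) (d : Fin N → ℝ) (ν : AddValuation K (WithTop ℤ))
    (h : ∀ b ∈ bas a, val ν (mnr a b) = 0) : mv a d ν = 0 := by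
  have hsub : ∀ t ∈ vals (bas a) d (fun b => val ν (mnr a b)), t = 0 := by
    rintro t ⟨l, hl, rfl⟩
    apply Finset.sum_eq_zero
    intro b _
    by_cases hb : b ∈ bas a
    · change l b * ((val ν (mnr a b) : ℤ) : ℝ) = 0
      rw [h b hb]; simp
    · rw [hl.supp b hb]; simp
  unfold mv
  rcases Set.eq_empty_or_nonempty (vals (bas a) d (fun b => val ν (mnr a b))) with h0 | ⟨t, ht⟩
  · rw [h0]; exact Real.sInf_empty
  · have : vals (bas a) d (fun b => val ν (mnr a b)) = {0} := by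
      apply Set.eq_singleton_iff_unique_mem.2
      refine ⟨?_, hsub⟩
      rw [← hsub t ht]; exact ht
    rw [this, csInf_singleton]

/-- the unit `mnr a b` -/
def un (a : Fin N → Fin (n + 1) → K) (b : Fin (n + 1) → Fin N) : Kˣ := by
  classical exact if h : mnr a b ≠ 0 then Units.mk0 _ h else 1

theorem ev_un (a : Fin N → Fin (n + 1) → K) (d : Fin N → ℝ) (l : (Fin (n + 1) → Fin N) → ℝ) (hl : Feas (bas a) d l)
    (ν : AddValuation K (WithTop ℤ)) :
    ev ν (∑ b, Finsupp.single (un a b) (l b)) = ∑ b, l b * (val ν (mnr a b) : ℝ) := by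
  rw [Api.ev_sum]
  apply Finset.sum_congr rfl
  intro b _
  rw [Api.ev_single]
  by_cases hb : b ∈ bas a
  · have hb' : mnr a b ≠ 0 := hb
    unfold un
    rw [dif_pos hb']
    rfl
  · rw [hl.supp b hb]; simp

end XAsg

theorem pr_Asg (hPdd : StPdd.{u}) (hEff : StEff.{u}) (hWdl : StWdl.{u}) (hFsp : StFsp.{u}) : StAsg.{u} := by
  classical
  intro κ k K _ _ _ _ e n N r Z L a d Ξ hr hZ hdL hcL hO
  have hfun : ∀ ν : AddValuation K (WithTop ℤ), can k r ν + Ddd r Z L Ξ a d ν = Lv Z L ν + ev ν Ξ + mv a d ν := by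
    intro ν; unfold Ddd Tv; ring
  refine ⟨?_, ?_⟩
  · intro hQ
    have hfin : {ν : AddValuation K (WithTop ℤ) | PD Z ν ∧ mv a d ν ≠ 0}.Finite := by
      have h1 : (⋃ b ∈ (Finset.univ.filter fun b => b ∈ bas a : Finset (Fin (n + 1) → Fin N)),
          {ν : AddValuation K (WithTop ℤ) | PD Z ν ∧ val ν (mnr a b) ≠ 0}).Finite := by
        apply Set.Finite.biUnion (Finset.finite_toSet _)
        intro b hb
        exact (hFsp k K Z hZ).1 (mnr a b) (Finset.mem_filter.1 hb).2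
      refine h1.subset ?_
      rintro ν ⟨h2, h3⟩
      have : ∃ b ∈ bas a, val ν (mnr a b) ≠ 0 := by
        by_contra hcon
        push Not at hcon
        exact h3 (XAsg.mv_zero a d ν hcon)
      obtain ⟨b, hb, hb1⟩ := this
      exact Set.mem_biUnion (show b ∈ (↑(Finset.univ.filter fun b => b ∈ bas a : Finset (Fin (n + 1) → Fin N)) :
        Set (Fin (n + 1) → Fin N)) by simpa using hb) ⟨h2, hb1⟩
    set V := hfin.toFinset with hV
    intro P hP
    have h1 : ∀ μ : AddValuation K (WithTop ℤ), PD Z μ → ∃ m : ℕ, 0 < m ∧ ∃ s : Kˣ,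
        ∀ ν : AddValuation K (WithTop ℤ), PDat Z P ν → (ν = μ → val ν (s : K) = m) ∧ (ν ≠ μ → val ν (s : K) = 0) := by
      intro μ hμ
      obtain ⟨m, hm, h2⟩ := hQ μ hμ
      exact ⟨m, hm, h2 P hP⟩
    choose! m hm s hs using h1
    have hχ : ∀ ν : AddValuation K (WithTop ℤ), PDat Z P ν →
        mv a d ν = ev ν (∑ μ ∈ V, Finsupp.single (s μ) (mv a d μ / m μ)) := by
      intro ν hν
      rw [Api.ev_sum]
      have hPDV : ∀ μ ∈ V, PD Z μ := fun μ hμ => ((Set.Finite.mem_toFinset hfin).1 hμ).1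
      by_cases hνV : ν ∈ V
      · rw [Finset.sum_eq_single ν]
        · rw [Api.ev_single, (hs ν (hPDV ν hνV) ν hν).1 rfl]
          have : ((m ν : ℕ) : ℝ) ≠ 0 := by
            have := hm ν (hPDV ν hνV)
            positivity
          push_cast
          field_simp
        · intro μ hμ hne
          rw [Api.ev_single, (hs μ (hPDV μ hμ) ν hν).2 (fun h => hne h.symm)]; simp
        · intro h; exact absurd hνV h
      · rw [Finset.sum_eq_zero]
        · by_contra hcon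
          exact hνV ((Set.Finite.mem_toFinset hfin).2 ⟨hν.1, hcon⟩)
        · intro μ hμ
          rw [Api.ev_single, (hs μ (hPDV μ hμ) ν hν).2 (fun h => hνV (h ▸ hμ))]; simp
    refine ⟨-(∑ μ ∈ V, Finsupp.single (s μ) (mv a d μ / m μ)), ?_⟩
    intro ν hν
    rw [Api.ev_neg, ← hχ ν hν]
    rfl
  intro hQ
  have hχ : ∀ P ∈ Z, ∃ χ : Kˣ →₀ ℝ, ∀ ν : AddValuation K (WithTop ℤ), PDat Z P ν → mv a d ν = ev ν χ := by
    intro P hP
    obtain ⟨χ, hχ⟩ := hQ P hP
    refine ⟨-χ, fun ν hν => ?_⟩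
    have h1 : Dmm a d ν = ev ν χ := hχ ν hν
    rw [Api.ev_neg, ← h1]
    unfold Dmm
    rw [neg_neg]
  have hrep : ∀ P ∈ Z, ∀ (φ χ : Kˣ →₀ ℝ), Rep Z L P φ → (∀ ν : AddValuation K (WithTop ℤ), PDat Z P ν → mv a d ν = ev ν χ) →
      Rep Z (fun ν => can k r ν + Ddd r Z L Ξ a d ν) P (φ + Ξ + χ) := by
    intro P hP φ χ hφ hχ ν hν
    change can k r ν + Ddd r Z L Ξ a d ν = _
    rw [hfun, hWdl k K Z hZ e r hr L P hP φ hφ ν hν.2, Api.ev_add, Api.ev_add, hχ ν hν]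
  constructor
  · intro P hP
    obtain ⟨φ, hφ⟩ := hcL P hP
    obtain ⟨χ, hχ'⟩ := hχ P hP
    exact ⟨φ + Ξ + χ, hrep P hP φ χ hφ hχ'⟩
  · intro P hP φ' hφ' v hv hcen
    obtain ⟨φ, hφ⟩ := hcL P hP
    obtain ⟨χ, hχ'⟩ := hχ P hP
    have hr1 := hrep P hP φ χ hφ hχ'
    have h4 : 0 ≤ ev v (φ' - (φ + Ξ + χ)) := by
      refine hEff k K Z hZ e r hr P hP _ ?_ v hcen.1
      intro μ hμ
      rw [Api.ev_sub, ← hφ' μ hμ, ← hr1 μ hμ, sub_self]
    have h5 : 0 ≤ ev v ((φ + Ξ + χ) - φ') := by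
      refine hEff k K Z hZ e r hr P hP _ ?_ v hcen.1
      intro μ hμ
      rw [Api.ev_sub, ← hφ' μ hμ, ← hr1 μ hμ, sub_self]
    rw [Api.ev_sub, Api.ev_add, Api.ev_add] at h4 h5
    have h6 := hWdl k K Z hZ e r hr L P hP φ hφ v hcen.1
    obtain ⟨l, hl, _, hmv, _, hpos, _⟩ := hO v ⟨hv, P, hP, hcen⟩
    have h7 : 0 ≤ ev v ((∑ b, Finsupp.single (XAsg.un a b) (l b)) - χ) := by
      refine hEff k K Z hZ e r hr P hP _ ?_ v hcen.1
      intro μ hμ
      rw [Api.ev_sub, XAsg.ev_un a d l hl, ← hχ' μ hμ]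
      obtain ⟨h8, R, hR, hc, _⟩ := hPdd k K Z hZ μ hμ.1
      obtain ⟨_, _, _, _, hle, _⟩ := hO μ ⟨h8, R, hR, hc⟩
      have := hle.2 (show ∑ b, l b * (val μ (mnr a b) : ℝ) ∈ vals (bas a) d (fun b => val μ (mnr a b)) from
        ⟨l, hl, rfl⟩)
      linarith
    rw [Api.ev_sub, XAsg.ev_un a d l hl, ← hmv] at h7
    have h9 : Tv r Z L Ξ v - mv a d v ≤ 1 + can k r v - ev v φ' := by
      unfold Tv
      rw [h6]
      linarith
    exact ⟨le_trans hpos.1 h9, fun hk => lt_of_lt_of_le (hpos.2 hk) h9⟩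

end Pool.Agent.Work.MP_a2680c_ag.HA
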