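import Pool.Agent.Work.MP_a2680c_ag.HA.StmtsW

/-! Item [a2680c HA Avb] (helper81): averaged inequality (I) for b-fibrations (after I_Avc by helper51). -/

set_option autoImplicit false

noncomputable section

namespace Pool.Agent.Work.MP_a2680c_ag.HA

open MP7b66e6 MP7b66e6.Q
open scoped BigOperators

universe u

namespace XAvb

theorem sum_inc {n N : ℕ} (b : Fin (n + 1) → Fin N) (w : Fin N → ℝ) :
    ∑ i, (∑ j, if b j = i then (1 : ℝ) else 0) * w i = ∑ j, w (b j) := by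
  have : ∀ i, (∑ j, if b j = i then (1 : ℝ) else 0) * w i = ∑ j, if b j = i then w i else 0 := by
    intro i
    rw [Finset.sum_mul]
    apply Finset.sum_congr rfl
    intro j _
    split_ifs <;> simp
  rw [Finset.sum_congr rfl fun i _ => this i, Finset.sum_comm]
  apply Finset.sum_congr rfl
  intro j _
  simp

theorem sum_feas {n N : ℕ} {S : Set (Fin (n + 1) → Fin N)} {d : Fin N → ℝ} {l : (Fin (n + 1) → Fin N) → ℝ}
    (h : Feas S d l) (w : Fin N → ℝ) : ∑ b, l b * ∑ j, w (b j) = ∑ i, d i * w i := by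
  have h1 : ∀ i, d i * w i = ∑ b, l b * ((∑ j, if b j = i then (1 : ℝ) else 0) * w i) := by
    intro i
    rw [← h.sum i, Finset.sum_mul]
    apply Finset.sum_congr rfl
    intro b _
    ring
  rw [Finset.sum_congr rfl fun i _ => h1 i, Finset.sum_comm]
  apply Finset.sum_congr rfl
  intro b _
  rw [← Finset.mul_sum, sum_inc]

theorem sum_one {n N : ℕ} {S : Set (Fin (n + 1) → Fin N)} {d : Fin N → ℝ} {l : (Fin (n + 1) → Fin N) → ℝ}
    (h : Feas S d l) (hd : ∑ i, d i = n + 1) : ∑ b, l b = 1 := by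
  have h1 := sum_feas h (fun _ => (1 : ℝ))
  simp only [Finset.sum_const, Finset.card_univ, Fintype.card_fin, nsmul_eq_mul, mul_one] at h1
  rw [hd, ← Finset.sum_mul] at h1
  have hn : ((n + 1 : ℕ) : ℝ) ≠ 0 := by positivity
  have h2 : (∑ b, l b) * ((n + 1 : ℕ) : ℝ) = 1 * ((n + 1 : ℕ) : ℝ) := by
    rw [h1]; push_cast; ring
  exact mul_right_cancel₀ hn h2

section
variable {K F K' F' : Type u} [Field K] [Field F] [Field K'] [Field F'] [Algebra K F] [Algebra K K'] [Algebra K F']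
  [Algebra F F'] [Algebra K' F'] [IsScalarTower K F F'] [IsScalarTower K K' F']

/-- the indices of `W'` over `v` computed in both ways -/
theorem val_two {v : AddValuation K (WithTop ℤ)} {v' : AddValuation K' (WithTop ℤ)} {ε m' η : ℕ}
    {W : AddValuation F (WithTop ℤ)} {W' : AddValuation F' (WithTop ℤ)} (hε : Lies v v' ε) (hm' : Lies v' W' m')
    (hη : Lies W W' η) {f : K} (hf : f ≠ 0) :
    (η : ℤ) * val W (algebraMap K F f) = (m' * ε : ℤ) * val v f := by
  have hf' : algebraMap K F f ≠ 0 := by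
    rw [map_ne_zero_iff _ (algebraMap K F).injective]; exact hf
  have h1 := hη.2 _ hf'
  rw [← IsScalarTower.algebraMap_apply K F F'] at h1
  have h2 := (Api.lies_trans hε hm').2 f hf
  rw [← h1, h2]
  push_cast
  ring

theorem ev_two {v : AddValuation K (WithTop ℤ)} {v' : AddValuation K' (WithTop ℤ)} {ε m' η : ℕ}
    {W : AddValuation F (WithTop ℤ)} {W' : AddValuation F' (WithTop ℤ)} (hε : Lies v v' ε) (hm' : Lies v' W' m')
    (hη : Lies W W' η) (φ : Kˣ →₀ ℝ) :
    (η : ℝ) * ev (Api.res K W) φ = (m' * ε : ℝ) * ev v φ := by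
  rw [Api.ev_res, Api.ev_push, ev, Finsupp.mul_sum, Finsupp.mul_sum]
  apply Finsupp.sum_congr
  intro s _
  have h := val_two hε hm' hη s.ne_zero
  have h' : (η : ℝ) * (val W (algebraMap K F (s : K)) : ℝ) = (m' * ε : ℝ) * (val v (s : K) : ℝ) := by
    exact_mod_cast h
  linear_combination φ s * h'

theorem res_nonneg {v : AddValuation K (WithTop ℤ)} {v' : AddValuation K' (WithTop ℤ)} {ε m' η : ℕ}
    {W : AddValuation F (WithTop ℤ)} {W' : AddValuation F' (WithTop ℤ)} (hε : Lies v v' ε) (hm' : Lies v' W' m')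
    (hη : Lies W W' η) {f : K} (hf : 0 ≤ v f) : 0 ≤ W (algebraMap K F f) := by
  by_cases h0 : f = 0
  · rw [h0, map_zero, AddValuation.map_zero]; exact le_top
  have hf' : algebraMap K F f ≠ 0 := by
    rw [map_ne_zero_iff _ (algebraMap K F).injective]; exact h0
  rw [← Api.val_nonneg W hf']
  rw [← Api.val_nonneg v h0] at hf
  have h := val_two hε hm' hη h0
  have hη0 : (0 : ℤ) < η := by exact_mod_cast hη.1
  by_contra hneg
  push Not at hneg
  have h1 : (η : ℤ) * val W (algebraMap K F f) < 0 := mul_neg_of_pos_of_neg hη0 hneg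
  have h2 : (0 : ℤ) ≤ (m' * ε : ℤ) * val v f := by positivity
  omega

end

end XAvb

theorem pr_Avb (hTbs : StTbs.{u}) (hTfr : StTfr.{u}) (hTb : StTb.{u}) (hCan : StCan.{u}) (hGrm : StGrm.{u})
    (hIne : StIne.{u}) (hWdl : StWdl.{u}) (hRmf : StRmf.{u}) : StAvb.{u} := by
  classical
  intro κ k K F K' F' _ _ _ _ _ _ _ _ _ _ _ _ _ _ _ _ _ _ _ _ _ _ _ _ e n N r c y Z 𝔻 L Φ a d Ξ J hF hG ha hd hK
    v v' ε hv hv' hε l hl hmv W W' η m' hW hW' hη hm'
  haveI hEK : Algebra.EssFiniteType k K := (hGrm k K Z hF.vz).1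
  haveI hEF : Algebra.EssFiniteType k F := hF.ess
  obtain ⟨hbK', hEK'0⟩ := hTbs k K K' e r hF.basis
  haveI hEK' : Algebra.EssFiniteType k K' := hEK'0 hEK
  obtain ⟨hEF'0, -, hb3⟩ := hTfr k K' F' e n (up K' r) y hbK' hG
  haveI hEF' : Algebra.EssFiniteType k F' := hEF'0
  obtain ⟨⟨pd, hpd⟩, _⟩ := hTb k K e r hF.basis
  obtain ⟨⟨pe, hpe⟩, _⟩ := hTb k F (e + n) c hF.basisF
  obtain ⟨⟨pf, hpf⟩, _⟩ := hTb k F' (e + n) (cor (up K' r) y) hb3
  obtain ⟨A, hA⟩ := (hCan k K e r v).2 pd hpd hv.1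
  obtain ⟨B, hB⟩ := (hCan k F (e + n) c W).2 pe hpe hW
  obtain ⟨A', hA1⟩ := (hCan k F' (e + n) (cor (up K' r) y) W').2 pf hpf hW'
  have hA2 : LogDisc k v' (up K' r) (ε * A) := hRmf k K K' e r pd hpd v v' ε hv.1 hv' hε A hA
  have hB2 : LogDisc k W' (up F' c) (η * B) := hRmf k F F' (e + n) c pe hpe W W' η hW hW' hη B hB
  have hB3 := hK.2.1 W' A' hA1
  have hBA : (η : ℤ) * B = A' + val W' (J : F') := Api.logDisc_unique hB2 hB3
  have hBA' : (η : ℝ) * B = A' + (val W' (J : F') : ℝ) := by exact_mod_cast hBA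
  obtain ⟨P, hP, hcen⟩ := hv.2
  obtain ⟨φ, hφ⟩ := hF.carL P hP
  have hres : ∀ f ∈ P, 0 ≤ Api.res K W f := fun f hf => XAvb.res_nonneg hε hm' hη (hcen.1 f hf)
  have hov : Ov Z W := ⟨P, hP, fun f hf => hres f hf⟩
  have htr := hF.triv W hW hov
  have h2 := hK.2.2 W'
  rw [Api.ev_push_lies hη, Api.ev_push_lies hm'] at h2
  have h3 := hWdl k K Z hF.vz e r hF.basis L P hP φ hφ v hcen.1
  have h4 := hWdl k K Z hF.vz e r hF.basis L P hP φ hφ (Api.res K W) hres
  have h5 := XAvb.ev_two hε hm' hη φ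
  let t : (Fin (n + 1) → Fin N) → ℤ := fun b =>
    A' - ((m' : ℤ) * (ε * A) - m' * val v' (mnr a b) + ∑ j, val W' (lin y (a (b j))))
  have ht : ∀ b ∈ bas a, 0 ≤ t b := by
    intro b hb
    have := hIne k K' F' e n N (up K' r) y a hbK' hG ha v' W' m' hm' (ε * A) A' hA2 hA1 b hb
    change 0 ≤ A' - _
    omega
  refine ⟨fun b => (t b).toNat, ?_⟩
  have hs : ∑ b, l b * (((t b).toNat : ℕ) : ℝ) = ∑ b, l b * (t b : ℝ) := by
    apply Finset.sum_congr rfl
    intro b _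
    by_cases hb : b ∈ bas a
    · have h0 : (((t b).toNat : ℕ) : ℤ) = t b := Int.toNat_of_nonneg (ht b hb)
      have h1 : (((t b).toNat : ℕ) : ℝ) = (t b : ℝ) := by exact_mod_cast h0
      rw [h1]
    · rw [hl.supp b hb, zero_mul, zero_mul]
  have hs1 := XAvb.sum_one hl hK.1
  have hs2 := XAvb.sum_feas hl (fun i => (val W' (lin y (a i)) : ℝ))
  have hs3 : ∑ b, l b * (t b : ℝ) =
      (A' : ℝ) - m' * (ε * A) + m' * mv a d v' - ∑ i, d i * (val W' (lin y (a i)) : ℝ) := by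
    rw [← hs2, hmv]
    have : ∀ b, l b * (t b : ℝ) = l b * ((A' : ℝ) - m' * (ε * A)) + m' * (l b * (val v' (mnr a b) : ℝ)) -
        l b * ∑ j, (val W' (lin y (a (b j))) : ℝ) := by
      intro b
      change l b * ((A' - ((m' : ℤ) * (ε * A) - m' * val v' (mnr a b) + ∑ j, val W' (lin y (a (b j)))) : ℤ) : ℝ) = _
      push_cast
      ring
    rw [Finset.sum_congr rfl fun b _ => this b, Finset.sum_sub_distrib, Finset.sum_add_distrib, ← Finset.sum_mul,
      hs1, ← Finset.mul_sum]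
    ring
  rw [Api.can_eq hB, h4] at htr
  rw [hs, hs3]
  unfold Tg
  rw [Api.can_eq hA, h3]
  linear_combination hBA' - h2 - η * htr - h5

end Pool.Agent.Work.MP_a2680c_ag.HA
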