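import Pool.Agent.Work.MP_a2680c_ag.HA.StmtsD

/-! Item [a2680c HA Avg] (helper9): averaged inequality (I). -/

set_option autoImplicit false

noncomputable section

namespace Pool.Agent.Work.MP_a2680c_ag.HA

open MP7b66e6 MP7b66e6.Q
open scoped BigOperators

universe u

namespace XAvg

theorem sum_inc {n N : ℕ} (b : Fin (n + 1) → Fin N) (w : Fin N → ℝ) :
    ∑ i, (∑ j, if b j = i then (1 : ℝ) else 0) * w i = ∑ j, w (b j) := by
  have : ∀ i, (∑ j, if b j = i then (1 : ℝ) else 0) * w i = ∑ j, if b j = i then w i else 0 := by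
    intro i
    rw [Finset.sum_mul]
    apply Finset.sum_congr rfl
    intro j _
    split_ifs <;> simp
  rw [Finset.sum_congr rfl fun i _ => this i, Finset.sum_comm]
  apply Finset.sum_congr rfl
  intro j _
  simp

theorem sum_feas {n N : ℕ} {S : Set (Fin (n + 1) → Fin N)} {d : Fin N → ℝ} {l : (Fin (n + 1) → Fin N) → ℝ}
    (h : Feas S d l) (w : Fin N → ℝ) : ∑ b, l b * ∑ j, w (b j) = ∑ i, d i * w i := by
  have h1 : ∀ i, d i * w i = ∑ b, l b * ((∑ j, if b j = i then (1 : ℝ) else 0) * w i) := by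
    intro i
    rw [← h.sum i, Finset.sum_mul]
    apply Finset.sum_congr rfl
    intro b _
    ring
  rw [Finset.sum_congr rfl fun i _ => h1 i, Finset.sum_comm]
  apply Finset.sum_congr rfl
  intro b _
  rw [← Finset.mul_sum, sum_inc]

theorem sum_one {n N : ℕ} {S : Set (Fin (n + 1) → Fin N)} {d : Fin N → ℝ} {l : (Fin (n + 1) → Fin N) → ℝ}
    (h : Feas S d l) (hd : ∑ i, d i = n + 1) : ∑ b, l b = 1 := by
  have h1 := sum_feas h (fun _ => (1 : ℝ))
  simp only [Finset.sum_const, Finset.card_univ, Fintype.card_fin, nsmul_eq_mul, mul_one] at h1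
  rw [hd, ← Finset.sum_mul] at h1
  have hn : ((n + 1 : ℕ) : ℝ) ≠ 0 := by positivity
  have h2 : (∑ b, l b) * ((n + 1 : ℕ) : ℝ) = 1 * ((n + 1 : ℕ) : ℝ) := by
    rw [h1]; push_cast; ring
  exact mul_right_cancel₀ hn h2

end XAvg

theorem pr_Avg (hTb : StTb.{u}) (hCor : StCor.{u}) (hCan : StCan.{u}) (hIne : StIne.{u}) (hWdl : StWdl.{u}) :
    StAvg.{u} := by
  classical
  intro κ k K F _ _ _ _ _ _ _ _ _ e n N I r y Z X D L a d Ξ hF hG ha hK v hv l hl hmv W m O P hW hL hO hP hdom hWO hvP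
    ψ hψ
  obtain ⟨⟨pd, hpd⟩, _⟩ := hTb k K e r hF.basis
  obtain ⟨A, hA⟩ := (hCan k K e r v).2 pd hpd hv
  obtain ⟨pe, hpe, _, _⟩ := hCor k K F e n r y hF.basis hG pd hpd
  obtain ⟨A', hA1⟩ := (hCan k F (e + n) (cor r y) W).2 pe hpe hW
  obtain ⟨φ, hφ⟩ := hF.carL P hP
  have h2 := hK.2 O hO P hP hdom φ hφ ψ hψ W hWO
  rw [Api.ev_push_lies hL, Api.ev_push_lies hL] at h2
  have h3 := hWdl k K Z hF.vz e r hF.basis L P hP φ hφ v hvP
  let t : (Fin (n + 1) → Fin N) → ℤ := fun b =>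
    A' - ((m : ℤ) * A - m * val v (mnr a b) + ∑ j, val W (lin y (a (b j))))
  have ht : ∀ b ∈ bas a, 0 ≤ t b := by
    intro b hb
    have := hIne k K F e n N r y a hF.basis hG ha v W m hL A A' hA hA1 b hb
    change 0 ≤ A' - _
    omega
  refine ⟨fun b => (t b).toNat, ?_⟩
  have hs : ∑ b, l b * (((t b).toNat : ℕ) : ℝ) = ∑ b, l b * (t b : ℝ) := by
    apply Finset.sum_congr rfl
    intro b _
    by_cases hb : b ∈ bas a
    · have h0 : (((t b).toNat : ℕ) : ℤ) = t b := Int.toNat_of_nonneg (ht b hb)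
      have h1 : (((t b).toNat : ℕ) : ℝ) = (t b : ℝ) := by exact_mod_cast h0
      rw [h1]
    · rw [hl.supp b hb, zero_mul, zero_mul]
  have hs1 := XAvg.sum_one hl hK.1
  have hs2 := XAvg.sum_feas hl (fun i => (val W (lin y (a i)) : ℝ))
  have hs3 : ∑ b, l b * (t b : ℝ) = (A' : ℝ) - m * A + m * mv a d v - ∑ i, d i * (val W (lin y (a i)) : ℝ) := by
    rw [← hs2, hmv]
    have : ∀ b, l b * (t b : ℝ) = l b * ((A' : ℝ) - m * A) + m * (l b * (val v (mnr a b) : ℝ)) -
        l b * ∑ j, (val W (lin y (a (b j))) : ℝ) := by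
      intro b
      change l b * ((A' - ((m : ℤ) * A - m * val v (mnr a b) + ∑ j, val W (lin y (a (b j)))) : ℤ) : ℝ) = _
      push_cast
      ring
    rw [Finset.sum_congr rfl fun b _ => this b, Finset.sum_sub_distrib, Finset.sum_add_distrib, ← Finset.sum_mul,
      hs1, ← Finset.mul_sum]
    ring
  rw [hs, hs3, Api.can_eq hA1, h2]
  unfold Tv
  rw [Api.can_eq hA, h3]
  ring

end Pool.Agent.Work.MP_a2680c_ag.HA
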