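import Pool.Agent.Work.MP_a2680c_ag.HA.StmtsA

/-!
# MP_a2680c_ag, block HA, item Ba1: reduction to a basic decomposition
-/

set_option autoImplicit false

noncomputable section

namespace Pool.Agent.Work.MP_a2680c_ag.HA

open scoped BigOperators

namespace XBa1

variable {𝕜 : Type} [Field 𝕜] [LinearOrder 𝕜] [IsStrictOrderedRing 𝕜] {n N : ℕ}

omit [LinearOrder 𝕜] [IsStrictOrderedRing 𝕜] in
/-- the incidence numbers of `b` have the sum `n + 1` -/
theorem inc_sum (b : Fin (n + 1) → Fin N) :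
    ∑ i, (∑ j, if b j = i then (1 : 𝕜) else 0) = (n : 𝕜) + 1 := by
  rw [Finset.sum_comm]
  have h1 : ∀ j : Fin (n + 1), ∑ i, (if b j = i then (1 : 𝕜) else 0) = 1 := by
    intro j
    rw [Finset.sum_ite_eq, if_pos (Finset.mem_univ _)]
  rw [Finset.sum_congr rfl fun j _ => h1 j, Finset.sum_const, Finset.card_univ, Fintype.card_fin,
    nsmul_eq_mul, mul_one]
  push_cast
  ring

/-- a relation between the incidence vectors has the sum zero -/
theorem sum_zero (ν : (Fin (n + 1) → Fin N) → 𝕜)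
    (h : ∀ i, ∑ b, ν b * (∑ j, if b j = i then 1 else 0) = 0) : ∑ b, ν b = 0 := by
  have h1 : ∑ i, ∑ b, ν b * (∑ j, if b j = i then (1 : 𝕜) else 0) = 0 :=
    Finset.sum_eq_zero fun i _ => h i
  rw [Finset.sum_comm] at h1
  have h2 : ∀ b : Fin (n + 1) → Fin N,
      ∑ i, ν b * (∑ j, if b j = i then (1 : 𝕜) else 0) = ν b * ((n : 𝕜) + 1) := by
    intro b
    rw [← Finset.mul_sum, inc_sum]
  rw [Finset.sum_congr rfl fun b _ => h2 b, ← Finset.sum_mul] at h1
  have h3 : ((n : 𝕜) + 1) ≠ 0 := by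
    have : (0 : 𝕜) ≤ (n : 𝕜) := Nat.cast_nonneg n
    linarith
  rcases mul_eq_zero.mp h1 with h4 | h4
  · exact h4
  · exact absurd h4 h3

/-- one step of the reduction -/
theorem step {S : Set (Fin (n + 1) → Fin N)} {d : Fin N → 𝕜} {l : (Fin (n + 1) → Fin N) → 𝕜}
    (c : (Fin (n + 1) → Fin N) → ℤ) (hl : Feas S d l) (hnb : ¬ Basic l) :
    ∃ l', Feas S d l' ∧ (∀ b, l b = 0 → l' b = 0) ∧
      ∑ b, l' b * (c b : 𝕜) ≤ ∑ b, l b * (c b : 𝕜) ∧ ∃ b, l b ≠ 0 ∧ l' b = 0 := by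
  unfold Basic at hnb
  push Not at hnb
  obtain ⟨μ, hμ1, hμ2, hμ3⟩ := hnb
  -- the sign
  obtain ⟨ν, hν1, hν2, hν3, hν4⟩ : ∃ ν : (Fin (n + 1) → Fin N) → 𝕜, (∀ b, l b = 0 → ν b = 0) ∧
      (∀ i, ∑ b, ν b * (∑ j, if b j = i then 1 else 0) = 0) ∧ ν ≠ 0 ∧
      ∑ b, ν b * (c b : 𝕜) ≤ 0 := by
    rcases le_total (∑ b, μ b * (c b : 𝕜)) 0 with h | h
    · exact ⟨μ, hμ1, hμ2, hμ3, h⟩
    · refine ⟨fun b => -μ b, fun b hb => ?_, fun i => ?_, fun h0 => hμ3 ?_, ?_⟩
      · change -μ b = 0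
        rw [hμ1 b hb, neg_zero]
      · have h2 := hμ2 i
        simp only [neg_mul, Finset.sum_neg_distrib]
        rw [h2, neg_zero]
      · funext b
        have h2 := congrFun h0 b
        exact neg_eq_zero.mp h2
      · simp only [neg_mul, Finset.sum_neg_distrib]
        exact neg_nonpos.mpr h
  -- a negative value
  have hneg : ∃ b, ν b < 0 := by
    by_contra hcon
    push Not at hcon
    apply hν3
    funext b
    exact (Finset.sum_eq_zero_iff_of_nonneg fun b _ => hcon b).mp (sum_zero ν hν2) b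
      (Finset.mem_univ b)
  obtain ⟨b₁, hb₁⟩ := hneg
  obtain ⟨b₀, hb₀, hmin⟩ := Finset.exists_min_image
    (Finset.univ.filter fun b : Fin (n + 1) → Fin N => ν b < 0) (fun b => l b / (-ν b))
    ⟨b₁, Finset.mem_filter.mpr ⟨Finset.mem_univ _, hb₁⟩⟩
  have hν0 : ν b₀ < 0 := (Finset.mem_filter.mp hb₀).2
  have hn0 : 0 < -ν b₀ := neg_pos.mpr hν0
  set t := l b₀ / (-ν b₀) with ht
  have ht0 : 0 ≤ t := div_nonneg (hl.nonneg b₀) hn0.le
  have hl0 : l b₀ + t * ν b₀ = 0 := by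
    have h : t * (-ν b₀) = l b₀ := by
      rw [ht]
      exact div_mul_cancel₀ _ hn0.ne'
    linarith
  refine ⟨fun b => l b + t * ν b, ⟨fun b => ?_, fun b hb => ?_, fun i => ?_⟩, fun b hb => ?_, ?_,
    b₀, fun h => hν0.ne (hν1 b₀ h), hl0⟩
  · rcases lt_or_ge (ν b) 0 with h | h
    · have h1 := hmin b (Finset.mem_filter.mpr ⟨Finset.mem_univ _, h⟩)
      rw [le_div_iff₀ (neg_pos.mpr h)] at h1
      linarith
    · exact add_nonneg (hl.nonneg b) (mul_nonneg ht0 h)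
  · have h := hl.supp b hb
    rw [h, hν1 b h, mul_zero, add_zero]
  · have h1 : ∑ b, (l b + t * ν b) * (∑ j, if b j = i then (1 : 𝕜) else 0) =
        ∑ b, l b * (∑ j, if b j = i then (1 : 𝕜) else 0) +
          t * ∑ b, ν b * (∑ j, if b j = i then (1 : 𝕜) else 0) := by
      rw [Finset.mul_sum, ← Finset.sum_add_distrib]
      exact Finset.sum_congr rfl fun b _ => by ring
    rw [h1, hν2 i, mul_zero, add_zero]
    exact hl.sum i
  · change l b + t * ν b = 0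
    rw [hb, hν1 b hb, mul_zero, add_zero]
  · have h1 : ∑ b, (l b + t * ν b) * (c b : 𝕜) =
        ∑ b, l b * (c b : 𝕜) + t * ∑ b, ν b * (c b : 𝕜) := by
      rw [Finset.mul_sum, ← Finset.sum_add_distrib]
      exact Finset.sum_congr rfl fun b _ => by ring
    rw [h1]
    have h2 : t * ∑ b, ν b * (c b : 𝕜) ≤ 0 := mul_nonpos_of_nonneg_of_nonpos ht0 hν4
    linarith

theorem red {S : Set (Fin (n + 1) → Fin N)} {d : Fin N → 𝕜} (c : (Fin (n + 1) → Fin N) → ℤ)
    (m : ℕ) : ∀ l : (Fin (n + 1) → Fin N) → 𝕜, (Finset.univ.filter fun b => l b ≠ 0).card ≤ m →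
    Feas S d l → ∃ l', Feas S d l' ∧ Basic l' ∧ (∀ b, l b = 0 → l' b = 0) ∧
      ∑ b, l' b * (c b : 𝕜) ≤ ∑ b, l b * (c b : 𝕜) := by
  induction m with
  | zero =>
    intro l hm hl
    refine ⟨l, hl, fun μ hμ _ => ?_, fun b h => h, le_rfl⟩
    funext b
    apply hμ b
    by_contra h
    have h1 : b ∈ (Finset.univ.filter fun b => l b ≠ 0) :=
      Finset.mem_filter.mpr ⟨Finset.mem_univ _, h⟩
    have h2 := Finset.card_pos.mpr ⟨b, h1⟩
    omega
  | succ m ih =>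
    intro l hm hl
    by_cases hb : Basic l
    · exact ⟨l, hl, hb, fun b h => h, le_rfl⟩
    · obtain ⟨l1, h1, h2, h3, b₀, h4, h5⟩ := step c hl hb
      have hlt : (Finset.univ.filter fun b => l1 b ≠ 0) ⊂ (Finset.univ.filter fun b => l b ≠ 0) := by
        rw [Finset.ssubset_iff_of_subset]
        · exact ⟨b₀, Finset.mem_filter.mpr ⟨Finset.mem_univ _, h4⟩,
            fun h => (Finset.mem_filter.mp h).2 h5⟩
        · intro b hb
          rw [Finset.mem_filter] at hb ⊢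
          exact ⟨hb.1, fun h => hb.2 (h2 b h)⟩
      have hc := Finset.card_lt_card hlt
      obtain ⟨l2, g1, g2, g3, g4⟩ := ih l1 (by omega) h1
      exact ⟨l2, g1, g2, fun b h => g3 b (h2 b h), g4.trans h3⟩

end XBa1

theorem pr_Ba1 : StBa1 := by
  intro 𝕜 _ _ _ n N S d l c hl
  exact XBa1.red c _ l le_rfl hl

end Pool.Agent.Work.MP_a2680c_ag.HA
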