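import Pool.Agent.Work.MP_a2680c_ag.HA.StmtsA

/-!
# MP_a2680c_ag, block HA, item Ba2: finitely many basic decompositions
-/

set_option autoImplicit false

noncomputable section

namespace Pool.Agent.Work.MP_a2680c_ag.HA

open scoped BigOperators

/-- **Ba2.** -/
theorem pr_Ba2 : StBa2 := by
  intro 𝕜 _ _ _ n N d
  refine Set.Finite.of_injOn (f := fun l : (Fin (n + 1) → Fin N) → 𝕜 => {b | l b ≠ 0})
    (t := Set.univ) (fun _ _ => Set.mem_univ _) ?_ (Set.toFinite _)
  rintro l ⟨S, hl, hbl⟩ l' ⟨S', hl', hbl'⟩ hsupp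
  have hs : ∀ b, l b = 0 → l' b = 0 := by
    intro b hb
    by_contra hne
    have h1 : b ∈ {b | l b ≠ 0} := by
      rw [show {b | l b ≠ 0} = {b | l' b ≠ 0} from hsupp]
      exact hne
    exact h1 hb
  have hμ : (fun b => l b - l' b) = 0 := by
    refine hbl (fun b => l b - l' b) ?_ ?_
    · intro b hb
      show l b - l' b = 0
      rw [hb, hs b hb, sub_zero]
    · intro i
      have h1 := hl.sum i
      have h2 := hl'.sum i
      simp only [sub_mul, Finset.sum_sub_distrib]
      rw [h1, h2, sub_self]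
  funext b
  have := congrFun hμ b
  exact sub_eq_zero.1 this

end Pool.Agent.Work.MP_a2680c_ag.HA
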