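import Pool.Agent.Work.MP_a2680c_ag.HA.StmtsW

/-!
# MP_a2680c_ag, block HA, item Bck: base change of a b-fibration
-/

set_option autoImplicit false

noncomputable section

namespace Pool.Agent.Work.MP_a2680c_ag.HA

open MP7b66e6 MP7b66e6.Q
open scoped BigOperators

universe u

namespace XBck

theorem res_res {K E F : Type u} [Field K] [Field E] [Field F] [Algebra K E] [Algebra K F]
    [Algebra E F] [IsScalarTower K E F] (ν : AddValuation F (WithTop ℤ)) :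
    Api.res K (Api.res E ν) = Api.res K ν := by
  have h : Api.res K (Api.res E ν) = ν.comap ((algebraMap E F).comp (algebraMap K E)) := rfl
  rw [h, ← IsScalarTower.algebraMap_eq K E F]
  rfl

theorem pos_mul {κ : Prop} {t : ℝ} {ε : ℕ} (hε : 0 < ε) (h : Pos κ t) : Pos κ (ε * t) := by
  have h0 : (0 : ℝ) < ε := by exact_mod_cast hε
  exact ⟨mul_nonneg h0.le h.1, fun hk => mul_pos h0 (h.2 hk)⟩

theorem nonneg_down {F F' : Type u} [Field F] [Field F'] [Algebra F F'] {ν : AddValuation F (WithTop ℤ)}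
    {ν' : AddValuation F' (WithTop ℤ)} {ε : ℕ} (h : Lies ν ν' ε) (g : F)
    (hg : 0 ≤ ν' (algebraMap F F' g)) : 0 ≤ ν g := by
  by_cases h0 : g = 0
  · rw [h0, AddValuation.map_zero]
    exact le_top
  · have h0' : algebraMap F F' g ≠ 0 := by
      rw [map_ne_zero_iff _ (algebraMap F F').injective]; exact h0
    rw [← Api.val_nonneg ν h0]
    rw [← Api.val_nonneg ν' h0', h.2 g h0] at hg
    have hε : (0 : ℤ) < ε := by exact_mod_cast h.1
    exact nonneg_of_mul_nonneg_right hg hε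

end XBck

/-- **Bck**: base change of a b-fibration. -/
theorem pr_Bck (hTbs : StTbs.{u}) (hTb : StTb.{u}) (hCan : StCan.{u}) (_hGrm : StGrm.{u})
    (hRmf : StRmf.{u}) (hRES : StRES.{u,u,u}) (hLfg : StLfg.{u}) (hWdl : StWdl.{u}) : StBck.{u} := by
  intro κ k K F K' F' _ _ _ _ _ _ _ _ _ _ _ _ _ _ _ _ _ _ _ _ _ _ _ _ _ e d r c Z Z' 𝔻 𝔻' L Φ
    hB hZ' hm h𝔻
  have hr' := (hTbs k K K' e r hB.basis).1
  obtain ⟨hc', hess⟩ := hTbs k F F' d c hB.basisF
  obtain ⟨h1, h2, -, h4⟩ := hLfg k K K' e e r (up K' r) Z Z' L hB.basis hr' hB.vz hZ' hm hB.divL hB.carL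
  -- the valuation below
  have key : ∀ ν' : AddValuation F' (WithTop ℤ), Divisorial k ν' → Ov Z' ν' →
      ∃ (ν : AddValuation F (WithTop ℤ)) (ε : ℕ), Divisorial k ν ∧ Lies ν ν' ε ∧ ∃ P ∈ Z,
        (∀ f ∈ P, 0 ≤ ν' (algebraMap K F' f)) ∧ ∀ f ∈ P, 0 ≤ ν (algebraMap K F f) := by
    rintro ν' hν' ⟨P', hP', hf⟩
    obtain ⟨ν, ε, hν, hl⟩ := hRES k F F' ν' hν'
    obtain ⟨P, hP, hd⟩ := hm P' hP'
    have h5 : ∀ f ∈ P, 0 ≤ ν' (algebraMap K F' f) := by
      intro f hfP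
      have h := hf _ (hd f hfP).1
      rwa [← IsScalarTower.algebraMap_apply K K' F'] at h
    refine ⟨ν, ε, hν, hl, P, hP, h5, fun f hfP => ?_⟩
    have h := h5 f hfP
    rw [IsScalarTower.algebraMap_apply K F F'] at h
    exact XBck.nonneg_down hl _ h
  refine ⟨hZ', hr', hc', hess hB.ess, h1, h2, fun ν' hν' ho => ?_, fun ν' hν' ho => ?_⟩
  · obtain ⟨ν, ε, hν, hl, P, hP, -, h6⟩ := key ν' hν' ho
    rw [h𝔻 ν ν' ε hν hl]
    exact XBck.pos_mul hl.1 (hB.pos ν hν ⟨P, hP, h6⟩)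
  · obtain ⟨ν, ε, hν, hl, P, hP, h5, h6⟩ := key ν' hν' ho
    have := hB.ess
    obtain ⟨⟨pd, hpd⟩, -⟩ := hTb k F d c hB.basisF
    obtain ⟨A, hA⟩ := (hCan k F d c ν).2 pd hpd hν
    have hA' := hRmf k F F' d c pd hpd ν ν' ε hν hν' hl A hA
    have hc1 : can k c ν = (A : ℝ) - 1 := Api.can_eq hA
    have hc2 : can k (up F' c) ν' = ((ε * A : ℤ) : ℝ) - 1 := Api.can_eq hA'
    obtain ⟨φ, hφ⟩ := hB.carL P hP
    have hw1 : Lv Z L (Api.res K ν') = ev (Api.res K ν') φ :=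
      hWdl k K Z hB.vz e r hB.basis L P hP φ hφ (Api.res K ν') h5
    have hw2 : Lv Z L (Api.res K ν) = ev (Api.res K ν) φ :=
      hWdl k K Z hB.vz e r hB.basis L P hP φ hφ (Api.res K ν) h6
    have hlk : Lies (Api.res K ν) ν' ε := by
      refine ⟨hl.1, fun f hf => ?_⟩
      have hf' : algebraMap K F f ≠ 0 := by
        rw [map_ne_zero_iff _ (algebraMap K F).injective]; exact hf
      rw [IsScalarTower.algebraMap_apply K F F', hl.2 _ hf']
      rfl
    have hev : ev (Api.res K ν') φ = ε * ev (Api.res K ν) φ := by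
      rw [Api.ev_res, Api.ev_push_lies hlk]
    have hL' : Lv Z' (fun v' => Lv Z L (Api.res K v')) (Api.res K' ν') =
        Lv Z L (Api.res K (Api.res K' ν')) := by
      obtain ⟨O, hO, hf⟩ := ho
      exact h4 (Api.res K' ν') ⟨O, hO, hf⟩
    rw [hL', XBck.res_res, hw1, hev, Api.ev_push_lies hl, hc2]
    have ht := hB.triv ν hν ⟨P, hP, h6⟩
    rw [hw2, hc1] at ht
    have hD := h𝔻 ν ν' ε hν hl
    push_cast
    linear_combination (ε : ℝ) * ht - hD

end Pool.Agent.Work.MP_a2680c_ag.HA
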