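import Pool.Agent.Work.MP_a2680c_ag.HA.StmtsW

/-! [a2680c HA Bcr] (helper57): descent of the result of a b-fibration from `Z'` to `Z`. -/

set_option autoImplicit false

noncomputable section

namespace Pool.Agent.Work.MP_a2680c_ag.HA

open MP7b66e6 MP7b66e6.Q
open scoped BigOperators

universe u

namespace XBcr

theorem index_unique {K F : Type u} [Field K] [Field F] [Algebra K F] {v : AddValuation K (WithTop ℤ)}
    {W : AddValuation F (WithTop ℤ)} {s t : ℕ} (hv : ∃ π : K, v π = 1) (h : Lies v W s) (h' : Lies v W t) : s = t := by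
  obtain ⟨π, hπ⟩ := hv
  have hπ0 : π ≠ 0 := by
    intro h0; rw [h0, AddValuation.map_zero] at hπ; exact absurd hπ (by simp)
  have hvπ : val v π = 1 := Api.val_of v hπ
  have h1 := h.2 π hπ0
  have h2 := h'.2 π hπ0
  rw [hvπ, mul_one] at h1 h2
  rw [h1] at h2
  exact_mod_cast h2

theorem scale_mem {G G' : Set ℝ} (c : ℝ) (h : ∀ g ∈ G, g / c ∈ G') {x : ℝ} (hx : x ∈ AddSubmonoid.closure G) :
    x / c ∈ AddSubmonoid.closure G' := by
  induction hx using AddSubmonoid.closure_induction with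
  | mem y hy => exact AddSubmonoid.subset_closure (h y hy)
  | zero => rw [zero_div]; exact AddSubmonoid.zero_mem _
  | add y z _ _ hy hz => rw [add_div]; exact AddSubmonoid.add_mem _ hy hz

end XBcr

theorem pr_Bcr (hTbs : StTbs.{u}) (hTb : StTb.{u}) (hCan : StCan.{u}) (hGrm : StGrm.{u}) (hRmf : StRmf.{u})
    (hEXT : StEXT.{u, u, u}) (hCgd : StCgd.{u}) (hCmp : StCmp.{u}) (hNmx : StNmx.{u}) (hCtr : StCtr.{u})
    (hWdl : StWdl.{u}) (hLfg : StLfg.{u}) (hRmi : StRmi.{u}) : StBcr.{u} := by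
  classical
  intro κ k K F K' F' _ _ _ _ _ _ _ _ _ _ _ _ _ _ _ _ _ _ _ _ _ _ _ _ _ δ e r Z Z' 𝔻 𝔻' L Ξ' G hr hZ hdL hcL hZ' hMor
    hPrp hconn hδ hδ' hDD hRsl
  obtain ⟨Ξ, hΞ⟩ := hNmx K K' Ξ'
  have hess : Algebra.EssFiniteType k K := (hGrm k K Z hZ).1
  obtain ⟨⟨pd, hpd⟩, -⟩ := hTb k K e r hr
  have hr' : IsTranscendenceBasis k (up K' r) := (hTbs k K K' e r hr).1
  obtain ⟨-, -, -, hL4⟩ := hLfg k K K' e e r (up K' r) Z Z' L hr hr' hZ hZ' hMor hdL hcL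
  have hT : ∀ v : AddValuation K (WithTop ℤ), DivOver Z v → ∀ (v' : AddValuation K' (WithTop ℤ)) (ε : ℕ),
      Divisorial k v' → Lies v v' ε → DivOver Z' v' ∧
      Tv (up K' r) Z' (fun v' => Lv Z L (Api.res K v')) Ξ' v' =
        ε * (1 + can k r v - Lv Z L v) - ev v' Ξ' := by
    intro v hv v' ε hv' hL
    obtain ⟨hvd, P, hP, hc⟩ := hv
    have hk : ∀ c : k, 0 ≤ v' (algebraMap k K' c) := by
      obtain ⟨-, C, -, hC, -⟩ := hv'
      exact Api.nonneg_of_mem hC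
    obtain ⟨O, hO, hcO, hdO⟩ := hCtr k K K' Z Z' hZ hZ' hMor hPrp v v' ε hk hL P hP hc
    refine ⟨⟨hv', O, hO, hcO⟩, ?_⟩
    obtain ⟨A, hA⟩ := (hCan k K e r v).2 pd hpd hvd
    have hA' := hRmf k K K' e r pd hpd v v' ε hvd hv' hL A hA
    obtain ⟨φ, hφ⟩ := hcL P hP
    have h1 : Lv Z L v = ev v φ := hWdl k K Z hZ e r hr L P hP φ hφ v hc.1
    have h2 : Lv Z L (Api.res K v') = ev (Api.res K v') φ :=
      hWdl k K Z hZ e r hr L P hP φ hφ (Api.res K v') fun f hf => hcO.1 _ (hdO f hf).1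
    have h3 : Lv Z' (fun v' => Lv Z L (Api.res K v')) v' = ε * ev v φ := by
      rw [hL4 v' ⟨O, hO, hcO.1⟩, h2, Api.ev_res, Api.ev_push_lies hL]
    rw [Tv, h3, Api.can_eq hA', Api.can_eq hA, h1]
    push_cast
    ring
  set γ : ℕ := Module.finrank K K' with hγ
  have hγ0 : 0 < γ := Module.finrank_pos
  have hγ0' : (0 : ℝ) < γ := by exact_mod_cast hγ0
  have hcard : (Fintype.card (K' ≃ₐ[K] K') : ℝ) = γ := by
    have h1 : Fintype.card (K' ≃ₐ[K] K') = γ := by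
      rw [← Nat.card_eq_fintype_card, hγ]; exact IsGalois.card_aut_eq_finrank K K'
    rw [h1]
  have hS : ∀ v : AddValuation K (WithTop ℤ), DivOver Z v → ∀ (v' : AddValuation K' (WithTop ℤ)) (ε : ℕ),
      Divisorial k v' → Lies v v' ε →
      ∑ g : K' ≃ₐ[K] K', Tv (up K' r) Z' (fun v' => Lv Z L (Api.res K v')) Ξ' (cg g v') = γ * (ε * Tv r Z L Ξ v) := by
    intro v hv v' ε hv' hL
    have h1 : ∀ g : K' ≃ₐ[K] K', Tv (up K' r) Z' (fun v' => Lv Z L (Api.res K v')) Ξ' (cg g v') =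
        ε * (1 + can k r v - Lv Z L v) - ev (cg g v') Ξ' := fun g =>
      (hT v hv (cg g v') ε (hCgd k K K' g v' hv') (Api.lies_cg hL g)).2
    rw [Finset.sum_congr rfl fun g _ => h1 g, Finset.sum_sub_distrib, Finset.sum_const, ← hΞ v v' ε hL,
      Finset.card_univ, nsmul_eq_mul, hcard, Tv]
    ring
  refine ⟨Ξ, ?_, ?_⟩
  · intro v hv
    obtain ⟨v', ε, hv', hL⟩ := hEXT k K K' v hv.1
    have hε : (0 : ℝ) < ε := by exact_mod_cast hL.1
    have hs := hS v hv v' ε hv' hL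
    have hp : ∀ g : K' ≃ₐ[K] K', Pos κ (Tv (up K' r) Z' (fun v' => Lv Z L (Api.res K v')) Ξ' (cg g v')) := fun g =>
      hRsl.1 _ (hT v hv (cg g v') ε (hCgd k K K' g v' hv') (Api.lies_cg hL g)).1
    have hpos : (0 : ℝ) < γ * ε := mul_pos hγ0' hε
    constructor
    · have h0 : 0 ≤ (γ * ε : ℝ) * Tv r Z L Ξ v := by
        rw [mul_assoc, ← hs]
        exact Finset.sum_nonneg fun g _ => (hp g).1
      exact nonneg_of_mul_nonneg_right h0 hpos
    · intro hκ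
      have h0 : 0 < (γ * ε : ℝ) * Tv r Z L Ξ v := by
        rw [mul_assoc, ← hs]
        exact Finset.sum_pos (fun g _ => (hp g).2 hκ) ⟨AlgEquiv.refl, Finset.mem_univ _⟩
      exact (pos_iff_pos_of_mul_pos h0).1 hpos
  · intro v hv ν m hν hLν
    obtain ⟨v', ε, hv', hL⟩ := hEXT k K K' v hv.1
    have hε : (0 : ℝ) < ε := by exact_mod_cast hL.1
    have hs := hS v hv v' ε hv' hL
    have hm : (0 : ℝ) < m := by exact_mod_cast hLν.1
    have key : ∀ g : K' ≃ₐ[K] K', ((1 - 𝔻 ν) -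
        m / ε * Tv (up K' r) Z' (fun v' => Lv Z L (Api.res K v')) Ξ' (cg g v')) / γ ∈
        AddSubmonoid.closure {t | ∃ g ∈ G, ∃ γ η : ℕ, 0 < γ ∧ γ ≤ δ ∧ 0 < η ∧ η ≤ δ ∧ t = g / (γ * η)} := by
      intro g
      have hg := hCgd k K K' g v' hv'
      have hLg := Api.lies_cg hL g
      obtain ⟨W', η, m', hW', hLW, hLW'⟩ := hCmp k K F K' F' hconn v ν (cg g v') m ε hν hLν hg.1 hLg
      have hidx : η * m = m' * ε := XBcr.index_unique hv.1.1 (Api.lies_trans hLν hLW) (Api.lies_trans hLg hLW')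
      have hidx' : (η : ℝ) * m = m' * ε := by exact_mod_cast hidx
      have hη : (0 : ℝ) < η := by exact_mod_cast hLW.1
      have hηδ : η ≤ δ := (hRmi F F' ν W' η hLW hW'.1).trans hδ'
      have h1 := hRsl.2 (cg g v') (hT v hv (cg g v') ε hg hLg).1 W' m' hW' hLW'
      rw [hDD ν W' η hν hLW] at h1
      have h2 := XBcr.scale_mem (G' := {t | ∃ g ∈ G, ∃ γ η : ℕ, 0 < γ ∧ γ ≤ δ ∧ 0 < η ∧ η ≤ δ ∧ t = g / (γ * η)})
        ((γ : ℝ) * η) (fun x hx => ⟨x, hx, γ, η, hγ0, hδ, hLW.1, hηδ, rfl⟩) h1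
      have h3 : (m : ℝ) / ε = m' / η := by
        rw [div_eq_div_iff hε.ne' hη.ne']
        linarith
      have h4 : ((1 - 𝔻 ν) - m / ε * Tv (up K' r) Z' (fun v' => Lv Z L (Api.res K v')) Ξ' (cg g v')) / γ =
          (η * (1 - 𝔻 ν) - m' * Tv (up K' r) Z' (fun v' => Lv Z L (Api.res K v')) Ξ' (cg g v')) / (γ * η) := by
        rw [h3]
        field_simp
      rw [h4]
      exact h2
    have h5 := AddSubmonoid.sum_mem (AddSubmonoid.closure
      {t | ∃ g ∈ G, ∃ γ η : ℕ, 0 < γ ∧ γ ≤ δ ∧ 0 < η ∧ η ≤ δ ∧ t = g / (γ * η)}) (t := Finset.univ) fun g _ => key g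
    have h6 : ∑ g : K' ≃ₐ[K] K', ((1 - 𝔻 ν) -
        m / ε * Tv (up K' r) Z' (fun v' => Lv Z L (Api.res K v')) Ξ' (cg g v')) / γ = (1 - 𝔻 ν) - m * Tv r Z L Ξ v := by
      rw [← Finset.sum_div, Finset.sum_sub_distrib, ← Finset.mul_sum, hs, Finset.sum_const, Finset.card_univ,
        nsmul_eq_mul, hcard]
      field_simp
    rw [h6] at h5
    exact h5

end Pool.Agent.Work.MP_a2680c_ag.HA
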