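import Pool.Agent.Work.MP_a2680c_ag.HA.StmtsC

/-!
# MP_a2680c_ag, block HA, item Bp1: the normalization of a finitely generated algebra
-/

set_option autoImplicit false

noncomputable section

namespace Pool.Agent.Work.MP_a2680c_ag.HA

open MP7b66e6 MP7b66e6.Q
open scoped BigOperators

universe u

namespace XBp1

variable {k K : Type u} [Field k] [Field K] [Algebra k K]

/-- a subalgebra between `C` and `K` has the fraction field `K` -/
lemma frac_of_le {C C' : Subalgebra k K} (h : C ≤ C') (hC : IsFractionRing C K) : IsFractionRing C' K := by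
  have : FaithfulSMul C' K := (faithfulSMul_iff_algebraMap_injective C' K).2 Subtype.val_injective
  refine IsFractionRing.of_field C' K fun z => ?_
  obtain ⟨a, b, -, hab⟩ := IsFractionRing.div_surjective (A := C) z
  exact ⟨⟨a, h a.2⟩, ⟨b, h b.2⟩, hab.symm⟩

/-- the fraction field of `B` is finite over the fraction field of `A`, if `B` is integral over `A` and finitely generated -/
lemma finDim (A : Type u) [CommRing A] [IsDomain A] [Algebra k A] [Algebra A K] [IsScalarTower k A K] (L : Type u) [Field L]
    [Algebra A L] [Algebra L K] [IsScalarTower A L K] (B : Subalgebra k K) (hB : B.FG) (hf : IsFractionRing B K)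
    (hint : ∀ x ∈ B, IsIntegral A x) : FiniteDimensional L K := by
  obtain ⟨t, ht⟩ := hB
  have h1 : ∀ x ∈ (t : Set K), IsIntegral L x := fun x hx =>
    (hint x (by rw [← ht]; exact Algebra.subset_adjoin hx)).tower_top
  have h2 : FiniteDimensional L (IntermediateField.adjoin L (t : Set K)) := IntermediateField.finiteDimensional_adjoin h1
  have h3 : ∀ x ∈ B, x ∈ IntermediateField.adjoin L (t : Set K) := by
    intro x hx
    rw [← ht] at hx
    induction hx using Algebra.adjoin_induction with
    | mem x hx => exact IntermediateField.subset_adjoin L _ hx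
    | algebraMap c =>
      have : algebraMap k K c = algebraMap L K (algebraMap A L (algebraMap k A c)) := by
        rw [← IsScalarTower.algebraMap_apply A L K, ← IsScalarTower.algebraMap_apply k A K]
      rw [this]
      exact IntermediateField.algebraMap_mem _ _
    | add x y _ _ hx hy => exact add_mem hx hy
    | mul x y _ _ hx hy => exact mul_mem hx hy
  have h4 : IntermediateField.adjoin L (t : Set K) = ⊤ := by
    rw [eq_top_iff]
    intro z _
    obtain ⟨a, b, -, hab⟩ := IsFractionRing.div_surjective (A := B) z
    rw [← hab]
    exact div_mem (h3 _ a.2) (h3 _ b.2)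
  rw [h4] at h2
  exact Module.Finite.equiv (IntermediateField.topEquiv (F := L) (E := K)).toLinearEquiv

lemma fg_restrict (A : Type u) [CommRing A] [Algebra k A] [Algebra A K] [IsScalarTower k A K] [Algebra.FiniteType k A]
    (D : Subalgebra A K) [Module.Finite A D] : (D.restrictScalars k).FG := by
  rw [Subalgebra.fg_iff_finiteType]
  have h1 : Algebra.FiniteType k D := Algebra.FiniteType.trans (S := A) inferInstance inferInstance
  exact h1

lemma norm_fg [CharZero k] (B : Subalgebra k K) (hB : B.FG) (hf : IsFractionRing B K) :
    ((integralClosure B K).restrictScalars k).FG := by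
  have : Algebra.FiniteType k B := (Subalgebra.fg_iff_finiteType B).1 hB
  obtain ⟨s, g, hg, hfin⟩ := exists_finite_inj_algHom_of_fg k B
  let i1 : Algebra (MvPolynomial (Fin s) k) B := g.toRingHom.toAlgebra
  let i2 : Algebra (MvPolynomial (Fin s) k) K := ((algebraMap B K).comp g.toRingHom).toAlgebra
  have i3 : IsScalarTower (MvPolynomial (Fin s) k) B K := IsScalarTower.of_algebraMap_eq fun _ => rfl
  have i4 : IsScalarTower k (MvPolynomial (Fin s) k) K := IsScalarTower.of_algebraMap_eq fun c => by
    show algebraMap k K c = algebraMap B K (g (algebraMap k _ c))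
    rw [g.commutes]
    rfl
  have i5 : Module.Finite (MvPolynomial (Fin s) k) B := hfin
  have i6 : FaithfulSMul (MvPolynomial (Fin s) k) K := (faithfulSMul_iff_algebraMap_injective _ K).2
    (Subtype.val_injective.comp hg)
  let i7 : Algebra (FractionRing (MvPolynomial (Fin s) k)) K := FractionRing.liftAlgebra (MvPolynomial (Fin s) k) K
  have i8 : IsScalarTower (MvPolynomial (Fin s) k) (FractionRing (MvPolynomial (Fin s) k)) K :=
    FractionRing.isScalarTower_liftAlgebra (MvPolynomial (Fin s) k) K
  have hint : ∀ x ∈ B, IsIntegral (MvPolynomial (Fin s) k) x := fun x hx => by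
    have h1 : IsIntegral (MvPolynomial (Fin s) k) (⟨x, hx⟩ : B) := Algebra.IsIntegral.isIntegral _
    exact h1.map (IsScalarTower.toAlgHom (MvPolynomial (Fin s) k) B K)
  have i9 : FiniteDimensional (FractionRing (MvPolynomial (Fin s) k)) K :=
    finDim (MvPolynomial (Fin s) k) (FractionRing (MvPolynomial (Fin s) k)) B hB hf hint
  have i10 : CharZero (FractionRing (MvPolynomial (Fin s) k)) :=
    charZero_of_injective_algebraMap (IsFractionRing.injective (MvPolynomial (Fin s) k) (FractionRing (MvPolynomial (Fin s) k)))
  have i11 : Module.Finite (MvPolynomial (Fin s) k) (integralClosure (MvPolynomial (Fin s) k) K) :=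
    IsIntegralClosure.finite (MvPolynomial (Fin s) k) (FractionRing (MvPolynomial (Fin s) k)) K _
  have h1 : (integralClosure B K).restrictScalars k =
      (integralClosure (MvPolynomial (Fin s) k) K).restrictScalars k := by
    ext x
    constructor
    · intro hx
      have hx' : IsIntegral B x := hx
      exact (isIntegral_trans (R := MvPolynomial (Fin s) k) x hx' : IsIntegral (MvPolynomial (Fin s) k) x)
    · intro hx
      have hx' : IsIntegral (MvPolynomial (Fin s) k) x := hx
      exact (hx'.tower_top : IsIntegral B x)
  rw [h1]
  exact fg_restrict (MvPolynomial (Fin s) k) _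

end XBp1

open XBp1 in
theorem pr_Bp1 : StBp1.{u} := by
  intro k K _ _ _ _ C hC hf T hT
  set B : Subalgebra k K := Algebra.adjoin k ((C : Set K) ∪ T) with hBdef
  have hCB : C ≤ B := fun x hx => Algebra.subset_adjoin (Or.inl hx)
  have hTB : T ⊆ B := fun x hx => Algebra.subset_adjoin (Or.inr hx)
  have hB : B.FG := by
    obtain ⟨t, ht⟩ := hC
    obtain ⟨t', rfl⟩ := hT.exists_finset_coe
    classical
    refine ⟨t ∪ t', ?_⟩
    rw [hBdef]
    apply le_antisymm
    · refine Algebra.adjoin_mono ?_
      rw [Finset.coe_union]
      refine Set.union_subset_union ?_ le_rfl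
      rw [← ht]
      exact Algebra.subset_adjoin
    · refine Algebra.adjoin_le ?_
      rintro x (hx | hx)
      · have hx' : x ∈ C := hx
        rw [← ht] at hx'
        exact Algebra.adjoin_mono (by rw [Finset.coe_union]; exact Set.subset_union_left) hx'
      · exact Algebra.subset_adjoin (by rw [Finset.coe_union]; exact Or.inr hx)
  have hBf : IsFractionRing B K := frac_of_le hCB hf
  have hBC : B ≤ (integralClosure B K).restrictScalars k := fun x hx => by
    show IsIntegral B x
    exact isIntegral_algebraMap (x := (⟨x, hx⟩ : B))
  have hCf : IsFractionRing ((integralClosure B K).restrictScalars k) K := frac_of_le hBC hBf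
  refine ⟨(integralClosure B K).restrictScalars k, norm_fg B hB hBf, ?_, hCf, hCB.trans hBC, fun x hx => hBC (hTB hx),
    fun f hf => hf⟩
  rw [isIntegrallyClosed_iff K]
  intro x hx
  have h1 : IsIntegral (integralClosure B K) x := hx
  have h2 : IsIntegral B x := isIntegral_trans (R := B) (A := integralClosure B K) x h1
  exact ⟨⟨x, h2⟩, rfl⟩

end Pool.Agent.Work.MP_a2680c_ag.HA
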