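import Pool.Agent.Work.MP_a2680c_ag.HA.StmtsC

/-!
# MP_a2680c_ag, block HA, item Bp2: the normalized blow up
-/

set_option autoImplicit false

noncomputable section

namespace Pool.Agent.Work.MP_a2680c_ag.HA

open MP7b66e6 MP7b66e6.Q
open scoped BigOperators

universe u

namespace XBp2

variable {k K : Type u} [Field k] [Field K] [Algebra k K]

theorem dom_iff (R V : Subalgebra k K) :
    Dom R V ↔ ∀ f ∈ R, f ∈ V ∧ (f ≠ 0 → f⁻¹ ∈ V → f⁻¹ ∈ R) := Iff.rfl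

theorem dom_trans {P R V : Subalgebra k K} (h : Dom P R) (h' : Dom R V) : Dom P V := by
  rw [dom_iff] at *
  exact fun f hf => ⟨(h' f (h f hf).1).1, fun h0 hi => (h f hf).2 h0 ((h' f (h f hf).1).2 h0 hi)⟩

/-- the localization as a subalgebra -/
def locAt (C : Subalgebra k K) (p : Ideal C) (hp : p.IsPrime) : Subalgebra k K where
  carrier := {f | ∃ a s : C, s ∉ p ∧ f * s = a}
  mul_mem' := by
    rintro f g ⟨a, s, hs, h1⟩ ⟨b, t, ht, h2⟩
    refine ⟨a * b, s * t, fun h => (hp.mem_or_mem h).elim hs ht, ?_⟩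
    push_cast
    rw [← h1, ← h2]
    ring
  add_mem' := by
    rintro f g ⟨a, s, hs, h1⟩ ⟨b, t, ht, h2⟩
    refine ⟨a * t + b * s, s * t, fun h => (hp.mem_or_mem h).elim hs ht, ?_⟩
    push_cast
    rw [← h1, ← h2]
    ring
  algebraMap_mem' := by
    intro c
    refine ⟨⟨algebraMap k K c, C.algebraMap_mem c⟩, 1, fun h => hp.ne_top ((Ideal.eq_top_iff_one p).2 h), ?_⟩
    simp

theorem isLoc_locAt (C : Subalgebra k K) (p : Ideal C) (hp : p.IsPrime) :
    IsLoc C p (locAt C p hp) := fun _ => Iff.rfl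

theorem le_of_isLoc {C : Subalgebra k K} {p : Ideal C} {R : Subalgebra k K} (hp : p.IsPrime)
    (h : IsLoc C p R) : C ≤ R := by
  intro f hf
  rw [h]
  exact ⟨⟨f, hf⟩, 1, fun h => hp.ne_top ((Ideal.eq_top_iff_one p).2 h), by simp⟩

theorem ne_zero_of_not_mem {C : Subalgebra k K} {p : Ideal C} {s : C} (hs : s ∉ p) :
    (s : K) ≠ 0 := by
  intro h
  apply hs
  have : s = 0 := Subtype.ext h
  rw [this]
  exact p.zero_mem

theorem inv_mem_of_isLoc {C : Subalgebra k K} {p : Ideal C} {R : Subalgebra k K}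
    (h : IsLoc C p R) {s : C} (hs : s ∉ p) : (s : K)⁻¹ ∈ R := by
  rw [h]
  exact ⟨1, s, hs, by rw [inv_mul_cancel₀ (ne_zero_of_not_mem hs)]; simp⟩

theorem not_mem_of_inv {C : Subalgebra k K} {p : Ideal C} {R : Subalgebra k K}
    (h : IsLoc C p R) {a : C} (ha : (a : K) ≠ 0) (hi : (a : K)⁻¹ ∈ R) : a ∉ p := by
  intro hap
  obtain ⟨b, s, hs, e⟩ := (h _).1 hi
  apply hs
  have : s = a * b := by
    apply Subtype.ext
    push_cast
    rw [← e, ← mul_assoc, mul_inv_cancel₀ ha, one_mul]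
  rw [this]
  exact Ideal.mul_mem_right _ _ hap

/-- the local ring of `C` which is dominated by a local ring of `D` -/
theorem contr {C D : Subalgebra k K} (hCD : C ≤ D) (p : Ideal D) (hp : p.IsPrime)
    {R : Subalgebra k K} (h : IsLoc D p R) :
    ∃ q : Ideal C, q.IsPrime ∧ ∃ P : Subalgebra k K, IsLoc C q P ∧ Dom P R := by
  obtain ⟨q, hq⟩ : ∃ q : Ideal C, q = p.comap (Subalgebra.inclusion hCD).toRingHom := ⟨_, rfl⟩
  have hqp : q.IsPrime := by
    rw [hq]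
    exact Ideal.IsPrime.comap _
  have hmem : ∀ s : C, s ∈ q ↔ (⟨s.1, hCD s.2⟩ : D) ∈ p := by
    intro s
    rw [hq]
    exact Iff.rfl
  refine ⟨q, hqp, locAt C q hqp, isLoc_locAt C q hqp, ?_⟩
  rw [dom_iff]
  intro f hf
  obtain ⟨a, s, hs, e⟩ := hf
  have hsp : (⟨s.1, hCD s.2⟩ : D) ∉ p := fun h => hs ((hmem s).2 h)
  have hs0 : (s : K) ≠ 0 := ne_zero_of_not_mem hs
  refine ⟨(h f).2 ⟨⟨a.1, hCD a.2⟩, ⟨s.1, hCD s.2⟩, hsp, e⟩, fun h0 hi => ?_⟩
  have ha0 : (a : K) ≠ 0 := by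
    rw [← e]
    exact mul_ne_zero h0 hs0
  have hai : ((⟨a.1, hCD a.2⟩ : D) : K)⁻¹ ∈ R := by
    have h1 := inv_mem_of_isLoc h hsp
    have h2 := R.mul_mem hi h1
    have h3 : ((⟨a.1, hCD a.2⟩ : D) : K)⁻¹ = f⁻¹ * ((⟨s.1, hCD s.2⟩ : D) : K)⁻¹ := by
      show (a : K)⁻¹ = f⁻¹ * (s : K)⁻¹
      rw [← e, mul_inv]
    rw [h3]
    exact h2
  have hap : a ∉ q := fun hq' => not_mem_of_inv h ha0 hai ((hmem a).1 hq')
  refine ⟨s, a, hap, ?_⟩
  rw [← e, ← mul_assoc, inv_mul_cancel₀ h0, one_mul]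

theorem integral_mono {A B : Subalgebra k K} (h : A ≤ B) {f : K} (hf : IsIntegral A f) :
    IsIntegral B f := by
  obtain ⟨q, hq, he⟩ := hf
  refine ⟨q.map (Subalgebra.inclusion h).toRingHom, hq.map _, ?_⟩
  rw [Polynomial.eval₂_map]
  exact he

/-- a localization of a normal algebra is normal -/
theorem integral_mem_loc {D : Subalgebra k K} {p : Ideal D} {R : Subalgebra k K} (hp : p.IsPrime)
    (h : IsLoc D p R) (hD : IsIntegrallyClosed D) (hF : IsFractionRing D K) {f : K}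
    (hf : IsIntegral R f) : f ∈ R := by
  have hDR := le_of_isLoc hp h
  let alg : Algebra D R := (Subalgebra.inclusion hDR).toRingHom.toAlgebra
  have : IsScalarTower D R K := IsScalarTower.of_algebraMap_eq (fun x => rfl)
  have : IsLocalization p.primeCompl R := by
    rw [isLocalization_iff]
    refine ⟨?_, ?_, ?_⟩
    · rintro ⟨s, hs⟩
      have hs' : s ∉ p := hs
      refine isUnit_iff_exists_inv.2 ⟨⟨(s : K)⁻¹, inv_mem_of_isLoc h hs'⟩, ?_⟩
      apply Subtype.ext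
      have h0 : (s : K) ≠ 0 := ne_zero_of_not_mem hs'
      exact mul_inv_cancel₀ h0
    · rintro ⟨z, hz⟩
      obtain ⟨a, s, hs, e⟩ := (h z).1 hz
      exact ⟨(a, ⟨s, hs⟩), Subtype.ext e⟩
    · intro x y hxy
      refine ⟨1, ?_⟩
      have : x = y := Subtype.ext (congrArg (fun r : R => (r : K)) hxy)
      rw [this]
  obtain ⟨⟨m, hm⟩, hmi⟩ :=
    IsIntegral.exists_multiple_integral_of_isLocalization p.primeCompl f hf
  obtain ⟨y, hy⟩ := (IsIntegrallyClosed.isIntegral_iff (R := D) (K := K)).1 hmi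
  rw [h]
  refine ⟨y, m, hm, ?_⟩
  have h1 : ((m : D) : K) * f = (y : K) := hy.symm
  rw [mul_comm]
  exact h1

/-- the valuation subring of a valuation ring -/
def vs (V : Subalgebra k K) (hV : IsVal V) : ValuationSubring K where
  carrier := V
  mul_mem' := V.mul_mem
  one_mem' := V.one_mem
  add_mem' := V.add_mem
  zero_mem' := V.zero_mem
  neg_mem' := V.neg_mem
  mem_or_inv_mem' := hV

theorem integral_mem_val {V : Subalgebra k K} (hV : IsVal V) {f : K} (hf : IsIntegral V f) :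
    f ∈ V := by
  have h1 : IsIntegral (vs V hV) f := by
    obtain ⟨q, hq, he⟩ := hf
    let i : V →+* vs V hV :=
      { toFun := fun x => ⟨x.1, x.2⟩, map_one' := rfl, map_mul' := fun _ _ => rfl,
        map_zero' := rfl, map_add' := fun _ _ => rfl }
    refine ⟨q.map i, hq.map _, ?_⟩
    rw [Polynomial.eval₂_map]
    exact he
  obtain ⟨y, hy⟩ := (IsIntegrallyClosed.isIntegral_iff (R := vs V hV) (K := K)).1 h1
  rw [← hy]
  exact y.2

/-- an element of `S` of least value -/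
theorem least (V : Subalgebra k K) (hV : IsVal V) (S : Finset Kˣ) (hS : S.Nonempty) :
    ∃ s ∈ S, ∀ s' ∈ S, (s' : K) / (s : K) ∈ V := by
  classical
  induction hS using Finset.Nonempty.cons_induction with
  | singleton a =>
    refine ⟨a, Finset.mem_singleton_self a, fun s' hs' => ?_⟩
    rw [Finset.mem_singleton.1 hs', div_self a.ne_zero]
    exact V.one_mem
  | cons a T ha hT ih =>
    obtain ⟨s, hs, h⟩ := ih
    rcases hV ((a : K) / (s : K)) with h1 | h1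
    · refine ⟨s, Finset.mem_cons.2 (Or.inr hs), fun s' hs' => ?_⟩
      rcases Finset.mem_cons.1 hs' with h2 | h2
      · rw [h2]
        exact h1
      · exact h s' h2
    · rw [inv_div] at h1
      refine ⟨a, Finset.mem_cons_self a T, fun s' hs' => ?_⟩
      rcases Finset.mem_cons.1 hs' with h2 | h2
      · rw [h2, div_self a.ne_zero]
        exact V.one_mem
      · have h3 := V.mul_mem (h s' h2) h1
        rwa [div_mul_div_cancel₀ s.ne_zero] at h3

/-- the local ring of `D` which is dominated by the valuation ring `V` -/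
theorem centre {D V : Subalgebra k K} (hV : IsVal V) (hDV : D ≤ V) :
    ∃ p : Ideal D, p.IsPrime ∧ ∃ O : Subalgebra k K, IsLoc D p O ∧ Dom O V := by
  let i : D →+* vs V hV :=
    { toFun := fun x => ⟨x.1, hDV x.2⟩, map_one' := rfl, map_mul' := fun _ _ => rfl,
      map_zero' := rfl, map_add' := fun _ _ => rfl }
  obtain ⟨p, hp⟩ : ∃ p : Ideal D, p = (IsLocalRing.maximalIdeal (vs V hV)).comap i := ⟨_, rfl⟩
  have hpp : p.IsPrime := by
    rw [hp]
    exact Ideal.IsPrime.comap _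
  have hunit : ∀ s : D, s ∉ p ↔ (s : K) ≠ 0 ∧ (s : K)⁻¹ ∈ V := by
    intro s
    rw [hp, Ideal.mem_comap, IsLocalRing.mem_maximalIdeal, mem_nonunits_iff, not_not]
    constructor
    · intro hu
      obtain ⟨t, ht⟩ := isUnit_iff_exists_inv.1 hu
      have h1 : (s : K) * (t : K) = 1 := congrArg (fun r : vs V hV => (r : K)) ht
      have h0 : (s : K) ≠ 0 := left_ne_zero_of_mul_eq_one h1
      refine ⟨h0, ?_⟩
      rw [inv_eq_of_mul_eq_one_right h1]
      exact t.2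
    · rintro ⟨h0, h1⟩
      refine isUnit_iff_exists_inv.2 ⟨⟨(s : K)⁻¹, h1⟩, ?_⟩
      apply Subtype.ext
      exact mul_inv_cancel₀ h0
  refine ⟨p, hpp, locAt D p hpp, isLoc_locAt D p hpp, ?_⟩
  rw [dom_iff]
  intro f hf
  obtain ⟨a, s, hs, e⟩ := hf
  obtain ⟨hs0, hsi⟩ := (hunit s).1 hs
  have hf' : f = (a : K) * (s : K)⁻¹ := by
    rw [← e, mul_assoc, mul_inv_cancel₀ hs0, mul_one]
  refine ⟨?_, fun h0 hi => ?_⟩
  · rw [hf']
    exact V.mul_mem (hDV a.2) hsi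
  · have ha0 : (a : K) ≠ 0 := by
      rw [← e]
      exact mul_ne_zero h0 hs0
    have hai : (a : K)⁻¹ ∈ V := by
      rw [← e, mul_inv]
      exact V.mul_mem hi hsi
    refine ⟨s, a, (hunit a).2 ⟨ha0, hai⟩, ?_⟩
    rw [← e, ← mul_assoc, inv_mul_cancel₀ h0, one_mul]

/-- the inclusion of two local rings of the blow up which are dominated by the same valuation ring -/
theorem incl {Z : Set (Subalgebra k K)}
    (hsep : ∀ R ∈ Z, ∀ S ∈ Z, ∀ V : Subalgebra k K, IsVal V → Dom R V → Dom S V → R = S)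
    {C C' D D' : Subalgebra k K} (S : Finset Kˣ) {s s' : Kˣ} (hs : s ∈ S) (hs' : s' ∈ S)
    (hCD : C ≤ D) (hCD' : C' ≤ D') (hT : ∀ t ∈ S, (t : K) / (s : K) ∈ D)
    (hT' : ∀ t ∈ S, (t : K) / (s' : K) ∈ D')
    (hZ : ∀ (q : Ideal C) (P : Subalgebra k K), q.IsPrime → IsLoc C q P → P ∈ Z)
    (hZ' : ∀ (q : Ideal C') (P : Subalgebra k K), q.IsPrime → IsLoc C' q P → P ∈ Z)
    (hint : ∀ f ∈ D', IsIntegral
      (Algebra.adjoin k ((C' : Set K) ∪ {x | ∃ t ∈ S, x = (t : K) / (s' : K)})) f)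
    (hD : IsIntegrallyClosed D) (hF : IsFractionRing D K)
    {p : Ideal D} {p' : Ideal D'} (hp : p.IsPrime) (hp' : p'.IsPrime) {R R' V : Subalgebra k K}
    (hR : IsLoc D p R) (hR' : IsLoc D' p' R') (hV : IsVal V) (hRV : Dom R V) (hRV' : Dom R' V) :
    R' ≤ R := by
  obtain ⟨q, hq, P, hP, hPR⟩ := contr hCD p hp hR
  obtain ⟨q', hq', P', hP', hPR'⟩ := contr hCD' p' hp' hR'
  have hPP : P = P' := hsep P (hZ q P hq hP) P' (hZ' q' P' hq' hP') V hV (dom_trans hPR hRV)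
    (dom_trans hPR' hRV')
  have hDR := le_of_isLoc hp hR
  have hDR' := le_of_isLoc hp' hR'
  -- `s / s'` is in `R`
  have h1 : (s' : K) / (s : K) ∈ R := hDR (hT s' hs')
  have h2 : (s : K) / (s' : K) ∈ V := (hRV' _ (hDR' (hT' s hs))).1
  have h3 : (s : K) / (s' : K) ∈ R := by
    have h4 := (hRV _ h1).2 (div_ne_zero s'.ne_zero s.ne_zero)
    have h5 : ((s' : K) / (s : K))⁻¹ = (s : K) / (s' : K) := inv_div _ _
    have h6 := h4 (by
      show ((s' : K) / (s : K))⁻¹ ∈ V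
      rw [h5]
      exact h2)
    rwa [h5] at h6
  -- the algebra
  have hadj : Algebra.adjoin k ((C' : Set K) ∪ {x | ∃ t ∈ S, x = (t : K) / (s' : K)}) ≤ R := by
    rw [Algebra.adjoin_le_iff]
    rintro x (hx | ⟨t, ht, rfl⟩)
    · have hxP : x ∈ P' := le_of_isLoc hq' hP' hx
      rw [← hPP] at hxP
      exact (hPR x hxP).1
    · have h7 := R.mul_mem (hDR (hT t ht)) h3
      rwa [div_mul_div_cancel₀ s.ne_zero] at h7
  have hD'R : D' ≤ R := fun f hf =>
    integral_mem_loc hp hR hD hF (integral_mono hadj (hint f hf))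
  intro f hf
  obtain ⟨b, c, hc, e⟩ := (hR' f).1 hf
  have hc0 : (c : K) ≠ 0 := ne_zero_of_not_mem hc
  have hcV : (c : K)⁻¹ ∈ V := (hRV' _ (inv_mem_of_isLoc hR' hc)).1
  have hcR : (c : K)⁻¹ ∈ R := (hRV _ (hD'R c.2)).2 hc0 hcV
  have hf' : f = (b : K) * (c : K)⁻¹ := by
    rw [← e, mul_assoc, mul_inv_cancel₀ hc0, mul_one]
  rw [hf']
  exact R.mul_mem (hD'R b.2) hcR

end XBp2

theorem pr_Bp2 (_hLoc : StLoc.{u}) (hBp1 : StBp1.{u}) : StBp2.{u} := by
  intro k K _ _ _ _ Z hZ S hS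
  obtain ⟨ch, hfin, hne, hch, hZmem⟩ := hZ.charts
  have H : ∀ (C : Subalgebra k K) (s : Kˣ), ∃ D : Subalgebra k K, C ∈ ch → D.FG ∧
      IsIntegrallyClosed D ∧ IsFractionRing D K ∧ C ≤ D ∧
      {x | ∃ t ∈ S, x = (t : K) / (s : K)} ⊆ (D : Set K) ∧
      ∀ f ∈ D, IsIntegral
        (Algebra.adjoin k ((C : Set K) ∪ {x | ∃ t ∈ S, x = (t : K) / (s : K)})) f := by
    intro C s
    by_cases hC : C ∈ ch
    · obtain ⟨h1, h2, h3⟩ := hch C hC
      have hT : {x : K | ∃ t ∈ S, x = (t : K) / (s : K)}.Finite := by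
        have : {x : K | ∃ t ∈ S, x = (t : K) / (s : K)} =
            (fun t : Kˣ => (t : K) / (s : K)) '' (S : Set Kˣ) := by
          ext x
          constructor
          · rintro ⟨t, ht, rfl⟩
            exact ⟨t, ht, rfl⟩
          · rintro ⟨t, ht, rfl⟩
            exact ⟨t, ht, rfl⟩
        rw [this]
        exact S.finite_toSet.image _
      obtain ⟨D, hD⟩ := hBp1 k K C h1 h3 _ hT
      exact ⟨D, fun _ => hD⟩
    · exact ⟨⊤, fun h => absurd h hC⟩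
  choose N hN using H
  refine ⟨{R | ∃ D ∈ Set.image2 N ch (S : Set Kˣ), ∃ p : Ideal D, p.IsPrime ∧ IsLoc D p R},
    ⟨⟨Set.image2 N ch (S : Set Kˣ), hfin.image2 N S.finite_toSet, hne.image2 (Finset.coe_nonempty.2 hS),
      ?_, fun R => Iff.rfl⟩, ?_⟩, ?_, ?_, ?_⟩
  · rintro _ ⟨C, hC, s, hs, rfl⟩
    obtain ⟨h1, h2, h3, _⟩ := hN C s hC
    exact ⟨h1, h2, h3⟩
  · -- separated
    rintro R ⟨_, ⟨C, hC, s, hs, rfl⟩, p, hp, hR⟩ R' ⟨_, ⟨C', hC', s', hs', rfl⟩, p', hp', hR'⟩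
      V hV hRV hRV'
    obtain ⟨_, g2, g3, g4, g5, g6⟩ := hN C s hC
    obtain ⟨_, g2', g3', g4', g5', g6'⟩ := hN C' s' hC'
    have z1 : ∀ (q : Ideal C) (P : Subalgebra k K), q.IsPrime → IsLoc C q P → P ∈ Z :=
      fun q P hq hP => (hZmem P).2 ⟨C, hC, q, hq, hP⟩
    have z2 : ∀ (q : Ideal C') (P : Subalgebra k K), q.IsPrime → IsLoc C' q P → P ∈ Z :=
      fun q P hq hP => (hZmem P).2 ⟨C', hC', q, hq, hP⟩
    refine le_antisymm ?_ ?_
    · exact XBp2.incl hZ.sep S (Finset.mem_coe.1 hs') (Finset.mem_coe.1 hs) g4' g4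
        (fun t ht => g5' ⟨t, ht, rfl⟩) (fun t ht => g5 ⟨t, ht, rfl⟩) z2 z1 g6 g2' g3' hp' hp
        hR' hR hV hRV' hRV
    · exact XBp2.incl hZ.sep S (Finset.mem_coe.1 hs) (Finset.mem_coe.1 hs') g4 g4'
        (fun t ht => g5 ⟨t, ht, rfl⟩) (fun t ht => g5' ⟨t, ht, rfl⟩) z1 z2 g6' g2 g3 hp hp'
        hR hR' hV hRV hRV'
  · -- the morphism
    rintro R ⟨_, ⟨C, hC, s, hs, rfl⟩, p, hp, hR⟩
    obtain ⟨_, g2, g3, g4, g5, g6⟩ := hN C s hC
    obtain ⟨q, hq, P, hP, hPR⟩ := XBp2.contr g4 p hp hR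
    exact ⟨P, (hZmem P).2 ⟨C, hC, q, hq, hP⟩, hPR⟩
  · -- properness
    rintro V hV ⟨P, hPZ, hPV⟩
    obtain ⟨C, hC, q, hq, hP⟩ := (hZmem P).1 hPZ
    obtain ⟨s, hs, hsV⟩ := XBp2.least V hV S hS
    obtain ⟨_, g2, g3, g4, g5, g6⟩ := hN C s hC
    have hadj : Algebra.adjoin k ((C : Set K) ∪ {x | ∃ t ∈ S, x = (t : K) / (s : K)}) ≤ V := by
      rw [Algebra.adjoin_le_iff]
      rintro x (hx | ⟨t, ht, rfl⟩)
      · exact (hPV x (XBp2.le_of_isLoc hq hP hx)).1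
      · exact hsV t ht
    have hDV : N C s ≤ V := fun f hf =>
      XBp2.integral_mem_val hV (XBp2.integral_mono hadj (g6 f hf))
    obtain ⟨p, hp, O, hO, hOV⟩ := XBp2.centre hV hDV
    exact ⟨O, ⟨N C s, ⟨C, hC, s, Finset.mem_coe.2 hs, rfl⟩, p, hp, hO⟩, hOV⟩
  · -- the last claim
    rintro R ⟨_, ⟨C, hC, s, hs, rfl⟩, p, hp, hR⟩
    obtain ⟨_, g2, g3, g4, g5, g6⟩ := hN C s hC
    exact ⟨s, Finset.mem_coe.1 hs, fun s' hs' => XBp2.le_of_isLoc hp hR (g5 ⟨s', hs', rfl⟩)⟩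

end Pool.Agent.Work.MP_a2680c_ag.HA
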