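import Pool.Agent.Work.MP_a2680c_ag.HA.StmtsC

/-! Item [a2680c HA Bp3] (helper9): finitely generated b-divisors are base-point free. -/

set_option autoImplicit false

noncomputable section

namespace Pool.Agent.Work.MP_a2680c_ag.HA

open MP7b66e6 MP7b66e6.Q
open scoped BigOperators

universe u

theorem pr_Bp3 (hREG : NgREG.{u, u}) (hTb : StTb.{u}) (hGrm : StGrm.{u}) (hBp2 : StBp2.{u}) : StBp3.{u} := by
  classical
  intro k K _ _ _ _ Z hZ e r hr S hS M hM
  obtain ⟨Z', hZ', hmor, hprp, hgen⟩ := hBp2 k K Z hZ S hS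
  haveI : Algebra.EssFiniteType k K := (hGrm k K Z hZ).1
  have hcomp : ∀ (w : AddValuation K (WithTop ℤ)) (P : Subalgebra k K) (s s' : Kˣ), (∀ f ∈ P, 0 ≤ w f) →
      (s' : K) / (s : K) ∈ P → val w (s : K) ≤ val w (s' : K) := by
    intro w P s s' hw h
    have h1 := hw _ h
    rw [← Api.val_nonneg w (div_ne_zero s'.ne_zero s.ne_zero), Api.val_div w s'.ne_zero s.ne_zero] at h1
    omega
  have key : ∀ P ∈ Z', ∀ s ∈ S, (∀ s' ∈ S, (s' : K) / (s : K) ∈ P) → ∀ w : AddValuation K (WithTop ℤ),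
      (∀ f ∈ P, 0 ≤ w f) → M w + (val w (s : K) : ℝ) = 0 := by
    intro P hP s hs h w hw
    obtain ⟨⟨s₀, hs₀, h0⟩, h1⟩ := hM w
    have h2 := hcomp w P s s₀ hw (h s₀ hs₀)
    have h3 : ((val w (s : K) : ℤ) : ℝ) ≤ ((val w (s₀ : K) : ℤ) : ℝ) := by exact_mod_cast h2
    have h4 := h1 s hs
    linarith
  refine ⟨Z', hZ', hmor, hprp, ?_, ?_⟩
  · intro P hP
    obtain ⟨s, hs, h⟩ := hgen P hP
    exact ⟨s, fun ν hν => key P hP s hs h ν hν.2, fun ν _ => (hM ν).2 s hs⟩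
  · intro P hP s₁ h₁ ν hν hcen
    obtain ⟨s, hs, h⟩ := hgen P hP
    obtain ⟨hgerm, hpd⟩ := (hGrm k K Z' hZ').2 P hP e (hTb k K e r hr).2
    have heq : ∀ μ : AddValuation K (WithTop ℤ), PDat Z' P μ → val μ (s₁ : K) = val μ (s : K) := by
      intro μ hμ
      have e1 := h₁ μ hμ
      have e2 := key P hP s hs h μ hμ.2
      have : ((val μ (s₁ : K) : ℤ) : ℝ) = ((val μ (s : K) : ℤ) : ℝ) := by linarith
      exact_mod_cast this
    have hmem1 : (s₁ : K) / (s : K) ∈ P := by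
      apply hREG k K P e hgerm
      intro μ hμ
      rw [← Api.val_nonneg μ (div_ne_zero s₁.ne_zero s.ne_zero), Api.val_div μ s₁.ne_zero s.ne_zero,
        heq μ ((hpd μ).1 hμ)]
      omega
    have hmem2 : (s : K) / (s₁ : K) ∈ P := by
      apply hREG k K P e hgerm
      intro μ hμ
      rw [← Api.val_nonneg μ (div_ne_zero s.ne_zero s₁.ne_zero), Api.val_div μ s.ne_zero s₁.ne_zero,
        heq μ ((hpd μ).1 hμ)]
      omega
    have h5 := hcomp ν P s s₁ hcen.1 hmem1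
    have h6 := hcomp ν P s₁ s hcen.1 hmem2
    have h7 : val ν (s₁ : K) = val ν (s : K) := le_antisymm h6 h5
    rw [h7]
    exact key P hP s hs h ν hcen.1

end Pool.Agent.Work.MP_a2680c_ag.HA
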