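import Pool.Agent.Work.MP_a2680c_ag.HA.StmtsW

/-!
# MP_a2680c_ag, block HA, item Bxy: the b-fibration over an intermediate variety
-/

set_option autoImplicit false

noncomputable section

namespace Pool.Agent.Work.MP_a2680c_ag.HA

open MP7b66e6 MP7b66e6.Q
open scoped BigOperators

universe u

namespace XBxy

theorem res_res {K E F : Type u} [Field K] [Field E] [Field F] [Algebra K E] [Algebra K F]
    [Algebra E F] [IsScalarTower K E F] (ν : AddValuation F (WithTop ℤ)) :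
    Api.res K (Api.res E ν) = Api.res K ν := by
  have h : Api.res K (Api.res E ν) = ν.comap ((algebraMap E F).comp (algebraMap K E)) := rfl
  rw [h, ← IsScalarTower.algebraMap_eq K E F]
  rfl

end XBxy

theorem pr_Bxy (hLfg : StLfg.{u}) : StBxy.{u} := by
  intro κ k K E F _ _ _ _ _ _ _ _ _ _ _ _ _ _ _ e e₂ d r c₂ c Z Y 𝔻 L Φ hB hc₂ hY hm
  obtain ⟨h1, h2, -, h4⟩ := hLfg k K E e e₂ r c₂ Z Y L hB.basis hc₂ hB.vz hY hm hB.divL hB.carL
  have hov : ∀ ν : AddValuation F (WithTop ℤ), Ov Y ν → Ov Z ν := by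
    rintro ν ⟨O, hO, hf⟩
    obtain ⟨P, hP, hd⟩ := hm O hO
    refine ⟨P, hP, fun f hfP => ?_⟩
    have h := hf _ (hd f hfP).1
    rwa [← IsScalarTower.algebraMap_apply K E F] at h
  refine ⟨hY, hc₂, hB.basisF, hB.ess, h1, h2, fun ν hν ho => hB.pos ν hν (hov ν ho),
    fun ν hν ho => ?_⟩
  rw [hB.triv ν hν (hov ν ho)]
  have h5 : Lv Y (fun w => Lv Z L (Api.res K w)) (Api.res E ν) =
      Lv Z L (Api.res K (Api.res E ν)) := by
    obtain ⟨O, hO, hf⟩ := ho
    exact h4 (Api.res E ν) ⟨O, hO, hf⟩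
  rw [h5, XBxy.res_res]

end Pool.Agent.Work.MP_a2680c_ag.HA
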