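import Pool.Agent.Work.MP_a2680c_ag.HA.StmtsW

/-!
# MP_a2680c_ag, block HA, part W: item Byz (the fibration `Y → Z`)
-/

set_option autoImplicit false

noncomputable section

namespace Pool.Agent.Work.MP_a2680c_ag.HA

open MP7b66e6 MP7b66e6.Q
open scoped BigOperators

universe u

/-- **Byz**: the fibration `Y → Z` is a b-fibration. -/
theorem pr_Byz (hGrm : StGrm.{u}) (hCnt : StCnt.{u}) (hLfg : StLfg.{u}) : StByz.{u} := by
  intro κ k K E _ _ _ _ _ _ _ _ e e₂ r c₂ Z Y L Ξ hr hc hZ hY hM hP hdL hcL hpos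
  obtain ⟨-, -, -, h4⟩ := hLfg k K E e e₂ r c₂ Z Y L hr hc hZ hY hM hdL hcL
  refine ⟨hZ, hr, hc, (hGrm k E Y hY).1, hdL, hcL, ?_, ?_⟩
  · intro w hw hov
    obtain ⟨O, hO, hOw⟩ := (hCnt k K E Z hZ).2 Y hP w hov
    have h := hpos w ⟨hw, O, hO, hOw⟩
    have e1 : 1 - (1 - Tv c₂ Y (fun w => Lv Z L (Api.res K w)) Ξ w) =
        Tv c₂ Y (fun w => Lv Z L (Api.res K w)) Ξ w := by ring
    rw [e1]
    exact h
  · intro w hw hov
    obtain ⟨O, hO, hOw⟩ := (hCnt k K E Z hZ).2 Y hP w hov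
    have h := h4 w ⟨O, hO, hOw.1⟩
    show can k c₂ w + (1 - (1 + can k c₂ w - Lv Y (fun w => Lv Z L (Api.res K w)) w - ev w Ξ)) =
      Lv Z L (Api.res K w) + ev w Ξ
    rw [h]
    ring

end Pool.Agent.Work.MP_a2680c_ag.HA
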