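import Pool.Agent.Work.MP_a2680c_ag.HA.StmtsB

/-!
# MP_a2680c_ag, block HA, item Can: the canonical divisor from the log discrepancy
-/

set_option autoImplicit false

noncomputable section

namespace Pool.Agent.Work.MP_a2680c_ag.HA

open MP7b66e6 MP7b66e6.Q
open scoped BigOperators

universe u

namespace XCan

theorem le_of {k K : Type u} [Field k] [Field K] [Algebra k K] {d : ℕ} {x : Fin d → K}
    {ν : AddValuation K (WithTop ℤ)} {A A' : ℤ} (h : LogDisc k ν x A) (h' : LogDisc k ν x A') :
    A ≤ A' := by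
  obtain ⟨δ, hδ, he⟩ := h'.1
  have h1 := h.2 δ hδ
  rw [he] at h1
  exact WithTop.coe_le_coe.1 h1

theorem uniq {k K : Type u} [Field k] [Field K] [Algebra k K] {d : ℕ} {x : Fin d → K}
    {ν : AddValuation K (WithTop ℤ)} {A A' : ℤ} (h : LogDisc k ν x A) (h' : LogDisc k ν x A') :
    A = A' := le_antisymm (le_of h h') (le_of h' h)

end XCan

/-- The item Can. -/
theorem pr_Can (hLDX : NgLDX.{u, u}) : StCan.{u} := by
  intro k K _ _ _ d x ν
  refine ⟨fun A hA => ?_, fun pd hpd hν => ?_⟩
  · have h1 : LogDisc k ν x (Classical.epsilon (LogDisc k ν x)) := Classical.epsilon_spec ⟨A, hA⟩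
    have h2 : Classical.epsilon (LogDisc k ν x) = A := XCan.uniq h1 hA
    unfold can
    rw [h2]
  · refine (hLDX k K ν hν).2 d x ⟨pd, ?_⟩
    have h1 : (fun i j => pd i (x j)) = (1 : Matrix (Fin d) (Fin d) K) := by
      funext i j
      rw [Matrix.one_apply]
      exact hpd.1 i j
    have h2 : Matrix.det (fun i j => pd i (x j)) = 1 := by
      rw [h1]
      exact Matrix.det_one
    rw [h2]
    exact one_ne_zero

end Pool.Agent.Work.MP_a2680c_ag.HA
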