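import Pool.Agent.Work.MP_a2680c_ag.HA.StmtsG

/-! MP_a2680c_ag, block HA, item Cgd: conjugates of divisorial valuations are divisorial.  Author: helper20. -/

set_option autoImplicit false

noncomputable section

namespace Pool.Agent.Work.MP_a2680c_ag.HA

open MP7b66e6 MP7b66e6.Q
open scoped BigOperators

universe u

theorem pr_Cgd : StCgd.{u} := by
  intro k K K' _ _ _ _ _ _ _ g₀ ν h
  have hc : ∀ f : K', cg g₀ ν f = ν (g₀ f) := fun f => rfl
  obtain ⟨⟨π, hπ⟩, C, hC, hC0, hCd⟩ := h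
  let g : K' ≃ₐ[k] K' := g₀.restrictScalars k
  have hg : ∀ f : K', g₀ f = g f := fun f => rfl
  refine ⟨⟨g.symm π, ?_⟩, C.map (g.symm : K' →ₐ[k] K'), hC.map _, ?_, ?_⟩
  · rw [hc, hg, AlgEquiv.apply_symm_apply, hπ]
  · rintro c hcm
    obtain ⟨c', hc', rfl⟩ := Subalgebra.mem_map.1 hcm
    rw [hc, hg]
    change 0 ≤ ν (g (g.symm c'))
    rw [AlgEquiv.apply_symm_apply]
    exact hC0 c' hc'
  · intro f hf
    rw [hc, hg] at hf
    obtain ⟨a, ha, s, hs, hvs, has⟩ := hCd (g f) hf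
    refine ⟨g.symm a, Subalgebra.mem_map.2 ⟨a, ha, rfl⟩, g.symm s,
      Subalgebra.mem_map.2 ⟨s, hs, rfl⟩, ?_, ?_⟩
    · rw [hc, hg, AlgEquiv.apply_symm_apply, hvs]
    · rw [← has, map_mul, AlgEquiv.symm_apply_apply]

end Pool.Agent.Work.MP_a2680c_ag.HA
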