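import Pool.Agent.Work.MP_a2680c_ag.HA.StmtsX

/-!
# MP_a2680c_ag, block HA, item Cls: the places of `K(y)`
-/

set_option autoImplicit false

noncomputable section

namespace Pool.Agent.Work.MP_a2680c_ag.HA

open MP7b66e6 MP7b66e6.Q
open scoped BigOperators

universe u

namespace XCls

section
variable {K F : Type u} [Field K] [Field F] [Algebra K F]

/-- `K[y]` is a principal ideal domain -/
theorem pid : IsPrincipalIdealRing (MvPolynomial (Fin 1) K) := by
  refine IsPrincipalIdealRing.of_surjective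
    (Polynomial.aeval (R := K) (MvPolynomial.X 0 : MvPolynomial (Fin 1) K)) ?_
  intro g
  induction g using MvPolynomial.induction_on with
  | C a => exact ⟨Polynomial.C a, by rw [Polynomial.aeval_C]; rfl⟩
  | add p q hp hq =>
    obtain ⟨p', rfl⟩ := hp
    obtain ⟨q', rfl⟩ := hq
    exact ⟨p' + q', map_add _ _ _⟩
  | mul_X p i hp =>
    obtain ⟨p', rfl⟩ := hp
    have hi : i = 0 := Subsingleton.elim _ _
    subst hi
    exact ⟨p' * Polynomial.X, by rw [map_mul, Polynomial.aeval_X]⟩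

theorem pos_add {a b : WithTop ℤ} (ha : 0 ≤ a) (hb : 0 < b) : 0 < a + b :=
  lt_of_lt_of_le hb (le_add_of_nonneg_left ha)

theorem add_pos' {a b : WithTop ℤ} (ha : 0 < a) (hb : 0 ≤ b) : 0 < a + b :=
  lt_of_lt_of_le ha (le_add_of_nonneg_right hb)

theorem le_val {ν : AddValuation F (WithTop ℤ)} {f : F} (hf : f ≠ 0) (m : ℤ) :
    m ≤ val ν f ↔ (m : WithTop ℤ) ≤ ν f := by
  rw [Api.coe_val ν hf, WithTop.coe_le_coe]

theorem ae_ne {y : Fin 1 → F} (hy : GenBy K y) {g : MvPolynomial (Fin 1) K} (hg : g ≠ 0) :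
    MvPolynomial.aeval y g ≠ 0 := by
  intro h
  have hinj : Function.Injective (MvPolynomial.aeval (R := K) y) := hy.1
  exact hg (hinj (by rw [h, map_zero]))

theorem exists_frac {y : Fin 1 → F} (hy : GenBy K y) (f : F) :
    ∃ g h : MvPolynomial (Fin 1) K, h ≠ 0 ∧ f = MvPolynomial.aeval y g / MvPolynomial.aeval y h := by
  have hz : f ∈ IntermediateField.adjoin K (Set.range y) := by
    rw [hy.2]; exact IntermediateField.mem_top
  obtain ⟨r, s, hrs⟩ := (IntermediateField.mem_adjoin_range_iff K y f).1 hz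
  by_cases hs : s = 0
  · refine ⟨0, 1, one_ne_zero, ?_⟩
    rw [hrs, hs, map_zero, div_zero, zero_div]
  · exact ⟨r, s, hs, hrs⟩

theorem aeval_nonneg {y : Fin 1 → F} (ν : AddValuation F (WithTop ℤ))
    (hk : ∀ c : K, 0 ≤ ν (algebraMap K F c)) (h0 : 0 ≤ ν (y 0))
    (P : MvPolynomial (Fin 1) K) : 0 ≤ ν (MvPolynomial.aeval y P) := by
  induction P using MvPolynomial.induction_on with
  | C a =>
    rw [MvPolynomial.aeval_C]
    exact hk a
  | add p q hp hq =>
    rw [map_add]
    exact ν.map_le_add hp hq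
  | mul_X p i hp =>
    have hi : i = 0 := Subsingleton.elim _ _
    subst hi
    rw [map_mul, MvPolynomial.aeval_X, ν.map_mul]
    exact add_nonneg hp h0

theorem ext_of {y : Fin 1 → F} (hy : GenBy K y) (ν ν' : AddValuation F (WithTop ℤ))
    (h : ∀ g : MvPolynomial (Fin 1) K, g ≠ 0 →
      val ν (MvPolynomial.aeval y g) = val ν' (MvPolynomial.aeval y g)) : ν = ν' := by
  refine AddValuation.ext fun f => ?_
  by_cases hf : f = 0
  · rw [hf, AddValuation.map_zero, AddValuation.map_zero]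
  obtain ⟨g, q, hq, rfl⟩ := exists_frac hy f
  have hg : g ≠ 0 := by
    intro hg
    exact hf (by rw [hg, map_zero, zero_div])
  rw [Api.coe_val ν hf, Api.coe_val ν' hf, Api.val_div ν (ae_ne hy hg) (ae_ne hy hq),
    Api.val_div ν' (ae_ne hy hg) (ae_ne hy hq), h g hg, h q hq]

theorem val_eq_zero {ν : AddValuation F (WithTop ℤ)} {f : F} (h1 : 0 ≤ ν f)
    (h2 : ¬ 0 < ν f) : val ν f = 0 := by
  have h3 : ν f = 0 := le_antisymm (not_lt.1 h2) h1
  exact Api.val_of ν h3

theorem val_pos {ν : AddValuation F (WithTop ℤ)} {f : F} (hf : f ≠ 0) : 0 < val ν f ↔ 0 < ν f := by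
  rw [Api.coe_val ν hf, ← WithTop.coe_zero, WithTop.coe_lt_coe]

/-- the ideal of a place which is finite on `y` -/
theorem caseA {y : Fin 1 → F} (hy : GenBy K y) (ν : AddValuation F (WithTop ℤ)) (hν : Plc K ν)
    (h0 : 0 ≤ ν (y 0)) : ∃ p : MvPolynomial (Fin 1) K, Prime p ∧
      (∀ g, 0 < ν (MvPolynomial.aeval y g) ↔ p ∣ g) ∧ val ν (MvPolynomial.aeval y p) = 1 := by
  have hnn := aeval_nonneg ν hν.2 h0
  obtain ⟨⟨π, hπ⟩, hk⟩ := hν
  let P : Ideal (MvPolynomial (Fin 1) K) :=
    { carrier := {g | 0 < ν (MvPolynomial.aeval y g)}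
      add_mem' := by
        intro a b ha hb
        show 0 < ν (MvPolynomial.aeval y (a + b))
        rw [map_add]
        exact ν.map_lt_add ha hb
      zero_mem' := by
        show 0 < ν (MvPolynomial.aeval y (0 : MvPolynomial (Fin 1) K))
        rw [map_zero, ν.map_zero]
        exact WithTop.coe_lt_top 0
      smul_mem' := by
        intro c a ha
        show 0 < ν (MvPolynomial.aeval y (c * a))
        rw [map_mul, ν.map_mul]
        exact pos_add (hnn c) ha }
  obtain ⟨p, hp⟩ := (pid (K := K)).principal P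
  have hmem : ∀ g, 0 < ν (MvPolynomial.aeval y g) ↔ p ∣ g := by
    intro g
    have h1 : g ∈ P ↔ p ∣ g := by
      rw [hp]
      exact Ideal.mem_span_singleton
    exact h1
  have hz : ∀ g, g ≠ 0 → ¬ p ∣ g → val ν (MvPolynomial.aeval y g) = 0 := by
    intro g hg hpg
    exact val_eq_zero (hnn g) (fun h => hpg ((hmem g).1 h))
  have hπ0 : π ≠ 0 := by
    intro h
    rw [h, ν.map_zero] at hπ
    exact absurd hπ (by simp)
  have hπ1 : val ν π = 1 := Api.val_of ν hπ
  obtain ⟨gπ, qπ, hq, hfr⟩ := exists_frac hy π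
  have hgπ : gπ ≠ 0 := by
    intro hg
    exact hπ0 (by rw [hfr, hg, map_zero, zero_div])
  rw [hfr, Api.val_div ν (ae_ne hy hgπ) (ae_ne hy hq)] at hπ1
  have hp0 : p ≠ 0 := by
    intro h
    rw [hz gπ hgπ (by rw [h, zero_dvd_iff]; exact hgπ),
      hz qπ hq (by rw [h, zero_dvd_iff]; exact hq)] at hπ1
    omega
  have hpu : ¬ IsUnit p := by
    intro h
    have h1 := (hmem 1).2 (h.dvd)
    rw [map_one, ν.map_one] at h1
    exact lt_irrefl _ h1
  have hprime : Prime p := by
    refine ⟨hp0, hpu, fun a b hab => ?_⟩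
    by_contra hcon
    rw [not_or] at hcon
    have h1 := (hmem _).2 hab
    have ha := le_antisymm (not_lt.1 (fun h => hcon.1 ((hmem a).1 h))) (hnn a)
    have hb := le_antisymm (not_lt.1 (fun h => hcon.2 ((hmem b).1 h))) (hnn b)
    rw [map_mul, ν.map_mul, ha, hb, add_zero] at h1
    exact lt_irrefl _ h1
  have hdiv : ∀ g : MvPolynomial (Fin 1) K, g ≠ 0 → ∃ k : ℤ, val ν (MvPolynomial.aeval y g) =
      k * val ν (MvPolynomial.aeval y p) := by
    intro g hg
    obtain ⟨q, hgq, hpq⟩ := (FiniteMultiplicity.of_not_isUnit hpu hg).exists_eq_pow_mul_and_not_dvd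
    have hq0 : q ≠ 0 := by
      rintro rfl
      exact hpq (dvd_zero p)
    refine ⟨((multiplicity p g : ℕ) : ℤ), ?_⟩
    have h1 : MvPolynomial.aeval y g =
        MvPolynomial.aeval y p ^ multiplicity p g * MvPolynomial.aeval y q := by
      rw [← map_pow, ← map_mul, ← hgq]
    rw [h1, Api.val_mul ν (pow_ne_zero _ (ae_ne hy hp0)) (ae_ne hy hq0),
      Api.val_pow ν (ae_ne hy hp0), hz q hq0 hpq, add_zero]
  refine ⟨p, hprime, hmem, ?_⟩
  have hpos : 0 < val ν (MvPolynomial.aeval y p) :=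
    (val_pos (ae_ne hy hp0)).2 ((hmem p).2 dvd_rfl)
  obtain ⟨k1, hk1⟩ := hdiv gπ hgπ
  obtain ⟨k2, hk2⟩ := hdiv qπ hq
  have h1 : val ν (MvPolynomial.aeval y p) ∣ 1 := by
    refine ⟨k1 - k2, ?_⟩
    rw [← hπ1, hk1, hk2]
    ring
  exact Int.eq_one_of_dvd_one hpos.le h1

theorem le_iff {y : Fin 1 → F} (hy : GenBy K y) (ν : AddValuation F (WithTop ℤ))
    (hnn : ∀ g : MvPolynomial (Fin 1) K, 0 ≤ ν (MvPolynomial.aeval y g))
    (p : MvPolynomial (Fin 1) K) (hp : Prime p)
    (hmem : ∀ g, 0 < ν (MvPolynomial.aeval y g) ↔ p ∣ g)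
    (h1 : val ν (MvPolynomial.aeval y p) = 1) (g : MvPolynomial (Fin 1) K) (m : ℕ) :
    ((m : ℤ) : WithTop ℤ) ≤ ν (MvPolynomial.aeval y g) ↔ p ^ m ∣ g := by
  by_cases hg : g = 0
  · rw [hg, map_zero, ν.map_zero]
    exact ⟨fun _ => dvd_zero _, fun _ => le_top⟩
  obtain ⟨q, hgq, hpq⟩ := (FiniteMultiplicity.of_not_isUnit hp.not_isUnit
    hg).exists_eq_pow_mul_and_not_dvd
  have hq0 : q ≠ 0 := by
    rintro rfl
    exact hpq (dvd_zero p)
  have h2 : val ν (MvPolynomial.aeval y g) = (multiplicity p g : ℕ) := by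
    have h3 : MvPolynomial.aeval y g =
        MvPolynomial.aeval y p ^ multiplicity p g * MvPolynomial.aeval y q := by
      rw [← map_pow, ← map_mul, ← hgq]
    rw [h3, Api.val_mul ν (pow_ne_zero _ (ae_ne hy hp.ne_zero)) (ae_ne hy hq0),
      Api.val_pow ν (ae_ne hy hp.ne_zero), h1,
      val_eq_zero (hnn q) (fun h => hpq ((hmem q).1 h)), add_zero, mul_one]
  rw [Api.coe_val ν (ae_ne hy hg), WithTop.coe_le_coe, h2, Nat.cast_le]
  constructor
  · intro h
    rw [hgq]
    exact (pow_dvd_pow p h).mul_right q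
  · intro h
    by_contra hlt
    push Not at hlt
    have h4 : p ^ (multiplicity p g + 1) ∣ p ^ multiplicity p g * q := by
      rw [← hgq]
      exact (pow_dvd_pow p hlt).trans h
    rw [pow_succ] at h4
    exact hpq ((mul_dvd_mul_iff_left (pow_ne_zero _ hp.ne_zero)).1 h4)

theorem sum_fin1 (s : Fin 1 →₀ ℕ) : (s.sum fun _ e => e) = s 0 := by
  rw [Finsupp.sum_fintype _ _ (fun _ => rfl), Finset.univ_unique, Finset.sum_singleton]
  rfl

/-- leading term at an infinite place -/
theorem caseB {y : Fin 1 → F} (ν : AddValuation F (WithTop ℤ))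
    (hk : ∀ c : K, 0 ≤ ν (algebraMap K F c)) (h0 : ν (y 0) < 0) (g : MvPolynomial (Fin 1) K)
    (hg : g ≠ 0) : ∃ c : K, c ≠ 0 ∧
      (((g.totalDegree : ℤ) * val ν (y 0) : ℤ) : WithTop ℤ) <
        ν (MvPolynomial.aeval y g - algebraMap K F c * y 0 ^ g.totalDegree) := by
  classical
  have hy0 : y 0 ≠ 0 := by
    intro h
    rw [h, ν.map_zero] at h0
    exact absurd h0 (by simp)
  have ht : val ν (y 0) < 0 := by
    rw [Api.coe_val ν hy0, ← WithTop.coe_zero, WithTop.coe_lt_coe] at h0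
    exact h0
  obtain ⟨s, hs, hsd⟩ := Finset.exists_mem_eq_sup g.support (MvPolynomial.support_nonempty.2 hg)
    (fun s : Fin 1 →₀ ℕ => s.sum fun _ e => e)
  have hsd' : g.totalDegree = s 0 := by
    rw [← sum_fin1 s]
    exact hsd
  have hval : MvPolynomial.aeval y g = ∑ d ∈ g.support, algebraMap K F (g.coeff d) * y 0 ^ (d 0) := by
    rw [MvPolynomial.aeval_def, MvPolynomial.eval₂_eq']
    refine Finset.sum_congr rfl fun d _ => ?_
    rw [Finset.univ_unique, Finset.prod_singleton]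
    rfl
  refine ⟨g.coeff s, MvPolynomial.mem_support_iff.1 hs, ?_⟩
  have h1 : MvPolynomial.aeval y g - algebraMap K F (g.coeff s) * y 0 ^ g.totalDegree =
      ∑ d ∈ g.support.erase s, algebraMap K F (g.coeff d) * y 0 ^ (d 0) := by
    rw [hval, ← Finset.add_sum_erase _ _ hs, hsd']
    ring
  rw [h1]
  refine AddValuation.map_lt_sum ν WithTop.coe_ne_top fun d hd => ?_
  have hd1 : d ∈ g.support := Finset.mem_of_mem_erase hd
  have hd2 : d ≠ s := Finset.ne_of_mem_erase hd
  have hc : g.coeff d ≠ 0 := MvPolynomial.mem_support_iff.1 hd1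
  have hle : d 0 ≤ g.totalDegree := by
    rw [← sum_fin1 d]
    exact MvPolynomial.le_totalDegree hd1
  have hne : d 0 ≠ g.totalDegree := by
    intro h
    refine hd2 (Finsupp.ext fun i => ?_)
    have hi : i = 0 := Subsingleton.elim _ _
    rw [hi, h, hsd']
  have hlt : d 0 < g.totalDegree := lt_of_le_of_ne hle hne
  rw [ν.map_mul, Api.val_algebraMap hk hc, zero_add, Api.coe_val ν (pow_ne_zero _ hy0),
    Api.val_pow ν hy0, WithTop.coe_lt_coe]
  have h2 : ((d 0 : ℕ) : ℤ) < (g.totalDegree : ℤ) := by exact_mod_cast hlt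
  nlinarith

theorem valB {y : Fin 1 → F} (hy : GenBy K y) (ν : AddValuation F (WithTop ℤ))
    (hk : ∀ c : K, 0 ≤ ν (algebraMap K F c)) (h0 : ν (y 0) < 0) (g : MvPolynomial (Fin 1) K)
    (hg : g ≠ 0) : val ν (MvPolynomial.aeval y g) = g.totalDegree * val ν (y 0) := by
  have hy0 : y 0 ≠ 0 := by
    intro h
    rw [h, ν.map_zero] at h0
    exact absurd h0 (by simp)
  obtain ⟨c, hc, h1⟩ := caseB ν hk h0 g hg
  have h2 : ν (algebraMap K F c * y 0 ^ g.totalDegree) =
      (((g.totalDegree : ℤ) * val ν (y 0) : ℤ) : WithTop ℤ) := by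
    rw [ν.map_mul, Api.val_algebraMap hk hc, zero_add, Api.coe_val ν (pow_ne_zero _ hy0),
      Api.val_pow ν hy0]
  have h3 : MvPolynomial.aeval y g = algebraMap K F c * y 0 ^ g.totalDegree +
      (MvPolynomial.aeval y g - algebraMap K F c * y 0 ^ g.totalDegree) := by ring
  rw [← h2] at h1
  have h4 := AddValuation.map_add_eq_of_lt_left ν h1
  rw [← h3, h2] at h4
  exact Api.val_of ν h4

theorem val_inf {y : Fin 1 → F} (hy : GenBy K y) (ν : AddValuation F (WithTop ℤ)) (hν : Plc K ν)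
    (h0 : ν (y 0) < 0) : val ν (y 0) = -1 := by
  have hy0 : y 0 ≠ 0 := by
    intro h
    rw [h, ν.map_zero] at h0
    exact absurd h0 (by simp)
  have ht : val ν (y 0) < 0 := by
    rw [Api.coe_val ν hy0, ← WithTop.coe_zero, WithTop.coe_lt_coe] at h0
    exact h0
  have hB := valB hy ν hν.2 h0
  obtain ⟨⟨π, hπ⟩, hk⟩ := hν
  have hπ0 : π ≠ 0 := by
    intro h
    rw [h, ν.map_zero] at hπ
    exact absurd hπ (by simp)
  have hπ1 : val ν π = 1 := Api.val_of ν hπ
  obtain ⟨gπ, qπ, hq, hfr⟩ := exists_frac hy π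
  have hgπ : gπ ≠ 0 := by
    intro hg
    exact hπ0 (by rw [hfr, hg, map_zero, zero_div])
  rw [hfr, Api.val_div ν (ae_ne hy hgπ) (ae_ne hy hq), hB gπ hgπ, hB qπ hq] at hπ1
  have h1 : -val ν (y 0) ∣ 1 := by
    refine ⟨(qπ.totalDegree : ℤ) - gπ.totalDegree, ?_⟩
    linear_combination -hπ1
  have h2 := Int.eq_one_of_dvd_one (by omega) h1
  omega

/-- rational places -/
theorem rat_of {y : Fin 1 → F} (hy : GenBy K y) (ν : AddValuation F (WithTop ℤ))
    (hk : ∀ c : K, 0 ≤ ν (algebraMap K F c)) (t : F) (ht0 : t ≠ 0) (ht : val ν t ≠ 0)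
    (h : ∀ g : MvPolynomial (Fin 1) K, g ≠ 0 → ∃ (a : ℕ) (w : F) (c : K), c ≠ 0 ∧
      MvPolynomial.aeval y g = t ^ a * w ∧ 0 < ν (w - algebraMap K F c)) : Rtl K ν := by
  intro f hf
  by_cases hpos : 0 < ν f
  · refine ⟨0, ?_⟩
    rw [map_zero, sub_zero]
    exact hpos
  have hf0 : ν f = 0 := le_antisymm (not_lt.1 hpos) hf
  have hfne : f ≠ 0 := by
    intro h0
    rw [h0, ν.map_zero] at hf0
    exact absurd hf0 (by simp)
  obtain ⟨g, q, hq, hfr⟩ := exists_frac hy f
  have hg : g ≠ 0 := by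
    intro hg
    exact hfne (by rw [hfr, hg, map_zero, zero_div])
  obtain ⟨a, w, c, hc, e1, p1⟩ := h g hg
  obtain ⟨b, w', c', hc', e2, p2⟩ := h q hq
  have key : ∀ (v : F) (r : K), r ≠ 0 → 0 < ν (v - algebraMap K F r) → ν v = 0 := by
    intro v r hr hv
    have h1 : v = algebraMap K F r + (v - algebraMap K F r) := by ring
    rw [h1]
    have h2 : ν (algebraMap K F r) < ν (v - algebraMap K F r) := by
      rw [Api.val_algebraMap hk hr]
      exact hv
    rw [AddValuation.map_add_eq_of_lt_left ν h2, Api.val_algebraMap hk hr]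
  have hw := key w c hc p1
  have hw' := key w' c' hc' p2
  have hwne : w ≠ 0 := by
    intro h0
    rw [h0, ν.map_zero] at hw
    exact absurd hw (by simp)
  have hwne' : w' ≠ 0 := by
    intro h0
    rw [h0, ν.map_zero] at hw'
    exact absurd hw' (by simp)
  have hvf : val ν f = 0 := Api.val_of ν hf0
  have hvw : val ν w = 0 := Api.val_of ν hw
  have hvw' : val ν w' = 0 := Api.val_of ν hw'
  have hab : a = b := by
    rw [hfr, Api.val_div ν (ae_ne hy hg) (ae_ne hy hq), e1, e2,
      Api.val_mul ν (pow_ne_zero _ ht0) hwne, Api.val_mul ν (pow_ne_zero _ ht0) hwne',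
      Api.val_pow ν ht0, Api.val_pow ν ht0, hvw, hvw'] at hvf
    have h1 : ((a : ℤ) - b) * val ν t = 0 := by linear_combination hvf
    rcases mul_eq_zero.1 h1 with h2 | h2
    · omega
    · exact absurd h2 ht
  have hfw : f = w / w' := by
    rw [hfr, e1, e2, hab, mul_div_mul_left _ _ (pow_ne_zero _ ht0)]
  have hcne : algebraMap K F c' ≠ 0 := by
    rw [Ne, map_eq_zero]
    exact hc'
  refine ⟨c / c', ?_⟩
  have h1 : ν ((f - algebraMap K F (c / c')) * (w' * algebraMap K F c')) =
      ν (f - algebraMap K F (c / c')) := by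
    rw [ν.map_mul, ν.map_mul, hw', Api.val_algebraMap hk hc', add_zero, add_zero]
  have h2 : (f - algebraMap K F (c / c')) * (w' * algebraMap K F c') =
      (w - algebraMap K F c) * algebraMap K F c' + (-(algebraMap K F c)) *
        (w' - algebraMap K F c') := by
    rw [hfw, map_div₀]
    field_simp
    ring
  rw [← h1, h2]
  refine ν.map_lt_add ?_ ?_
  · rw [ν.map_mul, Api.val_algebraMap hk hc', add_zero]
    exact p1
  · rw [ν.map_mul, ν.map_neg, Api.val_algebraMap hk hc, zero_add]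
    exact p2

theorem dvd_sub_eval (β : K) (g : MvPolynomial (Fin 1) K) :
    (MvPolynomial.X 0 - MvPolynomial.C β) ∣ g - MvPolynomial.C (MvPolynomial.eval (fun _ => β) g) := by
  induction g using MvPolynomial.induction_on with
  | C a =>
    rw [MvPolynomial.eval_C, sub_self]
    exact dvd_zero _
  | add p q hp hq =>
    have h := dvd_add hp hq
    rw [map_add, MvPolynomial.C_add]
    have e : p + q - (MvPolynomial.C (MvPolynomial.eval (fun _ => β) p) +
        MvPolynomial.C (MvPolynomial.eval (fun _ => β) q)) =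
        p - MvPolynomial.C (MvPolynomial.eval (fun _ => β) p) +
          (q - MvPolynomial.C (MvPolynomial.eval (fun _ => β) q)) := by ring
    rw [e]
    exact h
  | mul_X p i hp =>
    have hi : i = 0 := Subsingleton.elim _ _
    subst hi
    rw [map_mul, MvPolynomial.eval_X, MvPolynomial.C_mul]
    have e : p * MvPolynomial.X 0 - MvPolynomial.C (MvPolynomial.eval (fun _ => β) p) *
        MvPolynomial.C β = (p - MvPolynomial.C (MvPolynomial.eval (fun _ => β) p)) *
          MvPolynomial.X 0 + (MvPolynomial.X 0 - MvPolynomial.C β) *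
          MvPolynomial.C (MvPolynomial.eval (fun _ => β) p) := by ring
    rw [e]
    exact dvd_add (hp.mul_right _) (Dvd.intro _ rfl)

end

end XCls

open XCls in
theorem pr_Cls : StCls.{u} := by
  intro K F _ _ _ y hy
  have hX : ∀ (ν : AddValuation F (WithTop ℤ)), ν (MvPolynomial.aeval y
      (MvPolynomial.X 0 : MvPolynomial (Fin 1) K)) = ν (y 0) := by
    intro ν
    rw [MvPolynomial.aeval_X]
  have hC : ∀ (c : K), MvPolynomial.aeval y (MvPolynomial.C c : MvPolynomial (Fin 1) K) =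
      algebraMap K F c := fun c => MvPolynomial.aeval_C _ _
  have hinf : ∀ ν : AddValuation F (WithTop ℤ), Plc K ν → ν (y 0) < 0 →
      ∀ g : MvPolynomial (Fin 1) K, g ≠ 0 →
        val ν (MvPolynomial.aeval y g) = -(g.totalDegree : ℤ) := by
    intro ν hν h0 g hg
    rw [valB hy ν hν.2 h0 g hg, val_inf hy ν hν h0]
    ring
  have hfin : ∀ (p : MvPolynomial (Fin 1) K) (ν : AddValuation F (WithTop ℤ)), OrdP y p ν →
      Plc K ν ∧ 0 ≤ ν (y 0) := by
    intro p ν hp
    have hnn : ∀ g : MvPolynomial (Fin 1) K, 0 ≤ ν (MvPolynomial.aeval y g) := by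
      intro g
      have h1 := (hp.2 g 0).2 (by rw [pow_zero]; exact one_dvd g)
      simpa using h1
    refine ⟨⟨⟨MvPolynomial.aeval y p, ?_⟩, fun c => ?_⟩, ?_⟩
    · have h1 := (hp.2 p 1).2 (by rw [pow_one])
      have h2 : ¬ (((2 : ℕ) : ℤ) : WithTop ℤ) ≤ ν (MvPolynomial.aeval y p) := by
        intro h
        have h3 := (hp.2 p 2).1 h
        rw [pow_two] at h3
        have h4 : p * p ∣ p * 1 := by rw [mul_one]; exact h3
        have h5 := (mul_dvd_mul_iff_left hp.1.ne_zero).1 h4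
        exact hp.1.not_isUnit (isUnit_of_dvd_one h5)
      rw [Api.coe_val ν (ae_ne hy hp.1.ne_zero), WithTop.coe_le_coe] at h1 h2
      have h3 : val ν (MvPolynomial.aeval y p) = 1 := by
        push_cast at h1 h2
        omega
      rw [Api.coe_val ν (ae_ne hy hp.1.ne_zero), h3]
      rfl
    · rw [← hC]
      exact hnn _
    · rw [← hX]
      exact hnn _
  refine ⟨?_, hfin, ?_, ?_, ?_, ?_⟩
  · intro ν hν
    by_cases h0 : 0 ≤ ν (y 0)
    · left
      refine ⟨h0, ?_⟩
      obtain ⟨p, hp, hmem, h1⟩ := caseA hy ν hν h0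
      exact ⟨p, hp.irreducible, fun g m =>
        le_iff hy ν (aeval_nonneg ν hν.2 h0) p hp hmem h1 g m⟩
    · right
      have h0' : ν (y 0) < 0 := not_le.1 h0
      refine ⟨h0', fun g hg => ?_⟩
      rw [Api.coe_val ν (ae_ne hy hg), hinf ν hν h0' g hg]
  · intro ν hν
    have h1 := hν (MvPolynomial.X 0) (MvPolynomial.X_ne_zero 0)
    rw [hX, MvPolynomial.totalDegree_X] at h1
    have h2 : ν (y 0) = ((-1 : ℤ) : WithTop ℤ) := h1
    have hy0 : y 0 ≠ 0 := by
      intro h
      rw [h, ν.map_zero] at h2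
      exact WithTop.top_ne_coe h2
    refine ⟨⟨⟨(y 0)⁻¹, ?_⟩, fun c => ?_⟩, ?_⟩
    · rw [Api.coe_val ν (inv_ne_zero hy0), Api.val_inv ν hy0, Api.val_of ν h2]
      rfl
    · by_cases hc : c = 0
      · rw [hc, map_zero, ν.map_zero]
        exact le_top
      · rw [← hC, hν _ (by rw [Ne, MvPolynomial.C_eq_zero]; exact hc), MvPolynomial.totalDegree_C]
        exact le_refl _
    · rw [h2, ← WithTop.coe_zero, WithTop.coe_lt_coe]
      omega
  · intro p ν ν' hp hν' h0 hpos
    obtain ⟨p', hp', hmem, h1⟩ := caseA hy ν' hν' h0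
    have hass : Associated p' p :=
      hp'.irreducible.associated_of_dvd hp.1 ((hmem p).1 hpos)
    refine ext_of hy ν' ν fun g hg => ?_
    have h2 : ∀ m : ℕ, (m : ℤ) ≤ val ν' (MvPolynomial.aeval y g) ↔
        (m : ℤ) ≤ val ν (MvPolynomial.aeval y g) := by
      intro m
      rw [le_val (ae_ne hy hg), le_val (ae_ne hy hg), hp.2,
        le_iff hy ν' (aeval_nonneg ν' hν'.2 h0) p' hp' hmem h1 g m]
      exact (hass.pow_pow (n := m)).dvd_iff_dvd_left
    have h3 := (h2 0).2
    have h4 := (h2 0).1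
    have h5 : 0 ≤ val ν' (MvPolynomial.aeval y g) :=
      (Api.val_nonneg ν' (ae_ne hy hg)).2 (aeval_nonneg ν' hν'.2 h0 g)
    have h6 : 0 ≤ val ν (MvPolynomial.aeval y g) := by
      have := h4 (by exact_mod_cast h5)
      exact_mod_cast this
    have h7 := (h2 (val ν' (MvPolynomial.aeval y g)).toNat).1 (by omega)
    have h8 := (h2 (val ν (MvPolynomial.aeval y g)).toNat).2 (by omega)
    omega
  · intro ν ν' hν hν' h0 h0'
    refine ext_of hy ν ν' fun g hg => ?_
    rw [hinf ν hν h0 g hg, hinf ν' hν' h0' g hg]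
  · intro ν hν hor
    by_cases h0 : ν (y 0) < 0
    · have hy0 : y 0 ≠ 0 := by
        intro h
        rw [h, ν.map_zero] at h0
        exact absurd h0 (by simp)
      have hv := val_inf hy ν hν h0
      refine rat_of hy ν hν.2 (y 0) hy0 (by rw [hv]; decide) fun g hg => ?_
      obtain ⟨c, hc, h1⟩ := caseB ν hν.2 h0 g hg
      have hpow : y 0 ^ g.totalDegree ≠ 0 := pow_ne_zero _ hy0
      refine ⟨g.totalDegree, MvPolynomial.aeval y g / y 0 ^ g.totalDegree, c, hc, ?_, ?_⟩
      · rw [mul_div_cancel₀ _ hpow]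
      · have e : MvPolynomial.aeval y g / y 0 ^ g.totalDegree - algebraMap K F c =
            (MvPolynomial.aeval y g - algebraMap K F c * y 0 ^ g.totalDegree) /
              y 0 ^ g.totalDegree := by
          field_simp
        by_cases hd : MvPolynomial.aeval y g - algebraMap K F c * y 0 ^ g.totalDegree = 0
        · rw [e, hd, zero_div, ν.map_zero]
          exact WithTop.coe_lt_top 0
        · rw [Api.coe_val ν hd, WithTop.coe_lt_coe] at h1
          rw [e, Api.coe_val ν (div_ne_zero hd hpow), Api.val_div ν hd hpow, Api.val_pow ν hy0,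
            ← WithTop.coe_zero, WithTop.coe_lt_coe]
          omega
    · obtain ⟨β, hβ⟩ := hor.resolve_left h0
      have h0' : 0 ≤ ν (y 0) := not_lt.1 h0
      have hnn := aeval_nonneg ν hν.2 h0'
      set q : MvPolynomial (Fin 1) K := MvPolynomial.X 0 - MvPolynomial.C β with hq
      have hqv : MvPolynomial.aeval y q = y 0 - algebraMap K F β := by
        rw [hq, map_sub, MvPolynomial.aeval_X, hC]
      have hqne : q ≠ 0 := by
        intro h
        have h1 := congrArg (MvPolynomial.eval (fun _ : Fin 1 => β + 1)) h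
        rw [hq, map_sub, MvPolynomial.eval_X, MvPolynomial.eval_C, map_zero] at h1
        simp at h1
      have hqu : ¬ IsUnit q := by
        intro h
        obtain ⟨r, hr⟩ := h.exists_right_inv
        have h1 : ν (MvPolynomial.aeval y (q * r)) =
            ν (MvPolynomial.aeval y (1 : MvPolynomial (Fin 1) K)) := by rw [hr]
        rw [map_mul, ν.map_mul, map_one, ν.map_one, hqv] at h1
        have h2 : 0 < ν (y 0 - algebraMap K F β) + ν (MvPolynomial.aeval y r) :=
          add_pos' hβ (hnn r)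
        rw [h1] at h2
        exact lt_irrefl _ h2
      have ht0 : y 0 - algebraMap K F β ≠ 0 := by
        rw [← hqv]
        exact ae_ne hy hqne
      refine rat_of hy ν hν.2 (y 0 - algebraMap K F β) ht0 ?_ fun g hg => ?_
      · exact ((val_pos ht0).2 hβ).ne'
      · obtain ⟨g1, hg1, hd⟩ := (FiniteMultiplicity.of_not_isUnit hqu
          hg).exists_eq_pow_mul_and_not_dvd
        have h2 := dvd_sub_eval β g1
        rw [← hq] at h2
        refine ⟨multiplicity q g, MvPolynomial.aeval y g1, MvPolynomial.eval (fun _ => β) g1,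
          ?_, ?_, ?_⟩
        · intro hz
          rw [hz, MvPolynomial.C_0, sub_zero] at h2
          exact hd h2
        · rw [← hqv, ← map_pow, ← map_mul, ← hg1]
        · obtain ⟨r, hr⟩ := h2
          rw [← hC, ← map_sub, hr, map_mul, ν.map_mul, hqv]
          exact add_pos' hβ (hnn r)

end Pool.Agent.Work.MP_a2680c_ag.HA
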