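import Pool.Agent.Work.MP_a2680c_ag.HA.StmtsG

/-!
# MP_a2680c_ag, block HA, item Cmp: a valuation of `F'` over given valuations of `F` and `K'`
-/

set_option autoImplicit false

noncomputable section

namespace Pool.Agent.Work.MP_a2680c_ag.HA

open MP7b66e6 MP7b66e6.Q
open scoped BigOperators

universe u

namespace XCmp

theorem coeff_pos {E : Type u} [Field E] (W : AddValuation E (WithTop ℤ)) (s : Multiset E) :
    (∀ r ∈ s, 0 < W r) →
    (∀ j, 0 ≤ W ((s.map fun r => Polynomial.X - Polynomial.C r).prod.coeff j)) ∧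
    ∀ j < Multiset.card s, 0 < W ((s.map fun r => Polynomial.X - Polynomial.C r).prod.coeff j) := by
  induction s using Multiset.induction_on with
  | empty =>
    intro _
    refine ⟨fun j => ?_, fun j hj => absurd hj (by simp)⟩
    rw [Multiset.map_zero, Multiset.prod_zero, Polynomial.coeff_one]
    split_ifs
    · rw [AddValuation.map_one]
    · rw [AddValuation.map_zero]
      exact le_top
  | cons a s ih =>
    intro hs
    have ha : 0 < W a := hs a (Multiset.mem_cons_self a s)
    obtain ⟨h1, h2⟩ := ih fun r hr => hs r (Multiset.mem_cons_of_mem hr)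
    rw [Multiset.map_cons, Multiset.prod_cons]
    set Q := (s.map fun r => Polynomial.X - Polynomial.C r).prod with hQ
    have hz : ((Polynomial.X - Polynomial.C a) * Q).coeff 0 = - (a * Q.coeff 0) := by
      rw [Polynomial.mul_coeff_zero]
      simp
    have hsc : ∀ i, ((Polynomial.X - Polynomial.C a) * Q).coeff (i + 1) =
        Q.coeff i - a * Q.coeff (i + 1) := by
      intro i
      rw [sub_mul, Polynomial.coeff_sub, Polynomial.coeff_X_mul, Polynomial.coeff_C_mul]
    have haQ : ∀ i, 0 < W (a * Q.coeff i) := by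
      intro i
      rw [AddValuation.map_mul]
      exact add_pos_of_pos_of_nonneg ha (h1 i)
    refine ⟨fun j => ?_, fun j hj => ?_⟩
    · rcases j with _ | i
      · rw [hz, AddValuation.map_neg]
        exact (haQ 0).le
      · rw [hsc]
        exact le_trans (le_min (h1 i) (haQ (i + 1)).le) (AddValuation.map_sub W _ _)
    · rcases j with _ | i
      · rw [hz, AddValuation.map_neg]
        exact haQ 0
      · rw [hsc]
        rw [Multiset.card_cons] at hj
        exact lt_of_lt_of_le (lt_min (h2 i (by omega)) (haQ (i + 1))) (AddValuation.map_sub W _ _)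

theorem coeff_minpoly {F F' : Type u} [Field F] [Field F'] [Algebra F F'] [FiniteDimensional F F']
    [IsGalois F F'] (W : AddValuation F' (WithTop ℤ)) (Θ : F')
    (hg : ∀ g : F' ≃ₐ[F] F', 0 < W (g Θ)) :
    ∀ j < (minpoly F Θ).natDegree, 0 < W (algebraMap F F' ((minpoly F Θ).coeff j)) := by
  have hint : IsIntegral F Θ := Algebra.IsIntegral.isIntegral Θ
  have hmon : (minpoly F Θ).Monic := minpoly.monic hint
  have hsp : ((minpoly F Θ).map (algebraMap F F')).Splits := Normal.splits inferInstance Θ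
  have hprod := hsp.eq_prod_roots_of_monic (hmon.map _)
  have hcard := hsp.natDegree_eq_card_roots
  have hroots : ∀ r ∈ ((minpoly F Θ).map (algebraMap F F')).roots, 0 < W r := by
    intro r hr
    have hr' := Polynomial.isRoot_of_mem_roots hr
    rw [Polynomial.IsRoot.def, Polynomial.eval_map_algebraMap] at hr'
    obtain ⟨σ, hσ⟩ := minpoly.exists_algEquiv_of_root' (Algebra.IsAlgebraic.isAlgebraic Θ) hr'
    rw [← hσ]
    exact hg σ
  intro j hj
  have h1 := (coeff_pos W _ hroots).2 j (by
    rw [← hcard, Polynomial.natDegree_map]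
    exact hj)
  rw [← hprod, Polynomial.coeff_map] at h1
  exact h1

theorem lift_coeff {K F K' F' : Type u} [Field K] [Field F] [Field K'] [Field F'] [Algebra K F] [Algebra K K']
    [Algebra K F'] [Algebra F F'] [Algebra K' F'] [IsScalarTower K F F'] [IsScalarTower K K' F']
    [FiniteDimensional K K'] [FiniteDimensional F F']
    (hconn : ∀ f : F, IsAlgebraic K f → ∃ c : K, algebraMap K F c = f) (θ : K') (j : ℕ) :
    ∃ b : K, algebraMap K F b = (minpoly F (algebraMap K' F' θ)).coeff j := by
  apply hconn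
  have hint : IsIntegral F (algebraMap K' F' θ) := Algebra.IsIntegral.isIntegral _
  have hθ : IsIntegral K θ := Algebra.IsIntegral.isIntegral _
  have hdvd : minpoly F (algebraMap K' F' θ) ∣ (minpoly K θ).map (algebraMap K F) := by
    apply minpoly.dvd
    rw [Polynomial.aeval_map_algebraMap, Polynomial.aeval_algebraMap_apply, minpoly.aeval, map_zero]
  have hlift := integralClosure.mem_lifts_of_monic_of_dvd_map F (minpoly.monic hθ) (minpoly.monic hint) hdvd
  rw [Polynomial.lifts_iff_coeff_lifts] at hlift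
  obtain ⟨c, hc⟩ := hlift j
  rw [← hc]
  exact (c.2 : IsIntegral K (c : F)).isAlgebraic

theorem core {K F K' F' : Type u} [Field K] [Field F] [Field K'] [Field F'] [Algebra K F] [Algebra K K']
    [Algebra K F'] [Algebra F F'] [Algebra K' F'] [IsScalarTower K F F'] [IsScalarTower K K' F']
    [FiniteDimensional K K'] [FiniteDimensional F F'] [IsGalois F F']
    (hconn : ∀ f : F, IsAlgebraic K f → ∃ c : K, algebraMap K F c = f)
    (v : AddValuation K (WithTop ℤ)) (W : AddValuation F (WithTop ℤ)) (v' : AddValuation K' (WithTop ℤ))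
    (W₀ : AddValuation F' (WithTop ℤ)) (m ε η : ℕ) (hvW : Lies v W m) (hvv : Lies v v' ε) (hWW : Lies W W₀ η)
    (θ : K') (hθ : v' θ = 0) (hg : ∀ g : F' ≃ₐ[F] F', 0 < W₀ (g (algebraMap K' F' θ))) : False := by
  have hint : IsIntegral F (algebraMap K' F' θ) := Algebra.IsIntegral.isIntegral _
  have hmon := minpoly.monic hint
  have hpos := coeff_minpoly W₀ (algebraMap K' F' θ) hg
  choose b hb using lift_coeff hconn θ (F' := F')
  set P := minpoly F (algebraMap K' F' θ) with hP
  have hbv : ∀ j < P.natDegree, 0 < v' (algebraMap K K' (b j)) := by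
    intro j hj
    by_cases h0 : b j = 0
    · rw [h0, map_zero, AddValuation.map_zero]
      exact WithTop.coe_lt_top 0
    have h1 := hpos j hj
    rw [← hb j] at h1
    have n1 : algebraMap K F (b j) ≠ 0 := by
      rw [map_ne_zero_iff _ (algebraMap K F).injective]
      exact h0
    have n2 : algebraMap F F' (algebraMap K F (b j)) ≠ 0 := by
      rw [map_ne_zero_iff _ (algebraMap F F').injective]
      exact n1
    have n3 : algebraMap K K' (b j) ≠ 0 := by
      rw [map_ne_zero_iff _ (algebraMap K K').injective]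
      exact h0
    rw [Api.coe_val W₀ n2, ← WithTop.coe_zero, WithTop.coe_lt_coe, hWW.2 _ n1, hvW.2 _ h0] at h1
    rw [Api.coe_val v' n3, ← WithTop.coe_zero, WithTop.coe_lt_coe, hvv.2 _ h0]
    have hη : (0 : ℤ) < η := by exact_mod_cast hWW.1
    have hm : (0 : ℤ) < m := by exact_mod_cast hvW.1
    have hε : (0 : ℤ) < ε := by exact_mod_cast hvv.1
    have h2 := (mul_pos_iff_of_pos_left hη).1 h1
    have h3 := (mul_pos_iff_of_pos_left hm).1 h2
    exact mul_pos hε h3
  have hrel : ∑ j ∈ Finset.range (P.natDegree + 1), algebraMap K K' (b j) * θ ^ j = 0 := by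
    apply (algebraMap K' F').injective
    rw [map_sum, map_zero]
    have h0 := minpoly.aeval F (algebraMap K' F' θ)
    rw [Polynomial.aeval_eq_sum_range] at h0
    rw [← h0]
    refine Finset.sum_congr rfl fun j _ => ?_
    rw [map_mul, map_pow, Algebra.smul_def, ← hP, ← hb j, ← IsScalarTower.algebraMap_apply K F F',
      ← IsScalarTower.algebraMap_apply K K' F']
  rw [Finset.sum_range_succ] at hrel
  have hlead : b P.natDegree = 1 := (algebraMap K F).injective (by
    rw [hb, map_one]
    exact hmon.coeff_natDegree)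
  rw [hlead, map_one, one_mul] at hrel
  have e1 : v' (θ ^ P.natDegree) = 0 := by rw [AddValuation.map_pow, hθ, smul_zero]
  have e2 : 0 < v' (∑ j ∈ Finset.range P.natDegree, algebraMap K K' (b j) * θ ^ j) := by
    refine AddValuation.map_lt_sum v' (WithTop.coe_ne_top (a := (0 : ℤ))) fun j hj => ?_
    rw [AddValuation.map_mul, AddValuation.map_pow, hθ, smul_zero, add_zero]
    exact hbv j (Finset.mem_range.1 hj)
  have e3 : θ ^ P.natDegree = - ∑ j ∈ Finset.range P.natDegree, algebraMap K K' (b j) * θ ^ j :=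
    eq_neg_of_add_eq_zero_right hrel
  rw [e3, AddValuation.map_neg] at e1
  rw [e1] at e2
  exact lt_irrefl _ e2

theorem nontriv {K K' : Type u} [Field K] [Field K'] [Algebra K K'] [FiniteDimensional K K']
    (v : AddValuation K (WithTop ℤ)) (v' : AddValuation K' (WithTop ℤ)) (ε : ℕ) (hvv : Lies v v' ε)
    (hπ : ∃ π : K', v' π = 1) : ∃ f : K, f ≠ 0 ∧ val v f ≠ 0 := by
  obtain ⟨π, hπ⟩ := hπ
  have hπ0 : π ≠ 0 := by
    intro h0
    rw [h0, AddValuation.map_zero] at hπ
    exact absurd hπ (by simp)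
  by_contra hcon
  have hz : ∀ f : K, f ≠ 0 → v' (algebraMap K K' f) = 0 := by
    intro f hf
    have n3 : algebraMap K K' f ≠ 0 := by
      rw [map_ne_zero_iff _ (algebraMap K K').injective]
      exact hf
    have h1 : val v f = 0 := by
      by_contra h2
      exact hcon ⟨f, hf, h2⟩
    rw [Api.coe_val v' n3, hvv.2 _ hf, h1, mul_zero]
    rfl
  have hnn : ∀ f : K, 0 ≤ v' (algebraMap K K' f) := by
    intro f
    by_cases hf : f = 0
    · rw [hf, map_zero, AddValuation.map_zero]
      exact le_top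
    · rw [hz f hf]
  have hint : IsIntegral K π := Algebra.IsIntegral.isIntegral π
  have hc0 : (minpoly K π).coeff 0 ≠ 0 := minpoly.coeff_zero_ne_zero hint hπ0
  have h0 := minpoly.aeval K π
  rw [Polynomial.aeval_eq_sum_range, Finset.sum_range_succ'] at h0
  have e2 : 0 < v' (∑ j ∈ Finset.range (minpoly K π).natDegree, (minpoly K π).coeff (j + 1) • π ^ (j + 1)) := by
    refine AddValuation.map_lt_sum v' (WithTop.coe_ne_top (a := (0 : ℤ))) fun j _ => ?_
    rw [Algebra.smul_def, AddValuation.map_mul, AddValuation.map_pow, hπ]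
    refine lt_of_lt_of_le ?_ (le_add_of_nonneg_left (hnn _))
    rw [nsmul_one]
    exact_mod_cast Nat.succ_pos j
  have e3 := eq_neg_of_add_eq_zero_right h0
  rw [Algebra.smul_def, pow_zero, mul_one] at e3
  have e1 := hz _ hc0
  rw [e3, AddValuation.map_neg] at e1
  rw [e1] at e2
  exact lt_irrefl _ e2

end XCmp

theorem pr_Cmp (hEXT : StEXT.{u, u, u}) (hAPX : StAPX.{u}) (hNOR : MgNOR.{u}) (hCgd : StCgd.{u}) : StCmp.{u} := by
  intro k K F K' F' _ _ _ _ _ _ _ _ _ _ _ _ _ _ _ _ _ _ _ _ _ _ _ _ hconn v W v' m ε hdW hvW hπ hvv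
  classical
  obtain ⟨W₀, η, hdW₀, hWW⟩ := hEXT k F F' W hdW
  obtain ⟨f₀, hf₀, hv₀⟩ := XCmp.nontriv v v' ε hvv hπ
  have hnt : ∀ g : F' ≃ₐ[F] F', ∃ f : K', f ≠ 0 ∧ Api.res K' (cg g W₀) f ≠ 0 := by
    intro g
    have n1 : algebraMap K F f₀ ≠ 0 := by
      rw [map_ne_zero_iff _ (algebraMap K F).injective]
      exact hf₀
    have n3 : algebraMap K K' f₀ ≠ 0 := by
      rw [map_ne_zero_iff _ (algebraMap K K').injective]
      exact hf₀
    refine ⟨algebraMap K K' f₀, n3, ?_⟩
    rw [Api.res_apply, ← IsScalarTower.algebraMap_apply K K' F', IsScalarTower.algebraMap_apply K F F']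
    have n2 : algebraMap F F' (algebraMap K F f₀) ≠ 0 := by
      rw [map_ne_zero_iff _ (algebraMap F F').injective]
      exact n1
    rw [Api.coe_val _ n2, (Api.lies_cg hWW g).2 _ n1, hvW.2 _ hf₀]
    intro h
    have h' : (η : ℤ) * (m * val v f₀) = 0 := by exact_mod_cast h
    have hη : (η : ℤ) ≠ 0 := by exact_mod_cast hWW.1.ne'
    have hm : (m : ℤ) ≠ 0 := by exact_mod_cast hvW.1.ne'
    exact mul_ne_zero hη (mul_ne_zero hm hv₀) h'
  choose e ν he hνπ hν using fun g => hNOR K' (Api.res K' (cg g W₀)) (hnt g)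
  by_cases hex : ∃ g, ν g = v'
  · obtain ⟨g, hg⟩ := hex
    refine ⟨cg g W₀, η, (e g).toNat, hCgd k F F' g W₀ hdW₀, Api.lies_cg hWW g, ?_, ?_⟩
    · have := he g
      omega
    · intro f hf
      have h1 := ((hν g f (val v' f)).1).1 (by
        rw [hg]
        exact Api.coe_val v' hf)
      have h2 := Api.val_of _ h1
      rw [Int.toNat_of_nonneg (he g).le]
      exact h2
  · obtain ⟨θ, hθ1, hθ2⟩ := hAPX K' (Fin (Fintype.card (F' ≃ₐ[F] F'))) v'
      (fun i => ν ((Fintype.equivFin (F' ≃ₐ[F] F')).symm i)) hπ (fun i => hνπ _)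
      (fun i h => hex ⟨_, h⟩) 1
    have hθ : v' θ = 0 := by
      have h1 : θ = 1 + (θ - 1) := by ring
      have h2 : v' (1 : K') < v' (θ - 1) := by
        rw [AddValuation.map_one]
        refine lt_of_lt_of_le ?_ hθ1
        exact_mod_cast Nat.one_pos
      rw [h1, AddValuation.map_add_eq_of_lt_left v' h2, AddValuation.map_one]
    refine (XCmp.core hconn v W v' W₀ m ε η hvW hvv hWW θ hθ fun g => ?_).elim
    have h2 := hθ2 (Fintype.equivFin (F' ≃ₐ[F] F') g)
    rw [Equiv.symm_apply_apply] at h2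
    have h3 := ((hν g θ 1).2).1 (by exact_mod_cast h2)
    refine lt_of_lt_of_le ?_ h3
    rw [mul_one, ← WithTop.coe_zero, WithTop.coe_lt_coe]
    exact he g

end Pool.Agent.Work.MP_a2680c_ag.HA

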