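import Pool.Agent.Work.MP_a2680c_ag.HA.StmtsX

/-! [a2680c HA Cnb] (helper9): conics are covers of bounded degree. -/

set_option autoImplicit false

noncomputable section

namespace Pool.Agent.Work.MP_a2680c_ag.HA

open MP7b66e6 MP7b66e6.Q
open scoped BigOperators

universe u

theorem pr_Cnb (hFid : StFid) (hKeb : StKeb.{u}) (hFnp : StFnp.{u}) (hCvc : StCvc.{u}) (hSpl : StSpl.{u})
    (hDsc : StDsc.{u}) : StCnb.{u} := by
  classical
  intro I hI hD
  obtain ⟨N₀, hN₀⟩ := (hFid 1 I hI hD).1
  refine ⟨N₀.factorial, Nat.factorial_pos N₀, ?_⟩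
  intro κ k K E _ _ _ _ _ _ _ _ e r c Z Y 𝔻 L Φ hF hY hcoef
  have hconn := hY.rat.1
  obtain ⟨hdiv, hfin⟩ := hFnp κ k K E e r c Z Y 𝔻 L Φ hF hY.vy hY.mor hY.prp
  haveI : CharZero K := charZero_of_injective_algebraMap (algebraMap k K).injective
  obtain ⟨K₂, F₂, _, _, _, _, _, _, _, _, _, _, _, _, y₂, hspt⟩ :=
    hSpl K E hY.rat {w : AddValuation E (WithTop ℤ) | Plc K w ∧ 𝔻 w ≠ 0} hfin (fun w hw => hw.1)
  obtain ⟨hpos, hle⟩ : 0 < (Abv K₂ {w : AddValuation E (WithTop ℤ) | Plc K w ∧ 𝔻 w ≠ 0} :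
      Set (AddValuation F₂ (WithTop ℤ))).ncard ∧
      (Abv K₂ {w : AddValuation E (WithTop ℤ) | Plc K w ∧ 𝔻 w ≠ 0} : Set (AddValuation F₂ (WithTop ℤ))).ncard ≤ N₀ := by
    letI : Algebra k K₂ := ((algebraMap K K₂).comp (algebraMap k K)).toAlgebra
    letI : Algebra k F₂ := ((algebraMap K F₂).comp (algebraMap k K)).toAlgebra
    haveI : IsScalarTower k K K₂ := IsScalarTower.of_algebraMap_eq fun _ => rfl
    haveI : IsScalarTower k K F₂ := IsScalarTower.of_algebraMap_eq fun _ => rfl
    haveI : IsScalarTower k K₂ F₂ := IsScalarTower.of_algebraMap_eq fun x => by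
      change algebraMap K F₂ (algebraMap k K x) = algebraMap K₂ F₂ (algebraMap K K₂ (algebraMap k K x))
      rw [← IsScalarTower.algebraMap_apply K K₂ F₂]
    haveI : IsScalarTower k E F₂ := IsScalarTower.of_algebraMap_eq fun x => by
      change algebraMap K F₂ (algebraMap k K x) = algebraMap E F₂ (algebraMap k E x)
      rw [IsScalarTower.algebraMap_apply k K E, ← IsScalarTower.algebraMap_apply K E F₂]
    obtain ⟨N, a, d, hcvd, hN⟩ := hCvc k K E K₂ F₂ (max (Module.finrank K K₂) (Module.finrank E F₂)) I 𝔻 y₂ hconn hdiv hfin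
      hcoef hspt (le_max_left _ _) (le_max_right _ _)
    obtain ⟨Ξ, J, hkey⟩ := hKeb κ k K E K₂ F₂ _ e 1 N I r c y₂ Z 𝔻 L Φ a d le_rfl hF hcvd
    rw [← hN]
    constructor
    · rcases Nat.eq_zero_or_pos N with h0 | h0
      · exfalso
        subst h0
        have := hkey.1
        rw [Finset.univ_eq_empty, Finset.sum_empty] at this
        push_cast at this
        linarith
      · exact h0
    · exact hN₀ N d hcvd.mem hkey.1
  obtain ⟨K', F', _, _, _, _, _, _, _, _, _, _, _, _, y', hspt', hdK, hdF⟩ := hDsc K E K₂ F₂ hconn _ y₂ hspt N₀ hpos hle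
  letI : Algebra k K' := ((algebraMap K K').comp (algebraMap k K)).toAlgebra
  letI : Algebra k F' := ((algebraMap K F').comp (algebraMap k K)).toAlgebra
  haveI : IsScalarTower k K K' := IsScalarTower.of_algebraMap_eq fun _ => rfl
  haveI : IsScalarTower k K F' := IsScalarTower.of_algebraMap_eq fun _ => rfl
  haveI : IsScalarTower k K' F' := IsScalarTower.of_algebraMap_eq fun x => by
    change algebraMap K F' (algebraMap k K x) = algebraMap K' F' (algebraMap K K' (algebraMap k K x))
    rw [← IsScalarTower.algebraMap_apply K K' F']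
  haveI : IsScalarTower k E F' := IsScalarTower.of_algebraMap_eq fun x => by
    change algebraMap K F' (algebraMap k K x) = algebraMap E F' (algebraMap k E x)
    rw [IsScalarTower.algebraMap_apply k K E, ← IsScalarTower.algebraMap_apply K E F']
  obtain ⟨N, a, d, hcvd, _⟩ := hCvc k K E K' F' N₀.factorial I 𝔻 y' hconn hdiv hfin hcoef hspt' hdK hdF
  exact ⟨K', F', inferInstance, inferInstance, inferInstance, inferInstance, inferInstance, inferInstance, inferInstance,
    inferInstance, inferInstance, inferInstance, inferInstance, inferInstance, inferInstance, inferInstance, inferInstance,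
    inferInstance, inferInstance, y', N, a, d, hcvd⟩

end Pool.Agent.Work.MP_a2680c_ag.HA
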