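import Pool.Agent.Work.MP_a2680c_ag.HA.StmtsW

/-! Item [a2680c HA Cnt]: centres of valuations over `Z`. -/

set_option autoImplicit false

noncomputable section

namespace Pool.Agent.Work.MP_a2680c_ag.HA

open MP7b66e6 MP7b66e6.Q
open scoped BigOperators

universe u

theorem pr_Cnt (hLoc : StLoc.{u}) : StCnt.{u} := by
  intro k K E _ _ _ _ _ _ _ Z hZ
  have h1 : ∀ v : AddValuation K (WithTop ℤ), (∃ P ∈ Z, ∀ f ∈ P, 0 ≤ v f) →
      ∃ O ∈ Z, Cen O v := by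
    rintro v ⟨P, hP, hv⟩
    obtain ⟨R, hR, -, hc, -⟩ := (hLoc k K Z hZ).2.1 P hP v hv
    exact ⟨R, hR, hc⟩
  refine ⟨h1, fun Y hY w hw => ?_⟩
  obtain ⟨P, hP, hwP⟩ := hw
  obtain ⟨P', hP', hc⟩ := h1 (Api.res K w) ⟨P, hP, hwP⟩
  have hwk : ∀ c : k, 0 ≤ w (algebraMap k E c) := by
    intro c
    rw [IsScalarTower.algebraMap_apply k K E]
    exact hwP _ (P.algebraMap_mem c)
  have hdom : Dom P' (Api.ring w hwk) := by
    intro f hf
    refine ⟨hc.1 f hf, fun h0 hi => ?_⟩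
    have hi' : 0 ≤ w ((algebraMap K E f)⁻¹) := hi
    have hne : algebraMap K E f ≠ 0 := by simpa using h0
    have a1 : 0 ≤ w (algebraMap K E f) := hc.1 f hf
    refine hc.2 f hf ?_
    show w (algebraMap K E f) = 0
    rw [← Api.val_nonneg w hne] at a1
    rw [← Api.val_nonneg w (inv_ne_zero hne), Api.val_inv w hne] at hi'
    rw [Api.coe_val w hne, show val w (algebraMap K E f) = 0 by omega]
    rfl
  obtain ⟨O, hO, hOV⟩ := hY _ (Api.isVal_ring w hwk) ⟨P', hP', hdom⟩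
  exact ⟨O, hO, (Api.dom_ring_iff w hwk O).1 hOV⟩

end Pool.Agent.Work.MP_a2680c_ag.HA
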