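import Pool.Agent.Work.MP_a2680c_ag.HA.StmtsB

/-!
# MP_a2680c_ag, item Cor: the dual derivations of the coordinates `r, z` of `F = K(z)`
-/

set_option autoImplicit false

namespace Pool.Agent.Work.MP_a2680c_ag.HA

open MP7b66e6 MP7b66e6.Q
open scoped BigOperators

universe u

namespace XCor

section
variable {k K F : Type u} [Field k] [Field K] [Field F] [Algebra k K] [Algebra k F] [Algebra K F]
  [IsScalarTower k K F]

/-- The restriction of a derivation of `F` to `K`. -/
def res (E : Derivation k F F) : Derivation k K F where
  toFun := fun x => E (algebraMap K F x)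
  map_add' := fun x y => by rw [map_add, map_add]
  map_smul' := fun c x => by
    rw [RingHom.id_apply, Algebra.smul_def, map_mul, ← IsScalarTower.algebraMap_apply,
      ← Algebra.smul_def, E.map_smul]
  map_one_eq_zero' := by
    show E (algebraMap K F 1) = 0
    rw [map_one, E.map_one_eq_zero]
  leibniz' := fun x y => by
    show E (algebraMap K F (x * y)) = x • E (algebraMap K F y) + y • E (algebraMap K F x)
    rw [map_mul, E.leibniz, Algebra.smul_def x, Algebra.smul_def y, smul_eq_mul, smul_eq_mul]

theorem res_apply (E : Derivation k F F) (x : K) : res E x = E (algebraMap K F x) := rfl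

omit [IsScalarTower k K F] in
/-- a derivation which kills the generators kills everything algebraic over them -/
theorem killAlg (S : Subalgebra k K) [CharZero K] (hS : Algebra.IsAlgebraic S K)
    (E : Derivation k K F) (hE : ∀ s : S, E s = 0) (f : K) : E f = 0 := by
  let EK : Derivation S K F :=
    { toFun := fun x => E x
      map_add' := fun x y => map_add E x y
      map_smul' := fun r x => by
        rw [RingHom.id_apply, Algebra.smul_def, Derivation.leibniz]
        have : E (algebraMap S K r) = 0 := hE r
        rw [this, smul_zero, add_zero]
        rfl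
      map_one_eq_zero' := by simp
      leibniz' := fun x y => by simp }
  have key : ∀ n : ℕ, ∀ p : Polynomial S, p.natDegree ≤ n → p ≠ 0 → ∀ f : K,
      Polynomial.aeval f p = 0 → EK f = 0 := by
    intro n
    induction n with
    | zero =>
      intro p hp hne f h0
      exfalso
      have h1 : p = Polynomial.C (p.coeff 0) := Polynomial.eq_C_of_natDegree_le_zero hp
      rw [h1, Polynomial.aeval_C] at h0
      have h2 : p.coeff 0 = 0 := by
        apply Subtype.ext
        exact h0
      rw [h2, Polynomial.C_0] at h1
      exact hne h1
    | succ n ih =>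
      intro p hp hne f h0
      have h1 := EK.map_aeval p f
      rw [h0, map_zero] at h1
      rcases smul_eq_zero.mp h1.symm with h2 | h2
      · by_cases hd : p.natDegree = 0
        · exact ih p (by omega) hne f h0
        · apply ih (Polynomial.derivative p) _ _ f h2
          · have := Polynomial.natDegree_derivative_lt hd
            omega
          · intro h3
            exact hd (Polynomial.derivative_eq_zero.mp h3)
      · exact h2
  obtain ⟨p, hp, h0⟩ := hS.isAlgebraic f
  exact key p.natDegree p le_rfl hp f h0

end

end XCor

theorem pr_Cor (hLif : StLif.{u}) : StCor.{u} := by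
  intro k K F _ _ _ _ _ _ _ _ e n r z hr hz pd hpd
  have hchar : CharZero K := charZero_of_injective_algebraMap (algebraMap k K).injective
  obtain ⟨h1, h2, h3⟩ := hLif k K F n z hz
  choose ED hED1 hED2 using fun i => h1 (pd i)
  choose EZ hEZ1 hEZ2 using h2
  have hcl : ∀ j, cor r z (Fin.castAdd n j) = algebraMap K F (r j) := fun j => by
    unfold cor
    rw [Fin.append_left]
  have hcr : ∀ j, cor r z (Fin.natAdd e j) = z j := fun j => by
    unfold cor
    rw [Fin.append_right]
  refine ⟨Fin.append ED EZ, ⟨?_, ?_⟩, ?_, ?_⟩
  · intro i j
    refine Fin.addCases (fun i => ?_) (fun i => ?_) i <;>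
      refine Fin.addCases (fun j => ?_) (fun j => ?_) j
    · rw [Fin.append_left, hcl, hED1, hpd.1 i j]
      by_cases h : i = j
      · rw [if_pos h, if_pos (congrArg _ h), map_one]
      · rw [if_neg h, if_neg (fun h' => h (Fin.castAdd_injective e n h')), map_zero]
    · rw [Fin.append_left, hcr, hED2, if_neg]
      intro h
      have := congrArg Fin.val h
      rw [Fin.val_castAdd, Fin.val_natAdd] at this
      have := i.2
      omega
    · rw [Fin.append_right, hcl, hEZ1, if_neg]
      intro h
      have := congrArg Fin.val h
      rw [Fin.val_castAdd, Fin.val_natAdd] at this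
      have := j.2
      omega
    · rw [Fin.append_right, hcr, hEZ2]
      by_cases h : i = j
      · rw [if_pos h, if_pos (congrArg _ h)]
      · rw [if_neg h, if_neg (fun h' => h (Fin.natAdd_injective n e h'))]
  · intro E hE
    refine h3 E (fun f => ?_) (fun j => ?_)
    · have hal := hr.isAlgebraic
      refine XCor.killAlg _ hal (XCor.res E) ?_ f
      intro s
      have h4 : Set.EqOn (XCor.res E : K → F) ((0 : Derivation k K F) : K → F)
          (Algebra.adjoin k (Set.range r)) := by
        apply Derivation.eqOn_adjoin
        rintro _ ⟨j, rfl⟩
        rw [XCor.res_apply, ← hcl, hE]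
        rfl
      exact h4 s.2
    · rw [← hcr, hE]
  · intro i f
    rw [Fin.append_left, hED1]
  · intro j f
    rw [Fin.append_right, hEZ1]

end Pool.Agent.Work.MP_a2680c_ag.HA
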