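import Pool.Agent.Work.MP_a2680c_ag.HA.StmtsB

/-!
# MP_a2680c_ag, block HA, item Crb: linear algebra of a basis
-/

set_option autoImplicit false

noncomputable section

namespace Pool.Agent.Work.MP_a2680c_ag.HA

open MP7b66e6 MP7b66e6.Q
open scoped BigOperators

universe u

namespace XCrb

variable {K F : Type u} [Field K] [Field F] [Algebra K F] {n N : ℕ}

/-- `lin y` is a sum over the coordinates `1, y_1, ..., y_n` -/
theorem lin_eq (y : Fin n → F) (c : Fin (n + 1) → K) :
    lin y c = ∑ l, algebraMap K F (c l) * (Fin.cons 1 y : Fin (n + 1) → F) l := by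
  rw [Fin.sum_univ_succ]
  simp [lin]

/-- `lin y` of a linear combination -/
theorem lin_comb (y : Fin n → F) (ε : Fin (n + 1) → K) (v : Fin (n + 1) → Fin (n + 1) → K)
    (c : Fin (n + 1) → K) (h : ∀ l, c l = ∑ k, ε k * v k l) :
    lin y c = ∑ k, algebraMap K F (ε k) * lin y (v k) := by
  rw [lin_eq]
  simp only [lin_eq, Finset.mul_sum]
  rw [Finset.sum_comm]
  refine Finset.sum_congr rfl fun l _ => ?_
  rw [h l, map_sum, Finset.sum_mul]
  refine Finset.sum_congr rfl fun k _ => ?_
  rw [map_mul, mul_assoc]

/-- a nonzero linear form is not zero in `F` -/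
theorem lin_ne (y : Fin n → F) (hy : AlgebraicIndependent K y) (c : Fin (n + 1) → K)
    (hc : c ≠ 0) : lin y c ≠ 0 := by
  intro h0
  have h1 : MvPolynomial.aeval y (MvPolynomial.C (c 0) +
      ∑ j : Fin n, MvPolynomial.C (c j.succ) * MvPolynomial.X j : MvPolynomial (Fin n) K) = 0 := by
    rw [map_add, map_sum]
    simp only [map_mul, MvPolynomial.aeval_X, MvPolynomial.aeval_C]
    exact h0
  have h2 := (injective_iff_map_eq_zero _).1 hy _ h1
  apply hc
  funext l
  refine Fin.cases ?_ (fun j => ?_) l
  · have h3 := congrArg (MvPolynomial.coeff 0) h2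
    rw [MvPolynomial.coeff_add, MvPolynomial.coeff_sum] at h3
    simpa [MvPolynomial.coeff_C_mul, MvPolynomial.coeff_X] using h3
  · have h3 := congrArg (MvPolynomial.coeff (Finsupp.single j 1)) h2
    rw [MvPolynomial.coeff_add, MvPolynomial.coeff_sum] at h3
    simp only [MvPolynomial.coeff_C_mul, MvPolynomial.coeff_X, MvPolynomial.coeff_C,
      MvPolynomial.coeff_zero] at h3
    rw [if_neg (by
      intro h
      have h4 := DFunLike.congr_fun h j
      simp at h4), zero_add, Finset.sum_eq_single j] at h3
    · simpa using h3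
    · intro i _ hij
      rw [if_neg, mul_zero]
      intro h
      exact hij (Finsupp.single_left_injective one_ne_zero h)
    · intro h
      exact absurd (Finset.mem_univ _) h

/-- Cramer's rule -/
theorem cram (a : Fin N → Fin (n + 1) → K) (b : Fin (n + 1) → Fin N) (c : Fin (n + 1) → K)
    (hb : mnr a b ≠ 0) (l : Fin (n + 1)) :
    c l = ∑ k, (Matrix.cramer (Matrix.of fun i j => a (b i) j).transpose c k / mnr a b) *
      a (b k) l := by
  have h := congrFun (Matrix.mulVec_cramer (Matrix.of fun i j => a (b i) j).transpose c) l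
  rw [Matrix.det_transpose] at h
  have h1 : (Matrix.of fun i j => a (b i) j).det = mnr a b := rfl
  rw [h1, Pi.smul_apply, smul_eq_mul] at h
  have h2 : ((Matrix.of fun i j => a (b i) j).transpose.mulVec
      (Matrix.cramer (Matrix.of fun i j => a (b i) j).transpose c)) l =
      ∑ k, a (b k) l * Matrix.cramer (Matrix.of fun i j => a (b i) j).transpose c k := rfl
  rw [h2] at h
  have h3 : c l = (mnr a b * c l) / mnr a b := by field_simp
  rw [h3, ← h, Finset.sum_div]
  refine Finset.sum_congr rfl fun k _ => ?_
  ring

/-- the combination in terms of `zz` -/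
theorem comb (y : Fin n → F) (a : Fin N → Fin (n + 1) → K) (b : Fin (n + 1) → Fin N)
    (hb : mnr a b ≠ 0) (h0 : lin y (a (b 0)) ≠ 0) (c : Fin (n + 1) → K) :
    lin y c / lin y (a (b 0)) =
      algebraMap K F (Matrix.cramer (Matrix.of fun i j => a (b i) j).transpose c 0 / mnr a b) +
      ∑ j : Fin n, algebraMap K F
        (Matrix.cramer (Matrix.of fun i j => a (b i) j).transpose c j.succ / mnr a b) *
        zz y a b j := by
  rw [lin_comb y _ (fun k => a (b k)) c (cram a b c hb), Fin.sum_univ_succ, add_div,
    Finset.sum_div]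
  congr 1
  · rw [mul_div_assoc, div_self h0, mul_one]
  · refine Finset.sum_congr rfl fun j _ => ?_
    rw [mul_div_assoc]
    rfl

/-- the coefficients for `c = a i` -/
theorem cram_a (a : Fin N → Fin (n + 1) → K) (b : Fin (n + 1) → Fin N) (i : Fin N)
    (k : Fin (n + 1)) :
    Matrix.cramer (Matrix.of fun i j => a (b i) j).transpose (a i) k =
      mnr a (Function.update b k i) := by
  rw [Matrix.cramer_transpose_apply]
  unfold mnr
  congr 1
  ext p q
  by_cases hpk : p = k
  · subst hpk
    rw [Matrix.updateRow_self, Function.update_self]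
  · rw [Matrix.updateRow_ne hpk, Function.update_of_ne hpk]
    rfl

end XCrb

open XCrb in
theorem pr_Crb : StCrb.{u} := by
  intro K F _ _ _ n N y a hy ha b hb
  have h0 : lin y (a (b 0)) ≠ 0 := lin_ne y hy.1 _ (ha _)
  have hcomb := comb y a b hb h0
  refine ⟨?_, fun i => ?_⟩
  · have hmem : ∀ c : Fin (n + 1) → K,
        lin y c / lin y (a (b 0)) ∈ IntermediateField.adjoin K (Set.range (zz y a b)) := by
      intro c
      rw [hcomb c]
      refine add_mem (IntermediateField.algebraMap_mem _ _) (sum_mem fun j _ => ?_)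
      exact mul_mem (IntermediateField.algebraMap_mem _ _)
        (IntermediateField.subset_adjoin K _ ⟨j, rfl⟩)
    have h1 : (lin y (a (b 0)))⁻¹ ∈ IntermediateField.adjoin K (Set.range (zz y a b)) := by
      have h2 := hmem (Pi.single 0 1)
      have h3 : lin y (Pi.single 0 1 : Fin (n + 1) → K) = 1 := by
        rw [lin_eq, Finset.sum_eq_single 0]
        · simp
        · intro l _ hl
          rw [Pi.single_eq_of_ne hl, map_zero, zero_mul]
        · intro h
          exact absurd (Finset.mem_univ _) h
      rw [h3, one_div] at h2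
      exact h2
    have h4 : ∀ j, y j ∈ IntermediateField.adjoin K (Set.range (zz y a b)) := by
      intro j
      have h2 := hmem (Pi.single j.succ 1)
      have h3 : lin y (Pi.single j.succ 1 : Fin (n + 1) → K) = y j := by
        rw [lin_eq, Finset.sum_eq_single j.succ]
        · simp
        · intro l _ hl
          rw [Pi.single_eq_of_ne hl, map_zero, zero_mul]
        · intro h
          exact absurd (Finset.mem_univ _) h
      rw [h3] at h2
      have h5 := div_mem h2 h1
      have h6 : y j / lin y (a (b 0)) / (lin y (a (b 0)))⁻¹ = y j := by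
        rw [div_inv_eq_mul, div_mul_cancel₀ _ h0]
      rw [h6] at h5
      exact h5
    have htop : IntermediateField.adjoin K (Set.range (zz y a b)) = ⊤ := by
      rw [eq_top_iff, ← hy.2, IntermediateField.adjoin_le_iff]
      rintro _ ⟨j, rfl⟩
      exact h4 j
    refine ⟨?_, htop⟩
    have halg : Algebra.IsAlgebraic (Algebra.adjoin K (Set.range (zz y a b))) F := by
      refine ⟨fun x => ?_⟩
      have hx : x ∈ IntermediateField.adjoin K (Set.range (zz y a b)) := by
        rw [htop]
        exact IntermediateField.mem_top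
      obtain ⟨r, hr, s, hs, rfl⟩ := IntermediateField.mem_adjoin_iff_div.1 hx
      rw [div_eq_mul_inv]
      have h5 : IsAlgebraic (Algebra.adjoin K (Set.range (zz y a b))) r :=
        isAlgebraic_algebraMap (⟨r, hr⟩ : Algebra.adjoin K (Set.range (zz y a b)))
      have h6 : IsAlgebraic (Algebra.adjoin K (Set.range (zz y a b))) s :=
        isAlgebraic_algebraMap (⟨s, hs⟩ : Algebra.adjoin K (Set.range (zz y a b)))
      exact h5.mul h6.inv
    exact (Algebra.IsAlgebraic.isTranscendenceBasis_of_lift_le_trdeg_of_finite K (zz y a b)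
      hy.1.lift_cardinalMk_le_trdeg).1
  · rw [hcomb (a i), cram_a]
    simp only [cram_a]

end Pool.Agent.Work.MP_a2680c_ag.HA
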