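import Pool.Agent.Work.MP_a2680c_ag.HA.StmtsY
import Pool.Agent.Work.MP_a2680c_ag.HA.I_Ind

/-! [a2680c HA Crv] (helper9): fibrations by curves. -/

set_option autoImplicit false

noncomputable section

namespace Pool.Agent.Work.MP_a2680c_ag.HA

open MP7b66e6 MP7b66e6.Q
open scoped BigOperators

universe u

namespace XCrv

theorem up_cor {K E₀ E : Type u} [Field K] [Field E₀] [Field E] [Algebra K E₀] [Algebra K E] [Algebra E₀ E]
    [IsScalarTower K E₀ E] {e n : ℕ} (r : Fin e → K) (x : Fin n → E₀) : up E (cor r x) = cor r (up E x) := by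
  funext j
  induction j using Fin.addCases with
  | left i => simp only [up, cor, Fin.append_left]; rw [← IsScalarTower.algebraMap_apply K E₀ E]
  | right i => simp only [up, cor, Fin.append_right]

end XCrv

theorem pr_Crv (hMvb : StMvb.{u}) (hCnb : StCnb.{u}) (hDim : StDim.{u}) (hGrm : StGrm.{u}) (hTb : StTb.{u})
    (hTbs : StTbs.{u}) (hDcj : StDcj) (hElz : StElz.{u}) (hEqt : StEqt.{u}) (hQrs : StQrs.{u}) : StCrv.{u} := by
  classical
  intro I hI hD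
  have hcon := XInd.con1 hMvb hCnb hDim
  obtain ⟨G₁, hG1, hG1p, hC⟩ := hcon I hI hD
  obtain ⟨hJD, hJs⟩ := hDcj ∅ {0} (Set.empty_subset _) (fun s hs => absurd (hs 0) (Set.notMem_empty _)) (Set.finite_singleton 0)
  obtain ⟨G₂, hG2, hG2p, hC2⟩ := hcon (JJ ∅ {0}) hJs hJD
  refine ⟨G₁ ∪ G₂, hG1.union hG2, ?_, ?_⟩
  · rintro g (h | h)
    · exact hG1p g h
    · exact hG2p g h
  intro κ k K E _ _ _ _ _ _ _ _ _ e d r c Z Y 𝔻 L Φ htr hF hY hcoef
  rcases hY with hY | ⟨hvY, hmY, hpY, hg, E₀, _, _, _, _, _, _, _, _, Y₀, hY₀, hun⟩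
  · obtain ⟨Ξ, hΞ⟩ := hC κ k K E e d r c Z Y 𝔻 L Φ htr hF hY hcoef
    exact ⟨Ξ, XInd.rsl_mono Set.subset_union_left hΞ⟩
  · obtain ⟨⟨x₀, hx₀K, hx₀k⟩, _⟩ := hDim.2 k K E₀ e r hF.basis hY₀.rat
    haveI : Algebra.EssFiniteType k E := hF.ess
    haveI : Algebra.EssFiniteType k E₀ := (hGrm k E₀ Y₀ hY₀.vy).1
    haveI : Algebra.EssFiniteType K E := Algebra.EssFiniteType.of_comp k K E
    have hxK : IsTranscendenceBasis K (up E x₀) := (hTbs K E₀ E 1 x₀ hx₀K).1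
    have hxk : IsTranscendenceBasis k (cor r (up E x₀)) := by
      rw [← XCrv.up_cor]
      exact (hTbs k E₀ E (e + 1) (cor r x₀) hx₀k).1
    have hd : d = e + 1 := by
      have h1 := (hTb k E d c hF.basisF).2
      have h2 := (hTb k E (e + 1) _ hxk).2
      rw [h1] at h2
      exact_mod_cast h2
    subst hd
    have h0 : ∀ w : AddValuation E (WithTop ℤ), Plc K w → 𝔻 w = 0 := by
      refine hElz κ k K E e r (up E x₀) c Z Y 𝔻 L Φ hF hxk hxK hvY hmY hpY hg ?_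
      intro w hw
      rcases hcoef w hw with h | h
      · rw [h]
      · exact (hI h).1.le
    obtain ⟨𝔻₀, Φ₀, hB₀, hcrep, hcoef₀⟩ := hEqt κ k K E₀ E e r (up E x₀) (cor r x₀) c Z Y₀ 𝔻 L Φ hF hx₀k hxK hg.1 hY₀.vy
      hY₀.mor hY₀.prp hun h0
    obtain ⟨Ξ, hΞ⟩ := hC2 κ k K E₀ e (e + 1) r (cor r x₀) Z Y₀ 𝔻₀ L Φ₀ htr hB₀ hY₀ (by
      intro w hw
      rcases hcoef₀ w hw with h | ⟨μ, hμ, h⟩
      · exact Or.inl h
      · right
        rw [h]
        have h2 : (2 : ℝ) ≤ μ := by exact_mod_cast hμ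
        refine ⟨?_, 0, Set.mem_insert _ _, 0, rfl, μ, by omega, le_rfl, by norm_num, by norm_num⟩
        have h3 : (1 : ℝ) / μ ≤ 1 / 2 := by
          apply one_div_le_one_div_of_le <;> linarith
        linarith)
    refine ⟨Ξ, XInd.rsl_mono Set.subset_union_right ?_⟩
    exact hQrs κ k K E₀ E G₂ e (e + 1) (e + 1) r (cor r x₀) c Z 𝔻₀ 𝔻 L Ξ hx₀k hF.basisF hcrep hΞ

end Pool.Agent.Work.MP_a2680c_ag.HA
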