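import Pool.Agent.Work.MP_a2680c_ag.HA.StmtsZ
import Pool.Agent.Work.MP_a2680c_ag.HA.DefsZ
import Pool.Agent.Work.MP_a2680c_ag.HA.I_Crv

/-! [a2680c HA Crz] (helper9): fibrations of relative dimension one. -/

set_option autoImplicit false

noncomputable section

namespace Pool.Agent.Work.MP_a2680c_ag.HA

open MP7b66e6 MP7b66e6.Q
open scoped BigOperators

universe u

/-- conics, without a model -/
def StCbz : Prop := ∀ I : Set ℝ, I ⊆ Set.Ioc 0 1 → DCC I → ∃ δ : ℕ, 1 ≤ δ ∧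
  ∀ (κ : Prop) (k K E : Type u) [Field k] [CharZero k] [Field K] [Field E] [Algebra k K] [Algebra k E] [Algebra K E]
    [IsScalarTower k K E] (e : ℕ) (r : Fin e → K) (c : Fin (e + 1) → E) (Z : Set (Subalgebra k K))
    (𝔻 : AddValuation E (WithTop ℤ) → ℝ) (L : AddValuation K (WithTop ℤ) → ℝ) (Φ : Eˣ →₀ ℝ),
    BFib κ r c Z 𝔻 L Φ → GRat K E → (∀ w : AddValuation E (WithTop ℤ), Plc K w → Divisorial k w) →
    {w : AddValuation E (WithTop ℤ) | Plc K w ∧ 𝔻 w ≠ 0}.Finite →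
    (∀ w : AddValuation E (WithTop ℤ), Plc K w → 𝔻 w = 0 ∨ 𝔻 w ∈ I) →
    ∃ (K' F' : Type u) (_ : Field K') (_ : Field F') (_ : Algebra k K') (_ : Algebra k F') (_ : Algebra K K')
      (_ : Algebra K F') (_ : Algebra E F') (_ : Algebra K' F') (_ : IsScalarTower k K K') (_ : IsScalarTower k E F')
      (_ : IsScalarTower k K' F') (_ : IsScalarTower K E F') (_ : IsScalarTower K K' F') (_ : FiniteDimensional K K')
      (_ : IsGalois K K') (_ : FiniteDimensional E F') (_ : IsGalois E F') (y : Fin 1 → F') (N : ℕ)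
      (a : Fin N → Fin 2 → K') (d : Fin N → ℝ), Cvd (K := K) k δ I y 𝔻 a d

theorem pr_Cbz (hFid : StFid) (hKeb : StKeb.{u}) (hCvc : StCvc.{u}) (hSpl : StSpl.{u}) (hDsc : StDsc.{u}) : StCbz.{u} := by
  classical
  intro I hI hD
  obtain ⟨N₀, hN₀⟩ := (hFid 1 I hI hD).1
  refine ⟨N₀.factorial, Nat.factorial_pos N₀, ?_⟩
  intro κ k K E _ _ _ _ _ _ _ _ e r c Z 𝔻 L Φ hF hrat hdiv hfin hcoef
  have hconn := hrat.1
  haveI : CharZero K := charZero_of_injective_algebraMap (algebraMap k K).injective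
  obtain ⟨K₂, F₂, _, _, _, _, _, _, _, _, _, _, _, _, y₂, hspt⟩ :=
    hSpl K E hrat {w : AddValuation E (WithTop ℤ) | Plc K w ∧ 𝔻 w ≠ 0} hfin (fun w hw => hw.1)
  obtain ⟨hpos, hle⟩ : 0 < (Abv K₂ {w : AddValuation E (WithTop ℤ) | Plc K w ∧ 𝔻 w ≠ 0} :
      Set (AddValuation F₂ (WithTop ℤ))).ncard ∧
      (Abv K₂ {w : AddValuation E (WithTop ℤ) | Plc K w ∧ 𝔻 w ≠ 0} : Set (AddValuation F₂ (WithTop ℤ))).ncard ≤ N₀ := by
    letI : Algebra k K₂ := ((algebraMap K K₂).comp (algebraMap k K)).toAlgebra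
    letI : Algebra k F₂ := ((algebraMap K F₂).comp (algebraMap k K)).toAlgebra
    haveI : IsScalarTower k K K₂ := IsScalarTower.of_algebraMap_eq fun _ => rfl
    haveI : IsScalarTower k K F₂ := IsScalarTower.of_algebraMap_eq fun _ => rfl
    haveI : IsScalarTower k K₂ F₂ := IsScalarTower.of_algebraMap_eq fun x => by
      change algebraMap K F₂ (algebraMap k K x) = algebraMap K₂ F₂ (algebraMap K K₂ (algebraMap k K x))
      rw [← IsScalarTower.algebraMap_apply K K₂ F₂]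
    haveI : IsScalarTower k E F₂ := IsScalarTower.of_algebraMap_eq fun x => by
      change algebraMap K F₂ (algebraMap k K x) = algebraMap E F₂ (algebraMap k E x)
      rw [IsScalarTower.algebraMap_apply k K E, ← IsScalarTower.algebraMap_apply K E F₂]
    obtain ⟨N, a, d, hcvd, hN⟩ := hCvc k K E K₂ F₂ (max (Module.finrank K K₂) (Module.finrank E F₂)) I 𝔻 y₂ hconn hdiv hfin
      hcoef hspt (le_max_left _ _) (le_max_right _ _)
    obtain ⟨Ξ, J, hkey⟩ := hKeb κ k K E K₂ F₂ _ e 1 N I r c y₂ Z 𝔻 L Φ a d le_rfl hF hcvd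
    rw [← hN]
    constructor
    · rcases Nat.eq_zero_or_pos N with h0 | h0
      · exfalso
        subst h0
        have := hkey.1
        rw [Finset.univ_eq_empty, Finset.sum_empty] at this
        push_cast at this
        linarith
      · exact h0
    · exact hN₀ N d hcvd.mem hkey.1
  obtain ⟨K', F', _, _, _, _, _, _, _, _, _, _, _, _, y', hspt', hdK, hdF⟩ := hDsc K E K₂ F₂ hconn _ y₂ hspt N₀ hpos hle
  letI : Algebra k K' := ((algebraMap K K').comp (algebraMap k K)).toAlgebra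
  letI : Algebra k F' := ((algebraMap K F').comp (algebraMap k K)).toAlgebra
  haveI : IsScalarTower k K K' := IsScalarTower.of_algebraMap_eq fun _ => rfl
  haveI : IsScalarTower k K F' := IsScalarTower.of_algebraMap_eq fun _ => rfl
  haveI : IsScalarTower k K' F' := IsScalarTower.of_algebraMap_eq fun x => by
    change algebraMap K F' (algebraMap k K x) = algebraMap K' F' (algebraMap K K' (algebraMap k K x))
    rw [← IsScalarTower.algebraMap_apply K K' F']
  haveI : IsScalarTower k E F' := IsScalarTower.of_algebraMap_eq fun x => by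
    change algebraMap K F' (algebraMap k K x) = algebraMap E F' (algebraMap k E x)
    rw [IsScalarTower.algebraMap_apply k K E, ← IsScalarTower.algebraMap_apply K E F']
  obtain ⟨N, a, d, hcvd, _⟩ := hCvc k K E K' F' N₀.factorial I 𝔻 y' hconn hdiv hfin hcoef hspt' hdK hdF
  exact ⟨K', F', inferInstance, inferInstance, inferInstance, inferInstance, inferInstance, inferInstance, inferInstance,
    inferInstance, inferInstance, inferInstance, inferInstance, inferInstance, inferInstance, inferInstance, inferInstance,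
    inferInstance, inferInstance, y', N, a, d, hcvd⟩

/-- the results for a fibration of relative dimension one -/
def StCrz : Prop := ∀ I : Set ℝ, I ⊆ Set.Ioc 0 1 → DCC I → ∃ G : Set ℝ, G.Finite ∧ (∀ g ∈ G, 0 < g) ∧
  ∀ (κ : Prop) (k K E : Type u) [Field k] [CharZero k] [IsAlgClosed k] [Field K] [Field E] [Algebra k K] [Algebra k E]
    [Algebra K E] [IsScalarTower k K E] (e d : ℕ) (r : Fin e → K) (c : Fin d → E) (Z : Set (Subalgebra k K))
    (Y : Set (Subalgebra k E)) (𝔻 : AddValuation E (WithTop ℤ) → ℝ) (L : AddValuation K (WithTop ℤ) → ℝ) (Φ : Eˣ →₀ ℝ),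
    Cardinal.aleph0 ≤ Algebra.trdeg ℚ k → BFib κ r c Z 𝔻 L Φ → Fb1 Z Y →
    (∀ w : AddValuation E (WithTop ℤ), Plc K w → 𝔻 w = 0 ∨ 𝔻 w ∈ I) → ∃ Ξ : Kˣ →₀ ℝ, Rsl κ G r Z 𝔻 L Ξ

namespace XCrz

/-- a transcendence basis with one element -/
theorem basis_one (K E : Type u) [Field K] [Field E] [Algebra K E] (h : Algebra.trdeg K E = 1) :
    ∃ x : Fin 1 → E, IsTranscendenceBasis K x := by
  obtain ⟨s, hs⟩ := exists_isTranscendenceBasis K E
  have h1 : Cardinal.mk s = 1 := by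
    rw [← h]; exact hs.cardinalMk_eq_trdeg
  obtain ⟨h2, ⟨x₀⟩⟩ := Cardinal.eq_one_iff_unique.1 h1
  haveI := h2
  let f : Fin 1 ≃ s := Equiv.ofUnique' x₀
  exact ⟨_, (isTranscendenceBasis_equiv f).2 hs⟩
where
  /-- the equivalence -/
  Equiv.ofUnique' {s : Set E} [Subsingleton s] (x₀ : s) : Fin 1 ≃ s :=
    { toFun := fun _ => x₀
      invFun := fun _ => 0
      left_inv := fun a => Subsingleton.elim _ _
      right_inv := fun b => Subsingleton.elim _ _ }

theorem basis_cor {k K E : Type u} [Field k] [Field K] [Field E] [Algebra k K] [Algebra k E] [Algebra K E]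
    [IsScalarTower k K E] {e n : ℕ} {r : Fin e → K} {x : Fin n → E} (hr : IsTranscendenceBasis k r)
    (hx : IsTranscendenceBasis K x) : IsTranscendenceBasis k (cor r x) := by
  have h := hr.sumElim_comp hx
  let f : Fin (e + n) ≃ Fin n ⊕ Fin e := finSumFinEquiv.symm.trans (Equiv.sumComm _ _)
  have h2 : cor r x = (Sum.elim x (algebraMap K E ∘ r)) ∘ f := by
    funext j
    induction j using Fin.addCases with
    | left i => simp [f, cor, Fin.append_left]
    | right i => simp [f, cor, Fin.append_right]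
  rw [h2]
  exact (isTranscendenceBasis_equiv f).2 h

/-- fibrations by conics -/
def Con1z : Prop := ∀ I : Set ℝ, I ⊆ Set.Ioc 0 1 → DCC I → ∃ G : Set ℝ, G.Finite ∧ (∀ g ∈ G, 0 < g) ∧
  ∀ (κ : Prop) (k K E : Type u) [Field k] [CharZero k] [IsAlgClosed k] [Field K] [Field E] [Algebra k K] [Algebra k E]
    [Algebra K E] [IsScalarTower k K E] (e : ℕ) (r : Fin e → K) (c : Fin (e + 1) → E) (Z : Set (Subalgebra k K))
    (𝔻 : AddValuation E (WithTop ℤ) → ℝ) (L : AddValuation K (WithTop ℤ) → ℝ) (Φ : Eˣ →₀ ℝ),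
    Cardinal.aleph0 ≤ Algebra.trdeg ℚ k → BFib κ r c Z 𝔻 L Φ → GRat K E →
    (∀ w : AddValuation E (WithTop ℤ), Plc K w → Divisorial k w) →
    {w : AddValuation E (WithTop ℤ) | Plc K w ∧ 𝔻 w ≠ 0}.Finite →
    (∀ w : AddValuation E (WithTop ℤ), Plc K w → 𝔻 w = 0 ∨ 𝔻 w ∈ I) → ∃ Ξ : Kˣ →₀ ℝ, Rsl κ G r Z 𝔻 L Ξ

theorem con1z (hMvb : StMvb.{u}) (hCbz : StCbz.{u}) : Con1z.{u} := by
  intro I hI hD
  obtain ⟨δ, _, hC⟩ := hCbz I hI hD
  obtain ⟨G, hG1, hG2, hM⟩ := hMvb 1 δ le_rfl I hI hD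
  refine ⟨G, hG1, hG2, ?_⟩
  intro κ k K E _ _ _ _ _ _ _ _ _ e r c Z 𝔻 L Φ htr hF hrat hdiv hfin hcoef
  obtain ⟨K', F', _, _, _, _, _, _, _, _, _, _, _, _, _, _, _, _, _, y, N, a, dd, hcvd⟩ :=
    hC κ k K E e r c Z 𝔻 L Φ hF hrat hdiv hfin hcoef
  exact hM κ k K E K' F' e N r c y Z 𝔻 L Φ a dd htr hF hcvd

end XCrz

theorem pr_Crz (hMvb : StMvb.{u}) (hCbz : StCbz.{u}) (hGrm : StGrm.{u}) (hTb : StTb.{u}) (hDcj : StDcj) (hFnp : StFnp.{u})
    (hElz : StElz.{u}) (hQrs : StQrs.{u}) (hZdk : StZdk.{u}) (hZgo : StZgo.{u}) (hZdi : StZdi.{u}) (hZeq : StZeq.{u}) :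
    StCrz.{u} := by
  classical
  intro I hI hD
  have hcon := XCrz.con1z hMvb hCbz
  obtain ⟨G₁, hG1, hG1p, hC⟩ := hcon I hI hD
  obtain ⟨hJD, hJs⟩ := hDcj ∅ {0} (Set.empty_subset _) (fun s hs => absurd (hs 0) (Set.notMem_empty _)) (Set.finite_singleton 0)
  obtain ⟨G₂, hG2, hG2p, hC2⟩ := hcon (JJ ∅ {0}) hJs hJD
  refine ⟨G₁ ∪ G₂, hG1.union hG2, ?_, ?_⟩
  · rintro g (h | h)
    · exact hG1p g h
    · exact hG2p g h
  intro κ k K E _ _ _ _ _ _ _ _ _ e d r c Z Y 𝔻 L Φ htr hF hY hcoef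
  haveI : Algebra.EssFiniteType k K := (hGrm k K Z hF.vz).1
  haveI : Algebra.EssFiniteType k E := hF.ess
  haveI : Algebra.EssFiniteType K E := Algebra.EssFiniteType.of_comp k K E
  haveI : CharZero K := charZero_of_injective_algebraMap (algebraMap k K).injective
  obtain ⟨x, hxK⟩ := XCrz.basis_one K E hY.dim
  have hxk : IsTranscendenceBasis k (cor r x) := XCrz.basis_cor hF.basis hxK
  have hd : d = e + 1 := by
    have h1 := (hTb k E d c hF.basisF).2
    have h2 := (hTb k E (e + 1) _ hxk).2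
    rw [h1] at h2
    exact_mod_cast h2
  subst hd
  have hFF : FFn K E := ⟨inferInstance, x, hxK⟩
  have hpos : ∀ w : AddValuation E (WithTop ℤ), Plc K w → 0 ≤ 𝔻 w := by
    intro w hw
    rcases hcoef w hw with h | h
    · rw [h]
    · exact (hI h).1.le
  rcases hZdi κ k K E hFF hY.conn e r x c Z 𝔻 L Φ hF hxk hxK hpos with hrat | hone
  · obtain ⟨hdiv, hfin⟩ := hFnp κ k K E e r c Z Y 𝔻 L Φ hF hY.vy hY.mor hY.prp
    obtain ⟨Ξ, hΞ⟩ := hC κ k K E e r c Z 𝔻 L Φ htr hF hrat hdiv hfin hcoef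
    exact ⟨Ξ, XInd.rsl_mono Set.subset_union_left hΞ⟩
  · have h0 := hElz κ k K E e r x c Z Y 𝔻 L Φ hF hxk hxK hY.vy hY.mor hY.prp hone hpos
    obtain ⟨E₀, _, _, _, _, _, hrat₀, hFF₀, hun, hram⟩ := hZgo K E hFF hone
    letI : Algebra k E₀ := ((algebraMap K E₀).comp (algebraMap k K)).toAlgebra
    haveI : IsScalarTower k K E₀ := IsScalarTower.of_algebraMap_eq fun _ => rfl
    haveI : IsScalarTower k E₀ E := IsScalarTower.of_algebraMap_eq fun z => by
      change algebraMap k E z = algebraMap E₀ E (algebraMap K E₀ (algebraMap k K z))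
      rw [← IsScalarTower.algebraMap_apply K E₀ E, ← IsScalarTower.algebraMap_apply k K E]
    obtain ⟨hess₀, x₀, hx₀⟩ := id hFF₀
    haveI := hess₀
    haveI : Algebra.EssFiniteType k E₀ := Algebra.EssFiniteType.comp k K E₀
    have hx₀k : IsTranscendenceBasis k (cor r x₀) := XCrz.basis_cor hF.basis hx₀
    have hdiv₀ : ∀ w₀ : AddValuation E₀ (WithTop ℤ), Plc K w₀ → Divisorial k w₀ := hZdk k K E₀ hFF₀
    obtain ⟨𝔻₀, Φ₀, hB₀, hcrep, hcoef₀⟩ := hZeq κ k K E₀ E e r x (cor r x₀) c Z 𝔻 L Φ hF hx₀k hxK hY.conn hdiv₀ hun h0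
    have hfin₀ : {w : AddValuation E₀ (WithTop ℤ) | Plc K w ∧ 𝔻₀ w ≠ 0}.Finite := by
      refine hram.subset ?_
      rintro w₀ ⟨hw₀, hne⟩
      obtain ⟨w, μ, hw, hL, hval⟩ := hcoef₀ w₀ hw₀
      refine ⟨hw₀, w, μ, hw, hL, ?_⟩
      rintro rfl
      apply hne
      rw [hval]
      simp
    obtain ⟨Ξ, hΞ⟩ := hC2 κ k K E₀ e r (cor r x₀) Z 𝔻₀ L Φ₀ htr hB₀ hrat₀ hdiv₀ hfin₀ (by
      intro w₀ hw₀
      obtain ⟨w, μ, hw, hL, hval⟩ := hcoef₀ w₀ hw₀
      by_cases hμ1 : μ = 1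
      · left; rw [hval, hμ1]; simp
      · right
        have hμ : 2 ≤ μ := by have := hL.1; omega
        rw [hval]
        have h2 : (2 : ℝ) ≤ μ := by exact_mod_cast hμ
        refine ⟨?_, 0, Set.mem_insert _ _, 0, rfl, μ, by omega, le_rfl, by norm_num, by norm_num⟩
        have h3 : (1 : ℝ) / μ ≤ 1 / 2 := by
          apply one_div_le_one_div_of_le <;> linarith
        linarith)
    refine ⟨Ξ, XInd.rsl_mono Set.subset_union_right ?_⟩
    exact hQrs κ k K E₀ E G₂ e (e + 1) (e + 1) r (cor r x₀) c Z 𝔻₀ 𝔻 L Ξ hx₀k hF.basisF hcrep hΞ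

end Pool.Agent.Work.MP_a2680c_ag.HA
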