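import Pool.Agent.Work.MP_a2680c_ag.HA.StmtsW

/-!
# MP_a2680c_ag, block HA, item Csb (helper60)

The proof follows `HA/I_Csg.lean` (helper41).
-/

set_option autoImplicit false

noncomputable section

namespace Pool.Agent.Work.MP_a2680c_ag.HA

open scoped BigOperators

namespace XCsb

/-- the vectors in question -/
def DD (n : ℕ) (I : Set ℝ) (N : ℕ) : Set (Fin N → ℝ) :=
  {d | (∀ i, d i ∈ I) ∧ ∑ i, d i = n + 1}

/-- the values `l b / η`, `l` a basic decomposition of `d`, `1 ≤ η ≤ δ` -/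
def VV (n δ N : ℕ) (d : Fin N → ℝ) : Set ℝ :=
  ⋃ η ∈ Set.Icc 1 δ, ⋃ b : Fin (n + 1) → Fin N,
    (fun (l : (Fin (n + 1) → Fin N) → ℝ) => l b / (η : ℝ)) ''
      {l : (Fin (n + 1) → Fin N) → ℝ | ∃ S, Feas S d l ∧ Basic l}

theorem VV_fin (hBa2 : StBa2) (n δ N : ℕ) (d : Fin N → ℝ) : (VV n δ N d).Finite :=
  Set.Finite.biUnion (Set.finite_Icc 1 δ) fun _ _ =>
    Set.finite_iUnion fun _ => (hBa2 ℝ n N d).image _

theorem mem_VV (n δ N : ℕ) (d : Fin N → ℝ) (S : Set (Fin (n + 1) → Fin N))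
    (l : (Fin (n + 1) → Fin N) → ℝ) (hF : Feas S d l) (hB : Basic l) (η : ℕ) (h1 : 0 < η)
    (h2 : η ≤ δ) (b : Fin (n + 1) → Fin N) : l b / (η : ℝ) ∈ VV n δ N d :=
  Set.mem_biUnion (show η ∈ Set.Icc 1 δ from ⟨h1, h2⟩)
    (Set.mem_iUnion.2 ⟨b, ⟨l, ⟨S, hF, hB⟩, rfl⟩⟩)

/-- the union -/
def UU (n δ : ℕ) (I : Set ℝ) (N₀ : ℕ) : Set ℝ := ⋃ N ∈ Set.Iic N₀, ⋃ d ∈ DD n I N, VV n δ N d

theorem UU_fin (hBa2 : StBa2) (n δ : ℕ) (I : Set ℝ) (N₀ : ℕ)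
    (hfin : ∀ N, (DD n I N).Finite) : (UU n δ I N₀).Finite :=
  Set.Finite.biUnion (Set.finite_Iic N₀) fun N _ =>
    Set.Finite.biUnion (hfin N) fun d _ => VV_fin hBa2 n δ N d

theorem mem_UU (n δ : ℕ) (I : Set ℝ) (N₀ N : ℕ) (hN : N ≤ N₀) (d : Fin N → ℝ) (hd : d ∈ DD n I N)
    (t : ℝ) (ht : t ∈ VV n δ N d) : t ∈ UU n δ I N₀ :=
  Set.mem_biUnion (show N ∈ Set.Iic N₀ from hN) (Set.mem_biUnion hd ht)

end XCsb

open XCsb in
theorem pr_Csb (hBa2 : StBa2) (hPb : StPb) (hFid : StFid) : StCsb := by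
  intro n δ₀ I hI hdcc
  obtain ⟨⟨N₀, hN₀⟩, hfin'⟩ := hFid n I hI hdcc
  have hfin : ∀ N, (DD n I N).Finite := hfin'
  have hU := UU_fin hBa2 n δ₀ I N₀ hfin
  have hp : ∀ (N : ℕ) (d : Fin N → ℝ), ∃ (l : ℕ) (a : Fin l → ℝ) (m₀ : ℕ), 0 < m₀ ∧
      (d ∈ DD n I N → (∀ i, 0 < a i) ∧ ∑ i, a i = 1 ∧
        ∀ m : ℕ, 0 < m → m₀ ∣ m →
          ∃ G : Fin l → Finset ((Fin (n + 1) → Fin N) → ℕ), PbC d m a G) := by
    intro N d
    by_cases hd : d ∈ DD n I N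
    · obtain ⟨l, a, m₀, h1, h2, h3, h4⟩ := hPb n N d fun i => (hI (hd.1 i)).1
      exact ⟨l, a, m₀, h3, fun _ => ⟨h1, h2, h4⟩⟩
    · exact ⟨0, fun _ => 0, 1, one_pos, fun h => (hd h).elim⟩
  choose l a m₀ h0 hp using hp
  refine ⟨{t : ℝ | 0 < t ∧ t ∈ UU n δ₀ I N₀}, ⋃ N ∈ Set.Iic N₀, ⋃ d ∈ DD n I N, Set.range (a N d),
    ∏ N ∈ Finset.Iic N₀, ∏ d ∈ (hfin N).toFinset, m₀ N d, hU.subset fun t ht => ht.2,
    fun t ht => ht.1, ?_, ?_, ?_, ?_⟩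
  · intro t ht
    obtain ⟨N, -, ht⟩ := Set.mem_iUnion₂.1 ht
    obtain ⟨d, hd, ht⟩ := Set.mem_iUnion₂.1 ht
    obtain ⟨i, rfl⟩ := ht
    obtain ⟨h1, h2, -⟩ := hp N d hd
    refine ⟨h1 i, ?_⟩
    rw [← h2]
    exact Finset.single_le_sum (f := a N d) (fun j _ => (h1 j).le) (Finset.mem_univ i)
  · exact Set.Finite.biUnion (Set.finite_Iic N₀) fun N _ =>
      Set.Finite.biUnion (hfin N) fun d _ => Set.finite_range _
  · exact Nat.one_le_iff_ne_zero.2 (Finset.prod_pos fun N _ => Finset.prod_pos fun d _ => h0 N d).ne'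
  · intro N d hd1 hd2
    have hd : d ∈ DD n I N := ⟨hd1, hd2⟩
    have hN : N ≤ N₀ := hN₀ N d hd1 hd2
    constructor
    · intro S l' η hF hB hη hηδ b
      rcases (hF.nonneg b).eq_or_lt with h | h
      · left
        exact h.symm
      · right
        refine ⟨div_pos h (by exact_mod_cast hη), ?_⟩
        exact mem_UU n δ₀ I N₀ N hN d hd _ (mem_VV n δ₀ N d S l' hF hB η hη hηδ b)
    · obtain ⟨h1, h2, h3⟩ := hp N d hd
      obtain ⟨G, hG⟩ := h3 (∏ N ∈ Finset.Iic N₀, ∏ d ∈ (hfin N).toFinset, m₀ N d)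
        (Finset.prod_pos fun N _ => Finset.prod_pos fun d _ => h0 N d)
        ((Finset.dvd_prod_of_mem (m₀ N) ((hfin N).mem_toFinset.2 hd)).trans
          (Finset.dvd_prod_of_mem (fun N => ∏ d ∈ (hfin N).toFinset, m₀ N d)
            (Finset.mem_Iic.2 hN)))
      refine ⟨l N d, a N d, G, fun i => ?_, h2, hG⟩
      exact Set.mem_biUnion (show N ∈ Set.Iic N₀ from hN)
        (Set.mem_biUnion hd (Set.mem_range_self i))

end Pool.Agent.Work.MP_a2680c_ag.HA
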