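import Pool.Agent.Work.MP_a2680c_ag.HA.StmtsG

/-!
# MP_a2680c_ag, block HA, item Csg (helper41)
-/

set_option autoImplicit false

noncomputable section

namespace Pool.Agent.Work.MP_a2680c_ag.HA

open scoped BigOperators

namespace XCsg

/-- the vectors in question -/
def DD (n : ℕ) (I : Set ℝ) (N : ℕ) : Set (Fin N → ℝ) :=
  {d | (∀ i, d i ∈ I) ∧ ∑ i, d i = n + 1}

/-- the basic decompositions divided by `η`, `1 ≤ η ≤ δ` -/
def LL (n δ N : ℕ) (d : Fin N → ℝ) : Set ((Fin (n + 1) → Fin N) → ℝ) :=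
  ⋃ η ∈ Set.Icc 1 δ, (fun (l : (Fin (n + 1) → Fin N) → ℝ) b => l b / (η : ℝ)) ''
    {l : (Fin (n + 1) → Fin N) → ℝ | ∃ S, Feas S d l ∧ Basic l}

/-- the finite set of corrections -/
def EE (n δ N : ℕ) (d : Fin N → ℝ) : Set ℝ :=
  {t : ℝ | t ≤ 1 ∧ ∃ l ∈ LL n δ N d,
    ∃ κ : (Fin (n + 1) → Fin N) → ℕ, t = ∑ b, l b * (κ b : ℝ)}

theorem EE_fin (hBa2 : StBa2) (hDlt : StDlt) (n δ N : ℕ) (d : Fin N → ℝ) : (EE n δ N d).Finite := by
  refine hDlt _ _ (Set.Finite.biUnion (Set.finite_Icc 1 δ) fun η _ => (hBa2 ℝ n N d).image _) ?_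
  intro l hl b
  obtain ⟨η, -, hl⟩ := Set.mem_iUnion₂.1 hl
  obtain ⟨l', ⟨S, hS, -⟩, rfl⟩ := hl
  exact div_nonneg (hS.nonneg b) (Nat.cast_nonneg _)

/-- the union of the corrections -/
def E (n δ : ℕ) (I : Set ℝ) (N₀ : ℕ) : Set ℝ := ⋃ N ∈ Set.Iic N₀, ⋃ d ∈ DD n I N, EE n δ N d

theorem E_fin (hBa2 : StBa2) (hDlt : StDlt) (n δ : ℕ) (I : Set ℝ) (N₀ : ℕ)
    (hfin : ∀ N, (DD n I N).Finite) : (E n δ I N₀).Finite :=
  Set.Finite.biUnion (Set.finite_Iic N₀) fun N _ =>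
    Set.Finite.biUnion (hfin N) fun d _ => EE_fin hBa2 hDlt n δ N d

theorem mem_E (n δ : ℕ) (I : Set ℝ) (N₀ N : ℕ) (hN : N ≤ N₀) (d : Fin N → ℝ) (hd : d ∈ DD n I N)
    (t : ℝ) (ht : t ∈ EE n δ N d) : t ∈ E n δ I N₀ :=
  Set.mem_biUnion (show N ∈ Set.Iic N₀ from hN) (Set.mem_biUnion hd ht)

end XCsg

open XCsg in
theorem pr_Csg (hBa2 : StBa2) (hPb : StPb) (hFid : StFid) (hDlt : StDlt) (hDcj : StDcj) :
    StCsg := by
  intro n δ₀ I hI hdcc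
  obtain ⟨⟨N₀, hN₀⟩, hfin'⟩ := hFid n I hI hdcc
  have hfin : ∀ N, (DD n I N).Finite := hfin'
  have hE := E_fin hBa2 hDlt n δ₀ I N₀ hfin
  obtain ⟨hJ1, hJ2⟩ := hDcj I (E n δ₀ I N₀) hI hdcc hE
  have hp : ∀ (N : ℕ) (d : Fin N → ℝ), ∃ (l : ℕ) (a : Fin l → ℝ) (m₀ : ℕ), 0 < m₀ ∧
      (d ∈ DD n I N → (∀ i, 0 < a i) ∧ ∑ i, a i = 1 ∧
        ∀ m : ℕ, 0 < m → m₀ ∣ m →
          ∃ G : Fin l → Finset ((Fin (n + 1) → Fin N) → ℕ), PbC d m a G) := by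
    intro N d
    by_cases hd : d ∈ DD n I N
    · obtain ⟨l, a, m₀, h1, h2, h3, h4⟩ := hPb n N d fun i => (hI (hd.1 i)).1
      exact ⟨l, a, m₀, h3, fun _ => ⟨h1, h2, h4⟩⟩
    · exact ⟨0, fun _ => 0, 1, one_pos, fun h => (hd h).elim⟩
  choose l a m₀ h0 hp using hp
  refine ⟨JJ I (E n δ₀ I N₀), ⋃ N ∈ Set.Iic N₀, ⋃ d ∈ DD n I N, Set.range (a N d),
    ∏ N ∈ Finset.Iic N₀, ∏ d ∈ (hfin N).toFinset, m₀ N d, hJ2, hJ1, ?_, ?_, ?_, ?_⟩
  · intro t ht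
    obtain ⟨N, -, ht⟩ := Set.mem_iUnion₂.1 ht
    obtain ⟨d, hd, ht⟩ := Set.mem_iUnion₂.1 ht
    obtain ⟨i, rfl⟩ := ht
    obtain ⟨h1, h2, -⟩ := hp N d hd
    refine ⟨h1 i, ?_⟩
    rw [← h2]
    exact Finset.single_le_sum (f := a N d) (fun j _ => (h1 j).le) (Finset.mem_univ i)
  · exact Set.Finite.biUnion (Set.finite_Iic N₀) fun N _ =>
      Set.Finite.biUnion (hfin N) fun d _ => Set.finite_range _
  · exact Nat.one_le_iff_ne_zero.2 (Finset.prod_pos fun N _ => Finset.prod_pos fun d _ => h0 N d).ne'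
  · intro N d hd1 hd2
    have hd : d ∈ DD n I N := ⟨hd1, hd2⟩
    have hN : N ≤ N₀ := hN₀ N d hd1 hd2
    constructor
    · intro S l' κ δ μ η hF hB hδ hμ hη hηδ hle
      have hδ0 : 0 ≤ δ := by
        rcases hδ with h | h
        · exact h.ge
        · exact (hI h).1.le
      have hη0 : (0 : ℝ) ≤ η := Nat.cast_nonneg _
      have hΔ0 : 0 ≤ (∑ b, l' b * (κ b : ℝ)) / η :=
        div_nonneg (Finset.sum_nonneg fun b _ => mul_nonneg (hF.nonneg b) (Nat.cast_nonneg _)) hη0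
      have hμ1 : (1 : ℝ) ≤ μ := by exact_mod_cast hμ
      have hmem : (∑ b, l' b * (κ b : ℝ)) / η ∈ E n δ₀ I N₀ := by
        refine mem_E n δ₀ I N₀ N hN d hd _ ⟨by linarith, fun b => l' b / η, ?_, κ, ?_⟩
        · exact Set.mem_biUnion (show η ∈ Set.Icc 1 δ₀ from ⟨hη, hηδ⟩) ⟨l', ⟨S, hF, hB⟩, rfl⟩
        · rw [Finset.sum_div]
          exact Finset.sum_congr rfl fun b _ => by ring
      set Δ := (∑ b, l' b * (κ b : ℝ)) / η with hΔ
      have ht0 : 0 ≤ 1 - (1 - δ - Δ) / μ := by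
        have : (1 - δ - Δ) / μ ≤ 1 := by
          rw [div_le_one (by linarith)]
          linarith
        linarith
      rcases ht0.eq_or_lt with h | h
      · left
        exact h.symm
      · right
        refine ⟨h, δ, ?_, Δ, hmem, μ, hμ, hΔ0, hle, rfl⟩
        rcases hδ with h | h
        · left
          exact h
        · right
          exact h
    · obtain ⟨h1, h2, h3⟩ := hp N d hd
      obtain ⟨G, hG⟩ := h3 (∏ N ∈ Finset.Iic N₀, ∏ d ∈ (hfin N).toFinset, m₀ N d)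
        (Finset.prod_pos fun N _ => Finset.prod_pos fun d _ => h0 N d)
        ((Finset.dvd_prod_of_mem (m₀ N) ((hfin N).mem_toFinset.2 hd)).trans
          (Finset.dvd_prod_of_mem (fun N => ∏ d ∈ (hfin N).toFinset, m₀ N d)
            (Finset.mem_Iic.2 hN)))
      refine ⟨l N d, a N d, G, fun i => ?_, h2, hG⟩
      exact Set.mem_biUnion (show N ∈ Set.Iic N₀ from hN)
        (Set.mem_biUnion hd (Set.mem_range_self i))

end Pool.Agent.Work.MP_a2680c_ag.HA
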