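import Pool.Agent.Work.MP_a2680c_ag.HA.StmtsC

/-! Item [a2680c HA Ctr] (helper9): centres of valuations. -/

set_option autoImplicit false

noncomputable section

namespace Pool.Agent.Work.MP_a2680c_ag.HA

open MP7b66e6 MP7b66e6.Q
open scoped BigOperators

universe u

theorem pr_Ctr (hLoc : StLoc.{u}) : StCtr.{u} := by
  intro k K F _ _ _ _ _ _ _ Z X hZ hX hm hp v W m hWk hL P hP hc
  have hmp : (0 : ℤ) < m := by exact_mod_cast hL.1
  have hne : ∀ {f : K}, f ≠ 0 → algebraMap K F f ≠ 0 := fun h => by simpa using h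
  -- transfer of values
  have t1 : ∀ f : K, 0 ≤ v f → 0 ≤ W (algebraMap K F f) := by
    intro f hf
    by_cases h0 : f = 0
    · rw [h0, map_zero, AddValuation.map_zero]; exact le_top
    rw [← Api.val_nonneg v h0] at hf
    rw [← Api.val_nonneg W (hne h0), hL.2 f h0]
    positivity
  have t2 : ∀ f : K, 0 ≤ W (algebraMap K F f) → 0 ≤ v f := by
    intro f hf
    by_cases h0 : f = 0
    · rw [h0, AddValuation.map_zero]; exact le_top
    rw [← Api.val_nonneg W (hne h0), hL.2 f h0] at hf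
    rw [← Api.val_nonneg v h0]
    by_contra hcon
    push Not at hcon
    have := mul_neg_of_pos_of_neg hmp hcon
    omega
  have z1 : ∀ f : K, f ≠ 0 → 0 ≤ v f → 0 ≤ v f⁻¹ → v f = 0 := by
    intro f h0 h1 h2
    rw [← Api.val_nonneg v h0] at h1
    rw [← Api.val_nonneg v (inv_ne_zero h0), Api.val_inv v h0] at h2
    rw [Api.coe_val v h0, show val v f = 0 by omega]; rfl
  have hdomPV : Dom P (Api.ring W hWk) := by
    intro f hf
    refine ⟨t1 f (hc.1 f hf), fun h0 hi => ?_⟩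
    have hi' : 0 ≤ W ((algebraMap K F f)⁻¹) := hi
    rw [← map_inv₀] at hi'
    exact hc.2 f hf (z1 f h0 (hc.1 f hf) (t2 _ hi'))
  obtain ⟨O, hO, hOV⟩ := hp _ (Api.isVal_ring W hWk) ⟨P, hP, hdomPV⟩
  have hcO : Cen O W := (Api.dom_ring_iff W hWk O).1 hOV
  obtain ⟨P', hP', hd'⟩ := hm O hO
  have hc' : Cen P' v := by
    refine ⟨fun f hf => t2 f (hcO.1 _ (hd' f hf).1), fun f hf h0 => ?_⟩
    have hf0 : f ≠ 0 := by
      intro h1; rw [h1, AddValuation.map_zero] at h0; exact absurd h0 (by simp)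
    have h1 : W (algebraMap K F f) = 0 := by
      rw [Api.coe_val W (hne hf0), hL.2 f hf0, Api.val_of v (m := 0) h0]
      simp
    exact (hd' f hf).2 hf0 (hcO.2 _ (hd' f hf).1 h1)
  have : P = P' := (hLoc k K Z hZ).2.2 P hP P' hP' v hc hc'
  rw [this]
  exact ⟨O, hO, hcO, hd'⟩

end Pool.Agent.Work.MP_a2680c_ag.HA
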