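import Pool.Agent.Work.MP_a2680c_ag.HA.StmtsX

set_option autoImplicit false

noncomputable section

namespace Pool.Agent.Work.MP_a2680c_ag.HA

open MP7b66e6 MP7b66e6.Q
open scoped BigOperators

universe u

namespace XCvc

theorem ext_val {E : Type u} [Field E] (ν w : AddValuation E (WithTop ℤ))
    (h : ∀ f : E, f ≠ 0 → val ν f = val w f) : ν = w := by
  apply AddValuation.ext
  intro f
  by_cases hf : f = 0
  · rw [hf, AddValuation.map_zero, AddValuation.map_zero]
  · rw [Api.coe_val ν hf, Api.coe_val w hf, h f hf]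

theorem val_ne {E : Type u} [Field E] (ν : AddValuation E (WithTop ℤ)) {π : E} (h : ν π = 1) : π ≠ 0 := by
  intro h0
  rw [h0, AddValuation.map_zero] at h
  exact absurd h (by decide)

theorem val_eq_one {E : Type u} [Field E] (ν : AddValuation E (WithTop ℤ)) {π : E} (h : ν π = 1) : val ν π = 1 :=
  Api.val_of ν (by rw [h]; rfl)

/-- a normalized valuation under `ν'` is the restriction of `ν'` when `ν'` takes the value `1` on the small field -/
theorem uniq {E F' : Type u} [Field E] [Field F'] [Algebra E F'] (ν' : AddValuation F' (WithTop ℤ)) (w : AddValuation E (WithTop ℤ))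
    (m : ℕ) (π : E) (hπ : ν' (algebraMap E F' π) = 1) (hL : Lies w ν' m) : w = Api.res E ν' := by
  have hr : ∀ f : E, val (Api.res E ν') f = val ν' (algebraMap E F' f) := fun f => rfl
  have hπ0 : π ≠ 0 := val_ne (Api.res E ν') hπ
  have h1 : val ν' (algebraMap E F' π) = 1 := val_eq_one (Api.res E ν') hπ
  have h2 := hL.2 π hπ0
  rw [h1] at h2
  have h3 : (m : ℤ) = 1 := by
    have h4 : (m : ℤ) ∣ 1 := ⟨val w π, h2⟩
    exact Int.eq_one_of_dvd_one (by exact_mod_cast Nat.zero_le m) h4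
  apply ext_val
  intro f hf
  rw [hr, hL.2 f hf, h3, one_mul]

/-- the sum over the places -/
theorem sum_eq {F' : Type u} (N : ℕ) (A : Set F') (e : A ≃ Fin N) (g : F' → ℝ) (x : F') (c : Fin N → ℝ)
    (h1 : ∀ i, x = (e.symm i : F') → c i = 1) (h2 : ∀ i, x ≠ (e.symm i : F') → c i = 0) (h3 : x ∉ A → g x = 0) :
    ∑ i, g (e.symm i : F') * c i = g x := by
  classical
  by_cases hx : x ∈ A
  · rw [Finset.sum_eq_single (e ⟨x, hx⟩)]
    · rw [h1 (e ⟨x, hx⟩) (by rw [Equiv.symm_apply_apply]), Equiv.symm_apply_apply, mul_one]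
    · intro i _ hi
      rw [h2 i, mul_zero]
      intro hxi
      apply hi
      have h4 : (⟨x, hx⟩ : A) = e.symm i := Subtype.ext hxi
      rw [h4, Equiv.apply_symm_apply]
    · intro h
      exact absurd (Finset.mem_univ _) h
  · rw [h3 hx]
    apply Finset.sum_eq_zero
    intro i _
    rw [h2 i, mul_zero]
    intro hxi
    apply hx
    rw [hxi]
    exact (e.symm i).2

end XCvc

open XCvc

theorem pr_Cvc (hCls : StCls.{u}) (hFpl : StFpl.{u}) (hRpv : StRpv.{u}) (hUnr : StUnr.{u}) : StCvc.{u} := by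
  intro k K E K' F' _ _ _ _ _ _ _ _ _ _ _ _ _ _ _ _ _ _ _ _ _ _ _ _ _ δ I 𝔻 y hconn hdiv hfin hI hSpt hK hF
  haveI : CharZero K := charZero_of_injective_algebraMap (algebraMap k K).injective
  -- restriction of places
  have hres : ∀ ν' : AddValuation F' (WithTop ℤ), Plc K' ν' →
      (∃ π : E, ν' (algebraMap E F' π) = 1) ∧ Plc K (Api.res E ν') := by
    intro ν' hν'
    obtain ⟨π, hπ⟩ := hUnr K E K' F' hSpt.comp ν' hν'
    refine ⟨⟨π, hπ⟩, ⟨π, hπ⟩, ?_⟩
    intro c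
    show 0 ≤ ν' (algebraMap E F' (algebraMap K E c))
    rw [← IsScalarTower.algebraMap_apply K E F', IsScalarTower.algebraMap_apply K K' F']
    exact hν'.2 _
  have hlies : ∀ ν' : AddValuation F' (WithTop ℤ), Lies (Api.res E ν') ν' 1 := by
    intro ν'
    refine ⟨one_pos, ?_⟩
    intro f _
    rw [Nat.cast_one, one_mul]
    rfl
  have hmem : ∀ ν' : AddValuation F' (WithTop ℤ), ν' ∈ Abv K' {w : AddValuation E (WithTop ℤ) | Plc K w ∧ 𝔻 w ≠ 0} →
      Plc K' ν' ∧ 𝔻 (Api.res E ν') ≠ 0 := by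
    intro ν' hν'
    obtain ⟨hp, w, hw, m, hL⟩ := hν'
    obtain ⟨⟨π, hπ⟩, _⟩ := hres ν' hp
    have h := uniq ν' w m π hπ hL
    rw [← h]
    exact ⟨hp, hw.2⟩
  have hnot : ∀ ν' : AddValuation F' (WithTop ℤ), Plc K' ν' →
      ν' ∉ Abv K' {w : AddValuation E (WithTop ℤ) | Plc K w ∧ 𝔻 w ≠ 0} → 𝔻 (Api.res E ν') = 0 := by
    intro ν' hp hn
    by_contra h0
    exact hn ⟨hp, Api.res E ν', ⟨(hres ν' hp).2, h0⟩, 1, hlies ν'⟩
  -- finiteness
  have hA : (Abv K' {w : AddValuation E (WithTop ℤ) | Plc K w ∧ 𝔻 w ≠ 0} : Set (AddValuation F' (WithTop ℤ))).Finite := by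
    have hU : (⋃ w ∈ {w : AddValuation E (WithTop ℤ) | Plc K w ∧ 𝔻 w ≠ 0},
        {ν' : AddValuation F' (WithTop ℤ) | ∃ h : Plc K w, Plc K' ν' ∧ val ν' (algebraMap E F' h.1.choose) ≠ 0}).Finite := by
      apply hfin.biUnion
      intro w hw
      have hc : w hw.1.1.choose = 1 := hw.1.1.choose_spec
      have hne : algebraMap E F' hw.1.1.choose ≠ 0 := by
        intro h0
        exact val_ne w hc ((map_eq_zero (algebraMap E F')).1 h0)
      refine (hFpl K' F' y hSpt.gen _ hne).subset ?_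
      rintro ν' ⟨h, h1, h2⟩
      exact ⟨h1, h2⟩
    refine hU.subset ?_
    rintro ν' ⟨hp, w, hw, m, hL⟩
    refine Set.mem_biUnion hw ⟨hw.1, hp, ?_⟩
    have hc : w hw.1.1.choose = 1 := hw.1.1.choose_spec
    rw [hL.2 _ (val_ne w hc), val_eq_one w hc, mul_one]
    have := hL.1
    exact_mod_cast this.ne'
  haveI : Finite (Abv K' {w : AddValuation E (WithTop ℤ) | Plc K w ∧ 𝔻 w ≠ 0} : Set (AddValuation F' (WithTop ℤ))) := hA
  obtain ⟨N, hN⟩ : ∃ N : ℕ, N = (Abv K' {w : AddValuation E (WithTop ℤ) | Plc K w ∧ 𝔻 w ≠ 0} :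
      Set (AddValuation F' (WithTop ℤ))).ncard := ⟨_, rfl⟩
  have e : (Abv K' {w : AddValuation E (WithTop ℤ) | Plc K w ∧ 𝔻 w ≠ 0} : Set (AddValuation F' (WithTop ℤ))) ≃ Fin N :=
    Finite.equivFinOfCardEq (by rw [hN]; exact Nat.card_coe_set_eq _)
  have hrp : ∀ i : Fin N, ∃ c : Fin 2 → K', Rpt y (e.symm i : AddValuation F' (WithTop ℤ)) c := by
    intro i
    exact (hRpv K' F' y hSpt.gen).1 _ (hmem _ (e.symm i).2).1 (hSpt.rat _ (e.symm i).2)
  choose a ha using hrp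
  refine ⟨N, a, fun i => 𝔻 (Api.res E (e.symm i : AddValuation F' (WithTop ℤ))), ?_, hN⟩
  refine ⟨hconn, hSpt.gen.1, hSpt.gen.2, hK, hF, fun i => (ha i).1, ?_, ?_, ?_⟩
  · intro i
    have h := hmem _ (e.symm i).2
    rcases hI _ (hres _ h.1).2 with h0 | h1
    · exact absurd h0 h.2
    · exact h1
  · intro p ν' hp
    have hP := ((hCls K' F' y hSpt.gen).2.1 p ν' hp).1
    refine ⟨Api.res E ν', 1, hdiv _ (hres ν' hP).2, hlies ν', ?_⟩
    have hs := sum_eq N _ e (fun ν' => 𝔻 (Api.res E ν')) ν' (fun i => (val ν' (lin y (a i)) : ℝ))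
      (fun i hi => by
        have := (((hRpv K' F' y hSpt.gen).2 _ (a i) (hmem _ (e.symm i).2).1 (ha i)).1 p ν' hp).1 hi
        rw [this, Int.cast_one])
      (fun i hi => by
        have := (((hRpv K' F' y hSpt.gen).2 _ (a i) (hmem _ (e.symm i).2).1 (ha i)).1 p ν' hp).2 hi
        rw [this, Int.cast_zero])
      (fun hn => hnot ν' hP hn)
    rw [hs, Nat.cast_one]
    ring
  · intro ν' hp
    have hP := ((hCls K' F' y hSpt.gen).2.2.1 ν' hp).1
    refine ⟨Api.res E ν', 1, hdiv _ (hres ν' hP).2, hlies ν', ?_⟩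
    have hs := sum_eq N _ e (fun ν' => 𝔻 (Api.res E ν')) ν' (fun i => (1 + (val ν' (lin y (a i)) : ℝ)))
      (fun i hi => by
        have := (((hRpv K' F' y hSpt.gen).2 _ (a i) (hmem _ (e.symm i).2).1 (ha i)).2 ν' hp).1 hi
        rw [this, Int.cast_zero, add_zero])
      (fun i hi => by
        have := (((hRpv K' F' y hSpt.gen).2 _ (a i) (hmem _ (e.symm i).2).1 (ha i)).2 ν' hp).2 hi
        rw [this, Int.cast_neg, Int.cast_one, add_neg_cancel])
      (fun hn => hnot ν' hP hn)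
    rw [hs, Nat.cast_one]
    ring

end Pool.Agent.Work.MP_a2680c_ag.HA
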