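import Pool.Agent.Work.MP_a2680c_ag.HA.StmtsA

/-!
# MP_a2680c_ag, block HA, item Dcj: the coefficients of the discriminant satisfy DCC (helper59)
-/

set_option autoImplicit false

noncomputable section

namespace Pool.Agent.Work.MP_a2680c_ag.HA

open scoped BigOperators

namespace XDcj

theorem pwo (I : Set ℝ) (h : DCC I) : I.IsPWO := by
  refine Set.IsWF.isPWO ?_
  rw [Set.isWF_iff_no_descending_seq]
  intro f hf hn
  exact h f hn hf

end XDcj

theorem pr_Dcj : StDcj := by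
  intro I E _ hD hE
  constructor
  · intro s hs hanti
    have h1 : ((insert (0 : ℝ) I) ×ˢ (E ×ˢ (Set.univ : Set ℕ))).IsPWO :=
      ((XDcj.pwo I hD).insert 0).prod (hE.isPWO.prod (Set.isPWO_of_wellQuasiOrderedLE _))
    rw [Set.isPWO_iff_exists_monotone_subseq] at h1
    choose _ δ hδ Δ hΔ μ hμ hΔ0 hsum ht using hs
    obtain ⟨g, hg⟩ := h1 (fun j => (δ j, Δ j, μ j)) (fun j => ⟨hδ j, hΔ j, Set.mem_univ _⟩)
    have hle : (δ (g 0), Δ (g 0), μ (g 0)) ≤ (δ (g 1), Δ (g 1), μ (g 1)) := hg (Nat.zero_le 1)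
    obtain ⟨a1, a2, a3⟩ := hle
    have a1' : δ (g 0) ≤ δ (g 1) := a1
    have a2' : Δ (g 0) ≤ Δ (g 1) := a2
    have a3' : μ (g 0) ≤ μ (g 1) := a3
    have hlt : s (g 1) < s (g 0) := hanti (g.strictMono (by norm_num))
    rw [ht (g 0), ht (g 1)] at hlt
    have m0 : (0 : ℝ) < μ (g 0) := by exact_mod_cast hμ (g 0)
    have m01 : (μ (g 0) : ℝ) ≤ μ (g 1) := by exact_mod_cast a3'
    have key : (1 - δ (g 1) - Δ (g 1)) / (μ (g 1) : ℝ) ≤ (1 - δ (g 0) - Δ (g 0)) / (μ (g 0) : ℝ) := by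
      have h0 := hsum (g 0)
      have h1 := hsum (g 1)
      exact div_le_div₀ (by linarith) (by linarith) m0 m01
    linarith
  · rintro t ⟨h0, δ, hδ, Δ, hΔ, μ, hμ, hΔ0, hsum, ht⟩
    refine ⟨h0, ?_⟩
    have m0 : (0 : ℝ) < μ := by exact_mod_cast hμ
    have : 0 ≤ (1 - δ - Δ) / (μ : ℝ) := div_nonneg (by linarith) m0.le
    linarith

end Pool.Agent.Work.MP_a2680c_ag.HA
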