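import Pool.Agent.Work.MP_a2680c_ag.HA.StmtsW

/-!
# MP_a2680c_ag, block HA, item Dim: the transcendence degrees
-/

set_option autoImplicit false

noncomputable section

namespace Pool.Agent.Work.MP_a2680c_ag.HA

open MP7b66e6 MP7b66e6.Q
open scoped BigOperators

universe u

namespace XDim

/-- generators which are algebraically independent form a transcendence basis -/
theorem basis_gen {K F : Type u} [Field K] [Field F] [Algebra K F] {n : ℕ} (z : Fin n → F)
    (hz1 : AlgebraicIndependent K z) (hz2 : IntermediateField.adjoin K (Set.range z) = ⊤) :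
    IsTranscendenceBasis K z := by
  have halg : Algebra.IsAlgebraic (Algebra.adjoin K (Set.range z)) F := by
    refine ⟨fun x => ?_⟩
    have hx : x ∈ IntermediateField.adjoin K (Set.range z) := by
      rw [hz2]
      exact IntermediateField.mem_top
    obtain ⟨r, hr, s, hs, rfl⟩ := IntermediateField.mem_adjoin_iff_div.1 hx
    rw [div_eq_mul_inv]
    have h5 : IsAlgebraic (Algebra.adjoin K (Set.range z)) r :=
      isAlgebraic_algebraMap (⟨r, hr⟩ : Algebra.adjoin K (Set.range z))
    have h6 : IsAlgebraic (Algebra.adjoin K (Set.range z)) s :=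
      isAlgebraic_algebraMap (⟨s, hs⟩ : Algebra.adjoin K (Set.range z))
    exact h5.mul h6.inv
  exact hz1.isTranscendenceBasis_iff_isAlgebraic.2 halg

/-- the transcendence degree from a basis -/
theorem trdeg_of {K F : Type u} [Field K] [Field F] [Algebra K F] {n : ℕ} {z : Fin n → F}
    (hz : IsTranscendenceBasis K z) : Algebra.trdeg K F = (n : Cardinal) := by
  have h3 := hz.lift_cardinalMk_eq_trdeg
  rw [Cardinal.mk_fin, Cardinal.lift_natCast, Cardinal.lift_uzero] at h3
  exact h3.symm

/-- composition of transcendence bases -/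
theorem cor_basis {k K F : Type u} [Field k] [Field K] [Field F] [Algebra k K] [Algebra k F]
    [Algebra K F] [IsScalarTower k K F] {e n : ℕ} (r : Fin e → K) (x : Fin n → F)
    (hr : IsTranscendenceBasis k r) (hx : IsTranscendenceBasis K x) :
    IsTranscendenceBasis k (cor r x) := by
  have h1 := hr.sumElim_comp hx
  have h2 : (Sum.elim x (algebraMap K F ∘ r)) ∘
      ((finSumFinEquiv (m := e) (n := n)).symm.trans (Equiv.sumComm (Fin e) (Fin n))) =
      cor r x := by
    funext i
    refine Fin.addCases (fun i => ?_) (fun j => ?_) i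
    · simp [cor]
    · simp [cor]
  rw [← h2]
  exact (isTranscendenceBasis_equiv _).2 h1

/-- an algebraic extension does not change the transcendence degree -/
theorem trdeg_alg (k F F' : Type u) [Field k] [Field F] [Field F'] [Algebra k F] [Algebra k F']
    [Algebra F F'] [IsScalarTower k F F'] [Algebra.IsAlgebraic F F'] :
    Algebra.trdeg k F = Algebra.trdeg k F' := by
  have h := trdeg_add_eq k F (A := F')
  have h0 : Algebra.trdeg F F' = 0 := trdeg_eq_zero
  rw [h0, add_zero] at h
  exact h

/-- the compositum is algebraic -/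
theorem comp_alg (K E K₁ F₁ : Type u) [Field K] [Field E] [Field K₁] [Field F₁] [Algebra K E]
    [Algebra K K₁] [Algebra K F₁] [Algebra E F₁] [Algebra K₁ F₁] [IsScalarTower K E F₁]
    [IsScalarTower K K₁ F₁] [FiniteDimensional K K₁]
    (h : IntermediateField.adjoin E (Set.range (algebraMap K₁ F₁)) = ⊤) :
    Algebra.IsAlgebraic E F₁ := by
  have h1 : Algebra.IsAlgebraic E
      (IntermediateField.adjoin E (Set.range (algebraMap K₁ F₁))) := by
    refine IntermediateField.isAlgebraic_adjoin ?_
    rintro _ ⟨c, rfl⟩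
    have hc : IsIntegral K c := Algebra.IsIntegral.isIntegral c
    have hc' : IsIntegral K (algebraMap K₁ F₁ c) := hc.algebraMap
    exact hc'.tower_top
  refine ⟨fun x => ?_⟩
  have hx : x ∈ IntermediateField.adjoin E (Set.range (algebraMap K₁ F₁)) := by
    rw [h]
    exact IntermediateField.mem_top
  have h2 := h1.isAlgebraic ⟨x, hx⟩
  exact h2.algebraMap (A := F₁)

end XDim

open XDim in
/-- The item Dim. -/
theorem pr_Dim (hTbs : StTbs.{u}) (hTfr : StTfr.{u}) : StDim.{u} := by
  refine ⟨?_, ?_⟩
  · intro k K F K' F' _ _ _ _ _ _ _ _ _ _ _ _ _ _ _ _ _ _ _ _ hess e d n r c y hr hc hy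
    obtain ⟨h1, h2⟩ := hTbs k K K' e r hr
    have h3 : Algebra.EssFiniteType k K' := h2 hess
    obtain ⟨-, h4, -⟩ := hTfr k K' F' e n (up K' r) y h1 hy
    have h5 := trdeg_of hc
    have h6 := trdeg_alg k F F'
    rw [h5, h4] at h6
    exact_mod_cast h6
  · intro k K E _ _ _ _ _ _ _ _ e r hr hG
    obtain ⟨-, K₁, F₁, _, _, _, _, _, _, _, _, _, _, y, hgen, hy1, hy2⟩ := hG
    have halg : Algebra.IsAlgebraic E F₁ := comp_alg K E K₁ F₁ hgen
    have h1 : Algebra.trdeg K₁ F₁ = ((1 : ℕ) : Cardinal) := trdeg_of (basis_gen y hy1 hy2)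
    have h2 := trdeg_add_eq K K₁ (A := F₁)
    have h3 : Algebra.trdeg K K₁ = 0 := trdeg_eq_zero
    rw [h3, zero_add, h1] at h2
    have h4 : Algebra.trdeg K E = ((1 : ℕ) : Cardinal) := by
      rw [trdeg_alg K E F₁, ← h2]
    have h5 : Algebra.trdeg K E ≠ 0 := by
      rw [h4, Nat.cast_one]
      exact one_ne_zero
    obtain ⟨x, hx⟩ := trdeg_ne_zero_iff.1 h5
    have h6 : AlgebraicIndependent K (fun _ : Fin 1 => x) :=
      algebraicIndependent_unique_type_iff.2 hx
    have h7 : IsTranscendenceBasis K (fun _ : Fin 1 => x) := by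
      refine h6.isTranscendenceBasis_of_lift_trdeg_le_of_finite ?_
      rw [h4, Cardinal.mk_fin, Cardinal.lift_natCast, Cardinal.lift_natCast]
    have h8 := cor_basis r _ hr h7
    refine ⟨⟨_, h7, h8⟩, fun d c hc => ?_⟩
    have h9 := trdeg_of hc
    rw [trdeg_of h8] at h9
    exact_mod_cast h9.symm

end Pool.Agent.Work.MP_a2680c_ag.HA
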