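import Pool.Agent.Work.MP_a2680c_ag.HA.StmtsA

/-!
# Block HA, item Dlt: the finite set of the thresholds
-/

set_option autoImplicit false

noncomputable section

namespace Pool.Agent.Work.MP_a2680c_ag.HA

open scoped BigOperators

theorem pr_Dlt : StDlt := by
  classical
  intro β _ Λ hΛ hpos
  have hsub : {t : ℝ | t ≤ 1 ∧ ∃ l ∈ Λ, ∃ κ : β → ℕ, t = ∑ b, l b * (κ b : ℝ)} ⊆
      ⋃ l ∈ Λ, (fun κ : β → ℕ => ∑ b, l b * (κ b : ℝ)) ''
        (↑(Fintype.piFinset fun b => Finset.range (⌊1 / l b⌋₊ + 1)) : Set (β → ℕ)) := by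
    rintro t ⟨ht, l, hl, κ, rfl⟩
    refine Set.mem_biUnion hl ?_
    refine ⟨fun b => if l b = 0 then 0 else κ b, ?_, ?_⟩
    · rw [Finset.mem_coe, Fintype.mem_piFinset]
      intro b
      rw [Finset.mem_range]
      by_cases hb : l b = 0
      · rw [if_pos hb]
        exact Nat.succ_pos _
      · rw [if_neg hb]
        have hb0 : 0 < l b := lt_of_le_of_ne (hpos l hl b) (Ne.symm hb)
        have h1 : l b * (κ b : ℝ) ≤ ∑ c, l c * (κ c : ℝ) :=
          Finset.single_le_sum (f := fun c => l c * (κ c : ℝ))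
            (fun c _ => mul_nonneg (hpos l hl c) (Nat.cast_nonneg _)) (Finset.mem_univ b)
        have h2 : (κ b : ℝ) ≤ 1 / l b := by
          rw [le_div_iff₀ hb0, mul_comm]
          exact h1.trans ht
        exact Nat.lt_succ_of_le (Nat.le_floor h2)
    · show ∑ b, l b * (((if l b = 0 then 0 else κ b : ℕ)) : ℝ) = ∑ b, l b * (κ b : ℝ)
      apply Finset.sum_congr rfl
      intro b _
      by_cases hb : l b = 0
      · rw [hb, zero_mul, zero_mul]
      · rw [if_neg hb]
  refine Set.Finite.subset ?_ hsub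
  exact hΛ.biUnion fun l _ => (Finset.finite_toSet _).image _

end Pool.Agent.Work.MP_a2680c_ag.HA
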