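import Pool.Agent.Work.MP_a2680c_ag.HA.StmtsW

/-!
# Item Dsb of block HA, part W: the discriminant of a b-fibration
-/

set_option autoImplicit false

noncomputable section

namespace Pool.Agent.Work.MP_a2680c_ag.HA

open MP7b66e6 MP7b66e6.Q
open scoped BigOperators

universe u

namespace XDsb

lemma index_unique {K F : Type u} [Field K] [Field F] [Algebra K F] {v : AddValuation K (WithTop ℤ)}
    {W : AddValuation F (WithTop ℤ)} {s t : ℕ} (hv : ∃ π : K, v π = 1) (h : Lies v W s) (h' : Lies v W t) : s = t := by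
  obtain ⟨π, hπ⟩ := hv
  have hπ0 : π ≠ 0 := by
    intro h0; rw [h0, AddValuation.map_zero] at hπ; exact absurd hπ (by simp)
  have hvπ : val v π = 1 := Api.val_of v hπ
  have h1 := h.2 π hπ0
  have h2 := h'.2 π hπ0
  rw [hvπ, mul_one] at h1 h2
  rw [h1] at h2
  exact_mod_cast h2

lemma bas_nonempty {K : Type u} [Field K] {n N : ℕ} {a : Fin N → Fin (n + 1) → K} {d : Fin N → ℝ}
    {l : (Fin (n + 1) → Fin N) → ℝ} (hl : Feas (bas a) d l) (hd : ∑ i, d i = n + 1) : (bas a).Nonempty := by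
  by_contra hcon
  have hl0 : ∀ b, l b = 0 := fun b => hl.supp b fun hb => hcon ⟨b, hb⟩
  have hd0 : ∀ i, d i = 0 := by
    intro i
    rw [← hl.sum i]
    exact Finset.sum_eq_zero fun b _ => by rw [hl0 b, zero_mul]
  have h0 : ∑ i, d i = 0 := Finset.sum_eq_zero fun i _ => hd0 i
  rw [h0] at hd
  have : (0 : ℝ) < n + 1 := by positivity
  linarith

end XDsb

theorem pr_Dsb (hCmp : StCmp.{u}) (hTwb : StTwb.{u}) (hAvb : StAvb.{u}) : StDsb.{u} := by
  intro κ k K F K' F' _ _ _ _ _ _ _ _ _ _ _ _ _ _ _ _ _ _ _ _ _ _ _ _ e n N r c y Z 𝔻 L Φ a d Ξ J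
    hFib hGen ha hd hKey hconn v hv v' ε hv' hLv hOpt
  obtain ⟨l, hFeas, hBas, hmv, hleast, hpos, q, Y, hq, hY, hqY⟩ := hOpt
  have hε : (0 : ℝ) < ε := by exact_mod_cast hLv.1
  have hlow : ∀ t ∈ DisB k 𝔻 v, (Tg r Z L Ξ v v' ε - mv a d v') / ε ≤ t := by
    rintro t ⟨W, m, hW, hLW, rfl⟩
    obtain ⟨W', η, m', hW', hLWW', hLv'W'⟩ := hCmp k K F K' F' hconn v W v' m ε hW hLW hv'.1 hLv
    have hidx : η * m = m' * ε := XDsb.index_unique hv.1.1 (Api.lies_trans hLW hLWW') (Api.lies_trans hLv hLv'W')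
    obtain ⟨b', hb'⟩ := hAvb κ k K F K' F' e n N r c y Z 𝔻 L Φ a d Ξ J hFib hGen ha hd hKey v v' ε
      hv hv' hLv l hFeas hmv W W' η m' hW hW' hLWW' hLv'W'
    have hsum : 0 ≤ ∑ b, l b * (b' b : ℝ) :=
      Finset.sum_nonneg fun b _ => mul_nonneg (hFeas.nonneg b) (Nat.cast_nonneg _)
    have hm : (0 : ℝ) < m := by exact_mod_cast hLW.1
    have hm' : (0 : ℝ) < m' := by exact_mod_cast hLv'W'.1
    have hidx' : (η : ℝ) * m = m' * ε := by exact_mod_cast hidx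
    rw [div_le_div_iff₀ hε hm]
    have h1 : (m' : ℝ) * (Tg r Z L Ξ v v' ε - mv a d v') ≤ η * (1 - 𝔻 W) := by
      rw [hb']; linarith
    have h2 : m' * ((Tg r Z L Ξ v v' ε - mv a d v') * m) ≤ m' * ((1 - 𝔻 W) * ε) := by
      calc (m' : ℝ) * ((Tg r Z L Ξ v v' ε - mv a d v') * m)
          = (m' * (Tg r Z L Ξ v v' ε - mv a d v')) * m := by ring
        _ ≤ (η * (1 - 𝔻 W)) * m := mul_le_mul_of_nonneg_right h1 hm.le
        _ = (η * m) * (1 - 𝔻 W) := by ring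
        _ = (m' * ε) * (1 - 𝔻 W) := by rw [hidx']
        _ = m' * ((1 - 𝔻 W) * ε) := by ring
    exact le_of_mul_le_mul_left h2 hm'
  refine ⟨?_, hlow⟩
  obtain ⟨t, ht, -, hle⟩ := hTwb κ k K F K' F' e n N r c y Z 𝔻 L Φ a d Ξ J hFib hGen ha hd hKey
    (XDsb.bas_nonempty hFeas hKey.1) v hv v' ε hv' hLv q Y hq hY
  rw [← hqY, ← mul_sub] at hle
  have hq' : (0 : ℝ) < q := by exact_mod_cast hq
  have h3 : ε * t ≤ Tg r Z L Ξ v v' ε - mv a d v' := le_of_mul_le_mul_left hle hq'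
  have h4 : t ≤ (Tg r Z L Ξ v v' ε - mv a d v') / ε := by
    rw [le_div_iff₀ hε, mul_comm]; exact h3
  rw [le_antisymm (hlow t ht) h4]
  exact ht

end Pool.Agent.Work.MP_a2680c_ag.HA
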