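import Pool.Agent.Work.MP_a2680c_ag.HA.StmtsX

/-!
# MP_a2680c_ag, block HA, item Dsc: descent to a field of bounded degree
-/

set_option autoImplicit false

noncomputable section

namespace Pool.Agent.Work.MP_a2680c_ag.HA

open MP7b66e6 MP7b66e6.Q
open scoped BigOperators

universe u

namespace XDsc

section
variable {K E K₂ F₂ : Type u} [Field K] [Field E] [Field K₂] [Field F₂] [Algebra K E] [Algebra K K₂]
  [Algebra K F₂] [Algebra E F₂] [Algebra K₂ F₂] [IsScalarTower K E F₂] [IsScalarTower K K₂ F₂]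

/-- automorphisms of `F₂/E` map the image of `K₂` to itself -/
theorem stab_image [Normal K K₂] (σ : F₂ ≃ₐ[E] F₂) (c : K₂) :
    ∃ c' : K₂, σ (algebraMap K₂ F₂ c) = algebraMap K₂ F₂ c' :=
  ⟨(σ.restrictScalars K).restrictNormal K₂ c,
    ((σ.restrictScalars K).restrictNormal_commutes K₂ c).symm⟩

theorem plc_cg [Normal K K₂] (σ : F₂ ≃ₐ[E] F₂) {ν : AddValuation F₂ (WithTop ℤ)} (h : Plc K₂ ν) :
    Plc K₂ (cg σ ν) := by
  obtain ⟨⟨π, hπ⟩, hc⟩ := h
  refine ⟨⟨σ.symm π, ?_⟩, fun c => ?_⟩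
  · rw [Api.cg_apply, AlgEquiv.apply_symm_apply]; exact hπ
  · rw [Api.cg_apply]
    obtain ⟨c', hc'⟩ := stab_image (K := K) σ c
    rw [hc']
    exact hc c'

theorem abv_cg [Normal K K₂] (𝒮 : Set (AddValuation E (WithTop ℤ))) (σ : F₂ ≃ₐ[E] F₂)
    {ν : AddValuation F₂ (WithTop ℤ)} (h : ν ∈ (Abv K₂ 𝒮 : Set (AddValuation F₂ (WithTop ℤ)))) :
    cg σ ν ∈ (Abv K₂ 𝒮 : Set (AddValuation F₂ (WithTop ℤ))) := by
  obtain ⟨h1, w, hw, m, hm⟩ := h
  exact ⟨plc_cg (K := K) σ h1, w, hw, m, Api.lies_cg hm σ⟩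

end

end XDsc

theorem pr_Dsc (h1 : StHix.{u}) (h2 : StFxd.{u}) (h3 : StYtr.{u}) (h4 : StGfx.{u}) (h5 : StRdk.{u}) :
    StDsc.{u} := by
  intro K E K₂ F₂ _ _ _ _ _ _ _ _ _ _ _ _ _ _ _ _ hconn 𝒮 y hS N hN0 hN
  set 𝒬 : Set (AddValuation F₂ (WithTop ℤ)) := Abv K₂ 𝒮 with h𝒬
  have hfin : 𝒬.Finite := Set.finite_of_ncard_pos hN0
  obtain ⟨ν, hν⟩ : 𝒬.Nonempty := Set.nonempty_of_ncard_ne_zero hN0.ne'
  obtain ⟨H, hHn, hHi, hHf⟩ := h1 E F₂ 𝒬 hfin (fun σ ν hν => XDsc.abv_cg (K := K) 𝒮 σ hν)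
  obtain ⟨K', F', hF', hK', hgK, hgF, hdK, hdF, hrk, hadj⟩ := h2 K E K₂ F₂ hconn hS.comp H hHn
  obtain ⟨z, hz, hzH⟩ := h3 K E K₂ F₂ hS.comp y hS.gen ν hν.1 (hS.rat ν hν) H
    (fun h hh => hHf h hh ν hν)
  have hz0 : z 0 ∈ F' := (hF' _).2 hzH
  -- the algebra structure
  have hmem : ∀ c : K', algebraMap K₂ F₂ (c : K₂) ∈ F' := fun c => (hK' _).1 c.2
  let iA : Algebra K' F' := RingHom.toAlgebra
    (((algebraMap K₂ F₂).comp (algebraMap K' K₂)).codRestrict F'.toSubfield hmem)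
  have hiA : ∀ c : K', ((algebraMap K' F' c : F') : F₂) = algebraMap K₂ F₂ (c : K₂) := fun c => rfl
  have t1 : IsScalarTower K K' F' := IsScalarTower.of_algebraMap_eq fun x => by
    apply Subtype.ext
    rw [hiA]
    show algebraMap K F₂ x = algebraMap K₂ F₂ (algebraMap K K₂ x)
    exact IsScalarTower.algebraMap_apply K K₂ F₂ x
  have t2 : IsScalarTower K' F' F₂ := IsScalarTower.of_algebraMap_eq fun x => rfl
  set y' : Fin 1 → F' := fun _ => ⟨z 0, hz0⟩ with hy'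
  have hup : up F₂ y' = z := by
    funext j
    have : j = 0 := Subsingleton.elim _ _
    subst this
    rfl
  have hG2 : GenBy K₂ (up F₂ y') := by rw [hup]; exact hz
  have hG1 : GenBy K' y' := h4 K' F' K₂ F₂ y' hrk hG2
  have hfix : IntermediateField.fixedField H = F' := by
    ext f
    rw [hF', IntermediateField.mem_fixedField_iff]
  refine ⟨K', F', inferInstance, inferInstance, inferInstance, inferInstance, inferInstance, iA,
    inferInstance, t1, inferInstance, hgK, inferInstance, hgF, y', ⟨hG1, ?_, ?_⟩, ?_, ?_⟩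
  · -- comp
    apply IntermediateField.lift_injective
    rw [IntermediateField.lift_adjoin, IntermediateField.lift_top]
    refine Eq.trans ?_ hadj
    congr 1
    ext f
    constructor
    · rintro ⟨_, ⟨c, rfl⟩, rfl⟩
      exact ⟨(c : K₂), c.2, rfl⟩
    · rintro ⟨c, hc, rfl⟩
      exact ⟨_, ⟨⟨c, hc⟩, rfl⟩, rfl⟩
  · -- rat
    intro μ hμ
    obtain ⟨hμ1, w, hw, m, hm⟩ := hμ
    refine h5 K' F' K₂ F₂ y' hG1 hG2 ?_ μ hμ1 ?_
    · intro c hc
      have : algebraMap K₂ F₂ c ∈ F' := by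
        rw [hF']
        intro h hh
        have hcomm : ∀ x : F', h (algebraMap F' F₂ x) = algebraMap F' F₂ x :=
          fun x => (hF' _).1 x.2 h hh
        exact hc (AlgEquiv.ofRingEquiv (f := h.toRingEquiv) hcomm)
      exact ⟨⟨c, (hK' _).2 this⟩, rfl⟩
    · intro ν₂ hν₂ hl
      obtain ⟨m₂, hm₂⟩ := hl
      have hin : ν₂ ∈ 𝒬 := ⟨hν₂, w, hw, _, Api.lies_trans hm hm₂⟩
      refine ⟨hS.rat ν₂ hin, fun σ => ?_⟩
      have hσ : σ.restrictScalars E ∈ H := by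
        rw [← IntermediateField.fixingSubgroup_fixedField H, hfix,
          IntermediateField.mem_fixingSubgroup_iff]
        intro x hx
        exact σ.commutes (⟨x, hx⟩ : F')
      have := hHf _ hσ ν₂ hin
      exact this
  · exact hdK.trans (hHi.trans (Nat.factorial_le hN))
  · exact hdF.trans (hHi.trans (Nat.factorial_le hN))

end Pool.Agent.Work.MP_a2680c_ag.HA
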