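import Pool.Agent.Work.MP_a2680c_ag.HA.StmtsG

/-!
# Item Dsg of block HA, part G: the discriminant
-/

set_option autoImplicit false

noncomputable section

namespace Pool.Agent.Work.MP_a2680c_ag.HA

open MP7b66e6 MP7b66e6.Q
open scoped BigOperators

universe u

namespace XDsg

lemma index_unique {K F : Type u} [Field K] [Field F] [Algebra K F] {v : AddValuation K (WithTop ℤ)}
    {W : AddValuation F (WithTop ℤ)} {s t : ℕ} (hv : ∃ π : K, v π = 1) (h : Lies v W s) (h' : Lies v W t) : s = t := by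
  obtain ⟨π, hπ⟩ := hv
  have hπ0 : π ≠ 0 := by
    intro h0; rw [h0, AddValuation.map_zero] at hπ; exact absurd hπ (by simp)
  have hvπ : val v π = 1 := Api.val_of v hπ
  have h1 := h.2 π hπ0
  have h2 := h'.2 π hπ0
  rw [hvπ, mul_one] at h1 h2
  rw [h1] at h2
  exact_mod_cast h2

lemma nonneg_down {k K F : Type u} [Field k] [Field K] [Field F] [Algebra k K] [Algebra k F] [Algebra K F]
    {v : AddValuation K (WithTop ℤ)} {W : AddValuation F (WithTop ℤ)} {m : ℕ} (h : Lies v W m)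
    {P : Subalgebra k K} {O : Subalgebra k F} (hD : Dom P O) (hO : ∀ f ∈ O, 0 ≤ W f) : ∀ f ∈ P, 0 ≤ v f := by
  intro f hf
  by_cases hf0 : f = 0
  · rw [hf0, AddValuation.map_zero]; exact le_top
  · have h1 := hO _ (hD f hf).1
    have hne : algebraMap K F f ≠ 0 := by
      rw [map_ne_zero_iff _ (algebraMap K F).injective]; exact hf0
    rw [← Api.val_nonneg W hne, h.2 f hf0] at h1
    rw [← Api.val_nonneg v hf0]
    have hm : (0 : ℤ) < m := by exact_mod_cast h.1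
    by_contra hcon
    have : (m : ℤ) * val v f < 0 := mul_neg_of_pos_of_neg hm (not_le.1 hcon)
    omega

lemma bas_nonempty {K : Type u} [Field K] {n N : ℕ} {a : Fin N → Fin (n + 1) → K} {d : Fin N → ℝ}
    {l : (Fin (n + 1) → Fin N) → ℝ} (hl : Feas (bas a) d l) (hd : ∑ i, d i = n + 1) : (bas a).Nonempty := by
  by_contra hcon
  have hl0 : ∀ b, l b = 0 := fun b => hl.supp b fun hb => hcon ⟨b, hb⟩
  have hd0 : ∀ i, d i = 0 := by
    intro i
    rw [← hl.sum i]
    exact Finset.sum_eq_zero fun b _ => by rw [hl0 b, zero_mul]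
  have h0 : ∑ i, d i = 0 := Finset.sum_eq_zero fun i _ => hd0 i
  rw [h0] at hd
  have : (0 : ℝ) < n + 1 := by positivity
  linarith

end XDsg

theorem pr_Dsg (hCmp : StCmp.{u}) (hTwg : StTwg.{u}) (hAvc : StAvc.{u}) : StDsg.{u} := by
  intro κ k K F K' F' _ _ _ _ _ _ _ _ _ _ _ _ _ _ _ _ _ _ _ _ _ _ _ _ e n N I r x y Z X D L a d Ξ J
    hFib hGen hInd ha hd hKey hconn v hv v' ε hv' hLv hOpt
  obtain ⟨l, hFeas, hBas, hmv, hleast, hpos, q, Y, hq, hY, hqY⟩ := hOpt
  have hε : (0 : ℝ) < ε := by exact_mod_cast hLv.1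
  have hlow : ∀ t ∈ Dis r x X D v, (Tg r Z L Ξ v v' ε - mv a d v') / ε ≤ t := by
    rintro t ⟨W, m, O, φ, hW, hLW, hO, hCen, hRep, rfl⟩
    obtain ⟨P, hP, hDom⟩ := hFib.mor O hO
    obtain ⟨W', η, m', hW', hLWW', hLv'W'⟩ := hCmp k K F K' F' hconn v W v' m ε hW hLW hv'.1 hLv
    have hidx : η * m = m' * ε := XDsg.index_unique hv.1.1 (Api.lies_trans hLW hLWW') (Api.lies_trans hLv hLv'W')
    obtain ⟨c, hc⟩ := hAvc κ k K F K' F' e n N I r x y Z X D L a d Ξ J hFib hGen hInd ha hd hKey v v' ε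
      hv.1 hv' hLv l hFeas hmv W W' η m' O P hW hW' hLWW' hLv'W' hO hP hDom hCen.1
      (XDsg.nonneg_down hLW hDom hCen.1) φ hRep
    have hsum : 0 ≤ ∑ b, l b * (c b : ℝ) :=
      Finset.sum_nonneg fun b _ => mul_nonneg (hFeas.nonneg b) (Nat.cast_nonneg _)
    have hm : (0 : ℝ) < m := by exact_mod_cast hLW.1
    have hη : (0 : ℝ) < η := by exact_mod_cast hLWW'.1
    have hm' : (0 : ℝ) < m' := by exact_mod_cast hLv'W'.1
    have hidx' : (η : ℝ) * m = m' * ε := by exact_mod_cast hidx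
    rw [div_le_div_iff₀ hε hm]
    have h1 : (m' : ℝ) * (Tg r Z L Ξ v v' ε - mv a d v') ≤ η * (1 + can k (cor r x) W - ev W φ) := by
      rw [hc]; linarith
    have h2 : m' * ((Tg r Z L Ξ v v' ε - mv a d v') * m) ≤ m' * ((1 + can k (cor r x) W - ev W φ) * ε) := by
      calc (m' : ℝ) * ((Tg r Z L Ξ v v' ε - mv a d v') * m)
          = (m' * (Tg r Z L Ξ v v' ε - mv a d v')) * m := by ring
        _ ≤ (η * (1 + can k (cor r x) W - ev W φ)) * m := mul_le_mul_of_nonneg_right h1 hm.le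
        _ = (η * m) * (1 + can k (cor r x) W - ev W φ) := by ring
        _ = (m' * ε) * (1 + can k (cor r x) W - ev W φ) := by rw [hidx']
        _ = m' * ((1 + can k (cor r x) W - ev W φ) * ε) := by ring
    exact le_of_mul_le_mul_left h2 hm'
  refine ⟨?_, hlow⟩
  obtain ⟨t, ht, -, hle⟩ := hTwg κ k K F K' F' e n N I r x y Z X D L a d Ξ J hFib hGen hInd ha hd hKey
    (XDsg.bas_nonempty hFeas hKey.1) v hv v' ε hv' hLv q Y hq hY
  rw [← hqY, ← mul_sub] at hle
  have hq' : (0 : ℝ) < q := by exact_mod_cast hq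
  have h3 : ε * t ≤ Tg r Z L Ξ v v' ε - mv a d v' := le_of_mul_le_mul_left hle hq'
  have h4 : t ≤ (Tg r Z L Ξ v v' ε - mv a d v') / ε := by
    rw [le_div_iff₀ hε, mul_comm]; exact h3
  rw [le_antisymm (hlow t ht) h4]
  exact ht

end Pool.Agent.Work.MP_a2680c_ag.HA
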