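import Pool.Agent.Work.MP_a2680c_ag.HA.StmtsC

/-! Item [a2680c HA Eff] (helper9): effective R-principal divisors. -/

set_option autoImplicit false

noncomputable section

namespace Pool.Agent.Work.MP_a2680c_ag.HA

open MP7b66e6 MP7b66e6.Q
open scoped BigOperators

universe u

namespace XEff

theorem lin_int (Φ : ℝ →ₗ[ℚ] ℚ) (x : ℝ) (n : ℤ) : Φ (x * (n : ℝ)) = Φ x * (n : ℚ) := by
  have : x * (n : ℝ) = n • x := by rw [zsmul_eq_mul]; ring
  rw [this, map_zsmul, zsmul_eq_mul]; ring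

theorem lin_ev {K : Type u} [Field K] (Φ : ℝ →ₗ[ℚ] ℚ) (ν : AddValuation K (WithTop ℤ)) (φ : Kˣ →₀ ℝ) :
    Φ (ev ν φ) = ∑ s ∈ φ.support, Φ (φ s) * (val ν (s : K) : ℚ) := by
  rw [ev, Finsupp.sum, map_sum]
  apply Finset.sum_congr rfl
  intro s _
  rw [lin_int]

theorem exists_q {ι : Type*} (S : Finset ι) (ρ : ι → ℚ) : ∃ (q : ℕ) (z : ι → ℤ), 0 < q ∧ ∀ s ∈ S, (z s : ℚ) = q * ρ s := by
  classical
  refine ⟨∏ s ∈ S, (ρ s).den, fun s => (∏ t ∈ S.erase s, ((ρ t).den : ℤ)) * (ρ s).num, ?_, ?_⟩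
  · exact Finset.prod_pos fun s _ => (ρ s).den_pos
  · intro s hs
    rw [← Finset.mul_prod_erase S _ hs]
    push_cast
    have h := Rat.mul_den_eq_num (ρ s)
    rw [← h]
    ring

end XEff

theorem pr_Eff (hREG : NgREG.{u, u}) (hRat : StRat) (hTb : StTb.{u}) (hGrm : StGrm.{u}) (hFsp : StFsp.{u}) :
    StEff.{u} := by
  classical
  intro k K _ _ _ _ Z hZ e r hr P hP φ hφ w hw
  haveI : Algebra.EssFiniteType k K := (hGrm k K Z hZ).1
  obtain ⟨hgerm, hpd⟩ := (hGrm k K Z hZ).2 P hP e (hTb k K e r hr).2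
  set S := φ.support with hS
  have hfin : (⋃ s ∈ S, {ν : AddValuation K (WithTop ℤ) | PD Z ν ∧ val ν (s : K) ≠ 0}).Finite := by
    apply Set.Finite.biUnion (Finset.finite_toSet S)
    intro s _
    exact (hFsp k K Z hZ).1 (s : K) s.ne_zero
  set V := hfin.toFinset with hV
  let W : Finset ℝ := (S.image fun s => |φ s|) ∪ (V.image fun ν => ev ν φ).filter (fun x => 0 < x)
  have hWpos : ∀ x ∈ W, 0 < x := by
    intro x hx
    rcases Finset.mem_union.1 hx with h | h
    · obtain ⟨s, hs, rfl⟩ := Finset.mem_image.1 h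
      exact abs_pos.2 (Finsupp.mem_support_iff.1 hs)
    · exact (Finset.mem_filter.1 h).2
  obtain ⟨l, a, Φ, ha, hsum, hW⟩ := hRat W hWpos
  have hid : ∀ s ∈ S, φ s = ∑ i, a i * ((Φ i (φ s) : ℚ) : ℝ) := by
    intro s hs
    have h1 := (hW |φ s| (Finset.mem_union_left _ (Finset.mem_image_of_mem _ hs))).2
    rcases abs_cases (φ s) with ⟨h, _⟩ | ⟨h, _⟩
    · rw [h] at h1; exact h1
    · rw [h] at h1
      have : ∑ i, a i * ((Φ i (-φ s) : ℚ) : ℝ) = - ∑ i, a i * ((Φ i (φ s) : ℚ) : ℝ) := by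
        rw [← Finset.sum_neg_distrib]
        apply Finset.sum_congr rfl
        intro i _
        rw [map_neg]; push_cast; ring
      rw [this] at h1
      linarith
  have hi : ∀ i, 0 ≤ ∑ s ∈ S, (Φ i (φ s)) * (val w (s : K) : ℚ) := by
    intro i
    obtain ⟨q, z, hq, hz⟩ := XEff.exists_q S (fun s => Φ i (φ s))
    have hvalf : ∀ ν : AddValuation K (WithTop ℤ), ((val ν (∏ s ∈ S, (s : K) ^ (z s)) : ℤ) : ℚ) =
        q * ∑ s ∈ S, (Φ i (φ s)) * (val ν (s : K) : ℚ) := by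
      intro ν
      rw [Api.val_prod ν S _ (fun s _ => zpow_ne_zero _ s.ne_zero)]
      push_cast
      rw [Finset.mul_sum]
      apply Finset.sum_congr rfl
      intro s hs
      rw [Api.val_zpow ν s.ne_zero]
      push_cast
      rw [hz s hs]
      ring
    have hf0 : (∏ s ∈ S, (s : K) ^ (z s)) ≠ 0 := Finset.prod_ne_zero_iff.2 fun s _ => zpow_ne_zero _ s.ne_zero
    have hq' : (0 : ℚ) < q := by exact_mod_cast hq
    have hmem : (∏ s ∈ S, (s : K) ^ (z s)) ∈ P := by
      apply hREG k K P e hgerm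
      intro ν hν
      have hν' : PDat Z P ν := (hpd ν).1 hν
      rw [← Api.val_nonneg ν hf0]
      have h1 : (0 : ℚ) ≤ ∑ s ∈ S, (Φ i (φ s)) * (val ν (s : K) : ℚ) := by
        rw [← XEff.lin_ev]
        rcases (hφ ν hν').eq_or_lt with h | h
        · rw [← h, map_zero]
        · have hne : ev ν φ ≠ 0 := h.ne'
          have : ∃ s ∈ S, val ν (s : K) ≠ 0 := by
            by_contra hcon
            push Not at hcon
            apply hne
            rw [ev, Finsupp.sum]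
            apply Finset.sum_eq_zero
            intro s hs
            rw [hcon s hs]; simp
          obtain ⟨s, hs, hs1⟩ := this
          have hmV : ν ∈ V := by
            rw [hV, Set.Finite.mem_toFinset]
            exact Set.mem_biUnion (show s ∈ (S : Set Kˣ) from hs) ⟨hν'.1, hs1⟩
          have hmW : ev ν φ ∈ W := Finset.mem_union_right _
            (Finset.mem_filter.2 ⟨Finset.mem_image_of_mem _ hmV, h⟩)
          exact ((hW _ hmW).1 i).le
      have h2 : (0 : ℚ) ≤ ((val ν (∏ s ∈ S, (s : K) ^ (z s)) : ℤ) : ℚ) := by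
        rw [hvalf]; exact mul_nonneg hq'.le h1
      exact_mod_cast h2
    have h3 := hw _ hmem
    rw [← Api.val_nonneg w hf0] at h3
    have h4 : (0 : ℚ) ≤ ((val w (∏ s ∈ S, (s : K) ^ (z s)) : ℤ) : ℚ) := by exact_mod_cast h3
    rw [hvalf] at h4
    exact nonneg_of_mul_nonneg_right (by linarith [h4] : (0 : ℚ) ≤ q * _) hq'
  have hfinal : ev w φ = ∑ i, a i * ((∑ s ∈ S, (Φ i (φ s)) * (val w (s : K) : ℚ) : ℚ) : ℝ) := by
    rw [ev, Finsupp.sum]
    have : ∀ s ∈ S, φ s * ((val w (s : K) : ℤ) : ℝ) =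
        ∑ i, a i * (((Φ i (φ s)) : ℚ) : ℝ) * ((val w (s : K) : ℤ) : ℝ) := by
      intro s hs
      conv_lhs => rw [hid s hs]
      rw [Finset.sum_mul]
    rw [Finset.sum_congr rfl this, Finset.sum_comm]
    apply Finset.sum_congr rfl
    intro i _
    push_cast
    rw [Finset.mul_sum]
    apply Finset.sum_congr rfl
    intro s _
    ring
  rw [hfinal]
  apply Finset.sum_nonneg
  intro i _
  apply mul_nonneg (ha i).le
  exact_mod_cast hi i

end Pool.Agent.Work.MP_a2680c_ag.HA
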