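import Pool.Agent.Work.MP_a2680c_ag.HA.StmtsY

/-! Item [a2680c HA Elz]: the boundary on a curve of genus one is zero. -/

set_option autoImplicit false

noncomputable section

namespace Pool.Agent.Work.MP_a2680c_ag.HA

open MP7b66e6 MP7b66e6.Q
open scoped BigOperators

universe u

namespace XElz

theorem val_zero {K K' : Type u} [Field K] [Field K'] [Algebra K K'] {ν' : AddValuation K' (WithTop ℤ)}
    (h0 : ∀ c : K, 0 ≤ ν' (algebraMap K K' c)) {c : K} (hc : c ≠ 0) : val ν' (algebraMap K K' c) = 0 :=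
  Api.val_of ν' (m := 0) (Api.val_algebraMap (k := K) (K := K') h0 hc)

theorem ev_push_zero {K K' : Type u} [Field K] [Field K'] [Algebra K K'] {ν' : AddValuation K' (WithTop ℤ)}
    (h0 : ∀ c : K, c ≠ 0 → val ν' (algebraMap K K' c) = 0) (φ : Kˣ →₀ ℝ) : ev ν' (push K K' φ) = 0 := by
  rw [Api.ev_push]
  apply Finset.sum_eq_zero
  intro s _
  change φ s * ((val ν' (algebraMap K K' (s : K)) : ℤ) : ℝ) = 0
  rw [h0 (s : K) s.ne_zero]
  simp

end XElz

theorem pr_Elz (hGrm : StGrm.{u}) (hPdd : StPdd.{u}) (hFsp : StFsp.{u}) (hGpt : StGpt.{u}) (hWdl : StWdl.{u})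
    (hJcb : StJcb.{u}) (hCan : StCan.{u}) (hTb : StTb.{u}) (hGcp : StGcp.{u}) (hNnp : StNnp.{u})
    (hGcn : StGcn.{u}) : StElz.{u} := by
  classical
  intro κ k K E _ _ _ _ _ _ _ _ _ e r x c Z Y 𝔻 L Φ hF hcor hxT hY hMor hPrp hGO hpos w hw
  obtain ⟨hconn, θ, hθ⟩ := hGO
  have : CharZero K := charZero_of_injective_algebraMap (algebraMap k K).injective
  have hEK : Algebra.EssFiniteType k K := (hGrm k K Z hF.vz).1
  have hEE : Algebra.EssFiniteType k E := hF.ess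
  obtain ⟨J, hJ⟩ := hJcb k E (e + 1) c (cor r x) hF.basisF hcor
  obtain ⟨pd, hdual⟩ := (hTb k E (e + 1) (cor r x) hcor).1
  have htop : (⊤ : Subalgebra k K) ∈ Z := hGpt k K Z hF.vz
  obtain ⟨φ, hφ⟩ := hF.carL ⊤ htop
  have hPD : ∀ w' : AddValuation E (WithTop ℤ), Plc K w' → PD Y w' := fun w' hw' =>
    hGcp k K E e r c Z Y hF.basis hF.basisF hF.vz hY hMor hPrp w' hw'
  have hdiv : ∀ w' : AddValuation E (WithTop ℤ), Plc K w' → Divisorial k w' := fun w' hw' =>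
    (hPdd k E Y hY w' (hPD w' hw')).1
  have hcn : ∀ w' : AddValuation E (WithTop ℤ), Plc K w' → θ (x 0) ≠ 0 ∧ can k (cor r x) w' = val w' (θ (x 0)) :=
    fun w' hw' => hGcn k K E e r x θ w' hF.basis hcor hw' (hdiv w' hw') (hθ w' hw').1 (hθ w' hw').2
  have hθ0 : θ (x 0) ≠ 0 := (hcn w hw).1
  have hcan : ∀ w' : AddValuation E (WithTop ℤ), Plc K w' →
      can k c w' = (val w' (θ (x 0)) : ℝ) + (val w' (J : E) : ℝ) := by
    intro w' hw'
    obtain ⟨A, hA⟩ := (hCan k E (e + 1) (cor r x) w').2 pd hdual (hdiv w' hw')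
    have h1 := Api.can_eq hA
    have h2 := Api.can_eq (hJ w' A hA)
    have h3 := (hcn w' hw').2
    rw [h1] at h3
    rw [h2, ← h3]
    push_cast
    ring
  have hD : ∀ w' : AddValuation E (WithTop ℤ), Plc K w' →
      𝔻 w' = ev w' (Φ - Finsupp.single J 1 - Finsupp.single (Units.mk0 (θ (x 0)) hθ0) 1) := by
    intro w' hw'
    have h8 := hF.triv w' (hdiv w' hw') ⟨⊤, htop, fun f _ => hw'.2 f⟩
    have h9 : Lv Z L (Api.res K w') = 0 := by
      rw [hWdl k K Z hF.vz e r hF.basis L ⊤ htop φ hφ (Api.res K w') (fun f _ => hw'.2 f), Api.ev_res]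
      exact XElz.ev_push_zero (fun c hc => XElz.val_zero hw'.2 hc) φ
    rw [h9, zero_add, hcan w' hw'] at h8
    rw [Api.ev_sub, Api.ev_sub, Api.ev_single, Api.ev_single, Units.val_mk0]
    linarith
  have hfin : ∀ s : E, s ≠ 0 → {w' : AddValuation E (WithTop ℤ) | Plc K w' ∧ val w' s ≠ 0}.Finite := by
    intro s hs
    exact ((hFsp k E Y hY).1 s hs).subset fun w' hw' => ⟨hPD w' hw'.1, hw'.2⟩
  rw [hD w hw]
  exact hNnp K E x hxT hconn hfin _ (fun w' hw' => by rw [← hD w' hw']; exact hpos w' hw') w hw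

end Pool.Agent.Work.MP_a2680c_ag.HA
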