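import Pool.Agent.Work.MP_a2680c_ag.HA.StmtsY

/-! Item [a2680c HA Eqt]: the quotient of a curve of genus one. -/

set_option autoImplicit false

noncomputable section

namespace Pool.Agent.Work.MP_a2680c_ag.HA

open MP7b66e6 MP7b66e6.Q
open scoped BigOperators

universe u

namespace XEqt

theorem val_zero {K K' : Type u} [Field K] [Field K'] [Algebra K K'] {ν' : AddValuation K' (WithTop ℤ)}
    (h0 : ∀ c : K, 0 ≤ ν' (algebraMap K K' c)) {c : K} (hc : c ≠ 0) : val ν' (algebraMap K K' c) = 0 :=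
  Api.val_of ν' (m := 0) (Api.val_algebraMap (k := K) (K := K') h0 hc)

theorem ev_push_zero {K K' : Type u} [Field K] [Field K'] [Algebra K K'] {ν' : AddValuation K' (WithTop ℤ)}
    (h0 : ∀ c : K, c ≠ 0 → val ν' (algebraMap K K' c) = 0) (φ : Kˣ →₀ ℝ) : ev ν' (push K K' φ) = 0 := by
  rw [Api.ev_push]
  apply Finset.sum_eq_zero
  intro s _
  change φ s * ((val ν' (algebraMap K K' (s : K)) : ℤ) : ℝ) = 0
  rw [h0 (s : K) s.ne_zero]
  simp

theorem map_ne {K E : Type u} [Field K] [Field E] [Algebra K E] {f : K} (hf : f ≠ 0) : algebraMap K E f ≠ 0 := by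
  rw [map_ne_zero_iff _ (algebraMap K E).injective]; exact hf

/-- A normalized valuation of an algebraic extension is not trivial on the base field. -/
theorem nontriv {K E : Type u} [Field K] [Field E] [Algebra K E] [Algebra.IsAlgebraic K E]
    (w : AddValuation E (WithTop ℤ)) (hπ : ∃ π : E, w π = 1) : ∃ f : K, f ≠ 0 ∧ Api.res K w f ≠ 0 := by
  by_contra hcon
  push Not at hcon
  obtain ⟨π, hπ⟩ := hπ
  have h0 : ∀ c : K, 0 ≤ w (algebraMap K E c) := by
    intro c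
    by_cases hc : c = 0
    · rw [hc, map_zero, AddValuation.map_zero]; exact le_top
    · exact (hcon c hc).ge
  have hπ0 : π ≠ 0 := by
    intro h; rw [h, AddValuation.map_zero] at hπ; exact absurd hπ (by simp)
  have hint : IsIntegral K π := (Algebra.IsAlgebraic.isAlgebraic π).isIntegral
  have hc0 := minpoly.coeff_zero_ne_zero hint hπ0
  have h1 : Polynomial.aeval π (minpoly K π) = 0 := minpoly.aeval K π
  rw [← Polynomial.divX_mul_X_add (minpoly K π), map_add, map_mul, Polynomial.aeval_X,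
    Polynomial.aeval_C] at h1
  have h2 : algebraMap K E ((minpoly K π).coeff 0) = -(Polynomial.aeval π (minpoly K π).divX * π) := by
    linear_combination h1
  have h3 : 0 ≤ w (Polynomial.aeval π (minpoly K π).divX) := by
    have h4 : Algebra.adjoin K {π} ≤ Api.ring w h0 := by
      rw [Algebra.adjoin_le_iff, Set.singleton_subset_iff]
      show 0 ≤ w π
      rw [hπ]
      exact zero_le_one
    exact h4 (Polynomial.aeval_mem_adjoin_singleton K π)
  have h5 : w (algebraMap K E ((minpoly K π).coeff 0)) = 0 := hcon _ hc0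
  rw [h2, AddValuation.map_neg, AddValuation.map_mul, hπ] at h5
  have h6 : (0 : WithTop ℤ) + 1 ≤ w (Polynomial.aeval π (minpoly K π).divX) + 1 := by
    gcongr
  rw [h5, zero_add] at h6
  exact absurd h6 (by simp)

/-- A point of the curve `E` lies over a point of the curve `E₀`. -/
theorem place_over (hNOR : MgNOR.{u}) {K E₀ E : Type u} [Field K] [Field E₀] [Field E] [Algebra K E₀]
    [Algebra K E] [Algebra E₀ E] [IsScalarTower K E₀ E] [Algebra.IsAlgebraic E₀ E]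
    {w : AddValuation E (WithTop ℤ)} (hw : Plc K w) :
    ∃ (w₀ : AddValuation E₀ (WithTop ℤ)) (m : ℕ), Plc K w₀ ∧ Lies w₀ w m := by
  obtain ⟨e, w₀, he, hπ, h⟩ := hNOR E₀ (Api.res E₀ w) (nontriv w hw.1)
  have hval : ∀ f : E₀, f ≠ 0 → val w (algebraMap E₀ E f) = e * val w₀ f := by
    intro f hf
    apply Api.val_of
    exact (h f (val w₀ f)).1.1 (Api.coe_val w₀ hf)
  refine ⟨w₀, e.toNat, ⟨hπ, ?_⟩, ?_, ?_⟩
  · intro c
    by_cases hc : c = 0
    · rw [hc, map_zero, AddValuation.map_zero]; exact le_top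
    · have h1 := hval (algebraMap K E₀ c) (map_ne hc)
      rw [← IsScalarTower.algebraMap_apply K E₀ E, val_zero hw.2 hc] at h1
      rw [← Api.val_nonneg w₀ (map_ne hc)]
      rcases mul_eq_zero.1 h1.symm with h2 | h2
      · exact absurd h2 he.ne'
      · exact h2.ge
  · omega
  · intro f hf
    rw [hval f hf, Int.toNat_of_nonneg he.le]

/-- A normalized valuation over a point is a point. -/
theorem plc_up {K E₀ E : Type u} [Field K] [Field E₀] [Field E] [Algebra K E₀]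
    [Algebra K E] [Algebra E₀ E] [IsScalarTower K E₀ E]
    {w₀ : AddValuation E₀ (WithTop ℤ)} {w : AddValuation E (WithTop ℤ)} {m : ℕ} (hw₀ : Plc K w₀)
    (hπ : ∃ π : E, w π = 1) (hL : Lies w₀ w m) : Plc K w := by
  refine ⟨hπ, fun c => ?_⟩
  by_cases hc : c = 0
  · rw [hc, map_zero, AddValuation.map_zero]; exact le_top
  · have h1 := hL.2 (algebraMap K E₀ c) (map_ne hc)
    rw [← IsScalarTower.algebraMap_apply K E₀ E, val_zero hw₀.2 hc, mul_zero] at h1
    rw [← Api.val_nonneg w (map_ne hc)]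
    exact h1.ge

end XEqt

theorem pr_Eqt (hGrm : StGrm.{u}) (hPdd : StPdd.{u}) (hGpt : StGpt.{u}) (hWdl : StWdl.{u})
    (hEXT : StEXT.{u, u, u}) (hQcn : StQcn.{u}) (hQav : StQav.{u}) (hQdv : StQdv.{u}) (hGcp : StGcp.{u})
    (hFcc : StFcc.{u}) (hNOR : MgNOR.{u}) : StEqt.{u} := by
  classical
  intro κ k K E₀ E _ _ _ _ _ _ _ _ _ _ _ _ _ _ _ _ _ _ e r x c₀ c Z Y₀ 𝔻 L Φ hF hc₀ hxT hconn hY₀ hMor hPrp
    huniq hD0
  have : CharZero K := charZero_of_injective_algebraMap (algebraMap k K).injective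
  have : Algebra.IsAlgebraic E₀ E := Algebra.IsAlgebraic.of_finite E₀ E
  have htop : (⊤ : Subalgebra k K) ∈ Z := hGpt k K Z hF.vz
  obtain ⟨φ, hφ⟩ := hF.carL ⊤ htop
  obtain ⟨J, hJ⟩ := hQcn k E₀ E (e + 1) (e + 1) c₀ c hc₀ hF.basisF
  -- the points of `E₀`
  have hdiv₀ : ∀ w₀ : AddValuation E₀ (WithTop ℤ), Plc K w₀ → Divisorial k w₀ := fun w₀ hw₀ =>
    (hPdd k E₀ Y₀ hY₀ w₀ (hGcp k K E₀ e r c₀ Z Y₀ hF.basis hc₀ hF.vz hY₀ hMor hPrp w₀ hw₀)).1
  -- the value at points of `E`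
  have hLv0 : ∀ w : AddValuation E (WithTop ℤ), Plc K w → Lv Z L (Api.res K w) = 0 := by
    intro w hw
    rw [hWdl k K Z hF.vz e r hF.basis L ⊤ htop φ hφ (Api.res K w) (fun f _ => hw.2 f), Api.ev_res]
    exact XEqt.ev_push_zero (fun c hc => XEqt.val_zero hw.2 hc) φ
  have hkey : ∀ (w₀ : AddValuation E₀ (WithTop ℤ)) (w : AddValuation E (WithTop ℤ)) (m : ℕ), Plc K w₀ →
      Plc K w → Lies w₀ w m → ev w (Φ - Finsupp.single J 1) = m * (1 + can k c₀ w₀) - 1 := by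
    intro w₀ w m hw₀ hw hL
    have h0 := hdiv₀ w₀ hw₀
    have h1 : Divisorial k w := hQdv k E₀ E w₀ w m h0 hL hw.1
    have h2 := hJ w₀ w m h0 h1 hL
    have h3 := hF.triv w h1 ⟨⊤, htop, fun f _ => hw.2 f⟩
    rw [hLv0 w hw, hD0 w hw] at h3
    rw [Api.ev_sub, Api.ev_single]
    linarith
  -- the index over a point
  let idx : AddValuation E₀ (WithTop ℤ) → ℕ := fun w₀ =>
    Classical.epsilon fun m : ℕ => ∃ w : AddValuation E (WithTop ℤ), Plc K w ∧ Lies w₀ w m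
  have hidx : ∀ (w₀ : AddValuation E₀ (WithTop ℤ)) (w : AddValuation E (WithTop ℤ)) (m : ℕ), Plc K w →
      Lies w₀ w m → idx w₀ = m := by
    intro w₀ w m hw hL
    have h1 : ∃ w : AddValuation E (WithTop ℤ), Plc K w ∧ Lies w₀ w (idx w₀) :=
      Classical.epsilon_spec (p := fun m : ℕ => ∃ w : AddValuation E (WithTop ℤ), Plc K w ∧ Lies w₀ w m)
        ⟨m, w, hw, hL⟩
    obtain ⟨w', hw', hL'⟩ := h1
    exact huniq w₀ w' w (idx w₀) m hw' hw hL' hL
  obtain ⟨Φ₁, hΦ₁⟩ := hQav k E₀ E (Φ - Finsupp.single J 1) {w₀ | Plc K w₀}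
    (fun w₀ => 1 + can k c₀ w₀ - 1 / (idx w₀ : ℝ)) (fun w₀ hw₀ => hdiv₀ w₀ hw₀) (by
      intro w₀ hw₀ w η hπ hL
      have hw : Plc K w := XEqt.plc_up hw₀ hπ hL
      have hη : (η : ℝ) ≠ 0 := by exact_mod_cast hL.1.ne'
      rw [hkey w₀ w η hw₀ hw hL, hidx w₀ w η hw hL]
      field_simp)
  obtain ⟨Ξ, hΞ⟩ := hFcc K E x hxT hconn (Φ - Finsupp.single J 1 - push E₀ E Φ₁) (by
      intro w hw
      obtain ⟨w₀, m, hw₀, hL⟩ := XEqt.place_over (E₀ := E₀) hNOR hw
      have hm : (m : ℝ) ≠ 0 := by exact_mod_cast hL.1.ne'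
      rw [Api.ev_sub, Api.ev_push_lies hL, hkey w₀ w m hw₀ hw hL, hΦ₁ w₀ hw₀, hidx w₀ w m hw hL]
      field_simp
      ring)
  have hΦ₀ : ∀ W : AddValuation E (WithTop ℤ), ev W Φ = ev W (push E₀ E (Φ₁ + push K E₀ Ξ)) + (val W (J : E) : ℝ) := by
    intro W
    have h1 := hΞ W
    rw [Api.ev_sub, Api.ev_sub, Api.ev_single, ← Api.ev_push_push (K' := E₀) W Ξ] at h1
    rw [Api.push_add, Api.ev_add]
    linarith
  -- crepancy
  have hcrep : ∀ (ν : AddValuation E₀ (WithTop ℤ)) (ν' : AddValuation E (WithTop ℤ)) (ε : ℕ), Divisorial k ν →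
      Ov Z ν → (∃ π : E, ν' π = 1) → Lies ν ν' ε → 1 - 𝔻 ν' = ε * (1 -
        (Lv Z L (Api.res K ν) + ev ν (Φ₁ + push K E₀ Ξ) - can k c₀ ν)) := by
    intro ν ν' ε hd hOv hπ hL
    have hd' : Divisorial k ν' := hQdv k E₀ E ν ν' ε hd hL hπ
    obtain ⟨P, hP, hPν⟩ := hOv
    have hPν' : ∀ f ∈ P, 0 ≤ ν' (algebraMap K E f) := by
      intro f hf
      by_cases hf0 : f = 0
      · rw [hf0, map_zero, AddValuation.map_zero]; exact le_top
      · have h1 := hL.2 (algebraMap K E₀ f) (XEqt.map_ne hf0)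
        rw [← IsScalarTower.algebraMap_apply K E₀ E] at h1
        rw [← Api.val_nonneg ν' (XEqt.map_ne hf0), h1]
        have h2 := (Api.val_nonneg ν (XEqt.map_ne hf0)).2 (hPν f hf)
        positivity
    obtain ⟨ψ, hψ⟩ := hF.carL P hP
    have h1 := hF.triv ν' hd' ⟨P, hP, hPν'⟩
    have h2 := hJ ν ν' ε hd hd' hL
    have h3 : Lv Z L (Api.res K ν') = ε * Lv Z L (Api.res K ν) := by
      rw [hWdl k K Z hF.vz e r hF.basis L P hP ψ hψ (Api.res K ν') hPν',
        hWdl k K Z hF.vz e r hF.basis L P hP ψ hψ (Api.res K ν) hPν, Api.ev_res, Api.ev_res,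
        ← Api.ev_push_push (K' := E₀), Api.ev_push_lies hL]
    rw [h2, h3, hΦ₀ ν', Api.ev_push_lies hL] at h1
    linarith
  refine ⟨fun ν => Lv Z L (Api.res K ν) + ev ν (Φ₁ + push K E₀ Ξ) - can k c₀ ν, Φ₁ + push K E₀ Ξ, ?_, hcrep, ?_⟩
  · refine ⟨hF.vz, hF.basis, hc₀, inferInstance, hF.divL, hF.carL, ?_, ?_⟩
    · intro ν hd hOv
      obtain ⟨ν', ε, hd', hL⟩ := hEXT k E₀ E ν hd
      have h1 := hcrep ν ν' ε hd hOv hd'.1 hL
      have hOv' : Ov Z ν' := by
        obtain ⟨P, hP, hPν⟩ := hOv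
        refine ⟨P, hP, fun f hf => ?_⟩
        by_cases hf0 : f = 0
        · rw [hf0, map_zero, AddValuation.map_zero]; exact le_top
        · have h1 := hL.2 (algebraMap K E₀ f) (XEqt.map_ne hf0)
          rw [← IsScalarTower.algebraMap_apply K E₀ E] at h1
          rw [← Api.val_nonneg ν' (XEqt.map_ne hf0), h1]
          have h2 := (Api.val_nonneg ν (XEqt.map_ne hf0)).2 (hPν f hf)
          positivity
      have h2 := hF.pos ν' hd' hOv'
      rw [h1] at h2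
      have hε : (0 : ℝ) < ε := by exact_mod_cast hL.1
      refine ⟨?_, fun hκ => ?_⟩
      · exact nonneg_of_mul_nonneg_right h2.1 hε
      · exact (mul_pos_iff_of_pos_left hε).1 (h2.2 hκ)
    · intro ν hd hOv
      show can k c₀ ν + (Lv Z L (Api.res K ν) + ev ν (Φ₁ + push K E₀ Ξ) - can k c₀ ν) = _
      ring
  · intro w₀ hw₀
    obtain ⟨w, m, hd, hL⟩ := hEXT k E₀ E w₀ (hdiv₀ w₀ hw₀)
    have hw : Plc K w := XEqt.plc_up hw₀ hd.1 hL
    have h1 := hcrep w₀ w m (hdiv₀ w₀ hw₀) ⟨⊤, htop, fun f _ => hw₀.2 f⟩ hd.1 hL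
    rw [hD0 w hw] at h1
    have hm := hL.1
    have hm' : (0 : ℝ) < m := by exact_mod_cast hm
    have h2 : (Lv Z L (Api.res K w₀) + ev w₀ (Φ₁ + push K E₀ Ξ) - can k c₀ w₀) = 1 - 1 / (m : ℝ) := by
      field_simp
      linarith
    rcases Nat.lt_or_ge m 2 with h3 | h3
    · left
      have h4 : m = 1 := by omega
      show (Lv Z L (Api.res K w₀) + ev w₀ (Φ₁ + push K E₀ Ξ) - can k c₀ w₀) = 0
      rw [h2, h4]
      norm_num
    · exact Or.inr ⟨m, h3, h2⟩

end Pool.Agent.Work.MP_a2680c_ag.HA
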