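import Pool.Agent.Work.MP_a2680c_ag.HA.StmtsY

/-!
# MP_a2680c_ag, block HA, part Y: item Etb (finite transcendence bases)
-/

set_option autoImplicit false

noncomputable section

namespace Pool.Agent.Work.MP_a2680c_ag.HA

open MP7b66e6 MP7b66e6.Q
open scoped BigOperators

universe u

/-- **Etb**: a field essentially of finite type over `k` has a finite transcendence basis. -/
theorem pr_Etb : StEtb.{u} := by
  intro k F _ _ _ _
  obtain ⟨s, hs⟩ := exists_isTranscendenceBasis k F
  haveI : Finite s := finite_of_isTranscendenceBasis hs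
  obtain ⟨d, ⟨e⟩⟩ := Finite.exists_equiv_fin s
  exact ⟨d, (fun x : s => (x : F)) ∘ e.symm, (isTranscendenceBasis_equiv e.symm).2 hs⟩

end Pool.Agent.Work.MP_a2680c_ag.HA
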