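import Pool.Agent.Work.MP_a2680c_ag.HA.StmtsB

/-!
# MP_a2680c_ag, block HA, item Fac
-/

set_option autoImplicit false

noncomputable section

namespace Pool.Agent.Work.MP_a2680c_ag.HA

open MP7b66e6 MP7b66e6.Q
open scoped BigOperators

universe u

namespace XFac

variable {K F : Type u} [Field K] [Field F] [Algebra K F] {n : ℕ}

/-! ### values -/

lemma val_coe (ν : AddValuation F (WithTop ℤ)) {f : F} (hf : f ≠ 0) : ν f = ((val ν f : ℤ) : WithTop ℤ) := by
  have h : ν f ≠ ⊤ := fun h => hf ((AddValuation.top_iff ν).1 h)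
  obtain ⟨a, ha⟩ := WithTop.ne_top_iff_exists.1 h
  simp [val, ← ha]

lemma val_mul (ν : AddValuation F (WithTop ℤ)) {f g : F} (hf : f ≠ 0) (hg : g ≠ 0) :
    val ν (f * g) = val ν f + val ν g := by
  have h := AddValuation.map_mul ν f g
  rw [val_coe ν hf, val_coe ν hg, val_coe ν (mul_ne_zero hf hg)] at h
  exact_mod_cast h

lemma val_one (ν : AddValuation F (WithTop ℤ)) : val ν (1 : F) = 0 := by
  have h := val_mul ν (one_ne_zero : (1 : F) ≠ 0) (one_ne_zero : (1 : F) ≠ 0)
  rw [mul_one] at h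
  omega

lemma val_inv (ν : AddValuation F (WithTop ℤ)) {f : F} (hf : f ≠ 0) : val ν f⁻¹ = - val ν f := by
  have h := val_mul ν hf (inv_ne_zero hf)
  rw [mul_inv_cancel₀ hf, val_one] at h
  omega

/-! ### `OrdP` -/

section
variable {y : Fin n → F} {p : MvPolynomial (Fin n) K} {ν : AddValuation F (WithTop ℤ)}

lemma le_iff (h : OrdP y p ν) {g : MvPolynomial (Fin n) K} (hg : MvPolynomial.aeval y g ≠ 0) (m : ℕ) :
    (m : ℤ) ≤ val ν (MvPolynomial.aeval y g) ↔ p ^ m ∣ g := by
  rw [← h.2 g m, val_coe ν hg]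
  exact WithTop.coe_le_coe.symm

lemma val_self (h : OrdP y p ν) (hg : MvPolynomial.aeval y p ≠ 0) : val ν (MvPolynomial.aeval y p) = 1 := by
  have h1 := (le_iff h hg 1).2 (by simp)
  have h2 : ¬ ((2 : ℕ) : ℤ) ≤ val ν (MvPolynomial.aeval y p) := by
    rw [le_iff h hg 2]
    rintro ⟨c, hc⟩
    have hp0 : p ≠ 0 := h.1.ne_zero
    have hc' : p * (p * c) = p * 1 := by rw [mul_one]; calc p * (p * c) = p ^ 2 * c := by ring
                                        _ = p := hc.symm
    have := mul_left_cancel₀ hp0 hc'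
    exact h.1.not_isUnit (IsUnit.of_mul_eq_one c this)
  push_cast at h1 h2
  omega

lemma val_other (h : OrdP y p ν) {g : MvPolynomial (Fin n) K} (hg : MvPolynomial.aeval y g ≠ 0) (hd : ¬ p ∣ g) :
    val ν (MvPolynomial.aeval y g) = 0 := by
  have h1 := (le_iff h hg 0).2 (by simp)
  have h2 : ¬ ((1 : ℕ) : ℤ) ≤ val ν (MvPolynomial.aeval y g) := by
    rw [le_iff h hg 1, pow_one]
    exact hd
  push_cast at h1 h2
  omega

lemma val_const (h : OrdP y p ν) {c : K} (hc : c ≠ 0) : val ν (algebraMap K F c) = 0 := by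
  have h0 : MvPolynomial.aeval y (MvPolynomial.C c) = algebraMap K F c := by simp
  rw [← h0]
  refine val_other h ?_ fun hd => ?_
  · rw [h0]
    exact fun h => hc ((algebraMap K F).injective (by rw [h, map_zero]))
  · have hu : IsUnit (MvPolynomial.C c : MvPolynomial (Fin n) K) := (IsUnit.mk0 c hc).map MvPolynomial.C
    exact h.1.not_isUnit (isUnit_of_dvd_unit hd hu)

end

/-! ### the factorization -/

/-- the irreducible polynomials up to associates -/
def Ix (K : Type u) [Field K] (n : ℕ) : Type u := {P : Associates (MvPolynomial (Fin n) K) // Irreducible P}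

/-- a representative -/
def rep (P : Ix K n) : MvPolynomial (Fin n) K := Quot.out P.1

lemma mk_rep (P : Ix K n) : Associates.mk (rep P) = P.1 := Associates.quot_out P.1

lemma irr_rep (P : Ix K n) : Irreducible (rep P) := by
  rw [← Associates.irreducible_mk, mk_rep]
  exact P.2

lemma not_dvd_rep {P Q : Ix K n} (h : P ≠ Q) : ¬ rep P ∣ rep Q := by
  intro hd
  apply h
  have h1 : Associated (rep P) (rep Q) := (irr_rep P).associated_of_dvd (irr_rep Q) hd
  apply Subtype.ext
  rw [← mk_rep P, ← mk_rep Q]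
  exact Associates.mk_eq_mk_iff_associated.2 h1

/-- the values of `f` come from a factorization -/
def Good (K : Type u) [Field K] [Algebra K F] (y : Fin n → F) (f : F) : Prop :=
  ∃ (κ : Kˣ) (e : Ix K n →₀ ℤ), ∀ W : AddValuation F (WithTop ℤ),
    val W f = val W (algebraMap K F κ) + e.sum fun P m => m * val W (MvPolynomial.aeval y (rep P))

lemma unit_ne (κ : Kˣ) : algebraMap K F (κ : K) ≠ 0 := fun h => κ.ne_zero ((algebraMap K F).injective (by rw [h, map_zero]))

lemma Good.mul {y : Fin n → F} {f g : F} (hf : Good K y f) (hg : Good K y g) (hf0 : f ≠ 0) (hg0 : g ≠ 0) :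
    Good K y (f * g) := by
  obtain ⟨κ, e, h⟩ := hf
  obtain ⟨κ', e', h'⟩ := hg
  refine ⟨κ * κ', e + e', fun W => ?_⟩
  rw [val_mul W hf0 hg0, h W, h' W, Units.val_mul, map_mul, val_mul W (unit_ne κ) (unit_ne κ'),
    Finsupp.sum_add_index' (fun _ => by simp) (fun _ _ _ => by ring)]
  ring

lemma Good.inv {y : Fin n → F} {f : F} (hf : Good K y f) (hf0 : f ≠ 0) : Good K y f⁻¹ := by
  obtain ⟨κ, e, h⟩ := hf
  refine ⟨κ⁻¹, -e, fun W => ?_⟩
  have h1 : (algebraMap K F ((κ⁻¹ : Kˣ) : K)) = (algebraMap K F (κ : K))⁻¹ := by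
    rw [Units.val_inv_eq_inv_val, map_inv₀]
  rw [val_inv W hf0, h W, h1, val_inv W (unit_ne κ), Finsupp.sum_neg_index (fun _ => by simp)]
  simp only [neg_mul, Finsupp.sum, Finset.sum_neg_distrib]
  ring

lemma Good.const (y : Fin n → F) (κ : Kˣ) : Good K y (algebraMap K F (κ : K)) :=
  ⟨κ, 0, fun W => by simp⟩

lemma Good.rep (y : Fin n → F) (P : Ix K n) : Good K y (MvPolynomial.aeval y (XFac.rep P)) :=
  ⟨1, Finsupp.single P 1, fun W => by
    rw [Finsupp.sum_single_index (by simp)]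
    simp [val_one W]⟩

lemma Good.ofUnit {y : Fin n → F} {a : MvPolynomial (Fin n) K} (ha : IsUnit a) : Good K y (MvPolynomial.aeval y a) := by
  obtain ⟨r, hr, rfl⟩ := MvPolynomial.isUnit_iff_eq_C_of_isReduced.1 ha
  obtain ⟨κ, rfl⟩ := hr
  have := Good.const y κ
  simpa using this

lemma Good.ofPoly {y : Fin n → F} (hy : Function.Injective (MvPolynomial.aeval y : MvPolynomial (Fin n) K →ₐ[K] F))
    (a : MvPolynomial (Fin n) K) : a ≠ 0 → Good K y (MvPolynomial.aeval y a) := by
  have hne : ∀ b : MvPolynomial (Fin n) K, b ≠ 0 → MvPolynomial.aeval y b ≠ 0 := fun b hb h =>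
    hb (hy (by rw [h, map_zero]))
  refine WfDvdMonoid.induction_on_irreducible (motive := fun a => a ≠ 0 → Good K y (MvPolynomial.aeval y a)) a ?_ ?_ ?_
  · intro h
    exact absurd rfl h
  · intro u hu _
    exact Good.ofUnit hu
  · intro b i hb hi ih _
    have hI : Irreducible (Associates.mk i) := Associates.irreducible_mk.2 hi
    let P : Ix K n := ⟨Associates.mk i, hI⟩
    have h1 : Associated (XFac.rep P) i := Associates.mk_eq_mk_iff_associated.1 (mk_rep P)
    obtain ⟨u, hu⟩ := h1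
    have h2 : Good K y (MvPolynomial.aeval y i) := by
      rw [← hu, map_mul]
      exact (Good.rep y P).mul (Good.ofUnit u.isUnit) (hne _ (irr_rep P).ne_zero) (hne _ u.ne_zero)
    rw [map_mul]
    exact h2.mul (ih hb) (hne _ hi.ne_zero) (hne _ hb)

lemma Good.all {y : Fin n → F} (hy : GenBy K y) (f : F) (hf : f ≠ 0) : Good K y f := by
  have hinj : Function.Injective (MvPolynomial.aeval y : MvPolynomial (Fin n) K →ₐ[K] F) := hy.1
  have hmem : f ∈ IntermediateField.adjoin K (Set.range y) := by rw [hy.2]; trivial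
  obtain ⟨r, s, hrs⟩ := (IntermediateField.mem_adjoin_range_iff K y f).1 hmem
  have hr : MvPolynomial.aeval y r ≠ 0 := fun h => hf (by rw [hrs, h, zero_div])
  have hs : MvPolynomial.aeval y s ≠ 0 := fun h => hf (by rw [hrs, h, div_zero])
  have hr0 : r ≠ 0 := fun h => hr (by rw [h, map_zero])
  have hs0 : s ≠ 0 := fun h => hs (by rw [h, map_zero])
  rw [hrs, div_eq_mul_inv]
  exact (Good.ofPoly hinj r hr0).mul ((Good.ofPoly hinj s hs0).inv hs) hr (inv_ne_zero hs)

/-! ### `ev` -/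

lemma ev_add (W : AddValuation F (WithTop ℤ)) (φ ψ : Fˣ →₀ ℝ) : ev W (φ + ψ) = ev W φ + ev W ψ := by
  unfold ev
  rw [Finsupp.sum_add_index' (fun _ => by simp) (fun _ _ _ => by ring)]

lemma ev_zero (W : AddValuation F (WithTop ℤ)) : ev W (0 : Fˣ →₀ ℝ) = 0 := by simp [ev]

lemma ev_single (W : AddValuation F (WithTop ℤ)) (s : Fˣ) (r : ℝ) : ev W (Finsupp.single s r) = r * (val W (s : F) : ℝ) := by
  unfold ev
  rw [Finsupp.sum_single_index (by simp)]

lemma ev_push_sum (W : AddValuation F (WithTop ℤ)) (T : Finset Fˣ) (κ : Fˣ → Kˣ) (r : Fˣ → ℝ) :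
    ev W (push K F (∑ s ∈ T, Finsupp.single (κ s) (r s))) = ∑ s ∈ T, r s * (val W (algebraMap K F (κ s : K)) : ℝ) := by
  classical
  induction T using Finset.induction_on with
  | empty => simp [push, ev_zero]
  | insert s T hs ih =>
    rw [Finset.sum_insert hs, Finset.sum_insert hs, ← ih]
    unfold push
    rw [Finsupp.mapDomain_add, ev_add, Finsupp.mapDomain_single, ev_single]
    rfl

end XFac

open XFac in
theorem pr_Fac (hOrd : StOrd.{u}) : StFac.{u} := by
  classical
  intro K F _ _ _ n y hy Θ hΘ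
  have hinj : Function.Injective (MvPolynomial.aeval y : MvPolynomial (Fin n) K →ₐ[K] F) := hy.1
  have hne : ∀ b : MvPolynomial (Fin n) K, b ≠ 0 → MvPolynomial.aeval y b ≠ 0 := fun b hb h =>
    hb (hinj (by rw [h, map_zero]))
  have hO := (hOrd K F n y hy).1
  choose N hN using fun P : Ix K n => hO (XFac.rep P) (irr_rep P)
  choose κ e hκ using fun φ : Fˣ => Good.all hy (φ : F) φ.ne_zero
  -- the exponents are the values
  have hval : ∀ (P Q : Ix K n), val (N P) (MvPolynomial.aeval y (XFac.rep Q)) = if Q = P then 1 else 0 := by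
    intro P Q
    by_cases h : Q = P
    · subst h
      rw [if_pos rfl]
      exact val_self (hN Q) (hne _ (irr_rep Q).ne_zero)
    · rw [if_neg h]
      exact val_other (hN P) (hne _ (irr_rep Q).ne_zero) (not_dvd_rep (Ne.symm h))
  have he : ∀ (φ : Fˣ) (P : Ix K n), val (N P) (φ : F) = e φ P := by
    intro φ P
    rw [hκ φ (N P), val_const (hN P) (κ φ).ne_zero, zero_add]
    simp only [hval, mul_ite, mul_one, mul_zero]
    rw [Finsupp.sum_ite_eq']
    by_cases h : P ∈ (e φ).support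
    · rw [if_pos h]
    · rw [if_neg h]
      exact (Finsupp.notMem_support_iff.1 h).symm
  refine ⟨∑ s ∈ Θ.support, Finsupp.single (κ s) (Θ s), fun W => ?_⟩
  rw [ev_push_sum]
  let S : Finset (Ix K n) := Θ.support.biUnion fun φ => (e φ).support
  have h1 : ∀ φ ∈ Θ.support, (val W (φ : F) : ℝ) = (val W (algebraMap K F (κ φ : K)) : ℝ) +
      ∑ P ∈ S, (e φ P : ℝ) * (val W (MvPolynomial.aeval y (XFac.rep P)) : ℝ) := by
    intro φ hφ
    rw [hκ φ W]
    rw [Finsupp.sum_of_support_subset (e φ) (s := S)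
      (Finset.subset_biUnion_of_mem (fun φ : Fˣ => (e φ).support) hφ) _ (fun _ _ => by simp)]
    push_cast
    rfl
  have h2 : ev W Θ = ∑ φ ∈ Θ.support, Θ φ * (val W (φ : F) : ℝ) := rfl
  rw [h2, Finset.sum_congr rfl fun φ hφ => by rw [h1 φ hφ, mul_add], Finset.sum_add_distrib]
  have h3 : ∑ φ ∈ Θ.support, Θ φ * ∑ P ∈ S, (e φ P : ℝ) * (val W (MvPolynomial.aeval y (XFac.rep P)) : ℝ) = 0 := by
    simp only [Finset.mul_sum]
    rw [Finset.sum_comm]
    refine Finset.sum_eq_zero fun P _ => ?_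
    have h4 : ev (N P) Θ = 0 := hΘ (XFac.rep P) (N P) (hN P)
    have h5 : ev (N P) Θ = ∑ φ ∈ Θ.support, Θ φ * (e φ P : ℝ) := by
      refine Finset.sum_congr rfl fun φ _ => ?_
      show Θ φ * (val (N P) (φ : F) : ℝ) = _
      rw [he φ P]
    rw [h5] at h4
    calc ∑ φ ∈ Θ.support, Θ φ * ((e φ P : ℝ) * (val W (MvPolynomial.aeval y (XFac.rep P)) : ℝ))
        = (∑ φ ∈ Θ.support, Θ φ * (e φ P : ℝ)) * (val W (MvPolynomial.aeval y (XFac.rep P)) : ℝ) := by
          rw [Finset.sum_mul]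
          exact Finset.sum_congr rfl fun φ _ => by ring
      _ = 0 := by rw [h4, zero_mul]
  rw [h3, add_zero]

end Pool.Agent.Work.MP_a2680c_ag.HA
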