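import Pool.Agent.Work.MP_a2680c_ag.HA.StmtsA

/-!
# MP_a2680c_ag, block HA, item Far: the Farkas lemma (helper59)
-/

set_option autoImplicit false

noncomputable section

namespace Pool.Agent.Work.MP_a2680c_ag.HA

open scoped BigOperators

namespace XFar

theorem step {ι β : Type} [Fintype ι] [DecidableEq β] (s : Finset β) :
    ∀ (A : β → ι → ℝ) (γ : ι → ℝ),
    (∀ z : ι → ℝ, (∀ b ∈ s, A b ⬝ᵥ z ≤ 0) → γ ⬝ᵥ z ≤ 0) →
    ∃ l : β → ℝ, (∀ b, 0 ≤ l b) ∧ ∀ i, γ i = ∑ b ∈ s, l b * A b i := by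
  induction s using Finset.induction_on with
  | empty =>
    intro A γ H
    refine ⟨fun _ => 0, fun _ => le_rfl, ?_⟩
    have h := H γ (fun b hb => absurd hb (Finset.notMem_empty b))
    have h0 : γ ⬝ᵥ γ = 0 := le_antisymm h (by
      unfold dotProduct
      exact Finset.sum_nonneg fun i _ => mul_self_nonneg _)
    rw [dotProduct_self_eq_zero] at h0
    intro i
    rw [h0]
    simp
  | insert b₀ s hb₀ ih =>
    intro A γ H
    by_cases hc : ∀ z : ι → ℝ, (∀ b ∈ s, A b ⬝ᵥ z ≤ 0) → γ ⬝ᵥ z ≤ 0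
    · obtain ⟨l, hl0, hl⟩ := ih A γ hc
      refine ⟨fun b => if b = b₀ then 0 else l b, ?_, ?_⟩
      · intro b
        show 0 ≤ (if b = b₀ then 0 else l b)
        split_ifs
        · exact le_rfl
        · exact hl0 b
      · intro i
        rw [Finset.sum_insert hb₀]
        show γ i = (if b₀ = b₀ then 0 else l b₀) * A b₀ i +
          ∑ b ∈ s, (if b = b₀ then 0 else l b) * A b i
        rw [if_pos rfl, zero_mul, zero_add, hl i]
        refine Finset.sum_congr rfl fun b hb => ?_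
        rw [if_neg (fun h : b = b₀ => hb₀ (h ▸ hb))]
    · push Not at hc
      obtain ⟨z₀, hz₀, hγ⟩ := hc
      have hα : 0 < A b₀ ⬝ᵥ z₀ := by
        by_contra hcon
        push Not at hcon
        have := H z₀ (by
          intro b hb
          rcases Finset.mem_insert.1 hb with rfl | hb'
          · exact hcon
          · exact hz₀ b hb')
        linarith
      set α := A b₀ ⬝ᵥ z₀ with hαdef
      have hα0 : α ≠ 0 := hα.ne'
      obtain ⟨l, hl0, hl⟩ := ih (fun b => A b - ((A b ⬝ᵥ z₀) / α) • A b₀)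
        (γ - ((γ ⬝ᵥ z₀) / α) • A b₀) (by
          intro z hz
          have hzz : ∀ v : ι → ℝ, (v - ((v ⬝ᵥ z₀) / α) • A b₀) ⬝ᵥ z =
              v ⬝ᵥ (z - ((A b₀ ⬝ᵥ z) / α) • z₀) := by
            intro v
            rw [sub_dotProduct, smul_dotProduct, dotProduct_sub, dotProduct_smul, smul_eq_mul,
              smul_eq_mul]
            ring
          rw [hzz]
          apply H
          intro b hb
          rcases Finset.mem_insert.1 hb with rfl | hb'
          · rw [dotProduct_sub, dotProduct_smul, smul_eq_mul, ← hαdef, div_mul_cancel₀ _ hα0,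
              sub_self]
          · rw [← hzz]
            exact hz b hb')
      refine ⟨fun b => if b = b₀ then (γ ⬝ᵥ z₀ - ∑ b ∈ s, l b * (A b ⬝ᵥ z₀)) / α else l b, ?_, ?_⟩
      · intro b
        show 0 ≤ (if b = b₀ then (γ ⬝ᵥ z₀ - ∑ b ∈ s, l b * (A b ⬝ᵥ z₀)) / α else l b)
        split_ifs
        · apply div_nonneg _ hα.le
          have : ∑ b ∈ s, l b * (A b ⬝ᵥ z₀) ≤ 0 :=
            Finset.sum_nonpos fun b hb => mul_nonpos_of_nonneg_of_nonpos (hl0 b) (hz₀ b hb)
          linarith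
        · exact hl0 b
      · intro i
        have h1 := hl i
        simp only [Pi.sub_apply, Pi.smul_apply, smul_eq_mul] at h1
        rw [Finset.sum_insert hb₀]
        show γ i = (if b₀ = b₀ then (γ ⬝ᵥ z₀ - ∑ b ∈ s, l b * (A b ⬝ᵥ z₀)) / α else l b₀) * A b₀ i +
          ∑ b ∈ s, (if b = b₀ then (γ ⬝ᵥ z₀ - ∑ b ∈ s, l b * (A b ⬝ᵥ z₀)) / α else l b) * A b i
        rw [if_pos rfl]
        have h2 : ∑ b ∈ s, (if b = b₀ then (γ ⬝ᵥ z₀ - ∑ b ∈ s, l b * (A b ⬝ᵥ z₀)) / α else l b) *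
            A b i = ∑ b ∈ s, l b * A b i := by
          refine Finset.sum_congr rfl fun b hb => ?_
          rw [if_neg (fun h : b = b₀ => hb₀ (h ▸ hb))]
        rw [h2]
        have h3 : ∑ b ∈ s, l b * (A b i - (A b ⬝ᵥ z₀) / α * A b₀ i) =
            ∑ b ∈ s, l b * A b i - (∑ b ∈ s, l b * (A b ⬝ᵥ z₀)) / α * A b₀ i := by
          rw [Finset.sum_div, Finset.sum_mul, ← Finset.sum_sub_distrib]
          refine Finset.sum_congr rfl fun b _ => ?_
          ring
        rw [h3] at h1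
        have h4 : (γ ⬝ᵥ z₀ - ∑ b ∈ s, l b * (A b ⬝ᵥ z₀)) / α * A b₀ i =
            (γ ⬝ᵥ z₀) / α * A b₀ i - (∑ b ∈ s, l b * (A b ⬝ᵥ z₀)) / α * A b₀ i := by
          ring
        rw [h4]
        linarith

end XFar

theorem pr_Far : StFar := by
  intro ι β _ _ A γ H
  classical
  obtain ⟨l, h0, h1⟩ := XFar.step (Finset.univ : Finset β) A γ (fun z hz =>
    H z (fun b => hz b (Finset.mem_univ b)))
  exact ⟨l, h0, h1⟩

end Pool.Agent.Work.MP_a2680c_ag.HA
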