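import Pool.Agent.Work.MP_a2680c_ag.HA.StmtsY

/-!
# Fcc: functions with trivial divisor
-/

set_option autoImplicit false

noncomputable section

namespace Pool.Agent.Work.MP_a2680c_ag.HA

open MP7b66e6 MP7b66e6.Q
open scoped BigOperators

universe u

namespace XFcc

/-- a common denominator -/
theorem denom {ι : Type*} (s : Finset ι) (q : ι → ℚ) :
    ∃ (N : ℕ) (n : ι → ℤ), 0 < N ∧ ∀ i ∈ s, (n i : ℚ) = N * q i := by
  classical
  refine ⟨∏ i ∈ s, (q i).den, fun i => (((∏ i ∈ s, (q i).den) / (q i).den : ℕ) : ℤ) * (q i).num,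
    Finset.prod_pos (fun i _ => (q i).den_pos), fun i hi => ?_⟩
  obtain ⟨c, hc⟩ := Finset.dvd_prod_of_mem (fun i => (q i).den) hi
  beta_reduce
  rw [hc, Nat.mul_div_cancel_left c (q i).den_pos]
  push_cast
  have h := Rat.mul_den_eq_num (q i)
  rw [← h]
  ring

/-- valuation of a product of powers -/
theorem val_prod_zpow {E : Type u} [Field E] (w : AddValuation E (WithTop ℤ)) (s : Finset Eˣ) (n : Eˣ → ℤ) :
    val w ((∏ t ∈ s, t ^ n t : Eˣ) : E) = ∑ t ∈ s, n t * val w (t : E) := by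
  rw [Units.coe_prod, Api.val_prod w s _ (fun t _ => (t ^ n t).ne_zero)]
  refine Finset.sum_congr rfl (fun t _ => ?_)
  rw [Units.val_zpow_eq_zpow_val, Api.val_zpow w t.ne_zero]

/-- `ev` as a finite sum -/
theorem ev_eq {E : Type u} [Field E] (w : AddValuation E (WithTop ℤ)) (Θ : Eˣ →₀ ℝ) :
    ev w Θ = ∑ s ∈ Θ.support, Θ s * (val w (s : E) : ℝ) := rfl

/-- a rational linear form of `ev` -/
theorem map_ev {E : Type u} [Field E] (w : AddValuation E (WithTop ℤ)) (Θ : Eˣ →₀ ℝ) (φ : ℝ →ₗ[ℚ] ℚ) :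
    φ (ev w Θ) = ∑ s ∈ Θ.support, φ (Θ s) * (val w (s : E) : ℚ) := by
  rw [ev_eq, map_sum]
  refine Finset.sum_congr rfl (fun s _ => ?_)
  have h : Θ s * (val w (s : E) : ℝ) = (val w (s : E) : ℚ) • Θ s := by
    rw [Rat.smul_def]; push_cast; ring
  rw [h, map_smul, smul_eq_mul, mul_comm]

end XFcc

open XFcc in
theorem pr_Fcc (hNop : StNop.{u}) : StFcc.{u} := by
  classical
  intro K E _ _ _ _ _ x hx conn Θ hΘ
  let b := Module.Basis.ofVectorSpace ℚ ℝ
  let J := Θ.support.biUnion (fun s => (b.repr (Θ s)).support)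
  -- the coefficients
  have hJ : ∀ s : Eˣ, Θ s = ∑ j ∈ J, ((b.repr (Θ s) j : ℚ) : ℝ) * b j := by
    intro s
    by_cases hs : s ∈ Θ.support
    · have h1 : (b.repr (Θ s)).support ⊆ J := Finset.subset_biUnion_of_mem (fun s => (b.repr (Θ s)).support) hs
      have h2 := b.linearCombination_repr (Θ s)
      rw [Finsupp.linearCombination_apply, Finsupp.sum_of_support_subset _ h1 _ (by intro i _; rw [zero_smul])] at h2
      conv_lhs => rw [← h2]
      refine Finset.sum_congr rfl (fun j _ => ?_)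
      rw [Rat.smul_def]
    · have h0 : Θ s = 0 := Finsupp.notMem_support_iff.1 hs
      rw [h0, map_zero]
      simp
  have hd : ∀ j, ∃ (N : ℕ) (n : Eˣ → ℤ), 0 < N ∧ ∀ s ∈ Θ.support, (n s : ℚ) = N * b.repr (Θ s) j := fun j =>
    denom Θ.support (fun s => b.repr (Θ s) j)
  choose N n hN hn using hd
  -- the functions with trivial divisor are constant
  have hc : ∀ j, ∃ g : Kˣ, algebraMap K E (g : K) = ((∏ s ∈ Θ.support, s ^ n j s : Eˣ) : E) := by
    intro j
    have hval : ∀ w : AddValuation E (WithTop ℤ), Plc K w →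
        val w ((∏ s ∈ Θ.support, s ^ n j s : Eˣ) : E) = 0 := by
      intro w hw
      rw [val_prod_zpow]
      have h1 := map_ev w Θ (b.coord j)
      rw [hΘ w hw, map_zero] at h1
      have h2 : ((∑ s ∈ Θ.support, n j s * val w (s : E) : ℤ) : ℚ) = 0 := by
        push_cast
        calc ∑ s ∈ Θ.support, (n j s : ℚ) * (val w (s : E) : ℚ)
            = ∑ s ∈ Θ.support, (N j : ℚ) * (b.coord j (Θ s) * (val w (s : E) : ℚ)) := by
              refine Finset.sum_congr rfl (fun s hs => ?_)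
              rw [hn j s hs, Module.Basis.coord_apply]; ring
          _ = 0 := by rw [← Finset.mul_sum, ← h1, mul_zero]
      exact_mod_cast h2
    have halg : IsAlgebraic K ((∏ s ∈ Θ.support, s ^ n j s : Eˣ) : E) := by
      refine hNop K E x hx _ (fun w hw => ?_)
      rw [← Api.val_nonneg w (Units.ne_zero _), hval w hw]
    obtain ⟨c, hc⟩ := conn _ halg
    have hc0 : c ≠ 0 := by
      intro h
      rw [h, map_zero] at hc
      exact (Units.ne_zero _) hc.symm
    exact ⟨Units.mk0 c hc0, by rw [Units.val_mk0]; exact hc⟩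
  choose g hg using hc
  refine ⟨∑ j ∈ J, Finsupp.single (g j) (b j / N j), fun W => ?_⟩
  have hpush : push K E (∑ j ∈ J, Finsupp.single (g j) (b j / N j)) =
      ∑ j ∈ J, Finsupp.single (Units.map (algebraMap K E : K →* E) (g j)) (b j / N j) := by
    rw [push, Finsupp.mapDomain_finsetSum]
    refine Finset.sum_congr rfl (fun j _ => ?_)
    rw [Finsupp.mapDomain_single]
  rw [hpush, Api.ev_sum]
  have h1 : ∀ j ∈ J, ev W (Finsupp.single (Units.map (algebraMap K E : K →* E) (g j)) (b j / N j)) =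
      ∑ s ∈ Θ.support, (((b.repr (Θ s) j : ℚ) : ℝ) * b j) * (val W (s : E) : ℝ) := by
    intro j _
    rw [Api.ev_single]
    have h2 : ((Units.map (algebraMap K E : K →* E) (g j) : Eˣ) : E) =
        ((∏ s ∈ Θ.support, s ^ n j s : Eˣ) : E) := by
      rw [← hg j]; rfl
    rw [h2, val_prod_zpow]
    push_cast
    rw [Finset.mul_sum]
    refine Finset.sum_congr rfl (fun s hs => ?_)
    have h3 : ((n j s : ℚ) : ℝ) = ((N j * b.repr (Θ s) j : ℚ) : ℝ) := by rw [hn j s hs]
    push_cast at h3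
    rw [h3]
    have h4 : (N j : ℝ) ≠ 0 := by
      have := hN j
      positivity
    field_simp
  rw [Finset.sum_congr rfl h1, Finset.sum_comm, ev_eq]
  refine Finset.sum_congr rfl (fun s _ => ?_)
  rw [← Finset.sum_mul, ← hJ s]

end Pool.Agent.Work.MP_a2680c_ag.HA
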