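import Pool.Agent.Work.MP_a2680c_ag.HA.StmtsA

/-!
# MP_a2680c_ag, block HA, item Fid: finitely many weight vectors
-/

set_option autoImplicit false

noncomputable section

namespace Pool.Agent.Work.MP_a2680c_ag.HA

open scoped BigOperators

namespace XFid

theorem isWF {I : Set ℝ} (h : DCC I) : I.IsWF :=
  Set.isWF_iff_no_descending_seq.2 fun f hf hfI => h f hfI hf

theorem bound (n : ℕ) (I : Set ℝ) (hI : I ⊆ Set.Ioc 0 1) (h : DCC I) :
    ∃ N₀ : ℕ, ∀ (N : ℕ) (d : Fin N → ℝ), (∀ i, d i ∈ I) → ∑ i, d i = n + 1 → N ≤ N₀ := by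
  rcases I.eq_empty_or_nonempty with he | hne
  · refine ⟨0, fun N d hd _ => ?_⟩
    by_contra hN
    have h1 := hd ⟨0, by omega⟩
    rw [he] at h1
    exact h1
  · set δ := (isWF h).min hne with hδ
    have hδ0 : 0 < δ := (hI ((isWF h).min_mem hne)).1
    refine ⟨⌈((n : ℝ) + 1) / δ⌉₊, fun N d hd hs => ?_⟩
    have h1 : (N : ℝ) * δ ≤ n + 1 := by
      rw [← hs]
      calc (N : ℝ) * δ = ∑ _i : Fin N, δ := by simp
        _ ≤ ∑ i, d i := Finset.sum_le_sum fun i _ => (isWF h).min_le hne (hd i)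
    have h2 : (N : ℝ) ≤ ((n : ℝ) + 1) / δ := by
      rw [le_div_iff₀ hδ0]
      exact h1
    exact_mod_cast h2.trans (Nat.le_ceil _)

theorem fin (n : ℕ) (I : Set ℝ) (h : DCC I) (N : ℕ) :
    {d : Fin N → ℝ | (∀ i, d i ∈ I) ∧ ∑ i, d i = n + 1}.Finite := by
  by_contra hinf
  have hpwo : (Set.univ.pi fun _ : Fin N => I).IsPWO := Set.IsPWO.pi fun _ => (isWF h).isPWO
  set f := (Set.Infinite.natEmbedding _ hinf) with hf
  obtain ⟨m, k, hmk, hle⟩ := hpwo (fun j => ⟨((f j : {d : Fin N → ℝ | (∀ i, d i ∈ I) ∧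
    ∑ i, d i = n + 1}) : Fin N → ℝ), fun i _ => (f j).2.1 i⟩)
  have hle' : ∀ i, (f m : Fin N → ℝ) i ≤ (f k : Fin N → ℝ) i := fun i => hle i
  have hsum : ∑ i, (f m : Fin N → ℝ) i = ∑ i, (f k : Fin N → ℝ) i := by
    rw [(f m).2.2, (f k).2.2]
  have h1 := (Finset.sum_eq_sum_iff_of_le (fun i _ => hle' i)).1 hsum
  have h2 : f m = f k := Subtype.ext (funext fun i => h1 i (Finset.mem_univ i))
  exact hmk.ne (f.injective h2)

end XFid

theorem pr_Fid : StFid := fun n I hI h => ⟨XFid.bound n I hI h, XFid.fin n I h⟩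

end Pool.Agent.Work.MP_a2680c_ag.HA
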