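import Pool.Agent.Work.MP_a2680c_ag.HA.StmtsX

/-! Item [a2680c HA Fnp]: finitely many points in the boundary. -/

set_option autoImplicit false

noncomputable section

namespace Pool.Agent.Work.MP_a2680c_ag.HA

open MP7b66e6 MP7b66e6.Q
open scoped BigOperators

universe u

namespace XFnp

/-- finite support of a principal divisor with real coefficients -/
theorem fin_ev {k K : Type u} [Field k] [Field K] [Algebra k K] {Z : Set (Subalgebra k K)}
    (h : ∀ s : K, s ≠ 0 → {ν : AddValuation K (WithTop ℤ) | PD Z ν ∧ val ν s ≠ 0}.Finite)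
    (φ : Kˣ →₀ ℝ) : {ν : AddValuation K (WithTop ℤ) | PD Z ν ∧ ev ν φ ≠ 0}.Finite := by
  classical
  have h1 : (⋃ s ∈ φ.support, {ν : AddValuation K (WithTop ℤ) | PD Z ν ∧ val ν (s : K) ≠ 0}).Finite :=
    Set.Finite.biUnion (Finset.finite_toSet _) fun s _ => h (s : K) s.ne_zero
  refine h1.subset ?_
  rintro ν ⟨h2, h3⟩
  have : ∃ s ∈ φ.support, val ν (s : K) ≠ 0 := by
    by_contra hcon
    push Not at hcon
    apply h3
    rw [ev, Finsupp.sum]
    apply Finset.sum_eq_zero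
    intro s hs
    rw [hcon s hs]; simp
  obtain ⟨s, hs, hs1⟩ := this
  exact Set.mem_biUnion (show s ∈ (φ.support : Set Kˣ) from hs) ⟨h2, hs1⟩

/-- a place of `E/K` is trivial on `K` -/
theorem ev_res_zero {K E : Type u} [Field K] [Field E] [Algebra K E] {w : AddValuation E (WithTop ℤ)}
    (hw : Plc K w) (φ : Kˣ →₀ ℝ) : ev (Api.res K w) φ = 0 := by
  rw [ev, Finsupp.sum]
  apply Finset.sum_eq_zero
  intro s _
  have h1 : Api.res K w (s : K) = 0 := by
    rw [Api.res_apply]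
    exact Api.val_algebraMap hw.2 s.ne_zero
  have h2 : val (Api.res K w) (s : K) = 0 := Api.val_of _ (by rw [h1]; rfl)
  rw [h2]
  simp

end XFnp

theorem pr_Fnp (_hGrm : StGrm.{u}) (hPdd : StPdd.{u}) (hFsp : StFsp.{u}) (hFsc : StFsc.{u}) (hWdl : StWdl.{u})
    (hGpt : StGpt.{u}) (hGcp : StGcp.{u}) : StFnp.{u} := by
  intro κ k K E _ _ _ _ _ _ _ _ e r c Z Y 𝔻 L Φ hB hY hmor hprp
  have hPD : ∀ w : AddValuation E (WithTop ℤ), Plc K w → PD Y w := fun w hw =>
    hGcp k K E e r c Z Y hB.basis hB.basisF hB.vz hY hmor hprp w hw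
  have hdiv : ∀ w : AddValuation E (WithTop ℤ), Plc K w → Divisorial k w := fun w hw =>
    (hPdd k E Y hY w (hPD w hw)).1
  refine ⟨hdiv, ?_⟩
  have hTop : (⊤ : Subalgebra k K) ∈ Z := hGpt k K Z hB.vz
  obtain ⟨φ, hφ⟩ := hB.carL ⊤ hTop
  refine ((XFnp.fin_ev (hFsp k E Y hY).1 Φ).union (hFsc k E Y hY (e + 1) c hB.basisF)).subset ?_
  rintro w ⟨hw, hne⟩
  have h1 := hB.triv w (hdiv w hw) ⟨⊤, hTop, fun f _ => hw.2 f⟩
  have h2 : Lv Z L (Api.res K w) = ev (Api.res K w) φ :=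
    hWdl k K Z hB.vz e r hB.basis L ⊤ hTop φ hφ (Api.res K w) (fun f _ => hw.2 f)
  rw [h2, XFnp.ev_res_zero hw φ, zero_add] at h1
  by_cases h3 : ev w Φ = 0
  · right
    refine ⟨hPD w hw, fun h4 => hne ?_⟩
    rw [h3, h4, zero_add] at h1
    exact h1
  · left
    exact ⟨hPD w hw, h3⟩

end Pool.Agent.Work.MP_a2680c_ag.HA
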