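import Pool.Agent.Work.MP_a2680c_ag.HA.StmtsX

/-!
# MP_a2680c_ag, block HA, item Fpl: finitely many places of `K(y)` where a function has a zero or a pole
-/

set_option autoImplicit false

noncomputable section

namespace Pool.Agent.Work.MP_a2680c_ag.HA

open MP7b66e6 MP7b66e6.Q
open scoped BigOperators

universe u

namespace XFpl

variable {K F : Type u} [Field K] [Field F] [Algebra K F] {y : Fin 1 → F}

theorem nonneg {ν : AddValuation F (WithTop ℤ)} (hc : ∀ c : K, 0 ≤ ν (algebraMap K F c)) (hy : 0 ≤ ν (y 0))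
    (g : MvPolynomial (Fin 1) K) : 0 ≤ ν (MvPolynomial.aeval y g) := by
  induction g using MvPolynomial.induction_on with
  | C a => rw [MvPolynomial.aeval_C]; exact hc a
  | add p q hp hq =>
    rw [map_add]
    exact le_trans (le_min hp hq) (ν.map_add _ _)
  | mul_X p i hp =>
    rw [map_mul, MvPolynomial.aeval_X, ν.map_mul, Subsingleton.elim i 0]
    exact add_nonneg hp hy

theorem one_le {t : WithTop ℤ} (h : 0 < t) : (((1 : ℕ) : ℤ) : WithTop ℤ) ≤ t := by
  cases t with
  | top => exact le_top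
  | coe a =>
    have h1 : (0 : ℤ) < a := by exact_mod_cast h
    have h2 : (((1 : ℕ) : ℤ)) ≤ a := by push_cast; omega
    exact_mod_cast h2

theorem pos_of {t : WithTop ℤ} (h : (((1 : ℕ) : ℤ) : WithTop ℤ) ≤ t) : 0 < t :=
  lt_of_lt_of_le (by exact_mod_cast (by norm_num : (0 : ℤ) < ((1 : ℕ) : ℤ))) h

end XFpl

theorem pr_Fpl (hCls : StCls.{u}) : StFpl.{u} := by
  intro K F _ _ _ y hy f hf
  obtain ⟨h1, h2, h3, h4, h5, h6⟩ := hCls K F y hy
  have hmem : f ∈ IntermediateField.adjoin K (Set.range y) := by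
    rw [hy.2]
    trivial
  obtain ⟨r, s, hrs⟩ := (IntermediateField.mem_adjoin_range_iff K y f).1 hmem
  have hr0 : MvPolynomial.aeval y r ≠ 0 := by
    intro h
    rw [h, zero_div] at hrs
    exact hf hrs
  have hs0 : MvPolynomial.aeval y s ≠ 0 := by
    intro h
    rw [h, div_zero] at hrs
    exact hf hrs
  have hr : r ≠ 0 := by
    rintro rfl
    exact hr0 (map_zero _)
  have hs : s ≠ 0 := by
    rintro rfl
    exact hs0 (map_zero _)
  have hq : r * s ≠ 0 := mul_ne_zero hr hs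
  have hA : {ν : AddValuation F (WithTop ℤ) | Plc K ν ∧ ν (y 0) < 0}.Finite := by
    apply Set.Subsingleton.finite
    intro ν hν ν' hν'
    exact h5 ν ν' hν.1 hν'.1 hν.2 hν'.2
  have hB : ∀ p ∈ {p : MvPolynomial (Fin 1) K | p ∈ UniqueFactorizationMonoid.factors (r * s)},
      {ν : AddValuation F (WithTop ℤ) | Plc K ν ∧ 0 ≤ ν (y 0) ∧ 0 < ν (MvPolynomial.aeval y p)}.Finite := by
    intro p hp
    have hpi := UniqueFactorizationMonoid.irreducible_of_factor p hp
    apply Set.Subsingleton.finite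
    intro ν hν ν' hν'
    obtain ⟨hν1, hν2, hν3⟩ := hν
    obtain ⟨hν1', hν2', hν3'⟩ := hν'
    rcases h1 ν hν1 with ⟨_, p1, hp1⟩ | ⟨hneg, _⟩
    · have hd : p1 ^ 1 ∣ p := (hp1.2 p 1).1 (XFpl.one_le hν3)
      rw [pow_one] at hd
      have has : Associated p1 p := hp1.1.associated_of_dvd hpi hd
      obtain ⟨t, ht⟩ := has.symm.dvd
      have : 0 < ν' (MvPolynomial.aeval y p1) := by
        rw [ht, map_mul, ν'.map_mul]
        exact add_pos_of_pos_of_nonneg hν3' (XFpl.nonneg hν1'.2 hν2' t)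
      exact (h4 p1 ν ν' hp1 hν1' hν2' this).symm
    · exact absurd hν2 (not_le.2 hneg)
  have hfin : {p : MvPolynomial (Fin 1) K | p ∈ UniqueFactorizationMonoid.factors (r * s)}.Finite :=
    Multiset.finite_toSet _
  refine (hA.union (hfin.biUnion hB)).subset ?_
  rintro ν ⟨hν, hval⟩
  rcases h1 ν hν with ⟨hge, p1, hp1⟩ | ⟨hneg, _⟩
  · right
    have hz : ∀ g : MvPolynomial (Fin 1) K, MvPolynomial.aeval y g ≠ 0 → ¬ p1 ∣ g →
        val ν (MvPolynomial.aeval y g) = 0 := by
      intro g _ hg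
      have h7 := XFpl.nonneg hν.2 hge g
      have h8 : ¬ (((1 : ℕ) : ℤ) : WithTop ℤ) ≤ ν (MvPolynomial.aeval y g) := by
        intro h
        apply hg
        have := (hp1.2 g 1).1 h
        rwa [pow_one] at this
      have h9 : ¬ 0 < ν (MvPolynomial.aeval y g) := fun h => h8 (XFpl.one_le h)
      have h10 : ν (MvPolynomial.aeval y g) = 0 := le_antisymm (not_lt.1 h9) h7
      exact Api.val_of ν (by rw [h10]; rfl)
    have hdvd : p1 ∣ r * s := by
      by_contra hnd
      have hr1 : ¬ p1 ∣ r := fun h => hnd (h.mul_right s)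
      have hs1 : ¬ p1 ∣ s := fun h => hnd (h.mul_left r)
      apply hval
      rw [hrs, Api.val_div ν hr0 hs0, hz r hr0 hr1, hz s hs0 hs1, sub_zero]
    obtain ⟨p, hp, has⟩ := UniqueFactorizationMonoid.exists_mem_factors_of_dvd hq hp1.1 hdvd
    refine Set.mem_biUnion (x := p) hp ⟨hν, hge, ?_⟩
    apply XFpl.pos_of
    rw [hp1.2 p 1, pow_one]
    exact has.dvd
  · left
    exact ⟨hν, hneg⟩

end Pool.Agent.Work.MP_a2680c_ag.HA
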