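import Pool.Agent.Work.MP_a2680c_ag.HA.StmtsC

/-! Item [a2680c HA Fsc] (helper18): the canonical divisor has finite support. -/

set_option autoImplicit false

noncomputable section

namespace Pool.Agent.Work.MP_a2680c_ag.HA

open MP7b66e6 MP7b66e6.Q
open scoped BigOperators

universe u

namespace XFsc

variable {k K : Type u} [Field k] [Field K] [Algebra k K]

theorem der_mem (C R : Subalgebra k K) (hCR : C ≤ R) (G : Finset K) (hG : Algebra.adjoin k (G : Set K) = C)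
    (D : Derivation k K K) (hD : ∀ c ∈ G, D c ∈ R) : ∀ c ∈ C, D c ∈ R := by
  intro c hc
  have h1 : ∀ x (hx : x ∈ Algebra.adjoin k (G : Set K)), D x ∈ R := by
    intro x hx
    induction hx using Algebra.adjoin_induction with
    | mem x hx => exact hD x hx
    | algebraMap a =>
      rw [Derivation.map_algebraMap]
      exact R.zero_mem
    | add x y hx hy ihx ihy =>
      rw [map_add]
      exact R.add_mem ihx ihy
    | mul x y hx hy ihx ihy =>
      rw [Derivation.leibniz, smul_eq_mul, smul_eq_mul]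
      rw [hG] at hx hy
      exact R.add_mem (R.mul_mem (hCR hx) ihy) (R.mul_mem (hCR hy) ihx)
  exact h1 c (by rw [hG]; exact hc)

theorem denom (C : Subalgebra k K) (hF : IsFractionRing C K) (T : Finset K) :
    ∃ h : K, h ≠ 0 ∧ h ∈ C ∧ ∀ t ∈ T, h * t ∈ C := by
  obtain ⟨b, hb⟩ := IsLocalization.exist_integer_multiples_of_finset (nonZeroDivisors C) T
  refine ⟨((b : C) : K), ?_, (b : C).2, ?_⟩
  · intro h0
    exact nonZeroDivisors.ne_zero b.2 (Subtype.ext h0)
  · intro t ht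
    obtain ⟨c, hc⟩ := hb t ht
    have h1 : ((c : C) : K) = ((b : C) : K) * t := by
      have h2 : algebraMap C K c = (b : C) • t := hc
      rw [Algebra.smul_def] at h2
      exact h2
    rw [← h1]
    exact c.2

end XFsc

theorem pr_Fsc (hTb : StTb.{u}) (hSmo : StSmo.{u}) (hPdd : StPdd.{u}) (hGrm : StGrm.{u}) (hFsp : StFsp.{u}) :
    StFsc.{u} := by
  classical
  intro k K _ _ _ _ Z hZ e r hr
  obtain ⟨s, hsf, hsn, hs, hmem⟩ := hZ.charts
  obtain ⟨hE, -⟩ := hGrm k K Z hZ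
  obtain ⟨⟨pd, hpd⟩, -⟩ := hTb k K e r hr
  obtain ⟨hfin, -⟩ := hFsp k K Z hZ
  have hex : ∀ C : Subalgebra k K, ∃ h : K, h ≠ 0 ∧ (C ∈ s → h ∈ C ∧ (∀ i, h * r i ∈ C) ∧
      ∃ G : Finset K, Algebra.adjoin k (G : Set K) = C ∧ ∀ i, ∀ c ∈ G, h * pd i c ∈ C) := by
    intro C
    by_cases hC : C ∈ s
    · obtain ⟨⟨G, hG⟩, -, hF⟩ := hs C hC
      obtain ⟨h, h0, h1, h2⟩ := XFsc.denom C hF
        (Finset.univ.image r ∪ Finset.univ.biUnion fun i => G.image fun c => pd i c)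
      refine ⟨h, h0, fun _ => ⟨h1, fun i => h2 _ ?_, G, hG, fun i c hc => h2 _ ?_⟩⟩
      · exact Finset.mem_union_left _ (Finset.mem_image_of_mem r (Finset.mem_univ i))
      · refine Finset.mem_union_right _ (Finset.mem_biUnion.2 ⟨i, Finset.mem_univ i, ?_⟩)
        exact Finset.mem_image_of_mem _ hc
    · exact ⟨1, one_ne_zero, fun h => absurd h hC⟩
  choose h h0 hh using hex
  refine Set.Finite.subset (hsf.biUnion fun C _ => hfin (h C) (h0 C)) ?_
  rintro ν ⟨hν, hcan⟩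
  obtain ⟨hπ, R, hR, hRv⟩ := id hν
  obtain ⟨C, hC, p, hp, hloc⟩ := (hmem R).1 hR
  refine Set.mem_iUnion₂.2 ⟨C, hC, hν, fun hv => hcan ?_⟩
  obtain ⟨hhC, hhr, G, hG, hhG⟩ := hh C hC
  have hCR : C ≤ R := by
    intro c hc
    rw [hloc c]
    exact ⟨⟨c, hc⟩, 1, fun h1 => hp.ne_top ((Ideal.eq_top_iff_one p).2 h1), by simp⟩
  have hhi : (h C)⁻¹ ∈ R := by
    rw [hRv, ← Api.val_nonneg ν (inv_ne_zero (h0 C)), Api.val_inv ν (h0 C), hv]
    simp
  have hdiv : ∀ t : K, h C * t ∈ C → t ∈ R := by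
    intro t ht
    have h1 : t = (h C)⁻¹ * (h C * t) := by rw [inv_mul_cancel_left₀ (h0 C)]
    rw [h1]
    exact R.mul_mem hhi (hCR ht)
  have hDC : ∀ i, ∀ c ∈ C, pd i c ∈ R := fun i =>
    XFsc.der_mem C R hCR G hG (pd i) fun c hc => hdiv _ (hhG i c hc)
  have hDR : ∀ i, ∀ f ∈ R, pd i f ∈ R := by
    intro i f hf
    obtain ⟨a, t, ht, e1⟩ := (hloc f).1 hf
    have ht0 : (t : K) ≠ 0 := by
      intro h1
      apply ht
      have : t = 0 := Subtype.ext h1
      rw [this]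
      exact p.zero_mem
    have hti : (t : K)⁻¹ ∈ R := by
      rw [hloc]
      exact ⟨1, t, ht, by rw [inv_mul_cancel₀ ht0]; rfl⟩
    have e2 : f * pd i (t : K) + (t : K) * pd i f = pd i (a : K) := by
      rw [← e1, Derivation.leibniz, smul_eq_mul, smul_eq_mul]
    have e3 : pd i f = (t : K)⁻¹ * (pd i (a : K) - f * pd i (t : K)) := by
      rw [← e2]
      field_simp
      ring
    rw [e3]
    exact R.mul_mem hti (R.sub_mem (hDC i a a.2) (R.mul_mem hf (hDC i t t.2)))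
  have hLD := hSmo k K e r hr pd hpd ν (hPdd k K Z hZ ν hν).1
    (fun j => (hRv _).1 (hdiv _ (hhr j)))
    (fun j f hf => (hRv _).1 (hDR j f ((hRv f).2 hf)))
  rw [Api.can_eq hLD]
  simp

end Pool.Agent.Work.MP_a2680c_ag.HA
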