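import Pool.Agent.Work.MP_a2680c_ag.HA.StmtsC

/-! Item [a2680c HA Fsp] (helper9): finite support of principal divisors. -/

set_option autoImplicit false

noncomputable section

namespace Pool.Agent.Work.MP_a2680c_ag.HA

open MP7b66e6 MP7b66e6.Q
open scoped BigOperators

universe u

namespace XFsp

theorem uniq {K : Type u} [Field K] (ν ν' : AddValuation K (WithTop ℤ)) (h1 : ∃ π : K, ν π = 1) (h2 : ∃ π : K, ν' π = 1)
    (h : ∀ f : K, 0 ≤ ν f ↔ 0 ≤ ν' f) : ν = ν' := by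
  obtain ⟨π, hπ⟩ := h1
  obtain ⟨π', hπ'⟩ := h2
  have ne : ∀ (μ : AddValuation K (WithTop ℤ)) (p : K), μ p = 1 → p ≠ 0 := by
    intro μ p hp h0
    rw [h0, AddValuation.map_zero] at hp
    exact absurd hp (by decide)
  have hπ0 := ne ν π hπ
  have hπ0' := ne ν' π' hπ'
  have v1 : val ν π = 1 := Api.val_of ν hπ
  have v1' : val ν' π' = 1 := Api.val_of ν' hπ'
  have hval : ∀ f : K, f ≠ 0 → (0 ≤ val ν f ↔ 0 ≤ val ν' f) := by
    intro f hf
    rw [Api.val_nonneg ν hf, Api.val_nonneg ν' hf]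
    exact h f
  have hz : ∀ f : K, f ≠ 0 → val ν f = 0 → val ν' f = 0 := by
    intro f hf h0
    have a1 := (hval f hf).1 (by omega)
    have a2 := (hval f⁻¹ (inv_ne_zero hf)).1 (by rw [Api.val_inv ν hf]; omega)
    rw [Api.val_inv ν' hf] at a2
    omega
  have hm : ∀ f : K, f ≠ 0 → val ν' f = val ν f * val ν' π := by
    intro f hf
    have hp : (π ^ (val ν f)) ≠ 0 := zpow_ne_zero _ hπ0
    have b1 : val ν (f / π ^ (val ν f)) = 0 := by
      rw [Api.val_div ν hf hp, Api.val_zpow ν hπ0, v1]; ring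
    have b2 := hz _ (div_ne_zero hf hp) b1
    rw [Api.val_div ν' hf hp, Api.val_zpow ν' hπ0] at b2
    linarith
  have ht : 0 ≤ val ν' π := (hval π hπ0).1 (by omega)
  have h3 := hm π' hπ0'
  rw [v1'] at h3
  have h4 : val ν' π = 1 := by
    have : val ν' π ∣ 1 := ⟨val ν π', by rw [h3]; ring⟩
    exact Int.eq_one_of_dvd_one ht this
  apply AddValuation.ext
  intro f
  by_cases hf : f = 0
  · rw [hf, AddValuation.map_zero, AddValuation.map_zero]
  · rw [Api.coe_val ν hf, Api.coe_val ν' hf, hm f hf, h4, mul_one]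

variable {k K : Type u} [Field k] [Field K] [Algebra k K]

theorem val_zero {C : Subalgebra k K} {p : Ideal C} {R : Subalgebra k K} (hR : IsLoc C p R)
    {ν : AddValuation K (WithTop ℤ)} (hν : ∀ f : K, f ∈ R ↔ 0 ≤ ν f) (hp : p.IsPrime) (a : C) (ha : a ∉ p) :
    val ν (a : K) = 0 := by
  have ha0 : (a : K) ≠ 0 := by
    intro h
    apply ha
    have : a = 0 := Subtype.ext h
    rw [this]; exact p.zero_mem
  have h1 : (a : K) ∈ R := (hR _).2 ⟨a, 1, fun h => hp.ne_top ((Ideal.eq_top_iff_one p).2 h), by simp⟩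
  have h2 : (a : K)⁻¹ ∈ R := (hR _).2 ⟨1, a, ha, by simp [inv_mul_cancel₀ ha0]⟩
  rw [hν, ← Api.val_nonneg ν ha0] at h1
  rw [hν, ← Api.val_nonneg ν (inv_ne_zero ha0), Api.val_inv ν ha0] at h2
  omega

theorem val_pos {C : Subalgebra k K} {p : Ideal C} {R : Subalgebra k K} (hR : IsLoc C p R)
    {ν : AddValuation K (WithTop ℤ)} (hν : ∀ f : K, f ∈ R ↔ 0 ≤ ν f) (a : C) (ha : a ∈ p) (ha0 : (a : K) ≠ 0) :
    0 < val ν (a : K) := by
  by_contra hcon
  push Not at hcon
  have h1 : (a : K)⁻¹ ∈ R := by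
    rw [hν, ← Api.val_nonneg ν (inv_ne_zero ha0), Api.val_inv ν ha0]; omega
  obtain ⟨b, t, ht, h2⟩ := (hR _).1 h1
  apply ht
  have h3 : (t : K) = (a * b : C) := by
    push_cast
    rw [← h2, mul_inv_cancel_left₀ ha0]
  have h4 : t = a * b := Subtype.ext h3
  rw [h4]
  exact p.mul_mem_right _ ha

end XFsp

theorem pr_Fsp (_hPdd : StPdd.{u}) : StFsp.{u} := by
  classical
  intro k K _ _ _ Z hZ
  refine ⟨?_, fun ν ν' h1 h2 h => XFsp.uniq ν ν' h1 h2 h⟩
  intro s hs
  obtain ⟨T, hTf, _, hT, hTZ⟩ := hZ.charts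
  have hfin : ∀ C ∈ T, {ν : AddValuation K (WithTop ℤ) | (∃ π : K, ν π = 1) ∧ val ν s ≠ 0 ∧
      ∃ p : Ideal C, p.IsPrime ∧ ∃ R : Subalgebra k K, IsLoc C p R ∧ ∀ f : K, f ∈ R ↔ 0 ≤ ν f}.Finite := by
    intro C hC
    obtain ⟨hfg, hic, hfr⟩ := hT C hC
    haveI : Algebra.FiniteType k C := C.fg_iff_finiteType.1 hfg
    haveI : IsNoetherianRing C := Algebra.FiniteType.isNoetherianRing k C
    obtain ⟨a, b, hb, hab⟩ := IsFractionRing.div_surjective (A := C) s
    have hb0 : (b : K) ≠ 0 := by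
      intro h
      have : b = 0 := Subtype.ext h
      rw [this] at hb
      exact zero_notMem_nonZeroDivisors hb
    have hab' : s = (a : K) / (b : K) := hab.symm
    have ha0 : (a : K) ≠ 0 := by
      intro h
      rw [hab', h, zero_div] at hs
      exact hs rfl
    let I : Ideal C := Ideal.span {a * b}
    have hI : I.minimalPrimes.Finite := Ideal.finite_minimalPrimes_of_isNoetherianRing C I
    -- every ν gives a minimal prime
    have hmin : ∀ ν : AddValuation K (WithTop ℤ), ((∃ π : K, ν π = 1) ∧ val ν s ≠ 0 ∧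
        ∃ p : Ideal C, p.IsPrime ∧ ∃ R : Subalgebra k K, IsLoc C p R ∧ ∀ f : K, f ∈ R ↔ 0 ≤ ν f) →
        ∃ p ∈ I.minimalPrimes, ∃ R : Subalgebra k K, IsLoc C p R ∧ ∀ f : K, f ∈ R ↔ 0 ≤ ν f := by
      rintro ν ⟨_, hvs, p, hp, R, hR, hν⟩
      refine ⟨p, ?_, R, hR, hν⟩
      have habp : a * b ∈ p := by
        by_contra hcon
        have h1 : a ∉ p := fun h => hcon (p.mul_mem_right _ h)
        have h2 : b ∉ p := fun h => hcon (p.mul_mem_left _ h)
        apply hvs
        rw [hab', Api.val_div ν ha0 hb0, XFsp.val_zero hR hν hp a h1, XFsp.val_zero hR hν hp b h2, sub_zero]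
      have hx0 : ((a * b : C) : K) ≠ 0 := by push_cast; exact mul_ne_zero ha0 hb0
      refine ⟨⟨hp, (Ideal.span_singleton_le_iff_mem p).2 habp⟩, ?_⟩
      rintro q ⟨hq, hIq⟩ hqp c hc
      have hxq : a * b ∈ q := (Ideal.span_singleton_le_iff_mem q).1 hIq
      by_cases hc0 : (c : K) = 0
      · have : c = 0 := Subtype.ext hc0
        rw [this]; exact q.zero_mem
      have hcpos := XFsp.val_pos hR hν c hc hc0
      have hxpos := XFsp.val_pos hR hν (a * b) habp hx0
      obtain ⟨M, hM⟩ := Int.eq_ofNat_of_zero_le hxpos.le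
      have hmem : (c : K) ^ M / ((a * b : C) : K) ∈ R := by
        rw [hν, ← Api.val_nonneg ν (div_ne_zero (pow_ne_zero _ hc0) hx0),
          Api.val_div ν (pow_ne_zero _ hc0) hx0, Api.val_pow ν hc0, hM]
        nlinarith
      obtain ⟨a', t, ht, h2⟩ := (hR _).1 hmem
      have h3 : c ^ M * t = (a * b) * a' := by
        apply Subtype.ext
        push_cast
        push_cast at h2 hx0
        rw [← h2]
        field_simp
      have h4 : c ^ M * t ∈ q := by rw [h3]; exact q.mul_mem_right _ hxq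
      rcases hq.mem_or_mem h4 with h5 | h5
      · exact hq.mem_of_pow_mem _ h5
      · exact absurd (hqp h5) ht
    choose! g hg using hmin
    refine Set.Finite.of_injOn (f := g) (t := I.minimalPrimes) ?_ ?_ hI
    · intro ν hν
      exact (hg ν hν).1
    · intro ν hν ν' hν' heq
      obtain ⟨_, R, hR, h1⟩ := hg ν hν
      obtain ⟨_, R', hR', h1'⟩ := hg ν' hν'
      apply XFsp.uniq ν ν' hν.1 hν'.1
      intro f
      rw [← h1, ← h1', hR f, hR' f, heq]
  have hfin2 := Set.Finite.biUnion hTf hfin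
  refine hfin2.subset ?_
  rintro ν ⟨⟨hπ, R, hR, hν⟩, hvs⟩
  obtain ⟨C, hC, p, hp, hloc⟩ := (hTZ R).1 hR
  exact Set.mem_biUnion hC ⟨hπ, hvs, p, hp, R, hloc, hν⟩

end Pool.Agent.Work.MP_a2680c_ag.HA
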