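import Pool.Agent.Work.MP_a2680c_ag.HA.StmtsX

/-!
# MP_a2680c_ag, block HA, item Fxd: fixed fields
-/

set_option autoImplicit false

noncomputable section

namespace Pool.Agent.Work.MP_a2680c_ag.HA

open MP7b66e6 MP7b66e6.Q
open scoped BigOperators

universe u

namespace XFxd

variable {K E K₂ F₂ : Type u} [Field K] [Field E] [Field K₂] [Field F₂] [Algebra K E] [Algebra K K₂]
  [Algebra K F₂] [Algebra E F₂] [Algebra K₂ F₂] [IsScalarTower K E F₂] [IsScalarTower K K₂ F₂]

/-- the restriction of the automorphisms of `F₂` over `E` to `K₂` -/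
def rho (K E K₂ F₂ : Type u) [Field K] [Field E] [Field K₂] [Field F₂] [Algebra K E] [Algebra K K₂]
    [Algebra K F₂] [Algebra E F₂] [Algebra K₂ F₂] [IsScalarTower K E F₂] [IsScalarTower K K₂ F₂]
    [Normal K K₂] : (F₂ ≃ₐ[E] F₂) →* (K₂ ≃ₐ[K] K₂) :=
  (AlgEquiv.restrictNormalHom K₂).comp (AlgEquiv.restrictScalarsHom K)

theorem rho_spec [Normal K K₂] (σ : F₂ ≃ₐ[E] F₂) (c : K₂) :
    algebraMap K₂ F₂ (rho K E K₂ F₂ σ c) = σ (algebraMap K₂ F₂ c) := by
  exact AlgEquiv.restrictNormal_commutes (σ.restrictScalars K) K₂ c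

theorem rho_injective [Normal K K₂]
    (hcomp : IntermediateField.adjoin E (Set.range (algebraMap K₂ F₂)) = ⊤) :
    Function.Injective (rho K E K₂ F₂) := by
  rw [injective_iff_map_eq_one]
  intro σ hσ
  have h1 : IntermediateField.adjoin E (Set.range (algebraMap K₂ F₂)) ≤
      IntermediateField.fixedField (Subgroup.zpowers σ) := by
    rw [IntermediateField.adjoin_le_iff]
    rintro _ ⟨c, rfl⟩
    have h2 : σ ∈ MulAction.stabilizer (F₂ ≃ₐ[E] F₂) (algebraMap K₂ F₂ c) := by
      rw [MulAction.mem_stabilizer_iff]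
      change σ (algebraMap K₂ F₂ c) = _
      rw [← rho_spec (K := K), hσ]
      rfl
    have h3 : Subgroup.zpowers σ ≤ MulAction.stabilizer (F₂ ≃ₐ[E] F₂) (algebraMap K₂ F₂ c) :=
      Subgroup.zpowers_le.2 h2
    intro g
    exact h3 g.2
  rw [hcomp] at h1
  ext f
  exact h1 (IntermediateField.mem_top (x := f)) ⟨σ, Subgroup.mem_zpowers σ⟩

theorem rho_surjective [FiniteDimensional K K₂] [IsGalois K K₂] [FiniteDimensional E F₂]
    [IsGalois E F₂] (hconn : ∀ f : E, IsAlgebraic K f → ∃ c : K, algebraMap K E c = f) :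
    Function.Surjective (rho K E K₂ F₂) := by
  have hbot : IntermediateField.fixedField (rho K E K₂ F₂).range = ⊥ := by
    rw [eq_bot_iff]
    intro c hc
    rw [IntermediateField.mem_fixedField_iff] at hc
    have h1 : ∀ σ : F₂ ≃ₐ[E] F₂, σ (algebraMap K₂ F₂ c) = algebraMap K₂ F₂ c := by
      intro σ
      rw [← rho_spec (K := K), hc _ ⟨σ, rfl⟩]
    obtain ⟨f, hf⟩ := (IsGalois.mem_range_algebraMap_iff_fixed (F := E) (algebraMap K₂ F₂ c)).2 h1
    have h2 : IsAlgebraic K f := by
      have h3 : IsAlgebraic K (algebraMap E F₂ f) := by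
        rw [hf]
        exact (Algebra.IsAlgebraic.isAlgebraic c).algebraMap
      exact (isAlgebraic_algebraMap_iff (algebraMap E F₂).injective).1 h3
    obtain ⟨c', rfl⟩ := hconn f h2
    rw [IntermediateField.mem_bot]
    refine ⟨c', ?_⟩
    apply (algebraMap K₂ F₂).injective
    rw [← IsScalarTower.algebraMap_apply K K₂ F₂, ← hf, ← IsScalarTower.algebraMap_apply K E F₂]
  have htop : (rho K E K₂ F₂).range = ⊤ := by
    rw [← IntermediateField.fixingSubgroup_fixedField (rho K E K₂ F₂).range, hbot,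
      IntermediateField.fixingSubgroup_bot]
  exact MonoidHom.range_eq_top.1 htop

end XFxd

theorem pr_Fxd : StFxd.{u} := by
  intro K E K₂ F₂ _ _ _ _ _ _ _ _ _ _ _ _ _ _ _ _ hconn hcomp H hH
  have hinj := XFxd.rho_injective (K := K) hcomp
  have hsur := XFxd.rho_surjective (K₂ := K₂) (F₂ := F₂) hconn
  obtain ⟨ρ, hρ⟩ : ∃ ρ : (F₂ ≃ₐ[E] F₂) →* (K₂ ≃ₐ[K] K₂), ρ = XFxd.rho K E K₂ F₂ := ⟨_, rfl⟩
  have hspec : ∀ (σ : F₂ ≃ₐ[E] F₂) (c : K₂), algebraMap K₂ F₂ (ρ σ c) = σ (algebraMap K₂ F₂ c) := by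
    intro σ c
    rw [hρ]
    exact XFxd.rho_spec σ c
  rw [← hρ] at hinj hsur
  obtain ⟨H', hH'⟩ : ∃ H' : Subgroup (K₂ ≃ₐ[K] K₂), H' = H.map ρ := ⟨_, rfl⟩
  have hnor : H'.Normal := by
    rw [hH']
    exact hH.map ρ hsur
  have hmem' : ∀ c : K₂, c ∈ IntermediateField.fixedField H' ↔
      algebraMap K₂ F₂ c ∈ IntermediateField.fixedField H := by
    intro c
    rw [IntermediateField.mem_fixedField_iff, IntermediateField.mem_fixedField_iff, hH']
    constructor
    · intro h σ hσ
      rw [← hspec, h (ρ σ) (Subgroup.mem_map_of_mem ρ hσ)]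
    · rintro h _ ⟨σ, hσ, rfl⟩
      apply (algebraMap K₂ F₂).injective
      rw [hspec, h σ hσ]
  have hidx : H'.index = H.index := by
    rw [hH']
    exact Subgroup.index_map_of_bijective ⟨hinj, hsur⟩ H
  refine ⟨IntermediateField.fixedField H', IntermediateField.fixedField H,
    fun f => IntermediateField.mem_fixedField_iff H f, hmem', inferInstance, inferInstance,
    ?_, ?_, ?_, ?_⟩
  · rw [IntermediateField.finrank_eq_fixingSubgroup_index,
      IntermediateField.fixingSubgroup_fixedField, hidx]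
  · rw [IntermediateField.finrank_eq_fixingSubgroup_index,
      IntermediateField.fixingSubgroup_fixedField]
  · rw [IntermediateField.finrank_fixedField_eq_card, IntermediateField.finrank_fixedField_eq_card,
      hH', Subgroup.card_map_of_injective hinj]
  · apply le_antisymm
    · rw [IntermediateField.adjoin_le_iff]
      rintro _ ⟨c, hc, rfl⟩
      exact (hmem' c).1 hc
    · intro f hf
      rw [← IsGalois.fixedField_fixingSubgroup (IntermediateField.adjoin E
        ((algebraMap K₂ F₂) '' (IntermediateField.fixedField H' : Set K₂))),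
        IntermediateField.mem_fixedField_iff]
      intro σ hσ
      rw [IntermediateField.mem_fixingSubgroup_iff] at hσ
      have h1 : ρ σ ∈ (IntermediateField.fixedField H').fixingSubgroup := by
        rw [IntermediateField.mem_fixingSubgroup_iff]
        intro c hc
        apply (algebraMap K₂ F₂).injective
        rw [hspec]
        exact hσ _ (IntermediateField.subset_adjoin _ _ ⟨c, hc, rfl⟩)
      rw [IntermediateField.fixingSubgroup_fixedField, hH'] at h1
      obtain ⟨h, hh, hhe⟩ := h1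
      have h2 : σ = h := hinj hhe.symm
      rw [h2]
      exact (IntermediateField.mem_fixedField_iff H f).1 hf h hh

end Pool.Agent.Work.MP_a2680c_ag.HA
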