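import Pool.Agent.Work.MP_a2680c_ag.HA.StmtsY

/-!
# MP_a2680c_ag, block HA, item Gcl: Galois closure
-/

set_option autoImplicit false

noncomputable section

namespace Pool.Agent.Work.MP_a2680c_ag.HA

open MP7b66e6 MP7b66e6.Q
open scoped BigOperators

universe u

theorem pr_Gcl : StGcl.{u} := by
  intro F₀ F _ _ _ _ _
  have hst : IsScalarTower F₀ F (AlgebraicClosure F) := inferInstance
  have halg : Algebra.IsAlgebraic F₀ (AlgebraicClosure F) := Algebra.IsAlgebraic.trans F₀ F _
  have hac : IsAlgClosure F₀ (AlgebraicClosure F) := ⟨inferInstance, halg⟩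
  have hnor : Normal F₀ (AlgebraicClosure F) := IsAlgClosure.normal F₀ _
  have h1 : IsGalois F₀ (IntermediateField.normalClosure F₀ F (AlgebraicClosure F)) := ⟨⟩
  refine ⟨IntermediateField.normalClosure F₀ F (AlgebraicClosure F), inferInstance, inferInstance,
    inferInstance, inferInstance, inferInstance, ?_, h1, ?_⟩
  · exact FiniteDimensional.right F₀ F _
  · exact IsGalois.tower_top_of_isGalois F₀ F _

end Pool.Agent.Work.MP_a2680c_ag.HA
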