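import Pool.Agent.Work.MP_a2680c_ag.HA.StmtsG

/-!
# Item Jcb : change of coordinates
-/

set_option autoImplicit false

noncomputable section

namespace Pool.Agent.Work.MP_a2680c_ag.HA

open MP7b66e6 MP7b66e6.Q
open scoped BigOperators

universe u

namespace XJcb

variable {k F : Type u} [Field k] [Field F] [Algebra k F]

theorem sum_app {ι : Type*} (s : Finset ι) (c : ι → F) (D : ι → Derivation k F F) (f : F) :
    (∑ l ∈ s, c l • D l) f = ∑ l ∈ s, c l * D l f := by
  have h2 := congrFun (map_sum (Derivation.coeFnAddMonoidHom (R := k) (A := F) (M := F))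
    (fun l => c l • D l) s) f
  rw [Derivation.coeFnAddMonoidHom_apply, Finset.sum_apply] at h2
  rw [h2]
  exact Finset.sum_congr rfl fun l _ => by
    rw [Derivation.coeFnAddMonoidHom_apply, Derivation.smul_apply, smul_eq_mul]

theorem expand {d : ℕ} {y : Fin d → F} {pd : Fin d → Derivation k F F} (h : Dual y pd)
    (E : Derivation k F F) (f : F) : E f = ∑ l, E (y l) * pd l f := by
  have h1 : E - ∑ l, E (y l) • pd l = 0 := by
    refine h.2 _ fun j => ?_
    rw [Derivation.sub_apply, sum_app]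
    simp only [h.1, mul_ite, mul_one, mul_zero]
    rw [Finset.sum_ite_eq' Finset.univ j, if_pos (Finset.mem_univ j), sub_self]
  have h2 : E = ∑ l, E (y l) • pd l := sub_eq_zero.mp h1
  have h3 := congrArg (fun D : Derivation k F F => D f) h2
  rw [h3]
  exact sum_app _ _ _ _

theorem det_mul {d : ℕ} {y : Fin d → F} {pd : Fin d → Derivation k F F} (h : Dual y pd)
    (x : Fin d → F) (δ : Fin d → Derivation k F F) :
    Matrix.det (fun i j => δ i (x j)) =
      Matrix.det (fun i j => δ i (y j)) * Matrix.det (fun i j => pd i (x j)) := by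
  rw [← Matrix.det_mul]
  congr 1
  funext i j
  rw [Matrix.mul_apply]
  exact expand h (δ i) (x j)

theorem val_eq (W : AddValuation F (WithTop ℤ)) {f : F} (hf : f ≠ 0) :
    W f = ((val W f : ℤ) : WithTop ℤ) := by
  have h1 : W f ≠ ⊤ := by
    intro h
    exact hf ((AddValuation.top_iff W).mp h)
  unfold val
  obtain ⟨a, ha⟩ := WithTop.ne_top_iff_exists.mp h1
  rw [← ha]
  rfl

end XJcb

open XJcb

theorem pr_Jcb (hTb : StTb.{u}) : StJcb.{u} := by
  intro k F _ _ _ _ _ d x y hx hy
  obtain ⟨⟨pd, hpd⟩, -⟩ := hTb k F d y hy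
  obtain ⟨⟨px, hpx⟩, -⟩ := hTb k F d x hx
  have h1 : Matrix.det (fun i j => px i (x j)) = 1 := by
    have : (fun i j => px i (x j)) = (1 : Matrix (Fin d) (Fin d) F) := by
      funext i j
      rw [hpx.1, Matrix.one_apply]
    rw [this, Matrix.det_one]
  have hJ : Matrix.det (fun i j => pd i (x j)) ≠ 0 := by
    intro h
    rw [det_mul hpd x px, h, mul_zero] at h1
    exact zero_ne_one h1
  refine ⟨Units.mk0 _ hJ, fun W A hA => ?_⟩
  have hv := val_eq W hJ
  rw [Units.val_mk0]
  obtain ⟨⟨δ, hδ, hδ2⟩, hmin⟩ := hA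
  refine ⟨⟨δ, hδ, ?_⟩, fun δ' hδ' => ?_⟩
  · rw [det_mul hpd x δ, AddValuation.map_mul, hδ2, hv, ← WithTop.coe_add]
  · rw [det_mul hpd x δ', AddValuation.map_mul, hv, WithTop.coe_add]
    exact add_le_add (hmin δ' hδ') le_rfl

end Pool.Agent.Work.MP_a2680c_ag.HA
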