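import Pool.Agent.Work.MP_a2680c_ag.HA.StmtsW

/-!
# MP_a2680c_ag, block HA, item Rsv (helper53): the restriction of a divisorial valuation is divisorial
-/

set_option autoImplicit false

noncomputable section

namespace Pool.Agent.Work.MP_a2680c_ag.HA

open MP7b66e6 MP7b66e6.Q
open scoped BigOperators

universe u

namespace XRsv

/-- a derivation with values in an extension which kills the generators kills everything algebraic over them -/
theorem killAlg {k E F : Type u} [Field k] [Field E] [Field F] [CharZero E] [Algebra k E] [Algebra k F]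
    [Algebra E F] [IsScalarTower k E F] (S : Subalgebra k E) (hS : Algebra.IsAlgebraic S E)
    (D : Derivation k E F) (hD : ∀ s : S, D s = 0) : D = 0 := by
  let EK : Derivation S E F :=
    { toFun := fun x => D x
      map_add' := fun x y => map_add D x y
      map_smul' := fun r x => by
        rw [RingHom.id_apply, Algebra.smul_def, Derivation.leibniz]
        have : D (algebraMap S E r) = 0 := hD r
        rw [this, smul_zero, add_zero]
        rfl
      map_one_eq_zero' := by simp
      leibniz' := fun x y => by simp }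
  have key : ∀ n : ℕ, ∀ p : Polynomial S, p.natDegree ≤ n → p ≠ 0 → ∀ f : E,
      Polynomial.aeval f p = 0 → EK f = 0 := by
    intro n
    induction n with
    | zero =>
      intro p hp hne f h0
      exfalso
      have h1 : p = Polynomial.C (p.coeff 0) := Polynomial.eq_C_of_natDegree_le_zero hp
      rw [h1, Polynomial.aeval_C] at h0
      have h2 : p.coeff 0 = 0 := by
        apply Subtype.ext
        exact h0
      rw [h2, Polynomial.C_0] at h1
      exact hne h1
    | succ n ih =>
      intro p hp hne f h0
      have h1 := EK.map_aeval p f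
      rw [h0, map_zero] at h1
      rcases smul_eq_zero.mp h1.symm with h2 | h2
      · by_cases hd : p.natDegree = 0
        · exact ih p (by omega) hne f h0
        · apply ih (Polynomial.derivative p) _ _ f h2
          · have := Polynomial.natDegree_derivative_lt hd
            omega
          · intro h3
            exact hd (Polynomial.derivative_eq_zero.mp h3)
      · exact h2
  ext f
  obtain ⟨p, hp, h0⟩ := hS.isAlgebraic f
  exact key p.natDegree p le_rfl hp f h0

theorem eq_zero_of_basis {k E F : Type u} [Field k] [Field E] [Field F] [CharZero E] [Algebra k E] [Algebra k F]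
    [Algebra E F] [IsScalarTower k E F] {e : ℕ} {r : Fin e → E} (hr : IsTranscendenceBasis k r)
    (D : Derivation k E F) (hD : ∀ j, D (r j) = 0) : D = 0 := by
  apply killAlg _ hr.isAlgebraic D
  intro s
  have h1 : Set.EqOn (D : E → F) ((0 : Derivation k E F) : E → F) (Algebra.adjoin k (Set.range r)) := by
    apply Derivation.eqOn_adjoin
    rintro _ ⟨j, rfl⟩
    rw [hD j]
    rfl
  exact h1 s.2

theorem prod_nonneg {K ι : Type*} [Field K] (ν : AddValuation K (WithTop ℤ)) (s : Finset ι) (g : ι → K)
    (h : ∀ i ∈ s, 0 ≤ ν (g i)) : 0 ≤ ν (∏ i ∈ s, g i) := by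
  classical
  induction s using Finset.induction_on with
  | empty => rw [Finset.prod_empty, AddValuation.map_one]
  | insert i s hi ih =>
    rw [Finset.prod_insert hi, AddValuation.map_mul]
    exact add_nonneg (h i (Finset.mem_insert_self i s))
      (ih fun j hj => h j (Finset.mem_insert_of_mem hj))

theorem det_nonneg {K : Type u} [Field K] (ν : AddValuation K (WithTop ℤ)) {d : ℕ}
    (M : Matrix (Fin d) (Fin d) K) (h : ∀ i j, 0 ≤ ν (M i j)) : 0 ≤ ν (Matrix.det M) := by
  rw [Matrix.det_apply]
  refine AddValuation.map_le_sum ν ?_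
  intro σ _
  have h1 : 0 ≤ ν (∏ i, M (σ i) i) := prod_nonneg ν _ _ fun i _ => h (σ i) i
  rcases Int.units_eq_one_or (Equiv.Perm.sign σ) with h2 | h2
  · rw [h2, one_smul]; exact h1
  · rw [h2, Units.neg_smul, one_smul, AddValuation.map_neg]; exact h1

theorem der_sum {k K : Type u} [Field k] [Field K] [Algebra k K] {e : ℕ} (c : Fin e → K)
    (pd : Fin e → Derivation k K K) (g : K) (s : Finset (Fin e)) :
    (∑ m ∈ s, c m • pd m) g = ∑ m ∈ s, c m * pd m g := by
  classical
  induction s using Finset.induction_on with
  | empty => rw [Finset.sum_empty, Finset.sum_empty, Derivation.zero_apply]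
  | insert i s hi ih =>
    rw [Finset.sum_insert hi, Finset.sum_insert hi, Derivation.add_apply, ih, Derivation.smul_apply,
      smul_eq_mul]

theorem chain {k K : Type u} [Field k] [Field K] [Algebra k K] {e : ℕ} {r : Fin e → K}
    {pd : Fin e → Derivation k K K} (h : Dual r pd) (E : Derivation k K K) (g : K) :
    E g = ∑ m, E (r m) * pd m g := by
  have h1 : E - ∑ m, E (r m) • pd m = 0 := by
    apply h.2
    intro j
    rw [Derivation.sub_apply]
    rw [der_sum (fun m => E (r m)) pd (r j) Finset.univ, Finset.sum_congr rfl (fun m _ => by rw [h.1 m j]), Finset.sum_eq_single j]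
    · rw [if_pos rfl, mul_one, sub_self]
    · intro m _ hm
      rw [if_neg hm, mul_zero]
    · intro hj
      exact absurd (Finset.mem_univ j) hj
  have h3 := sub_eq_zero.1 h1
  have h4 : E g = (∑ m, E (r m) • pd m) g := by rw [← h3]
  rw [h4]
  exact der_sum (fun m => E (r m)) pd g Finset.univ

theorem log_nonneg {k K : Type u} [Field k] [Field K] [Algebra k K] {v : AddValuation K (WithTop ℤ)}
    {E : Derivation k K K} (h : LogGe v E 0) {f : K} (hf : f ≠ 0) : 0 ≤ v (E f / f) := by
  by_cases h0 : E f = 0
  · rw [h0, zero_div, AddValuation.map_zero]; exact le_top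
  have hd : E f / f ≠ 0 := div_ne_zero h0 hf
  have h1 := h f
  have h2 : v (E f) = v (E f / f) + v f := by
    rw [← AddValuation.map_mul, div_mul_cancel₀ _ hf]
  rw [h2, Api.coe_val v hf, Api.coe_val v hd, ← WithTop.coe_add, ← WithTop.coe_add, WithTop.coe_le_coe] at h1
  rw [Api.coe_val v hd, ← WithTop.coe_zero, WithTop.coe_le_coe]
  omega

/-- the lower bound for the logarithmic determinants -/
theorem bound {k K : Type u} [Field k] [Field K] [Algebra k K] {d : ℕ} {x : Fin d → K}
    {pe : Fin d → Derivation k K K} (hpe : Dual x pe) {v : AddValuation K (WithTop ℤ)} {A : ℤ}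
    (hA : LogDisc k v x A) (g : Fin d → K) (hg : ∀ j, g j ≠ 0)
    (hne : Matrix.det (fun m j => pe m (g j) / g j : Matrix (Fin d) (Fin d) K) ≠ 0) :
    - A ≤ val v (Matrix.det (fun m j => pe m (g j) / g j : Matrix (Fin d) (Fin d) K)) := by
  obtain ⟨⟨δ, hδ, hdet⟩, -⟩ := hA
  have h1 : Matrix.det (fun i j => δ i (g j) / g j : Matrix (Fin d) (Fin d) K) =
      Matrix.det (fun i j => δ i (x j) : Matrix (Fin d) (Fin d) K) *
        Matrix.det (fun m j => pe m (g j) / g j : Matrix (Fin d) (Fin d) K) := by
    rw [← Matrix.det_mul]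
    congr 1
    funext i j
    rw [Matrix.mul_apply, chain hpe (δ i) (g j), Finset.sum_div]
    refine Finset.sum_congr rfl fun m _ => ?_
    rw [mul_div_assoc]
  have h2 : 0 ≤ v (Matrix.det (fun i j => δ i (g j) / g j : Matrix (Fin d) (Fin d) K)) :=
    det_nonneg v _ fun i j => log_nonneg (hδ i) (hg j)
  rw [h1, AddValuation.map_mul, hdet, Api.coe_val v hne, ← WithTop.coe_add, ← WithTop.coe_zero,
    WithTop.coe_le_coe] at h2
  omega

/-- a finite transcendence basis of `F/E` -/
theorem exists_basis {k E F : Type u} [Field k] [Field E] [Field F] [Algebra k E] [Algebra k F]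
    [Algebra E F] [IsScalarTower k E F] {d : ℕ} {c : Fin d → F} (hc : IsTranscendenceBasis k c) :
    ∃ (n : ℕ) (x : Fin n → F), IsTranscendenceBasis E x := by
  have halg : Algebra.IsAlgebraic (Algebra.adjoin E (Set.range c)) F := by
    have h0 := hc.isAlgebraic
    refine ⟨fun f => ?_⟩
    obtain ⟨p, hp, h1⟩ := h0.isAlgebraic f
    let φ : Algebra.adjoin k (Set.range c) →+* Algebra.adjoin E (Set.range c) :=
      { toFun := fun a => ⟨a.1, by
          have h2 : Algebra.adjoin k (Set.range c) ≤
              (Algebra.adjoin E (Set.range c)).restrictScalars k :=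
            Algebra.adjoin_le fun y hy => Algebra.subset_adjoin hy
          exact h2 a.2⟩
        map_one' := rfl
        map_mul' := fun _ _ => rfl
        map_zero' := rfl
        map_add' := fun _ _ => rfl }
    have hφ : Function.Injective φ := by
      intro a b hab
      apply Subtype.ext
      exact congrArg (fun z : Algebra.adjoin E (Set.range c) => (z : F)) hab
    refine ⟨p.map φ, ?_, ?_⟩
    · rwa [Ne, Polynomial.map_eq_zero_iff hφ]
    · rw [Polynomial.aeval_def, Polynomial.eval₂_map]
      rw [Polynomial.aeval_def] at h1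
      exact h1
  obtain ⟨t, hts, ht⟩ := exists_isTranscendenceBasis_subset (R := E) (Set.range c)
  have hfin : t.Finite := (Set.finite_range c).subset hts
  letI : Fintype t := hfin.fintype
  refine ⟨Fintype.card t, fun i => ((Fintype.equivFin t).symm i : F), ?_⟩
  exact (isTranscendenceBasis_equiv (Fintype.equivFin t).symm).2 ht

end XRsv

open XRsv in
/-- The item Rsv. -/
theorem pr_Rsv (hBAS : NgBAS.{u, u}) (hDVL : NgDVL.{u, u}) (hNOR : MgNOR.{u}) (hTb : StTb.{u})
    (hCan : StCan.{u}) : StRsv.{u} := by
  intro k E F _ _ _ _ _ _ _ _ _ _ e d r c hr hc ν hν hf0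
  obtain ⟨f0, hf0, hf0'⟩ := hf0
  have : CharZero E := charZero_of_injective_algebraMap (algebraMap k E).injective
  have hinj : Function.Injective (algebraMap E F) := (algebraMap E F).injective
  -- normalization
  have hne0 : algebraMap E F f0 ≠ 0 := by simpa using hf0
  obtain ⟨a, w, ha, hπ, hw⟩ := hNOR E (Api.res E ν) ⟨f0, hf0, by
    rw [Api.res_apply, Api.coe_val ν hne0]
    intro h
    exact hf0' (WithTop.coe_inj.1 h)⟩
  have hwv : ∀ f : E, f ≠ 0 → val ν (algebraMap E F f) = a * val w f := by
    intro f hf
    have h1 := ((hw f (val w f)).1).1 (Api.coe_val w hf)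
    rw [Api.res_apply] at h1
    exact Api.val_of ν h1
  have hlies : Lies w ν a.toNat := by
    refine ⟨by omega, fun f hf => ?_⟩
    rw [hwv f hf]
    congr 1
    omega
  refine ⟨w, a.toNat, ?_, hlies⟩
  -- transcendence bases and dual derivations
  obtain ⟨n, x, hx⟩ := exists_basis (k := k) (E := E) hc
  have hb : IsTranscendenceBasis k (cor r x) := by
    have h1 := hr.sumElim_comp hx
    have h2 : (Sum.elim x (algebraMap E F ∘ r)) ∘
        ((finSumFinEquiv (m := e) (n := n)).symm.trans (Equiv.sumComm (Fin e) (Fin n))) =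
        cor r x := by
      funext i
      refine Fin.addCases (fun i => ?_) (fun j => ?_) i
      · simp [cor]
      · simp [cor]
    rw [← h2]
    exact (isTranscendenceBasis_equiv _).2 h1
  have hx0 : ∀ j, x j ≠ 0 := fun j => hx.1.ne_zero j
  obtain ⟨⟨pd, hpd⟩, htr⟩ := hTb k E e r hr
  obtain ⟨⟨pe, hpe⟩, -⟩ := hTb k F (e + n) (cor r x) hb
  obtain ⟨A, hA⟩ := (hCan k F (e + n) (cor r x) ν).2 pe hpe hν
  have hcl : ∀ m : Fin e, cor r x (Fin.castAdd n m) = algebraMap E F (r m) := by
    intro m; simp [cor]
  have hcr : ∀ j : Fin n, cor r x (Fin.natAdd e j) = x j := by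
    intro j; simp [cor]
  have hp1 : ∀ (m : Fin e) (f : E), pe (Fin.castAdd n m) (algebraMap E F f) = algebraMap E F (pd m f) := by
    intro m f
    have h1 : (pe (Fin.castAdd n m)).compAlgebraMap E - (Algebra.linearMap E F).compDer (pd m) = 0 := by
      apply eq_zero_of_basis hr
      intro j
      rw [Derivation.sub_apply]
      show pe (Fin.castAdd n m) (algebraMap E F (r j)) - algebraMap E F (pd m (r j)) = 0
      rw [← hcl j, hpe.1, hpd.1]
      by_cases h : m = j
      · rw [if_pos (by rw [h]), if_pos h, map_one, sub_self]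
      · rw [if_neg (by intro h2; exact h (Fin.castAdd_injective e n h2)), if_neg h, map_zero, sub_self]
    have h2 : ((pe (Fin.castAdd n m)).compAlgebraMap E - (Algebra.linearMap E F).compDer (pd m)) f = 0 := by
      rw [h1]; rfl
    rw [Derivation.sub_apply] at h2
    exact sub_eq_zero.1 h2
  have hp2 : ∀ (i : Fin n) (f : E), pe (Fin.natAdd e i) (algebraMap E F f) = 0 := by
    intro i f
    have h1 : (pe (Fin.natAdd e i)).compAlgebraMap E = 0 := by
      apply eq_zero_of_basis hr
      intro j
      show pe (Fin.natAdd e i) (algebraMap E F (r j)) = 0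
      rw [← hcl j, hpe.1, if_neg]
      intro h
      have h3 := congrArg Fin.val h
      rw [Fin.val_natAdd, Fin.val_castAdd] at h3
      have := j.2
      omega
    have h2 : ((pe (Fin.natAdd e i)).compAlgebraMap E) f = 0 := by
      rw [h1]; rfl
    exact h2
  -- the bound
  have hbd : ∀ f : Fin e → E, (∀ j, f j ≠ 0) →
      Matrix.det (fun m j => pd m (f j) / f j : Matrix (Fin e) (Fin e) E) ≠ 0 →
      - |A - ∑ j, val ν (x j)| ≤ val w (Matrix.det (fun m j => pd m (f j) / f j : Matrix (Fin e) (Fin e) E)) := by
    intro f hf hdet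
    set Δ : E := Matrix.det (fun m j => pd m (f j) / f j : Matrix (Fin e) (Fin e) E) with hΔ
    let g : Fin (e + n) → F := Fin.append (fun j => algebraMap E F (f j)) x
    have hgl : ∀ j : Fin e, g (Fin.castAdd n j) = algebraMap E F (f j) := by
      intro j; simp [g]
    have hgr : ∀ j : Fin n, g (Fin.natAdd e j) = x j := by
      intro j; simp [g]
    have hg : ∀ j, g j ≠ 0 := by
      intro j
      refine Fin.addCases (fun j => ?_) (fun j => ?_) j
      · rw [hgl]; simpa using hf j
      · rw [hgr]; exact hx0 j
    have hM : Matrix.det (fun m j => pe m (g j) / g j : Matrix (Fin (e + n)) (Fin (e + n)) F) =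
        algebraMap E F Δ * ∏ j, (x j)⁻¹ := by
      have h1 : (fun m j => pe m (g j) / g j : Matrix (Fin (e + n)) (Fin (e + n)) F) =
          (Matrix.fromBlocks ((algebraMap E F).mapMatrix (fun m j => pd m (f j) / f j : Matrix (Fin e) (Fin e) E)) 0 0
            (Matrix.diagonal fun j => (x j)⁻¹)).submatrix finSumFinEquiv.symm finSumFinEquiv.symm := by
        funext m j
        rw [Matrix.submatrix_apply]
        refine Fin.addCases (fun m => ?_) (fun m => ?_) m
        · refine Fin.addCases (fun j => ?_) (fun j => ?_) j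
          · rw [finSumFinEquiv_symm_apply_castAdd, finSumFinEquiv_symm_apply_castAdd,
              Matrix.fromBlocks_apply₁₁, hgl, hp1, RingHom.mapMatrix_apply, Matrix.map_apply, map_div₀]
          · rw [finSumFinEquiv_symm_apply_castAdd, finSumFinEquiv_symm_apply_natAdd,
              Matrix.fromBlocks_apply₁₂, hgr, ← hcr j, hpe.1, if_neg, zero_div]
            · rfl
            · intro h
              have h3 := congrArg Fin.val h
              rw [Fin.val_natAdd, Fin.val_castAdd] at h3
              have := m.2
              omega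
        · refine Fin.addCases (fun j => ?_) (fun j => ?_) j
          · rw [finSumFinEquiv_symm_apply_natAdd, finSumFinEquiv_symm_apply_castAdd,
              Matrix.fromBlocks_apply₂₁, hgl, hp2, zero_div]
            rfl
          · rw [finSumFinEquiv_symm_apply_natAdd, finSumFinEquiv_symm_apply_natAdd,
              Matrix.fromBlocks_apply₂₂, hgr]
            have h4 : pe (Fin.natAdd e m) (x j) = if m = j then 1 else 0 := by
              rw [← hcr j, hpe.1]
              by_cases h : m = j
              · rw [if_pos (by rw [h]), if_pos h]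
              · rw [if_neg (by intro h2; exact h (Fin.natAdd_injective n e h2)), if_neg h]
            rw [h4]
            by_cases h : m = j
            · rw [if_pos h, h, Matrix.diagonal_apply_eq, one_div]
            · rw [if_neg h, Matrix.diagonal_apply_ne _ h, zero_div]
      rw [h1, Matrix.det_submatrix_equiv_self, Matrix.det_fromBlocks_zero₂₁, ← RingHom.map_det,
        Matrix.det_diagonal]
    have hΔ' : algebraMap E F Δ ≠ 0 := by simpa using hdet
    have hprod : ∏ j, (x j)⁻¹ ≠ 0 := Finset.prod_ne_zero_iff.2 fun j _ => inv_ne_zero (hx0 j)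
    have h5 := bound hpe hA g hg (by rw [hM]; exact mul_ne_zero hΔ' hprod)
    rw [hM, Api.val_mul ν hΔ' hprod, Api.val_prod ν _ _ (fun j _ => inv_ne_zero (hx0 j)), hwv Δ hdet] at h5
    have h6 : ∑ j, val ν (x j)⁻¹ = - ∑ j, val ν (x j) := by
      rw [← Finset.sum_neg_distrib]
      exact Finset.sum_congr rfl fun j _ => Api.val_inv ν (hx0 j)
    rw [h6] at h5
    have h7 : - |A - ∑ j, val ν (x j)| ≤ a * val w Δ := by
      have := le_abs_self (A - ∑ j, val ν (x j))
      omega
    by_cases h8 : 0 ≤ val w Δ
    · have := abs_nonneg (A - ∑ j, val ν (x j))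
      omega
    · have h9 : a * val w Δ ≤ 1 * val w Δ := by
        apply mul_le_mul_of_nonpos_right _ (by omega)
        omega
      omega
  obtain ⟨g, δ, hg, hdual, hlog, -⟩ := hBAS k E e r pd hpd.1 hpd.2 w (|A - ∑ j, val ν (x j)|) hbd
  refine hDVL k E e htr w ?_ hπ g δ hg hdual hlog
  intro b hb0
  have hνk : ∀ b : k, 0 ≤ ν (algebraMap k F b) := by
    obtain ⟨-, C, -, hC, -⟩ := hν
    intro b
    exact hC _ (C.algebraMap_mem b)
  have h1 := Api.val_algebraMap hνk hb0
  have h2 := ((hw (algebraMap k E b) 0).1).2 (by
    rw [Api.res_apply, ← IsScalarTower.algebraMap_apply, h1, mul_zero]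
    rfl)
  exact h2

end Pool.Agent.Work.MP_a2680c_ag.HA
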