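import Pool.Agent.Work.MP_a2680c_ag.HA.StmtsB

/-! MP_a2680c_ag, block HA, item Smo (helper96): regular coordinates have log discrepancy `1`. -/

set_option autoImplicit false

namespace Pool.Agent.Work.MP_a2680c_ag.HA

open MP7b66e6 MP7b66e6.Q
open scoped BigOperators

universe u

namespace XSmo

section vals
variable {K : Type u} [Field K] {ν : AddValuation K (WithTop ℤ)}

theorem exists_int {f : K} (hf : f ≠ 0) : ∃ j : ℤ, ν f = (j : WithTop ℤ) := by
  have h : ν f ≠ ⊤ := fun h => hf ((AddValuation.top_iff ν).1 h)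
  obtain ⟨j, hj⟩ := WithTop.ne_top_iff_exists.1 h
  exact ⟨j, hj.symm⟩

theorem pi_ne {π : K} (hπ : ν π = 1) : π ≠ 0 := by
  rintro rfl
  rw [AddValuation.map_zero] at hπ
  exact WithTop.top_ne_one hπ

theorem ne_of_int {f : K} {a : ℤ} (h : ν f = (a : WithTop ℤ)) : f ≠ 0 := by
  rintro rfl
  rw [AddValuation.map_zero] at h
  exact WithTop.top_ne_coe h

theorem inv_val {f : K} {j : ℤ} (h : ν f = (j : WithTop ℤ)) :
    ν f⁻¹ = ((-j : ℤ) : WithTop ℤ) := by
  have hf := ne_of_int h
  obtain ⟨i, hi⟩ := exists_int (ν := ν) (inv_ne_zero hf)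
  have h1 : ν (f * f⁻¹) = ν f + ν f⁻¹ := AddValuation.map_mul ν _ _
  rw [mul_inv_cancel₀ hf, AddValuation.map_one, h, hi, ← WithTop.coe_add] at h1
  have h2 : (0 : ℤ) = j + i := WithTop.coe_injective h1
  rw [hi]
  congr 1
  omega

theorem npow_val {π : K} (hπ : ν π = 1) (n : ℕ) : ν (π ^ n) = ((n : ℤ) : WithTop ℤ) := by
  induction n with
  | zero => rw [pow_zero, AddValuation.map_one]; rfl
  | succ n ih =>
    rw [pow_succ, AddValuation.map_mul, ih, hπ]
    push_cast
    rfl

theorem zpow_val {π : K} (hπ : ν π = 1) (n : ℤ) : ν (π ^ n) = (n : WithTop ℤ) := by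
  rcases Int.eq_nat_or_neg n with ⟨m, rfl | rfl⟩
  · rw [zpow_natCast]
    exact npow_val hπ m
  · rw [zpow_neg, zpow_natCast]
    exact inv_val (npow_val hπ m)

theorem one_le {f : K} (h : 0 ≤ ν f) (h0 : ν f ≠ 0) : 1 ≤ ν f := by
  rcases eq_or_ne f 0 with rfl | hf
  · rw [AddValuation.map_zero]
    exact le_top
  obtain ⟨j, hj⟩ := exists_int (ν := ν) hf
  rw [hj] at h h0 ⊢
  have h1 : (0 : ℤ) ≤ j := by exact_mod_cast h
  have h2 : j ≠ 0 := by
    rintro rfl
    exact h0 rfl
  exact_mod_cast (by omega : (1 : ℤ) ≤ j)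

theorem mul_nn {a b : K} (ha : 0 ≤ ν a) (hb : 0 ≤ ν b) : 0 ≤ ν (a * b) := by
  rw [AddValuation.map_mul]
  exact add_nonneg ha hb

theorem mul_one_le {a b : K} (ha : 0 ≤ ν a) (hb : 1 ≤ ν b) : 1 ≤ ν (a * b) := by
  rw [AddValuation.map_mul]
  calc (1 : WithTop ℤ) = 0 + 1 := (zero_add _).symm
    _ ≤ ν a + ν b := add_le_add ha hb

theorem add_ge' {a b : K} {c : WithTop ℤ} (ha : c ≤ ν a) (hb : c ≤ ν b) : c ≤ ν (a + b) :=
  le_trans (le_min ha hb) (ν.map_add a b)

theorem sub_ge' {a b : K} {c : WithTop ℤ} (ha : c ≤ ν a) (hb : c ≤ ν b) : c ≤ ν (a - b) := by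
  rw [sub_eq_add_neg]
  refine add_ge' ha ?_
  rw [AddValuation.map_neg]
  exact hb

theorem det_nn {ι : Type} [Fintype ι] [DecidableEq ι] (M : Matrix ι ι K)
    (h : ∀ i j, 0 ≤ ν (M i j)) : 0 ≤ ν M.det := by
  rw [Matrix.det_apply]
  refine AddValuation.map_le_sum ν fun σ _ => ?_
  have h1 : 0 ≤ ν (∏ i, M (σ i) i) := by
    refine Finset.prod_induction _ (fun a => 0 ≤ ν a) (fun a b ha hb => mul_nn ha hb) ?_
      (fun i _ => h _ _)
    rw [AddValuation.map_one]
  rcases Int.units_eq_one_or (Equiv.Perm.sign σ) with h2 | h2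
  · rw [h2, one_smul]
    exact h1
  · rw [h2, Units.neg_smul, one_smul, AddValuation.map_neg]
    exact h1

/-- `f = π ^ a w` with a unit `w` -/
theorem split_unit {π : K} (hπ : ν π = 1) {f : K} {a : ℤ}
    (hf : ν f = (a : WithTop ℤ)) : ∃ w : K, ν w = 0 ∧ f = π ^ a * w := by
  have hπ0 := pi_ne hπ
  refine ⟨π ^ (-a) * f, ?_, ?_⟩
  · rw [ν.map_mul, zpow_val hπ, hf, ← WithTop.coe_add, neg_add_cancel]
    rfl
  · rw [← mul_assoc, ← zpow_add₀ hπ0, add_neg_cancel, zpow_zero, one_mul]

/-- an element of positive value is not algebraic over elements of value zero -/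
theorem not_alg {k : Type u} [Field k] [Algebra k K] (S : Subalgebra k K)
    (hS : ∀ s ∈ S, s ≠ 0 → ν s = 0) {π : K} (hπ : ν π = 1) (h : IsAlgebraic S π) : False := by
  classical
  obtain ⟨p, hp, h0⟩ := h
  set m : ℕ := p.natTrailingDegree with hm
  have hmem : m ∈ p.support := Polynomial.natTrailingDegree_mem_support_of_nonzero hp
  have hc : p.coeff m ≠ 0 := Polynomial.mem_support_iff.1 hmem
  have hc' : ((p.coeff m : S) : K) ≠ 0 := fun h => hc (Subtype.ext h)
  rw [Polynomial.aeval_def, Polynomial.eval₂_eq_sum, Polynomial.sum_def,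
    ← Finset.add_sum_erase _ _ hmem] at h0
  have h1 : ν (algebraMap S K (p.coeff m) * π ^ m) = ((m : ℤ) : WithTop ℤ) := by
    rw [AddValuation.map_mul, npow_val hπ]
    have h2 : ν (algebraMap S K (p.coeff m)) = 0 := hS _ (p.coeff m).2 hc'
    rw [h2, zero_add]
  have h3 : (((m : ℤ) + 1 : ℤ) : WithTop ℤ) ≤
      ν (∑ i ∈ p.support.erase m, algebraMap S K (p.coeff i) * π ^ i) := by
    refine AddValuation.map_le_sum ν fun i hi => ?_
    have hi1 := Finset.mem_of_mem_erase hi
    have hi2 := Finset.ne_of_mem_erase hi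
    have hi3 : m ≤ i := Polynomial.natTrailingDegree_le_of_mem_supp i hi1
    have hci : p.coeff i ≠ 0 := Polynomial.mem_support_iff.1 hi1
    have hci' : ((p.coeff i : S) : K) ≠ 0 := fun h => hci (Subtype.ext h)
    rw [AddValuation.map_mul, npow_val hπ]
    have h2 : ν (algebraMap S K (p.coeff i)) = 0 := hS _ (p.coeff i).2 hci'
    rw [h2, zero_add]
    exact WithTop.coe_le_coe.2 (by omega)
  have h4 : algebraMap S K (p.coeff m) * π ^ m =
      -∑ i ∈ p.support.erase m, algebraMap S K (p.coeff i) * π ^ i :=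
    eq_neg_of_add_eq_zero_left h0
  rw [h4, AddValuation.map_neg] at h1
  rw [h1] at h3
  have h5 := WithTop.coe_le_coe.1 h3
  omega

end vals

section ders
variable {k K : Type u} [Field k] [Field K] [Algebra k K] {ν : AddValuation K (WithTop ℤ)}

theorem sum_app {ι : Type} (s : Finset ι) (f : ι → Derivation k K K) (a : K) :
    (∑ l ∈ s, f l) a = ∑ l ∈ s, f l a := by
  rw [← Derivation.coeFnAddMonoidHom_apply, map_sum, Finset.sum_apply]
  rfl

theorem alg_nn (hν : Divisorial k ν) (c : k) : 0 ≤ ν (algebraMap k K c) := by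
  obtain ⟨_, C, _, hC, _⟩ := hν
  exact hC _ (C.algebraMap_mem _)

theorem alg_zero (hν : Divisorial k ν) {c : k} (hc : c ≠ 0) : ν (algebraMap k K c) = 0 := by
  have h1 := alg_nn hν c
  have h2 := alg_nn hν c⁻¹
  have h3 : ν (algebraMap k K c) + ν (algebraMap k K c⁻¹) = 0 := by
    rw [← AddValuation.map_mul, ← map_mul, mul_inv_cancel₀ hc, map_one, AddValuation.map_one]
  refine le_antisymm ?_ h1
  calc ν (algebraMap k K c) = ν (algebraMap k K c) + 0 := (add_zero _).symm
    _ ≤ ν (algebraMap k K c) + ν (algebraMap k K c⁻¹) := add_le_add le_rfl h2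
    _ = 0 := h3

theorem der_zpow (D : Derivation k K K) {π : K} (hπ0 : π ≠ 0) (n : ℤ) :
    D (π ^ n) = π ^ n * ((n : K) * (D π / π)) := by
  rw [Derivation.leibniz_zpow, zpow_sub_one₀ hπ0]
  simp only [smul_eq_mul, zsmul_eq_mul]
  ring

theorem der_split (D : Derivation k K K) {π : K} (hπ0 : π ≠ 0) (a : ℤ) (w : K) :
    D (π ^ a * w) = π ^ a * (D w + (a : K) * (D π / π) * w) := by
  rw [D.leibniz, der_zpow D hπ0]
  simp only [smul_eq_mul]
  ring

/-- criterion for a field to be logarithmic -/
theorem logGe_of {π : K} (hπ : ν π = 1) {G : Derivation k K K}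
    (h1 : ∀ w : K, ν w = 0 → 0 ≤ ν (G w)) (hint : ∀ z : ℤ, 0 ≤ ν (z : K))
    (h2 : 0 ≤ ν (G π / π)) : LogGe ν G 0 := by
  have hπ0 := pi_ne hπ
  intro f
  rcases eq_or_ne f 0 with rfl | hf
  · rw [show G 0 = 0 from map_zero G, AddValuation.map_zero]
    exact le_top
  obtain ⟨a, ha⟩ := exists_int (ν := ν) hf
  obtain ⟨w, hνw, hfw⟩ := split_unit hπ ha
  rw [ha, hfw, der_split G hπ0, AddValuation.map_mul, zpow_val hπ]
  refine add_le_add le_rfl ?_
  refine add_ge' (h1 w hνw) ?_
  rw [AddValuation.map_mul, AddValuation.map_mul, hνw, add_zero]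
  exact add_nonneg (hint a) h2

/-- chain rule -/
theorem chain {d : ℕ} (x : Fin d → K) (pd : Fin d → Derivation k K K)
    (h : ∀ i j, pd i (x j) = if i = j then 1 else 0) (i : Fin d) (P : MvPolynomial (Fin d) k) :
    pd i (MvPolynomial.aeval x P) = MvPolynomial.aeval x (MvPolynomial.pderiv i P) := by
  classical
  induction P using MvPolynomial.induction_on with
  | C a =>
    rw [MvPolynomial.algHom_C, (pd i).map_algebraMap, MvPolynomial.pderiv_C, map_zero]
  | add p q hp hq => rw [map_add, map_add, map_add, map_add, hp, hq]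
  | mul_X p j hp =>
    rw [map_mul, Derivation.leibniz, hp, MvPolynomial.pderiv_mul, map_add, map_mul, map_mul,
      MvPolynomial.aeval_X, h, MvPolynomial.pderiv_X, smul_eq_mul, smul_eq_mul]
    by_cases hij : i = j
    · subst hij
      rw [if_pos rfl, Pi.single_eq_same, map_one]
      ring
    · rw [if_neg hij, Pi.single_eq_of_ne (fun h => hij h.symm), map_zero]
      ring

/-- polynomials in `x` of positive value vanish -/
theorem poly_zero [CharZero k] (hν : Divisorial k ν) {d : ℕ} (x : Fin d → K)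
    (pd : Fin d → Derivation k K K) (h : ∀ i j, pd i (x j) = if i = j then 1 else 0)
    (hI : ∀ i (f : K), 1 ≤ ν f → 1 ≤ ν (pd i f)) (P : MvPolynomial (Fin d) k)
    (hP : 1 ≤ ν (MvPolynomial.aeval x P)) : P = 0 := by
  classical
  have key : ∀ n : ℕ, ∀ P : MvPolynomial (Fin d) k,
      (∀ m ∈ P.support, m.degree < n) → 1 ≤ ν (MvPolynomial.aeval x P) → P = 0 := by
    intro n
    induction n with
    | zero =>
      intro P hP _
      by_contra hne
      obtain ⟨m, hm⟩ := (MvPolynomial.support_nonempty.mpr hne)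
      exact absurd (hP m hm) (Nat.not_lt_zero _)
    | succ n ih =>
      intro P hP h0
      have hp : ∀ i, MvPolynomial.pderiv i P = 0 := by
        intro i
        apply ih
        · intro m hm
          rw [MvPolynomial.mem_support_iff, MvPolynomial.coeff_pderiv] at hm
          have h1 : m + Finsupp.single i 1 ∈ P.support := by
            rw [MvPolynomial.mem_support_iff]
            exact left_ne_zero_of_mul hm
          have h2 := hP _ h1
          rw [map_add, Finsupp.degree_single] at h2
          omega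
        · rw [← chain x pd h]
          exact hI i _ h0
      have hc : ∀ m : Fin d →₀ ℕ, m ≠ 0 → MvPolynomial.coeff m P = 0 := by
        intro m hm
        obtain ⟨i, hi⟩ := Finsupp.ne_iff.mp hm
        have hi' : 1 ≤ m i := Nat.one_le_iff_ne_zero.mpr hi
        have h1 : m - Finsupp.single i 1 + Finsupp.single i 1 = m := by
          apply tsub_add_cancel_of_le
          rw [Finsupp.single_le_iff]
          exact hi'
        have h2 := MvPolynomial.coeff_pderiv (i := i) P (m - Finsupp.single i 1)
        rw [hp i, MvPolynomial.coeff_zero, h1] at h2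
        rcases mul_eq_zero.mp h2.symm with h3 | h3
        · exact h3
        · exfalso
          have h5 : ((((m - Finsupp.single i 1 : Fin d →₀ ℕ) i) + 1 : ℕ) : k) = 0 := by
            rw [Nat.cast_add, Nat.cast_one]
            exact h3
          exact Nat.cast_ne_zero.mpr (Nat.succ_ne_zero _) h5
      have hPC : P = MvPolynomial.C (MvPolynomial.coeff 0 P) := by
        ext m
        rw [MvPolynomial.coeff_C]
        by_cases hm : 0 = m
        · rw [if_pos hm, hm]
        · rw [if_neg hm, hc m (fun h => hm h.symm)]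
      by_contra hne
      have h4 : MvPolynomial.coeff 0 P ≠ 0 := by
        intro h4
        apply hne
        rw [hPC, h4, map_zero]
      rw [hPC, MvPolynomial.algHom_C, alg_zero hν h4] at h0
      exact absurd h0 (not_le.2 zero_lt_one)
  refine key (P.support.sup (fun m => m.degree) + 1) P (fun m hm => ?_) hP
  exact Nat.lt_succ_of_le (Finset.le_sup (f := fun m : Fin d →₀ ℕ => m.degree) hm)

/-- (α) -/
theorem exists_j [CharZero k] (hν : Divisorial k ν) {d : ℕ} {x : Fin d → K}
    (hx : IsTranscendenceBasis k x) {pd : Fin d → Derivation k K K}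
    (h : ∀ i j, pd i (x j) = if i = j then 1 else 0) (hx0 : ∀ j, 0 ≤ ν (x j))
    (hpd : ∀ j (f : K), 0 ≤ ν f → 0 ≤ ν (pd j f)) {π : K} (hπ : ν π = 1) :
    ∃ j, ν (pd j π) = 0 := by
  by_contra hcon
  push Not at hcon
  have hπ0 := pi_ne hπ
  have hπnn : 0 ≤ ν π := by
    rw [hπ]
    exact zero_le_one
  have h1 : ∀ j, 1 ≤ ν (pd j π) := fun j => one_le (hpd j π hπnn) (hcon j)
  have hI : ∀ i (f : K), 1 ≤ ν f → 1 ≤ ν (pd i f) := by
    intro i f hf
    have h2 : f = π * (π⁻¹ * f) := by
      rw [← mul_assoc, mul_inv_cancel₀ hπ0, one_mul]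
    have h3 : 0 ≤ ν (π⁻¹ * f) := by
      rcases eq_or_ne f 0 with rfl | hf0
      · rw [mul_zero, AddValuation.map_zero]
        exact le_top
      obtain ⟨j, hj⟩ := exists_int (ν := ν) hf0
      have h4 : ν π = ((1 : ℤ) : WithTop ℤ) := hπ
      rw [AddValuation.map_mul, inv_val h4, hj, ← WithTop.coe_add]
      rw [hj] at hf
      have h5 : (1 : ℤ) ≤ j := by exact_mod_cast hf
      exact_mod_cast (by omega : (0 : ℤ) ≤ -1 + j)
    rw [h2, Derivation.leibniz, smul_eq_mul, smul_eq_mul]
    refine add_ge' ?_ ?_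
    · rw [mul_comm]
      exact mul_one_le (hpd i _ h3) hπ.ge
    · exact mul_one_le h3 (h1 i)
  have hnn : ∀ P : MvPolynomial (Fin d) k, 0 ≤ ν (MvPolynomial.aeval x P) := by
    intro P
    induction P using MvPolynomial.induction_on with
    | C a =>
      rw [MvPolynomial.algHom_C]
      exact alg_nn hν a
    | add p q hp hq =>
      rw [map_add]
      exact add_ge' hp hq
    | mul_X p j hp =>
      rw [map_mul, MvPolynomial.aeval_X]
      exact mul_nn hp (hx0 j)
  have hS : ∀ s ∈ Algebra.adjoin k (Set.range x), s ≠ 0 → ν s = 0 := by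
    intro s hs hs0
    rw [Algebra.adjoin_range_eq_range_aeval] at hs
    obtain ⟨P, rfl⟩ := hs
    by_contra hne
    have h2 := poly_zero hν x pd h hI P (one_le (hnn P) hne)
    apply hs0
    rw [h2]
    exact map_zero _
  have halg := hx.isAlgebraic
  exact not_alg (Algebra.adjoin k (Set.range x)) hS hπ (halg.isAlgebraic π)

end ders

end XSmo

open XSmo in
theorem pr_Smo : StSmo.{u} := by
  classical
  intro k K _ _ _ _ d x hx pd hD ν hν hx0 hpd
  obtain ⟨hpx, hu⟩ := hD
  obtain ⟨π, hπ⟩ := hν.1
  have hπ0 := pi_ne hπ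
  have hπnn : 0 ≤ ν π := by
    rw [hπ]
    exact zero_le_one
  have hint : ∀ z : ℤ, 0 ≤ ν (z : K) := by
    intro z
    have h1 := alg_nn (K := K) hν (z : k)
    rwa [map_intCast] at h1
  obtain ⟨j, hj⟩ := exists_j hν hx hpx hx0 hpd hπ
  have hj' : ν (pd j π) = ((0 : ℤ) : WithTop ℤ) := hj
  have hj0 : pd j π ≠ 0 := ne_of_int hj'
  refine ⟨⟨fun i => if i = j then π • pd j else pd i - (pd i π / pd j π) • pd j, ?_, ?_⟩, ?_⟩
  · intro i
    by_cases hij : i = j
    · show LogGe ν (if i = j then π • pd j else pd i - (pd i π / pd j π) • pd j) 0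
      rw [if_pos hij]
      refine logGe_of hπ ?_ hint ?_
      · intro w hw
        rw [Derivation.smul_apply, smul_eq_mul]
        exact mul_nn hπnn (hpd j w hw.ge)
      · rw [Derivation.smul_apply, smul_eq_mul, mul_div_cancel_left₀ _ hπ0]
        exact hj.ge
    · show LogGe ν (if i = j then π • pd j else pd i - (pd i π / pd j π) • pd j) 0
      rw [if_neg hij]
      refine logGe_of hπ ?_ hint ?_
      · intro w hw
        rw [Derivation.sub_apply, Derivation.smul_apply, smul_eq_mul]
        refine sub_ge' (hpd i w hw.ge) (mul_nn ?_ (hpd j w hw.ge))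
        rw [div_eq_mul_inv]
        refine mul_nn (hpd i π hπnn) ?_
        rw [inv_val hj']
        exact le_rfl
      · rw [Derivation.sub_apply, Derivation.smul_apply, smul_eq_mul, div_mul_cancel₀ _ hj0,
          sub_self, zero_div, AddValuation.map_zero]
        exact le_top
  · have hdet : Matrix.det (fun i l =>
        (if i = j then π • pd j else pd i - (pd i π / pd j π) • pd j) (x l)) = π := by
      have h1 := Matrix.det_eq_of_forall_row_eq_smul_add_const
        (A := fun i l => (if i = j then π • pd j else pd i - (pd i π / pd j π) • pd j) (x l))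
        (B := Matrix.diagonal (fun i : Fin d => if i = j then π else 1))
        (fun i => if i = j then 0 else -(pd i π / pd j π) * π⁻¹) j (by simp) (by
          intro i l
          by_cases hij : i = j
          · subst hij
            rw [if_pos rfl, if_pos rfl, Derivation.smul_apply, smul_eq_mul, hpx, zero_mul,
              add_zero, Matrix.diagonal_apply]
            by_cases hil : i = l
            · subst hil
              simp
            · simp [hil]
          · rw [if_neg hij, if_neg hij, Derivation.sub_apply, Derivation.smul_apply, smul_eq_mul,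
              hpx, hpx, Matrix.diagonal_apply, Matrix.diagonal_apply, if_neg hij, if_pos rfl]
            by_cases hjl : j = l
            · rw [if_pos hjl, if_pos hjl]
              field_simp
              ring
            · rw [if_neg hjl, if_neg hjl]
              ring)
      rw [h1, Matrix.det_diagonal, Finset.prod_ite_eq' Finset.univ j (fun _ => π),
        if_pos (Finset.mem_univ j)]
    rw [hdet, hπ]
    rfl
  · intro δ hδ
    set M : Matrix (Fin d) (Fin d) K := Matrix.of fun i l => δ i (x l) with hM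
    have hMnn : ∀ i l, 0 ≤ ν (M i l) := by
      intro i l
      have h1 := hδ i (x l)
      have h2 : ν (x l) + ((0 : ℤ) : WithTop ℤ) = ν (x l) := add_zero _
      rw [h2] at h1
      exact le_trans (hx0 l) h1
    have hMdet : 0 ≤ ν M.det := det_nn M hMnn
    show ((1 : ℤ) : WithTop ℤ) ≤ ν M.det
    refine one_le hMdet fun h0 => ?_
    have h0' : ν M.det = ((0 : ℤ) : WithTop ℤ) := h0
    have hM0 : M.det ≠ 0 := ne_of_int h0'
    have hMu : IsUnit M.det := isUnit_iff_ne_zero.2 hM0
    have hinv : ∀ i l, 0 ≤ ν (M⁻¹ i l) := by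
      intro i l
      rw [Matrix.inv_def, Ring.inverse_eq_inv', Matrix.smul_apply, smul_eq_mul]
      refine mul_nn ?_ ?_
      · rw [inv_val h0']
        exact le_rfl
      · rw [Matrix.adjugate_apply]
        refine det_nn _ fun a b => ?_
        by_cases hal : a = l
        · subst hal
          rw [Matrix.updateRow_self]
          by_cases hib : i = b
          · subst hib
            rw [Pi.single_eq_same, AddValuation.map_one]
          · rw [Pi.single_eq_of_ne (fun h => hib h.symm), AddValuation.map_zero]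
            exact le_top
        · rw [Matrix.updateRow_ne hal]
          exact hMnn a b
    have hexp : pd j = ∑ i, M⁻¹ j i • δ i := by
      have h1 : pd j - ∑ i, M⁻¹ j i • δ i = 0 := by
        apply hu
        intro l
        rw [Derivation.sub_apply, sum_app, hpx]
        have h2 : ∑ i, (M⁻¹ j i • δ i) (x l) = (M⁻¹ * M) j l := by
          rw [Matrix.mul_apply]
          rfl
        rw [h2, Matrix.nonsing_inv_mul M hMu, Matrix.one_apply, sub_self]
      exact sub_eq_zero.1 h1
    have h3 : 1 ≤ ν (pd j π) := by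
      rw [hexp, sum_app]
      refine AddValuation.map_le_sum ν fun i _ => ?_
      rw [Derivation.smul_apply, smul_eq_mul]
      refine mul_one_le (hinv j i) ?_
      have h4 := hδ i π
      have h5 : ν π + ((0 : ℤ) : WithTop ℤ) = ν π := add_zero _
      rw [h5, hπ] at h4
      exact h4
    rw [hj] at h3
    exact absurd h3 (not_le.2 zero_lt_one)

end Pool.Agent.Work.MP_a2680c_ag.HA
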