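import Pool.Agent.Work.MP_a2680c_ag.HA.StmtsG

/-!
# MP_a2680c_ag, block HA, item Tbx: transcendence bases of the four function fields
-/

set_option autoImplicit false

noncomputable section

namespace Pool.Agent.Work.MP_a2680c_ag.HA

open MP7b66e6 MP7b66e6.Q
open scoped BigOperators

universe u

namespace XTbx

/-- `cor r x` is algebraically independent -/
theorem cor_indep {k K F : Type u} [Field k] [Field K] [Field F] [Algebra k K] [Algebra k F]
    [Algebra K F] [IsScalarTower k K F] {e n : ℕ} (r : Fin e → K) (x : Fin n → F)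
    (hr : AlgebraicIndependent k r) (hx : AlgebraicIndependent K x) :
    AlgebraicIndependent k (cor r x) := by
  have h1 := hr.sumElim_comp hx
  have h2 : (Sum.elim x (algebraMap K F ∘ r)) ∘
      ((finSumFinEquiv (m := e) (n := n)).symm.trans (Equiv.sumComm (Fin e) (Fin n))) =
      cor r x := by
    funext i
    refine Fin.addCases (fun i => ?_) (fun j => ?_) i
    · simp [cor]
    · simp [cor]
  rw [← h2]
  exact (algebraicIndependent_equiv _).2 h1

/-- a finite extension does not change the transcendence degree -/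
theorem trdeg_fin (k F F' : Type u) [Field k] [Field F] [Field F'] [Algebra k F] [Algebra k F']
    [Algebra F F'] [IsScalarTower k F F'] [FiniteDimensional F F'] :
    Algebra.trdeg k F = Algebra.trdeg k F' := by
  have h := trdeg_add_eq k F (A := F')
  have h0 : Algebra.trdeg F F' = 0 := trdeg_eq_zero
  rw [h0, add_zero] at h
  exact h

end XTbx

open XTbx in
theorem pr_Tbx (hTbs : StTbs.{u}) (hTfr : StTfr.{u}) : StTbx.{u} := by
  intro k K F K' F' _ _ _ _ _ _ _ _ _ _ _ _ _ _ _ _ _ _ _ e n r x y hess hr hy hx
  obtain ⟨h1, h2⟩ := hTbs k K K' e r hr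
  have : Algebra.EssFiniteType k K' := h2 hess
  obtain ⟨h3, h4, h5⟩ := hTfr k K' F' e n (up K' r) y h1 hy
  have h6 : AlgebraicIndependent k (cor r x) := cor_indep r x hr.1 hx
  have h7 : Algebra.trdeg k F = ((e + n : ℕ) : Cardinal) := by
    rw [trdeg_fin k F F', h4]
  have h8 : IsTranscendenceBasis k (cor r x) := by
    refine h6.isTranscendenceBasis_of_lift_trdeg_le_of_finite ?_
    rw [h7, Cardinal.mk_fin, Cardinal.lift_natCast, Cardinal.lift_natCast]
  exact ⟨h8, (hTbs k F F' (e + n) (cor r x) h8).1, h5, h3⟩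

end Pool.Agent.Work.MP_a2680c_ag.HA
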