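import Pool.Agent.Work.MP_a2680c_ag.HA.StmtsY
import Pool.Agent.Work.MP_a2680c_ag.HA.I_Smo
import Pool.Agent.Work.MP_a2680c_ag.HA.I_Jcb
import Pool.Agent.Work.MP_a2680c_ag.HA.I_Tbx
import Pool.Agent.Work.MP_a2680c_ag.HA.I_Rsv
import Pool.Agent.Work.MP_a2680c_ag.HA.I_Cor
import Pool.Agent.Work.MP_7b66e6_ag.K.I_BDD

/-!
# MP_a2680c_ag, block HA, item Gcn (helper41): the canonical divisor of a curve of genus one
-/

set_option autoImplicit false

noncomputable section

namespace Pool.Agent.Work.MP_a2680c_ag.HA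

open MP7b66e6 MP7b66e6.Q
open scoped BigOperators

universe u

namespace XGcn

section
variable {K E : Type u} [Field K] [Field E] [Algebra K E] {w : AddValuation E (WithTop ℤ)}

theorem val_zero (h : ∀ c : K, 0 ≤ w (algebraMap K E c)) {c : K} (hc : c ≠ 0) :
    w (algebraMap K E c) = 0 := by
  have h1 := h c
  have h2 := h c⁻¹
  have h3 : w (algebraMap K E c) + w (algebraMap K E c⁻¹) = 0 := by
    rw [← AddValuation.map_mul, ← map_mul, mul_inv_cancel₀ hc, map_one, AddValuation.map_one]
  refine le_antisymm ?_ h1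
  calc w (algebraMap K E c) = w (algebraMap K E c) + 0 := (add_zero _).symm
    _ ≤ w (algebraMap K E c) + w (algebraMap K E c⁻¹) := add_le_add le_rfl h2
    _ = 0 := h3

theorem aeval_nn (h : ∀ c : K, 0 ≤ w (algebraMap K E c)) {g : E} (hg : 0 ≤ w g)
    (P : Polynomial K) : 0 ≤ w (Polynomial.aeval g P) := by
  induction P using Polynomial.induction_on with
  | C a =>
    rw [Polynomial.aeval_C]
    exact h a
  | add p q hp hq =>
    rw [map_add]
    exact XSmo.add_ge' hp hq
  | monomial n a ih =>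
    rw [pow_succ, ← mul_assoc, map_mul, Polynomial.aeval_X]
    exact XSmo.mul_nn ih hg

theorem split_one {π : E} (hπ : w π = 1) {f : E} (hf : 0 < w f) :
    ∃ h : E, 0 ≤ w h ∧ f = π * h := by
  have hπ0 := XSmo.pi_ne hπ
  refine ⟨π⁻¹ * f, ?_, ?_⟩
  · rcases eq_or_ne f 0 with rfl | hf0
    · rw [mul_zero, AddValuation.map_zero]
      exact le_top
    obtain ⟨j, hj⟩ := XSmo.exists_int (ν := w) hf0
    have h4 : w π = ((1 : ℤ) : WithTop ℤ) := hπ
    rw [AddValuation.map_mul, XSmo.inv_val h4, hj, ← WithTop.coe_add]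
    rw [hj] at hf
    have h5 : (0 : ℤ) < j := by exact_mod_cast hf
    exact_mod_cast (by omega : (0 : ℤ) ≤ -1 + j)
  · rw [← mul_assoc, mul_inv_cancel₀ hπ0, one_mul]

/-- residues are algebraic over `K` -/
theorem exists_pos (h : ∀ c : K, 0 ≤ w (algebraMap K E c)) {π : E} (hπ : w π = 1)
    (htr : ∀ g : E, Transcendental K g → Algebra.IsAlgebraic (Algebra.adjoin K {g}) E)
    {g : E} (hg : 0 ≤ w g) : ∃ P : Polynomial K, P ≠ 0 ∧ 0 < w (Polynomial.aeval g P) := by
  by_contra hcon
  push Not at hcon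
  have h1 : ∀ P : Polynomial K, P ≠ 0 → w (Polynomial.aeval g P) = 0 := fun P hP =>
    le_antisymm (hcon P hP) (aeval_nn h hg P)
  have h2 : Transcendental K g := by
    rintro ⟨P, hP, hP0⟩
    have h3 := h1 P hP
    rw [hP0, AddValuation.map_zero] at h3
    exact absurd h3 WithTop.top_ne_zero
  have halg := htr g h2
  refine XSmo.not_alg (Algebra.adjoin K {g}) ?_ hπ (halg.isAlgebraic π)
  intro s hs hs0
  rw [Algebra.adjoin_singleton_eq_range_aeval] at hs
  obtain ⟨P, rfl⟩ := hs
  refine h1 P ?_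
  rintro rfl
  exact hs0 (map_zero _)

theorem exists_poly [CharZero K] (h : ∀ c : K, 0 ≤ w (algebraMap K E c)) {π : E} (hπ : w π = 1)
    (htr : ∀ g : E, Transcendental K g → Algebra.IsAlgebraic (Algebra.adjoin K {g}) E)
    {g : E} (hg : 0 ≤ w g) : ∃ P : Polynomial K, 0 < w (Polynomial.aeval g P) ∧
      w (Polynomial.aeval g (Polynomial.derivative P)) = 0 := by
  have key : ∀ n : ℕ, ∀ P : Polynomial K, P.natDegree ≤ n → P ≠ 0 →
      0 < w (Polynomial.aeval g P) → ∃ P : Polynomial K, 0 < w (Polynomial.aeval g P) ∧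
      w (Polynomial.aeval g (Polynomial.derivative P)) = 0 := by
    intro n
    induction n with
    | zero =>
      intro P hP hP0 hP1
      exfalso
      have h1 : P = Polynomial.C (P.coeff 0) := Polynomial.eq_C_of_natDegree_le_zero hP
      have h2 : P.coeff 0 ≠ 0 := by
        intro h2
        rw [h2, Polynomial.C_0] at h1
        exact hP0 h1
      rw [h1, Polynomial.aeval_C, val_zero h h2] at hP1
      exact lt_irrefl _ hP1
    | succ n ih =>
      intro P hP hP0 hP1
      by_cases h3 : w (Polynomial.aeval g (Polynomial.derivative P)) = 0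
      · exact ⟨P, hP1, h3⟩
      have h4 : P.natDegree ≠ 0 := by
        intro h4
        have h1 : P = Polynomial.C (P.coeff 0) :=
          Polynomial.eq_C_of_natDegree_le_zero h4.le
        have h2 : P.coeff 0 ≠ 0 := by
          intro h2
          rw [h2, Polynomial.C_0] at h1
          exact hP0 h1
        rw [h1, Polynomial.aeval_C, val_zero h h2] at hP1
        exact lt_irrefl _ hP1
      refine ih (Polynomial.derivative P) ?_ ?_ ?_
      · have := Polynomial.natDegree_derivative_lt h4
        omega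
      · intro h5
        exact h4 (Polynomial.derivative_eq_zero.mp h5)
      · exact lt_of_le_of_ne (aeval_nn h hg _) (Ne.symm h3)
  obtain ⟨P, hP, hP1⟩ := exists_pos h hπ htr hg
  exact key P.natDegree P le_rfl hP hP1

/-- derivations which map `K` to itself and kill `π` preserve the ring of the place -/
theorem pres {k : Type u} [Field k] [Algebra k E] (hdiv : Divisorial k w)
    (h0 : ∀ c : K, 0 ≤ w (algebraMap K E c)) {π : E} (hπ : w π = 1)
    (hP : ∀ g : E, 0 ≤ w g → ∃ P : Polynomial K, 0 < w (Polynomial.aeval g P) ∧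
      w (Polynomial.aeval g (Polynomial.derivative P)) = 0)
    (D : Derivation k E E) (D₀ : K → K)
    (hD : ∀ c : K, D (algebraMap K E c) = algebraMap K E (D₀ c)) (hDπ : D π = 0) :
    ∀ f : E, 0 ≤ w f → 0 ≤ w (D f) := by
  obtain ⟨C, hC⟩ := kBDD k E w hdiv D
  by_contra hcon
  push Not at hcon
  obtain ⟨f, hf, hf1⟩ := hcon
  have hne : ∀ f : E, w (D f) < 0 → D f ≠ 0 := by
    intro f hf h1
    rw [h1, AddValuation.map_zero] at hf
    exact absurd hf (not_lt.2 le_top)
  obtain ⟨j, hj⟩ := XSmo.exists_int (ν := w) (hne f hf1)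
  obtain ⟨c, ⟨u, hu, huc⟩, hmin⟩ := Int.exists_least_of_bdd
    (P := fun c : ℤ => ∃ u : E, 0 ≤ w u ∧ w (D u) = (c : WithTop ℤ))
    ⟨C, by
      rintro z ⟨u, hu, hz⟩
      have h1 := hC u
      rw [hz] at h1
      have h2 : ((C : ℤ) : WithTop ℤ) ≤ (z : WithTop ℤ) := by
        refine le_trans ?_ h1
        calc ((C : ℤ) : WithTop ℤ) = 0 + (C : WithTop ℤ) := (zero_add _).symm
          _ ≤ w u + (C : WithTop ℤ) := add_le_add hu le_rfl
      exact WithTop.coe_le_coe.1 h2⟩
    ⟨j, f, hf, hj⟩
  have hc0 : c < 0 := by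
    have h1 := hmin j ⟨f, hf, hj⟩
    rw [hj] at hf1
    have h2 : j < 0 := by exact_mod_cast hf1
    omega
  have hall : ∀ g : E, 0 ≤ w g → ((c : ℤ) : WithTop ℤ) ≤ w (D g) := by
    intro g hg
    rcases eq_or_ne (D g) 0 with h1 | h1
    · rw [h1, AddValuation.map_zero]
      exact le_top
    obtain ⟨i, hi⟩ := XSmo.exists_int (ν := w) h1
    rw [hi]
    exact WithTop.coe_le_coe.2 (hmin i ⟨g, hg, hi⟩)
  obtain ⟨P, hP1, hP2⟩ := hP u hu
  have hdiff : ∀ Q : Polynomial K, 0 ≤ w (D (Polynomial.aeval u Q) -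
      Polynomial.aeval u (Polynomial.derivative Q) * D u) := by
    intro Q
    induction Q using Polynomial.induction_on with
    | C a =>
      rw [Polynomial.aeval_C, hD, Polynomial.derivative_C, map_zero, zero_mul, sub_zero]
      exact h0 _
    | add p q hp hq =>
      have h1 : D (Polynomial.aeval u (p + q)) -
          Polynomial.aeval u (Polynomial.derivative (p + q)) * D u =
          (D (Polynomial.aeval u p) - Polynomial.aeval u (Polynomial.derivative p) * D u) +
          (D (Polynomial.aeval u q) - Polynomial.aeval u (Polynomial.derivative q) * D u) := by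
        rw [map_add, map_add, Polynomial.derivative_add, map_add]
        ring
      rw [h1]
      exact XSmo.add_ge' hp hq
    | monomial n a ih =>
      have h1 : D (Polynomial.aeval u (Polynomial.C a * Polynomial.X ^ (n + 1))) -
          Polynomial.aeval u (Polynomial.derivative
            (Polynomial.C a * Polynomial.X ^ (n + 1))) * D u =
          u * (D (Polynomial.aeval u (Polynomial.C a * Polynomial.X ^ n)) -
          Polynomial.aeval u (Polynomial.derivative
            (Polynomial.C a * Polynomial.X ^ n)) * D u) := by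
        rw [pow_succ, ← mul_assoc]
        generalize (Polynomial.C a * Polynomial.X ^ n : Polynomial K) = T
        rw [map_mul (Polynomial.aeval u) T Polynomial.X, Polynomial.aeval_X, D.leibniz,
          Polynomial.derivative_mul, Polynomial.derivative_X, mul_one, map_add,
          map_mul (Polynomial.aeval u), Polynomial.aeval_X, smul_eq_mul, smul_eq_mul]
        ring
      rw [h1]
      exact XSmo.mul_nn hu ih
  obtain ⟨h, hh, hPh⟩ := split_one hπ hP1
  have h1 : ((c + 1 : ℤ) : WithTop ℤ) ≤ w (D (Polynomial.aeval u P)) := by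
    rw [hPh, D.leibniz, hDπ, smul_zero, add_zero, smul_eq_mul, AddValuation.map_mul, hπ,
      add_comm c 1, WithTop.coe_add]
    exact add_le_add le_rfl (hall h hh)
  have h2 : ((c + 1 : ℤ) : WithTop ℤ) ≤ w (D (Polynomial.aeval u P) -
      Polynomial.aeval u (Polynomial.derivative P) * D u) := by
    refine le_trans ?_ (hdiff P)
    exact_mod_cast (by omega : c + 1 ≤ 0)
  have h3 := XSmo.sub_ge' h1 h2
  rw [sub_sub_cancel, AddValuation.map_mul, hP2, huc, zero_add] at h3
  have h4 := WithTop.coe_le_coe.1 h3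
  omega

end

end XGcn

open XGcn in
theorem pr_Gcn (hTb : StTb.{u}) (hCan : StCan.{u}) (hSmo : StSmo.{u}) (_hLFT : StLFT.{u, u, u}) :
    StGcn.{u} := by
  classical
  intro k K E _ _ _ _ _ _ _ _ _ _ e r x θ w hr hx hw hdiv hθ hθ1
  obtain ⟨⟨π, hπ⟩, h0⟩ := hw
  have hπ0 : π ≠ 0 := XSmo.pi_ne hπ
  have hπnn : 0 ≤ w π := by
    rw [hπ]
    exact zero_le_one
  have : CharZero K := charZero_of_injective_algebraMap (algebraMap k K).injective
  -- transcendence degrees
  have htK := (hTb k K e r hr).2
  have htE := (hTb k E (e + 1) (cor r x) hx).2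
  have hbas : ∀ g : E, Transcendental K g → IsTranscendenceBasis k (cor r (fun _ : Fin 1 => g)) := by
    intro g hg
    have h1 : AlgebraicIndependent K (fun _ : Fin 1 => g) := by
      rw [algebraicIndependent_unique_type_iff]
      exact hg
    have h2 := XTbx.cor_indep r (fun _ : Fin 1 => g) hr.1 h1
    refine h2.isTranscendenceBasis_of_lift_trdeg_le_of_finite ?_
    rw [htE, Cardinal.mk_fin, Cardinal.lift_natCast, Cardinal.lift_natCast]
  have htKE : Algebra.trdeg K E = 1 := by
    have h := trdeg_add_eq k K (A := E)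
    rw [htK, htE] at h
    have h2 : ((e : ℕ) : Cardinal) + Algebra.trdeg K E = ((e : ℕ) : Cardinal) + 1 := by
      rw [h]
      push_cast
      rfl
    exact Cardinal.eq_of_add_eq_add_left h2 (Cardinal.natCast_lt_aleph0)
  have htr : ∀ g : E, Transcendental K g → Algebra.IsAlgebraic (Algebra.adjoin K {g}) E := by
    intro g hg
    have h1 : AlgebraicIndependent K (fun _ : Fin 1 => g) := by
      rw [algebraicIndependent_unique_type_iff]
      exact hg
    have h2 : IsTranscendenceBasis K (fun _ : Fin 1 => g) := by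
      refine h1.isTranscendenceBasis_of_lift_trdeg_le_of_finite ?_
      rw [htKE, Cardinal.mk_fin]
      simp
    have h3 := h2.isAlgebraic
    rwa [Set.range_const] at h3
  have hpoly : ∀ g : E, 0 ≤ w g → ∃ P : Polynomial K, 0 < w (Polynomial.aeval g P) ∧
      w (Polynomial.aeval g (Polynomial.derivative P)) = 0 := fun g hg => exists_poly h0 hπ htr hg
  -- (1)
  have hθπ : w (θ π) = 0 := by
    by_contra hne
    have h1 : 1 ≤ w (θ π) := XSmo.one_le (hθ π hπnn) hne
    obtain ⟨g, hg, hg1⟩ := hθ1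
    obtain ⟨P, hP1, hP2⟩ := hpoly g hg
    obtain ⟨h, hh, hPh⟩ := split_one hπ hP1
    have h2 := θ.map_aeval P g
    rw [hPh, θ.leibniz, smul_eq_mul, smul_eq_mul, smul_eq_mul] at h2
    have h3 : 1 ≤ w (π * θ h + h * θ π) := by
      refine XSmo.add_ge' ?_ (XSmo.mul_one_le hh h1)
      rw [mul_comm]
      exact XSmo.mul_one_le (hθ h hh) hπ.ge
    rw [h2, AddValuation.map_mul, hP2, hg1, zero_add] at h3
    exact absurd h3 (not_le.2 zero_lt_one)
  have hθπ' : w (θ π) = ((0 : ℤ) : WithTop ℤ) := hθπ
  have hθπ0 : θ π ≠ 0 := XSmo.ne_of_int hθπ'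
  -- (2)
  have hπtr : Transcendental K π := by
    intro hal
    refine XSmo.not_alg (k := K) (⊥ : Subalgebra K E) ?_ hπ ?_
    · intro s hs hs0
      rw [Algebra.mem_bot] at hs
      obtain ⟨c, rfl⟩ := hs
      refine val_zero h0 ?_
      rintro rfl
      exact hs0 (map_zero _)
    · obtain ⟨P, hP, hP0⟩ := hal
      refine ⟨P.map (algebraMap K (⊥ : Subalgebra K E)), ?_, ?_⟩
      · rw [Polynomial.map_ne_zero_iff (algebraMap K (⊥ : Subalgebra K E)).injective]
        exact hP
      · rw [Polynomial.aeval_map_algebraMap]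
        exact hP0
  have hc := hbas π hπtr
  obtain ⟨pe, hpe⟩ := (hTb k E (e + 1) (cor r (fun _ : Fin 1 => π)) hc).1
  obtain ⟨pd, hpd⟩ := (hTb k K e r hr).1
  obtain ⟨px, hpx⟩ := (hTb k E (e + 1) (cor r x) hx).1
  have hcl : ∀ (y : Fin 1 → E) (m : Fin e), cor r y (Fin.castAdd 1 m) = algebraMap K E (r m) := by
    intro y m
    simp [cor]
  have hcr : ∀ (y : Fin 1 → E), cor r y (Fin.natAdd e 0) = y 0 := by
    intro y
    simp [cor]
  set θ' : Derivation k E E := θ.restrictScalars k with hθ'
  have hlast : ∀ f : E, pe (Fin.natAdd e 0) f = (θ π)⁻¹ * θ f := by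
    intro f
    have h1 := XJcb.expand hpe θ' f
    rw [Fin.sum_univ_add] at h1
    have h2 : ∀ m : Fin e, θ' (cor r (fun _ : Fin 1 => π) (Fin.castAdd 1 m)) *
        pe (Fin.castAdd 1 m) f = 0 := by
      intro m
      rw [hcl]
      have h3 : θ' (algebraMap K E (r m)) = 0 := θ.map_algebraMap (r m)
      rw [h3, zero_mul]
    rw [Finset.sum_eq_zero fun m _ => h2 m, zero_add, Fin.sum_univ_one, hcr] at h1
    have h3 : θ f = θ π * pe (Fin.natAdd e 0) f := h1
    rw [h3, ← mul_assoc, inv_mul_cancel₀ hθπ0, one_mul]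
  have hK : ∀ (m : Fin e) (c : K), pe (Fin.castAdd 1 m) (algebraMap K E c) =
      algebraMap K E (pd m c) := by
    intro m c
    have h1 : XCor.res (pe (Fin.castAdd 1 m)) - (Algebra.linearMap K E).compDer (pd m) = 0 := by
      apply XRsv.eq_zero_of_basis hr
      intro j
      rw [Derivation.sub_apply, XCor.res_apply]
      have h2 : ((Algebra.linearMap K E).compDer (pd m)) (r j) = algebraMap K E (pd m (r j)) := rfl
      rw [h2, ← hcl (fun _ : Fin 1 => π) j, hpe.1, hpd.1]
      by_cases h : m = j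
      · rw [if_pos h, if_pos (congrArg _ h), map_one, sub_self]
      · rw [if_neg h, if_neg (fun h' => h (Fin.castAdd_injective e 1 h')), map_zero, sub_self]
    have h3 := congrArg (fun D : Derivation k K E => D c) h1
    have h4 : pe (Fin.castAdd 1 m) (algebraMap K E c) - algebraMap K E (pd m c) = 0 := h3
    exact sub_eq_zero.1 h4
  have hpres : ∀ (j : Fin (e + 1)) (f : E), 0 ≤ w f → 0 ≤ w (pe j f) := by
    intro j
    refine Fin.addCases (fun m => ?_) (fun i => ?_) j
    · refine pres hdiv h0 hπ hpoly (pe (Fin.castAdd 1 m)) (pd m) (hK m) ?_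
      have h1 := hpe.1 (Fin.castAdd 1 m) (Fin.natAdd e 0)
      rw [hcr, if_neg] at h1
      · exact h1
      · intro h
        have := congrArg Fin.val h
        rw [Fin.val_castAdd, Fin.val_natAdd] at this
        have := m.2
        omega
    · have hi : i = 0 := Subsingleton.elim _ _
      subst hi
      intro f hf
      rw [hlast f]
      refine XSmo.mul_nn ?_ (hθ f hf)
      rw [XSmo.inv_val hθπ']
      exact le_rfl
  have hLD : LogDisc k w (cor r (fun _ : Fin 1 => π)) 1 := by
    refine hSmo k E (e + 1) _ hc pe hpe w hdiv ?_ hpres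
    intro j
    refine Fin.addCases (fun m => ?_) (fun i => ?_) j
    · rw [hcl]
      exact h0 _
    · have hi : i = 0 := Subsingleton.elim _ _
      subst hi
      rw [hcr]
      exact hπnn
  -- (3)
  have hdet : Matrix.det (fun i j => pe i (cor r x j)) = (θ π)⁻¹ * θ (x 0) := by
    have h1 : Matrix.BlockTriangular (fun i j => pe i (cor r x j) : Matrix (Fin (e + 1)) (Fin (e + 1)) E) id := by
      intro i j hij
      have hij' : j < i := hij
      revert hij'
      refine Fin.addCases (fun m => ?_) (fun l => ?_) j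
      · intro hij'
        have h2 := hpe.1 i (Fin.castAdd 1 m)
        rw [hcl] at h2
        show pe i (cor r x (Fin.castAdd 1 m)) = 0
        rw [hcl, h2, if_neg (ne_of_gt hij')]
      · intro hij'
        exfalso
        have h3 := Fin.lt_def.1 hij'
        rw [Fin.val_natAdd] at h3
        have := i.2
        omega
    rw [Matrix.det_of_isUpperTriangular h1, Fin.prod_univ_add]
    have h2 : ∀ m : Fin e, pe (Fin.castAdd 1 m) (cor r x (Fin.castAdd 1 m)) = 1 := by
      intro m
      have h3 := hpe.1 (Fin.castAdd 1 m) (Fin.castAdd 1 m)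
      rw [hcl, if_pos rfl] at h3
      rw [hcl, h3]
    rw [Finset.prod_eq_one fun m _ => h2 m, one_mul, Fin.prod_univ_one, hcr, hlast]
  have hdet0 : Matrix.det (fun i j => pe i (cor r x j)) ≠ 0 := by
    have h1 : Matrix.det (fun i j => px i (cor r x j)) = 1 := by
      have : (fun i j => px i (cor r x j)) = (1 : Matrix (Fin (e + 1)) (Fin (e + 1)) E) := by
        funext i j
        rw [hpx.1, Matrix.one_apply]
      rw [this, Matrix.det_one]
    intro h
    rw [XJcb.det_mul hpe (cor r x) px, h, mul_zero] at h1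
    exact zero_ne_one h1
  have hθx : θ (x 0) ≠ 0 := by
    intro h
    rw [hdet, h, mul_zero] at hdet0
    exact hdet0 rfl
  refine ⟨hθx, ?_⟩
  have hv : w (Matrix.det (fun i j => pe i (cor r x j))) = ((val w (θ (x 0)) : ℤ) : WithTop ℤ) := by
    rw [hdet, AddValuation.map_mul, XSmo.inv_val hθπ', XJcb.val_eq w hθx, ← WithTop.coe_add]
    congr 1
    omega
  have hLD' : LogDisc k w (cor r x) (1 + val w (θ (x 0))) := by
    obtain ⟨⟨δ, hδ, hδ2⟩, hmin⟩ := hLD
    refine ⟨⟨δ, hδ, ?_⟩, fun δ' hδ' => ?_⟩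
    · rw [XJcb.det_mul hpe (cor r x) δ, AddValuation.map_mul, hδ2, hv, ← WithTop.coe_add]
    · rw [XJcb.det_mul hpe (cor r x) δ', AddValuation.map_mul, hv, WithTop.coe_add]
      exact add_le_add (hmin δ' hδ') le_rfl
  rw [(hCan k E (e + 1) (cor r x) w).1 _ hLD']
  push_cast
  ring

end Pool.Agent.Work.MP_a2680c_ag.HA
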