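import Pool.Agent.Work.MP_a2680c_ag.HA.StmtsX

/-! Item [a2680c HA Gcp] (helper54): the points of the generic fibre are prime divisors of `Y`. -/

set_option autoImplicit false

noncomputable section

namespace Pool.Agent.Work.MP_a2680c_ag.HA

open MP7b66e6 MP7b66e6.Q
open scoped BigOperators

universe u

namespace XGcp

theorem chain3 {R : Type u} [CommRing R] (hd : ringKrullDim R ≤ 2) (P0 P1 P2 P3 : Ideal R) [P0.IsPrime]
    [P1.IsPrime] [P2.IsPrime] [P3.IsPrime] (h01 : P0 < P1) (h12 : P1 < P2) (h23 : P2 < P3) : False := by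
  have h1 : P0.height + 1 ≤ P1.height := Ideal.height_add_one_le_of_lt_of_isPrime h01
  have h2 : P1.height + 1 ≤ P2.height := Ideal.height_add_one_le_of_lt_of_isPrime h12
  have h3 : P2.height + 1 ≤ P3.height := Ideal.height_add_one_le_of_lt_of_isPrime h23
  have h4 : (P3.height : WithBot ℕ∞) ≤ 2 := (Ideal.height_le_ringKrullDim_of_isPrime).trans hd
  have h4' : (P3.height : WithBot ℕ∞) ≤ ((2 : ℕ∞) : WithBot ℕ∞) := h4
  have h5 : P3.height ≤ 2 := WithBot.coe_le_coe.1 h4'
  have h6 : (3 : ℕ∞) ≤ P3.height := by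
    calc (3 : ℕ∞) = 0 + 1 + 1 + 1 := by norm_num
      _ ≤ P0.height + 1 + 1 + 1 := by gcongr; exact zero_le
      _ ≤ P1.height + 1 + 1 := by gcongr
      _ ≤ P2.height + 1 := by gcongr
      _ ≤ P3.height := h3
  have h7 : (3 : ℕ∞) ≤ 2 := h6.trans h5
  exact absurd h7 (by decide)

theorem only_max {k K E : Type u} [Field k] [Field K] [Field E] [Algebra k E] [Algebra K E]
    (htr : Algebra.trdeg K E < 2) (O : Subalgebra k E) (hKO : ∀ c : K, algebraMap K E c ∈ O) [IsLocalRing O]
    (P : Ideal O) [hPp : P.IsPrime] (hP : P ≠ ⊥) : P = IsLocalRing.maximalIdeal O := by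
  by_contra hne
  have hle : P ≤ IsLocalRing.maximalIdeal O := IsLocalRing.le_maximalIdeal hPp.ne_top
  have hlt : P < IsLocalRing.maximalIdeal O := lt_of_le_of_ne hle hne
  obtain ⟨b, hb, hb0⟩ : ∃ b ∈ P, b ≠ 0 := Submodule.exists_mem_ne_zero_of_ne_bot hP
  obtain ⟨g, hg, hgP⟩ := SetLike.exists_of_lt hlt
  have hdep : ¬ AlgebraicIndependent K ![(b : E), (g : E)] := by
    intro h
    have h1 := h.lift_cardinalMk_le_trdeg
    simp at h1
    exact absurd htr (not_lt.2 h1)
  rw [algebraicIndependent_iff] at hdep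
  push Not at hdep
  obtain ⟨Q, hQ, hQ0⟩ := hdep
  let i : K →+* O := (algebraMap K E).codRestrict O hKO
  let ψ : MvPolynomial (Fin 2) K →+* O := MvPolynomial.eval₂Hom i ![b, g]
  have hψ : ∀ q, ((ψ q : O) : E) = MvPolynomial.aeval ![(b : E), (g : E)] q := by
    intro q
    induction q using MvPolynomial.induction_on with
    | C c =>
      rw [MvPolynomial.aeval_C]
      change ((MvPolynomial.eval₂Hom i ![b, g] (MvPolynomial.C c) : O) : E) = _
      rw [MvPolynomial.eval₂Hom_C]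
      rfl
    | add p q hp hq =>
      rw [map_add, map_add, ← hp, ← hq]
      rfl
    | mul_X p j hp =>
      rw [map_mul, map_mul, ← hp, MvPolynomial.aeval_X]
      have e : ((ψ (MvPolynomial.X j) : O) : E) = ![(b : E), (g : E)] j := by
        change ((MvPolynomial.eval₂Hom i ![b, g] (MvPolynomial.X j) : O) : E) = _
        rw [MvPolynomial.eval₂Hom_X']
        fin_cases j <;> rfl
      rw [← e]
      rfl
  have hX0 : ψ (MvPolynomial.X 0) = b := by
    change MvPolynomial.eval₂Hom i ![b, g] (MvPolynomial.X 0) = _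
    rw [MvPolynomial.eval₂Hom_X']
    rfl
  have hX1 : ψ (MvPolynomial.X 1) = g := by
    change MvPolynomial.eval₂Hom i ![b, g] (MvPolynomial.X 1) = _
    rw [MvPolynomial.eval₂Hom_X']
    rfl
  have hQψ : ψ Q = 0 := Subtype.ext ((hψ Q).trans hQ)
  have hdim : ringKrullDim (MvPolynomial (Fin 2) K) ≤ 2 := by
    rw [MvPolynomial.ringKrullDim_of_isNoetherianRing, ringKrullDim_eq_zero_of_field]
    simp
  have hP0 : ((⊥ : Ideal O).comap ψ).IsPrime := Ideal.comap_isPrime ψ ⊥
  have hP1 : (P.comap ψ).IsPrime := Ideal.comap_isPrime ψ P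
  have hP2 : ((IsLocalRing.maximalIdeal O).comap ψ).IsPrime := Ideal.comap_isPrime ψ _
  have hbot : (⊥ : Ideal (MvPolynomial (Fin 2) K)).IsPrime := Ideal.isPrime_bot
  refine chain3 hdim ⊥ ((⊥ : Ideal O).comap ψ) (P.comap ψ) ((IsLocalRing.maximalIdeal O).comap ψ) ?_ ?_ ?_
  · refine lt_of_le_of_ne bot_le ?_
    intro h
    apply hQ0
    have : Q ∈ ((⊥ : Ideal O).comap ψ) := by
      rw [Ideal.mem_comap, hQψ]
      exact Ideal.zero_mem _
    rw [← h] at this
    simpa using this
  · refine lt_of_le_of_ne (Ideal.comap_mono bot_le) ?_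
    intro h
    apply hb0
    have : MvPolynomial.X 0 ∈ P.comap ψ := by
      rw [Ideal.mem_comap, hX0]
      exact hb
    rw [← h, Ideal.mem_comap, hX0] at this
    simpa using this
  · refine lt_of_le_of_ne (Ideal.comap_mono hle) ?_
    intro h
    apply hgP
    have : MvPolynomial.X 1 ∈ (IsLocalRing.maximalIdeal O).comap ψ := by
      rw [Ideal.mem_comap, hX1]
      exact hg
    rw [← h, Ideal.mem_comap, hX1] at this
    exact this

theorem trdeg_lt {k K E : Type u} [Field k] [Field K] [Field E] [Algebra k K] [Algebra k E] [Algebra K E]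
    [IsScalarTower k K E] {e : ℕ} {r : Fin e → K} {c : Fin (e + 1) → E} (hr : IsTranscendenceBasis k r)
    (hc : IsTranscendenceBasis k c) : Algebra.trdeg K E < 2 := by
  have h1 : Algebra.trdeg k K = (e : Cardinal) := by
    have := hr.lift_cardinalMk_eq_trdeg
    simpa using this.symm
  have h2 : Algebra.trdeg k E = ((e + 1 : ℕ) : Cardinal) := by
    have := hc.lift_cardinalMk_eq_trdeg
    simpa using this.symm
  have h3 : Algebra.trdeg k K + Algebra.trdeg K E = Algebra.trdeg k E := trdeg_add_eq k K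
  rw [h1, h2] at h3
  have h4 : Algebra.trdeg K E < Cardinal.aleph0 := by
    refine lt_of_le_of_lt ?_ (Cardinal.natCast_lt_aleph0 (n := e + 1))
    rw [← h3]
    exact le_add_self
  obtain ⟨n, hn⟩ := Cardinal.lt_aleph0.1 h4
  rw [hn] at h3 ⊢
  have h5 : e + n = e + 1 := by exact_mod_cast h3
  have h6 : n < 2 := by omega
  exact_mod_cast h6

end XGcp

theorem pr_Gcp (_hPDV : NgPDV.{u, u}) (_hTb : StTb.{u}) (hGrm : StGrm.{u}) (hGpt : StGpt.{u}) (hLoc : StLoc.{u})
    (hCnt : StCnt.{u}) : StGcp.{u} := by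
  classical
  intro k K E _ _ _ _ _ _ _ _ e r c Z Y hr hc hZ hY hm hp ν hν
  have htr := XGcp.trdeg_lt (K := K) hr hc
  have hEtr : Algebra.trdeg k E = ((e + 1 : ℕ) : Cardinal) := by
    have := hc.lift_cardinalMk_eq_trdeg
    simpa using this.symm
  -- values of elements of `K`
  have hK0 : ∀ a : K, a ≠ 0 → ν (algebraMap K E a) = 0 := by
    intro a ha
    have h1 := hν.2 a
    have h2 := hν.2 a⁻¹
    have hne : algebraMap K E a ≠ 0 := by simpa using ha
    rw [← Api.val_nonneg ν hne] at h1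
    rw [map_inv₀, ← Api.val_nonneg ν (inv_ne_zero hne), Api.val_inv ν hne] at h2
    rw [Api.coe_val ν hne, show val ν (algebraMap K E a) = 0 by omega]
    rfl
  have hOv : Ov Z ν := ⟨⊤, hGpt k K Z hZ, fun f _ => hν.2 f⟩
  obtain ⟨O, hO, hcen⟩ := (hCnt k K E Z hZ).2 Y hp ν hOv
  obtain ⟨P, hP, hdom⟩ := hm O hO
  -- `P = ⊤`
  have hPtop : P = ⊤ := by
    refine (hLoc k K Z hZ).2.2 P hP ⊤ (hGpt k K Z hZ) (Api.res K ν) ⟨?_, ?_⟩ ⟨?_, ?_⟩
    · intro f _
      rw [Api.res_apply]
      exact hν.2 f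
    · intro f hf h0
      have hf0 : f ≠ 0 := by
        rintro rfl
        rw [AddValuation.map_zero] at h0
        exact absurd h0 (by simp)
      refine (hdom f hf).2 hf0 ?_
      exact hcen.2 _ (hdom f hf).1 (hK0 f hf0)
    · intro f _
      rw [Api.res_apply]
      exact hν.2 f
    · intro f _ _
      exact Algebra.mem_top
  have hKO : ∀ a : K, algebraMap K E a ∈ O := by
    intro a
    refine (hdom a ?_).1
    rw [hPtop]
    exact Algebra.mem_top
  obtain ⟨hgerm, -⟩ := (hGrm k E Y hY).2 O hO (e + 1) hEtr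
  have : IsFractionRing O E := hgerm.isFrac
  have : Algebra.EssFiniteType k O := hgerm.eft
  have : IsNoetherianRing O := Algebra.EssFiniteType.isNoetherianRing k O
  have : IsLocalRing O := hgerm.isLocal
  have : IsIntegrallyClosed O := hgerm.normal
  obtain ⟨π, hπ⟩ := hν.1
  have hπ0 : π ≠ 0 := by
    intro h0
    rw [h0, AddValuation.map_zero] at hπ
    exact absurd hπ (by decide)
  have hinv : π⁻¹ ∉ O := by
    intro h
    have h1 := hcen.1 _ h
    rw [← Api.val_nonneg ν (inv_ne_zero hπ0), Api.val_inv ν hπ0, Api.val_of ν (m := 1) hπ] at h1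
    omega
  have hnf : ¬ IsField O := by
    intro hF
    obtain ⟨a, b, hb, e1⟩ := IsFractionRing.div_surjective (A := O) π⁻¹
    have hb0 : b ≠ 0 := nonZeroDivisors.ne_zero hb
    obtain ⟨b', hb'⟩ := hF.mul_inv_cancel hb0
    apply hinv
    have hbE : (b : E) ≠ 0 := fun h => hb0 (Subtype.ext h)
    have h1 : (b : E) * (b' : E) = 1 := congrArg Subtype.val hb'
    have h2 : π⁻¹ = (a : E) * (b' : E) := by
      rw [← e1]
      change (a : E) / (b : E) = (a : E) * (b' : E)
      rw [div_eq_mul_inv, eq_comm, ← eq_inv_of_mul_eq_one_right h1]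
    rw [h2]
    exact O.mul_mem a.2 b'.2
  have h5 : IsIntegrallyClosed O ∧ ∃! P : Ideal O, P ≠ ⊥ ∧ P.IsPrime := by
    refine ⟨inferInstance, IsLocalRing.maximalIdeal O, ⟨?_, inferInstance⟩, ?_⟩
    · exact IsLocalRing.isField_iff_maximalIdeal_eq.not.mp hnf
    · rintro Q ⟨hQ, hQ'⟩
      exact XGcp.only_max htr O hKO Q hQ
  have hdvr : IsDiscreteValuationRing O := ((IsDiscreteValuationRing.TFAE O hnf).out 0 3).2 h5
  refine ⟨hν.1, O, hO, fun f => ⟨fun hf => hcen.1 f hf, fun hf => ?_⟩⟩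
  by_contra hfO
  rcases ValuationRing.isInteger_or_isInteger O f with ⟨x, hx⟩ | ⟨x, hx⟩
  · exact hfO (by rw [← hx]; exact x.2)
  · have hfi : f⁻¹ ∈ O := by rw [← hx]; exact x.2
    have hf0 : f ≠ 0 := by
      rintro rfl
      exact hfO O.zero_mem
    have h1 := hcen.1 _ hfi
    rw [← Api.val_nonneg ν (inv_ne_zero hf0), Api.val_inv ν hf0] at h1
    rw [← Api.val_nonneg ν hf0] at hf
    apply hfO
    have h2 := hcen.2 _ hfi (by
      rw [Api.coe_val ν (inv_ne_zero hf0), Api.val_inv ν hf0, show - val ν f = 0 by omega]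
      rfl)
    rwa [inv_inv] at h2

end Pool.Agent.Work.MP_a2680c_ag.HA
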