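import Pool.Agent.Work.MP_a2680c_ag.HA.StmtsW

/-!
# MP_a2680c_ag, block HA, item Gex: existence of divisorial valuations over `v`
-/

set_option autoImplicit false

noncomputable section

namespace Pool.Agent.Work.MP_a2680c_ag.HA

open MP7b66e6 MP7b66e6.Q
open scoped BigOperators

universe u

namespace XGex

theorem exists_basis (k K : Type u) [Field k] [CharZero k] [Field K] [Algebra k K]
    [Algebra.EssFiniteType k K] : ∃ (e : ℕ) (r : Fin e → K), IsTranscendenceBasis k r := by
  obtain ⟨s, hs, -⟩ := exists_isTranscendenceBasis_and_isSeparable_of_perfectField (k := k) (K := K)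
  exact ⟨s.card, _, hs.comp_equiv s.equivFin.symm⟩

/-- the subfield generated by algebraically independent elements -/
theorem genBy (K F : Type u) [Field K] [Field F] [Algebra K F] {n : ℕ} (x : Fin n → F)
    (hx : AlgebraicIndependent K x)
    (x₀ : Fin n → IntermediateField.adjoin K (Set.range x)) (h₀ : ∀ i, (x₀ i : F) = x i) :
    GenBy K x₀ := by
  have e1 : (fun i => (IntermediateField.adjoin K (Set.range x)).val (x₀ i)) = x := by
    funext i
    exact h₀ i
  refine ⟨?_, ?_⟩
  · refine AlgebraicIndependent.of_comp (IntermediateField.adjoin K (Set.range x)).val ?_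
    show AlgebraicIndependent K (fun i => (IntermediateField.adjoin K (Set.range x)).val (x₀ i))
    rw [e1]
    exact hx
  · apply IntermediateField.lift_injective (IntermediateField.adjoin K (Set.range x))
    rw [IntermediateField.lift_top, IntermediateField.lift_adjoin, ← Set.range_comp]
    have e2 : (fun i => ((x₀ i : IntermediateField.adjoin K (Set.range x)) : F)) = x := e1
    show IntermediateField.adjoin K
      (Set.range (fun i => ((x₀ i : IntermediateField.adjoin K (Set.range x)) : F))) = _
    rw [e2]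

end XGex

theorem pr_Gex (hTb : StTb.{u}) (hTfr : StTfr.{u}) (hCan : StCan.{u}) (hMnv : StMnv.{u})
    (hMdv : StMdv.{u}) (hEXT : StEXT.{u, u, u}) : StGex.{u} := by
  have _ := hTfr
  intro k K F _ _ _ _ _ _ _ _ _ _ e d r c hr _ v hv
  have hK : CharZero K := charZero_of_injective_algebraMap (algebraMap k K).injective
  have hKF : Algebra.EssFiniteType K F := Algebra.EssFiniteType.of_comp k K F
  obtain ⟨n, x, hx⟩ := XGex.exists_basis K F
  have hgen : GenBy K (fun i => (⟨x i, IntermediateField.subset_adjoin K _ ⟨i, rfl⟩⟩ :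
      IntermediateField.adjoin K (Set.range x))) :=
    XGex.genBy K F x hx.1 _ fun _ => rfl
  have h1 : Algebra.IsAlgebraic (IntermediateField.adjoin K (Set.range x)) F :=
    hx.isAlgebraic_field
  have h2 : Algebra.EssFiniteType (IntermediateField.adjoin K (Set.range x)) F :=
    Algebra.EssFiniteType.of_comp K _ F
  have h3 : FiniteDimensional (IntermediateField.adjoin K (Set.range x)) F :=
    Algebra.finite_of_essFiniteType_of_isAlgebraic
  obtain ⟨⟨pd, hpd⟩, -⟩ := hTb k K e r hr
  obtain ⟨A, hA⟩ := (hCan k K e r v).2 pd hpd hv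
  obtain ⟨W₀, g, hg, hπ, hM⟩ := hMnv K _ n _ hgen v hv.1 1 (fun _ => 0) one_pos
  obtain ⟨hD, ⟨m, -, hL⟩, -⟩ := hMdv k K _ e n r _ hr hgen v 1 (fun _ => 0) W₀ g hv one_pos hg
    hπ hM A hA
  have hT : IsScalarTower k (IntermediateField.adjoin K (Set.range x)) F :=
    IsScalarTower.of_algebraMap_eq fun _ => rfl
  obtain ⟨W, e', hW, hL'⟩ := hEXT k _ F W₀ hD
  exact ⟨W, e' * m, hW, Api.lies_trans hL hL'⟩

end Pool.Agent.Work.MP_a2680c_ag.HA
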