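import Pool.Agent.Work.MP_a2680c_ag.HA.StmtsX

/-!
# MP_a2680c_ag, block HA, part X, item Gfx
-/

set_option autoImplicit false

noncomputable section

namespace Pool.Agent.Work.MP_a2680c_ag.HA

open MP7b66e6 MP7b66e6.Q
open scoped BigOperators TensorProduct

universe u

namespace XGfx

variable {K' F' K₂ F₂ : Type u} [Field K'] [Field F'] [Field K₂] [Field F₂] [Algebra K' F'] [Algebra K' K₂]
  [Algebra K' F₂] [Algebra F' F₂] [Algebra K₂ F₂] [IsScalarTower K' F' F₂] [IsScalarTower K' K₂ F₂]
  [FiniteDimensional K' K₂]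

/-- the natural map of the tensor product to `F₂` -/
def phi (M : IntermediateField K' F') : M ⊗[K'] K₂ →ₐ[M] F₂ :=
  Algebra.TensorProduct.lift (Algebra.ofId M F₂) (IsScalarTower.toAlgHom K' K₂ F₂)
    (fun _ _ => Commute.all _ _)

theorem surj (M : IntermediateField K' F') (y : Fin 1 → F') (hy : ∀ i, y i ∈ M)
    (hgen : IntermediateField.adjoin K₂ (Set.range (up F₂ y)) = ⊤) (x : F₂) :
    ∃ t : M ⊗[K'] K₂, phi (F₂ := F₂) M t = x := by
  have hx : x ∈ IntermediateField.adjoin K₂ (Set.range (up F₂ y)) := by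
    rw [hgen]; trivial
  have hmem : x ∈ (phi (F₂ := F₂) (K₂ := K₂) M).range := by
    induction hx using IntermediateField.adjoin_induction with
    | mem x hx =>
      obtain ⟨i, rfl⟩ := hx
      exact Subalgebra.algebraMap_mem (phi (F₂ := F₂) (K₂ := K₂) M).range (⟨y i, hy i⟩ : M)
    | algebraMap c =>
      refine ⟨1 ⊗ₜ c, ?_⟩
      show phi M (1 ⊗ₜ c) = _
      simp [phi]
    | add x y _ _ hx hy => exact Subalgebra.add_mem _ hx hy
    | mul x y _ _ hx hy => exact Subalgebra.mul_mem _ hx hy
    | inv x _ hx =>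
      have halg : IsAlgebraic M x := by
        obtain ⟨t, rfl⟩ := hx
        exact ((Algebra.IsIntegral.isIntegral (R := M) t).map (phi (F₂ := F₂) (K₂ := K₂) M)).isAlgebraic
      exact Subalgebra.inv_mem_of_algebraic (A := (phi (F₂ := F₂) (K₂ := K₂) M).range)
        (x := ⟨x, hx⟩) halg
  exact hmem

end XGfx

theorem pr_Gfx : StGfx.{u} := by
  intro K' F' K₂ F₂ _ _ _ _ _ _ _ _ _ _ _ _ _ y hfin hgen
  obtain ⟨hind, hadj⟩ := hgen
  refine ⟨?_, ?_⟩
  · have h1 : AlgebraicIndependent K' (up F₂ y) :=
      hind.restrictScalars (algebraMap K' K₂).injective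
    exact AlgebraicIndependent.of_comp (IsScalarTower.toAlgHom K' F' F₂) h1
  · set M : IntermediateField K' F' := IntermediateField.adjoin K' (Set.range y) with hM
    have hy : ∀ i, y i ∈ M := fun i => IntermediateField.subset_adjoin _ _ ⟨i, rfl⟩
    have hs : Function.Surjective (XGfx.phi (F₂ := F₂) (K₂ := K₂) M).toLinearMap :=
      fun x => XGfx.surj M y hy hadj x
    haveI : Module.Finite M F₂ := Module.Finite.of_surjective _ hs
    have hle : Module.finrank M F₂ ≤ Module.finrank K' K₂ := by
      have h2 : Module.finrank M (M ⊗[K'] K₂) = Module.finrank K' K₂ := Module.finrank_baseChange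
      rw [← h2]
      exact LinearMap.finrank_le_finrank_of_surjective hs
    haveI : FiniteDimensional M F' := FiniteDimensional.left M F' F₂
    have hmul : Module.finrank M F' * Module.finrank F' F₂ = Module.finrank M F₂ :=
      Module.finrank_mul_finrank M F' F₂
    have hpos : 0 < Module.finrank K' K₂ := Module.finrank_pos
    have hpos' : 0 < Module.finrank M F' := Module.finrank_pos
    rw [hfin] at hmul
    have h1 : Module.finrank M F' = 1 := by
      by_contra hne
      have h2 : 2 ≤ Module.finrank M F' := by omega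
      nlinarith
    exact IntermediateField.finrank_eq_one_iff_eq_top.1 h1

end Pool.Agent.Work.MP_a2680c_ag.HA
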