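import Pool.Agent.Work.MP_a2680c_ag.HA.StmtsW

/-!
Tower theorem, Gpt: the generic point of a variety.
-/

namespace Pool.Agent.Work.MP_a2680c_ag.HA

universe u

/-- The field is the local ring at the generic point. -/
theorem pr_Gpt : StGpt.{u} := by
  intro k K _ _ _ Z hZ
  obtain ⟨s, -, ⟨C, hC⟩, hs, hZs⟩ := hZ.charts
  obtain ⟨-, -, hfr⟩ := hs C hC
  refine (hZs ⊤).2 ⟨C, hC, ⊥, ?_, ?_⟩
  · exact Ideal.isPrime_bot
  · intro f
    refine ⟨fun _ => ?_, fun _ => trivial⟩
    obtain ⟨a, b, hb, hab⟩ := IsFractionRing.div_surjective (A := C) f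
    refine ⟨a, b, ?_, ?_⟩
    · rw [Ideal.mem_bot]
      exact nonZeroDivisors.ne_zero hb
    · have hb0 : (algebraMap C K b) ≠ 0 := by
        intro h0
        exact nonZeroDivisors.ne_zero hb ((IsFractionRing.injective C K) (h0.trans (map_zero _).symm))
      have h1 : (b : K) = algebraMap C K b := rfl
      have h2 : (a : K) = algebraMap C K a := rfl
      rw [h1, h2, ← hab, div_mul_cancel₀ _ hb0]

end Pool.Agent.Work.MP_a2680c_ag.HA
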