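import Pool.Agent.Work.MP_a2680c_ag.HA.StmtsC
import Pool.Agent.Work.MP_7b66e6_ag.N.I_PDV

/-! Item [a2680c HA Grm] (helper18): the points of a variety are normal germs. -/

set_option autoImplicit false

noncomputable section

namespace Pool.Agent.Work.MP_a2680c_ag.HA

open MP7b66e6 MP7b66e6.Q
open scoped BigOperators

universe u

namespace XGrm

variable {k K : Type u} [Field k] [Field K] [Algebra k K]

theorem le_of_isLoc {C R : Subalgebra k K} {p : Ideal C} [hp : p.IsPrime] (h : IsLoc C p R) : C ≤ R := by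
  intro c hc
  rw [h c]
  exact ⟨⟨c, hc⟩, 1, fun h1 => hp.ne_top ((Ideal.eq_top_iff_one p).2 h1), by simp⟩

/-- the algebra structure of the inclusion -/
abbrev alg {C R : Subalgebra k K} (h : C ≤ R) : Algebra C R := (Subalgebra.inclusion h).toRingHom.toAlgebra

theorem isLoc_atPrime {C R : Subalgebra k K} {p : Ideal C} [hp : p.IsPrime] (h : IsLoc C p R) :
    letI := alg (le_of_isLoc h)
    IsLocalization.AtPrime R p := by
  let _ := alg (le_of_isLoc h)
  have hco : ∀ c : C, ((algebraMap C R c : R) : K) = (c : K) := fun _ => rfl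
  have hne : ∀ s : C, s ∉ p → (s : K) ≠ 0 := by
    intro s hs h0
    apply hs
    have : s = 0 := Subtype.ext h0
    rw [this]
    exact p.zero_mem
  refine (isLocalization_iff p.primeCompl R).2 ⟨?_, ?_, ?_⟩
  · intro s
    have hs : ((s : C) : K) ≠ 0 := hne s s.2
    have hi : ((s : C) : K)⁻¹ ∈ R := by
      rw [h]
      exact ⟨1, s, s.2, by rw [inv_mul_cancel₀ hs]; rfl⟩
    refine IsUnit.of_mul_eq_one (⟨((s : C) : K)⁻¹, hi⟩ : R) ?_
    apply Subtype.ext
    change ((s : C) : K) * ((s : C) : K)⁻¹ = 1
    exact mul_inv_cancel₀ hs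
  · intro z
    obtain ⟨a, s, hs, e⟩ := (h (z : K)).1 z.2
    refine ⟨(a, ⟨s, hs⟩), ?_⟩
    apply Subtype.ext
    change (z : K) * (s : K) = (a : K)
    exact e
  · intro x y e
    refine ⟨1, ?_⟩
    have h1 := congrArg (Subtype.val) e
    have h2 : (x : K) = (y : K) := h1
    rw [Subtype.ext h2]

theorem essK (C : Subalgebra k K) (hfg : C.FG) (hF : IsFractionRing C K) : Algebra.EssFiniteType k K := by
  have h1 : Algebra.FiniteType k C := (Subalgebra.fg_iff_finiteType C).1 hfg
  have h2 : Algebra.EssFiniteType C K := Algebra.EssFiniteType.of_isLocalization K (nonZeroDivisors C)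
  exact Algebra.EssFiniteType.comp k C K

theorem isFrac_of_le {C R : Subalgebra k K} (h : C ≤ R) (hF : IsFractionRing C K) : IsFractionRing R K := by
  refine IsFractionRing.of_field R K fun z => ?_
  obtain ⟨a, b, -, e⟩ := IsFractionRing.div_surjective (A := C) z
  exact ⟨⟨a, h a.2⟩, ⟨b, h b.2⟩, e.symm⟩

theorem germ {C P : Subalgebra k K} {p : Ideal C} [hp : p.IsPrime] (h : IsLoc C p P) (hfg : C.FG)
    (hF : IsFractionRing C K) (hI : IsIntegrallyClosed C) (d : ℕ) (hd : Algebra.trdeg k K = (d : Cardinal)) :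
    Germ P d := by
  let _ := alg (le_of_isLoc h)
  have hL : IsLocalization.AtPrime P p := isLoc_atPrime h
  have h1 : Algebra.FiniteType k C := (Subalgebra.fg_iff_finiteType C).1 hfg
  have : IsScalarTower k C P := IsScalarTower.of_algebraMap_eq fun x => rfl
  refine ⟨isFrac_of_le (le_of_isLoc h) hF, IsLocalization.AtPrime.isLocalRing P p, ?_, ?_, hd⟩
  · have h2 : Algebra.EssFiniteType C P := Algebra.EssFiniteType.of_isLocalization P p.primeCompl
    exact Algebra.EssFiniteType.comp k C P
  · exact isIntegrallyClosed_of_isLocalization P p.primeCompl p.primeCompl_le_nonZeroDivisors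

end XGrm

theorem pr_Grm (hLoc : StLoc.{u}) (hPdd : StPdd.{u}) : StGrm.{u} := by
  intro k K _ _ _ Z hZ
  obtain ⟨s, hsf, hsn, hs, hmem⟩ := hZ.charts
  obtain ⟨hL1, hL2, hL3⟩ := hLoc k K Z hZ
  refine ⟨?_, ?_⟩
  · obtain ⟨C, hC⟩ := hsn
    obtain ⟨h1, -, h3⟩ := hs C hC
    exact XGrm.essK C h1 h3
  · intro P hP d hd
    obtain ⟨C, hC, p, hp, hloc⟩ := (hmem P).1 hP
    obtain ⟨h1, h2, h3⟩ := hs C hC
    have G : Germ P d := XGrm.germ hloc h1 h3 h2 d hd
    refine ⟨G, ?_⟩
    have hF : IsFractionRing P K := G.isFrac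
    have hE : Algebra.EssFiniteType k P := G.eft
    have hI : IsIntegrallyClosed P := G.normal
    have hN : IsNoetherianRing P := Algebra.EssFiniteType.isNoetherianRing k P
    intro ν
    constructor
    · rintro ⟨hdiv, hnn, q, hq, hht, hqv⟩
      obtain ⟨R, hR, hPR, hlocR⟩ := hL1 P hP q hq
      let _ := XGrm.alg (XGrm.le_of_isLoc hlocR)
      have hLR : IsLocalization.AtPrime R q := XGrm.isLoc_atPrime hlocR
      have hdvr : IsDiscreteValuationRing R := PDVn.isDVR q hht
      have hFR : IsFractionRing R K := XGrm.isFrac_of_le hPR hF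
      have hz : ∀ t : P, t ∉ q → ν (t : K) = 0 := by
        intro t ht
        have a1 := hnn t t.2
        have a2 : ¬ 0 < ν (t : K) := fun h => ht ((hqv t).2 h)
        exact le_antisymm (not_lt.1 a2) a1
      refine ⟨⟨hdiv.1, R, hR, fun f => ⟨?_, ?_⟩⟩, hnn⟩
      · intro hf
        obtain ⟨a, t, ht, e⟩ := (hlocR f).1 hf
        have a1 : ν f + ν (t : K) = ν (a : K) := by rw [← AddValuation.map_mul, e]
        rw [hz t ht, add_zero] at a1
        rw [a1]
        exact hnn a a.2
      · intro hf
        by_contra hfR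
        rcases ValuationRing.isInteger_or_isInteger R f with ⟨r, hr⟩ | ⟨r, hr⟩
        · exact hfR (by rw [← hr]; exact r.2)
        · have hfi : f⁻¹ ∈ R := by rw [← hr]; exact r.2
          have hf0 : f ≠ 0 := by
            rintro rfl
            exact hfR R.zero_mem
          obtain ⟨a, t, ht, e⟩ := (hlocR f⁻¹).1 hfi
          by_cases ha : a ∈ q
          · have a1 : ν f⁻¹ + ν (t : K) = ν (a : K) := by rw [← AddValuation.map_mul, e]
            rw [hz t ht, add_zero] at a1
            have a2 : 0 < ν f⁻¹ := by rw [a1]; exact (hqv a).1 ha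
            have a3 : ν f + ν f⁻¹ = 0 := by
              rw [← AddValuation.map_mul, mul_inv_cancel₀ hf0, AddValuation.map_one]
            have a4 : 0 < ν f + ν f⁻¹ := by
              calc (0 : WithTop ℤ) < ν f⁻¹ := a2
                _ = 0 + ν f⁻¹ := (zero_add _).symm
                _ ≤ ν f + ν f⁻¹ := add_le_add hf le_rfl
            exact absurd a3 (ne_of_gt a4)
          · apply hfR
            rw [hlocR]
            refine ⟨t, a, ha, ?_⟩
            rw [← e, ← mul_assoc, mul_inv_cancel₀ hf0, one_mul]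
    · rintro ⟨hPD, hnn⟩
      obtain ⟨hdiv, R', hR', hcen', hR'v⟩ := hPdd k K Z hZ ν hPD
      obtain ⟨R, hR, hPR, hcen, q, hq, hlocR, hqv⟩ := hL2 P hP ν hnn
      have hRR : R = R' := hL3 R hR R' hR' ν hcen hcen'
      have hRv : ∀ f : K, f ∈ R ↔ 0 ≤ ν f := by rw [hRR]; exact hR'v
      refine ⟨hdiv, hnn, q, hq, ?_, hqv⟩
      obtain ⟨π, hπ⟩ := hPD.1
      have hz : ∀ t : P, t ∉ q → ν (t : K) = 0 := by
        intro t ht
        have a1 := hnn t t.2
        have a2 : ¬ 0 < ν (t : K) := fun h => ht ((hqv t).2 h)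
        exact le_antisymm (not_lt.1 a2) a1
      have hπR : π ∈ R := by rw [hRv, hπ]; exact zero_le_one
      obtain ⟨a, t, ht, e⟩ := (hlocR π).1 hπR
      have ha : ν (a : K) = 1 := by
        rw [← e, AddValuation.map_mul, hπ, hz t ht, add_zero]
      have haq : a ∈ q := by
        rw [hqv, ha]
        exact zero_lt_one
      have ha0 : (a : K) ≠ 0 := by
        intro h0
        rw [h0, AddValuation.map_zero] at ha
        exact absurd ha (by simp)
      have hmin : q ∈ (Ideal.span {a}).minimalPrimes := by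
        refine ⟨⟨hq, ?_⟩, ?_⟩
        · rw [Ideal.span_le, Set.singleton_subset_iff]
          exact haq
        · rintro I ⟨hI1, hI2⟩ hIq f hf
          have haI : a ∈ I := hI2 (Ideal.subset_span rfl)
          by_cases hf0 : (f : K) = 0
          · have : f = 0 := Subtype.ext hf0
            rw [this]
            exact I.zero_mem
          have h4 : (f : K) / (a : K) ∈ R := by
            rw [hRv, ← Api.val_nonneg ν (div_ne_zero hf0 ha0), Api.val_div ν hf0 ha0,
              Api.val_of ν (m := 1) ha]
            have h5 : 0 < ν (f : K) := (hqv f).1 hf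
            rw [Api.coe_val ν hf0, ← WithTop.coe_zero, WithTop.coe_lt_coe] at h5
            omega
          obtain ⟨b, t', ht', e'⟩ := (hlocR _).1 h4
          have h6 : f * t' = a * b := by
            apply Subtype.ext
            change (f : K) * (t' : K) = (a : K) * (b : K)
            rw [← e']
            field_simp
          have h7 : f * t' ∈ I := by
            rw [h6]
            exact I.mul_mem_right _ haI
          rcases hI1.mem_or_mem h7 with h8 | h8
          · exact h8
          · exact absurd (hIq h8) ht'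
      have hle : q.height ≤ 1 := Ideal.height_le_one_of_isPrincipal_of_mem_minimalPrimes _ q hmin
      have hne : q.height ≠ 0 := by
        rw [Ne, Ideal.height_eq_zero_iff_eq_bot]
        rintro rfl
        apply ha0
        have : a = 0 := (Submodule.mem_bot P).1 haq
        rw [this]
        rfl
      exact le_antisymm hle (Order.one_le_iff_ne_zero.2 hne)

end Pool.Agent.Work.MP_a2680c_ag.HA
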