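import Pool.Agent.Work.MP_a2680c_ag.HA.StmtsX

/-!
# MP_a2680c_ag, block HA, item Hix: a normal subgroup of bounded index which fixes a finite set of places
-/

set_option autoImplicit false

noncomputable section

namespace Pool.Agent.Work.MP_a2680c_ag.HA

open MP7b66e6 MP7b66e6.Q
open scoped BigOperators

universe u

namespace XHix

variable {E F : Type u} [Field E] [Field F] [Algebra E F]

theorem cg_cg_inv (σ : F ≃ₐ[E] F) (ν : AddValuation F (WithTop ℤ)) : cg σ (cg σ⁻¹ ν) = ν := by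
  refine AddValuation.ext fun f => ?_
  show ν (σ⁻¹ (σ f)) = ν f
  rw [← AlgEquiv.mul_apply, inv_mul_cancel, AlgEquiv.one_apply]

theorem cg_inv_cg (σ : F ≃ₐ[E] F) (ν : AddValuation F (WithTop ℤ)) : cg σ⁻¹ (cg σ ν) = ν := by
  refine AddValuation.ext fun f => ?_
  show ν (σ (σ⁻¹ f)) = ν f
  rw [← AlgEquiv.mul_apply, mul_inv_cancel, AlgEquiv.one_apply]

theorem cg_one_inv (ν : AddValuation F (WithTop ℤ)) : cg (1 : F ≃ₐ[E] F)⁻¹ ν = ν := by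
  refine AddValuation.ext fun f => ?_
  show ν ((1 : F ≃ₐ[E] F)⁻¹ f) = ν f
  rw [inv_one, AlgEquiv.one_apply]

theorem cg_mul_inv (σ τ : F ≃ₐ[E] F) (ν : AddValuation F (WithTop ℤ)) :
    cg (σ * τ)⁻¹ ν = cg σ⁻¹ (cg τ⁻¹ ν) := by
  refine AddValuation.ext fun f => ?_
  show ν ((σ * τ)⁻¹ f) = ν (τ⁻¹ (σ⁻¹ f))
  rw [mul_inv_rev, AlgEquiv.mul_apply]

/-- the action on the set of places as a homomorphism to the permutations -/
def hom (𝒬 : Set (AddValuation F (WithTop ℤ)))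
    (h : ∀ (σ : F ≃ₐ[E] F), ∀ ν ∈ 𝒬, cg σ ν ∈ 𝒬) : (F ≃ₐ[E] F) →* Equiv.Perm 𝒬 where
  toFun σ :=
    { toFun := fun ν => ⟨cg σ⁻¹ ν.1, h σ⁻¹ ν.1 ν.2⟩
      invFun := fun ν => ⟨cg σ ν.1, h σ ν.1 ν.2⟩
      left_inv := fun ν => Subtype.ext (cg_cg_inv σ ν.1)
      right_inv := fun ν => Subtype.ext (cg_inv_cg σ ν.1) }
  map_one' := Equiv.ext fun ν => Subtype.ext (cg_one_inv ν.1)
  map_mul' σ τ := Equiv.ext fun ν => Subtype.ext (cg_mul_inv σ τ ν.1)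

end XHix

theorem pr_Hix : StHix.{u} := by
  intro E F _ _ _ _ 𝒬 hfin h
  haveI : Finite 𝒬 := hfin
  refine ⟨(XHix.hom 𝒬 h).ker, MonoidHom.normal_ker _, ?_, ?_⟩
  · rw [Subgroup.index_ker]
    have h1 : Nat.card (XHix.hom 𝒬 h).range ≤ Nat.card (Equiv.Perm 𝒬) :=
      Nat.card_le_card_of_injective _ Subtype.val_injective
    have h2 : Nat.card (Equiv.Perm 𝒬) = (𝒬.ncard).factorial := by
      rw [Nat.card_perm]
      rfl
    omega
  · intro σ hσ ν hν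
    have h1 : XHix.hom 𝒬 h σ = 1 := hσ
    have h2 : XHix.hom 𝒬 h σ ⟨ν, hν⟩ = ⟨ν, hν⟩ := by rw [h1]; rfl
    have h3 : cg σ⁻¹ ν = ν := congrArg Subtype.val h2
    calc cg σ ν = cg σ (cg σ⁻¹ ν) := by rw [h3]
      _ = ν := XHix.cg_cg_inv σ ν

end Pool.Agent.Work.MP_a2680c_ag.HA
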