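import Pool.Agent.Work.MP_a2680c_ag.HA.StmtsB

/-!
# MP_a2680c_ag, block HA, item Hor: log discrepancies of the divisors of projective space
-/

set_option autoImplicit false

noncomputable section

namespace Pool.Agent.Work.MP_a2680c_ag.HA

open MP7b66e6 MP7b66e6.Q
open scoped BigOperators

universe u

namespace XHor

section
variable {k K F : Type u} [Field k] [Field K] [Field F] [Algebra k K] [Algebra k F] [Algebra K F]
  {n : ℕ}

/-- Elements are fractions of polynomials. -/
theorem rep (y : Fin n → F) (h : GenBy K y) (f : F) :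
    ∃ P Q : MvPolynomial (Fin n) K, MvPolynomial.aeval y Q ≠ 0 ∧
      f * MvPolynomial.aeval y Q = MvPolynomial.aeval y P := by
  have hf : f ∈ IntermediateField.adjoin K (Set.range y) := by
    rw [h.2]
    exact IntermediateField.mem_top
  rw [IntermediateField.mem_adjoin_range_iff] at hf
  obtain ⟨P, Q, hPQ⟩ := hf
  by_cases hQ : MvPolynomial.aeval y Q = 0
  · refine ⟨0, 1, by simp, ?_⟩
    rw [hQ, div_zero] at hPQ
    rw [hPQ]
    simp
  · exact ⟨P, Q, hQ, by rw [hPQ, div_mul_cancel₀ _ hQ]⟩

/-- Derivative of a fraction. -/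
theorem frac (ν : AddValuation F (WithTop ℤ)) (E : Derivation k F F) (f P Q : F) (hQ : Q ≠ 0)
    (h : f * Q = P) (t : WithTop ℤ) (h1 : t + ν Q ≤ ν (E P)) (h2 : t + ν Q ≤ ν f + ν (E Q)) :
    t ≤ ν (E f) := by
  have e1 : Q * E f = E P - f * E Q := by
    rw [← h, Derivation.leibniz]
    simp only [smul_eq_mul]
    ring
  have e2 : ν Q + ν (E f) = ν (E P - f * E Q) := by
    rw [← e1, AddValuation.map_mul]
  have e3 : t + ν Q ≤ ν (E P - f * E Q) := by
    rw [sub_eq_add_neg]
    apply AddValuation.map_le_add
    · exact h1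
    · rw [AddValuation.map_neg, AddValuation.map_mul]
      exact h2
  rw [← e2, add_comm t] at e3
  have hne : ν Q ≠ ⊤ := fun h => hQ ((AddValuation.top_iff ν).1 h)
  exact (WithTop.add_le_add_iff_left hne).1 e3

/-- The values of `f` and of its derivative are at least `- d`. -/
def T (ν : AddValuation F (WithTop ℤ)) (E : Derivation k F F) (f : F) (d : ℕ) : Prop :=
  ((-(d : ℤ) : ℤ) : WithTop ℤ) ≤ ν f ∧ ((-(d : ℤ) : ℤ) : WithTop ℤ) ≤ ν (E f)

variable {ν : AddValuation F (WithTop ℤ)} {E : Derivation k F F}

theorem T.mono {f : F} {d d' : ℕ} (h : T ν E f d) (hd : d ≤ d') : T ν E f d' := by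
  have h1 : ((-(d' : ℤ) : ℤ) : WithTop ℤ) ≤ ((-(d : ℤ) : ℤ) : WithTop ℤ) := by
    rw [WithTop.coe_le_coe]
    have : (d : ℤ) ≤ d' := by exact_mod_cast hd
    linarith
  exact ⟨h1.trans h.1, h1.trans h.2⟩

theorem T.mul {f g : F} {d d' : ℕ} (h : T ν E f d) (h' : T ν E g d') : T ν E (f * g) (d + d') := by
  have e : ((-((d + d' : ℕ) : ℤ) : ℤ) : WithTop ℤ) =
      ((-(d : ℤ) : ℤ) : WithTop ℤ) + ((-(d' : ℤ) : ℤ) : WithTop ℤ) := by
    rw [← WithTop.coe_add]
    congr 1
    push_cast
    ring
  refine ⟨?_, ?_⟩
  · rw [e, AddValuation.map_mul]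
    exact add_le_add h.1 h'.1
  · rw [e, Derivation.leibniz]
    simp only [smul_eq_mul]
    apply AddValuation.map_le_add
    · rw [AddValuation.map_mul]
      exact add_le_add h.1 h'.2
    · rw [AddValuation.map_mul, add_comm (ν g)]
      exact add_le_add h.2 h'.1

theorem T.one : T ν E 1 0 := by
  refine ⟨?_, ?_⟩
  · simp
  · rw [Derivation.map_one_eq_zero]
    simp

theorem T.pow {f : F} {d : ℕ} (h : T ν E f d) (m : ℕ) : T ν E (f ^ m) (d * m) := by
  induction m with
  | zero => simpa using T.one
  | succ m ih =>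
    rw [pow_succ, Nat.mul_succ]
    exact ih.mul h

theorem T.prod {ι : Type} (S : Finset ι) (a : ι → F) (d : ι → ℕ) (h : ∀ i ∈ S, T ν E (a i) (d i)) :
    T ν E (∏ i ∈ S, a i) (∑ i ∈ S, d i) := by
  classical
  induction S using Finset.induction_on with
  | empty => simpa using T.one
  | insert i S hi ih =>
    rw [Finset.prod_insert hi, Finset.sum_insert hi]
    exact (h i (Finset.mem_insert_self _ _)).mul
      (ih fun j hj => h j (Finset.mem_insert_of_mem hj))

theorem T.sum {ι : Type} (S : Finset ι) (a : ι → F) (d : ℕ) (h : ∀ i ∈ S, T ν E (a i) d) :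
    T ν E (∑ i ∈ S, a i) d := by
  classical
  induction S using Finset.induction_on with
  | empty =>
    refine ⟨by simp, by simp⟩
  | insert i S hi ih =>
    rw [Finset.sum_insert hi]
    have h1 := h i (Finset.mem_insert_self _ _)
    have h2 := ih fun j hj => h j (Finset.mem_insert_of_mem hj)
    refine ⟨AddValuation.map_le_add ν h1.1 h2.1, ?_⟩
    rw [map_add]
    exact AddValuation.map_le_add ν h1.2 h2.2

/-- Polynomials in `y`. -/
theorem T.poly (y : Fin n → F) (w : ℕ) (hK : ∀ c : K, T ν E (algebraMap K F c) 0)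
    (hy : ∀ j, T ν E (y j) w) (g : MvPolynomial (Fin n) K) :
    T ν E (MvPolynomial.aeval y g) (w * g.totalDegree) := by
  have hg : MvPolynomial.aeval y g = ∑ s ∈ g.support,
      algebraMap K F (g.coeff s) * ∏ i ∈ s.support, y i ^ s i := by
    conv_lhs => rw [← MvPolynomial.support_sum_monomial_coeff g]
    rw [map_sum]
    refine Finset.sum_congr rfl fun s _ => ?_
    rw [MvPolynomial.aeval_monomial]
    rfl
  rw [hg]
  apply T.sum
  intro s hs
  have h1 : T ν E (∏ i ∈ s.support, y i ^ s i) (∑ i ∈ s.support, w * s i) :=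
    T.prod _ _ _ fun i _ => (hy i).pow (s i)
  have h2 := (hK (g.coeff s)).mul h1
  refine h2.mono ?_
  rw [Nat.zero_add, ← Finset.mul_sum]
  exact Nat.mul_le_mul_left w (MvPolynomial.le_totalDegree hs)

/-- The value of a finite product. -/
theorem val_prod (ν : AddValuation F (WithTop ℤ)) {ι : Type} (S : Finset ι) (a : ι → F) :
    ν (∏ i ∈ S, a i) = ∑ i ∈ S, ν (a i) := by
  classical
  induction S using Finset.induction_on with
  | empty => simp
  | insert i S hi ih => rw [Finset.prod_insert hi, Finset.sum_insert hi, AddValuation.map_mul, ih]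

/-- The value of a determinant. -/
theorem det_le (ν : AddValuation F (WithTop ℤ)) {d : ℕ} (M : Matrix (Fin d) (Fin d) F)
    (w : Fin d → WithTop ℤ) (h : ∀ i j, w j ≤ ν (M i j)) : ∑ j, w j ≤ ν M.det := by
  rw [Matrix.det_apply]
  apply AddValuation.map_le_sum
  intro σ _
  have h1 : ∑ j, w j ≤ ν (∏ i, M (σ i) i) := by
    rw [val_prod]
    exact Finset.sum_le_sum fun i _ => h _ _
  rcases Int.units_eq_one_or (Equiv.Perm.sign σ) with h2 | h2
  · rw [h2, one_smul]
    exact h1
  · rw [h2, Units.neg_smul, one_smul, AddValuation.map_neg]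
    exact h1

end

end XHor

open XHor in
/-- Hor: log discrepancies of the divisors of projective space. -/
theorem pr_Hor (hTb : StTb.{u}) (hCor : StCor.{u}) (hTfr : StTfr.{u}) (hSmo : StSmo.{u}) :
    StHor.{u} := by
  intro k K F _ _ _ _ _ _ _ _ _ e n r y hr hy
  obtain ⟨⟨pd, hpd⟩, -⟩ := hTb k K e r hr
  obtain ⟨pe, hpe, hpe1, hpe2⟩ := hCor k K F e n r y hr hy pd hpd
  obtain ⟨-, -, htb⟩ := hTfr k K F e n r y hr hy
  have hcr : ∀ i, cor r y (Fin.castAdd n i) = algebraMap K F (r i) := fun i => by
    unfold cor
    rw [Fin.append_left]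
  have hcy : ∀ j, cor r y (Fin.natAdd e j) = y j := fun j => by
    unfold cor
    rw [Fin.append_right]
  have hne : ∀ (i : Fin e) (j : Fin n), Fin.castAdd n i ≠ Fin.natAdd e j := by
    intro i j h
    have h1 := congrArg Fin.val h
    rw [Fin.val_castAdd, Fin.val_natAdd] at h1
    have := i.isLt
    omega
  refine ⟨?_, ?_⟩
  · intro p ν hp hν
    obtain ⟨hirr, hord⟩ := hp
    have hnn : ∀ g : MvPolynomial (Fin n) K, 0 ≤ ν (MvPolynomial.aeval y g) := by
      intro g
      have := (hord g 0).2 (by simp)
      simpa using this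
    have hKn : ∀ c : K, 0 ≤ ν (algebraMap K F c) := by
      intro c
      have := hnn (MvPolynomial.C c)
      rwa [MvPolynomial.aeval_C] at this
    have hyn : ∀ j, 0 ≤ ν (y j) := by
      intro j
      have := hnn (MvPolynomial.X j)
      rwa [MvPolynomial.aeval_X] at this
    have hT : ∀ (i : Fin (e + n)) (g : MvPolynomial (Fin n) K),
        0 ≤ ν (pe i (MvPolynomial.aeval y g)) := by
      intro i g
      have h1 := T.poly (ν := ν) (E := pe i) y 0 (fun c => ?_) (fun j => ?_) g
      · have h2 := h1.2
        rw [Nat.zero_mul] at h2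
        simpa using h2
      · refine ⟨by simpa using hKn c, ?_⟩
        induction i using Fin.addCases with
        | left i =>
          rw [hpe1]
          simpa using hKn _
        | right j =>
          rw [hpe2]
          simp
      · refine ⟨by simpa using hyn j, ?_⟩
        have h2 := hpe.1 i (Fin.natAdd e j)
        rw [hcy] at h2
        rw [h2]
        split_ifs
        · simp
        · simp
    have hE : ∀ (i : Fin (e + n)) (f : F), 0 ≤ ν f → 0 ≤ ν (pe i f) := by
      intro i f hf
      obtain ⟨P, Q, hQ, hPQ⟩ := rep y hy f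
      have hQt : ν (MvPolynomial.aeval y Q) ≠ ⊤ := fun h => hQ ((AddValuation.top_iff ν).1 h)
      obtain ⟨z, hz⟩ := WithTop.ne_top_iff_exists.1 hQt
      have hz0 : 0 ≤ z := by
        have := hnn Q
        rw [← hz] at this
        exact_mod_cast this
      obtain ⟨m, rfl⟩ := Int.eq_ofNat_of_zero_le hz0
      obtain ⟨Q', hQ'⟩ := (hord Q m).1 (le_of_eq hz)
      have hPm : ((m : ℤ) : WithTop ℤ) ≤ ν (MvPolynomial.aeval y P) := by
        rw [← hPQ, AddValuation.map_mul, ← hz]
        exact le_add_of_nonneg_left hf
      obtain ⟨P', hP'⟩ := (hord P m).1 hPm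
      have hQ0 : MvPolynomial.aeval y Q = MvPolynomial.aeval y (p ^ m) *
          MvPolynomial.aeval y Q' := by rw [hQ', map_mul]
      have hP0 : MvPolynomial.aeval y P = MvPolynomial.aeval y (p ^ m) *
          MvPolynomial.aeval y P' := by rw [hP', map_mul]
      have hpm : MvPolynomial.aeval y (p ^ m) ≠ 0 := fun h => hQ (by rw [hQ0, h, zero_mul])
      have hQ'0 : MvPolynomial.aeval y Q' ≠ 0 := fun h => hQ (by rw [hQ0, h, mul_zero])
      have hPQ' : f * MvPolynomial.aeval y Q' = MvPolynomial.aeval y P' := by
        apply mul_left_cancel₀ hpm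
        rw [← hP0, ← hPQ, hQ0]
        ring
      have hνQ' : ν (MvPolynomial.aeval y Q') = 0 := by
        have hQt' : ν (MvPolynomial.aeval y Q') ≠ ⊤ :=
          fun h => hQ'0 ((AddValuation.top_iff ν).1 h)
        obtain ⟨z', hz'⟩ := WithTop.ne_top_iff_exists.1 hQt'
        have h1 : 0 ≤ z' := by
          have := hnn Q'
          rw [← hz'] at this
          exact_mod_cast this
        have h2 : ¬ 1 ≤ z' := by
          intro h3
          have h4 : (((1 : ℕ) : ℤ) : WithTop ℤ) ≤ ν (MvPolynomial.aeval y Q') := by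
            rw [← hz']
            exact_mod_cast h3
          obtain ⟨Q'', hQ''⟩ := (hord Q' 1).1 h4
          have h5 : p ^ (m + 1) ∣ Q := ⟨Q'', by rw [hQ', hQ'']; ring⟩
          have h6 := (hord Q (m + 1)).2 h5
          rw [← hz, WithTop.coe_le_coe] at h6
          push_cast at h6
          omega
        rw [← hz']
        have h3 : z' = 0 := by omega
        rw [h3]
        rfl
      apply frac ν (pe i) f _ _ hQ'0 hPQ'
      · rw [hνQ', add_zero]
        exact hT i P'
      · rw [hνQ', add_zero]
        exact add_nonneg hf (hT i Q')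
    refine hSmo k F (e + n) (cor r y) htb pe hpe ν hν ?_ hE
    intro i
    induction i using Fin.addCases with
    | left i =>
      rw [hcr]
      exact hKn _
    | right j =>
      rw [hcy]
      exact hyn j
  · intro _ ν hν _
    have hK0 : ∀ c : K, c ≠ 0 → ν (algebraMap K F c) = 0 := by
      intro c hc
      have h1 := hν (MvPolynomial.C c) (by simpa using hc)
      rw [MvPolynomial.aeval_C, MvPolynomial.totalDegree_C] at h1
      rw [h1]
      rfl
    have hKn : ∀ c : K, 0 ≤ ν (algebraMap K F c) := by
      intro c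
      by_cases hc : c = 0
      · rw [hc, map_zero, AddValuation.map_zero]
        exact le_top
      · rw [hK0 c hc]
    have hy1 : ∀ j, ν (y j) = ((-1 : ℤ) : WithTop ℤ) := by
      intro j
      have h1 := hν (MvPolynomial.X j) (MvPolynomial.X_ne_zero j)
      rw [MvPolynomial.aeval_X, MvPolynomial.totalDegree_X] at h1
      rw [h1]
      rfl
    have hlog : ∀ E : Derivation k F F, (∀ c : K, 0 ≤ ν (E (algebraMap K F c))) →
        (∀ j, ((-1 : ℤ) : WithTop ℤ) ≤ ν (E (y j))) → LogGe ν E 0 := by
      intro E hE1 hE2 f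
      have hz0 : ((0 : ℤ) : WithTop ℤ) = 0 := rfl
      rw [hz0, add_zero]
      have hpol : ∀ g : MvPolynomial (Fin n) K,
          ν (MvPolynomial.aeval y g) ≤ ν (E (MvPolynomial.aeval y g)) := by
        intro g
        by_cases hg : g = 0
        · have h0 : MvPolynomial.aeval y g = 0 := by rw [hg, map_zero]
          have h00 : E (MvPolynomial.aeval y g) = 0 := by rw [h0, map_zero]
          rw [h00, h0]
        · have h1 := T.poly (ν := ν) (E := E) y 1
            (fun c => ⟨by simpa using hKn c, by simpa using hE1 c⟩)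
            (fun j => ⟨by rw [hy1 j]; simp, by simpa using hE2 j⟩) g
          rw [hν g hg]
          have h2 := h1.2
          rw [Nat.one_mul] at h2
          exact h2
      obtain ⟨P, Q, hQ, hPQ⟩ := rep y hy f
      apply frac ν E f _ _ hQ hPQ
      · rw [← AddValuation.map_mul, hPQ]
        exact hpol P
      · exact add_le_add le_rfl (hpol Q)
    have hsum : ∑ i, ν (cor r y i) = ((-(n : ℤ) : ℤ) : WithTop ℤ) := by
      rw [Fin.sum_univ_add]
      have h1 : ∑ i : Fin e, ν (cor r y (Fin.castAdd n i)) = 0 := by
        apply Finset.sum_eq_zero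
        intro i _
        rw [hcr]
        exact hK0 _ (hr.1.ne_zero i)
      have h2 : ∑ j : Fin n, ν (cor r y (Fin.natAdd e j)) = ((-(n : ℤ) : ℤ) : WithTop ℤ) := by
        have h3 : ∀ j ∈ (Finset.univ : Finset (Fin n)), ν (cor r y (Fin.natAdd e j)) =
            ((-1 : ℤ) : WithTop ℤ) := fun j _ => by rw [hcy, hy1]
        rw [Finset.sum_congr rfl h3, ← WithTop.coe_sum, Finset.sum_const, Finset.card_univ,
          Fintype.card_fin]
        congr 1
        simp
      rw [h1, h2, zero_add]
    refine ⟨⟨Fin.addCases (fun i => pe (Fin.castAdd n i)) (fun j => y j • pe (Fin.natAdd e j)),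
      ?_, ?_⟩, ?_⟩
    · intro i
      induction i using Fin.addCases with
      | left i =>
        simp only [Fin.addCases_left]
        apply hlog
        · intro c
          rw [hpe1]
          exact hKn _
        · intro j
          have h2 := hpe.1 (Fin.castAdd n i) (Fin.natAdd e j)
          rw [hcy, if_neg (hne i j)] at h2
          rw [h2, AddValuation.map_zero]
          exact le_top
      | right j =>
        simp only [Fin.addCases_right]
        apply hlog
        · intro c
          rw [Derivation.smul_apply, hpe2, smul_zero, AddValuation.map_zero]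
          exact le_top
        · intro l
          have h2 := hpe.1 (Fin.natAdd e j) (Fin.natAdd e l)
          rw [hcy] at h2
          rw [Derivation.smul_apply, h2]
          split_ifs
          · rw [smul_eq_mul, mul_one, hy1]
          · rw [smul_zero, AddValuation.map_zero]
            exact le_top
    · have hM : (fun i j => (Fin.addCases (fun i => pe (Fin.castAdd n i))
          (fun j => y j • pe (Fin.natAdd e j)) i : Derivation k F F) (cor r y j)) =
          Matrix.diagonal (Fin.append (fun _ : Fin e => (1 : F)) y) := by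
        funext i j
        induction i using Fin.addCases with
        | left i =>
          rw [Fin.addCases_left, hpe.1, Matrix.diagonal_apply, Fin.append_left]
        | right i =>
          rw [Fin.addCases_right, Derivation.smul_apply, hpe.1, Matrix.diagonal_apply,
            Fin.append_right]
          split_ifs
          · rw [smul_eq_mul, mul_one]
          · rw [smul_zero]
      have hM' : Matrix.det (fun i j => (Fin.addCases (fun i => pe (Fin.castAdd n i))
          (fun j => y j • pe (Fin.natAdd e j)) i : Derivation k F F) (cor r y j)) =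
          Matrix.det (Matrix.diagonal (Fin.append (fun _ : Fin e => (1 : F)) y)) :=
        congrArg Matrix.det hM
      rw [hM', Matrix.det_diagonal, val_prod, Fin.sum_univ_add]
      have h1 : ∑ i : Fin e, ν (Fin.append (fun _ : Fin e => (1 : F)) y (Fin.castAdd n i)) = 0 := by
        apply Finset.sum_eq_zero
        intro i _
        rw [Fin.append_left, AddValuation.map_one]
      have h2 : ∑ j : Fin n, ν (Fin.append (fun _ : Fin e => (1 : F)) y (Fin.natAdd e j)) =
          ((-(n : ℤ) : ℤ) : WithTop ℤ) := by
        have h3 : ∀ j ∈ (Finset.univ : Finset (Fin n)),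
            ν (Fin.append (fun _ : Fin e => (1 : F)) y (Fin.natAdd e j)) =
            ((-1 : ℤ) : WithTop ℤ) := fun j _ => by rw [Fin.append_right, hy1]
        rw [Finset.sum_congr rfl h3, ← WithTop.coe_sum, Finset.sum_const, Finset.card_univ,
          Fintype.card_fin]
        congr 1
        simp
      rw [h1, h2, zero_add]
    · intro δ hδ
      rw [← hsum]
      apply det_le ν _ (fun j => ν (cor r y j))
      intro i j
      have h1 := hδ i (cor r y j)
      have hz0 : ((0 : ℤ) : WithTop ℤ) = 0 := rfl
      rw [hz0, add_zero] at h1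
      exact h1

end Pool.Agent.Work.MP_a2680c_ag.HA
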