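import Pool.Agent.Work.MP_a2680c_ag.HA.StmtsG

/-! Item [a2680c HA Hul] (helper46): the lower hull and norms. -/

set_option autoImplicit false

noncomputable section

namespace Pool.Agent.Work.MP_a2680c_ag.HA

open MP7b66e6 MP7b66e6.Q
open scoped BigOperators

universe u

namespace XHul

variable {K : Type u} [Field K] {n N : ℕ}

/-- the unit `mnr a b` -/
def un (a : Fin N → Fin (n + 1) → K) (b : Fin (n + 1) → Fin N) : Kˣ := by
  classical exact if h : mnr a b ≠ 0 then Units.mk0 _ h else 1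

/-- bracket monomials -/
def mon (a : Fin N → Fin (n + 1) → K) (c : (Fin (n + 1) → Fin N) → ℕ) : Kˣ := ∏ b, un a b ^ c b

theorem val_mon (a : Fin N → Fin (n + 1) → K) (c : (Fin (n + 1) → Fin N) → ℕ) (hc : ∀ b, b ∉ bas a → c b = 0)
    (ν : AddValuation K (WithTop ℤ)) : val ν ((mon a c : Kˣ) : K) = ∑ b, (c b : ℤ) * val ν (mnr a b) := by
  have : ((mon a c : Kˣ) : K) = ∏ b, ((un a b : Kˣ) : K) ^ c b := by
    unfold mon
    push_cast
    rfl
  rw [this, Api.val_prod ν Finset.univ _ (fun b _ => pow_ne_zero _ (un a b).ne_zero)]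
  apply Finset.sum_congr rfl
  intro b _
  rw [Api.val_pow ν (un a b).ne_zero]
  by_cases hb : b ∈ bas a
  · have hb' : mnr a b ≠ 0 := hb
    unfold un
    rw [dif_pos hb']
    rfl
  · rw [hc b hb]; simp

end XHul

theorem pr_Hul (hNrm : StNrm.{u}) : StHul.{u} := by
  classical
  intro K K' _ _ _ _ _ _ n N a d m l w G hP hex
  obtain ⟨h1, h2⟩ := hP (bas a) hex
  let S' : Fin l → Finset K'ˣ := fun i => ((G i).filter fun c => ∀ b, b ∉ bas a → c b = 0).image (XHul.mon a)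
  have hS : ∀ i, (S' i).Nonempty := by
    intro i
    obtain ⟨c, hc, hc0⟩ := h1 i
    exact ⟨_, Finset.mem_image_of_mem _ (Finset.mem_filter.2 ⟨hc, hc0⟩)⟩
  choose T hT hT2 using fun i => hNrm K K' (S' i) (hS i)
  refine ⟨T, hT, ?_⟩
  intro v v' ε hl h0 hopt
  let μ : (K' ≃ₐ[K] K') → Fin l → ℤ := fun g i => (S' i).inf' (hS i) fun s => val v' (g (s : K'))
  have hμ : ∀ g i, IsLeast {t : ℤ | ∃ s ∈ S' i, t = val v' (g (s : K'))} (μ g i) := by
    intro g i
    constructor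
    · obtain ⟨s, hs, hs1⟩ := Finset.exists_mem_eq_inf' (hS i) (fun s : K'ˣ => val v' (g (s : K')))
      exact ⟨s, hs, hs1⟩
    · rintro t ⟨s, hs, rfl⟩
      exact Finset.inf'_le (fun s : K'ˣ => val v' (g (s : K'))) hs
  have hA : ∀ g : K' ≃ₐ[K] K', (m : ℝ) * mv a d (cg g v') = ∑ i, w i * (μ g i : ℝ) := by
    intro g
    refine h2 (fun b => val (cg g v') (mnr a b)) (mv a d (cg g v')) (hopt g) (μ g) ?_
    intro i
    constructor
    · obtain ⟨s, hs, hs1⟩ := (hμ g i).1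
      obtain ⟨c, hc, rfl⟩ := Finset.mem_image.1 hs
      obtain ⟨hc1, hc2⟩ := Finset.mem_filter.1 hc
      refine ⟨c, hc1, hc2, ?_⟩
      rw [hs1, ← Api.val_cg g v', XHul.val_mon a c hc2]
    · rintro t ⟨c, hc, hc0, rfl⟩
      rw [← XHul.val_mon a c hc0, Api.val_cg g v']
      exact (hμ g i).2 ⟨_, Finset.mem_image_of_mem _ (Finset.mem_filter.2 ⟨hc, hc0⟩), rfl⟩
  have hB : ∀ i, (ε : ℝ) * (mnS (T i) v : ℝ) = ∑ g : K' ≃ₐ[K] K', (μ g i : ℝ) := by
    intro i
    have e1 := hT2 i v v' ε hl h0 (fun g => μ g i) (fun g => hμ g i)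
    have e2 : IsLeast {t : ℤ | ∃ s ∈ T i, t = ε * val v (s : K)} ((ε : ℤ) * mnS (T i) v) := by
      obtain ⟨⟨s, hs, hs1⟩, hlow⟩ := Api.mnS_spec (hT i) v
      constructor
      · exact ⟨s, hs, by rw [hs1]⟩
      · rintro t ⟨s, hs, rfl⟩
        exact mul_le_mul_of_nonneg_left (hlow s hs) (by positivity)
    have e3 := e2.unique e1
    have e4 : (((ε : ℤ) * mnS (T i) v : ℤ) : ℝ) = ((∑ g : K' ≃ₐ[K] K', μ g i : ℤ) : ℝ) := by rw [e3]
    push_cast at e4
    exact e4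
  calc (m : ℝ) * ∑ g : K' ≃ₐ[K] K', mv a d (cg g v')
      = ∑ g : K' ≃ₐ[K] K', ∑ i, w i * (μ g i : ℝ) := by
        rw [Finset.mul_sum]
        exact Finset.sum_congr rfl fun g _ => hA g
    _ = ∑ i, ∑ g : K' ≃ₐ[K] K', w i * (μ g i : ℝ) := Finset.sum_comm
    _ = ∑ i, w i * ((ε : ℝ) * (mnS (T i) v : ℝ)) := by
        apply Finset.sum_congr rfl
        intro i _
        rw [hB i, Finset.mul_sum]
    _ = ε * ∑ i, w i * (mnS (T i) v : ℝ) := by
        rw [Finset.mul_sum]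
        apply Finset.sum_congr rfl
        intro i _
        ring

end Pool.Agent.Work.MP_a2680c_ag.HA
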