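import Pool.Agent.Work.MP_a2680c_ag.HA.StmtsG

/-!
# MP_a2680c_ag, block HA, item Ibg: `M [K':K] D_mod` is base-point free
-/

set_option autoImplicit false

noncomputable section

namespace Pool.Agent.Work.MP_a2680c_ag.HA

open MP7b66e6 MP7b66e6.Q
open scoped BigOperators

universe u

namespace XIbg

theorem cen_of_dom {k K : Type u} [Field k] [Field K] [Algebra k K] {P R : Subalgebra k K}
    {ν : AddValuation K (WithTop ℤ)} (h : Dom P R) (hR : Cen R ν) : Cen P ν := by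
  refine ⟨fun f hf => hR.1 f (h f hf).1, fun f hf h0 => ?_⟩
  have h1 : f⁻¹ ∈ R := hR.2 f (h f hf).1 h0
  by_cases hf0 : f = 0
  · rw [hf0, inv_zero]
    exact P.zero_mem
  · exact (h f hf).2 hf0 h1

theorem transfer (hPdd : StPdd.{u}) {k K : Type u} [Field k] [Field K] [Algebra k K]
    {Z : Set (Subalgebra k K)} {M M' : AddValuation K (WithTop ℤ) → ℝ}
    (h : ∀ ν, DivOver Z ν → M' ν = M ν) (hb : Bpf Z M') : Bpf Z M := by
  obtain ⟨Z', h1, h2, h3, h4, h5⟩ := hb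
  have hd : ∀ ν, Divisorial k ν → ∀ P ∈ Z', Cen P ν → M' ν = M ν := by
    intro ν hν P hP hc
    obtain ⟨Q, hQ, hQP⟩ := h2 P hP
    exact h ν ⟨hν, Q, hQ, cen_of_dom hQP hc⟩
  have hp : ∀ ν, PD Z' ν → M' ν = M ν := by
    intro ν hν
    obtain ⟨h6, R, hR, hc, -⟩ := hPdd k K Z' h1 ν hν
    exact hd ν h6 R hR hc
  refine ⟨Z', h1, h2, h3, fun P hP => ?_, fun P hP s hs ν hν hc => ?_⟩
  · obtain ⟨s, hs1, hs2⟩ := h4 P hP
    refine ⟨s, fun ν hν => ?_, fun ν hν => ?_⟩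
    · rw [← hp ν hν.1]
      exact hs1 ν hν
    · rw [← hp ν hν]
      exact hs2 ν hν
  · rw [← hd ν hν P hP hc]
    refine h5 P hP s (fun ν' hν' => ?_) ν hν hc
    rw [hp ν' hν'.1]
    exact hs ν' hν'

end XIbg

open Classical in
theorem pr_Ibg (h1 : StBp3.{u}) (h2 : StImn.{u}) (h3 : StPdd.{u}) (_h4 : StLoc.{u})
    (h5 : StNrm.{u}) : StIbg.{u} := by
  intro κ k K K' _ _ _ _ _ _ _ _ _ _ e n N M r Z a d Dm hr hZ hM hu hsum hO
  haveI : CharZero K := charZero_of_injective_algebraMap (algebraMap k K).injective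
  set S₀ : Finset (Fin M → Fin (n + 1) → Fin N) :=
    Finset.univ.filter fun B => B ∈ Tup a d M with hS₀
  have hmem : ∀ B, B ∈ S₀ ↔ B ∈ Tup a d M := fun B => by
    rw [hS₀, Finset.mem_filter]
    exact ⟨fun h => h.2, fun h => ⟨Finset.mem_univ _, h⟩⟩
  let f : (Fin M → Fin (n + 1) → Fin N) → K'ˣ := fun B =>
    if h : ∏ t, mnr a (B t) ≠ 0 then Units.mk0 _ h else 1
  have hf : ∀ B ∈ S₀, ((f B : K'ˣ) : K') = ∏ t, mnr a (B t) := by
    intro B hB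
    have h0 : ∏ t, mnr a (B t) ≠ 0 :=
      Finset.prod_ne_zero_iff.2 fun t _ => ((hmem B).1 hB).1 t
    show ((if h : ∏ t, mnr a (B t) ≠ 0 then Units.mk0 _ h else 1 : K'ˣ) : K') = _
    rw [dif_pos h0]
    rfl
  have hval : ∀ B ∈ S₀, ∀ ν : AddValuation K' (WithTop ℤ),
      val ν ((f B : K'ˣ) : K') = ∑ t, val ν (mnr a (B t)) := by
    intro B hB ν
    rw [hf B hB, Api.val_prod ν Finset.univ (fun t => mnr a (B t))
      (fun t _ => ((hmem B).1 hB).1 t)]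
  let S' : Finset K'ˣ := if S₀.Nonempty then S₀.image f else {1}
  have hS' : S'.Nonempty := by
    show (if S₀.Nonempty then S₀.image f else {1} : Finset K'ˣ).Nonempty
    by_cases h : S₀.Nonempty
    · rw [if_pos h]
      exact h.image f
    · rw [if_neg h]
      exact Finset.singleton_nonempty 1
  obtain ⟨T, hT, hTs⟩ := h5 K K' S' hS'
  let M' : AddValuation K (WithTop ℤ) → ℝ := fun ν => -(mnS T ν : ℝ)
  have hM' : ∀ ν : AddValuation K (WithTop ℤ), (∃ s ∈ T, M' ν + (val ν (s : K) : ℝ) = 0) ∧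
      ∀ s ∈ T, 0 ≤ M' ν + (val ν (s : K) : ℝ) := by
    intro ν
    obtain ⟨⟨s, hs, hs2⟩, hs3⟩ := Api.mnS_spec hT ν
    constructor
    · refine ⟨s, hs, ?_⟩
      show -(mnS T ν : ℝ) + _ = 0
      rw [hs2]
      ring
    · intro s hs
      have h6 : (mnS T ν : ℝ) ≤ (val ν (s : K) : ℝ) := by exact_mod_cast hs3 s hs
      show 0 ≤ -(mnS T ν : ℝ) + _
      linarith
  have hb : Bpf Z M' := h1 k K Z hZ e r hr T hT M' hM'
  refine XIbg.transfer h3 (fun ν hν => ?_) hb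
  obtain ⟨v', ε, hv', hl, hg, hd⟩ := hO ν hν
  have key : ∀ g : K' ≃ₐ[K] K', ∃ μ : ℤ, (μ : ℝ) = M * mv a d (cg g v') ∧
      IsLeast {t : ℤ | ∃ s ∈ S', t = val v' (g (s : K'))} μ := by
    intro g
    obtain ⟨hπ, Tg, hTg⟩ := hg g
    obtain ⟨⟨B₀, hB₀, hB₀'⟩, hlow⟩ := h2 κ K' (cg g v') hπ n N M a d Tg hM hu hsum hTg
    have hne : S₀.Nonempty := ⟨B₀, (hmem B₀).2 hB₀⟩
    have hSe : S' = S₀.image f := if_pos hne
    refine ⟨∑ t, val (cg g v') (mnr a (B₀ t)), ?_, ?_, ?_⟩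
    · rw [hB₀']
      push_cast
      rfl
    · refine ⟨f B₀, ?_, ?_⟩
      · rw [hSe]
        exact Finset.mem_image_of_mem f ((hmem B₀).2 hB₀)
      · rw [← Api.val_cg, hval B₀ ((hmem B₀).2 hB₀)]
    · rintro t ⟨s, hs, rfl⟩
      rw [hSe, Finset.mem_image] at hs
      obtain ⟨B, hB, rfl⟩ := hs
      rw [← Api.val_cg, hval B hB]
      have h6 := hlow ⟨B, (hmem B).1 hB, rfl⟩
      rw [hB₀'] at h6
      exact_mod_cast h6
  choose μ hμ1 hμ2 using key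
  have hnat : ∀ m : ℕ, m ≠ 0 → v' (m : K') = 0 := fun m hm => by
    obtain ⟨-, C, -, hC, -⟩ := hv'
    exact Api.val_natCast (k := k) (fun c => hC _ (C.algebraMap_mem c)) m hm
  obtain ⟨⟨s, hs, hs2⟩, hs3⟩ := hTs ν v' ε hl hnat μ hμ2
  obtain ⟨⟨s₁, hs₁, hs₁2⟩, hs₁3⟩ := Api.mnS_spec hT ν
  have hε : (0 : ℤ) < ε := by exact_mod_cast hl.1
  have e1 : (∑ g, μ g : ℤ) = ε * mnS T ν := by
    apply le_antisymm
    · have h6 := hs3 ⟨s₁, hs₁, rfl⟩
      rw [hs₁2]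
      exact h6
    · rw [hs2]
      exact mul_le_mul_of_nonneg_left (hs₁3 s hs) hε.le
  have e2 : ((ε : ℤ) : ℝ) * (mnS T ν : ℝ) = M * ∑ g : K' ≃ₐ[K] K', mv a d (cg g v') := by
    rw [Finset.mul_sum]
    have h6 : ((∑ g, μ g : ℤ) : ℝ) = (ε * mnS T ν : ℤ) := by rw [e1]
    push_cast at h6
    rw [Int.cast_natCast]
    rw [← h6]
    exact Finset.sum_congr rfl fun g _ => hμ1 g
  rw [← hd] at e2
  show -(mnS T ν : ℝ) = ((M * Module.finrank K K' : ℕ) : ℝ) * Dm ν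
  have hε' : (ε : ℝ) ≠ 0 := by exact_mod_cast hε.ne'
  push_cast at e2 ⊢
  have e3 : (ε : ℝ) * (-(mnS T ν : ℝ)) = (ε : ℝ) * (M * (Module.finrank K K' : ℝ) * Dm ν) := by
    linear_combination - e2
  exact mul_left_cancel₀ hε' e3

end Pool.Agent.Work.MP_a2680c_ag.HA
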