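import Pool.Agent.Work.MP_a2680c_ag.HA.StmtsE

/-!
# MP_a2680c_ag, block HA, item Imn: the least value over the tuples of bases
-/

set_option autoImplicit false

noncomputable section

namespace Pool.Agent.Work.MP_a2680c_ag.HA

open MP7b66e6 MP7b66e6.Q
open scoped BigOperators

universe u

namespace XImn

/-- the decomposition given by a tuple -/
def lt {n N M : ℕ} (B : Fin M → Fin (n + 1) → Fin N) (b : Fin (n + 1) → Fin N) : ℝ :=
  (∑ t, if B t = b then (1 : ℝ) else 0) / M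

theorem lt_sum {n N M : ℕ} (B : Fin M → Fin (n + 1) → Fin N) (g : (Fin (n + 1) → Fin N) → ℝ) :
    ∑ b, lt B b * g b = (∑ t, g (B t)) / M := by
  unfold lt
  have h1 : ∀ b, (∑ t, if B t = b then (1 : ℝ) else 0) / M * g b =
      (∑ t, if B t = b then g b else 0) / M := by
    intro b
    rw [div_mul_eq_mul_div, Finset.sum_mul]
    congr 1
    refine Finset.sum_congr rfl fun t _ => ?_
    by_cases h : B t = b
    · rw [if_pos h, if_pos h, one_mul]
    · rw [if_neg h, if_neg h, zero_mul]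
  rw [Finset.sum_congr rfl fun b _ => h1 b, ← Finset.sum_div, Finset.sum_comm]
  congr 1
  refine Finset.sum_congr rfl fun t _ => ?_
  rw [Finset.sum_ite_eq Finset.univ (B t) g, if_pos (Finset.mem_univ _)]

theorem cnt {n N M : ℕ} (B : Fin M → Fin (n + 1) → Fin N) (Y : Fin N → ℝ) :
    ∑ i, (∑ t, ∑ j, if B t j = i then (1 : ℝ) else 0) * Y i = ∑ t, ∑ j, Y (B t j) := by
  have h1 : ∀ i, (∑ t, ∑ j, if B t j = i then (1 : ℝ) else 0) * Y i =
      ∑ t, ∑ j, if B t j = i then Y i else 0 := by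
    intro i
    rw [Finset.sum_mul]
    refine Finset.sum_congr rfl fun t _ => ?_
    rw [Finset.sum_mul]
    refine Finset.sum_congr rfl fun j _ => ?_
    by_cases h : B t j = i
    · rw [if_pos h, if_pos h, one_mul]
    · rw [if_neg h, if_neg h, zero_mul]
  rw [Finset.sum_congr rfl fun i _ => h1 i, Finset.sum_comm]
  refine Finset.sum_congr rfl fun t _ => ?_
  rw [Finset.sum_comm]
  refine Finset.sum_congr rfl fun j _ => ?_
  rw [Finset.sum_ite_eq Finset.univ (B t j) Y, if_pos (Finset.mem_univ _)]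

theorem castcnt {n N M : ℕ} (B : Fin M → Fin (n + 1) → Fin N) (i : Fin N) :
    (((∑ t, ∑ j, if B t j = i then 1 else 0 : ℕ) : ℕ) : ℝ) =
      ∑ t, ∑ j, if B t j = i then (1 : ℝ) else 0 := by
  push_cast
  rfl

theorem feas {K : Type u} [Field K] {n N M : ℕ} {a : Fin N → Fin (n + 1) → K} {d : Fin N → ℝ}
    (hM : 0 < M) {B : Fin M → Fin (n + 1) → Fin N} (hB : B ∈ Tup a d M) :
    Feas (bas a) d (lt B) := by
  have hM' : (M : ℝ) ≠ 0 := by exact_mod_cast hM.ne'
  refine ⟨fun b => ?_, fun b hb => ?_, fun i => ?_⟩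
  · refine div_nonneg (Finset.sum_nonneg fun t _ => ?_) (Nat.cast_nonneg M)
    by_cases h : B t = b
    · rw [if_pos h]
      exact zero_le_one
    · rw [if_neg h]
  · unfold lt
    rw [Finset.sum_eq_zero, zero_div]
    intro t _
    rw [if_neg]
    intro h
    exact hb (h ▸ hB.1 t)
  · rw [lt_sum B (fun b => ∑ j, if b j = i then (1 : ℝ) else 0), ← castcnt, hB.2 i]
    field_simp

end XImn

theorem pr_Imn (h1 : StItg.{u}) : StImn.{u} := by
  intro κ K _ v hv n N M a d T hM hu hsum hO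
  obtain ⟨l, hF, -, hmv, hleast, -, q, Y, hq, hY, hqY⟩ := hO
  choose u hu using hu
  have hM' : (M : ℝ) ≠ 0 := by exact_mod_cast hM.ne'
  have hq' : (q : ℝ) ≠ 0 := by exact_mod_cast hq.ne'
  have hF' : Feas (bas a) (fun i => (u i : ℝ)) (fun b => (M : ℝ) * l b) := by
    refine ⟨fun b => mul_nonneg (Nat.cast_nonneg M) (hF.nonneg b), fun b hb => ?_, fun i => ?_⟩
    · show (M : ℝ) * l b = 0
      rw [hF.supp b hb, mul_zero]
    · rw [← hu i, ← hF.sum i, Finset.mul_sum]
      refine Finset.sum_congr rfl fun b _ => ?_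
      ring
  have hus : ∑ i, u i = M * (n + 1) := by
    have h2 : ((∑ i, u i : ℕ) : ℝ) = ((M * (n + 1) : ℕ) : ℝ) := by
      push_cast
      rw [← Finset.sum_congr rfl fun i _ => hu i, ← Finset.mul_sum, hsum]
    exact_mod_cast h2
  have heq : (q : ℝ) * ∑ b, (M : ℝ) * l b * (val v (mnr a b) : ℝ) =
      ∑ i, (u i : ℝ) * (Y i : ℝ) := by
    have h2 : ∑ b, (M : ℝ) * l b * (val v (mnr a b) : ℝ) = M * mv a d v := by
      rw [hmv, Finset.mul_sum]
      exact Finset.sum_congr rfl fun b _ => by ring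
    have h3 : ∑ i, (u i : ℝ) * (Y i : ℝ) = M * ∑ i, d i * (Y i : ℝ) := by
      rw [Finset.mul_sum]
      refine Finset.sum_congr rfl fun i _ => ?_
      rw [← hu i]
      ring
    rw [h2, h3, ← hqY]
    ring
  obtain ⟨B, hB1, hB2, hB3⟩ := h1 K v hv n N M a u (fun b => (M : ℝ) * l b) hF' hus q Y hq hY heq
  have hBT : B ∈ Tup a d M := by
    refine ⟨hB1, fun i => ?_⟩
    rw [hu i, hB2 i]
  constructor
  · refine ⟨B, hBT, ?_⟩
    have h2 : (q : ℝ) * ∑ t, (val v (mnr a (B t)) : ℝ) = ∑ t, ∑ j, (Y (B t j) : ℝ) := by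
      rw [Finset.mul_sum]
      refine Finset.sum_congr rfl fun t _ => ?_
      have h3 := hB3 t
      have h4 : ((∑ j, Y (B t j) : ℤ) : ℝ) = ((q * val v (mnr a (B t)) : ℤ) : ℝ) := by rw [h3]
      push_cast at h4
      exact h4.symm
    rw [← XImn.cnt B (fun i => (Y i : ℝ))] at h2
    have h3 : ∑ i, (∑ t, ∑ j, if B t j = i then (1 : ℝ) else 0) * (Y i : ℝ) =
        ∑ i, (u i : ℝ) * (Y i : ℝ) := by
      refine Finset.sum_congr rfl fun i _ => ?_
      rw [← XImn.castcnt, hBT.2 i, hu i]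
    have h4 : ∑ i, (u i : ℝ) * (Y i : ℝ) = M * ∑ i, d i * (Y i : ℝ) := by
      rw [Finset.mul_sum]
      refine Finset.sum_congr rfl fun i _ => ?_
      rw [← hu i]
      ring
    rw [h3, h4, ← hqY] at h2
    have h5 : (q : ℝ) * ∑ t, (val v (mnr a (B t)) : ℝ) = q * (M * mv a d v) := by
      rw [h2]
      ring
    exact (mul_left_cancel₀ hq' h5).symm
  · rintro s ⟨B', hB', rfl⟩
    have h2 : ∑ b, XImn.lt B' b * (val v (mnr a b) : ℝ) ∈
        vals (bas a) d fun b => val v (mnr a b) := ⟨XImn.lt B', XImn.feas hM hB', rfl⟩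
    have h3 := hleast.2 h2
    rw [XImn.lt_sum B' (fun b => (val v (mnr a b) : ℝ))] at h3
    have hMp : (0 : ℝ) < M := by exact_mod_cast hM
    rw [le_div_iff₀ hMp] at h3
    linarith

end Pool.Agent.Work.MP_a2680c_ag.HA
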