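import Pool.Agent.Work.MP_a2680c_ag.HA.StmtsB

/-!
# MP_a2680c_ag, block HA, item Ine: the inequality for log discrepancies (helper43)
-/

set_option autoImplicit false

noncomputable section

namespace Pool.Agent.Work.MP_a2680c_ag.HA

open MP7b66e6 MP7b66e6.Q
open scoped BigOperators

universe u

namespace XIne

section
variable {K : Type u} [Field K] (ν : AddValuation K (WithTop ℤ))

theorem coe_val {f : K} (hf : f ≠ 0) : ν f = (val ν f : WithTop ℤ) := by
  have h : ν f ≠ ⊤ := by
    intro h; exact hf ((AddValuation.top_iff ν).1 h)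
  obtain ⟨m, hm⟩ := WithTop.ne_top_iff_exists.1 h
  rw [val, ← hm]; rfl

theorem val_of {f : K} {m : ℤ} (h : ν f = (m : WithTop ℤ)) : val ν f = m := by
  rw [val, h]; rfl

theorem val_mul {f g : K} (hf : f ≠ 0) (hg : g ≠ 0) : val ν (f * g) = val ν f + val ν g := by
  apply val_of
  rw [AddValuation.map_mul, coe_val ν hf, coe_val ν hg]; rfl

theorem val_one : val ν (1 : K) = 0 := val_of ν (by rw [AddValuation.map_one]; rfl)

theorem val_neg_one : val ν (-1 : K) = 0 :=
  val_of ν (by rw [AddValuation.map_neg, AddValuation.map_one]; rfl)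

theorem val_prod {ι : Type*} (s : Finset ι) (f : ι → K) (h : ∀ i ∈ s, f i ≠ 0) :
    val ν (∏ i ∈ s, f i) = ∑ i ∈ s, val ν (f i) := by
  classical
  induction s using Finset.induction_on with
  | empty => simp [val_one]
  | insert i s hi ih =>
    rw [Finset.prod_insert hi, Finset.sum_insert hi,
      val_mul ν (h i (Finset.mem_insert_self i s))
        (Finset.prod_ne_zero_iff.2 fun j hj => h j (Finset.mem_insert_of_mem hj)),
      ih fun j hj => h j (Finset.mem_insert_of_mem hj)]

theorem val_nonneg {f : K} (hf : f ≠ 0) : 0 ≤ val ν f ↔ 0 ≤ ν f := by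
  rw [coe_val ν hf, ← WithTop.coe_zero, WithTop.coe_le_coe]

theorem prod_nonneg {ι : Type*} (s : Finset ι) (f : ι → K) (h : ∀ i ∈ s, (0 : WithTop ℤ) ≤ ν (f i)) :
    (0 : WithTop ℤ) ≤ ν (∏ i ∈ s, f i) := by
  classical
  induction s using Finset.induction_on with
  | empty => rw [Finset.prod_empty, AddValuation.map_one]
  | insert a s ha ih =>
    rw [Finset.prod_insert ha, AddValuation.map_mul]
    exact add_nonneg (h a (Finset.mem_insert_self a s))
      (ih fun i hi => h i (Finset.mem_insert_of_mem hi))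

theorem det_nonneg {d : ℕ} (M : Matrix (Fin d) (Fin d) K) (h : ∀ i j, (0 : WithTop ℤ) ≤ ν (M i j)) :
    (0 : WithTop ℤ) ≤ ν M.det := by
  rw [Matrix.det_apply]
  refine AddValuation.map_le_sum ν fun σ _ => ?_
  have h1 := prod_nonneg ν Finset.univ (fun i => M (σ i) i) (fun i _ => h _ _)
  rcases Int.units_eq_one_or (Equiv.Perm.sign σ) with h2 | h2
  · rw [h2, one_smul]
    exact h1
  · rw [h2, Units.neg_smul, one_smul, AddValuation.map_neg]
    exact h1

/-- a quotient by a nonzero element has value at least `0` as soon as the numerator has at least the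
value of the denominator -/
theorem div_ge {a f : K} (hf : f ≠ 0) (h : ν f ≤ ν a) : (0 : WithTop ℤ) ≤ ν (a / f) := by
  have h1 : ν (a / f) + ν f = ν a := by
    rw [← AddValuation.map_mul, div_mul_cancel₀ a hf]
  have h2 : ν f ≠ ⊤ := fun h => hf ((AddValuation.top_iff ν).1 h)
  obtain ⟨j, hj⟩ := WithTop.ne_top_iff_exists.1 h2
  rcases eq_or_ne (ν (a / f)) ⊤ with h3 | h3
  · rw [h3]; exact le_top
  · obtain ⟨i, hi⟩ := WithTop.ne_top_iff_exists.1 h3
    rw [← h1, ← hi, ← hj, ← WithTop.coe_add] at h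
    have h4 : j ≤ i + j := WithTop.coe_le_coe.1 h
    rw [← hi]
    exact WithTop.coe_le_coe.2 (by omega)

end

section
variable {k K : Type u} [Field k] [Field K] [Algebra k K]

theorem logder_nonneg {ν : AddValuation K (WithTop ℤ)} {D : Derivation k K K} (h : LogGe ν D 0)
    {f : K} (hf : f ≠ 0) : (0 : WithTop ℤ) ≤ ν (D f / f) := by
  refine div_ge ν hf ?_
  have h1 := h f
  have h0 : ((0 : ℤ) : WithTop ℤ) = 0 := rfl
  rw [h0, add_zero] at h1
  exact h1

theorem sum_app {d : ℕ} (c : Fin d → K) (δ : Fin d → Derivation k K K) (f : K) :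
    (∑ i, c i • δ i) f = ∑ i, c i * δ i f := by
  have h := map_sum (Derivation.coeFnAddMonoidHom (R := k) (A := K) (M := K))
    (fun i => c i • δ i) Finset.univ
  have h2 := congrFun h f
  refine (Eq.trans ?_ h2).trans ?_
  · rfl
  · rw [Finset.sum_apply]
    rfl

theorem expand {d : ℕ} {x : Fin d → K} {pd : Fin d → Derivation k K K} (hpd : Dual x pd)
    (E : Derivation k K K) (g : K) : E g = ∑ l, E (x l) * pd l g := by
  have h : E - ∑ l, E (x l) • pd l = 0 := by
    refine hpd.2 _ fun j => ?_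
    rw [Derivation.sub_apply, sum_app]
    simp [hpd.1]
  have h2 : E = ∑ l, E (x l) • pd l := sub_eq_zero.1 h
  have h3 : E g = (∑ l, E (x l) • pd l) g := by rw [← h2]
  rw [h3, sum_app]

/-- the matrix identity of the expansion -/
theorem det_log {d : ℕ} {x : Fin d → K} {pd : Fin d → Derivation k K K} (hpd : Dual x pd)
    (δ : Fin d → Derivation k K K) (f : Fin d → K) :
    Matrix.det (fun i j => δ i (f j) / f j) =
      Matrix.det (fun i j => δ i (x j)) * Matrix.det (fun m j => pd m (f j) / f j) := by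
  have hm := Matrix.det_mul (Matrix.of (fun i l => δ i (x l)))
    (Matrix.of (fun m j => pd m (f j) / f j))
  refine Eq.trans ?_ hm
  refine congrArg Matrix.det ?_
  ext i j
  rw [Matrix.mul_apply]
  show δ i (f j) / f j = ∑ l, δ i (x l) * (pd l (f j) / f j)
  rw [expand hpd (δ i) (f j), Finset.sum_div]
  refine Finset.sum_congr rfl fun l _ => ?_
  rw [mul_div_assoc]

/-- the dual basis of logarithmic type has a determinant inverse to the other one -/
theorem det_inv {d : ℕ} {x : Fin d → K} {pd : Fin d → Derivation k K K} (hpd : Dual x pd)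
    (Θ : Fin d → Derivation k K K) (f : Fin d → K) (hf : ∀ j, f j ≠ 0)
    (hΘ : ∀ i j, Θ i (f j) = if i = j then f j else 0) :
    Matrix.det (fun i j => Θ i (x j)) * Matrix.det (fun m j => pd m (f j) / f j) = 1 := by
  rw [← det_log hpd Θ f]
  have h : (fun i j => Θ i (f j) / f j) = (1 : Matrix (Fin d) (Fin d) K) := by
    ext i j
    rw [Matrix.one_apply, hΘ i j]
    by_cases hij : i = j
    · rw [if_pos hij, if_pos hij, div_self (hf j)]
    · rw [if_neg hij, if_neg hij, zero_div]
  rw [h, Matrix.det_one]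

end

section
variable {F : Type u} [Field F]

/-- the block matrix which changes the first `e` columns -/
def blk {e : ℕ} (n : ℕ) (P : Matrix (Fin e) (Fin e) F) : Matrix (Fin (e + n)) (Fin (e + n)) F :=
  (Matrix.fromBlocks P 0 0 (1 : Matrix (Fin n) (Fin n) F)).submatrix finSumFinEquiv.symm
    finSumFinEquiv.symm

theorem det_blk {e n : ℕ} (P : Matrix (Fin e) (Fin e) F) : (blk n P).det = P.det := by
  unfold blk
  rw [Matrix.det_submatrix_equiv_self, Matrix.det_fromBlocks_zero₂₁, Matrix.det_one, mul_one]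

theorem mul_blk {e n : ℕ} (P : Matrix (Fin e) (Fin e) F) (A : Fin (e + n) → Fin e → F)
    (B : Fin (e + n) → Fin n → F) :
    (Matrix.of fun i => Fin.append (A i) (B i)) * blk n P =
      Matrix.of fun i => Fin.append (fun l => ∑ m, A i m * P m l) (B i) := by
  ext i j
  rw [Matrix.mul_apply, Fin.sum_univ_add]
  refine Fin.addCases (fun l => ?_) (fun l => ?_) j
  · simp [blk, Fin.append_left, Fin.append_right]
  · simp [blk, Fin.append_left, Fin.append_right, Matrix.one_apply]

end

end XIne

open XIne in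
/-- Item Ine. -/
theorem pr_Ine (hTb : StTb.{u}) (hCor : StCor.{u}) (hLbs : StLbs.{u}) (hJac : StJac.{u}) :
    StIne.{u} := by
  intro k K F _ _ _ _ _ _ _ _ _ e n N r y a hr hy ha v W m hL A A' hA hA' b hb
  obtain ⟨⟨pd, hpd⟩, -⟩ := hTb k K e r hr
  obtain ⟨pe, hpe, hpe1, hpe2⟩ := hCor k K F e n r y hr hy pd hpd
  obtain ⟨f, Θ, hf0, hΘf, -, hΘdet⟩ := hLbs k K e r pd hpd v A hA
  obtain ⟨⟨δ, hδlog, hδdet⟩, -⟩ := hA'
  obtain ⟨hl0, hJ⟩ := hJac k K F e n N r y a hr hy ha
  obtain ⟨ε, hε, hE⟩ := hJ b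
  have hE := hE δ
  have hinj : Function.Injective (algebraMap K F) := (algebraMap K F).injective
  have hamap : ∀ g : K, g ≠ 0 → algebraMap K F g ≠ 0 := fun g hg h =>
    hg (hinj (by rw [h, map_zero]))
  have hmnr : mnr a b ≠ 0 := hb
  -- the chain rule on `K`
  have hchain : ∀ (E : Derivation k F F) (g : K),
      E (algebraMap K F g) = ∑ i, E (algebraMap K F (r i)) * algebraMap K F (pd i g) := by
    intro E g
    rw [expand hpe E (algebraMap K F g), Fin.sum_univ_add]
    have h1 : ∀ i : Fin e, E (cor r y (Fin.castAdd n i)) * pe (Fin.castAdd n i) (algebraMap K F g) =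
        E (algebraMap K F (r i)) * algebraMap K F (pd i g) := by
      intro i
      rw [hpe1]
      unfold cor
      rw [Fin.append_left]
    have h2 : ∀ j : Fin n, E (cor r y (Fin.natAdd e j)) * pe (Fin.natAdd e j) (algebraMap K F g) =
        0 := by
      intro j
      rw [hpe2, mul_zero]
    rw [Finset.sum_congr rfl fun i _ => h1 i, Finset.sum_congr rfl fun j _ => h2 j,
      Finset.sum_const_zero, add_zero]
  -- the matrices
  let Pm : Matrix (Fin e) (Fin e) K := fun i j => pd i (f j) / f j
  let Tm : Matrix (Fin e) (Fin e) K := fun i j => Θ i (r j)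
  let Q : Matrix (Fin e) (Fin e) F := Pm.map (algebraMap K F)
  let A0 : Fin (e + n) → Fin e → F := fun i j => δ i (algebraMap K F (r j))
  let B0 : Fin (e + n) → Fin n → F := fun i j => δ i (zz y a b j) / zz y a b j
  let M : Matrix (Fin (e + n)) (Fin (e + n)) F := Matrix.of fun i => Fin.append (A0 i) (B0 i)
  have hTP : Tm.det * Pm.det = 1 := det_inv hpd Θ f hf0 hΘf
  have hQdet : Q.det = algebraMap K F Pm.det := by
    rw [RingHom.map_det]
    rfl
  have hM1 : M * blk n Q = Matrix.of fun i => Fin.append (fun l => ∑ i', A0 i i' * Q i' l) (B0 i) :=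
    mul_blk Q A0 B0
  have hD1 : (0 : WithTop ℤ) ≤ W (M * blk n Q).det := by
    refine det_nonneg W _ fun i j => ?_
    rw [hM1]
    show (0 : WithTop ℤ) ≤ W (Fin.append (fun l => ∑ i', A0 i i' * Q i' l) (B0 i) j)
    refine Fin.addCases (fun l => ?_) (fun l => ?_) j
    · rw [Fin.append_left]
      have h1 : ∑ i', A0 i i' * Q i' l = δ i (algebraMap K F (f l)) / algebraMap K F (f l) := by
        rw [hchain (δ i) (f l), Finset.sum_div]
        refine Finset.sum_congr rfl fun i' _ => ?_
        show δ i (algebraMap K F (r i')) * algebraMap K F (pd i' (f l) / f l) = _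
        rw [map_div₀, mul_div_assoc]
      rw [h1]
      exact logder_nonneg (hδlog i) (hamap _ (hf0 l))
    · rw [Fin.append_right]
      refine logder_nonneg (hδlog i) ?_
      exact div_ne_zero (hl0 _) (hl0 _)
  rw [Matrix.det_mul, det_blk, hQdet] at hD1
  -- the factors are not zero
  have hP0 : Pm.det ≠ 0 := fun h => by
    rw [h, mul_zero] at hTP
    exact zero_ne_one hTP
  have hT0 : Tm.det ≠ 0 := fun h => by
    rw [h, zero_mul] at hTP
    exact zero_ne_one hTP
  have hΔ0 : Matrix.det (fun i j => δ i (cor r y j)) ≠ 0 := fun h => by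
    rw [h, AddValuation.map_zero] at hδdet
    exact absurd hδdet (by simp)
  have hε0 : ε ≠ 0 := by
    rcases hε with h | h
    · rw [h]; exact one_ne_zero
    · rw [h]; exact neg_ne_zero.mpr one_ne_zero
  have hεv : val W ε = 0 := by
    rcases hε with h | h
    · rw [h]; exact val_one W
    · rw [h]; exact val_neg_one W
  have hprod0 : (∏ j, lin y (a (b j))) ≠ 0 := Finset.prod_ne_zero_iff.2 fun j _ => hl0 _
  have hrhs0 : ε * algebraMap K F (mnr a b) * Matrix.det (fun i j => δ i (cor r y j)) ≠ 0 :=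
    mul_ne_zero (mul_ne_zero hε0 (hamap _ hmnr)) hΔ0
  have hE' : (∏ j, lin y (a (b j))) * M.det =
      ε * algebraMap K F (mnr a b) * Matrix.det (fun i j => δ i (cor r y j)) := hE
  have hM0 : M.det ≠ 0 := by
    intro h
    rw [h, mul_zero] at hE'
    exact hrhs0 hE'.symm
  -- values
  have e1 : val W (∏ j, lin y (a (b j))) + val W M.det =
      m * val v (mnr a b) + A' := by
    rw [← val_mul W hprod0 hM0, hE', val_mul W (mul_ne_zero hε0 (hamap _ hmnr)) hΔ0,
      val_mul W hε0 (hamap _ hmnr), hεv, hL.2 _ hmnr, val_of W hδdet, zero_add]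
  have e2 : val W (∏ j, lin y (a (b j))) = ∑ j, val W (lin y (a (b j))) :=
    val_prod W _ _ fun j _ => hl0 _
  have e3 : 0 ≤ val W M.det + val W (algebraMap K F Pm.det) := by
    rw [← val_mul W hM0 (hamap _ hP0), val_nonneg W (mul_ne_zero hM0 (hamap _ hP0))]
    exact hD1
  have e4 : val W (algebraMap K F Pm.det) = m * val v Pm.det := hL.2 _ hP0
  have e5 : val v Tm.det + val v Pm.det = 0 := by
    rw [← val_mul v hT0 hP0, hTP, val_one]
  have e6 : val v Tm.det = A := val_of v hΘdet
  have e7 : val v Pm.det = - A := by omega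
  rw [e4, e7] at e3
  rw [e2] at e1
  have e8 : (m : ℤ) * -A = -((m : ℤ) * A) := by ring
  rw [e8] at e3
  linarith

end Pool.Agent.Work.MP_a2680c_ag.HA
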