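import Pool.Agent.Work.MP_a2680c_ag.HA.I_Crz

/-! [a2680c HA Inz] (helper9): the class of height `s`. -/

set_option autoImplicit false

noncomputable section

namespace Pool.Agent.Work.MP_a2680c_ag.HA

open MP7b66e6 MP7b66e6.Q
open scoped BigOperators

universe u

/-- **Inz** (helper9; the class of height `s`). -/
def StInz : Prop := ∀ n δ : ℕ, 1 ≤ n → 1 ≤ δ → ∀ (s : ℕ) (I : Set ℝ), I ⊆ Set.Ioc 0 1 → DCC I →
  ∃ G : Set ℝ, G.Finite ∧ (∀ g ∈ G, 0 < g) ∧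
    ∀ (κ : Prop) (k K F : Type u) [Field k] [CharZero k] [IsAlgClosed k] [Field K] [Field F]
      [Algebra k K] [Algebra k F] [Algebra K F] [IsScalarTower k K F] (e d : ℕ) (r : Fin e → K) (c : Fin d → F)
      (Z : Set (Subalgebra k K)) (𝔻 : AddValuation F (WithTop ℤ) → ℝ) (L : AddValuation K (WithTop ℤ) → ℝ) (Φ : Fˣ →₀ ℝ),
      Cardinal.aleph0 ≤ Algebra.trdeg ℚ k → BFib κ r c Z 𝔻 L Φ → Twc n δ I s K F Z 𝔻 →
      ∃ Ξ : Kˣ →₀ ℝ, Rsl κ G r Z 𝔻 L Ξ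

theorem pr_Inz (hMvb : StMvb.{u}) (hcon : StCrz.{u}) (hDim : StDim.{u}) (hGrm : StGrm.{u}) (hPdd : StPdd.{u})
    (hCnt : StCnt.{u}) (hBxy : StBxy.{u}) (hByz : StByz.{u}) (hBck : StBck.{u}) (hBcr : StBcr.{u}) (hRsv : StRsv.{u})
    (hMnf : StMnf) (hDcj : StDcj) (hGcp : StGcp.{u}) (hTbs : StTbs.{u}) (hEtb : StEtb.{u}) (hQbf : StQbf.{u})
    (hQrs : StQrs.{u}) : StInz.{u} := by
  classical
  intro n δ hn hδ s
  induction s with
  | zero =>
    intro I hI hD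
    obtain ⟨G₁, hG1, hG1p, hM⟩ := hMvb n δ hn I hI hD
    obtain ⟨G₂, hG2, hG2p, hC⟩ := hcon I hI hD
    refine ⟨G₁ ∪ G₂, hG1.union hG2, ?_, ?_⟩
    · rintro g (h | h)
      · exact hG1p g h
      · exact hG2p g h
    intro κ k K F _ _ _ _ _ _ _ _ _ e d r c Z 𝔻 L Φ htr hF hT
    rcases hT with ⟨Y, hY, hcoef⟩ | ⟨K', F', _, _, _, _, _, _, _, _, _, _, _, _, _, _, _, _, _, y, N, a, dd, hcvd⟩
    · obtain ⟨Ξ, hΞ⟩ := hC κ k K F e d r c Z Y 𝔻 L Φ htr hF hY hcoef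
      exact ⟨Ξ, XInd.rsl_mono Set.subset_union_right hΞ⟩
    · haveI : Algebra.EssFiniteType k K := (hGrm k K Z hF.vz).1
      have hd : d = e + n := hDim.1 k K F K' F' e d n r c y hF.basis hF.basisF ⟨hcvd.indep, hcvd.gen⟩
      subst hd
      obtain ⟨Ξ, hΞ⟩ := hM κ k K F K' F' e N r c y Z 𝔻 L Φ a dd htr hF hcvd
      exact ⟨Ξ, XInd.rsl_mono Set.subset_union_left hΞ⟩
  | succ s ih =>
    intro I hI hD
    obtain ⟨G₁, hG1, hG1p, hM⟩ := ih I hI hD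
    obtain ⟨hE1, hE2⟩ := hMnf G₁ hG1 hG1p
    obtain ⟨hJD, hJs⟩ := hDcj I {t : ℝ | t ∈ AddSubmonoid.closure G₁ ∧ t ≤ 1} hI hD hE1
    obtain ⟨G₂, hG2, hG2p, hC⟩ := hcon (JJ I {t : ℝ | t ∈ AddSubmonoid.closure G₁ ∧ t ≤ 1}) hJs hJD
    set G₃ : Set ℝ := {t | ∃ g ∈ G₁, ∃ γ η : ℕ, 0 < γ ∧ γ ≤ δ ∧ 0 < η ∧ η ≤ δ ∧ t = g / (γ * η)} with hG₃
    have hG3 : G₃.Finite := by
      have h : (⋃ g ∈ G₁, ⋃ γ ∈ (Set.Iic δ), ⋃ η ∈ (Set.Iic δ), {t : ℝ | t = g / (γ * η)}).Finite := by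
        apply Set.Finite.biUnion hG1
        intro g _
        apply Set.Finite.biUnion (Set.finite_Iic δ)
        intro γ _
        apply Set.Finite.biUnion (Set.finite_Iic δ)
        intro η _
        exact Set.finite_singleton _
      refine h.subset ?_
      rintro t ⟨g, hg, γ, η, _, hγ, _, hη, ht⟩
      exact Set.mem_biUnion hg (Set.mem_biUnion (show γ ∈ Set.Iic δ from hγ)
        (Set.mem_biUnion (show η ∈ Set.Iic δ from hη) ht))
    have hG3p : ∀ g ∈ G₃, 0 < g := by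
      rintro t ⟨g, hg, γ, η, hγ, _, hη, _, rfl⟩
      have h1 : (0 : ℝ) < γ := by exact_mod_cast hγ
      have h2 : (0 : ℝ) < η := by exact_mod_cast hη
      exact div_pos (hG1p g hg) (mul_pos h1 h2)
    refine ⟨(G₁ ∪ G₂) ∪ G₃, (hG1.union hG2).union hG3, ?_, ?_⟩
    · rintro g ((h | h) | h)
      · exact hG1p g h
      · exact hG2p g h
      · exact hG3p g h
    intro κ k K F _ _ _ _ _ _ _ _ _ e d r c Z 𝔻 L Φ htr hF hT
    rcases hT with hT | ⟨E, _, _, _, _, _, _, _, Y, hY, hdom, hT⟩ |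
      ⟨K', F', _, _, _, _, _, _, _, _, _, _, _, _, _, _, _, _, _, Z', 𝔻', hconn, hdK, hdF, hvZ, hmZ, hpZ, h𝔻, hT⟩ |
      ⟨F₀, _, _, _, _, _, _, _, _, _, 𝔻₀, h𝔻, hT⟩
    · obtain ⟨Ξ, hΞ⟩ := hM κ k K F e d r c Z 𝔻 L Φ htr hF hT
      exact ⟨Ξ, XInd.rsl_mono (Set.subset_union_left.trans Set.subset_union_left) hΞ⟩
    · -- fibration
      obtain ⟨hvY, hmY, hpY, x, hx⟩ : Vty Y ∧ Mor Y Z ∧ Prp Y Z ∧ ∃ x : Fin 1 → E, IsTranscendenceBasis k (cor r x) := by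
        obtain ⟨x, hxK⟩ := XCrz.basis_one K E hY.dim
        exact ⟨hY.vy, hY.mor, hY.prp, x, XCrz.basis_cor hF.basis hxK⟩
      have hB1 := hBxy κ k K E F e (e + 1) d r (cor r x) c Z Y 𝔻 L Φ hF hx hvY hmY
      obtain ⟨ΞY, hRY⟩ := hM κ k E F (e + 1) d (cor r x) c Y 𝔻 (fun w => Lv Z L (Api.res K w)) Φ htr hB1 hT
      have hB2 := hByz κ k K E e (e + 1) r (cor r x) Z Y L ΞY hF.basis hx hF.vz hvY hmY hpY hF.divL hF.carL hRY.1
      have hcoef : ∀ w : AddValuation E (WithTop ℤ), Plc K w →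
          (1 - Tv (cor r x) Y (fun w => Lv Z L (Api.res K w)) ΞY w) = 0 ∨
          (1 - Tv (cor r x) Y (fun w => Lv Z L (Api.res K w)) ΞY w) ∈
            JJ I {t : ℝ | t ∈ AddSubmonoid.closure G₁ ∧ t ≤ 1} := by
        intro w hw
        have hPD := hGcp k K E e r (cor r x) Z Y hF.basis hx hF.vz hvY hmY hpY w hw
        obtain ⟨hdw, R, hR, hcen, _⟩ := hPdd k E Y hvY w hPD
        obtain ⟨ν, m, hν, hL, h𝔻⟩ := hdom w hw
        have h1 := hRY.2 w ⟨hdw, R, hR, hcen⟩ ν m hν hL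
        have h2 := (hRY.1 w ⟨hdw, R, hR, hcen⟩).1
        have hm : (1 : ℝ) ≤ m := by exact_mod_cast hL.1
        have hm0 : (0 : ℝ) < m := by linarith
        set T := Tv (cor r x) Y (fun w => Lv Z L (Api.res K w)) ΞY w with hTdef
        have ht : 0 ≤ 𝔻 ν := by
          rcases h𝔻 with h | h
          · rw [h]
          · exact (hI h).1.le
        have hz0 := hE2 _ h1
        have hmT : 0 ≤ (m : ℝ) * T := mul_nonneg hm0.le h2
        by_cases h0 : 1 - T = 0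
        · exact Or.inl h0
        right
        have hval : 1 - T = 1 - (1 - 𝔻 ν - ((1 - 𝔻 ν) - m * T)) / m := by
          have : 1 - 𝔻 ν - ((1 - 𝔻 ν) - m * T) = m * T := by ring
          rw [this, mul_div_cancel_left₀ _ hm0.ne']
        have hle : T ≤ 1 := by
          have h3 : (m : ℝ) * T ≤ 1 := by linarith
          nlinarith
        refine ⟨?_, 𝔻 ν, ?_, (1 - 𝔻 ν) - m * T, ⟨h1, by linarith⟩, m, hL.1, hz0, by linarith, hval⟩
        · rcases lt_or_eq_of_le (sub_nonneg.2 hle) with h | h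
          · exact h
          · exact absurd h.symm h0
        · rcases h𝔻 with h | h
          · rw [h]; exact Set.mem_insert _ _
          · exact Set.mem_insert_of_mem _ h
      obtain ⟨Ξ, hR⟩ := hC κ k K E e (e + 1) r (cor r x) Z Y _ L ΞY htr hB2 hY hcoef
      refine ⟨Ξ, hR.1, ?_⟩
      intro v hv ν m hν hLν
      haveI : Algebra.EssFiniteType k E := (hGrm k E Y hvY).1
      haveI : Algebra.EssFiniteType k F := hF.ess
      obtain ⟨π, hπ⟩ := hv.1.1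
      have hπ0 : π ≠ 0 := by
        intro h0; rw [h0, AddValuation.map_zero] at hπ; exact absurd hπ (by simp)
      have hvπ : val v π = 1 := Api.val_of v hπ
      obtain ⟨w, m₁, hw, hLw⟩ := hRsv k E F (e + 1) d (cor r x) c hx hF.basisF ν hν
        ⟨algebraMap K E π, by rw [map_ne_zero_iff _ (algebraMap K E).injective]; exact hπ0, by
          rw [← IsScalarTower.algebraMap_apply K E F, hLν.2 π hπ0, hvπ, mul_one]
          exact_mod_cast hLν.1.ne'⟩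
      obtain ⟨μ, hLv, hmul⟩ := Api.lies_mid (v := v) (W := w) (W' := ν) ⟨π, hπ⟩ hLw hLν
      obtain ⟨P, hP, hcen⟩ := hv.2
      have hOv : Ov Z w := by
        refine ⟨P, hP, fun f hf => ?_⟩
        by_cases hf0 : f = 0
        · rw [hf0, map_zero, AddValuation.map_zero]; exact le_top
        have hf1 : algebraMap K E f ≠ 0 := by
          rw [map_ne_zero_iff _ (algebraMap K E).injective]; exact hf0
        rw [← Api.val_nonneg w hf1, hLv.2 f hf0]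
        exact mul_nonneg (by exact_mod_cast Nat.zero_le _) ((Api.val_nonneg v hf0).2 (hcen.1 f hf))
      obtain ⟨O, hO, hcO⟩ := (hCnt k K E Z hF.vz).2 Y hpY w hOv
      have h1 := hRY.2 w ⟨hw, O, hO, hcO⟩ ν m₁ hν hLw
      have h2 := hR.2 v hv w μ hw hLv
      have h3 := XInd.nsmul_mem' h2 m₁
      have h4 : (1 - 𝔻 ν) - m * Tv r Z L Ξ v = ((1 - 𝔻 ν) - m₁ * Tv (cor r x) Y (fun w => Lv Z L (Api.res K w)) ΞY w) +
          (m₁ : ℝ) * ((1 - (1 - Tv (cor r x) Y (fun w => Lv Z L (Api.res K w)) ΞY w)) - μ * Tv r Z L Ξ v) := by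
        rw [← hmul]
        push_cast
        ring
      rw [h4]
      apply AddSubmonoid.add_mem
      · exact AddSubmonoid.closure_mono (Set.subset_union_left.trans Set.subset_union_left) h1
      · exact AddSubmonoid.closure_mono (Set.subset_union_right.trans Set.subset_union_left) h3
    · -- base change
      have hB := hBck κ k K F K' F' e d r c Z Z' 𝔻 𝔻' L Φ hF hvZ hmZ h𝔻
      obtain ⟨Ξ', hΞ'⟩ := hM κ k K' F' e d (up K' r) (up F' c) Z' 𝔻' (fun v' => Lv Z L (Api.res K v')) (push F F' Φ) htr hB hT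
      obtain ⟨Ξ, hΞ⟩ := hBcr κ k K F K' F' δ e r Z Z' 𝔻 𝔻' L Ξ' G₁ hF.basis hF.vz hF.divL hF.carL hvZ hmZ hpZ hconn hdK hdF
        h𝔻 hΞ'
      exact ⟨Ξ, XInd.rsl_mono Set.subset_union_right hΞ⟩
    · -- quotient
      obtain ⟨d₀, c₀, hc₀⟩ := hEtb k F₀
      haveI : Algebra.EssFiniteType k F := hF.ess
      obtain ⟨Φ₀, hB⟩ := hQbf κ k K F₀ F e d₀ d r c₀ c Z 𝔻₀ 𝔻 L Φ hF hc₀ (fun ν ν' ε h1 _ h3 h4 => h𝔻 ν ν' ε h1 h3 h4)
      obtain ⟨Ξ, hΞ⟩ := hM κ k K F₀ e d₀ r c₀ Z 𝔻₀ L Φ₀ htr hB hT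
      exact ⟨Ξ, XInd.rsl_mono (Set.subset_union_left.trans Set.subset_union_left)
        (hQrs κ k K F₀ F G₁ e d₀ d r c₀ c Z 𝔻₀ 𝔻 L Ξ hc₀ hF.basisF (fun ν ν' ε h1 _ h3 h4 => h𝔻 ν ν' ε h1 h3 h4) hΞ)⟩

end Pool.Agent.Work.MP_a2680c_ag.HA
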