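import Pool.Agent.Work.MP_a2680c_ag.HA.StmtsE

/-! Item [a2680c HA Itg] (helper9): integrality of the optimal decomposition. -/

set_option autoImplicit false

noncomputable section

namespace Pool.Agent.Work.MP_a2680c_ag.HA

open MP7b66e6 MP7b66e6.Q
open scoped BigOperators

universe u

namespace XItg

theorem swap {K : Type u} [Field K] {n N : ℕ} (S : Set (Fin (n + 1) → Fin N)) (d : Fin N → ℝ)
    (l : (Fin (n + 1) → Fin N) → ℝ) (hl : Feas S d l) (Y : Fin N → ℝ) :
    ∑ b, l b * (∑ j, Y (b j)) = ∑ i, d i * Y i := by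
  classical
  have h1 : ∀ b : Fin (n + 1) → Fin N, ∑ j, Y (b j) = ∑ i, (∑ j, if b j = i then (1 : ℝ) else 0) * Y i := by
    intro b
    have : ∀ i, (∑ j, if b j = i then (1 : ℝ) else 0) * Y i = ∑ j, if b j = i then Y i else 0 := by
      intro i
      rw [Finset.sum_mul]
      apply Finset.sum_congr rfl
      intro j _
      split_ifs <;> simp
    rw [Finset.sum_congr rfl fun i _ => this i, Finset.sum_comm]
    apply Finset.sum_congr rfl
    intro j _
    simp
  have h2 : ∀ i, d i * Y i = ∑ b, l b * ((∑ j, if b j = i then (1 : ℝ) else 0) * Y i) := by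
    intro i
    rw [← hl.sum i, Finset.sum_mul]
    apply Finset.sum_congr rfl
    intro b _
    ring
  rw [Finset.sum_congr rfl fun i _ => h2 i, Finset.sum_comm]
  apply Finset.sum_congr rfl
  intro b _
  rw [h1 b, Finset.mul_sum]

/-- the scaled arrangement -/
def sc {K F : Type u} [Field K] [Field F] [Algebra K F] {n N : ℕ} (T : F) (Y : Fin N → ℤ) (a : Fin N → Fin (n + 1) → K)
    (i : Fin N) (k : Fin (n + 1)) : F := T ^ (- Y i) * algebraMap K F (a i k)

theorem mnr_sc {K F : Type u} [Field K] [Field F] [Algebra K F] {n N : ℕ} (T : F) (Y : Fin N → ℤ)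
    (a : Fin N → Fin (n + 1) → K) (b : Fin (n + 1) → Fin N) :
    mnr (sc T Y a) b = (∏ j, T ^ (- Y (b j))) * algebraMap K F (mnr a b) := by
  unfold mnr sc
  have h := Matrix.det_mul_column (fun j => T ^ (- Y (b j))) (Matrix.of fun i j => algebraMap K F (a (b i) j))
  have h2 : algebraMap K F (Matrix.det fun i j => a (b i) j) = Matrix.det (Matrix.of fun i j => algebraMap K F (a (b i) j)) := by
    rw [RingHom.map_det]
    rfl
  rw [h2, ← h]
  rfl

theorem val_sc {K F : Type u} [Field K] [Field F] [Algebra K F] {n N : ℕ} (W : AddValuation F (WithTop ℤ)) (T : F)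
    (hT : W T = 1) (Y : Fin N → ℤ) (a : Fin N → Fin (n + 1) → K) (b : Fin (n + 1) → Fin N) (hb : mnr a b ≠ 0) :
    mnr (sc T Y a) b ≠ 0 ∧
      val W (mnr (sc T Y a) b) = - (∑ j, Y (b j)) + val W (algebraMap K F (mnr a b)) := by
  have hT0 : T ≠ 0 := by
    intro h; rw [h, AddValuation.map_zero] at hT; exact absurd hT (by simp)
  have hvT : val W T = 1 := Api.val_of W hT
  have h1 : (∏ j, T ^ (- Y (b j))) ≠ 0 := Finset.prod_ne_zero_iff.2 fun j _ => zpow_ne_zero _ hT0
  have h2 : algebraMap K F (mnr a b) ≠ 0 := by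
    rw [map_ne_zero_iff _ (algebraMap K F).injective]; exact hb
  rw [mnr_sc]
  refine ⟨mul_ne_zero h1 h2, ?_⟩
  rw [Api.val_mul W h1 h2, Api.val_prod W _ _ fun j _ => zpow_ne_zero _ hT0]
  congr 1
  rw [← Finset.sum_neg_distrib]
  apply Finset.sum_congr rfl
  intro j _
  rw [Api.val_zpow W hT0, hvT, mul_one]

end XItg

theorem pr_Itg (hPac : StPac.{u}) (hRam : StRam.{u}) (hRsd : StRsd.{u}) : StItg.{u} := by
  classical
  intro K _ v hv n N M a u l hl hu q Y hq hfeas heq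
  rcases Nat.eq_zero_or_pos M with rfl | hM
  · refine ⟨fun t => t.elim0, fun t => t.elim0, fun i => ?_, fun t => t.elim0⟩
    rw [zero_mul] at hu
    have := (Finset.sum_eq_zero_iff.1 hu) i (Finset.mem_univ i)
    rw [this]; simp
  -- tightness
  have hs1 := XItg.swap (K := K) (bas a) (fun i => (u i : ℝ)) l hl (fun i => (Y i : ℝ))
  have hterm : ∀ b, 0 ≤ l b * ((q : ℝ) * (val v (mnr a b) : ℝ) - ∑ j, (Y (b j) : ℝ)) := by
    intro b
    by_cases hb : b ∈ bas a
    · apply mul_nonneg (hl.nonneg b)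
      have h := hfeas b hb
      have h' : ((∑ j, Y (b j) : ℤ) : ℝ) ≤ ((q * val v (mnr a b) : ℤ) : ℝ) := by exact_mod_cast h
      push_cast at h'
      linarith
    · rw [hl.supp b hb, zero_mul]
  have hsum0 : ∑ b, l b * ((q : ℝ) * (val v (mnr a b) : ℝ) - ∑ j, (Y (b j) : ℝ)) = 0 := by
    have : ∀ b, l b * ((q : ℝ) * (val v (mnr a b) : ℝ) - ∑ j, (Y (b j) : ℝ)) =
        (q : ℝ) * (l b * (val v (mnr a b) : ℝ)) - l b * ∑ j, (Y (b j) : ℝ) := by intro b; ring
    rw [Finset.sum_congr rfl fun b _ => this b, Finset.sum_sub_distrib, ← Finset.mul_sum, heq, hs1, sub_self]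
  have htight : ∀ b, l b ≠ 0 → ∑ j, Y (b j) = q * val v (mnr a b) := by
    intro b hb
    have h1 := (Finset.sum_eq_zero_iff_of_nonneg fun b _ => hterm b).1 hsum0 b (Finset.mem_univ b)
    have h2 := (mul_eq_zero.1 h1).resolve_left hb
    have h3 : ((∑ j, Y (b j) : ℤ) : ℝ) = ((q * val v (mnr a b) : ℤ) : ℝ) := by push_cast; linarith
    exact_mod_cast h3
  have hbas : ∀ b, l b ≠ 0 → b ∈ bas a := fun b hb => by
    by_contra h; exact hb (hl.supp b h)
  -- a basis in the support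
  have hs2 := XItg.swap (K := K) (bas a) (fun i => (u i : ℝ)) l hl (fun _ => (1 : ℝ))
  obtain ⟨b₀, hb₀⟩ : ∃ b, l b ≠ 0 := by
    by_contra hcon
    push Not at hcon
    have h1 : ∑ b, l b * (∑ _j : Fin (n + 1), (1 : ℝ)) = 0 := Finset.sum_eq_zero fun b _ => by rw [hcon b, zero_mul]
    rw [h1] at hs2
    have h2 : ((∑ i, u i : ℕ) : ℝ) = 0 := by push_cast; simpa using hs2.symm
    have h3 : ∑ i, u i = 0 := by exact_mod_cast h2
    rw [hu] at h3
    have : 0 < M * (n + 1) := Nat.mul_pos hM (Nat.succ_pos n)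
    omega
  obtain ⟨F, _, _, W, T, hT, hW⟩ := hRam K v hv q hq
  have hval : ∀ b ∈ bas a, mnr (XItg.sc T Y a) b ≠ 0 ∧
      val W (mnr (XItg.sc T Y a) b) = q * val v (mnr a b) - ∑ j, Y (b j) := by
    intro b hb
    obtain ⟨h1, h2⟩ := XItg.val_sc W T hT Y a b hb
    refine ⟨h1, ?_⟩
    rw [h2, hW _ hb]; ring
  have hnot : ∀ b, b ∉ bas a → mnr (XItg.sc T Y a) b = 0 := by
    intro b hb
    have : mnr a b = 0 := by
      by_contra h; exact hb h
    rw [XItg.mnr_sc, this, map_zero, mul_zero]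
  have hW0 : ∀ b ∈ bas a, W (mnr (XItg.sc T Y a) b) = 0 ↔ ∑ j, Y (b j) = q * val v (mnr a b) := by
    intro b hb
    obtain ⟨h1, h2⟩ := hval b hb
    rw [Api.coe_val W h1, h2, ← WithTop.coe_zero, WithTop.coe_inj]
    omega
  have hnn : ∀ b, 0 ≤ W (mnr (XItg.sc T Y a) b) := by
    intro b
    by_cases hb : b ∈ bas a
    · obtain ⟨h1, h2⟩ := hval b hb
      rw [← Api.val_nonneg W h1, h2]
      have := hfeas b hb
      omega
    · rw [hnot b hb, AddValuation.map_zero]; exact le_top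
  obtain ⟨κ, _, ρ, hρ⟩ := hRsd F W n N (XItg.sc T Y a) hnn b₀ ((hW0 b₀ (hbas b₀ hb₀)).2 (htight b₀ hb₀))
  have hlρ : Feas (bas ρ) (fun i => (u i : ℝ)) l := by
    refine ⟨hl.nonneg, fun b hb => ?_, hl.sum⟩
    by_contra hne
    apply hb
    exact (hρ b).2 ((hW0 b (hbas b hne)).2 (htight b hne))
  obtain ⟨B, hB1, hB2⟩ := hPac κ n N M ρ u l hlρ hu
  have hB3 : ∀ t, W (mnr (XItg.sc T Y a) (B t)) = 0 := fun t => (hρ (B t)).1 (hB1 t)
  have hB4 : ∀ t, B t ∈ bas a := by
    intro t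
    by_contra h
    have h1 := hB3 t
    rw [hnot _ h, AddValuation.map_zero] at h1
    exact absurd h1 (by simp)
  exact ⟨B, hB4, hB2, fun t => (hW0 (B t) (hB4 t)).1 (hB3 t)⟩

end Pool.Agent.Work.MP_a2680c_ag.HA
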