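import Pool.Agent.Work.MP_a2680c_ag.HA.StmtsE

/-!
# MP_a2680c_ag, block HA, item Ixb: `M D_mod` is base-point free
-/

set_option autoImplicit false

noncomputable section

namespace Pool.Agent.Work.MP_a2680c_ag.HA

open MP7b66e6 MP7b66e6.Q
open scoped BigOperators

universe u

namespace XIxb

theorem cen_of_dom {k K : Type u} [Field k] [Field K] [Algebra k K] {P R : Subalgebra k K}
    {ν : AddValuation K (WithTop ℤ)} (h : Dom P R) (hR : Cen R ν) : Cen P ν := by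
  refine ⟨fun f hf => hR.1 f (h f hf).1, fun f hf h0 => ?_⟩
  have h1 : f⁻¹ ∈ R := hR.2 f (h f hf).1 h0
  by_cases hf0 : f = 0
  · rw [hf0, inv_zero]
    exact P.zero_mem
  · exact (h f hf).2 hf0 h1

theorem transfer (hPdd : StPdd.{u}) {k K : Type u} [Field k] [Field K] [Algebra k K]
    {Z : Set (Subalgebra k K)} {M M' : AddValuation K (WithTop ℤ) → ℝ}
    (h : ∀ ν, DivOver Z ν → M' ν = M ν) (hb : Bpf Z M') : Bpf Z M := by
  obtain ⟨Z', h1, h2, h3, h4, h5⟩ := hb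
  have hd : ∀ ν, Divisorial k ν → ∀ P ∈ Z', Cen P ν → M' ν = M ν := by
    intro ν hν P hP hc
    obtain ⟨Q, hQ, hQP⟩ := h2 P hP
    exact h ν ⟨hν, Q, hQ, cen_of_dom hQP hc⟩
  have hp : ∀ ν, PD Z' ν → M' ν = M ν := by
    intro ν hν
    obtain ⟨h6, R, hR, hc, -⟩ := hPdd k K Z' h1 ν hν
    exact hd ν h6 R hR hc
  refine ⟨Z', h1, h2, h3, fun P hP => ?_, fun P hP s hs ν hν hc => ?_⟩
  · obtain ⟨s, hs1, hs2⟩ := h4 P hP
    refine ⟨s, fun ν hν => ?_, fun ν hν => ?_⟩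
    · rw [← hp ν hν.1]
      exact hs1 ν hν
    · rw [← hp ν hν]
      exact hs2 ν hν
  · rw [← hd ν hν P hP hc]
    refine h5 P hP s (fun ν' hν' => ?_) ν hν hc
    rw [hp ν' hν'.1]
    exact hs ν' hν'

end XIxb

open Classical in
theorem pr_Ixb (h1 : StBp3.{u}) (h2 : StImn.{u}) (h3 : StPdd.{u}) (_h4 : StLoc.{u}) :
    StIxb.{u} := by
  intro κ k K _ _ _ _ e n N M r Z a d T hr hZ hM hu hsum hO
  set S₀ : Finset (Fin M → Fin (n + 1) → Fin N) :=
    Finset.univ.filter fun B => B ∈ Tup a d M with hS₀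
  have hmem : ∀ B, B ∈ S₀ ↔ B ∈ Tup a d M := fun B => by
    rw [hS₀, Finset.mem_filter]
    exact ⟨fun h => h.2, fun h => ⟨Finset.mem_univ _, h⟩⟩
  let f : (Fin M → Fin (n + 1) → Fin N) → Kˣ := fun B =>
    if h : ∏ t, mnr a (B t) ≠ 0 then Units.mk0 _ h else 1
  have hf : ∀ B ∈ S₀, ((f B : Kˣ) : K) = ∏ t, mnr a (B t) := by
    intro B hB
    have h0 : ∏ t, mnr a (B t) ≠ 0 :=
      Finset.prod_ne_zero_iff.2 fun t _ => ((hmem B).1 hB).1 t
    show ((if h : ∏ t, mnr a (B t) ≠ 0 then Units.mk0 _ h else 1 : Kˣ) : K) = _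
    rw [dif_pos h0]
    rfl
  have hval : ∀ B ∈ S₀, ∀ ν : AddValuation K (WithTop ℤ),
      (val ν ((f B : Kˣ) : K) : ℝ) = ∑ t, (val ν (mnr a (B t)) : ℝ) := by
    intro B hB ν
    rw [hf B hB, Api.val_prod ν Finset.univ (fun t => mnr a (B t))
      (fun t _ => ((hmem B).1 hB).1 t)]
    push_cast
    rfl
  let S : Finset Kˣ := if S₀.Nonempty then S₀.image f else {1}
  have hS : S.Nonempty := by
    show (if S₀.Nonempty then S₀.image f else {1} : Finset Kˣ).Nonempty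
    by_cases h : S₀.Nonempty
    · rw [if_pos h]
      exact h.image f
    · rw [if_neg h]
      exact Finset.singleton_nonempty 1
  let M' : AddValuation K (WithTop ℤ) → ℝ := fun ν =>
    S.sup' hS (fun s => -(val ν (s : K) : ℝ))
  have hM' : ∀ ν : AddValuation K (WithTop ℤ), (∃ s ∈ S, M' ν + (val ν (s : K) : ℝ) = 0) ∧
      ∀ s ∈ S, 0 ≤ M' ν + (val ν (s : K) : ℝ) := by
    intro ν
    constructor
    · obtain ⟨s, hs, hs2⟩ := Finset.exists_mem_eq_sup' hS (fun s : Kˣ => -(val ν (s : K) : ℝ))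
      refine ⟨s, hs, ?_⟩
      show S.sup' hS (fun s => -(val ν (s : K) : ℝ)) + _ = 0
      rw [hs2]
      ring
    · intro s hs
      have h5 := Finset.le_sup' (fun s : Kˣ => -(val ν (s : K) : ℝ)) hs
      have h6 : -(val ν (s : K) : ℝ) ≤ M' ν := h5
      linarith
  have hb : Bpf Z M' := h1 k K Z hZ e r hr S hS M' hM'
  refine XIxb.transfer h3 (fun ν hν => ?_) hb
  have hl := h2 κ K ν hν.1.1 n N M a d (T ν) hM hu hsum (hO ν hν)
  obtain ⟨⟨B₀, hB₀, hB₀'⟩, hlow⟩ := hl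
  have hne : S₀.Nonempty := ⟨B₀, (hmem B₀).2 hB₀⟩
  have hSe : S = S₀.image f := if_pos hne
  obtain ⟨⟨s, hs, hs2⟩, hs3⟩ := hM' ν
  show M' ν = M * Dmm a d ν
  unfold Dmm
  have h5 : M' ν = - (val ν (s : K) : ℝ) := by linarith
  have h6 : (M : ℝ) * mv a d ν ≤ (val ν (s : K) : ℝ) := by
    rw [hSe, Finset.mem_image] at hs
    obtain ⟨B, hB, rfl⟩ := hs
    exact hlow ⟨B, (hmem B).1 hB, hval B hB ν⟩
  have h7 : 0 ≤ M' ν + (val ν ((f B₀ : Kˣ) : K) : ℝ) := by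
    refine hs3 (f B₀) ?_
    rw [hSe]
    exact Finset.mem_image_of_mem f ((hmem B₀).2 hB₀)
  rw [hval B₀ ((hmem B₀).2 hB₀) ν, ← hB₀'] at h7
  linarith

end Pool.Agent.Work.MP_a2680c_ag.HA
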