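import Pool.Agent.Work.MP_a2680c_ag.HA.StmtsB

/-!
# MP_a2680c_ag, block HA, item Jac: the Jacobian of the coordinates of a basis
-/

set_option autoImplicit false

noncomputable section

namespace Pool.Agent.Work.MP_a2680c_ag.HA

open MP7b66e6 MP7b66e6.Q
open scoped BigOperators

universe u

namespace XJac

/-- a linear form with a nonzero coefficient is not zero -/
theorem lin_ne {K F : Type u} [Field K] [Field F] [Algebra K F] {n : ℕ} {y : Fin n → F}
    (hy : AlgebraicIndependent K y) {α : Fin (n + 1) → K} (hα : α ≠ 0) : lin y α ≠ 0 := by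
  intro h
  apply hα
  let P : MvPolynomial (Fin n) K :=
    MvPolynomial.C (α 0) + ∑ j : Fin n, MvPolynomial.C (α j.succ) * MvPolynomial.X j
  have hP : MvPolynomial.aeval y P = 0 := by
    have e : MvPolynomial.aeval y P = lin y α := by
      simp only [P, lin, map_add, map_sum, map_mul, MvPolynomial.aeval_C, MvPolynomial.aeval_X]
    rw [e, h]
  have hP0 : P = 0 := by
    have h1 := hy
    rw [algebraicIndependent_iff] at h1
    exact h1 P hP
  have hev : ∀ x : Fin n → K, α 0 + ∑ j : Fin n, α j.succ * x j = 0 := by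
    intro x
    have h2 := congrArg (MvPolynomial.eval x) hP0
    simpa [P] using h2
  have h0 : α 0 = 0 := by
    have h2 := hev 0
    simpa using h2
  funext i
  refine Fin.cases ?_ (fun j => ?_) i
  · exact h0
  · have h2 := hev (Pi.single j 1)
    rw [h0, zero_add, Finset.sum_eq_single j] at h2
    · simpa using h2
    · intro l _ hl
      rw [Pi.single_eq_of_ne hl, mul_zero]
    · intro hj
      exact absurd (Finset.mem_univ j) hj

/-- evaluation of a combination of derivations -/
theorem sum_smul_apply {k F : Type u} [Field k] [Field F] [Algebra k F] {m : ℕ} (c : Fin m → F)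
    (pe : Fin m → Derivation k F F) (x : F) :
    (∑ j, c j • pe j : Derivation k F F) x = ∑ j, c j * pe j x := by
  have h := map_sum (Derivation.coeFnAddMonoidHom (R := k) (A := F) (M := F))
    (fun j => c j • pe j) Finset.univ
  have h2 := congrFun h x
  rw [Derivation.coeFnAddMonoidHom_apply, Finset.sum_apply] at h2
  exact h2

/-- the chain rule -/
theorem chain {k F : Type u} [Field k] [Field F] [Algebra k F] {m : ℕ} {x : Fin m → F}
    {pe : Fin m → Derivation k F F} (h : Dual x pe) (E : Derivation k F F) (f : F) :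
    E f = ∑ j, E (x j) * pe j f := by
  have h0 : E - ∑ j, E (x j) • pe j = 0 := by
    apply h.2
    intro j
    rw [Derivation.sub_apply, sum_smul_apply, Finset.sum_eq_single j, h.1, if_pos rfl, mul_one,
      sub_self]
    · intro i _ hij
      rw [h.1, if_neg hij, mul_zero]
    · intro hj
      exact absurd (Finset.mem_univ j) hj
  have h1 := congrArg (fun D : Derivation k F F => D f) h0
  simp only [Derivation.sub_apply, Derivation.coe_zero, Pi.zero_apply] at h1
  rw [sub_eq_zero] at h1
  rw [h1, sum_smul_apply]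

/-- the logarithmic derivative of a quotient -/
theorem log_div {k F : Type u} [Field k] [Field F] [Algebra k F] (E : Derivation k F F) {p q : F}
    (hp : p ≠ 0) (hq : q ≠ 0) : E (p / q) / (p / q) = E p / p - E q / q := by
  rw [Derivation.leibniz_div, smul_eq_mul, smul_eq_mul, smul_eq_mul]
  field_simp

/-- the determinant of the matrix `J` -/
theorem detJ {F : Type u} [Field F] {n : ℕ} (P : Matrix (Fin (n + 1)) (Fin (n + 1)) F)
    (y : Fin n → F) (l : Fin (n + 1) → F) (hl : ∀ k, l k = P k 0 + ∑ j : Fin n, P k j.succ * y j)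
    (h0 : ∀ k, l k ≠ 0) :
    (∏ k, l k) * Matrix.det (Matrix.of fun (i j : Fin n) =>
      P j.succ i.succ / l j.succ - P 0 i.succ / l 0) = Matrix.det P := by
  -- the column operation
  let V : Matrix (Fin (n + 1)) (Fin (n + 1)) F := Matrix.of fun j i =>
    Fin.cases (motive := fun _ => F) (Fin.cases (motive := fun _ => F) 1 y j)
      (fun i' => if j = i'.succ then 1 else 0) i
  have hV : V.det = 1 := by
    rw [Matrix.det_succ_row_zero, Finset.sum_eq_single 0]
    · have h1 : V 0 0 = 1 := rfl
      have h2 : V.submatrix Fin.succ (Fin.succAbove 0) = 1 := by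
        ext i j
        rw [Matrix.submatrix_apply, Fin.succAbove_zero, Matrix.one_apply]
        show (if i.succ = j.succ then (1 : F) else 0) = _
        simp only [Fin.succ_inj]
      rw [h1, h2, Matrix.det_one]
      simp
    · intro i _ hi
      obtain ⟨i', rfl⟩ := Fin.exists_succ_eq.2 hi
      have h1 : V 0 i'.succ = 0 := by
        show (if (0 : Fin (n + 1)) = i'.succ then (1 : F) else 0) = 0
        rw [if_neg (Fin.succ_ne_zero i').symm]
      rw [h1, mul_zero, zero_mul]
    · intro h
      exact absurd (Finset.mem_univ _) h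
  have hPV : ∀ k i, (P * V) k i =
      Fin.cases (motive := fun _ => F) (l k) (fun i' => P k i'.succ) i := by
    intro k i
    rw [Matrix.mul_apply]
    refine Fin.cases ?_ (fun i' => ?_) i
    · show ∑ j, P k j * V j 0 = l k
      rw [Fin.sum_univ_succ, hl k]
      have h1 : V 0 0 = 1 := rfl
      have h2 : ∀ j : Fin n, V j.succ 0 = y j := fun j => rfl
      rw [h1, mul_one]
      congr 1
    · show ∑ j, P k j * V j i'.succ = P k i'.succ
      rw [Finset.sum_eq_single i'.succ]
      · have h1 : V i'.succ i'.succ = 1 := by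
          show (if i'.succ = i'.succ then (1 : F) else 0) = 1
          rw [if_pos rfl]
        rw [h1, mul_one]
      · intro j _ hj
        have h1 : V j i'.succ = 0 := by
          show (if j = i'.succ then (1 : F) else 0) = 0
          rw [if_neg hj]
        rw [h1, mul_zero]
      · intro h
        exact absurd (Finset.mem_univ _) h
  let Q : Matrix (Fin (n + 1)) (Fin (n + 1)) F := Matrix.of fun k i => (l k)⁻¹ * (P * V) k i
  have hQ : Q.det = (∏ k, (l k)⁻¹) * P.det := by
    have h1 : Q.det = (∏ k, (l k)⁻¹) * (P * V).det := Matrix.det_mul_column (fun k => (l k)⁻¹) (P * V)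
    rw [h1, Matrix.det_mul, hV, mul_one]
  let Q' : Matrix (Fin (n + 1)) (Fin (n + 1)) F := Matrix.of fun k i =>
    Fin.cases (motive := fun _ => F) (Q 0 i) (fun k' => Q k'.succ i - Q 0 i) k
  have hQQ : Q.det = Q'.det := by
    refine Matrix.det_eq_of_forall_row_eq_smul_add_const
      (fun k => Fin.cases (motive := fun _ => F) 0 (fun _ => 1) k) 0 rfl ?_
    intro k i
    refine Fin.cases ?_ (fun k' => ?_) k
    · show Q 0 i = Q 0 i + 0 * Q 0 i
      ring
    · show Q k'.succ i = (Q k'.succ i - Q 0 i) + 1 * Q 0 i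
      ring
  have hQ0 : ∀ k, Q k 0 = 1 := by
    intro k
    show (l k)⁻¹ * (P * V) k 0 = 1
    rw [hPV]
    exact inv_mul_cancel₀ (h0 k)
  have hQs : ∀ k (i : Fin n), Q k i.succ = P k i.succ / l k := by
    intro k i
    show (l k)⁻¹ * (P * V) k i.succ = _
    rw [hPV, div_eq_mul_inv, mul_comm]
    rfl
  have hdet : Q'.det = Matrix.det (Matrix.of fun (i j : Fin n) =>
      P j.succ i.succ / l j.succ - P 0 i.succ / l 0) := by
    rw [Matrix.det_succ_column_zero, Finset.sum_eq_single 0]
    · have h1 : Q' 0 0 = 1 := hQ0 0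
      rw [h1, ← Matrix.det_transpose]
      have h2 : (Q'.submatrix (Fin.succAbove 0) Fin.succ).transpose = Matrix.of fun (i j : Fin n) =>
          P j.succ i.succ / l j.succ - P 0 i.succ / l 0 := by
        ext i j
        rw [Matrix.transpose_apply, Matrix.submatrix_apply, Fin.succAbove_zero]
        show Q j.succ i.succ - Q 0 i.succ = P j.succ i.succ / l j.succ - P 0 i.succ / l 0
        rw [hQs, hQs]
      rw [h2]
      simp
    · intro k _ hk
      obtain ⟨k', rfl⟩ := Fin.exists_succ_eq.2 hk
      have h1 : Q' k'.succ 0 = 0 := by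
        show Q k'.succ 0 - Q 0 0 = 0
        rw [hQ0, hQ0, sub_self]
      rw [h1, mul_zero, zero_mul]
    · intro h
      exact absurd (Finset.mem_univ _) h
  rw [← hdet, ← hQQ, hQ, ← mul_assoc, ← Finset.prod_mul_distrib,
    Finset.prod_congr rfl (fun k _ => mul_inv_cancel₀ (h0 k)), Finset.prod_const_one, one_mul]

end XJac

open XJac

/-- item Jac -/
theorem pr_Jac (hTb : StTb.{u}) (hCor : StCor.{u}) : StJac.{u} := by
  intro k K F _ _ _ _ _ _ _ _ _ e n N r y a hr hG ha
  have hne : ∀ i, lin y (a i) ≠ 0 := fun i => lin_ne hG.1 (ha i)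
  refine ⟨hne, fun b => ⟨1, Or.inl rfl, fun E => ?_⟩⟩
  obtain ⟨⟨pd, hpd⟩, -⟩ := hTb k K e r hr
  obtain ⟨pe, hpe, hpe1, hpe2⟩ := hCor k K F e n r y hr hG pd hpd
  -- the chain rule for elements of K
  have hK : ∀ (D : Derivation k F F) (f : K), D (algebraMap K F f) =
      ∑ m, D (algebraMap K F (r m)) * algebraMap K F (pd m f) := by
    intro D f
    rw [chain hpe D (algebraMap K F f), Fin.sum_univ_add]
    have h1 : ∀ j : Fin n, D (cor r y (Fin.natAdd e j)) * pe (Fin.natAdd e j) (algebraMap K F f)
        = 0 := fun j => by rw [hpe2, mul_zero]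
    rw [Finset.sum_congr rfl (fun j _ => h1 j), Finset.sum_const_zero, add_zero]
    refine Finset.sum_congr rfl fun m _ => ?_
    rw [hpe1]
    congr 2
    unfold cor
    rw [Fin.append_left]
  -- the coefficients
  obtain ⟨cc, hcc⟩ : ∃ cc : Fin e → (Fin (n + 1) → K) → F, ∀ m α, cc m α =
      algebraMap K F (pd m (α 0)) + ∑ j : Fin n, algebraMap K F (pd m (α j.succ)) * y j :=
    ⟨_, fun _ _ => rfl⟩
  have hlin : ∀ (D : Derivation k F F) (α : Fin (n + 1) → K), D (lin y α) =
      ∑ m, D (algebraMap K F (r m)) * cc m α + ∑ j : Fin n, D (y j) * algebraMap K F (α j.succ) := by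
    intro D α
    unfold lin
    rw [map_add, map_sum]
    have h1 : ∀ j : Fin n, D (algebraMap K F (α j.succ) * y j) =
        algebraMap K F (α j.succ) * D (y j) + y j * D (algebraMap K F (α j.succ)) := fun j => by
      rw [Derivation.leibniz, smul_eq_mul, smul_eq_mul]
    rw [Finset.sum_congr rfl (fun j _ => h1 j), Finset.sum_add_distrib, hK D (α 0)]
    have h2 : ∀ j : Fin n, y j * D (algebraMap K F (α j.succ)) =
        ∑ m, D (algebraMap K F (r m)) * (algebraMap K F (pd m (α j.succ)) * y j) := fun j => by
      rw [hK D, Finset.mul_sum]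
      exact Finset.sum_congr rfl fun m _ => by ring
    rw [Finset.sum_congr rfl (fun j _ => h2 j), Finset.sum_comm]
    have h3 : ∑ m, D (algebraMap K F (r m)) * cc m α =
        ∑ m, D (algebraMap K F (r m)) * algebraMap K F (pd m (α 0)) +
        ∑ m, ∑ j : Fin n, D (algebraMap K F (r m)) * (algebraMap K F (pd m (α j.succ)) * y j) := by
      rw [← Finset.sum_add_distrib]
      refine Finset.sum_congr rfl fun m _ => ?_
      rw [hcc, mul_add, Finset.mul_sum]
    have h4 : ∑ j : Fin n, D (y j) * algebraMap K F (α j.succ) =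
        ∑ j : Fin n, algebraMap K F (α j.succ) * D (y j) :=
      Finset.sum_congr rfl fun j _ => mul_comm _ _
    rw [h3, h4]
    ring
  -- the factor
  let Cm : Matrix (Fin e) (Fin n) F := Matrix.of fun m j =>
    cc m (a (b j.succ)) / lin y (a (b j.succ)) - cc m (a (b 0)) / lin y (a (b 0))
  let Jm : Matrix (Fin n) (Fin n) F := Matrix.of fun i j =>
    algebraMap K F (a (b j.succ) i.succ) / lin y (a (b j.succ)) -
      algebraMap K F (a (b 0) i.succ) / lin y (a (b 0))
  let Bm : Matrix (Fin e ⊕ Fin n) (Fin e ⊕ Fin n) F := Matrix.fromBlocks 1 Cm 0 Jm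
  let B' : Matrix (Fin (e + n)) (Fin (e + n)) F :=
    Bm.submatrix finSumFinEquiv.symm finSumFinEquiv.symm
  have hB' : B'.det = Jm.det := by
    show (Bm.submatrix finSumFinEquiv.symm finSumFinEquiv.symm).det = _
    rw [Matrix.det_submatrix_equiv_self, Matrix.det_fromBlocks_zero₂₁, Matrix.det_one, one_mul]
  have hJ : (∏ j, lin y (a (b j))) * Jm.det = algebraMap K F (mnr a b) := by
    have h := detJ (Matrix.of fun i j => algebraMap K F (a (b i) j)) y
      (fun i => lin y (a (b i))) (fun i => rfl) (fun i => hne _)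
    refine h.trans ?_
    unfold mnr
    rw [RingHom.map_det]
    rfl
  have hM : (Matrix.of fun i => Fin.append (fun j => E i (algebraMap K F (r j)))
      (fun j => E i (zz y a b j) / zz y a b j) : Matrix (Fin (e + n)) (Fin (e + n)) F) =
      (Matrix.of fun i j => E i (cor r y j)) * B' := by
    ext i x
    rw [Matrix.mul_apply, Fin.sum_univ_add]
    have hc1 : ∀ m : Fin e, cor r y (Fin.castAdd n m) = algebraMap K F (r m) := fun m => by
      unfold cor
      rw [Fin.append_left]
    have hc2 : ∀ l : Fin n, cor r y (Fin.natAdd e l) = y l := fun l => by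
      unfold cor
      rw [Fin.append_right]
    simp only [Matrix.of_apply, hc1, hc2]
    refine Fin.addCases (fun m => ?_) (fun j => ?_) x
    · rw [Fin.append_left]
      have h1 : ∀ m' : Fin e, B' (Fin.castAdd n m') (Fin.castAdd n m) = if m' = m then 1 else 0 := by
        intro m'
        show Bm (finSumFinEquiv.symm (Fin.castAdd n m')) (finSumFinEquiv.symm (Fin.castAdd n m)) = _
        rw [finSumFinEquiv_symm_apply_castAdd, finSumFinEquiv_symm_apply_castAdd]
        show (1 : Matrix (Fin e) (Fin e) F) m' m = _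
        rw [Matrix.one_apply]
      have h2 : ∀ l : Fin n, B' (Fin.natAdd e l) (Fin.castAdd n m) = 0 := by
        intro l
        show Bm (finSumFinEquiv.symm (Fin.natAdd e l)) (finSumFinEquiv.symm (Fin.castAdd n m)) = _
        rw [finSumFinEquiv_symm_apply_castAdd, finSumFinEquiv_symm_apply_natAdd]
        rfl
      simp only [h1, h2, mul_zero, Finset.sum_const_zero, add_zero, mul_ite, mul_one,
        Finset.sum_ite_eq', Finset.mem_univ, if_true]
    · rw [Fin.append_right]
      have h1 : ∀ m' : Fin e, B' (Fin.castAdd n m') (Fin.natAdd e j) = Cm m' j := by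
        intro m'
        show Bm (finSumFinEquiv.symm (Fin.castAdd n m')) (finSumFinEquiv.symm (Fin.natAdd e j)) = _
        rw [finSumFinEquiv_symm_apply_castAdd, finSumFinEquiv_symm_apply_natAdd]
        rfl
      have h2 : ∀ l : Fin n, B' (Fin.natAdd e l) (Fin.natAdd e j) = Jm l j := by
        intro l
        show Bm (finSumFinEquiv.symm (Fin.natAdd e l)) (finSumFinEquiv.symm (Fin.natAdd e j)) = _
        rw [finSumFinEquiv_symm_apply_natAdd, finSumFinEquiv_symm_apply_natAdd]
        rfl
      simp only [h1, h2]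
      unfold zz
      rw [log_div (E i) (hne _) (hne _), hlin, hlin]
      simp only [Cm, Jm, Matrix.of_apply, mul_sub, Finset.sum_sub_distrib, add_div,
        Finset.sum_div, mul_div_assoc]
      ring
  have hfin : Matrix.det (fun i => Fin.append (fun j => E i (algebraMap K F (r j)))
      (fun j => E i (zz y a b j) / zz y a b j)) =
      Matrix.det (fun i j => E i (cor r y j)) * Jm.det := by
    rw [← hB', ← Matrix.det_mul]
    exact congrArg Matrix.det hM
  rw [hfin, one_mul, ← hJ]
  ring

end Pool.Agent.Work.MP_a2680c_ag.HA
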