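import Pool.Agent.Work.MP_a2680c_ag.HA.StmtsG

/-! Item [a2680c HA Keg] (helper86): the key identity of a cover. -/

set_option autoImplicit false

noncomputable section

namespace Pool.Agent.Work.MP_a2680c_ag.HA

open MP7b66e6 MP7b66e6.Q
open scoped BigOperators

universe u

namespace XKeg

/-- a valuation over another one: values of constants -/
theorem val_zero {K K' : Type u} [Field K] [Field K'] [Algebra K K'] {ν' : AddValuation K' (WithTop ℤ)}
    (h0 : ∀ c : K, 0 ≤ ν' (algebraMap K K' c)) {c : K} (hc : c ≠ 0) : val ν' (algebraMap K K' c) = 0 :=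
  Api.val_of ν' (m := 0) (Api.val_algebraMap (k := K) (K := K') h0 hc)

theorem ev_push_zero {K K' : Type u} [Field K] [Field K'] [Algebra K K'] {ν' : AddValuation K' (WithTop ℤ)}
    (h0 : ∀ c : K, c ≠ 0 → val ν' (algebraMap K K' c) = 0) (φ : Kˣ →₀ ℝ) : ev ν' (push K K' φ) = 0 := by
  rw [Api.ev_push]
  apply Finset.sum_eq_zero
  intro s _
  change φ s * ((val ν' (algebraMap K K' (s : K)) : ℤ) : ℝ) = 0
  rw [h0 (s : K) s.ne_zero]
  simp

theorem ordP_one {K F : Type u} [Field K] [Field F] [Algebra K F] {n : ℕ} {y : Fin n → F}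
    {p : MvPolynomial (Fin n) K} {ν : AddValuation F (WithTop ℤ)} (h : OrdP y p ν) :
    ν (MvPolynomial.aeval y p) = 1 := by
  obtain ⟨hp, hv⟩ := h
  have h1 := (hv p 1).2 (by rw [pow_one])
  have h2 : ¬ (((2 : ℕ) : ℤ) : WithTop ℤ) ≤ ν (MvPolynomial.aeval y p) := by
    intro h2
    have h3 : p ^ 2 ∣ p := (hv p 2).1 h2
    have h4 : p * p ∣ p * 1 := by rw [mul_one, ← sq]; exact h3
    exact hp.not_isUnit (isUnit_of_dvd_one ((mul_dvd_mul_iff_left hp.ne_zero).1 h4))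
  have hne : MvPolynomial.aeval y p ≠ 0 := by
    intro h0
    rw [h0, AddValuation.map_zero] at h2
    exact h2 le_top
  rw [Api.coe_val ν hne] at h1 h2 ⊢
  have h1' : ((1 : ℕ) : ℤ) ≤ val ν (MvPolynomial.aeval y p) := WithTop.coe_le_coe.1 h1
  have h2' : ¬ ((2 : ℕ) : ℤ) ≤ val ν (MvPolynomial.aeval y p) := fun h => h2 (WithTop.coe_le_coe.2 h)
  have : val ν (MvPolynomial.aeval y p) = 1 := by
    push_cast at h1' h2'
    omega
  rw [this]
  rfl

theorem ordP_const {K F : Type u} [Field K] [Field F] [Algebra K F] {n : ℕ} {y : Fin n → F}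
    {p : MvPolynomial (Fin n) K} {ν : AddValuation F (WithTop ℤ)} (h : OrdP y p ν) (c : K) :
    0 ≤ ν (algebraMap K F c) := by
  have := (h.2 (MvPolynomial.C c) 0).2 (by simp)
  simpa using this

theorem ordI_const {K F : Type u} [Field K] [Field F] [Algebra K F] {n : ℕ} {y : Fin n → F}
    {ν : AddValuation F (WithTop ℤ)} (h : OrdI K y ν) (c : K) : 0 ≤ ν (algebraMap K F c) := by
  by_cases hc : c = 0
  · rw [hc, map_zero, AddValuation.map_zero]; exact le_top
  have := h (MvPolynomial.C c) (by simpa using hc)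
  rw [MvPolynomial.totalDegree_C] at this
  simp only [MvPolynomial.algHom_C] at this
  rw [this]
  simp

theorem ordI_one {K F : Type u} [Field K] [Field F] [Algebra K F] {n : ℕ} {y : Fin n → F}
    {ν : AddValuation F (WithTop ℤ)} (h : OrdI K y ν) (hn : 1 ≤ n) : ∃ π : F, ν π = 1 := by
  have h1 := h (MvPolynomial.X ⟨0, hn⟩) (MvPolynomial.X_ne_zero _)
  rw [MvPolynomial.totalDegree_X, MvPolynomial.aeval_X] at h1
  have hne : y ⟨0, hn⟩ ≠ 0 := by
    intro h0
    rw [h0, AddValuation.map_zero] at h1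
    exact WithTop.top_ne_coe h1
  refine ⟨(y ⟨0, hn⟩)⁻¹, ?_⟩
  rw [Api.coe_val ν (inv_ne_zero hne), Api.val_inv ν hne, Api.val_of ν h1]
  rfl

end XKeg

theorem pr_Keg (hTbs : StTbs.{u}) (hTbx : StTbx.{u}) (hTb : StTb.{u}) (hCan : StCan.{u}) (hGrm : StGrm.{u})
    (hPdd : StPdd.{u}) (hOrd : StOrd.{u}) (hHor : StHor.{u}) (hJac : StJac.{u}) (hFac : StFac.{u}) (hEff : StEff.{u})
    (hRmf : StRmf.{u}) (hJcb : StJcb.{u}) (hUpd : StUpd.{u}) : StKeg.{u} := by
  classical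
  intro κ k K F K' F' _ _ _ _ _ _ _ _ _ _ _ _ _ _ _ _ _ _ _ _ _ _ _ _ δ e n N I r x y Z X D L a d hn hF hC
  have hEK : Algebra.EssFiniteType k K := (hGrm k K Z hF.vz).1
  have hEF : Algebra.EssFiniteType k F := (hGrm k F X hF.vx).1
  have hTbs' := hTbs k K K' e r hF.basis
  have hr' := hTbs'.1
  have hEK' : Algebra.EssFiniteType k K' := hTbs'.2 hEK
  have hG : GenBy K' y := ⟨hC.indep, hC.gen⟩
  obtain ⟨hbx, hbx', hby, hEF'⟩ := hTbx k K F K' F' e n r x y hEK hF.basis hG hC.base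
  have : Algebra.EssFiniteType k F' := hEF'
  obtain ⟨J, hJ⟩ := hJcb k F' (e + n) (up F' (cor r x)) (cor (up K' r) y) hbx' hby
  have hlin : ∀ i, lin y (a i) ≠ 0 := (hJac k K' F' e n N (up K' r) y a hr' hG hC.nz).1
  obtain ⟨Φ, hΦ⟩ := hF.triv
  obtain ⟨Θ, hΘ⟩ : ∃ Θ : F'ˣ →₀ ℝ, ∀ W' : AddValuation F' (WithTop ℤ),
      ev W' (push F F' Φ) = ev W' Θ + val W' (J : F') + ∑ i, d i * (val W' (lin y (a i)) : ℝ) := by
    refine ⟨push F F' Φ - Finsupp.single J 1 - ∑ i, Finsupp.single (Units.mk0 (lin y (a i)) (hlin i)) (d i), ?_⟩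
    intro W'
    rw [Api.ev_sub, Api.ev_sub, Api.ev_sum, Api.ev_single]
    have : ∑ i, ev W' (Finsupp.single (Units.mk0 (lin y (a i)) (hlin i)) (d i)) =
        ∑ i, d i * (val W' (lin y (a i)) : ℝ) := by
      apply Finset.sum_congr rfl
      intro i _
      rw [Api.ev_single]
      rfl
    rw [this]
    ring
  obtain ⟨pd, hdual⟩ := (hTb k F (e + n) (cor r x) hbx).1
  -- the horizontal divisors
  have hhor : ∀ (ν' : AddValuation F' (WithTop ℤ)) (ν : AddValuation F (WithTop ℤ)) (ε : ℕ) (B : ℤ),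
      (∀ c : K', 0 ≤ ν' (algebraMap K' F' c)) → (∃ π : F', ν' π = 1) → PD X ν → Lies ν ν' ε →
      (Divisorial k ν' → LogDisc k ν' (cor (up K' r) y) B) →
      ev ν' (push F F' Φ) = B + (val ν' (J : F') : ℝ) - ε * (1 - D ν) := by
    intro ν' ν ε B h0 hπ hPD hL hB
    obtain ⟨hdiv, O, hO, _, hring⟩ := hPdd k F X hF.vx ν hPD
    have hdiv' : Divisorial k ν' := hUpd k F F' ν ν' ε hdiv hL hπ
    have h1 := hJ ν' B (hB hdiv')
    obtain ⟨A, hA⟩ := (hCan k F (e + n) (cor r x) ν).2 pd hdual hdiv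
    have h2 := hRmf k F F' (e + n) (cor r x) pd hdual ν ν' ε hdiv hdiv' hL A hA
    have h3 : (ε : ℤ) * A = B + val ν' (J : F') := Api.logDisc_unique h2 h1
    have h4 : can k (cor r x) ν = (A : ℝ) - 1 := Api.can_eq hA
    obtain ⟨P, hP, hdom⟩ := hF.mor O hO
    obtain ⟨φ, hφ⟩ := hF.carL P hP
    have h5 := hΦ O hO P hP hdom φ hφ ν ⟨hPD, fun f hf => (hring f).1 hf⟩
    have h6 : ∀ c : K, c ≠ 0 → val ν (algebraMap K F c) = 0 := by
      intro c hc
      have hc1 : algebraMap K F c ≠ 0 := by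
        rw [map_ne_zero_iff _ (algebraMap K F).injective]; exact hc
      have hc2 : algebraMap K K' c ≠ 0 := by
        rw [map_ne_zero_iff _ (algebraMap K K').injective]; exact hc
      have e1 := hL.2 (algebraMap K F c) hc1
      rw [← IsScalarTower.algebraMap_apply K F F', IsScalarTower.algebraMap_apply K K' F',
        XKeg.val_zero h0 hc2] at e1
      have e2 : (ε : ℤ) ≠ 0 := by exact_mod_cast hL.1.ne'
      rcases mul_eq_zero.1 e1.symm with h | h
      · exact absurd h e2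
      · exact h
    rw [XKeg.ev_push_zero h6, zero_add, h4] at h5
    rw [Api.ev_push_lies hL, ← h5]
    have h7 : ((ε : ℝ)) * (A : ℝ) = (B : ℝ) + (val ν' (J : F') : ℝ) := by exact_mod_cast h3
    linear_combination h7
  have h1 : ∀ (p : MvPolynomial (Fin n) K') (ν' : AddValuation F' (WithTop ℤ)), OrdP y p ν' → ev ν' Θ = 0 := by
    intro p ν' hp
    obtain ⟨ν, ε, hPD, hL, hD⟩ := hC.fin p ν' hp
    have h2 := hhor ν' ν ε 1 (XKeg.ordP_const hp) ⟨_, XKeg.ordP_one hp⟩ hPD hL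
      (fun hd => (hHor k K' F' e n (up K' r) y hr' hG).1 p ν' hp hd)
    have h3 := hΘ ν'
    push_cast at h2
    linarith
  obtain ⟨Ξ, hΞ⟩ := hFac K' F' n y hG Θ h1
  refine ⟨Ξ, J, ?_, hJ, ?_⟩
  · obtain ⟨ν', hν'⟩ := (hOrd K' F' n y hG).2
    obtain ⟨ν, ε, hPD, hL, hD⟩ := hC.inf ν' hν'
    have h2 := hhor ν' ν ε (-(n : ℤ)) (XKeg.ordI_const hν') (XKeg.ordI_one hν' hn) hPD hL
      (fun hd => (hHor k K' F' e n (up K' r) y hr' hG).2 hn ν' hν' hd)
    have h3 := hΘ ν'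
    have h4 : ev ν' Θ = 0 := by
      rw [hΞ ν']
      exact XKeg.ev_push_zero (fun c hc => XKeg.val_zero (XKeg.ordI_const hν') hc) Ξ
    have h5 : ∑ i, d i * (1 + (val ν' (lin y (a i)) : ℝ)) = ∑ i, d i + ∑ i, d i * (val ν' (lin y (a i)) : ℝ) := by
      rw [← Finset.sum_add_distrib]
      apply Finset.sum_congr rfl
      intro i _
      ring
    rw [h5] at hD
    push_cast at h2
    linarith
  · intro O hO P hP hdom φ hφ ψ hψ W' hW'
    have hr : ∀ ν : AddValuation F (WithTop ℤ), PDat X O ν → ev ν ψ = ev ν (push K F φ) + ev ν Φ := by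
      intro ν hν
      rw [← hψ ν hν]
      exact hΦ O hO P hP hdom φ hφ ν hν
    have hW : ∀ f ∈ O, 0 ≤ Api.res F W' f := hW'
    have h4 : 0 ≤ ev (Api.res F W') (ψ - (push K F φ + Φ)) := by
      refine hEff k F X hF.vx (e + n) (cor r x) hbx O hO _ ?_ (Api.res F W') hW
      intro μ hμ
      rw [Api.ev_sub, Api.ev_add, hr μ hμ, sub_self]
    have h5 : 0 ≤ ev (Api.res F W') ((push K F φ + Φ) - ψ) := by
      refine hEff k F X hF.vx (e + n) (cor r x) hbx O hO _ ?_ (Api.res F W') hW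
      intro μ hμ
      rw [Api.ev_sub, Api.ev_add, hr μ hμ, sub_self]
    rw [Api.ev_sub, Api.ev_add, Api.ev_res, Api.ev_res, Api.ev_res, Api.ev_push_push] at h4 h5
    have h6 := hΘ W'
    rw [hΞ W'] at h6
    linarith

end Pool.Agent.Work.MP_a2680c_ag.HA
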