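import Pool.Agent.Work.MP_a2680c_ag.HA.StmtsW
import Pool.Agent.Work.MP_a2680c_ag.HA.I_Keg

/-! Item [a2680c HA Keb] (after I_Keg and I_Kev): the key identity of a cover for a b-fibration. -/

set_option autoImplicit false

noncomputable section

namespace Pool.Agent.Work.MP_a2680c_ag.HA

open MP7b66e6 MP7b66e6.Q
open scoped BigOperators

universe u

theorem pr_Keb (hTbs : StTbs.{u}) (hTfr : StTfr.{u}) (hTb : StTb.{u}) (hCan : StCan.{u}) (hGrm : StGrm.{u})
    (hGpt : StGpt.{u}) (hOrd : StOrd.{u}) (hHor : StHor.{u}) (hJac : StJac.{u}) (hFac : StFac.{u})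
    (hRmf : StRmf.{u}) (hJcb : StJcb.{u}) (hUpd : StUpd.{u}) (hWdl : StWdl.{u}) : StKeb.{u} := by
  classical
  intro κ k K F K' F' _ _ _ _ _ _ _ _ _ _ _ _ _ _ _ _ _ _ _ _ _ _ _ _ δ e n N I r c y Z 𝔻 L Φ a d hn hF hC
  have hEK : Algebra.EssFiniteType k K := (hGrm k K Z hF.vz).1
  have hEF : Algebra.EssFiniteType k F := hF.ess
  have hTbs' := hTbs k K K' e r hF.basis
  have hr' := hTbs'.1
  have hEK' : Algebra.EssFiniteType k K' := hTbs'.2 hEK
  have hG : GenBy K' y := ⟨hC.indep, hC.gen⟩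
  have hbx : IsTranscendenceBasis k c := hF.basisF
  have hTF := hTbs k F F' (e + n) c hbx
  have hby := (hTfr k K' F' e n (up K' r) y hr' hG).2.2
  have : Algebra.EssFiniteType k F' := hTF.2 hEF
  obtain ⟨J, hJ⟩ := hJcb k F' (e + n) (up F' c) (cor (up K' r) y) hTF.1 hby
  have hlin : ∀ i, lin y (a i) ≠ 0 := (hJac k K' F' e n N (up K' r) y a hr' hG hC.nz).1
  obtain ⟨Θ, hΘ⟩ : ∃ Θ : F'ˣ →₀ ℝ, ∀ W' : AddValuation F' (WithTop ℤ),
      ev W' (push F F' Φ) = ev W' Θ + val W' (J : F') + ∑ i, d i * (val W' (lin y (a i)) : ℝ) := by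
    refine ⟨push F F' Φ - Finsupp.single J 1 - ∑ i, Finsupp.single (Units.mk0 (lin y (a i)) (hlin i)) (d i), ?_⟩
    intro W'
    rw [Api.ev_sub, Api.ev_sub, Api.ev_sum, Api.ev_single]
    have : ∑ i, ev W' (Finsupp.single (Units.mk0 (lin y (a i)) (hlin i)) (d i)) =
        ∑ i, d i * (val W' (lin y (a i)) : ℝ) := by
      apply Finset.sum_congr rfl
      intro i _
      rw [Api.ev_single]
      rfl
    rw [this]
    ring
  obtain ⟨pd, hdual⟩ := (hTb k F (e + n) c hbx).1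
  have htop : (⊤ : Subalgebra k K) ∈ Z := hGpt k K Z hF.vz
  obtain ⟨φ, hφ⟩ := hF.carL ⊤ htop
  -- the horizontal divisors
  have hhor : ∀ (ν' : AddValuation F' (WithTop ℤ)) (ν : AddValuation F (WithTop ℤ)) (ε : ℕ) (B : ℤ),
      (∀ c : K', 0 ≤ ν' (algebraMap K' F' c)) → (∃ π : F', ν' π = 1) → Divisorial k ν → Lies ν ν' ε →
      (Divisorial k ν' → LogDisc k ν' (cor (up K' r) y) B) →
      ev ν' (push F F' Φ) = B + (val ν' (J : F') : ℝ) - ε * (1 - 𝔻 ν) := by
    intro ν' ν ε B h0 hπ hdiv hL hB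
    have hdiv' : Divisorial k ν' := hUpd k F F' ν ν' ε hdiv hL hπ
    have h1 := hJ ν' B (hB hdiv')
    obtain ⟨A, hA⟩ := (hCan k F (e + n) c ν).2 pd hdual hdiv
    have h2 := hRmf k F F' (e + n) c pd hdual ν ν' ε hdiv hdiv' hL A hA
    have h3 : (ε : ℤ) * A = B + val ν' (J : F') := Api.logDisc_unique h2 h1
    have h4 : can k c ν = (A : ℝ) - 1 := Api.can_eq hA
    have h6 : ∀ c : K, c ≠ 0 → val ν (algebraMap K F c) = 0 := by
      intro c hc
      have hc1 : algebraMap K F c ≠ 0 := by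
        rw [map_ne_zero_iff _ (algebraMap K F).injective]; exact hc
      have hc2 : algebraMap K K' c ≠ 0 := by
        rw [map_ne_zero_iff _ (algebraMap K K').injective]; exact hc
      have e1 := hL.2 (algebraMap K F c) hc1
      rw [← IsScalarTower.algebraMap_apply K F F', IsScalarTower.algebraMap_apply K K' F',
        XKeg.val_zero h0 hc2] at e1
      have e2 : (ε : ℤ) ≠ 0 := by exact_mod_cast hL.1.ne'
      rcases mul_eq_zero.1 e1.symm with h | h
      · exact absurd h e2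
      · exact h
    have h7 : ∀ f : K, 0 ≤ ν (algebraMap K F f) := by
      intro f
      by_cases hf : f = 0
      · rw [hf, map_zero, AddValuation.map_zero]; exact le_top
      · have hf1 : algebraMap K F f ≠ 0 := by
          rw [map_ne_zero_iff _ (algebraMap K F).injective]; exact hf
        rw [← Api.val_nonneg ν hf1, h6 f hf]
    have h8 := hF.triv ν hdiv ⟨⊤, htop, fun f _ => h7 f⟩
    have h9 : Lv Z L (Api.res K ν) = 0 := by
      rw [hWdl k K Z hF.vz e r hF.basis L ⊤ htop φ hφ (Api.res K ν) (fun f _ => h7 f), Api.ev_res]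
      exact XKeg.ev_push_zero h6 φ
    rw [h4, h9, zero_add] at h8
    rw [Api.ev_push_lies hL, ← h8]
    have h10 : ((ε : ℝ)) * (A : ℝ) = (B : ℝ) + (val ν' (J : F') : ℝ) := by exact_mod_cast h3
    linear_combination h10
  have h1 : ∀ (p : MvPolynomial (Fin n) K') (ν' : AddValuation F' (WithTop ℤ)), OrdP y p ν' → ev ν' Θ = 0 := by
    intro p ν' hp
    obtain ⟨ν, ε, hPD, hL, hD⟩ := hC.fin p ν' hp
    have h2 := hhor ν' ν ε 1 (XKeg.ordP_const hp) ⟨_, XKeg.ordP_one hp⟩ hPD hL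
      (fun hd => (hHor k K' F' e n (up K' r) y hr' hG).1 p ν' hp hd)
    have h3 := hΘ ν'
    push_cast at h2
    linarith
  obtain ⟨Ξ, hΞ⟩ := hFac K' F' n y hG Θ h1
  refine ⟨Ξ, J, ?_, hJ, ?_⟩
  · obtain ⟨ν', hν'⟩ := (hOrd K' F' n y hG).2
    obtain ⟨ν, ε, hPD, hL, hD⟩ := hC.inf ν' hν'
    have h2 := hhor ν' ν ε (-(n : ℤ)) (XKeg.ordI_const hν') (XKeg.ordI_one hν' hn) hPD hL
      (fun hd => (hHor k K' F' e n (up K' r) y hr' hG).2 hn ν' hν' hd)
    have h3 := hΘ ν'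
    have h4 : ev ν' Θ = 0 := by
      rw [hΞ ν']
      exact XKeg.ev_push_zero (fun c hc => XKeg.val_zero (XKeg.ordI_const hν') hc) Ξ
    have h5 : ∑ i, d i * (1 + (val ν' (lin y (a i)) : ℝ)) = ∑ i, d i + ∑ i, d i * (val ν' (lin y (a i)) : ℝ) := by
      rw [← Finset.sum_add_distrib]
      apply Finset.sum_congr rfl
      intro i _
      ring
    rw [h5] at hD
    push_cast at h2
    linarith
  · intro W'
    have h6 := hΘ W'
    rw [hΞ W'] at h6
    linarith

end Pool.Agent.Work.MP_a2680c_ag.HA
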