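import Pool.Agent.Work.MP_a2680c_ag.HA.StmtsG
import Pool.Agent.Work.MP_a2680c_ag.HA.DefsV
import Pool.Agent.Work.MP_a2680c_ag.HA.I_Keg

/-! [a2680c HA Kev] (helper9, after helper86's I_Keg): the key identity of a crepant cover in the birational sense. -/

set_option autoImplicit false

noncomputable section

namespace Pool.Agent.Work.MP_a2680c_ag.HA

open MP7b66e6 MP7b66e6.Q
open scoped BigOperators

universe u

/-- the key identity of a crepant cover in the birational sense -/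
def StKev : Prop := ∀ (κ : Prop) (k K F K' F' : Type u) [Field k] [CharZero k] [Field K] [Field F] [Field K'] [Field F']
  [Algebra k K] [Algebra k F] [Algebra k K'] [Algebra k F'] [Algebra K F] [Algebra K K'] [Algebra K F'] [Algebra F F']
  [Algebra K' F'] [IsScalarTower k K F] [IsScalarTower k K K'] [IsScalarTower k F F'] [IsScalarTower k K' F']
  [IsScalarTower K F F'] [IsScalarTower K K' F'] [FiniteDimensional K K'] [FiniteDimensional F F'] [IsGalois F F']
  (δ e n N : ℕ) (I : Set ℝ) (r : Fin e → K) (x : Fin n → F) (y : Fin n → F') (Z : Set (Subalgebra k K))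
  (X : Set (Subalgebra k F)) (D : AddValuation F (WithTop ℤ) → ℝ) (L : AddValuation K (WithTop ℤ) → ℝ)
  (a : Fin N → Fin (n + 1) → K') (d : Fin N → ℝ), 1 ≤ n → Fib κ I r x Z X D L → Cvb δ I r x y X D a d →
  ∃ (Ξ : K'ˣ →₀ ℝ) (J : F'ˣ), KeyG r x y Z X D L a d Ξ J


theorem pr_Kev (hTbs : StTbs.{u}) (hTbx : StTbx.{u}) (hTb : StTb.{u}) (hCan : StCan.{u}) (hGrm : StGrm.{u})
    (hPdd : StPdd.{u}) (hOrd : StOrd.{u}) (hHor : StHor.{u}) (hJac : StJac.{u}) (hFac : StFac.{u}) (hEff : StEff.{u})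
    (hRmf : StRmf.{u}) (hJcb : StJcb.{u}) (hUpd : StUpd.{u}) : StKev.{u} := by
  classical
  intro κ k K F K' F' _ _ _ _ _ _ _ _ _ _ _ _ _ _ _ _ _ _ _ _ _ _ _ _ δ e n N I r x y Z X D L a d hn hF hC
  have hEK : Algebra.EssFiniteType k K := (hGrm k K Z hF.vz).1
  have hEF : Algebra.EssFiniteType k F := (hGrm k F X hF.vx).1
  have hTbs' := hTbs k K K' e r hF.basis
  have hr' := hTbs'.1
  have hEK' : Algebra.EssFiniteType k K' := hTbs'.2 hEK
  have hG : GenBy K' y := ⟨hC.indep, hC.gen⟩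
  obtain ⟨hbx, hbx', hby, hEF'⟩ := hTbx k K F K' F' e n r x y hEK hF.basis hG hC.base
  have : Algebra.EssFiniteType k F' := hEF'
  obtain ⟨J, hJ⟩ := hJcb k F' (e + n) (up F' (cor r x)) (cor (up K' r) y) hbx' hby
  have hlin : ∀ i, lin y (a i) ≠ 0 := (hJac k K' F' e n N (up K' r) y a hr' hG hC.nz).1
  obtain ⟨Φ, hΦ⟩ := hF.triv
  obtain ⟨Θ, hΘ⟩ : ∃ Θ : F'ˣ →₀ ℝ, ∀ W' : AddValuation F' (WithTop ℤ),
      ev W' (push F F' Φ) = ev W' Θ + val W' (J : F') + ∑ i, d i * (val W' (lin y (a i)) : ℝ) := by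
    refine ⟨push F F' Φ - Finsupp.single J 1 - ∑ i, Finsupp.single (Units.mk0 (lin y (a i)) (hlin i)) (d i), ?_⟩
    intro W'
    rw [Api.ev_sub, Api.ev_sub, Api.ev_sum, Api.ev_single]
    have : ∑ i, ev W' (Finsupp.single (Units.mk0 (lin y (a i)) (hlin i)) (d i)) =
        ∑ i, d i * (val W' (lin y (a i)) : ℝ) := by
      apply Finset.sum_congr rfl
      intro i _
      rw [Api.ev_single]
      rfl
    rw [this]
    ring
  obtain ⟨pd, hdual⟩ := (hTb k F (e + n) (cor r x) hbx).1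
  -- the horizontal divisors
  have hhor : ∀ (ν' : AddValuation F' (WithTop ℤ)) (ν : AddValuation F (WithTop ℤ)) (ε : ℕ) (B : ℤ) (A₀ : ℝ),
      (∀ c : K', 0 ≤ ν' (algebraMap K' F' c)) → (∃ π : F', ν' π = 1) → LDis r x X D ν A₀ → Lies ν ν' ε →
      (Divisorial k ν' → LogDisc k ν' (cor (up K' r) y) B) →
      ev ν' (push F F' Φ) = B + (val ν' (J : F') : ℝ) - ε * A₀ := by
    intro ν' ν ε B A₀ h0 hπ hPD hL hB
    obtain ⟨hdiv, O, hO, hcen, ψ, hψ, hA₀⟩ := hPD
    have hdiv' : Divisorial k ν' := hUpd k F F' ν ν' ε hdiv hL hπ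
    have h1 := hJ ν' B (hB hdiv')
    obtain ⟨A, hA⟩ := (hCan k F (e + n) (cor r x) ν).2 pd hdual hdiv
    have h2 := hRmf k F F' (e + n) (cor r x) pd hdual ν ν' ε hdiv hdiv' hL A hA
    have h3 : (ε : ℤ) * A = B + val ν' (J : F') := Api.logDisc_unique h2 h1
    have h4 : can k (cor r x) ν = (A : ℝ) - 1 := Api.can_eq hA
    obtain ⟨P, hP, hdom⟩ := hF.mor O hO
    obtain ⟨φ, hφ⟩ := hF.carL P hP
    have h5 : ev ν ψ = ev ν (push K F φ) + ev ν Φ := by
      have hr : ∀ μ : AddValuation F (WithTop ℤ), PDat X O μ → ev μ ψ = ev μ (push K F φ) + ev μ Φ := by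
        intro μ hμ
        rw [← hψ μ hμ]
        exact hΦ O hO P hP hdom φ hφ μ hμ
      have g4 : 0 ≤ ev ν (ψ - (push K F φ + Φ)) := by
        refine hEff k F X hF.vx (e + n) (cor r x) hbx O hO _ ?_ ν hcen.1
        intro μ hμ
        rw [Api.ev_sub, Api.ev_add, hr μ hμ, sub_self]
      have g5 : 0 ≤ ev ν ((push K F φ + Φ) - ψ) := by
        refine hEff k F X hF.vx (e + n) (cor r x) hbx O hO _ ?_ ν hcen.1
        intro μ hμ
        rw [Api.ev_sub, Api.ev_add, hr μ hμ, sub_self]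
      rw [Api.ev_sub, Api.ev_add] at g4 g5
      linarith
    have h6 : ∀ c : K, c ≠ 0 → val ν (algebraMap K F c) = 0 := by
      intro c hc
      have hc1 : algebraMap K F c ≠ 0 := by
        rw [map_ne_zero_iff _ (algebraMap K F).injective]; exact hc
      have hc2 : algebraMap K K' c ≠ 0 := by
        rw [map_ne_zero_iff _ (algebraMap K K').injective]; exact hc
      have e1 := hL.2 (algebraMap K F c) hc1
      rw [← IsScalarTower.algebraMap_apply K F F', IsScalarTower.algebraMap_apply K K' F',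
        XKeg.val_zero h0 hc2] at e1
      have e2 : (ε : ℤ) ≠ 0 := by exact_mod_cast hL.1.ne'
      rcases mul_eq_zero.1 e1.symm with h | h
      · exact absurd h e2
      · exact h
    rw [XKeg.ev_push_zero h6, zero_add] at h5
    rw [h4, h5] at hA₀
    rw [Api.ev_push_lies hL, hA₀]
    have h7 : ((ε : ℝ)) * (A : ℝ) = (B : ℝ) + (val ν' (J : F') : ℝ) := by exact_mod_cast h3
    linear_combination h7
  have h1 : ∀ (p : MvPolynomial (Fin n) K') (ν' : AddValuation F' (WithTop ℤ)), OrdP y p ν' → ev ν' Θ = 0 := by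
    intro p ν' hp
    obtain ⟨ν, ε, A₀, hPD, hL, hD⟩ := hC.fin p ν' hp
    have h2 := hhor ν' ν ε 1 A₀ (XKeg.ordP_const hp) ⟨_, XKeg.ordP_one hp⟩ hPD hL
      (fun hd => (hHor k K' F' e n (up K' r) y hr' hG).1 p ν' hp hd)
    have h3 := hΘ ν'
    push_cast at h2
    linarith
  obtain ⟨Ξ, hΞ⟩ := hFac K' F' n y hG Θ h1
  refine ⟨Ξ, J, ?_, hJ, ?_⟩
  · obtain ⟨ν', hν'⟩ := (hOrd K' F' n y hG).2
    obtain ⟨ν, ε, A₀, hPD, hL, hD⟩ := hC.inf ν' hν'
    have h2 := hhor ν' ν ε (-(n : ℤ)) A₀ (XKeg.ordI_const hν') (XKeg.ordI_one hν' hn) hPD hL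
      (fun hd => (hHor k K' F' e n (up K' r) y hr' hG).2 hn ν' hν' hd)
    have h3 := hΘ ν'
    have h4 : ev ν' Θ = 0 := by
      rw [hΞ ν']
      exact XKeg.ev_push_zero (fun c hc => XKeg.val_zero (XKeg.ordI_const hν') hc) Ξ
    have h5 : ∑ i, d i * (1 + (val ν' (lin y (a i)) : ℝ)) = ∑ i, d i + ∑ i, d i * (val ν' (lin y (a i)) : ℝ) := by
      rw [← Finset.sum_add_distrib]
      apply Finset.sum_congr rfl
      intro i _
      ring
    rw [h5] at hD
    push_cast at h2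
    linarith
  · intro O hO P hP hdom φ hφ ψ hψ W' hW'
    have hr : ∀ ν : AddValuation F (WithTop ℤ), PDat X O ν → ev ν ψ = ev ν (push K F φ) + ev ν Φ := by
      intro ν hν
      rw [← hψ ν hν]
      exact hΦ O hO P hP hdom φ hφ ν hν
    have hW : ∀ f ∈ O, 0 ≤ Api.res F W' f := hW'
    have h4 : 0 ≤ ev (Api.res F W') (ψ - (push K F φ + Φ)) := by
      refine hEff k F X hF.vx (e + n) (cor r x) hbx O hO _ ?_ (Api.res F W') hW
      intro μ hμ
      rw [Api.ev_sub, Api.ev_add, hr μ hμ, sub_self]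
    have h5 : 0 ≤ ev (Api.res F W') ((push K F φ + Φ) - ψ) := by
      refine hEff k F X hF.vx (e + n) (cor r x) hbx O hO _ ?_ (Api.res F W') hW
      intro μ hμ
      rw [Api.ev_sub, Api.ev_add, hr μ hμ, sub_self]
    rw [Api.ev_sub, Api.ev_add, Api.ev_res, Api.ev_res, Api.ev_res, Api.ev_push_push] at h4 h5
    have h6 := hΘ W'
    rw [hΞ W'] at h6
    linarith

end Pool.Agent.Work.MP_a2680c_ag.HA
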