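import Pool.Agent.Work.MP_a2680c_ag.HA.StmtsD

/-! Item [a2680c HA Key] (helper9): the key identity. -/

set_option autoImplicit false

noncomputable section

namespace Pool.Agent.Work.MP_a2680c_ag.HA

open MP7b66e6 MP7b66e6.Q
open scoped BigOperators

universe u

namespace XKey

theorem lin_ne {K F : Type u} [Field K] [Field F] [Algebra K F] {n : ℕ} {y : Fin n → F}
    (hy : AlgebraicIndependent K y) {a : Fin (n + 1) → K} (ha : a ≠ 0) : lin y a ≠ 0 := by
  classical
  intro h
  let P : MvPolynomial (Fin n) K := MvPolynomial.C (a 0) + ∑ j, MvPolynomial.C (a j.succ) * MvPolynomial.X j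
  have hP : MvPolynomial.aeval y P = 0 := by
    rw [← h]
    simp [P, lin]
  have hP0 : P = 0 := (injective_iff_map_eq_zero _).1 hy P hP
  apply ha
  have c0 : a 0 = 0 := by
    have := congrArg (MvPolynomial.coeff 0) hP0
    simpa [P, MvPolynomial.coeff_C_mul, MvPolynomial.coeff_sum] using this
  have cj : ∀ j : Fin n, a j.succ = 0 := by
    intro j
    have := congrArg (MvPolynomial.coeff (Finsupp.single j 1)) hP0
    simp only [P, MvPolynomial.coeff_add, MvPolynomial.coeff_sum, MvPolynomial.coeff_C_mul, MvPolynomial.coeff_zero,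
      MvPolynomial.coeff_X'] at this
    rw [MvPolynomial.coeff_C, if_neg (by
      intro h0
      have := congrArg (fun f => f j) h0
      simp at this), zero_add] at this
    rw [Finset.sum_eq_single j] at this
    · simpa using this
    · intro i _ hij
      rw [if_neg, mul_zero]
      intro h1
      exact hij (Finsupp.single_left_injective one_ne_zero h1)
    · intro hj
      exact absurd (Finset.mem_univ j) hj
  funext i
  refine Fin.cases ?_ ?_ i
  · exact c0
  · exact cj

end XKey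

theorem pr_Key (hTb : StTb.{u}) (hTfr : StTfr.{u}) (hGrm : StGrm.{u}) (hPdd : StPdd.{u}) (hOrd : StOrd.{u})
    (hHor : StHor.{u}) (hFac : StFac.{u}) (hEff : StEff.{u}) : StKey.{u} := by
  classical
  intro κ k K F _ _ _ _ _ _ _ _ e n N I r y Z X D L a d hn hF hA
  haveI : Algebra.EssFiniteType k K := (hGrm k K Z hF.vz).1
  have hG : GenBy K y := ⟨hA.indep, hA.gen⟩
  have hlin : ∀ i, lin y (a i) ≠ 0 := fun i => XKey.lin_ne hA.indep (hA.nz i)
  obtain ⟨Φ, hΦ⟩ := hF.triv
  obtain ⟨Θ, hΘ⟩ : ∃ Θ : Fˣ →₀ ℝ, ∀ ν : AddValuation F (WithTop ℤ),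
      ev ν Φ = ev ν Θ + ∑ i, d i * (val ν (lin y (a i)) : ℝ) := by
    refine ⟨Φ - ∑ i, Finsupp.single (Units.mk0 (lin y (a i)) (hlin i)) (d i), ?_⟩
    intro ν
    rw [Api.ev_sub, Api.ev_sum]
    have : ∑ i, ev ν (Finsupp.single (Units.mk0 (lin y (a i)) (hlin i)) (d i)) =
        ∑ i, d i * (val ν (lin y (a i)) : ℝ) := by
      apply Finset.sum_congr rfl
      intro i _
      rw [Api.ev_single]
      rfl
    rw [this]
    ring
  have hpush : ∀ ν : AddValuation F (WithTop ℤ), (∀ c : K, 0 ≤ ν (algebraMap K F c)) → ∀ φ : Kˣ →₀ ℝ,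
      ev ν (push K F φ) = 0 := by
    intro ν h0 φ
    rw [Api.ev_push]
    apply Finset.sum_eq_zero
    intro s _
    have h1 : ν (algebraMap K F (s : K)) = 0 := Api.val_algebraMap (k := K) (K := F) h0 s.ne_zero
    have h2 : val ν (algebraMap K F (s : K)) = 0 := Api.val_of ν (m := 0) h1
    change φ s * ((val ν (algebraMap K F (s : K)) : ℤ) : ℝ) = 0
    rw [h2]
    simp
  have hhor : ∀ ν : AddValuation F (WithTop ℤ), PD X ν → (∀ c : K, 0 ≤ ν (algebraMap K F c)) →
      can k (cor r y) ν + D ν = ev ν Φ := by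
    intro ν hPD h0
    obtain ⟨_, O, hO, _, hring⟩ := hPdd k F X hF.vx ν hPD
    obtain ⟨P, hP, hdom⟩ := hF.mor O hO
    obtain ⟨φ, hφ⟩ := hF.carL P hP
    have := hΦ O hO P hP hdom φ hφ ν ⟨hPD, fun f hf => (hring f).1 hf⟩
    rw [hpush ν h0, zero_add] at this
    exact this
  have h1 : ∀ (p : MvPolynomial (Fin n) K) (ν : AddValuation F (WithTop ℤ)), OrdP y p ν → ev ν Θ = 0 := by
    intro p ν hp
    have h0 : ∀ c : K, 0 ≤ ν (algebraMap K F c) := by
      intro c
      have := (hp.2 (MvPolynomial.C c) 0).2 (by simp)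
      simpa using this
    obtain ⟨hPD, hD⟩ := hA.fin p ν hp
    have hc := hhor ν hPD h0
    have hl := (hHor k K F e n r y hF.basis hG).1 p ν hp (hPdd k F X hF.vx ν hPD).1
    rw [Api.can_eq hl, hD, hΘ ν] at hc
    push_cast at hc
    linarith
  obtain ⟨Ξ, hΞ⟩ := hFac K F n y hG Θ h1
  refine ⟨Ξ, ?_, ?_⟩
  · obtain ⟨ν, hν⟩ := (hOrd K F n y hG).2
    have h0 : ∀ c : K, 0 ≤ ν (algebraMap K F c) := by
      intro c
      by_cases hc : c = 0
      · rw [hc, map_zero, AddValuation.map_zero]; exact le_top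
      have := hν (MvPolynomial.C c) (by simpa using hc)
      rw [MvPolynomial.totalDegree_C] at this
      simp only [MvPolynomial.algHom_C] at this
      rw [this]
      simp
    obtain ⟨hPD, hD⟩ := hA.inf ν hν
    have hc := hhor ν hPD h0
    have hl := (hHor k K F e n r y hF.basis hG).2 hn ν hν (hPdd k F X hF.vx ν hPD).1
    rw [Api.can_eq hl, hD, hΘ ν, hΞ ν, hpush ν h0] at hc
    have h2 : ∑ i, d i * (1 + (val ν (lin y (a i)) : ℝ)) = ∑ i, d i + ∑ i, d i * (val ν (lin y (a i)) : ℝ) := by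
      rw [← Finset.sum_add_distrib]
      apply Finset.sum_congr rfl
      intro i _
      ring
    rw [h2] at hc
    push_cast at hc
    linarith
  · intro O hO P hP hdom φ hφ ψ hψ W hW
    have hb := (hTfr k K F e n r y hF.basis hG).2.2
    have hr : ∀ ν : AddValuation F (WithTop ℤ), PDat X O ν → ev ν ψ = ev ν (push K F φ) + ev ν Φ := by
      intro ν hν
      rw [← hψ ν hν]
      exact hΦ O hO P hP hdom φ hφ ν hν
    have h4 : 0 ≤ ev W (ψ - (push K F φ + Φ)) := by
      refine hEff k F X hF.vx (e + n) (cor r y) hb O hO _ ?_ W hW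
      intro μ hμ
      rw [Api.ev_sub, Api.ev_add, hr μ hμ, sub_self]
    have h5 : 0 ≤ ev W ((push K F φ + Φ) - ψ) := by
      refine hEff k F X hF.vx (e + n) (cor r y) hb O hO _ ?_ W hW
      intro μ hμ
      rw [Api.ev_sub, Api.ev_add, hr μ hμ, sub_self]
    rw [Api.ev_sub, Api.ev_add] at h4 h5
    have h6 := hΘ W
    rw [hΞ W] at h6
    linarith

end Pool.Agent.Work.MP_a2680c_ag.HA
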