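import Pool.Agent.Work.MP_a2680c_ag.HA.StmtsG

/-! Item [a2680c HA Krg]: a divisor of X over a prime divisor of Z, given a valuation over it. -/

set_option autoImplicit false

noncomputable section

namespace Pool.Agent.Work.MP_a2680c_ag.HA

open MP7b66e6 MP7b66e6.Q
open scoped BigOperators

universe u

theorem pr_Krg (hPDV : NgPDV.{u, u}) (_hLoc : StLoc.{u}) (hPdd : StPdd.{u}) (hGrm : StGrm.{u}) (hCtr : StCtr.{u}) :
    StKrg.{u} := by
  classical
  intro k K F _ _ _ _ _ _ _ _ s Z X htr hZ hX hm hp v hv hex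
  obtain ⟨W, m₀, hWk, hL⟩ := hex
  obtain ⟨hdiv, P, hP, hcen, hPv⟩ := hPdd k K Z hZ v hv
  obtain ⟨π, hπ⟩ := hv.1
  have hπ0 : π ≠ 0 := by
    intro h0
    rw [h0, AddValuation.map_zero] at hπ
    exact absurd hπ (by decide)
  have hvπ : val v π = 1 := Api.val_of v hπ
  have hne : ∀ {f : K}, f ≠ 0 → algebraMap K F f ≠ 0 := fun h => by simpa using h
  obtain ⟨O, hO, hcO, hdom⟩ := hCtr k K F Z X hZ hX hm hp v W m₀ hWk hL P hP hcen
  obtain ⟨hgerm, hpd⟩ := (hGrm k F X hX).2 O hO s htr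
  have : IsFractionRing O F := hgerm.isFrac
  have : Algebra.EssFiniteType k O := hgerm.eft
  have : IsNoetherianRing O := Algebra.EssFiniteType.isNoetherianRing k O
  have : IsLocalRing O := hgerm.isLocal
  have hπP : π ∈ P := (hPv π).2 (by rw [hπ]; decide)
  let t : O := ⟨algebraMap K F π, (hdom π hπP).1⟩
  have ht0 : t ≠ 0 := by
    intro h
    exact hne hπ0 (congrArg Subtype.val h)
  have hinv : π⁻¹ ∉ P := by
    intro h
    rw [hPv, ← Api.val_nonneg v (inv_ne_zero hπ0), Api.val_inv v hπ0, hvπ] at h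
    omega
  have htu : ¬ IsUnit t := by
    intro h
    obtain ⟨u, hu⟩ := h.exists_right_inv
    apply hinv
    apply (hdom π hπP).2 hπ0
    have h1 : algebraMap K F π * (u : F) = 1 := by
      have := congrArg Subtype.val hu
      simpa [t] using this
    rw [← eq_inv_of_mul_eq_one_right h1]
    exact u.2
  have hle : Ideal.span {t} ≤ IsLocalRing.maximalIdeal O := by
    rw [Ideal.span_singleton_le_iff_mem]
    exact (IsLocalRing.mem_maximalIdeal t).2 htu
  obtain ⟨p, hp1, _⟩ := Ideal.exists_minimalPrimes_le hle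
  have hpp : p.IsPrime := hp1.1.1
  have htp : t ∈ p := hp1.1.2 (Ideal.mem_span_singleton_self t)
  have hh1 : p.height ≤ 1 := Ideal.height_le_one_of_isPrincipal_of_mem_minimalPrimes (Ideal.span {t}) p hp1
  have hh0 : p.height ≠ 0 := by
    rw [Ne, Ideal.height_eq_zero_iff_eq_bot]
    intro h
    rw [h] at htp
    exact ht0 (by simpa using htp)
  have hh : p.height = 1 := le_antisymm hh1 (Order.one_le_iff_ne_zero.2 hh0)
  obtain ⟨E, hE, hEO, hEp⟩ := hPDV k F O s hgerm p hpp hh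
  have hPD : PrimeDiv O E := ⟨hE, hEO, p, hpp, hh, hEp⟩
  have hEt : 0 < val E (algebraMap K F π) := by
    have h1 : 0 < E (algebraMap K F π) := (hEp t).1 htp
    rw [Api.coe_val E (hne hπ0)] at h1
    exact_mod_cast h1
  have hzero : ∀ u : K, u ≠ 0 → val v u = 0 → val E (algebraMap K F u) = 0 := by
    intro u hu h0
    have a1 : u ∈ P := by rw [hPv, ← Api.val_nonneg v hu]; omega
    have a2 : u⁻¹ ∈ P := by rw [hPv, ← Api.val_nonneg v (inv_ne_zero hu), Api.val_inv v hu]; omega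
    have b1 := hEO _ (hdom u a1).1
    have b2 := hEO _ (hdom _ a2).1
    rw [← Api.val_nonneg E (hne hu)] at b1
    rw [← Api.val_nonneg E (hne (inv_ne_zero hu)), map_inv₀, Api.val_inv E (hne hu)] at b2
    omega
  refine ⟨E, (val E (algebraMap K F π)).toNat, O, P, hE, ⟨by omega, ?_⟩, hO, (hpd E).1 hPD, hP, hdom, hPv⟩
  intro f hf
  have hc : (((val E (algebraMap K F π)).toNat : ℕ) : ℤ) = val E (algebraMap K F π) := Int.toNat_of_nonneg hEt.le
  rw [hc]
  have hp0 : (π ^ (val v f)) ≠ 0 := zpow_ne_zero _ hπ0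
  have c1 : val v (f / π ^ (val v f)) = 0 := by
    rw [Api.val_div v hf hp0, Api.val_zpow v hπ0, hvπ]; ring
  have c2 := hzero _ (div_ne_zero hf hp0) c1
  rw [map_div₀, map_zpow₀, Api.val_div E (hne hf) (zpow_ne_zero _ (hne hπ0)), Api.val_zpow E (hne hπ0)] at c2
  linarith

end Pool.Agent.Work.MP_a2680c_ag.HA
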