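import Pool.Agent.Work.MP_a2680c_ag.HA.StmtsB

/-!
# MP_a2680c_ag, block HA, item Lbs: the dual logarithmic basis
-/

set_option autoImplicit false

noncomputable section

namespace Pool.Agent.Work.MP_a2680c_ag.HA

open MP7b66e6 MP7b66e6.Q
open scoped BigOperators

universe u

namespace XLbs

theorem coe_val {K : Type u} [Field K] (ν : AddValuation K (WithTop ℤ)) {f : K} (hf : f ≠ 0) :
    ν f = (val ν f : WithTop ℤ) := by
  have h : ν f ≠ ⊤ := by
    intro h; exact hf ((AddValuation.top_iff ν).1 h)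
  obtain ⟨m, hm⟩ := WithTop.ne_top_iff_exists.1 h
  rw [val, ← hm]; rfl

theorem prod_nonneg {K ι : Type*} [Field K] (ν : AddValuation K (WithTop ℤ)) (s : Finset ι) (g : ι → K)
    (h : ∀ i ∈ s, 0 ≤ ν (g i)) : 0 ≤ ν (∏ i ∈ s, g i) := by
  classical
  induction s using Finset.induction_on with
  | empty => rw [Finset.prod_empty, AddValuation.map_one]
  | insert i s hi ih =>
    rw [Finset.prod_insert hi, AddValuation.map_mul]
    exact add_nonneg (h i (Finset.mem_insert_self i s))
      (ih fun j hj => h j (Finset.mem_insert_of_mem hj))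

theorem det_nonneg {K : Type u} [Field K] (ν : AddValuation K (WithTop ℤ)) {d : ℕ}
    (M : Matrix (Fin d) (Fin d) K) (h : ∀ i j, 0 ≤ ν (M i j)) : 0 ≤ ν (Matrix.det M) := by
  rw [Matrix.det_apply]
  refine AddValuation.map_le_sum ν ?_
  intro σ _
  have h1 : 0 ≤ ν (∏ i, M (σ i) i) := prod_nonneg ν _ _ fun i _ => h (σ i) i
  rcases Int.units_eq_one_or (Equiv.Perm.sign σ) with h2 | h2
  · rw [h2, one_smul]; exact h1
  · rw [h2, Units.neg_smul, one_smul, AddValuation.map_neg]; exact h1

theorem der_sum {k K : Type u} [Field k] [Field K] [Algebra k K] {e : ℕ} (c : Fin e → K)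
    (pd : Fin e → Derivation k K K) (g : K) (s : Finset (Fin e)) :
    (∑ m ∈ s, c m • pd m) g = ∑ m ∈ s, c m * pd m g := by
  classical
  induction s using Finset.induction_on with
  | empty => rw [Finset.sum_empty, Finset.sum_empty, Derivation.zero_apply]
  | insert i s hi ih =>
    rw [Finset.sum_insert hi, Finset.sum_insert hi, Derivation.add_apply, ih, Derivation.smul_apply,
      smul_eq_mul]

theorem chain {k K : Type u} [Field k] [Field K] [Algebra k K] {e : ℕ} {r : Fin e → K}
    {pd : Fin e → Derivation k K K} (h : Dual r pd) (E : Derivation k K K) (g : K) :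
    E g = ∑ m, E (r m) * pd m g := by
  have h1 : E - ∑ m, E (r m) • pd m = 0 := by
    apply h.2
    intro j
    rw [Derivation.sub_apply]
    rw [der_sum (fun m => E (r m)) pd (r j) Finset.univ, Finset.sum_congr rfl (fun m _ => by rw [h.1 m j]), Finset.sum_eq_single j]
    · rw [if_pos rfl, mul_one, sub_self]
    · intro m _ hm
      rw [if_neg hm, mul_zero]
    · intro hj
      exact absurd (Finset.mem_univ j) hj
  have h3 := sub_eq_zero.1 h1
  have h4 : E g = (∑ m, E (r m) • pd m) g := by rw [← h3]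
  rw [h4]
  exact der_sum (fun m => E (r m)) pd g Finset.univ

theorem log_nonneg {k K : Type u} [Field k] [Field K] [Algebra k K] {v : AddValuation K (WithTop ℤ)}
    {E : Derivation k K K} (h : LogGe v E 0) {f : K} (hf : f ≠ 0) : 0 ≤ v (E f / f) := by
  by_cases h0 : E f = 0
  · rw [h0, zero_div, AddValuation.map_zero]; exact le_top
  have hd : E f / f ≠ 0 := div_ne_zero h0 hf
  have h1 := h f
  have h2 : v (E f) = v (E f / f) + v f := by
    rw [← AddValuation.map_mul, div_mul_cancel₀ _ hf]
  rw [h2, coe_val v hf, coe_val v hd, ← WithTop.coe_add, ← WithTop.coe_add, WithTop.coe_le_coe] at h1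
  rw [coe_val v hd, ← WithTop.coe_zero, WithTop.coe_le_coe]
  omega

end XLbs

/-- The item Lbs. -/
theorem pr_Lbs (hBAS : NgBAS.{u, u}) : StLbs.{u} := by
  intro k K _ _ _ e r pd hpd v A hA
  obtain ⟨⟨δ, hδ, hdet⟩, hmin⟩ := hA
  obtain ⟨f, δ', hf, hdual, hlog, a, haA, hdet'⟩ := hBAS k K e r pd hpd.1 hpd.2 v A (by
    intro f hf hne
    have h1 : Matrix.det (fun i j => δ i (f j) / f j : Matrix (Fin e) (Fin e) K) =
        Matrix.det (fun i j => δ i (r j) : Matrix (Fin e) (Fin e) K) *
          Matrix.det (fun m j => pd m (f j) / f j : Matrix (Fin e) (Fin e) K) := by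
      rw [← Matrix.det_mul]
      congr 1
      funext i j
      rw [Matrix.mul_apply, XLbs.chain hpd (δ i) (f j), Finset.sum_div]
      refine Finset.sum_congr rfl fun m _ => ?_
      rw [mul_div_assoc]
    have h2 : 0 ≤ v (Matrix.det (fun i j => δ i (f j) / f j : Matrix (Fin e) (Fin e) K)) :=
      XLbs.det_nonneg v _ fun i j => XLbs.log_nonneg (hδ i) (hf j)
    rw [h1, AddValuation.map_mul, hdet, XLbs.coe_val v hne, ← WithTop.coe_add, ← WithTop.coe_zero,
      WithTop.coe_le_coe] at h2
    omega)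
  refine ⟨f, δ', hf, hdual, hlog, ?_⟩
  have h3 := hmin δ' hlog
  rw [hdet', WithTop.coe_le_coe] at h3
  rw [hdet', le_antisymm haA h3]

end Pool.Agent.Work.MP_a2680c_ag.HA
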