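import Pool.Agent.Work.MP_a2680c_ag.HA.StmtsC

/-!
# MP_a2680c_ag, block HA, item Loc: localization of local rings, centres
-/

set_option autoImplicit false

noncomputable section

namespace Pool.Agent.Work.MP_a2680c_ag.HA

open MP7b66e6 MP7b66e6.Q
open scoped BigOperators

universe u

namespace XLoc

variable {k K : Type u} [Field k] [Field K] [Algebra k K]

/-- the localization of `C` at the prime `p` as a subalgebra of `K` -/
def loc (C : Subalgebra k K) (p : Ideal C) (hp : p.IsPrime) : Subalgebra k K where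
  carrier := {f | ∃ a s : C, s ∉ p ∧ f * s = a}
  mul_mem' := by
    rintro f g ⟨a, s, hs, h1⟩ ⟨b, t, ht, h2⟩
    refine ⟨a * b, s * t, fun h => ?_, ?_⟩
    · rcases hp.mem_or_mem h with h | h
      · exact hs h
      · exact ht h
    · rw [Subalgebra.coe_mul, Subalgebra.coe_mul, ← h1, ← h2]; ring
  add_mem' := by
    rintro f g ⟨a, s, hs, h1⟩ ⟨b, t, ht, h2⟩
    refine ⟨a * t + b * s, s * t, fun h => ?_, ?_⟩
    · rcases hp.mem_or_mem h with h | h
      · exact hs h
      · exact ht h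
    · rw [Subalgebra.coe_add, Subalgebra.coe_mul, Subalgebra.coe_mul, Subalgebra.coe_mul, ← h1, ← h2]; ring
  algebraMap_mem' := by
    intro c
    refine ⟨algebraMap k C c, 1, fun h => hp.ne_top ((Ideal.eq_top_iff_one p).2 h), ?_⟩
    rw [Subalgebra.coe_one, mul_one, Subalgebra.coe_algebraMap]

theorem isLoc_loc (C : Subalgebra k K) (p : Ideal C) (hp : p.IsPrime) : IsLoc C p (loc C p hp) :=
  fun _ => Iff.rfl

theorem le_of_isLoc {C : Subalgebra k K} {p : Ideal C} (hp : p.IsPrime) {P : Subalgebra k K} (h : IsLoc C p P) :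
    C ≤ P := by
  intro c hc
  refine (h c).2 ⟨⟨c, hc⟩, 1, fun h => hp.ne_top ((Ideal.eq_top_iff_one p).2 h), ?_⟩
  rw [Subalgebra.coe_one, mul_one]

theorem coe_ne_zero {C : Subalgebra k K} {p : Ideal C} {s : C} (hs : s ∉ p) : (s : K) ≠ 0 := by
  intro h
  apply hs
  have : s = 0 := Subtype.ext h
  rw [this]
  exact p.zero_mem

theorem inv_mem {C : Subalgebra k K} {p : Ideal C} {P : Subalgebra k K} (h : IsLoc C p P)
    {s : C} (hs : s ∉ p) : (s : K)⁻¹ ∈ P := by
  refine (h _).2 ⟨1, s, hs, ?_⟩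
  rw [Subalgebra.coe_one, inv_mul_cancel₀ (coe_ne_zero hs)]

/-- elements of `C` outside `p` are outside every prime of the localization -/
theorem not_mem {C : Subalgebra k K} {p : Ideal C} (hp : p.IsPrime) {P : Subalgebra k K} (h : IsLoc C p P)
    {q : Ideal P} (hq : q.IsPrime) {s : C} (hs : s ∉ p) : Subalgebra.inclusion (le_of_isLoc hp h) s ∉ q := by
  intro h1
  apply hq.ne_top
  rw [Ideal.eq_top_iff_one]
  have h2 : (1 : P) = ⟨(s : K)⁻¹, inv_mem h hs⟩ * Subalgebra.inclusion (le_of_isLoc hp h) s := by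
    apply Subtype.ext
    rw [Subalgebra.coe_mul, Subalgebra.coe_one]
    exact (inv_mul_cancel₀ (coe_ne_zero hs)).symm
  rw [h2]
  exact q.mul_mem_left _ h1

/-- (1) -/
theorem one {Z : Set (Subalgebra k K)} (hZ : Vty Z) {P : Subalgebra k K} (hP : P ∈ Z) (q : Ideal P)
    (hq : q.IsPrime) : ∃ R ∈ Z, P ≤ R ∧ IsLoc P q R := by
  obtain ⟨S, hSf, hSn, hS, hmem⟩ := hZ.charts
  obtain ⟨C, hC, p, hp, hloc⟩ := (hmem P).1 hP
  have hCP := le_of_isLoc hp hloc
  have hp' : (Ideal.comap (Subalgebra.inclusion hCP) q).IsPrime := Ideal.IsPrime.comap _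
  refine ⟨loc C _ hp', (hmem _).2 ⟨C, hC, _, hp', isLoc_loc C _ hp'⟩, ?_, ?_⟩
  · intro f hf
    obtain ⟨a, s, hs, h1⟩ := (hloc f).1 hf
    refine ⟨a, s, ?_, h1⟩
    rw [Ideal.mem_comap]
    exact not_mem hp hloc hq hs
  · intro f
    constructor
    · rintro ⟨a, s, hs, h1⟩
      refine ⟨Subalgebra.inclusion hCP a, Subalgebra.inclusion hCP s, ?_, h1⟩
      rw [Ideal.mem_comap] at hs
      exact hs
    · rintro ⟨a, s, hs, h1⟩
      obtain ⟨c, t, ht, h2⟩ := (hloc s).1 s.2
      obtain ⟨d, t', ht', h3⟩ := (hloc a).1 a.2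
      refine ⟨d * t, c * t', ?_, ?_⟩
      · rw [Ideal.mem_comap, map_mul]
        intro h4
        rcases hq.mem_or_mem h4 with h4 | h4
        · have h5 : Subalgebra.inclusion hCP c = s * Subalgebra.inclusion hCP t := Subtype.ext h2.symm
          rw [h5] at h4
          rcases hq.mem_or_mem h4 with h4 | h4
          · exact hs h4
          · exact not_mem hp hloc hq ht h4
        · exact not_mem hp hloc hq ht' h4
      · rw [Subalgebra.coe_mul, Subalgebra.coe_mul, ← h2, ← h3, ← h1]; ring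

/-- the prime ideal of a valuation -/
def pr (P : Subalgebra k K) (w : AddValuation K (WithTop ℤ)) (h : ∀ f ∈ P, 0 ≤ w f) : Ideal P where
  carrier := {f | 0 < w (f : K)}
  add_mem' := by
    intro a b ha hb
    exact lt_of_lt_of_le (lt_min ha hb) (AddValuation.map_add w (a : K) (b : K))
  zero_mem' := by
    change 0 < w ((0 : P) : K)
    rw [Subalgebra.coe_zero, AddValuation.map_zero]
    exact WithTop.coe_lt_top 0
  smul_mem' := by
    intro c x hx
    change 0 < w ((c : K) * (x : K))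
    rw [AddValuation.map_mul]
    exact lt_of_lt_of_le hx (le_add_of_nonneg_left (h c c.2))

theorem mem_pr {P : Subalgebra k K} {w : AddValuation K (WithTop ℤ)} {h : ∀ f ∈ P, 0 ≤ w f} {f : P} :
    f ∈ pr P w h ↔ 0 < w (f : K) := Iff.rfl

theorem isPrime_pr (P : Subalgebra k K) (w : AddValuation K (WithTop ℤ)) (h : ∀ f ∈ P, 0 ≤ w f) :
    (pr P w h).IsPrime := by
  constructor
  · intro h1
    rw [Ideal.eq_top_iff_one, mem_pr, Subalgebra.coe_one, AddValuation.map_one] at h1
    exact lt_irrefl _ h1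
  · intro x y hxy
    rw [mem_pr] at hxy ⊢
    rw [mem_pr]
    by_contra hcon
    rw [not_or, not_lt, not_lt] at hcon
    rw [Subalgebra.coe_mul, AddValuation.map_mul, le_antisymm hcon.1 (h x x.2), le_antisymm hcon.2 (h y y.2),
      add_zero] at hxy
    exact lt_irrefl _ hxy

theorem cen {P R : Subalgebra k K} {w : AddValuation K (WithTop ℤ)} (h : ∀ f ∈ P, 0 ≤ w f)
    (hR : IsLoc P (pr P w h) R) : Cen R w := by
  have key : ∀ s : P, s ∉ pr P w h → w (s : K) = 0 := by
    intro s hs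
    rw [mem_pr, not_lt] at hs
    exact le_antisymm hs (h s s.2)
  constructor
  · intro f hf
    obtain ⟨a, s, hs, h1⟩ := (hR f).1 hf
    have h2 : w f = w (a : K) := by
      rw [← h1, AddValuation.map_mul, key s hs, add_zero]
    rw [h2]
    exact h a a.2
  · intro f hf h0
    obtain ⟨a, s, hs, h1⟩ := (hR f).1 hf
    have hf0 : f ≠ 0 := by
      intro h2
      rw [h2, AddValuation.map_zero] at h0
      exact absurd h0 (by simp)
    refine (hR _).2 ⟨s, a, ?_, ?_⟩
    · rw [mem_pr, ← h1, AddValuation.map_mul, key s hs, add_zero, h0]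
      exact lt_irrefl _
    · rw [← h1, inv_mul_cancel_left₀ hf0]

end XLoc

theorem pr_Loc : StLoc.{u} := by
  intro k K _ _ _ Z hZ
  refine ⟨?_, ?_, ?_⟩
  · intro P hP p hp
    exact XLoc.one hZ hP p hp
  · intro P hP w hw
    obtain ⟨R, hR, hPR, hloc⟩ := XLoc.one hZ hP (XLoc.pr P w hw) (XLoc.isPrime_pr P w hw)
    exact ⟨R, hR, hPR, XLoc.cen hw hloc, _, XLoc.isPrime_pr P w hw, hloc, fun f => Iff.rfl⟩
  · intro R hR S hS w hcR hcS
    exact hZ.sep R hR S hS (Api.ring w (Api.nonneg_of_mem hcR.1)) (Api.isVal_ring w _)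
      ((Api.dom_ring_iff w _ R).2 hcR) ((Api.dom_ring_iff w _ S).2 hcS)

end Pool.Agent.Work.MP_a2680c_ag.HA
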