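import Pool.Agent.Work.MP_a2680c_ag.HA.StmtsW
import Pool.Agent.Work.MP_a2680c_ag.HA.I_Loc

/-! Item [a2680c HA Lfg]: the pull-back of a Cartier divisor to a variety over `Z` with a larger function field. -/

set_option autoImplicit false

noncomputable section

namespace Pool.Agent.Work.MP_a2680c_ag.HA

open MP7b66e6 MP7b66e6.Q
open scoped BigOperators

universe u

namespace XLfg

variable {k K : Type u} [Field k] [Field K] [Algebra k K]

theorem fin_ev {Z : Set (Subalgebra k K)} (h : ∀ s : K, s ≠ 0 → {ν : AddValuation K (WithTop ℤ) | PD Z ν ∧ val ν s ≠ 0}.Finite)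
    (φ : Kˣ →₀ ℝ) : {ν : AddValuation K (WithTop ℤ) | PD Z ν ∧ ev ν φ ≠ 0}.Finite := by
  classical
  have h1 : (⋃ s ∈ φ.support, {ν : AddValuation K (WithTop ℤ) | PD Z ν ∧ val ν (s : K) ≠ 0}).Finite :=
    Set.Finite.biUnion (Finset.finite_toSet _) fun s _ => h (s : K) s.ne_zero
  refine h1.subset ?_
  rintro ν ⟨h2, h3⟩
  have : ∃ s ∈ φ.support, val ν (s : K) ≠ 0 := by
    by_contra hcon
    push Not at hcon
    apply h3
    rw [ev, Finsupp.sum]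
    apply Finset.sum_eq_zero
    intro s hs
    rw [hcon s hs]; simp
  obtain ⟨s, hs, hs1⟩ := this
  exact Set.mem_biUnion (show s ∈ (φ.support : Set Kˣ) from hs) ⟨h2, hs1⟩

/-- finitely many representations suffice -/
theorem stepA (hFsp : StFsp.{u}) (Z : Set (Subalgebra k K)) (hZ : Vty Z) (L : AddValuation K (WithTop ℤ) → ℝ)
    (hdL : IsDiv Z L) (hcL : RCar Z L) (T : Set (Subalgebra k K))
    (hTZ : ∀ R : Subalgebra k K, R ∈ Z ↔ ∃ C ∈ T, ∃ p : Ideal C, p.IsPrime ∧ IsLoc C p R) :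
    ∀ C ∈ T, ∃ Φ : Set (Kˣ →₀ ℝ), Φ.Finite ∧ ∀ (q : Ideal C) (Q : Subalgebra k K), q.IsPrime → IsLoc C q Q →
      ∃ φ ∈ Φ, Rep Z L Q φ := by
  classical
  intro C hC
  let H : Set C := {h | ∃ φ : Kˣ →₀ ℝ, ∀ (q : Ideal C) (Q : Subalgebra k K), q.IsPrime → IsLoc C q Q → h ∉ q →
    Rep Z L Q φ}
  have hH : ∀ p : Ideal C, p.IsPrime → ∃ h ∈ H, h ∉ p := by
    intro p hp
    have hPZ : XLoc.loc C p hp ∈ Z := (hTZ _).2 ⟨C, hC, p, hp, XLoc.isLoc_loc C p hp⟩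
    obtain ⟨φ, hφ⟩ := hcL _ hPZ
    have hB : {ν : AddValuation K (WithTop ℤ) | PD Z ν ∧ L ν ≠ ev ν φ}.Finite := by
      refine (hdL.union (fin_ev (hFsp k K Z hZ).1 φ)).subset ?_
      rintro ν ⟨h1, h2⟩
      by_cases h3 : L ν = 0
      · right
        refine ⟨h1, fun h4 => h2 ?_⟩
        rw [h3, h4]
      · left
        exact ⟨h1, h3⟩
    have hex : ∀ ν : AddValuation K (WithTop ℤ), PD Z ν ∧ L ν ≠ ev ν φ → ∃ h : C, h ∉ p ∧
        ((∀ c ∈ C, 0 ≤ ν c) → val ν (h : K) ≠ 0) := by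
      rintro ν ⟨h1, h2⟩
      by_cases hC0 : ∀ c ∈ C, 0 ≤ ν c
      · have : ∃ f ∈ XLoc.loc C p hp, ¬ 0 ≤ ν f := by
          by_contra hcon
          push Not at hcon
          exact h2 (hφ ν ⟨h1, fun f hf => hcon f hf⟩)
        obtain ⟨f, ⟨a, s, hs, hfs⟩, hf⟩ := this
        refine ⟨s, hs, fun _ h0 => hf ?_⟩
        by_cases hf0 : f = 0
        · rw [hf0, AddValuation.map_zero]; exact le_top
        have hs0 : (s : K) ≠ 0 := XLoc.coe_ne_zero hs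
        have h3 : val ν (a : K) = val ν f + val ν (s : K) := by
          rw [← hfs, Api.val_mul ν hf0 hs0]
        have ha0 : (a : K) ≠ 0 := by rw [← hfs]; exact mul_ne_zero hf0 hs0
        have h4 : 0 ≤ val ν (a : K) := (Api.val_nonneg ν ha0).2 (hC0 _ a.2)
        rw [← Api.val_nonneg ν hf0]
        omega
      · exact ⟨1, fun h => hp.ne_top ((Ideal.eq_top_iff_one p).2 h), fun h => absurd h hC0⟩
    choose! g hg1 hg2 using hex
    refine ⟨∏ ν ∈ hB.toFinset, g ν, ⟨φ, ?_⟩, ?_⟩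
    · intro q Q hq hQ hnot ν hν
      by_contra hcon
      have hmem : ν ∈ hB.toFinset := (Set.Finite.mem_toFinset hB).2 ⟨hν.1, hcon⟩
      have hCQ : C ≤ Q := XLoc.le_of_isLoc hq hQ
      have hgq : g ν ∉ q := by
        intro h
        apply hnot
        rw [← Finset.mul_prod_erase _ _ hmem]
        exact q.mul_mem_right _ h
      have hne := hg2 ν ⟨hν.1, hcon⟩ (fun c hc => hν.2 c (hCQ hc))
      have h0 : ((g ν : C) : K) ≠ 0 := XLoc.coe_ne_zero hgq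
      have h1 : 0 ≤ ν ((g ν : C) : K) := hν.2 _ (hCQ (g ν).2)
      have h2 : 0 ≤ ν ((g ν : C) : K)⁻¹ := hν.2 _ (XLoc.inv_mem hQ hgq)
      rw [← Api.val_nonneg ν h0] at h1
      rw [← Api.val_nonneg ν (inv_ne_zero h0), Api.val_inv ν h0] at h2
      exact hne (by omega)
    · intro h
      rw [hp.prod_mem_iff] at h
      obtain ⟨ν, hν, h1⟩ := h
      exact hg1 ν ((Set.Finite.mem_toFinset hB).1 hν) h1
  have htop : Ideal.span H = ⊤ := by
    by_contra hcon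
    obtain ⟨M, hM, hle⟩ := Ideal.exists_le_maximal _ hcon
    obtain ⟨h, hh, hn⟩ := hH M hM.isPrime
    exact hn (hle (Ideal.subset_span hh))
  obtain ⟨H₀, hH₀, hH₁⟩ := (Ideal.span_eq_top_iff_finite H).1 htop
  have hch : ∀ h : C, ∃ φ : Kˣ →₀ ℝ, h ∈ H → ∀ (q : Ideal C) (Q : Subalgebra k K), q.IsPrime → IsLoc C q Q → h ∉ q →
      Rep Z L Q φ := by
    intro h
    by_cases hh : h ∈ H
    · obtain ⟨φ, hφ⟩ := hh
      exact ⟨φ, fun _ => hφ⟩
    · exact ⟨0, fun h1 => absurd h1 hh⟩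
  choose ψ hψ using hch
  refine ⟨ψ '' (H₀ : Set C), (Finset.finite_toSet H₀).image _, ?_⟩
  intro q Q hq hQ
  have : ∃ h ∈ H₀, h ∉ q := by
    by_contra hcon
    push Not at hcon
    have hle : Ideal.span (H₀ : Set C) ≤ q := Ideal.span_le.2 hcon
    rw [hH₁] at hle
    exact hq.ne_top (top_le_iff.1 hle)
  obtain ⟨h, hh, hn⟩ := this
  exact ⟨ψ h, ⟨h, hh, rfl⟩, hψ h (hH₀ hh) q Q hq hQ hn⟩

end XLfg

theorem pr_Lfg (_hLoc : StLoc.{u}) (hPdd : StPdd.{u}) (hFsp : StFsp.{u}) (hWdl : StWdl.{u}) : StLfg.{u} := by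
  classical
  intro k K E _ _ _ _ _ _ _ _ e d r c Z Y L hr hc hZ hY hmor hdL hcL
  have h3 : ∀ O ∈ Y, ∀ P ∈ Z, Dom P O → ∀ φ : Kˣ →₀ ℝ, Rep Z L P φ →
      Rep Y (fun w => Lv Z L (Api.res K w)) O (push K E φ) := by
    intro O _ P hP hdom φ hφ ν hν
    change Lv Z L (Api.res K ν) = ev ν (push K E φ)
    rw [← Api.ev_res]
    exact hWdl k K Z hZ e r hr L P hP φ hφ (Api.res K ν) (fun f hf => hν.2 _ (hdom f hf).1)
  refine ⟨?_, ?_, h3, ?_⟩
  · obtain ⟨T, hTf, _, _, hTZ⟩ := hZ.charts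
    have hA := XLfg.stepA hFsp Z hZ L hdL hcL T hTZ
    choose! Φ hΦ1 hΦ2 using hA
    have hfin : (⋃ C ∈ T, ⋃ φ ∈ Φ C,
        {ν : AddValuation E (WithTop ℤ) | PD Y ν ∧ ev ν (push K E φ) ≠ 0}).Finite := by
      apply Set.Finite.biUnion hTf
      intro C hC
      apply Set.Finite.biUnion (hΦ1 C hC)
      intro φ _
      exact XLfg.fin_ev (hFsp k E Y hY).1 (push K E φ)
    refine hfin.subset ?_
    rintro ν ⟨h1, h2⟩
    obtain ⟨_, R, hR, _, hring⟩ := hPdd k E Y hY ν h1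
    obtain ⟨Q, hQ, hdom⟩ := hmor R hR
    obtain ⟨C, hC, q, hq, hloc⟩ := (hTZ Q).1 hQ
    obtain ⟨φ, hφ, hrep⟩ := hΦ2 C hC q Q hq hloc
    have h4 := hWdl k K Z hZ e r hr L Q hQ φ hrep (Api.res K ν)
      (fun f hf => (hring _).1 (hdom f hf).1)
    rw [Api.ev_res] at h4
    have h5 : Lv Z L (Api.res K ν) ≠ 0 := h2
    rw [h4] at h5
    exact Set.mem_biUnion hC (Set.mem_biUnion hφ ⟨h1, h5⟩)
  · intro O hO
    obtain ⟨P, hP, hdom⟩ := hmor O hO
    obtain ⟨φ, hφ⟩ := hcL P hP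
    exact ⟨push K E φ, h3 O hO P hP hdom φ hφ⟩
  · rintro w ⟨O, hO, hw⟩
    obtain ⟨P, hP, hdom⟩ := hmor O hO
    obtain ⟨φ, hφ⟩ := hcL P hP
    have h6 := hWdl k E Y hY d c hc (fun w => Lv Z L (Api.res K w)) O hO (push K E φ)
      (h3 O hO P hP hdom φ hφ) w hw
    have h7 := hWdl k K Z hZ e r hr L P hP φ hφ (Api.res K w) (fun f hf => hw _ (hdom f hf).1)
    rw [h6, h7, Api.ev_res]

end Pool.Agent.Work.MP_a2680c_ag.HA
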