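import Pool.Agent.Work.MP_a2680c_ag.HA.I_Loc

/-! Item [a2680c HA Lfs] (helper9): finite support of pull-backs of Cartier divisors. -/

set_option autoImplicit false

noncomputable section

namespace Pool.Agent.Work.MP_a2680c_ag.HA

open MP7b66e6 MP7b66e6.Q
open scoped BigOperators

universe u

namespace XLfs

variable {k K : Type u} [Field k] [Field K] [Algebra k K]

theorem fin_ev {Z : Set (Subalgebra k K)} (h : ∀ s : K, s ≠ 0 → {ν : AddValuation K (WithTop ℤ) | PD Z ν ∧ val ν s ≠ 0}.Finite)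
    (φ : Kˣ →₀ ℝ) : {ν : AddValuation K (WithTop ℤ) | PD Z ν ∧ ev ν φ ≠ 0}.Finite := by
  classical
  have h1 : (⋃ s ∈ φ.support, {ν : AddValuation K (WithTop ℤ) | PD Z ν ∧ val ν (s : K) ≠ 0}).Finite :=
    Set.Finite.biUnion (Finset.finite_toSet _) fun s _ => h (s : K) s.ne_zero
  refine h1.subset ?_
  rintro ν ⟨h2, h3⟩
  have : ∃ s ∈ φ.support, val ν (s : K) ≠ 0 := by
    by_contra hcon
    push Not at hcon
    apply h3
    rw [ev, Finsupp.sum]
    apply Finset.sum_eq_zero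
    intro s hs
    rw [hcon s hs]; simp
  obtain ⟨s, hs, hs1⟩ := this
  exact Set.mem_biUnion (show s ∈ (φ.support : Set Kˣ) from hs) ⟨h2, hs1⟩

end XLfs

theorem pr_Lfs (_hLoc : StLoc.{u}) (hPdd : StPdd.{u}) (hFsp : StFsp.{u}) (hWdl : StWdl.{u}) : StLfs.{u} := by
  classical
  intro k K _ _ _ _ Z hZ e r hr L hdL hcL Z' hZ' hmor
  obtain ⟨T, hTf, _, hT, hTZ⟩ := hZ.charts
  -- step A
  have hA : ∀ C ∈ T, ∃ Φ : Set (Kˣ →₀ ℝ), Φ.Finite ∧ ∀ (q : Ideal C) (Q : Subalgebra k K), q.IsPrime → IsLoc C q Q →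
      ∃ φ ∈ Φ, Rep Z L Q φ := by
    intro C hC
    let H : Set C := {h | ∃ φ : Kˣ →₀ ℝ, ∀ (q : Ideal C) (Q : Subalgebra k K), q.IsPrime → IsLoc C q Q → h ∉ q →
      Rep Z L Q φ}
    have hH : ∀ p : Ideal C, p.IsPrime → ∃ h ∈ H, h ∉ p := by
      intro p hp
      have hPZ : XLoc.loc C p hp ∈ Z := (hTZ _).2 ⟨C, hC, p, hp, XLoc.isLoc_loc C p hp⟩
      obtain ⟨φ, hφ⟩ := hcL _ hPZ
      have hB : {ν : AddValuation K (WithTop ℤ) | PD Z ν ∧ L ν ≠ ev ν φ}.Finite := by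
        refine (hdL.union (XLfs.fin_ev (hFsp k K Z hZ).1 φ)).subset ?_
        rintro ν ⟨h1, h2⟩
        by_cases h3 : L ν = 0
        · right
          refine ⟨h1, fun h4 => h2 ?_⟩
          rw [h3, h4]
        · left
          exact ⟨h1, h3⟩
      have hex : ∀ ν : AddValuation K (WithTop ℤ), PD Z ν ∧ L ν ≠ ev ν φ → ∃ h : C, h ∉ p ∧
          ((∀ c ∈ C, 0 ≤ ν c) → val ν (h : K) ≠ 0) := by
        rintro ν ⟨h1, h2⟩
        by_cases hC0 : ∀ c ∈ C, 0 ≤ ν c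
        · have : ∃ f ∈ XLoc.loc C p hp, ¬ 0 ≤ ν f := by
            by_contra hcon
            push Not at hcon
            exact h2 (hφ ν ⟨h1, fun f hf => hcon f hf⟩)
          obtain ⟨f, ⟨a, s, hs, hfs⟩, hf⟩ := this
          refine ⟨s, hs, fun _ h0 => hf ?_⟩
          by_cases hf0 : f = 0
          · rw [hf0, AddValuation.map_zero]; exact le_top
          have hs0 : (s : K) ≠ 0 := XLoc.coe_ne_zero hs
          have h3 : val ν (a : K) = val ν f + val ν (s : K) := by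
            rw [← hfs, Api.val_mul ν hf0 hs0]
          have ha0 : (a : K) ≠ 0 := by rw [← hfs]; exact mul_ne_zero hf0 hs0
          have h4 : 0 ≤ val ν (a : K) := (Api.val_nonneg ν ha0).2 (hC0 _ a.2)
          rw [← Api.val_nonneg ν hf0]
          omega
        · exact ⟨1, fun h => hp.ne_top ((Ideal.eq_top_iff_one p).2 h), fun h => absurd h hC0⟩
      choose! g hg1 hg2 using hex
      refine ⟨∏ ν ∈ hB.toFinset, g ν, ⟨φ, ?_⟩, ?_⟩
      · intro q Q hq hQ hnot ν hν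
        by_contra hcon
        have hmem : ν ∈ hB.toFinset := (Set.Finite.mem_toFinset hB).2 ⟨hν.1, hcon⟩
        have hCQ : C ≤ Q := XLoc.le_of_isLoc hq hQ
        have hgq : g ν ∉ q := by
          intro h
          apply hnot
          rw [← Finset.mul_prod_erase _ _ hmem]
          exact q.mul_mem_right _ h
        have hne := hg2 ν ⟨hν.1, hcon⟩ (fun c hc => hν.2 c (hCQ hc))
        have h0 : ((g ν : C) : K) ≠ 0 := XLoc.coe_ne_zero hgq
        have h1 : 0 ≤ ν ((g ν : C) : K) := hν.2 _ (hCQ (g ν).2)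
        have h2 : 0 ≤ ν ((g ν : C) : K)⁻¹ := hν.2 _ (XLoc.inv_mem hQ hgq)
        rw [← Api.val_nonneg ν h0] at h1
        rw [← Api.val_nonneg ν (inv_ne_zero h0), Api.val_inv ν h0] at h2
        exact hne (by omega)
      · intro h
        rw [hp.prod_mem_iff] at h
        obtain ⟨ν, hν, h1⟩ := h
        exact hg1 ν ((Set.Finite.mem_toFinset hB).1 hν) h1
    have htop : Ideal.span H = ⊤ := by
      by_contra hcon
      obtain ⟨M, hM, hle⟩ := Ideal.exists_le_maximal _ hcon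
      obtain ⟨h, hh, hn⟩ := hH M hM.isPrime
      exact hn (hle (Ideal.subset_span hh))
    obtain ⟨H₀, hH₀, hH₁⟩ := (Ideal.span_eq_top_iff_finite H).1 htop
    have hch : ∀ h : C, ∃ φ : Kˣ →₀ ℝ, h ∈ H → ∀ (q : Ideal C) (Q : Subalgebra k K), q.IsPrime → IsLoc C q Q → h ∉ q →
        Rep Z L Q φ := by
      intro h
      by_cases hh : h ∈ H
      · obtain ⟨φ, hφ⟩ := hh
        exact ⟨φ, fun _ => hφ⟩
      · exact ⟨0, fun h1 => absurd h1 hh⟩
    choose ψ hψ using hch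
    refine ⟨ψ '' (H₀ : Set C), (Finset.finite_toSet H₀).image _, ?_⟩
    intro q Q hq hQ
    have : ∃ h ∈ H₀, h ∉ q := by
      by_contra hcon
      push Not at hcon
      have hle : Ideal.span (H₀ : Set C) ≤ q := Ideal.span_le.2 hcon
      rw [hH₁] at hle
      exact hq.ne_top (top_le_iff.1 hle)
    obtain ⟨h, hh, hn⟩ := this
    exact ⟨ψ h, ⟨h, hh, rfl⟩, hψ h (hH₀ hh) q Q hq hQ hn⟩
  choose! Φ hΦ1 hΦ2 using hA
  have hfin : (⋃ C ∈ T, ⋃ φ ∈ Φ C, {ν : AddValuation K (WithTop ℤ) | PD Z' ν ∧ ev ν φ ≠ 0}).Finite := by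
    apply Set.Finite.biUnion hTf
    intro C hC
    apply Set.Finite.biUnion (hΦ1 C hC)
    intro φ _
    exact XLfs.fin_ev (hFsp k K Z' hZ').1 φ
  refine hfin.subset ?_
  rintro ν ⟨h1, h2⟩
  obtain ⟨_, R, hR, _, hring⟩ := hPdd k K Z' hZ' ν h1
  obtain ⟨Q, hQ, hdom⟩ := hmor R hR
  obtain ⟨C, hC, q, hq, hloc⟩ := (hTZ Q).1 hQ
  obtain ⟨φ, hφ, hrep⟩ := hΦ2 C hC q Q hq hloc
  have h3 := hWdl k K Z hZ e r hr L Q hQ φ hrep ν (fun f hf => (hring f).1 (hdom f hf).1)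
  rw [h3] at h2
  exact Set.mem_biUnion hC (Set.mem_biUnion hφ ⟨h1, h2⟩)

end Pool.Agent.Work.MP_a2680c_ag.HA
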