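import Pool.Agent.Work.MP_a2680c_ag.HA.StmtsB

/-!
# Item Lif of block HA: extension of derivations to a field of rational functions
-/

set_option autoImplicit false

noncomputable section

namespace Pool.Agent.Work.MP_a2680c_ag.HA

open MP7b66e6 MP7b66e6.Q
open scoped BigOperators

universe u

namespace XLif

open TrivSqZeroExt

/-- The pair `(a, b)`. -/
def pr {F : Type u} [Field F] (a b : F) : TrivSqZeroExt F F := inl a + inr b

theorem fst_pr {F : Type u} [Field F] (a b : F) : (pr a b).fst = a := by
  rw [pr, fst_add, fst_inl, fst_inr, add_zero]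

theorem snd_pr {F : Type u} [Field F] (a b : F) : (pr a b).snd = b := by
  rw [pr, snd_add, snd_inl, snd_inr, zero_add]

section
variable {k K F : Type u} [Field k] [Field K] [Field F] [Algebra k K] [Algebra k F] [Algebra K F]
  [IsScalarTower k K F] {n : ℕ}

/-- The ring homomorphism `f ↦ f + ε D f`. -/
def toExt (F : Type u) [Field F] [Algebra K F] (D : Derivation k K K) : K →+* TrivSqZeroExt F F where
  toFun f := pr (algebraMap K F f) (algebraMap K F (D f))
  map_one' := by
    ext
    · rw [fst_pr, map_one, fst_one]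
    · rw [snd_pr, D.map_one_eq_zero, map_zero, snd_one]
  map_zero' := by
    ext
    · rw [fst_pr, map_zero, fst_zero]
    · rw [snd_pr, map_zero, map_zero, snd_zero]
  map_add' x y := by
    ext
    · rw [fst_add, fst_pr, fst_pr, fst_pr, map_add]
    · rw [snd_add, snd_pr, snd_pr, snd_pr, map_add, map_add]
  map_mul' x y := by
    ext
    · rw [fst_mul, fst_pr, fst_pr, fst_pr, map_mul]
    · rw [snd_mul, snd_pr, snd_pr, snd_pr, fst_pr, fst_pr, D.leibniz, map_add, smul_eq_mul,
        smul_eq_mul, map_mul, map_mul, smul_eq_mul, op_smul_eq_mul]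
      ring

omit [Algebra k F] [IsScalarTower k K F] in
theorem toExt_apply (D : Derivation k K K) (f : K) :
    toExt F D f = pr (algebraMap K F f) (algebraMap K F (D f)) := rfl

omit [Algebra k K] [Algebra k F] [IsScalarTower k K F] in
/-- the equivalence with the field of fractions -/
theorem exists_equiv (z : Fin n → F) (hz : GenBy K z) :
    ∃ e : FractionRing (MvPolynomial (Fin n) K) ≃+* F,
      ∀ P, e (algebraMap (MvPolynomial (Fin n) K) _ P) = MvPolynomial.aeval z P := by
  obtain ⟨h1, h2⟩ := hz
  refine ⟨(h1.aevalEquivField.trans ((IntermediateField.equivOfEq h2).trans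
    IntermediateField.topEquiv)).toRingEquiv, fun P => ?_⟩
  exact h1.aevalEquivField_algebraMap_apply_coe P

theorem ext_der (z : Fin n → F) (hz : GenBy K z) (D : Derivation k K K) (d : Fin n → F) :
    ∃ E : Derivation k F F, (∀ f : K, E (algebraMap K F f) = algebraMap K F (D f)) ∧
      ∀ j, E (z j) = d j := by
  obtain ⟨e, he⟩ := exists_equiv z hz
  set φ₀ : MvPolynomial (Fin n) K →+* TrivSqZeroExt F F :=
    MvPolynomial.eval₂Hom (toExt F D) (fun j => pr (z j) (d j)) with hφ₀
  have hφC : ∀ f : K, φ₀ (MvPolynomial.C f) = pr (algebraMap K F f) (algebraMap K F (D f)) := by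
    intro f
    rw [hφ₀, MvPolynomial.eval₂Hom_C, toExt_apply]
  have hφX : ∀ j, φ₀ (MvPolynomial.X j) = pr (z j) (d j) := by
    intro j
    rw [hφ₀, MvPolynomial.eval₂Hom_X']
  have hfst₀ : ∀ P, (φ₀ P).fst = MvPolynomial.aeval z P := by
    intro P
    have h1 : ((fstHom F F F).toRingHom.comp φ₀) = (MvPolynomial.aeval z : MvPolynomial (Fin n) K →ₐ[K] F).toRingHom := by
      apply MvPolynomial.ringHom_ext
      · intro f
        show (φ₀ (MvPolynomial.C f)).fst = MvPolynomial.aeval z (MvPolynomial.C f)
        rw [hφC, fst_pr, MvPolynomial.aeval_C]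
      · intro j
        show (φ₀ (MvPolynomial.X j)).fst = MvPolynomial.aeval z (MvPolynomial.X j)
        rw [hφX, fst_pr, MvPolynomial.aeval_X]
    exact congrArg (fun g : MvPolynomial (Fin n) K →+* F => g P) h1
  have hunit : ∀ y : nonZeroDivisors (MvPolynomial (Fin n) K), IsUnit (φ₀ y) := by
    intro y
    rw [isUnit_iff_isUnit_fst, hfst₀, isUnit_iff_ne_zero]
    intro h0
    exact nonZeroDivisors.ne_zero y.2 ((map_eq_zero_iff _ hz.1).1 h0)
  set Φ : FractionRing (MvPolynomial (Fin n) K) →+* TrivSqZeroExt F F :=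
    IsLocalization.lift hunit with hΦ
  have hΦa : ∀ P, Φ (algebraMap (MvPolynomial (Fin n) K) _ P) = φ₀ P := fun P =>
    IsLocalization.lift_eq hunit P
  set φ : F →+* TrivSqZeroExt F F := Φ.comp (e.symm : F →+* FractionRing (MvPolynomial (Fin n) K))
    with hφ
  have hφp : ∀ P : MvPolynomial (Fin n) K, φ (MvPolynomial.aeval z P) = φ₀ P := by
    intro P
    rw [hφ, ← he P]
    show Φ (e.symm (e _)) = _
    rw [e.symm_apply_apply, hΦa]
  have hfst : ∀ x : F, (φ x).fst = x := by
    intro x
    have h1 : ((fstHom F F F).toRingHom.comp Φ) = (e : FractionRing (MvPolynomial (Fin n) K) →+* F) := by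
      apply IsLocalization.ringHom_ext (nonZeroDivisors (MvPolynomial (Fin n) K))
      ext P
      · show (Φ (algebraMap (MvPolynomial (Fin n) K) _ (MvPolynomial.C P))).fst =
          e (algebraMap (MvPolynomial (Fin n) K) _ (MvPolynomial.C P))
        rw [hΦa, hfst₀, he]
      · show (Φ (algebraMap (MvPolynomial (Fin n) K) _ (MvPolynomial.X P))).fst =
          e (algebraMap (MvPolynomial (Fin n) K) _ (MvPolynomial.X P))
        rw [hΦa, hfst₀, he]
    have h2 := congrArg (fun g : FractionRing (MvPolynomial (Fin n) K) →+* F => g (e.symm x)) h1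
    have h3 : (Φ (e.symm x)).fst = e (e.symm x) := h2
    rw [e.apply_symm_apply] at h3
    exact h3
  have hK : ∀ f : K, φ (algebraMap K F f) = pr (algebraMap K F f) (algebraMap K F (D f)) := by
    intro f
    rw [← hφC, ← hφp, MvPolynomial.aeval_C]
  have hk : ∀ c : k, (φ (algebraMap k F c)).snd = 0 := by
    intro c
    rw [IsScalarTower.algebraMap_apply k K F, hK, snd_pr, D.map_algebraMap, map_zero]
  have hmul : ∀ x y : F, (φ (x * y)).snd = x * (φ y).snd + y * (φ x).snd := by
    intro x y
    rw [map_mul, snd_mul, hfst, hfst, smul_eq_mul, op_smul_eq_mul]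
    ring
  let E0 : F →ₗ[k] F :=
    { toFun := fun x => (φ x).snd
      map_add' := by
        intro x y
        rw [map_add, snd_add]
      map_smul' := by
        intro c x
        rw [RingHom.id_apply, Algebra.smul_def, hmul, hk, Algebra.smul_def, mul_zero, add_zero] }
  refine ⟨{ toLinearMap := E0, map_one_eq_zero' := ?_, leibniz' := ?_ }, ?_, ?_⟩
  · show (φ 1).snd = 0
    rw [map_one, snd_one]
  · intro x y
    show (φ (x * y)).snd = x • (φ y).snd + y • (φ x).snd
    rw [hmul, smul_eq_mul, smul_eq_mul]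
  · intro f
    show (φ (algebraMap K F f)).snd = _
    rw [hK, snd_pr]
  · intro j
    show (φ (z j)).snd = _
    have h1 : z j = MvPolynomial.aeval z (MvPolynomial.X j : MvPolynomial (Fin n) K) := by
      rw [MvPolynomial.aeval_X]
    rw [h1, hφp, hφX, snd_pr]

omit [IsScalarTower k K F] [Algebra k K] in
theorem uniq (z : Fin n → F) (hz : GenBy K z) (E : Derivation k F F)
    (h1 : ∀ f : K, E (algebraMap K F f) = 0) (h2 : ∀ j, E (z j) = 0) : E = 0 := by
  have hpoly : ∀ P : MvPolynomial (Fin n) K, E (MvPolynomial.aeval z P) = 0 := by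
    intro P
    induction P using MvPolynomial.induction_on with
    | C a => rw [MvPolynomial.aeval_C, h1]
    | add p q hp hq => rw [map_add, map_add, hp, hq, add_zero]
    | mul_X p i hp =>
      rw [map_mul, MvPolynomial.aeval_X, Derivation.leibniz, hp, h2, smul_zero, smul_zero, add_zero]
  ext f
  have hf : f ∈ IntermediateField.adjoin K (Set.range z) := by rw [hz.2]; trivial
  obtain ⟨P, Q, hPQ⟩ := (IntermediateField.mem_adjoin_range_iff K z f).1 hf
  rw [Derivation.coe_zero, Pi.zero_apply]
  by_cases hb0 : MvPolynomial.aeval z Q = 0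
  · have : f = 0 := by rw [hPQ, hb0, div_zero]
    rw [this]; exact map_zero E
  · have hfb : MvPolynomial.aeval z Q * f = MvPolynomial.aeval z P := by rw [hPQ]; field_simp
    have h3 := congrArg E hfb
    rw [Derivation.leibniz, hpoly, hpoly, smul_zero, add_zero, smul_eq_mul] at h3
    exact (mul_eq_zero.1 h3).resolve_left hb0

end

end XLif

open XLif in
/-- Item [Lif] -/
theorem pr_Lif : StLif.{u} := by
  intro k K F _ _ _ _ _ _ _ n z hz
  refine ⟨fun D => ?_, fun i => ?_, fun E h1 h2 => uniq z hz E h1 h2⟩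
  · exact ext_der z hz D (fun _ => 0)
  · obtain ⟨E, hE1, hE2⟩ := ext_der z hz (0 : Derivation k K K) (fun j => if i = j then 1 else 0)
    refine ⟨E, fun f => ?_, hE2⟩
    rw [hE1 f]
    simp

end Pool.Agent.Work.MP_a2680c_ag.HA
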