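import Pool.Agent.Work.MP_a2680c_ag.HA.StmtsA

/-!
# MP_a2680c_ag, block HA, item Lpd
-/

set_option autoImplicit false

noncomputable section

namespace Pool.Agent.Work.MP_a2680c_ag.HA

open scoped BigOperators

namespace XLpd

theorem inc_sum {n N : ℕ} (b : Fin (n + 1) → Fin N) (z : Fin N → ℝ) :
    ∑ i, (∑ j, if b j = i then (1 : ℝ) else 0) * z i = ∑ j, z (b j) := by
  simp_rw [Finset.sum_mul, ite_mul, one_mul, zero_mul]
  rw [Finset.sum_comm]
  refine Finset.sum_congr rfl fun j _ => ?_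
  simp

theorem inc_one {n N : ℕ} (b : Fin (n + 1) → Fin N) :
    ∑ i, (∑ j, if b j = i then (1 : ℝ) else 0) = (n + 1 : ℝ) := by
  have h := inc_sum b (fun _ => (1 : ℝ))
  simpa using h

theorem inc_nonneg {n N : ℕ} (b : Fin (n + 1) → Fin N) (i : Fin N) :
    0 ≤ (∑ j, if b j = i then (1 : ℝ) else 0) :=
  Finset.sum_nonneg fun j _ => by split_ifs <;> norm_num

theorem common_den {N : ℕ} (r : Fin N → ℚ) :
    ∃ q : ℕ, 0 < q ∧ ∃ Y : Fin N → ℤ, ∀ i, (Y i : ℚ) = q * r i := by
  classical
  refine ⟨∏ i, (r i).den, Finset.prod_pos fun i _ => (r i).pos, ?_⟩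
  have h : ∀ i, ∃ k : ℕ, (∏ i, (r i).den) = (r i).den * k := fun i =>
    Finset.dvd_prod_of_mem _ (Finset.mem_univ i)
  choose k hk using h
  refine ⟨fun i => (r i).num * k i, fun i => ?_⟩
  rw [hk i]
  push_cast
  have h1 : (r i) * ((r i).den : ℚ) = (r i).num := Rat.mul_den_eq_num (r i)
  rw [← h1]
  ring

/-- decompositions give sums over bases -/
theorem feas_sum {n N : ℕ} {S : Set (Fin (n + 1) → Fin N)} {d : Fin N → ℝ}
    {l : (Fin (n + 1) → Fin N) → ℝ} (h : Feas S d l) (z : Fin N → ℝ) :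
    ∑ i, d i * z i = ∑ b, l b * ∑ j, z (b j) := by
  have h1 : ∀ i, d i * z i = ∑ b, l b * ((∑ j, if b j = i then (1 : ℝ) else 0) * z i) := by
    intro i
    rw [← h.sum i, Finset.sum_mul]
    refine Finset.sum_congr rfl fun b _ => ?_
    ring
  simp_rw [h1]
  rw [Finset.sum_comm]
  refine Finset.sum_congr rfl fun b _ => ?_
  rw [← Finset.mul_sum, inc_sum]

/-- step (1) -/
theorem step1 (hFar : StFar) {n N : ℕ} (S : Set (Fin (n + 1) → Fin N))
    (c : (Fin (n + 1) → Fin N) → ℤ) (d : Fin N → ℝ) (T : ℝ)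
    (h : ∀ (q : ℕ) (Y : Fin N → ℤ), 0 < q → (∀ b ∈ S, ∑ j, Y (b j) ≤ q * c b) →
      ∑ i, d i * (Y i : ℝ) ≤ q * T) : ∃ l, Feas S d l := by
  classical
  obtain ⟨l, hl0, hl⟩ := hFar (Fin N) (Fin (n + 1) → Fin N)
    (fun b i => if b ∈ S then (∑ j, if b j = i then (1 : ℝ) else 0) else 0) d (by
      intro z hz
      by_contra hpos
      push Not at hpos
      have hz' : ∀ b ∈ S, ∑ j, z (b j) ≤ 0 := by
        intro b hb
        have := hz b
        simp only [hb, if_true] at this
        rwa [inc_sum] at this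
      set E : ℝ := ∑ i, |d i| with hE
      have hE0 : 0 ≤ E := Finset.sum_nonneg fun i _ => abs_nonneg _
      set P : ℝ := ∑ i, d i * z i with hP
      set η : ℝ := P / (4 * (E + 1)) with hη
      have hη0 : 0 < η := by positivity
      have hr : ∀ i, ∃ r : ℚ, z i - 2 * η < (r : ℝ) ∧ (r : ℝ) < z i - η := fun i =>
        exists_rat_btwn (by linarith)
      choose r hr1 hr2 using hr
      have hneg : ∀ b ∈ S, ∑ j, (r (b j) : ℝ) < 0 := by
        intro b hb
        have h1 : ∑ j, (r (b j) : ℝ) < ∑ j, (z (b j) - η) :=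
          Finset.sum_lt_sum_of_nonempty Finset.univ_nonempty fun j _ => hr2 (b j)
        have h2 : ∑ j : Fin (n + 1), (z (b j) - η) = ∑ j, z (b j) - (n + 1) * η := by
          rw [Finset.sum_sub_distrib]
          simp
        have h3 := hz' b hb
        have h4 : 0 < (n + 1 : ℝ) * η := by positivity
        linarith
      have hposr : 0 < ∑ i, d i * (r i : ℝ) := by
        have h1 : ∀ i, d i * z i - 2 * η * |d i| ≤ d i * (r i : ℝ) := by
          intro i
          have h2 : |z i - (r i : ℝ)| ≤ 2 * η := by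
            rw [abs_le]
            constructor
            · have := hr2 i
              linarith
            · have := hr1 i
              linarith
          have h3 : d i * (z i - (r i : ℝ)) ≤ |d i| * |z i - (r i : ℝ)| := by
            rw [← abs_mul]
            exact le_abs_self _
          have h4 : |d i| * |z i - (r i : ℝ)| ≤ |d i| * (2 * η) :=
            mul_le_mul_of_nonneg_left h2 (abs_nonneg _)
          nlinarith
        have h2 : ∑ i, (d i * z i - 2 * η * |d i|) ≤ ∑ i, d i * (r i : ℝ) :=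
          Finset.sum_le_sum fun i _ => h1 i
        rw [Finset.sum_sub_distrib, ← Finset.mul_sum] at h2
        have h3 : 2 * η * E < P := by
          rw [hη]
          have h4 : 2 * (P / (4 * (E + 1))) * E = P * (E / (2 * (E + 1))) := by
            field_simp
            ring
          rw [h4]
          have h5 : E / (2 * (E + 1)) < 1 := by
            rw [div_lt_one (by positivity)]
            linarith
          nlinarith
        linarith
      obtain ⟨q, hq, Z, hZ⟩ := common_den r
      have hZr : ∀ i, (Z i : ℝ) = q * (r i : ℝ) := by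
        intro i
        have := hZ i
        exact_mod_cast congrArg (fun t : ℚ => (t : ℝ)) this
      have hqr : (0 : ℝ) < q := by exact_mod_cast hq
      have hZneg : ∀ b ∈ S, ∑ j, Z (b j) ≤ -1 := by
        intro b hb
        have h1 : ((∑ j, Z (b j) : ℤ) : ℝ) < 0 := by
          push_cast
          simp_rw [hZr]
          rw [← Finset.mul_sum]
          exact mul_neg_of_pos_of_neg hqr (hneg b hb)
        have h2 : (∑ j, Z (b j) : ℤ) < 0 := by exact_mod_cast h1
        omega
      have hZpos : 0 < ∑ i, d i * (Z i : ℝ) := by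
        have h1 : ∑ i, d i * (Z i : ℝ) = q * ∑ i, d i * (r i : ℝ) := by
          rw [Finset.mul_sum]
          refine Finset.sum_congr rfl fun i _ => ?_
          rw [hZr]
          ring
        rw [h1]
        exact mul_pos hqr hposr
      set t0 : ℕ := ∑ b, (c b).natAbs with ht0
      obtain ⟨t1, ht1⟩ := exists_nat_gt (T / ∑ i, d i * (Z i : ℝ))
      have h1 := h 1 (fun i => ((t0 + t1 : ℕ) : ℤ) * Z i) one_pos (by
        intro b hb
        have h2 : ∑ j, ((t0 + t1 : ℕ) : ℤ) * Z (b j) = ((t0 + t1 : ℕ) : ℤ) * ∑ j, Z (b j) := by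
          rw [Finset.mul_sum]
        rw [h2]
        have h3 := hZneg b hb
        have h4 : (c b).natAbs ≤ t0 :=
          Finset.single_le_sum (f := fun b => (c b).natAbs) (fun _ _ => Nat.zero_le _)
            (Finset.mem_univ b)
        have h5 : ((t0 + t1 : ℕ) : ℤ) * ∑ j, Z (b j) ≤ ((t0 + t1 : ℕ) : ℤ) * (-1) :=
          mul_le_mul_of_nonneg_left h3 (by positivity)
        push_cast at h5 ⊢
        have h6 : -((c b).natAbs : ℤ) ≤ c b := by
          rw [Int.natCast_natAbs]
          exact neg_abs_le _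
        have h7 : ((c b).natAbs : ℤ) ≤ (t0 : ℤ) := by exact_mod_cast h4
        have h8 : (0 : ℤ) ≤ (t1 : ℤ) := by positivity
        linarith)
      push_cast at h1
      have h2 : ∑ i, d i * (((t0 : ℝ) + (t1 : ℝ)) * (Z i : ℝ)) =
          ((t0 : ℝ) + (t1 : ℝ)) * ∑ i, d i * (Z i : ℝ) := by
        rw [Finset.mul_sum]
        refine Finset.sum_congr rfl fun i _ => ?_
        ring
      rw [h2, one_mul] at h1
      have h3 : T < t1 * ∑ i, d i * (Z i : ℝ) := by
        rwa [div_lt_iff₀ hZpos] at ht1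
      have h4 : (0 : ℝ) ≤ t0 * ∑ i, d i * (Z i : ℝ) := by positivity
      nlinarith)
  refine ⟨fun b => if b ∈ S then l b else 0, ?_, ?_, ?_⟩
  · intro b
    split_ifs
    · exact hl0 b
    · exact le_refl _
  · intro b hb
    simp [hb]
  · intro i
    rw [hl i]
    refine Finset.sum_congr rfl fun b _ => ?_
    by_cases hb : b ∈ S <;> simp [hb]

/-- step (3) -/
theorem step3 (hFar : StFar) {n N : ℕ} (S : Set (Fin (n + 1) → Fin N))
    (c : (Fin (n + 1) → Fin N) → ℤ) (d : Fin N → ℝ) (T' : ℝ)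
    (h : ∀ l, Feas S d l → T' ≤ ∑ b, l b * (c b : ℝ)) :
    ∃ y : Fin N → ℝ, (∀ b ∈ S, ∑ j, y (b j) ≤ c b) ∧ T' ≤ ∑ i, d i * y i := by
  classical
  by_contra hno
  push Not at hno
  obtain ⟨l, hl0, hl⟩ := hFar (Fin N ⊕ Unit) (Option (Fin (n + 1) → Fin N))
    (fun r i => match r, i with
      | some b, Sum.inl i => if b ∈ S then (∑ j, if b j = i then (1 : ℝ) else 0) else 0
      | some b, Sum.inr _ => if b ∈ S then -(c b : ℝ) else 0
      | none, Sum.inl i => - d i
      | none, Sum.inr _ => T')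
    (fun i => match i with
      | Sum.inl _ => 0
      | Sum.inr _ => 1) (by
      intro z hz
      simp only [Fintype.sum_sum_type, Finset.univ_unique, Finset.sum_singleton] at hz ⊢
      by_contra hpos
      push Not at hpos
      set t : ℝ := z (Sum.inr default) with ht
      have ht0 : 0 < t := by simpa using hpos
      have h1 : ∀ b ∈ S, ∑ j, (z (Sum.inl (b j)) / t) ≤ c b := by
        intro b hb
        have h2 := hz (some b)
        simp only [hb, if_true] at h2
        rw [inc_sum b (fun i => z (Sum.inl i))] at h2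
        rw [← Finset.sum_div, div_le_iff₀ ht0]
        linarith
      have h2 := hno (fun i => z (Sum.inl i) / t) h1
      have h3 := hz none
      simp only at h3
      have h4 : ∑ i, d i * (z (Sum.inl i) / t) = (∑ i, d i * z (Sum.inl i)) / t := by
        rw [Finset.sum_div]
        refine Finset.sum_congr rfl fun i _ => ?_
        ring
      rw [h4, div_lt_iff₀ ht0] at h2
      have h5 : ∑ i, -d i * z (Sum.inl i) = - ∑ i, d i * z (Sum.inl i) := by
        rw [← Finset.sum_neg_distrib]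
        refine Finset.sum_congr rfl fun i _ => ?_
        ring
      rw [h5] at h3
      linarith)
  set s : ℝ := l none with hs
  set μ : (Fin (n + 1) → Fin N) → ℝ := fun b => if b ∈ S then l (some b) else 0 with hμ
  have hμ0 : ∀ b, 0 ≤ μ b := by
    intro b
    simp only [hμ]
    split_ifs
    · exact hl0 _
    · exact le_refl _
  have hμS : ∀ b, b ∉ S → μ b = 0 := by
    intro b hb
    simp [hμ, hb]
  have e1 : ∀ i, ∑ b, μ b * (∑ j, if b j = i then (1 : ℝ) else 0) = s * d i := by
    intro i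
    have h1 := hl (Sum.inl i)
    simp only [Fintype.sum_option] at h1
    have h2 : ∑ b, μ b * (∑ j, if b j = i then (1 : ℝ) else 0) =
        ∑ b, l (some b) * (if b ∈ S then (∑ j, if b j = i then (1 : ℝ) else 0) else 0) := by
      refine Finset.sum_congr rfl fun b _ => ?_
      by_cases hb : b ∈ S <;> simp [hμ, hb]
    rw [h2]
    linarith
  have e2 : 1 = s * T' - ∑ b, μ b * (c b : ℝ) := by
    have h1 := hl (Sum.inr ())
    simp only [Fintype.sum_option] at h1
    have h2 : ∑ b, μ b * (c b : ℝ) = - ∑ b, l (some b) * (if b ∈ S then -(c b : ℝ) else 0) := by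
      rw [← Finset.sum_neg_distrib]
      refine Finset.sum_congr rfl fun b _ => ?_
      by_cases hb : b ∈ S <;> simp [hμ, hb]
    rw [h2]
    linarith
  have hs0 : 0 ≤ s := hl0 none
  rcases hs0.lt_or_eq with hs1 | hs1
  · have h1 := h (fun b => μ b / s) ⟨fun b => div_nonneg (hμ0 b) hs0,
      fun b hb => by simp [hμS b hb], fun i => by
        have : ∑ b, μ b / s * (∑ j, if b j = i then (1 : ℝ) else 0) =
            (∑ b, μ b * (∑ j, if b j = i then (1 : ℝ) else 0)) / s := by
          rw [Finset.sum_div]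
          refine Finset.sum_congr rfl fun b _ => ?_
          ring
        rw [this, e1 i]
        field_simp⟩
    have h2 : ∑ b, μ b / s * (c b : ℝ) = (∑ b, μ b * (c b : ℝ)) / s := by
      rw [Finset.sum_div]
      refine Finset.sum_congr rfl fun b _ => ?_
      ring
    rw [h2, le_div_iff₀ hs1] at h1
    linarith
  · have h1 : ∑ b, μ b = 0 := by
      have h2 : ∑ i, ∑ b, μ b * (∑ j, if b j = i then (1 : ℝ) else 0) = 0 := by
        refine Finset.sum_eq_zero fun i _ => ?_
        rw [e1 i, ← hs1, zero_mul]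
      rw [Finset.sum_comm] at h2
      simp_rw [← Finset.mul_sum, inc_one] at h2
      rw [← Finset.sum_mul] at h2
      have h3 : (n + 1 : ℝ) ≠ 0 := by positivity
      exact (mul_eq_zero.mp h2).resolve_right h3
    have h2 : ∀ b, μ b = 0 := by
      intro b
      exact (Finset.sum_eq_zero_iff_of_nonneg (fun b _ => hμ0 b)).mp h1 b (Finset.mem_univ b)
    have h3 : ∑ b, μ b * (c b : ℝ) = 0 := Finset.sum_eq_zero fun b _ => by rw [h2 b, zero_mul]
    rw [h3, ← hs1] at e2
    norm_num at e2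

end XLpd

open XLpd

theorem pr_Lpd (hFar : StFar) (hRat : StRat) (hBa1 : StBa1) (hBa2 : StBa2) : StLpd := by
  classical
  intro n N S c d T h
  obtain ⟨l0, hl0⟩ := step1 hFar S c d T h
  -- step (2)
  set Λ : Set ((Fin (n + 1) → Fin N) → ℝ) := {l | Feas S d l ∧ Basic l} with hΛ
  have hΛfin : Λ.Finite := (hBa2 ℝ n N d).subset fun l hl => ⟨S, hl.1, hl.2⟩
  obtain ⟨l1, hl1, hl1b, _, _⟩ := hBa1 ℝ n N S d l0 c hl0
  obtain ⟨l, hlΛ, hmin⟩ := Set.exists_min_image Λ (fun l => ∑ b, l b * (c b : ℝ)) hΛfin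
    ⟨l1, hl1, hl1b⟩
  have hl : Feas S d l := hlΛ.1
  have hopt : ∀ l', Feas S d l' → ∑ b, l b * (c b : ℝ) ≤ ∑ b, l' b * (c b : ℝ) := by
    intro l' hl'
    obtain ⟨l2, hl2, hl2b, _, hle⟩ := hBa1 ℝ n N S d l' c hl'
    exact (hmin l2 ⟨hl2, hl2b⟩).trans hle
  -- step (3)
  obtain ⟨y, hy1, hy2⟩ := step3 hFar S c d (∑ b, l b * (c b : ℝ)) hopt
  -- step (4)
  have hterm : ∀ b, 0 ≤ l b * ((c b : ℝ) - ∑ j, y (b j)) := by
    intro b
    by_cases hb : b ∈ S
    · exact mul_nonneg (hl.nonneg b) (by linarith [hy1 b hb])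
    · rw [hl.supp b hb, zero_mul]
  have hsum0 : ∑ b, l b * ((c b : ℝ) - ∑ j, y (b j)) = 0 := by
    have h1 : ∑ b, l b * ((c b : ℝ) - ∑ j, y (b j)) =
        ∑ b, l b * (c b : ℝ) - ∑ b, l b * ∑ j, y (b j) := by
      rw [← Finset.sum_sub_distrib]
      refine Finset.sum_congr rfl fun b _ => ?_
      ring
    rw [h1, ← feas_sum hl y]
    have h2 : 0 ≤ ∑ b, l b * (c b : ℝ) - ∑ i, d i * y i := by
      rw [feas_sum hl y, ← h1]
      exact Finset.sum_nonneg fun b _ => hterm b
    linarith
  have hzero : ∀ b, l b * ((c b : ℝ) - ∑ j, y (b j)) = 0 := fun b =>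
    (Finset.sum_eq_zero_iff_of_nonneg (fun b _ => hterm b)).mp hsum0 b (Finset.mem_univ b)
  -- step (5)
  set W : Finset ℝ := insert 1 ((Finset.univ.image fun b : Fin (n + 1) → Fin N =>
    (c b : ℝ) - ∑ j, y (b j)).filter fun w => 0 < w) with hW
  obtain ⟨L, a, Φ, ha, ha1, hΦ⟩ := hRat W (by
    intro w hw
    rw [hW, Finset.mem_insert, Finset.mem_filter] at hw
    rcases hw with rfl | hw
    · exact one_pos
    · exact hw.2)
  have hL : Nonempty (Fin L) := by
    by_contra hne
    rw [not_nonempty_iff] at hne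
    rw [Finset.univ_eq_empty, Finset.sum_empty] at ha1
    exact zero_ne_one ha1
  obtain ⟨i0⟩ := hL
  set φ := Φ i0 with hφ
  have hφ1 : 0 < φ 1 := (hΦ 1 (by rw [hW]; exact Finset.mem_insert_self _ _)).1 i0
  have hφint : ∀ m : ℤ, φ (m : ℝ) = m * φ 1 := by
    intro m
    have h1 : ((m : ℝ)) = (m : ℚ) • (1 : ℝ) := by
      rw [Rat.smul_def]
      simp
    rw [h1, map_smul, smul_eq_mul]
  obtain ⟨q, hq, Y, hY⟩ := common_den fun i => φ (y i) / φ 1
  have hq' : (0 : ℚ) < q := by exact_mod_cast hq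
  have key : ∀ b, ((q * c b - ∑ j, Y (b j) : ℤ) : ℚ) = q * (φ ((c b : ℝ) - ∑ j, y (b j)) / φ 1) := by
    intro b
    push_cast
    simp_rw [hY]
    rw [map_sub, hφint, map_sum, ← Finset.mul_sum, ← Finset.sum_div]
    field_simp
  have hle : ∀ b ∈ S, ∑ j, Y (b j) ≤ q * c b := by
    intro b hb
    have h1 : (0 : ℚ) ≤ ((q * c b - ∑ j, Y (b j) : ℤ) : ℚ) := by
      rw [key b]
      have h2 : 0 ≤ φ ((c b : ℝ) - ∑ j, y (b j)) := by
        have h3 : 0 ≤ (c b : ℝ) - ∑ j, y (b j) := by linarith [hy1 b hb]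
        rcases h3.lt_or_eq with h4 | h4
        · exact ((hΦ _ (by
            rw [hW, Finset.mem_insert, Finset.mem_filter]
            exact Or.inr ⟨Finset.mem_image_of_mem _ (Finset.mem_univ b), h4⟩)).1 i0).le
        · rw [← h4, map_zero]
      exact mul_nonneg hq'.le (div_nonneg h2 hφ1.le)
    have h2 : (0 : ℤ) ≤ q * c b - ∑ j, Y (b j) := by exact_mod_cast h1
    linarith
  have heq : ∀ b, l b * ((∑ j, Y (b j) : ℤ) : ℝ) = l b * ((q : ℝ) * (c b : ℝ)) := by
    intro b
    rcases mul_eq_zero.mp (hzero b) with h1 | h1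
    · rw [h1, zero_mul, zero_mul]
    · have h2 := key b
      rw [h1, map_zero, zero_div, mul_zero] at h2
      have h3 : (q * c b - ∑ j, Y (b j) : ℤ) = 0 := by exact_mod_cast h2
      have h4 : (∑ j, Y (b j) : ℤ) = q * c b := by linarith
      rw [h4]
      push_cast
      ring
  refine ⟨l, hl, q, Y, hq, hle, ?_⟩
  rw [feas_sum hl (fun i => (Y i : ℝ)), Finset.mul_sum]
  refine Finset.sum_congr rfl fun b _ => ?_
  have h1 := heq b
  push_cast at h1
  rw [h1]
  ring

end Pool.Agent.Work.MP_a2680c_ag.HA
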