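import Pool.Agent.Work.MP_a2680c_ag.HA.StmtsX

/-!
# MP_a2680c_ag, block HA, item Lsp: functions with a simple pole
-/

set_option autoImplicit false

noncomputable section

namespace Pool.Agent.Work.MP_a2680c_ag.HA

open MP7b66e6 MP7b66e6.Q
open scoped BigOperators

universe u

namespace XLsp

theorem deg_one {K : Type u} [Field K] (G : MvPolynomial (Fin 1) K) (hG : G.totalDegree ≤ 1) :
    ∃ a b : K, G = MvPolynomial.C a * MvPolynomial.X 0 + MvPolynomial.C b := by
  refine ⟨G.coeff (Finsupp.single 0 1), G.coeff 0, ?_⟩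
  ext s
  have hs : s = Finsupp.single 0 (s 0) := by
    refine Finsupp.ext fun i => ?_
    rw [Subsingleton.elim i 0, Finsupp.single_eq_same]
  rw [MvPolynomial.coeff_add, MvPolynomial.coeff_C_mul, MvPolynomial.coeff_X, MvPolynomial.coeff_C]
  by_cases h0 : s 0 = 0
  · have hs0 : s = 0 := by rw [hs, h0, Finsupp.single_zero]
    have h1 : ¬ (Finsupp.single (0 : Fin 1) 1 = (0 : Fin 1 →₀ ℕ)) := by
      intro h
      have := DFunLike.congr_fun h 0
      rw [Finsupp.single_eq_same] at this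
      exact one_ne_zero this
    rw [hs0, if_neg h1, if_pos rfl, mul_zero, zero_add]
  · have h2 : ¬ ((0 : Fin 1 →₀ ℕ) = s) := by
      intro h
      apply h0
      rw [← h]
      rfl
    rw [if_neg h2, add_zero]
    by_cases h1 : s 0 = 1
    · have hs1 : s = Finsupp.single 0 1 := by rw [hs, h1]
      rw [hs1, if_pos rfl, mul_one]
    · have h3 : ¬ (Finsupp.single (0 : Fin 1) 1 = s) := by
        intro h
        apply h1
        rw [← h, Finsupp.single_eq_same]
      rw [if_neg h3, mul_zero]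
      by_contra hne
      have h4 := MvPolynomial.le_totalDegree (MvPolynomial.mem_support_iff.2 hne)
      have h5 : s 0 ≤ s.sum fun _ e => e := by
        conv_rhs => rw [hs]
        rw [Finsupp.sum_single_index rfl]
      omega

end XLsp

open XLsp in
theorem pr_Lsp (hCls : StCls.{u}) (hOrd : StOrd.{u}) : StLsp.{u} := by
  intro K F _ _ _ z hz ν hν f hf hf1
  obtain ⟨hc1, hc2, hc3, _, _, _⟩ := hCls K F z hz
  obtain ⟨hν1, hν2⟩ := hc3 ν hν
  obtain ⟨hind, htop⟩ := id hz
  let _ : Algebra (MvPolynomial (Fin 1) K) F := (MvPolynomial.aeval z).toRingHom.toAlgebra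
  have hmap : ∀ g : MvPolynomial (Fin 1) K, algebraMap (MvPolynomial (Fin 1) K) F g =
    MvPolynomial.aeval z g := fun g => rfl
  have hinj : Function.Injective (algebraMap (MvPolynomial (Fin 1) K) F) := hind
  have hfs : FaithfulSMul (MvPolynomial (Fin 1) K) F :=
    (faithfulSMul_iff_algebraMap_injective _ _).2 hinj
  have hfrac : IsFractionRing (MvPolynomial (Fin 1) K) F := by
    refine IsFractionRing.of_field _ _ ?_
    intro w
    have hw : w ∈ IntermediateField.adjoin K (Set.range z) := by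
      rw [htop]; exact IntermediateField.mem_top
    obtain ⟨r, s, hrs⟩ := (IntermediateField.mem_adjoin_range_iff K z w).1 hw
    exact ⟨r, s, hrs⟩
  obtain ⟨g, h, hrel, hfgh⟩ := IsFractionRing.exists_reduced_fraction (MvPolynomial (Fin 1) K) f
  have hmul : f * MvPolynomial.aeval z (h : MvPolynomial (Fin 1) K) = MvPolynomial.aeval z g := by
    rw [← hfgh, ← hmap, ← hmap]
    exact IsLocalization.mk'_spec F g h
  have hh0 : (h : MvPolynomial (Fin 1) K) ≠ 0 := nonZeroDivisors.ne_zero h.2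
  have hu : IsUnit (h : MvPolynomial (Fin 1) K) := by
    by_contra hu
    obtain ⟨p, hp, hph⟩ := WfDvdMonoid.exists_irreducible_factor hu hh0
    obtain ⟨μ, hμ⟩ := (hOrd K F 1 z hz).1 p hp
    obtain ⟨hμ1, hμ2⟩ := hc2 p μ hμ
    have hne : μ ≠ ν := by
      rintro rfl
      exact absurd hν2 (not_lt.2 hμ2)
    have h1 : ((1 : ℕ) : ℤ) ≤ μ (MvPolynomial.aeval z (h : MvPolynomial (Fin 1) K)) :=
      (hμ.2 _ 1).2 (by rw [pow_one]; exact hph)
    have h2 : ¬ ((((1 : ℕ) : ℤ) : WithTop ℤ) ≤ μ (MvPolynomial.aeval z g)) := by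
      rw [hμ.2 g 1, pow_one]
      intro hpg
      exact hp.not_isUnit (hrel hpg hph)
    apply h2
    rw [← hmul, μ.map_mul]
    calc (((1 : ℕ) : ℤ) : WithTop ℤ) = 0 + (((1 : ℕ) : ℤ) : WithTop ℤ) := (zero_add _).symm
      _ ≤ _ := add_le_add (hf μ hμ1 hne) h1
  obtain ⟨c, hc, hch⟩ := MvPolynomial.isUnit_iff_eq_C_of_isReduced.1 hu
  have hc0 : c ≠ 0 := hc.ne_zero
  have hfG : f = MvPolynomial.aeval z (MvPolynomial.C c⁻¹ * g) := by
    rw [map_mul, ← hmul, hch, MvPolynomial.aeval_C, MvPolynomial.aeval_C]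
    have : algebraMap K F c⁻¹ * (f * algebraMap K F c) = f * algebraMap K F (c⁻¹ * c) := by
      rw [map_mul]; ring
    rw [this, inv_mul_cancel₀ hc0, map_one, mul_one]
  have hdeg : (MvPolynomial.C c⁻¹ * g).totalDegree ≤ 1 := by
    by_cases hG : MvPolynomial.C c⁻¹ * g = 0
    · rw [hG, MvPolynomial.totalDegree_zero]
      exact Nat.zero_le _
    · have h3 := hν _ hG
      rw [← hfG] at h3
      rw [h3, WithTop.coe_le_coe] at hf1
      omega
  obtain ⟨a, b, hab⟩ := deg_one _ hdeg
  refine ⟨a, b, ?_⟩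
  rw [hfG, hab, map_add, map_mul, MvPolynomial.aeval_C, MvPolynomial.aeval_C, MvPolynomial.aeval_X]

end Pool.Agent.Work.MP_a2680c_ag.HA
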