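import Pool.Agent.Work.MP_a2680c_ag.HA.StmtsG

/-!
# MP_a2680c_ag, block HA, item Lst
Averaging over the Galois group.
-/

set_option autoImplicit false

noncomputable section

namespace Pool.Agent.Work.MP_a2680c_ag.HA

open MP7b66e6 MP7b66e6.Q
open scoped BigOperators

universe u

namespace XLst

/-- a divisorial valuation is nonnegative on constants -/
theorem nonneg_const {k K : Type u} [Field k] [Field K] [Algebra k K] {v : AddValuation K (WithTop ℤ)}
    (h : Divisorial k v) (c : k) : 0 ≤ v (algebraMap k K c) := by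
  obtain ⟨_, C, _, hC, _⟩ := h
  exact hC _ (C.algebraMap_mem c)

end XLst

theorem pr_Lst (hCgd : StCgd.{u}) : StLst.{u} := by
  intro k K K' _ _ _ _ _ _ _ _ _ _ e n N m l r Z L a d Ξ Ξ₀ w S v 𝒟 hm hN hS hD v' ε hv' hL
  have hγ : 0 < Module.finrank K K' := Module.finrank_pos
  have hγR : (0 : ℝ) < (Module.finrank K K' : ℝ) := by exact_mod_cast hγ
  have hmR : (0 : ℝ) < (m : ℝ) := by exact_mod_cast hm
  have hεR : (0 : ℝ) < (ε : ℝ) := by exact_mod_cast hL.1
  have hcard : (Fintype.card (K' ≃ₐ[K] K') : ℝ) = (Module.finrank K K' : ℝ) := by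
    have h := IsGalois.card_aut_eq_finrank K K'
    rw [Nat.card_eq_fintype_card] at h
    exact_mod_cast h
  -- all conjugates
  have hg : ∀ g : K' ≃ₐ[K] K', Divisorial k (cg g v') := fun g => hCgd k K K' g v' hv'
  have hgL : ∀ g : K' ≃ₐ[K] K', Lies v (cg g v') ε := fun g => Api.lies_cg hL g
  have hgD := fun g : K' ≃ₐ[K] K' => hD (cg g v') ε (hg g) (hgL g)
  have hv'D := hD v' ε hv' hL
  -- values
  have hN' := hN v' ε hL
  have hS' := hS v' ε hL (fun j hj => Api.val_natCast (XLst.nonneg_const hv') j hj) (fun g => (hgD g).1)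
  have hDmg : - Dmg w S (m * Module.finrank K K') v = (∑ i, w i * (mnS (S i) v : ℝ)) / (m * Module.finrank K K') := by
    simp only [Dmg]
    push_cast
    ring
  have h1 : (Module.finrank K K' : ℝ) * (ε * (- Dmg w S (m * Module.finrank K K') v))
      = ∑ g : K' ≃ₐ[K] K', mv a d (cg g v') := by
    rw [hDmg]
    have h2 : (Module.finrank K K' : ℝ) * (ε * ((∑ i, w i * (mnS (S i) v : ℝ)) / (m * Module.finrank K K')))
        = (ε * ∑ i, w i * (mnS (S i) v : ℝ)) / m := by
      field_simp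
    rw [h2, ← hS']
    field_simp
  refine ⟨h1, ?_⟩
  -- the least element
  have heq : ∀ g : K' ≃ₐ[K] K', Tg r Z L Ξ v (cg g v') ε - mv a d (cg g v') = Tg r Z L Ξ v v' ε - mv a d v' := by
    intro g
    have h3 := (hgD g).2.unique hv'D.2
    field_simp at h3
    linarith
  have hsum : ∑ g : K' ≃ₐ[K] K', (Tg r Z L Ξ v (cg g v') ε - mv a d (cg g v'))
      = (Module.finrank K K' : ℝ) * (Tg r Z L Ξ v v' ε - mv a d v') := by
    rw [Finset.sum_congr rfl (fun g _ => heq g), Finset.sum_const, Finset.card_univ, nsmul_eq_mul, hcard]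
  have hsum2 : ∑ g : K' ≃ₐ[K] K', (Tg r Z L Ξ v (cg g v') ε - mv a d (cg g v'))
      = (Module.finrank K K' : ℝ) * (ε * (1 + can k r v - Lv Z L v))
        - (Module.finrank K K' : ℝ) * (ε * ev v Ξ₀) - (Module.finrank K K' : ℝ) * (ε * (- Dmg w S (m * Module.finrank K K') v)) := by
    rw [hN', h1, Finset.sum_sub_distrib]
    congr 1
    simp only [Tg]
    rw [Finset.sum_sub_distrib, Finset.sum_const, Finset.card_univ, nsmul_eq_mul, hcard]
  have hfin : (Tg r Z L Ξ v v' ε - mv a d v') = ε * (Tv r Z L Ξ₀ v + Dmg w S (m * Module.finrank K K') v) := by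
    have h4 := hsum.symm.trans hsum2
    have h5 : (Module.finrank K K' : ℝ) * (Tg r Z L Ξ v v' ε - mv a d v')
        = (Module.finrank K K' : ℝ) * (ε * (Tv r Z L Ξ₀ v + Dmg w S (m * Module.finrank K K') v)) := by
      rw [h4]
      simp only [Tv]
      ring
    exact mul_left_cancel₀ hγR.ne' h5
  rw [hfin]
  field_simp

end Pool.Agent.Work.MP_a2680c_ag.HA
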