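import Pool.Agent.Work.MP_a2680c_ag.HA.StmtsD

/-! Item [a2680c HA Mai] (helper9): assembly. -/

set_option autoImplicit false

noncomputable section

namespace Pool.Agent.Work.MP_a2680c_ag.HA

open MP7b66e6 MP7b66e6.Q
open scoped BigOperators

universe u

theorem pr_Mai (hCst : StCst) (hJac : StJac.{u}) (hGrm : StGrm.{u}) (hPdd : StPdd.{u}) (hKey : StKey.{u})
    (hOpt : StOpt.{u}) (hAsa : StAsa.{u}) (hAsb : StAsb.{u}) (hAsc : StAsc.{u}) (hAsd : StAsd.{u})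
    (hAse : StAse.{u}) (hAsf : StAsf.{u}) : StMai.{u} := by
  intro n hn I hI hD
  obtain ⟨J, Γ, m, hJ, hJD, hΓ, hΓf, hm, hC⟩ := hCst n I hI hD
  refine ⟨J, Γ, m, hJ, hJD, hΓ, hΓf, hm, ?_⟩
  intro κ k K F _ _ _ _ _ _ _ _ e N r y Z X D L a d hF hA
  haveI : Algebra.EssFiniteType k K := (hGrm k K Z hF.vz).1
  have hG : GenBy K y := ⟨hA.indep, hA.gen⟩
  have hlin : ∀ i, lin y (a i) ≠ 0 := (hJac k K F e n N r y a hF.basis hG hA.nz).1
  obtain ⟨Ξ, hΞ⟩ := hKey κ k K F e n N I r y Z X D L a d hn hF hA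
  have hd : ∀ i, 0 ≤ d i := fun i => (hI (hA.mem i)).1.le
  have hO : ∀ v : AddValuation K (WithTop ℤ), DivOver Z v → OptC κ a d (Tv r Z L Ξ v) v := fun v hv =>
    hOpt κ k K F e n N I r y Z X D L a d Ξ hF hG hA.nz hd hΞ v hv
  obtain ⟨hC1, l, w, G, hw, hw1, hP⟩ := hC N d hA.mem hΞ.1
  have hfs := hAsf k K e n N r Z L a d Ξ hF.basis hF.vz hF.divL hF.carL
  have hPDO : ∀ v : AddValuation K (WithTop ℤ), PD Z v → DivOver Z v := by
    intro v hv
    obtain ⟨h1, R, hR, hc, _⟩ := hPdd k K Z hF.vz v hv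
    exact ⟨h1, R, hR, hc⟩
  refine ⟨Ddd r Z L Ξ a d, Dmm a d, ?_⟩
  refine
    { bdiv := hfs.1
      bmod := hfs.2
      pa := ?_
      pb := ?_
      pc := ?_
      pg := ?_
      pd := ?_
      dis := ?_
      hull := ?_ }
  · intro ν hν
    obtain ⟨l', c, δ, μ, h1, h2, h3, h4, h5, h6⟩ :=
      hAsa κ k K F e n N I r y Z X D L a d Ξ hF hG hA.nz hΞ ν hν (hO ν (hPDO ν hν))
    rw [h6]
    exact hC1 (bas a) l' c δ μ h1 h2 h3 h4 h5
  · refine hAsb k K e n N r Z a d Γ m l w G hF.basis hF.vz hw hw1 hP ?_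
    intro v hv
    obtain ⟨_, _, _, _, h, _⟩ := hO v hv
    exact h
  · intro hQ
    exact hAsc κ k K e n N r Z L a d Ξ hF.basis hF.vz hF.divL hF.carL hQ hO
  · intro ν hν
    obtain ⟨_, _, _, _, _, h, _⟩ := hO ν hν
    have : (1 : ℝ) - Ddd r Z L Ξ a d ν = Tv r Z L Ξ ν - mv a d ν := by unfold Ddd; ring
    rw [this]
    exact h
  · exact hAsd κ k K F e n N I r y Z X D L a d Ξ hF hG hA.nz hlin hΞ
  · intro v hv
    exact hAse κ k K F e n N I r y Z X D L a d Ξ hF hG hA.nz hd hΞ v hv (hO v hv)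
  · intro v hv
    obtain ⟨_, _, _, _, h, _⟩ := hO v hv
    have : - Dmm a d v = mv a d v := by unfold Dmm; ring
    rw [this]
    exact h

end Pool.Agent.Work.MP_a2680c_ag.HA
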