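import Pool.Agent.Work.MP_a2680c_ag.HA.StmtsR

/-! [a2680c HA Mar] (helper9): assembly of part R. -/

set_option autoImplicit false

noncomputable section

namespace Pool.Agent.Work.MP_a2680c_ag.HA

open MP7b66e6 MP7b66e6.Q
open scoped BigOperators

universe u

/-- the explicit form of the discriminant and of the moduli part -/
theorem pr_Mac (hEXT : StEXT.{u, u, u}) (hTbx : StTbx.{u}) (hGrm : StGrm.{u}) (hPdd : StPdd.{u})
    (hNmx : StNmx.{u}) (hCsg : StCsg) (hHul : StHul.{u}) (hKeg : StKeg.{u}) (hOpg : StOpg.{u}) (hDsg : StDsg.{u})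
    (hLst : StLst.{u}) (hAag : StAag.{u}) : ∀ n δ : ℕ, 1 ≤ n → 1 ≤ δ → ∀ I : Set ℝ, I ⊆ Set.Ioc 0 1 → DCC I →
  ∃ (J Γ : Set ℝ) (m : ℕ), J ⊆ Set.Ioc 0 1 ∧ DCC J ∧ Γ ⊆ Set.Ioc 0 1 ∧ Γ.Finite ∧ 1 ≤ m ∧
    ∀ (κ : Prop) (k K F K' F' : Type u) [Field k] [CharZero k] [Field K] [Field F] [Field K'] [Field F'] [Algebra k K]
      [Algebra k F] [Algebra k K'] [Algebra k F'] [Algebra K F] [Algebra K K'] [Algebra K F'] [Algebra F F'] [Algebra K' F']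
      [IsScalarTower k K F] [IsScalarTower k K K'] [IsScalarTower k F F'] [IsScalarTower k K' F'] [IsScalarTower K F F']
      [IsScalarTower K K' F'] [FiniteDimensional K K'] [IsGalois K K'] [FiniteDimensional F F'] [IsGalois F F']
      (e N : ℕ) (r : Fin e → K) (x : Fin n → F) (y : Fin n → F') (Z : Set (Subalgebra k K)) (X : Set (Subalgebra k F))
      (D : AddValuation F (WithTop ℤ) → ℝ) (L : AddValuation K (WithTop ℤ) → ℝ) (a : Fin N → Fin (n + 1) → K')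
      (d : Fin N → ℝ),
      Fib κ I r x Z X D L → Cov (K := K) δ I x y X D a d →
      IsTranscendenceBasis k (cor r x) ∧ (∀ v : AddValuation K (WithTop ℤ), PD Z v → DivOver Z v) ∧
      ∃ (l γ : ℕ) (w : Fin l → ℝ) (S : Fin l → Finset Kˣ) (Ξ : Kˣ →₀ ℝ), 1 ≤ γ ∧ γ ≤ δ ∧ (∀ i, w i ∈ Γ) ∧
        (∀ i, (S i).Nonempty) ∧
        (∀ v : AddValuation K (WithTop ℤ), DivOver Z v → Pos κ (Tv r Z L Ξ v + Dmg w S (m * γ) v)) ∧
        ∀ v : AddValuation K (WithTop ℤ), PD Z v →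
          1 - (Tv r Z L Ξ v + Dmg w S (m * γ) v) = 0 ∨ 1 - (Tv r Z L Ξ v + Dmg w S (m * γ) v) ∈ J := by
  classical
  intro n δ hn hδ I hI hD
  obtain ⟨J, Γ, m, hJ, hJD, hΓ, hΓf, hm, hC⟩ := hCsg n δ I hI hD
  refine ⟨J, Γ, m, hJ, hJD, hΓ, hΓf, hm, ?_⟩
  intro κ k K F K' F' _ _ _ _ _ _ _ _ _ _ _ _ _ _ _ _ _ _ _ _ _ _ _ _ _ e N r x y Z X D L a d hF hA
  have hG : GenBy K' y := ⟨hA.indep, hA.gen⟩
  have hK1 : Algebra.EssFiniteType k K := (hGrm k K Z hF.vz).1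
  obtain ⟨hb1, _, _, _⟩ := hTbx k K F K' F' e n r x y hK1 hF.basis hG hA.base
  obtain ⟨Ξ, J', hΞ⟩ := hKeg κ k K F K' F' δ e n N I r x y Z X D L a d hn hF hA
  have hd : ∀ i, 0 ≤ d i := fun i => (hI (hA.mem i)).1.le
  have hO : ∀ v : AddValuation K (WithTop ℤ), DivOver Z v → ∀ (v' : AddValuation K' (WithTop ℤ)) (ε : ℕ),
      Divisorial k v' → Lies v v' ε → OptC κ a d (Tg r Z L Ξ v v' ε) v' := fun v hv v' ε hv' hL =>
    hOpg κ k K F K' F' e n N I r x y Z X D L a d Ξ J' hF hG hA.base hA.nz hd hΞ v hv v' ε hv' hL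
  have hDs : ∀ v : AddValuation K (WithTop ℤ), DivOver Z v → ∀ (v' : AddValuation K' (WithTop ℤ)) (ε : ℕ),
      Divisorial k v' → Lies v v' ε → IsLeast (Dis r x X D v) ((Tg r Z L Ξ v v' ε - mv a d v') / ε) :=
    fun v hv v' ε hv' hL => hDsg κ k K F K' F' e n N I r x y Z X D L a d Ξ J' hF hG hA.base hA.nz hd hΞ hA.conn v hv v' ε
      hv' hL (hO v hv v' ε hv' hL)
  have hPDO : ∀ v : AddValuation K (WithTop ℤ), PD Z v → DivOver Z v := by
    intro v hv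
    obtain ⟨h1, R, hR, hc, _⟩ := hPdd k K Z hF.vz v hv
    exact ⟨h1, R, hR, hc⟩
  obtain ⟨hC1, l, w, G, hw, hw1, hP⟩ := hC N d hA.mem hΞ.1
  -- the finite sets
  obtain ⟨S, hS, hSv⟩ : ∃ S : Fin l → Finset Kˣ, (∀ i, (S i).Nonempty) ∧
      ∀ v : AddValuation K (WithTop ℤ), DivOver Z v → ∀ (v' : AddValuation K' (WithTop ℤ)) (ε : ℕ), Lies v v' ε →
      (∀ m : ℕ, m ≠ 0 → v' (m : K') = 0) →
      (∀ g : K' ≃ₐ[K] K', IsLeast (vals (bas a) d fun b => val (cg g v') (mnr a b)) (mv a d (cg g v'))) →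
      (m : ℝ) * ∑ g : K' ≃ₐ[K] K', mv a d (cg g v') = ε * ∑ i, w i * (mnS (S i) v : ℝ) := by
    by_cases h0 : ∃ l₀, Feas (bas a) d l₀
    · haveI : CharZero K := charZero_of_injective_algebraMap (algebraMap k K).injective
      obtain ⟨S, hS, hSv⟩ := hHul K K' n N a d m l w G hP h0
      exact ⟨S, hS, fun v _ v' ε => hSv v v' ε⟩
    · refine ⟨fun _ => {1}, fun _ => Finset.singleton_nonempty 1, ?_⟩
      intro v hv
      exfalso
      obtain ⟨v', ε, hv', hL⟩ := hEXT k K K' v hv.1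
      obtain ⟨l₀, hl₀, _⟩ := hO v hv v' ε hv' hL
      exact h0 ⟨l₀, hl₀⟩
  obtain ⟨Ξ₀, hΞ₀⟩ := hNmx K K' Ξ
  set γ : ℕ := Module.finrank K K' with hγ
  have hγ0 : 0 < γ := Module.finrank_pos
  have hM : 0 < m * γ := Nat.mul_pos hm hγ0
  have hlst : ∀ v : AddValuation K (WithTop ℤ), DivOver Z v → ∀ (v' : AddValuation K' (WithTop ℤ)) (ε : ℕ),
      Divisorial k v' → Lies v v' ε →
      (γ : ℝ) * (ε * (- Dmg w S (m * γ) v)) = ∑ g : K' ≃ₐ[K] K', mv a d (cg g v') ∧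
      (Tg r Z L Ξ v v' ε - mv a d v') / ε = Tv r Z L Ξ₀ v + Dmg w S (m * γ) v := by
    intro v hv
    refine hLst k K K' e n N m l r Z L a d Ξ Ξ₀ w S v (Dis r x X D v) hm (hΞ₀ v) (hSv v hv) ?_
    intro v' ε hv' hL
    obtain ⟨_, _, _, _, hle, _⟩ := hO v hv v' ε hv' hL
    exact ⟨hle, hDs v hv v' ε hv' hL⟩
  have hpos : ∀ v : AddValuation K (WithTop ℤ), DivOver Z v → Pos κ (Tv r Z L Ξ₀ v + Dmg w S (m * γ) v) := by
    intro v hv
    obtain ⟨v', ε, hv', hL⟩ := hEXT k K K' v hv.1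
    rw [← (hlst v hv v' ε hv' hL).2]
    obtain ⟨_, _, _, _, _, hp, _⟩ := hO v hv v' ε hv' hL
    have hε : (0 : ℝ) < ε := by exact_mod_cast hL.1
    exact ⟨div_nonneg hp.1 hε.le, fun hk => div_pos (hp.2 hk) hε⟩
  refine ⟨hb1, hPDO, l, γ, w, S, Ξ₀, hγ0, hA.degK, hw, hS, hpos, ?_⟩
  intro v hv
  have hv1 := hPDO v hv
  obtain ⟨v', ε, hv', hL⟩ := hEXT k K K' v hv1.1
  obtain ⟨l', hl', hbas, hmv, _, hp, _⟩ := hO v hv1 v' ε hv' hL
  obtain ⟨E, c, μ, η, hE, hLE, hη, hηδ, heq⟩ := hAag κ k K F K' F' e n N I r x y Z X D L a d Ξ J' hF hG hA.base hA.nz hd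
    hΞ hA.conn v hv v' ε hv' hL l' hl' hmv
  have hμ : (0 : ℝ) < μ := by exact_mod_cast hLE.1
  rw [(hlst v hv1 v' ε hv' hL).2] at heq
  have h1 : 1 - (Tv r Z L Ξ₀ v + Dmg w S (m * γ) v) = 1 - (1 - D E - (∑ b, l' b * (c b : ℝ)) / η) / μ := by
    rw [heq, mul_div_cancel_left₀ _ hμ.ne']
  rw [h1]
  refine hC1 (bas a) l' c (D E) μ η hl' hbas (hF.coef E hE) hLE.1 hη (le_trans hηδ hA.degF) ?_
  have h2 : 0 ≤ (μ : ℝ) * (Tv r Z L Ξ₀ v + Dmg w S (m * γ) v) := mul_nonneg hμ.le (hpos v hv1).1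
  linarith

namespace XMar

theorem dcc_union {J E : Set ℝ} (hJ : DCC J) (hE : E.Finite) : DCC (J ∪ E) := by
  intro s hs hanti
  have hinj : Function.Injective s := hanti.injective
  have hfin : {i | s i ∈ E}.Finite := hE.preimage hinj.injOn
  obtain ⟨N, hN⟩ := hfin.bddAbove
  refine hJ (fun i => s (i + (N + 1))) ?_ ?_
  · intro i
    rcases hs (i + (N + 1)) with h | h
    · exact h
    · exfalso
      have := hN h
      omega
  · intro i j hij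
    exact hanti (by omega)

/-- the coefficients of the general members -/
def Q (Γ : Set ℝ) (m δ : ℕ) : Set ℝ := {t | ∃ a ∈ Γ, ∃ γ : ℕ, 1 ≤ γ ∧ γ ≤ δ ∧ t = a / 2 / ((m * γ : ℕ) : ℝ)}

theorem Q_fin {Γ : Set ℝ} (hΓ : Γ.Finite) (m δ : ℕ) : (Q Γ m δ).Finite := by
  have h : (Q Γ m δ) ⊆ (fun p : ℝ × ℕ => p.1 / 2 / ((m * p.2 : ℕ) : ℝ)) '' (Γ ×ˢ (Set.Icc 1 δ)) := by
    rintro t ⟨a, ha, γ, h1, h2, rfl⟩
    exact ⟨(a, γ), ⟨ha, h1, h2⟩, rfl⟩
  exact ((hΓ.prod (Set.finite_Icc 1 δ)).image _).subset h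

theorem Q_sub {Γ : Set ℝ} (hΓ : Γ ⊆ Set.Ioc 0 1) {m δ : ℕ} (hm : 1 ≤ m) : Q Γ m δ ⊆ Set.Ioc 0 1 := by
  rintro t ⟨a, ha, γ, h1, _, rfl⟩
  obtain ⟨h3, h4⟩ := hΓ ha
  have h5 : 1 ≤ m * γ := Nat.mul_pos hm h1
  have h6 : (1 : ℝ) ≤ ((m * γ : ℕ) : ℝ) := by exact_mod_cast h5
  constructor
  · positivity
  · rw [div_le_one (by linarith)]
    linarith

section
variable {k K : Type u} [Field k] [Field K] [Algebra k K]

theorem dmg_append {l : ℕ} (w : Fin l → ℝ) (S : Fin l → Finset Kˣ) (M : ℕ) (v : AddValuation K (WithTop ℤ)) :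
    Dmg (Fin.append (fun i => w i / 2) (fun i => w i / 2)) (Fin.append S S) M v = Dmg w S M v := by
  unfold Dmg
  rw [Fin.sum_univ_add]
  simp only [Fin.append_left, Fin.append_right]
  rw [← Finset.sum_add_distrib]
  congr 3
  funext i
  ring

theorem dmg_zero (v : AddValuation K (WithTop ℤ)) (w : Fin 0 → ℝ) (S : Fin 0 → Finset Kˣ) (M : ℕ) :
    Dmg w S M v = 0 := by
  unfold Dmg
  simp

theorem bpf_zero [CharZero k] (hAbg : StAbg.{u}) {e : ℕ} (r : Fin e → K) {Z : Set (Subalgebra k K)}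
    (hr : IsTranscendenceBasis k r) (hZ : Vty Z) : GBpf Z {1} (fun _ => ((1 : ℕ) : ℝ) * (0 : ℝ)) := by
  have h := hAbg k K e 1 1 1 r Z {1} (fun _ => 1) (fun _ => {1}) hr hZ one_pos one_pos (fun _ => rfl) (by simp)
    (fun _ => Finset.singleton_nonempty 1)
  have h1 : ∀ ν : AddValuation K (WithTop ℤ), mnS ({1} : Finset Kˣ) ν = 0 := by
    intro ν
    obtain ⟨⟨s, hs, h2⟩, _⟩ := Api.mnS_spec (Finset.singleton_nonempty (1 : Kˣ)) ν
    rw [Finset.mem_singleton] at hs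
    rw [h2, hs, Units.val_one, Api.val_one]
  have h3 : (fun ν : AddValuation K (WithTop ℤ) => ((1 * 1 : ℕ) : ℝ) * Dmg (fun _ : Fin 1 => (1 : ℝ)) (fun _ => {1}) 1 ν) =
      fun _ => ((1 : ℕ) : ℝ) * (0 : ℝ) := by
    funext ν
    unfold Dmg
    simp [h1]
  rw [h3] at h
  exact h

end

end XMar

theorem pr_Mar (hEXT : StEXT.{u, u, u}) (hTbx : StTbx.{u}) (hGrm : StGrm.{u}) (hPdd : StPdd.{u})
    (hNmx : StNmx.{u}) (hCsg : StCsg) (hHul : StHul.{u}) (hKeg : StKeg.{u}) (hOpg : StOpg.{u}) (hDsg : StDsg.{u})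
    (hLst : StLst.{u}) (hAag : StAag.{u}) (hAcg : StAcg.{u}) (hAdg : StAdg.{u}) (hAfg : StAfg.{u})
    (hRst : StRst.{u}) (hAbg : StAbg.{u}) : MainHR.{u} := by
  classical
  intro n δ hn hδ I hI hD
  obtain ⟨J, Γ, m, hJ, hJD, hΓ, hΓf, hm, hC⟩ := pr_Mac hEXT hTbx hGrm hPdd hNmx hCsg hHul hKeg hOpg hDsg hLst hAag n δ hn hδ
    I hI hD
  refine ⟨J ∪ XMar.Q Γ m δ, Set.union_subset hJ (XMar.Q_sub hΓ hm), XMar.dcc_union hJD (XMar.Q_fin hΓf m δ), ?_⟩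
  intro κ k K F K' F' _ _ _ _ _ _ _ _ _ _ _ _ _ _ _ _ _ _ _ _ _ _ _ _ _ _ e N r x y Z X D L a d htr hF hA
  obtain ⟨hb1, hPDO, l, γ, w, S, Ξ, hγ1, hγδ, hw, hS, hpos, hpa⟩ := hC κ k K F K' F' e N r x y Z X D L a d hF hA
  have hM : 0 < m * γ := Nat.mul_pos hm hγ1
  set M : ℕ := m * γ with hMd
  have hMr : (1 : ℝ) ≤ (M : ℝ) := by exact_mod_cast hM
  have hMr0 : (0 : ℝ) < (M : ℝ) := lt_of_lt_of_le one_pos hMr
  set w₂ : Fin (l + l) → ℝ := Fin.append (fun i => w i / 2) (fun i => w i / 2) with hw₂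
  set S₂ : Fin (l + l) → Finset Kˣ := Fin.append S S with hS₂
  have hw2 : ∀ j, ∃ i, w₂ j = w i / 2 := by
    intro j
    induction j using Fin.addCases with
    | left i => exact ⟨i, by rw [hw₂, Fin.append_left]⟩
    | right i => exact ⟨i, by rw [hw₂, Fin.append_right]⟩
  have hS2 : ∀ j, (S₂ j).Nonempty := by
    intro j
    induction j using Fin.addCases with
    | left i => rw [hS₂, Fin.append_left]; exact hS i
    | right i => rw [hS₂, Fin.append_right]; exact hS i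
  have hw20 : ∀ j, 0 < w₂ j ∧ w₂ j ≤ 1 / 2 := by
    intro j
    obtain ⟨i, hi⟩ := hw2 j
    obtain ⟨h1, h2⟩ := hΓ (hw i)
    rw [hi]
    constructor <;> linarith
  have hD2 : ∀ v, Dmg w₂ S₂ M v = Dmg w S M v := fun v => XMar.dmg_append w S M v
  obtain ⟨σ, hσ1, hσ2⟩ := hRst k K e (l + l) M r Z L Ξ w₂ S₂ htr hF.basis hF.vz hF.divL hF.carL hM
    (fun j => (hw20 j).1.le) hS2 (by intro v hv; rw [hD2]; exact (hpos v hv).1)
  -- the new principal part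
  set Ξ₂ : Kˣ →₀ ℝ := Ξ + ∑ j, Finsupp.single (σ j) (w₂ j / M) with hΞ₂
  have hev : ∀ v : AddValuation K (WithTop ℤ), ev v Ξ₂ = ev v Ξ + ∑ j, (w₂ j / M) * (val v (σ j : K) : ℝ) := by
    intro v
    rw [hΞ₂, Api.ev_add, Api.ev_sum]
    congr 1
    exact Finset.sum_congr rfl fun j _ => Api.ev_single v (σ j) _
  have hT : ∀ v : AddValuation K (WithTop ℤ), Tv r Z L Ξ₂ v = (Tv r Z L Ξ v + Dmg w S M v) -
      ∑ j, (w₂ j / M) * ((val v (σ j : K) : ℝ) - (mnS (S₂ j) v : ℝ)) := by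
    intro v
    rw [← hD2 v]
    unfold Tv
    rw [hev v]
    unfold Dmg
    have h1 : ∑ j, (w₂ j / M) * ((val v (σ j : K) : ℝ) - (mnS (S₂ j) v : ℝ)) =
        ∑ j, (w₂ j / M) * (val v (σ j : K) : ℝ) - (∑ j, w₂ j * (mnS (S₂ j) v : ℝ)) / M := by
      rw [Finset.sum_div, ← Finset.sum_sub_distrib]
      exact Finset.sum_congr rfl fun j _ => by ring
    rw [h1]
    ring
  have hh : ∀ v : AddValuation K (WithTop ℤ), DivOver Z v → ∀ j,
      (0 : ℝ) ≤ (val v (σ j : K) : ℝ) - (mnS (S₂ j) v : ℝ) := by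
    intro v hv j
    have := hσ1 j v hv
    have h2 : (mnS (S₂ j) v : ℝ) ≤ (val v (σ j : K) : ℝ) := by exact_mod_cast this
    linarith
  have hc : ∀ j, w₂ j / M ≤ 1 / 2 := by
    intro j
    rw [div_le_iff₀ hMr0]
    have := (hw20 j).2
    nlinarith
  have hsum : ∀ v : AddValuation K (WithTop ℤ), DivOver Z v →
      ∑ j, (w₂ j / M) * ((val v (σ j : K) : ℝ) - (mnS (S₂ j) v : ℝ)) ≤ (1 / 2) * (Tv r Z L Ξ v + Dmg w S M v) := by
    intro v hv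
    have h1 := hσ2 v hv
    rw [hD2] at h1
    refine le_trans (Finset.sum_le_sum fun j _ => mul_le_mul_of_nonneg_right (hc j) (hh v hv j)) ?_
    rw [← Finset.mul_sum]
    exact mul_le_mul_of_nonneg_left h1 (by norm_num)
  let w₀ : Fin 0 → ℝ := fun i => i.elim0
  let S₀ : Fin 0 → Finset Kˣ := fun i => i.elim0
  have hp2 : ∀ v : AddValuation K (WithTop ℤ), DivOver Z v → Pos κ (Tv r Z L Ξ₂ v + Dmg w₀ S₀ 1 v) := by
    intro v hv
    rw [XMar.dmg_zero, add_zero, hT v]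
    have h1 := hsum v hv
    have h2 := hpos v hv
    constructor
    · linarith [h2.1]
    · intro hk
      linarith [h2.2 hk]
  have hfs := hAfg k K e 0 1 r Z L Ξ₂ w₀ S₀ hF.basis hF.vz hF.divL hF.carL
  have hcc := hAcg κ k K e 0 1 r Z L Ξ₂ w₀ S₀ hF.basis hF.vz hF.divL hF.carL one_pos (fun i => i.elim0)
    (fun i => i.elim0) hp2
  have hz : Dmg w₀ S₀ 1 = fun _ : AddValuation K (WithTop ℤ) => (0 : ℝ) := funext fun v => XMar.dmg_zero v w₀ S₀ 1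
  have hval : ∀ v, Ddg r Z L Ξ₂ w₀ S₀ 1 v = 1 - Tv r Z L Ξ₂ v := by
    intro v
    unfold Ddg
    rw [XMar.dmg_zero, add_zero]
  refine ⟨Ddg r Z L Ξ₂ w₀ S₀ 1, ?_⟩
  refine
    { bdiv := hfs.1
      bmod := by rw [← hz]; exact hfs.2
      pa := ?_
      pb := XMar.bpf_zero hAbg r hF.basis hF.vz
      pc := hcc.2 (by
        intro O _
        refine ⟨0, fun ν _ => ?_⟩
        rw [Api.ev_zero, XMar.dmg_zero])
      pd := ?_ }
  · intro v hv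
    have hv1 := hPDO v hv
    rw [hval, hT v]
    set Y : ℝ := Tv r Z L Ξ v + Dmg w S M v with hY
    have hY1 : Y ≤ 1 := by
      rcases hpa v hv with h | h
      · linarith
      · linarith [(hJ h).1]
    have h1 : ∑ j, ((val v (σ j : K) : ℝ) - (mnS (S₂ j) v : ℝ)) ≤ Y := by
      have := hσ2 v hv1
      rw [hD2] at this
      exact this
    by_cases h0 : ∀ j, (val v (σ j : K) : ℝ) - (mnS (S₂ j) v : ℝ) = 0
    · have h2 : ∑ j, (w₂ j / M) * ((val v (σ j : K) : ℝ) - (mnS (S₂ j) v : ℝ)) = 0 :=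
        Finset.sum_eq_zero fun j _ => by rw [h0 j, mul_zero]
      rw [h2, sub_zero]
      rcases hpa v hv with h | h
      · exact Or.inl h
      · exact Or.inr (Or.inl h)
    · push Not at h0
      obtain ⟨j₀, hj₀⟩ := h0
      have hone : (1 : ℝ) ≤ (val v (σ j₀ : K) : ℝ) - (mnS (S₂ j₀) v : ℝ) := by
        have h2 := hh v hv1 j₀
        have h3 : (0 : ℝ) < (val v (σ j₀ : K) : ℝ) - (mnS (S₂ j₀) v : ℝ) := lt_of_le_of_ne h2 (Ne.symm hj₀)
        have h4 : (0 : ℤ) < val v (σ j₀ : K) - mnS (S₂ j₀) v := by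
          have : (0 : ℝ) < ((val v (σ j₀ : K) - mnS (S₂ j₀) v : ℤ) : ℝ) := by push_cast; exact h3
          exact_mod_cast this
        have h5 : (1 : ℤ) ≤ val v (σ j₀ : K) - mnS (S₂ j₀) v := h4
        have : (1 : ℝ) ≤ ((val v (σ j₀ : K) - mnS (S₂ j₀) v : ℤ) : ℝ) := by exact_mod_cast h5
        push_cast at this
        exact this
      have hrest : ∑ j ∈ Finset.univ.erase j₀, ((val v (σ j : K) : ℝ) - (mnS (S₂ j) v : ℝ)) =
          ∑ j, ((val v (σ j : K) : ℝ) - (mnS (S₂ j) v : ℝ)) - ((val v (σ j₀ : K) : ℝ) - (mnS (S₂ j₀) v : ℝ)) := by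
        rw [← Finset.add_sum_erase Finset.univ _ (Finset.mem_univ j₀)]
        ring
      have hr0 : 0 ≤ ∑ j ∈ Finset.univ.erase j₀, ((val v (σ j : K) : ℝ) - (mnS (S₂ j) v : ℝ)) :=
        Finset.sum_nonneg fun j _ => hh v hv1 j
      have hYe : Y = 1 := by linarith
      have hje : (val v (σ j₀ : K) : ℝ) - (mnS (S₂ j₀) v : ℝ) = 1 := by linarith
      have hr1 : ∑ j ∈ Finset.univ.erase j₀, ((val v (σ j : K) : ℝ) - (mnS (S₂ j) v : ℝ)) = 0 := by linarith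
      have hr2 := (Finset.sum_eq_zero_iff_of_nonneg fun j _ => hh v hv1 j).1 hr1
      have h2 : ∑ j, (w₂ j / M) * ((val v (σ j : K) : ℝ) - (mnS (S₂ j) v : ℝ)) = w₂ j₀ / M := by
        rw [← Finset.add_sum_erase Finset.univ _ (Finset.mem_univ j₀), hje, mul_one,
          Finset.sum_eq_zero fun j hj => by rw [hr2 j hj, mul_zero], add_zero]
      rw [h2, hYe]
      right
      right
      obtain ⟨i, hi⟩ := hw2 j₀
      refine ⟨w i, hw i, γ, hγ1, hγδ, ?_⟩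
      rw [hi, hMd]
      ring
  · refine hAdg κ k K F e n I r x Z X D L Ξ₂ _ _ hF hb1 ?_
    intro ν
    rw [hval]
    unfold Tv
    ring

end Pool.Agent.Work.MP_a2680c_ag.HA
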