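import Pool.Agent.Work.MP_a2680c_ag.HA.StmtsG
import Pool.Agent.Work.MP_a2680c_ag.HA.DefsV
import Pool.Agent.Work.MP_a2680c_ag.HA.I_Mag
import Pool.Agent.Work.MP_a2680c_ag.HA.I_Kev
import Pool.Agent.Work.MP_a2680c_ag.HA.I_Ixa

/-! [a2680c HA Mav] (helper9): assembly of part G for crepant covers in the birational sense. -/

set_option autoImplicit false

noncomputable section

namespace Pool.Agent.Work.MP_a2680c_ag.HA

open MP7b66e6 MP7b66e6.Q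
open scoped BigOperators

universe u

theorem pr_Mvb (hEXT : StEXT.{u, u, u}) (hTbx : StTbx.{u}) (hGrm : StGrm.{u}) (hPdd : StPdd.{u}) (hCgd : StCgd.{u})
    (hNmx : StNmx.{u}) (hCsg : StCsg) (hHul : StHul.{u}) (hKev : StKev.{u}) (hOpg : StOpg.{u}) (hDsg : StDsg.{u})
    (hLst : StLst.{u}) (hAag : StAag.{u}) (hAbg : StAbg.{u}) (hAcg : StAcg.{u}) (hAdg : StAdg.{u}) (hAfg : StAfg.{u})
    (hImn : StImn.{u}) (hIbg : StIbg.{u}) : ∀ n δ : ℕ, 1 ≤ n → 1 ≤ δ → ∀ I : Set ℝ, I ⊆ Set.Ioc 0 1 → DCC I →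
  ∃ (J Γ : Set ℝ) (m : ℕ), J ⊆ Set.Ioc 0 1 ∧ DCC J ∧ Γ ⊆ Set.Ioc 0 1 ∧ Γ.Finite ∧ 1 ≤ m ∧
    ∀ (κ : Prop) (k K F K' F' : Type u) [Field k] [CharZero k] [Field K] [Field F] [Field K'] [Field F'] [Algebra k K]
      [Algebra k F] [Algebra k K'] [Algebra k F'] [Algebra K F] [Algebra K K'] [Algebra K F'] [Algebra F F'] [Algebra K' F']
      [IsScalarTower k K F] [IsScalarTower k K K'] [IsScalarTower k F F'] [IsScalarTower k K' F'] [IsScalarTower K F F']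
      [IsScalarTower K K' F'] [FiniteDimensional K K'] [IsGalois K K'] [FiniteDimensional F F'] [IsGalois F F']
      (e N : ℕ) (r : Fin e → K) (x : Fin n → F) (y : Fin n → F') (Z : Set (Subalgebra k K)) (X : Set (Subalgebra k F))
      (D : AddValuation F (WithTop ℤ) → ℝ) (L : AddValuation K (WithTop ℤ) → ℝ) (a : Fin N → Fin (n + 1) → K')
      (d : Fin N → ℝ),
      Fib κ I r x Z X D L → Cvb δ I r x y X D a d →
      ∃ Dd Dm : AddValuation K (WithTop ℤ) → ℝ, AdjG κ J Γ m r x Z X D a d Dd Dm ∧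
        ∀ M : ℕ, 0 < M → (∀ i, ∃ u : ℕ, (M : ℝ) * d i = u) → IntG M F' Z X D a d Dd Dm := by
  classical
  intro n δ hn hδ I hI hD
  obtain ⟨J, Γ, m, hJ, hJD, hΓ, hΓf, hm, hC⟩ := hCsg n δ I hI hD
  refine ⟨J, Γ, m * δ.factorial, hJ, hJD, hΓ, hΓf, Nat.mul_pos hm (Nat.factorial_pos δ), ?_⟩
  intro κ k K F K' F' _ _ _ _ _ _ _ _ _ _ _ _ _ _ _ _ _ _ _ _ _ _ _ _ _ e N r x y Z X D L a d hF hA
  have hG : GenBy K' y := ⟨hA.indep, hA.gen⟩
  have hK1 : Algebra.EssFiniteType k K := (hGrm k K Z hF.vz).1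
  obtain ⟨hb1, _, _, _⟩ := hTbx k K F K' F' e n r x y hK1 hF.basis hG hA.base
  obtain ⟨Ξ, J', hΞ⟩ := hKev κ k K F K' F' δ e n N I r x y Z X D L a d hn hF hA
  have hd : ∀ i, 0 ≤ d i := fun i => (hI (hA.mem i)).1.le
  have hO : ∀ v : AddValuation K (WithTop ℤ), DivOver Z v → ∀ (v' : AddValuation K' (WithTop ℤ)) (ε : ℕ),
      Divisorial k v' → Lies v v' ε → OptC κ a d (Tg r Z L Ξ v v' ε) v' := fun v hv v' ε hv' hL =>
    hOpg κ k K F K' F' e n N I r x y Z X D L a d Ξ J' hF hG hA.base hA.nz hd hΞ v hv v' ε hv' hL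
  have hDs : ∀ v : AddValuation K (WithTop ℤ), DivOver Z v → ∀ (v' : AddValuation K' (WithTop ℤ)) (ε : ℕ),
      Divisorial k v' → Lies v v' ε → IsLeast (Dis r x X D v) ((Tg r Z L Ξ v v' ε - mv a d v') / ε) :=
    fun v hv v' ε hv' hL => hDsg κ k K F K' F' e n N I r x y Z X D L a d Ξ J' hF hG hA.base hA.nz hd hΞ hA.conn v hv v' ε
      hv' hL (hO v hv v' ε hv' hL)
  have hPDO : ∀ v : AddValuation K (WithTop ℤ), PD Z v → DivOver Z v := by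
    intro v hv
    obtain ⟨h1, R, hR, hc, _⟩ := hPdd k K Z hF.vz v hv
    exact ⟨h1, R, hR, hc⟩
  obtain ⟨hC1, l, w, G, hw, hw1, hP⟩ := hC N d hA.mem hΞ.1
  have hw0 : ∀ i, 0 ≤ w i := fun i => (hΓ (hw i)).1.le
  -- the finite sets
  obtain ⟨S, hS, hSv⟩ : ∃ S : Fin l → Finset Kˣ, (∀ i, (S i).Nonempty) ∧
      ∀ v : AddValuation K (WithTop ℤ), DivOver Z v → ∀ (v' : AddValuation K' (WithTop ℤ)) (ε : ℕ), Lies v v' ε →
      (∀ m : ℕ, m ≠ 0 → v' (m : K') = 0) →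
      (∀ g : K' ≃ₐ[K] K', IsLeast (vals (bas a) d fun b => val (cg g v') (mnr a b)) (mv a d (cg g v'))) →
      (m : ℝ) * ∑ g : K' ≃ₐ[K] K', mv a d (cg g v') = ε * ∑ i, w i * (mnS (S i) v : ℝ) := by
    by_cases h0 : ∃ l₀, Feas (bas a) d l₀
    · haveI : CharZero K := charZero_of_injective_algebraMap (algebraMap k K).injective
      obtain ⟨S, hS, hSv⟩ := hHul K K' n N a d m l w G hP h0
      exact ⟨S, hS, fun v _ v' ε => hSv v v' ε⟩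
    · refine ⟨fun _ => {1}, fun _ => Finset.singleton_nonempty 1, ?_⟩
      intro v hv
      exfalso
      obtain ⟨v', ε, hv', hL⟩ := hEXT k K K' v hv.1
      obtain ⟨l₀, hl₀, _⟩ := hO v hv v' ε hv' hL
      exact h0 ⟨l₀, hl₀⟩
  obtain ⟨Ξ₀, hΞ₀⟩ := hNmx K K' Ξ
  set γ : ℕ := Module.finrank K K' with hγ
  have hγ0 : 0 < γ := Module.finrank_pos
  have hM : 0 < m * γ := Nat.mul_pos hm hγ0
  have hlst : ∀ v : AddValuation K (WithTop ℤ), DivOver Z v → ∀ (v' : AddValuation K' (WithTop ℤ)) (ε : ℕ),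
      Divisorial k v' → Lies v v' ε →
      (γ : ℝ) * (ε * (- Dmg w S (m * γ) v)) = ∑ g : K' ≃ₐ[K] K', mv a d (cg g v') ∧
      (Tg r Z L Ξ v v' ε - mv a d v') / ε = Tv r Z L Ξ₀ v + Dmg w S (m * γ) v := by
    intro v hv
    refine hLst k K K' e n N m l r Z L a d Ξ Ξ₀ w S v (Dis r x X D v) hm (hΞ₀ v) (hSv v hv) ?_
    intro v' ε hv' hL
    obtain ⟨_, _, _, _, hle, _⟩ := hO v hv v' ε hv' hL
    exact ⟨hle, hDs v hv v' ε hv' hL⟩
  have hpos : ∀ v : AddValuation K (WithTop ℤ), DivOver Z v → Pos κ (Tv r Z L Ξ₀ v + Dmg w S (m * γ) v) := by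
    intro v hv
    obtain ⟨v', ε, hv', hL⟩ := hEXT k K K' v hv.1
    rw [← (hlst v hv v' ε hv' hL).2]
    obtain ⟨_, _, _, _, _, hp, _⟩ := hO v hv v' ε hv' hL
    have hε : (0 : ℝ) < ε := by exact_mod_cast hL.1
    exact ⟨div_nonneg hp.1 hε.le, fun hk => div_pos (hp.2 hk) hε⟩
  have hfs := hAfg k K e l (m * γ) r Z L Ξ₀ w S hF.basis hF.vz hF.divL hF.carL
  have hcc := hAcg κ k K e l (m * γ) r Z L Ξ₀ w S hF.basis hF.vz hF.divL hF.carL hM hw0 hS hpos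
  have hsub : ∀ v : AddValuation K (WithTop ℤ), 1 - Ddg r Z L Ξ₀ w S (m * γ) v = Tv r Z L Ξ₀ v + Dmg w S (m * γ) v := by
    intro v; unfold Ddg; ring
  refine ⟨Ddg r Z L Ξ₀ w S (m * γ), Dmg w S (m * γ), ?_, ?_⟩
  refine
    { bdiv := hfs.1
      bmod := hfs.2
      pa := ?_
      pb := ?_
      car := hcc.1
      pc := hcc.2
      pg := ?_
      pd := ?_
      dis := ?_
      hull := ?_ }
  · intro v hv
    have hv1 := hPDO v hv
    obtain ⟨v', ε, hv', hL⟩ := hEXT k K K' v hv1.1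
    obtain ⟨l', hl', hbas, hmv, _, hp, _⟩ := hO v hv1 v' ε hv' hL
    obtain ⟨E, c, μ, η, hE, hLE, hη, hηδ, heq⟩ := hAag κ k K F K' F' e n N I r x y Z X D L a d Ξ J' hF hG hA.base hA.nz hd
      hΞ hA.conn v hv v' ε hv' hL l' hl' hmv
    have hμ : (0 : ℝ) < μ := by exact_mod_cast hLE.1
    have hε : (0 : ℝ) < ε := by exact_mod_cast hL.1
    rw [(hlst v hv1 v' ε hv' hL).2] at heq
    have h1 : Ddg r Z L Ξ₀ w S (m * γ) v = 1 - (1 - D E - (∑ b, l' b * (c b : ℝ)) / η) / μ := by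
      rw [heq, mul_div_cancel_left₀ _ hμ.ne', ← hsub v]; ring
    rw [h1]
    refine hC1 (bas a) l' c (D E) μ η hl' hbas (hF.coef E hE) hLE.1 hη (le_trans hηδ hA.degF) ?_
    have h2 : 0 ≤ (μ : ℝ) * (Tv r Z L Ξ₀ v + Dmg w S (m * γ) v) := mul_nonneg hμ.le (hpos v hv1).1
    linarith
  · have hdvd : γ ∣ δ.factorial := Nat.dvd_factorial hγ0 hA.degK
    obtain ⟨c, hc⟩ := hdvd
    have hc0 : 0 < c := by
      rcases Nat.eq_zero_or_pos c with h | h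
      · rw [h, mul_zero] at hc
        exact absurd hc (Nat.factorial_pos δ).ne'
      · exact h
    have h1 := hAbg k K e l (m * γ) c r Z Γ w S hF.basis hF.vz hM hc0 hw hw1 hS
    have h2 : c * (m * γ) = m * δ.factorial := by rw [hc]; ring
    rw [h2] at h1
    exact h1
  · intro v hv
    rw [hsub v]
    exact hpos v hv
  · refine hAdg κ k K F e n I r x Z X D L Ξ₀ _ _ hF hb1 ?_
    intro ν
    unfold Ddg Tv
    ring
  · intro v hv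
    obtain ⟨v', ε, hv', hL⟩ := hEXT k K K' v hv.1
    rw [hsub v, ← (hlst v hv v' ε hv' hL).2]
    exact hDs v hv v' ε hv' hL
  · intro v hv v' ε hv' hL
    refine ⟨fun g => ?_, (hlst v hv v' ε hv' hL).1⟩
    obtain ⟨_, _, _, _, hle, _⟩ := hO v hv (cg g v') ε (hCgd k K K' g v' hv') (Api.lies_cg hL g)
    exact hle
  · intro M hM0 hu
    have hM' : (M : ℝ) ≠ 0 := by exact_mod_cast hM0.ne'
    refine ⟨?_, ?_, ?_⟩
    · refine hIbg κ k K K' e n N M r Z a d (Dmg w S (m * γ)) hF.basis hF.vz hM0 hu hΞ.1 ?_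
      intro v hv
      obtain ⟨v', ε, hv', hL⟩ := hEXT k K K' v hv.1
      refine ⟨v', ε, hv', hL, fun g => ⟨(hCgd k K K' g v' hv').1, _, hO v hv (cg g v') ε (hCgd k K K' g v' hv')
        (Api.lies_cg hL g)⟩, (hlst v hv v' ε hv' hL).1⟩
    · intro v hv v' ε hv' hL g
      exact hImn κ K' (cg g v') (hCgd k K K' g v' hv').1 n N M a d _ hM0 hu hΞ.1
        (hO v hv (cg g v') ε (hCgd k K K' g v' hv') (Api.lies_cg hL g))
    · intro v hv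
      have hv1 := hPDO v hv
      obtain ⟨v', ε, hv', hL⟩ := hEXT k K K' v hv1.1
      obtain ⟨⟨B, hB, hBs⟩, _⟩ := hImn κ K' v' hv'.1 n N M a d _ hM0 hu hΞ.1 (hO v hv1 v' ε hv' hL)
      have hl := XIxa.feas_dec hM0 a d B hB
      have hmv : mv a d v' = ∑ b, XIxa.dec B b * (val v' (mnr a b) : ℝ) := by
        rw [XIxa.sum_dec B (fun b => (val v' (mnr a b) : ℝ)), ← hBs, mul_div_cancel_left₀ _ hM']
      obtain ⟨E, c, μ, η, hE, hLE, hη, hηδ, heq⟩ := hAag κ k K F K' F' e n N I r x y Z X D L a d Ξ J' hF hG hA.base hA.nz hd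
        hΞ hA.conn v hv v' ε hv' hL _ hl hmv
      have hμ : (0 : ℝ) < μ := by exact_mod_cast hLE.1
      rw [(hlst v hv1 v' ε hv' hL).2, XIxa.sum_dec B (fun b => (c b : ℝ)), div_div] at heq
      have hj : (∑ t, (c (B t) : ℝ)) = (((∑ t, c (B t) : ℕ) : ℕ) : ℝ) := by push_cast; rfl
      rw [hj] at heq
      have h2 : 0 ≤ (μ : ℝ) * (Tv r Z L Ξ₀ v + Dmg w S (m * γ) v) := mul_nonneg hμ.le (hpos v hv1).1
      refine ⟨E, ∑ t, c (B t), μ, η, hE, hLE, hη, hηδ, by linarith, ?_⟩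
      rw [heq, mul_div_cancel_left₀ _ hμ.ne', ← hsub v]; ring

theorem pr_Mvg (hEXT : StEXT.{u, u, u}) (hTbx : StTbx.{u}) (hGrm : StGrm.{u}) (hPdd : StPdd.{u}) (hCgd : StCgd.{u})
    (hNmx : StNmx.{u}) (hCsg : StCsg) (hHul : StHul.{u}) (hKev : StKev.{u}) (hOpg : StOpg.{u}) (hDsg : StDsg.{u})
    (hLst : StLst.{u}) (hAag : StAag.{u}) (hAbg : StAbg.{u}) (hAcg : StAcg.{u}) (hAdg : StAdg.{u}) (hAfg : StAfg.{u})
    (hImn : StImn.{u}) (hIbg : StIbg.{u}) : MainVG.{u} := by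
  intro n δ hn hδ I hI hD
  obtain ⟨J, Γ, m, hJ, hJD, hΓ, hΓf, hm, hC⟩ := pr_Mvb hEXT hTbx hGrm hPdd hCgd hNmx hCsg hHul hKev hOpg hDsg hLst hAag hAbg
    hAcg hAdg hAfg hImn hIbg n δ hn hδ I hI hD
  refine ⟨J, Γ, m, hJ, hJD, hΓ, hΓf, hm, ?_⟩
  intro κ k K F K' F' _ _ _ _ _ _ _ _ _ _ _ _ _ _ _ _ _ _ _ _ _ _ _ _ _ e N r x y Z X D L a d hF hA
  obtain ⟨Dd, Dm, h, _⟩ := hC κ k K F K' F' e N r x y Z X D L a d hF hA
  exact ⟨Dd, Dm, h⟩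

theorem pr_Mvh (hEXT : StEXT.{u, u, u}) (hTbx : StTbx.{u}) (hGrm : StGrm.{u}) (hPdd : StPdd.{u}) (hCgd : StCgd.{u})
    (hNmx : StNmx.{u}) (hCsg : StCsg) (hHul : StHul.{u}) (hKev : StKev.{u}) (hOpg : StOpg.{u}) (hDsg : StDsg.{u})
    (hLst : StLst.{u}) (hAag : StAag.{u}) (hAbg : StAbg.{u}) (hAcg : StAcg.{u}) (hAdg : StAdg.{u}) (hAfg : StAfg.{u})
    (hImn : StImn.{u}) (hIbg : StIbg.{u}) : MainVH.{u} := by
  intro n M δ hn hM hδ κ k K F K' F' _ _ _ _ _ _ _ _ _ _ _ _ _ _ _ _ _ _ _ _ _ _ _ _ _ e N r x y Z X D L a d hF hA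
  obtain ⟨J, Γ, m, _, _, _, _, _, hC⟩ := pr_Mvb hEXT hTbx hGrm hPdd hCgd hNmx hCsg hHul hKev hOpg hDsg hLst hAag hAbg
    hAcg hAdg hAfg hImn hIbg n δ hn hδ (IM M) (XMag_sub M) (XMag_dcc M)
  obtain ⟨Dd, Dm, h, ho⟩ := hC κ k K F K' F' e N r x y Z X D L a d hF hA
  have hM' : (0 : ℝ) < M := by exact_mod_cast hM
  have hu : ∀ i, ∃ u : ℕ, (M : ℝ) * d i = u := by
    intro i
    obtain ⟨j, _, _, hj⟩ := hA.mem i
    exact ⟨j, by rw [hj, mul_div_cancel₀ _ hM'.ne']⟩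
  obtain ⟨h1, h2, h3⟩ := ho M hM hu
  refine ⟨Dd, Dm, h.bdiv, h.bmod, ?_, h1, h.car, h.pc, h.pg, h.pd, h.dis, ?_⟩
  · intro ν hν
    obtain ⟨E, j, μ, η, hE, hL, hη, hηδ, hle, heq⟩ := h3 ν hν
    have hη' : (0 : ℝ) < η := by exact_mod_cast hη
    have hDE : ∃ j₀ : ℕ, D E = (j₀ : ℝ) / M := by
      rcases hF.coef E hE with h0 | ⟨j₀, _, _, hj₀⟩
      · exact ⟨0, by rw [h0]; simp⟩
      · exact ⟨j₀, hj₀⟩
    obtain ⟨j₀, hj₀⟩ := hDE
    have h5 : (j₀ : ℝ) / M + j / (M * η) = ((j₀ * η + j : ℕ) : ℝ) / (M * η) := by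
      push_cast
      field_simp
    rw [hj₀] at hle heq
    rw [h5] at hle
    refine ⟨j₀ * η + j, η, μ, hη, le_trans hηδ hA.degF, ?_, hL.1, ?_⟩
    · rw [div_le_one (mul_pos hM' hη')] at hle
      exact_mod_cast hle
    · rw [heq, ← h5]; ring
  · intro v hv v' ε hv' hL
    refine ⟨fun g => M * mv a d (cg g v'), fun g => h2 v hv v' ε hv' hL g, ?_⟩
    rw [← Finset.mul_sum, ← (h.hull v hv v' ε hv' hL).2]
    ring

end Pool.Agent.Work.MP_a2680c_ag.HA
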