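import Pool.Agent.Work.MP_a2680c_ag.HA.StmtsB

/-!
# MP_a2680c_ag, block HA, item Mdv (helper30): monomial valuations are divisorial
-/

set_option autoImplicit false

noncomputable section

namespace Pool.Agent.Work.MP_a2680c_ag.HA

open MP7b66e6 MP7b66e6.Q
open scoped BigOperators

universe u

namespace XMdv

theorem coe_val {K : Type u} [Field K] (ν : AddValuation K (WithTop ℤ)) {f : K} (hf : f ≠ 0) :
    ν f = (val ν f : WithTop ℤ) := by
  have h : ν f ≠ ⊤ := by
    intro h
    exact hf ((AddValuation.top_iff ν).1 h)
  unfold val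
  obtain ⟨a, ha⟩ := WithTop.ne_top_iff_exists.1 h
  rw [← ha]
  rfl

theorem val_eq {K : Type u} [Field K] (ν : AddValuation K (WithTop ℤ)) {f : K} {a : ℤ}
    (h : ν f = (a : WithTop ℤ)) : val ν f = a := by
  unfold val
  rw [h]
  rfl

/-- the value of a constant -/
theorem mon_const {K F : Type u} [Field K] [Field F] [Algebra K F] {n : ℕ} {z : Fin n → F}
    {v : AddValuation K (WithTop ℤ)} {q : ℕ} {w : Fin n → ℤ} {W : AddValuation F (WithTop ℤ)} {g : ℕ}
    (h : MonV z v q w W g) {c : K} (hc : c ≠ 0) :
    (g : ℤ) * val W (algebraMap K F c) = q * val v c := by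
  have hP : (MvPolynomial.C c : MvPolynomial (Fin n) K) ≠ 0 := by
    intro h0
    exact hc ((MvPolynomial.C_eq_zero (σ := Fin n)).1 h0)
  obtain ⟨-, s, hs, h2⟩ := h (MvPolynomial.C c) hP
  have hs0 : s = 0 := by
    by_contra hne
    rw [MvPolynomial.mem_support_iff, MvPolynomial.coeff_C, if_neg (Ne.symm hne)] at hs
    exact hs rfl
  rw [MvPolynomial.aeval_C] at h2
  rw [h2, hs0, MvPolynomial.coeff_C, if_pos rfl]
  simp

end XMdv

open XMdv in
theorem pr_Mdv (hDVL : NgDVL.{u, u}) (hTb : StTb.{u}) (hLif : StLif.{u}) (hTfr : StTfr.{u})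
    (hLbs : StLbs.{u}) (hMlg : StMlg.{u}) : StMdv.{u} := by
  intro k K F _ _ _ _ _ _ _ _ _ e n r z hr hz v q w W g hv hq hg hW1 hmon A hA
  obtain ⟨⟨pd, hpd⟩, -⟩ := hTb k K e r hr
  obtain ⟨f, Θ, hf0, hΘf, hΘlog, hΘdet⟩ := hLbs k K e r pd hpd v A hA
  obtain ⟨hL1, hL2, -⟩ := hLif k K F n z hz
  choose E1 hE1a hE1z using fun i : Fin e => hL1 (Θ i)
  choose dz hdz1 hdz2 using hL2
  obtain ⟨hFT, htr, -⟩ := hTfr k K F e n r z hr hz
  have hz0 : ∀ j, z j ≠ 0 := fun j => hz.1.ne_zero j
  have hE2a : ∀ (i : Fin n) (c : K), (z i • dz i) (algebraMap K F c) = 0 := by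
    intro i c
    rw [Derivation.smul_apply, hdz1, smul_zero]
  have hE2z : ∀ i j : Fin n, (z i • dz i) (z j) = if i = j then z j else 0 := by
    intro i j
    rw [Derivation.smul_apply, hdz2, smul_eq_mul]
    by_cases hij : i = j
    · rw [if_pos hij, if_pos hij, mul_one, hij]
    · rw [if_neg hij, if_neg hij, mul_zero]
  have hlog1 : ∀ i, LogGe W (E1 i) 0 := fun i =>
    hMlg k K F n z hz v q w W g hg hmon (E1 i) (Or.inl ⟨Θ i, hΘlog i, hE1a i, hE1z i⟩)
  have hlog2 : ∀ i, LogGe W (z i • dz i) 0 := fun i =>
    hMlg k K F n z hz v q w W g hg hmon (z i • dz i) (Or.inr ⟨i, hE2a i, hE2z i⟩)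
  have hcon : ∀ c : K, c ≠ 0 → (g : ℤ) * val W (algebraMap K F c) = q * val v c :=
    fun c hc => mon_const hmon hc
  have hgz : (g : ℤ) ≠ 0 := by exact_mod_cast hg.ne'
  have hinj : Function.Injective (algebraMap K F) := (algebraMap K F).injective
  -- constants
  have hconst : ∀ c : k, c ≠ 0 → W (algebraMap k F c) = 0 := by
    intro c hc
    obtain ⟨-, C, -, hC, -⟩ := hv
    have hc' : algebraMap k K c ≠ 0 := by
      intro h0
      exact hc ((algebraMap k K).injective (by rw [h0, map_zero]))
    have h1 : 0 ≤ v (algebraMap k K c) := hC _ (C.algebraMap_mem c)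
    have h2 : 0 ≤ v (algebraMap k K c⁻¹) := hC _ (C.algebraMap_mem c⁻¹)
    have h3 : v (algebraMap k K c) + v (algebraMap k K c⁻¹) = 0 := by
      rw [← AddValuation.map_mul, ← map_mul, mul_inv_cancel₀ hc, map_one, AddValuation.map_one]
    have hci' : algebraMap k K c⁻¹ ≠ 0 := by
      intro h0
      exact inv_ne_zero hc ((algebraMap k K).injective (by rw [h0, map_zero]))
    rw [coe_val v hc'] at h1 h3
    rw [coe_val v hci'] at h2 h3
    have h1' : 0 ≤ val v (algebraMap k K c) := by exact_mod_cast h1
    have h2' : 0 ≤ val v (algebraMap k K c⁻¹) := by exact_mod_cast h2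
    have h3' : val v (algebraMap k K c) + val v (algebraMap k K c⁻¹) = 0 := by exact_mod_cast h3
    have h4 : val v (algebraMap k K c) = 0 := by omega
    have h5 := hcon _ hc'
    rw [h4, mul_zero] at h5
    have h6 : val W (algebraMap K F (algebraMap k K c)) = 0 := by
      rcases mul_eq_zero.1 h5 with h | h
      · exact absurd h hgz
      · exact h
    have h7 : algebraMap K F (algebraMap k K c) ≠ 0 := by
      intro h0
      exact hc' (hinj (by rw [h0, map_zero]))
    rw [IsScalarTower.algebraMap_apply k K F, coe_val W h7, h6]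
    rfl
  -- the tuple
  have hEt : ∀ i j : Fin (e + n), (Fin.append E1 (fun i => z i • dz i) i)
      (Fin.append (fun j => algebraMap K F (f j)) z j) =
      if i = j then Fin.append (fun j => algebraMap K F (f j)) z j else 0 := by
    intro i j
    refine Fin.addCases (fun i' => ?_) (fun i' => ?_) i
    · refine Fin.addCases (fun j' => ?_) (fun j' => ?_) j
      · rw [Fin.append_left, Fin.append_left, hE1a, hΘf]
        by_cases hij : i' = j'
        · rw [if_pos hij, if_pos (by rw [hij])]
        · rw [if_neg hij, map_zero, if_neg]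
          intro h
          exact hij (Fin.castAdd_injective _ _ h)
      · rw [Fin.append_left, Fin.append_right, hE1z, if_neg]
        intro h
        have := congrArg Fin.val h
        simp only [Fin.val_castAdd, Fin.val_natAdd] at this
        omega
    · refine Fin.addCases (fun j' => ?_) (fun j' => ?_) j
      · rw [Fin.append_right, Fin.append_left, hE2a, if_neg]
        intro h
        have := congrArg Fin.val h
        simp only [Fin.val_castAdd, Fin.val_natAdd] at this
        omega
      · rw [Fin.append_right, Fin.append_right, hE2z]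
        by_cases hij : i' = j'
        · rw [if_pos hij, if_pos (by rw [hij])]
        · rw [if_neg hij, if_neg]
          intro h
          exact hij (Fin.natAdd_injective _ _ h)
  have hlogE : ∀ i : Fin (e + n), LogGe W (Fin.append E1 (fun i => z i • dz i) i) 0 := by
    intro i
    refine Fin.addCases (fun i' => ?_) (fun i' => ?_) i
    · rw [Fin.append_left]
      exact hlog1 i'
    · rw [Fin.append_right]
      exact hlog2 i'
  have hdiv : Divisorial k W := by
    refine hDVL k F (e + n) htr W hconst hW1 (Fin.append (fun j => algebraMap K F (f j)) z)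
      (Fin.append E1 (fun i => z i • dz i)) ?_ hEt hlogE
    intro j
    refine Fin.addCases (fun j' => ?_) (fun j' => ?_) j
    · rw [Fin.append_left]
      intro h0
      exact hf0 j' (hinj (by rw [h0, map_zero]))
    · rw [Fin.append_right]
      exact hz0 j'
  refine ⟨hdiv, ?_, Fin.append E1 (fun i => z i • dz i), hlogE, ?_⟩
  · obtain ⟨⟨π, hπ⟩, -⟩ := hv
    have hπ0 : π ≠ 0 := by
      rintro rfl
      rw [AddValuation.map_zero] at hπ
      exact absurd hπ (by simp)
    have hvπ : val v π = 1 := val_eq v (by rw [hπ]; rfl)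
    have h1 := hcon π hπ0
    rw [hvπ, mul_one] at h1
    have hqz : (0 : ℤ) < q := by exact_mod_cast hq
    have hgz' : (0 : ℤ) < g := by exact_mod_cast hg
    have hmpos : 0 < val W (algebraMap K F π) := by
      by_contra hcon2
      have : (g : ℤ) * val W (algebraMap K F π) ≤ 0 :=
        mul_nonpos_of_nonneg_of_nonpos hgz'.le (not_lt.1 hcon2)
      omega
    have hm : ((val W (algebraMap K F π)).toNat : ℤ) = val W (algebraMap K F π) :=
      Int.toNat_of_nonneg hmpos.le
    refine ⟨(val W (algebraMap K F π)).toNat, ?_, ?_, ?_⟩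
    · have : ((g * (val W (algebraMap K F π)).toNat : ℕ) : ℤ) = q := by
        rw [Nat.cast_mul, hm]
        exact h1
      exact_mod_cast this
    · omega
    · intro c hc
      rw [hm]
      have h2 := hcon c hc
      rw [← h1, mul_assoc] at h2
      exact mul_left_cancel₀ hgz h2
  · have hdet0 : Matrix.det (fun i j => Θ i (r j)) ≠ 0 := by
      intro h0
      rw [h0, AddValuation.map_zero] at hΘdet
      exact absurd hΘdet.symm (WithTop.coe_ne_top)
    have hM : Matrix.det (fun i : Fin (e + n) =>
        Fin.append (fun j => (Fin.append E1 (fun i => z i • dz i) i) (algebraMap K F (r j)))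
          (fun j => (Fin.append E1 (fun i => z i • dz i) i) (z j) / z j)) =
        algebraMap K F (Matrix.det (fun i j => Θ i (r j))) := by
      refine (Matrix.det_submatrix_equiv_self
        (finSumFinEquiv : Fin e ⊕ Fin n ≃ Fin (e + n)) _).symm.trans ?_
      have hb : Matrix.submatrix (Matrix.of fun i : Fin (e + n) =>
          Fin.append (fun j => (Fin.append E1 (fun i => z i • dz i) i) (algebraMap K F (r j)))
          (fun j => (Fin.append E1 (fun i => z i • dz i) i) (z j) / z j))
          (finSumFinEquiv : Fin e ⊕ Fin n ≃ Fin (e + n)) finSumFinEquiv =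
          Matrix.fromBlocks ((algebraMap K F).mapMatrix (Matrix.of fun i j => Θ i (r j))) 0 0 1 := by
        apply Matrix.ext
        intro i j
        rcases i with i | i
        · rcases j with j | j
          · rw [Matrix.submatrix_apply, Matrix.of_apply, finSumFinEquiv_apply_left, finSumFinEquiv_apply_left,
              Fin.append_left, Fin.append_left, hE1a]
            rfl
          · rw [Matrix.submatrix_apply, Matrix.of_apply, finSumFinEquiv_apply_left, finSumFinEquiv_apply_right,
              Fin.append_right, Fin.append_left, hE1z, zero_div]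
            rfl
        · rcases j with j | j
          · rw [Matrix.submatrix_apply, Matrix.of_apply, finSumFinEquiv_apply_right, finSumFinEquiv_apply_left,
              Fin.append_left, Fin.append_right, hE2a]
            rfl
          · rw [Matrix.submatrix_apply, Matrix.of_apply, finSumFinEquiv_apply_right, finSumFinEquiv_apply_right,
              Fin.append_right, Fin.append_right, hE2z, Matrix.fromBlocks_apply₂₂, Matrix.one_apply]
            by_cases hij : i = j
            · rw [if_pos hij, if_pos hij, div_self (hz0 j)]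
            · rw [if_neg hij, if_neg hij, zero_div]
      refine (congrArg Matrix.det hb).trans ?_
      rw [Matrix.det_fromBlocks_zero₂₁, Matrix.det_one, mul_one, ← RingHom.map_det]
      rfl
    rw [hM]
    refine ⟨?_, ?_⟩
    · intro h0
      exact hdet0 (hinj (by rw [h0, map_zero]))
    · rw [hcon _ hdet0, val_eq v hΘdet]

end Pool.Agent.Work.MP_a2680c_ag.HA
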