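import Pool.Agent.Work.MP_a2680c_ag.HA.StmtsB

/-!
# Item Mlg of block HA: logarithmic derivations for a monomial valuation
-/

set_option autoImplicit false

noncomputable section

namespace Pool.Agent.Work.MP_a2680c_ag.HA

open MP7b66e6 MP7b66e6.Q
open scoped BigOperators

universe u

namespace XMlg

lemma val_eq {K : Type u} [Field K] (v : AddValuation K (WithTop ℤ)) {f : K} (hf : f ≠ 0) :
    v f = ((val v f : ℤ) : WithTop ℤ) := by
  have h : v f ≠ ⊤ := fun h => hf (AddValuation.top_iff v |>.1 h)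
  obtain ⟨m, hm⟩ := WithTop.ne_top_iff_exists.1 h
  unfold val
  rw [← hm]
  rfl

lemma le_nsmul {K : Type u} [Field K] (v : AddValuation K (WithTop ℤ)) (a : K) :
    ∀ m : ℕ, v a ≤ v (m • a)
  | 0 => by rw [zero_smul, AddValuation.map_zero]; exact le_top
  | m + 1 => by
    rw [succ_nsmul]
    exact v.map_le_add (le_nsmul v a m) le_rfl

section
variable {k K F : Type u} [Field k] [Field K] [Field F] [Algebra k K] [Algebra k F] [Algebra K F]
  {n : ℕ}

/-- the derivation of a power product -/
lemma der_prod (z : Fin n → F) (E : Derivation k F F) (L : Fin n → ℕ)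
    (hL : ∀ j, E (z j) = (L j : F) * z j) (s : Fin n →₀ ℕ) (t : Finset (Fin n)) :
    E (∏ j ∈ t, z j ^ s j) = ((∑ j ∈ t, s j * L j : ℕ) : F) * ∏ j ∈ t, z j ^ s j := by
  classical
  induction t using Finset.induction_on with
  | empty => simp
  | insert a t ha ih =>
    rw [Finset.prod_insert ha, Finset.sum_insert ha, Derivation.leibniz, ih, Derivation.leibniz_pow,
      hL a]
    simp only [smul_eq_mul, nsmul_eq_mul]
    rcases Nat.eq_zero_or_pos (s a) with h0 | hpos
    · rw [h0]; push_cast; ring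
    · obtain ⟨m, hm⟩ := Nat.exists_eq_succ_of_ne_zero hpos.ne'
      rw [hm]
      simp only [Nat.succ_eq_add_one, Nat.add_sub_cancel]
      push_cast
      ring

/-- the new coefficients -/
def cc (D : K → K) (L : Fin n → ℕ) (s : Fin n →₀ ℕ) (a : K) : K := D a + (∑ j, s j * L j) • a

omit [Algebra k K] in
lemma der_mon (z : Fin n → F) (E : Derivation k F F) (D : K → K) (L : Fin n → ℕ)
    (hD : ∀ f : K, E (algebraMap K F f) = algebraMap K F (D f))
    (hL : ∀ j, E (z j) = (L j : F) * z j) (s : Fin n →₀ ℕ) (a : K) :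
    E (MvPolynomial.aeval z (MvPolynomial.monomial s a)) =
      MvPolynomial.aeval z (MvPolynomial.monomial s (cc D L s a)) := by
  rw [MvPolynomial.aeval_monomial, MvPolynomial.aeval_monomial]
  have hp : (s.prod fun i m => z i ^ m) = ∏ j, z j ^ s j :=
    Finsupp.prod_fintype s _ fun i => pow_zero _
  rw [hp, Derivation.leibniz, der_prod z E L hL s Finset.univ, hD]
  unfold cc
  rw [map_add, map_nsmul]
  simp only [smul_eq_mul, nsmul_eq_mul]
  ring

omit [Algebra k K] in
lemma poly (z : Fin n → F) (v : AddValuation K (WithTop ℤ)) (q : ℕ) (w : Fin n → ℤ)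
    (W : AddValuation F (WithTop ℤ)) (g : ℕ) (hg : 0 < g) (hM : MonV z v q w W g)
    (hz : AlgebraicIndependent K z)
    (E : Derivation k F F) (D : K → K) (L : Fin n → ℕ) (hD0 : D 0 = 0)
    (hDv : ∀ f : K, v f ≤ v (D f))
    (hD : ∀ f : K, E (algebraMap K F f) = algebraMap K F (D f))
    (hL : ∀ j, E (z j) = (L j : F) * z j) (P : MvPolynomial (Fin n) K) :
    W (MvPolynomial.aeval z P) ≤ W (E (MvPolynomial.aeval z P)) := by
  classical
  set P' : MvPolynomial (Fin n) K :=
    ∑ s ∈ P.support, MvPolynomial.monomial s (cc D L s (P.coeff s)) with hP'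
  have hc0 : ∀ s, cc D L s (0 : K) = 0 := fun s => by unfold cc; rw [hD0]; simp
  have hcoef : ∀ s, P'.coeff s = cc D L s (P.coeff s) := by
    intro s
    rw [hP', MvPolynomial.coeff_sum]
    simp only [MvPolynomial.coeff_monomial]
    rw [Finset.sum_ite_eq']
    split_ifs with hs
    · rfl
    · rw [MvPolynomial.notMem_support_iff.1 hs, hc0]
  have hE : E (MvPolynomial.aeval z P) = MvPolynomial.aeval z P' := by
    conv_lhs => rw [P.as_sum]
    rw [hP', map_sum, map_sum, map_sum]
    exact Finset.sum_congr rfl fun s _ => der_mon z E D L hD hL s _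
  rw [hE]
  by_cases hP0 : P' = 0
  · rw [hP0, map_zero, AddValuation.map_zero]
    exact le_top
  obtain ⟨-, s, hs, hval⟩ := hM P' hP0
  have hcv : v (P.coeff s) ≤ v (P'.coeff s) := by
    rw [hcoef s]
    unfold cc
    exact v.map_le_add (hDv _) (le_nsmul v _ _)
  have hs' : P'.coeff s ≠ 0 := MvPolynomial.mem_support_iff.1 hs
  have hsP : P.coeff s ≠ 0 := by
    intro h0
    apply hs'
    rw [hcoef s, h0, hc0]
  have hPne : P ≠ 0 := by
    intro h0
    apply hsP
    rw [h0, MvPolynomial.coeff_zero]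
  have h1 := (hM P hPne).1 s (MvPolynomial.mem_support_iff.2 hsP)
  have hcv' : val v (P.coeff s) ≤ val v (P'.coeff s) := by
    rw [val_eq v hsP, val_eq v hs'] at hcv
    exact_mod_cast hcv
  have hz1 : MvPolynomial.aeval z P ≠ 0 := by
    intro h0
    apply hPne
    exact (map_eq_zero_iff _ hz).1 h0
  have hz2 : MvPolynomial.aeval z P' ≠ 0 := by
    intro h0
    apply hP0
    exact (map_eq_zero_iff _ hz).1 h0
  rw [val_eq W hz1, val_eq W hz2]
  have h2 : (g : ℤ) * val W (MvPolynomial.aeval z P) ≤ g * val W (MvPolynomial.aeval z P') := by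
    rw [hval]
    refine h1.trans ?_
    have h3 : (q : ℤ) * val v (P.coeff s) ≤ q * val v (P'.coeff s) :=
      mul_le_mul_of_nonneg_left hcv' (Int.natCast_nonneg q)
    linarith
  have h4 : val W (MvPolynomial.aeval z P) ≤ val W (MvPolynomial.aeval z P') :=
    le_of_mul_le_mul_left h2 (by exact_mod_cast hg)
  exact_mod_cast h4

lemma main (z : Fin n → F) (v : AddValuation K (WithTop ℤ)) (q : ℕ) (w : Fin n → ℤ)
    (W : AddValuation F (WithTop ℤ)) (g : ℕ) (hg : 0 < g) (hM : MonV z v q w W g)
    (hz : GenBy K z)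
    (E : Derivation k F F) (D : K → K) (L : Fin n → ℕ) (hD0 : D 0 = 0)
    (hDv : ∀ f : K, v f ≤ v (D f))
    (hD : ∀ f : K, E (algebraMap K F f) = algebraMap K F (D f))
    (hL : ∀ j, E (z j) = (L j : F) * z j) : LogGe W E 0 := by
  intro f
  have hf : f ∈ IntermediateField.adjoin K (Set.range z) := by rw [hz.2]; trivial
  obtain ⟨P, Q, hPQ⟩ := (IntermediateField.mem_adjoin_range_iff K z f).1 hf
  have hz0 : ((0 : ℤ) : WithTop ℤ) = 0 := rfl
  rw [hz0, add_zero]
  set p := MvPolynomial.aeval z P with hp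
  set b := MvPolynomial.aeval z Q with hb
  by_cases hb0 : b = 0
  · rw [hb0, div_zero] at hPQ
    have hE0 : E f = 0 := by rw [hPQ]; exact map_zero E
    rw [hE0, AddValuation.map_zero]
    exact le_top
  have hP := poly z v q w W g hg hM hz.1 E D L hD0 hDv hD hL P
  have hQ := poly z v q w W g hg hM hz.1 E D L hD0 hDv hD hL Q
  rw [← hp] at hP
  rw [← hb] at hQ
  have hfb : b * f = p := by rw [hPQ]; field_simp
  have hEp : E p = b * E f + f * E b := by
    rw [← hfb, Derivation.leibniz]
    simp only [smul_eq_mul]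
  have hsub : b * E f = E p - f * E b := by rw [hEp]; ring
  have h1 : W b + W f ≤ W (b * E f) := by
    rw [hsub]
    refine W.map_le_sub ?_ ?_
    · rw [← AddValuation.map_mul, hfb]; exact hP
    · rw [AddValuation.map_mul, add_comm (W f)]
      exact add_le_add_left hQ (W f)
  rw [AddValuation.map_mul] at h1
  have hWb : W b ≠ ⊤ := fun h => hb0 (AddValuation.top_iff W |>.1 h)
  exact (WithTop.add_le_add_iff_left hWb).1 h1

end

end XMlg

open XMlg in
/-- Item [Mlg] -/
theorem pr_Mlg : StMlg.{u} := by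
  intro k K F _ _ _ _ _ _ _ n z hz v q w W g hg hM E hE
  rcases hE with ⟨D, hDv, hD, hEz⟩ | ⟨i, hE0, hEz⟩
  · refine main z v q w W g hg hM hz E (fun f => D f) (fun _ => 0) (map_zero D) ?_ hD ?_
    · intro f
      have h := hDv f
      have hz0 : ((0 : ℤ) : WithTop ℤ) = 0 := rfl
      rw [hz0, add_zero] at h
      exact h
    · intro j
      rw [hEz j]; simp
  · refine main z v q w W g hg hM hz E (fun _ => 0) (fun j => if i = j then 1 else 0) rfl ?_ ?_ ?_
    · intro f
      rw [AddValuation.map_zero]; exact le_top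
    · intro f
      rw [hE0 f, map_zero]
    · intro j
      rw [hEz j]
      split_ifs
      · simp
      · simp

end Pool.Agent.Work.MP_a2680c_ag.HA
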