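import Pool.Agent.Work.MP_a2680c_ag.HA.StmtsW

/-!
# Item Mnf of block HA: a finitely generated monoid of positive numbers is locally finite
-/

set_option autoImplicit false

noncomputable section

namespace Pool.Agent.Work.MP_a2680c_ag.HA

universe u

namespace XMnf

theorem list_le {ε : ℝ} : ∀ l : List ℝ, (∀ y ∈ l, ε ≤ y) → (l.length : ℝ) * ε ≤ l.sum := by
  intro l
  induction l with
  | nil => intro _; simp
  | cons a l ih =>
    intro h
    have h1 := ih (fun y hy => h y (List.mem_cons_of_mem _ hy))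
    have h2 := h a List.mem_cons_self
    rw [List.length_cons, List.sum_cons]
    push_cast
    linarith

theorem nonneg {G : Set ℝ} (hG : ∀ g ∈ G, 0 < g) {t : ℝ} (ht : t ∈ AddSubmonoid.closure G) :
    0 ≤ t := by
  induction ht using AddSubmonoid.closure_induction with
  | mem x hx => exact (hG x hx).le
  | zero => exact le_rfl
  | add x y _ _ hx hy => exact add_nonneg hx hy

theorem exists_eps {G : Set ℝ} (hf : G.Finite) (hG : ∀ g ∈ G, 0 < g) :
    ∃ ε : ℝ, 0 < ε ∧ ∀ g ∈ G, ε ≤ g := by
  rcases G.eq_empty_or_nonempty with h | h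
  · exact ⟨1, one_pos, by simp [h]⟩
  · obtain ⟨g, hg, hmin⟩ := hf.exists_minimal h
    refine ⟨g, hG g hg, fun x hx => ?_⟩
    rcases le_total g x with h1 | h1
    · exact h1
    · exact hmin hx h1

end XMnf

theorem pr_Mnf : StMnf := by
  intro G hf hG
  refine ⟨?_, fun t ht => XMnf.nonneg hG ht⟩
  obtain ⟨ε, hε, hle⟩ := XMnf.exists_eps hf hG
  have hfin : Finite G := hf
  obtain ⟨N, hN⟩ := exists_nat_ge (1 / ε)
  have hL : {l : List G | l.length ≤ N}.Finite := List.finite_length_le G N
  refine (hL.image (fun l : List G => (l.map (fun x : G => (x : ℝ))).sum)).subset ?_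
  rintro t ⟨ht, ht1⟩
  obtain ⟨l, hl, rfl⟩ := AddSubmonoid.exists_list_of_mem_closure ht
  refine ⟨l.attach.map (fun x => ⟨x.1, hl x.1 x.2⟩), ?_, ?_⟩
  · show (l.attach.map (fun x => (⟨x.1, hl x.1 x.2⟩ : G))).length ≤ N
    rw [List.length_map, List.length_attach]
    have h1 := XMnf.list_le l (fun y hy => hle y (hl y hy))
    have h2 : (l.length : ℝ) ≤ 1 / ε := by
      rw [le_div_iff₀ hε]
      linarith
    exact_mod_cast h2.trans hN
  · show ((l.attach.map (fun x => (⟨x.1, hl x.1 x.2⟩ : G))).map (fun x : G => (x : ℝ))).sum = l.sum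
    rw [List.map_map]
    congr 1
    exact List.attach_map_subtype_val l

end Pool.Agent.Work.MP_a2680c_ag.HA
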