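import Pool.Agent.Work.MP_a2680c_ag.HA.StmtsB

/-!
# MP_a2680c_ag, block HA, item Mnv: monomial valuations (helper85)
-/

set_option autoImplicit false

noncomputable section

namespace Pool.Agent.Work.MP_a2680c_ag.HA

open MP7b66e6 MP7b66e6.Q
open scoped BigOperators

universe u

namespace XMnv

/-- In `WithTop ℤ` an inequality can be tested on integers. -/
theorem le_of_int {a b : WithTop ℤ} (h : ∀ n : ℤ, (n : WithTop ℤ) ≤ a → (n : WithTop ℤ) ≤ b) :
    a ≤ b := by
  induction a using WithTop.recTopCoe with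
  | top =>
    induction b using WithTop.recTopCoe with
    | top => exact le_rfl
    | coe m =>
      have := h (m + 1) le_top
      rw [WithTop.coe_le_coe] at this
      omega
  | coe n => exact h n le_rfl

theorem eq_of_int {a b : WithTop ℤ} (h : ∀ n : ℤ, (n : WithTop ℤ) ≤ a ↔ (n : WithTop ℤ) ≤ b) :
    a = b :=
  le_antisymm (le_of_int fun n => (h n).1) (le_of_int fun n => (h n).2)

theorem coe_val {K : Type u} [Field K] {ν : AddValuation K (WithTop ℤ)} {f : K} (h : f ≠ 0) :
    ((val ν f : ℤ) : WithTop ℤ) = ν f := by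
  have h1 : ν f ≠ ⊤ := fun h' => h ((AddValuation.top_iff ν).1 h')
  obtain ⟨m, hm⟩ := WithTop.ne_top_iff_exists.1 h1
  unfold val
  rw [← hm]
  rfl

theorem shift (x : WithTop ℤ) (m c : ℤ) :
    ((m - c : ℤ) : WithTop ℤ) ≤ x ↔ (m : WithTop ℤ) ≤ x + (c : WithTop ℤ) := by
  induction x using WithTop.recTopCoe with
  | top => simp
  | coe y =>
    rw [← WithTop.coe_add, WithTop.coe_le_coe, WithTop.coe_le_coe]
    omega

section
variable {K : Type u} [Field K] {n : ℕ} (v : AddValuation K (WithTop ℤ)) (w : Fin n → ℤ)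

/-- the weight of an exponent -/
def wt (s : Fin n →₀ ℕ) : ℤ := ∑ j, w j * (s j : ℤ)

theorem wt_add (s t : Fin n →₀ ℕ) : wt w (s + t) = wt w s + wt w t := by
  unfold wt
  rw [← Finset.sum_add_distrib]
  refine Finset.sum_congr rfl fun j _ => ?_
  rw [Finsupp.add_apply]
  push_cast
  ring

theorem wt_zero : wt w 0 = 0 := by simp [wt]

/-- all the terms have value at least `m` -/
def Ge (m : ℤ) (P : MvPolynomial (Fin n) K) : Prop :=
  ∀ s, ((m - wt w s : ℤ) : WithTop ℤ) ≤ v (P.coeff s)

/-- the least value of a term -/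
def ord (P : MvPolynomial (Fin n) K) : WithTop ℤ :=
  P.support.inf fun s => v (P.coeff s) + ((wt w s : ℤ) : WithTop ℤ)

theorem le_ord_iff (m : ℤ) (P : MvPolynomial (Fin n) K) :
    (m : WithTop ℤ) ≤ ord v w P ↔ Ge v w m P := by
  unfold ord Ge
  rw [Finset.le_inf_iff]
  constructor
  · intro h s
    by_cases hs : s ∈ P.support
    · rw [shift]
      exact h s hs
    · rw [MvPolynomial.notMem_support_iff.1 hs, AddValuation.map_zero]
      exact le_top
  · intro h s _
    rw [← shift]
    exact h s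

theorem Ge.mul {a b : ℤ} {P Q : MvPolynomial (Fin n) K} (hP : Ge v w a P) (hQ : Ge v w b Q) :
    Ge v w (a + b) (P * Q) := by
  classical
  intro u
  rw [MvPolynomial.coeff_mul]
  refine AddValuation.map_le_sum v fun x hx => ?_
  rw [Finset.HasAntidiagonal.mem_antidiagonal] at hx
  rw [AddValuation.map_mul]
  have e : (((a + b) - wt w u : ℤ) : WithTop ℤ) =
      ((a - wt w x.1 : ℤ) : WithTop ℤ) + ((b - wt w x.2 : ℤ) : WithTop ℤ) := by
    rw [← WithTop.coe_add, ← hx, wt_add]
    congr 1
    ring
  rw [e]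
  exact add_le_add (hP x.1) (hQ x.2)

theorem exists_exact (P : MvPolynomial (Fin n) K) (hP : P ≠ 0) :
    ∃ a : ℤ, ord v w P = (a : WithTop ℤ) ∧ ∃ s : Fin n →₀ ℕ,
      v (P.coeff s) = ((a - wt w s : ℤ) : WithTop ℤ) ∧
      ∀ x : Fin n →₀ ℕ, (MonomialOrder.lex (σ := Fin n)).toSyn s < MonomialOrder.lex.toSyn x →
        ((a + 1 - wt w x : ℤ) : WithTop ℤ) ≤ v (P.coeff x) := by
  classical
  obtain ⟨s0, hs0, hs0'⟩ := Finset.exists_mem_eq_inf P.support
    (MvPolynomial.support_nonempty.2 hP) (fun s => v (P.coeff s) + ((wt w s : ℤ) : WithTop ℤ))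
  have hne : v (P.coeff s0) ≠ ⊤ := fun h =>
    (MvPolynomial.mem_support_iff.1 hs0) ((AddValuation.top_iff v).1 h)
  obtain ⟨y, hy⟩ := WithTop.ne_top_iff_exists.1 hne
  have ha : ord v w P = ((y + wt w s0 : ℤ) : WithTop ℤ) := by
    unfold ord
    rw [hs0', ← hy, ← WithTop.coe_add]
  obtain ⟨a, haa⟩ : ∃ a : ℤ, a = y + wt w s0 := ⟨_, rfl⟩
  rw [← haa] at ha
  have hge : Ge v w a P := (le_ord_iff v w a P).1 ha.ge
  obtain ⟨s, hs, hmax⟩ := Finset.exists_max_image
    (P.support.filter fun s => v (P.coeff s) + ((wt w s : ℤ) : WithTop ℤ) = (a : WithTop ℤ))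
    (fun s => (MonomialOrder.lex (σ := Fin n)).toSyn s)
    ⟨s0, by
      rw [Finset.mem_filter]
      refine ⟨hs0, ?_⟩
      rw [← hy, ← WithTop.coe_add, haa]⟩
  rw [Finset.mem_filter] at hs
  refine ⟨a, ha, s, ?_, ?_⟩
  · have hne' : v (P.coeff s) ≠ ⊤ := fun h =>
      (MvPolynomial.mem_support_iff.1 hs.1) ((AddValuation.top_iff v).1 h)
    obtain ⟨y', hy'⟩ := WithTop.ne_top_iff_exists.1 hne'
    have h := hs.2
    rw [← hy', ← WithTop.coe_add, WithTop.coe_inj] at h
    rw [← hy', WithTop.coe_inj]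
    omega
  · intro x hx
    by_cases hxs : x ∈ P.support
    · have h1 := hge x
      rw [shift] at h1 ⊢
      have h2 : v (P.coeff x) + ((wt w x : ℤ) : WithTop ℤ) ≠ (a : WithTop ℤ) := by
        intro h
        exact absurd (hmax x (Finset.mem_filter.2 ⟨hxs, h⟩)) (not_le.2 hx)
      revert h1 h2
      generalize v (P.coeff x) + ((wt w x : ℤ) : WithTop ℤ) = c
      intro h1 h2
      induction c using WithTop.recTopCoe with
      | top => exact le_top
      | coe c =>
        rw [WithTop.coe_le_coe] at h1 ⊢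
        have h3 : c ≠ a := fun h => h2 (by rw [h])
        omega
    · rw [MvPolynomial.notMem_support_iff.1 hxs, AddValuation.map_zero]
      exact le_top

theorem ord_zero : ord v w (0 : MvPolynomial (Fin n) K) = ⊤ := by
  unfold ord
  rw [MvPolynomial.support_zero, Finset.inf_empty]

theorem ord_mul (P Q : MvPolynomial (Fin n) K) :
    ord v w (P * Q) = ord v w P + ord v w Q := by
  classical
  by_cases hP : P = 0
  · rw [hP, zero_mul, ord_zero, top_add]
  by_cases hQ : Q = 0
  · rw [hQ, mul_zero, ord_zero, add_top]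
  obtain ⟨a, ha, s, hs, hs'⟩ := exists_exact v w P hP
  obtain ⟨b, hb, t, ht, ht'⟩ := exists_exact v w Q hQ
  have hPa : Ge v w a P := (le_ord_iff v w a P).1 ha.ge
  have hQb : Ge v w b Q := (le_ord_iff v w b Q).1 hb.ge
  rw [ha, hb, ← WithTop.coe_add]
  refine le_antisymm ?_ ((le_ord_iff v w _ _).2 (hPa.mul v w hQb))
  -- the coefficient of `s + t`
  have hc : v ((P * Q).coeff (s + t)) = (((a + b) - wt w (s + t) : ℤ) : WithTop ℤ) := by
    rw [MvPolynomial.coeff_mul, ← Finset.add_sum_erase _ _
      (Finset.HasAntidiagonal.mem_antidiagonal.2 rfl : (s, t) ∈ Finset.HasAntidiagonal.antidiagonal (s + t))]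
    have h1 : v (P.coeff (s, t).1 * Q.coeff (s, t).2) =
        (((a + b) - wt w (s + t) : ℤ) : WithTop ℤ) := by
      rw [AddValuation.map_mul, hs, ht, ← WithTop.coe_add, WithTop.coe_inj, wt_add]
      ring
    rw [AddValuation.map_add_eq_of_lt_left, h1]
    rw [h1]
    refine AddValuation.map_lt_sum v WithTop.coe_ne_top fun x hx => ?_
    rw [Finset.mem_erase, Finset.HasAntidiagonal.mem_antidiagonal] at hx
    obtain ⟨hne, hsum⟩ := hx
    have hkey : ((a + b + 1 - wt w (s + t) : ℤ) : WithTop ℤ) ≤ v (P.coeff x.1 * Q.coeff x.2) := by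
      rw [AddValuation.map_mul]
      have hcase : (MonomialOrder.lex (σ := Fin n)).toSyn s < MonomialOrder.lex.toSyn x.1 ∨
          (MonomialOrder.lex (σ := Fin n)).toSyn t < MonomialOrder.lex.toSyn x.2 := by
        by_contra hcon
        push Not at hcon
        obtain ⟨h2, h3⟩ := hcon
        have h4 : (MonomialOrder.lex (σ := Fin n)).toSyn x.1 + MonomialOrder.lex.toSyn x.2 =
            MonomialOrder.lex.toSyn s + MonomialOrder.lex.toSyn t := by
          rw [← map_add, ← map_add, hsum]
        have h5 : (MonomialOrder.lex (σ := Fin n)).toSyn x.1 = MonomialOrder.lex.toSyn s := by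
          by_contra h6
          have h7 := add_lt_add_of_lt_of_le (lt_of_le_of_ne h2 h6) h3
          exact absurd h4 h7.ne
        have h8 : x.1 = s := MonomialOrder.lex.toSyn.injective h5
        have h9 : x.2 = t := by
          rw [h8] at hsum
          exact add_left_cancel hsum
        exact hne (Prod.ext h8 h9)
      rcases hcase with h2 | h2
      · have h3 := hs' x.1 h2
        have h4 := hQb x.2
        have e : ((a + b + 1 - wt w (s + t) : ℤ) : WithTop ℤ) =
            ((a + 1 - wt w x.1 : ℤ) : WithTop ℤ) + ((b - wt w x.2 : ℤ) : WithTop ℤ) := by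
          rw [← WithTop.coe_add, ← hsum, wt_add]
          congr 1
          ring
        rw [e]
        exact add_le_add h3 h4
      · have h3 := ht' x.2 h2
        have h4 := hPa x.1
        have e : ((a + b + 1 - wt w (s + t) : ℤ) : WithTop ℤ) =
            ((a - wt w x.1 : ℤ) : WithTop ℤ) + ((b + 1 - wt w x.2 : ℤ) : WithTop ℤ) := by
          rw [← WithTop.coe_add, ← hsum, wt_add]
          congr 1
          ring
        rw [e]
        exact add_le_add h4 h3
    refine lt_of_lt_of_le ?_ hkey
    rw [WithTop.coe_lt_coe]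
    omega
  have hmem : s + t ∈ (P * Q).support := by
    rw [MvPolynomial.mem_support_iff]
    intro h
    rw [h, AddValuation.map_zero] at hc
    exact WithTop.coe_ne_top hc.symm
  refine (Finset.inf_le hmem).trans ?_
  rw [hc, ← WithTop.coe_add, WithTop.coe_le_coe]
  omega

/-- the monomial valuation of the polynomial ring -/
def valR : AddValuation (MvPolynomial (Fin n) K) (WithTop ℤ) :=
  AddValuation.of (ord v w) (ord_zero v w)
    (by
      classical
      refine eq_of_int fun m => ?_
      rw [le_ord_iff]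
      constructor
      · intro h
        have h1 := h 0
        rw [MvPolynomial.coeff_zero_one, AddValuation.map_one, wt_zero, sub_zero] at h1
        exact h1
      · intro h s
        rw [MvPolynomial.coeff_one]
        split_ifs with h1
        · rw [← h1, wt_zero, sub_zero, AddValuation.map_one]
          exact h
        · rw [AddValuation.map_zero]
          exact le_top)
    (by
      intro P Q
      refine le_of_int fun m hm => ?_
      rw [le_min_iff, le_ord_iff, le_ord_iff] at hm
      rw [le_ord_iff]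
      intro s
      rw [MvPolynomial.coeff_add]
      exact le_trans (le_min (hm.1 s) (hm.2 s)) (AddValuation.map_add v _ _))
    (ord_mul v w)

theorem valR_apply (P : MvPolynomial (Fin n) K) : valR v w P = ord v w P := rfl

/-- the extension to the field of rational functions -/
theorem extend {F : Type u} [Field F] [Algebra K F] (z : Fin n → F) (hz : GenBy K z) :
    ∃ W : AddValuation F (WithTop ℤ), ∀ P : MvPolynomial (Fin n) K,
      W (MvPolynomial.aeval z P) = ord v w P := by
  let _ : Algebra (MvPolynomial (Fin n) K) F := (MvPolynomial.aeval z).toRingHom.toAlgebra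
  have halg : ∀ P : MvPolynomial (Fin n) K,
      algebraMap (MvPolynomial (Fin n) K) F P = MvPolynomial.aeval z P := fun P => rfl
  have hinj : Function.Injective (algebraMap (MvPolynomial (Fin n) K) F) := by
    intro P Q h
    exact hz.1 h
  have : FaithfulSMul (MvPolynomial (Fin n) K) F :=
    (faithfulSMul_iff_algebraMap_injective _ _).2 hinj
  have hfr : IsFractionRing (MvPolynomial (Fin n) K) F := by
    refine IsFractionRing.of_field _ _ fun x => ?_
    have hx : x ∈ IntermediateField.adjoin K (Set.range z) := by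
      rw [hz.2]
      exact IntermediateField.mem_top
    obtain ⟨r, s, hrs⟩ := (IntermediateField.mem_adjoin_range_iff K z x).1 hx
    exact ⟨r, s, hrs⟩
  let v1 : Valuation (MvPolynomial (Fin n) K) (Multiplicative (WithTop ℤ)ᵒᵈ) :=
    AddValuation.toValuation (valR v w)
  have hS : nonZeroDivisors (MvPolynomial (Fin n) K) ≤ v1.supp.primeCompl := by
    intro s hs hmem
    have hs0 : s ≠ 0 := nonZeroDivisors.ne_zero hs
    obtain ⟨a, ha, -⟩ := exists_exact v w s hs0
    have h1 : v1 s = 0 := (Valuation.mem_supp_iff v1 s).1 hmem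
    have h2 : valR v w s = ⊤ := h1
    rw [valR_apply, ha] at h2
    exact WithTop.coe_ne_top h2
  let v2 : Valuation F (Multiplicative (WithTop ℤ)ᵒᵈ) := v1.extendToLocalization hS F
  refine ⟨AddValuation.ofValuation v2, fun P => ?_⟩
  have h1 : v2 (algebraMap (MvPolynomial (Fin n) K) F P) = v1 P :=
    Valuation.extendToLocalization_apply_map_apply v1 hS F P
  exact h1

end

/-- the multiple of a valuation -/
theorem mult {K : Type u} [Field K] (v : AddValuation K (WithTop ℤ)) (q : ℕ) (hq : 0 < q) :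
    ∃ v' : AddValuation K (WithTop ℤ), ∀ f : K, f ≠ 0 →
      v' f = (((q : ℤ) * val v f : ℤ) : WithTop ℤ) := by
  refine ⟨AddValuation.map (nsmulAddMonoidHom q : WithTop ℤ →+ WithTop ℤ) ?_ ?_ v, ?_⟩
  · obtain ⟨m, rfl⟩ := Nat.exists_eq_succ_of_ne_zero hq.ne'
    rw [nsmulAddMonoidHom_apply, succ_nsmul, add_top]
  · intro x y hxy
    rw [nsmulAddMonoidHom_apply, nsmulAddMonoidHom_apply]
    exact nsmul_le_nsmul_right hxy q
  · intro f hf
    change q • v f = _
    rw [← coe_val hf]
    clear hq
    induction q with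
    | zero => simp
    | succ m ih =>
      rw [succ_nsmul, ih, ← WithTop.coe_add, WithTop.coe_inj]
      push_cast
      ring

end XMnv

open XMnv in
theorem pr_Mnv (hNOR : MgNOR.{u}) : StMnv.{u} := by
  intro K F _ _ _ n z hz v hv q w hq
  obtain ⟨π, hπ⟩ := hv
  have hπ0 : π ≠ 0 := by
    rintro rfl
    rw [AddValuation.map_zero] at hπ
    exact WithTop.coe_ne_top (a := (1 : ℤ)) hπ.symm
  obtain ⟨v', hv'⟩ := mult v q hq
  obtain ⟨W0, hW0⟩ := extend v' w z hz
  have hinj : Function.Injective (MvPolynomial.aeval z : MvPolynomial (Fin n) K →ₐ[K] F) := hz.1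
  have hval : val v π = 1 := by
    unfold val
    rw [hπ]
    rfl
  have hone : W0 (algebraMap K F π) = ((q : ℤ) : WithTop ℤ) := by
    have h1 := hW0 (MvPolynomial.C π)
    rw [MvPolynomial.aeval_C] at h1
    rw [h1]
    unfold ord
    classical
    rw [MvPolynomial.support_C, if_neg hπ0, Finset.inf_singleton, MvPolynomial.coeff_zero_C,
      wt_zero, hv' π hπ0, hval, ← WithTop.coe_add, add_zero, mul_one]
  obtain ⟨e, W, he, hW1, hW⟩ := hNOR F W0 ⟨algebraMap K F π, (map_ne_zero _).2 hπ0, by
    rw [hone]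
    intro h
    have h2 : ((q : ℤ) : WithTop ℤ) = ((0 : ℤ) : WithTop ℤ) := h
    rw [WithTop.coe_inj] at h2
    omega⟩
  have hge : ((e.toNat : ℕ) : ℤ) = e := Int.toNat_of_nonneg he.le
  refine ⟨W, e.toNat, by omega, hW1, ?_⟩
  intro P hP
  have hP0 : MvPolynomial.aeval z P ≠ 0 := by
    intro h
    apply hP
    apply hinj
    rw [h, map_zero]
  have h1 : W0 (MvPolynomial.aeval z P) =
      ((e * val W (MvPolynomial.aeval z P) : ℤ) : WithTop ℤ) :=
    ((hW _ _).1).1 (coe_val hP0).symm
  rw [hW0] at h1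
  rw [hge]
  have hterm : ∀ s ∈ P.support, v' (P.coeff s) + ((wt w s : ℤ) : WithTop ℤ) =
      (((q : ℤ) * val v (P.coeff s) + ∑ j, w j * (s j : ℤ) : ℤ) : WithTop ℤ) := by
    intro s hs
    rw [hv' _ (MvPolynomial.mem_support_iff.1 hs), ← WithTop.coe_add]
    rfl
  constructor
  · intro s hs
    have h2 : ord v' w P ≤ v' (P.coeff s) + ((wt w s : ℤ) : WithTop ℤ) := Finset.inf_le hs
    rw [h1, hterm s hs, WithTop.coe_le_coe] at h2
    exact h2
  · obtain ⟨s, hs, hs'⟩ := Finset.exists_mem_eq_inf P.support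
      (MvPolynomial.support_nonempty.2 hP)
      (fun s => v' (P.coeff s) + ((wt w s : ℤ) : WithTop ℤ))
    refine ⟨s, hs, ?_⟩
    have h2 : ord v' w P = v' (P.coeff s) + ((wt w s : ℤ) : WithTop ℤ) := hs'
    rw [h1, hterm s hs, WithTop.coe_inj] at h2
    exact h2

end Pool.Agent.Work.MP_a2680c_ag.HA
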