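import Pool.Agent.Work.MP_a2680c_ag.HA.StmtsX
import Pool.Agent.Work.MP_a2680c_ag.HA.I_Mar

/-! [a2680c HA Mnw] (helper9): assembly of part W. -/

set_option autoImplicit false

noncomputable section

namespace Pool.Agent.Work.MP_a2680c_ag.HA

open MP7b66e6 MP7b66e6.Q
open scoped BigOperators

universe u

theorem pr_Mnw (hInd : StInd.{u}) (hMnf : StMnf) (hDcj : StDcj) (hFbf : StFbf.{u}) (hGex : StGex.{u}) (hKrg : StKrg.{u})
    (hPdd : StPdd.{u}) (hGrm : StGrm.{u}) (hTb : StTb.{u}) (hAcg : StAcg.{u}) (hAdg : StAdg.{u}) (hAfg : StAfg.{u})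
    (hAbg : StAbg.{u}) : MainW.{u} := by
  classical
  intro n δ s hn hδ I hI hD
  obtain ⟨G, hG, hGp, hC⟩ := hInd n δ hn hδ s I hI hD
  obtain ⟨hE1, hE2⟩ := hMnf G hG hGp
  obtain ⟨hJD, hJs⟩ := hDcj I {t : ℝ | t ∈ AddSubmonoid.closure G ∧ t ≤ 1} hI hD hE1
  refine ⟨JJ I {t : ℝ | t ∈ AddSubmonoid.closure G ∧ t ≤ 1}, hJs, hJD, ?_⟩
  intro κ k K F _ _ _ _ _ _ _ _ _ e m r x Z X D L htr hF hb hT
  obtain ⟨⟨Φ, hB⟩, hcrp⟩ := hFbf κ k K F e m I r x Z X D L hF hb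
  obtain ⟨Ξ, hR⟩ := hC κ k K F e (e + m) r (cor r x) Z (crp r x X D) L Φ htr hB hT
  haveI : Algebra.EssFiniteType k K := (hGrm k K Z hF.vz).1
  haveI : Algebra.EssFiniteType k F := (hGrm k F X hF.vx).1
  let w₀ : Fin 0 → ℝ := fun i => i.elim0
  let S₀ : Fin 0 → Finset Kˣ := fun i => i.elim0
  have hp2 : ∀ v : AddValuation K (WithTop ℤ), DivOver Z v → Pos κ (Tv r Z L Ξ v + Dmg w₀ S₀ 1 v) := by
    intro v hv
    rw [XMar.dmg_zero, add_zero]
    exact hR.1 v hv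
  have hfs := hAfg k K e 0 1 r Z L Ξ w₀ S₀ hF.basis hF.vz hF.divL hF.carL
  have hcc := hAcg κ k K e 0 1 r Z L Ξ w₀ S₀ hF.basis hF.vz hF.divL hF.carL one_pos (fun i => i.elim0)
    (fun i => i.elim0) hp2
  have hz : Dmg w₀ S₀ 1 = fun _ : AddValuation K (WithTop ℤ) => (0 : ℝ) := funext fun v => XMar.dmg_zero v w₀ S₀ 1
  have hval : ∀ v, Ddg r Z L Ξ w₀ S₀ 1 v = 1 - Tv r Z L Ξ v := by
    intro v
    unfold Ddg
    rw [XMar.dmg_zero, add_zero]
  refine ⟨Ddg r Z L Ξ w₀ S₀ 1, ?_⟩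
  refine
    { bdiv := hfs.1
      bmod := by rw [← hz]; exact hfs.2
      pa := ?_
      pb := XMar.bpf_zero hAbg r hF.basis hF.vz
      pc := hcc.2 (by
        intro O _
        refine ⟨0, fun ν _ => ?_⟩
        rw [Api.ev_zero, XMar.dmg_zero])
      pd := ?_ }
  · intro v hv
    obtain ⟨hdv, R, hRZ, hcen, _⟩ := hPdd k K Z hF.vz v hv
    obtain ⟨W₀, m₀, hW₀, hL₀⟩ := hGex k K F e (e + m) r (cor r x) hF.basis hb v hdv
    obtain ⟨E, μ, O, P, hE, hLE, hO, hPE, _, _, _⟩ := hKrg k K F (e + m) Z X (hTb k F (e + m) (cor r x) hb).2 hF.vz hF.vx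
      hF.mor hF.prp v hv ⟨W₀, m₀, fun c => by
        obtain ⟨C, _, hC0, _⟩ := hW₀.2
        exact hC0 _ (C.algebraMap_mem c), hL₀⟩
    have h1 := hR.2 v ⟨hdv, R, hRZ, hcen⟩ E μ hE hLE
    have h2 := (hR.1 v ⟨hdv, R, hRZ, hcen⟩).1
    rw [hcrp E hPE.1] at h1
    rw [hval]
    have hμ : (1 : ℝ) ≤ μ := by exact_mod_cast hLE.1
    have hμ0 : (0 : ℝ) < μ := by linarith
    set T := Tv r Z L Ξ v with hTdef
    have hcoef := hF.coef E hPE.1
    have ht : 0 ≤ D E := by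
      rcases hcoef with h | h
      · rw [h]
      · exact (hI h).1.le
    have hz0 := hE2 _ h1
    have hmT : 0 ≤ (μ : ℝ) * T := mul_nonneg hμ0.le h2
    by_cases h0 : 1 - T = 0
    · exact Or.inl h0
    right
    have hle : T ≤ 1 := by
      have h3 : (μ : ℝ) * T ≤ 1 := by linarith
      nlinarith
    refine ⟨?_, D E, ?_, (1 - D E) - μ * T, ⟨h1, by linarith⟩, μ, hLE.1, hz0, by linarith, ?_⟩
    · rcases lt_or_eq_of_le (sub_nonneg.2 hle) with h | h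
      · exact h
      · exact absurd h.symm h0
    · rcases hcoef with h | h
      · rw [h]; exact Set.mem_insert _ _
      · exact Set.mem_insert_of_mem _ h
    · have : 1 - D E - ((1 - D E) - μ * T) = μ * T := by ring
      rw [this, mul_div_cancel_left₀ _ hμ0.ne']
  · refine hAdg κ k K F e m I r x Z X D L Ξ _ _ hF hb ?_
    intro ν
    rw [hval]
    unfold Tv
    ring

end Pool.Agent.Work.MP_a2680c_ag.HA
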