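import Pool.Agent.Work.MP_a2680c_ag.HA.StmtsE

/-!
# MP_a2680c_ag, block HA, item Mun: the matroid union theorem for linear matroids
-/

set_option autoImplicit false

noncomputable section

namespace Pool.Agent.Work.MP_a2680c_ag.HA

open scoped BigOperators

universe u

namespace XMun

variable {κ : Type u} [Field κ]

/-- dimensions in a quotient -/
theorem fr {V : Type u} [AddCommGroup V] [Module κ V] (U W : Submodule κ V)
    [FiniteDimensional κ U] [FiniteDimensional κ W] :
    Module.finrank κ W ≤ Module.finrank κ (W.map U.mkQ) + Module.finrank κ U ∧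
    (U ≤ W → Module.finrank κ (W.map U.mkQ) + Module.finrank κ U = Module.finrank κ W) := by
  obtain ⟨φ, hφ⟩ : ∃ φ : W →ₗ[κ] V ⧸ U, φ = U.mkQ ∘ₗ W.subtype := ⟨_, rfl⟩
  have h1 := LinearMap.finrank_range_add_finrank_ker φ
  have h2 : LinearMap.range φ = W.map U.mkQ := by
    rw [hφ, LinearMap.range_comp, Submodule.range_subtype]
  have h3 : LinearMap.ker φ = Submodule.comap W.subtype U := by
    rw [hφ, LinearMap.ker_comp, Submodule.ker_mkQ]
  rw [h2, h3] at h1
  constructor
  · have h4 : Module.finrank κ (Submodule.comap W.subtype U) ≤ Module.finrank κ U := by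
      refine LinearMap.finrank_le_finrank_of_injective
        (f := (W.subtype.restrict (p := Submodule.comap W.subtype U) (q := U)
          (fun x hx => hx))) ?_
      intro x y hxy
      have := congrArg Subtype.val hxy
      exact Subtype.ext (Subtype.ext this)
    omega
  · intro hUW
    have h4 := LinearEquiv.finrank_eq (Submodule.comapSubtypeEquivOfLe hUW)
    omega

/-- gluing two independent families -/
theorem glue {E : Type} {V : Type u} [AddCommGroup V] [Module κ V] (U : Submodule κ V)
    (f : E → V) (C1 C2 : Set E) (h1 : LinearIndepOn κ f C1)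
    (hU : Submodule.span κ (f '' C1) ≤ U) (h2 : LinearIndepOn κ (U.mkQ ∘ f) C2) :
    LinearIndepOn κ f (C1 ∪ C2) := by
  refine h1.union_of_quotient ?_
  have h3 : LinearIndependent κ (fun x : C2 => (Submodule.factor hU)
      ((Submodule.span κ (f '' C1)).mkQ (f x))) := h2
  exact LinearIndependent.of_comp (Submodule.factor hU) h3

theorem gen {E : Type} (N : ℕ) : ∀ (n : ℕ) (S : Finset E), S.card = n →
    ∀ (V : Fin N → Type u) [∀ j, AddCommGroup (V j)] [∀ j, Module κ (V j)] (f : ∀ j, E → V j),
    (∀ A : Finset E, A ⊆ S → A.card ≤
      ∑ j, Module.finrank κ (Submodule.span κ (f j '' (A : Set E)))) →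
    ∃ C : Fin N → Set E, (∀ j, C j ⊆ S) ∧ (∀ e ∈ S, ∃ j, e ∈ C j) ∧
      ∀ j, LinearIndepOn κ (f j) (C j) := by
  classical
  intro n
  induction n using Nat.strong_induction_on with
  | _ n ih =>
  intro S hS V _ _ f hf
  have hfd : ∀ (j : Fin N) (A : Finset E),
      FiniteDimensional κ (Submodule.span κ (f j '' (A : Set E))) := fun j A =>
    FiniteDimensional.span_of_finite κ (A.finite_toSet.image (f j))
  -- the image of a span
  have hmap : ∀ (j : Fin N) (U : Submodule κ (V j)) (B : Finset E),
      Submodule.span κ ((U.mkQ ∘ f j) '' (B : Set E)) =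
        (Submodule.span κ (f j '' (B : Set E))).map U.mkQ := by
    intro j U B
    rw [Submodule.map_span, ← Set.image_comp]
  by_cases hS0 : S = ∅
  · refine ⟨fun _ => ∅, fun j => Set.empty_subset _, ?_, fun j => linearIndepOn_empty κ (f j)⟩
    intro e he
    rw [hS0] at he
    exact absurd he (Finset.notMem_empty e)
  by_cases ht : ∃ A : Finset E, A ⊂ S ∧ A ≠ ∅ ∧
      A.card = ∑ j, Module.finrank κ (Submodule.span κ (f j '' (A : Set E)))
  · obtain ⟨A, hAS, hA0, hAt⟩ := ht
    have hAc : A.card < n := by rw [← hS]; exact Finset.card_lt_card hAS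
    obtain ⟨C1, h11, h12, h13⟩ := ih A.card hAc A rfl V f
      (fun B hB => hf B (hB.trans hAS.1))
    have hBc : (S \ A).card < n := by
      rw [← hS]
      refine Finset.card_lt_card (Finset.ssubset_iff_subset_ne.2 ⟨Finset.sdiff_subset, ?_⟩)
      intro h
      obtain ⟨a, ha⟩ := Finset.nonempty_iff_ne_empty.2 hA0
      have h1 : a ∈ S \ A := by rw [h]; exact hAS.1 ha
      exact (Finset.mem_sdiff.1 h1).2 ha
    obtain ⟨C2, h21, h22, h23⟩ := ih (S \ A).card hBc (S \ A) rfl
      (fun j => V j ⧸ Submodule.span κ (f j '' (A : Set E)))
      (fun j => (Submodule.span κ (f j '' (A : Set E))).mkQ ∘ f j) (by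
        intro B hB
        have hdis : Disjoint A B := by
          rw [Finset.disjoint_left]
          intro a ha hb
          exact (Finset.mem_sdiff.1 (hB hb)).2 ha
        have h1 := hf (A ∪ B) (Finset.union_subset hAS.1 (hB.trans Finset.sdiff_subset))
        rw [Finset.card_union_of_disjoint hdis] at h1
        have h2 : ∀ j, Module.finrank κ (Submodule.span κ (f j '' ((A ∪ B : Finset E) : Set E))) =
            Module.finrank κ (Submodule.span κ
              (((Submodule.span κ (f j '' (A : Set E))).mkQ ∘ f j) '' (B : Set E))) +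
            Module.finrank κ (Submodule.span κ (f j '' (A : Set E))) := by
          intro j
          haveI := hfd j A
          haveI := hfd j (A ∪ B)
          have h3 : Submodule.span κ (f j '' (A : Set E)) ≤
              Submodule.span κ (f j '' ((A ∪ B : Finset E) : Set E)) :=
            Submodule.span_mono (Set.image_mono (by simp))
          have h4 := (fr (Submodule.span κ (f j '' (A : Set E)))
            (Submodule.span κ (f j '' ((A ∪ B : Finset E) : Set E)))).2 h3
          have h5 : (Submodule.span κ (f j '' ((A ∪ B : Finset E) : Set E))).map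
              (Submodule.span κ (f j '' (A : Set E))).mkQ = Submodule.span κ
              (((Submodule.span κ (f j '' (A : Set E))).mkQ ∘ f j) '' (B : Set E)) := by
            rw [hmap, Finset.coe_union, Set.image_union, Submodule.span_union, Submodule.map_sup,
              Submodule.mkQ_map_self, bot_sup_eq]
          rw [h5] at h4
          exact h4.symm
        rw [Finset.sum_congr rfl fun j _ => h2 j, Finset.sum_add_distrib, ← hAt] at h1
        omega)
    refine ⟨fun j => C1 j ∪ C2 j, ?_, ?_, ?_⟩
    · intro j
      refine Set.union_subset ((h11 j).trans ?_) ((h21 j).trans ?_)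
      · exact_mod_cast hAS.1
      · exact_mod_cast Finset.sdiff_subset
    · intro e he
      by_cases hA : e ∈ A
      · obtain ⟨j, hj⟩ := h12 e hA
        exact ⟨j, Or.inl hj⟩
      · obtain ⟨j, hj⟩ := h22 e (Finset.mem_sdiff.2 ⟨he, hA⟩)
        exact ⟨j, Or.inr hj⟩
    · intro j
      exact glue (Submodule.span κ (f j '' (A : Set E))) (f j) (C1 j) (C2 j) (h13 j)
        (Submodule.span_mono (Set.image_mono (h11 j))) (h23 j)
  · obtain ⟨e0, he0⟩ := Finset.nonempty_iff_ne_empty.2 hS0
    have h1 := hf {e0} (Finset.singleton_subset_iff.2 he0)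
    obtain ⟨j0, hj0⟩ : ∃ j0, f j0 e0 ≠ 0 := by
      by_contra hcon
      push Not at hcon
      have h2 : ∀ j, Module.finrank κ
          (Submodule.span κ (f j '' (({e0} : Finset E) : Set E))) = 0 := by
        intro j
        rw [Finset.coe_singleton, Set.image_singleton, hcon j, Submodule.span_zero_singleton]
        exact finrank_bot κ (V j)
      rw [Finset.sum_eq_zero fun j _ => h2 j, Finset.card_singleton] at h1
      omega
    obtain ⟨C1, hC1⟩ : ∃ C1 : Fin N → Set E, C1 = fun j => if j = j0 then {e0} else ∅ := ⟨_, rfl⟩
    have hC1fin : ∀ j, (C1 j).Finite := by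
      intro j
      rw [hC1]
      dsimp only
      split_ifs
      · exact Set.finite_singleton e0
      · exact Set.finite_empty
    obtain ⟨U, hU⟩ : ∃ U : ∀ j, Submodule κ (V j), U = fun j => Submodule.span κ (f j '' C1 j) :=
      ⟨_, rfl⟩
    have hUfd : ∀ j, FiniteDimensional κ (U j) := by
      intro j
      rw [hU]
      exact FiniteDimensional.span_of_finite κ ((hC1fin j).image (f j))
    have hUr : ∀ j, Module.finrank κ (U j) ≤ if j = j0 then 1 else 0 := by
      intro j
      by_cases h : j = j0
      · have h5 : U j = Submodule.span κ {f j e0} := by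
          rw [hU, hC1]
          dsimp only
          rw [if_pos h, Set.image_singleton]
        rw [if_pos h, h5]
        exact (finrank_span_le_card ({f j e0} : Set (V j))).trans (by simp)
      · have h5 : U j = ⊥ := by
          rw [hU, hC1]
          dsimp only
          rw [if_neg h, Set.image_empty, Submodule.span_empty]
        rw [if_neg h, h5]
        exact (finrank_bot κ (V j)).le
    have hsum : ∑ j, Module.finrank κ (U j) ≤ 1 := by
      refine (Finset.sum_le_sum fun j _ => hUr j).trans ?_
      simp
    have hcard : (S.erase e0).card < n := by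
      rw [← hS]
      exact Finset.card_erase_lt_of_mem he0
    obtain ⟨C2, h21, h22, h23⟩ := ih (S.erase e0).card hcard (S.erase e0) rfl
      (fun j => V j ⧸ U j) (fun j => (U j).mkQ ∘ f j) (by
        intro B hB
        by_cases hB0 : B = ∅
        · rw [hB0, Finset.card_empty]
          exact Nat.zero_le _
        have hBS : B ⊂ S := by
          refine Finset.ssubset_iff_subset_ne.2 ⟨hB.trans (Finset.erase_subset _ _), ?_⟩
          intro h
          rw [h] at hB
          exact Finset.notMem_erase e0 S (hB he0)
        have h2 := hf B hBS.1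
        have h3 : B.card ≠ ∑ j, Module.finrank κ (Submodule.span κ (f j '' (B : Set E))) :=
          fun h => ht ⟨B, hBS, hB0, h⟩
        have h4 : ∀ j, Module.finrank κ (Submodule.span κ (f j '' (B : Set E))) ≤
            Module.finrank κ (Submodule.span κ (((U j).mkQ ∘ f j) '' (B : Set E))) +
              Module.finrank κ (U j) := by
          intro j
          haveI := hUfd j
          haveI := hfd j B
          rw [hmap]
          exact (fr (U j) (Submodule.span κ (f j '' (B : Set E)))).1
        have h5 := Finset.sum_le_sum fun j (_ : j ∈ (Finset.univ : Finset (Fin N))) => h4 j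
        rw [Finset.sum_add_distrib] at h5
        omega)
    refine ⟨fun j => C1 j ∪ C2 j, ?_, ?_, ?_⟩
    · intro j
      refine Set.union_subset ?_ ((h21 j).trans ?_)
      · rw [hC1]
        dsimp only
        split_ifs
        · rw [Set.singleton_subset_iff]
          exact_mod_cast he0
        · exact Set.empty_subset _
      · exact_mod_cast Finset.erase_subset e0 S
    · intro e he
      by_cases h : e = e0
      · refine ⟨j0, Or.inl ?_⟩
        rw [hC1, h]
        dsimp only
        rw [if_pos rfl]
        exact Set.mem_singleton e0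
      · obtain ⟨j, hj⟩ := h22 e (Finset.mem_erase.2 ⟨h, he⟩)
        exact ⟨j, Or.inr hj⟩
    · intro j
      refine glue (U j) (f j) (C1 j) (C2 j) ?_ ?_ (h23 j)
      · rw [hC1]
        dsimp only
        by_cases h : j = j0
        · rw [if_pos h, h]
          exact LinearIndepOn.singleton hj0
        · rw [if_neg h]
          exact linearIndepOn_empty κ (f j)
      · rw [hU]

end XMun

theorem pr_Mun : StMun.{u} := by
  intro κ _ E _ N s f hf
  classical
  obtain ⟨C, _, h2, h3⟩ := XMun.gen (κ := κ) N (Finset.univ : Finset E).card Finset.univ rfl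
    (fun _ => Fin s → κ) (fun _ => f) (by
      intro A _
      rw [Finset.sum_const, Finset.card_univ, Fintype.card_fin, smul_eq_mul]
      exact hf A)
  choose c hc using fun e => h2 e (Finset.mem_univ e)
  refine ⟨c, fun j => ?_⟩
  have h4 : LinearIndepOn κ f {e | c e = j} := (h3 j).mono (by
    intro e he
    have h5 := hc e
    rwa [show c e = j from he] at h5)
  exact h4

end Pool.Agent.Work.MP_a2680c_ag.HA
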