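import Pool.Agent.Work.MP_a2680c_ag.HA.StmtsW
import Pool.Agent.Work.MP_a2680c_ag.HA.I_Mar

/-! [a2680c HA Mvb] (helper9): b-fibrations crepantly dominated by hyperplane arrangements. -/

set_option autoImplicit false

noncomputable section

namespace Pool.Agent.Work.MP_a2680c_ag.HA

open MP7b66e6 MP7b66e6.Q
open scoped BigOperators

universe u

namespace XMvb

/-- the constants -/
def GG (G Γ : Set ℝ) (m δ : ℕ) : Set ℝ := G ∪ {t | ∃ g ∈ Γ, ∃ γ : ℕ, 1 ≤ γ ∧ γ ≤ δ ∧ t = g / 2 / (m * γ : ℕ)}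

theorem gg_fin {G Γ : Set ℝ} (hG : G.Finite) (hΓ : Γ.Finite) (m δ : ℕ) : (GG G Γ m δ).Finite := by
  apply hG.union
  have h : (⋃ g ∈ Γ, ⋃ γ ∈ (Set.Iic δ), {t : ℝ | t = g / 2 / (m * γ : ℕ)}).Finite := by
    apply Set.Finite.biUnion hΓ
    intro g _
    apply Set.Finite.biUnion (Set.finite_Iic δ)
    intro γ _
    exact Set.finite_singleton _
  refine h.subset ?_
  rintro t ⟨g, hg, γ, _, hγ, ht⟩
  exact Set.mem_biUnion hg (Set.mem_biUnion (show γ ∈ Set.Iic δ from hγ) ht)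

theorem gg_pos {G Γ : Set ℝ} (hG : ∀ g ∈ G, 0 < g) (hΓ : Γ ⊆ Set.Ioc 0 1) {m : ℕ} (hm : 1 ≤ m) (δ : ℕ) :
    ∀ g ∈ GG G Γ m δ, 0 < g := by
  rintro t (ht | ⟨g, hg, γ, hγ, _, rfl⟩)
  · exact hG t ht
  · have h1 := (hΓ hg).1
    have h2 : (0 : ℝ) < ((m * γ : ℕ) : ℝ) := by exact_mod_cast Nat.mul_pos hm hγ
    exact div_pos (by linarith) h2

theorem nsmul_mem' {G : Set ℝ} {g : ℝ} (h : g ∈ AddSubmonoid.closure G) (n : ℕ) : (n : ℝ) * g ∈ AddSubmonoid.closure G := by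
  have := AddSubmonoid.nsmul_mem _ h n
  rwa [nsmul_eq_mul] at this

theorem int_mem {G : Set ℝ} {g : ℝ} (h : g ∈ AddSubmonoid.closure G) {z : ℤ} (hz : 0 ≤ z) :
    (z : ℝ) * g ∈ AddSubmonoid.closure G := by
  obtain ⟨n, rfl⟩ := Int.eq_ofNat_of_zero_le hz
  have := nsmul_mem' h n
  simpa using this

end XMvb

theorem pr_Mvbw (hEXT : StEXT.{u, u, u}) (hGrm : StGrm.{u}) (hNmx : StNmx.{u}) (hCsb : StCsb) (hHul : StHul.{u})
    (hKeb : StKeb.{u}) (hOpb : StOpb.{u}) (hDsb : StDsb.{u}) (hLst : StLst.{u}) (hCmp : StCmp.{u}) (hAvb : StAvb.{u})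
    (hRmi : StRmi.{u}) (hRst : StRst.{u}) : StMvb.{u} := by
  classical
  intro n δ hn I hI hD
  obtain ⟨G, Γ, m, hGf, hG0, hΓ, hΓf, hm, hC⟩ := hCsb n δ I hI hD
  refine ⟨XMvb.GG G Γ m δ, XMvb.gg_fin hGf hΓf m δ, XMvb.gg_pos hG0 hΓ hm δ, ?_⟩
  intro κ k K F K' F' _ _ _ _ _ _ _ _ _ _ _ _ _ _ _ _ _ _ _ _ _ _ _ _ _ _ e N r c y Z 𝔻 L Φ a d htr hF hA
  have hG : GenBy K' y := ⟨hA.indep, hA.gen⟩
  have hK1 : Algebra.EssFiniteType k K := (hGrm k K Z hF.vz).1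
  obtain ⟨Ξ, J', hΞ⟩ := hKeb κ k K F K' F' δ e n N I r c y Z 𝔻 L Φ a d hn hF hA
  have hd : ∀ i, 0 ≤ d i := fun i => (hI (hA.mem i)).1.le
  have hO : ∀ v : AddValuation K (WithTop ℤ), DivOver Z v → ∀ (v' : AddValuation K' (WithTop ℤ)) (ε : ℕ),
      Divisorial k v' → Lies v v' ε → OptC κ a d (Tg r Z L Ξ v v' ε) v' := fun v hv v' ε hv' hL =>
    hOpb κ k K F K' F' e n N r c y Z 𝔻 L Φ a d Ξ J' hF hG hA.nz hd hΞ v hv v' ε hv' hL
  have hDs : ∀ v : AddValuation K (WithTop ℤ), DivOver Z v → ∀ (v' : AddValuation K' (WithTop ℤ)) (ε : ℕ),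
      Divisorial k v' → Lies v v' ε → IsLeast (DisB (F := F) k 𝔻 v) ((Tg r Z L Ξ v v' ε - mv a d v') / ε) :=
    fun v hv v' ε hv' hL => hDsb κ k K F K' F' e n N r c y Z 𝔻 L Φ a d Ξ J' hF hG hA.nz hd hΞ hA.conn v hv v' ε
      hv' hL (hO v hv v' ε hv' hL)
  obtain ⟨hC1, l, w, G', hw, hw1, hP⟩ := hC N d hA.mem hΞ.1
  -- the finite sets
  obtain ⟨S, hS, hSv⟩ : ∃ S : Fin l → Finset Kˣ, (∀ i, (S i).Nonempty) ∧
      ∀ v : AddValuation K (WithTop ℤ), DivOver Z v → ∀ (v' : AddValuation K' (WithTop ℤ)) (ε : ℕ), Lies v v' ε →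
      (∀ m : ℕ, m ≠ 0 → v' (m : K') = 0) →
      (∀ g : K' ≃ₐ[K] K', IsLeast (vals (bas a) d fun b => val (cg g v') (mnr a b)) (mv a d (cg g v'))) →
      (m : ℝ) * ∑ g : K' ≃ₐ[K] K', mv a d (cg g v') = ε * ∑ i, w i * (mnS (S i) v : ℝ) := by
    by_cases h0 : ∃ l₀, Feas (bas a) d l₀
    · haveI : CharZero K := charZero_of_injective_algebraMap (algebraMap k K).injective
      obtain ⟨S, hS, hSv⟩ := hHul K K' n N a d m l w G' hP h0
      exact ⟨S, hS, fun v _ v' ε => hSv v v' ε⟩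
    · refine ⟨fun _ => {1}, fun _ => Finset.singleton_nonempty 1, ?_⟩
      intro v hv
      exfalso
      obtain ⟨v', ε, hv', hL⟩ := hEXT k K K' v hv.1
      obtain ⟨l₀, hl₀, _⟩ := hO v hv v' ε hv' hL
      exact h0 ⟨l₀, hl₀⟩
  obtain ⟨Ξ₀, hΞ₀⟩ := hNmx K K' Ξ
  set γ : ℕ := Module.finrank K K' with hγ
  have hγ0 : 0 < γ := Module.finrank_pos
  have hM : 0 < m * γ := Nat.mul_pos hm hγ0
  have hlst : ∀ v : AddValuation K (WithTop ℤ), DivOver Z v → ∀ (v' : AddValuation K' (WithTop ℤ)) (ε : ℕ),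
      Divisorial k v' → Lies v v' ε →
      (Tg r Z L Ξ v v' ε - mv a d v') / ε = Tv r Z L Ξ₀ v + Dmg w S (m * γ) v := by
    intro v hv v' ε hv' hL
    refine (hLst k K K' e n N m l r Z L a d Ξ Ξ₀ w S v (DisB (F := F) k 𝔻 v) hm (hΞ₀ v) (hSv v hv) ?_ v' ε hv' hL).2
    intro v' ε hv' hL
    obtain ⟨_, _, _, _, hle, _⟩ := hO v hv v' ε hv' hL
    exact ⟨hle, hDs v hv v' ε hv' hL⟩
  have hpos : ∀ v : AddValuation K (WithTop ℤ), DivOver Z v → Pos κ (Tv r Z L Ξ₀ v + Dmg w S (m * γ) v) := by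
    intro v hv
    obtain ⟨v', ε, hv', hL⟩ := hEXT k K K' v hv.1
    rw [← hlst v hv v' ε hv' hL]
    obtain ⟨_, _, _, _, _, hp, _⟩ := hO v hv v' ε hv' hL
    have hε : (0 : ℝ) < ε := by exact_mod_cast hL.1
    exact ⟨div_nonneg hp.1 hε.le, fun hk => div_pos (hp.2 hk) hε⟩
  -- general members
  set M : ℕ := m * γ with hMd
  have hMr : (1 : ℝ) ≤ (M : ℝ) := by exact_mod_cast hM
  have hMr0 : (0 : ℝ) < (M : ℝ) := lt_of_lt_of_le one_pos hMr
  set w₂ : Fin (l + l) → ℝ := Fin.append (fun i => w i / 2) (fun i => w i / 2) with hw₂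
  set S₂ : Fin (l + l) → Finset Kˣ := Fin.append S S with hS₂
  have hw2 : ∀ j, ∃ i, w₂ j = w i / 2 := by
    intro j
    induction j using Fin.addCases with
    | left i => exact ⟨i, by rw [hw₂, Fin.append_left]⟩
    | right i => exact ⟨i, by rw [hw₂, Fin.append_right]⟩
  have hS2 : ∀ j, (S₂ j).Nonempty := by
    intro j
    induction j using Fin.addCases with
    | left i => rw [hS₂, Fin.append_left]; exact hS i
    | right i => rw [hS₂, Fin.append_right]; exact hS i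
  have hw20 : ∀ j, 0 < w₂ j ∧ w₂ j ≤ 1 / 2 := by
    intro j
    obtain ⟨i, hi⟩ := hw2 j
    obtain ⟨h1, h2⟩ := hΓ (hw i)
    rw [hi]
    constructor <;> linarith
  have hD2 : ∀ v, Dmg w₂ S₂ M v = Dmg w S M v := fun v => XMar.dmg_append w S M v
  obtain ⟨σ, hσ1, hσ2⟩ := hRst k K e (l + l) M r Z L Ξ₀ w₂ S₂ htr hF.basis hF.vz hF.divL hF.carL hM
    (fun j => (hw20 j).1.le) hS2 (by intro v hv; rw [hD2]; exact (hpos v hv).1)
  set Ξ₂ : Kˣ →₀ ℝ := Ξ₀ + ∑ j, Finsupp.single (σ j) (w₂ j / M) with hΞ₂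
  have hev : ∀ v : AddValuation K (WithTop ℤ), ev v Ξ₂ = ev v Ξ₀ + ∑ j, (w₂ j / M) * (val v (σ j : K) : ℝ) := by
    intro v
    rw [hΞ₂, Api.ev_add, Api.ev_sum]
    congr 1
    exact Finset.sum_congr rfl fun j _ => Api.ev_single v (σ j) _
  have hT : ∀ v : AddValuation K (WithTop ℤ), Tv r Z L Ξ₂ v = (Tv r Z L Ξ₀ v + Dmg w S M v) -
      ∑ j, (w₂ j / M) * ((val v (σ j : K) : ℝ) - (mnS (S₂ j) v : ℝ)) := by
    intro v
    rw [← hD2 v]
    unfold Tv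
    rw [hev v]
    unfold Dmg
    have h1 : ∑ j, (w₂ j / M) * ((val v (σ j : K) : ℝ) - (mnS (S₂ j) v : ℝ)) =
        ∑ j, (w₂ j / M) * (val v (σ j : K) : ℝ) - (∑ j, w₂ j * (mnS (S₂ j) v : ℝ)) / M := by
      rw [Finset.sum_div, ← Finset.sum_sub_distrib]
      exact Finset.sum_congr rfl fun j _ => by ring
    rw [h1]
    ring
  have hhz : ∀ v : AddValuation K (WithTop ℤ), DivOver Z v → ∀ j, (0 : ℤ) ≤ val v (σ j : K) - mnS (S₂ j) v := by
    intro v hv j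
    have := hσ1 j v hv
    omega
  have hh : ∀ v : AddValuation K (WithTop ℤ), DivOver Z v → ∀ j,
      (0 : ℝ) ≤ (val v (σ j : K) : ℝ) - (mnS (S₂ j) v : ℝ) := by
    intro v hv j
    have h2 : (0 : ℝ) ≤ ((val v (σ j : K) - mnS (S₂ j) v : ℤ) : ℝ) := by exact_mod_cast hhz v hv j
    push_cast at h2
    exact h2
  have hc : ∀ j, w₂ j / M ≤ 1 / 2 := by
    intro j
    rw [div_le_iff₀ hMr0]
    have := (hw20 j).2
    nlinarith
  have hsum : ∀ v : AddValuation K (WithTop ℤ), DivOver Z v →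
      ∑ j, (w₂ j / M) * ((val v (σ j : K) : ℝ) - (mnS (S₂ j) v : ℝ)) ≤ (1 / 2) * (Tv r Z L Ξ₀ v + Dmg w S M v) := by
    intro v hv
    have h1 := hσ2 v hv
    rw [hD2] at h1
    refine le_trans (Finset.sum_le_sum fun j _ => mul_le_mul_of_nonneg_right (hc j) (hh v hv j)) ?_
    rw [← Finset.mul_sum]
    exact mul_le_mul_of_nonneg_left h1 (by norm_num)
  refine ⟨Ξ₂, ?_, ?_⟩
  · intro v hv
    rw [hT v]
    have h1 := hsum v hv
    have h2 := hpos v hv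
    constructor
    · linarith [h2.1]
    · intro hk
      linarith [h2.2 hk]
  · intro v hv ν μ hν hLν
    obtain ⟨v', ε, hv', hL⟩ := hEXT k K K' v hv.1
    obtain ⟨l', hl', hbas, hmv, _, _, _⟩ := hO v hv v' ε hv' hL
    obtain ⟨W', η, m', hW', hLW, hLW'⟩ := hCmp k K F K' F' hA.conn v ν v' μ ε hν hLν hv'.1 hL
    obtain ⟨b', hb'⟩ := hAvb κ k K F K' F' e n N r c y Z 𝔻 L Φ a d Ξ J' hF hG hA.nz hd hΞ v v' ε hv hv' hL l' hl' hmv
      ν W' η m' hν hW' hLW hLW'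
    have hη0 : 0 < η := hLW.1
    have hηδ : η ≤ δ := le_trans (hRmi F F' ν W' η hLW hW'.1) hA.degF
    have hηr : (0 : ℝ) < η := by exact_mod_cast hη0
    have hεr : (0 : ℝ) < ε := by exact_mod_cast hL.1
    -- the ramification indices
    have hram : η * μ = m' * ε := by
      obtain ⟨π, hπ⟩ := hv.1.1
      have hπ0 : π ≠ 0 := by
        intro h0; rw [h0, AddValuation.map_zero] at hπ; exact absurd hπ (by simp)
      have hvπ : val v π = 1 := Api.val_of v hπ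
      have h1 := (Api.lies_trans hLν hLW).2 π hπ0
      have h2 := (Api.lies_trans hL hLW').2 π hπ0
      rw [h1, hvπ] at h2
      have h3 : ((η * μ : ℕ) : ℤ) = ((m' * ε : ℕ) : ℤ) := by linarith
      exact_mod_cast h3
    have hramr : (η : ℝ) * μ = m' * ε := by exact_mod_cast hram
    have hl1 := hlst v hv v' ε hv' hL
    rw [div_eq_iff hεr.ne'] at hl1
    have hkey : (1 - 𝔻 ν) - μ * (Tv r Z L Ξ₀ v + Dmg w S M v) = (∑ b, l' b * (b' b : ℝ)) / η := by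
      rw [hl1] at hb'
      rw [eq_div_iff hηr.ne']
      linear_combination hb' - (Tv r Z L Ξ₀ v + Dmg w S M v) * hramr
    have hfin : (1 - 𝔻 ν) - μ * Tv r Z L Ξ₂ v = ∑ b, (b' b : ℝ) * (l' b / η) +
        (μ : ℝ) * ∑ j, ((val v (σ j : K) : ℝ) - (mnS (S₂ j) v : ℝ)) * (w₂ j / M) := by
      have h1 : ∑ b, (b' b : ℝ) * (l' b / η) = (∑ b, l' b * (b' b : ℝ)) / η := by
        rw [Finset.sum_div]
        exact Finset.sum_congr rfl fun b _ => by ring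
      have h2 : ∑ j, ((val v (σ j : K) : ℝ) - (mnS (S₂ j) v : ℝ)) * (w₂ j / M) =
          ∑ j, (w₂ j / M) * ((val v (σ j : K) : ℝ) - (mnS (S₂ j) v : ℝ)) :=
        Finset.sum_congr rfl fun j _ => by ring
      rw [h1, h2, ← hkey, hT v]
      ring
    rw [hfin]
    apply AddSubmonoid.add_mem
    · apply AddSubmonoid.sum_mem
      intro b _
      rcases hC1 (bas a) l' η hl' hbas hη0 hηδ b with h | h
      · rw [h, zero_div, mul_zero]
        exact AddSubmonoid.zero_mem _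
      · exact XMvb.nsmul_mem' (AddSubmonoid.subset_closure (Or.inl h)) _
    · apply XMvb.nsmul_mem'
      apply AddSubmonoid.sum_mem
      intro j _
      obtain ⟨i, hi⟩ := hw2 j
      have hmem : w₂ j / M ∈ XMvb.GG G Γ m δ := by
        right
        exact ⟨w i, hw i, γ, hγ0, hA.degK, by rw [hi]⟩
      have h1 := XMvb.int_mem (AddSubmonoid.subset_closure hmem) (hhz v hv j)
      push_cast at h1
      exact h1

end Pool.Agent.Work.MP_a2680c_ag.HA
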