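import Pool.Agent.Work.MP_a2680c_ag.HA.StmtsG

/-!
# MP_a2680c_ag, block HA, item Nmx: the norm of an `ℝ`-divisor
-/

set_option autoImplicit false

noncomputable section

namespace Pool.Agent.Work.MP_a2680c_ag.HA

open MP7b66e6 MP7b66e6.Q
open scoped BigOperators

universe u

namespace XNmx

/-- the norm on units -/
def nm (K K' : Type u) [Field K] [Field K'] [Algebra K K'] : K'ˣ →* Kˣ :=
  Units.map (Algebra.norm K : K' →* K)

variable {K K' : Type u} [Field K] [Field K'] [Algebra K K']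

theorem val_nm [FiniteDimensional K K'] [IsGalois K K'] {v : AddValuation K (WithTop ℤ)}
    {v' : AddValuation K' (WithTop ℤ)} {ε : ℕ} (h : Lies v v' ε) (s : K'ˣ) :
    (ε : ℝ) * (val v ((nm K K' s : Kˣ) : K) : ℝ) = ∑ g : K' ≃ₐ[K] K', (val (cg g v') (s : K') : ℝ) := by
  have h1 := h.2 ((nm K K' s : Kˣ) : K) (Units.ne_zero _)
  have h2 : algebraMap K K' ((nm K K' s : Kˣ) : K) = ∏ g : K' ≃ₐ[K] K', g (s : K') :=
    Algebra.norm_eq_prod_automorphisms K (s : K')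
  rw [h2, Api.val_prod v' _ _ (fun g _ => (map_ne_zero_iff g g.injective).2 s.ne_zero)] at h1
  have h3 : ((∑ g : K' ≃ₐ[K] K', val v' (g (s : K')) : ℤ) : ℝ)
      = (((ε : ℤ) * val v ((nm K K' s : Kˣ) : K) : ℤ) : ℝ) := by rw [h1]
  push_cast at h3
  rw [← h3]
  exact Finset.sum_congr rfl fun g _ => by rw [Api.val_cg]

theorem ev_mapDomain (v : AddValuation K (WithTop ℤ)) (Ξ : K'ˣ →₀ ℝ) :
    ev v (Ξ.mapDomain (nm K K')) = Ξ.sum fun s r => r * (val v ((nm K K' s : Kˣ) : K) : ℝ) := by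
  rw [ev, Finsupp.sum_mapDomain_index (by intro s; ring) (by intro s a b; ring)]

end XNmx

theorem pr_Nmx : StNmx.{u} := by
  intro K K' _ _ _ _ _ Ξ
  refine ⟨((Module.finrank K K' : ℝ)⁻¹) • Ξ.mapDomain (XNmx.nm K K'), ?_⟩
  intro v v' ε h
  have hn : (Module.finrank K K' : ℝ) ≠ 0 := by
    exact_mod_cast (Module.finrank_pos (R := K) (M := K')).ne'
  rw [Api.ev_smul, XNmx.ev_mapDomain]
  have e1 : (Module.finrank K K' : ℝ) * ((ε : ℝ) * ((Module.finrank K K' : ℝ)⁻¹ *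
      Ξ.sum fun s r => r * (val v ((XNmx.nm K K' s : Kˣ) : K) : ℝ)))
      = (ε : ℝ) * Ξ.sum fun s r => r * (val v ((XNmx.nm K K' s : Kˣ) : K) : ℝ) := by
    field_simp
  rw [e1, Finsupp.mul_sum]
  simp only [ev, Finsupp.sum]
  rw [Finset.sum_comm]
  refine Finset.sum_congr rfl fun s _ => ?_
  rw [← Finset.mul_sum, ← XNmx.val_nm h s]
  ring

end Pool.Agent.Work.MP_a2680c_ag.HA
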