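import Pool.Agent.Work.MP_a2680c_ag.HA.StmtsY
import Pool.Agent.Work.MP_a2680c_ag.HA.Api

set_option autoImplicit false

noncomputable section

namespace Pool.Agent.Work.MP_a2680c_ag.HA

open MP7b66e6 MP7b66e6.Q
open scoped BigOperators

universe u

namespace XNnp

/-- a common denominator of finitely many rational numbers -/
theorem denom {ι : Type*} (S : Finset ι) (ρ : ι → ℚ) :
    ∃ (q : ℕ) (n : ι → ℤ), 0 < q ∧ ∀ s ∈ S, (n s : ℚ) = q * ρ s := by
  classical
  refine ⟨∏ s ∈ S, (ρ s).den, fun s => (∏ t ∈ S.erase s, ((ρ t).den : ℤ)) * (ρ s).num,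
    Finset.prod_pos fun s _ => (ρ s).den_pos, ?_⟩
  intro s hs
  have h1 : (∏ t ∈ S, (ρ t).den) = (ρ s).den * ∏ t ∈ S.erase s, (ρ t).den :=
    (Finset.mul_prod_erase S (fun t => (ρ t).den) hs).symm
  have h2 : (ρ s : ℚ) * ((ρ s).den : ℚ) = (ρ s).num := Rat.mul_den_eq_num (ρ s)
  rw [h1]
  push_cast
  rw [← h2]
  ring

end XNnp

theorem pr_Nnp (hRat : StRat) (hNop : StNop.{u}) : StNnp.{u} := by
  intro K E _ _ _ _ _ x hx hconn hfin Θ hpos w₀ hw₀
  classical
  -- the positive values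
  have hF : {w : AddValuation E (WithTop ℤ) | Plc K w ∧ ev w Θ ≠ 0}.Finite := by
    apply Set.Finite.subset (Θ.support.finite_toSet.biUnion
      (fun s _ => hfin (s : E) s.ne_zero))
    intro w hw
    obtain ⟨h1, h2⟩ := hw
    by_contra hcon
    apply h2
    rw [ev, Finsupp.sum]
    apply Finset.sum_eq_zero
    intro s hs
    have : val w (s : E) = 0 := by
      by_contra h3
      apply hcon
      simp only [Set.mem_iUnion]
      exact ⟨s, hs, h1, h3⟩
    rw [this]
    simp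
  obtain ⟨l, a, Φ, ha, hsum, hΦ⟩ := hRat ((hF.toFinset.image fun w => ev w Θ).filter fun t => 0 < t)
    (fun t ht => (Finset.mem_filter.1 ht).2)
  have hl : 0 < l := by
    rcases Nat.eq_zero_or_pos l with h | h
    · subst h
      simp at hsum
    · exact h
  let φ := Φ ⟨0, hl⟩
  have hφ : ∀ w : AddValuation E (WithTop ℤ), Plc K w → ev w Θ ≠ 0 → 0 < φ (ev w Θ) := by
    intro w hw hne
    refine (hΦ _ (Finset.mem_filter.2 ⟨Finset.mem_image.2 ⟨w, ?_, rfl⟩, ?_⟩)).1 ⟨0, hl⟩
    · rw [Set.Finite.mem_toFinset]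
      exact ⟨hw, hne⟩
    · exact lt_of_le_of_ne (hpos w hw) (Ne.symm hne)
  obtain ⟨q, n, hq, hn⟩ := XNnp.denom Θ.support (fun s => φ (Θ s))
  let f : E := ∏ s ∈ Θ.support, (s : E) ^ n s
  have hf0 : f ≠ 0 := Finset.prod_ne_zero_iff.2 fun s _ => zpow_ne_zero _ s.ne_zero
  have hval : ∀ w : AddValuation E (WithTop ℤ), (val w f : ℚ) = q * φ (ev w Θ) := by
    intro w
    have h1 : val w f = ∑ s ∈ Θ.support, n s * val w (s : E) := by
      show val w (∏ s ∈ Θ.support, (s : E) ^ n s) = _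
      rw [Api.val_prod w _ _ (fun s _ => zpow_ne_zero _ s.ne_zero)]
      exact Finset.sum_congr rfl fun s _ => Api.val_zpow w s.ne_zero _
    have h2 : φ (ev w Θ) = ∑ s ∈ Θ.support, φ (Θ s) * (val w (s : E) : ℚ) := by
      rw [ev, Finsupp.sum, map_sum]
      refine Finset.sum_congr rfl fun s _ => ?_
      have h3 : Θ s * ((val w (s : E) : ℤ) : ℝ) = ((val w (s : E) : ℤ) : ℚ) • Θ s := by
        rw [Rat.smul_def]
        push_cast
        ring
      rw [h3, map_smul, smul_eq_mul]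
      ring
    rw [h1, h2, Finset.mul_sum]
    push_cast
    refine Finset.sum_congr rfl fun s hs => ?_
    rw [hn s hs]
    ring
  have hqQ : (0 : ℚ) < q := by exact_mod_cast hq
  have halg : IsAlgebraic K f := by
    apply hNop K E x hx f
    intro w hw
    rw [← Api.val_nonneg w hf0]
    have h1 : (0 : ℚ) ≤ (val w f : ℚ) := by
      rw [hval]
      apply mul_nonneg hqQ.le
      by_cases h : ev w Θ = 0
      · rw [h, map_zero]
      · exact (hφ w hw h).le
    exact_mod_cast h1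
  obtain ⟨c, hc⟩ := hconn f halg
  have hc0 : c ≠ 0 := by
    rintro rfl
    exact hf0 (by rw [← hc, map_zero])
  have hv0 : val w₀ f = 0 := by
    rw [← hc]
    apply Api.val_of
    rw [Api.val_algebraMap hw₀.2 hc0]
    rfl
  by_contra hne
  have h1 := hφ w₀ hw₀ hne
  have h2 := hval w₀
  rw [hv0] at h2
  have h3 : (0 : ℚ) < q * φ (ev w₀ Θ) := mul_pos hqQ h1
  rw [← h2] at h3
  norm_num at h3

end Pool.Agent.Work.MP_a2680c_ag.HA
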