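import Pool.Agent.Work.MP_a2680c_ag.HA.StmtsY

/-!
# MP_a2680c_ag, block HA, item Nop: a function without poles is constant
-/

set_option autoImplicit false

noncomputable section

namespace Pool.Agent.Work.MP_a2680c_ag.HA

open MP7b66e6 MP7b66e6.Q
open scoped BigOperators

universe u

namespace XNop

section
variable {K F : Type u} [Field K] [Field F] [Algebra K F]

theorem ae_ne {y : Fin 1 → F} (hy : GenBy K y) {g : MvPolynomial (Fin 1) K} (hg : g ≠ 0) :
    MvPolynomial.aeval y g ≠ 0 := by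
  intro h
  have hinj : Function.Injective (MvPolynomial.aeval (R := K) y) := hy.1
  exact hg (hinj (by rw [h, map_zero]))

theorem exists_frac {y : Fin 1 → F} (hy : GenBy K y) (f : F) :
    ∃ g h : MvPolynomial (Fin 1) K, h ≠ 0 ∧ f = MvPolynomial.aeval y g / MvPolynomial.aeval y h := by
  have hz : f ∈ IntermediateField.adjoin K (Set.range y) := by
    rw [hy.2]; exact IntermediateField.mem_top
  obtain ⟨r, s, hrs⟩ := (IntermediateField.mem_adjoin_range_iff K y f).1 hz
  by_cases hs : s = 0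
  · refine ⟨0, 1, one_ne_zero, ?_⟩
    rw [hrs, hs, map_zero, div_zero, zero_div]
  · exact ⟨r, s, hs, hrs⟩

theorem y_ne {y : Fin 1 → F} (hy : GenBy K y) : y 0 ≠ 0 := by
  have h := ae_ne hy (MvPolynomial.X_ne_zero (R := K) (0 : Fin 1))
  rwa [MvPolynomial.aeval_X] at h

theorem inC {y : Fin 1 → F} (hy : GenBy K y) (P : MvPolynomial (Fin 1) K) (m : ℕ)
    (hP : P.totalDegree ≤ m) :
    MvPolynomial.aeval y P * (y 0)⁻¹ ^ m ∈ Algebra.adjoin K {(y 0)⁻¹} := by
  have hy0 := y_ne hy
  have e1 : MvPolynomial.aeval y P * (y 0)⁻¹ ^ m =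
      ∑ v ∈ P.support, algebraMap K F (P.coeff v) * (y 0)⁻¹ ^ (m - v 0) := by
    conv_lhs => rw [P.as_sum]
    rw [map_sum, Finset.sum_mul]
    refine Finset.sum_congr rfl fun v hv => ?_
    have h1 := MvPolynomial.le_totalDegree hv
    have h2 : (v.sum fun _ e => e) = v 0 := by
      rw [Finsupp.sum_fintype _ _ (fun _ => rfl), Fin.sum_univ_one]
    have h3 : v 0 ≤ m := by omega
    have h4 : (v.prod fun i k => y i ^ k) = y 0 ^ v 0 := by
      rw [Finsupp.prod_fintype _ _ (fun i => pow_zero _), Fin.prod_univ_one]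
    rw [MvPolynomial.aeval_monomial, h4, mul_assoc]
    congr 1
    obtain ⟨n, rfl⟩ := Nat.exists_eq_add_of_le h3
    rw [Nat.add_sub_cancel_left, pow_add, ← mul_assoc, ← mul_pow, mul_inv_cancel₀ hy0, one_pow,
      one_mul]
  rw [e1]
  refine Subalgebra.sum_mem _ fun v _ => ?_
  exact Subalgebra.mul_mem _ (Subalgebra.algebraMap_mem _ _)
    (Subalgebra.pow_mem _ (Algebra.subset_adjoin (Set.mem_singleton _)) _)

theorem val_inv {ν : AddValuation F (WithTop ℤ)} {y : Fin 1 → F} (hy : GenBy K y)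
    (hν : OrdI K y ν) : val ν (y 0)⁻¹ = 1 := by
  have h1 := hν (MvPolynomial.X 0) (MvPolynomial.X_ne_zero _)
  rw [MvPolynomial.aeval_X, MvPolynomial.totalDegree_X] at h1
  rw [Api.val_inv ν (y_ne hy), Api.val_of ν h1]
  norm_num

theorem val_ae {ν : AddValuation F (WithTop ℤ)} {y : Fin 1 → F} (hν : OrdI K y ν)
    {P : MvPolynomial (Fin 1) K} (hP : P ≠ 0) :
    val ν (MvPolynomial.aeval y P) = -(P.totalDegree : ℤ) := Api.val_of ν (hν P hP)

theorem divisorial {ν : AddValuation F (WithTop ℤ)} {y : Fin 1 → F} (hy : GenBy K y)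
    (hν : OrdI K y ν) : Divisorial K ν := by
  have hy0 := y_ne hy
  have hi0 : (y 0)⁻¹ ≠ 0 := inv_ne_zero hy0
  have hi : ν (y 0)⁻¹ = 1 := by
    rw [Api.coe_val ν hi0, val_inv hy hν]
    rfl
  have hK : ∀ c : K, 0 ≤ ν (algebraMap K F c) := by
    intro c
    by_cases hc : c = 0
    · rw [hc, map_zero, AddValuation.map_zero]
      exact le_top
    · have h1 := hν (MvPolynomial.C c) (by simpa using hc)
      rw [MvPolynomial.aeval_C, MvPolynomial.totalDegree_C] at h1
      rw [h1]
      norm_num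
  refine ⟨⟨_, hi⟩, Algebra.adjoin K {(y 0)⁻¹}, ⟨{(y 0)⁻¹}, by rw [Finset.coe_singleton]⟩, ?_, ?_⟩
  · intro c hc
    induction hc using Algebra.adjoin_induction with
    | mem x hx =>
      rw [Set.mem_singleton_iff] at hx
      rw [hx, hi]
      exact zero_le_one
    | algebraMap r => exact hK r
    | add x y _ _ h1 h2 => exact ν.map_le_add h1 h2
    | mul x y _ _ h1 h2 =>
      rw [AddValuation.map_mul]
      exact add_nonneg h1 h2
  · intro g hg
    by_cases hg0 : g = 0
    · exact ⟨0, Subalgebra.zero_mem _, 1, Subalgebra.one_mem _, AddValuation.map_one ν, by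
        rw [hg0, zero_mul]⟩
    obtain ⟨A, B, hB, hAB⟩ := exists_frac hy g
    have hA : A ≠ 0 := by
      intro h
      exact hg0 (by rw [hAB, h, map_zero, zero_div])
    have hBn := ae_ne hy hB
    have hAn := ae_ne hy hA
    have hdeg : A.totalDegree ≤ B.totalDegree := by
      have h1 : 0 ≤ val ν g := (Api.val_nonneg ν hg0).2 hg
      rw [hAB, Api.val_div ν hAn hBn, val_ae hν hA, val_ae hν hB] at h1
      omega
    refine ⟨_, inC hy A B.totalDegree hdeg, _, inC hy B B.totalDegree le_rfl, ?_, ?_⟩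
    · have hp : (y 0)⁻¹ ^ B.totalDegree ≠ 0 := pow_ne_zero _ hi0
      rw [Api.coe_val ν (mul_ne_zero hBn hp), Api.val_mul ν hBn hp, val_ae hν hB,
        Api.val_pow ν hi0, val_inv hy hν]
      rw [mul_one, neg_add_cancel]
      rfl
    · rw [hAB, ← mul_assoc, div_mul_cancel₀ _ hBn]

end

end XNop

theorem pr_Nop (hOrd : StOrd.{u}) (hEXT : StEXT.{u, u, u}) : StNop.{u} := by
  intro K E _ _ _ _ _ x hx f hf
  by_contra hcon
  have htr : Transcendental K f := hcon
  obtain ⟨y, hy⟩ : ∃ y : Fin 1 → E, y = fun _ => f := ⟨_, rfl⟩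
  have hyi : AlgebraicIndependent K y := by
    rw [algebraicIndependent_singleton_iff (0 : Fin 1), hy]
    exact htr
  have hyb : IsTranscendenceBasis K y := by
    apply hyi.isTranscendenceBasis_of_lift_trdeg_le_of_finite
    have h := hx.lift_cardinalMk_eq_trdeg
    rw [← h]
  have hfm : f ∈ IntermediateField.adjoin K (Set.range y) :=
    IntermediateField.subset_adjoin _ _ ⟨0, by rw [hy]⟩
  have halg : Algebra.IsAlgebraic (IntermediateField.adjoin K (Set.range y)) E :=
    hyb.isAlgebraic_field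
  have hess : Algebra.EssFiniteType (IntermediateField.adjoin K (Set.range y)) E :=
    Algebra.EssFiniteType.of_comp K _ E
  have hfin : FiniteDimensional (IntermediateField.adjoin K (Set.range y)) E :=
    Algebra.finite_of_essFiniteType_of_isAlgebraic
  obtain ⟨y1, hy1⟩ : ∃ y1 : Fin 1 → IntermediateField.adjoin K (Set.range y),
    y1 = fun _ => ⟨f, hfm⟩ := ⟨_, rfl⟩
  have hgen : GenBy K y1 := by
    constructor
    · rw [algebraicIndependent_singleton_iff (0 : Fin 1), hy1]
      intro h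
      exact htr (h.algebraMap (A := E))
    · apply IntermediateField.lift_injective (IntermediateField.adjoin K (Set.range y))
      rw [IntermediateField.lift_adjoin, IntermediateField.lift_top]
      congr 1
      have hyv : ∀ i, y i = f := fun i => congrFun hy i
      have hy1v : ∀ i, ((y1 i : IntermediateField.adjoin K (Set.range y)) : E) = f := by
        intro i
        rw [hy1]
      ext z
      constructor
      · rintro ⟨_, ⟨i, rfl⟩, rfl⟩
        exact ⟨i, (hyv i).trans (hy1v i).symm⟩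
      · rintro ⟨i, rfl⟩
        exact ⟨y1 i, ⟨i, rfl⟩, (hy1v i).trans (hyv i).symm⟩
  obtain ⟨-, ν, hν⟩ := hOrd K (IntermediateField.adjoin K (Set.range y)) 1 y1 hgen
  have hdiv := XNop.divisorial hgen hν
  obtain ⟨w, m, ⟨hw1, C, hCfg, hC0, hC1⟩, hm, hl⟩ := hEXT K (IntermediateField.adjoin K (Set.range y)) E ν hdiv
  have hPl : Plc K w := ⟨hw1, fun c => hC0 _ (Subalgebra.algebraMap_mem C c)⟩
  have h1 := hf w hPl
  have hy0 := XNop.y_ne hgen
  have h2 := hl (y1 0) hy0
  have h3 : algebraMap (IntermediateField.adjoin K (Set.range y)) E (y1 0) = f := by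
    rw [hy1]
    rfl
  have h4 : val ν (y1 0) = -1 := by
    have h5 := XNop.val_inv hgen hν
    rw [Api.val_inv ν hy0] at h5
    omega
  have hf0 : f ≠ 0 := by
    intro h
    apply htr
    rw [h]
    exact isAlgebraic_zero
  rw [h3, h4] at h2
  rw [← Api.val_nonneg w hf0, h2] at h1
  have h6 : (0 : ℤ) < m := by exact_mod_cast hm
  omega

end Pool.Agent.Work.MP_a2680c_ag.HA
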