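import Pool.Agent.Work.MP_a2680c_ag.HA.StmtsG

/-!
# MP_a2680c_ag, block HA, part G, item Nrm: norms of general combinations
-/

set_option autoImplicit false

noncomputable section

namespace Pool.Agent.Work.MP_a2680c_ag.HA

open MP7b66e6 MP7b66e6.Q
open scoped BigOperators

universe u

namespace XNrm

section
variable {K' : Type u} [Field K'] (w : AddValuation K' (WithTop ℤ))

theorem map_intCast (h : ∀ m : ℕ, m ≠ 0 → w (m : K') = 0) (n : ℤ) (hn : n ≠ 0) : w (n : K') = 0 := by
  rcases Int.natAbs_eq n with h1 | h1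
  · rw [h1, Int.cast_natCast]; exact h _ (Int.natAbs_ne_zero.2 hn)
  · rw [h1, Int.cast_neg, AddValuation.map_neg, Int.cast_natCast]; exact h _ (Int.natAbs_ne_zero.2 hn)

theorem map_intCast_nonneg (h : ∀ m : ℕ, m ≠ 0 → w (m : K') = 0) (n : ℤ) : 0 ≤ w (n : K') := by
  by_cases hn : n = 0
  · rw [hn, Int.cast_zero, AddValuation.map_zero]; exact le_top
  · rw [map_intCast w h n hn]

/-- if `p` values of a polynomial of degree `< p` at different natural numbers are larger than `μ`, so are its coefficients -/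
theorem vdm (h : ∀ m : ℕ, m ≠ 0 → w (m : K') = 0) (p : ℕ) (f : Fin p → K') (t : Fin p → ℕ) (ht : Function.Injective t)
    (μ : WithTop ℤ) (hμ : μ ≠ ⊤) (H : ∀ j, μ < w (∑ l : Fin p, (t j : K') ^ (l : ℕ) * f l)) (l : Fin p) : μ < w (f l) := by
  let M : Matrix (Fin p) (Fin p) ℤ := Matrix.vandermonde (fun j => (t j : ℤ))
  have hdet : M.det ≠ 0 := by
    rw [Matrix.det_vandermonde_ne_zero_iff]
    intro a b hab
    have hab' : (t a : ℤ) = (t b : ℤ) := hab
    exact ht (by exact_mod_cast hab')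
  have h1 : M.adjugate * M = M.det • (1 : Matrix (Fin p) (Fin p) ℤ) := Matrix.adjugate_mul M
  have h2 : ∀ l' : Fin p, ∑ j, M.adjugate l j * M j l' = if l = l' then M.det else 0 := by
    intro l'
    have h3 := congrFun (congrFun h1 l) l'
    rw [Matrix.mul_apply] at h3
    rw [h3, Matrix.smul_apply, Matrix.one_apply]
    split_ifs <;> simp
  have h3 : ∀ l' : Fin p, ∑ j, ((M.adjugate l j : ℤ) : K') * ((t j : K') ^ (l' : ℕ) * f l') =
      ((∑ j, M.adjugate l j * M j l' : ℤ) : K') * f l' := by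
    intro l'
    rw [Int.cast_sum, Finset.sum_mul]
    apply Finset.sum_congr rfl
    intro j _
    have h4 : M j l' = (t j : ℤ) ^ (l' : ℕ) := rfl
    rw [h4]
    push_cast
    ring
  have key : ((M.det : ℤ) : K') * f l = ∑ j, ((M.adjugate l j : ℤ) : K') * ∑ l' : Fin p, (t j : K') ^ (l' : ℕ) * f l' := by
    simp_rw [Finset.mul_sum]
    rw [Finset.sum_comm]
    simp_rw [h3, h2]
    rw [Finset.sum_eq_single l]
    · rw [if_pos rfl]
    · intro b _ hb
      rw [if_neg (Ne.symm hb), Int.cast_zero, zero_mul]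
    · intro hc
      exact absurd (Finset.mem_univ l) hc
  have hv : w (((M.det : ℤ) : K') * f l) = w (f l) := by
    rw [AddValuation.map_mul, map_intCast w h _ hdet, zero_add]
  rw [← hv, key]
  apply AddValuation.map_lt_sum w hμ
  intro j _
  rw [AddValuation.map_mul]
  exact lt_of_lt_of_le (H j) (le_add_of_nonneg_left (map_intCast_nonneg w h _))

end

/-- a pigeonhole principle -/
theorem exists_good {G : Type*} [Fintype G] (q : ℕ) (bad : G → ℕ → Prop)
    (h : ∀ g, ∀ t : Fin (q + 1) → ℕ, Function.Injective t → ∃ j, ¬ bad g (t j)) :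
    ∃ t ∈ Finset.range (Fintype.card G * q + 1), ∀ g, ¬ bad g t := by
  classical
  by_contra hcon
  push Not at hcon
  let B : G → Finset ℕ := fun g => (Finset.range (Fintype.card G * q + 1)).filter (bad g)
  have hB : ∀ g, (B g).card ≤ q := by
    intro g
    by_contra hc
    have hc' : q + 1 ≤ (B g).card := by omega
    obtain ⟨C, hC, hcard⟩ := Finset.exists_subset_card_eq hc'
    obtain ⟨j, hj⟩ := h g (C.orderEmbOfFin hcard) (C.orderEmbOfFin hcard).injective
    exact hj (Finset.mem_filter.1 (hC (C.orderEmbOfFin_mem hcard j))).2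
  have hsub : Finset.range (Fintype.card G * q + 1) ⊆ Finset.univ.biUnion B := by
    intro t ht
    obtain ⟨g, hg⟩ := hcon t ht
    exact Finset.mem_biUnion.2 ⟨g, Finset.mem_univ _, Finset.mem_filter.2 ⟨ht, hg⟩⟩
  have h1 := Finset.card_le_card hsub
  have h2 := Finset.card_biUnion_le_card_mul Finset.univ B q (fun g _ => hB g)
  rw [Finset.card_range] at h1
  rw [Finset.card_univ] at h2
  omega

end XNrm

open XNrm in
theorem pr_Nrm : StNrm.{u} := by
  classical
  intro K K' _ _ _ _ _ _ S hS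
  obtain ⟨q, hq⟩ : ∃ q, S.card = q + 1 := ⟨S.card - 1, by have := hS.card_pos; omega⟩
  let e : S ≃ Fin (q + 1) := S.equivFinOfCardEq hq
  let s : Fin (q + 1) → K' := fun l => ((e.symm l : K'ˣ) : K')
  let σ : ℕ → K' := fun t => ∑ l : Fin (q + 1), (t : K') ^ (l : ℕ) * s l
  have hN : ∀ x : K', x ≠ 0 → Algebra.norm K x ≠ 0 := fun x hx => Algebra.norm_ne_zero_iff.2 hx
  let N : ℕ → Kˣ := fun t => if h : σ t ≠ 0 then Units.mk0 (Algebra.norm K (σ t)) (hN _ h) else 1
  have hNv : ∀ t, σ t ≠ 0 → ((N t : Kˣ) : K) = Algebra.norm K (σ t) := by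
    intro t h
    simp only [N, dif_pos h, Units.val_mk0]
  refine ⟨((Finset.range (Fintype.card (K' ≃ₐ[K] K') * q + 1)).filter fun t => σ t ≠ 0).image N, ?_, ?_⟩
  · refine Finset.Nonempty.image ⟨0, Finset.mem_filter.2 ⟨Finset.mem_range.2 (Nat.succ_pos _), ?_⟩⟩ N
    have h0 : σ 0 = s 0 := by
      simp only [σ]
      rw [Fin.sum_univ_succ]
      simp
    rw [h0]
    exact (e.symm 0 : K'ˣ).ne_zero
  · intro v v' ε hL hnat μ hμ
    have hle : ∀ (g : K' ≃ₐ[K] K') (l : Fin (q + 1)), ((μ g : ℤ) : WithTop ℤ) ≤ v' (g (s l)) := by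
      intro g l
      have hne : g (s l) ≠ 0 := by
        rw [map_ne_zero_iff _ g.injective]; exact (e.symm l : K'ˣ).ne_zero
      rw [Api.coe_val v' hne, WithTop.coe_le_coe]
      exact (hμ g).2 ⟨(e.symm l : K'ˣ), (e.symm l).2, rfl⟩
    have hgσ : ∀ (g : K' ≃ₐ[K] K') (t : ℕ), g (σ t) = ∑ l : Fin (q + 1), (t : K') ^ (l : ℕ) * g (s l) := by
      intro g t
      simp only [σ]
      rw [map_sum]
      apply Finset.sum_congr rfl
      intro l _
      rw [map_mul, map_pow, map_natCast]
    have hge : ∀ (g : K' ≃ₐ[K] K') (t : ℕ), ((μ g : ℤ) : WithTop ℤ) ≤ v' (g (σ t)) := by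
      intro g t
      rw [hgσ]
      apply AddValuation.map_le_sum v'
      intro l _
      rw [AddValuation.map_mul, AddValuation.map_pow]
      refine le_trans (hle g l) (le_add_of_nonneg_left (nsmul_nonneg ?_ _))
      have := map_intCast_nonneg v' hnat (t : ℤ)
      rwa [Int.cast_natCast] at this
    have hval : ∀ t, σ t ≠ 0 → (ε : ℤ) * val v ((N t : Kˣ) : K) = ∑ g : K' ≃ₐ[K] K', val v' (g (σ t)) := by
      intro t ht
      rw [← hL.2 _ (N t).ne_zero, hNv t ht, Algebra.norm_eq_prod_automorphisms, Api.val_prod]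
      intro g _
      rw [map_ne_zero_iff _ g.injective]; exact ht
    refine ⟨?_, ?_⟩
    · obtain ⟨t, ht, hgood⟩ := exists_good q (fun (g : K' ≃ₐ[K] K') t => ((μ g : ℤ) : WithTop ℤ) < v' (g (σ t)))
        (by
          intro g t ht
          by_contra hcon
          push Not at hcon
          have hb : ∀ l, ((μ g : ℤ) : WithTop ℤ) < v' (g (s l)) := by
            intro l
            refine vdm v' hnat (q + 1) (fun l => g (s l)) t ht _ (WithTop.coe_ne_top) ?_ l
            intro j
            have h1 := hcon j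
            rwa [hgσ] at h1
          obtain ⟨s0, hs0, h2⟩ := (hμ g).1
          have h3 := hb (e ⟨s0, hs0⟩)
          have h4 : s (e ⟨s0, hs0⟩) = (s0 : K') := by
            simp only [s, Equiv.symm_apply_apply]
          have hne : g (s0 : K') ≠ 0 := by
            rw [map_ne_zero_iff _ g.injective]; exact s0.ne_zero
          rw [h4, Api.coe_val v' hne, ← h2] at h3
          exact lt_irrefl _ h3)
      have heq : ∀ g : K' ≃ₐ[K] K', v' (g (σ t)) = ((μ g : ℤ) : WithTop ℤ) := fun g =>
        le_antisymm (not_lt.1 (hgood g)) (hge g t)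
      have hσ : σ t ≠ 0 := by
        intro h0
        have h1 := heq 1
        rw [h0, map_zero, AddValuation.map_zero] at h1
        exact absurd h1.symm WithTop.coe_ne_top
      refine ⟨N t, Finset.mem_image.2 ⟨t, Finset.mem_filter.2 ⟨ht, hσ⟩, rfl⟩, ?_⟩
      rw [hval t hσ]
      apply Finset.sum_congr rfl
      intro g _
      exact (Api.val_of v' (heq g)).symm
    · rintro x ⟨n, hn, rfl⟩
      obtain ⟨t, ht, rfl⟩ := Finset.mem_image.1 hn
      have hσ := (Finset.mem_filter.1 ht).2
      rw [hval t hσ]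
      apply Finset.sum_le_sum
      intro g _
      have hne : g (σ t) ≠ 0 := by
        rw [map_ne_zero_iff _ g.injective]; exact hσ
      have h1 := hge g t
      rwa [Api.coe_val v' hne, WithTop.coe_le_coe] at h1

end Pool.Agent.Work.MP_a2680c_ag.HA
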