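import Pool.Agent.Work.MP_a2680c_ag.HA.StmtsG

/-!
# Item Opg of block HA: linear programming for a divisor over the base, Galois forms
-/

set_option autoImplicit false

noncomputable section

namespace Pool.Agent.Work.MP_a2680c_ag.HA

open MP7b66e6 MP7b66e6.Q
open scoped BigOperators

universe u

namespace XOpg

/-- the weights of a sum over bases -/
theorem sum_weights {n N : ℕ} (d : Fin N → ℝ) (l : (Fin (n + 1) → Fin N) → ℝ)
    (hs : ∀ i, ∑ b, l b * (∑ j, if b j = i then 1 else 0) = d i) (Y : Fin N → ℤ) :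
    ∑ b, l b * ((∑ j, Y (b j) : ℤ) : ℝ) = ∑ i, d i * (Y i : ℝ) := by
  classical
  have h1 : ∀ b : Fin (n + 1) → Fin N, l b * ((∑ j, Y (b j) : ℤ) : ℝ) =
      ∑ i, l b * (∑ j, if b j = i then 1 else 0) * (Y i : ℝ) := by
    intro b
    rw [Int.cast_sum]
    have h2 : ∀ j, ((Y (b j) : ℤ) : ℝ) = ∑ i, (if b j = i then 1 else 0) * (Y i : ℝ) := by
      intro j
      simp
    rw [Finset.sum_congr rfl fun j _ => h2 j, Finset.sum_comm, Finset.mul_sum]
    refine Finset.sum_congr rfl fun i _ => ?_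
    rw [← Finset.sum_mul, mul_assoc]
  rw [Finset.sum_congr rfl fun b _ => h1 b, Finset.sum_comm]
  refine Finset.sum_congr rfl fun i _ => ?_
  rw [← Finset.sum_mul, hs i]

/-- weak duality -/
theorem weak {n N : ℕ} (S : Set (Fin (n + 1) → Fin N)) (d : Fin N → ℝ)
    (l : (Fin (n + 1) → Fin N) → ℝ) (hl : Feas S d l) (c : (Fin (n + 1) → Fin N) → ℤ) (q : ℕ)
    (Y : Fin N → ℤ) (hY : ∀ b ∈ S, ∑ j, Y (b j) ≤ q * c b) :
    ∑ i, d i * (Y i : ℝ) ≤ q * ∑ b, l b * (c b : ℝ) := by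
  rw [← sum_weights d l hl.sum Y, Finset.mul_sum]
  refine Finset.sum_le_sum fun b _ => ?_
  by_cases hb : b ∈ S
  · have h1 : ((∑ j, Y (b j) : ℤ) : ℝ) ≤ q * (c b : ℝ) := by exact_mod_cast hY b hb
    calc l b * ((∑ j, Y (b j) : ℤ) : ℝ) ≤ l b * (q * (c b : ℝ)) :=
          mul_le_mul_of_nonneg_left h1 (hl.nonneg b)
      _ = q * (l b * (c b : ℝ)) := by ring
  · rw [hl.supp b hb]
    simp

/-- the embedding of the tuples -/
def emb {n N : ℕ} (M : ℕ) (b : Fin (n + 1) → Fin N) : Fin (n + 1) → Fin (N + M) :=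
  fun j => Fin.castAdd M (b j)

theorem emb_inj {n N : ℕ} (M : ℕ) : Function.Injective (emb (n := n) (N := N) M) := by
  intro b b' h
  funext j
  exact Fin.castAdd_injective N M (congrFun h j)

theorem not_range {n N M : ℕ} (b : Fin (n + 1) → Fin (N + M)) (hb : b ∉ Set.range (emb (n := n) (N := N) M)) :
    ∃ (j : Fin (n + 1)) (i : Fin M), b j = Fin.natAdd N i := by
  by_contra hc
  push Not at hc
  apply hb
  have h1 : ∀ j, ∃ i : Fin N, Fin.castAdd M i = b j := by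
    intro j
    have h2 := hc j
    generalize b j = x at h2
    revert h2
    refine Fin.addCases (fun i _ => ⟨i, rfl⟩) (fun i h2 => ?_) x
    exact absurd rfl (h2 i)
  choose f hf using h1
  exact ⟨f, funext hf⟩

/-- a decomposition vanishes at the tuples with new entries -/
theorem zero_new {n N M : ℕ} (S : Set (Fin (n + 1) → Fin (N + M))) (d : Fin (N + M) → ℝ)
    (hd : ∀ i : Fin M, d (Fin.natAdd N i) = 0)
    (l : (Fin (n + 1) → Fin (N + M)) → ℝ) (hl : Feas S d l) (b : Fin (n + 1) → Fin (N + M))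
    (hb : b ∉ Set.range (emb (n := n) (N := N) M)) : l b = 0 := by
  classical
  obtain ⟨j, i, hji⟩ := not_range b hb
  have h1 := hl.sum (Fin.natAdd N i)
  rw [hd i] at h1
  have hnn : ∀ b' ∈ (Finset.univ : Finset (Fin (n + 1) → Fin (N + M))),
      0 ≤ l b' * (∑ j, if b' j = Fin.natAdd N i then (1 : ℝ) else 0) := by
    intro b' _
    refine mul_nonneg (hl.nonneg b') (Finset.sum_nonneg fun j _ => ?_)
    split_ifs <;> norm_num
  have h2 := (Finset.sum_eq_zero_iff_of_nonneg hnn).1 h1 b (Finset.mem_univ _)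
  have hpos : 0 < (∑ j, if b j = Fin.natAdd N i then (1 : ℝ) else 0) := by
    refine Finset.sum_pos' (fun j _ => ?_) ⟨j, Finset.mem_univ _, ?_⟩
    · split_ifs <;> norm_num
    · rw [if_pos hji]; norm_num
  rcases mul_eq_zero.1 h2 with h3 | h3
  · exact h3
  · exact absurd h3 hpos.ne'

/-- the restricted decomposition -/
theorem restr {n N M : ℕ} (S : Set (Fin (n + 1) → Fin (N + M))) (S₀ : Set (Fin (n + 1) → Fin N))
    (hS : ∀ b, b ∈ S₀ ↔ emb M b ∈ S) (d : Fin (N + M) → ℝ)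
    (hd : ∀ i : Fin M, d (Fin.natAdd N i) = 0)
    (l : (Fin (n + 1) → Fin (N + M)) → ℝ) (hl : Feas S d l) :
    Feas S₀ (fun i => d (Fin.castAdd M i)) (fun b => l (emb M b)) ∧
      ∀ c : (Fin (n + 1) → Fin (N + M)) → ℝ, ∑ b, l (emb M b) * c (emb M b) = ∑ b, l b * c b := by
  classical
  have hsum : ∀ c : (Fin (n + 1) → Fin (N + M)) → ℝ,
      ∑ b, l (emb M b) * c (emb M b) = ∑ b, l b * c b := by
    intro c
    refine Fintype.sum_of_injective (emb M) (emb_inj M) _ _ ?_ (fun b => rfl)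
    intro b hb
    rw [zero_new S d hd l hl b hb, zero_mul]
  refine ⟨⟨fun b => hl.nonneg _, fun b hb => hl.supp _ fun h => hb ((hS b).2 h), fun i => ?_⟩, hsum⟩
  have h1 := hl.sum (Fin.castAdd M i)
  rw [← hsum] at h1
  rw [← h1]
  refine Finset.sum_congr rfl fun b _ => ?_
  congr 1
  refine Finset.sum_congr rfl fun j _ => ?_
  have h2 : emb M b j = Fin.castAdd M i ↔ b j = i := by
    constructor
    · intro h
      exact Fin.castAdd_injective N M h
    · intro h
      show Fin.castAdd M (b j) = _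
      rw [h]
  by_cases h3 : b j = i
  · rw [if_pos h3, if_pos (h2.2 h3)]
  · rw [if_neg h3, if_neg fun h => h3 (h2.1 h)]

theorem pos_of {κ : Prop} {q t : ℝ} (hq : 0 < q) (h : Pos κ (q * t)) : Pos κ t := by
  refine ⟨?_, fun hk => ?_⟩
  · by_contra hc
    have := mul_neg_of_pos_of_neg hq (not_le.1 hc)
    linarith [h.1]
  · have := h.2 hk
    exact (mul_pos_iff_of_pos_left hq).1 this

end XOpg

open XOpg in
/-- Item [Opg] -/
theorem pr_Opg (hBa1 : StBa1) (_hBa2 : StBa2) (hLpd : StLpd) (hTwg : StTwg.{u}) : StOpg.{u} := by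
  classical
  intro κ k K F K' F' _ _ _ _ _ _ _ _ _ _ _ _ _ _ _ _ _ _ _ _ _ _ _ _ e n N I r x y Z X D L a d Ξ J hFib hGen hAI ha hd
    hKey v hv v' ε hDiv hLies
  set a' : Fin (N + (n + 1)) → Fin (n + 1) → K' :=
    Fin.append a (fun j => Pi.single j (1 : K')) with ha'
  set d' : Fin (N + (n + 1)) → ℝ := Fin.append d (fun _ => 0) with hd'
  have eaL : ∀ i, a' (Fin.castAdd (n + 1) i) = a i := fun i => Fin.append_left _ _ i
  have eaR : ∀ j, a' (Fin.natAdd N j) = Pi.single j (1 : K') := fun j => Fin.append_right _ _ j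
  have edL : ∀ i, d' (Fin.castAdd (n + 1) i) = d i := fun i => Fin.append_left _ _ i
  have edR : ∀ j : Fin (n + 1), d' (Fin.natAdd N j) = 0 := fun j => Fin.append_right _ _ j
  have ha'0 : ∀ i, a' i ≠ 0 := by
    intro i
    refine Fin.addCases (fun i => ?_) (fun j => ?_) i
    · rw [eaL]; exact ha i
    · rw [eaR]
      intro h
      have := congrFun h j
      rw [Pi.single_eq_same, Pi.zero_apply] at this
      exact one_ne_zero this
  have hd'0 : ∀ i, 0 ≤ d' i := by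
    intro i
    refine Fin.addCases (fun i => ?_) (fun j => ?_) i
    · rw [edL]; exact hd i
    · rw [edR]
  have hsumd : ∀ f : Fin (N + (n + 1)) → ℝ, ∑ i, d' i * f i =
      ∑ i, d i * f (Fin.castAdd (n + 1) i) := by
    intro f
    rw [Fin.sum_univ_add]
    have h1 : ∑ i : Fin (n + 1), d' (Fin.natAdd N i) * f (Fin.natAdd N i) = 0 :=
      Finset.sum_eq_zero fun i _ => by rw [edR, zero_mul]
    rw [h1, add_zero]
    exact Finset.sum_congr rfl fun i _ => by rw [edL]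
  have hKey' : KeyG r x y Z X D L a' d' Ξ J := by
    refine ⟨?_, hKey.2.1, fun O hO P hP hDom φ hφ ψ hψ W hW => ?_⟩
    · have h1 := hsumd (fun _ => 1)
      simp only [mul_one] at h1
      rw [h1]; exact hKey.1
    · rw [hKey.2.2 O hO P hP hDom φ hφ ψ hψ W hW, hsumd]
      congr 1
      exact Finset.sum_congr rfl fun i _ => by rw [eaL]
  have hne : (bas a').Nonempty := by
    refine ⟨fun j => Fin.natAdd N j, ?_⟩
    show mnr a' _ ≠ 0
    have h1 : mnr a' (fun j => Fin.natAdd N j) = 1 := by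
      unfold mnr
      have h2 : (fun i j => a' (Fin.natAdd N i) j) = (1 : Matrix (Fin (n + 1)) (Fin (n + 1)) K') := by
        ext i j
        rw [eaR, Matrix.one_apply, Pi.single_apply]
        by_cases hij : i = j
        · rw [if_pos hij, if_pos hij.symm]
        · rw [if_neg hij, if_neg fun h => hij h.symm]
      rw [h2, Matrix.det_one]
    rw [h1]; exact one_ne_zero
  have hε : (0 : ℝ) < ε := by exact_mod_cast hLies.1
  have hT : ∀ (q : ℕ) (Y : Fin (N + (n + 1)) → ℤ), 0 < q →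
      (∀ b ∈ bas a', ∑ j, Y (b j) ≤ q * val v' (mnr a' b)) →
      Pos κ ((q : ℝ) * Tg r Z L Ξ v v' ε - ∑ i, d' i * (Y i : ℝ)) := by
    intro q Y hq hY
    obtain ⟨t, -, htP, htle⟩ := hTwg κ k K F K' F' e n (N + (n + 1)) I r x y Z X D L a' d' Ξ J hFib hGen hAI ha'0 hd'0
      hKey' hne v hv v' ε hDiv hLies q Y hq hY
    have hqR : (0 : ℝ) < q := by exact_mod_cast hq
    refine ⟨?_, fun hk => ?_⟩
    · exact le_trans (mul_nonneg hqR.le (mul_nonneg hε.le htP.1)) htle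
    · exact lt_of_lt_of_le (mul_pos hqR (mul_pos hε (htP.2 hk))) htle
  obtain ⟨l', hl', q, Y', hq, hY', hqY⟩ := hLpd n (N + (n + 1)) (bas a')
    (fun b => val v' (mnr a' b)) d' (Tg r Z L Ξ v v' ε) (fun q Y hq hY => by
      have := (hT q Y hq hY).1
      linarith)
  have hPos := hT q Y' hq hY'
  have hqR : (0 : ℝ) < q := by exact_mod_cast hq
  have hmnr : ∀ b : Fin (n + 1) → Fin N, mnr a' (emb (n + 1) b) = mnr a b := by
    intro b
    unfold mnr
    congr 1
    funext i j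
    show a' (Fin.castAdd (n + 1) (b i)) j = a (b i) j
    rw [eaL]
  have hbas : ∀ b, b ∈ bas a ↔ emb (n + 1) b ∈ bas a' := by
    intro b
    show mnr a b ≠ 0 ↔ mnr a' (emb (n + 1) b) ≠ 0
    rw [hmnr]
  obtain ⟨hF0, hs0⟩ := restr (bas a') (bas a) hbas d' edR l' hl'
  have hdeq : (fun i => d' (Fin.castAdd (n + 1) i)) = d := funext edL
  rw [hdeq] at hF0
  set l₀ : (Fin (n + 1) → Fin N) → ℝ := fun b => l' (emb (n + 1) b) with hl₀
  set Y : Fin N → ℤ := fun i => Y' (Fin.castAdd (n + 1) i) with hYdef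
  have hY : ∀ b ∈ bas a, ∑ j, Y (b j) ≤ q * val v' (mnr a b) := by
    intro b hb
    have h1 := hY' (emb (n + 1) b) ((hbas b).1 hb)
    rw [hmnr] at h1
    exact h1
  have hval : ∑ b, l₀ b * (val v' (mnr a b) : ℝ) = ∑ b, l' b * (val v' (mnr a' b) : ℝ) := by
    rw [← hs0 (fun b => (val v' (mnr a' b) : ℝ))]
    refine Finset.sum_congr rfl fun b _ => ?_
    rw [hmnr]
  have hdY : ∑ i, d' i * (Y' i : ℝ) = ∑ i, d i * (Y i : ℝ) := hsumd (fun i => (Y' i : ℝ))
  have hqY' : (q : ℝ) * ∑ b, l₀ b * (val v' (mnr a b) : ℝ) = ∑ i, d i * (Y i : ℝ) := by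
    rw [hval, ← hdY]; exact hqY
  have hleast : IsLeast (vals (bas a) d fun b => val v' (mnr a b))
      (∑ b, l₀ b * (val v' (mnr a b) : ℝ)) := by
    refine ⟨⟨l₀, hF0, rfl⟩, ?_⟩
    rintro t ⟨l, hl, rfl⟩
    have h1 := weak (bas a) d l hl (fun b => val v' (mnr a b)) q Y hY
    rw [← hqY'] at h1
    exact le_of_mul_le_mul_left h1 hqR
  have hmv : mv a d v' = ∑ b, l₀ b * (val v' (mnr a b) : ℝ) := hleast.csInf_eq
  obtain ⟨l, hlF, hlB, -, hlc⟩ := hBa1 ℝ n N (bas a) d l₀ (fun b => val v' (mnr a b)) hF0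
  have hlc' : ∑ b, l₀ b * (val v' (mnr a b) : ℝ) = ∑ b, l b * (val v' (mnr a b) : ℝ) :=
    le_antisymm (hleast.2 ⟨l, hlF, rfl⟩) hlc
  refine ⟨l, hlF, hlB, by rw [hmv, hlc'], by rw [hmv]; exact hleast, ?_, q, Y, hq, hY, ?_⟩
  · refine pos_of hqR ?_
    have h1 : (q : ℝ) * (Tg r Z L Ξ v v' ε - mv a d v') = q * Tg r Z L Ξ v v' ε - ∑ i, d' i * (Y' i : ℝ) := by
      rw [hdY, ← hqY', hmv]; ring
    rw [h1]
    exact hPos
  · rw [hmv]; exact hqY'

end Pool.Agent.Work.MP_a2680c_ag.HA
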