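import Pool.Agent.Work.MP_a2680c_ag.HA.StmtsB

/-!
# MP_a2680c_ag, block HA, item Ord: the orders of vanishing of the projective space over `K`
-/

set_option autoImplicit false

noncomputable section

namespace Pool.Agent.Work.MP_a2680c_ag.HA

open MP7b66e6 MP7b66e6.Q
open scoped BigOperators

universe u

namespace XOrd

/-- The additive embedding of `ℕ ∪ {∞}` into `ℤ ∪ {∞}`. -/
def emb : ℕ∞ →+ WithTop ℤ := AddMonoidHom.withTopMap (Nat.castAddMonoidHom ℤ)

theorem emb_top : emb ⊤ = ⊤ := rfl

theorem emb_coe (n : ℕ) : emb (n : ℕ∞) = ((n : ℤ) : WithTop ℤ) := rfl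

theorem emb_le_emb (a b : ℕ∞) : emb a ≤ emb b ↔ a ≤ b := by
  induction b using ENat.recTopCoe with
  | top => simp [emb_top]
  | coe m =>
    induction a using ENat.recTopCoe with
    | top =>
      rw [emb_top, emb_coe, top_le_iff, top_le_iff]
      constructor
      · intro h; exact absurd h (WithTop.coe_ne_top)
      · intro h; exact absurd h (ENat.natCast_ne_top m)
    | coe n => rw [emb_coe, emb_coe, WithTop.coe_le_coe, Nat.cast_le, Nat.cast_le]

theorem emb_mono : Monotone emb := fun a b h => (emb_le_emb a b).2 h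

theorem ext_exists {A F : Type u} [CommRing A] [IsDomain A] [Field F] [Algebra A F]
    [IsFractionRing A F] (w : AddValuation A (WithTop ℤ)) (hw : ∀ f : A, f ≠ 0 → w f ≠ ⊤) :
    ∃ ν : AddValuation F (WithTop ℤ), ∀ f : A, ν (algebraMap A F f) = w f := by
  let v1 : Valuation A (Multiplicative (WithTop ℤ)ᵒᵈ) := AddValuation.toValuation w
  have hS : nonZeroDivisors A ≤ v1.supp.primeCompl := by
    intro s hs hmem
    have hs0 : s ≠ 0 := nonZeroDivisors.ne_zero hs
    have h1 : v1 s = 0 := (Valuation.mem_supp_iff v1 s).1 hmem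
    have h2 : w s = ⊤ := h1
    exact hw s hs0 h2
  let v2 : Valuation F (Multiplicative (WithTop ℤ)ᵒᵈ) := v1.extendToLocalization hS F
  refine ⟨AddValuation.ofValuation v2, fun f => ?_⟩
  have h1 : v2 (algebraMap A F f) = v1 f :=
    Valuation.extendToLocalization_apply_map_apply v1 hS F f
  exact h1

section
variable {K : Type u} [Field K] {n : ℕ}

/-- the order at infinity of a polynomial -/
def dg (g : MvPolynomial (Fin n) K) : WithTop ℤ :=
  open Classical in if g = 0 then ⊤ else ((-(g.totalDegree : ℤ) : ℤ) : WithTop ℤ)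

theorem dg_zero : dg (0 : MvPolynomial (Fin n) K) = ⊤ := if_pos rfl

theorem dg_ne {g : MvPolynomial (Fin n) K} (hg : g ≠ 0) :
    dg g = ((-(g.totalDegree : ℤ) : ℤ) : WithTop ℤ) := if_neg hg

theorem dg_one : dg (1 : MvPolynomial (Fin n) K) = 0 := by
  rw [dg_ne one_ne_zero, MvPolynomial.totalDegree_one]
  rfl

theorem dg_add (f g : MvPolynomial (Fin n) K) : min (dg f) (dg g) ≤ dg (f + g) := by
  by_cases hf : f = 0
  · rw [hf, zero_add]; exact min_le_right _ _
  by_cases hg : g = 0
  · rw [hg, add_zero]; exact min_le_left _ _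
  by_cases hfg : f + g = 0
  · rw [hfg, dg_zero]; exact le_top
  rw [dg_ne hf, dg_ne hg, dg_ne hfg]
  have h1 := MvPolynomial.totalDegree_add f g
  rcases le_total f.totalDegree g.totalDegree with h2 | h2
  · rw [max_eq_right h2] at h1
    refine (min_le_right _ _).trans ?_
    rw [WithTop.coe_le_coe]
    omega
  · rw [max_eq_left h2] at h1
    refine (min_le_left _ _).trans ?_
    rw [WithTop.coe_le_coe]
    omega

theorem dg_mul (f g : MvPolynomial (Fin n) K) : dg (f * g) = dg f + dg g := by
  by_cases hf : f = 0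
  · rw [hf, zero_mul, dg_zero, top_add]
  by_cases hg : g = 0
  · rw [hg, mul_zero, dg_zero, add_top]
  rw [dg_ne hf, dg_ne hg, dg_ne (mul_ne_zero hf hg),
    MvPolynomial.totalDegree_mul_of_isDomain hf hg, ← WithTop.coe_add]
  congr 1
  push_cast
  ring

/-- the valuation at infinity on polynomials -/
def wI : AddValuation (MvPolynomial (Fin n) K) (WithTop ℤ) :=
  AddValuation.of dg dg_zero dg_one dg_add dg_mul

theorem wI_apply (g : MvPolynomial (Fin n) K) : wI g = dg g := rfl

/-- the valuation of a prime polynomial -/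
def wP {p : MvPolynomial (Fin n) K} (hp : Prime p) :
    AddValuation (MvPolynomial (Fin n) K) (WithTop ℤ) :=
  AddValuation.map emb emb_top emb_mono (multiplicity_addValuation hp)

theorem wP_apply {p : MvPolynomial (Fin n) K} (hp : Prime p) (g : MvPolynomial (Fin n) K) :
    wP hp g = emb (emultiplicity p g) := rfl

end

end XOrd

open XOrd in
theorem pr_Ord : StOrd.{u} := by
  intro K F _ _ _ n y hy
  obtain ⟨hind, htop⟩ := hy
  let _ : Algebra (MvPolynomial (Fin n) K) F := (MvPolynomial.aeval y).toRingHom.toAlgebra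
  have hmap : ∀ g : MvPolynomial (Fin n) K, algebraMap (MvPolynomial (Fin n) K) F g =
    MvPolynomial.aeval y g := fun g => rfl
  have hinj : Function.Injective (algebraMap (MvPolynomial (Fin n) K) F) := hind
  have hfs : FaithfulSMul (MvPolynomial (Fin n) K) F :=
    (faithfulSMul_iff_algebraMap_injective _ _).2 hinj
  have hfrac : IsFractionRing (MvPolynomial (Fin n) K) F := by
    refine IsFractionRing.of_field _ _ ?_
    intro z
    have hz : z ∈ IntermediateField.adjoin K (Set.range y) := by
      rw [htop]; exact IntermediateField.mem_top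
    obtain ⟨r, s, hrs⟩ := (IntermediateField.mem_adjoin_range_iff K y z).1 hz
    exact ⟨r, s, hrs⟩
  constructor
  · intro p hp
    have hp' : Prime p := UniqueFactorizationMonoid.irreducible_iff_prime.1 hp
    obtain ⟨ν, hν⟩ := ext_exists (F := F) (wP hp') (fun f hf h => by
      have h1 : FiniteMultiplicity p f := FiniteMultiplicity.of_not_isUnit hp.not_isUnit hf
      rw [wP_apply, ← emb_top] at h
      have h2 : (⊤ : ℕ∞) ≤ emultiplicity p f := (emb_le_emb _ _).1 h.ge
      exact (finiteMultiplicity_iff_emultiplicity_ne_top.1 h1) (top_le_iff.1 h2))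
    refine ⟨ν, hp, fun g m => ?_⟩
    rw [← hmap, hν, wP_apply, ← emb_coe, emb_le_emb, pow_dvd_iff_le_emultiplicity]
  · obtain ⟨ν, hν⟩ := ext_exists (F := F) (wI (K := K) (n := n)) (fun f hf h => by
      rw [wI_apply, dg_ne hf] at h
      exact WithTop.coe_ne_top h)
    refine ⟨ν, fun g hg => ?_⟩
    rw [← hmap, hν, wI_apply, dg_ne hg]

end Pool.Agent.Work.MP_a2680c_ag.HA
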