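import Pool.Agent.Work.MP_a2680c_ag.HA.StmtsE

/-!
# MP_a2680c_ag, block HA, item Pac: packing of bases
-/

set_option autoImplicit false

noncomputable section

namespace Pool.Agent.Work.MP_a2680c_ag.HA

open MP7b66e6 MP7b66e6.Q
open scoped BigOperators

universe u

namespace XPac

theorem li_of_mnr {κ : Type u} [Field κ] {n N : ℕ} (a : Fin N → Fin (n + 1) → κ) (b : Fin (n + 1) → Fin N) :
    mnr a b ≠ 0 ↔ LinearIndependent κ (fun j => a (b j)) := by
  have h := Matrix.linearIndependent_rows_iff_isUnit (K := κ) (A := Matrix.of (fun i j => a (b i) j))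
  rw [Matrix.isUnit_iff_isUnit_det, isUnit_iff_ne_zero] at h
  exact h.symm

theorem card_le {κ : Type u} [Field κ] {n N : ℕ} (a : Fin N → Fin (n + 1) → κ) (b : Fin (n + 1) → Fin N)
    (hb : mnr a b ≠ 0) (I : Finset (Fin N)) (S : Set (Fin (n + 1) → κ)) (hI : ∀ i ∈ I, a i ∈ S) :
    (∑ i ∈ I, ∑ j, if b j = i then 1 else 0) ≤ Module.finrank κ (Submodule.span κ S) := by
  classical
  have hli := (li_of_mnr a b).1 hb
  have h1 : (∑ i ∈ I, ∑ j, if b j = i then 1 else 0) = Fintype.card {j // b j ∈ I} := by
    rw [Finset.sum_comm, Fintype.card_subtype, Finset.card_filter]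
    apply Finset.sum_congr rfl
    intro j _
    rw [Finset.sum_ite_eq]
  rw [h1]
  have h2 : LinearIndependent κ (fun j : {j // b j ∈ I} => a (b j.1)) :=
    hli.comp (fun j : {j // b j ∈ I} => j.1) Subtype.val_injective
  rw [← finrank_span_eq_card h2]
  apply Submodule.finrank_mono
  apply Submodule.span_mono
  rintro _ ⟨j, rfl⟩
  exact hI _ j.2

end XPac

open XPac in
theorem pr_Pac (hMun : StMun.{u}) : StPac.{u} := by
  classical
  intro κ _ n N M a u l hF hu
  -- total mass
  have hswap : ∀ I : Finset (Fin N), ((∑ i ∈ I, u i : ℕ) : ℝ) =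
      ∑ b, l b * ((∑ i ∈ I, ∑ j, if b j = i then 1 else 0 : ℕ) : ℝ) := by
    intro I
    push_cast
    rw [show (∑ i ∈ I, (u i : ℝ)) = ∑ i ∈ I, ∑ b, l b * (∑ j, if b j = i then 1 else 0) from
      Finset.sum_congr rfl fun i _ => (hF.sum i).symm]
    rw [Finset.sum_comm]
    apply Finset.sum_congr rfl
    intro b _
    rw [Finset.mul_sum]
  have hmass : ∑ b, l b = M := by
    have h := hswap Finset.univ
    have h3 : ∀ b : Fin (n + 1) → Fin N, (∑ i : Fin N, ∑ j, if b j = i then 1 else 0 : ℕ) = n + 1 := by
      intro b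
      rw [Finset.sum_comm]
      simp
    simp only [h3] at h
    rw [hu, ← Finset.sum_mul] at h
    push_cast at h
    have hn : (n : ℝ) + 1 ≠ 0 := by positivity
    exact (mul_right_cancel₀ hn h).symm
  let E : Type := Σ i : Fin N, Fin (u i)
  have hE : Fintype.card E = M * (n + 1) := by
    rw [Fintype.card_sigma]
    simpa using hu
  have hcond : ∀ A : Finset E, A.card ≤
      M * Module.finrank κ (Submodule.span κ ((fun e : E => a e.1) '' (A : Set E))) := by
    intro A
    set r := Module.finrank κ (Submodule.span κ ((fun e : E => a e.1) '' (A : Set E))) with hr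
    let I : Finset (Fin N) := A.image Sigma.fst
    have h1 : A.card ≤ ∑ i ∈ I, u i := by
      have h2 : A ⊆ I.sigma (fun i => (Finset.univ : Finset (Fin (u i)))) := by
        intro e he
        rw [Finset.mem_sigma]
        exact ⟨Finset.mem_image_of_mem _ he, Finset.mem_univ _⟩
      have h3 := Finset.card_le_card h2
      rw [Finset.card_sigma] at h3
      simpa using h3
    have h2 : ((∑ i ∈ I, u i : ℕ) : ℝ) ≤ ((M * r : ℕ) : ℝ) := by
      rw [hswap I]
      push_cast
      rw [← hmass, Finset.sum_mul]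
      apply Finset.sum_le_sum
      intro b _
      by_cases hb : mnr a b = 0
      · have h0 : l b = 0 := hF.supp b (fun h => h hb)
        rw [h0, zero_mul, zero_mul]
      · apply mul_le_mul_of_nonneg_left _ (hF.nonneg b)
        have h4 := card_le a b hb I ((fun e : E => a e.1) '' (A : Set E)) (by
          intro i hi
          obtain ⟨e, he, rfl⟩ := Finset.mem_image.1 hi
          exact ⟨e, he, rfl⟩)
        exact_mod_cast h4
    exact h1.trans (by exact_mod_cast h2)
  obtain ⟨c, hc⟩ := hMun κ E M (n + 1) (fun e : E => a e.1) hcond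
  have hcl : ∀ t : Fin M, Fintype.card {e : E // c e = t} ≤ n + 1 := by
    intro t
    have h := (hc t).fintype_card_le_finrank
    simpa using h
  have htot : ∑ t : Fin M, Fintype.card {e : E // c e = t} = ∑ t : Fin M, (n + 1) := by
    have h := Fintype.sum_fiberwise c (fun _ : E => 1)
    have h1 : ∀ t : Fin M, (∑ _e : {e : E // c e = t}, 1) = Fintype.card {e : E // c e = t} := by
      intro t; simp
    simp only [h1] at h
    rw [h]
    simp [hE]
  have hcard : ∀ t : Fin M, Fintype.card {e : E // c e = t} = n + 1 := by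
    have h := (Finset.sum_eq_sum_iff_of_le (s := (Finset.univ : Finset (Fin M)))
      (f := fun t => Fintype.card {e : E // c e = t}) (g := fun _ => n + 1) (fun t _ => hcl t)).1 htot
    intro t
    exact h t (Finset.mem_univ t)
  have heqv : ∀ t : Fin M, Nonempty (Fin (n + 1) ≃ {e : E // c e = t}) := by
    intro t
    exact ⟨Fintype.equivOfCardEq (by rw [Fintype.card_fin, hcard t])⟩
  have eqv : ∀ t : Fin M, Fin (n + 1) ≃ {e : E // c e = t} := fun t => Classical.choice (heqv t)
  refine ⟨fun t j => (eqv t j).1.1, ?_, ?_⟩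
  · intro t
    change mnr a _ ≠ 0
    rw [li_of_mnr]
    exact (hc t).comp (eqv t) (eqv t).injective
  · intro i
    have h1 : ∀ t : Fin M, (∑ j, if (eqv t j).1.1 = i then 1 else 0) =
        ∑ e : {e : E // c e = t}, if e.1.1 = i then 1 else 0 := by
      intro t
      exact Equiv.sum_comp (eqv t) (fun e : {e : E // c e = t} => if e.1.1 = i then 1 else 0)
    have h2 := Fintype.sum_fiberwise c (fun e : E => if e.1 = i then 1 else 0)
    calc (∑ t, ∑ j, if (eqv t j).1.1 = i then 1 else 0)
        = ∑ t, ∑ e : {e : E // c e = t}, if e.1.1 = i then 1 else 0 := Finset.sum_congr rfl fun t _ => h1 t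
      _ = ∑ e : E, if e.1 = i then 1 else 0 := h2
      _ = ∑ i' : Fin N, ∑ _x : Fin (u i'), if i' = i then 1 else 0 := Fintype.sum_sigma _
      _ = u i := by
        simp

end Pool.Agent.Work.MP_a2680c_ag.HA
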