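import Pool.Agent.Work.MP_a2680c_ag.HA.StmtsA

/-!
# MP_a2680c_ag, block HA, item Pb: the value function is a convex combination of value functions at
rational points
-/

set_option autoImplicit false

noncomputable section

namespace Pool.Agent.Work.MP_a2680c_ag.HA

open scoped BigOperators

namespace XPb

variable {n N : ℕ}

/-- the incidence number -/
def inc (b : Fin (n + 1) → Fin N) (i : Fin N) : ℕ := ∑ j, if b j = i then 1 else 0

theorem inc_cast (𝕜 : Type) [Field 𝕜] (b : Fin (n + 1) → Fin N) (i : Fin N) :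
    (∑ j, if b j = i then (1 : 𝕜) else 0) = ((inc b i : ℕ) : 𝕜) := by
  unfold inc
  push_cast
  rfl

theorem phi_nat (Φ : ℝ →ₗ[ℚ] ℚ) (x : ℝ) (k : ℕ) : Φ (x * k) = Φ x * k := by
  rw [mul_comm, ← nsmul_eq_mul, map_nsmul, nsmul_eq_mul, mul_comm]

theorem exk (m : ℕ) (q : ℚ) (hq : 0 ≤ q) (hd : q.den ∣ m) : ∃ k : ℕ, (k : ℚ) = m * q := by
  obtain ⟨e, rfl⟩ := hd
  refine ⟨e * q.num.toNat, ?_⟩
  have h1 : ((q.num.toNat : ℕ) : ℤ) = q.num := Int.toNat_of_nonneg (Rat.num_nonneg.2 hq)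
  have h1' : ((q.num.toNat : ℕ) : ℚ) = (q.num : ℚ) := by
    rw [← h1]
    push_cast
    rw [Int.toNat_natCast]
  have h2 : (q.den : ℚ) * q = q.num := Rat.den_mul_eq_num q
  rw [Nat.cast_mul, Nat.cast_mul, h1', ← h2]
  ring

theorem feas_phi (S : Set (Fin (n + 1) → Fin N)) (d : Fin N → ℝ) (l : (Fin (n + 1) → Fin N) → ℝ)
    (hl : Feas S d l) (Φ : ℝ →ₗ[ℚ] ℚ) (hΦ : ∀ b, 0 < l b → 0 < Φ (l b)) :
    Feas S (fun i => Φ (d i)) (fun b => Φ (l b)) := by
  refine ⟨?_, ?_, ?_⟩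
  · intro b
    rcases (hl.nonneg b).lt_or_eq with h | h
    · exact (hΦ b h).le
    · show 0 ≤ Φ (l b)
      rw [← h, map_zero]
  · intro b hb
    show Φ (l b) = 0
    rw [hl.supp b hb, map_zero]
  · intro i
    show ∑ b, Φ (l b) * (∑ j, if b j = i then 1 else 0) = Φ (d i)
    rw [← hl.sum i, map_sum]
    refine Finset.sum_congr rfl fun b _ => ?_
    rw [inc_cast ℚ, inc_cast ℝ, phi_nat]

/-- the common denominator -/
theorem denom {L : ℕ} (Q : Fin L → Set ((Fin (n + 1) → Fin N) → ℚ)) (hQ : ∀ ρ, (Q ρ).Finite) :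
    ∃ m₀ : ℕ, 0 < m₀ ∧ ∀ ρ, ∀ l ∈ Q ρ, ∀ b, (l b).den ∣ m₀ := by
  refine ⟨∏ ρ, ∏ l ∈ (hQ ρ).toFinset, ∏ b, (l b).den, ?_, ?_⟩
  · exact Finset.prod_pos fun ρ _ => Finset.prod_pos fun l _ => Finset.prod_pos fun b _ =>
      (l b).den_pos
  · intro ρ l hl b
    have h1 : (l b).den ∣ ∏ b, (l b).den := Finset.dvd_prod_of_mem _ (Finset.mem_univ b)
    have h2 : (∏ b, (l b).den) ∣ ∏ l ∈ (hQ ρ).toFinset, ∏ b, (l b).den :=
      Finset.dvd_prod_of_mem (fun l : (Fin (n + 1) → Fin N) → ℚ => ∏ b, (l b).den)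
        ((Set.Finite.mem_toFinset _).2 hl)
    have h3 : (∏ l ∈ (hQ ρ).toFinset, ∏ b, (l b).den) ∣
        ∏ ρ, ∏ l ∈ (hQ ρ).toFinset, ∏ b, (l b).den :=
      Finset.dvd_prod_of_mem (fun ρ => ∏ l ∈ (hQ ρ).toFinset, ∏ b, (l b).den)
        (Finset.mem_univ ρ)
    exact h1.trans (h2.trans h3)

end XPb

open XPb in
theorem pr_Pb (hRat : StRat) (hBa1 : StBa1) (hBa2 : StBa2) : StPb := by
  classical
  intro n N d hd
  have hfin := hBa2 ℝ n N d
  let W : Finset ℝ := (Finset.univ.image d ∪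
    hfin.toFinset.biUnion fun l => Finset.univ.image l).filter (0 < ·)
  obtain ⟨L, a, Φ, ha, ha1, hΦ⟩ := hRat W (fun w hw => (Finset.mem_filter.1 hw).2)
  have hdW : ∀ i, d i ∈ W := fun i => Finset.mem_filter.2
    ⟨Finset.mem_union_left _ (Finset.mem_image_of_mem _ (Finset.mem_univ _)), hd i⟩
  have hlW : ∀ l : (Fin (n + 1) → Fin N) → ℝ, (∃ S, Feas S d l ∧ Basic l) → ∀ b, 0 < l b →
      l b ∈ W := fun l hl b hb => Finset.mem_filter.2
    ⟨Finset.mem_union_right _ (Finset.mem_biUnion.2 ⟨l, (Set.Finite.mem_toFinset _).2 hl,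
      Finset.mem_image_of_mem _ (Finset.mem_univ _)⟩), hb⟩
  let u : Fin L → Fin N → ℚ := fun ρ i => Φ ρ (d i)
  let Q : Fin L → Set ((Fin (n + 1) → Fin N) → ℚ) := fun ρ => {l | ∃ S, Feas S (u ρ) l ∧ Basic l}
  have hQ : ∀ ρ, (Q ρ).Finite := fun ρ => hBa2 ℚ n N (u ρ)
  obtain ⟨m₀, hm₀, hden⟩ := denom Q hQ
  refine ⟨L, a, m₀, ha, ha1, hm₀, ?_⟩
  intro m hm hmm
  have hmq : (0 : ℚ) < m := by exact_mod_cast hm
  have hmr : (0 : ℝ) < m := by exact_mod_cast hm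
  -- the integral multiples
  have hk : ∀ (ρ : Fin L) (l : (Fin (n + 1) → Fin N) → ℚ), ∃ κ : (Fin (n + 1) → Fin N) → ℕ,
      l ∈ Q ρ → ∀ b, (κ b : ℚ) = m * l b := by
    intro ρ l
    by_cases hl : l ∈ Q ρ
    · have : ∀ b, ∃ k : ℕ, (k : ℚ) = m * l b := by
        intro b
        obtain ⟨S, hS, _⟩ := hl
        exact exk m (l b) (hS.nonneg b) ((hden ρ l ⟨S, hS, by assumption⟩ b).trans hmm)
      choose κ hκ using this
      exact ⟨κ, fun _ => hκ⟩
    · exact ⟨fun _ => 0, fun h => absurd h hl⟩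
  choose κ hκ using hk
  refine ⟨fun ρ => (hQ ρ).toFinset.image (κ ρ), ?_⟩
  intro S hS
  -- (i)
  have hi : ∀ (l : (Fin (n + 1) → Fin N) → ℝ), Feas S d l → Basic l → ∀ ρ
      (c : (Fin (n + 1) → Fin N) → ℤ), ∃ l' ∈ Q ρ, (∀ b, b ∉ S → κ ρ l' b = 0) ∧
        ∑ b, l' b * (c b : ℚ) ≤ ∑ b, Φ ρ (l b) * (c b : ℚ) := by
    intro l hl hb ρ c
    have h1 := feas_phi S d l hl (Φ ρ) fun b hb0 => (hΦ _ (hlW l ⟨S, hl, hb⟩ b hb0)).1 ρ
    obtain ⟨l', hl', hb', _, hc⟩ := hBa1 ℚ n N S (u ρ) (fun b => Φ ρ (l b)) c h1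
    refine ⟨l', ⟨S, hl', hb'⟩, ?_, hc⟩
    intro b hbS
    have h2 := hκ ρ l' ⟨S, hl', hb'⟩ b
    rw [hl'.supp b hbS, mul_zero] at h2
    exact_mod_cast h2
  constructor
  · intro ρ
    obtain ⟨l₀, hl₀⟩ := hS
    obtain ⟨l, hl, hb, _, _⟩ := hBa1 ℝ n N S d l₀ (fun _ => 0) hl₀
    obtain ⟨l', hl', h0, _⟩ := hi l hl hb ρ (fun _ => 0)
    exact ⟨κ ρ l', Finset.mem_image_of_mem _ ((Set.Finite.mem_toFinset _).2 hl'), h0⟩
  · intro c t ht τ hτ
    obtain ⟨⟨l₀, hl₀, ht₀⟩, htm⟩ := ht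
    obtain ⟨l, hl, hb, _, hc⟩ := hBa1 ℝ n N S d l₀ c hl₀
    have htl : t = ∑ b, l b * (c b : ℝ) :=
      le_antisymm (htm ⟨l, hl, rfl⟩) (by rw [ht₀]; exact hc)
    apply le_antisymm
    · -- (iii)
      have h3 : ∀ ρ, ∃ lq ∈ Q ρ, (∀ b, b ∉ S → lq b = 0) ∧
          ((τ ρ : ℤ) : ℝ) = m * ∑ b, ((lq b : ℚ) : ℝ) * (c b : ℝ) := by
        intro ρ
        obtain ⟨⟨κ', hκ', hsup, hs⟩, _⟩ := hτ ρ
        rw [Finset.mem_image] at hκ'
        obtain ⟨lq, hlq, rfl⟩ := hκ'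
        have hlq' : lq ∈ Q ρ := (Set.Finite.mem_toFinset _).1 hlq
        refine ⟨lq, hlq', ?_, ?_⟩
        · intro b hbS
          have h4 := hκ ρ lq hlq' b
          rw [hsup b hbS, Nat.cast_zero] at h4
          rcases mul_eq_zero.1 h4.symm with h5 | h5
          · exact absurd h5 hmq.ne'
          · exact h5
        · rw [hs, Finset.mul_sum]
          push_cast
          refine Finset.sum_congr rfl fun b _ => ?_
          have h4 := hκ ρ lq hlq' b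
          have h5 : ((κ ρ lq b : ℕ) : ℝ) = (m : ℝ) * ((lq b : ℚ) : ℝ) := by
            have h6 : (((κ ρ lq b : ℕ) : ℚ) : ℝ) = (((m : ℚ) * lq b : ℚ) : ℝ) := by rw [h4]
            push_cast at h6
            exact h6
          rw [h5]
          ring
      choose lq hlq hsup hτq using h3
      have hfe : Feas S d (fun b => ∑ ρ, a ρ * ((lq ρ b : ℚ) : ℝ)) := by
        refine ⟨?_, ?_, ?_⟩
        · intro b
          refine Finset.sum_nonneg fun ρ _ => mul_nonneg (ha ρ).le ?_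
          obtain ⟨S', hS', _⟩ := hlq ρ
          exact_mod_cast hS'.nonneg b
        · intro b hbS
          refine Finset.sum_eq_zero fun ρ _ => ?_
          rw [hsup ρ b hbS]
          simp
        · intro i
          have h7 : ∀ ρ, ∑ b, ((lq ρ b : ℚ) : ℝ) * ((inc b i : ℕ) : ℝ) = ((u ρ i : ℚ) : ℝ) := by
            intro ρ
            obtain ⟨S', hS', _⟩ := hlq ρ
            rw [← hS'.sum i, Rat.cast_sum]
            refine Finset.sum_congr rfl fun b _ => ?_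
            rw [inc_cast ℚ, Rat.cast_mul, Rat.cast_natCast]
          calc ∑ b, (∑ ρ, a ρ * ((lq ρ b : ℚ) : ℝ)) * (∑ j, if b j = i then 1 else 0)
              = ∑ b, ∑ ρ, a ρ * (((lq ρ b : ℚ) : ℝ) * ((inc b i : ℕ) : ℝ)) := by
                refine Finset.sum_congr rfl fun b _ => ?_
                rw [inc_cast ℝ, Finset.sum_mul]
                refine Finset.sum_congr rfl fun ρ _ => ?_
                ring
            _ = ∑ ρ, a ρ * ∑ b, ((lq ρ b : ℚ) : ℝ) * ((inc b i : ℕ) : ℝ) := by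
                rw [Finset.sum_comm]
                refine Finset.sum_congr rfl fun ρ _ => ?_
                rw [Finset.mul_sum]
            _ = ∑ ρ, a ρ * ((Φ ρ (d i) : ℚ) : ℝ) := by
                refine Finset.sum_congr rfl fun ρ _ => ?_
                rw [h7 ρ]
            _ = d i := ((hΦ _ (hdW i)).2).symm
      have h8 := htm ⟨_, hfe, rfl⟩
      have h9 : ∑ b, (∑ ρ, a ρ * ((lq ρ b : ℚ) : ℝ)) * (c b : ℝ) =
          ∑ ρ, a ρ * ∑ b, ((lq ρ b : ℚ) : ℝ) * (c b : ℝ) := by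
        have h10 : ∀ b, (∑ ρ, a ρ * ((lq ρ b : ℚ) : ℝ)) * (c b : ℝ) =
            ∑ ρ, a ρ * (((lq ρ b : ℚ) : ℝ) * (c b : ℝ)) := by
          intro b
          rw [Finset.sum_mul]
          refine Finset.sum_congr rfl fun ρ _ => ?_
          ring
        rw [Finset.sum_congr rfl fun b _ => h10 b, Finset.sum_comm]
        refine Finset.sum_congr rfl fun ρ _ => ?_
        rw [Finset.mul_sum]
      rw [h9] at h8
      have h11 : ∑ ρ, a ρ * ((τ ρ : ℤ) : ℝ) =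
          m * ∑ ρ, a ρ * ∑ b, ((lq ρ b : ℚ) : ℝ) * (c b : ℝ) := by
        rw [Finset.mul_sum]
        refine Finset.sum_congr rfl fun ρ _ => ?_
        rw [hτq ρ]
        ring
      rw [h11]
      exact mul_le_mul_of_nonneg_left h8 hmr.le
    · -- (ii)
      have h3 : ∀ ρ, ((τ ρ : ℤ) : ℝ) ≤ m * ∑ b, ((Φ ρ (l b) : ℚ) : ℝ) * (c b : ℝ) := by
        intro ρ
        obtain ⟨l', hl', h0, hc'⟩ := hi l hl hb ρ c
        have h4 : τ ρ ≤ ∑ b, (κ ρ l' b : ℤ) * c b := (hτ ρ).2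
          ⟨κ ρ l', Finset.mem_image_of_mem _ ((Set.Finite.mem_toFinset _).2 hl'), h0, rfl⟩
        have h5 : ((τ ρ : ℤ) : ℚ) ≤ m * ∑ b, l' b * (c b : ℚ) := by
          have h6 : ((τ ρ : ℤ) : ℚ) ≤ ((∑ b, (κ ρ l' b : ℤ) * c b : ℤ) : ℚ) := by exact_mod_cast h4
          refine h6.trans (le_of_eq ?_)
          push_cast
          rw [Finset.mul_sum]
          refine Finset.sum_congr rfl fun b _ => ?_
          rw [hκ ρ l' hl' b]
          ring
        have h7 : ((τ ρ : ℤ) : ℚ) ≤ m * ∑ b, Φ ρ (l b) * (c b : ℚ) :=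
          h5.trans (mul_le_mul_of_nonneg_left hc' hmq.le)
        have h8 : (((τ ρ : ℤ) : ℚ) : ℝ) ≤ ((m * ∑ b, Φ ρ (l b) * (c b : ℚ) : ℚ) : ℝ) := by
          exact_mod_cast h7
        push_cast at h8
        exact h8
      have h4 : ∀ b, l b = ∑ ρ, a ρ * ((Φ ρ (l b) : ℚ) : ℝ) := by
        intro b
        rcases (hl.nonneg b).lt_or_eq with h | h
        · exact (hΦ _ (hlW l ⟨S, hl, hb⟩ b h)).2
        · rw [← h]
          simp
      have h5 : (m : ℝ) * t = ∑ ρ, a ρ * (m * ∑ b, ((Φ ρ (l b) : ℚ) : ℝ) * (c b : ℝ)) := by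
        rw [htl]
        have h6 : ∀ b, l b * (c b : ℝ) = ∑ ρ, a ρ * (((Φ ρ (l b) : ℚ) : ℝ) * (c b : ℝ)) := by
          intro b
          conv_lhs => rw [h4 b]
          rw [Finset.sum_mul]
          refine Finset.sum_congr rfl fun ρ _ => ?_
          ring
        rw [Finset.sum_congr rfl fun b _ => h6 b, Finset.sum_comm, Finset.mul_sum]
        refine Finset.sum_congr rfl fun ρ _ => ?_
        rw [← Finset.mul_sum]
        ring
      rw [h5]
      refine Finset.sum_le_sum fun ρ _ => ?_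
      exact mul_le_mul_of_nonneg_left (h3 ρ) (ha ρ).le

end Pool.Agent.Work.MP_a2680c_ag.HA
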