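import Pool.Agent.Work.MP_a2680c_ag.HA.StmtsC

/-!
# MP_a2680c_ag, block HA, item Pdd: prime divisors are divisorial valuations
-/

set_option autoImplicit false

noncomputable section

namespace Pool.Agent.Work.MP_a2680c_ag.HA

open MP7b66e6 MP7b66e6.Q
open scoped BigOperators

universe u

theorem pr_Pdd : StPdd.{u} := by
  intro k K _ _ _ Z hZ ν hν
  obtain ⟨hπ, R, hR, hRν⟩ := hν
  obtain ⟨charts, -, -, hfg, hch⟩ := hZ.charts
  obtain ⟨C, hC, p, hp, hloc⟩ := (hch R).1 hR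
  have hone : (1 : C) ∉ p := fun h => hp.ne_top ((Ideal.eq_top_iff_one p).2 h)
  have hCR : ∀ c ∈ C, c ∈ R := by
    intro c hc
    refine (hloc c).2 ⟨⟨c, hc⟩, 1, hone, ?_⟩
    simp
  refine ⟨⟨hπ, C, (hfg C hC).1, fun c hc => (hRν c).1 (hCR c hc), ?_⟩, R, hR, ?_, hRν⟩
  · intro f hf
    obtain ⟨a, s, hs, hfs⟩ := (hloc f).1 ((hRν f).2 hf)
    have hs0 : (s : K) ≠ 0 := by
      intro h
      apply hs
      have h1 : s = 0 := Subtype.ext h
      rw [h1]
      exact p.zero_mem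
    refine ⟨a, a.2, s, s.2, ?_, hfs⟩
    have h1 : 0 ≤ ν (s : K) := (hRν _).1 (hCR _ s.2)
    have h2 : 0 ≤ ν ((s : K)⁻¹) := by
      refine (hRν _).1 ((hloc _).2 ⟨1, s, hs, ?_⟩)
      rw [inv_mul_cancel₀ hs0]
      rfl
    rw [← Api.val_nonneg ν hs0] at h1
    rw [← Api.val_nonneg ν (inv_ne_zero hs0), Api.val_inv ν hs0] at h2
    rw [Api.coe_val ν hs0, show val ν (s : K) = 0 by omega]
    rfl
  · refine ⟨fun f hf => (hRν f).1 hf, fun f _ h0 => ?_⟩
    have hne : f ≠ 0 := by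
      intro h1
      rw [h1, AddValuation.map_zero] at h0
      exact absurd h0 (by simp)
    rw [hRν, ← Api.val_nonneg ν (inv_ne_zero hne), Api.val_inv ν hne, Api.val_of ν (m := 0) h0]
    simp

end Pool.Agent.Work.MP_a2680c_ag.HA
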