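import Pool.Agent.Work.MP_a2680c_ag.HA.StmtsX

/-! Item [a2680c HA Pol] (helper88): a coordinate with its pole at a given rational point. -/

set_option autoImplicit false

noncomputable section

namespace Pool.Agent.Work.MP_a2680c_ag.HA

open MP7b66e6 MP7b66e6.Q
open scoped BigOperators

universe u

namespace XPol

variable {K F : Type u} [Field K] [Field F] [Algebra K F]

theorem gen_inv (y : Fin 1 → F) (hy : GenBy K y) (β : K) :
    GenBy K (fun _ : Fin 1 => (y 0 - algebraMap K F β)⁻¹) := by
  constructor
  · rw [algebraicIndependent_unique_type_iff]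
    have h1 := algebraicIndependent_unique_type_iff.1 hy.1
    intro hcon
    apply h1
    have h2 : IsAlgebraic K (y 0 - algebraMap K F β) := by
      have h3 := hcon.inv
      rwa [inv_inv] at h3
    have h4 := h2.add (isAlgebraic_algebraMap (R := K) (A := F) β)
    rw [sub_add_cancel] at h4
    have e : (default : Fin 1) = 0 := Subsingleton.elim _ _
    rw [e]
    exact h4
  · rw [eq_top_iff, ← hy.2, IntermediateField.adjoin_le_iff]
    rintro _ ⟨i, rfl⟩
    have e : i = 0 := Subsingleton.elim _ _
    rw [e]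
    have h1 : (y 0 - algebraMap K F β)⁻¹ ∈ IntermediateField.adjoin K
        (Set.range (fun _ : Fin 1 => (y 0 - algebraMap K F β)⁻¹)) :=
      IntermediateField.subset_adjoin K _ ⟨0, rfl⟩
    have h2 := IntermediateField.inv_mem _ h1
    rw [inv_inv] at h2
    have h3 := IntermediateField.add_mem _ h2 (IntermediateField.algebraMap_mem
      (IntermediateField.adjoin K (Set.range (fun _ : Fin 1 => (y 0 - algebraMap K F β)⁻¹))) β)
    rwa [sub_add_cancel] at h3

end XPol

theorem pr_Pol (hCls : StCls.{u}) : StPol.{u} := by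
  intro K F _ _ _ y hy ν hν hr
  rcases (hCls K F y hy).1 ν hν with ⟨h0, -⟩ | ⟨-, h⟩
  · obtain ⟨β, hβ⟩ := hr (y 0) h0
    have hG := XPol.gen_inv y hy β
    refine ⟨_, hG, ?_⟩
    have hne : y 0 - algebraMap K F β ≠ 0 := by
      intro h1
      have h2 := algebraicIndependent_unique_type_iff.1 hy.1
      apply h2
      have e : (default : Fin 1) = 0 := Subsingleton.elim _ _
      rw [e, sub_eq_zero.1 h1]
      exact isAlgebraic_algebraMap β
    have hlt : ν ((y 0 - algebraMap K F β)⁻¹) < 0 := by
      have h1 : ν (y 0 - algebraMap K F β) = (val ν (y 0 - algebraMap K F β) : WithTop ℤ) :=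
        Api.coe_val ν hne
      have h2 : ν ((y 0 - algebraMap K F β)⁻¹) =
          (val ν ((y 0 - algebraMap K F β)⁻¹) : WithTop ℤ) := Api.coe_val ν (inv_ne_zero hne)
      rw [h1] at hβ
      rw [h2, Api.val_inv ν hne]
      have h3 : (0 : ℤ) < val ν (y 0 - algebraMap K F β) := by exact_mod_cast hβ
      have h4 : -val ν (y 0 - algebraMap K F β) < 0 := by omega
      exact_mod_cast h4
    rcases (hCls K F _ hG).1 ν hν with ⟨h1, -⟩ | ⟨-, h1⟩
    · exact absurd h1 (not_le.2 hlt)
    · exact h1
  · exact ⟨y, hy, h⟩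

end Pool.Agent.Work.MP_a2680c_ag.HA
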