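import Pool.Agent.Work.MP_a2680c_ag.HA.StmtsY

/-!
# MP_a2680c_ag, block HA, item Qav: an averaged function
-/

set_option autoImplicit false

noncomputable section

namespace Pool.Agent.Work.MP_a2680c_ag.HA

open MP7b66e6 MP7b66e6.Q
open scoped BigOperators

universe u

namespace XQav

/-- a nontrivial valuation of `F₁` restricted to `F` is a multiple of a normalized valuation -/
theorem norm_res (hNOR : MgNOR.{u}) {F₀ F F₁ : Type u} [Field F₀] [Field F] [Field F₁] [Algebra F₀ F] [Algebra F₀ F₁]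
    [Algebra F F₁] [IsScalarTower F₀ F F₁] {ν₀ : AddValuation F₀ (WithTop ℤ)} {w : AddValuation F₁ (WithTop ℤ)} {t : ℕ}
    (hπ : ∃ π : F₀, ν₀ π = 1) (h : Lies ν₀ w t) :
    ∃ (ν : AddValuation F (WithTop ℤ)) (η μ : ℕ), (∃ π : F, ν π = 1) ∧ Lies ν w η ∧ Lies ν₀ ν μ ∧ η * μ = t := by
  have hπ' := hπ
  obtain ⟨π, hπ1⟩ := hπ
  have hπ0 : π ≠ 0 := by
    intro h0; rw [h0, AddValuation.map_zero] at hπ1; exact absurd hπ1 (by simp)
  have hvπ : val ν₀ π = 1 := Api.val_of ν₀ hπ1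
  have hπF : algebraMap F₀ F π ≠ 0 := by
    rw [map_ne_zero_iff _ (algebraMap F₀ F).injective]; exact hπ0
  have hπF1 : algebraMap F F₁ (algebraMap F₀ F π) ≠ 0 := by
    rw [map_ne_zero_iff _ (algebraMap F F₁).injective]; exact hπF
  have hw : w (algebraMap F F₁ (algebraMap F₀ F π)) = ((t : ℤ) : WithTop ℤ) := by
    rw [Api.coe_val w hπF1, ← IsScalarTower.algebraMap_apply F₀ F F₁, h.2 π hπ0, hvπ, mul_one]
  have ht : (0 : ℤ) < t := by exact_mod_cast h.1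
  obtain ⟨e, ν, he, hν, hm⟩ := hNOR F (Api.res F w) ⟨algebraMap F₀ F π, hπF, by
    rw [Api.res_apply, hw, ← WithTop.coe_zero]
    intro hc
    have := WithTop.coe_injective hc
    omega⟩
  have hL : Lies ν w e.toNat := by
    refine ⟨by omega, fun f hf => ?_⟩
    have h1 := ((hm f (val ν f)).1).1 (Api.coe_val ν hf)
    rw [Api.res_apply] at h1
    rw [Int.toNat_of_nonneg he.le]
    exact Api.val_of w h1
  obtain ⟨μ, hμ, hμt⟩ := Api.lies_mid hπ' hL h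
  exact ⟨ν, e.toNat, μ, hν, hL, hμ, hμt⟩

end XQav

theorem pr_Qav (hGcl : StGcl.{u}) (hNmx : StNmx.{u}) (hEXT : StEXT.{u, u, u}) (hNOR : MgNOR.{u}) : StQav.{u} := by
  intro k F₀ F _ _ _ _ _ _ _ _ _ Φ 𝒯 h hdiv hev
  haveI : CharZero F₀ := charZero_of_injective_algebraMap (algebraMap k F₀).injective
  obtain ⟨F₁, i1, i2, i3, i4, i5, i6, hG0, hG⟩ := hGcl F₀ F
  letI : Algebra k F₁ := ((algebraMap F F₁).comp (algebraMap k F)).toAlgebra
  haveI : IsScalarTower k F F₁ := IsScalarTower.of_algebraMap_eq' rfl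
  haveI : IsScalarTower k F₀ F₁ := by
    refine IsScalarTower.of_algebraMap_eq fun x => ?_
    rw [IsScalarTower.algebraMap_apply k F F₁, IsScalarTower.algebraMap_apply k F₀ F,
      IsScalarTower.algebraMap_apply F₀ F F₁]
  obtain ⟨Ξ₀, hΞ⟩ := hNmx F₀ F₁ (push F F₁ Φ)
  refine ⟨Ξ₀, fun ν₀ hν₀ => ?_⟩
  obtain ⟨ν₁, η₁, hd1, hl1⟩ := hEXT k F₀ F₁ ν₀ (hdiv ν₀ hν₀)
  have hπ : ∃ π : F₀, ν₀ π = 1 := (hdiv ν₀ hν₀).1
  have key : ∀ g : F₁ ≃ₐ[F₀] F₁, ev (cg g ν₁) (push F F₁ Φ) = η₁ * h ν₀ := by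
    intro g
    obtain ⟨ν, η, μ, hν, hη, hμ, hημ⟩ := XQav.norm_res (F := F) hNOR hπ (Api.lies_cg hl1 g)
    rw [Api.ev_push_lies hη, hev ν₀ hν₀ ν μ hν hμ, ← hημ]
    push_cast
    ring
  have h1 := hΞ ν₀ ν₁ η₁ hl1
  rw [Finset.sum_congr rfl (fun g _ => key g), Finset.sum_const, nsmul_eq_mul, Finset.card_univ,
    ← Nat.card_eq_fintype_card, IsGalois.card_aut_eq_finrank] at h1
  have hfr : (Module.finrank F₀ F₁ : ℝ) ≠ 0 := by
    exact_mod_cast (Module.finrank_pos (R := F₀) (M := F₁)).ne'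
  have hη1 : (η₁ : ℝ) ≠ 0 := by exact_mod_cast hl1.1.ne'
  exact mul_left_cancel₀ hη1 (mul_left_cancel₀ hfr h1)

end Pool.Agent.Work.MP_a2680c_ag.HA
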