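import Pool.Agent.Work.MP_a2680c_ag.HA.StmtsY

/-!
# MP_a2680c_ag, block HA, part Y: item Qbf (a finite quotient of a b-fibration)
-/

set_option autoImplicit false

noncomputable section

namespace Pool.Agent.Work.MP_a2680c_ag.HA

open MP7b66e6 MP7b66e6.Q
open scoped BigOperators

universe u

namespace XQbf

section
variable {k K F₀ F : Type u} [Field k] [Field K] [Field F₀] [Field F] [Algebra k K]
  [Algebra K F₀] [Algebra K F] [Algebra F₀ F] [IsScalarTower K F₀ F]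

omit [Algebra K F₀] [Algebra K F] [IsScalarTower K F₀ F] in
theorem nonneg_of_lies {ν₀ : AddValuation F₀ (WithTop ℤ)} {ν : AddValuation F (WithTop ℤ)} {η : ℕ} (h : Lies ν₀ ν η)
    {f : F₀} (hf : 0 ≤ ν₀ f) : 0 ≤ ν (algebraMap F₀ F f) := by
  by_cases h0 : f = 0
  · rw [h0, map_zero, AddValuation.map_zero]; exact le_top
  have h1 : algebraMap F₀ F f ≠ 0 := by
    rw [map_ne_zero_iff _ (algebraMap F₀ F).injective]; exact h0
  rw [← Api.val_nonneg ν h1, h.2 f h0]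
  rw [← Api.val_nonneg ν₀ h0] at hf
  exact mul_nonneg (by positivity) hf

theorem ov_of_lies {Z : Set (Subalgebra k K)} {ν₀ : AddValuation F₀ (WithTop ℤ)} {ν : AddValuation F (WithTop ℤ)} {η : ℕ}
    (h : Lies ν₀ ν η) (hZ : Ov Z ν₀) : Ov Z ν := by
  obtain ⟨P, hP, hf⟩ := hZ
  refine ⟨P, hP, fun f hfP => ?_⟩
  rw [IsScalarTower.algebraMap_apply K F₀ F]
  exact nonneg_of_lies h (hf f hfP)

theorem lv_of_lies [CharZero k] (hWdl : StWdl.{u}) {e : ℕ} {r : Fin e → K} (hr : IsTranscendenceBasis k r)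
    {Z : Set (Subalgebra k K)} (hZ : Vty Z) {L : AddValuation K (WithTop ℤ) → ℝ} (hL : RCar Z L)
    {ν₀ : AddValuation F₀ (WithTop ℤ)} {ν : AddValuation F (WithTop ℤ)} {η : ℕ} (h : Lies ν₀ ν η) (hO : Ov Z ν₀) :
    Lv Z L (Api.res K ν) = η * Lv Z L (Api.res K ν₀) := by
  obtain ⟨P, hP, hf⟩ := hO
  obtain ⟨φ, hφ⟩ := hL P hP
  have h1 : Lv Z L (Api.res K ν₀) = ev (Api.res K ν₀) φ :=
    hWdl k K Z hZ e r hr L P hP φ hφ _ (fun f hfP => hf f hfP)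
  have h2 : Lv Z L (Api.res K ν) = ev (Api.res K ν) φ := by
    refine hWdl k K Z hZ e r hr L P hP φ hφ _ (fun f hfP => ?_)
    change 0 ≤ ν (algebraMap K F f)
    rw [IsScalarTower.algebraMap_apply K F₀ F]
    exact nonneg_of_lies h (hf f hfP)
  rw [h1, h2, Api.ev_res, Api.ev_res, ← Api.ev_push_push (K' := F₀), Api.ev_push_lies h]

end

end XQbf

open XQbf in
theorem pr_Qbf (_hTbs : StTbs.{u}) (hEXT : StEXT.{u,u,u}) (hQcn : StQcn.{u}) (hQav : StQav.{u}) (hQdv : StQdv.{u})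
    (hWdl : StWdl.{u}) : StQbf.{u} := by
  intro κ k K F₀ F _ _ _ _ _ _ _ _ _ _ _ _ _ _ _ _ _ e d₀ d r c₀ c Z 𝔻₀ 𝔻 L Φ hB hc₀ hcr
  obtain ⟨J, hJ⟩ := hQcn k F₀ F d₀ d c₀ c hc₀ hB.basisF
  obtain ⟨Φ₀, hΦ₀⟩ := hQav k F₀ F (Φ - Finsupp.single J 1)
    {ν₀ : AddValuation F₀ (WithTop ℤ) | Divisorial k ν₀ ∧ Ov Z ν₀}
    (fun ν₀ => can k c₀ ν₀ + 𝔻₀ ν₀ - Lv Z L (Api.res K ν₀)) (fun ν₀ h => h.1) (by
      rintro ν₀ ⟨hd, hO⟩ ν η hπ hl
      have hdv : Divisorial k ν := hQdv k F₀ F ν₀ ν η hd hl hπ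
      have hOv : Ov Z ν := ov_of_lies hl hO
      have h1 := hB.triv ν hdv hOv
      have h2 := hJ ν₀ ν η hd hdv hl
      have h3 := hcr ν₀ ν η hd hO hπ hl
      have h4 := lv_of_lies hWdl hB.basis hB.vz hB.carL hl hO
      rw [Api.ev_sub, Api.ev_single]
      rw [h4] at h1
      linear_combination (-1 : ℝ) * h1 + h2 - h3)
  refine ⟨Φ₀, ⟨hB.vz, hB.basis, hc₀, inferInstance, hB.divL, hB.carL, ?_, ?_⟩⟩
  · intro ν₀ hd hO
    obtain ⟨ν, η, hdv, hl⟩ := hEXT k F₀ F ν₀ hd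
    have h1 := hB.pos ν hdv (ov_of_lies hl hO)
    rw [hcr ν₀ ν η hd hO hdv.1 hl] at h1
    have hη : (0 : ℝ) < η := by exact_mod_cast hl.1
    exact ⟨(mul_nonneg_iff_of_pos_left hη).1 h1.1, fun hκ => (mul_pos_iff_of_pos_left hη).1 (h1.2 hκ)⟩
  · intro ν₀ hd hO
    have h1 := hΦ₀ ν₀ ⟨hd, hO⟩
    rw [h1]
    ring

end Pool.Agent.Work.MP_a2680c_ag.HA
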