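import Pool.Agent.Work.MP_a2680c_ag.HA.StmtsY

set_option autoImplicit false

noncomputable section

namespace Pool.Agent.Work.MP_a2680c_ag.HA

open MP7b66e6 MP7b66e6.Q
open scoped BigOperators

universe u

theorem pr_Qcn (hTbs : StTbs.{u}) (hTb : StTb.{u}) (hCan : StCan.{u}) (hRmf : StRmf.{u}) (hJcb : StJcb.{u})
    (_hGcl : StGcl.{u}) : StQcn.{u} := by
  intro k F₀ F _ _ _ _ _ _ _ _ _ _ d₀ d c₀ c hc₀ hc
  obtain ⟨hup, hess⟩ := hTbs k F₀ F d₀ c₀ hc₀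
  haveI : Algebra.EssFiniteType k F := hess inferInstance
  have hd : d₀ = d := by
    have h1 := (hTb k F d₀ (up F c₀) hup).2
    have h2 := (hTb k F d c hc).2
    rw [h1] at h2
    exact_mod_cast h2
  subst hd
  obtain ⟨J, hJ⟩ := hJcb k F d₀ c (up F c₀) hc hup
  obtain ⟨⟨pd, hpd⟩, -⟩ := hTb k F₀ d₀ c₀ hc₀
  refine ⟨J, fun ν₀ ν η hν₀ hν hl => ?_⟩
  obtain ⟨A, hA⟩ := (hCan k F₀ d₀ c₀ ν₀).2 pd hpd hν₀
  have h1 := hRmf k F₀ F d₀ c₀ pd hpd ν₀ ν η hν₀ hν hl A hA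
  have h2 := hJ ν _ h1
  rw [Api.can_eq h2, Api.can_eq hA]
  push_cast
  ring

end Pool.Agent.Work.MP_a2680c_ag.HA
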