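import Pool.Agent.Work.MP_a2680c_ag.HA.StmtsY

/-!
# MP_a2680c_ag, block HA, part Y: item Qdv (a normalized extension of a divisorial valuation is divisorial)
-/

set_option autoImplicit false

noncomputable section

namespace Pool.Agent.Work.MP_a2680c_ag.HA

open MP7b66e6 MP7b66e6.Q

universe u

namespace XQdv

/-- two normalized valuations which are both under the same valuation are equal -/
theorem eq_of_lies {F F' : Type u} [Field F] [Field F'] [Algebra F F'] {ν ν'' : AddValuation F (WithTop ℤ)}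
    {W : AddValuation F' (WithTop ℤ)} {m e : ℕ} (h : Lies ν W m) (h'' : Lies ν'' W e)
    (hπ : ∃ π : F, ν π = 1) (hπ'' : ∃ π : F, ν'' π = 1) : ν = ν'' := by
  have key : ∀ f : F, f ≠ 0 → (m : ℤ) * val ν f = e * val ν'' f := by
    intro f hf
    rw [← h.2 f hf, h''.2 f hf]
  obtain ⟨π, h1⟩ := hπ
  obtain ⟨ρ, h2⟩ := hπ''
  have hπ0 : π ≠ 0 := by
    intro h0
    rw [h0, AddValuation.map_zero] at h1
    exact absurd h1 (by simp)
  have hρ0 : ρ ≠ 0 := by
    intro h0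
    rw [h0, AddValuation.map_zero] at h2
    exact absurd h2 (by simp)
  have k1 := key π hπ0
  rw [Api.val_of ν (show ν π = ((1 : ℤ) : WithTop ℤ) from h1), mul_one] at k1
  have k2 := key ρ hρ0
  rw [Api.val_of ν'' (show ν'' ρ = ((1 : ℤ) : WithTop ℤ) from h2), mul_one] at k2
  have d1 : (e : ℤ) ∣ m := ⟨_, k1⟩
  have d2 : (m : ℤ) ∣ e := ⟨_, k2.symm⟩
  have d1' : e ∣ m := by exact_mod_cast d1
  have d2' : m ∣ e := by exact_mod_cast d2
  have hme : m = e := Nat.dvd_antisymm d2' d1'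
  subst hme
  have hm0 : (m : ℤ) ≠ 0 := by exact_mod_cast h.1.ne'
  ext f
  by_cases hf : f = 0
  · rw [hf, AddValuation.map_zero, AddValuation.map_zero]
  · rw [Api.coe_val ν hf, Api.coe_val ν'' hf, mul_left_cancel₀ hm0 (key f hf)]

end XQdv

/-- item **Qdv** -/
theorem pr_Qdv (hGcl : StGcl.{u}) (hCmp : StCmp.{u}) (hRES : StRES.{u, u, u}) : StQdv.{u} := by
  intro k F₀ F _ _ _ _ _ _ _ _ _ ν₀ ν η hν₀ hL hπ
  haveI : CharZero F₀ := charZero_of_injective_algebraMap (algebraMap k F₀).injective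
  obtain ⟨F₁, _, _, _, _, _, _, hG0, hG1⟩ := hGcl F₀ F
  letI : Algebra k F₁ := ((algebraMap F F₁).comp (algebraMap k F)).toAlgebra
  haveI t1 : IsScalarTower k F F₁ := IsScalarTower.of_algebraMap_eq (fun x => rfl)
  haveI t2 : IsScalarTower k F₀ F₁ := IsScalarTower.of_algebraMap_eq (fun x => by
    have h1 : algebraMap k F₁ x = algebraMap F F₁ (algebraMap k F x) := rfl
    rw [h1, IsScalarTower.algebraMap_apply k F₀ F x, ← IsScalarTower.algebraMap_apply F₀ F F₁])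
  have hid : Lies ν₀ ν₀ 1 := by
    refine ⟨Nat.one_pos, fun f _ => ?_⟩
    rw [Algebra.algebraMap_self, RingHom.id_apply]
    push_cast
    ring
  obtain ⟨W', η', m', hD, -, hL2⟩ :=
    hCmp k F₀ F₀ F F₁ (fun f _ => ⟨f, rfl⟩) ν₀ ν₀ ν 1 η hν₀ hid hπ hL
  obtain ⟨ν'', e', hD'', hL''⟩ := hRES k F F₁ W' hD
  rw [XQdv.eq_of_lies hL2 hL'' hπ hD''.1]
  exact hD''

end Pool.Agent.Work.MP_a2680c_ag.HA
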