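import Pool.Agent.Work.MP_a2680c_ag.HA.StmtsY

/-!
# MP_a2680c_ag, block HA, item Qrs: the result for a quotient
-/

set_option autoImplicit false

noncomputable section

namespace Pool.Agent.Work.MP_a2680c_ag.HA

open MP7b66e6 MP7b66e6.Q
open scoped BigOperators

universe u

namespace XQrs

variable {K F : Type u} [Field K] [Field F] [Algebra K F]

theorem nonneg_up {v : AddValuation K (WithTop ℤ)} {ν : AddValuation F (WithTop ℤ)} {m : ℕ} (h : Lies v ν m) {f : K}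
    (hf : 0 ≤ v f) : 0 ≤ ν (algebraMap K F f) := by
  by_cases h0 : f = 0
  · rw [h0, map_zero, AddValuation.map_zero]
    exact le_top
  · have h0' : algebraMap K F f ≠ 0 := by
      rw [map_ne_zero_iff _ (algebraMap K F).injective]; exact h0
    rw [← Api.val_nonneg ν h0', h.2 f h0]
    exact mul_nonneg (Int.natCast_nonneg _) ((Api.val_nonneg v h0).2 hf)

end XQrs

theorem pr_Qrs (hRsv : StRsv.{u}) : StQrs.{u} := by
  intro κ k K F₀ F _ _ _ _ _ _ _ _ _ _ _ _ _ _ _ _ _ G e d₀ d r c₀ c Z 𝔻₀ 𝔻 L Ξ hc₀ hc hcr hR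
  refine ⟨hR.1, fun v hv ν m hν hm => ?_⟩
  obtain ⟨π, hπ⟩ := hv.1.1
  have hπ0 : π ≠ 0 := by
    intro h0; rw [h0, AddValuation.map_zero] at hπ; exact absurd hπ (by simp)
  have hex : ∃ f : F₀, f ≠ 0 ∧ val ν (algebraMap F₀ F f) ≠ 0 := by
    refine ⟨algebraMap K F₀ π, ?_, ?_⟩
    · rw [map_ne_zero_iff _ (algebraMap K F₀).injective]; exact hπ0
    · rw [← IsScalarTower.algebraMap_apply K F₀ F, hm.2 π hπ0, Api.val_of v hπ, mul_one]
      have := hm.1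
      omega
  obtain ⟨ν₀, η, hν₀, hη⟩ := hRsv k F₀ F d₀ d c₀ c hc₀ hc ν hν hex
  obtain ⟨m₀, hm₀, hmul⟩ := Api.lies_mid hv.1.1 hη hm
  obtain ⟨P, hP, hcen⟩ := hv.2
  have hov : Ov Z ν₀ := ⟨P, hP, fun f hf => XQrs.nonneg_up hm₀ (hcen.1 f hf)⟩
  have h1 := hcr ν₀ ν η hν₀ hov hν.1 hη
  have h2 := hR.2 v hv ν₀ m₀ hν₀ hm₀
  have h3 : (1 - 𝔻 ν) - m * Tv r Z L Ξ v = η • ((1 - 𝔻₀ ν₀) - m₀ * Tv r Z L Ξ v) := by
    rw [h1, ← hmul, nsmul_eq_mul]
    push_cast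
    ring
  rw [h3]
  exact AddSubmonoid.nsmul_mem _ h2 η

end Pool.Agent.Work.MP_a2680c_ag.HA
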