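import Pool.Agent.Work.MP_a2680c_ag.HA.StmtsE

/-! Item [a2680c HA Ram] (helper9): an extension with prescribed ramification. -/

set_option autoImplicit false

noncomputable section

namespace Pool.Agent.Work.MP_a2680c_ag.HA

open MP7b66e6 MP7b66e6.Q
open scoped BigOperators

universe u

namespace XRam

theorem gen_X (K : Type u) [Field K] : GenBy K (fun _ : Fin 1 => (RatFunc.X : RatFunc K)) := by
  constructor
  · rw [algebraicIndependent_unique_type_iff]
    rw [← RatFunc.algebraMap_X]
    intro hcon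
    obtain ⟨p, hp, hp0⟩ := hcon
    apply hp
    rw [Polynomial.aeval_algebraMap_apply, Polynomial.aeval_X_left_apply] at hp0
    exact (RatFunc.algebraMap_injective K) (by rw [hp0, map_zero])
  · rw [Set.range_const]
    exact RatFunc.adjoin_X

theorem mon_const {K F : Type u} [Field K] [Field F] [Algebra K F] {n : ℕ} {z : Fin n → F}
    {v : AddValuation K (WithTop ℤ)} {q : ℕ} {w : Fin n → ℤ} {W : AddValuation F (WithTop ℤ)} {g : ℕ}
    (h : MonV z v q w W g) {c : K} (hc : c ≠ 0) :
    (g : ℤ) * val W (algebraMap K F c) = q * val v c := by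
  have hP : (MvPolynomial.C c : MvPolynomial (Fin n) K) ≠ 0 := by
    intro h0
    exact hc ((MvPolynomial.C_eq_zero (σ := Fin n)).1 h0)
  obtain ⟨-, s, hs, h2⟩ := h (MvPolynomial.C c) hP
  have hs0 : s = 0 := by
    by_contra hne
    rw [MvPolynomial.mem_support_iff, MvPolynomial.coeff_C, if_neg (Ne.symm hne)] at hs
    exact hs rfl
  rw [MvPolynomial.aeval_C] at h2
  rw [h2, hs0, MvPolynomial.coeff_C, if_pos rfl]
  simp

theorem mon_X {K F : Type u} [Field K] [Field F] [Algebra K F] {z : Fin 1 → F}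
    {v : AddValuation K (WithTop ℤ)} {q : ℕ} {W : AddValuation F (WithTop ℤ)} {g : ℕ}
    (h : MonV z v q (fun _ => 1) W g) : (g : ℤ) * val W (z 0) = 1 := by
  classical
  obtain ⟨-, s, hs, h2⟩ := h (MvPolynomial.X 0) (MvPolynomial.X_ne_zero 0)
  rw [MvPolynomial.support_X, Finset.mem_singleton] at hs
  rw [MvPolynomial.aeval_X] at h2
  rw [h2, hs, MvPolynomial.coeff_X, if_pos rfl]
  simp [Api.val_one]

end XRam

theorem pr_Ram (hMnv : StMnv.{u}) : StRam.{u} := by
  intro K _ v hv q hq
  obtain ⟨W, g, hg, -, hM⟩ := hMnv K (RatFunc K) 1 (fun _ => RatFunc.X) (XRam.gen_X K) v hv q (fun _ => 1) hq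
  have h1 := XRam.mon_X hM
  have hg1 : (g : ℤ) = 1 := by
    have hg' : (0 : ℤ) < g := by exact_mod_cast hg
    exact Int.eq_one_of_mul_eq_one_right hg'.le h1
  rw [hg1, one_mul] at h1
  refine ⟨RatFunc K, inferInstance, inferInstance, W, RatFunc.X, ?_, ?_⟩
  · have hX : (RatFunc.X : RatFunc K) ≠ 0 := RatFunc.X_ne_zero
    rw [Api.coe_val W hX, h1]; rfl
  · intro c hc
    have := XRam.mon_const hM hc
    rw [hg1, one_mul] at this
    exact this

end Pool.Agent.Work.MP_a2680c_ag.HA
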