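import Pool.Agent.Work.MP_a2680c_ag.HA.StmtsA

/-!
Block HA, item Rat: simultaneous rational perturbation.
-/

set_option autoImplicit false

noncomputable section

namespace Pool.Agent.Work.MP_a2680c_ag.HA

open scoped BigOperators

namespace XRat

/-- One coordinate. -/
theorem one (e ε : ℝ) (hε : 0 < ε) : ∃ (f : Bool → ℚ) (t : Bool → ℝ), (∀ β, 0 < t β) ∧
    ∑ β, t β = 1 ∧ (∀ β, |e - (f β : ℝ)| < ε) ∧ ∑ β, t β * (f β : ℝ) = e := by
  obtain ⟨p, hp1, hp2⟩ := exists_rat_btwn (show e - ε < e by linarith)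
  obtain ⟨q, hq1, hq2⟩ := exists_rat_btwn (show e < e + ε by linarith)
  have hpq : (0 : ℝ) < (q : ℝ) - p := by linarith
  refine ⟨fun β => if β then q else p,
    fun β => if β then (e - p) / (q - p) else (q - e) / (q - p), ?_, ?_, ?_, ?_⟩
  · intro β
    cases β
    · exact div_pos (by linarith) hpq
    · exact div_pos (by linarith) hpq
  · rw [Fintype.sum_bool]
    simp only [if_true, Bool.false_eq_true, if_false]
    field_simp
    ring
  · intro β
    rw [abs_lt]
    cases β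
    · simp only [Bool.false_eq_true, if_false]
      constructor <;> linarith
    · simp only [if_true]
      constructor <;> linarith
  · rw [Fintype.sum_bool]
    simp only [if_true, Bool.false_eq_true, if_false]
    field_simp
    ring

theorem core (s : ℕ) (e : Fin s → ℝ) (ε : ℝ) (hε : 0 < ε) :
    ∃ (f : (Fin s → Bool) → Fin s → ℚ) (a : (Fin s → Bool) → ℝ), (∀ σ, 0 < a σ) ∧
      ∑ σ, a σ = 1 ∧ (∀ σ j, |e j - (f σ j : ℝ)| < ε) ∧ ∀ j, e j = ∑ σ, a σ * (f σ j : ℝ) := by
  choose f t h1 h2 h3 h4 using fun j => one (e j) ε hε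
  refine ⟨fun σ j => f j (σ j), fun σ => ∏ j, t j (σ j), ?_, ?_, ?_, ?_⟩
  · intro σ
    exact Finset.prod_pos fun j _ => h1 j _
  · have h5 := Finset.prod_univ_sum (fun _ : Fin s => (Finset.univ : Finset Bool))
      (fun j β => t j β)
    rw [Fintype.piFinset_univ] at h5
    rw [← h5]
    exact Finset.prod_eq_one fun j _ => h2 j
  · intro σ j
    exact h3 j (σ j)
  · intro j
    have h5 := Finset.prod_univ_sum (fun _ : Fin s => (Finset.univ : Finset Bool))
      (fun i β => t i β * (if i = j then (f j β : ℝ) else 1))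
    rw [Fintype.piFinset_univ] at h5
    have h6 : ∀ σ : Fin s → Bool, ∏ i, t i (σ i) * (if i = j then (f j (σ i) : ℝ) else 1) =
        (∏ i, t i (σ i)) * (f j (σ j) : ℝ) := by
      intro σ
      rw [Finset.prod_mul_distrib]
      congr 1
      rw [Finset.prod_ite_eq' Finset.univ j (fun i => (f j (σ i) : ℝ)), if_pos (Finset.mem_univ j)]
    simp only [h6] at h5
    rw [← h5]
    have h7 : ∀ i : Fin s, ∑ β, t i β * (if i = j then (f j β : ℝ) else 1) =
        if i = j then e j else 1 := by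
      intro i
      by_cases hij : i = j
      · subst hij
        simp only [if_true]
        exact h4 i
      · simp only [if_neg hij, mul_one]
        exact h2 i
    simp only [h7]
    rw [Finset.prod_ite_eq' Finset.univ j (fun _ => e j), if_pos (Finset.mem_univ j)]

theorem eps (W : Finset ℝ) (hW : ∀ w ∈ W, 0 < w) (c : ℝ → ℝ) :
    ∃ ε : ℝ, 0 < ε ∧ ∀ w ∈ W, ε * c w < w := by
  have h1 : ∀ᶠ ε in nhdsWithin (0 : ℝ) (Set.Ioi 0), ∀ w ∈ W, ε * c w < w := by
    rw [Filter.eventually_all_finset]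
    intro w hw
    have h2 : Filter.Tendsto (fun ε : ℝ => ε * c w) (nhdsWithin (0 : ℝ) (Set.Ioi 0))
        (nhds (0 * c w)) :=
      ((continuous_id.mul continuous_const).tendsto 0).mono_left nhdsWithin_le_nhds
    rw [zero_mul] at h2
    exact h2.eventually_lt_const (hW w hw)
  obtain ⟨ε, h3, h4⟩ := (h1.and self_mem_nhdsWithin).exists
  exact ⟨ε, h4, h3⟩

end XRat

open XRat in
/-- Item Rat. -/
theorem pr_Rat : StRat := by
  classical
  intro W hW
  let V : Submodule ℚ ℝ := Submodule.span ℚ (W : Set ℝ)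
  have : FiniteDimensional ℚ V := FiniteDimensional.span_finset ℚ W
  have hWV : ∀ w ∈ W, w ∈ V := fun w hw => Submodule.subset_span hw
  obtain ⟨s, b⟩ : ∃ s : ℕ, Nonempty (Module.Basis (Fin s) ℚ V) :=
    ⟨_, ⟨Module.finBasis ℚ V⟩⟩
  obtain ⟨b⟩ := b
  have hq : ∃ q : ℝ → Fin s → ℚ, ∀ w ∈ W, w = ∑ j, (q w j : ℝ) * ((b j : V) : ℝ) ∧
      w = ∑ j, q w j • ((b j : V) : ℝ) := by
    refine ⟨fun w j => if h : w ∈ V then b.repr ⟨w, h⟩ j else 0, fun w hw => ?_⟩
    have h := hWV w hw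
    have h1 := congrArg (fun v : V => (v : ℝ)) (b.sum_repr ⟨w, h⟩)
    simp only [Submodule.coe_sum, Submodule.coe_smul] at h1
    constructor
    · calc w = ∑ j, b.repr ⟨w, h⟩ j • ((b j : V) : ℝ) := h1.symm
        _ = ∑ j, ((if h : w ∈ V then b.repr ⟨w, h⟩ j else 0 : ℚ) : ℝ) * ((b j : V) : ℝ) := by
          refine Finset.sum_congr rfl fun j _ => ?_
          rw [dif_pos h, Rat.smul_def]
    · calc w = ∑ j, b.repr ⟨w, h⟩ j • ((b j : V) : ℝ) := h1.symm
        _ = ∑ j, (if h : w ∈ V then b.repr ⟨w, h⟩ j else 0 : ℚ) • ((b j : V) : ℝ) := by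
          refine Finset.sum_congr rfl fun j _ => ?_
          rw [dif_pos h]
  obtain ⟨q, hq⟩ := hq
  obtain ⟨ε, hε, hεW⟩ := eps W hW (fun w => ∑ j, |(q w j : ℝ)|)
  obtain ⟨f, a, ha, hs, hf, he⟩ := core s (fun j => ((b j : V) : ℝ)) ε hε
  have hex : ∀ σ : Fin s → Bool, ∃ Φ : ℝ →ₗ[ℚ] ℚ, ∀ j, Φ ((b j : V) : ℝ) = f σ j := by
    intro σ
    obtain ⟨Φ, hΦ⟩ := LinearMap.exists_extend (b.constr ℚ (f σ))
    refine ⟨Φ, fun j => ?_⟩
    have h1 := LinearMap.congr_fun hΦ (b j)
    rw [Module.Basis.constr_basis] at h1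
    exact h1
  choose Φ hΦ using hex
  have hΦw : ∀ σ, ∀ w ∈ W, Φ σ w = ∑ j, q w j * f σ j := by
    intro σ w hw
    conv_lhs => rw [(hq w hw).2]
    rw [map_sum]
    refine Finset.sum_congr rfl fun j _ => ?_
    rw [map_smul, hΦ, smul_eq_mul]
  let E : Fin (Fintype.card (Fin s → Bool)) ≃ (Fin s → Bool) :=
    (Fintype.equivFin (Fin s → Bool)).symm
  refine ⟨Fintype.card (Fin s → Bool), fun i => a (E i), fun i => Φ (E i), fun i => ha _, ?_, ?_⟩
  · rw [Equiv.sum_comp E a, hs]
  · intro w hw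
    constructor
    · intro i
      have h1 : (0 : ℝ) < ((Φ (E i) w : ℚ) : ℝ) := by
        rw [hΦw _ w hw]
        push_cast
        have h2 : w - ∑ j, (q w j : ℝ) * (f (E i) j : ℝ) ≤ ε * ∑ j, |(q w j : ℝ)| := by
          calc w - ∑ j, (q w j : ℝ) * (f (E i) j : ℝ)
              = ∑ j, (q w j : ℝ) * ((b j : V) : ℝ) - ∑ j, (q w j : ℝ) * (f (E i) j : ℝ) := by
                rw [← (hq w hw).1]
            _ = ∑ j, (q w j : ℝ) * (((b j : V) : ℝ) - (f (E i) j : ℝ)) := by
                rw [← Finset.sum_sub_distrib]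
                exact Finset.sum_congr rfl fun j _ => by ring
            _ ≤ ∑ j, ε * |(q w j : ℝ)| := by
                refine Finset.sum_le_sum fun j _ => ?_
                have h3 := hf (E i) j
                calc (q w j : ℝ) * (((b j : V) : ℝ) - (f (E i) j : ℝ))
                    ≤ |(q w j : ℝ) * (((b j : V) : ℝ) - (f (E i) j : ℝ))| := le_abs_self _
                  _ = |(q w j : ℝ)| * |((b j : V) : ℝ) - (f (E i) j : ℝ)| := abs_mul _ _
                  _ ≤ |(q w j : ℝ)| * ε := mul_le_mul_of_nonneg_left h3.le (abs_nonneg _)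
                  _ = ε * |(q w j : ℝ)| := mul_comm _ _
            _ = ε * ∑ j, |(q w j : ℝ)| := by rw [Finset.mul_sum]
        have h4 := hεW w hw
        linarith
      exact_mod_cast h1
    · rw [Equiv.sum_comp E (fun σ => a σ * ((Φ σ w : ℚ) : ℝ))]
      have h5 : ∀ σ, ((Φ σ w : ℚ) : ℝ) = ∑ j, (q w j : ℝ) * (f σ j : ℝ) := by
        intro σ
        rw [hΦw σ w hw]
        push_cast
        rfl
      simp only [h5, Finset.mul_sum]
      rw [Finset.sum_comm]
      conv_lhs => rw [(hq w hw).1]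
      refine Finset.sum_congr rfl fun j _ => ?_
      rw [he j, Finset.mul_sum]
      exact Finset.sum_congr rfl fun σ _ => by ring

end Pool.Agent.Work.MP_a2680c_ag.HA
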