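import Pool.Agent.Work.MP_a2680c_ag.HA.StmtsR

/-!
# MP_a2680c_ag, block HA, item Rbd: derivations which extend a derivation of the ground field have bounded below order along a
divisorial valuation
-/

set_option autoImplicit false

namespace Pool.Agent.Work.MP_a2680c_ag.HA

open MP7b66e6 MP7b66e6.Q
open scoped BigOperators

universe u

namespace XRbd


section
variable {K : Type u} [Field K] {ν : AddValuation K (WithTop ℤ)}

theorem exists_int {f : K} (hf : f ≠ 0) : ∃ j : ℤ, ν f = (j : WithTop ℤ) := by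
  have h : ν f ≠ ⊤ := fun h => hf ((AddValuation.top_iff ν).1 h)
  obtain ⟨j, hj⟩ := WithTop.ne_top_iff_exists.1 h
  exact ⟨j, hj.symm⟩

theorem mul_ge {a b : K} {i m : ℤ} (ha : (i : WithTop ℤ) ≤ ν a) (hb : (m : WithTop ℤ) ≤ ν b) :
    ((i + m : ℤ) : WithTop ℤ) ≤ ν (a * b) := by
  rw [AddValuation.map_mul, WithTop.coe_add]
  exact add_le_add ha hb

theorem coe_le {i m : ℤ} (h : i ≤ m) : (i : WithTop ℤ) ≤ (m : WithTop ℤ) := WithTop.coe_le_coe.2 h

theorem low (x : WithTop ℤ) : ∃ c : ℤ, c ≤ 0 ∧ (c : WithTop ℤ) ≤ x := by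
  induction x using WithTop.recTopCoe with
  | top => exact ⟨0, le_rfl, le_top⟩
  | coe n => exact ⟨min n 0, min_le_right _ _, coe_le (min_le_left _ _)⟩

theorem lowSet {T : Type u} (S : Finset T) (g : T → WithTop ℤ) :
    ∃ c : ℤ, c ≤ 0 ∧ ∀ y ∈ S, (c : WithTop ℤ) ≤ g y := by
  classical
  induction S using Finset.induction_on with
  | empty => exact ⟨0, le_rfl, fun y hy => absurd hy (Finset.notMem_empty y)⟩
  | insert a S ha ih =>
    obtain ⟨c, hc, h⟩ := ih
    obtain ⟨c', hc', h'⟩ := low (g a)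
    refine ⟨min c c', (min_le_left _ _).trans hc, fun y hy => ?_⟩
    rcases Finset.mem_insert.1 hy with rfl | hy
    · exact (coe_le (min_le_right _ _)).trans h'
    · exact (coe_le (min_le_left _ _)).trans (h y hy)

variable {k : Type u} [Field k] [Algebra k K]

/-- the bound on the finitely generated subalgebra -/
theorem stepA (C : Subalgebra k K) (hC : C.FG) (h0 : ∀ c ∈ C, 0 ≤ ν c) (E : Derivation ℤ K K)
    (δ : Derivation ℤ k k) (hE : Ext δ E) :
    ∃ c : ℤ, c ≤ 0 ∧ ∀ a ∈ C, (c : WithTop ℤ) ≤ ν (E a) := by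
  obtain ⟨S, hS⟩ := hC
  obtain ⟨c, hc, h⟩ := lowSet S (fun y => ν (E y))
  refine ⟨c, hc, ?_⟩
  subst hS
  intro a ha
  induction ha using Algebra.adjoin_induction with
  | mem x hx => exact h x hx
  | algebraMap r =>
    rw [hE r]
    exact (coe_le hc).trans (h0 _ (Subalgebra.algebraMap_mem _ (δ r)))
  | add x y hx hy ihx ihy =>
    rw [map_add]
    exact AddValuation.map_le_add ν ihx ihy
  | mul x y hx hy ihx ihy =>
    rw [E.leibniz, smul_eq_mul, smul_eq_mul]
    have hx0 : ((0 : ℤ) : WithTop ℤ) ≤ ν x := h0 x hx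
    have hy0 : ((0 : ℤ) : WithTop ℤ) ≤ ν y := h0 y hy
    have e1 := mul_ge hx0 ihy
    have e2 := mul_ge hy0 ihx
    rw [zero_add] at e1 e2
    exact AddValuation.map_le_add ν e1 e2

/-- the bound on the valuation ring -/
theorem stepB (C : Subalgebra k K)
    (h1 : ∀ f : K, 0 ≤ ν f → ∃ a ∈ C, ∃ s ∈ C, ν s = 0 ∧ f * s = a) (E : Derivation ℤ K K) (c : ℤ)
    (hc : ∀ a ∈ C, (c : WithTop ℤ) ≤ ν (E a)) : ∀ f : K, 0 ≤ ν f → (c : WithTop ℤ) ≤ ν (E f) := by
  intro f hf
  obtain ⟨a, ha, s, hs, hs0, hfs⟩ := h1 f hf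
  have e1 : s * E f = E a - f * E s := by
    rw [← hfs, E.leibniz, smul_eq_mul, smul_eq_mul]
    ring
  have hf0 : ((0 : ℤ) : WithTop ℤ) ≤ ν f := hf
  have e2 := mul_ge hf0 (hc s hs)
  rw [zero_add] at e2
  have e3 : (c : WithTop ℤ) ≤ ν (E a - f * E s) := AddValuation.map_le_sub ν (hc a ha) e2
  rw [← e1, AddValuation.map_mul, hs0, zero_add] at e3
  exact e3

/-- `ν (E f) ≥ ν f + C` for `f ≠ 0` -/
def Good (ν : AddValuation K (WithTop ℤ)) (E : Derivation ℤ K K) (C : ℤ) (f : K) : Prop :=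
  ∀ j : ℤ, ν f = (j : WithTop ℤ) → ((j + C : ℤ) : WithTop ℤ) ≤ ν (E f)

theorem Good.mul {E : Derivation ℤ K K} {C : ℤ} {f g : K} (hf : Good ν E C f) (hg : Good ν E C g)
    (hf0 : f ≠ 0) (hg0 : g ≠ 0) : Good ν E C (f * g) := by
  intro j hj
  obtain ⟨i, hi⟩ := exists_int (ν := ν) hf0
  obtain ⟨m, hm⟩ := exists_int (ν := ν) hg0
  have hji : j = i + m := by
    rw [AddValuation.map_mul, hi, hm, ← WithTop.coe_add] at hj
    exact (WithTop.coe_injective hj).symm
  rw [E.leibniz, smul_eq_mul, smul_eq_mul]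
  have e1 := mul_ge hi.ge (hg m hm)
  have e2 := mul_ge hm.ge (hf i hi)
  have a1 : i + (m + C) = j + C := by rw [hji]; ring
  have a2 : m + (i + C) = j + C := by rw [hji]; ring
  rw [a1] at e1
  rw [a2] at e2
  exact AddValuation.map_le_add ν e1 e2

theorem Good.inv {E : Derivation ℤ K K} {C : ℤ} {f : K} (hf : Good ν E C f) (hf0 : f ≠ 0) :
    Good ν E C f⁻¹ := by
  intro j hj
  obtain ⟨i, hi⟩ := exists_int (ν := ν) hf0
  have hji : i + j = 0 := by
    have h1 : ν (f * f⁻¹) = 0 := by rw [mul_inv_cancel₀ hf0, AddValuation.map_one]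
    rw [AddValuation.map_mul, hi, hj, ← WithTop.coe_add] at h1
    exact WithTop.coe_injective h1
  have e0 : E f⁻¹ = -(f⁻¹ * f⁻¹ * E f) := by
    have h1 : E (f * f⁻¹) = 0 := by rw [mul_inv_cancel₀ hf0, E.map_one_eq_zero]
    rw [E.leibniz, smul_eq_mul, smul_eq_mul] at h1
    field_simp
    field_simp at h1
    linear_combination h1
  rw [e0, AddValuation.map_neg]
  have e1 := mul_ge (mul_ge hj.ge hj.ge) (hf i hi)
  have a1 : j + j + (i + C) = j + C := by linarith
  rw [a1] at e1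
  exact e1

theorem Good.pow {E : Derivation ℤ K K} {C : ℤ} {f : K} (hf : Good ν E C f) (hf0 : f ≠ 0)
    (h1 : Good ν E C 1) (n : ℕ) : Good ν E C (f ^ n) := by
  induction n with
  | zero => rw [pow_zero]; exact h1
  | succ n ih => rw [pow_succ]; exact ih.mul hf (pow_ne_zero n hf0) hf0

theorem pow_val {π : K} (hπ : ν π = 1) (n : ℕ) : ν (π ^ n) = ((n : ℤ) : WithTop ℤ) := by
  induction n with
  | zero => rw [pow_zero, AddValuation.map_one]; rfl
  | succ n ih =>
    rw [pow_succ, AddValuation.map_mul, ih, hπ]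
    rfl

end

end XRbd

open XRbd in
theorem pr_Rbd : StRbd.{u} := by
  intro k K _ _ _ ν hdiv δ E hE
  obtain ⟨⟨π, hπ⟩, A, hfg, h0, h1⟩ := hdiv
  obtain ⟨c, hc0, hc⟩ := stepA A hfg h0 E δ hE
  have hB := stepB A h1 E c hc
  obtain ⟨c', hc'0, hc'⟩ := low (ν (E π))
  refine ⟨min c (c' - 1), ?_⟩
  set C : ℤ := min c (c' - 1) with hC
  have hπ0 : π ≠ 0 := by
    rintro rfl
    rw [AddValuation.map_zero] at hπ
    exact absurd hπ (by decide)
  have gunit : ∀ f : K, ν f = 0 → Good ν E C f := by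
    intro f hf j hj
    have hj0 : j = 0 := by
      rw [hf] at hj
      exact (WithTop.coe_injective hj).symm
    rw [hj0, zero_add]
    exact (coe_le (min_le_left _ _)).trans (hB f hf.ge)
  have g1 : Good ν E C 1 := gunit 1 (AddValuation.map_one ν)
  have gπ : Good ν E C π := by
    intro j hj
    have hj1 : j = 1 := by
      rw [hπ] at hj
      exact (WithTop.coe_injective hj).symm
    refine (coe_le ?_).trans hc'
    have := min_le_right c (c' - 1)
    rw [hj1]
    linarith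
  have gall : ∀ f : K, f ≠ 0 → Good ν E C f := by
    intro f hf0
    obtain ⟨j, hj⟩ := exists_int (ν := ν) hf0
    rcases le_total 0 j with hj0 | hj0
    · obtain ⟨n, rfl⟩ := Int.eq_ofNat_of_zero_le hj0
      have hp := pow_ne_zero n hπ0
      have hu0 : f * (π ^ n)⁻¹ ≠ 0 := mul_ne_zero hf0 (inv_ne_zero hp)
      have hu : ν (f * (π ^ n)⁻¹) = 0 := by
        obtain ⟨i, hi⟩ := exists_int (ν := ν) hu0
        have h3 : ν (f * (π ^ n)⁻¹ * π ^ n) = ν f := by rw [inv_mul_cancel_right₀ hp]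
        rw [AddValuation.map_mul, hi, pow_val hπ, hj, ← WithTop.coe_add] at h3
        have h4 : i + (n : ℤ) = n := WithTop.coe_injective h3
        have h5 : i = 0 := by linarith
        rw [hi, h5]
        rfl
      have h6 := (gunit _ hu).mul (gπ.pow hπ0 g1 n) hu0 hp
      rwa [inv_mul_cancel_right₀ hp] at h6
    · obtain ⟨n, hn⟩ := Int.eq_ofNat_of_zero_le (neg_nonneg.2 hj0)
      have hp := pow_ne_zero n hπ0
      have hu0 : f * π ^ n ≠ 0 := mul_ne_zero hf0 hp
      have hu : ν (f * π ^ n) = 0 := by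
        rw [AddValuation.map_mul, pow_val hπ, hj, ← WithTop.coe_add]
        have h5 : j + (n : ℤ) = 0 := by
          have : -j = (n : ℤ) := hn
          linarith
        rw [h5]
        rfl
      have h6 := (gunit _ hu).mul ((gπ.pow hπ0 g1 n).inv hp) hu0 (inv_ne_zero hp)
      rwa [mul_inv_cancel_right₀ hp] at h6
  intro f
  by_cases hf : f = 0
  · have hE0 : E (0 : K) = 0 := map_zero E
    rw [hf, hE0, AddValuation.map_zero]
    exact le_top
  · obtain ⟨j, hj⟩ := exists_int (ν := ν) hf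
    rw [hj, ← WithTop.coe_add]
    exact gall f hf j hj

end Pool.Agent.Work.MP_a2680c_ag.HA
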