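import Pool.Agent.Work.MP_a2680c_ag.HA.StmtsR
import Pool.Agent.Work.MP_a2680c_ag.HA.I_Loc
import Pool.Agent.Work.MP_a2680c_ag.HA.I_Pdd
import Pool.Agent.Work.MP_a2680c_ag.HA.I_Grm
import Pool.Agent.Work.MP_7b66e6_ag.N.I_PDV
import Pool.Agent.Work.MP_7b66e6_ag.N.I_REG
import Mathlib.FieldTheory.FinTrdeg

/-! Item [a2680c HA Rbz] (helper53): the zero b-divisor is base-point free. -/

set_option autoImplicit false

noncomputable section

namespace Pool.Agent.Work.MP_a2680c_ag.HA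

open MP7b66e6 MP7b66e6.Q
open scoped BigOperators

universe u

namespace XRbz

variable {k K : Type u} [Field k] [Field K] [Algebra k K]

/-- a function with no zeros and poles along the prime divisors through `P` is a unit of `P` -/
theorem mem_of (Z : Set (Subalgebra k K)) (hZ : Vty Z) (P : Subalgebra k K) (hP : P ∈ Z) (s : Kˣ)
    (h : ∀ ν : AddValuation K (WithTop ℤ), PDat Z P ν → val ν (s : K) = 0) : (s : K) ∈ P := by
  obtain ⟨hE, hG⟩ := pr_Grm pr_Loc pr_Pdd k K Z hZ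
  have h1 : Algebra.trdeg k K < Cardinal.aleph0 := trdeg_lt_aleph0 k K
  obtain ⟨d, hd⟩ := Cardinal.lt_aleph0.1 h1
  obtain ⟨G, hPD⟩ := hG P hP d hd
  refine nREG nPDV k K P d G _ fun ν hν => ?_
  have h2 := h ν ((hPD ν).1 hν)
  rw [Api.coe_val ν s.ne_zero, h2]
  rfl

theorem zero (Z : Set (Subalgebra k K)) (hZ : Vty Z) (P : Subalgebra k K) (hP : P ∈ Z) (s : Kˣ)
    (h : ∀ ν : AddValuation K (WithTop ℤ), PDat Z P ν → val ν (s : K) = 0)
    (ν : AddValuation K (WithTop ℤ)) (hν : ∀ f ∈ P, 0 ≤ ν f) : val ν (s : K) = 0 := by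
  have h1 := hν _ (mem_of Z hZ P hP s h)
  have h2 := hν _ (mem_of Z hZ P hP s⁻¹ (fun ν' hν' => by
    rw [Units.val_inv_eq_inv_val, Api.val_inv ν' s.ne_zero, h ν' hν', neg_zero]))
  rw [Units.val_inv_eq_inv_val, ← Api.val_nonneg ν (inv_ne_zero s.ne_zero), Api.val_inv ν s.ne_zero] at h2
  rw [← Api.val_nonneg ν s.ne_zero] at h1
  omega

theorem bpf (Z : Set (Subalgebra k K)) (hZ : Vty Z) :
    Bpf Z (fun _ : AddValuation K (WithTop ℤ) => (0 : ℝ)) := by
  refine ⟨Z, hZ, fun O hO => ⟨O, hO, fun f hf => ⟨hf, fun _ h => h⟩⟩, fun V _ h => h, ?_, ?_⟩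
  · intro P _
    refine ⟨1, fun ν _ => ?_, fun ν _ => ?_⟩
    · rw [Units.val_one, Api.val_one ν]; simp
    · rw [Units.val_one, Api.val_one ν]; simp
  · intro P hP s hs ν _ hν
    have h1 := zero Z hZ P hP s (fun ν' hν' => by
      have h2 := hs ν' hν'
      rw [zero_add] at h2
      exact_mod_cast h2) ν hν.1
    rw [h1]; simp

end XRbz

theorem pr_Rbz : StRbz.{u} := by
  intro k K _ _ _ Z hZ
  refine ⟨1, fun _ => 1, fun _ _ => 0, fun _ => rfl, by simp, fun _ => XRbz.bpf Z hZ, fun ν _ => by simp⟩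

end Pool.Agent.Work.MP_a2680c_ag.HA
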