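import Pool.Agent.Work.MP_a2680c_ag.HA.StmtsR

/-!
# MP_a2680c_ag, block HA, item Rcr: the chain rule
-/

set_option autoImplicit false

noncomputable section

namespace Pool.Agent.Work.MP_a2680c_ag.HA

open MP7b66e6 MP7b66e6.Q
open scoped BigOperators

universe u

namespace XRcr

section
variable {k K : Type u} [Field k] [Field K] [Algebra k K]

theorem T_one (I : K →+* K) (T : K → K) (hmul : ∀ x y, T (x * y) = I x * T y + I y * T x) :
    T 1 = 0 := by
  have h := hmul 1 1
  rw [mul_one, map_one, one_mul] at h
  exact left_eq_add.mp h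

theorem T_pow (I : K →+* K) (T : K → K) (hmul : ∀ x y, T (x * y) = I x * T y + I y * T x)
    (f : K) : ∀ n : ℕ, T (f ^ n) = n * I f ^ (n - 1) * T f := by
  intro n
  induction n with
  | zero => rw [pow_zero, T_one I T hmul]; simp
  | succ n ih =>
    rw [pow_succ, hmul, ih, map_pow, Nat.add_sub_cancel]
    rcases n with _ | n
    · simp
    · rw [Nat.add_sub_cancel]
      push_cast
      ring

theorem T_aeval (S : Subalgebra k K) (I : K →+* K) (T : K → K)
    (hadd : ∀ x y, T (x + y) = T x + T y) (hmul : ∀ x y, T (x * y) = I x * T y + I y * T x)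
    (hS : ∀ s : S, T s = 0) (f : K) (p : Polynomial S) :
    T (Polynomial.aeval f p) = I (Polynomial.aeval f (Polynomial.derivative p)) * T f := by
  induction p using Polynomial.induction_on' with
  | add p q hp hq =>
    rw [map_add, hadd, hp, hq, Polynomial.derivative_add, map_add, map_add, add_mul]
  | monomial n a =>
    have ha : T (algebraMap S K a) = 0 := hS a
    rw [Polynomial.aeval_monomial, Polynomial.derivative_monomial, Polynomial.aeval_monomial, hmul,
      ha, T_pow I T hmul]
    simp only [map_mul, map_natCast, map_pow]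
    ring

/-- a twisted derivation which kills the subalgebra kills everything algebraic over it -/
theorem kill [CharZero K] (S : Subalgebra k K) (hA : Algebra.IsAlgebraic S K) (I : K →+* K)
    (T : K → K) (hadd : ∀ x y, T (x + y) = T x + T y)
    (hmul : ∀ x y, T (x * y) = I x * T y + I y * T x) (hS : ∀ s : S, T s = 0) (f : K) :
    T f = 0 := by
  have h00 : T 0 = 0 := by
    have h := hadd 0 0
    rw [add_zero] at h
    exact left_eq_add.mp h
  have key : ∀ n : ℕ, ∀ p : Polynomial S, p.natDegree ≤ n → p ≠ 0 →
      Polynomial.aeval f p = 0 → T f = 0 := by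
    intro n
    induction n with
    | zero =>
      intro p hp hne h0
      exfalso
      have h1 : p = Polynomial.C (p.coeff 0) := Polynomial.eq_C_of_natDegree_le_zero hp
      rw [h1, Polynomial.aeval_C] at h0
      have h2 : p.coeff 0 = 0 := by
        apply Subtype.ext
        exact h0
      rw [h2, Polynomial.C_0] at h1
      exact hne h1
    | succ n ih =>
      intro p hp hne h0
      have h1 := T_aeval S I T hadd hmul hS f p
      rw [h0, h00] at h1
      rcases mul_eq_zero.mp h1.symm with h2 | h2
      · have h2' : Polynomial.aeval f (Polynomial.derivative p) = 0 :=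
          (map_eq_zero_iff I I.injective).mp h2
        by_cases hd : p.natDegree = 0
        · exact ih p (by omega) hne h0
        · apply ih (Polynomial.derivative p) _ _ h2'
          · have := Polynomial.natDegree_derivative_lt hd
            omega
          · intro h3
            exact hd (Polynomial.derivative_eq_zero.mp h3)
      · exact h2
  obtain ⟨p, hp, h0⟩ := hA.isAlgebraic f
  exact key p.natDegree p le_rfl hp h0

end

end XRcr

open XRcr in
/-- item Rcr -/
theorem pr_Rcr : StRcr.{u} := by
  intro k K _ _ _ _ e r pd hD hb ι I hI hr E hE f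
  have : CharZero K := charZero_of_injective_algebraMap (algebraMap k K).injective
  obtain ⟨T, hT⟩ : ∃ T : K → K, ∀ f, T f = E (I f) - ∑ m, E (r m) * I (pd m f) :=
    ⟨_, fun _ => rfl⟩
  have hadd : ∀ x y, T (x + y) = T x + T y := by
    intro x y
    rw [hT, hT, hT, map_add, map_add]
    have h1 : ∑ m, E (r m) * I (pd m (x + y)) =
        ∑ m, E (r m) * I (pd m x) + ∑ m, E (r m) * I (pd m y) := by
      rw [← Finset.sum_add_distrib]
      refine Finset.sum_congr rfl fun m _ => ?_
      rw [map_add, map_add, mul_add]
    rw [h1]
    ring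
  have hmul : ∀ x y, T (x * y) = I x * T y + I y * T x := by
    intro x y
    rw [hT, hT, hT, map_mul, Derivation.leibniz, smul_eq_mul, smul_eq_mul]
    have h1 : ∑ m, E (r m) * I (pd m (x * y)) =
        I x * (∑ m, E (r m) * I (pd m y)) + I y * ∑ m, E (r m) * I (pd m x) := by
      rw [Finset.mul_sum, Finset.mul_sum, ← Finset.sum_add_distrib]
      refine Finset.sum_congr rfl fun m _ => ?_
      rw [Derivation.leibniz, smul_eq_mul, smul_eq_mul, map_add, map_mul, map_mul]
      ring
    rw [h1]
    ring
  have hk : ∀ c : k, T (algebraMap k K c) = 0 := by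
    intro c
    rw [hT, hI, hE, zero_sub, neg_eq_zero]
    refine Finset.sum_eq_zero fun m _ => ?_
    rw [Derivation.map_algebraMap, map_zero, mul_zero]
  have hrj : ∀ j, T (r j) = 0 := by
    intro j
    rw [hT, hr]
    have h1 : ∑ m, E (r m) * I (pd m (r j)) = E (r j) := by
      rw [Finset.sum_eq_single j]
      · rw [hD.1 j j, if_pos rfl, map_one, mul_one]
      · intro m _ hm
        rw [hD.1, if_neg hm, map_zero, mul_zero]
      · intro h
        exact absurd (Finset.mem_univ j) h
    rw [h1, sub_self]
  have hS : ∀ s : Algebra.adjoin k (Set.range r), T s = 0 := by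
    rintro ⟨s, hs⟩
    show T s = 0
    induction hs using Algebra.adjoin_induction with
    | mem x hx =>
      obtain ⟨j, rfl⟩ := hx
      exact hrj j
    | algebraMap c => exact hk c
    | add x y _ _ hx hy => rw [hadd, hx, hy, add_zero]
    | mul x y _ _ hx hy => rw [hmul, hx, hy, mul_zero, mul_zero, add_zero]
  have h := kill (Algebra.adjoin k (Set.range r)) hb.isAlgebraic I T hadd hmul hS f
  rw [hT] at h
  exact sub_eq_zero.mp h

end Pool.Agent.Work.MP_a2680c_ag.HA
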