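import Pool.Agent.Work.MP_a2680c_ag.HA.StmtsX

/-!
# MP_a2680c_ag, block HA, item Rdk: rationality of a place descends
-/

set_option autoImplicit false

noncomputable section

namespace Pool.Agent.Work.MP_a2680c_ag.HA

open MP7b66e6 MP7b66e6.Q
open scoped BigOperators

universe u

namespace XRdk

/-- an element of positive value is not algebraic over a field of constants -/
theorem alg_nonpos {k F : Type u} [Field k] [Field F] [Algebra k F] (ν : AddValuation F (WithTop ℤ))
    (h : ∀ c : k, 0 ≤ ν (algebraMap k F c)) (x : F) (hx : IsIntegral k x) (h0 : 0 < ν x) : x = 0 := by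
  by_contra hne
  have h1 : x ∈ Api.ring ν h := h0.le
  have h2 : x⁻¹ ∈ Api.ring ν h := IsIntegral.inv_mem hx h1
  have h3 : 0 ≤ ν x⁻¹ := h2
  rw [← Api.val_nonneg ν (inv_ne_zero hne), Api.val_inv ν hne] at h3
  rw [Api.coe_val ν hne, ← WithTop.coe_zero, WithTop.coe_lt_coe] at h0
  omega

/-- coprimality in one variable -/
theorem coprime_one {K : Type u} [Field K] {p g : MvPolynomial (Fin 1) K} (hp : Irreducible p) (h : ¬ p ∣ g) :
    ∃ a b : MvPolynomial (Fin 1) K, a * p + b * g = 1 := by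
  let e := MvPolynomial.uniqueAlgEquiv K (Fin 1)
  have h1 : Irreducible (e p) := (MulEquiv.irreducible_iff e).2 hp
  have h2 : ¬ e p ∣ e g := by
    intro hd
    exact h ((map_dvd_iff e).1 hd)
  obtain ⟨a, b, hab⟩ := (Irreducible.coprime_iff_not_dvd h1).2 h2
  refine ⟨e.symm a, e.symm b, ?_⟩
  apply e.injective
  simp [hab]

/-- the image of an irreducible polynomial under a field extension is not a unit -/
theorem map_not_unit {K K' : Type u} [Field K] [Field K'] [Algebra K K'] {p : MvPolynomial (Fin 1) K}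
    (hp : Irreducible p) : ¬ IsUnit (MvPolynomial.map (algebraMap K K') p) := by
  intro hu
  obtain ⟨r, hr, hr2⟩ := MvPolynomial.isUnit_iff_eq_C_of_isReduced.1 hu
  have h1 : p = MvPolynomial.C (MvPolynomial.coeff 0 p) := by
    ext m
    by_cases hm : m = 0
    · rw [hm]; simp
    · rw [MvPolynomial.coeff_C, if_neg (Ne.symm hm)]
      have h2 := congrArg (MvPolynomial.coeff m) hr2
      rw [MvPolynomial.coeff_map, MvPolynomial.coeff_C, if_neg (Ne.symm hm)] at h2
      exact (map_eq_zero _).1 h2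
  by_cases hc : MvPolynomial.coeff 0 p = 0
  · rw [hc, map_zero] at h1
    exact hp.ne_zero h1
  · apply hp.not_isUnit
    rw [h1]
    exact (IsUnit.mk0 _ hc).map MvPolynomial.C

/-- the value of a polynomial in a place `OrdP` -/
theorem ord_val {K F : Type u} [Field K] [Field F] [Algebra K F] {y : Fin 1 → F} {p : MvPolynomial (Fin 1) K}
    {ν : AddValuation F (WithTop ℤ)} (h : OrdP y p ν) (hy : AlgebraicIndependent K y) {g : MvPolynomial (Fin 1) K} (hg : g ≠ 0) (m : ℕ)
    (h1 : p ^ m ∣ g) (h2 : ¬ p ^ (m + 1) ∣ g) : val ν (MvPolynomial.aeval y g) = m := by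
  have hne : MvPolynomial.aeval y g ≠ 0 := by
    intro h0
    exact hg ((map_eq_zero_iff (MvPolynomial.aeval y) hy).1 h0)
  have a1 := (h.2 g m).2 h1
  have a2 : ¬ (((m + 1 : ℕ) : ℤ) : WithTop ℤ) ≤ ν (MvPolynomial.aeval y g) := fun hh => h2 ((h.2 g (m + 1)).1 hh)
  rw [Api.coe_val ν hne, WithTop.coe_le_coe] at a1 a2
  push_cast at a1 a2
  omega

/-- the values of polynomials under a constant field extension -/
theorem lies {K' F' K₂ F₂ : Type u} [Field K'] [Field F'] [Field K₂] [Field F₂] [Algebra K' F'] [Algebra K' K₂]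
    [Algebra K' F₂] [Algebra F' F₂] [Algebra K₂ F₂] [IsScalarTower K' F' F₂] [IsScalarTower K' K₂ F₂]
    {y : Fin 1 → F'} (hy : GenBy K' y) (hy2 : GenBy K₂ (up F₂ y)) {p : MvPolynomial (Fin 1) K'}
    {q : MvPolynomial (Fin 1) K₂} {μ : AddValuation F' (WithTop ℤ)} {ν : AddValuation F₂ (WithTop ℤ)}
    (hp : OrdP y p μ) (hq : OrdP (up F₂ y) q ν) (hqp : q ∣ MvPolynomial.map (algebraMap K' K₂) p) :
    ∃ m : ℕ, Lies μ ν m := by
  have inj : Function.Injective (MvPolynomial.map (σ := Fin 1) (algebraMap K' K₂)) :=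
    MvPolynomial.map_injective _ (algebraMap K' K₂).injective
  have key : ∀ g : MvPolynomial (Fin 1) K', algebraMap F' F₂ (MvPolynomial.aeval y g) =
      MvPolynomial.aeval (up F₂ y) (MvPolynomial.map (algebraMap K' K₂) g) := by
    intro g
    rw [MvPolynomial.aeval_map_algebraMap]
    exact (MvPolynomial.aeval_algebraMap_apply F₂ y g).symm
  have ane : ∀ g : MvPolynomial (Fin 1) K', g ≠ 0 → MvPolynomial.aeval y g ≠ 0 := by
    intro g hg h0
    exact hg ((map_eq_zero_iff (MvPolynomial.aeval y) hy.1).1 h0)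
  have mne : ∀ g : MvPolynomial (Fin 1) K', g ≠ 0 → MvPolynomial.map (algebraMap K' K₂) g ≠ 0 := by
    intro g hg h0
    exact hg ((map_eq_zero_iff _ inj).1 h0)
  have hp0 : p ≠ 0 := hp.1.ne_zero
  have pp : 1 ≤ val ν (MvPolynomial.aeval (up F₂ y) (MvPolynomial.map (algebraMap K' K₂) p)) := by
    have h1 := (hq.2 (MvPolynomial.map (algebraMap K' K₂) p) 1).2 (by simpa using hqp)
    have hne : MvPolynomial.aeval (up F₂ y) (MvPolynomial.map (algebraMap K' K₂) p) ≠ 0 := by
      intro h0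
      exact mne p hp0 ((map_eq_zero_iff (MvPolynomial.aeval (up F₂ y)) hy2.1).1 h0)
    rw [Api.coe_val ν hne, WithTop.coe_le_coe] at h1
    exact_mod_cast h1
  set m := val ν (MvPolynomial.aeval (up F₂ y) (MvPolynomial.map (algebraMap K' K₂) p)) with hm
  have main : ∀ g : MvPolynomial (Fin 1) K', g ≠ 0 →
      val ν (algebraMap F' F₂ (MvPolynomial.aeval y g)) = m * val μ (MvPolynomial.aeval y g) := by
    intro g hg
    obtain ⟨n, c, hc, hgc⟩ := WfDvdMonoid.max_power_factor hg hp.1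
    have hc0 : c ≠ 0 := by
      rintro rfl
      exact hg (by simpa using hgc)
    have v1 : val μ (MvPolynomial.aeval y g) = n := by
      apply ord_val hp hy.1 hg n
      · exact ⟨c, hgc⟩
      · rintro ⟨d, hd⟩
        apply hc
        refine ⟨d, ?_⟩
        have h3 : p ^ n * c = p ^ n * (p * d) := by rw [← hgc, hd]; ring
        exact mul_left_cancel₀ (pow_ne_zero n hp0) h3
    have v2 : val ν (MvPolynomial.aeval (up F₂ y) (MvPolynomial.map (algebraMap K' K₂) c)) = 0 := by
      have := ord_val hq hy2.1 (mne c hc0) 0 (by simp) ?_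
      · simpa using this
      · intro hd
        rw [zero_add, pow_one] at hd
        obtain ⟨a, b, hab⟩ := coprime_one hp.1 hc
        have h4 := congrArg (MvPolynomial.map (algebraMap K' K₂)) hab
        rw [map_add, map_mul, map_mul, map_one] at h4
        apply hq.1.not_isUnit
        apply isUnit_of_dvd_one
        rw [← h4]
        exact dvd_add (Dvd.dvd.mul_left hqp _) (Dvd.dvd.mul_left hd _)
    have hPne : MvPolynomial.aeval (up F₂ y) (MvPolynomial.map (algebraMap K' K₂) p) ≠ 0 := by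
      intro h0
      exact mne p hp0 ((map_eq_zero_iff (MvPolynomial.aeval (up F₂ y)) hy2.1).1 h0)
    have hCne : MvPolynomial.aeval (up F₂ y) (MvPolynomial.map (algebraMap K' K₂) c) ≠ 0 := by
      intro h0
      exact mne c hc0 ((map_eq_zero_iff (MvPolynomial.aeval (up F₂ y)) hy2.1).1 h0)
    rw [key, v1, hgc, map_mul, map_pow, map_mul, map_pow, Api.val_mul ν (pow_ne_zero n hPne) hCne,
      Api.val_pow ν hPne, v2, ← hm]
    ring
  refine ⟨m.toNat, by omega, ?_⟩
  intro f hf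
  rw [Int.toNat_of_nonneg (by omega)]
  have hf1 : f ∈ IntermediateField.adjoin K' (Set.range y) := by
    rw [hy.2]; exact IntermediateField.mem_top
  obtain ⟨r, s, hrs⟩ := (IntermediateField.mem_adjoin_range_iff K' y f).1 hf1
  have hr : r ≠ 0 := by
    rintro rfl
    exact hf (by rw [hrs]; simp)
  have hs : s ≠ 0 := by
    rintro rfl
    exact hf (by rw [hrs]; simp)
  have hr' : algebraMap F' F₂ (MvPolynomial.aeval y r) ≠ 0 := by
    rw [Ne, map_eq_zero]; exact ane r hr
  have hs' : algebraMap F' F₂ (MvPolynomial.aeval y s) ≠ 0 := by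
    rw [Ne, map_eq_zero]; exact ane s hs
  rw [hrs, map_div₀, Api.val_div ν hr' hs', Api.val_div μ (ane r hr) (ane s hs), main r hr, main s hs]
  ring

end XRdk

theorem pr_Rdk (hCls : StCls.{u}) (hOrd : StOrd.{u}) : StRdk.{u} := by
  intro K' F' K₂ F₂ _ _ _ _ _ _ _ _ _ _ _ _ _ y hy hy2 hfix μ hμ H
  obtain ⟨c1, c2, c3, c4, c5, c6⟩ := hCls K' F' y hy
  obtain ⟨d1, d2, d3, d4, d5, d6⟩ := hCls K₂ F₂ (up F₂ y) hy2
  apply c6 μ hμ
  rcases c1 μ hμ with ⟨h0, p, hp⟩ | ⟨h0, _⟩
  swap
  · exact Or.inl h0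
  right
  have hP0 : MvPolynomial.map (algebraMap K' K₂) p ≠ 0 := by
    intro h
    exact hp.1.ne_zero ((map_eq_zero_iff _
      (MvPolynomial.map_injective _ (algebraMap K' K₂).injective)).1 h)
  obtain ⟨q, hq, hqp⟩ := WfDvdMonoid.exists_irreducible_factor (XRdk.map_not_unit (K' := K₂) hp.1) hP0
  obtain ⟨ν, hν⟩ := (hOrd K₂ F₂ 1 (up F₂ y) hy2).1 q hq
  obtain ⟨hpl, hy0⟩ := d2 q ν hν
  obtain ⟨m, hm⟩ := XRdk.lies hy hy2 hp hν hqp
  obtain ⟨hR, hσ⟩ := H ν hpl ⟨m, hm⟩
  obtain ⟨β, hβ⟩ := hR _ hy0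
  have hK' : ∀ c : K', 0 ≤ ν (algebraMap K' F₂ c) := by
    intro c
    rw [IsScalarTower.algebraMap_apply K' K₂ F₂]
    exact hpl.2 _
  obtain ⟨β', hβ'⟩ := hfix β (by
    intro σ
    have h1 : ν (σ (up F₂ y 0 - algebraMap K₂ F₂ β)) = ν (up F₂ y 0 - algebraMap K₂ F₂ β) := by
      have := congrArg (fun w : AddValuation F₂ (WithTop ℤ) => w (up F₂ y 0 - algebraMap K₂ F₂ β)) (hσ σ)
      exact this
    have h2 : σ (up F₂ y 0) = up F₂ y 0 := by
      unfold up
      exact σ.commutes _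
    rw [map_sub, h2] at h1
    have h3 : 0 < ν (σ (algebraMap K₂ F₂ β) - algebraMap K₂ F₂ β) := by
      have e1 : σ (algebraMap K₂ F₂ β) - algebraMap K₂ F₂ β =
          (up F₂ y 0 - algebraMap K₂ F₂ β) - (up F₂ y 0 - σ (algebraMap K₂ F₂ β)) := by ring
      rw [e1]
      refine lt_of_lt_of_le ?_ (AddValuation.map_sub ν _ _)
      rw [h1, min_self]
      exact hβ
    have hint : IsIntegral K' (algebraMap K₂ F₂ β) :=
      (Algebra.IsIntegral.isIntegral (R := K') β).map (IsScalarTower.toAlgHom K' K₂ F₂)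
    have hint2 : IsIntegral K' (σ (algebraMap K₂ F₂ β)) :=
      hint.map (σ.restrictScalars K')
    exact sub_eq_zero.1 (XRdk.alg_nonpos ν hK' _ (hint2.sub hint) h3))
  refine ⟨β', ?_⟩
  by_cases hz : y 0 - algebraMap K' F' β' = 0
  · rw [hz, AddValuation.map_zero]
    exact WithTop.coe_lt_top 0
  · have h5 := hm.2 _ hz
    have h6 : algebraMap F' F₂ (y 0 - algebraMap K' F' β') = up F₂ y 0 - algebraMap K₂ F₂ β := by
      rw [map_sub, ← IsScalarTower.algebraMap_apply K' F' F₂, ← hβ', ← IsScalarTower.algebraMap_apply K' K₂ F₂]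
      rfl
    have hz' : up F₂ y 0 - algebraMap K₂ F₂ β ≠ 0 := by
      rw [← h6, Ne, map_eq_zero]; exact hz
    rw [h6] at h5
    rw [Api.coe_val ν hz', ← WithTop.coe_zero, WithTop.coe_lt_coe, h5] at hβ
    rw [Api.coe_val μ hz, ← WithTop.coe_zero, WithTop.coe_lt_coe]
    have hm0 : (0 : ℤ) < m := by exact_mod_cast hm.1
    by_contra hcon
    have := mul_nonpos_of_nonneg_of_nonpos hm0.le (not_lt.1 hcon)
    omega

end Pool.Agent.Work.MP_a2680c_ag.HA
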