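import Pool.Agent.Work.MP_a2680c_ag.HA.StmtsR

/-!
# MP_a2680c_ag, block HA, item Rdt: the main inequality
-/

set_option autoImplicit false

noncomputable section

namespace Pool.Agent.Work.MP_a2680c_ag.HA

open MP7b66e6 MP7b66e6.Q
open scoped BigOperators

universe u v

namespace XRdt

section
variable {K : Type u} [Field K] (ν : AddValuation K (WithTop ℤ))

theorem sum_nonneg {ι : Type*} (s : Finset ι) (f : ι → K) (h : ∀ i ∈ s, 0 ≤ ν (f i)) :
    0 ≤ ν (∑ i ∈ s, f i) := by
  classical
  induction s using Finset.induction_on with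
  | empty => simp
  | insert i s hi ih =>
    rw [Finset.sum_insert hi]
    refine le_trans (le_min (h i (Finset.mem_insert_self i s))
      (ih fun j hj => h j (Finset.mem_insert_of_mem hj))) (AddValuation.map_add ν _ _)

theorem prod_nonneg {ι : Type*} (s : Finset ι) (f : ι → K) (h : ∀ i ∈ s, 0 ≤ ν (f i)) :
    0 ≤ ν (∏ i ∈ s, f i) := by
  classical
  induction s using Finset.induction_on with
  | empty => simp
  | insert i s hi ih =>
    rw [Finset.prod_insert hi, AddValuation.map_mul]
    exact add_nonneg (h i (Finset.mem_insert_self i s))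
      (ih fun j hj => h j (Finset.mem_insert_of_mem hj))

theorem det_nonneg {m : Type*} [Fintype m] [DecidableEq m] (M : Matrix m m K)
    (h : ∀ i j, 0 ≤ ν (M i j)) : 0 ≤ ν M.det := by
  rw [Matrix.det_apply]
  apply sum_nonneg
  intro σ _
  have h1 : 0 ≤ ν (∏ i, M (σ i) i) := prod_nonneg ν _ _ fun i _ => h _ _
  rcases Int.units_eq_one_or (Equiv.Perm.sign σ) with h2 | h2
  · rw [h2, one_smul]; exact h1
  · rw [h2, Units.neg_smul, one_smul, AddValuation.map_neg]; exact h1

end

section
variable {k K : Type u} [Field k] [CharZero k] [Field K] [Algebra k K]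

/-- the value of a logarithmic derivative -/
theorem log_nonneg (ν : AddValuation K (WithTop ℤ)) {x y : K} (hx : x ≠ 0) (h : ν x ≤ ν y) :
    0 ≤ ν (y / x) := by
  by_cases hy : y = 0
  · rw [hy, zero_div, AddValuation.map_zero]; exact le_top
  · rw [← Api.val_nonneg ν (div_ne_zero hy hx), Api.val_div ν hy hx]
    rw [Api.coe_val ν hx, Api.coe_val ν hy, WithTop.coe_le_coe] at h
    omega

end

end XRdt

/-- Item Rdt. -/
theorem pr_Rdt (hRcr : StRcr.{u}) : StRdt.{u} := by
  intro k K _ _ _ _ e l r pd hdu hba ι I hIc hIr S t pt hS hSI hpk hp1 hp0 hne ν A hk hD hLD f hf hdet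
  classical
  -- the elements of least value
  choose s hs hsv using fun i => (Api.mnS_spec (hS i) ν).1
  choose D hDE hDl using fun i => hD (pt i (s i))
  obtain ⟨⟨δ, hδl, hδd⟩, -⟩ := hLD
  set g : Fin l → K := fun i => sgm (S i) (t i) / (s i : K) with hg
  have hs0 : ∀ i, ((s i : Kˣ) : K) ≠ 0 := fun i => (s i).ne_zero
  have hg0 : ∀ i, g i ≠ 0 := fun i => div_ne_zero (hne i) (hs0 i)
  set E : Fin e ⊕ Fin l → Derivation ℤ K K :=
    Sum.elim (fun j => (δ j).restrictScalars ℤ) D with hE
  have hEl : ∀ a x, ν x ≤ ν (E a x) := by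
    intro a x
    rcases a with j | i
    · have h := hδl j x
      have h' : ν x ≤ ν ((δ j) x) := by simpa using h
      exact h'
    · exact hDl i x
  have hEc : ∀ a c, E a (algebraMap k K (ι c)) = 0 := by
    intro a c
    rcases a with j | i
    · exact (δ j).map_algebraMap _
    · change D i _ = 0
      rw [hDE i, hpk i (s i) (hs i), map_zero]
  have hch : ∀ a x, E a (I x) = ∑ m, E a (r m) * I (pd m x) := fun a x =>
    hRcr k K e r pd hdu hba ι I hIc hIr (E a) (hEc a) x
  have hfix : ∀ i, ∀ x ∈ S i, I ((x : K) / (s i : K)) = (x : K) / (s i : K) := by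
    intro i x hx
    rw [map_div₀, hSI i x hx, hSI i (s i) (hs i)]
  set G : Fin e → Fin l → K := fun m i =>
    ∑ x ∈ S i, algebraMap k K (t i x) * I (pd m ((x : K) / (s i : K))) with hG
  have hgsum : ∀ i, g i = ∑ x ∈ S i, algebraMap k K (t i x) * ((x : K) / (s i : K)) := by
    intro i
    rw [hg]
    simp only [sgm]
    rw [Finset.sum_div]
    exact Finset.sum_congr rfl fun x _ => mul_div_assoc _ _ _
  have hEg : ∀ a i, E a (g i) = (∑ x ∈ S i, (x : K) / (s i : K) * E a (algebraMap k K (t i x))) +
      ∑ m, E a (r m) * G m i := by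
    intro a i
    rw [hgsum, map_sum]
    have h1 : ∀ x ∈ S i, E a (algebraMap k K (t i x) * ((x : K) / (s i : K))) =
        (x : K) / (s i : K) * E a (algebraMap k K (t i x)) +
          ∑ m, E a (r m) * (algebraMap k K (t i x) * I (pd m ((x : K) / (s i : K)))) := by
      intro x hx
      rw [Derivation.leibniz]
      have h2 : E a ((x : K) / (s i : K)) = ∑ m, E a (r m) * I (pd m ((x : K) / (s i : K))) := by
        conv_lhs => rw [← hfix i x hx]
        exact hch a _
      rw [h2, smul_eq_mul, smul_eq_mul, add_comm, Finset.mul_sum]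
      congr 1
      exact Finset.sum_congr rfl fun m _ => by ring
    rw [Finset.sum_congr rfl h1, Finset.sum_add_distrib, Finset.sum_comm]
    congr 1
    exact Finset.sum_congr rfl fun m _ => by rw [hG, Finset.mul_sum]
  set P : Matrix (Fin e ⊕ Fin l) (Fin e ⊕ Fin l) K :=
    Matrix.fromBlocks (Matrix.of fun j m => δ j (r m)) 0 (Matrix.of fun i m => D i (r m)) 1 with hP
  set Q : Matrix (Fin e ⊕ Fin l) (Fin e ⊕ Fin l) K :=
    Matrix.fromBlocks (Matrix.of fun m j => I (pd m (f j)) / I (f j))
      (Matrix.of fun m i => G m i / g i) 0 (Matrix.diagonal fun i => (g i)⁻¹) with hQ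
  have hIf : ∀ j, I (f j) ≠ 0 := fun j => (map_ne_zero I).2 (hf j)
  have hentry : ∀ a b, 0 ≤ ν ((P * Q) a b) := by
    intro a b
    rcases b with j | i
    · have : (P * Q) a (Sum.inl j) = E a (I (f j)) / I (f j) := by
        rw [Matrix.mul_apply, Fintype.sum_sum_type, hch a (f j), Finset.sum_div]
        rcases a with a | a <;> simp [hP, hQ, hE, mul_div_assoc]
      rw [this]
      exact XRdt.log_nonneg ν (hIf j) (hEl a _)
    · have : (P * Q) a (Sum.inr i) = E a (g i) / g i := by
        have hA : ∑ m, P a (Sum.inl m) * Q (Sum.inl m) (Sum.inr i) =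
            (∑ m, E a (r m) * G m i) / g i := by
          rw [Finset.sum_div]
          apply Finset.sum_congr rfl
          intro m _
          rcases a with a | a <;> simp [hP, hQ, hE, mul_div_assoc]
        have hB : ∑ j, P a (Sum.inr j) * Q (Sum.inr j) (Sum.inr i) =
            (∑ x ∈ S i, (x : K) / (s i : K) * E a (algebraMap k K (t i x))) / g i := by
          rcases a with a | a
          · have h2 : ∀ x ∈ S i,
                (x : K) / (s i : K) * E (Sum.inl a) (algebraMap k K (t i x)) = 0 := by
              intro x _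
              have : E (Sum.inl a) (algebraMap k K (t i x)) = 0 := (δ a).map_algebraMap _
              rw [this, mul_zero]
            rw [Finset.sum_congr rfl h2]
            simp [hP, hQ]
          · have h2 : ∀ x ∈ S i, (x : K) / (s i : K) * E (Sum.inr a) (algebraMap k K (t i x)) =
                if x = s i then (if a = i then 1 else 0) else 0 := by
              intro x hx
              have h3 : E (Sum.inr a) (algebraMap k K (t i x)) =
                  algebraMap k K (pt a (s a) (t i x)) := hDE a _
              rw [h3]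
              by_cases hx2 : x = s i
              · rw [if_pos hx2]
                by_cases ha : a = i
                · subst ha
                  rw [if_pos rfl, hx2, hp1 a (s a) (hs a), map_one, mul_one, div_self (hs0 a)]
                · rw [if_neg ha, hp0 a (s a) (hs a) i x hx (fun h => ha h.1), map_zero, mul_zero]
              · rw [if_neg hx2, hp0 a (s a) (hs a) i x hx ?_, map_zero, mul_zero]
                rintro ⟨rfl, h5⟩
                exact hx2 h5.symm
            rw [Finset.sum_congr rfl h2, Finset.sum_ite_eq' (S i) (s i), if_pos (hs i)]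
            simp [hP, hQ, Matrix.one_apply, Matrix.diagonal_apply]
            split_ifs <;> simp
        rw [Matrix.mul_apply, Fintype.sum_sum_type, hA, hB, hEg a i, add_div, add_comm]
      rw [this]
      exact XRdt.log_nonneg ν (hg0 i) (hEl a _)
  have hdetM := XRdt.det_nonneg ν (P * Q) hentry
  have hdI : Matrix.det (Matrix.of fun m j => I (pd m (f j)) / I (f j)) =
      I (Matrix.det (fun m j => pd m (f j) / f j)) := by
    rw [RingHom.map_det]
    congr 1
    funext m j
    simp
  have hIdet : I (Matrix.det (fun m j => pd m (f j) / f j)) ≠ 0 := (map_ne_zero I).2 hdet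
  have hdδ : Matrix.det (Matrix.of fun j m => δ j (r m)) ≠ 0 := by
    intro h0
    have h1 : ν (Matrix.det (Matrix.of fun j m => δ j (r m))) = (A : WithTop ℤ) := hδd
    rw [h0, AddValuation.map_zero] at h1
    exact WithTop.top_ne_coe h1
  have hdetE : (P * Q).det = Matrix.det (Matrix.of fun j m => δ j (r m)) *
      (I (Matrix.det (fun m j => pd m (f j) / f j)) * ∏ i, (g i)⁻¹) := by
    rw [Matrix.det_mul, hP, hQ, Matrix.det_fromBlocks_zero₁₂, Matrix.det_fromBlocks_zero₂₁,
      Matrix.det_one, mul_one, Matrix.det_diagonal, hdI]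
  have hpr : ∏ i, (g i)⁻¹ ≠ 0 := Finset.prod_ne_zero_iff.2 fun i _ => inv_ne_zero (hg0 i)
  have hvδ : val ν (Matrix.det (Matrix.of fun j m => δ j (r m))) = A := Api.val_of ν hδd
  rw [hdetE, ← Api.val_nonneg ν (mul_ne_zero hdδ (mul_ne_zero hIdet hpr)),
    Api.val_mul ν hdδ (mul_ne_zero hIdet hpr), Api.val_mul ν hIdet hpr,
    Api.val_prod ν _ _ (fun i _ => inv_ne_zero (hg0 i)), hvδ] at hdetM
  have hsumv : ∑ i, val ν (g i)⁻¹ = - ∑ i, (val ν (sgm (S i) (t i)) - mnS (S i) ν) := by
    rw [← Finset.sum_neg_distrib]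
    apply Finset.sum_congr rfl
    intro i _
    rw [Api.val_inv ν (hg0 i), hg, Api.val_div ν (hne i) (hs0 i), hsv i]
  rw [hsumv] at hdetM
  linarith

end Pool.Agent.Work.MP_a2680c_ag.HA
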