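import Pool.Agent.Work.MP_a2680c_ag.HA.StmtsR

/-!
# MP_a2680c_ag, block HA, item Rex: extension of derivations

Formally etale algebras: the homomorphism to the dual numbers which is given on the polynomial ring
lifts to the whole field.
-/

set_option autoImplicit false

noncomputable section

namespace Pool.Agent.Work.MP_a2680c_ag.HA

open MP7b66e6 MP7b66e6.Q
open scoped BigOperators

universe u v

namespace XRex

/-- lifting along a surjection with nilpotent kernel -/
theorem lift_etale {A B K : Type*} [CommRing A] [CommRing B] [CommRing K] [Algebra A K]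
    [Algebra.FormallyEtale A K] (φ : A →+* B) (π : B →+* K) (hπ : Function.Surjective π)
    (hk : IsNilpotent (RingHom.ker π)) (h : ∀ a, π (φ a) = algebraMap A K a) :
    ∃ ψ : K →+* B, (∀ a, ψ (algebraMap A K a) = φ a) ∧ ∀ x, π (ψ x) = x := by
  let iB : Algebra A B := φ.toAlgebra
  let π' : B →ₐ[A] K := { π with commutes' := h }
  have hk' : IsNilpotent (RingHom.ker (π' : B →+* K)) := hk
  let ψ : K →ₐ[A] B := Algebra.FormallySmooth.liftOfSurjective (AlgHom.id A K) π' hπ hk'
  refine ⟨ψ.toRingHom, fun a => ?_, fun x => ?_⟩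
  · exact ψ.commutes a
  · exact Algebra.FormallySmooth.liftOfSurjective_apply (AlgHom.id A K) π' hπ hk' x

/-- the homomorphism to the dual numbers which belongs to a derivation -/
def toDual {k K : Type u} [Field k] [Field K] [Algebra k K] (δ : Derivation ℤ k k) :
    k →+* TrivSqZeroExt K K where
  toFun a := TrivSqZeroExt.inl (algebraMap k K a) + TrivSqZeroExt.inr (algebraMap k K (δ a))
  map_one' := by
    ext <;> simp
  map_mul' a b := by
    ext
    · simp
    · simp only [Derivation.leibniz, smul_eq_mul, map_add, map_mul, TrivSqZeroExt.snd_add,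
        TrivSqZeroExt.snd_inl, TrivSqZeroExt.snd_inr, TrivSqZeroExt.snd_mul, zero_add,
        TrivSqZeroExt.fst_add, TrivSqZeroExt.fst_inl, TrivSqZeroExt.fst_inr, add_zero,
        MulOpposite.smul_eq_mul_unop, MulOpposite.unop_op]
      ring
  map_zero' := by
    ext <;> simp
  map_add' a b := by
    ext
    · simp
    · simp only [map_add, TrivSqZeroExt.snd_add, TrivSqZeroExt.snd_inl, TrivSqZeroExt.snd_inr,
        zero_add]

theorem ker_nilp (K : Type u) [Field K] :
    IsNilpotent (RingHom.ker (TrivSqZeroExt.fstHom K K K).toRingHom) := by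
  refine ⟨2, ?_⟩
  have h : (TrivSqZeroExt.kerIdeal K K) ^ 2 = ⊥ := TrivSqZeroExt.kerIdeal_sq K K
  exact h

end XRex

open scoped IntermediateField.algebraAdjoinAdjoin in
theorem pr_Rex : StRex.{u, v} := by
  intro k K _ _ _ _ γ t ht δ c
  have hK : CharZero K := charZero_of_injective_algebraMap (algebraMap k K).injective
  let A := Algebra.adjoin k (Set.range t)
  let L := IntermediateField.adjoin k (Set.range t)
  have h1 : Algebra.FormallyEtale A L := Algebra.FormallyEtale.of_isLocalization (nonZeroDivisors A)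
  have h2 : Algebra.IsAlgebraic L K := ht.isAlgebraic_field
  have h3 : Algebra.FormallyEtale L K := Algebra.FormallyEtale.of_isSeparable L K
  have h4 : Algebra.FormallyEtale A K := Algebra.FormallyEtale.comp A L K
  let ρ : k →+* TrivSqZeroExt K K := XRex.toDual δ
  let φ₀ : MvPolynomial γ k →+* TrivSqZeroExt K K :=
    MvPolynomial.eval₂Hom ρ (fun g => TrivSqZeroExt.inl (t g) + TrivSqZeroExt.inr (c g))
  let φ : A →+* TrivSqZeroExt K K := φ₀.comp (ht.1.aevalEquiv.symm : A ≃ₐ[k] MvPolynomial γ k).toRingEquiv.toRingHom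
  let π : TrivSqZeroExt K K →+* K := (TrivSqZeroExt.fstHom K K K).toRingHom
  have hπ : Function.Surjective π := fun x => ⟨TrivSqZeroExt.inl x, rfl⟩
  have h5 : ∀ P : MvPolynomial γ k, π (φ₀ P) = MvPolynomial.aeval t P := by
    intro P
    induction P using MvPolynomial.induction_on with
    | C a =>
        simp [φ₀, ρ, π, XRex.toDual]
    | add P Q hP hQ => rw [map_add, map_add, hP, hQ, map_add]
    | mul_X P g hP =>
        rw [map_mul, map_mul, hP, map_mul]
        simp [φ₀, π]
  have h6 : ∀ P : MvPolynomial γ k, φ (ht.1.aevalEquiv P) = φ₀ P := by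
    intro P
    simp [φ]
  have h7 : ∀ a : A, π (φ a) = algebraMap A K a := by
    intro a
    obtain ⟨P, rfl⟩ := ht.1.aevalEquiv.surjective a
    rw [h6, h5]
    rfl
  obtain ⟨ψ, hψ1, hψ2⟩ := XRex.lift_etale φ π hπ (XRex.ker_nilp K) h7
  have hfst : ∀ x, (ψ x).fst = x := hψ2
  let D : Derivation ℤ K K := Derivation.mk'
    ({ toFun := fun x => (ψ x).snd
       map_zero' := by rw [map_zero]; rfl
       map_add' := fun x y => by rw [map_add]; rfl } : K →+ K).toIntLinearMap (by
      intro a b
      show (ψ (a * b)).snd = a • (ψ b).snd + b • (ψ a).snd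
      rw [map_mul, TrivSqZeroExt.snd_mul, hfst, hfst]
      simp [mul_comm])
  refine ⟨D, ?_, ?_⟩
  · intro a
    show (ψ (algebraMap k K a)).snd = algebraMap k K (δ a)
    have e : algebraMap k K a = algebraMap A K (ht.1.aevalEquiv (MvPolynomial.C a)) := by
      rw [← MvPolynomial.algebraMap_eq, AlgEquiv.commutes]
      rfl
    rw [e, hψ1, h6]
    show ((MvPolynomial.eval₂Hom ρ _) (MvPolynomial.C a)).snd = _
    rw [MvPolynomial.eval₂Hom_C]
    show (TrivSqZeroExt.inl (algebraMap k K a) + TrivSqZeroExt.inr (algebraMap k K (δ a)) :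
      TrivSqZeroExt K K).snd = _
    rw [TrivSqZeroExt.snd_add, TrivSqZeroExt.snd_inl, TrivSqZeroExt.snd_inr, zero_add]
  · intro g
    show (ψ (t g)).snd = c g
    have e : t g = algebraMap A K (ht.1.aevalEquiv (MvPolynomial.X g)) := by
      show t g = ((ht.1.aevalEquiv (MvPolynomial.X g) : A) : K)
      simp
    rw [e, hψ1, h6]
    simp [φ₀]

end Pool.Agent.Work.MP_a2680c_ag.HA
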