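import Pool.Agent.Work.MP_a2680c_ag.HA.StmtsR
import Pool.Agent.Work.MP_a2680c_ag.HA.I_Lfs

/-! Item [a2680c HA Rfn] (helper4): finitely many local representations of an `ℝ`-Cartier divisor. -/

set_option autoImplicit false

noncomputable section

namespace Pool.Agent.Work.MP_a2680c_ag.HA

open MP7b66e6 MP7b66e6.Q
open scoped BigOperators

universe u

namespace XRfn

variable {k K : Type u} [Field k] [Field K] [Algebra k K]

/-- the conclusion for one chart -/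
theorem chart {Z : Set (Subalgebra k K)} {L : AddValuation K (WithTop ℤ) → ℝ}
    (hfs : ∀ s : K, s ≠ 0 → {ν : AddValuation K (WithTop ℤ) | PD Z ν ∧ val ν s ≠ 0}.Finite)
    (hdL : IsDiv Z L) (hcL : RCar Z L) (C : Subalgebra k K)
    (hCZ : ∀ p : Ideal C, ∀ hp : p.IsPrime, XLoc.loc C p hp ∈ Z) :
    ∃ (H₀ : Finset C) (ψ : C → (Kˣ →₀ ℝ)), (∀ q : Ideal C, q.IsPrime → ∃ h ∈ H₀, h ∉ q) ∧
      ∀ h ∈ H₀, ∀ (q : Ideal C) (Q : Subalgebra k K), q.IsPrime → IsLoc C q Q → h ∉ q → Rep Z L Q (ψ h) := by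
  classical
  let H : Set C := {h | ∃ φ : Kˣ →₀ ℝ, ∀ (q : Ideal C) (Q : Subalgebra k K), q.IsPrime → IsLoc C q Q → h ∉ q →
    Rep Z L Q φ}
  have hH : ∀ p : Ideal C, p.IsPrime → ∃ h ∈ H, h ∉ p := by
    intro p hp
    obtain ⟨φ, hφ⟩ := hcL _ (hCZ p hp)
    have hB : {ν : AddValuation K (WithTop ℤ) | PD Z ν ∧ L ν ≠ ev ν φ}.Finite := by
      refine (hdL.union (XLfs.fin_ev hfs φ)).subset ?_
      rintro ν ⟨h1, h2⟩
      by_cases h3 : L ν = 0
      · right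
        refine ⟨h1, fun h4 => h2 ?_⟩
        rw [h3, h4]
      · left
        exact ⟨h1, h3⟩
    have hex : ∀ ν : AddValuation K (WithTop ℤ), PD Z ν ∧ L ν ≠ ev ν φ → ∃ h : C, h ∉ p ∧
        ((∀ c ∈ C, 0 ≤ ν c) → val ν (h : K) ≠ 0) := by
      rintro ν ⟨h1, h2⟩
      by_cases hC0 : ∀ c ∈ C, 0 ≤ ν c
      · have : ∃ f ∈ XLoc.loc C p hp, ¬ 0 ≤ ν f := by
          by_contra hcon
          push Not at hcon
          exact h2 (hφ ν ⟨h1, fun f hf => hcon f hf⟩)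
        obtain ⟨f, ⟨a, s, hs, hfs⟩, hf⟩ := this
        refine ⟨s, hs, fun _ h0 => hf ?_⟩
        by_cases hf0 : f = 0
        · rw [hf0, AddValuation.map_zero]; exact le_top
        have hs0 : (s : K) ≠ 0 := XLoc.coe_ne_zero hs
        have h3 : val ν (a : K) = val ν f + val ν (s : K) := by
          rw [← hfs, Api.val_mul ν hf0 hs0]
        have ha0 : (a : K) ≠ 0 := by rw [← hfs]; exact mul_ne_zero hf0 hs0
        have h4 : 0 ≤ val ν (a : K) := (Api.val_nonneg ν ha0).2 (hC0 _ a.2)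
        rw [← Api.val_nonneg ν hf0]
        omega
      · exact ⟨1, fun h => hp.ne_top ((Ideal.eq_top_iff_one p).2 h), fun h => absurd h hC0⟩
    choose! g hg1 hg2 using hex
    refine ⟨∏ ν ∈ hB.toFinset, g ν, ⟨φ, ?_⟩, ?_⟩
    · intro q Q hq hQ hnot ν hν
      by_contra hcon
      have hmem : ν ∈ hB.toFinset := (Set.Finite.mem_toFinset hB).2 ⟨hν.1, hcon⟩
      have hCQ : C ≤ Q := XLoc.le_of_isLoc hq hQ
      have hgq : g ν ∉ q := by
        intro h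
        apply hnot
        rw [← Finset.mul_prod_erase _ _ hmem]
        exact q.mul_mem_right _ h
      have hne := hg2 ν ⟨hν.1, hcon⟩ (fun c hc => hν.2 c (hCQ hc))
      have h0 : ((g ν : C) : K) ≠ 0 := XLoc.coe_ne_zero hgq
      have h1 : 0 ≤ ν ((g ν : C) : K) := hν.2 _ (hCQ (g ν).2)
      have h2 : 0 ≤ ν ((g ν : C) : K)⁻¹ := hν.2 _ (XLoc.inv_mem hQ hgq)
      rw [← Api.val_nonneg ν h0] at h1
      rw [← Api.val_nonneg ν (inv_ne_zero h0), Api.val_inv ν h0] at h2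
      exact hne (by omega)
    · intro h
      rw [hp.prod_mem_iff] at h
      obtain ⟨ν, hν, h1⟩ := h
      exact hg1 ν ((Set.Finite.mem_toFinset hB).1 hν) h1
  have htop : Ideal.span H = ⊤ := by
    by_contra hcon
    obtain ⟨M, hM, hle⟩ := Ideal.exists_le_maximal _ hcon
    obtain ⟨h, hh, hn⟩ := hH M hM.isPrime
    exact hn (hle (Ideal.subset_span hh))
  obtain ⟨H₀, hH₀, hH₁⟩ := (Ideal.span_eq_top_iff_finite H).1 htop
  have hch : ∀ h : C, ∃ φ : Kˣ →₀ ℝ, h ∈ H → ∀ (q : Ideal C) (Q : Subalgebra k K), q.IsPrime → IsLoc C q Q → h ∉ q →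
      Rep Z L Q φ := by
    intro h
    by_cases hh : h ∈ H
    · obtain ⟨φ, hφ⟩ := hh
      exact ⟨φ, fun _ => hφ⟩
    · exact ⟨0, fun h1 => absurd h1 hh⟩
  choose ψ hψ using hch
  refine ⟨H₀, ψ, ?_, fun h hh => hψ h (hH₀ hh)⟩
  intro q hq
  by_contra hcon
  push Not at hcon
  have hle : Ideal.span (H₀ : Set C) ≤ q := Ideal.span_le.2 hcon
  rw [hH₁] at hle
  exact hq.ne_top (top_le_iff.1 hle)

theorem nonneg_adjoin (G : Finset K) (v : AddValuation K (WithTop ℤ)) (hk : ∀ c : k, 0 ≤ v (algebraMap k K c))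
    (h : ∀ c ∈ G, 0 ≤ v c) (f : K) (hf : f ∈ Algebra.adjoin k (G : Set K)) : 0 ≤ v f := by
  have hle : Algebra.adjoin k (G : Set K) ≤ Api.ring v hk := Algebra.adjoin_le fun c hc => Api.mem_ring.2 (h c hc)
  exact Api.mem_ring.1 (hle hf)

end XRfn

theorem pr_Rfn (_hLoc : StLoc.{u}) (_hPdd : StPdd.{u}) (hFsp : StFsp.{u}) (hWdl : StWdl.{u}) : StRfn.{u} := by
  classical
  intro k K _ _ _ _ e r Z L hr hZ hdL hcL
  obtain ⟨T, hTf, _, hT, hTZ⟩ := hZ.charts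
  have hA : ∀ C ∈ T, ∃ S : Set (Finset K × K × (Kˣ →₀ ℝ)), S.Finite ∧
      (∀ x ∈ S, ∀ v : AddValuation K (WithTop ℤ), Divisorial k v → (∀ c ∈ x.1, 0 ≤ v c) → v x.2.1 = 0 →
        DivOver Z v ∧ Lv Z L v = ev v x.2.2) ∧
      ∀ (q : Ideal C) (Q : Subalgebra k K) (v : AddValuation K (WithTop ℤ)), q.IsPrime → IsLoc C q Q → Cen Q v →
        ∃ x ∈ S, (∀ c ∈ x.1, 0 ≤ v c) ∧ v x.2.1 = 0 := by
    intro C hC
    obtain ⟨H₀, ψ, h1, h2⟩ := XRfn.chart (hFsp k K Z hZ).1 hdL hcL C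
      (fun p hp => (hTZ _).2 ⟨C, hC, p, hp, XLoc.isLoc_loc C p hp⟩)
    obtain ⟨G, hG⟩ := (hT C hC).1
    refine ⟨(fun h : C => (G, (h : K), ψ h)) '' (H₀ : Set C), (Finset.finite_toSet H₀).image _, ?_, ?_⟩
    · rintro _ ⟨h, hh, rfl⟩ v hv hvG hvh
      have hk : ∀ c : k, 0 ≤ v (algebraMap k K c) := by
        obtain ⟨_, C', _, hC', _⟩ := hv
        intro c
        exact hC' _ (C'.algebraMap_mem c)
      have hvC : ∀ f ∈ C, 0 ≤ v f := by
        intro f hf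
        rw [← hG] at hf
        exact XRfn.nonneg_adjoin G v hk hvG f hf
      have hp := XLoc.isPrime_pr C v hvC
      have hQZ : XLoc.loc C (XLoc.pr C v hvC) hp ∈ Z := (hTZ _).2 ⟨C, hC, _, hp, XLoc.isLoc_loc C _ hp⟩
      have hcen := XLoc.cen hvC (XLoc.isLoc_loc C _ hp)
      have hnot : h ∉ XLoc.pr C v hvC := by
        rw [XLoc.mem_pr, hvh]
        exact lt_irrefl _
      exact ⟨⟨hv, _, hQZ, hcen⟩, hWdl k K Z hZ e r hr L _ hQZ (ψ h)
        (h2 h hh _ _ hp (XLoc.isLoc_loc C _ hp) hnot) v hcen.1⟩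
    · intro q Q v hq hQ hcen
      obtain ⟨h, hh, hn⟩ := h1 q hq
      have hCQ : C ≤ Q := XLoc.le_of_isLoc hq hQ
      refine ⟨_, ⟨h, hh, rfl⟩, ?_, ?_⟩
      · intro c hc
        refine hcen.1 _ (hCQ ?_)
        rw [← hG]
        exact Algebra.subset_adjoin hc
      · have h0 : (h : K) ≠ 0 := XLoc.coe_ne_zero hn
        have h3 : 0 ≤ v (h : K) := hcen.1 _ (hCQ h.2)
        have h4 : 0 ≤ v (h : K)⁻¹ := hcen.1 _ (XLoc.inv_mem hQ hn)
        rw [← Api.val_nonneg v h0] at h3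
        rw [← Api.val_nonneg v (inv_ne_zero h0), Api.val_inv v h0] at h4
        change v (h : K) = 0
        rw [Api.coe_val v h0, show val v (h : K) = 0 by omega]
        rfl
  choose! S hS1 hS2 hS3 using hA
  have hfin : (⋃ C ∈ T, S C).Finite := Set.Finite.biUnion hTf hS1
  let E := hfin.toFinset.equivFin
  refine ⟨hfin.toFinset.card, fun i => (E.symm i).1.1, fun i => (E.symm i).1.2.1, fun i => (E.symm i).1.2.2, ?_, ?_⟩
  · rintro v ⟨hv, O, hO, hcen⟩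
    obtain ⟨C, hC, q, hq, hloc⟩ := (hTZ O).1 hO
    obtain ⟨x, hx, hx1, hx2⟩ := hS3 C hC q O v hq hloc hcen
    have hxm : x ∈ hfin.toFinset := (Set.Finite.mem_toFinset hfin).2 (Set.mem_biUnion hC hx)
    refine ⟨E ⟨x, hxm⟩, ?_⟩
    simp only [Equiv.symm_apply_apply]
    exact ⟨hx1, hx2⟩
  · intro i v hv h1 h2
    have hxm := (Set.Finite.mem_toFinset hfin).1 (E.symm i).2
    obtain ⟨C, hC, hx⟩ := Set.mem_iUnion₂.1 hxm
    exact hS2 C hC _ hx v hv h1 h2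

end Pool.Agent.Work.MP_a2680c_ag.HA
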