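import Pool.Agent.Work.MP_a2680c_ag.HA.StmtsR

/-!
# MP_a2680c_ag, block HA, item Rka: the endomorphism of `k`
-/

set_option autoImplicit false

noncomputable section

namespace Pool.Agent.Work.MP_a2680c_ag.HA

open MP7b66e6 MP7b66e6.Q
open scoped BigOperators

universe u v

namespace XRka

/-- extension of a homomorphism to an algebraic extension, with values in an algebraically closed field -/
theorem extHom (R S M : Type u) [CommRing R] [IsDomain R] [Field S] [Field M] [IsAlgClosed M] (f : R →+* S)
    (g : R →+* M) (hf : Function.Injective f) (hg : Function.Injective g)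
    (halg : ∀ s : S, ∃ p : Polynomial R, p ≠ 0 ∧ p.eval₂ f s = 0) :
    ∃ φ : S →+* M, ∀ r, φ (f r) = g r := by
  let : Algebra R S := f.toAlgebra
  let : Algebra R M := g.toAlgebra
  have : FaithfulSMul R S := (faithfulSMul_iff_algebraMap_injective R S).mpr hf
  have : FaithfulSMul R M := (faithfulSMul_iff_algebraMap_injective R M).mpr hg
  have : Algebra.IsAlgebraic R S := ⟨fun s => by
    obtain ⟨p, hp, h0⟩ := halg s
    exact ⟨p, hp, h0⟩⟩
  let φ : S →ₐ[R] M := IsAlgClosed.lift
  exact ⟨φ.toRingHom, fun r => φ.commutes r⟩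

/-- the derivative of a polynomial expression -/
theorem der_eval (R k : Type u) [CommRing R] [Field k] (ι : k →+* k) (D : Derivation ℤ k k) (f : R →+* k)
    (h0 : ∀ r : R, D (ι (f r)) = 0) (c : k) (p : Polynomial R) :
    D (ι (p.eval₂ f c)) = ι (p.derivative.eval₂ f c) * D (ι c) := by
  induction p using Polynomial.induction_on' with
  | add p q hp hq =>
    rw [Polynomial.eval₂_add, map_add, map_add, hp, hq, Polynomial.derivative_add, Polynomial.eval₂_add, map_add, add_mul]
  | monomial n a =>
    rw [Polynomial.eval₂_monomial, map_mul, map_pow, Derivation.leibniz, h0, smul_zero, add_zero,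
      Derivation.leibniz_pow, Polynomial.derivative_monomial, Polynomial.eval₂_monomial]
    simp only [map_mul, map_pow, map_natCast, smul_eq_mul, nsmul_eq_mul]
    ring

/-- a derivation which kills the image of `R` kills everything algebraic over it -/
theorem kill (R k : Type u) [CommRing R] [IsDomain R] [CharZero R] [Field k] (ι : k →+* k) (D : Derivation ℤ k k)
    (f : R →+* k) (hf : Function.Injective f) (h0 : ∀ r : R, D (ι (f r)) = 0) (c : k) :
    ∀ n : ℕ, ∀ p : Polynomial R, p.natDegree ≤ n → p ≠ 0 → p.eval₂ f c = 0 → D (ι c) = 0 := by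
  intro n
  induction n with
  | zero =>
    intro p hp hne hev
    exfalso
    have h1 : p = Polynomial.C (p.coeff 0) := Polynomial.eq_C_of_natDegree_le_zero hp
    rw [h1, Polynomial.eval₂_C] at hev
    have h2 : p.coeff 0 = 0 := hf (by rw [hev, map_zero])
    rw [h2, Polynomial.C_0] at h1
    exact hne h1
  | succ n ih =>
    intro p hp hne hev
    have h1 := der_eval R k ι D f h0 c p
    rw [hev, map_zero, map_zero] at h1
    rcases mul_eq_zero.mp h1.symm with h2 | h2
    · have h2' : p.derivative.eval₂ f c = 0 := by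
        apply ι.injective
        rw [h2, map_zero]
      by_cases hd : p.natDegree = 0
      · exact ih p (by omega) hne hev
      · apply ih (Polynomial.derivative p) _ _ h2'
        · have := Polynomial.natDegree_derivative_lt hd
          omega
        · intro h3
          exact hd (Polynomial.derivative_eq_zero.mp h3)
    · exact h2

/-- a set which contains a finite set and a basis over its field has at least `trdeg` elements -/
theorem infinite_basis (k : Type u) [Field k] [CharZero k] (hinf : Cardinal.aleph0 ≤ Algebra.trdeg ℚ k) (B : Finset k)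
    (s : Set k) (hs : IsTranscendenceBasis (IntermediateField.adjoin ℚ (B : Set k)) ((↑) : s → k)) : s.Infinite := by
  by_contra hfin
  rw [Set.not_infinite] at hfin
  have halg := hs.isAlgebraic
  rw [Subtype.range_coe] at halg
  set F₁ := IntermediateField.adjoin ℚ ((B : Set k) ∪ s) with hF₁
  have hk₀ : ∀ c : IntermediateField.adjoin ℚ (B : Set k), (c : k) ∈ F₁ := by
    intro c
    exact IntermediateField.adjoin.mono ℚ _ _ Set.subset_union_left c.2
  have hsub : ∀ c : Algebra.adjoin (IntermediateField.adjoin ℚ (B : Set k)) s, (c : k) ∈ F₁ := by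
    rintro ⟨c, hc⟩
    show c ∈ F₁
    induction hc using Algebra.adjoin_induction with
    | mem x hx => exact IntermediateField.subset_adjoin ℚ _ (Or.inr hx)
    | algebraMap r => exact hk₀ r
    | add x y _ _ hx hy => exact add_mem hx hy
    | mul x y _ _ hx hy => exact mul_mem hx hy
  let inc : Algebra.adjoin (IntermediateField.adjoin ℚ (B : Set k)) s →+* F₁ :=
    { toFun := fun c => ⟨(c : k), hsub c⟩
      map_one' := rfl
      map_mul' := fun _ _ => rfl
      map_zero' := rfl
      map_add' := fun _ _ => rfl }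
  have hinc : Function.Injective inc := by
    intro a b hab
    apply Subtype.ext
    exact congrArg (fun z : F₁ => (z : k)) hab
  have halg1 : Algebra.IsAlgebraic F₁ k := by
    refine ⟨fun c => ?_⟩
    obtain ⟨p, hp, h0⟩ := halg.isAlgebraic c
    refine ⟨p.map inc, (Polynomial.map_ne_zero_iff hinc).mpr hp, ?_⟩
    rw [Polynomial.aeval_def, Polynomial.eval₂_map]
    exact h0
  have halg2 : Algebra.IsAlgebraic (Algebra.adjoin ℚ ((B : Set k) ∪ s)) k :=
    IntermediateField.isAlgebraic_adjoin_iff_top.mp halg1
  have h1 := Algebra.IsAlgebraic.trdeg_le_cardinalMk ℚ ((B : Set k) ∪ s)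
  have h2 : Cardinal.mk ((B : Set k) ∪ s : Set k) < Cardinal.aleph0 :=
    Cardinal.lt_aleph0_iff_set_finite.mpr (B.finite_toSet.union hfin)
  exact absurd (hinf.trans h1) (not_le.mpr h2)

/-- elements algebraic over the polynomials in a transcendence basis -/
theorem algPoly (k₀ k : Type u) [Field k₀] [Field k] [Algebra k₀ k] (γ : Type u) (x : γ → k)
    (hx : IsTranscendenceBasis k₀ x) (c : k) :
    ∃ p : Polynomial (MvPolynomial γ k₀), p ≠ 0 ∧ p.eval₂ (MvPolynomial.aeval x).toRingHom c = 0 := by
  obtain ⟨p, hp, h0⟩ := hx.isAlgebraic.isAlgebraic c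
  refine ⟨p.map hx.1.repr.toRingHom, (Polynomial.map_ne_zero_iff ?_).mpr hp, ?_⟩
  · exact hx.1.aevalEquiv.symm.injective
  · rw [Polynomial.eval₂_map]
    have h1 : (MvPolynomial.aeval x).toRingHom.comp hx.1.repr.toRingHom =
        algebraMap (Algebra.adjoin k₀ (Set.range x)) k := by
      ext a
      exact hx.1.aeval_repr a
    rw [h1]
    exact h0

/-- a derivation which kills the ground field and the `x_b` kills the polynomials -/
theorem killPoly (k₀ k : Type u) [Field k₀] [Field k] [Algebra k₀ k] (γ : Type u) (x : γ → k)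
    (D : Derivation ℤ k k) (h0 : ∀ c : k₀, D (algebraMap k₀ k c) = 0) (h1 : ∀ b, D (x b) = 0)
    (P : MvPolynomial γ k₀) : D (MvPolynomial.aeval x P) = 0 := by
  induction P using MvPolynomial.induction_on with
  | C a => rw [MvPolynomial.aeval_C, h0]
  | add p q hp hq => rw [map_add, map_add, hp, hq, add_zero]
  | mul_X p b hp => rw [map_mul, MvPolynomial.aeval_X, Derivation.leibniz, hp, h1, smul_zero, smul_zero, add_zero]

end XRka

open Classical in
theorem pr_Rka (hRex : StRex.{u, u}) : StRka.{u} := by
  intro k _ _ _ hinf B N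
  obtain ⟨s, hs⟩ := exists_isTranscendenceBasis (IntermediateField.adjoin ℚ (B : Set k)) k
  have hsinf : s.Infinite := XRka.infinite_basis k hinf B s hs
  have : Infinite s := hsinf.to_subtype
  have hcard : Cardinal.mk (s ⊕ Fin N) = Cardinal.mk s := by
    rw [Cardinal.mk_sum, Cardinal.mk_fin, Cardinal.lift_natCast, Cardinal.lift_uzero]
    exact Cardinal.add_eq_left (Cardinal.aleph0_le_mk s) ((Cardinal.natCast_le_aleph0).trans (Cardinal.aleph0_le_mk s))
  obtain ⟨e⟩ := Cardinal.eq.mp hcard
  have hz : IsTranscendenceBasis (IntermediateField.adjoin ℚ (B : Set k)) (((↑) : s → k) ∘ e) :=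
    (isTranscendenceBasis_equiv e).mpr hs
  have hx' : AlgebraicIndependent (IntermediateField.adjoin ℚ (B : Set k)) (fun b : s => (e (Sum.inl b) : k)) :=
    hz.1.comp (Sum.inl : s → s ⊕ Fin N) Sum.inl_injective
  obtain ⟨ι, hι⟩ := XRka.extHom (MvPolynomial s (IntermediateField.adjoin ℚ (B : Set k))) k k
    (MvPolynomial.aeval ((↑) : s → k)).toRingHom (MvPolynomial.aeval (fun b : s => (e (Sum.inl b) : k))).toRingHom
    (algebraicIndependent_iff_injective_aeval.1 hs.1) (algebraicIndependent_iff_injective_aeval.1 hx')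
    (fun c => XRka.algPoly _ k s _ hs c)
  have hD : ∀ i : Fin N, ∃ D : Derivation ℤ k k,
      Ext (0 : Derivation ℤ (IntermediateField.adjoin ℚ (B : Set k)) (IntermediateField.adjoin ℚ (B : Set k))) D ∧
      ∀ g, D (((↑) : s → k) (e g)) = (Pi.single (Sum.inr i) 1 : s ⊕ Fin N → k) g :=
    fun i => hRex _ k (s ⊕ Fin N) _ hz 0 _
  choose pt hext hpt using hD
  refine ⟨ι, fun j => (e (Sum.inr j) : k), pt, ?_, ?_, ?_⟩
  · intro b hb
    have hbk : b ∈ IntermediateField.adjoin ℚ (B : Set k) := IntermediateField.subset_adjoin ℚ _ hb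
    have h1 := hι (MvPolynomial.C ⟨b, hbk⟩)
    have h2 : (MvPolynomial.aeval ((↑) : s → k)).toRingHom
        (MvPolynomial.C (⟨b, hbk⟩ : IntermediateField.adjoin ℚ (B : Set k))) = b :=
      MvPolynomial.aeval_C _ _
    have h3 : (MvPolynomial.aeval (fun b : s => (e (Sum.inl b) : k))).toRingHom
        (MvPolynomial.C (⟨b, hbk⟩ : IntermediateField.adjoin ℚ (B : Set k))) = b :=
      MvPolynomial.aeval_C _ _
    rw [h2, h3] at h1
    exact h1
  · intro i c
    obtain ⟨p, hp, h0⟩ := XRka.algPoly _ k s _ hs c
    refine XRka.kill (MvPolynomial s (IntermediateField.adjoin ℚ (B : Set k))) k ι (pt i) _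
      (algebraicIndependent_iff_injective_aeval.1 hs.1) ?_ c p.natDegree p le_rfl hp h0
    intro P
    have h1 := hι P
    rw [show (ι ((MvPolynomial.aeval ((↑) : s → k)).toRingHom P)) =
      MvPolynomial.aeval (fun b : s => (e (Sum.inl b) : k)) P from h1]
    apply XRka.killPoly
    · intro a
      rw [hext i a]
      simp
    · intro b
      have h2 := hpt i (Sum.inl b)
      rw [Pi.single_eq_of_ne (by simp)] at h2
      exact h2
  · intro i j
    rw [hpt i (Sum.inr j), Pi.single_apply]
    simp only [Sum.inr.injEq, eq_comm]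

end Pool.Agent.Work.MP_a2680c_ag.HA
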