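import Pool.Agent.Work.MP_a2680c_ag.HA.StmtsR

/-!
# MP_a2680c_ag, block HA, item Rkb: an endomorphism of `k` which fixes finitely many elements extends to `K`
-/

set_option autoImplicit false

noncomputable section

namespace Pool.Agent.Work.MP_a2680c_ag.HA

open MP7b66e6 MP7b66e6.Q
open scoped BigOperators

universe u

namespace XRkb

/-- a projection onto the subfield `i(F)` followed by `i⁻¹` -/
theorem exists_rho {F E : Type u} [Field F] [Field E] (i : F →+* E) :
    ∃ ρ : E →+ F, (∀ c d, ρ (i c * d) = c * ρ d) ∧ ρ 1 = 1 := by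
  letI : Algebra F E := i.toAlgebra
  obtain ⟨g, hg⟩ := LinearMap.exists_leftInverse_of_injective (Algebra.linearMap F E)
    (LinearMap.ker_eq_bot.mpr (algebraMap F E).injective)
  refine ⟨g.toAddMonoidHom, fun c d => ?_, ?_⟩
  · have h : i c * d = c • d := (Algebra.smul_def c d).symm
    rw [h]
    simp only [LinearMap.toAddMonoidHom_coe, map_smul, smul_eq_mul]
  · have h := congrArg (fun f => f (1 : F)) hg
    simpa using h

/-- apply `ρ` to the coefficients -/
def rb {F E : Type u} [Field F] [Field E] (ρ : E →+ F) {σ : Type u} (P : MvPolynomial σ E) : MvPolynomial σ F :=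
  ∑ m ∈ P.support, MvPolynomial.monomial m (ρ (P.coeff m))

theorem coeff_rb {F E : Type u} [Field F] [Field E] (ρ : E →+ F) {σ : Type u} (P : MvPolynomial σ E) (m : σ →₀ ℕ) :
    (rb ρ P).coeff m = ρ (P.coeff m) := by
  classical
  unfold rb
  rw [MvPolynomial.coeff_sum]
  simp only [MvPolynomial.coeff_monomial]
  rw [Finset.sum_ite_eq']
  split_ifs with h
  · rfl
  · rw [MvPolynomial.notMem_support_iff.mp h, map_zero]

theorem rb_map_mul {F E : Type u} [Field F] [Field E] (i : F →+* E) (ρ : E →+ F)
    (hρ : ∀ c d, ρ (i c * d) = c * ρ d) {σ : Type u} (P : MvPolynomial σ F) (Q : MvPolynomial σ E) :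
    rb ρ (MvPolynomial.map i P * Q) = P * rb ρ Q := by
  classical
  ext m
  rw [coeff_rb, MvPolynomial.coeff_mul, MvPolynomial.coeff_mul, map_sum]
  refine Finset.sum_congr rfl fun x _ => ?_
  rw [MvPolynomial.coeff_map, hρ, coeff_rb]

theorem rb_add {F E : Type u} [Field F] [Field E] (ρ : E →+ F) {σ : Type u} (P Q : MvPolynomial σ E) :
    rb ρ (P + Q) = rb ρ P + rb ρ Q := by
  ext m
  simp only [coeff_rb, MvPolynomial.coeff_add, map_add]

theorem rb_zero {F E : Type u} [Field F] [Field E] (ρ : E →+ F) {σ : Type u} :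
    rb ρ (0 : MvPolynomial σ E) = 0 := by
  ext m
  simp only [coeff_rb, MvPolynomial.coeff_zero, map_zero]

theorem rb_one {F E : Type u} [Field F] [Field E] (i : F →+* E) (ρ : E →+ F)
    (hρ : ∀ c d, ρ (i c * d) = c * ρ d) (h1 : ρ 1 = 1) {σ : Type u} (P : MvPolynomial σ F) :
    rb ρ (MvPolynomial.map i P) = P := by
  classical
  ext m
  rw [coeff_rb, MvPolynomial.coeff_map, ← mul_one (i _), hρ, h1, mul_one]

/-- descent of the ideal membership -/
theorem mem_of_map_mem {k : Type u} [Field k] (ι : k →+* k) {σ : Type u} (S : Set (MvPolynomial σ k))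
    (hS : ∀ p ∈ S, MvPolynomial.map ι p = p) (P : MvPolynomial σ k)
    (hP : MvPolynomial.map ι P ∈ Ideal.span S) : P ∈ Ideal.span S := by
  obtain ⟨ρ, hρ, h1⟩ := exists_rho ι
  have key : ∀ Q ∈ Ideal.span S, ∀ a, rb ρ (a * Q) ∈ Ideal.span S := by
    intro Q hQ
    refine Submodule.span_induction (p := fun Q _ => ∀ a, rb ρ (a * Q) ∈ Ideal.span S) ?_ ?_ ?_ ?_ hQ
    · intro p hp a
      have h : a * p = MvPolynomial.map ι p * a := by rw [hS p hp, mul_comm]
      rw [h, rb_map_mul ι ρ hρ]
      exact Ideal.mul_mem_right _ _ (Ideal.subset_span hp)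
    · intro a
      rw [mul_zero, rb_zero]
      exact Submodule.zero_mem _
    · intro x y _ _ hx hy a
      rw [mul_add, rb_add]
      exact Submodule.add_mem _ (hx a) (hy a)
    · intro b x _ hx a
      rw [smul_eq_mul, ← mul_assoc]
      exact hx (a * b)
  have h := key _ hP 1
  rwa [one_mul, rb_one ι ρ hρ h1] at h

end XRkb

open XRkb

theorem pr_Rkb : StRkb.{u} := by
  classical
  intro k K _ _ _ hK A
  obtain ⟨S, hS⟩ := IntermediateField.fg_top_iff.mpr hK
  set T : Finset K := S ∪ A with hT
  -- the polynomial ring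
  let y : {x // x ∈ T} → K := fun x => x
  let R := MvPolynomial {x // x ∈ T} k
  let ev : R →ₐ[k] K := MvPolynomial.aeval y
  obtain ⟨G, hG⟩ := (inferInstance : IsNoetherianRing R).noetherian (RingHom.ker ev)
  refine ⟨G.biUnion fun p => p.coeffs, fun ι hι => ?_⟩
  have hfix : ∀ p ∈ (G : Set R), MvPolynomial.map ι p = p := by
    intro p hp
    ext m
    rw [MvPolynomial.coeff_map]
    by_cases hm : p.coeff m = 0
    · rw [hm, map_zero]
    · exact hι _ (Finset.mem_biUnion.mpr ⟨p, hp, MvPolynomial.coeff_mem_coeffs m hm⟩)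
  let φ : R →+* K := (ev : R →+* K).comp (MvPolynomial.map ι)
  -- the kernels
  have hG' : Ideal.span (G : Set R) = RingHom.ker ev := hG
  have hle : RingHom.ker ev ≤ RingHom.ker φ := by
    rw [← hG', Ideal.span_le]
    intro p hp
    have h : p ∈ RingHom.ker ev := by rw [← hG']; exact Ideal.subset_span hp
    change ev (MvPolynomial.map ι p) = 0
    rw [hfix p hp]
    exact h
  have hge : RingHom.ker φ ≤ RingHom.ker ev := by
    intro P hP
    have h : MvPolynomial.map ι P ∈ RingHom.ker ev := hP
    rw [← hG'] at h ⊢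
    exact mem_of_map_mem ι _ hfix P h
  -- the subalgebra
  let C : Subalgebra k K := ev.range
  let f : R →+* C := ev.rangeRestrict
  have hf : Function.Surjective f := ev.rangeRestrict_surjective
  have hkf : RingHom.ker f = RingHom.ker ev := by
    ext P
    constructor
    · intro h
      have h2 : ev.rangeRestrict P = 0 := h
      have h3 := congrArg (fun z : C => (z : K)) h2
      exact h3
    · intro h
      have h2 : ev P = 0 := h
      exact Subtype.ext h2
  let g : C →+* K := f.liftOfSurjective hf ⟨φ, by rw [hkf]; exact hle⟩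
  have hgf : ∀ P, g (f P) = φ P := fun P => f.liftOfSurjective_comp_apply hf _ P
  have hg : Function.Injective g := by
    rw [injective_iff_map_eq_zero]
    intro z hz
    obtain ⟨P, rfl⟩ := hf z
    rw [hgf] at hz
    have h : P ∈ RingHom.ker f := by rw [hkf]; exact hge hz
    exact h
  have hC : C = Algebra.adjoin k (T : Set K) := by
    have h := Algebra.adjoin_range_eq_range_aeval k y
    have h2 : Set.range y = (T : Set K) := by
      ext z
      constructor
      · rintro ⟨w, rfl⟩
        exact w.2
      · intro hz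
        exact ⟨⟨z, hz⟩, rfl⟩
    rw [h2] at h
    exact h.symm
  have htop : IntermediateField.adjoin k (T : Set K) = ⊤ := by
    rw [eq_top_iff, ← hS]
    apply IntermediateField.adjoin.mono
    intro z hz
    exact Finset.mem_union_left _ hz
  haveI : IsFractionRing C K := by
    apply IsFractionRing.of_field
    intro z
    have hz : z ∈ IntermediateField.adjoin k (T : Set K) := by rw [htop]; trivial
    obtain ⟨r, hr, s, hs, h⟩ := IntermediateField.mem_adjoin_iff_div.mp hz
    rw [← hC] at hr hs
    exact ⟨⟨r, hr⟩, ⟨s, hs⟩, h⟩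
  refine ⟨IsFractionRing.lift hg, fun c => ?_, fun a ha => ?_⟩
  · have h1 : algebraMap k K c = algebraMap C K (f (MvPolynomial.C c)) := by
      change _ = ev (MvPolynomial.C c)
      exact (MvPolynomial.aeval_C y c).symm
    rw [h1, IsFractionRing.lift_algebraMap, hgf]
    change ev (MvPolynomial.map ι (MvPolynomial.C c)) = _
    rw [MvPolynomial.map_C]
    exact MvPolynomial.aeval_C y (ι c)
  · have haT : a ∈ T := Finset.mem_union_right _ ha
    have h1 : a = algebraMap C K (f (MvPolynomial.X ⟨a, haT⟩)) := by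
      change _ = ev (MvPolynomial.X ⟨a, haT⟩)
      exact (MvPolynomial.aeval_X y ⟨a, haT⟩).symm
    have h2 : IsFractionRing.lift hg (algebraMap C K (f (MvPolynomial.X ⟨a, haT⟩))) = a := by
      rw [IsFractionRing.lift_algebraMap, hgf]
      change ev (MvPolynomial.map ι (MvPolynomial.X ⟨a, haT⟩)) = _
      rw [MvPolynomial.map_X]
      exact MvPolynomial.aeval_X y ⟨a, haT⟩
    exact (congrArg (IsFractionRing.lift hg) h1).trans h2

end Pool.Agent.Work.MP_a2680c_ag.HA
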