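import Pool.Agent.Work.MP_a2680c_ag.HA.StmtsR

/-!
# MP_a2680c_ag, block HA, item Rky: a valuation with bounded log discrepancy is trivial or a multiple of a divisor
-/

set_option autoImplicit false

noncomputable section

namespace Pool.Agent.Work.MP_a2680c_ag.HA

open MP7b66e6 MP7b66e6.Q
open scoped BigOperators

universe u

namespace XRky

variable {k K : Type u} [Field k] [Field K] [Algebra k K]

lemma exists_int (ν : AddValuation K (WithTop ℤ)) {f : K} (hf : f ≠ 0) :
    ∃ m : ℤ, ν f = (m : WithTop ℤ) := by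
  obtain ⟨m, hm⟩ := WithTop.ne_top_iff_exists.1 (fun h => hf (ν.top_iff.1 h))
  exact ⟨m, hm.symm⟩

lemma val_coe {ν : AddValuation K (WithTop ℤ)} {f : K} {m : ℤ} (h : ν f = (m : WithTop ℤ)) :
    val ν f = m := by
  unfold val
  rw [h]
  rfl

lemma val_zero (ν : AddValuation K (WithTop ℤ)) : val ν (0 : K) = 0 := by
  unfold val
  rw [ν.map_zero]
  rfl

lemma coe_val (ν : AddValuation K (WithTop ℤ)) {f : K} (hf : f ≠ 0) :
    ν f = (val ν f : WithTop ℤ) := by
  obtain ⟨m, hm⟩ := exists_int ν hf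
  rw [val_coe hm, hm]

lemma det_x {d : ℕ} (x : Fin d → K) (pd : Fin d → Derivation k K K)
    (hpd : ∀ i j, pd i (x j) = if i = j then 1 else 0) :
    Matrix.det (fun m j => pd m (x j) / x j) = ∏ j, (x j)⁻¹ := by
  have h : (fun m j => pd m (x j) / x j) = Matrix.diagonal (fun j => (x j)⁻¹) := by
    ext m j
    rw [hpd, Matrix.diagonal_apply]
    split_ifs with h
    · subst h
      rw [one_div]
    · rw [zero_div]
  rw [h, Matrix.det_diagonal]

lemma x_ne {d : ℕ} (x : Fin d → K) (pd : Fin d → Derivation k K K)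
    (hpd : ∀ i j, pd i (x j) = if i = j then 1 else 0) (j : Fin d) : x j ≠ 0 := by
  intro h
  have h1 := hpd j j
  rw [h, (pd j).map_zero, if_pos rfl] at h1
  exact one_ne_zero h1.symm

lemma trdeg_eq {e : ℕ} {r : Fin e → K} (hr : IsTranscendenceBasis k r) :
    Algebra.trdeg k K = (e : Cardinal) := by
  have h := hr.lift_cardinalMk_eq_trdeg
  simpa using h.symm

/-- a valuation which is nonnegative on the ground field is zero on its nonzero elements -/
lemma zero_on (μ : AddValuation K (WithTop ℤ)) (h : ∀ c : k, 0 ≤ μ (algebraMap k K c)) (c : k)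
    (hc : c ≠ 0) : μ (algebraMap k K c) = 0 := by
  have hne : algebraMap k K c ≠ 0 := by
    rw [Ne, map_eq_zero]
    exact hc
  have h1 := h c
  have h2 := h c⁻¹
  rw [map_inv₀, Api.coe_val μ (inv_ne_zero hne), Api.val_inv μ hne] at h2
  rw [Api.coe_val μ hne] at h1 ⊢
  have h3 : (0 : ℤ) ≤ val μ (algebraMap k K c) := by exact_mod_cast h1
  have h4 : (0 : ℤ) ≤ -val μ (algebraMap k K c) := by exact_mod_cast h2
  have h5 : val μ (algebraMap k K c) = 0 := by omega
  rw [h5]
  rfl

end XRky

open XRky in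
theorem pr_Rky (hNOR : MgNOR.{u}) (hBAS : NgBAS.{u, u}) (hDVL : NgDVL.{u, u}) (hCan : StCan.{u}) :
    StRky.{u} := by
  intro k K _ _ _ _ _ e r pd hd hr μ hμ T hT
  obtain ⟨hpd, huniq⟩ := hd
  have hμk := zero_on μ hμ
  by_cases hex : ∃ f : K, f ≠ 0 ∧ μ f ≠ 0
  · right
    obtain ⟨m, w, hm, hπ, hw⟩ := hNOR K μ hex
    have hval : ∀ f : K, val μ f = m * val w f := by
      intro f
      by_cases hf : f = 0
      · rw [hf, val_zero, val_zero, mul_zero]
      · exact val_coe (((hw f (val w f)).1).1 (coe_val w hf))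
    have hB : ∀ f : Fin e → K, (∀ j, f j ≠ 0) → Matrix.det (fun m j => pd m (f j) / f j) ≠ 0 →
        -(T / m) ≤ val w (Matrix.det (fun m j => pd m (f j) / f j)) := by
      intro f hf hd
      have h6 := hT f hf hd
      rw [hval] at h6
      have h8 : -val w (Matrix.det (fun m j => pd m (f j) / f j)) ≤ T / m := by
        rw [Int.le_ediv_iff_mul_le hm]
        nlinarith
      linarith
    obtain ⟨f, δ, hf, hδf, hlogδ, a, hac, ha⟩ := hBAS k K e r pd hpd huniq w _ hB
    have hwk : ∀ c : k, c ≠ 0 → w (algebraMap k K c) = 0 := by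
      intro c hc
      have h1 := (hw (algebraMap k K c) 0).1.2 (by rw [hμk c hc, mul_zero]; rfl)
      rw [h1]
      rfl
    have hdiv : Divisorial k w := hDVL k K e (trdeg_eq hr) w hwk hπ f δ hf hδf hlogδ
    obtain ⟨A, hA⟩ := (hCan k K e r w).2 pd ⟨hpd, huniq⟩ hdiv
    have hAa : A ≤ a := by
      have h1 := hA.2 δ hlogδ
      rw [ha] at h1
      exact_mod_cast h1
    have h3 : ((m.toNat : ℕ) : ℤ) = m := Int.toNat_of_nonneg hm.le
    refine ⟨w, m.toNat, A, by omega, hdiv, ?_, hA, ?_⟩
    · intro f _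
      rw [h3]
      exact hval f
    · rw [h3]
      have h1 : m * (T / m) ≤ T := Int.mul_ediv_self_le hm.ne'
      have h2 : m * A ≤ m * (T / m) := mul_le_mul_of_nonneg_left (hAa.trans hac) hm.le
      linarith
  · left
    have hz : ∀ f : K, val μ f = 0 := by
      intro f
      by_cases hf : f = 0
      · rw [hf, val_zero]
      · have h1 : μ f = 0 := by
          by_contra h
          exact hex ⟨f, hf, h⟩
        exact val_coe (m := 0) (by rw [h1]; rfl)
    refine ⟨fun f _ => hz f, ?_⟩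
    have h6 := hT r (x_ne r pd hpd) (by
      rw [det_x r pd hpd]
      exact Finset.prod_ne_zero_iff.2 (fun j _ => inv_ne_zero (x_ne r pd hpd j)))
    rw [hz] at h6
    linarith

end Pool.Agent.Work.MP_a2680c_ag.HA
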