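import Pool.Agent.Work.MP_a2680c_ag.HA.StmtsR
import Pool.Agent.Work.MP_7b66e6_ag.N.I_DVL
import Pool.Agent.Work.MP_7b66e6_ag.N.I_ALG

/-!
# MP_a2680c_ag, block HA, item Rlb: a uniformizer and units
-/

set_option autoImplicit false

noncomputable section

namespace Pool.Agent.Work.MP_a2680c_ag.HA

open MP7b66e6 MP7b66e6.Q
open scoped BigOperators

universe u

namespace XRlb

variable {k K : Type u} [Field k] [Field K] [Algebra k K]

theorem const_zero {ν : AddValuation K (WithTop ℤ)} (hν : Divisorial k ν) :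
    ∀ c : k, c ≠ 0 → ν (algebraMap k K c) = 0 := by
  intro c hc
  obtain ⟨-, C, -, h0, -⟩ := hν
  have h1 : ∀ c : k, 0 ≤ ν (algebraMap k K c) := fun c => h0 _ (C.algebraMap_mem c)
  have h2 := h1 c
  have h3 := h1 c⁻¹
  have h4 : ν (algebraMap k K c) + ν (algebraMap k K c⁻¹) = 0 := by
    rw [← AddValuation.map_mul, ← map_mul, mul_inv_cancel₀ hc, map_one, AddValuation.map_one]
  refine le_antisymm ?_ h2
  calc ν (algebraMap k K c) = ν (algebraMap k K c) + 0 := (add_zero _).symm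
    _ ≤ ν (algebraMap k K c) + ν (algebraMap k K c⁻¹) := by gcongr
    _ = 0 := h4

theorem exists_basis (k K : Type u) [Field k] [CharZero k] [Field K] [Algebra k K]
    [Algebra.EssFiniteType k K] : ∃ (e : ℕ) (r : Fin e → K), IsTranscendenceBasis k r := by
  obtain ⟨s, hs, -⟩ := exists_isTranscendenceBasis_and_isSeparable_of_perfectField (k := k) (K := K)
  exact ⟨s.card, _, hs.comp_equiv s.equivFin.symm⟩

end XRlb

open XRlb in
theorem pr_Rlb (hTb : StTb.{u}) (hCan : StCan.{u}) (hLbs : StLbs.{u}) (hRES : MgRES.{u,u})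
    (hALG : NgALG.{u,u}) (hTRB : NgTRB.{u,u}) : StRlb.{u} := by
  intro k K _ _ _ _ _ ν hν
  obtain ⟨e, r, hr⟩ := exists_basis k K
  obtain ⟨⟨pd, hpd⟩, htr⟩ := hTb k K e r hr
  obtain ⟨A, hA⟩ := (hCan k K e r ν).2 pd hpd hν
  obtain ⟨f, δ, hf, hδf, hδ, -⟩ := hLbs k K e r pd hpd ν A hA
  have hk := const_zero hν
  obtain ⟨t, δ', i₀, h1, h2, h3, h4⟩ := hTRB k K e htr ν hk hν.1 f δ hf hδf hδ
  have ht0 : ∀ j, t j ≠ 0 := by
    intro j hj
    by_cases hji : j = i₀
    · rw [← hji, hj, ν.map_zero] at h3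
      exact WithTop.top_ne_one h3
    · have h5 := h4 j hji
      rw [hj, ν.map_zero] at h5
      exact WithTop.top_ne_zero h5
  have htn : ∀ j, 0 ≤ ν (t j) := by
    intro j
    by_cases hji : j = i₀
    · rw [hji, h3]
      exact zero_le_one
    · rw [h4 j hji]
  have hind : AlgebraicIndependent k t := MP7b66e6.Q.ALGn.algInd t δ' ht0 h1
  have hb : IsTranscendenceBasis k t := by
    apply hind.isTranscendenceBasis_of_lift_trdeg_le_of_finite
    rw [htr]
    simp
  refine ⟨e, t, i₀, hb, hALG k K e htr t δ' ht0 h1, h3, htn, fun P hP => ?_⟩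
  obtain ⟨P₀, P₁, rfl, hP0, hvars⟩ := MP7b66e6.Q.DVLn.exists_decomp i₀ P hP
  have h5 : ν (MvPolynomial.aeval t P₀) = 0 :=
    hRES k K e ν hk t δ' h1 h2 (Finset.univ.erase i₀)
      (fun j hj => h4 j (Finset.ne_of_mem_erase hj)) P₀ hP0 hvars
  have h6 : ν (MvPolynomial.aeval t P₀) < ν (MvPolynomial.aeval t (MvPolynomial.X i₀ * P₁)) := by
    rw [h5, map_mul, MvPolynomial.aeval_X, ν.map_mul, h3]
    have h7 := MP7b66e6.Q.DVLn.aeval_nonneg ν hk t htn P₁
    calc (0 : WithTop ℤ) < 1 := zero_lt_one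
      _ = 1 + 0 := (add_zero _).symm
      _ ≤ 1 + ν (MvPolynomial.aeval t P₁) := by gcongr
  rw [map_add, ν.map_add_eq_of_lt_left h6, h5]

end Pool.Agent.Work.MP_a2680c_ag.HA
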