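import Pool.Agent.Work.MP_a2680c_ag.HA.StmtsR

/-!
# MP_a2680c_ag, block HA, item Rlg: derivations of `k` lift to logarithmic derivations of `K`
-/

set_option autoImplicit false

noncomputable section

namespace Pool.Agent.Work.MP_a2680c_ag.HA

open MP7b66e6 MP7b66e6.Q
open scoped BigOperators

universe u

namespace XRlg

section
variable {K : Type u} [Field K]

theorem lg_iff (ν : AddValuation K (WithTop ℤ)) (D : Derivation ℤ K K) (n : ℤ) :
    (∀ f : K, ν f + (n : WithTop ℤ) ≤ ν (D f)) ↔ ∀ f : K, f ≠ 0 → D f ≠ 0 → val ν f + n ≤ val ν (D f) := by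
  constructor
  · intro h f hf hD
    have h1 := h f
    rw [Api.coe_val ν hf, Api.coe_val ν hD] at h1
    exact_mod_cast h1
  · intro h f
    by_cases hD : D f = 0
    · rw [hD, AddValuation.map_zero]
      exact le_top
    · have hf : f ≠ 0 := by
        intro hf
        rw [hf, map_zero] at hD
        exact hD rfl
      rw [Api.coe_val ν hf, Api.coe_val ν hD]
      exact_mod_cast h f hf hD

theorem lg_mul (ν : AddValuation K (WithTop ℤ)) (D : Derivation ℤ K K) {f g : K} (hf : ν f ≤ ν (D f))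
    (hg : ν g ≤ ν (D g)) : ν (f * g) ≤ ν (D (f * g)) := by
  rw [Derivation.leibniz, smul_eq_mul, smul_eq_mul]
  apply AddValuation.map_le_add
  · rw [AddValuation.map_mul, AddValuation.map_mul]
    exact add_le_add le_rfl hg
  · rw [AddValuation.map_mul, AddValuation.map_mul, add_comm]
    exact add_le_add le_rfl hf

theorem lg_inv (ν : AddValuation K (WithTop ℤ)) (D : Derivation ℤ K K) {f : K} (hf : ν f ≤ ν (D f)) :
    ν f⁻¹ ≤ ν (D f⁻¹) := by
  by_cases h0 : f = 0
  · have hD0 : D (0 : K) = 0 := map_zero D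
    rw [h0, inv_zero, hD0]
  by_cases hD : D f⁻¹ = 0
  · rw [hD, AddValuation.map_zero]; exact le_top
  have e0 : D f⁻¹ = -(f⁻¹ * f⁻¹ * D f) := by
    have h1 : D (f * f⁻¹) = 0 := by rw [mul_inv_cancel₀ h0, Derivation.map_one_eq_zero]
    rw [Derivation.leibniz, smul_eq_mul, smul_eq_mul] at h1
    field_simp
    field_simp at h1
    linear_combination h1
  have hDf : D f ≠ 0 := by
    intro h
    rw [h, mul_zero, neg_zero] at e0
    exact hD e0
  rw [e0, AddValuation.map_neg]
  have hi := inv_ne_zero h0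
  rw [Api.coe_val ν hi, Api.coe_val ν (mul_ne_zero (mul_ne_zero hi hi) hDf),
    Api.val_mul ν (mul_ne_zero hi hi) hDf, Api.val_mul ν hi hi, Api.val_inv ν h0]
  rw [Api.coe_val ν h0, Api.coe_val ν hDf] at hf
  have h2 : val ν f ≤ val ν (D f) := by exact_mod_cast hf
  have h3 : - val ν f ≤ - val ν f + - val ν f + val ν (D f) := by omega
  exact_mod_cast h3

end

section
variable {k K : Type u} [Field k] [Field K] [Algebra k K]

theorem const_ge {ν : AddValuation K (WithTop ℤ)} (hν : Divisorial k ν) (a : k) :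
    0 ≤ ν (algebraMap k K a) := by
  obtain ⟨-, C, -, hC, -⟩ := hν
  exact hC _ (C.algebraMap_mem a)

theorem const_val {ν : AddValuation K (WithTop ℤ)} (hν : Divisorial k ν) {a : k} (ha : a ≠ 0) :
    val ν (algebraMap k K a) = 0 := by
  have ha' : algebraMap k K a ≠ 0 := by rwa [Ne, map_eq_zero]
  have h1 := (Api.val_nonneg ν ha').2 (const_ge hν a)
  have h2 := (Api.val_nonneg ν (inv_ne_zero ha')).2 (by
    rw [← map_inv₀]
    exact const_ge hν a⁻¹)
  rw [Api.val_inv ν ha'] at h2
  omega

theorem nat_val [CharZero k] {ν : AddValuation K (WithTop ℤ)} (hν : Divisorial k ν) {n : ℕ}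
    (hn : n ≠ 0) : val ν (n : K) = 0 := by
  have h := const_val hν (a := (n : k)) (by exact_mod_cast hn)
  rwa [map_natCast] at h

/-- the derivative of a polynomial in `t` has value `≥ 0` -/
theorem poly_ge {ν : AddValuation K (WithTop ℤ)} (hν : Divisorial k ν) {e : ℕ} {t : Fin e → K}
    (ht : ∀ j, 0 ≤ ν (t j)) {δ : Derivation ℤ k k} {D : Derivation ℤ K K} (hext : Ext δ D)
    (hDt : ∀ j, D (t j) = 0) (P : MvPolynomial (Fin e) k) : 0 ≤ ν (D (MvPolynomial.aeval t P)) := by
  induction P using MvPolynomial.induction_on with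
  | C a =>
    rw [MvPolynomial.aeval_C, hext a]
    exact const_ge hν _
  | add p q hp hq =>
    rw [map_add, map_add]
    exact AddValuation.map_le_add ν hp hq
  | mul_X p i hp =>
    rw [map_mul, MvPolynomial.aeval_X, Derivation.leibniz, hDt i, smul_zero, zero_add, smul_eq_mul,
      AddValuation.map_mul]
    exact add_nonneg (ht i) hp

theorem poly_lg {ν : AddValuation K (WithTop ℤ)} (hν : Divisorial k ν) {e : ℕ} {t : Fin e → K} {i₀ : Fin e}
    (hπ : ν (t i₀) = 1) (ht : ∀ j, 0 ≤ ν (t j)) {δ : Derivation ℤ k k} {D : Derivation ℤ K K} (hext : Ext δ D)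
    (hDt : ∀ j, D (t j) = 0)
    (hP : ∀ P : MvPolynomial (Fin e) k, ¬ (MvPolynomial.X i₀ ∣ P) → ν (MvPolynomial.aeval t P) = 0)
    (P : MvPolynomial (Fin e) k) : ν (MvPolynomial.aeval t P) ≤ ν (D (MvPolynomial.aeval t P)) := by
  by_cases h0 : P = 0
  · have hD0 : D (0 : K) = 0 := map_zero D
    have ha : MvPolynomial.aeval t (0 : MvPolynomial (Fin e) k) = 0 := map_zero _
    rw [h0, ha, hD0]
  obtain ⟨n, Q, hQ, rfl⟩ := WfDvdMonoid.max_power_factor h0 (MvPolynomial.X_prime (i := i₀) (R := k)).irreducible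
  have hD : D (t i₀ ^ n) = 0 := by
    rw [Derivation.leibniz_pow, hDt i₀, smul_zero, smul_zero]
  rw [map_mul, map_pow, MvPolynomial.aeval_X, Derivation.leibniz, hD, smul_zero, add_zero, smul_eq_mul,
    AddValuation.map_mul, AddValuation.map_mul, hP Q hQ]
  exact add_le_add le_rfl (poly_ge hν ht hext hDt Q)

/-- the derivation is logarithmic on `k(t)` -/
theorem adj_lg {ν : AddValuation K (WithTop ℤ)} (hν : Divisorial k ν) {e : ℕ} {t : Fin e → K} {i₀ : Fin e}
    (hπ : ν (t i₀) = 1) (ht : ∀ j, 0 ≤ ν (t j)) {δ : Derivation ℤ k k} {D : Derivation ℤ K K} (hext : Ext δ D)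
    (hDt : ∀ j, D (t j) = 0)
    (hP : ∀ P : MvPolynomial (Fin e) k, ¬ (MvPolynomial.X i₀ ∣ P) → ν (MvPolynomial.aeval t P) = 0)
    (f : K) (hf : f ∈ IntermediateField.adjoin k (Set.range t)) : ν f ≤ ν (D f) := by
  obtain ⟨r, s, rfl⟩ := (IntermediateField.mem_adjoin_range_iff k t f).1 hf
  rw [div_eq_mul_inv]
  exact lg_mul ν D (poly_lg hν hπ ht hext hDt hP r) (lg_inv ν D (poly_lg hν hπ ht hext hDt hP s))

/-- the chain rule for a polynomial with coefficients in `L` -/
theorem lift_aeval (L : IntermediateField k K) (D : Derivation ℤ K K) (x : K) (P : Polynomial L) :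
    D (Polynomial.aeval x P) = P.sum (fun i a => D (algebraMap L K a) * x ^ i)
        + Polynomial.aeval x (Polynomial.derivative P) * D x := by
  induction P using Polynomial.induction_on' with
  | add P Q hP hQ =>
    rw [map_add, map_add, hP, hQ, Polynomial.sum_add_index, Polynomial.derivative_add, map_add]
    · ring
    · intro i
      rw [map_zero, map_zero, zero_mul]
    · intro i a b
      rw [map_add, map_add, add_mul]
  | monomial n a =>
    rw [Polynomial.aeval_monomial, Derivation.leibniz, Derivation.leibniz_pow,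
      Polynomial.sum_monomial_index, Polynomial.derivative_monomial, Polynomial.aeval_monomial,
      map_mul, map_natCast]
    · simp only [smul_eq_mul, nsmul_eq_mul]
      ring
    · rw [map_zero, map_zero, zero_mul]

/-- one step: from `c` to `c + 1` for `c < 0` -/
theorem step [CharZero k] (hRSP : StRSP.{u,u}) {ν : AddValuation K (WithTop ℤ)} (hν : Divisorial k ν)
    (L : IntermediateField k K) [FiniteDimensional L K] {p : K} (hp : ν p = 1)
    {D : Derivation ℤ K K} (hDp : D p = 0) (hL : ∀ f ∈ L, ν f ≤ ν (D f))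
    (c : ℤ) (hc : c < 0) (hcc : ∀ f : K, ν f + (c : WithTop ℤ) ≤ ν (D f)) :
    ∀ f : K, ν f + ((c + 1 : ℤ) : WithTop ℤ) ≤ ν (D f) := by
  have hK : CharZero K := charZero_of_injective_algebraMap (algebraMap k K).injective
  have hLc : CharZero L := charZero_of_injective_algebraMap (algebraMap k L).injective
  rw [lg_iff] at hcc ⊢
  intro f hf hDf
  by_contra hcon
  have h1 := hcc f hf hDf
  have h2 : val ν (D f) = val ν f + c := by omega
  have hpv : val ν p = 1 := Api.val_of ν hp
  have hp0 : p ≠ 0 := by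
    intro h
    rw [h, AddValuation.map_zero] at hp
    exact absurd hp (by simp)
  set j := val ν f with hj
  set x := f * p ^ (-j) with hx
  have hpj : p ^ (-j) ≠ 0 := zpow_ne_zero _ hp0
  have hx0 : x ≠ 0 := mul_ne_zero hf hpj
  have hxv : val ν x = 0 := by
    rw [hx, Api.val_mul ν hf hpj, Api.val_zpow ν hp0, hpv]
    omega
  have hDx : D x = p ^ (-j) * D f := by
    rw [hx, Derivation.leibniz, Derivation.leibniz_zpow, hDp]
    simp
  have hDx0 : D x ≠ 0 := by rw [hDx]; exact mul_ne_zero hpj hDf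
  have hDxv : ν (D x) = (c : WithTop ℤ) := by
    rw [Api.coe_val ν hDx0, hDx, Api.val_mul ν hpj hDf, Api.val_zpow ν hp0, hpv, h2]
    congr 1
    omega
  -- the residue polynomial
  obtain ⟨P, -, hPc, hP1, hP2⟩ := hRSP L K (ν.comap (algebraMap L K)) ν 1
    ⟨one_pos, fun f _ => by rw [Nat.cast_one, one_mul]; rfl⟩ (fun n hn => by
      have hnK : (n : K) ≠ 0 := by exact_mod_cast hn
      change ν (algebraMap L K (n : L)) = 0
      rw [map_natCast, Api.coe_val ν hnK, nat_val hν hn]
      rfl) x (by rw [← Api.val_nonneg ν hx0, hxv])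
  have hchain := lift_aeval L D x P
  have hsum : 0 ≤ ν (P.sum (fun i a => D (algebraMap L K a) * x ^ i)) := by
    rw [Polynomial.sum_def]
    refine AddValuation.map_le_sum ν fun i _ => ?_
    rw [AddValuation.map_mul]
    refine add_nonneg ((hPc i).trans (hL _ (P.coeff i).2)) ?_
    rw [← Api.val_nonneg ν (pow_ne_zero i hx0), Api.val_pow ν hx0, hxv, mul_zero]
  have hval : ν (D (Polynomial.aeval x P)) = (c : WithTop ℤ) := by
    have h3 : ν (Polynomial.aeval x (Polynomial.derivative P) * D x) = (c : WithTop ℤ) := by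
      rw [AddValuation.map_mul, hP2, hDxv, zero_add]
    rw [hchain, AddValuation.map_add_eq_of_lt_right ν (by
      rw [h3]
      refine lt_of_lt_of_le ?_ hsum
      exact_mod_cast hc)]
    exact h3
  have hDg : D (Polynomial.aeval x P) ≠ 0 := by
    intro h
    rw [h, AddValuation.map_zero] at hval
    exact WithTop.top_ne_coe hval
  have hg : Polynomial.aeval x P ≠ 0 := by
    intro h
    rw [h, map_zero] at hDg
    exact hDg rfl
  have h3 := hcc _ hg hDg
  have h4 : val ν (D (Polynomial.aeval x P)) = c := Api.val_of ν hval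
  have h5 : 0 < val ν (Polynomial.aeval x P) := by
    rw [Api.coe_val ν hg] at hP1
    exact_mod_cast hP1
  omega

end

end XRlg

open XRlg in
/-- Rlg -/
theorem pr_Rlg (hRex : StRex.{u, 0}) (hRbd : StRbd.{u}) (hRlb : StRlb.{u}) (hRSP : StRSP.{u,u}) :
    StRlg.{u} := by
  intro k K _ _ _ _ _ ν hν δ
  obtain ⟨e, t, i₀, htb, hfin, hπ, ht, hP⟩ := hRlb k K ν hν
  obtain ⟨D, hext, hDt⟩ := hRex k K (Fin e) t htb δ (fun _ => 0)
  refine ⟨D, hext, ?_⟩
  have hL := adj_lg hν hπ ht hext hDt hP
  obtain ⟨C, hC⟩ := hRbd k K ν hν δ D hext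
  have hmono : ∀ a b : ℤ, a ≤ b → (∀ f : K, ν f + (b : WithTop ℤ) ≤ ν (D f)) →
      ∀ f : K, ν f + (a : WithTop ℤ) ≤ ν (D f) := by
    intro a b hab h f
    exact (add_le_add le_rfl (WithTop.coe_le_coe.2 hab)).trans (h f)
  have hind : ∀ m : ℕ, ∀ c : ℤ, c ≤ 0 → (∀ f : K, ν f + (c : WithTop ℤ) ≤ ν (D f)) →
      -c = m → ∀ f : K, ν f + ((0 : ℤ) : WithTop ℤ) ≤ ν (D f) := by
    intro m
    induction m with
    | zero =>
      intro c _ h hm
      have : c = 0 := by
        push_cast at hm
        omega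
      rwa [this] at h
    | succ m ih =>
      intro c hc h hm
      push_cast at hm
      exact ih (c + 1) (by omega)
        (step hRSP hν _ hπ (hDt i₀) hL c (by omega) h) (by omega)
  have h0 : ∀ f : K, ν f + ((0 : ℤ) : WithTop ℤ) ≤ ν (D f) := by
    rcases le_or_gt 0 C with h | h
    · exact hmono 0 C h hC
    · exact hind (-C).toNat C h.le hC (by omega)
  intro f
  have := h0 f
  rwa [WithTop.coe_zero, add_zero] at this

end Pool.Agent.Work.MP_a2680c_ag.HA
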