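import Pool.Agent.Work.MP_a2680c_ag.HA.StmtsG

/-!
# MP_a2680c_ag, block HA, item Rmf: log discrepancy and finite extensions
-/

set_option autoImplicit false

noncomputable section

namespace Pool.Agent.Work.MP_a2680c_ag.HA

open MP7b66e6 MP7b66e6.Q
open scoped BigOperators

universe u

namespace XRmf

section det
variable {K : Type u} [Field K] (ν : AddValuation K (WithTop ℤ))

theorem prod_nonneg {ι : Type*} (s : Finset ι) (f : ι → K) (h : ∀ i ∈ s, (0 : WithTop ℤ) ≤ ν (f i)) :
    (0 : WithTop ℤ) ≤ ν (∏ i ∈ s, f i) := by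
  classical
  induction s using Finset.induction_on with
  | empty => rw [Finset.prod_empty, AddValuation.map_one]
  | insert a s ha ih =>
    rw [Finset.prod_insert ha, AddValuation.map_mul]
    exact add_nonneg (h a (Finset.mem_insert_self a s))
      (ih fun i hi => h i (Finset.mem_insert_of_mem hi))

theorem det_nonneg {d : ℕ} (M : Matrix (Fin d) (Fin d) K) (h : ∀ i j, (0 : WithTop ℤ) ≤ ν (M i j)) :
    (0 : WithTop ℤ) ≤ ν M.det := by
  rw [Matrix.det_apply]
  refine AddValuation.map_le_sum ν fun σ _ => ?_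
  have h1 := prod_nonneg ν Finset.univ (fun i => M (σ i) i) (fun i _ => h _ _)
  rcases Int.units_eq_one_or (Equiv.Perm.sign σ) with h2 | h2
  · rw [h2, one_smul]
    exact h1
  · rw [h2, Units.neg_smul, one_smul, AddValuation.map_neg]
    exact h1

end det

section lvl
variable {k K : Type u} [Field k] [Field K] [Algebra k K] {d : ℕ}

theorem logder_nonneg {ν : AddValuation K (WithTop ℤ)} {E : Derivation k K K} (h : LogGe ν E 0)
    {f : K} (hf : f ≠ 0) : (0 : WithTop ℤ) ≤ ν (E f / f) := by
  by_cases h0 : E f = 0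
  · rw [h0, zero_div, AddValuation.map_zero]; exact le_top
  have hd : E f / f ≠ 0 := div_ne_zero h0 hf
  have h1 := h f
  have h2 : ν (E f) = ν (E f / f) + ν f := by
    rw [← AddValuation.map_mul, div_mul_cancel₀ _ hf]
  rw [h2, Api.coe_val ν hf, Api.coe_val ν hd, ← WithTop.coe_add, ← WithTop.coe_add,
    WithTop.coe_le_coe] at h1
  rw [Api.coe_val ν hd, ← WithTop.coe_zero, WithTop.coe_le_coe]
  omega

theorem der_sum (c : Fin d → K) (pd : Fin d → Derivation k K K) (g : K) (s : Finset (Fin d)) :
    (∑ m ∈ s, c m • pd m) g = ∑ m ∈ s, c m * pd m g := by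
  classical
  induction s using Finset.induction_on with
  | empty => rw [Finset.sum_empty, Finset.sum_empty, Derivation.zero_apply]
  | insert i s hi ih =>
    rw [Finset.sum_insert hi, Finset.sum_insert hi, Derivation.add_apply, ih, Derivation.smul_apply,
      smul_eq_mul]

theorem chain {r : Fin d → K} {pd : Fin d → Derivation k K K} (h : Dual r pd) (E : Derivation k K K)
    (g : K) : E g = ∑ m, E (r m) * pd m g := by
  have h1 : E - ∑ m, E (r m) • pd m = 0 := by
    apply h.2
    intro j
    rw [Derivation.sub_apply]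
    rw [der_sum (fun m => E (r m)) pd (r j) Finset.univ,
      Finset.sum_congr rfl (fun m _ => by rw [h.1 m j]), Finset.sum_eq_single j]
    · rw [if_pos rfl, mul_one, sub_self]
    · intro m _ hm
      rw [if_neg hm, mul_zero]
    · intro hj
      exact absurd (Finset.mem_univ j) hj
  have h3 := sub_eq_zero.1 h1
  have h4 : E g = (∑ m, E (r m) • pd m) g := by rw [← h3]
  rw [h4]
  exact der_sum (fun m => E (r m)) pd g Finset.univ

/-- a derivation which vanishes at the `f j` is zero -/
theorem zero_of {x : Fin d → K} {pd : Fin d → Derivation k K K} (h : Dual x pd)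
    (Θ : Fin d → Derivation k K K) (f : Fin d → K) (hf : ∀ j, f j ≠ 0)
    (hΘ : ∀ i j, Θ i (f j) = if i = j then f j else 0) (E : Derivation k K K)
    (hE : ∀ j, E (f j) = 0) : E = 0 := by
  have hm : (Matrix.of fun i l => Θ i (x l)) * (Matrix.of fun l j => pd l (f j)) =
      Matrix.diagonal f := by
    ext i j
    rw [Matrix.mul_apply, Matrix.diagonal_apply]
    show ∑ l, Θ i (x l) * pd l (f j) = _
    rw [← chain h (Θ i) (f j), hΘ i j]
    by_cases hij : i = j
    · rw [if_pos hij, if_pos hij, hij]
    · rw [if_neg hij, if_neg hij]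
  have hd : (Matrix.of fun l j => pd l (f j) : Matrix (Fin d) (Fin d) K).det ≠ 0 := by
    intro h0
    have h1 := congrArg Matrix.det hm
    rw [Matrix.det_mul, h0, mul_zero, Matrix.det_diagonal] at h1
    exact (Finset.prod_ne_zero_iff.2 fun j _ => hf j) h1.symm
  have hv : Matrix.vecMul (fun l => E (x l)) (Matrix.of fun l j => pd l (f j)) = 0 := by
    funext j
    show ∑ l, E (x l) * pd l (f j) = 0
    rw [← chain h E (f j), hE j]
  have hz := Matrix.eq_zero_of_vecMul_eq_zero hd hv
  exact h.2 E fun j => congrFun hz j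

end lvl

section two
variable {k K K' : Type u} [Field k] [Field K] [Field K'] [Algebra k K] [Algebra k K'] [Algebra K K']
  [IsScalarTower k K K'] {d : ℕ}

/-- `λ ∘ E` on `K` -/
def lam (φ : K' →ₗ[K] K) (E : Derivation k K' K') : Derivation k K K :=
  Derivation.mk' ((φ.restrictScalars k).comp
      ((E : K' →ₗ[k] K').comp (IsScalarTower.toAlgHom k K K').toLinearMap))
    (by
      intro a b
      show φ (E (algebraMap K K' (a * b))) = a • φ (E (algebraMap K K' b)) +
        b • φ (E (algebraMap K K' a))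
      rw [map_mul, Derivation.leibniz, map_add, smul_eq_mul, smul_eq_mul, ← Algebra.smul_def,
        ← Algebra.smul_def, map_smul, map_smul])

theorem lam_apply (φ : K' →ₗ[K] K) (E : Derivation k K' K') (a : K) :
    lam φ E a = φ (E (algebraMap K K' a)) := rfl

end two

end XRmf

/-- The item Rmf. -/
theorem pr_Rmf (hDEX : StDEX.{u, u, u}) (hLFT : StLFT.{u, u, u}) (hLbs : StLbs.{u}) : StRmf.{u} := by
  intro k K K' _ _ _ _ _ _ _ _ _ d x pd hpd ν ν' ε hν hν' hl A hA
  obtain ⟨f, Θ, hf, hΘf, hΘl, hΘd⟩ := hLbs k K d x pd hpd ν A hA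
  obtain ⟨hex, huni⟩ := hDEX k K K'
  choose Θ' hΘ' using fun i => hex (Θ i)
  have hf' : ∀ j, algebraMap K K' (f j) ≠ 0 := fun j => by
    rw [map_ne_zero_iff _ (algebraMap K K').injective]; exact hf j
  have hlog : ∀ i, LogGe ν' (Θ' i) 0 := fun i => by
    have h := hLFT k K K' ν ν' ε hν hν' hl (Θ i) (Θ' i) (hΘ' i) 0 (hΘl i)
    rwa [mul_zero] at h
  have hdet : Matrix.det (fun i j => Θ' i (up K' x j)) =
      algebraMap K K' (Matrix.det (fun i j => Θ i (x j))) := by
    rw [RingHom.map_det]
    refine congrArg Matrix.det ?_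
    ext i j
    exact hΘ' i (x j)
  have hd0 : Matrix.det (fun i j => Θ i (x j)) ≠ 0 := by
    intro h0
    rw [h0, AddValuation.map_zero] at hΘd
    exact absurd hΘd.symm (WithTop.coe_ne_top)
  have hd0' : algebraMap K K' (Matrix.det (fun i j => Θ i (x j))) ≠ 0 := by
    rw [map_ne_zero_iff _ (algebraMap K K').injective]; exact hd0
  have hval : ν' (Matrix.det (fun i j => Θ' i (up K' x j))) = (((ε : ℤ) * A : ℤ) : WithTop ℤ) := by
    rw [hdet, Api.coe_val ν' hd0', hl.2 _ hd0, Api.val_of ν hΘd]
  refine ⟨⟨Θ', hlog, hval⟩, ?_⟩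
  intro δ hδ
  -- a derivation of `K'` which vanishes at the `f j` is zero
  have hzero : ∀ E : Derivation k K' K', (∀ j, E (algebraMap K K' (f j)) = 0) → E = 0 := by
    intro E hE
    refine huni E fun g => ?_
    rw [← Module.forall_dual_apply_eq_zero_iff K]
    intro φ
    have h0 : XRmf.lam φ E = 0 := by
      refine XRmf.zero_of hpd Θ f hf hΘf _ fun j => ?_
      rw [XRmf.lam_apply, hE j, map_zero]
    have h1 := congrArg (fun D : Derivation k K K => D g) h0
    exact h1
  have hexp : ∀ i (g : K'), δ i g = ∑ l, δ i (algebraMap K K' (f l)) / algebraMap K K' (f l) * Θ' l g := by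
    intro i g
    have h1 : δ i - ∑ l, (δ i (algebraMap K K' (f l)) / algebraMap K K' (f l)) • Θ' l = 0 := by
      refine hzero _ fun j => ?_
      rw [Derivation.sub_apply, XRmf.der_sum
        (fun l => δ i (algebraMap K K' (f l)) / algebraMap K K' (f l)) Θ' _ Finset.univ,
        Finset.sum_eq_single j]
      · rw [hΘ' j (f j), hΘf j j, if_pos rfl, div_mul_cancel₀ _ (hf' j), sub_self]
      · intro l _ hlj
        rw [hΘ' l (f j), hΘf l j, if_neg hlj, map_zero, mul_zero]
      · intro hj
        exact absurd (Finset.mem_univ j) hj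
    have h3 := sub_eq_zero.1 h1
    have h4 : δ i g = (∑ l, (δ i (algebraMap K K' (f l)) / algebraMap K K' (f l)) • Θ' l) g := by
      rw [← h3]
    rw [h4]
    exact XRmf.der_sum (fun l => δ i (algebraMap K K' (f l)) / algebraMap K K' (f l)) Θ' g
      Finset.univ
  have hmul : Matrix.det (fun i j => δ i (up K' x j)) =
      Matrix.det (fun i l => δ i (algebraMap K K' (f l)) / algebraMap K K' (f l)) *
        Matrix.det (fun l j => Θ' l (up K' x j)) := by
    have hm := Matrix.det_mul
      (Matrix.of (fun i l => δ i (algebraMap K K' (f l)) / algebraMap K K' (f l)))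
      (Matrix.of (fun l j => Θ' l (up K' x j)))
    refine Eq.trans ?_ hm
    refine congrArg Matrix.det ?_
    ext i j
    rw [Matrix.mul_apply]
    exact hexp i (up K' x j)
  rw [hmul, AddValuation.map_mul, hval]
  have hnn := XRmf.det_nonneg ν'
    (fun i l => δ i (algebraMap K K' (f l)) / algebraMap K K' (f l))
    fun i l => XRmf.logder_nonneg (hδ i) (hf' l)
  exact le_add_of_nonneg_left hnn

end Pool.Agent.Work.MP_a2680c_ag.HA

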