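import Pool.Agent.Work.MP_a2680c_ag.HA.StmtsG

/-!
# MP_a2680c_ag, block HA, item Rmi: the ramification index is at most the degree
-/

set_option autoImplicit false

noncomputable section

namespace Pool.Agent.Work.MP_a2680c_ag.HA

open MP7b66e6 MP7b66e6.Q
open scoped BigOperators

universe u

theorem pr_Rmi : StRmi.{u} := by
  intro F F' _ _ _ _ W W' η hL hπ
  obtain ⟨π, hπ⟩ := hπ
  classical
  have hπ0 : π ≠ 0 := by
    intro h
    rw [h, AddValuation.map_zero] at hπ
    exact absurd hπ (by decide)
  have hvπ : val W' π = 1 := Api.val_of W' hπ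
  have hli : LinearIndependent F (fun i : Fin η => π ^ (i : ℕ)) := by
    rw [Fintype.linearIndependent_iff]
    intro g hg
    by_contra hne
    push Not at hne
    obtain ⟨i1, hi1⟩ := hne
    let S : Finset (Fin η) := Finset.univ.filter fun i => g i ≠ 0
    have hS : S.Nonempty := ⟨i1, by simp [S, hi1]⟩
    obtain ⟨i0, hi0, hmin⟩ := S.exists_min_image (fun i => (η : ℤ) * val W (g i) + (i : ℕ)) hS
    have hg0 : g i0 ≠ 0 := (Finset.mem_filter.1 hi0).2
    have hval : ∀ i : Fin η, g i ≠ 0 →
        W' (g i • π ^ (i : ℕ)) = (((η : ℤ) * val W (g i) + (i : ℕ) : ℤ) : WithTop ℤ) := by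
      intro i hi
      have h1 : algebraMap F F' (g i) ≠ 0 := by
        intro h
        exact hi ((map_eq_zero _).1 h)
      have h2 : g i • π ^ (i : ℕ) ≠ 0 := by
        rw [Algebra.smul_def]
        exact mul_ne_zero h1 (pow_ne_zero _ hπ0)
      rw [Api.coe_val W' h2]
      congr 1
      rw [Algebra.smul_def, Api.val_mul W' h1 (pow_ne_zero _ hπ0), Api.val_pow W' hπ0, hvπ, hL.2 _ hi]
      ring
    have hsum : g i0 • π ^ (i0 : ℕ) + ∑ i ∈ Finset.univ.erase i0, g i • π ^ (i : ℕ) = 0 := by
      rw [Finset.add_sum_erase Finset.univ (fun i : Fin η => g i • π ^ (i : ℕ)) (Finset.mem_univ i0)]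
      exact hg
    have hlt : W' (g i0 • π ^ (i0 : ℕ)) < W' (∑ i ∈ Finset.univ.erase i0, g i • π ^ (i : ℕ)) := by
      apply AddValuation.map_lt_sum
      · rw [hval i0 hg0]
        exact WithTop.coe_ne_top
      · intro i hi
        have hii : i ≠ i0 := (Finset.mem_erase.1 hi).1
        by_cases hgi : g i = 0
        · rw [hgi, zero_smul, AddValuation.map_zero, hval i0 hg0]
          exact WithTop.coe_lt_top _
        · rw [hval i0 hg0, hval i hgi, WithTop.coe_lt_coe]
          have hle := hmin i (Finset.mem_filter.2 ⟨Finset.mem_univ i, hgi⟩)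
          refine lt_of_le_of_ne hle ?_
          intro he
          apply hii
          have hmod := congrArg (fun t : ℤ => t % (η : ℤ)) he
          simp only [Int.mul_add_emod_self_left] at hmod
          have ha : ((i0 : ℕ) : ℤ) % (η : ℤ) = ((i0 : ℕ) : ℤ) :=
            Int.emod_eq_of_lt (by positivity) (by exact_mod_cast i0.2)
          have hb : ((i : ℕ) : ℤ) % (η : ℤ) = ((i : ℕ) : ℤ) :=
            Int.emod_eq_of_lt (by positivity) (by exact_mod_cast i.2)
          rw [ha, hb] at hmod
          apply Fin.ext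
          exact_mod_cast hmod.symm
    have heq : ∑ i ∈ Finset.univ.erase i0, g i • π ^ (i : ℕ) = -(g i0 • π ^ (i0 : ℕ)) := by
      rw [eq_neg_iff_add_eq_zero, add_comm]
      exact hsum
    rw [heq, AddValuation.map_neg] at hlt
    exact lt_irrefl _ hlt
  have h := hli.fintype_card_le_finrank
  rwa [Fintype.card_fin] at h

end Pool.Agent.Work.MP_a2680c_ag.HA
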