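import Pool.Agent.Work.MP_a2680c_ag.HA.StmtsR

/-!
# MP_a2680c_ag, block HA, item Rne: the general member is not zero
-/

set_option autoImplicit false

noncomputable section

namespace Pool.Agent.Work.MP_a2680c_ag.HA

open MP7b66e6 MP7b66e6.Q
open scoped BigOperators

universe u v

theorem pr_Rne (hRex : StRex.{u, 0}) (hRcr : StRcr.{u}) : StRne.{u} := by
  intro k K _ _ _ _ e r pd hdual hbas ι I hI hIr S t pt hS hIS hpι hp1 hp0 hsgm
  obtain ⟨s, hs⟩ := hS
  obtain ⟨E, hE1, hE2⟩ := hRex k K (Fin e) r hbas (pt s) (fun _ => 0)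
  have hEι : ∀ c : k, E (algebraMap k K (ι c)) = 0 := by
    intro c
    rw [hE1, hpι s hs, map_zero]
  have hEI : ∀ f : K, E (I f) = 0 := by
    intro f
    rw [hRcr k K e r pd hdual hbas ι I hI hIr E hEι f]
    refine Finset.sum_eq_zero fun m _ => ?_
    rw [hE2, zero_mul]
  have hES : ∀ s' ∈ S, E (s' : K) = 0 := by
    intro s' hs'
    rw [← hIS s' hs']
    exact hEI _
  have h1 : E (sgm S t) = (s : K) := by
    unfold sgm
    rw [map_sum, Finset.sum_eq_single s]
    · rw [Derivation.leibniz, hES s hs, smul_zero, zero_add, hE1, hp1 s hs, map_one, smul_eq_mul,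
        mul_one]
    · intro s' hs' hne
      rw [Derivation.leibniz, hES s' hs', smul_zero, zero_add, hE1, hp0 s hs s' hs' (Ne.symm hne),
        map_zero, smul_zero]
    · intro h
      exact absurd hs h
  rw [hsgm, map_zero] at h1
  exact s.ne_zero h1.symm

end Pool.Agent.Work.MP_a2680c_ag.HA
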