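import Pool.Agent.Work.MP_a2680c_ag.HA.StmtsX

/-!
# MP_a2680c_ag, block HA, item Rpv: rational points of the projective line
-/

set_option autoImplicit false

noncomputable section

namespace Pool.Agent.Work.MP_a2680c_ag.HA

open MP7b66e6 MP7b66e6.Q
open scoped BigOperators

universe u

namespace XRpv

variable {K F : Type u} [Field K] [Field F] [Algebra K F]

/-- the linear polynomial -/
def qq (c : Fin 2 → K) : MvPolynomial (Fin 1) K :=
  MvPolynomial.C (c 0) + MvPolynomial.C (c 1) * MvPolynomial.X 0

theorem aeval_qq (y : Fin 1 → F) (c : Fin 2 → K) : MvPolynomial.aeval y (qq c) = lin y c := by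
  unfold qq lin
  rw [map_add, map_mul, MvPolynomial.aeval_C, MvPolynomial.aeval_C, MvPolynomial.aeval_X,
    Fin.sum_univ_one]
  rfl

theorem lin_eq (y : Fin 1 → F) (c : Fin 2 → K) :
    lin y c = algebraMap K F (c 0) + algebraMap K F (c 1) * y 0 := by
  unfold lin
  rw [Fin.sum_univ_one]
  rfl

theorem deg_qq {c : Fin 2 → K} (hc : c 1 ≠ 0) : (qq c).totalDegree = 1 := by
  have h0 : (MvPolynomial.C (c 1) : MvPolynomial (Fin 1) K) ≠ 0 := by
    intro h
    exact hc (MvPolynomial.C_eq_zero.1 h)
  have h1 : (MvPolynomial.C (c 1) * MvPolynomial.X 0 : MvPolynomial (Fin 1) K).totalDegree = 1 := by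
    rw [MvPolynomial.totalDegree_mul_of_isDomain h0 (MvPolynomial.X_ne_zero _),
      MvPolynomial.totalDegree_C, MvPolynomial.totalDegree_X]
  unfold qq
  rw [MvPolynomial.totalDegree_add_eq_right_of_totalDegree_lt]
  · exact h1
  · rw [h1, MvPolynomial.totalDegree_C]
    exact zero_lt_one

theorem ne_qq {c : Fin 2 → K} (hc : c 1 ≠ 0) : qq c ≠ 0 := by
  intro h
  have h1 := deg_qq hc
  rw [h, MvPolynomial.totalDegree_zero] at h1
  omega

theorem unit_of_deg {a : MvPolynomial (Fin 1) K} (ha : a ≠ 0) (h : a.totalDegree = 0) :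
    IsUnit a := by
  have h1 := MvPolynomial.totalDegree_eq_zero_iff_eq_C.1 h
  rw [h1]
  have h2 : a.coeff 0 ≠ 0 := by
    intro h0
    rw [h0, MvPolynomial.C_0] at h1
    exact ha h1
  exact (isUnit_iff_ne_zero.2 h2).map MvPolynomial.C

theorem irr_qq {c : Fin 2 → K} (hc : c 1 ≠ 0) : Irreducible (qq c) := by
  constructor
  · intro hu
    obtain ⟨b, hb⟩ := hu.exists_right_inv
    have hb0 : b ≠ 0 := by
      rintro rfl
      rw [mul_zero] at hb
      exact zero_ne_one hb
    have h1 := congrArg MvPolynomial.totalDegree hb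
    rw [MvPolynomial.totalDegree_mul_of_isDomain (ne_qq hc) hb0, deg_qq hc,
      MvPolynomial.totalDegree_one] at h1
    omega
  · intro a b hab
    have ha0 : a ≠ 0 := by
      rintro rfl
      rw [zero_mul] at hab
      exact ne_qq hc hab
    have hb0 : b ≠ 0 := by
      rintro rfl
      rw [mul_zero] at hab
      exact ne_qq hc hab
    have h1 := congrArg MvPolynomial.totalDegree hab
    rw [MvPolynomial.totalDegree_mul_of_isDomain ha0 hb0, deg_qq hc] at h1
    rcases Nat.eq_zero_or_pos a.totalDegree with h2 | h2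
    · exact Or.inl (unit_of_deg ha0 h2)
    · exact Or.inr (unit_of_deg hb0 (by omega))

theorem val_const {ν : AddValuation F (WithTop ℤ)} (hν : Plc K ν) {a : K} (ha : a ≠ 0) :
    ν (algebraMap K F a) = 0 := by
  have h1 := hν.2 a
  have h2 := hν.2 a⁻¹
  have h3 : ν (algebraMap K F a) + ν (algebraMap K F a⁻¹) = 0 := by
    rw [← ν.map_mul, ← map_mul, mul_inv_cancel₀ ha, map_one, ν.map_one]
  refine le_antisymm ?_ h1
  rw [← h3]
  exact le_add_of_nonneg_right h2

theorem one_le {x : WithTop ℤ} (h : 0 < x) : (((1 : ℕ) : ℤ) : WithTop ℤ) ≤ x := by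
  induction x using WithTop.recTopCoe with
  | top => exact le_top
  | coe z =>
    have h1 : (0 : ℤ) < z := by
      have h2 : ((0 : ℤ) : WithTop ℤ) < (z : WithTop ℤ) := h
      exact WithTop.coe_lt_coe.1 h2
    refine WithTop.coe_le_coe.2 ?_
    push_cast
    omega

theorem pos_of_one_le {x : WithTop ℤ} (h : (((1 : ℕ) : ℤ) : WithTop ℤ) ≤ x) : 0 < x := by
  refine lt_of_lt_of_le ?_ h
  have h2 : ((0 : ℤ) : WithTop ℤ) < (((1 : ℕ) : ℤ) : WithTop ℤ) := WithTop.coe_lt_coe.2 (by norm_num)
  exact h2

theorem eq_of_between {x : WithTop ℤ} {m : ℕ} (h : ((m : ℤ) : WithTop ℤ) ≤ x)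
    (h' : ¬ (((m + 1 : ℕ) : ℤ) : WithTop ℤ) ≤ x) : x = ((m : ℤ) : WithTop ℤ) := by
  induction x using WithTop.recTopCoe with
  | top => exact absurd le_top h'
  | coe z =>
    have h1 : (m : ℤ) ≤ z := WithTop.coe_le_coe.1 h
    have h2 : ¬ (((m + 1 : ℕ) : ℤ)) ≤ z := fun h3 => h' (WithTop.coe_le_coe.2 h3)
    push_cast at h2
    have h3 : z = (m : ℤ) := by omega
    rw [h3]

theorem nonneg {y : Fin 1 → F} {p : MvPolynomial (Fin 1) K} {μ : AddValuation F (WithTop ℤ)}
    (h : OrdP y p μ) (g : MvPolynomial (Fin 1) K) : 0 ≤ μ (MvPolynomial.aeval y g) := by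
  have h1 := (h.2 g 0).2 (by rw [pow_zero]; exact one_dvd g)
  exact h1

theorem y_nonneg {y : Fin 1 → F} {c : Fin 2 → K} (hc : c 1 ≠ 0) {ν : AddValuation F (WithTop ℤ)}
    (hν : Plc K ν) (h : 0 < ν (lin y c)) : 0 ≤ ν (y 0) := by
  have h1 : y 0 = algebraMap K F (c 1)⁻¹ * (lin y c - algebraMap K F (c 0)) := by
    rw [lin_eq, add_sub_cancel_left, ← mul_assoc, ← map_mul, inv_mul_cancel₀ hc, map_one, one_mul]
  have h2 : min (ν (lin y c)) (ν (algebraMap K F (c 0))) ≤ ν (lin y c - algebraMap K F (c 0)) :=
    ν.map_sub _ _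
  rw [h1, ν.map_mul, val_const hν (inv_ne_zero hc), zero_add]
  exact (le_min h.le (hν.2 (c 0))).trans h2

end XRpv

open XRpv in
theorem pr_Rpv (hCls : StCls.{u}) : StRpv.{u} := by
  intro K F _ _ _ y hy
  obtain ⟨c1, c2, c3, c4, c5, c6⟩ := hCls K F y hy
  refine ⟨?_, ?_⟩
  · intro ν hν hr
    by_cases h : ν (y 0) < 0
    · refine ⟨![1, 0], ?_, ?_, ?_⟩
      · intro h0
        have h1 := congrFun h0 0
        exact one_ne_zero h1
      · intro h0
        exact absurd rfl h0
      · intro _
        exact h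
    · obtain ⟨β, hβ⟩ := hr (y 0) (not_lt.1 h)
      refine ⟨![-β, 1], ?_, ?_, ?_⟩
      · intro h0
        have h1 := congrFun h0 1
        exact one_ne_zero h1
      · intro _
        have h1 : lin y ![-β, 1] = y 0 - algebraMap K F β := by
          rw [lin_eq]
          show algebraMap K F (-β) + algebraMap K F 1 * y 0 = _
          rw [map_neg, map_one, one_mul]
          ring
        rw [h1]
        exact hβ
      · intro h0
        exact absurd h0 one_ne_zero
  · intro ν c hν hR
    obtain ⟨hc0, hcA, hcB⟩ := hR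
    by_cases hc : c 1 = 0
    · have hy0 := hcB hc
      have hc00 : c 0 ≠ 0 := by
        intro h0
        apply hc0
        funext i
        fin_cases i
        · exact h0
        · exact hc
      have hlin : lin y c = algebraMap K F (c 0) := by
        rw [lin_eq, hc, map_zero, zero_mul, add_zero]
      have hval : ∀ μ : AddValuation F (WithTop ℤ), Plc K μ → val μ (lin y c) = 0 := by
        intro μ hμ
        unfold val
        rw [hlin, val_const hμ hc00]
        rfl
      refine ⟨?_, ?_⟩
      · intro p μ hμ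
        have h1 := c2 p μ hμ
        refine ⟨?_, fun _ => hval μ h1.1⟩
        intro h2
        rw [h2] at h1
        exact absurd h1.2 (not_le.2 hy0)
      · intro μ hμ
        have h1 := c3 μ hμ
        refine ⟨fun _ => hval μ h1.1, ?_⟩
        intro h2
        exact absurd (c5 μ ν h1.1 hν h1.2 hy0) h2
    · have hpos := hcA hc
      have hy0 : 0 ≤ ν (y 0) := y_nonneg hc hν hpos
      obtain ⟨p0, hp0⟩ : ∃ p : MvPolynomial (Fin 1) K, OrdP y p ν := by
        rcases c1 ν hν with h | h
        · exact h.2
        · exact absurd h.1 (not_lt.2 hy0)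
      have hass : ∀ (p : MvPolynomial (Fin 1) K) (μ : AddValuation F (WithTop ℤ)), OrdP y p μ →
          0 < μ (lin y c) → Associated p (qq c) := by
        intro p μ hμ h
        rw [← aeval_qq] at h
        have h1 := (hμ.2 (qq c) 1).1 (one_le h)
        rw [pow_one] at h1
        exact hμ.1.associated_of_dvd (irr_qq hc) h1
      refine ⟨?_, ?_⟩
      · intro p μ hμ
        refine ⟨?_, ?_⟩
        · intro h
          rw [← h] at hpos
          have h1 : μ (MvPolynomial.aeval y (qq c)) = (((1 : ℕ) : ℤ) : WithTop ℤ) := by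
            refine eq_of_between (one_le (by rw [aeval_qq]; exact hpos)) ?_
            intro h2
            have h3 := (hμ.2 (qq c) 2).1 h2
            obtain ⟨t, ht⟩ := h3
            have h4 : qq c = p * (p * t) := by rw [ht]; ring
            rcases (irr_qq hc).isUnit_or_isUnit h4 with h5 | h5
            · exact hμ.1.not_isUnit h5
            · exact hμ.1.not_isUnit (isUnit_of_mul_isUnit_left h5)
          unfold val
          rw [← aeval_qq, h1]
          rfl
        · intro h
          have h1 : ¬ 0 < μ (lin y c) := by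
            intro h2
            apply h
            have h3 := hass p μ hμ h2
            obtain ⟨t, ht⟩ := h3.symm.dvd
            refine (c4 p μ ν hμ hν hy0 ?_).symm
            rw [ht, map_mul, ν.map_mul, aeval_qq]
            exact lt_of_lt_of_le hpos (le_add_of_nonneg_right (nonneg hp0 t))
          have h2 : μ (MvPolynomial.aeval y (qq c)) = (((0 : ℕ) : ℤ) : WithTop ℤ) := by
            refine eq_of_between (nonneg hμ (qq c)) ?_
            intro h3
            apply h1
            rw [← aeval_qq]
            exact pos_of_one_le h3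
          unfold val
          rw [← aeval_qq, h2]
          rfl
      · intro μ hμ
        have h1 : μ (lin y c) = ((-1 : ℤ) : WithTop ℤ) := by
          rw [← aeval_qq, hμ (qq c) (ne_qq hc), deg_qq hc]
          rfl
        refine ⟨?_, ?_⟩
        · intro h
          rw [← h, h1] at hpos
          have h2 : (0 : ℤ) < -1 := WithTop.coe_lt_coe.1 hpos
          omega
        · intro _
          unfold val
          rw [h1]
          rfl

end Pool.Agent.Work.MP_a2680c_ag.HA
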