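import Pool.Agent.Work.MP_a2680c_ag.HA.StmtsE

/-! Item [a2680c HA Rsd] (helper9): the residue matroid. -/

set_option autoImplicit false

noncomputable section

namespace Pool.Agent.Work.MP_a2680c_ag.HA

open MP7b66e6 MP7b66e6.Q
open scoped BigOperators

universe u

namespace XRsd

variable {F : Type u} [Field F]

/-- the valuation ring -/
def vr (W : AddValuation F (WithTop ℤ)) : Subring F where
  carrier := {f | 0 ≤ W f}
  mul_mem' := by
    intro a b ha hb
    change 0 ≤ W (a * b)
    rw [AddValuation.map_mul]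
    exact add_nonneg ha hb
  one_mem' := by
    change 0 ≤ W 1
    rw [AddValuation.map_one]
  add_mem' := by
    intro a b ha hb
    exact le_trans (le_min ha hb) (AddValuation.map_add W a b)
  zero_mem' := by
    change 0 ≤ W 0
    rw [AddValuation.map_zero]; exact le_top
  neg_mem' := by
    intro a ha
    change 0 ≤ W (-a)
    rw [AddValuation.map_neg]; exact ha

/-- the maximal ideal -/
def mi (W : AddValuation F (WithTop ℤ)) : Ideal (vr W) where
  carrier := {f | 0 < W (f : F)}
  add_mem' := by
    intro a b ha hb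
    exact lt_of_lt_of_le (lt_min ha hb) (AddValuation.map_add W (a : F) (b : F))
  zero_mem' := by
    change 0 < W ((0 : vr W) : F)
    rw [Subring.coe_zero, AddValuation.map_zero]; exact WithTop.coe_lt_top 0
  smul_mem' := by
    intro c x hx
    change 0 < W ((c • x : vr W) : F)
    rw [smul_eq_mul, Subring.coe_mul, AddValuation.map_mul]
    have h1 : (0 : WithTop ℤ) ≤ W (c : F) := c.2
    have h2 : (0 : WithTop ℤ) < W (x : F) := hx
    exact lt_of_lt_of_le h2 (le_add_of_nonneg_left h1)

theorem mem_mi (W : AddValuation F (WithTop ℤ)) (x : vr W) : x ∈ mi W ↔ 0 < W (x : F) := Iff.rfl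

theorem mi_max (W : AddValuation F (WithTop ℤ)) : (mi W).IsMaximal := by
  rw [Ideal.isMaximal_iff]
  constructor
  · intro h
    rw [mem_mi, Subring.coe_one, AddValuation.map_one] at h
    exact lt_irrefl _ h
  · intro J x _ hx hxJ
    rw [mem_mi] at hx
    have h0 : W (x : F) = 0 := le_antisymm (not_lt.1 hx) x.2
    have hne : (x : F) ≠ 0 := by
      intro h; rw [h, AddValuation.map_zero] at h0; exact absurd h0 (by simp)
    have hinv : 0 ≤ W ((x : F)⁻¹) := by
      rw [← Api.val_nonneg W (inv_ne_zero hne), Api.val_inv W hne, Api.val_of W (m := 0) h0]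
      simp
    have h1 : (1 : vr W) = (⟨(x : F)⁻¹, hinv⟩ : vr W) * x := by
      apply Subtype.ext
      rw [Subring.coe_one, Subring.coe_mul]
      exact (inv_mul_cancel₀ hne).symm
    rw [h1]
    exact J.mul_mem_left _ hxJ

theorem det_up {n : ℕ} (k : Fin (n + 1)) (w : Fin (n + 1) → F) :
    ((1 : Matrix (Fin (n + 1)) (Fin (n + 1)) F).updateRow k w).det = w k := by
  rw [← Matrix.cramer_transpose_apply, Matrix.transpose_one, Matrix.cramer_one]
  rfl

end XRsd

open XRsd in
theorem pr_Rsd : StRsd.{u} := by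
  classical
  intro F _ W n N a hnn b₀ hb₀
  set M₀ : Matrix (Fin (n + 1)) (Fin (n + 1)) F := Matrix.of fun k j => a (b₀ k) j with hM₀
  have hdet0 : M₀.det = mnr a b₀ := rfl
  have hm0 : mnr a b₀ ≠ 0 := by
    intro h; rw [h, AddValuation.map_zero] at hb₀; exact absurd hb₀ (by simp)
  have hunit : IsUnit M₀.det := by rw [hdet0]; exact hm0.isUnit
  set α : Fin N → Fin (n + 1) → F := fun i => Matrix.vecMul (a i) M₀⁻¹ with hα
  have hαb : ∀ b : Fin (n + 1) → Fin N, (Matrix.of fun j k => α (b j) k) = (Matrix.of fun j k => a (b j) k) * M₀⁻¹ := by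
    intro b
    ext j k
    rfl
  have hmul : ∀ b : Fin (n + 1) → Fin N, mnr a b = mnr α b * mnr a b₀ := by
    intro b
    have h1 : mnr α b = (Matrix.of fun j k => α (b j) k).det := rfl
    have h2 : mnr a b = (Matrix.of fun j k => a (b j) k).det := rfl
    rw [h1, hαb b, Matrix.det_mul, Matrix.det_nonsing_inv, ← h2, ← hdet0, mul_assoc,
      Ring.inverse_mul_cancel _ hunit, mul_one]
  have hval : ∀ b, W (mnr α b) = W (mnr a b) := by
    intro b
    rw [hmul b, AddValuation.map_mul, hb₀, add_zero]
  have hunitrow : ∀ k, α (b₀ k) = Pi.single k 1 := by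
    intro k
    have h1 := hαb b₀
    rw [show (Matrix.of fun j k => a (b₀ j) k) = M₀ from rfl, Matrix.mul_nonsing_inv _ hunit] at h1
    have h2 := congrFun h1 k
    funext l
    have h3 := congrFun h2 l
    change α (b₀ k) l = _ at h3
    rw [h3, Matrix.one_apply, Pi.single_apply]
    simp only [eq_comm]
  have hent : ∀ i k, mnr α (Function.update b₀ k i) = α i k := by
    intro i k
    have : mnr α (Function.update b₀ k i) = ((1 : Matrix (Fin (n + 1)) (Fin (n + 1)) F).updateRow k (α i)).det := by
      unfold mnr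
      congr 1
      ext j l
      rw [Matrix.updateRow_apply]
      by_cases hj : j = k
      · subst hj; rw [Function.update_self, if_pos rfl]
      · rw [Function.update_of_ne hj, if_neg hj, hunitrow j, Matrix.one_apply, Pi.single_apply]
        simp only [eq_comm]
    rw [this, det_up]
  have hO : ∀ i k, 0 ≤ W (α i k) := by
    intro i k
    rw [← hent i k, hval]
    exact hnn _
  haveI := mi_max W
  letI : Field (vr W ⧸ mi W) := Ideal.Quotient.field (mi W)
  refine ⟨vr W ⧸ mi W, inferInstance, fun i k => Ideal.Quotient.mk (mi W) ⟨α i k, hO i k⟩, fun b => ?_⟩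
  set β : Matrix (Fin (n + 1)) (Fin (n + 1)) (vr W) := Matrix.of fun j k => ⟨α (b j) k, hO (b j) k⟩ with hβ
  have h1 : mnr (fun i k => Ideal.Quotient.mk (mi W) ⟨α i k, hO i k⟩) b = Ideal.Quotient.mk (mi W) β.det := by
    rw [RingHom.map_det]
    rfl
  have h2 : ((β.det : vr W) : F) = mnr α b := by
    have := (RingHom.map_det (vr W).subtype β)
    rw [show ((β.det : vr W) : F) = (vr W).subtype β.det from rfl, this]
    rfl
  have h3 : Ideal.Quotient.mk (mi W) β.det = 0 ↔ 0 < W (mnr a b) := by
    rw [Ideal.Quotient.eq_zero_iff_mem, mem_mi, h2, hval]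
  rw [ne_eq, h1]
  constructor
  · intro h
    have h4 : ¬ 0 < W (mnr a b) := fun h5 => h (h3.2 h5)
    exact le_antisymm (not_lt.1 h4) (hnn b)
  · intro h h5
    have := h3.1 h5
    rw [h] at this
    exact lt_irrefl _ this

end Pool.Agent.Work.MP_a2680c_ag.HA
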