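import Pool.Agent.Work.MP_a2680c_ag.HA.StmtsR

/-!
# MP_a2680c_ag, block HA, item Rsg: the value of a general member is at least the least value
-/

set_option autoImplicit false

noncomputable section

namespace Pool.Agent.Work.MP_a2680c_ag.HA

open MP7b66e6 MP7b66e6.Q
open scoped BigOperators

universe u

theorem pr_Rsg : StRsg.{u} := by
  intro k K _ _ _ S t v hk hS hne
  have hspec := Api.mnS_spec hS v
  have h1 : ((mnS S v : ℤ) : WithTop ℤ) ≤ v (sgm S t) := by
    unfold sgm
    refine AddValuation.map_le_sum v fun s hs => ?_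
    rw [AddValuation.map_mul]
    have h2 : ((mnS S v : ℤ) : WithTop ℤ) ≤ v (s : K) := by
      rw [Api.coe_val v s.ne_zero]
      exact WithTop.coe_le_coe.2 (hspec.2 s hs)
    calc ((mnS S v : ℤ) : WithTop ℤ) = 0 + ((mnS S v : ℤ) : WithTop ℤ) := (zero_add _).symm
      _ ≤ v (algebraMap k K (t s)) + v (s : K) := add_le_add (hk _) h2
  rw [Api.coe_val v hne] at h1
  exact WithTop.coe_le_coe.1 h1

end Pool.Agent.Work.MP_a2680c_ag.HA
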