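import Pool.Agent.Work.MP_a2680c_ag.HA.StmtsR

/-! [a2680c HA Rst] (helper9): general members, assembly of STAR. -/

set_option autoImplicit false

noncomputable section

namespace Pool.Agent.Work.MP_a2680c_ag.HA

open MP7b66e6 MP7b66e6.Q
open scoped BigOperators

universe u

namespace XRst

section
variable {K : Type u} [Field K]

theorem ev_scale (v w : AddValuation K (WithTop ℤ)) (c : ℤ) (φ : Kˣ →₀ ℝ)
    (h : ∀ s ∈ φ.support, val v (s : K) = c * val w (s : K)) : ev v φ = c * ev w φ := by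
  unfold ev Finsupp.sum
  rw [Finset.mul_sum]
  refine Finset.sum_congr rfl fun s hs => ?_
  change φ s * (val v (s : K) : ℝ) = c * (φ s * (val w (s : K) : ℝ))
  rw [h s hs]
  push_cast
  ring

theorem mnS_scale (v w : AddValuation K (WithTop ℤ)) (c : ℤ) (hc : 0 ≤ c) (S : Finset Kˣ) (hS : S.Nonempty)
    (h : ∀ s ∈ S, val v (s : K) = c * val w (s : K)) : mnS S v = c * mnS S w := by
  obtain ⟨⟨s, hs, h1⟩, h2⟩ := Api.mnS_spec hS v
  obtain ⟨⟨s', hs', h1'⟩, h2'⟩ := Api.mnS_spec hS w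
  apply le_antisymm
  · rw [h1', ← h s' hs']
    exact h2 s' hs'
  · rw [h1, h s hs]
    exact mul_le_mul_of_nonneg_left (h2' s hs) hc

theorem nonneg_const {k : Type u} [Field k] [Algebra k K] {v : AddValuation K (WithTop ℤ)} (h : Divisorial k v) (c : k) :
    0 ≤ v (algebraMap k K c) := by
  obtain ⟨_, C, _, hC, _⟩ := h
  exact hC _ (C.algebraMap_mem c)

end

end XRst

theorem pr_Rst (hTb : StTb.{u}) (hGrm : StGrm.{u}) (hCan : StCan.{u}) (hRka : StRka.{u}) (hRkb : StRkb.{u})
    (hRlg : StRlg.{u}) (hRne : StRne.{u}) (hRdt : StRdt.{u}) (hRky : StRky.{u}) (hRfn : StRfn.{u}) (hRsg : StRsg.{u}) :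
    StRst.{u} := by
  classical
  intro k K _ _ _ _ _ e l M r Z L Ξ w S htr hr hZ hdL hcL hM hw hS hpos
  haveI hEft : Algebra.EssFiniteType k K := (hGrm k K Z hZ).1
  obtain ⟨⟨pd, hpd⟩, _⟩ := hTb k K e r hr
  obtain ⟨q, G, g, φ, hc1, hc2⟩ := hRfn k K e r Z L hr hZ hdL hcL
  set A : Finset K := (Finset.univ.biUnion G) ∪ (Finset.univ.image g) ∪
    (Finset.univ.biUnion fun i => (φ i).support.image (fun s : Kˣ => (s : K))) ∪
    (Ξ.support.image (fun s : Kˣ => (s : K))) ∪ (Finset.univ.biUnion fun i => (S i).image (fun s : Kˣ => (s : K))) ∪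
    Finset.univ.image r with hA
  have hAG : ∀ i, ∀ c ∈ G i, c ∈ A := by
    intro i c hc
    simp only [hA, Finset.mem_union, Finset.mem_biUnion, Finset.mem_univ, true_and]
    exact Or.inl (Or.inl (Or.inl (Or.inl (Or.inl ⟨i, hc⟩))))
  have hAg : ∀ i, g i ∈ A := by
    intro i
    simp only [hA, Finset.mem_union, Finset.mem_image, Finset.mem_univ, true_and]
    exact Or.inl (Or.inl (Or.inl (Or.inl (Or.inr ⟨i, rfl⟩))))
  have hAφ : ∀ i, ∀ s ∈ (φ i).support, (s : K) ∈ A := by
    intro i s hs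
    simp only [hA, Finset.mem_union, Finset.mem_biUnion, Finset.mem_univ, true_and]
    exact Or.inl (Or.inl (Or.inl (Or.inr ⟨i, Finset.mem_image_of_mem _ hs⟩)))
  have hAΞ : ∀ s ∈ Ξ.support, (s : K) ∈ A := by
    intro s hs
    simp only [hA, Finset.mem_union]
    exact Or.inl (Or.inl (Or.inr (Finset.mem_image_of_mem _ hs)))
  have hAS : ∀ i, ∀ s ∈ S i, (s : K) ∈ A := by
    intro i s hs
    simp only [hA, Finset.mem_union, Finset.mem_biUnion, Finset.mem_univ, true_and]
    exact Or.inl (Or.inr ⟨i, Finset.mem_image_of_mem _ hs⟩)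
  have hAr : ∀ j, r j ∈ A := by
    intro j
    simp only [hA, Finset.mem_union]
    exact Or.inr (Finset.mem_image_of_mem _ (Finset.mem_univ j))
  obtain ⟨B, hB⟩ := hRkb k K A
  -- the constants
  let T : Type u := Σ i : Fin l, {s : Kˣ // s ∈ S i}
  let E : T ≃ Fin (Fintype.card T) := Fintype.equivFin T
  obtain ⟨ι, t₀, pt₀, hιB, hk, hd⟩ := hRka k htr B (Fintype.card T)
  obtain ⟨I, hI, hIA⟩ := hB ι hιB
  let t : Fin l → Kˣ → k := fun i s => if h : s ∈ S i then t₀ (E ⟨i, s, h⟩) else 0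
  let pt : Fin l → Kˣ → Derivation ℤ k k := fun i s => if h : s ∈ S i then pt₀ (E ⟨i, s, h⟩) else 0
  have ht : ∀ i s (h : s ∈ S i), t i s = t₀ (E ⟨i, s, h⟩) := fun i s h => dif_pos h
  have hpt : ∀ i s (h : s ∈ S i), pt i s = pt₀ (E ⟨i, s, h⟩) := fun i s h => dif_pos h
  have hfixr : ∀ j, I (r j) = r j := fun j => hIA _ (hAr j)
  have hfixS : ∀ i, ∀ s ∈ S i, I (s : K) = s := fun i s hs => hIA _ (hAS i s hs)
  have hptι : ∀ i, ∀ s ∈ S i, ∀ c, pt i s (ι c) = 0 := by
    intro i s hs c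
    rw [hpt i s hs]
    exact hk _ c
  have hpt1 : ∀ i, ∀ s ∈ S i, pt i s (t i s) = 1 := by
    intro i s hs
    rw [hpt i s hs, ht i s hs, hd, if_pos rfl]
  have hpt0 : ∀ i, ∀ s ∈ S i, ∀ j, ∀ s' ∈ S j, ¬ (i = j ∧ s = s') → pt i s (t j s') = 0 := by
    intro i s hs j s' hs' hne
    rw [hpt i s hs, ht j s' hs', hd, if_neg]
    intro h
    apply hne
    have h1 := E.injective h
    have h2 : i = j := congrArg Sigma.fst h1
    subst h2
    have h3 : (⟨s, hs⟩ : {s : Kˣ // s ∈ S i}) = ⟨s', hs'⟩ := eq_of_heq (Sigma.mk.inj h1).2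
    exact ⟨rfl, congrArg Subtype.val h3⟩
  have hne : ∀ i, sgm (S i) (t i) ≠ 0 := fun i =>
    hRne k K e r pd hpd hr ι I hI hfixr (S i) (t i) (pt i) (hS i) (hfixS i) (hptι i) (hpt1 i)
      (fun s hs s' hs' h => hpt0 i s hs i s' hs' fun h' => h h'.2)
  refine ⟨fun i => Units.mk0 _ (hne i), ?_, ?_⟩
  · intro i v hv
    exact hRsg k K (S i) (t i) v (fun c => XRst.nonneg_const hv.1 c) (hS i) (hne i)
  · intro v hv
    have hk0 : ∀ c : k, 0 ≤ v (algebraMap k K c) := fun c => XRst.nonneg_const hv.1 c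
    obtain ⟨A₀, hA₀⟩ := (hCan k K e r v).2 pd hpd hv.1
    have hcan : can k r v = (A₀ : ℝ) - 1 := Api.can_eq hA₀
    have hdt := hRdt k K e l r pd hpd hr ι I hI hfixr S t pt hS hfixS hptι hpt1 hpt0 hne v A₀ hk0 (hRlg k K v hv.1) hA₀
    let μ : AddValuation K (WithTop ℤ) := v.comap I
    have hμ : ∀ f, μ f = v (I f) := fun f => rfl
    have hμv : ∀ f, val μ f = val v (I f) := fun f => rfl
    have hμk : ∀ c : k, 0 ≤ μ (algebraMap k K c) := by
      intro c
      rw [hμ, hI]
      exact hk0 _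
    set H : ℤ := ∑ i, (val v (sgm (S i) (t i)) - mnS (S i) v) with hH
    obtain ⟨i, hi1, hi2⟩ := hc1 v hv
    have hLv : Lv Z L v = ev v (φ i) := (hc2 i v hv.1 hi1 hi2).2
    have hsum : ∑ i, ((val v ((Units.mk0 _ (hne i) : Kˣ) : K) : ℝ) - (mnS (S i) v : ℝ)) = (H : ℝ) := by
      rw [hH]
      push_cast
      rfl
    rw [hsum]
    have hT : Tv r Z L Ξ v = A₀ - ev v (φ i) - ev v Ξ := by
      unfold Tv
      rw [hcan, hLv]
      ring
    rw [hT]
    rcases hRky k K e r pd hpd hr μ hμk (A₀ - H) (by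
      intro f hf hdet
      have h1 := hdt f hf hdet
      rw [hμv]
      linarith) with ⟨htriv, hT0⟩ | ⟨w', ε, A₁, hε, hw', hval, hLD, hle⟩
    · -- trivial
      have h0 : ∀ s : Kˣ, (s : K) ∈ A → val v (s : K) = 0 * val v (s : K) := by
        intro s hs
        rw [zero_mul, ← htriv _ s.ne_zero, hμv, hIA _ hs]
      have e1 : ev v (φ i) = 0 := by
        rw [XRst.ev_scale v v 0 (φ i) fun s hs => h0 s (hAφ i s hs)]
        simp
      have e2 : ev v Ξ = 0 := by
        rw [XRst.ev_scale v v 0 Ξ fun s hs => h0 s (hAΞ s hs)]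
        simp
      have e3 : Dmg w S M v = 0 := by
        unfold Dmg
        have : ∀ j, (mnS (S j) v : ℝ) = 0 := by
          intro j
          rw [XRst.mnS_scale v v 0 le_rfl (S j) (hS j) fun s hs => h0 s (hAS j s hs)]
          simp
        simp [this]
      rw [e1, e2, e3]
      have : (0 : ℝ) ≤ ((A₀ - H : ℤ) : ℝ) := by exact_mod_cast hT0
      push_cast at this
      linarith
    · -- a multiple of a divisor over `Z`
      have hε' : (0 : ℤ) < ε := by exact_mod_cast hε
      have h0 : ∀ f : K, f ≠ 0 → f ∈ A → val v f = (ε : ℤ) * val w' f := by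
        intro f hf hfA
        rw [← hval f hf, hμv, hIA _ hfA]
      have hG : ∀ c ∈ G i, 0 ≤ w' c := by
        intro c hc
        by_cases hc0 : c = 0
        · rw [hc0, AddValuation.map_zero]; exact le_top
        · rw [← Api.val_nonneg w' hc0]
          have h1 := hi1 c hc
          rw [← Api.val_nonneg v hc0, h0 c hc0 (hAG i c hc)] at h1
          exact nonneg_of_mul_nonneg_right h1 hε'
      have hg0 : g i ≠ 0 := by
        intro h
        rw [h, AddValuation.map_zero] at hi2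
        exact absurd hi2 (by simp)
      have hg : w' (g i) = 0 := by
        have h1 : val v (g i) = 0 := Api.val_of v hi2
        rw [h0 _ hg0 (hAg i)] at h1
        have h2 : val w' (g i) = 0 := by
          rcases mul_eq_zero.1 h1 with h | h
          · omega
          · exact h
        rw [Api.coe_val w' hg0, h2]
        rfl
      obtain ⟨hwZ, hLw⟩ := hc2 i w' hw' hG hg
      have hp := hpos w' hwZ
      have hcan' : can k r w' = (A₁ : ℝ) - 1 := Api.can_eq hLD
      have hT' : Tv r Z L Ξ w' = A₁ - ev w' (φ i) - ev w' Ξ := by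
        unfold Tv
        rw [hcan', hLw]
        ring
      have e1 : ev v (φ i) = ε * ev w' (φ i) := by
        have := XRst.ev_scale v w' ε (φ i) fun s hs => h0 s s.ne_zero (hAφ i s hs)
        rw [this]; push_cast; rfl
      have e2 : ev v Ξ = ε * ev w' Ξ := by
        have := XRst.ev_scale v w' ε Ξ fun s hs => h0 s s.ne_zero (hAΞ s hs)
        rw [this]; push_cast; rfl
      have e3 : Dmg w S M v = ε * Dmg w S M w' := by
        unfold Dmg
        have : ∀ j, (mnS (S j) v : ℝ) = ε * (mnS (S j) w' : ℝ) := by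
          intro j
          rw [XRst.mnS_scale v w' ε hε'.le (S j) (hS j) fun s hs => h0 s s.ne_zero (hAS j s hs)]
          push_cast; rfl
        simp only [this]
        have h5 : ∑ j, w j * ((ε : ℝ) * (mnS (S j) w' : ℝ)) = ε * ∑ j, w j * (mnS (S j) w' : ℝ) := by
          rw [Finset.mul_sum]
          exact Finset.sum_congr rfl fun j _ => by ring
        rw [h5]
        ring
      rw [hT'] at hp
      rw [e1, e2, e3]
      have h6 : (ε : ℝ) * A₁ ≤ A₀ - H := by
        have : ((ε * A₁ : ℤ) : ℝ) ≤ ((A₀ - H : ℤ) : ℝ) := by exact_mod_cast hle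
        push_cast at this
        exact this
      have hεr : (0 : ℝ) < ε := by exact_mod_cast hε
      have h7 := mul_nonneg hεr.le hp
      nlinarith [h6, h7]

end Pool.Agent.Work.MP_a2680c_ag.HA
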