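import Pool.Agent.Work.MP_a2680c_ag.HA.StmtsX

/-! # MP_a2680c_ag, block HA, item Spl: a splitting field -/

set_option autoImplicit false

noncomputable section

namespace Pool.Agent.Work.MP_a2680c_ag.HA

open MP7b66e6 MP7b66e6.Q
open scoped BigOperators

universe u

namespace XSpl

/-- the field of constants -/
theorem exists_field {K K₁ : Type u} [Field K] [CharZero K] [Field K₁] [Algebra K K₁]
    [FiniteDimensional K K₁] [IsGalois K K₁] (Q : Polynomial K₁) (hQ : Q ≠ 0) :
    ∃ (K₂ : Type u) (_ : Field K₂) (_ : Algebra K K₂) (_ : Algebra K₁ K₂)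
      (_ : IsScalarTower K K₁ K₂) (_ : FiniteDimensional K K₂) (_ : IsGalois K K₂),
      (Q.map (algebraMap K₁ K₂)).Splits := by
  obtain ⟨g, hg0, hg⟩ := Polynomial.exists_dvd_map_of_isAlgebraic (R := K) hQ
  obtain ⟨q, hq, hqs⟩ := IsGalois.is_separable_splitting_field K K₁
  set K₂ := (g.map (algebraMap K K₁)).SplittingField with hK₂
  have hsf : (q * g).IsSplittingField K K₂ :=
    Polynomial.IsSplittingField.mul (F := K) (K := K₁) (L := K₂) q g hq.ne_zero hg0
  have hfd : FiniteDimensional K K₂ := Polynomial.IsSplittingField.finiteDimensional K₂ (q * g)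
  have hn : Normal K K₂ := Normal.of_isSplittingField (q * g)
  have hs : Algebra.IsSeparable K K₂ := inferInstance
  have hgal : IsGalois K K₂ := ⟨⟩
  refine ⟨K₂, inferInstance, inferInstance, inferInstance, inferInstance, hfd, hgal, ?_⟩
  have h1 : ((g.map (algebraMap K K₁)).map (algebraMap K₁ K₂)).Splits :=
    Polynomial.SplittingField.splits _
  refine h1.of_dvd ?_ (Polynomial.map_dvd _ hg)
  rw [Polynomial.map_map]
  exact Polynomial.map_ne_zero hg0

theorem exists_equiv {K F : Type u} [Field K] [Field F] [Algebra K F] {n : ℕ} (z : Fin n → F)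
    (hz : GenBy K z) : ∃ e : FractionRing (MvPolynomial (Fin n) K) ≃+* F,
      ∀ P, e (algebraMap (MvPolynomial (Fin n) K) _ P) = MvPolynomial.aeval z P := by
  obtain ⟨h1, h2⟩ := hz
  refine ⟨(h1.aevalEquivField.trans ((IntermediateField.equivOfEq h2).trans
    IntermediateField.topEquiv)).toRingEquiv, fun P => ?_⟩
  exact h1.aevalEquivField_algebraMap_apply_coe P

/-- extension of the constants of a field of rational functions -/
theorem exists_ratfield {K₁ K₂ F₁ : Type u} [Field K₁] [Field K₂] [Field F₁] [Algebra K₁ K₂]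
    [Algebra K₁ F₁] {n : ℕ} (y₁ : Fin n → F₁) (hy : GenBy K₁ y₁) :
    ∃ (F₂ : Type u) (_ : Field F₂) (_ : Algebra K₂ F₂) (φ : F₁ →+* F₂) (y₂ : Fin n → F₂),
      GenBy K₂ y₂ ∧ (∀ i, φ (y₁ i) = y₂ i) ∧
      ∀ c, φ (algebraMap K₁ F₁ c) = algebraMap K₂ F₂ (algebraMap K₁ K₂ c) := by
  obtain ⟨e, he⟩ := exists_equiv y₁ hy
  set F₂ := FractionRing (MvPolynomial (Fin n) K₂) with hF₂
  set y₂ : Fin n → F₂ := fun i => algebraMap (MvPolynomial (Fin n) K₂) F₂ (MvPolynomial.X i) with hy₂
  have haev : ∀ P : MvPolynomial (Fin n) K₂, MvPolynomial.aeval y₂ P =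
      algebraMap (MvPolynomial (Fin n) K₂) F₂ P := by
    intro P
    have h1 : MvPolynomial.aeval y₂ =
        IsScalarTower.toAlgHom K₂ (MvPolynomial (Fin n) K₂) F₂ := by
      apply MvPolynomial.algHom_ext
      intro i
      simp [hy₂]
    rw [h1]
    rfl
  have hinj : Function.Injective (algebraMap (MvPolynomial (Fin n) K₂) F₂) :=
    IsFractionRing.injective _ _
  set ψ : MvPolynomial (Fin n) K₁ →+* F₂ :=
    (algebraMap (MvPolynomial (Fin n) K₂) F₂).comp (MvPolynomial.map (algebraMap K₁ K₂)) with hψ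
  have hψi : Function.Injective ψ :=
    hinj.comp (MvPolynomial.map_injective _ (algebraMap K₁ K₂).injective)
  set Ψ : FractionRing (MvPolynomial (Fin n) K₁) →+* F₂ := IsFractionRing.lift hψi with hΨ
  have hΨa : ∀ P, Ψ (algebraMap (MvPolynomial (Fin n) K₁) _ P) = ψ P := fun P =>
    IsFractionRing.lift_algebraMap hψi P
  have hes : ∀ P, e.symm (MvPolynomial.aeval y₁ P) =
      algebraMap (MvPolynomial (Fin n) K₁) _ P := by
    intro P
    rw [← he, RingEquiv.symm_apply_apply]
  refine ⟨F₂, inferInstance, inferInstance, Ψ.comp (e.symm : F₁ →+* _), y₂, ⟨?_, ?_⟩, ?_, ?_⟩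
  · rw [algebraicIndependent_iff_injective_aeval]
    intro P P' h
    rw [haev, haev] at h
    exact hinj h
  · rw [eq_top_iff]
    rintro f -
    obtain ⟨a, b, hb, rfl⟩ := IsFractionRing.div_surjective (A := MvPolynomial (Fin n) K₂) f
    have h2 : ∀ P : MvPolynomial (Fin n) K₂, algebraMap (MvPolynomial (Fin n) K₂) F₂ P ∈
        IntermediateField.adjoin K₂ (Set.range y₂) := by
      intro P
      rw [← haev]
      have h3 : MvPolynomial.aeval y₂ P ∈ Algebra.adjoin K₂ (Set.range y₂) := by
        rw [Algebra.adjoin_range_eq_range_aeval]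
        exact ⟨P, rfl⟩
      exact IntermediateField.algebra_adjoin_le_adjoin K₂ _ h3
    exact div_mem (h2 a) (h2 b)
  · intro i
    show Ψ (e.symm (y₁ i)) = _
    have h4 := hes (MvPolynomial.X i)
    rw [MvPolynomial.aeval_X] at h4
    rw [h4, hΨa]
    show algebraMap (MvPolynomial (Fin n) K₂) F₂ (MvPolynomial.map _ (MvPolynomial.X i)) = _
    rw [MvPolynomial.map_X]
  · intro c
    show Ψ (e.symm (algebraMap K₁ F₁ c)) = _
    have h4 := hes (MvPolynomial.C c)
    rw [MvPolynomial.aeval_C] at h4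
    rw [h4, hΨa]
    show algebraMap (MvPolynomial (Fin n) K₂) F₂ (MvPolynomial.map _ (MvPolynomial.C c)) = _
    rw [MvPolynomial.map_C, ← MvPolynomial.algebraMap_eq, ← IsScalarTower.algebraMap_apply]

/-- a constant has value `0` -/
theorem val_const {K F : Type u} [Field K] [Field F] [Algebra K F]
    (ν : AddValuation F (WithTop ℤ)) (hν : ∀ c : K, 0 ≤ ν (algebraMap K F c)) (c : K)
    (hc : c ≠ 0) : ν (algebraMap K F c) = 0 := by
  have h1 : ν (algebraMap K F c) + ν (algebraMap K F c⁻¹) = 0 := by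
    rw [← AddValuation.map_mul, ← map_mul, mul_inv_cancel₀ hc, map_one, AddValuation.map_one]
  exact ((add_eq_zero_iff_of_nonneg (hν c) (hν c⁻¹)).1 h1).1

theorem val_prod {F : Type u} [Field F] (ν : AddValuation F (WithTop ℤ)) (s : Multiset F)
    (hs : ∀ x ∈ s, ν x = 0) : ν s.prod = 0 := by
  induction s using Multiset.induction_on with
  | empty => rw [Multiset.prod_zero, AddValuation.map_one]
  | cons a s ih =>
    rw [Multiset.prod_cons, AddValuation.map_mul, hs a (Multiset.mem_cons_self a s),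
      ih (fun x hx => hs x (Multiset.mem_cons_of_mem hx)), add_zero]

/-- the value of a polynomial which splits -/
theorem val_split {K F : Type u} [Field K] [Field F] [Algebra K F]
    (ν : AddValuation F (WithTop ℤ)) (hν : ∀ c : K, 0 ≤ ν (algebraMap K F c)) (t : F)
    (ht : ∀ β : K, ν (t - algebraMap K F β) = 0) (P : Polynomial K) (hP : P.Splits)
    (h0 : P ≠ 0) : ν (Polynomial.aeval t P) = 0 := by
  have h1 := hP.eq_prod_roots
  rw [h1, map_mul, Polynomial.aeval_C, AddValuation.map_mul,
    val_const ν hν _ (Polynomial.leadingCoeff_ne_zero.2 h0), zero_add, map_multiset_prod,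
    Multiset.map_map]
  refine val_prod ν _ fun x hx => ?_
  obtain ⟨a, -, rfl⟩ := Multiset.mem_map.1 hx
  simp only [Function.comp_apply, map_sub, Polynomial.aeval_X, Polynomial.aeval_C]
  exact ht a

end XSpl

open XSpl in
theorem pr_Spl (hCls : StCls.{u}) : StSpl.{u} := by
  intro K E _ _ _ _ hG 𝒮 hfin hplc
  obtain ⟨-, K₁, F₁, i1, i2, i3, i4, i5, i6, i7, i8, i9, i10, y₁, hcomp, hind, hgen⟩ := hG
  -- elements of `F₁` are quotients of polynomials in `y₁ 0`
  have hrange : Set.range y₁ = {y₁ 0} := by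
    ext x
    constructor
    · rintro ⟨i, rfl⟩
      rw [Subsingleton.elim i 0]
      rfl
    · rintro rfl
      exact ⟨0, rfl⟩
  have hrep : ∀ f : F₁, ∃ g h : Polynomial K₁, h ≠ 0 ∧ Polynomial.aeval (y₁ 0) h ≠ 0 ∧
      f * Polynomial.aeval (y₁ 0) h = Polynomial.aeval (y₁ 0) g := by
    intro f
    have hf : f ∈ IntermediateField.adjoin K₁ {y₁ 0} := by
      rw [← hrange, hgen]
      trivial
    obtain ⟨r, s, hrs⟩ := (IntermediateField.mem_adjoin_simple_iff K₁ f).1 hf
    by_cases hs : Polynomial.aeval (y₁ 0) s = 0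
    · refine ⟨0, 1, one_ne_zero, by simp, ?_⟩
      rw [hrs, hs, div_zero, zero_mul, map_zero]
    · refine ⟨r, s, ?_, hs, ?_⟩
      · rintro rfl
        exact hs (map_zero _)
      · rw [hrs, div_mul_cancel₀ _ hs]
  have hπ : ∀ w : AddValuation E (WithTop ℤ), ∃ π : E, w ∈ 𝒮 → w π = 1 := by
    intro w
    by_cases hw : w ∈ 𝒮
    · obtain ⟨π, hπ⟩ := (hplc w hw).1
      exact ⟨π, fun _ => hπ⟩
    · exact ⟨0, fun h => (hw h).elim⟩
  choose π hπ using hπ
  choose g h hh0 hh hgh using hrep
  set S := hfin.toFinset with hS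
  set Q : Polynomial K₁ := ∏ w ∈ S, (g (algebraMap E F₁ (π w)) * h (algebraMap E F₁ (π w))) with hQ
  have hπ0 : ∀ w ∈ 𝒮, π w ≠ 0 := by
    intro w hw h0
    have h1 := hπ w hw
    rw [h0, AddValuation.map_zero] at h1
    exact WithTop.top_ne_one h1
  have hg0 : ∀ w ∈ 𝒮, g (algebraMap E F₁ (π w)) ≠ 0 := by
    intro w hw h0
    have h1 := hgh (algebraMap E F₁ (π w))
    rw [h0, map_zero] at h1
    rcases mul_eq_zero.1 h1 with h2 | h2
    · exact hπ0 w hw ((map_eq_zero _).1 h2)
    · exact hh _ h2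
  have hQ0 : Q ≠ 0 := by
    rw [hQ, Finset.prod_ne_zero_iff]
    intro w hw
    exact mul_ne_zero (hg0 w (by simpa [hS] using hw)) (hh0 _)
  obtain ⟨K₂, j1, j2, j3, j4, j5, j6, hsplit⟩ := exists_field (K := K) Q hQ0
  obtain ⟨F₂, j7, j8, φ, y₂, hgen₂, hφy, hφc⟩ :=
    exists_ratfield (K₂ := K₂) y₁ (⟨hind, hgen⟩ : GenBy K₁ y₁)
  letI a1 : Algebra E F₂ := (φ.comp (algebraMap E F₁)).toAlgebra
  letI a2 : Algebra K F₂ := ((algebraMap K₂ F₂).comp (algebraMap K K₂)).toAlgebra
  have t1 : IsScalarTower K K₂ F₂ := IsScalarTower.of_algebraMap_eq fun x => rfl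
  have t2 : IsScalarTower K E F₂ := IsScalarTower.of_algebraMap_eq fun x => by
    show algebraMap K₂ F₂ (algebraMap K K₂ x) = φ (algebraMap E F₁ (algebraMap K E x))
    rw [← IsScalarTower.algebraMap_apply K E F₁, IsScalarTower.algebraMap_apply K K₁ F₁, hφc,
      ← IsScalarTower.algebraMap_apply K K₁ K₂]
  have hE : ∀ x : E, algebraMap E F₂ x = φ (algebraMap E F₁ x) := fun x => rfl
  -- every subfield of `F₂` which contains `E` and `K₂` is everything
  have hfull : ∀ L : IntermediateField E F₂, (∀ c : K₂, algebraMap K₂ F₂ c ∈ L) → L = ⊤ := by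
    intro L hL
    -- the preimage in `F₁`
    let L₁ : IntermediateField E F₁ :=
      { carrier := {x | φ x ∈ L}
        mul_mem' := fun {a b} ha hb => by
          show φ (a * b) ∈ L
          rw [map_mul]
          exact L.mul_mem ha hb
        add_mem' := fun {a b} ha hb => by
          show φ (a + b) ∈ L
          rw [map_add]
          exact L.add_mem ha hb
        algebraMap_mem' := fun r => L.algebraMap_mem r
        inv_mem' := fun a ha => by
          show φ a⁻¹ ∈ L
          rw [map_inv₀]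
          exact L.inv_mem ha }
    have h1 : L₁ = ⊤ := by
      rw [eq_top_iff, ← hcomp, IntermediateField.adjoin_le_iff]
      rintro _ ⟨c, rfl⟩
      show φ (algebraMap K₁ F₁ c) ∈ L
      rw [hφc]
      exact hL _
    have h2 : ∀ i, y₂ i ∈ L := by
      intro i
      have h3 : y₁ i ∈ L₁ := by rw [h1]; trivial
      rw [← hφy]
      exact h3
    -- as a field over `K₂`
    let L₂ : IntermediateField K₂ F₂ :=
      { carrier := {x | x ∈ L}
        mul_mem' := fun {a b} ha hb => L.mul_mem ha hb
        add_mem' := fun {a b} ha hb => L.add_mem ha hb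
        algebraMap_mem' := fun r => hL r
        inv_mem' := fun a ha => L.inv_mem ha }
    have h4 : L₂ = ⊤ := by
      rw [eq_top_iff, ← hgen₂.2, IntermediateField.adjoin_le_iff]
      rintro _ ⟨i, rfl⟩
      exact h2 i
    rw [eq_top_iff]
    intro x _
    have h5 : x ∈ L₂ := by rw [h4]; trivial
    exact h5
  have hcomp₂ : IntermediateField.adjoin E (Set.range (algebraMap K₂ F₂)) = ⊤ :=
    hfull _ fun c => IntermediateField.subset_adjoin E _ ⟨c, rfl⟩
  -- `F₂` is a splitting field over `E`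
  obtain ⟨p, hp, hps⟩ := IsGalois.is_separable_splitting_field K K₂
  have hps' : (p.map (algebraMap K E)).IsSplittingField E F₂ := by
    rw [isSplittingField_iff_intermediateField]
    refine ⟨?_, hfull _ ?_⟩
    · rw [Polynomial.map_map, ← IsScalarTower.algebraMap_eq K E F₂,
        IsScalarTower.algebraMap_eq K K₂ F₂, ← Polynomial.map_map]
      exact (Polynomial.IsSplittingField.splits K₂ p).map _
    · -- the constants in the field generated by the roots
      set L := IntermediateField.adjoin E ((p.map (algebraMap K E)).rootSet F₂) with hL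
      let L₃ : IntermediateField K K₂ :=
        { carrier := {x | algebraMap K₂ F₂ x ∈ L}
          mul_mem' := fun {a b} ha hb => by
            show algebraMap K₂ F₂ (a * b) ∈ L
            rw [map_mul]
            exact L.mul_mem ha hb
          add_mem' := fun {a b} ha hb => by
            show algebraMap K₂ F₂ (a + b) ∈ L
            rw [map_add]
            exact L.add_mem ha hb
          algebraMap_mem' := fun r => by
            show algebraMap K₂ F₂ (algebraMap K K₂ r) ∈ L
            rw [← IsScalarTower.algebraMap_apply K K₂ F₂, IsScalarTower.algebraMap_apply K E F₂]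
            exact L.algebraMap_mem _
          inv_mem' := fun a ha => by
            show algebraMap K₂ F₂ a⁻¹ ∈ L
            rw [map_inv₀]
            exact L.inv_mem ha }
      have h1 : L₃ = ⊤ := by
        rw [eq_top_iff, ← (isSplittingField_iff_intermediateField.1 hps).2,
          IntermediateField.adjoin_le_iff]
        intro x hx
        show algebraMap K₂ F₂ x ∈ L
        refine IntermediateField.subset_adjoin E _ ?_
        rw [Polynomial.mem_rootSet] at hx ⊢
        refine ⟨(Polynomial.map_ne_zero_iff (algebraMap K E).injective).2 hx.1, ?_⟩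
        rw [Polynomial.aeval_map_algebraMap, Polynomial.aeval_algebraMap_apply, hx.2, map_zero]
      intro c
      have h2 : c ∈ L₃ := by rw [h1]; trivial
      exact h2
  have hfd : FiniteDimensional E F₂ :=
    Polynomial.IsSplittingField.finiteDimensional F₂ (p.map (algebraMap K E))
  have hgal : IsGalois E F₂ :=
    IsGalois.of_separable_splitting_field (p := p.map (algebraMap K E)) (hp.map)
  refine ⟨K₂, F₂, j1, j7, j2, a2, a1, j8, t2, t1, j5, j6, hfd, hgal, y₂, hgen₂, hcomp₂, ?_⟩
  rintro ν' ⟨hplc', w, hw, m, hm, hlies⟩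
  refine (hCls K₂ F₂ y₂ hgen₂).2.2.2.2.2 ν' hplc' ?_
  by_contra hcon
  push Not at hcon
  obtain ⟨hc1, hc2⟩ := hcon
  have hsub : ∀ β : K₂, ν' (y₂ 0 - algebraMap K₂ F₂ β) = 0 := by
    intro β
    refine le_antisymm (hc2 β) ?_
    exact le_trans (le_min hc1 (hplc'.2 β)) (AddValuation.map_sub ν' _ _)
  have hdiv : ∀ P : Polynomial K₁, P ≠ 0 → P ∣ Q →
      ν' (Polynomial.aeval (y₂ 0) (P.map (algebraMap K₁ K₂))) = 0 := by
    intro P hP0 hP
    refine val_split ν' hplc'.2 (y₂ 0) hsub _ ?_ (Polynomial.map_ne_zero hP0)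
    exact hsplit.of_dvd (Polynomial.map_ne_zero hQ0) (Polynomial.map_dvd _ hP)
  have hφP : ∀ P : Polynomial K₁, φ (Polynomial.aeval (y₁ 0) P) =
      Polynomial.aeval (y₂ 0) (P.map (algebraMap K₁ K₂)) := by
    intro P
    rw [Polynomial.aeval_def, Polynomial.hom_eval₂, Polynomial.aeval_def, Polynomial.eval₂_map,
      hφy]
    congr 1
    ext c
    exact hφc c
  have hwS : w ∈ S := by simpa [hS] using hw
  have hdQ : g (algebraMap E F₁ (π w)) * h (algebraMap E F₁ (π w)) ∣ Q := Finset.dvd_prod_of_mem _ hwS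
  have h1 := hdiv _ (hg0 w hw) ((dvd_mul_right _ _).trans hdQ)
  have h2 := hdiv _ (hh0 (algebraMap E F₁ (π w))) ((dvd_mul_left _ _).trans hdQ)
  have h3 := congrArg (fun x => ν' (φ x)) (hgh (algebraMap E F₁ (π w)))
  simp only [map_mul, AddValuation.map_mul] at h3
  rw [hφP, hφP, h1, h2, add_zero] at h3
  have h4 := hlies (π w) (hπ0 w hw)
  have h5 : val ν' (algebraMap E F₂ (π w)) = 0 := by
    rw [hE]
    unfold val
    rw [h3]
    rfl
  have h6 : val w (π w) = 1 := by
    unfold val
    rw [hπ w hw]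
    rfl
  rw [h5, h6] at h4
  have : (m : ℤ) = 0 := by simpa using h4.symm
  omega

end Pool.Agent.Work.MP_a2680c_ag.HA
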