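import Pool.Agent.Work.MP_a2680c_ag.HA.StmtsB

/-!
# MP_a2680c_ag, block HA, item Tb: derivations dual to a transcendence basis

`K` is formally étale over the polynomial ring `S = k[X_1, ..., X_e]` (localization, then a separable algebraic
extension), so `Ω[K/k]` is the base change of `Ω[S/k]`, with the basis `D (r i)`.
-/

set_option autoImplicit false

noncomputable section

namespace Pool.Agent.Work.MP_a2680c_ag.HA

open MP7b66e6 MP7b66e6.Q
open scoped BigOperators

universe u

namespace XTb

open TensorProduct

theorem basis {k K : Type u} [Field k] [CharZero k] [Field K] [Algebra k K] {e : ℕ}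
    {r : Fin e → K} (hr : IsTranscendenceBasis k r) :
    ∃ B : Module.Basis (Fin e) K (KaehlerDifferential k K),
      ∀ i, B i = KaehlerDifferential.D k K (r i) := by
  let S := MvPolynomial (Fin e) k
  let f : S →ₐ[k] K := MvPolynomial.aeval r
  let : Algebra S K := f.toRingHom.toAlgebra
  have hf : ∀ x : S, algebraMap S K x = f x := fun x => rfl
  have : IsScalarTower k S K := IsScalarTower.of_algebraMap_eq (fun x => by
    rw [hf]
    exact (f.commutes x).symm)
  have hinj : Function.Injective (algebraMap S K) :=
    algebraicIndependent_iff_injective_aeval.1 hr.1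
  have : FaithfulSMul S K := (faithfulSMul_iff_algebraMap_injective S K).2 hinj
  let : Algebra (FractionRing S) K := FractionRing.liftAlgebra S K
  have : IsScalarTower S (FractionRing S) K := FractionRing.isScalarTower_liftAlgebra S K
  -- `K` is algebraic over `S`
  have hA := hr.isAlgebraic
  have h1 : Algebra.IsAlgebraic S K := by
    refine Algebra.IsAlgebraic.of_ringHom_of_comp_eq
      (hr.1.aevalEquiv : S ≃ₐ[k] Algebra.adjoin k (Set.range r))
      (RingHom.id K) (AlgEquiv.surjective _) Function.injective_id ?_
    apply RingHom.ext
    intro x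
    change ((hr.1.aevalEquiv x : Algebra.adjoin k (Set.range r)) : K) = f x
    exact hr.1.algebraMap_aevalEquiv x
  have h2 : Algebra.IsAlgebraic (FractionRing S) K :=
    IsFractionRing.comap_isAlgebraic_iff.1 h1
  have : CharZero (FractionRing S) :=
    charZero_of_injective_algebraMap (algebraMap k (FractionRing S)).injective
  have h3 : Algebra.FormallyEtale (FractionRing S) K :=
    Algebra.FormallyEtale.of_isSeparable (FractionRing S) K
  have h4 : Algebra.FormallyEtale S (FractionRing S) :=
    Algebra.FormallyEtale.of_isLocalization (nonZeroDivisors S)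
  have h5 : Algebra.FormallyEtale S K := Algebra.FormallyEtale.comp S (FractionRing S) K
  refine ⟨((KaehlerDifferential.mvPolynomialBasis k (Fin e)).baseChange K).map
    (KaehlerDifferential.tensorKaehlerEquivOfFormallyEtale k S K), ?_⟩
  intro i
  rw [Module.Basis.map_apply, Module.Basis.baseChange_apply,
    KaehlerDifferential.mvPolynomialBasis_apply,
    KaehlerDifferential.tensorKaehlerEquivOfFormallyEtale_apply,
    KaehlerDifferential.mapBaseChange_tmul, one_smul, KaehlerDifferential.map_D, hf]
  change KaehlerDifferential.D k K (MvPolynomial.aeval r (MvPolynomial.X i)) = _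
  rw [MvPolynomial.aeval_X]

end XTb

theorem pr_Tb : StTb.{u} := by
  intro k K _ _ _ _ _ e r hr
  refine ⟨?_, ?_⟩
  · obtain ⟨B, hB⟩ := XTb.basis hr
    refine ⟨fun i => (B.coord i).compDer (KaehlerDifferential.D k K), ?_, ?_⟩
    · intro i j
      have h1 : (B.coord i).compDer (KaehlerDifferential.D k K) (r j) =
        B.coord i (KaehlerDifferential.D k K (r j)) := rfl
      rw [h1, ← hB j, Module.Basis.coord_apply, Module.Basis.repr_self, Finsupp.single_apply]
      by_cases h : i = j
      · rw [if_pos h, if_pos h.symm]
      · rw [if_neg h, if_neg (fun h' => h h'.symm)]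
    · intro E hE
      have h1 : E.liftKaehlerDifferential = 0 := by
        apply B.ext
        intro i
        rw [hB i, Derivation.liftKaehlerDifferential_comp_D, hE i]
        rfl
      rw [← Derivation.liftKaehlerDifferential_comp E, h1]
      ext x
      rfl
  · have h := hr.lift_cardinalMk_eq_trdeg
    simp at h
    exact h.symm

end Pool.Agent.Work.MP_a2680c_ag.HA
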