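import Pool.Agent.Work.MP_a2680c_ag.HA.StmtsG

set_option autoImplicit false

noncomputable section

namespace Pool.Agent.Work.MP_a2680c_ag.HA

open MP7b66e6 MP7b66e6.Q

universe u

theorem pr_Tbs : StTbs.{u} := by
  intro k K K' _ _ _ _ _ _ _ _ e r hr
  refine ⟨?_, ?_⟩
  · exact hr.algebraMap_comp (A := K')
  · intro h
    have h2 : Algebra.EssFiniteType K K' := inferInstance
    exact Algebra.EssFiniteType.comp k K K'

end Pool.Agent.Work.MP_a2680c_ag.HA
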