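import Pool.Agent.Work.MP_a2680c_ag.HA.StmtsB

/-!
# MP_a2680c_ag, block HA, item Tfr: the transcendence basis of the function field of the fibration
-/

set_option autoImplicit false

noncomputable section

namespace Pool.Agent.Work.MP_a2680c_ag.HA

open MP7b66e6 MP7b66e6.Q
open scoped BigOperators

universe u

namespace XTfr

/-- generators which are algebraically independent form a transcendence basis -/
theorem basis_gen {K F : Type u} [Field K] [Field F] [Algebra K F] {n : ℕ} (z : Fin n → F)
    (hz : GenBy K z) : IsTranscendenceBasis K z := by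
  have halg : Algebra.IsAlgebraic (Algebra.adjoin K (Set.range z)) F := by
    refine ⟨fun x => ?_⟩
    have hx : x ∈ IntermediateField.adjoin K (Set.range z) := by
      rw [hz.2]
      exact IntermediateField.mem_top
    obtain ⟨r, hr, s, hs, rfl⟩ := IntermediateField.mem_adjoin_iff_div.1 hx
    rw [div_eq_mul_inv]
    have h5 : IsAlgebraic (Algebra.adjoin K (Set.range z)) r :=
      isAlgebraic_algebraMap (⟨r, hr⟩ : Algebra.adjoin K (Set.range z))
    have h6 : IsAlgebraic (Algebra.adjoin K (Set.range z)) s :=
      isAlgebraic_algebraMap (⟨s, hs⟩ : Algebra.adjoin K (Set.range z))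
    exact h5.mul h6.inv
  exact hz.1.isTranscendenceBasis_iff_isAlgebraic.2 halg

end XTfr

open XTfr in
theorem pr_Tfr : StTfr.{u} := by
  intro k K F _ _ _ _ _ _ _ hess e n r z hr hz
  have hFK : Algebra.EssFiniteType K F := by
    rw [← IntermediateField.fg_top_iff]
    refine ⟨(Set.finite_range z).toFinset, ?_⟩
    rw [Set.Finite.coe_toFinset]
    exact hz.2
  have hb : IsTranscendenceBasis k (cor r z) := by
    have h1 := hr.sumElim_comp (basis_gen z hz)
    have h2 : (Sum.elim z (algebraMap K F ∘ r)) ∘
        ((finSumFinEquiv (m := e) (n := n)).symm.trans (Equiv.sumComm (Fin e) (Fin n))) =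
        cor r z := by
      funext i
      refine Fin.addCases (fun i => ?_) (fun j => ?_) i
      · simp [cor]
      · simp [cor]
    rw [← h2]
    exact (isTranscendenceBasis_equiv _).2 h1
  refine ⟨Algebra.EssFiniteType.comp k K F, ?_, hb⟩
  have h3 := hb.lift_cardinalMk_eq_trdeg
  rw [Cardinal.mk_fin, Cardinal.lift_natCast, Cardinal.lift_uzero] at h3
  exact h3.symm

end Pool.Agent.Work.MP_a2680c_ag.HA
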