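import Pool.Agent.Work.MP_a2680c_ag.HA.StmtsB

/-!
# MP_a2680c_ag, block HA, item Twa: the valuation of inequality (II)
-/

set_option autoImplicit false

noncomputable section

namespace Pool.Agent.Work.MP_a2680c_ag.HA

open MP7b66e6 MP7b66e6.Q
open scoped BigOperators

universe u

namespace XTwa

section val
variable {K : Type u} [Field K] (ν : AddValuation K (WithTop ℤ))

theorem coe_val {f : K} (hf : f ≠ 0) : ν f = (val ν f : WithTop ℤ) := by
  have h : ν f ≠ ⊤ := by
    intro h; exact hf ((AddValuation.top_iff ν).1 h)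
  obtain ⟨m, hm⟩ := WithTop.ne_top_iff_exists.1 h
  rw [val, ← hm]; rfl

theorem val_of {f : K} {m : ℤ} (h : ν f = (m : WithTop ℤ)) : val ν f = m := by
  rw [val, h]; rfl

theorem val_mul {f g : K} (hf : f ≠ 0) (hg : g ≠ 0) : val ν (f * g) = val ν f + val ν g := by
  apply val_of
  rw [AddValuation.map_mul, coe_val ν hf, coe_val ν hg]; rfl

theorem val_one : val ν (1 : K) = 0 := val_of ν (by rw [AddValuation.map_one]; rfl)

theorem val_inv {f : K} (hf : f ≠ 0) : val ν f⁻¹ = - val ν f := by
  have h := val_mul ν hf (inv_ne_zero hf)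
  rw [mul_inv_cancel₀ hf, val_one] at h
  omega

theorem val_div {f g : K} (hf : f ≠ 0) (hg : g ≠ 0) : val ν (f / g) = val ν f - val ν g := by
  rw [div_eq_mul_inv, val_mul ν hf (inv_ne_zero hg), val_inv ν hg]; ring

theorem val_prod {ι : Type*} (s : Finset ι) (f : ι → K) (h : ∀ i ∈ s, f i ≠ 0) :
    val ν (∏ i ∈ s, f i) = ∑ i ∈ s, val ν (f i) := by
  classical
  induction s using Finset.induction_on with
  | empty => simp [val_one]
  | insert i s hi ih =>
    rw [Finset.prod_insert hi, Finset.sum_insert hi,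
      val_mul ν (h i (Finset.mem_insert_self i s))
        (Finset.prod_ne_zero_iff.2 fun j hj => h j (Finset.mem_insert_of_mem hj)),
      ih fun j hj => h j (Finset.mem_insert_of_mem hj)]

theorem val_sign {ε : K} (h : ε = 1 ∨ ε = -1) : val ν ε = 0 := by
  rcases h with rfl | rfl
  · exact val_one ν
  · apply val_of
    rw [AddValuation.map_neg, AddValuation.map_one]; rfl

end val

/-- `MonV` for a linear polynomial. -/
theorem lin_mon {K F : Type u} [Field K] [Field F] [Algebra K F] {n : ℕ} {z : Fin n → F}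
    {v : AddValuation K (WithTop ℤ)} {q : ℕ} {w : Fin n → ℤ} {W : AddValuation F (WithTop ℤ)} {g : ℕ}
    (hM : MonV z v q w W g) (e0 : K) (e1 : Fin n → K) (x : F)
    (hx : x = algebraMap K F e0 + ∑ j, algebraMap K F (e1 j) * z j) (hx0 : x ≠ 0) :
    (e0 ≠ 0 ∧ (g : ℤ) * val W x = q * val v e0) ∨
      ∃ j, e1 j ≠ 0 ∧ (g : ℤ) * val W x = q * val v (e1 j) + w j := by
  classical
  obtain ⟨P, hP⟩ : ∃ P : MvPolynomial (Fin n) K,
    P = MvPolynomial.C e0 + ∑ j, MvPolynomial.C (e1 j) * MvPolynomial.X j := ⟨_, rfl⟩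
  have hPx : MvPolynomial.aeval z P = x := by
    rw [hP, hx, map_add, map_sum, MvPolynomial.aeval_C]
    congr 1
    refine Finset.sum_congr rfl fun j _ => ?_
    rw [map_mul, MvPolynomial.aeval_C, MvPolynomial.aeval_X]
  have hP0 : P ≠ 0 := by
    intro h
    rw [h, map_zero] at hPx
    exact hx0 hPx.symm
  have hco : ∀ s, P.coeff s = (if 0 = s then e0 else 0) +
      ∑ j, e1 j * (if Finsupp.single j 1 = s then 1 else 0) := by
    intro s
    rw [hP, MvPolynomial.coeff_add, MvPolynomial.coeff_C, MvPolynomial.coeff_sum]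
    congr 1
    refine Finset.sum_congr rfl fun j _ => ?_
    rw [MvPolynomial.coeff_C_mul, MvPolynomial.coeff_X]
  obtain ⟨s, hs, hval⟩ := (hM P hP0).2
  rw [hPx] at hval
  rw [MvPolynomial.mem_support_iff] at hs
  by_cases h0 : s = 0
  · left
    subst h0
    have h1 : P.coeff 0 = e0 := by
      rw [hco, if_pos rfl, Finset.sum_eq_zero, add_zero]
      intro j _
      rw [if_neg (by rw [Finsupp.single_eq_zero]; exact one_ne_zero), mul_zero]
    rw [h1] at hs hval
    refine ⟨hs, ?_⟩
    rw [hval, Finset.sum_eq_zero, add_zero]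
    intro j _
    rw [Finsupp.coe_zero, Pi.zero_apply, Nat.cast_zero, mul_zero]
  · by_cases h2 : ∃ j, s = Finsupp.single j 1
    · right
      obtain ⟨j, rfl⟩ := h2
      have h1 : P.coeff (Finsupp.single j 1) = e1 j := by
        rw [hco, if_neg (fun h => h0 h.symm), zero_add, Finset.sum_eq_single j]
        · rw [if_pos rfl, mul_one]
        · intro l _ hl
          rw [if_neg (fun h => hl (Finsupp.single_left_injective one_ne_zero h)), mul_zero]
        · intro h
          exact absurd (Finset.mem_univ j) h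
      rw [h1] at hs hval
      refine ⟨j, hs, ?_⟩
      rw [hval, Finset.sum_eq_single j]
      · rw [Finsupp.single_eq_same, Nat.cast_one, mul_one]
      · intro l _ hl
        rw [Finsupp.single_eq_of_ne hl, Nat.cast_zero, mul_zero]
      · intro h
        exact absurd (Finset.mem_univ j) h
    · exfalso
      apply hs
      rw [hco, if_neg (fun h => h0 h.symm), zero_add, Finset.sum_eq_zero]
      intro j _
      rw [if_neg (fun h => h2 ⟨j, h.symm⟩), mul_zero]

theorem sum_upd {n N : ℕ} (Y : Fin N → ℤ) (b : Fin (n + 1) → Fin N) (l : Fin (n + 1)) (i : Fin N) :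
    ∑ j, Y (Function.update b l i j) = ∑ j, Y (b j) - Y (b l) + Y i := by
  have h1 := Finset.add_sum_erase (Finset.univ : Finset (Fin (n + 1)))
    (fun j => Y (Function.update b l i j)) (Finset.mem_univ l)
  have h2 := Finset.add_sum_erase (Finset.univ : Finset (Fin (n + 1)))
    (fun j => Y (b j)) (Finset.mem_univ l)
  have h3 : ∑ j ∈ (Finset.univ : Finset (Fin (n + 1))).erase l, Y (Function.update b l i j) =
      ∑ j ∈ (Finset.univ : Finset (Fin (n + 1))).erase l, Y (b j) := by
    refine Finset.sum_congr rfl fun j hj => ?_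
    rw [Function.update_of_ne (Finset.ne_of_mem_erase hj)]
  have h4 : Y (Function.update b l i l) = Y i := by rw [Function.update_self]
  rw [h3, h4] at h1
  linarith

end XTwa

/-- The item Twa. -/
theorem pr_Twa (hJac : StJac.{u}) (hMnv : StMnv.{u}) (hMdv : StMdv.{u}) (hCrb : StCrb.{u}) :
    StTwa.{u} := by
  intro k K F _ _ _ _ _ _ _ _ _ e n N r y a hr hy ha hne v hv q Y hq hY A hA
  obtain ⟨hl, hJ⟩ := hJac k K F e n N r y a hr hy ha
  obtain ⟨b, hb, hmin⟩ := Set.exists_min_image (bas a)
    (fun b => (q : ℤ) * val v (mnr a b) - ∑ j, Y (b j)) (Set.toFinite _) hne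
  obtain ⟨hz, hlin⟩ := hCrb K F n N y a hy ha b hb
  obtain ⟨W, g, hg, hπ, hM⟩ := hMnv K F n (zz y a b) hz v hv.1 q
    (fun j => Y (b j.succ) - Y (b 0)) hq
  obtain ⟨hWd, ⟨m, hgm, hLies⟩, E, hE, hdet0, hdet⟩ := hMdv k K F e n r (zz y a b) hr hz v q _ W g
    hv hq hg hπ hM A hA
  have hb0 : mnr a b ≠ 0 := hb
  have hzne : ∀ j, zz y a b j ≠ 0 := fun j => div_ne_zero (hl _) (hl _)
  have hzj : ∀ j, (g : ℤ) * val W (zz y a b j) = Y (b j.succ) - Y (b 0) := by
    intro j
    rcases XTwa.lin_mon hM 0 (Pi.single j 1) (zz y a b j) (by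
      rw [map_zero, zero_add, Finset.sum_eq_single j]
      · rw [Pi.single_eq_same, map_one, one_mul]
      · intro l _ hlj
        rw [Pi.single_eq_of_ne hlj, map_zero, zero_mul]
      · intro h
        exact absurd (Finset.mem_univ j) h) (hzne j) with h | ⟨l, h1, h2⟩
    · exact absurd rfl h.1
    · have hlj : l = j := by
        by_contra h
        exact h1 (Pi.single_eq_of_ne h 1)
      subst hlj
      rw [Pi.single_eq_same, XTwa.val_one, mul_zero, zero_add] at h2
      exact h2
  have hlb : ∀ l : Fin (n + 1), (g : ℤ) * val W (lin y (a (b l))) =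
      ((g : ℤ) * val W (lin y (a (b 0))) - Y (b 0)) + Y (b l) := by
    intro l
    refine Fin.cases ?_ (fun j => ?_) l
    · ring
    · have h1 := hzj j
      have h2 : val W (zz y a b j) = val W (lin y (a (b j.succ))) - val W (lin y (a (b 0))) :=
        XTwa.val_div W (hl _) (hl _)
      rw [h2, mul_sub] at h1
      linarith
  refine ⟨W, m, g, (g : ℤ) * val W (lin y (a (b 0))) - Y (b 0), hWd, hLies, hg, hgm, ?_, ?_⟩
  · intro i
    have key : ∃ l : Fin (n + 1), mnr a (Function.update b l i) / mnr a b ≠ 0 ∧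
        (g : ℤ) * val W (lin y (a i) / lin y (a (b 0))) =
          q * val v (mnr a (Function.update b l i) / mnr a b) + (Y (b l) - Y (b 0)) := by
      rcases XTwa.lin_mon hM (mnr a (Function.update b 0 i) / mnr a b)
        (fun j : Fin n => mnr a (Function.update b j.succ i) / mnr a b)
        (lin y (a i) / lin y (a (b 0))) (hlin i) (div_ne_zero (hl _) (hl _)) with ⟨h1, h2⟩ | ⟨j, h1, h2⟩
      · exact ⟨0, h1, by rw [h2]; ring⟩
      · exact ⟨j.succ, h1, h2⟩
    obtain ⟨l, h1, h2⟩ := key
    have hu : mnr a (Function.update b l i) ≠ 0 := by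
      intro h
      rw [h, zero_div] at h1
      exact h1 rfl
    have h3 := hmin (Function.update b l i) hu
    rw [XTwa.sum_upd] at h3
    rw [XTwa.val_div W (hl _) (hl _), XTwa.val_div v hu hb0, mul_sub, mul_sub] at h2
    linarith
  · intro A' hA'
    obtain ⟨ε, hε, hJE⟩ := hJ b
    have h1 := hJE E
    have hε0 : ε ≠ 0 := by
      rcases hε with rfl | rfl
      · exact one_ne_zero
      · exact neg_ne_zero.2 one_ne_zero
    have hbF : algebraMap K F (mnr a b) ≠ 0 := by
      intro h
      exact hb0 ((map_eq_zero _).1 h)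
    have hprod : (∏ j, lin y (a (b j))) ≠ 0 := Finset.prod_ne_zero_iff.2 fun j _ => hl _
    have hΔ : Matrix.det (fun i j => E i (cor r y j)) ≠ 0 := by
      intro h
      rw [h, mul_zero] at h1
      rcases mul_eq_zero.1 h1 with h2 | h2
      · exact hprod h2
      · exact hdet0 h2
    have h2 := congrArg (val W) h1
    rw [XTwa.val_mul W hprod hdet0, XTwa.val_mul W (mul_ne_zero hε0 hbF) hΔ,
      XTwa.val_mul W hε0 hbF, XTwa.val_sign W hε, XTwa.val_prod W _ _ (fun j _ => hl _),
      hLies.2 _ hb0, zero_add] at h2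
    have h3 := congrArg (fun t : ℤ => (g : ℤ) * t) h2
    rw [mul_add, mul_add, hdet, Finset.mul_sum, Finset.sum_congr rfl (fun j _ => hlb j),
      Finset.sum_add_distrib, Finset.sum_const, Finset.card_univ, Fintype.card_fin] at h3
    have h4 : (g : ℤ) * ((m : ℤ) * val v (mnr a b)) = q * val v (mnr a b) := by
      rw [← mul_assoc, ← Nat.cast_mul, hgm]
    rw [h4] at h3
    have h5 := hY b hb
    have h6 : A' ≤ val W (Matrix.det (fun i j => E i (cor r y j))) := by
      have h7 := hA'.2 E hE
      rw [XTwa.coe_val W hΔ, WithTop.coe_le_coe] at h7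
      exact h7
    have h8 : (g : ℤ) * A' ≤ g * val W (Matrix.det (fun i j => E i (cor r y j))) :=
      mul_le_mul_of_nonneg_left h6 (Int.natCast_nonneg g)
    rw [nsmul_eq_mul] at h3
    push_cast at h3
    linarith

end Pool.Agent.Work.MP_a2680c_ag.HA
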