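import Pool.Agent.Work.MP_a2680c_ag.HA.StmtsG

/-! Item [a2680c HA Twg] (helper33): inequality (II) for finite quotients and forms. -/

set_option autoImplicit false

noncomputable section

namespace Pool.Agent.Work.MP_a2680c_ag.HA

open MP7b66e6 MP7b66e6.Q
open scoped BigOperators

universe u

namespace XTwg

/-- a valuation over `W` is nonnegative on the image of a ring on which `W` is nonnegative -/
theorem nonneg_up {F F' : Type u} [Field F] [Field F'] [Algebra F F'] {W : AddValuation F (WithTop ℤ)}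
    {W' : AddValuation F' (WithTop ℤ)} {η : ℕ} (h : Lies W W' η) {f : F} (hf : 0 ≤ W f) :
    0 ≤ W' (algebraMap F F' f) := by
  by_cases h0 : f = 0
  · rw [h0, map_zero, AddValuation.map_zero]; exact le_top
  · have h1 : algebraMap F F' f ≠ 0 := by
      rw [map_ne_zero_iff _ (algebraMap F F').injective]; exact h0
    rw [← Api.val_nonneg W' h1, h.2 f h0]
    exact mul_nonneg (by positivity) ((Api.val_nonneg W h0).2 hf)

/-- `Pos` of a quotient by a positive natural number -/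
theorem pos_div {κ : Prop} {t : ℝ} (h : Pos κ t) {μ : ℕ} (hμ : 0 < μ) : Pos κ (t / μ) := by
  have hμ' : (0 : ℝ) < μ := by exact_mod_cast hμ
  exact ⟨div_nonneg h.1 hμ'.le, fun hk => div_pos (h.2 hk) hμ'⟩

end XTwg

theorem pr_Twg (hTbs : StTbs.{u}) (hTbx : StTbx.{u}) (hTb : StTb.{u}) (hCan : StCan.{u}) (hGrm : StGrm.{u})
    (hCtr : StCtr.{u}) (hWdl : StWdl.{u}) (hTwa : StTwa.{u}) (hRmf : StRmf.{u}) (hRES : StRES.{u, u, u}) :
    StTwg.{u} := by
  intro κ k K F K' F' _ _ _ _ _ _ _ _ _ _ _ _ _ _ _ _ _ _ _ _ _ _ _ _ e n N I r x y Z X D L a d Ξ J hF hG hx ha hd hK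
    hne v hv v' ε hv' hL q Y hq hY
  haveI hEK : Algebra.EssFiniteType k K := (hGrm k K Z hF.vz).1
  obtain ⟨⟨pd, hpd⟩, _⟩ := hTb k K e r hF.basis
  obtain ⟨A, hA⟩ := (hCan k K e r v).2 pd hpd hv.1
  obtain ⟨hb', hE'⟩ := hTbs k K K' e r hF.basis
  haveI hEK' : Algebra.EssFiniteType k K' := hE' hEK
  obtain ⟨hbx, _, hby, hEF'⟩ := hTbx k K F K' F' e n r x y hEK hF.basis hG hx
  haveI := hEF'
  have hεA := hRmf k K K' e r pd hpd v v' ε hv.1 hv' hL A hA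
  obtain ⟨W', m', g, c, hW', hL', hg, hgm, hc, hA'⟩ :=
    hTwa k K' F' e n N (up K' r) y a hb' hG ha hne v' hv' q Y hq hY (ε * A) hεA
  obtain ⟨⟨pe', hpe'⟩, _⟩ := hTb k F' (e + n) (cor (up K' r) y) hby
  obtain ⟨A', hA1⟩ := (hCan k F' (e + n) (cor (up K' r) y) W').2 pe' hpe' hW'
  obtain ⟨W, η, hW, hη⟩ := hRES k F F' W' hW'
  have hvW' : Lies v W' (m' * ε) := Api.lies_trans hL hL'
  obtain ⟨μ, hμ, hημ⟩ := Api.lies_mid hv.1.1 hη hvW'
  obtain ⟨P, hP, hcen⟩ := hv.2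
  have hWk : ∀ t : k, 0 ≤ W (algebraMap k F t) := by
    obtain ⟨_, C, _, hC, _⟩ := hW
    exact fun t => hC _ (C.algebraMap_mem t)
  obtain ⟨O, hO, hcO, hdom⟩ := hCtr k K F Z X hF.vz hF.vx hF.mor hF.prp v W μ hWk hμ P hP hcen
  obtain ⟨φ, hφ⟩ := hF.carL P hP
  obtain ⟨ψ, hψ⟩ := hF.lc.1 O hO
  haveI hEF : Algebra.EssFiniteType k F := (hGrm k F X hF.vx).1
  obtain ⟨⟨pe, hpe⟩, _⟩ := hTb k F (e + n) (cor r x) hbx
  obtain ⟨B, hB⟩ := (hCan k F (e + n) (cor r x) W).2 pe hpe hW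
  have hηB := hRmf k F F' (e + n) (cor r x) pe hpe W W' η hW hW' hη B hB
  have hJ := Api.logDisc_unique hηB (hK.2.1 W' A' hA1)
  have h1 := hF.lc.2 O hO ψ hψ W hW hcO
  have h2 := hK.2.2 O hO P hP hdom φ hφ ψ hψ W' (fun f hf => XTwg.nonneg_up hη (hcO.1 f hf))
  rw [Api.ev_push_lies hη, Api.ev_push_lies hvW', Api.ev_push_lies hL'] at h2
  have h3 := hWdl k K Z hF.vz e r hF.basis L P hP φ hφ v hcen.1
  refine ⟨(1 + can k (cor r x) W - ev W ψ) / μ, ⟨W, μ, O, ψ, hW, hμ, hO, hcO, hψ, rfl⟩, XTwg.pos_div h1 hμ.1, ?_⟩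
  have hμ0 : (μ : ℝ) ≠ 0 := by
    have := hμ.1
    positivity
  have h4 : (g : ℝ) * A' ≤ q * (ε * A) + (n + 1) * c := by
    have := hA' A' hA1
    exact_mod_cast this
  have h5 : ∑ i, d i * ((c : ℝ) + Y i) ≤ ∑ i, d i * ((g : ℝ) * (val W' (lin y (a i)) : ℝ)) := by
    apply Finset.sum_le_sum
    intro i _
    apply mul_le_mul_of_nonneg_left _ (hd i)
    exact_mod_cast hc i
  have h6 : ∑ i, d i * ((c : ℝ) + Y i) = (n + 1) * c + ∑ i, d i * (Y i : ℝ) := by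
    have : ∀ i, d i * ((c : ℝ) + Y i) = d i * c + d i * Y i := fun i => by ring
    rw [Finset.sum_congr rfl fun i _ => this i, Finset.sum_add_distrib, ← Finset.sum_mul, hK.1]
  have h7 : ∑ i, d i * ((g : ℝ) * (val W' (lin y (a i)) : ℝ)) = g * ∑ i, d i * (val W' (lin y (a i)) : ℝ) := by
    rw [Finset.mul_sum]
    apply Finset.sum_congr rfl
    intro i _
    ring
  have hq' : (q : ℝ) = g * m' := by
    rw [← hgm]; push_cast; ring
  have hημ' : (η : ℝ) * μ = m' * ε := by exact_mod_cast hημ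
  have hJ' : (η : ℝ) * B = A' + (val W' (J : F') : ℝ) := by exact_mod_cast hJ
  have e1 : (q : ℝ) * (ε * ((1 + can k (cor r x) W - ev W ψ) / μ)) = g * (η * (1 + can k (cor r x) W - ev W ψ)) := by
    rw [hq']
    have : (g : ℝ) * m' * (ε * ((1 + can k (cor r x) W - ev W ψ) / μ)) =
        g * ((m' * ε) * ((1 + can k (cor r x) W - ev W ψ) / μ)) := by ring
    rw [this, ← hημ']
    field_simp
  rw [e1, Api.can_eq hB]
  unfold Tg
  rw [Api.can_eq hA, h3]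
  have e2 : (η : ℝ) * (1 + ((B : ℝ) - 1) - ev W ψ) = A' - m' * ε * ev v φ - m' * ev v' Ξ -
      ∑ i, d i * (val W' (lin y (a i)) : ℝ) := by
    have h2' : (η : ℝ) * ev W ψ = (m' : ℝ) * ε * ev v φ + (val W' (J : F') : ℝ) + m' * ev v' Ξ +
        ∑ i, d i * (val W' (lin y (a i)) : ℝ) := by
      rw [h2]; push_cast; ring
    have : (η : ℝ) * (1 + ((B : ℝ) - 1) - ev W ψ) = η * B - η * ev W ψ := by ring
    rw [this, h2', hJ']
    ring
  rw [e2]
  rw [h6, h7] at h5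
  rw [hq'] at h4 ⊢
  nlinarith [h4, h5]

end Pool.Agent.Work.MP_a2680c_ag.HA
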