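import Pool.Agent.Work.MP_a2680c_ag.HA.StmtsD

/-! Item [a2680c HA Two] (helper9): inequality (II). -/

set_option autoImplicit false

noncomputable section

namespace Pool.Agent.Work.MP_a2680c_ag.HA

open MP7b66e6 MP7b66e6.Q
open scoped BigOperators

universe u

theorem pr_Two (hTb : StTb.{u}) (hCor : StCor.{u}) (hCan : StCan.{u}) (hGrm : StGrm.{u}) (hCtr : StCtr.{u})
    (hWdl : StWdl.{u}) (hTwa : StTwa.{u}) : StTwo.{u} := by
  intro κ k K F _ _ _ _ _ _ _ _ e n N I r y Z X D L a d Ξ hF hG ha hd hK hne v hv q Y hq hY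
  haveI : Algebra.EssFiniteType k K := (hGrm k K Z hF.vz).1
  obtain ⟨⟨pd, hpd⟩, _⟩ := hTb k K e r hF.basis
  obtain ⟨A, hA⟩ := (hCan k K e r v).2 pd hpd hv.1
  obtain ⟨W, m, g, c, hW, hL, hg, hgm, hc, hA'⟩ :=
    hTwa k K F e n N r y a hF.basis hG ha hne v hv.1 q Y hq hY A hA
  obtain ⟨P, hP, hcen⟩ := hv.2
  have hWk : ∀ t : k, 0 ≤ W (algebraMap k F t) := by
    obtain ⟨_, C, _, hC, _⟩ := hW
    exact fun t => hC _ (C.algebraMap_mem t)
  obtain ⟨O, hO, hcO, hdom⟩ := hCtr k K F Z X hF.vz hF.vx hF.mor hF.prp v W m hWk hL P hP hcen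
  obtain ⟨φ, hφ⟩ := hF.carL P hP
  obtain ⟨ψ, hψ⟩ := hF.lc.1 O hO
  obtain ⟨pe, hpe, _, _⟩ := hCor k K F e n r y hF.basis hG pd hpd
  obtain ⟨A', hA1⟩ := (hCan k F (e + n) (cor r y) W).2 pe hpe hW
  have h1 := hF.lc.2 O hO ψ hψ W hW hcO
  rw [Api.can_eq hA1] at h1
  have h2 := hK.2 O hO P hP hdom φ hφ ψ hψ W hcO.1
  rw [Api.ev_push_lies hL, Api.ev_push_lies hL] at h2
  have h3 := hWdl k K Z hF.vz e r hF.basis L P hP φ hφ v hcen.1
  have h4 : (g : ℝ) * A' ≤ q * A + (n + 1) * c := by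
    have := hA' A' hA1
    exact_mod_cast this
  have h5 : ∑ i, d i * ((c : ℝ) + Y i) ≤ ∑ i, d i * ((g : ℝ) * (val W (lin y (a i)) : ℝ)) := by
    apply Finset.sum_le_sum
    intro i _
    apply mul_le_mul_of_nonneg_left _ (hd i)
    exact_mod_cast hc i
  have h6 : ∑ i, d i * ((c : ℝ) + Y i) = (n + 1) * c + ∑ i, d i * (Y i : ℝ) := by
    have : ∀ i, d i * ((c : ℝ) + Y i) = d i * c + d i * Y i := fun i => by ring
    rw [Finset.sum_congr rfl fun i _ => this i, Finset.sum_add_distrib, ← Finset.sum_mul, hK.1]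
  have h7 : ∑ i, d i * ((g : ℝ) * (val W (lin y (a i)) : ℝ)) = g * ∑ i, d i * (val W (lin y (a i)) : ℝ) := by
    rw [Finset.mul_sum]
    apply Finset.sum_congr rfl
    intro i _
    ring
  have hq' : (q : ℝ) = g * m := by
    rw [← hgm]; push_cast; ring
  have hg' : (0 : ℝ) < g := by exact_mod_cast hg
  have key : (g : ℝ) * (1 + ((A' : ℝ) - 1) - ev W ψ) ≤ q * Tv r Z L Ξ v - ∑ i, d i * (Y i : ℝ) := by
    unfold Tv
    rw [Api.can_eq hA, h3, h2]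
    rw [h6, h7] at h5
    rw [hq'] at h4 ⊢
    nlinarith [h4, h5]
  refine ⟨le_trans (mul_nonneg hg'.le h1.1) key, fun hk => lt_of_lt_of_le (mul_pos hg' (h1.2 hk)) key⟩

end Pool.Agent.Work.MP_a2680c_ag.HA
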