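import Pool.Agent.Work.MP_a2680c_ag.HA.StmtsX
import Pool.Agent.Work.MP_a2680c_ag.HA.Api
import Pool.Agent.Work.MP_a2680c_ag.HA.ApiG

/-!
# MP_a2680c_ag, block HA, item Unr: a constant field extension is unramified
-/

set_option autoImplicit false

noncomputable section

namespace Pool.Agent.Work.MP_a2680c_ag.HA

open MP7b66e6 MP7b66e6.Q
open scoped BigOperators

universe u

namespace XUnr

theorem eq_one {a : WithTop ℤ} (h1 : 1 ≤ a) (h2 : ¬ 2 ≤ a) : a = 1 := by
  induction a using WithTop.recTopCoe with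
  | top => exact absurd le_top h2
  | coe a =>
    have e1 : (1 : WithTop ℤ) = ((1 : ℤ) : WithTop ℤ) := rfl
    have e2 : (2 : WithTop ℤ) = ((2 : ℤ) : WithTop ℤ) := rfl
    rw [e1, WithTop.coe_le_coe] at h1
    rw [e2, WithTop.coe_le_coe] at h2
    rw [e1, WithTop.coe_inj]
    omega

/-- Dedekind's argument. -/
theorem ded {K' F' ι : Type u} [Field K'] [Field F'] [Algebra K' F'] (ν : AddValuation F' (WithTop ℤ))
    (h0 : ∀ c : K', 0 ≤ ν (algebraMap K' F' c)) (ρ : ι → K' →+* K')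
    (hρ : ∀ σ τ, σ ≠ τ → ∃ d, ρ σ d ≠ ρ τ d) (n : ℕ) :
    ∀ (T : Finset ι) (z : ι → F'), T.card = n →
      (∀ c : K', 2 ≤ ν (∑ σ ∈ T, algebraMap K' F' (ρ σ c) * z σ)) → ∀ σ ∈ T, 2 ≤ ν (z σ) := by
  classical
  induction n with
  | zero =>
    intro T z hT _ σ hσ
    rw [Finset.card_eq_zero] at hT
    rw [hT] at hσ
    exact absurd hσ (Finset.notMem_empty σ)
  | succ n ih =>
    intro T z hT hrel σ hσ
    by_cases hex : ∃ τ ∈ T, τ ≠ σ
    · obtain ⟨τ, hτ, hne⟩ := hex
      obtain ⟨d, hd⟩ := hρ σ τ hne.symm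
      have h1 := ih (T.erase τ)
        (fun s => (algebraMap K' F' (ρ s d) - algebraMap K' F' (ρ τ d)) * z s)
        (by rw [Finset.card_erase_of_mem hτ, hT]; rfl)
        (by
          intro c
          have e1 : ∑ s ∈ T.erase τ, algebraMap K' F' (ρ s c) *
              ((algebraMap K' F' (ρ s d) - algebraMap K' F' (ρ τ d)) * z s) =
              ∑ s ∈ T, algebraMap K' F' (ρ s c) *
              ((algebraMap K' F' (ρ s d) - algebraMap K' F' (ρ τ d)) * z s) := by
            rw [← Finset.add_sum_erase T _ hτ, sub_self, zero_mul, mul_zero, zero_add]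
          have e2 : ∑ s ∈ T, algebraMap K' F' (ρ s c) *
              ((algebraMap K' F' (ρ s d) - algebraMap K' F' (ρ τ d)) * z s) =
              ∑ s ∈ T, algebraMap K' F' (ρ s (c * d)) * z s -
              algebraMap K' F' (ρ τ d) * ∑ s ∈ T, algebraMap K' F' (ρ s c) * z s := by
            rw [Finset.mul_sum, ← Finset.sum_sub_distrib]
            refine Finset.sum_congr rfl fun s _ => ?_
            rw [map_mul, map_mul]
            ring
          rw [e1, e2]
          refine ν.map_le_sub (hrel (c * d)) ?_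
          rw [AddValuation.map_mul]
          calc (2 : WithTop ℤ) = 0 + 2 := (zero_add _).symm
            _ ≤ _ := add_le_add (h0 _) (hrel c))
        σ (Finset.mem_erase.2 ⟨hne.symm, hσ⟩)
      have h2 : ρ σ d - ρ τ d ≠ 0 := sub_ne_zero.2 hd
      rw [AddValuation.map_mul, ← map_sub, Api.val_algebraMap h0 h2, zero_add] at h1
      exact h1
    · push Not at hex
      have hT1 : T = {σ} := by
        ext τ
        rw [Finset.mem_singleton]
        exact ⟨fun h => hex τ h, fun h => h ▸ hσ⟩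
      have h1 := hrel 1
      rw [hT1, Finset.sum_singleton, map_one, map_one, one_mul] at h1
      exact h1

end XUnr

theorem pr_Unr (hA : StAPX.{u}) : StUnr.{u} := by
  classical
  intro K E K' F' _ _ _ _ _ _ _ _ _ _ _ _ _ _ _ _ hgen ν hP
  obtain ⟨⟨π, hπ⟩, h0⟩ := hP
  have hfin : Finite (F' ≃ₐ[E] F') := inferInstance
  let _ : Fintype (F' ≃ₐ[E] F') := Fintype.ofFinite _
  -- restriction to `K'`
  let ρ : (F' ≃ₐ[E] F') → (K' ≃ₐ[K] K') := fun σ => (σ.restrictScalars K).restrictNormal K'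
  have hρ : ∀ (σ : F' ≃ₐ[E] F') (c : K'), algebraMap K' F' (ρ σ c) = σ (algebraMap K' F' c) :=
    fun σ c => (σ.restrictScalars K).restrictNormal_commutes K' c
  have hdiff : ∀ σ τ : F' ≃ₐ[E] F', σ ≠ τ → ∃ d : K', ρ σ d ≠ ρ τ d := by
    intro σ τ hne
    by_contra hcon
    push Not at hcon
    apply hne
    apply AlgEquiv.ext
    intro x
    have hx : x ∈ IntermediateField.adjoin E (Set.range (algebraMap K' F')) := by
      rw [hgen]
      exact IntermediateField.mem_top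
    induction hx using IntermediateField.adjoin_induction with
    | mem x hx =>
      obtain ⟨c, rfl⟩ := hx
      rw [← hρ, ← hρ, hcon]
    | algebraMap x => rw [AlgEquiv.commutes, AlgEquiv.commutes]
    | add x y _ _ h1 h2 => rw [map_add, map_add, h1, h2]
    | inv x _ h1 => rw [map_inv₀, map_inv₀, h1]
    | mul x y _ _ h1 h2 => rw [map_mul, map_mul, h1, h2]
  -- approximation
  obtain ⟨n, ⟨e⟩⟩ := Finite.exists_equiv_fin {σ : F' ≃ₐ[E] F' // cg σ ν ≠ ν}
  obtain ⟨θ, hθ1, hθ2⟩ := hA F' (Fin n) ν (fun i => cg (e.symm i).1 ν) ⟨π, hπ⟩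
    (fun i => ⟨(e.symm i).1.symm π, by
      rw [Api.cg_apply, AlgEquiv.apply_symm_apply, hπ]⟩) (fun i => (e.symm i).2) 1
  have hθ0 : ν θ = 0 := by
    have e1 : θ = 1 + (θ - 1) := by ring
    have e2 : ν (1 : F') < ν (θ - 1) := by
      rw [AddValuation.map_one]
      refine lt_of_lt_of_le ?_ hθ1
      rw [Nat.cast_one]
      exact zero_lt_one
    rw [e1, AddValuation.map_add_eq_of_lt_left ν e2, AddValuation.map_one]
  have hθne : θ ≠ 0 := by
    intro h
    rw [h, AddValuation.map_zero] at hθ0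
    exact absurd hθ0 (by simp)
  have hπne : π ≠ 0 := by
    intro h
    rw [h, AddValuation.map_zero] at hπ
    exact absurd hπ (by simp)
  obtain ⟨M, hM⟩ : ∃ M : ℕ, ∀ σ : F' ≃ₐ[E] F', 1 - val ν (σ π) ≤ (M : ℤ) := by
    refine ⟨Finset.univ.sup fun σ : F' ≃ₐ[E] F' => (1 - val ν (σ π)).toNat, fun σ => ?_⟩
    have h1 := Finset.le_sup (f := fun σ : F' ≃ₐ[E] F' => (1 - val ν (σ π)).toNat)
      (Finset.mem_univ σ)
    have h2 : 1 - val ν (σ π) ≤ ((1 - val ν (σ π)).toNat : ℤ) := Int.self_le_toNat _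
    exact h2.trans (by exact_mod_cast h1)
  obtain ⟨z, hz⟩ : ∃ z : F', z = π * θ ^ M := ⟨_, rfl⟩
  have hz1 : ν z = 1 := by
    rw [hz, AddValuation.map_mul, AddValuation.map_pow, hπ, hθ0, smul_zero, add_zero]
  have hzσ : ∀ σ : F' ≃ₐ[E] F', 1 ≤ ν (σ z) := by
    intro σ
    by_cases hσ : cg σ ν = ν
    · rw [← Api.cg_apply, hσ, hz1]
    · have h1 := hθ2 (e ⟨σ, hσ⟩)
      rw [Equiv.symm_apply_apply, Api.cg_apply, Nat.cast_one] at h1
      have hσπ : σ π ≠ 0 := by simpa using hπne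
      have hσθ : σ θ ≠ 0 := by simpa using hθne
      have e1 : (1 : WithTop ℤ) = ((1 : ℤ) : WithTop ℤ) := rfl
      have h2 : (1 : ℤ) ≤ val ν (σ θ) := by
        rw [Api.coe_val ν hσθ, e1, WithTop.coe_le_coe] at h1
        exact h1
      have h3 : σ z ≠ 0 := by
        rw [hz, map_mul, map_pow]
        exact mul_ne_zero hσπ (pow_ne_zero _ hσθ)
      rw [Api.coe_val ν h3, e1, WithTop.coe_le_coe, hz, map_mul, map_pow,
        Api.val_mul ν hσπ (pow_ne_zero _ hσθ), Api.val_pow ν hσθ]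
      have h4 := hM σ
      have h5 : (M : ℤ) * 1 ≤ M * val ν (σ θ) := mul_le_mul_of_nonneg_left h2 (by positivity)
      linarith
  -- the trace
  have hex : ∃ c : K', ¬ 2 ≤ ν (∑ σ : F' ≃ₐ[E] F', algebraMap K' F' (ρ σ c) * σ z) := by
    by_contra hcon
    push Not at hcon
    have h1 := XUnr.ded ν h0 (fun σ : F' ≃ₐ[E] F' => ((ρ σ : K' ≃+* K') : K' →+* K')) hdiff _
      Finset.univ (fun σ => σ z) rfl hcon 1 (Finset.mem_univ _)
    rw [AlgEquiv.one_apply, hz1] at h1
    exact absurd h1 (by decide)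
  obtain ⟨c, hc⟩ := hex
  obtain ⟨t, ht⟩ : ∃ t : F', t = ∑ σ : F' ≃ₐ[E] F', algebraMap K' F' (ρ σ c) * σ z := ⟨_, rfl⟩
  have ht1 : 1 ≤ ν t := by
    rw [ht]
    refine ν.map_le_sum fun σ _ => ?_
    rw [AddValuation.map_mul]
    calc (1 : WithTop ℤ) = 0 + 1 := (zero_add _).symm
      _ ≤ _ := add_le_add (h0 _) (hzσ σ)
  have htv : ν t = 1 := XUnr.eq_one ht1 (by rw [ht]; exact hc)
  have htr : t ∈ Set.range (algebraMap E F') := by
    rw [IsGalois.mem_range_algebraMap_iff_fixed]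
    intro τ
    have e1 : t = ∑ σ : F' ≃ₐ[E] F', σ (algebraMap K' F' c * z) := by
      rw [ht]
      refine Finset.sum_congr rfl fun σ _ => ?_
      rw [hρ, map_mul]
    rw [e1, map_sum]
    exact Fintype.sum_equiv (Equiv.mulLeft τ) _ _ (fun σ => rfl)
  obtain ⟨a, ha⟩ := htr
  exact ⟨a, by rw [ha, htv]⟩

end Pool.Agent.Work.MP_a2680c_ag.HA
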