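import Pool.Agent.Work.MP_a2680c_ag.HA.StmtsG

/-!
# MP_a2680c_ag, block HA, part G: item Upd
-/

set_option autoImplicit false

noncomputable section

namespace Pool.Agent.Work.MP_a2680c_ag.HA

open MP7b66e6 MP7b66e6.Q

universe u

/-- item **Upd** -/
theorem pr_Upd (hCmp : StCmp.{u}) : StUpd.{u} := by
  intro k F F' _ _ _ _ _ _ _ _ _ _ W W' η hW hL hπ
  have hid : Lies W W 1 := by
    refine ⟨Nat.one_pos, fun f _ => ?_⟩
    rw [Algebra.algebraMap_self, RingHom.id_apply]
    push_cast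
    ring
  obtain ⟨W'', η', m', hD, -, hL2⟩ := hCmp k F F F' F' (fun f _ => ⟨f, rfl⟩) W W W' 1 η hW hid hπ hL
  obtain ⟨π, h1⟩ := hD.1
  have hπ0 : π ≠ 0 := by
    intro h0
    rw [h0, AddValuation.map_zero] at h1
    exact absurd h1 (by simp)
  have hval : ∀ f : F', f ≠ 0 → val W'' f = m' * val W' f := fun f hf => hL2.2 f hf
  have hm : m' = 1 := by
    have h2 := hval π hπ0
    rw [Api.val_of W'' (show W'' π = ((1 : ℤ) : WithTop ℤ) from h1)] at h2
    have h3 : (m' : ℤ) ∣ 1 := ⟨_, h2⟩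
    have h4 : m' ∣ 1 := by exact_mod_cast h3
    exact Nat.dvd_one.1 h4
  have heq : W'' = W' := by
    ext f
    by_cases hf : f = 0
    · rw [hf, AddValuation.map_zero, AddValuation.map_zero]
    · rw [Api.coe_val W'' hf, Api.coe_val W' hf, hval f hf, hm]
      push_cast
      rw [one_mul]
  rw [← heq]
  exact hD

end Pool.Agent.Work.MP_a2680c_ag.HA
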