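import Pool.Agent.Work.MP_a2680c_ag.HA.StmtsC

/-! Item [a2680c HA Wdl] (helper9): pull-back of Cartier divisors is well defined. -/

set_option autoImplicit false

noncomputable section

namespace Pool.Agent.Work.MP_a2680c_ag.HA

open MP7b66e6 MP7b66e6.Q
open scoped BigOperators

universe u

theorem pr_Wdl (hLoc : StLoc.{u}) (hEff : StEff.{u}) : StWdl.{u} := by
  intro k K _ _ _ _ Z hZ e r hr L P hP φ hφ v hv
  obtain ⟨R, hR, hPR, hc, _⟩ := (hLoc k K Z hZ).2.1 P hP v hv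
  have hφR : Rep Z L R φ := fun ν hν => hφ ν ⟨hν.1, fun f hf => hν.2 f (hPR hf)⟩
  have hex : ∃ t : ℝ, ∃ P ∈ Z, Cen P v ∧ ∃ φ : Kˣ →₀ ℝ, Rep Z L P φ ∧ t = ev v φ :=
    ⟨ev v φ, R, hR, hc, φ, hφR, rfl⟩
  obtain ⟨P', hP', hc', φ', hφ', heq⟩ := Classical.epsilon_spec hex
  have hPe : P' = R := (hLoc k K Z hZ).2.2 P' hP' R hR v hc' hc
  subst hPe
  have key : ∀ φ₁ φ₂ : Kˣ →₀ ℝ, Rep Z L P' φ₁ → Rep Z L P' φ₂ → ev v φ₂ ≤ ev v φ₁ := by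
    intro φ₁ φ₂ h1 h2
    have := hEff k K Z hZ e r hr P' hP' (φ₁ - φ₂) (by
      intro ν hν
      rw [Api.ev_sub, ← h1 ν hν, ← h2 ν hν, sub_self]) v hc.1
    rw [Api.ev_sub] at this
    linarith
  unfold Lv
  rw [heq]
  exact le_antisymm (key φ φ' hφR hφ') (key φ' φ hφ' hφR)

end Pool.Agent.Work.MP_a2680c_ag.HA
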