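import Pool.Agent.Work.MP_a2680c_ag.HA.StmtsX

set_option autoImplicit false

noncomputable section

namespace Pool.Agent.Work.MP_a2680c_ag.HA

open MP7b66e6 MP7b66e6.Q
open scoped BigOperators

universe u

namespace XYtr

section
variable {K F : Type u} [Field K] [Field F] [Algebra K F]

/-- an affine change of the coordinate -/
theorem gen_affine {z z' : Fin 1 → F} (hz : GenBy K z) (A B : K) (hA : A ≠ 0)
    (h : z' 0 = algebraMap K F A * z 0 + algebraMap K F B) : GenBy K z' := by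
  have hA' : algebraMap K F A ≠ 0 := by
    rw [Ne, map_eq_zero_iff _ (algebraMap K F).injective]; exact hA
  have e : z 0 = algebraMap K F A⁻¹ * (z' 0 - algebraMap K F B) := by
    rw [h, add_sub_cancel_right, map_inv₀, inv_mul_cancel_left₀ hA']
  refine ⟨?_, ?_⟩
  · rw [algebraicIndependent_unique_type_iff]
    intro ht
    have h1 := (algebraicIndependent_unique_type_iff.1 hz.1)
    apply h1
    have h2 : z default = algebraMap K F A⁻¹ * (z' default - algebraMap K F B) := e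
    rw [h2]
    exact (isAlgebraic_algebraMap _).mul (ht.sub (isAlgebraic_algebraMap _))
  · rw [eq_top_iff, ← hz.2, IntermediateField.adjoin_le_iff]
    rintro _ ⟨i, rfl⟩
    have hi : i = 0 := Subsingleton.elim _ _
    rw [hi, e]
    refine mul_mem (IntermediateField.algebraMap_mem _ _)
      (sub_mem (IntermediateField.subset_adjoin _ _ ⟨0, rfl⟩) (IntermediateField.algebraMap_mem _ _))

end

section
variable {K E K₂ F₂ : Type u} [Field K] [Field E] [Field K₂] [Field F₂] [Algebra K E] [Algebra K K₂]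
  [Algebra K F₂] [Algebra E F₂] [Algebra K₂ F₂] [IsScalarTower K E F₂] [IsScalarTower K K₂ F₂] [IsGalois K K₂]

/-- restriction of `σ` to `K₂` -/
def rho (σ : F₂ ≃ₐ[E] F₂) : K₂ ≃ₐ[K] K₂ := (σ.restrictScalars K).restrictNormal K₂

theorem rho_comm (σ : F₂ ≃ₐ[E] F₂) (c : K₂) :
    algebraMap K₂ F₂ (rho (K := K) (K₂ := K₂) σ c) = σ (algebraMap K₂ F₂ c) := by
  unfold rho
  rw [AlgEquiv.restrictNormal_commutes]
  rfl

theorem rho_inj (hc : IntermediateField.adjoin E (Set.range (algebraMap K₂ F₂)) = ⊤) (σ τ : F₂ ≃ₐ[E] F₂)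
    (h : ∀ c : K₂, rho (K := K) (K₂ := K₂) σ c = rho (K := K) (K₂ := K₂) τ c) : σ = τ := by
  ext x
  have hx : x ∈ IntermediateField.adjoin E (Set.range (algebraMap K₂ F₂)) := by
    rw [hc]; trivial
  induction hx using IntermediateField.adjoin_induction with
  | mem x hx =>
    obtain ⟨c, rfl⟩ := hx
    rw [← rho_comm (K := K) σ c, ← rho_comm (K := K) τ c, h]
  | algebraMap x => rw [AlgEquiv.commutes, AlgEquiv.commutes]
  | add x y _ _ hx hy => rw [map_add, map_add, hx, hy]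
  | inv x _ hx => rw [map_inv₀, map_inv₀, hx]
  | mul x y _ _ hx hy => rw [map_mul, map_mul, hx, hy]

omit [Field K] [Algebra K E] [Algebra K K₂] [Algebra K F₂] [IsScalarTower K E F₂] [IsScalarTower K K₂ F₂]
  [IsGalois K K₂] in
theorem plc_cg (σ : F₂ ≃ₐ[E] F₂) (hσ : ∀ c : K₂, ∃ c' : K₂, algebraMap K₂ F₂ c' = σ (algebraMap K₂ F₂ c))
    (μ : AddValuation F₂ (WithTop ℤ)) (hμ : Plc K₂ μ) : Plc K₂ (cg σ μ) := by
  obtain ⟨⟨π, hπ⟩, hc⟩ := hμ
  refine ⟨⟨σ.symm π, ?_⟩, fun c => ?_⟩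
  · show μ (σ (σ.symm π)) = 1
    rw [AlgEquiv.apply_symm_apply, hπ]
  · show 0 ≤ μ (σ (algebraMap K₂ F₂ c))
    obtain ⟨c', hc'⟩ := hσ c
    rw [← hc']
    exact hc _

end

end XYtr

open XYtr in
theorem pr_Ytr (hCls : StCls.{u}) (hPol : StPol.{u}) (hLsp : StLsp.{u}) : StYtr.{u} := by
  classical
  intro K E K₂ F₂ _ _ _ _ _ _ _ _ _ _ _ _ _ _ _ _ hcomp y hy ν hν hR H hH
  obtain ⟨z, hz, hzI⟩ := hPol K₂ F₂ y hy ν hν hR
  obtain ⟨-, -, -, -, hC5, -⟩ := hCls K₂ F₂ z hz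
  have hνz : ν (z 0) = ((-1 : ℤ) : WithTop ℤ) := by
    have h := hzI (MvPolynomial.X 0) (MvPolynomial.X_ne_zero 0)
    rw [MvPolynomial.aeval_X, MvPolynomial.totalDegree_X] at h
    exact h
  have hneg : ((-1 : ℤ) : WithTop ℤ) < 0 := by
    rw [← WithTop.coe_zero, WithTop.coe_lt_coe]
    norm_num
  have hνh : ∀ h ∈ H, ν (h (z 0)) = ((-1 : ℤ) : WithTop ℤ) := by
    intro h hh
    have e : ν (h (z 0)) = cg h ν (z 0) := rfl
    rw [e, hH h hh, hνz]
  have key : ∀ h ∈ H, ∃ a b : K₂, a ≠ 0 ∧ h (z 0) = algebraMap K₂ F₂ a * z 0 + algebraMap K₂ F₂ b := by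
    intro h hh
    obtain ⟨a, b, hab⟩ := hLsp K₂ F₂ z hz ν hzI (h (z 0)) (by
      intro μ hμ hne
      by_contra hlt
      rw [not_le] at hlt
      have h1 : cg h μ (z 0) < 0 := hlt
      have h2 : ν = cg h μ := hC5 ν (cg h μ) hν (plc_cg h (fun c => ⟨_, rho_comm (K := K) h c⟩) μ hμ) (by rw [hνz]; exact hneg) h1
      apply hne
      apply AddValuation.ext
      intro f
      have h3 : cg h μ (h.symm f) = cg h ν (h.symm f) := by
        rw [hH h hh, ← h2]
      have h4 : μ (h (h.symm f)) = ν (h (h.symm f)) := h3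
      rwa [AlgEquiv.apply_symm_apply] at h4) (by rw [hνh h hh])
    refine ⟨a, b, ?_, hab⟩
    rintro rfl
    rw [map_zero, zero_mul, zero_add] at hab
    have h5 := hν.2 b
    rw [← hab, hνh h hh] at h5
    exact absurd h5 (not_le.2 hneg)
  choose! α β hα hαβ using key
  -- characters
  have hli := linearIndependent_monoidHom K₂ K₂
  let ch : H → (K₂ →* K₂) := fun h =>
    ((rho (K := K) (K₂ := K₂) (h : F₂ ≃ₐ[E] F₂) : K₂ ≃ₐ[K] K₂) : K₂ →* K₂)
  have hchv : ∀ (h : H) (c : K₂), ch h c = rho (K := K) (K₂ := K₂) (h : F₂ ≃ₐ[E] F₂) c := fun h c => rfl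
  have hch : Function.Injective ch := by
    intro h h' e
    apply Subtype.ext
    refine rho_inj (K := K) (K₂ := K₂) hcomp _ _ fun c => ?_
    rw [← hchv, ← hchv, e]
  have hli2 : LinearIndependent K₂ (fun h : H => (ch h : K₂ → K₂)) := hli.comp ch hch
  have hex : ∃ c : K₂, ∑ h : H, ch h c * α (h : F₂ ≃ₐ[E] F₂) ≠ 0 := by
    by_contra hno
    push Not at hno
    have h6 : ∑ h : H, α (h : F₂ ≃ₐ[E] F₂) • (ch h : K₂ → K₂) = 0 := by
      funext c
      rw [Finset.sum_apply, Pi.zero_apply]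
      refine Eq.trans (Finset.sum_congr rfl fun h _ => ?_) (hno c)
      rw [Pi.smul_apply, smul_eq_mul, mul_comm]
    have h7 := Fintype.linearIndependent_iff.1 hli2 _ h6 (1 : H)
    exact hα _ H.one_mem h7
  obtain ⟨c, hc⟩ := hex
  let t : F₂ := ∑ h : H, (h : F₂ ≃ₐ[E] F₂) (algebraMap K₂ F₂ c * z 0)
  have ht : t = algebraMap K₂ F₂ (∑ h : H, ch h c * α (h : F₂ ≃ₐ[E] F₂)) * z 0 +
      algebraMap K₂ F₂ (∑ h : H, ch h c * β (h : F₂ ≃ₐ[E] F₂)) := by
    rw [map_sum, map_sum, Finset.sum_mul, ← Finset.sum_add_distrib]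
    refine Finset.sum_congr rfl fun h _ => ?_
    rw [map_mul, ← rho_comm (K := K), hαβ _ h.2, map_mul, map_mul, hchv]
    ring
  refine ⟨fun _ => t, gen_affine hz _ _ hc ht, ?_⟩
  intro h hh
  show h (∑ g : H, (g : F₂ ≃ₐ[E] F₂) (algebraMap K₂ F₂ c * z 0)) =
    ∑ g : H, (g : F₂ ≃ₐ[E] F₂) (algebraMap K₂ F₂ c * z 0)
  rw [map_sum]
  exact Fintype.sum_equiv (Equiv.mulLeft (⟨h, hh⟩ : H)) _ _ fun g => rfl

end Pool.Agent.Work.MP_a2680c_ag.HA
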