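import Pool.Agent.Work.MP_a2680c_ag.HA.StmtsZ

/-!
# MP_a2680c_ag, block HA, item Zad: additivity of the invariant differential
-/

set_option autoImplicit false

noncomputable section

namespace Pool.Agent.Work.MP_a2680c_ag.HA

universe u

namespace XZad

/-- the derivation of a square -/
theorem sq {F : Type u} [Field F] (θ : Derivation ℤ F F) (x : F) : θ (x ^ 2) = 2 * x * θ x := by
  rw [pow_two, Derivation.leibniz]
  simp only [smul_eq_mul]
  ring

/-- the derivation of a product -/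
theorem mu {F : Type u} [Field F] (θ : Derivation ℤ F F) (x y : F) : θ (x * y) = x * θ y + y * θ x := by
  rw [Derivation.leibniz]
  simp only [smul_eq_mul]

/-- the computation: `s` the slope, `x₃ = s ^ 2 - x₁ - x₂`, `y₃ = - (s (x₃ - x₁) + y₁)` -/
theorem core {F : Type u} [Field F] (θ : Derivation ℤ F F) (a x₁ x₂ y₁ y₂ s l l' x₃ y₃ : F)
    (hs : s * (x₁ - x₂) = y₁ - y₂) (hk : x₁ ^ 2 + x₁ * x₂ + x₂ ^ 2 + a = s * (y₁ + y₂))
    (h1 : θ x₁ = 2 * y₁ * l) (h2 : θ y₁ = (3 * x₁ ^ 2 + a) * l) (h3 : θ x₂ = 2 * y₂ * l')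
    (hx : x₃ = s ^ 2 - x₁ - x₂) (hy : y₃ = - (s * (x₃ - x₁) + y₁))
    (ht : θ s = - (x₃ - x₁) * l - (x₃ - x₂) * l') :
    θ x₃ = 2 * y₃ * (l + l') ∧ θ y₃ = (3 * x₃ ^ 2 + a) * (l + l') := by
  have ha : a = s * (y₁ + y₂) - (x₁ ^ 2 + x₁ * x₂ + x₂ ^ 2) := by linear_combination hk
  have hy2 : y₂ = y₁ - s * (x₁ - x₂) := by linear_combination hs
  have hX : θ x₃ = 2 * y₃ * (l + l') := by
    rw [hx, map_sub, map_sub, sq, h1, h3, ht, hy, hx, hy2]
    ring
  refine ⟨hX, ?_⟩
  have hY : θ y₃ = - ((s * (θ x₃ - θ x₁) + (x₃ - x₁) * θ s) + θ y₁) := by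
    rw [hy, map_neg, map_add, mu, map_sub]
  rw [hY, hX, h1, h2, ht, hy, ha, hy2, hx]
  ring

end XZad

open Classical in
theorem pr_Zad : StZad.{u} := by
  intro F _ _ θ a b ha hb Q Q' l l' hQ hQ'
  rcases Q with _ | ⟨x₁, y₁, h₁⟩
  · have h0 : l = 0 := hQ
    have e : (WeierstrassCurve.Affine.Point.zero : (WC a b).Point) + Q' = Q' := zero_add Q'
    rw [e, h0, zero_add]
    exact hQ'
  rcases Q' with _ | ⟨x₂, y₂, h₂⟩
  · have h0 : l' = 0 := hQ'
    have e : (WeierstrassCurve.Affine.Point.some x₁ y₁ h₁ : (WC a b).Point) + WeierstrassCurve.Affine.Point.zero =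
      WeierstrassCurve.Affine.Point.some x₁ y₁ h₁ := add_zero _
    rw [e, h0, add_zero]
    exact hQ
  obtain ⟨p1, p2⟩ : θ x₁ = 2 * y₁ * l ∧ θ y₁ = (3 * x₁ ^ 2 + a) * l := hQ
  obtain ⟨q1, q2⟩ : θ x₂ = 2 * y₂ * l' ∧ θ y₂ = (3 * x₂ ^ 2 + a) * l' := hQ'
  have E1 : y₁ ^ 2 = x₁ ^ 3 + a * x₁ + b := by
    have := (WeierstrassCurve.Affine.nonsingular_iff _ _).1 h₁
    have := ((WeierstrassCurve.Affine.equation_iff _ _).1 this.1)
    simpa [WC] using this
  have E2 : y₂ ^ 2 = x₂ ^ 3 + a * x₂ + b := by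
    have := (WeierstrassCurve.Affine.nonsingular_iff _ _).1 h₂
    have := ((WeierstrassCurve.Affine.equation_iff _ _).1 this.1)
    simpa [WC] using this
  have hneg : (WC a b).negY x₂ y₂ = - y₂ := by simp [WeierstrassCurve.Affine.negY, WC]
  by_cases hxy : x₁ = x₂ ∧ y₁ = (WC a b).negY x₂ y₂
  · obtain ⟨hx, hy⟩ := hxy
    have e : (WeierstrassCurve.Affine.Point.some x₁ y₁ h₁ : (WC a b).Point) + WeierstrassCurve.Affine.Point.some x₂ y₂ h₂ = 0 :=
      WeierstrassCurve.Affine.Point.add_of_Y_eq hx hy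
    rw [e]
    show l + l' = 0
    rw [hneg] at hy
    subst hx
    have n1 : y₁ * (l + l') = 0 := by
      have : 2 * (y₁ * (l + l')) = 0 := by
        rw [q1] at p1
        have hy' : y₂ = - y₁ := by rw [hy]; ring
        rw [hy'] at p1
        linear_combination - p1
      exact (mul_eq_zero.1 this).resolve_left two_ne_zero
    have n2 : (3 * x₁ ^ 2 + a) * (l + l') = 0 := by
      have : θ y₁ = - θ y₂ := by rw [hy, map_neg]
      rw [p2, q2] at this
      linear_combination this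
    rcases mul_eq_zero.1 n1 with h | h
    · rcases mul_eq_zero.1 n2 with h' | h'
      · exfalso
        have := (WeierstrassCurve.Affine.nonsingular_iff _ _).1 h₁
        have := this.2
        simp only [WC] at this
        rcases this with t | t
        · apply t
          linear_combination - h'
        · apply t
          linear_combination 2 * h
      · exact h'
    · exact h
  · have e := WeierstrassCurve.Affine.Point.add_some (W := WC a b) hxy (h₁ := h₁) (h₂ := h₂)
    rw [e]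
    set s := (WC a b).slope x₁ x₂ y₁ y₂ with hsd
    have hX : (WC a b).addX x₁ x₂ s = s ^ 2 - x₁ - x₂ := by
      simp [WeierstrassCurve.Affine.addX, WC]
    have hY : (WC a b).addY x₁ x₂ y₁ s = - (s * ((WC a b).addX x₁ x₂ s - x₁) + y₁) := by
      simp [WeierstrassCurve.Affine.addY, WeierstrassCurve.Affine.negY, WeierstrassCurve.Affine.negAddY, WC]
    show θ ((WC a b).addX x₁ x₂ s) = 2 * ((WC a b).addY x₁ x₂ y₁ s) * (l + l') ∧
      θ ((WC a b).addY x₁ x₂ y₁ s) = (3 * ((WC a b).addX x₁ x₂ s) ^ 2 + a) * (l + l')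
    by_cases hx : x₁ = x₂
    · have hy : y₁ ≠ (WC a b).negY x₂ y₂ := fun h => hxy ⟨hx, h⟩
      have hs : s = (3 * x₁ ^ 2 + a) / (y₁ + y₁) := by
        rw [hsd, WeierstrassCurve.Affine.slope_of_Y_ne hx hy]
        simp [WeierstrassCurve.Affine.negY, WC]
      rw [hneg] at hy
      subst hx
      have hyy : y₁ = y₂ := by
        have : (y₁ - y₂) * (y₁ + y₂) = 0 := by linear_combination E1 - E2
        rcases mul_eq_zero.1 this with h | h
        · linear_combination h
        · exact absurd (by linear_combination h) hy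
      subst hyy
      have hy0 : y₁ ≠ 0 := fun h => hy (by rw [h, neg_zero])
      have hll : l = l' := by
        have : y₁ * (l - l') = 0 := by
          have : 2 * (y₁ * (l - l')) = 0 := by
            rw [q1] at p1
            linear_combination - p1
          exact (mul_eq_zero.1 this).resolve_left two_ne_zero
        exact sub_eq_zero.1 ((mul_eq_zero.1 this).resolve_left hy0)
      subst hll
      have hs' : s * (2 * y₁) = 3 * x₁ ^ 2 + a := by
        have h2 : y₁ + y₁ ≠ 0 := by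
          have : (2 : F) * y₁ ≠ 0 := mul_ne_zero two_ne_zero hy0
          rwa [two_mul] at this
        rw [hs, two_mul, div_mul_cancel₀ _ h2]
      refine XZad.core θ a x₁ x₁ y₁ y₁ s l l _ _ (by ring) (by linear_combination - hs') p1 p2 p1 hX hY ?_
      rw [hX]
      have ht : θ (s * (2 * y₁)) = θ (3 * x₁ ^ 2 + a) := by rw [hs']
      have t1 : θ (s * (2 * y₁)) = 2 * (s * θ y₁ + y₁ * θ s) := by
        have : s * (2 * y₁) = s * y₁ + s * y₁ := by ring
        rw [this, map_add, XZad.mu]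
        ring
      have t2 : θ (3 * x₁ ^ 2 + a) = 6 * x₁ * θ x₁ := by
        have : 3 * x₁ ^ 2 + a = x₁ ^ 2 + x₁ ^ 2 + x₁ ^ 2 + a := by ring
        rw [this, map_add, map_add, map_add, XZad.sq, ha]
        ring
      rw [t1, t2, p1, p2] at ht
      have : (2 * y₁) * (θ s - (-(s ^ 2 - x₁ - x₁ - x₁) * l - (s ^ 2 - x₁ - x₁ - x₁) * l)) = 0 := by
        linear_combination ht + 2 * s * l * hs'
      have := (mul_eq_zero.1 this).resolve_left (mul_ne_zero two_ne_zero hy0)
      exact sub_eq_zero.1 this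
    · have hs : s = (y₁ - y₂) / (x₁ - x₂) := by rw [hsd, WeierstrassCurve.Affine.slope_of_X_ne hx]
      have hd : x₁ - x₂ ≠ 0 := sub_ne_zero.2 hx
      have hs' : s * (x₁ - x₂) = y₁ - y₂ := by rw [hs]; field_simp
      have hk : x₁ ^ 2 + x₁ * x₂ + x₂ ^ 2 + a = s * (y₁ + y₂) := by
        have : (x₁ - x₂) * (x₁ ^ 2 + x₁ * x₂ + x₂ ^ 2 + a - s * (y₁ + y₂)) = 0 := by
          linear_combination E2 - E1 - (y₁ + y₂) * hs'
        exact sub_eq_zero.1 ((mul_eq_zero.1 this).resolve_left hd)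
      refine XZad.core θ a x₁ x₂ y₁ y₂ s l l' _ _ hs' hk p1 p2 q1 hX hY ?_
      rw [hX]
      have ht : θ (s * (x₁ - x₂)) = θ (y₁ - y₂) := by rw [hs']
      rw [XZad.mu, map_sub, map_sub, p1, p2, q1, q2] at ht
      have : (x₁ - x₂) * (θ s - (-(s ^ 2 - x₁ - x₂ - x₁) * l - (s ^ 2 - x₁ - x₂ - x₂) * l')) = 0 := by
        linear_combination ht + (l - l') * hk * 1 + (l + l') * s * hs'
      have := (mul_eq_zero.1 this).resolve_left hd
      exact sub_eq_zero.1 this

end Pool.Agent.Work.MP_a2680c_ag.HA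

end
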