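import Pool.Agent.Work.MP_a2680c_ag.HA.StmtsZ

/-!
# MP_a2680c_ag, block HA, item Zbk: pairs of lattices over `K[f]` and over a valuation ring split
-/

set_option autoImplicit false

noncomputable section

namespace Pool.Agent.Work.MP_a2680c_ag.HA

open MP7b66e6 MP7b66e6.Q
open scoped BigOperators

universe u

namespace XZbk

variable {K E₁ : Type u} [Field K] [Field E₁] [Algebra K E₁]

/-- the valuation ring -/
def O (v : AddValuation E₁ (WithTop ℤ)) : Subring E₁ where
  carrier := {x | 0 ≤ v x}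
  mul_mem' := by
    intro x y hx hy
    show 0 ≤ v (x * y)
    rw [AddValuation.map_mul]
    exact add_nonneg hx hy
  one_mem' := by
    show 0 ≤ v 1
    rw [AddValuation.map_one]
  add_mem' := by
    intro x y hx hy
    exact AddValuation.map_le_add v hx hy
  zero_mem' := by
    show 0 ≤ v 0
    rw [AddValuation.map_zero]
    exact le_top
  neg_mem' := by
    intro x hx
    show 0 ≤ v (-x)
    rw [AddValuation.map_neg]
    exact hx

theorem mem_O (v : AddValuation E₁ (WithTop ℤ)) (x : E₁) : x ∈ O v ↔ 0 ≤ v x := Iff.rfl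

/-- the maximal ideal -/
def I (v : AddValuation E₁ (WithTop ℤ)) : Ideal (O v) where
  carrier := {x | 1 ≤ v (x : E₁)}
  add_mem' := by
    intro x y hx hy
    exact AddValuation.map_le_add v hx hy
  zero_mem' := by
    show 1 ≤ v ((0 : O v) : E₁)
    rw [Subring.coe_zero, AddValuation.map_zero]
    exact le_top
  smul_mem' := by
    intro c x hx
    show 1 ≤ v ((c * x : O v) : E₁)
    rw [Subring.coe_mul, AddValuation.map_mul]
    have h1 : 0 ≤ v (c : E₁) := c.2
    have h2 : (1 : WithTop ℤ) ≤ v (x : E₁) := hx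
    calc (1 : WithTop ℤ) = 0 + 1 := by rw [zero_add]
      _ ≤ _ := add_le_add h1 h2

theorem shift (d : ℤ) (a : WithTop ℤ) : 0 ≤ ((-d : ℤ) : WithTop ℤ) + a ↔ (d : WithTop ℤ) ≤ a := by
  induction a using WithTop.recTopCoe with
  | top => simp
  | coe a =>
    constructor
    · intro h
      have h1 : (0 : ℤ) ≤ -d + a := by exact_mod_cast h
      exact_mod_cast (by omega : d ≤ a)
    · intro h
      have h1 : d ≤ a := by exact_mod_cast h
      exact_mod_cast (by omega : (0 : ℤ) ≤ -d + a)

section val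

variable {f : E₁} {v : AddValuation E₁ (WithTop ℤ)}
  (hv : ∀ p : Polynomial K, p ≠ 0 → v (Polynomial.aeval f p) = ((-(p.natDegree : ℤ) : ℤ) : WithTop ℤ))

include hv

theorem f_ne : f ≠ 0 := by
  intro h0
  have h1 := hv Polynomial.X Polynomial.X_ne_zero
  rw [Polynomial.aeval_X, h0, AddValuation.map_zero] at h1
  exact WithTop.top_ne_coe h1

theorem aeval_ne {p : Polynomial K} (hp : p ≠ 0) : Polynomial.aeval f p ≠ 0 := by
  intro h0
  have h1 := hv p hp
  rw [h0, AddValuation.map_zero] at h1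
  exact WithTop.top_ne_coe h1

theorem v_const {c : K} (hc : c ≠ 0) : v (algebraMap K E₁ c) = 0 := by
  have h1 := hv (Polynomial.C c) (Polynomial.C_ne_zero.2 hc)
  rw [Polynomial.aeval_C, Polynomial.natDegree_C] at h1
  simpa using h1

theorem v_const_nonneg (c : K) : 0 ≤ v (algebraMap K E₁ c) := by
  by_cases hc : c = 0
  · rw [hc, map_zero, AddValuation.map_zero]
    exact le_top
  · rw [v_const hv hc]

theorem v_npow (m : ℕ) : v (f ^ m) = ((-(m : ℤ) : ℤ) : WithTop ℤ) := by
  have h1 := hv (Polynomial.X ^ m) (pow_ne_zero m Polynomial.X_ne_zero)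
  rwa [map_pow, Polynomial.aeval_X, Polynomial.natDegree_X_pow] at h1

theorem v_zpow (m : ℤ) : v (f ^ m) = ((-m : ℤ) : WithTop ℤ) := by
  obtain ⟨k, rfl | rfl⟩ := m.eq_nat_or_neg
  · rw [zpow_natCast]
    exact v_npow hv k
  · have h0 : f ^ (-(k : ℤ)) * f ^ k = 1 := by
      rw [zpow_neg, zpow_natCast]
      exact inv_mul_cancel₀ (pow_ne_zero k (f_ne hv))
    have h1 := congrArg v h0
    rw [AddValuation.map_mul, AddValuation.map_one, v_npow hv] at h1
    have hne : v (f ^ (-(k : ℤ))) ≠ ⊤ := by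
      intro h
      rw [h, top_add] at h1
      exact WithTop.top_ne_zero h1
    obtain ⟨a, ha⟩ := WithTop.ne_top_iff_exists.1 hne
    rw [← ha] at h1 ⊢
    have h2 : a + -(k : ℤ) = 0 := by exact_mod_cast h1
    have h3 : a = -(-(k : ℤ)) := by omega
    rw [h3]

/-- the residue field is `K` -/
theorem residue (hg : ∀ g : E₁, ∃ p q : Polynomial K, q ≠ 0 ∧
    g * Polynomial.aeval f q = Polynomial.aeval f p) (c : E₁) (hc : 0 ≤ v c) :
    ∃ a : K, 1 ≤ v (c - algebraMap K E₁ a) := by
  obtain ⟨p, q, hq, he⟩ := hg c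
  by_cases hp : p = 0
  · refine ⟨0, ?_⟩
    rw [hp, map_zero] at he
    have h1 : c = 0 := (mul_eq_zero.1 he).resolve_right (aeval_ne hv hq)
    rw [h1, map_zero, sub_zero, AddValuation.map_zero]
    exact le_top
  have key : ∀ r : Polynomial K, ∀ a : K, (c - algebraMap K E₁ a) * Polynomial.aeval f q =
      Polynomial.aeval f r → (r = 0 ∨ r.natDegree < q.natDegree) →
      1 ≤ v (c - algebraMap K E₁ a) := by
    intro r a h1 h2
    by_cases hr : r = 0
    · rw [hr, map_zero] at h1
      rw [(mul_eq_zero.1 h1).resolve_right (aeval_ne hv hq), AddValuation.map_zero]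
      exact le_top
    · have h3 := congrArg v h1
      rw [AddValuation.map_mul, hv q hq, hv r hr] at h3
      have h4 := h2.resolve_left hr
      induction hx : v (c - algebraMap K E₁ a) using WithTop.recTopCoe with
      | top => exact le_top
      | coe x =>
        rw [hx] at h3
        have h5 : x + -(q.natDegree : ℤ) = -(r.natDegree : ℤ) := by exact_mod_cast h3
        exact_mod_cast (by omega : (1 : ℤ) ≤ x)
  have hdeg : p.natDegree ≤ q.natDegree := by
    have h3 := congrArg v he
    rw [AddValuation.map_mul, hv q hq, hv p hp] at h3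
    induction hx : v c using WithTop.recTopCoe with
    | top =>
      rw [hx, top_add] at h3
      exact absurd h3 WithTop.top_ne_coe
    | coe x =>
      rw [hx] at h3 hc
      have h5 : x + -(q.natDegree : ℤ) = -(p.natDegree : ℤ) := by exact_mod_cast h3
      have h6 : (0 : ℤ) ≤ x := by exact_mod_cast hc
      omega
  by_cases hlt : p.natDegree < q.natDegree
  · refine ⟨0, key p 0 ?_ (Or.inr hlt)⟩
    rw [map_zero, sub_zero]
    exact he
  · have heq : p.natDegree = q.natDegree := le_antisymm hdeg (not_lt.1 hlt)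
    refine ⟨p.leadingCoeff / q.leadingCoeff,
      key (p - Polynomial.C (p.leadingCoeff / q.leadingCoeff) * q) _ ?_ ?_⟩
    · rw [sub_mul, he, map_sub, map_mul, Polynomial.aeval_C]
    · by_cases hr : p - Polynomial.C (p.leadingCoeff / q.leadingCoeff) * q = 0
      · exact Or.inl hr
      · right
        have hlq : q.leadingCoeff ≠ 0 := Polynomial.leadingCoeff_ne_zero.2 hq
        have hlp : p.leadingCoeff ≠ 0 := Polynomial.leadingCoeff_ne_zero.2 hp
        have hd : p.degree = (Polynomial.C (p.leadingCoeff / q.leadingCoeff) * q).degree := by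
          rw [Polynomial.degree_C_mul (div_ne_zero hlp hlq),
            Polynomial.degree_eq_natDegree hp, Polynomial.degree_eq_natDegree hq, heq]
        have h1 := Polynomial.degree_sub_lt_left hd hp (by
          rw [Polynomial.leadingCoeff_mul, Polynomial.leadingCoeff_C, div_mul_cancel₀ _ hlq])
        rw [← heq]
        exact Polynomial.natDegree_lt_natDegree hr h1

end val

section mat

variable {n : ℕ} {v : AddValuation E₁ (WithTop ℤ)}

theorem mvx (M : Matrix (Fin n) (Fin n) E₁) (x : Fin n → E₁) (i : Fin n) :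
    (M.mulVec x) i = ∑ j, M i j * x j := rfl

theorem prod_zp {f : E₁} (hf : f ≠ 0) (s : Finset (Fin n)) (d : Fin n → ℤ) :
    ∏ j ∈ s, f ^ (-(d j)) = f ^ (-(∑ j ∈ s, d j)) := by
  classical
  induction s using Finset.induction_on with
  | empty => simp
  | insert a s ha ih =>
    rw [Finset.prod_insert ha, Finset.sum_insert ha, ih, ← zpow_add₀ hf]
    congr 1
    ring

/-- the lift of an integral matrix -/
def lift (Q : Matrix (Fin n) (Fin n) E₁) (hQ : ∀ i j, 0 ≤ v (Q i j)) :
    Matrix (Fin n) (Fin n) (O v) := Matrix.of fun i j => ⟨Q i j, hQ i j⟩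

theorem lift_map (Q : Matrix (Fin n) (Fin n) E₁) (hQ : ∀ i j, 0 ≤ v (Q i j)) :
    (lift Q hQ).map (O v).subtype = Q := by
  ext i j
  rfl

theorem det_lift (Q : Matrix (Fin n) (Fin n) E₁) (hQ : ∀ i j, 0 ≤ v (Q i j)) :
    (((lift Q hQ).det : O v) : E₁) = Q.det := by
  have h1 := RingHom.map_det (O v).subtype (lift Q hQ)
  rw [RingHom.mapMatrix_apply, lift_map] at h1
  exact h1

theorem det_nonneg (Q : Matrix (Fin n) (Fin n) E₁) (hQ : ∀ i j, 0 ≤ v (Q i j)) :
    0 ≤ v Q.det := by
  rw [← det_lift Q hQ]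
  exact ((lift Q hQ).det).2

theorem adj_nonneg (Q : Matrix (Fin n) (Fin n) E₁) (hQ : ∀ i j, 0 ≤ v (Q i j)) (i j : Fin n) :
    0 ≤ v (Q.adjugate i j) := by
  have h1 := RingHom.map_adjugate (O v).subtype (lift Q hQ)
  rw [RingHom.mapMatrix_apply, RingHom.mapMatrix_apply, lift_map] at h1
  rw [← h1]
  exact ((lift Q hQ).adjugate i j).2

theorem mulVec_nonneg (Q : Matrix (Fin n) (Fin n) E₁) (hQ : ∀ i j, 0 ≤ v (Q i j))
    (x : Fin n → E₁) (hx : ∀ i, 0 ≤ v (x i)) (i : Fin n) : 0 ≤ v ((Q.mulVec x) i) := by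
  rw [mvx]
  apply AddValuation.map_le_sum
  intro j _
  rw [AddValuation.map_mul]
  exact add_nonneg (hQ i j) (hx j)

/-- the residue matrix of a matrix with determinant of positive value is singular -/
theorem det_res (hc0 : ∀ c : K, 0 ≤ v (algebraMap K E₁ c))
    (hc1 : ∀ c : K, c ≠ 0 → v (algebraMap K E₁ c) = 0)
    (Q : Matrix (Fin n) (Fin n) E₁) (hQ : ∀ i j, 0 ≤ v (Q i j))
    (U : Matrix (Fin n) (Fin n) K) (hU : ∀ i j, 1 ≤ v (Q i j - algebraMap K E₁ (U i j)))
    (hd : 1 ≤ v Q.det) : U.det = 0 := by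
  let φ : K →+* O v := (algebraMap K E₁).codRestrict (O v) hc0
  have h1 : (Ideal.Quotient.mk (I v)) (lift Q hQ).det =
      (Ideal.Quotient.mk (I v)) (φ U.det) := by
    rw [RingHom.map_det, RingHom.map_det φ, RingHom.map_det]
    congr 1
    ext i j
    show (Ideal.Quotient.mk (I v)) (lift Q hQ i j) = (Ideal.Quotient.mk (I v)) (φ (U i j))
    rw [Ideal.Quotient.eq]
    exact hU i j
  have h2 : (lift Q hQ).det ∈ I v := by
    show 1 ≤ v (((lift Q hQ).det : O v) : E₁)
    rw [det_lift]
    exact hd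
  rw [Ideal.Quotient.eq_zero_iff_mem.2 h2, eq_comm, Ideal.Quotient.eq_zero_iff_mem] at h1
  have h3 : 1 ≤ v (algebraMap K E₁ U.det) := h1
  by_contra hne
  rw [hc1 _ hne] at h3
  exact absurd h3 (by norm_num)

/-- multiplication with a matrix which differs from `1` in one column -/
theorem mul_col (M : Matrix (Fin n) (Fin n) E₁) (i₀ : Fin n) (τ : Fin n → E₁) (i j : Fin n) :
    (M * (1 : Matrix (Fin n) (Fin n) E₁).updateCol i₀ τ) i j =
      if j = i₀ then (M.mulVec τ) i else M i j := by
  rw [Matrix.mul_apply]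
  split_ifs with h
  · subst h
    rw [mvx]
    refine Finset.sum_congr rfl fun k _ => ?_
    rw [Matrix.updateCol_self]
  · rw [Finset.sum_eq_single j]
    · rw [Matrix.updateCol_ne h, Matrix.one_apply_eq, mul_one]
    · intro k _ hk
      rw [Matrix.updateCol_ne h, Matrix.one_apply_ne hk, mul_zero]
    · intro h1
      exact absurd (Finset.mem_univ j) h1

end mat

end XZbk

open XZbk

theorem pr_Zbk : StZbk.{u} := by
  intro K E₁ V _ _ _ _ _ f v n b b' hg hv
  have hf0 : f ≠ 0 := f_ne hv
  -- matrices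
  obtain ⟨Φ, hΦ⟩ : ∃ Φ : Matrix (Fin n) (Fin n) (Polynomial K) →+* Matrix (Fin n) (Fin n) E₁,
      Φ = (Polynomial.aeval f : Polynomial K →ₐ[K] E₁).toRingHom.mapMatrix := ⟨_, rfl⟩
  have hΦa : ∀ P i j, Φ P i j = Polynomial.aeval f (P i j) := by
    intro P i j
    rw [hΦ]
    rfl
  have hΦdet : ∀ P, (Φ P).det = Polynomial.aeval f P.det := by
    intro P
    rw [hΦ]
    exact (RingHom.map_det _ _).symm
  obtain ⟨B, hB⟩ : ∃ B : Matrix (Fin n) (Fin n) E₁, B = b'.toMatrix b := ⟨_, rfl⟩
  have hBinv : B * b.toMatrix b' = 1 := by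
    rw [hB]
    exact Module.Basis.toMatrix_mul_toMatrix_flip b' b
  have hBdet : B.det ≠ 0 := by
    intro h0
    have h1 := congrArg Matrix.det hBinv
    rw [Matrix.det_mul, h0, zero_mul, Matrix.det_one] at h1
    exact zero_ne_one h1
  obtain ⟨β, hβ⟩ : ∃ β : ℤ, v B.det = (β : WithTop ℤ) := by
    have h1 : v B.det ≠ ⊤ := by
      rw [Ne, AddValuation.top_iff]
      exact hBdet
    obtain ⟨β, h2⟩ := WithTop.ne_top_iff_exists.1 h1
    exact ⟨β, h2.symm⟩
  -- the scaled matrix
  obtain ⟨q, hq⟩ : ∃ q : Matrix (Fin n) (Fin n) (Polynomial K) → (Fin n → ℤ) →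
      Matrix (Fin n) (Fin n) E₁, q = fun P d => (B * Φ P) * Matrix.diagonal fun j => f ^ (-(d j)) :=
    ⟨_, rfl⟩
  have hqa : ∀ P d i j, q P d i j = (B * Φ P) i j * f ^ (-(d j)) := by
    intro P d i j
    rw [hq]
    exact Matrix.mul_diagonal _ _ _ _
  have hprod : ∀ d : Fin n → ℤ, v (∏ j, f ^ (-(d j))) = ((∑ j, d j : ℤ) : WithTop ℤ) := by
    intro d
    rw [prod_zp hf0, v_zpow hv, neg_neg]
  have hqdet : ∀ P d, IsUnit P.det → v (q P d).det = ((β + ∑ j, d j : ℤ) : WithTop ℤ) := by
    intro P d hP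
    rw [hq]
    show v ((B * Φ P) * Matrix.diagonal fun j => f ^ (-(d j))).det = _
    rw [Matrix.det_mul, Matrix.det_mul, Matrix.det_diagonal, AddValuation.map_mul,
      AddValuation.map_mul, hβ, hprod, hΦdet, hv _ hP.ne_zero,
      Polynomial.natDegree_eq_zero_of_isUnit hP]
    simp
  obtain ⟨S, hS⟩ : ∃ S : ℤ → Prop, S = fun s => ∃ (P : Matrix (Fin n) (Fin n) (Polynomial K))
      (d : Fin n → ℤ), IsUnit P.det ∧ (∀ i j, 0 ≤ v (q P d i j)) ∧ ∑ j, d j = s := ⟨_, rfl⟩
  have hbd : ∃ m : ℤ, ∀ z, S z → m ≤ z := by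
    refine ⟨-β, ?_⟩
    intro z hz
    rw [hS] at hz
    obtain ⟨P, d, hP, hi, rfl⟩ := hz
    have h1 := det_nonneg (q P d) hi
    rw [hqdet P d hP] at h1
    have h2 : (0 : ℤ) ≤ β + ∑ j, d j := by exact_mod_cast h1
    omega
  have hin : ∃ z, S z := by
    have hlow : ∀ i j, ∃ m : ℤ, (m : WithTop ℤ) ≤ v (B i j) := by
      intro i j
      induction hx : v (B i j) using WithTop.recTopCoe with
      | top => exact ⟨0, le_top⟩
      | coe x => exact ⟨x, le_refl _⟩
    choose m hm using hlow
    rw [hS]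
    refine ⟨_, 1, fun j => ∑ i, |m i j|, ?_, ?_, rfl⟩
    · rw [Matrix.det_one]
      exact isUnit_one
    · intro i j
      rw [hqa, map_one, mul_one, AddValuation.map_mul, v_zpow hv, neg_neg]
      have h1 : |m i j| ≤ ∑ i, |m i j| :=
        Finset.single_le_sum (f := fun i => |m i j|) (fun _ _ => abs_nonneg _) (Finset.mem_univ i)
      have h2 : -|m i j| ≤ m i j := neg_abs_le _
      have h3 : (0 : ℤ) ≤ m i j + ∑ i, |m i j| := by omega
      calc (0 : WithTop ℤ) ≤ ((m i j + ∑ i, |m i j| : ℤ) : WithTop ℤ) := by exact_mod_cast h3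
        _ = (m i j : WithTop ℤ) + ((∑ i, |m i j| : ℤ) : WithTop ℤ) := by push_cast; rfl
        _ ≤ _ := add_le_add (hm i j) (le_refl _)
  obtain ⟨s, hs, hmin⟩ := Int.exists_least_of_bdd hbd hin
  rw [hS] at hs
  obtain ⟨P, d, hP, hi, hsum⟩ := hs
  -- the determinant of the scaled matrix is a unit
  have hunit : v (q P d).det = 0 := by
    by_contra hne
    have h0 := det_nonneg (q P d) hi
    have h1 : 1 ≤ v (q P d).det := by
      rw [hqdet P d hP] at h0 hne ⊢
      have h2 : (0 : ℤ) ≤ β + ∑ j, d j := by exact_mod_cast h0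
      have h3 : β + ∑ j, d j ≠ 0 := by
        intro h
        apply hne
        rw [h]
        rfl
      have h4 : (1 : ℤ) ≤ β + ∑ j, d j := by omega
      exact_mod_cast h4
    choose U hU using fun i j => residue hv hg (q P d i j) (hi i j)
    have hdet := det_res (v_const_nonneg hv) (fun c hc => v_const hv hc) (q P d) hi
      (Matrix.of U) hU h1
    obtain ⟨c, hc0, hc⟩ := Matrix.exists_mulVec_eq_zero_iff.2 hdet
    -- the index
    obtain ⟨i₀, hi₀, hmax⟩ : ∃ i₀, c i₀ ≠ 0 ∧ ∀ k, c k ≠ 0 → d k ≤ d i₀ := by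
      classical
      have hne' : (Finset.univ.filter fun k => c k ≠ 0).Nonempty := by
        obtain ⟨k, hk⟩ := Function.ne_iff.1 hc0
        exact ⟨k, by simpa using hk⟩
      obtain ⟨i₀, h2, h3⟩ := Finset.exists_max_image _ d hne'
      refine ⟨i₀, (Finset.mem_filter.1 h2).2, fun k hk => h3 k ?_⟩
      rw [Finset.mem_filter]
      exact ⟨Finset.mem_univ k, hk⟩
    obtain ⟨t, ht⟩ : ∃ t : Fin n → Polynomial K,
        t = fun k => Polynomial.C (c k) * Polynomial.X ^ (d i₀ - d k).toNat := ⟨_, rfl⟩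
    obtain ⟨T, hT⟩ : ∃ T : Matrix (Fin n) (Fin n) (Polynomial K),
        T = (1 : Matrix (Fin n) (Fin n) (Polynomial K)).updateCol i₀ t := ⟨_, rfl⟩
    have hTdet : T.det = Polynomial.C (c i₀) := by
      rw [hT, ← Matrix.cramer_apply, Matrix.cramer_one]
      show t i₀ = _
      rw [ht]
      simp
    have hΦT : Φ T = (1 : Matrix (Fin n) (Fin n) E₁).updateCol i₀
        (fun k => Polynomial.aeval f (t k)) := by
      ext i j
      rw [hΦa, hT, Matrix.updateCol_apply, Matrix.updateCol_apply]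
      split_ifs with h
      · rfl
      · rw [Matrix.one_apply, Matrix.one_apply]
        split_ifs
        · rw [map_one]
        · rw [map_zero]
    have htk : ∀ k, Polynomial.aeval f (t k) =
        f ^ (d i₀) * (algebraMap K E₁ (c k) * f ^ (-(d k))) := by
      intro k
      rw [ht]
      show Polynomial.aeval f (Polynomial.C (c k) * Polynomial.X ^ (d i₀ - d k).toNat) = _
      rw [map_mul, Polynomial.aeval_C, map_pow, Polynomial.aeval_X]
      by_cases hck : c k = 0
      · rw [hck, map_zero, zero_mul, zero_mul, mul_zero]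
      · have h2 : ((d i₀ - d k).toNat : ℤ) = d i₀ - d k :=
          Int.toNat_of_nonneg (by have := hmax k hck; omega)
        have h3 : f ^ (d i₀ - d k).toNat = f ^ (d i₀ - d k) := by
          rw [← zpow_natCast, h2]
        rw [h3, sub_eq_add_neg, zpow_add₀ hf0]
        ring
    have hcol : ∀ i, ((B * Φ P).mulVec fun k => Polynomial.aeval f (t k)) i =
        f ^ (d i₀) * ∑ k, q P d i k * algebraMap K E₁ (c k) := by
      intro i
      rw [mvx, Finset.mul_sum]
      refine Finset.sum_congr rfl fun k _ => ?_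
      rw [htk, hqa]
      ring
    have hval : ∀ i, 1 ≤ v (∑ k, q P d i k * algebraMap K E₁ (c k)) := by
      intro i
      have h2 : ∑ k, q P d i k * algebraMap K E₁ (c k) =
          ∑ k, (q P d i k - algebraMap K E₁ (U i k)) * algebraMap K E₁ (c k) := by
        have h3 : ∑ k, algebraMap K E₁ (U i k) * algebraMap K E₁ (c k) = 0 := by
          have h4 : ∑ k, U i k * c k = 0 := congrFun hc i
          have h5 := congrArg (algebraMap K E₁) h4
          rw [map_sum, map_zero] at h5
          rw [← h5]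
          refine Finset.sum_congr rfl fun k _ => ?_
          rw [map_mul]
        rw [← sub_zero (∑ k, q P d i k * algebraMap K E₁ (c k)), ← h3, ← Finset.sum_sub_distrib]
        refine Finset.sum_congr rfl fun k _ => ?_
        ring
      rw [h2]
      apply AddValuation.map_le_sum
      intro k _
      rw [AddValuation.map_mul]
      calc (1 : WithTop ℤ) = 1 + 0 := by rw [add_zero]
        _ ≤ _ := add_le_add (hU i k) (v_const_nonneg hv (c k))
    -- the new pair
    have hnew : S (∑ j, d j - 1) := by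
      rw [hS]
      refine ⟨P * T, Function.update d i₀ (d i₀ - 1), ?_, ?_, ?_⟩
      · rw [Matrix.det_mul, hTdet]
        exact hP.mul (Polynomial.isUnit_C.2 hi₀.isUnit)
      · intro i j
        rw [hqa, map_mul Φ, ← Matrix.mul_assoc, hΦT, mul_col]
        by_cases hj : j = i₀
        · rw [if_pos hj, hj, Function.update_self, hcol]
          have h2 : f ^ (d i₀) * (∑ k, q P d i k * algebraMap K E₁ (c k)) * f ^ (-(d i₀ - 1)) =
              f * ∑ k, q P d i k * algebraMap K E₁ (c k) := by
            have h3 : f ^ (d i₀) * f ^ (-(d i₀ - 1)) = f := by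
              rw [← zpow_add₀ hf0]
              have : d i₀ + -(d i₀ - 1) = 1 := by ring
              rw [this, zpow_one]
            calc _ = (f ^ (d i₀) * f ^ (-(d i₀ - 1))) *
                  ∑ k, q P d i k * algebraMap K E₁ (c k) := by ring
              _ = _ := by rw [h3]
          rw [h2, AddValuation.map_mul]
          have h4 : v f = ((-1 : ℤ) : WithTop ℤ) := by
            have := v_zpow hv (1 : ℤ)
            rwa [zpow_one] at this
          rw [h4]
          calc (0 : WithTop ℤ) = ((-1 : ℤ) : WithTop ℤ) + 1 := by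
                norm_cast
            _ ≤ _ := add_le_add (le_refl _) (hval i)
        · rw [if_neg hj, Function.update_of_ne hj, ← hqa]
          exact hi i j
      · rw [Finset.sum_update_of_mem (Finset.mem_univ i₀)]
        have h2 := Finset.sum_erase_add Finset.univ d (Finset.mem_univ i₀)
        rw [← Finset.erase_eq]
        linarith
    have h5 := hmin _ hnew
    omega
  -- the basis
  obtain ⟨P', hP1, hP2⟩ : ∃ P' : Matrix (Fin n) (Fin n) (Polynomial K), P * P' = 1 ∧ P' * P = 1 :=
    ⟨P⁻¹, Matrix.mul_nonsing_inv P hP, Matrix.nonsing_inv_mul P hP⟩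
  have hG1 : Φ P * Φ P' = 1 := by rw [← map_mul, hP1, map_one]
  have hG2 : Φ P' * Φ P = 1 := by rw [← map_mul, hP2, map_one]
  obtain ⟨e, he⟩ : ∃ e : Module.Basis (Fin n) E₁ V,
      e = Module.Basis.ofEquivFun (b.equivFun ≪≫ₗ Matrix.toLin'OfInv hG1 hG2) := ⟨_, rfl⟩
  have her : ∀ g, (e.repr g : Fin n → E₁) = (Φ P').mulVec (b.repr g) := by
    intro g
    funext i
    rw [he, Module.Basis.ofEquivFun_repr_apply]
    rfl
  have hbr : ∀ g, (b.repr g : Fin n → E₁) = (Φ P).mulVec (e.repr g) := by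
    intro g
    rw [her, Matrix.mulVec_mulVec, hG1, Matrix.one_mulVec]
  have hpoly : ∀ (R : Matrix (Fin n) (Fin n) (Polynomial K)) (x : Fin n → E₁),
      (∀ i, ∃ p : Polynomial K, x i = Polynomial.aeval f p) →
      ∀ i, ∃ p : Polynomial K, (Φ R).mulVec x i = Polynomial.aeval f p := by
    intro R x hx i
    choose p hp using hx
    refine ⟨∑ j, R i j * p j, ?_⟩
    rw [mvx, map_sum]
    refine Finset.sum_congr rfl fun j _ => ?_
    rw [map_mul, hΦa, hp]
  refine ⟨e, fun i => -(d i), ?_, ?_⟩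
  · intro g
    constructor
    · intro h i
      have h1 := hpoly P' (b.repr g) h i
      rw [← her] at h1
      exact h1
    · intro h i
      have h1 := hpoly P (e.repr g) h i
      rw [← hbr] at h1
      exact h1
  · intro g
    obtain ⟨z, hz⟩ : ∃ z : Fin n → E₁, z = fun k => f ^ (d k) * e.repr g k := ⟨_, rfl⟩
    have hzv : ∀ k, 0 ≤ v (z k) ↔ ((-(-(d k)) : ℤ) : WithTop ℤ) ≤ v (e.repr g k) := by
      intro k
      rw [hz]
      show 0 ≤ v (f ^ (d k) * e.repr g k) ↔ _
      rw [AddValuation.map_mul, v_zpow hv, shift, neg_neg]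
    have hb'r : (b'.repr g : Fin n → E₁) = (q P d).mulVec z := by
      have h1 : (b'.repr g : Fin n → E₁) = B.mulVec (b.repr g) := by
        rw [hB]
        exact (Module.Basis.toMatrix_mulVec_repr b b' g).symm
      rw [h1, hbr, Matrix.mulVec_mulVec]
      funext i
      rw [mvx, mvx]
      refine Finset.sum_congr rfl fun k _ => ?_
      rw [hqa, hz]
      show (B * Φ P) i k * e.repr g k = (B * Φ P) i k * f ^ (-(d k)) * (f ^ (d k) * e.repr g k)
      have h2 : f ^ (-(d k)) * f ^ (d k) = 1 := by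
        rw [← zpow_add₀ hf0, neg_add_cancel, zpow_zero]
      calc (B * Φ P) i k * e.repr g k = (B * Φ P) i k * (f ^ (-(d k)) * f ^ (d k)) * e.repr g k := by
            rw [h2, mul_one]
        _ = _ := by ring
    constructor
    · intro h k
      rw [← hzv k]
      have h1 : (q P d).adjugate.mulVec (b'.repr g) = (q P d).det • z := by
        rw [hb'r, Matrix.mulVec_mulVec, Matrix.adjugate_mul, Matrix.smul_mulVec, Matrix.one_mulVec]
      have h2 := mulVec_nonneg (q P d).adjugate (adj_nonneg (q P d) hi) (b'.repr g) h k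
      rw [h1] at h2
      have h3 : v (((q P d).det • z) k) = v (z k) := by
        show v ((q P d).det * z k) = v (z k)
        rw [AddValuation.map_mul, hunit, zero_add]
      rwa [h3] at h2
    · intro h i
      rw [hb'r]
      exact mulVec_nonneg (q P d) hi z (fun k => (hzv k).2 (h k)) i

end Pool.Agent.Work.MP_a2680c_ag.HA

end
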