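import Pool.Agent.Work.MP_a2680c_ag.HA.StmtsZ

/-!
# MP_a2680c_ag, block HA, item Zbo: vector fields and constant field extensions
-/

set_option autoImplicit false

noncomputable section

namespace Pool.Agent.Work.MP_a2680c_ag.HA

open MP7b66e6 MP7b66e6.Q
open scoped BigOperators

universe u

namespace XZbo

/-- a derivation of `F₁` over `K` is zero on elements algebraic over `K` -/
theorem der_alg {K F₁ : Type u} [Field K] [CharZero K] [Field F₁] [Algebra K F₁] (D : Derivation K F₁ F₁) (x : F₁)
    (hx : IsAlgebraic K x) : D x = 0 := by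
  have hint : IsIntegral K x := hx.isIntegral
  have h1 := D.map_aeval (minpoly K x) x
  rw [minpoly.aeval, map_zero] at h1
  have h2 : Polynomial.aeval x (Polynomial.derivative (minpoly K x)) ≠ 0 := by
    have hs : (minpoly K x).Separable := (minpoly.irreducible hint).separable
    exact hs.aeval_derivative_ne_zero (minpoly.aeval K x)
  rcases smul_eq_zero.mp h1.symm with h3 | h3
  · exact absurd h3 h2
  · exact h3

section
variable {K E K₁ F₁ : Type u} [Field K] [Field E] [Field K₁] [Field F₁] [Algebra K E] [Algebra K K₁]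
  [Algebra K F₁] [Algebra E F₁] [Algebra K₁ F₁] [IsScalarTower K E F₁] [IsScalarTower K K₁ F₁] [CharZero K]
  [FiniteDimensional K K₁]

/-- the same derivation over `K₁` -/
def up1 (D : Derivation K F₁ F₁) : Derivation K₁ F₁ F₁ :=
  Derivation.mk'
    { toFun := fun f => D f
      map_add' := fun f g => map_add D f g
      map_smul' := fun c f => by
        have h0 : D (algebraMap K₁ F₁ c) = 0 := by
          apply der_alg
          have hc : IsAlgebraic K c := Algebra.IsAlgebraic.isAlgebraic c
          exact hc.algebraMap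
        rw [RingHom.id_apply, Algebra.smul_def, Algebra.smul_def, Derivation.leibniz, h0, smul_zero, add_zero,
          smul_eq_mul] }
    (fun a b => D.leibniz a b)

omit [Field E] [Algebra K E] [Algebra E F₁] [IsScalarTower K E F₁] in
theorem up1_apply (D : Derivation K F₁ F₁) (f : F₁) : up1 (K₁ := K₁) D f = D f := rfl

/-- conjugation of a derivation by an automorphism, minus the derivation -/
def cj (D : Derivation K F₁ F₁) (σ : F₁ ≃ₐ[E] F₁) : Derivation K F₁ F₁ :=
  Derivation.mk'
    { toFun := fun f => σ.symm (D (σ f)) - D f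
      map_add' := fun f g => by simp only [map_add]; ring
      map_smul' := fun c f => by
        have h1 : ∀ g : F₁, σ (c • g) = c • σ g := fun g => by
          rw [Algebra.smul_def, Algebra.smul_def, map_mul, IsScalarTower.algebraMap_apply K E F₁, AlgEquiv.commutes]
        have h2 : ∀ g : F₁, σ.symm (c • g) = c • σ.symm g := fun g => by
          rw [Algebra.smul_def, Algebra.smul_def, map_mul, IsScalarTower.algebraMap_apply K E F₁, AlgEquiv.commutes]
        simp only [h1, h2, Derivation.map_smul, RingHom.id_apply, smul_sub] }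
    (fun a b => by
      simp only [LinearMap.coe_mk, AddHom.coe_mk, map_mul, Derivation.leibniz, map_add, smul_eq_mul,
        AlgEquiv.symm_apply_apply]
      ring)

omit [Field K₁] [Algebra K K₁] [Algebra K₁ F₁] [IsScalarTower K K₁ F₁] [CharZero K] [FiniteDimensional K K₁] in
theorem cj_apply (D : Derivation K F₁ F₁) (σ : F₁ ≃ₐ[E] F₁) (f : F₁) : cj D σ f = σ.symm (D (σ f)) - D f := rfl

end

end XZbo

open XZbo in
theorem pr_Zbo (hDEX : StDEX.{u,u,u}) (hUnr : StUnr.{u}) (hZor : StZor.{u}) (hZod : StZod.{u}) : StZbo.{u} := by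
  intro K E K₁ F₁ _ _ _ _ _ _ _ _ _ _ _ _ _ _ _ _ hgen hE hF θ
  obtain ⟨hex, huq⟩ := hDEX K E F₁
  obtain ⟨D, hD⟩ := hex θ
  refine ⟨up1 D, fun f => ?_, fun σ f => ?_, ?_⟩
  · rw [up1_apply]; exact hD f
  · have h1 : cj D σ = 0 := by
      apply huq
      intro g
      rw [cj_apply, AlgEquiv.commutes, hD g, AlgEquiv.commutes, sub_self]
    have h2 : σ.symm (D (σ f)) - D f = 0 := by
      rw [← cj_apply, h1]; rfl
    rw [up1_apply, up1_apply]
    have h3 : σ.symm (D (σ f)) = D f := sub_eq_zero.mp h2
    rw [← h3, AlgEquiv.apply_symm_apply]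
  · intro W w m c hW hw hL hO
    have : CharZero K₁ := charZero_of_injective_algebraMap (algebraMap K K₁).injective
    obtain ⟨π, hπ⟩ := hUnr K E K₁ F₁ hgen W hW
    have hπ0 : π ≠ 0 := by
      rintro rfl
      rw [map_zero, AddValuation.map_zero] at hπ
      exact absurd hπ (by decide)
    have hmv : m = 1 ∧ val w π = 1 := by
      have h1 := hL.2 π hπ0
      have h2 : val W (algebraMap E F₁ π) = 1 := Api.val_of W hπ
      rw [h2] at h1
      have h3 : (m : ℤ) ∣ 1 := ⟨_, h1⟩
      have h4 : (m : ℤ) = 1 := Int.eq_one_of_dvd_one (by positivity) h3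
      rw [h4, one_mul] at h1
      exact ⟨by exact_mod_cast h4, h1.symm⟩
    obtain ⟨hm, hvπ⟩ := hmv
    subst hm
    have hval : ∀ g : E, g ≠ 0 → W (algebraMap E F₁ g) = w g := by
      intro g hg
      have h1 := hL.2 g hg
      have hg' : algebraMap E F₁ g ≠ 0 := by
        intro h
        exact hg ((algebraMap E F₁).injective (by rw [h, map_zero]))
      rw [Api.coe_val W hg', Api.coe_val w hg, h1]
      simp
    have hwπ : w π = ((1 : ℤ) : WithTop ℤ) := by
      rw [Api.coe_val w hπ0, hvπ]
    have hWπ : W (algebraMap E F₁ π) = ((1 : ℤ) : WithTop ℤ) := by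
      rw [hval π hπ0, hwπ]
    have hne : up1 (K₁ := K₁) D ≠ 0 := by
      intro h
      obtain ⟨f, -, hf⟩ := hO.2
      have h1 : up1 (K₁ := K₁) D (algebraMap E F₁ f) = 0 := by rw [h]; rfl
      rw [up1_apply, hD f] at h1
      have h2 : θ f = 0 := (algebraMap E F₁).injective (by rw [h1, map_zero])
      rw [h2, AddValuation.map_zero] at hf
      exact absurd hf (by simp)
    obtain ⟨c', hc'⟩ := hZod K₁ F₁ hF (up1 D) hne W hW
    have h1 := hZor K₁ F₁ hF W (up1 D) c' hW hc' (algebraMap E F₁ π) 1 one_ne_zero hWπ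
    have h2 := hZor K E hE w θ c hw hO π 1 one_ne_zero hwπ
    have h3 : θ π ≠ 0 := by
      intro h
      rw [h, AddValuation.map_zero] at h2
      exact absurd h2 (by simp)
    rw [up1_apply, hD π, hval _ h3, h2] at h1
    have h4 : c + 1 - 1 = c' + 1 - 1 := by exact_mod_cast h1
    have h5 : c = c' := by linarith
    rw [h5]
    exact ⟨rfl, hc'⟩

end Pool.Agent.Work.MP_a2680c_ag.HA
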