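import Pool.Agent.Work.MP_a2680c_ag.HA.StmtsZ

/-!
# MP_a2680c_ag, block HA, item Zce (helper73): constant field extensions
-/

set_option autoImplicit false

noncomputable section

namespace Pool.Agent.Work.MP_a2680c_ag.HA

open MP7b66e6 MP7b66e6.Q

universe u

namespace XZce

open Polynomial

/-- minimal polynomials over `K` do not change over `E` if `K` is algebraically closed in `E` -/
theorem minpoly_map (K E Ω : Type u) [Field K] [Field E] [Field Ω] [Algebra K E] [Algebra K Ω]
    [Algebra E Ω] [IsScalarTower K E Ω] (hC : Ccl K E) (α : Ω) (hα : IsIntegral K α) :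
    (minpoly E α).natDegree = (minpoly K α).natDegree := by
  have hαE : IsIntegral E α := hα.tower_top
  have hdvd : minpoly E α ∣ (minpoly K α).map (algebraMap K E) :=
    minpoly.dvd_map_of_isScalarTower K E α
  have hlift := integralClosure.mem_lifts_of_monic_of_dvd_map E (minpoly.monic hα)
    (minpoly.monic hαE) hdvd
  obtain ⟨g, hg⟩ := (Polynomial.mem_lifts _).1 hlift
  have hcoef : ∀ n, (minpoly E α).coeff n ∈ Set.range (algebraMap K E) := by
    intro n
    have h1 : IsIntegral K ((minpoly E α).coeff n) := by
      rw [← hg, coeff_map]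
      exact (g.coeff n).2
    obtain ⟨c, hc⟩ := hC _ h1.isAlgebraic
    exact ⟨c, hc⟩
  have hl : minpoly E α ∈ lifts (algebraMap K E) := (lifts_iff_coeff_lifts _).2 hcoef
  obtain ⟨q, hq1, hq2, hq3⟩ := lifts_and_natDegree_eq_and_monic hl (minpoly.monic hαE)
  have hroot : aeval α q = 0 := by
    have h2 : aeval α (q.map (algebraMap K E)) = 0 := by
      rw [hq1]
      exact minpoly.aeval E α
    rwa [aeval_map_algebraMap] at h2
  apply le_antisymm
  · refine (natDegree_le_of_dvd hdvd ((minpoly.monic hα).map _).ne_zero).trans ?_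
    exact (minpoly.monic hα).natDegree_map _ |>.le
  · rw [← hq2]
    exact natDegree_le_of_dvd (minpoly.dvd K α hroot) hq3.ne_zero

/-- the degree of a finite extension of `K` does not change -/
theorem finrank_eq (K E Ω : Type u) [Field K] [CharZero K] [Field E] [Field Ω] [Algebra K E]
    [Algebra K Ω] [Algebra E Ω] [IsScalarTower K E Ω] (hC : Ccl K E) (K₂ : IntermediateField K Ω)
    [FiniteDimensional K K₂] (F₂ : IntermediateField E Ω)
    (hF : IntermediateField.adjoin E (K₂ : Set Ω) = F₂) :
    Module.finrank E F₂ = Module.finrank K K₂ := by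
  obtain ⟨α, hα⟩ := Field.exists_primitive_element K K₂
  have hint : IsIntegral K α := Algebra.IsIntegral.isIntegral α
  have hint' : IsIntegral K (α : Ω) := hint.map K₂.val
  have hK : IntermediateField.adjoin K {(α : Ω)} = K₂ := by
    have h1 := congrArg (IntermediateField.map K₂.val) hα
    rw [IntermediateField.adjoin_map, Set.image_singleton, ← AlgHom.fieldRange_eq_map,
      IntermediateField.fieldRange_val] at h1
    exact h1
  have hE : IntermediateField.adjoin E {(α : Ω)} = F₂ := by
    rw [← hF]
    apply le_antisymm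
    · refine IntermediateField.adjoin.mono E _ _ ?_
      rw [Set.singleton_subset_iff]
      exact α.2
    · rw [IntermediateField.adjoin_le_iff]
      have h2 : K₂ ≤ (IntermediateField.adjoin E {(α : Ω)}).restrictScalars K := by
        refine hK.ge.trans ?_
        rw [IntermediateField.adjoin_le_iff]
        exact IntermediateField.subset_adjoin E _
      exact h2
  rw [← hK, ← hE, IntermediateField.adjoin.finrank hint',
    IntermediateField.adjoin.finrank hint'.tower_top]
  exact minpoly_map K E Ω hC α hint'

end XZce

open XZce Polynomial in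
theorem pr_Zce : StZce.{u} := by
  intro K E _ _ _ _ hFF hC p hp
  obtain ⟨hess, x, hx⟩ := hFF
  let Ω := AlgebraicClosure E
  have : CharZero E := charZero_of_injective_algebraMap (algebraMap K E).injective
  let K₁ : IntermediateField K Ω := IntermediateField.adjoin K (p.rootSet Ω)
  let F₁ : IntermediateField E Ω := IntermediateField.adjoin E (p.rootSet Ω)
  have hsp : (p.map (algebraMap K Ω)).Splits := IsAlgClosed.splits _
  have hrootE : ((p.map (algebraMap K E)).rootSet Ω) = p.rootSet Ω := by
    rw [rootSet, rootSet, aroots_map]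
  have hspE : ((p.map (algebraMap K E)).map (algebraMap E Ω)).Splits := IsAlgClosed.splits _
  have hs1 : p.IsSplittingField K K₁ := IntermediateField.adjoin_rootSet_isSplittingField hsp
  have hs2 : (p.map (algebraMap K E)).IsSplittingField E F₁ := by
    have h := IntermediateField.adjoin_rootSet_isSplittingField hspE
    rw [hrootE] at h
    exact h
  have hf1 : FiniteDimensional K K₁ := IsSplittingField.finiteDimensional K₁ p
  have hf2 : FiniteDimensional E F₁ := IsSplittingField.finiteDimensional F₁ (p.map (algebraMap K E))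
  have hn1 : Normal K K₁ := Normal.of_isSplittingField p
  have hn2 : Normal E F₁ := Normal.of_isSplittingField (p.map (algebraMap K E))
  have hg1 : IsGalois K K₁ := ⟨⟩
  have hg2 : IsGalois E F₁ := ⟨⟩
  have hle : K₁ ≤ F₁.restrictScalars K := by
    rw [IntermediateField.adjoin_le_iff]
    exact IntermediateField.subset_adjoin E _
  let ι : K₁ →ₐ[K] F₁ := IntermediateField.inclusion hle
  let _ : Algebra K₁ F₁ := ι.toRingHom.toAlgebra
  have hst : IsScalarTower K K₁ F₁ := IsScalarTower.of_algebraMap_eq fun a => (ι.commutes a).symm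
  have hιv : ∀ a : K₁, ((algebraMap K₁ F₁ a : F₁) : Ω) = (a : Ω) := fun a => rfl
  have hgen : IntermediateField.adjoin E (Set.range (algebraMap K₁ F₁)) = ⊤ := by
    apply IntermediateField.map_injective F₁.val
    rw [IntermediateField.adjoin_map, ← AlgHom.fieldRange_eq_map, IntermediateField.fieldRange_val]
    apply le_antisymm
    · rw [IntermediateField.adjoin_le_iff]
      rintro _ ⟨y, -, rfl⟩
      exact y.2
    · rw [IntermediateField.adjoin_le_iff]
      intro r hr
      apply IntermediateField.subset_adjoin
      exact ⟨algebraMap K₁ F₁ ⟨r, IntermediateField.subset_adjoin K _ hr⟩, ⟨_, rfl⟩, rfl⟩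
  refine ⟨K₁, F₁, inferInstance, inferInstance, inferInstance, inferInstance, inferInstance,
    inferInstance, inferInstance, hst, hf1, hg1, hf2, hg2, hgen, ⟨?_, ?_⟩, ?_, hs1.splits⟩
  · have : Algebra.EssFiniteType K F₁ := Algebra.EssFiniteType.comp K E F₁
    exact Algebra.EssFiniteType.of_comp K K₁ F₁
  · refine ⟨algebraMap E F₁ ∘ x, ?_⟩
    exact (Algebra.IsAlgebraic.isTranscendenceBasis_iff K K₁).1 (hx.algebraMap_comp (A := F₁))
  · intro β hβ
    have hβK : IsAlgebraic K β := hβ.restrictScalars K
    have hβΩ : IsIntegral K (β : Ω) := by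
      have h1 : IsIntegral K β := hβK.isIntegral
      exact h1.map (F₁.val.restrictScalars K)
    let K₂ : IntermediateField K Ω := K₁ ⊔ IntermediateField.adjoin K {(β : Ω)}
    have hfβ : FiniteDimensional K (IntermediateField.adjoin K {(β : Ω)}) :=
      IntermediateField.adjoin.finiteDimensional hβΩ
    have hfin : FiniteDimensional K K₂ := IntermediateField.finiteDimensional_sup _ _
    have hA : ∀ K' : IntermediateField K Ω, K₁ ≤ K' → K' ≤ F₁.restrictScalars K →
        IntermediateField.adjoin E (K' : Set Ω) = F₁ := by
      intro K' h1 h2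
      apply le_antisymm
      · rw [IntermediateField.adjoin_le_iff]
        exact h2
      · rw [IntermediateField.adjoin_le_iff]
        intro r hr
        exact IntermediateField.subset_adjoin E _ (h1 (IntermediateField.subset_adjoin K _ hr))
    have hle2 : K₂ ≤ F₁.restrictScalars K := by
      refine sup_le hle ?_
      rw [IntermediateField.adjoin_le_iff, Set.singleton_subset_iff]
      exact β.2
    have e1 := finrank_eq K E Ω hC K₁ F₁ (hA K₁ le_rfl hle)
    have e2 := finrank_eq K E Ω hC K₂ F₁ (hA K₂ le_sup_left hle2)
    have h3 : K₁ = K₂ := IntermediateField.eq_of_le_of_finrank_eq le_sup_left (by rw [← e1, ← e2])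
    have h4 : (β : Ω) ∈ K₁ := by
      rw [h3]
      exact (le_sup_right : _ ≤ K₂) (IntermediateField.mem_adjoin_simple_self K _)
    exact ⟨⟨β, h4⟩, Subtype.ext rfl⟩

end Pool.Agent.Work.MP_a2680c_ag.HA
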