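import Pool.Agent.Work.MP_a2680c_ag.HA.StmtsZ

/-!
# MP_a2680c_ag, block HA, item Zcn: canonical divisors
-/

set_option autoImplicit false

noncomputable section

namespace Pool.Agent.Work.MP_a2680c_ag.HA

open MP7b66e6 MP7b66e6.Q
open scoped BigOperators

universe u

namespace XZcn

/-- multiplication by a function of value `-c` lowers the order by `c` -/
theorem shift {E : Type u} [Field E] (w : AddValuation E (WithTop ℤ)) {s g : E} (c d : ℤ) (hs : s ≠ 0)
    (hsc : val w s = -c) (h : ((c + d : ℤ) : WithTop ℤ) ≤ w g) : ((d : ℤ) : WithTop ℤ) ≤ w (s * g) := by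
  by_cases hg : g = 0
  · rw [hg, mul_zero, AddValuation.map_zero]
    exact le_top
  · rw [Api.coe_val w hg, WithTop.coe_le_coe] at h
    rw [Api.coe_val w (mul_ne_zero hs hg), WithTop.coe_le_coe, Api.val_mul w hs hg, hsc]
    omega

end XZcn

theorem pr_Zcn (hGcn : StGcn.{u}) (hZdk : StZdk.{u}) : StZcn.{u} := by
  intro k K E _ _ _ _ _ _ _ _ _ hF e r x θ w c hr hx hP hO
  have hdiv := hZdk k K E hF w hP
  have : Algebra.EssFiniteType K E := hF.1
  have hEE : Algebra.EssFiniteType k E := Algebra.EssFiniteType.comp k K E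
  obtain ⟨π, hπ⟩ := hP.1
  have hπ0 : π ≠ 0 := by
    rintro rfl
    rw [AddValuation.map_zero] at hπ
    exact WithTop.coe_ne_top hπ.symm
  have hv : val w π = 1 := Api.val_of w hπ
  have hs0 : π ^ (-c) ≠ 0 := zpow_ne_zero _ hπ0
  have hs : val w (π ^ (-c)) = -c := by
    rw [Api.val_zpow w hπ0, hv, mul_one]
  have h1 : ∀ f : E, 0 ≤ w f → 0 ≤ w ((π ^ (-c) • θ) f) := by
    intro f hf
    have h2 := XZcn.shift w c 0 hs0 hs (g := θ f) (by rw [add_zero]; exact hO.1 f hf)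
    exact h2
  have h2 : ∃ f : E, 0 ≤ w f ∧ w ((π ^ (-c) • θ) f) = 0 := by
    obtain ⟨f, hf, hfc⟩ := hO.2
    refine ⟨f, hf, ?_⟩
    have hne : θ f ≠ 0 := by
      intro h0
      rw [h0, AddValuation.map_zero] at hfc
      exact WithTop.coe_ne_top hfc.symm
    change w (π ^ (-c) * θ f) = 0
    rw [Api.coe_val w (mul_ne_zero hs0 hne), Api.val_mul w hs0 hne, hs, Api.val_of w hfc, neg_add_cancel]
    rfl
  obtain ⟨h3, h4⟩ := hGcn k K E e r x (π ^ (-c) • θ) w hr hx hP hdiv h1 h2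
  have h5 : (π ^ (-c) • θ) (x 0) = π ^ (-c) * θ (x 0) := rfl
  rw [h5] at h3 h4
  have h6 : θ (x 0) ≠ 0 := right_ne_zero_of_mul h3
  refine ⟨h6, ?_⟩
  rw [h4, Api.val_mul w hs0 h6, hs]
  push_cast
  ring

end Pool.Agent.Work.MP_a2680c_ag.HA
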