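import Pool.Agent.Work.MP_a2680c_ag.HA.StmtsZ

/-!
# MP_a2680c_ag, block HA, item Zdg: the degree of a function
-/

set_option autoImplicit false

noncomputable section

namespace Pool.Agent.Work.MP_a2680c_ag.HA

open MP7b66e6 MP7b66e6.Q
open scoped BigOperators

universe u

namespace XZdg

section
variable {K E : Type u} [Field K] [Field E] [Algebra K E]

/-- integers below a value -/
theorem exists_le (w : AddValuation E (WithTop ℤ)) (g : E) :
    ∃ M : ℕ, ((-(M : ℤ) : ℤ) : WithTop ℤ) ≤ w g := by
  by_cases h : w g = ⊤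
  · exact ⟨0, by rw [h]; exact le_top⟩
  · obtain ⟨a, ha⟩ := WithTop.ne_top_iff_exists.1 h
    refine ⟨a.natAbs, ?_⟩
    rw [← ha, WithTop.coe_le_coe]
    omega

/-- a valuation ring is integrally closed -/
theorem int_nonneg (w : AddValuation E (WithTop ℤ)) (A : Subalgebra K E) (hA : ∀ a ∈ A, 0 ≤ w a)
    (x : E) (hx : IsIntegral A x) : 0 ≤ w x := by
  by_contra hneg
  push Not at hneg
  have hne : w x ≠ ⊤ := fun h => by
    rw [h] at hneg
    exact absurd hneg (not_lt.2 le_top)
  obtain ⟨a, ha⟩ := WithTop.ne_top_iff_exists.1 hne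
  rw [← ha] at hneg
  have ha0 : a < 0 := by exact_mod_cast hneg
  obtain ⟨p, hp, he⟩ := hx
  rw [Polynomial.eval₂_eq_sum_range, Finset.sum_range_succ, hp.coeff_natDegree, map_one,
    one_mul] at he
  have h1 : x ^ p.natDegree =
      -∑ i ∈ Finset.range p.natDegree, algebraMap A E (p.coeff i) * x ^ i :=
    (neg_eq_of_add_eq_zero_right he).symm
  have h2 : (((p.natDegree : ℤ) - 1) * a : ℤ) ≤ w (x ^ p.natDegree) := by
    rw [h1, AddValuation.map_neg]
    apply AddValuation.map_le_sum
    intro i hi
    rw [Finset.mem_range] at hi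
    rw [AddValuation.map_mul, AddValuation.map_pow, ← ha]
    have h3 : (0 : WithTop ℤ) ≤ w (algebraMap A E (p.coeff i)) := hA _ (p.coeff i).2
    have h4 : ((((p.natDegree : ℤ) - 1) * a : ℤ) : WithTop ℤ) ≤ i • (a : WithTop ℤ) := by
      rw [← WithTop.coe_nsmul, WithTop.coe_le_coe, nsmul_eq_mul]
      have h5 : (i : ℤ) ≤ (p.natDegree : ℤ) - 1 := by
        have : ((i : ℕ) : ℤ) < (p.natDegree : ℤ) := by exact_mod_cast hi
        omega
      exact mul_le_mul_of_nonpos_right h5 ha0.le
    calc ((((p.natDegree : ℤ) - 1) * a : ℤ) : WithTop ℤ) ≤ i • (a : WithTop ℤ) := h4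
      _ = 0 + i • (a : WithTop ℤ) := (zero_add _).symm
      _ ≤ _ := add_le_add h3 le_rfl
  rw [AddValuation.map_pow, ← ha, ← WithTop.coe_nsmul, WithTop.coe_le_coe, nsmul_eq_mul] at h2
  nlinarith

theorem fr_le (g : E) : Module.finrank K (Submodule.span K {g}) ≤ 1 := by
  have h := finrank_span_finset_le_card (R := K) ({g} : Finset E)
  rw [Finset.coe_singleton, Finset.card_singleton] at h
  exact h

/-- functions with poles bounded by `D` -/
def Lsp (K : Type u) {E : Type u} [Field K] [Field E] [Algebra K E]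
    (D : AddValuation E (WithTop ℤ) → ℕ) : Submodule K E where
  carrier := {g | ∀ w : AddValuation E (WithTop ℤ), Plc K w → ((-(D w : ℤ) : ℤ) : WithTop ℤ) ≤ w g}
  add_mem' := fun {a b} ha hb w hw => w.map_le_add (ha w hw) (hb w hw)
  zero_mem' := fun w _ => by
    rw [AddValuation.map_zero]
    exact le_top
  smul_mem' := fun c g hg w hw => by
    rw [Algebra.smul_def, AddValuation.map_mul]
    calc ((-(D w : ℤ) : ℤ) : WithTop ℤ) ≤ w g := hg w hw
      _ = 0 + w g := (zero_add _).symm
      _ ≤ _ := add_le_add (hw.2 c) le_rfl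

theorem mem_Lsp {D : AddValuation E (WithTop ℤ) → ℕ} {g : E} : g ∈ Lsp K D ↔
    ∀ w : AddValuation E (WithTop ℤ), Plc K w → ((-(D w : ℤ) : ℤ) : WithTop ℤ) ≤ w g := Iff.rfl

open Classical in
/-- one more pole raises the dimension by at most one -/
theorem step (D D' : AddValuation E (WithTop ℤ) → ℕ) (Q : AddValuation E (WithTop ℤ))
    (hQ : Plc K Q) (hr : Rtl K Q) (h1 : D' Q = D Q + 1) (h2 : ∀ w, w ≠ Q → D' w = D w) :
    ∃ g₀ : E, Lsp K D' ≤ Lsp K D ⊔ Submodule.span K {g₀} := by
  by_cases hsub : Lsp K D' ≤ Lsp K D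
  · exact ⟨0, hsub.trans le_sup_left⟩
  obtain ⟨g₀, hg₀, hg₀'⟩ := Set.not_subset.1 hsub
  have hval : ∀ g, g ∈ Lsp K D' → g ∉ Lsp K D → Q g = ((-(D Q : ℤ) - 1 : ℤ) : WithTop ℤ) := by
    intro g hg hg'
    have hlow := hg Q hQ
    have hup : Q g < ((-(D Q : ℤ) : ℤ) : WithTop ℤ) := by
      by_contra hcon
      push Not at hcon
      apply hg'
      intro w hw
      by_cases hwQ : w = Q
      · rw [hwQ]
        exact hcon
      · have := hg w hw
        rwa [h2 w hwQ] at this
    rw [h1] at hlow
    have hne : Q g ≠ ⊤ := fun h => by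
      rw [h] at hup
      exact absurd hup (not_lt.2 le_top)
    obtain ⟨a, ha⟩ := WithTop.ne_top_iff_exists.1 hne
    rw [← ha] at hlow hup ⊢
    rw [WithTop.coe_le_coe] at hlow
    rw [WithTop.coe_lt_coe] at hup
    push_cast at hlow
    congr 1
    omega
  have hg0 := hval g₀ hg₀ hg₀'
  have hg₀n : g₀ ≠ 0 := by
    rintro rfl
    rw [AddValuation.map_zero] at hg0
    exact WithTop.top_ne_coe hg0
  refine ⟨g₀, ?_⟩
  intro g hg
  by_cases hgD : g ∈ Lsp K D
  · exact Submodule.mem_sup_left hgD
  have hgv := hval g hg hgD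
  have hq : 0 ≤ Q (g / g₀) := by
    have h3 : Q (g / g₀) + Q g₀ = Q g := by
      rw [← AddValuation.map_mul, div_mul_cancel₀ _ hg₀n]
    rw [hg0, hgv] at h3
    have hne : Q (g / g₀) ≠ ⊤ := fun h => by
      rw [h, top_add] at h3
      exact WithTop.top_ne_coe h3
    obtain ⟨a, ha⟩ := WithTop.ne_top_iff_exists.1 hne
    rw [← ha, ← WithTop.coe_add, WithTop.coe_inj] at h3
    rw [← ha]
    have : a = 0 := by omega
    rw [this]
    exact le_rfl
  obtain ⟨c, hc⟩ := hr _ hq
  have hmem : g - c • g₀ ∈ Lsp K D := by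
    by_contra hcon
    have h3 := hval _ (Submodule.sub_mem _ hg (Submodule.smul_mem _ c hg₀)) hcon
    have h4 : g - c • g₀ = (g / g₀ - algebraMap K E c) * g₀ := by
      rw [Algebra.smul_def, sub_mul, div_mul_cancel₀ _ hg₀n]
    rw [h4, AddValuation.map_mul, hg0] at h3
    have hne : Q (g / g₀ - algebraMap K E c) ≠ ⊤ := fun h => by
      rw [h, top_add] at h3
      exact WithTop.top_ne_coe h3
    obtain ⟨a, ha⟩ := WithTop.ne_top_iff_exists.1 hne
    rw [← ha] at h3 hc
    rw [← WithTop.coe_add, WithTop.coe_inj] at h3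
    have hc' : 0 < a := by exact_mod_cast hc
    omega
  have h5 : g = (g - c • g₀) + c • g₀ := by rw [sub_add_cancel]
  rw [h5]
  exact Submodule.add_mem_sup hmem (Submodule.smul_mem _ c (Submodule.mem_span_singleton_self g₀))

open Classical in
/-- dimension bound -/
theorem dim_le (hbase : ∀ f : E, (∀ w : AddValuation E (WithTop ℤ), Plc K w → 0 ≤ w f) →
    ∃ c : K, algebraMap K E c = f) (s : Multiset (AddValuation E (WithTop ℤ)))
    (hs : ∀ w ∈ s, Plc K w ∧ Rtl K w) :
    FiniteDimensional K (Lsp K (fun w => s.count w)) ∧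
      Module.finrank K (Lsp K (fun w => s.count w)) ≤ 1 + s.card := by
  induction s using Multiset.induction with
  | empty =>
    have hle : Lsp K (fun w => (0 : Multiset (AddValuation E (WithTop ℤ))).count w) ≤
        Submodule.span K {(1 : E)} := by
      intro g hg
      obtain ⟨c, hc⟩ := hbase g (fun w hw => by
        have := hg w hw
        simpa using this)
      rw [Submodule.mem_span_singleton]
      exact ⟨c, by rw [← hc, Algebra.smul_def, mul_one]⟩
    refine ⟨Submodule.finiteDimensional_of_le hle, ?_⟩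
    refine (Submodule.finrank_mono hle).trans ?_
    refine (fr_le _).trans ?_
    simp
  | cons Q s ih =>
    obtain ⟨ih1, ih2⟩ := ih (fun w hw => hs w (Multiset.mem_cons_of_mem hw))
    obtain ⟨hQ, hr⟩ := hs Q (Multiset.mem_cons_self Q s)
    obtain ⟨g₀, hle⟩ := step (K := K) (fun w => s.count w) (fun w => (Q ::ₘ s).count w) Q hQ hr
      (Multiset.count_cons_self Q s) (fun w hw => Multiset.count_cons_of_ne hw s)
    have hfin : FiniteDimensional K ↥(Lsp K (fun w => s.count w) ⊔ Submodule.span K {g₀}) :=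
      inferInstance
    refine ⟨Submodule.finiteDimensional_of_le hle, ?_⟩
    refine (Submodule.finrank_mono hle).trans ?_
    refine (Submodule.finrank_add_le_finrank_add_finrank _ _).trans ?_
    have h1 : Module.finrank K (Submodule.span K {g₀}) ≤ 1 := fr_le _
    rw [Multiset.card_cons]
    omega

/-- clearing denominators -/
theorem clear (z : E) (hz : Transcendental K z) (x : Fin 1 → E) (hx : IsTranscendenceBasis K x)
    (g : E) : ∃ q : IntermediateField.adjoin K {z}, q ≠ 0 ∧
      ∀ w : AddValuation E (WithTop ℤ), Plc K w → 0 ≤ w z → 0 ≤ w (q • g) := by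
  obtain ⟨y, hy⟩ : ∃ y : Fin 1 → E, y = fun _ => z := ⟨_, rfl⟩
  have hyi : AlgebraicIndependent K y := by
    rw [algebraicIndependent_singleton_iff (0 : Fin 1), hy]
    exact hz
  have hyb : IsTranscendenceBasis K y := by
    apply hyi.isTranscendenceBasis_of_lift_trdeg_le_of_finite
    have h := hx.lift_cardinalMk_eq_trdeg
    rw [← h]
  have hr : Set.range y = {z} := by
    rw [hy]
    exact Set.range_const
  have halg : Algebra.IsAlgebraic (Algebra.adjoin K (Set.range y)) E := hyb.isAlgebraic
  rw [hr] at halg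
  obtain ⟨q, hq0, hq⟩ := (halg.isAlgebraic g).exists_integral_multiple
  have hqm : (q : E) ∈ IntermediateField.adjoin K {z} :=
    IntermediateField.algebra_adjoin_le_adjoin K {z} q.2
  refine ⟨⟨q, hqm⟩, ?_, ?_⟩
  · intro h0
    apply hq0
    apply Subtype.ext
    exact congrArg (fun t : IntermediateField.adjoin K {z} => (t : E)) h0
  · intro w hw hwz
    have hA : ∀ a ∈ Algebra.adjoin K {z}, 0 ≤ w a := by
      intro a ha
      induction ha using Algebra.adjoin_induction with
      | mem x hx =>
        rw [Set.mem_singleton_iff] at hx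
        rw [hx]
        exact hwz
      | algebraMap r => exact hw.2 r
      | add x y _ _ h1 h2 => exact w.map_le_add h1 h2
      | mul x y _ _ h1 h2 =>
        rw [AddValuation.map_mul]
        exact add_nonneg h1 h2
    exact int_nonneg w _ hA _ hq

/-- the powers of a transcendental element are independent -/
theorem pow_indep (z : E) (hz : Transcendental K z) (N : ℕ) :
    LinearIndependent K (fun j : Fin N =>
      (⟨z ^ (j : ℕ), pow_mem (IntermediateField.mem_adjoin_simple_self K z) _⟩ :
        IntermediateField.adjoin K {z})) := by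
  have h1 : LinearIndependent K (fun n : ℕ => z ^ n) := by
    have h2 := (Polynomial.basisMonomials K).linearIndependent.map'
      (Polynomial.aeval z).toLinearMap (LinearMap.ker_eq_bot.2
        (transcendental_iff_injective.1 hz))
    have h3 : (⇑(Polynomial.aeval (R := K) z).toLinearMap ∘ ⇑(Polynomial.basisMonomials K)) =
        fun n : ℕ => z ^ n := by
      ext n
      simp [Polynomial.coe_basisMonomials]
    rw [h3] at h2
    exact h2
  have h4 : LinearIndependent K (fun j : Fin N => z ^ (j : ℕ)) :=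
    h1.comp (fun j : Fin N => (j : ℕ)) Fin.val_injective
  exact LinearIndependent.of_comp (IntermediateField.val _).toLinearMap h4

theorem val_nonneg_pow (w : AddValuation E (WithTop ℤ)) (z : E) (n j : ℕ)
    (h : ((-(n : ℤ) : ℤ) : WithTop ℤ) ≤ w z) : ((-((j * n : ℕ) : ℤ) : ℤ) : WithTop ℤ) ≤
    w (z ^ j) := by
  rw [AddValuation.map_pow]
  have h1 : j • ((-(n : ℤ) : ℤ) : WithTop ℤ) ≤ j • w z := nsmul_le_nsmul_right h j
  refine le_trans ?_ h1
  rw [← WithTop.coe_nsmul, WithTop.coe_le_coe, nsmul_eq_mul]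
  push_cast
  linarith

end

end XZdg

open XZdg in
open Classical in
/-- the degree of a function -/
theorem pr_Zdg (hNop : StNop.{u}) : StZdg.{u} := by
  intro K E _ _ _ _ hF hC m P hP z hz hzp
  obtain ⟨hess0, x, hx⟩ := hF
  have hz' : Transcendental K z := hz
  -- finiteness
  have hfin : FiniteDimensional (IntermediateField.adjoin K {z}) E := by
    obtain ⟨y, hy⟩ : ∃ y : Fin 1 → E, y = fun _ => z := ⟨_, rfl⟩
    have hyi : AlgebraicIndependent K y := by
      rw [algebraicIndependent_singleton_iff (0 : Fin 1), hy]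
      exact hz'
    have hyb : IsTranscendenceBasis K y := by
      apply hyi.isTranscendenceBasis_of_lift_trdeg_le_of_finite
      have h := hx.lift_cardinalMk_eq_trdeg
      rw [← h]
    have hr : Set.range y = {z} := by
      rw [hy]
      exact Set.range_const
    have halg : Algebra.IsAlgebraic (IntermediateField.adjoin K (Set.range y)) E :=
      hyb.isAlgebraic_field
    rw [hr] at halg
    have hess : Algebra.EssFiniteType (IntermediateField.adjoin K {z}) E :=
      Algebra.EssFiniteType.of_comp K _ E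
    exact Algebra.finite_of_essFiniteType_of_isAlgebraic
  refine ⟨hfin, ?_⟩
  by_contra hcon
  push Not at hcon
  -- the constants
  have hbase : ∀ f : E, (∀ w : AddValuation E (WithTop ℤ), Plc K w → 0 ≤ w f) →
      ∃ c : K, algebraMap K E c = f := fun f hf => hC f (hNop K E x hx f hf)
  -- independent functions
  obtain ⟨g, hg⟩ : ∃ g : Fin (m + 1) → E,
      LinearIndependent (IntermediateField.adjoin K {z}) g := by
    have b := Module.finBasis (IntermediateField.adjoin K {z}) E
    exact ⟨fun i => b (Fin.castLE hcon i), b.linearIndependent.comp _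
      (Fin.castLE_injective hcon)⟩
  choose q hq0 hq using fun i => clear z hz' x hx (g i)
  have hg' : LinearIndependent (IntermediateField.adjoin K {z}) (fun i => q i • g i) := by
    have h1 := hg.units_smul (fun i => Units.mk0 (q i) (hq0 i))
    exact h1
  -- the multiplicities
  obtain ⟨s, hs⟩ : ∃ s : Multiset (AddValuation E (WithTop ℤ)),
      s = Multiset.map P Finset.univ.val := ⟨_, rfl⟩
  have hcount : ∀ w, s.count w = Set.ncard {i | P i = w} := by
    intro w
    rw [hs, Multiset.count_map]
    have h1 : {i | P i = w} = ((Finset.univ.filter (fun i => w = P i) : Finset (Fin m)) :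
        Set (Fin m)) := by
      ext i
      simp only [Set.mem_ofPred_eq, Finset.coe_filter, Finset.mem_univ, true_and]
      exact eq_comm
    rw [h1, Set.ncard_coe_finset]
    rfl
  have hcard : s.card = m := by
    rw [hs, Multiset.card_map]
    simp
  have hpole : ∀ w : AddValuation E (WithTop ℤ), Plc K w → ¬ 0 ≤ w z → 1 ≤ s.count w := by
    intro w hw hwz
    rw [hcount]
    by_contra h0
    have h1 : Set.ncard {i | P i = w} = 0 := by omega
    have h2 := hzp w hw
    rw [h1] at h2
    exact hwz (by simpa using h2)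
  -- a bound for the poles of the `q i • g i`
  choose M hM using fun (a : Fin m × Fin (m + 1)) => exists_le (P a.1) (q a.2 • g a.2)
  obtain ⟨M₀, hM₀⟩ : ∃ M₀ : ℕ, ∀ a, M a ≤ M₀ :=
    ⟨∑ a, M a, fun a => Finset.single_le_sum (fun _ _ => Nat.zero_le _) (Finset.mem_univ a)⟩
  have hgL : ∀ i, ∀ w : AddValuation E (WithTop ℤ), Plc K w →
      ((-((M₀ * s.count w : ℕ) : ℤ) : ℤ) : WithTop ℤ) ≤ w (q i • g i) := by
    intro i w hw
    by_cases hwz : 0 ≤ w z
    · refine le_trans ?_ (hq i w hw hwz)
      have : ((0 : ℤ) : WithTop ℤ) = 0 := rfl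
      rw [← this, WithTop.coe_le_coe]
      omega
    · have h1 := hpole w hw hwz
      have h2 : w ∈ s := Multiset.one_le_count_iff_mem.1 h1
      rw [hs, Multiset.mem_map] at h2
      obtain ⟨k, -, hk⟩ := h2
      have h3 := hM (k, i)
      simp only [hk] at h3
      refine le_trans ?_ h3
      rw [WithTop.coe_le_coe]
      have h4 := hM₀ (k, i)
      have h5 : M (k, i) ≤ M₀ * s.count w := by
        calc M (k, i) ≤ M₀ := h4
          _ = M₀ * 1 := (mul_one _).symm
          _ ≤ M₀ * s.count w := Nat.mul_le_mul_left _ h1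
      omega
  -- the space
  obtain ⟨N, hN⟩ : ∃ N, N = m * M₀ + 2 := ⟨_, rfl⟩
  obtain ⟨hd1, hd2⟩ := dim_le (K := K) hbase ((M₀ + N) • s) (by
    intro w hw
    have h1 : w ∈ s := Multiset.mem_of_mem_nsmul hw
    rw [hs, Multiset.mem_map] at h1
    obtain ⟨k, -, hk⟩ := h1
    rw [← hk]
    exact hP k)
  have hmem : ∀ a : Fin N × Fin (m + 1), (z ^ (a.1 : ℕ)) * (q a.2 • g a.2) ∈
      Lsp K (fun w => ((M₀ + N) • s).count w) := by
    intro a w hw
    rw [AddValuation.map_mul]
    have h1 := val_nonneg_pow w z (s.count w) (a.1 : ℕ) (by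
      rw [hcount]
      exact hzp w hw)
    have h2 := hgL a.2 w hw
    refine le_trans ?_ (add_le_add h1 h2)
    rw [← WithTop.coe_add, WithTop.coe_le_coe]
    have h3 : (a.1 : ℕ) * s.count w ≤ N * s.count w :=
      Nat.mul_le_mul_right _ (le_of_lt a.1.2)
    simp only [Multiset.count_nsmul]
    have h4 : (M₀ + N) * s.count w = M₀ * s.count w + N * s.count w := by ring
    rw [h4]
    omega
  have hind : LinearIndependent K (fun a : Fin N × Fin (m + 1) =>
      (⟨(z ^ (a.1 : ℕ)) * (q a.2 • g a.2), hmem a⟩ :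
        Lsp K (fun w => ((M₀ + N) • s).count w))) := by
    have h1 := linearIndependent_smul (pow_indep z hz' N) hg'
    exact LinearIndependent.of_comp (Submodule.subtype _) h1
  have hle := hind.fintype_card_le_finrank
  rw [Fintype.card_prod, Fintype.card_fin, Fintype.card_fin] at hle
  rw [Multiset.card_nsmul, hcard] at hd2
  have h9 := hle.trans hd2
  rw [hN] at h9
  nlinarith

end Pool.Agent.Work.MP_a2680c_ag.HA
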