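import Pool.Agent.Work.MP_a2680c_ag.HA.StmtsZ

/-! Item [a2680c HA Zdi]: the two cases. -/

set_option autoImplicit false

noncomputable section

namespace Pool.Agent.Work.MP_a2680c_ag.HA

open MP7b66e6 MP7b66e6.Q
open scoped BigOperators

universe u

namespace XZdi

theorem val_zero {K K' : Type u} [Field K] [Field K'] [Algebra K K'] {ν' : AddValuation K' (WithTop ℤ)}
    (h0 : ∀ c : K, 0 ≤ ν' (algebraMap K K' c)) {c : K} (hc : c ≠ 0) : val ν' (algebraMap K K' c) = 0 :=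
  Api.val_of ν' (m := 0) (Api.val_algebraMap (k := K) (K := K') h0 hc)

theorem ev_push_zero {K K' : Type u} [Field K] [Field K'] [Algebra K K'] {ν' : AddValuation K' (WithTop ℤ)}
    (h0 : ∀ c : K, c ≠ 0 → val ν' (algebraMap K K' c) = 0) (φ : Kˣ →₀ ℝ) : ev ν' (push K K' φ) = 0 := by
  rw [Api.ev_push]
  apply Finset.sum_eq_zero
  intro s _
  change φ s * ((val ν' (algebraMap K K' (s : K)) : ℤ) : ℝ) = 0
  rw [h0 (s : K) s.ne_zero]
  simp

end XZdi

theorem pr_Zdi (hTb : StTb.{u}) (hCan : StCan.{u}) (hGpt : StGpt.{u}) (hWdl : StWdl.{u}) (hJcb : StJcb.{u})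
    (hNnp : StNnp.{u}) (hZdk : StZdk.{u}) (hZfn : StZfn.{u}) (hZod : StZod.{u}) (hZcn : StZcn.{u})
    (hZgr : StZgr.{u}) : StZdi.{u} := by
  classical
  intro κ k K E _ _ _ _ _ _ _ _ _ hFF hCcl e r x c Z 𝔻 L Φ hF hcor hxT hpos
  have : CharZero K := charZero_of_injective_algebraMap (algebraMap k K).injective
  have hKE : Algebra.EssFiniteType K E := hFF.1
  have hEE : Algebra.EssFiniteType k E := hF.ess
  obtain ⟨pdx, hpdx⟩ := (hTb K E 1 x hxT).1
  have hθ1 : pdx 0 (x 0) = 1 := by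
    have h := hpdx.1 0 0
    simpa using h
  have hθ0 : pdx 0 ≠ 0 := by
    intro h
    rw [h] at hθ1
    exact zero_ne_one hθ1
  obtain ⟨J, hJ⟩ := hJcb k E (e + 1) c (cor r x) hF.basisF hcor
  obtain ⟨pd, hdual⟩ := (hTb k E (e + 1) (cor r x) hcor).1
  have htop : (⊤ : Subalgebra k K) ∈ Z := hGpt k K Z hF.vz
  obtain ⟨φ, hφ⟩ := hF.carL ⊤ htop
  have hdiv : ∀ w' : AddValuation E (WithTop ℤ), Plc K w' → Divisorial k w' := fun w' hw' =>
    hZdk k K E hFF w' hw'
  have hcan : ∀ (w' : AddValuation E (WithTop ℤ)) (m : ℤ), Plc K w' → Odr w' (pdx 0) m →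
      can k c w' = -(m : ℝ) + (val w' (J : E) : ℝ) := by
    intro w' m hw' hm
    obtain ⟨A, hA⟩ := (hCan k E (e + 1) (cor r x) w').2 pd hdual (hdiv w' hw')
    have h1 := Api.can_eq hA
    have h2 := Api.can_eq (hJ w' A hA)
    have h3 := (hZcn k K E hFF e r x (pdx 0) w' m hF.basis hcor hw' hm).2
    rw [hθ1, Api.val_one] at h3
    rw [h1] at h3
    rw [h2]
    push_cast at h3 ⊢
    linarith
  have hD : ∀ (w' : AddValuation E (WithTop ℤ)) (m : ℤ), Plc K w' → Odr w' (pdx 0) m →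
      𝔻 w' = ev w' (Φ - Finsupp.single J 1) + m := by
    intro w' m hw' hm
    have h8 := hF.triv w' (hdiv w' hw') ⟨⊤, htop, fun f _ => hw'.2 f⟩
    have h9 : Lv Z L (Api.res K w') = 0 := by
      rw [hWdl k K Z hF.vz e r hF.basis L ⊤ htop φ hφ (Api.res K w') (fun f _ => hw'.2 f), Api.ev_res]
      exact XZdi.ev_push_zero (fun c hc => XZdi.val_zero hw'.2 hc) φ
    rw [h9, zero_add, hcan w' m hw' hm] at h8
    rw [Api.ev_sub, Api.ev_single]
    linarith
  by_cases hN : Nsp (pdx 0) (fun _ => 0)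
  · exact Or.inl (hZgr K E hFF hCcl (pdx 0) hθ0 hN)
  · right
    unfold Nsp at hN
    push Not at hN
    obtain ⟨g, hg, hg0⟩ := hN
    have hgv : ∀ (w' : AddValuation E (WithTop ℤ)) (m : ℤ), Plc K w' → Odr w' (pdx 0) m →
        m ≤ val w' g := by
      intro w' m hw' hm
      have h := hg w' m hw' hm
      rw [Api.coe_val w' hg0, add_zero] at h
      exact WithTop.coe_le_coe.1 h
    have hev : ∀ (w' : AddValuation E (WithTop ℤ)) (m : ℤ), Plc K w' → Odr w' (pdx 0) m →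
        ev w' (Finsupp.single (Units.mk0 g hg0) 1 + (Φ - Finsupp.single J 1)) =
          (val w' g : ℝ) - m + 𝔻 w' := by
      intro w' m hw' hm
      rw [Api.ev_add, Api.ev_single, Units.val_mk0, hD w' m hw' hm]
      ring
    have hzero := hNnp K E x hxT hCcl (fun s hs => hZfn K E hFF s hs)
      (Finsupp.single (Units.mk0 g hg0) 1 + (Φ - Finsupp.single J 1)) (by
        intro w' hw'
        obtain ⟨m, hm⟩ := hZod K E hFF (pdx 0) hθ0 w' hw'
        rw [hev w' m hw' hm]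
        have h1 : (m : ℝ) ≤ (val w' g : ℝ) := by exact_mod_cast hgv w' m hw' hm
        have h2 := hpos w' hw'
        linarith)
    have hval : ∀ (w' : AddValuation E (WithTop ℤ)) (m : ℤ), Plc K w' → Odr w' (pdx 0) m →
        val w' g = m := by
      intro w' m hw' hm
      have h0 := hzero w' hw'
      rw [hev w' m hw' hm] at h0
      have h1 := hgv w' m hw' hm
      have h2 := hpos w' hw'
      have h3 : (val w' g : ℝ) ≤ (m : ℝ) := by linarith
      have h4 : val w' g ≤ m := by exact_mod_cast h3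
      omega
    refine ⟨hCcl, g⁻¹ • pdx 0, ?_⟩
    intro w hw
    obtain ⟨m, hm⟩ := hZod K E hFF (pdx 0) hθ0 w hw
    have hvg := hval w m hw hm
    have hinv : w g⁻¹ = ((-m : ℤ) : WithTop ℤ) := by
      rw [Api.coe_val w (inv_ne_zero hg0), Api.val_inv w hg0, hvg]
    have happ : ∀ f : E, w ((g⁻¹ • pdx 0) f) = ((-m : ℤ) : WithTop ℤ) + w (pdx 0 f) := by
      intro f
      rw [Derivation.smul_apply, smul_eq_mul, AddValuation.map_mul, hinv]
    have hmm : ((-m : ℤ) : WithTop ℤ) + ((m : ℤ) : WithTop ℤ) = 0 := by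
      rw [← WithTop.coe_add, neg_add_cancel]
      rfl
    constructor
    · intro f hf
      rw [happ f, ← hmm]
      exact add_le_add le_rfl (hm.1 f hf)
    · obtain ⟨f, hf, hf2⟩ := hm.2
      refine ⟨f, hf, ?_⟩
      rw [happ f, hf2, hmm]

end Pool.Agent.Work.MP_a2680c_ag.HA
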