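import Pool.Agent.Work.MP_a2680c_ag.HA.StmtsZ

/-!
# MP_a2680c_ag, block HA, part Z: item Zdk (places are divisorial)
-/

set_option autoImplicit false

noncomputable section

namespace Pool.Agent.Work.MP_a2680c_ag.HA

open MP7b66e6 MP7b66e6.Q
open scoped BigOperators

universe u

namespace XZdk

open Polynomial in
/-- a nonzero polynomial is a power of `X` times a polynomial with constant term `≠ 0` -/
theorem split {K : Type u} [Field K] (p : K[X]) (hp : p ≠ 0) :
    ∃ (m : ℕ) (q : K[X]), p = X ^ m * q ∧ q.coeff 0 ≠ 0 := by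
  obtain ⟨q, h1, h2⟩ := exists_eq_pow_rootMultiplicity_mul_and_not_dvd p hp 0
  rw [C_0, sub_zero] at h1 h2
  exact ⟨_, q, h1, fun h => h2 (X_dvd_iff.2 h)⟩

section
variable {K E : Type u} [Field K] [Field E] [Algebra K E] {w : AddValuation E (WithTop ℤ)} {π : E}

open Polynomial in
theorem nonneg_aeval (h0 : ∀ c : K, 0 ≤ w (algebraMap K E c)) (hπ : w π = 1) (g : K[X]) :
    0 ≤ w (aeval π g) := by
  have hmem : aeval π g ∈ Api.ring w h0 := by
    have h1 : aeval π g ∈ Algebra.adjoin K ({π} : Set E) := aeval_mem_adjoin_singleton K π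
    have h2 : Algebra.adjoin K ({π} : Set E) ≤ Api.ring w h0 := by
      rw [Algebra.adjoin_le_iff, Set.singleton_subset_iff]
      show 0 ≤ w π
      rw [hπ]
      exact zero_le_one
    exact h2 h1
  exact hmem

open Polynomial in
theorem aeval_zero (h0 : ∀ c : K, 0 ≤ w (algebraMap K E c)) (hπ : w π = 1) (g : K[X])
    (hg : g.coeff 0 ≠ 0) : w (aeval π g) = 0 := by
  have h1 : aeval π g = aeval π (divX g) * π + algebraMap K E (g.coeff 0) := by
    conv_lhs => rw [← divX_mul_X_add g]
    rw [map_add, map_mul, aeval_X, aeval_C]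
  have h2 : w (algebraMap K E (g.coeff 0)) = 0 := Api.val_algebraMap h0 hg
  have h3 : (1 : WithTop ℤ) ≤ w (aeval π (divX g) * π) := by
    rw [AddValuation.map_mul, hπ]
    have := nonneg_aeval h0 hπ (divX g)
    calc (1 : WithTop ℤ) = 0 + 1 := (zero_add 1).symm
      _ ≤ w (aeval π (divX g)) + 1 := by gcongr
  have h4 : w (algebraMap K E (g.coeff 0)) < w (aeval π (divX g) * π) := by
    rw [h2]
    exact lt_of_lt_of_le (by exact_mod_cast (zero_lt_one : (0 : ℤ) < 1)) h3
  rw [h1, AddValuation.map_add_eq_of_lt_right w h4, h2]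

theorem ne_zero_of_eq_one (hπ : w π = 1) : π ≠ 0 := by
  intro h
  rw [h, AddValuation.map_zero] at hπ
  exact absurd hπ (by simp)

theorem pow_val (hπ : w π = 1) (m : ℕ) : w (π ^ m) = ((m : ℤ) : WithTop ℤ) := by
  have hne := ne_zero_of_eq_one hπ
  rw [Api.coe_val w (pow_ne_zero m hne), Api.val_pow w hne,
    Api.val_of w (show w π = ((1 : ℤ) : WithTop ℤ) from hπ), mul_one]

open Polynomial in
theorem transcendental (h0 : ∀ c : K, 0 ≤ w (algebraMap K E c)) (hπ : w π = 1) :
    Transcendental K π := by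
  rintro ⟨p, hp, h1⟩
  obtain ⟨m, q, h2, h3⟩ := split p hp
  rw [h2, map_mul, map_pow, aeval_X] at h1
  have h4 := congrArg w h1
  rw [AddValuation.map_mul, pow_val hπ, aeval_zero h0 hπ q h3, AddValuation.map_zero, add_zero] at h4
  exact absurd h4 (by simp)

end

section
variable {k K K₁ : Type u} [Field k] [Field K] [Field K₁] [Algebra k K] [Algebra k K₁] [Algebra K K₁]
  [IsScalarTower k K K₁]

/-- common denominators -/
theorem common (σ : Finset K) (hσ : ∀ s : K, ∃ t ∈ Algebra.adjoin k (σ : Set K),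
      IsUnit t ∧ s * t ∈ Algebra.adjoin k (σ : Set K)) (T : Finset K) :
    ∃ d ∈ Algebra.adjoin k (σ : Set K), d ≠ 0 ∧ ∀ x ∈ T, d * x ∈ Algebra.adjoin k (σ : Set K) := by
  classical
  induction T using Finset.induction_on with
  | empty => exact ⟨1, Subalgebra.one_mem _, one_ne_zero, by simp⟩
  | insert a T _ ih =>
    obtain ⟨d, hd, hd0, h⟩ := ih
    obtain ⟨t, ht, htu, h1⟩ := hσ a
    refine ⟨d * t, Subalgebra.mul_mem _ hd ht, mul_ne_zero hd0 htu.ne_zero, ?_⟩
    intro x hx
    rw [Finset.mem_insert] at hx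
    rcases hx with rfl | hx
    · have h2 : d * t * x = d * (x * t) := by ring
      rw [h2]
      exact Subalgebra.mul_mem _ hd h1
    · have h2 : d * t * x = t * (d * x) := by ring
      rw [h2]
      exact Subalgebra.mul_mem _ ht (h x hx)

open Polynomial in
theorem divisorial [Algebra.EssFiniteType k K] (v : AddValuation K₁ (WithTop ℤ)) (π : K₁)
    (hπ : v π = 1) (h0 : ∀ c : K, 0 ≤ v (algebraMap K K₁ c))
    (hgen : ∀ f : K₁, ∃ r s : K[X], aeval π s ≠ 0 ∧ f * aeval π s = aeval π r) :
    Divisorial k v := by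
  classical
  obtain ⟨σ, hσ⟩ := (Algebra.essFiniteType_iff (R := k) (S := K)).1 inferInstance
  refine ⟨⟨π, hπ⟩, Algebra.adjoin k ((insert π (σ.image (algebraMap K K₁)) : Finset K₁) : Set K₁),
    Subalgebra.fg_adjoin_finset _, ?_, ?_⟩
  · have hk : ∀ c : k, 0 ≤ v (algebraMap k K₁ c) := by
      intro c
      rw [IsScalarTower.algebraMap_apply k K K₁]
      exact h0 _
    have hle : Algebra.adjoin k ((insert π (σ.image (algebraMap K K₁)) : Finset K₁) : Set K₁) ≤
        Api.ring v hk := by
      rw [Algebra.adjoin_le_iff]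
      intro x hx
      rw [Finset.mem_coe, Finset.mem_insert, Finset.mem_image] at hx
      rcases hx with rfl | ⟨c, -, rfl⟩
      · show 0 ≤ v x
        rw [hπ]
        exact zero_le_one
      · exact h0 c
    intro c hc
    exact hle hc
  · set C := Algebra.adjoin k ((insert π (σ.image (algebraMap K K₁)) : Finset K₁) : Set K₁) with hC
    have hπC : π ∈ C := Algebra.subset_adjoin (by simp)
    have hAC : ∀ a ∈ Algebra.adjoin k (σ : Set K), algebraMap K K₁ a ∈ C := by
      intro a ha
      have hle : Algebra.adjoin k (σ : Set K) ≤ C.comap (IsScalarTower.toAlgHom k K K₁) := by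
        rw [Algebra.adjoin_le_iff]
        intro x hx
        show algebraMap K K₁ x ∈ C
        refine Algebra.subset_adjoin ?_
        rw [Finset.mem_coe, Finset.mem_insert, Finset.mem_image]
        exact Or.inr ⟨x, hx, rfl⟩
      exact hle ha
    have hpol : ∀ g : K[X], (∀ i, g.coeff i ∈ Algebra.adjoin k (σ : Set K)) → aeval π g ∈ C := by
      intro g hg
      rw [aeval_eq_sum_range]
      refine Subalgebra.sum_mem _ ?_
      intro i _
      rw [Algebra.smul_def]
      exact Subalgebra.mul_mem _ (hAC _ (hg i)) (Subalgebra.pow_mem _ hπC i)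
    have hπ0 : π ≠ 0 := ne_zero_of_eq_one hπ
    intro f hf
    by_cases hf0 : f = 0
    · refine ⟨0, Subalgebra.zero_mem _, 1, Subalgebra.one_mem _, AddValuation.map_one v, ?_⟩
      rw [hf0, zero_mul]
    obtain ⟨r, s, hs, hfrs⟩ := hgen f
    have hr : aeval π r ≠ 0 := by
      rw [← hfrs]
      exact mul_ne_zero hf0 hs
    have hr0 : r ≠ 0 := by
      rintro rfl
      exact hr (map_zero _)
    have hs0 : s ≠ 0 := by
      rintro rfl
      exact hs (map_zero _)
    obtain ⟨m, r', hr1, hr2⟩ := split r hr0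
    obtain ⟨n, s', hs1, hs2⟩ := split s hs0
    rw [hr1, hs1, map_mul, map_mul, map_pow, map_pow, aeval_X] at hfrs
    have hnm : n ≤ m := by
      have h1 := congrArg v hfrs
      rw [AddValuation.map_mul, AddValuation.map_mul, AddValuation.map_mul, pow_val hπ, pow_val hπ,
        aeval_zero h0 hπ _ hr2, aeval_zero h0 hπ _ hs2, add_zero, add_zero, Api.coe_val v hf0] at h1
      rw [Api.coe_val v hf0] at hf
      rw [← WithTop.coe_add, WithTop.coe_inj] at h1
      rw [← WithTop.coe_zero, WithTop.coe_le_coe] at hf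
      omega
    have hcanc : f * aeval π s' = π ^ (m - n) * aeval π r' := by
      have h2 : π ^ m = π ^ n * π ^ (m - n) := by
        rw [← pow_add]
        congr 1
        omega
      rw [h2] at hfrs
      have h3 : π ^ n ≠ 0 := pow_ne_zero _ hπ0
      apply mul_left_cancel₀ h3
      linear_combination hfrs
    obtain ⟨d, hd, hd0, hdT⟩ := common σ hσ ((r'.support.image r'.coeff) ∪ (s'.support.image s'.coeff))
    have hcoef : ∀ g : K[X], g.support.image g.coeff ⊆
        (r'.support.image r'.coeff) ∪ (s'.support.image s'.coeff) →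
        ∀ i, (Polynomial.C d * g).coeff i ∈ Algebra.adjoin k (σ : Set K) := by
      intro g hg i
      rw [coeff_C_mul]
      by_cases h4 : g.coeff i = 0
      · rw [h4, mul_zero]
        exact Subalgebra.zero_mem _
      · exact hdT _ (hg (Finset.mem_image_of_mem _ (mem_support_iff.2 h4)))
    refine ⟨π ^ (m - n) * aeval π (Polynomial.C d * r'), ?_, aeval π (Polynomial.C d * s'), ?_, ?_, ?_⟩
    · exact Subalgebra.mul_mem _ (Subalgebra.pow_mem _ hπC _)
        (hpol _ (hcoef r' Finset.subset_union_left))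
    · exact hpol _ (hcoef s' Finset.subset_union_right)
    · refine aeval_zero h0 hπ _ ?_
      rw [coeff_C_mul]
      exact mul_ne_zero hd0 hs2
    · rw [map_mul, map_mul, aeval_C]
      linear_combination (algebraMap K K₁ d) * hcanc

end

end XZdk

open Polynomial in
/-- item **Zdk** -/
theorem pr_Zdk (hOrd : StOrd.{u}) (hQdv : StQdv.{u}) : StZdk.{u} := by
  have _ := hOrd
  intro k K E _ _ _ _ _ _ _ _ _ hFF w hw
  obtain ⟨hE, x, hx⟩ := hFF
  obtain ⟨⟨π, hπ⟩, h0⟩ := hw
  have htr : Transcendental K π := XZdk.transcendental h0 hπ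
  obtain ⟨y, hy⟩ : ∃ y : Fin 1 → E, y = fun _ => π := ⟨_, rfl⟩
  have hyi : AlgebraicIndependent K y := by
    rw [algebraicIndependent_singleton_iff (0 : Fin 1), hy]
    exact htr
  have hyb : IsTranscendenceBasis K y := by
    apply hyi.isTranscendenceBasis_of_lift_trdeg_le_of_finite
    have h := hx.lift_cardinalMk_eq_trdeg
    rw [← h]
  have hrange : Set.range y = {π} := by
    rw [hy]
    exact Set.range_const
  have halg : Algebra.IsAlgebraic (IntermediateField.adjoin K (Set.range y)) E :=
    hyb.isAlgebraic_field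
  rw [hrange] at halg
  have hess : Algebra.EssFiniteType (IntermediateField.adjoin K ({π} : Set E)) E :=
    Algebra.EssFiniteType.of_comp K _ E
  have hfin : FiniteDimensional (IntermediateField.adjoin K ({π} : Set E)) E :=
    Algebra.finite_of_essFiniteType_of_isAlgebraic
  have hπm : π ∈ IntermediateField.adjoin K ({π} : Set E) :=
    IntermediateField.mem_adjoin_simple_self K π
  have hT : IsScalarTower k (IntermediateField.adjoin K ({π} : Set E)) E :=
    IsScalarTower.of_algebraMap_eq fun _ => rfl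
  have hT2 : IsScalarTower k K (IntermediateField.adjoin K ({π} : Set E)) :=
    IsScalarTower.of_algebraMap_eq fun x => by
      apply Subtype.ext
      exact IsScalarTower.algebraMap_apply k K E x
  have hdiv : Divisorial k (Api.res (IntermediateField.adjoin K ({π} : Set E)) w) := by
    refine XZdk.divisorial (K := K) _ ⟨π, hπm⟩ hπ (fun c => h0 c) ?_
    rintro ⟨f, hf⟩
    obtain ⟨r, s, hrs⟩ := IntermediateField.mem_adjoin_simple_iff K f |>.1 hf
    have hco : ∀ g : K[X], ((aeval (⟨π, hπm⟩ : IntermediateField.adjoin K ({π} : Set E)) g :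
        IntermediateField.adjoin K ({π} : Set E)) : E) = aeval π g := by
      intro g
      exact (aeval_algebraMap_apply E (⟨π, hπm⟩ : IntermediateField.adjoin K ({π} : Set E)) g).symm
    by_cases hs : aeval π s = 0
    · rw [hs, div_zero] at hrs
      refine ⟨0, 1, ?_, ?_⟩
      · rw [map_one]
        exact one_ne_zero
      · apply Subtype.ext
        rw [map_one, map_zero, mul_one]
        exact hrs
    · refine ⟨r, s, ?_, ?_⟩
      · intro h
        apply hs
        rw [← hco, h]
        rfl
      · apply Subtype.ext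
        show f * _ = _
        rw [hco, hco, hrs, div_mul_cancel₀ _ hs]
  have hlies : Lies (Api.res (IntermediateField.adjoin K ({π} : Set E)) w) w 1 := by
    refine ⟨Nat.one_pos, fun f _ => ?_⟩
    rw [Nat.cast_one, one_mul]
    rfl
  exact hQdv k _ E _ w 1 hdiv hlies ⟨π, hπ⟩

end Pool.Agent.Work.MP_a2680c_ag.HA
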