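import Pool.Agent.Work.MP_a2680c_ag.HA.StmtsZ
import Pool.Agent.Work.MP_a2680c_ag.HA.I_Eqt

/-! Item [a2680c HA Zeq]: the quotient of a curve of genus one, without a model (adapted from `I_Eqt`). -/

set_option autoImplicit false

noncomputable section

namespace Pool.Agent.Work.MP_a2680c_ag.HA

open MP7b66e6 MP7b66e6.Q
open scoped BigOperators

universe u

theorem pr_Zeq (hGrm : StGrm.{u}) (hGpt : StGpt.{u}) (hWdl : StWdl.{u})
    (hEXT : StEXT.{u, u, u}) (hQcn : StQcn.{u}) (hQav : StQav.{u}) (hQdv : StQdv.{u})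
    (hFcc : StFcc.{u}) (hNOR : MgNOR.{u}) : StZeq.{u} := by
  classical
  intro κ k K E₀ E _ _ _ _ _ _ _ _ _ _ _ _ _ _ _ _ _ _ e r x c₀ c Z 𝔻 L Φ hF hc₀ hxT hconn hdiv₀
    huniq hD0
  have : CharZero K := charZero_of_injective_algebraMap (algebraMap k K).injective
  have : Algebra.IsAlgebraic E₀ E := Algebra.IsAlgebraic.of_finite E₀ E
  have htop : (⊤ : Subalgebra k K) ∈ Z := hGpt k K Z hF.vz
  obtain ⟨φ, hφ⟩ := hF.carL ⊤ htop
  obtain ⟨J, hJ⟩ := hQcn k E₀ E (e + 1) (e + 1) c₀ c hc₀ hF.basisF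
  -- the value at points of `E`
  have hLv0 : ∀ w : AddValuation E (WithTop ℤ), Plc K w → Lv Z L (Api.res K w) = 0 := by
    intro w hw
    rw [hWdl k K Z hF.vz e r hF.basis L ⊤ htop φ hφ (Api.res K w) (fun f _ => hw.2 f), Api.ev_res]
    exact XEqt.ev_push_zero (fun c hc => XEqt.val_zero hw.2 hc) φ
  have hkey : ∀ (w₀ : AddValuation E₀ (WithTop ℤ)) (w : AddValuation E (WithTop ℤ)) (m : ℕ), Plc K w₀ →
      Plc K w → Lies w₀ w m → ev w (Φ - Finsupp.single J 1) = m * (1 + can k c₀ w₀) - 1 := by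
    intro w₀ w m hw₀ hw hL
    have h0 := hdiv₀ w₀ hw₀
    have h1 : Divisorial k w := hQdv k E₀ E w₀ w m h0 hL hw.1
    have h2 := hJ w₀ w m h0 h1 hL
    have h3 := hF.triv w h1 ⟨⊤, htop, fun f _ => hw.2 f⟩
    rw [hLv0 w hw, hD0 w hw] at h3
    rw [Api.ev_sub, Api.ev_single]
    linarith
  -- the index over a point
  let idx : AddValuation E₀ (WithTop ℤ) → ℕ := fun w₀ =>
    Classical.epsilon fun m : ℕ => ∃ w : AddValuation E (WithTop ℤ), Plc K w ∧ Lies w₀ w m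
  have hidx : ∀ (w₀ : AddValuation E₀ (WithTop ℤ)) (w : AddValuation E (WithTop ℤ)) (m : ℕ), Plc K w →
      Lies w₀ w m → idx w₀ = m := by
    intro w₀ w m hw hL
    have h1 : ∃ w : AddValuation E (WithTop ℤ), Plc K w ∧ Lies w₀ w (idx w₀) :=
      Classical.epsilon_spec (p := fun m : ℕ => ∃ w : AddValuation E (WithTop ℤ), Plc K w ∧ Lies w₀ w m)
        ⟨m, w, hw, hL⟩
    obtain ⟨w', hw', hL'⟩ := h1
    exact huniq w₀ w' w (idx w₀) m hw' hw hL' hL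
  obtain ⟨Φ₁, hΦ₁⟩ := hQav k E₀ E (Φ - Finsupp.single J 1) {w₀ | Plc K w₀}
    (fun w₀ => 1 + can k c₀ w₀ - 1 / (idx w₀ : ℝ)) (fun w₀ hw₀ => hdiv₀ w₀ hw₀) (by
      intro w₀ hw₀ w η hπ hL
      have hw : Plc K w := XEqt.plc_up hw₀ hπ hL
      have hη : (η : ℝ) ≠ 0 := by exact_mod_cast hL.1.ne'
      rw [hkey w₀ w η hw₀ hw hL, hidx w₀ w η hw hL]
      field_simp)
  obtain ⟨Ξ, hΞ⟩ := hFcc K E x hxT hconn (Φ - Finsupp.single J 1 - push E₀ E Φ₁) (by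
      intro w hw
      obtain ⟨w₀, m, hw₀, hL⟩ := XEqt.place_over (E₀ := E₀) hNOR hw
      have hm : (m : ℝ) ≠ 0 := by exact_mod_cast hL.1.ne'
      rw [Api.ev_sub, Api.ev_push_lies hL, hkey w₀ w m hw₀ hw hL, hΦ₁ w₀ hw₀, hidx w₀ w m hw hL]
      field_simp
      ring)
  have hΦ₀ : ∀ W : AddValuation E (WithTop ℤ), ev W Φ = ev W (push E₀ E (Φ₁ + push K E₀ Ξ)) + (val W (J : E) : ℝ) := by
    intro W
    have h1 := hΞ W
    rw [Api.ev_sub, Api.ev_sub, Api.ev_single, ← Api.ev_push_push (K' := E₀) W Ξ] at h1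
    rw [Api.push_add, Api.ev_add]
    linarith
  -- crepancy
  have hcrep : ∀ (ν : AddValuation E₀ (WithTop ℤ)) (ν' : AddValuation E (WithTop ℤ)) (ε : ℕ), Divisorial k ν →
      Ov Z ν → (∃ π : E, ν' π = 1) → Lies ν ν' ε → 1 - 𝔻 ν' = ε * (1 -
        (Lv Z L (Api.res K ν) + ev ν (Φ₁ + push K E₀ Ξ) - can k c₀ ν)) := by
    intro ν ν' ε hd hOv hπ hL
    have hd' : Divisorial k ν' := hQdv k E₀ E ν ν' ε hd hL hπ
    obtain ⟨P, hP, hPν⟩ := hOv
    have hPν' : ∀ f ∈ P, 0 ≤ ν' (algebraMap K E f) := by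
      intro f hf
      by_cases hf0 : f = 0
      · rw [hf0, map_zero, AddValuation.map_zero]; exact le_top
      · have h1 := hL.2 (algebraMap K E₀ f) (XEqt.map_ne hf0)
        rw [← IsScalarTower.algebraMap_apply K E₀ E] at h1
        rw [← Api.val_nonneg ν' (XEqt.map_ne hf0), h1]
        have h2 := (Api.val_nonneg ν (XEqt.map_ne hf0)).2 (hPν f hf)
        positivity
    obtain ⟨ψ, hψ⟩ := hF.carL P hP
    have h1 := hF.triv ν' hd' ⟨P, hP, hPν'⟩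
    have h2 := hJ ν ν' ε hd hd' hL
    have h3 : Lv Z L (Api.res K ν') = ε * Lv Z L (Api.res K ν) := by
      rw [hWdl k K Z hF.vz e r hF.basis L P hP ψ hψ (Api.res K ν') hPν',
        hWdl k K Z hF.vz e r hF.basis L P hP ψ hψ (Api.res K ν) hPν, Api.ev_res, Api.ev_res,
        ← Api.ev_push_push (K' := E₀), Api.ev_push_lies hL]
    rw [h2, h3, hΦ₀ ν', Api.ev_push_lies hL] at h1
    linarith
  refine ⟨fun ν => Lv Z L (Api.res K ν) + ev ν (Φ₁ + push K E₀ Ξ) - can k c₀ ν, Φ₁ + push K E₀ Ξ, ?_, hcrep, ?_⟩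
  · refine ⟨hF.vz, hF.basis, hc₀, inferInstance, hF.divL, hF.carL, ?_, ?_⟩
    · intro ν hd hOv
      obtain ⟨ν', ε, hd', hL⟩ := hEXT k E₀ E ν hd
      have h1 := hcrep ν ν' ε hd hOv hd'.1 hL
      have hOv' : Ov Z ν' := by
        obtain ⟨P, hP, hPν⟩ := hOv
        refine ⟨P, hP, fun f hf => ?_⟩
        by_cases hf0 : f = 0
        · rw [hf0, map_zero, AddValuation.map_zero]; exact le_top
        · have h1 := hL.2 (algebraMap K E₀ f) (XEqt.map_ne hf0)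
          rw [← IsScalarTower.algebraMap_apply K E₀ E] at h1
          rw [← Api.val_nonneg ν' (XEqt.map_ne hf0), h1]
          have h2 := (Api.val_nonneg ν (XEqt.map_ne hf0)).2 (hPν f hf)
          positivity
      have h2 := hF.pos ν' hd' hOv'
      rw [h1] at h2
      have hε : (0 : ℝ) < ε := by exact_mod_cast hL.1
      refine ⟨?_, fun hκ => ?_⟩
      · exact nonneg_of_mul_nonneg_right h2.1 hε
      · exact (mul_pos_iff_of_pos_left hε).1 (h2.2 hκ)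
    · intro ν hd hOv
      show can k c₀ ν + (Lv Z L (Api.res K ν) + ev ν (Φ₁ + push K E₀ Ξ) - can k c₀ ν) = _
      ring
  · intro w₀ hw₀
    obtain ⟨w, m, hd, hL⟩ := hEXT k E₀ E w₀ (hdiv₀ w₀ hw₀)
    have hw : Plc K w := XEqt.plc_up hw₀ hd.1 hL
    have h1 := hcrep w₀ w m (hdiv₀ w₀ hw₀) ⟨⊤, htop, fun f _ => hw₀.2 f⟩ hd.1 hL
    rw [hD0 w hw] at h1
    have hm := hL.1
    have hm' : (0 : ℝ) < m := by exact_mod_cast hm
    have h2 : (Lv Z L (Api.res K w₀) + ev w₀ (Φ₁ + push K E₀ Ξ) - can k c₀ w₀) = 1 - 1 / (m : ℝ) := by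
      field_simp
      linarith
    exact ⟨w, m, hw, hL, h2⟩

end Pool.Agent.Work.MP_a2680c_ag.HA
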