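import Pool.Agent.Work.MP_a2680c_ag.HA.StmtsZ

/-!
# MP_a2680c_ag, block HA, item Zex: functions with a given pole
-/

set_option autoImplicit false

noncomputable section

namespace Pool.Agent.Work.MP_a2680c_ag.HA

open MP7b66e6 MP7b66e6.Q
open scoped BigOperators

universe u

namespace XZex

/-- the valuation ring of a valuation -/
def vr {E : Type u} [Field E] (w : AddValuation E (WithTop ℤ)) : ValuationSubring E where
  carrier := {f | 0 ≤ w f}
  mul_mem' := by
    intro a b ha hb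
    change 0 ≤ w (a * b)
    rw [AddValuation.map_mul]
    exact add_nonneg ha hb
  one_mem' := by
    change 0 ≤ w 1
    rw [AddValuation.map_one]
  add_mem' := by
    intro a b ha hb
    exact le_trans (le_min ha hb) (AddValuation.map_add w a b)
  zero_mem' := by
    change 0 ≤ w 0
    rw [AddValuation.map_zero]
    exact le_top
  neg_mem' := by
    intro a ha
    change 0 ≤ w (-a)
    rw [AddValuation.map_neg]
    exact ha
  mem_or_inv_mem' := by
    intro f
    change 0 ≤ w f ∨ 0 ≤ w f⁻¹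
    by_cases hf : f = 0
    · left
      rw [hf, AddValuation.map_zero]
      exact le_top
    · rw [← Api.val_nonneg w hf, ← Api.val_nonneg w (inv_ne_zero hf), Api.val_inv w hf]
      omega

theorem integral_nonneg {K E : Type u} [Field K] [Field E] [Algebra K E]
    (w : AddValuation E (WithTop ℤ)) (h : ∀ c : K, 0 ≤ w (algebraMap K E c)) {f : E}
    (hf : IsIntegral K f) : 0 ≤ w f := by
  have h1 : IsIntegral (vr w) f := by
    obtain ⟨q, hq, he⟩ := hf
    let i : K →+* vr w :=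
      { toFun := fun x => ⟨algebraMap K E x, h x⟩
        map_one' := by ext; exact map_one _
        map_mul' := fun x y => by ext; exact map_mul _ x y
        map_zero' := by ext; exact map_zero _
        map_add' := fun x y => by ext; exact map_add _ x y }
    refine ⟨q.map i, hq.map _, ?_⟩
    rw [Polynomial.eval₂_map]
    exact he
  obtain ⟨y, hy⟩ := (IsIntegrallyClosed.isIntegral_iff (R := vr w) (K := E)).1 h1
  rw [← hy]
  exact y.2

end XZex

open XZex in
theorem pr_Zex (hZfn : StZfn.{u}) (hAPX : StAPX.{u}) (hZhi : StZhi.{u}) : StZex.{u} := by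
  intro K E _ _ _ _ hF θ hθ D hD hN P hP
  obtain ⟨π, hπ⟩ := hP.1
  have hπ0 : π ≠ 0 := by
    rintro rfl
    rw [AddValuation.map_zero] at hπ
    exact absurd hπ (by decide)
  have hvπ : val P π = 1 := Api.val_of P (by rw [hπ]; rfl)
  have hfi0 : π⁻¹ ≠ 0 := inv_ne_zero hπ0
  have hPf : P π⁻¹ < 0 := by
    rw [Api.coe_val P hfi0, Api.val_inv P hπ0, hvπ, ← WithTop.coe_zero, WithTop.coe_lt_coe]
    norm_num
  have halg : ¬ IsAlgebraic K π⁻¹ := fun h =>
    absurd (integral_nonneg P hP.2 h.isIntegral) (not_le.2 hPf)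
  -- the other poles of `f = π⁻¹`
  have hW : {w : AddValuation E (WithTop ℤ) | Plc K w ∧ w π⁻¹ < 0 ∧ w ≠ P}.Finite := by
    refine (hZfn K E hF π⁻¹ hfi0).subset ?_
    rintro w ⟨h1, h2, -⟩
    refine ⟨h1, fun h3 => ?_⟩
    rw [Api.coe_val w hfi0, h3] at h2
    exact absurd h2 (lt_irrefl _)
  obtain ⟨n, μ, hμ⟩ := hW.fin_param
  have hμW : ∀ i, Plc K (μ i) ∧ μ i π⁻¹ < 0 ∧ μ i ≠ P := by
    intro i
    have : μ i ∈ Set.range μ := ⟨i, rfl⟩
    rw [hμ.2] at this
    exact this
  have hμS : ∀ w : AddValuation E (WithTop ℤ), Plc K w → w π⁻¹ < 0 → w ≠ P → ∃ i, μ i = w := by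
    intro w h1 h2 h3
    have : w ∈ Set.range μ := by
      rw [hμ.2]
      exact ⟨h1, h2, h3⟩
    exact this
  set N : ℕ := 1 + ∑ i, ((-(D P) - 1) * val (μ i) π + D (μ i)).natAbs with hNdef
  obtain ⟨e, he, heμ⟩ := hAPX E (Fin n) P μ ⟨π, hπ⟩ (fun i => (hμW i).1.1) (fun i => (hμW i).2.2) N
  have hPe : P e = 0 := by
    have h1 : P 1 < P (e - 1) := by
      rw [AddValuation.map_one]
      refine lt_of_lt_of_le ?_ he
      have : (0 : WithTop ℤ) < ((1 : ℕ) : WithTop ℤ) := by
        rw [Nat.cast_one]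
        exact zero_lt_one
      refine lt_of_lt_of_le this ?_
      exact_mod_cast Nat.le_add_right 1 _
    have h2 := AddValuation.map_add_eq_of_lt_left P h1
    rw [add_sub_cancel, AddValuation.map_one] at h2
    exact h2
  have he0 : e ≠ 0 := by
    rintro rfl
    rw [AddValuation.map_zero] at hPe
    exact absurd hPe (by decide)
  set g₁ : E := e * π ^ (-(D P) - 1) with hg₁
  have hz0 : π ^ (-(D P) - 1) ≠ 0 := zpow_ne_zero _ hπ0
  have hg₁0 : g₁ ≠ 0 := mul_ne_zero he0 hz0
  have hPg : P g₁ = ((-(D P) - 1 : ℤ) : WithTop ℤ) := by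
    rw [Api.coe_val P hg₁0, hg₁, Api.val_mul P he0 hz0, Api.val_zpow P hπ0, hvπ, mul_one,
      Api.val_of P (m := 0) hPe, zero_add]
  have hwg : ∀ i, ((-(D (μ i)) : ℤ) : WithTop ℤ) ≤ μ i g₁ := by
    intro i
    rw [Api.coe_val (μ i) hg₁0, hg₁, Api.val_mul _ he0 hz0, Api.val_zpow _ hπ0, WithTop.coe_le_coe]
    have h1 : (N : ℤ) ≤ val (μ i) e := by
      have h2 := heμ i
      rw [Api.coe_val (μ i) he0] at h2
      have h3 : ((N : ℤ) : WithTop ℤ) ≤ ((val (μ i) e : ℤ) : WithTop ℤ) := by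
        exact_mod_cast h2
      exact WithTop.coe_le_coe.1 h3
    have h4 : ((-(D P) - 1) * val (μ i) π + D (μ i)).natAbs ≤
        ∑ i, ((-(D P) - 1) * val (μ i) π + D (μ i)).natAbs :=
      Finset.single_le_sum (f := fun i => ((-(D P) - 1) * val (μ i) π + D (μ i)).natAbs)
        (fun _ _ => Nat.zero_le _) (Finset.mem_univ i)
    have h5 : -((-(D P) - 1) * val (μ i) π + D (μ i)) ≤ (N : ℤ) := by
      have h6 : ((((-(D P) - 1) * val (μ i) π + D (μ i)).natAbs : ℕ) : ℤ) ≤ (N : ℤ) := by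
        rw [hNdef]
        exact_mod_cast le_trans h4 (Nat.le_add_left _ _)
      omega
    linarith
  obtain ⟨a, b, hab, ha, hb⟩ := hZhi K E hF θ hθ D hD hN π⁻¹ halg g₁
  have haeq : a = g₁ - b := by
    rw [hab]
    ring
  refine ⟨a, ?_, ?_⟩
  · have h1 : P g₁ < P b := by
      refine lt_of_lt_of_le ?_ (hb P hP hPf)
      rw [hPg, WithTop.coe_lt_coe]
      omega
    rw [haeq, AddValuation.map_sub_eq_of_lt_left P h1, hPg]
  · intro w hw hwP
    by_cases hwf : 0 ≤ w π⁻¹
    · exact ha w hw hwf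
    · rw [not_le] at hwf
      obtain ⟨i, rfl⟩ := hμS w hw hwf hwP
      rw [haeq]
      exact AddValuation.map_le_sub _ (hwg i) (hb _ hw hwf)

end Pool.Agent.Work.MP_a2680c_ag.HA
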