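import Pool.Agent.Work.MP_a2680c_ag.HA.StmtsZ

/-!
# MP_a2680c_ag, block HA, item Zfn: finitely many zeros and poles
-/

set_option autoImplicit false

noncomputable section

namespace Pool.Agent.Work.MP_a2680c_ag.HA

open MP7b66e6 MP7b66e6.Q
open scoped BigOperators

universe u

namespace XZfn

section
variable {K E : Type u} [Field K] [Field E] [Algebra K E]

theorem poly_nonneg (w : AddValuation E (WithTop ℤ)) (h0 : ∀ c : K, 0 ≤ w (algebraMap K E c)) {s : E}
    (hs : 0 ≤ w s) (p : Polynomial K) : 0 ≤ w (Polynomial.aeval s p) := by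
  have h4 : Algebra.adjoin K {s} ≤ Api.ring w h0 := by
    rw [Algebra.adjoin_le_iff, Set.singleton_subset_iff]
    exact hs
  exact h4 (Polynomial.aeval_mem_adjoin_singleton K s)

theorem poly_zero (w : AddValuation E (WithTop ℤ)) (h0 : ∀ c : K, 0 ≤ w (algebraMap K E c)) {s : E}
    (hs : 0 < w s) (p : Polynomial K) (hp : p.coeff 0 ≠ 0) : w (Polynomial.aeval s p) = 0 := by
  rw [← Polynomial.divX_mul_X_add p, map_add, map_mul, Polynomial.aeval_X, Polynomial.aeval_C]
  have h1 : w (algebraMap K E (p.coeff 0)) = 0 := Api.val_algebraMap h0 hp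
  have h2 : 0 < w (Polynomial.aeval s p.divX * s) := by
    rw [AddValuation.map_mul]
    have h3 := poly_nonneg w h0 hs.le p.divX
    exact lt_of_lt_of_le hs (le_add_of_nonneg_left h3)
  rw [AddValuation.map_add_eq_of_lt_right w (by rw [h1]; exact h2), h1]

theorem alg_nonpos (w : AddValuation E (WithTop ℤ)) (h0 : ∀ c : K, 0 ≤ w (algebraMap K E c)) {s : E}
    (hs : s ≠ 0) (ha : IsAlgebraic K s) : ¬ 0 < w s := by
  intro h
  have h1 := poly_zero w h0 h (minpoly K s) (minpoly.coeff_zero_ne_zero ha.isIntegral hs)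
  rw [minpoly.aeval, AddValuation.map_zero] at h1
  exact absurd h1 (by simp)

/-- a relation with polynomial coefficients, not all divisible by the variable -/
theorem descent {n : ℕ} (s : E) (hs : s ≠ 0) (θ : Fin n → E) (i₀ : Fin n) : ∀ (d : ℕ) (p : Fin n → Polynomial K),
    (p i₀).natDegree ≤ d → p i₀ ≠ 0 → ∑ i, Polynomial.aeval s (p i) * θ i = 0 →
    ∃ q : Fin n → Polynomial K, (∃ i, (q i).coeff 0 ≠ 0) ∧ ∑ i, Polynomial.aeval s (q i) * θ i = 0 := by
  intro d
  induction d with
  | zero =>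
    intro p hd hp hsum
    refine ⟨p, ⟨i₀, ?_⟩, hsum⟩
    intro h
    apply hp
    rw [Polynomial.eq_C_of_natDegree_le_zero hd, h, Polynomial.C_0]
  | succ d ih =>
    intro p hd hp hsum
    by_cases h : ∃ i, (p i).coeff 0 ≠ 0
    · exact ⟨p, h, hsum⟩
    · push Not at h
      have h1 : ∀ i, p i = (p i).divX * Polynomial.X := by
        intro i
        conv_lhs => rw [← Polynomial.divX_mul_X_add (p i), h i, Polynomial.C_0, add_zero]
      refine ih (fun i => (p i).divX) ?_ ?_ ?_
      · rw [Polynomial.natDegree_divX_eq_natDegree_tsub_one]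
        omega
      · intro h2
        apply hp
        rw [h1 i₀, h2, zero_mul]
      · have h3 : s * ∑ i, Polynomial.aeval s ((p i).divX) * θ i = 0 := by
          rw [← hsum, Finset.mul_sum]
          refine Finset.sum_congr rfl fun i _ => ?_
          conv_rhs => rw [h1 i, map_mul, Polynomial.aeval_X]
          ring
        exact (mul_eq_zero.1 h3).resolve_left hs

/-- a relation over `K(s)` gives one with polynomial coefficients -/
theorem clear {n : ℕ} (s : E) (θ : Fin n → E) (c : Fin n → E)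
    (hc : ∀ i, ∃ r t : Polynomial K, c i = Polynomial.aeval s r / Polynomial.aeval s t)
    (hsum : ∑ i, c i * θ i = 0) (i₀ : Fin n) (hi : c i₀ ≠ 0) :
    ∃ p : Fin n → Polynomial K, p i₀ ≠ 0 ∧ ∑ i, Polynomial.aeval s (p i) * θ i = 0 := by
  classical
  have hc' : ∀ i, ∃ r t : Polynomial K, Polynomial.aeval s t ≠ 0 ∧
      c i * Polynomial.aeval s t = Polynomial.aeval s r := by
    intro i
    obtain ⟨r, t, h⟩ := hc i
    by_cases ht : Polynomial.aeval s t = 0
    · refine ⟨0, 1, by rw [map_one]; exact one_ne_zero, ?_⟩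
      rw [h, ht, div_zero, zero_mul, map_zero]
    · refine ⟨r, t, ht, ?_⟩
      rw [h, div_mul_cancel₀ _ ht]
  choose r t ht hrt using hc'
  refine ⟨fun i => r i * ∏ j ∈ Finset.univ.erase i, t j, ?_, ?_⟩
  · intro h
    have h1 := congrArg (Polynomial.aeval s) h
    rw [map_zero, map_mul, map_prod, ← hrt i₀] at h1
    refine mul_ne_zero (mul_ne_zero hi (ht i₀)) ?_ h1
    exact Finset.prod_ne_zero_iff.2 fun j _ => ht j
  · have h2 : ∀ i, Polynomial.aeval s (r i * ∏ j ∈ Finset.univ.erase i, t j) * θ i =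
        (∏ j, Polynomial.aeval s (t j)) * (c i * θ i) := by
      intro i
      rw [map_mul, map_prod, ← hrt i, ← Finset.mul_prod_erase Finset.univ (fun j => Polynomial.aeval s (t j))
        (Finset.mem_univ i)]
      ring
    rw [Finset.sum_congr rfl fun i _ => h2 i, ← Finset.mul_sum, hsum, mul_zero]

/-- `E` is finite over `K(s)` -/
theorem finite_over (hF : FFn K E) (s : E) (hs : Transcendental K s) :
    FiniteDimensional (IntermediateField.adjoin K {s}) E := by
  obtain ⟨hess, x, hx⟩ := hF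
  obtain ⟨y, hy⟩ : ∃ y : Fin 1 → E, y = fun _ => s := ⟨_, rfl⟩
  have hyi : AlgebraicIndependent K y := by
    rw [algebraicIndependent_singleton_iff (0 : Fin 1), hy]
    exact hs
  have hyb : IsTranscendenceBasis K y := by
    apply hyi.isTranscendenceBasis_of_lift_trdeg_le_of_finite
    have h := hx.lift_cardinalMk_eq_trdeg
    rw [← h]
  have hr : Set.range y = {s} := by
    rw [hy]
    exact Set.range_const
  have halg : Algebra.IsAlgebraic (IntermediateField.adjoin K (Set.range y)) E :=
    hyb.isAlgebraic_field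
  rw [hr] at halg
  have hess' : Algebra.EssFiniteType (IntermediateField.adjoin K {s}) E :=
    Algebra.EssFiniteType.of_comp K _ E
  exact Algebra.finite_of_essFiniteType_of_isAlgebraic

/-- no more than `[E : K(s)]` zeros -/
theorem zeros (hAPX : StAPX.{u}) (hF : FFn K E) (s : E) (hs : Transcendental K s) :
    {w : AddValuation E (WithTop ℤ) | Plc K w ∧ 0 < w s}.Finite := by
  classical
  have hs0 : s ≠ 0 := by
    rintro rfl
    exact hs isAlgebraic_zero
  have hfin := finite_over hF s hs
  by_contra hinf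
  obtain ⟨T, hT, hcard⟩ := Set.Infinite.exists_subset_card_eq hinf
    (Module.finrank (IntermediateField.adjoin K {s}) E + 1)
  obtain ⟨e⟩ : Nonempty (Fin (Module.finrank (IntermediateField.adjoin K {s}) E + 1) ≃ T) :=
    ⟨(T.equivFinOfCardEq hcard).symm⟩
  obtain ⟨w, hw⟩ : ∃ w : Fin (Module.finrank (IntermediateField.adjoin K {s}) E + 1) →
      AddValuation E (WithTop ℤ), ∀ i, w i = (e i : AddValuation E (WithTop ℤ)) := ⟨_, fun _ => rfl⟩
  have hinj : ∀ i j, w i = w j → i = j := by
    intro i j h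
    rw [hw, hw] at h
    exact e.injective (Subtype.ext h)
  have hpl : ∀ i, Plc K (w i) ∧ 0 < w i s := fun i => by
    rw [hw]
    exact hT (e i).2
  have hap : ∀ i, ∃ θ : E, 1 ≤ w i (θ - 1) ∧ ∀ j, j ≠ i → 1 ≤ w j θ := by
    intro i
    obtain ⟨θ, h1, h2⟩ := hAPX E {j : Fin (Module.finrank (IntermediateField.adjoin K {s}) E + 1) // j ≠ i}
      (w i) (fun j => w j.1) (hpl i).1.1 (fun j => (hpl j.1).1.1)
      (fun j h => j.2 (hinj _ _ h)) 1
    refine ⟨θ, ?_, fun j hj => ?_⟩
    · simpa using h1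
    · simpa using h2 ⟨j, hj⟩
  choose θ hθ1 hθ2 using hap
  have hθ0 : ∀ i, w i (θ i) = 0 := by
    intro i
    have h1 : θ i = 1 + (θ i - 1) := by ring
    rw [h1, AddValuation.map_add_eq_of_lt_left, AddValuation.map_one]
    rw [AddValuation.map_one]
    exact lt_of_lt_of_le zero_lt_one (hθ1 i)
  -- a relation
  have hdep : ¬ LinearIndependent (IntermediateField.adjoin K {s}) θ := by
    intro h
    have h1 := h.fintype_card_le_finrank
    rw [Fintype.card_fin] at h1
    omega
  rw [Fintype.not_linearIndependent_iff] at hdep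
  obtain ⟨c, hsum, i₀, hi₀⟩ := hdep
  obtain ⟨p, hp, hpsum⟩ := clear s θ (fun i => (c i : E))
    (fun i => IntermediateField.mem_adjoin_simple_iff K _ |>.1 (c i).2) hsum i₀
    (fun h => hi₀ (Subtype.ext h))
  obtain ⟨q, ⟨i, hi⟩, hqsum⟩ := descent s hs0 θ i₀ _ p le_rfl hp hpsum
  rw [← Finset.add_sum_erase _ _ (Finset.mem_univ i)] at hqsum
  have h1 : w i (Polynomial.aeval s (q i) * θ i) = 0 := by
    rw [AddValuation.map_mul, hθ0, poly_zero (w i) (hpl i).1.2 (hpl i).2 _ hi, add_zero]
  have h2 : (1 : WithTop ℤ) ≤ w i (∑ j ∈ Finset.univ.erase i, Polynomial.aeval s (q j) * θ j) := by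
    apply AddValuation.map_le_sum
    intro j hj
    rw [AddValuation.map_mul]
    have h3 := poly_nonneg (w i) (hpl i).1.2 (hpl i).2.le (q j)
    have h4 := hθ2 j i (Finset.ne_of_mem_erase hj).symm
    exact le_trans h4 (le_add_of_nonneg_left h3)
  rw [eq_neg_of_add_eq_zero_left hqsum, AddValuation.map_neg] at h1
  rw [h1] at h2
  exact absurd h2 (by decide)

end

end XZfn

theorem pr_Zfn (hAPX : StAPX.{u}) : StZfn.{u} := by
  intro K E _ _ _ _ hF s hs
  by_cases ha : IsAlgebraic K s
  · have h1 : {w : AddValuation E (WithTop ℤ) | Plc K w ∧ val w s ≠ 0} = ∅ := by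
      apply Set.eq_empty_of_forall_notMem
      rintro w ⟨hw, hv⟩
      have h2 := XZfn.alg_nonpos w hw.2 hs ha
      have h3 := XZfn.alg_nonpos w hw.2 (inv_ne_zero hs) ha.inv
      rw [Api.coe_val w hs] at h2
      rw [Api.coe_val w (inv_ne_zero hs), Api.val_inv w hs] at h3
      rw [← WithTop.coe_zero, WithTop.coe_lt_coe] at h2 h3
      omega
    rw [h1]
    exact Set.finite_empty
  · have ht : Transcendental K s := ha
    have ht' : Transcendental K s⁻¹ := by
      intro h
      apply ha
      have := h.inv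
      rwa [inv_inv] at this
    refine ((XZfn.zeros hAPX hF s ht).union (XZfn.zeros hAPX hF s⁻¹ ht')).subset ?_
    rintro w ⟨hw, hv⟩
    rcases lt_or_gt_of_ne hv with h | h
    · right
      refine ⟨hw, ?_⟩
      rw [Api.coe_val w (inv_ne_zero hs), Api.val_inv w hs, ← WithTop.coe_zero, WithTop.coe_lt_coe]
      omega
    · left
      refine ⟨hw, ?_⟩
      rw [Api.coe_val w hs, ← WithTop.coe_zero, WithTop.coe_lt_coe]
      exact h

end Pool.Agent.Work.MP_a2680c_ag.HA
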