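import Pool.Agent.Work.MP_a2680c_ag.HA.StmtsZ

/-!
# MP_a2680c_ag, block HA, item Zfo: finitely many extensions of a valuation
-/

set_option autoImplicit false

noncomputable section

namespace Pool.Agent.Work.MP_a2680c_ag.HA

open MP7b66e6 MP7b66e6.Q
open scoped BigOperators

universe u

namespace XZfo

variable {E₁ E : Type u} [Field E₁] [Field E] [Algebra E₁ E]

/-- elements of nonnegative value below have nonnegative value above -/
theorem nonneg_up {v : AddValuation E₁ (WithTop ℤ)} {w : AddValuation E (WithTop ℤ)} {e : ℕ}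
    (h : Lies v w e) {c : E₁} (hc : 0 ≤ v c) : 0 ≤ w (algebraMap E₁ E c) := by
  by_cases h0 : c = 0
  · rw [h0, map_zero, AddValuation.map_zero]
    exact le_top
  · have h1 : algebraMap E₁ E c ≠ 0 := by
      rw [Ne, FaithfulSMul.algebraMap_eq_zero_iff]
      exact h0
    rw [← Api.val_nonneg w h1, h.2 c h0]
    rw [← Api.val_nonneg v h0] at hc
    positivity

end XZfo

open XZfo in
theorem pr_Zfo (hAPX : StAPX.{u}) : StZfo.{u} := by
  intro E₁ E _ _ _ _ v _
  by_contra hinf
  have hinf' : {w : AddValuation E (WithTop ℤ) | Ovr v w}.Infinite := hinf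
  let W : Fin (Module.finrank E₁ E + 1) → AddValuation E (WithTop ℤ) :=
    fun i => ((hinf'.natEmbedding _) i.val : AddValuation E (WithTop ℤ))
  have hWinj : Function.Injective W := by
    intro i j hij
    exact Fin.ext ((hinf'.natEmbedding _).injective (Subtype.ext hij))
  have hWo : ∀ i, Ovr v (W i) := fun i => ((hinf'.natEmbedding _) i.val).2
  have hex : ∀ i, ∃ θ : E, (1 : WithTop ℤ) ≤ W i (θ - 1) ∧
      ∀ j, j ≠ i → (1 : WithTop ℤ) ≤ W j θ := by
    intro i
    obtain ⟨θ, h1, h2⟩ := hAPX E {j : Fin (Module.finrank E₁ E + 1) // j ≠ i} (W i)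
      (fun j => W j.1) (hWo i).1 (fun j => (hWo j.1).1)
      (fun j h => j.2 (hWinj h)) 1
    refine ⟨θ, ?_, fun j hj => ?_⟩
    · exact_mod_cast h1
    · exact_mod_cast h2 ⟨j, hj⟩
  choose θ hθ1 hθ2 using hex
  have hlin : LinearIndependent E₁ θ := by
    rw [Fintype.linearIndependent_iff]
    intro g hg
    by_contra hne
    push Not at hne
    obtain ⟨i₁, hi₁⟩ := hne
    obtain ⟨i₀, hi₀⟩ := Finite.exists_min (fun i => v (g i))
    have hg0 : g i₀ ≠ 0 := by
      intro h
      have h1 := hi₀ i₁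
      simp only [h, AddValuation.map_zero, top_le_iff] at h1
      rw [AddValuation.top_iff] at h1
      exact hi₁ h1
    have hv0 : v (g i₀) ≠ ⊤ := fun h => hg0 ((AddValuation.top_iff v).1 h)
    have hc : ∀ i, 0 ≤ v ((g i₀)⁻¹ * g i) := by
      intro i
      by_cases h0 : g i = 0
      · rw [h0, mul_zero, AddValuation.map_zero]
        exact le_top
      · have h1 : (g i₀)⁻¹ * g i ≠ 0 := mul_ne_zero (inv_ne_zero hg0) h0
        rw [← Api.val_nonneg v h1, Api.val_mul v (inv_ne_zero hg0) h0, Api.val_inv v hg0]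
        have h2 := hi₀ i
        simp only [Api.coe_val v hg0, Api.coe_val v h0, WithTop.coe_le_coe] at h2
        omega
    have hsum : θ i₀ + ∑ i ∈ Finset.univ.erase i₀, algebraMap E₁ E ((g i₀)⁻¹ * g i) * θ i = 0 := by
      have h1 : ∑ i, algebraMap E₁ E ((g i₀)⁻¹ * g i) * θ i = 0 := by
        have h2 := congrArg (fun z => (g i₀)⁻¹ • z) hg
        simp only [smul_zero, Finset.smul_sum] at h2
        rw [← h2]
        refine Finset.sum_congr rfl fun i _ => ?_
        rw [smul_smul, Algebra.smul_def]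
      rw [← Finset.add_sum_erase _ _ (Finset.mem_univ i₀), inv_mul_cancel₀ hg0, map_one,
        one_mul] at h1
      exact h1
    obtain ⟨-, e, he⟩ := hWo i₀
    have h3 : (1 : WithTop ℤ) ≤
        W i₀ (∑ i ∈ Finset.univ.erase i₀, algebraMap E₁ E ((g i₀)⁻¹ * g i) * θ i) := by
      refine AddValuation.map_le_sum (W i₀) fun i hi => ?_
      rw [AddValuation.map_mul]
      have h4 := hθ2 i i₀ (Finset.ne_of_mem_erase hi).symm
      have h5 := nonneg_up he (hc i)
      calc (1 : WithTop ℤ) = 0 + 1 := (zero_add 1).symm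
        _ ≤ _ := add_le_add h5 h4
    have h6 : (1 : E) = - ((θ i₀ - 1) +
        ∑ i ∈ Finset.univ.erase i₀, algebraMap E₁ E ((g i₀)⁻¹ * g i) * θ i) := by
      linear_combination hsum
    have h7 : (1 : WithTop ℤ) ≤ W i₀ 1 := by
      rw [h6, AddValuation.map_neg]
      exact AddValuation.map_le_add (W i₀) (hθ1 i₀) h3
    rw [AddValuation.map_one] at h7
    have h8 : (1 : ℤ) ≤ 0 := by exact_mod_cast h7
    omega
  have hcard := hlin.fintype_card_le_finrank
  rw [Fintype.card_fin] at hcard
  omega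

end Pool.Agent.Work.MP_a2680c_ag.HA
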