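import Pool.Agent.Work.MP_a2680c_ag.HA.StmtsZ
import Pool.Agent.Work.MP_a2680c_ag.HA.I_Dim
import Pool.Agent.Work.MP_a2680c_ag.HA.I_Gex

/-!
# MP_a2680c_ag, block HA, item Zgo (helper41): the quotient of a curve of genus one
-/

set_option autoImplicit false

noncomputable section

namespace Pool.Agent.Work.MP_a2680c_ag.HA

open MP7b66e6 MP7b66e6.Q
open scoped BigOperators

universe u

namespace XZgo

theorem cg_apply {E F : Type u} [Field E] [Field F] [Algebra E F] (g : F ≃ₐ[E] F)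
    (v : AddValuation F (WithTop ℤ)) (f : F) : cg g v f = v (g f) := rfl

theorem cg_cg {E F : Type u} [Field E] [Field F] [Algebra E F] (g : F ≃ₐ[E] F)
    (v w : AddValuation F (WithTop ℤ)) (h : cg g v = w) : v = cg g.symm w := by
  subst h
  apply AddValuation.ext
  intro f
  rw [cg_apply, cg_apply, AlgEquiv.apply_symm_apply]

section
variable {K₁ F₁ : Type u} [Field K₁] [Field F₁] [Algebra K₁ F₁]

theorem val_neg_three {P : AddValuation F₁ (WithTop ℤ)} (hP : Plc K₁ P) [CharZero K₁] {X Y : F₁}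
    {a b : K₁} (hX : P X = ((-2 : ℤ) : WithTop ℤ))
    (h : Y ^ 2 = 4 * X ^ 3 + 4 * algebraMap K₁ F₁ a * X + 4 * algebraMap K₁ F₁ b) : Y ≠ 0 := by
  rintro rfl
  have h2 : (4 : F₁) = algebraMap K₁ F₁ 4 := by
    rw [map_ofNat]
  have h4 : P (4 : F₁) = 0 := by
    rw [h2]
    have h5 := hP.2 4
    have h6 := hP.2 4⁻¹
    have h7 : P (algebraMap K₁ F₁ 4) + P (algebraMap K₁ F₁ 4⁻¹) = 0 := by
      rw [← AddValuation.map_mul, ← map_mul, mul_inv_cancel₀ (by norm_num : (4 : K₁) ≠ 0),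
        map_one, AddValuation.map_one]
    refine le_antisymm ?_ h5
    calc P (algebraMap K₁ F₁ 4) = P (algebraMap K₁ F₁ 4) + 0 := (add_zero _).symm
      _ ≤ P (algebraMap K₁ F₁ 4) + P (algebraMap K₁ F₁ 4⁻¹) := add_le_add le_rfl h6
      _ = 0 := h7
  have h5 : 4 * X ^ 3 = -(4 * algebraMap K₁ F₁ a * X + 4 * algebraMap K₁ F₁ b) := by
    have h6 : (0 : F₁) ^ 2 = 0 := by norm_num
    rw [h6] at h
    linear_combination -h
  have h6 : P (4 * X ^ 3) = ((-6 : ℤ) : WithTop ℤ) := by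
    rw [AddValuation.map_mul, h4, zero_add, pow_succ, pow_two, AddValuation.map_mul,
      AddValuation.map_mul, hX]
    rfl
  have h7 : ((-2 : ℤ) : WithTop ℤ) ≤ P (4 * algebraMap K₁ F₁ a * X + 4 * algebraMap K₁ F₁ b) := by
    refine le_trans (le_min ?_ ?_) (P.map_add _ _)
    · rw [AddValuation.map_mul, AddValuation.map_mul, h4, zero_add, hX]
      calc ((-2 : ℤ) : WithTop ℤ) = 0 + ((-2 : ℤ) : WithTop ℤ) := (zero_add _).symm
        _ ≤ P (algebraMap K₁ F₁ a) + ((-2 : ℤ) : WithTop ℤ) := add_le_add (hP.2 a) le_rfl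
    · rw [AddValuation.map_mul, h4, zero_add]
      refine le_trans ?_ (hP.2 b)
      exact_mod_cast (by norm_num : (-2 : ℤ) ≤ 0)
  rw [← AddValuation.map_neg, ← h5, h6] at h7
  have h8 := WithTop.coe_le_coe.1 h7
  omega

end

end XZgo

open XZgo in
theorem pr_Zgo (hZrp : StZrp.{u}) (hZrs : StZrs.{u}) (hZbo : StZbo.{u}) (hZwe : StZwe.{u})
    (hZsg : StZsg.{u}) (hZpt : StZpt.{u}) (hZur : StZur.{u}) : StZgo.{u} := by
  intro K E _ _ _ _ hF hG
  obtain ⟨hC, θ, hθ⟩ := hG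
  have hodr : ∀ w : AddValuation E (WithTop ℤ), Plc K w → Odr w θ 0 := hθ
  obtain ⟨K₁, F₁, _, _, _, _, _, _, _, _, _, _, _, _, P, hgen, hF₁, hC₁, hP, hR⟩ := hZrp K E hF hC
  have hK₁ : CharZero K₁ := charZero_of_injective_algebraMap (algebraMap K K₁).injective
  have hE : CharZero E := charZero_of_injective_algebraMap (algebraMap K E).injective
  obtain ⟨θ₁, hθ₁, hcomm, hord⟩ := hZbo K E K₁ F₁ hgen hF hF₁ θ
  obtain ⟨-, hZ2, -⟩ := hZrs K E K₁ F₁ hgen hF
  have hodr₁ : ∀ W : AddValuation F₁ (WithTop ℤ), Plc K₁ W → Odr W θ₁ 0 := by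
    intro W hW
    obtain ⟨w, hw, hL⟩ := hZ2 W hW
    exact (hord W w 1 0 hW hw hL (hodr w hw)).2
  obtain ⟨X, a, b, hW⟩ := hZwe K₁ F₁ hF₁ hC₁ θ₁ hodr₁ P hP hR
  -- the action on `K₁`
  have hact : ∀ (σ : F₁ ≃ₐ[E] F₁) (c : K₁), ∃ c' : K₁, algebraMap K₁ F₁ c' =
      σ (algebraMap K₁ F₁ c) := by
    intro σ c
    apply hC₁
    have h1 : IsAlgebraic K c := Algebra.IsAlgebraic.isAlgebraic c
    have h2 : IsAlgebraic K (algebraMap K₁ F₁ c) := h1.algebraMap
    have h3 : IsAlgebraic K ((σ.restrictScalars K) (algebraMap K₁ F₁ c)) :=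
      h2.algHom ((σ.restrictScalars K : F₁ ≃ₐ[K] F₁) : F₁ →ₐ[K] F₁)
    exact h3.tower_top K₁
  have hplc : ∀ (σ : F₁ ≃ₐ[E] F₁) (W : AddValuation F₁ (WithTop ℤ)), Plc K₁ W →
      Plc K₁ (cg σ W) := by
    intro σ W hW
    obtain ⟨⟨π, hπ⟩, h0⟩ := hW
    refine ⟨⟨σ.symm π, ?_⟩, fun c => ?_⟩
    · rw [cg_apply, AlgEquiv.apply_symm_apply]
      exact hπ
    · obtain ⟨c', hc'⟩ := hact σ c
      rw [cg_apply, ← hc']
      exact h0 c'
  have hinv : ∀ σ : F₁ ≃ₐ[E] F₁, σ (algebraMap K₁ F₁ a) = algebraMap K₁ F₁ a ∧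
      σ (algebraMap K₁ F₁ b) = algebraMap K₁ F₁ b := by
    intro σ
    obtain ⟨a', ha'⟩ := hact σ a
    obtain ⟨b', hb'⟩ := hact σ b
    have hP' : Plc K₁ (cg σ.symm P) := hplc σ.symm P hP
    have hR' : Rtl K₁ (cg σ.symm P) := by
      intro f hf
      obtain ⟨c, hc⟩ := hR (σ.symm f) hf
      obtain ⟨c', hc'⟩ := hact σ c
      refine ⟨c', ?_⟩
      rw [cg_apply, map_sub, hc', AlgEquiv.symm_apply_apply]
      exact hc
    have hW' : Wei θ₁ (cg σ.symm P) (σ X) a' b' := by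
      refine ⟨?_, ?_, ?_⟩
      · rw [cg_apply, AlgEquiv.symm_apply_apply]
        exact hW.1
      · intro w hw hne
        have h1 := hW.2.1 (cg σ w) (hplc σ w hw) (fun h => hne (cg_cg σ w P h))
        exact h1
      · rw [← hcomm, ← map_pow, hW.2.2, ha', hb', map_add, map_add, map_mul, map_mul, map_mul,
          map_mul, map_pow, map_ofNat]
    obtain ⟨h1, h2⟩ := hZsg K₁ F₁ hF₁ hC₁ θ₁ hodr₁ P (cg σ.symm P) hP hR hP' hR' X (σ X) a b a' b'
      hW hW'
    exact ⟨by rw [← ha', ← h1], by rw [← hb', ← h2]⟩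
  have hdown : ∀ c : K₁, (∀ σ : F₁ ≃ₐ[E] F₁, σ (algebraMap K₁ F₁ c) = algebraMap K₁ F₁ c) →
      ∃ c₀ : K, algebraMap E F₁ (algebraMap K E c₀) = algebraMap K₁ F₁ c := by
    intro c hc
    obtain ⟨f, hf⟩ := (IsGalois.mem_range_algebraMap_iff_fixed (F := E) (E := F₁)
      (algebraMap K₁ F₁ c)).2 hc
    have h1 : IsAlgebraic K c := Algebra.IsAlgebraic.isAlgebraic c
    have h2 : IsAlgebraic K (algebraMap K₁ F₁ c) := h1.algebraMap
    rw [← hf] at h2
    have h3 : IsAlgebraic K f := (isAlgebraic_algebraMap_iff (algebraMap E F₁).injective).1 h2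
    obtain ⟨c₀, hc₀⟩ := hC f h3
    exact ⟨c₀, by rw [hc₀, hf]⟩
  obtain ⟨a₀, ha₀⟩ := hdown a fun σ => (hinv σ).1
  obtain ⟨b₀, hb₀⟩ := hdown b fun σ => (hinv σ).2
  have hθX : θ₁ X ≠ 0 := val_neg_three hP hW.1 hW.2.2
  obtain ⟨X₀, Y₀, N, hN, hY₀, heq, hder⟩ := hZpt E F₁ (θ₁.restrictScalars ℤ) (algebraMap K E a₀)
    (algebraMap K E b₀) X hcomm
    (by
      rw [ha₀]
      exact θ₁.map_algebraMap a)
    (by
      rw [hb₀]
      exact θ₁.map_algebraMap b)
    hθX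
    (by
      rw [ha₀, hb₀]
      exact hW.2.2)
  have hder' : θ X₀ = 2 * (N : E) * Y₀ := by
    apply (algebraMap E F₁).injective
    rw [← hθ₁, map_mul, map_mul, map_natCast, map_ofNat]
    exact hder
  have hne : θ X₀ ≠ 0 := by
    rw [hder']
    refine mul_ne_zero (mul_ne_zero two_ne_zero ?_) hY₀
    exact Nat.cast_ne_zero.2 (by omega)
  have htr : Transcendental K X₀ := by
    intro hal
    obtain ⟨c, hc⟩ := hC X₀ hal
    rw [← hc, θ.map_algebraMap] at hne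
    exact hne rfl
  have hind : AlgebraicIndependent K (fun _ : Fin 1 => X₀) :=
    algebraicIndependent_unique_type_iff.2 htr
  obtain ⟨hess, x, hx⟩ := hF
  have h4 : Algebra.trdeg K E = ((1 : ℕ) : Cardinal) := XDim.trdeg_of hx
  have hbas : IsTranscendenceBasis K (fun _ : Fin 1 => X₀) := by
    refine hind.isTranscendenceBasis_of_lift_trdeg_le_of_finite ?_
    rw [h4, Cardinal.mk_fin, Cardinal.lift_natCast, Cardinal.lift_natCast]
  set L := IntermediateField.adjoin K (Set.range (fun _ : Fin 1 => X₀)) with hL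
  set z : Fin 1 → L := fun i => ⟨X₀, IntermediateField.subset_adjoin K _ ⟨i, rfl⟩⟩ with hz
  have hgz : GenBy K z := XGex.genBy K E (fun _ : Fin 1 => X₀) hind z fun _ => rfl
  have h1 : Algebra.IsAlgebraic L E := hbas.isAlgebraic_field
  have h2 : Algebra.EssFiniteType L E := Algebra.EssFiniteType.of_comp K _ E
  have h3 : FiniteDimensional L E := Algebra.finite_of_essFiniteType_of_isAlgebraic
  have hzX : algebraMap L E (z 0) = X₀ := rfl
  have hur := hZur K L E z hgz ⟨hess, x, hx⟩ θ hodr a₀ b₀ Y₀ N hN hY₀ (by rw [hzX]; exact heq)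
    (by rw [hzX]; exact hder')
  have hCL : ∀ f : L, IsAlgebraic K f → ∃ c : K, algebraMap K L c = f := by
    intro f hf
    have h5 : IsAlgebraic K (f : E) := hf.algebraMap (A := E)
    obtain ⟨c, hc⟩ := hC f h5
    exact ⟨c, Subtype.ext hc⟩
  have hessL : Algebra.EssFiniteType K L := by
    rw [hL, IntermediateField.essFiniteType_iff]
    exact IntermediateField.fg_adjoin_of_finite (Set.finite_range _)
  refine ⟨L, inferInstance, inferInstance, inferInstance, inferInstance, h3, ⟨hCL, ?_⟩, ?_, hur⟩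
  · refine ⟨K, L, inferInstance, inferInstance, inferInstance, inferInstance, inferInstance,
      inferInstance, inferInstance, inferInstance, inferInstance, inferInstance, z, ?_, hgz.1,
      hgz.2⟩
    exact top_le_iff.1 fun x _ => IntermediateField.algebraMap_mem _ x
  · exact ⟨hessL, z, XDim.basis_gen z hgz.1 hgz.2⟩

end Pool.Agent.Work.MP_a2680c_ag.HA
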