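import Pool.Agent.Work.MP_a2680c_ag.HA.StmtsZ

/-!
# MP_a2680c_ag, block HA, item Zgr: conics
-/

set_option autoImplicit false

noncomputable section

namespace Pool.Agent.Work.MP_a2680c_ag.HA

open MP7b66e6 MP7b66e6.Q
open scoped BigOperators

universe u

namespace XZgr

/-- `F₁` is the `E`-span of the image of `K₁` -/
theorem span_top (E K₁ F₁ : Type u) [Field E] [Field K₁] [Field F₁] [Algebra E F₁] [Algebra K₁ F₁]
    [FiniteDimensional E F₁] (h : IntermediateField.adjoin E (Set.range (algebraMap K₁ F₁)) = ⊤) :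
    Submodule.span E (Set.range (algebraMap K₁ F₁)) = ⊤ := by
  have h1 : Algebra.adjoin E (Set.range (algebraMap K₁ F₁)) = ⊤ := by
    rw [← IntermediateField.adjoin_toSubalgebra, h]
    rfl
  have h2 := Algebra.adjoin_eq_span (R := E) (s := Set.range (algebraMap K₁ F₁))
  rw [h1] at h2
  have h3 : Submonoid.closure (Set.range (algebraMap K₁ F₁)) =
      MonoidHom.mrange (algebraMap K₁ F₁ : K₁ →* F₁) := by
    have h4 : (Set.range (algebraMap K₁ F₁)) =
        ((MonoidHom.mrange (algebraMap K₁ F₁ : K₁ →* F₁) : Submonoid F₁) : Set F₁) := by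
      ext x
      simp
    rw [h4, Submonoid.closure_eq]
  rw [h3] at h2
  have h5 : ((MonoidHom.mrange (algebraMap K₁ F₁ : K₁ →* F₁) : Submonoid F₁) : Set F₁) =
      Set.range (algebraMap K₁ F₁) := by
    ext x
    simp
  rw [h5] at h2
  rw [← h2]
  rfl

/-- if all the traces of `a g`, `a ∈ K₁`, are `0` then `g = 0` -/
theorem zero_of_trace (E K₁ F₁ : Type u) [Field E] [Field K₁] [Field F₁] [Algebra E F₁] [Algebra K₁ F₁]
    [CharZero E] [FiniteDimensional E F₁]
    (h : IntermediateField.adjoin E (Set.range (algebraMap K₁ F₁)) = ⊤) (g : F₁)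
    (hg : ∀ a : K₁, Algebra.trace E F₁ (algebraMap K₁ F₁ a * g) = 0) : g = 0 := by
  by_contra hne
  have h1 : ∀ b : F₁, Algebra.trace E F₁ (b * g) = 0 := by
    intro b
    have hb : b ∈ Submodule.span E (Set.range (algebraMap K₁ F₁)) := by
      rw [span_top E K₁ F₁ h]
      exact Submodule.mem_top
    induction hb using Submodule.span_induction with
    | mem x hx =>
      obtain ⟨a, rfl⟩ := hx
      exact hg a
    | zero => rw [zero_mul, map_zero]
    | add x y _ _ hx hy => rw [add_mul, map_add, hx, hy, add_zero]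
    | smul c x _ hx => rw [smul_mul_assoc, map_smul, hx, smul_zero]
  have h2 := h1 g⁻¹
  rw [inv_mul_cancel₀ hne] at h2
  have h3 := Algebra.trace_algebraMap (R := E) (S := F₁) 1
  rw [map_one, h2] at h3
  have h4 : (Module.finrank E F₁ : E) = 0 := by
    rw [← nsmul_one, ← h3]
  have h5 : Module.finrank E F₁ ≠ 0 := Module.finrank_pos.ne'
  exact h5 (by exact_mod_cast h4)

end XZgr

open XZgr

theorem pr_Zgr (hZrp : StZrp.{u}) (hZrs : StZrs.{u}) (hZbo : StZbo.{u}) (hZod : StZod.{u})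
    (hZex : StZex.{u}) (hZdg : StZdg.{u}) : StZgr.{u} := by
  intro K E _ _ _ _ hF hC θ hθ hN
  obtain ⟨K₁, F₁, i1, i2, i3, i4, i5, i6, i7, i8, i9, i10, i11, i12, P, hadj, hF1, hC1, hP, hR⟩ :=
    hZrp K E hF hC
  obtain ⟨θ₁, h1, -, h3⟩ := hZbo K E K₁ F₁ hadj hF hF1 θ
  obtain ⟨ra, -, rc⟩ := hZrs K E K₁ F₁ hadj hF
  have : CharZero K₁ := charZero_of_injective_algebraMap (algebraMap K K₁).injective
  have : CharZero E := charZero_of_injective_algebraMap (algebraMap K E).injective
  -- the claim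
  have hN1 : Nsp θ₁ (fun _ => 0) := by
    intro g hg
    refine zero_of_trace E K₁ F₁ hadj g fun a => ?_
    refine hN _ ?_
    intro w c hw hc
    obtain ⟨W, m, hW, hL⟩ := ra w hw
    obtain ⟨hm, hc1⟩ := h3 W w m c hW hw hL hc
    have hterm : ∀ σ : F₁ ≃ₐ[E] F₁, ((c : ℤ) : WithTop ℤ) ≤ W (σ (algebraMap K₁ F₁ a * g)) := by
      intro σ
      obtain ⟨hW', hL'⟩ := rc W w m σ hW hL
      obtain ⟨-, hc'⟩ := h3 (cg σ W) w m c hW' hw hL' hc
      have e1 := hg (cg σ W) c hW' hc'
      have e2 := hW'.2 a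
      have e3 : W (σ (algebraMap K₁ F₁ a * g)) = (cg σ W) (algebraMap K₁ F₁ a) + (cg σ W) g := by
        rw [← AddValuation.map_mul]
        rfl
      rw [e3]
      simp only [add_zero] at e1
      calc ((c : ℤ) : WithTop ℤ) = 0 + ((c : ℤ) : WithTop ℤ) := (zero_add _).symm
        _ ≤ _ := add_le_add e2 e1
    have hsum : ((c : ℤ) : WithTop ℤ) ≤ W (algebraMap E F₁
        (Algebra.trace E F₁ (algebraMap K₁ F₁ a * g))) := by
      rw [trace_eq_sum_automorphisms]
      exact AddValuation.map_le_sum W fun σ _ => hterm σ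
    simp only [add_zero]
    by_cases ht : Algebra.trace E F₁ (algebraMap K₁ F₁ a * g) = 0
    · rw [ht, AddValuation.map_zero]
      exact le_top
    · have ht' : algebraMap E F₁ (Algebra.trace E F₁ (algebraMap K₁ F₁ a * g)) ≠ 0 := by
        rw [map_ne_zero_iff _ (algebraMap E F₁).injective]
        exact ht
      have e4 := hL.2 _ ht
      rw [hm, Nat.cast_one, one_mul] at e4
      rw [Api.coe_val W ht', e4] at hsum
      rw [Api.coe_val w ht]
      exact hsum
  have hθ1 : θ₁ ≠ 0 := by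
    intro h0
    apply hθ
    ext f
    have e1 := h1 f
    rw [h0] at e1
    have e2 : algebraMap E F₁ (θ f) = 0 := by
      rw [← e1]
      rfl
    rw [map_eq_zero_iff _ (algebraMap E F₁).injective] at e2
    rw [e2]
    rfl
  obtain ⟨y, hy1, hy2⟩ := hZex K₁ F₁ hF1 θ₁ hθ1 (fun _ => 0) (by simp) hN1 P hP
  have hy3 : P y = ((-1 : ℤ) : WithTop ℤ) := by
    rw [hy1]
    norm_num
  have hyt : ¬ IsAlgebraic K₁ y := by
    intro hal
    obtain ⟨c, hc⟩ := hC1 y hal
    have e1 := hP.2 c
    rw [hc, hy3, ← WithTop.coe_zero, WithTop.coe_le_coe] at e1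
    omega
  obtain ⟨hfd, hfr⟩ := hZdg K₁ F₁ hF1 hC1 1 (fun _ => P) (fun _ => ⟨hP, hR⟩) y hyt (by
    intro w hw
    by_cases hwP : P = w
    · subst hwP
      have e1 : {i : Fin 1 | P = P} = Set.univ := by
        ext i
        simp
      rw [e1, Set.ncard_univ, hy3]
      simp
    · have e1 : {i : Fin 1 | P = w} = ∅ := by
        ext i
        simp [hwP]
      rw [e1, Set.ncard_empty]
      have e2 := hy2 w hw (fun h => hwP h.symm)
      simpa using e2)
  have htop : IntermediateField.adjoin K₁ {y} = ⊤ := by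
    rw [← IntermediateField.finrank_eq_one_iff_eq_top]
    have e1 : 0 < Module.finrank (IntermediateField.adjoin K₁ {y}) F₁ := Module.finrank_pos
    omega
  refine ⟨hC, K₁, F₁, i1, i2, i3, i4, i5, i6, i7, i8, i9, i10, fun _ => y, hadj, ?_, ?_⟩
  · exact algebraicIndependent_unique_type_iff.2 hyt
  · rw [Set.range_const]
    exact htop

end Pool.Agent.Work.MP_a2680c_ag.HA
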