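import Pool.Agent.Work.MP_a2680c_ag.HA.StmtsZ
import Pool.Agent.Work.MP_a2680c_ag.HA.I_Cls
import Pool.Agent.Work.MP_a2680c_ag.HA.Api

/-!
# MP_a2680c_ag, block HA, item Zhi: vanishing of `H^1` and duality
-/

set_option autoImplicit false

noncomputable section

namespace Pool.Agent.Work.MP_a2680c_ag.HA

open MP7b66e6 MP7b66e6.Q
open scoped BigOperators

universe u

namespace XZhi

section
variable {K F : Type u} [Field K] [Field F] [Algebra K F]

/-- domination of the leading term -/
theorem dom (w : AddValuation F (WithTop ℤ)) (hK : ∀ c : K, 0 ≤ w (algebraMap K F c)) {f : F}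
    (hf : w f < 0) (p : Polynomial K) (hp : p ≠ 0) :
    w (Polynomial.aeval f p) = ((p.natDegree * val w f : ℤ) : WithTop ℤ) := by
  have hf0 : f ≠ 0 := by
    intro h
    rw [h, AddValuation.map_zero] at hf
    exact absurd hf (by simp)
  have hfv := Api.coe_val w hf0
  have hm : val w f < 0 := by
    rw [hfv, ← WithTop.coe_zero, WithTop.coe_lt_coe] at hf
    exact hf
  have hpow : ∀ i : ℕ, w (f ^ i) = ((i * val w f : ℤ) : WithTop ℤ) := by
    intro i
    rw [Api.coe_val w (pow_ne_zero i hf0), Api.val_pow w hf0]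
  rw [Polynomial.aeval_eq_sum_range, Finset.sum_range_succ]
  have hlead : w (p.coeff p.natDegree • f ^ p.natDegree) = ((p.natDegree * val w f : ℤ) : WithTop ℤ) := by
    rw [Algebra.smul_def, AddValuation.map_mul, hpow,
      Api.val_algebraMap hK (by simpa using hp), zero_add]
  have hrest : ((p.natDegree * val w f + 1 : ℤ) : WithTop ℤ) ≤
      w (∑ i ∈ Finset.range p.natDegree, p.coeff i • f ^ i) := by
    apply AddValuation.map_le_sum
    intro i hi
    rw [Algebra.smul_def, AddValuation.map_mul, hpow]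
    refine le_trans ?_ (add_le_add (hK _) le_rfl)
    rw [zero_add, WithTop.coe_le_coe]
    have h1 : (i : ℤ) + 1 ≤ p.natDegree := by
      have := Finset.mem_range.1 hi
      exact_mod_cast this
    nlinarith
  rw [add_comm, AddValuation.map_add_eq_of_lt_left, hlead]
  rw [hlead]
  refine lt_of_lt_of_le ?_ hrest
  rw [WithTop.coe_lt_coe]
  omega

end

section
variable {K E₁ E : Type u} [Field K] [Field E₁] [Field E] [Algebra K E₁] [Algebra K E] [Algebra E₁ E]
  [IsScalarTower K E₁ E]

theorem res_K {w : AddValuation E (WithTop ℤ)} (h : ∀ c : K, 0 ≤ w (algebraMap K E c)) (c : K) :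
    0 ≤ Api.res E₁ w (algebraMap K E₁ c) := by
  rw [Api.res_apply, ← IsScalarTower.algebraMap_apply]
  exact h c

theorem val_res (w : AddValuation E (WithTop ℤ)) (c : E₁) :
    val (Api.res E₁ w) c = val w (algebraMap E₁ E c) := rfl

/-- a nontrivial valuation is not trivial on a subfield over which the field is algebraic -/
theorem nontriv [FiniteDimensional E₁ E] (w : AddValuation E (WithTop ℤ)) (hπ : ∃ π : E, w π = 1) :
    ∃ c : E₁, c ≠ 0 ∧ w (algebraMap E₁ E c) ≠ 0 := by
  by_contra hcon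
  push Not at hcon
  obtain ⟨π, hπ⟩ := hπ
  have hπ0 : π ≠ 0 := by
    intro h
    rw [h, AddValuation.map_zero] at hπ
    exact absurd hπ (by simp)
  have hint : IsIntegral E₁ π := Algebra.IsIntegral.isIntegral π
  have h0 := minpoly.coeff_zero_ne_zero hint hπ0
  have h1 : Polynomial.aeval π (minpoly E₁ π) = 0 := minpoly.aeval _ _
  rw [Polynomial.aeval_eq_sum_range, Finset.sum_range_succ'] at h1
  have h2 : w ((minpoly E₁ π).coeff 0 • π ^ 0) = 0 := by
    rw [pow_zero, Algebra.smul_def, mul_one]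
    exact hcon _ h0
  have h3 : (1 : WithTop ℤ) ≤ w (∑ i ∈ Finset.range (minpoly E₁ π).natDegree,
      (minpoly E₁ π).coeff (i + 1) • π ^ (i + 1)) := by
    apply AddValuation.map_le_sum
    intro i _
    rw [Algebra.smul_def, AddValuation.map_mul, pow_succ, AddValuation.map_mul, hπ]
    have h4 : 0 ≤ w (algebraMap E₁ E ((minpoly E₁ π).coeff (i + 1))) := by
      by_cases hc : (minpoly E₁ π).coeff (i + 1) = 0
      · rw [hc, map_zero, AddValuation.map_zero]
        exact le_top
      · rw [hcon _ hc]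
    have h5 : 0 ≤ w (π ^ i) := by
      rw [AddValuation.map_pow, hπ]
      exact nsmul_nonneg (by norm_num) i
    calc (1 : WithTop ℤ) = 0 + (0 + 1) := by simp
      _ ≤ _ := add_le_add h4 (add_le_add h5 le_rfl)
  have h4 : w (∑ i ∈ Finset.range (minpoly E₁ π).natDegree,
      (minpoly E₁ π).coeff (i + 1) • π ^ (i + 1) + (minpoly E₁ π).coeff 0 • π ^ 0) = 0 := by
    rw [add_comm, AddValuation.map_add_eq_of_lt_left, h2]
    rw [h2]
    exact lt_of_lt_of_le (by norm_num) h3
  rw [h1, AddValuation.map_zero] at h4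
  exact absurd h4 (by simp)

variable {y : Fin 1 → E₁}

/-- values of polynomials at finite places -/
theorem nn {w : AddValuation E (WithTop ℤ)} (hw : ∀ c : K, 0 ≤ w (algebraMap K E c))
    (hf : 0 ≤ w (algebraMap E₁ E (y 0))) (g : MvPolynomial (Fin 1) K) :
    0 ≤ w (algebraMap E₁ E (MvPolynomial.aeval y g)) :=
  XCls.aeval_nonneg (Api.res E₁ w) (res_K hw) hf g

/-- a polynomial of positive value -/
theorem exists_pos (hy : GenBy K y) [FiniteDimensional E₁ E] {w : AddValuation E (WithTop ℤ)}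
    (hw : Plc K w) (hf : 0 ≤ w (algebraMap E₁ E (y 0))) :
    ∃ q : MvPolynomial (Fin 1) K, q ≠ 0 ∧ 0 < w (algebraMap E₁ E (MvPolynomial.aeval y q)) := by
  obtain ⟨c, hc0, hc⟩ := nontriv (E₁ := E₁) w hw.1
  obtain ⟨g, h, hh, rfl⟩ := XCls.exists_frac hy c
  have hg : g ≠ 0 := by
    intro hg
    exact hc0 (by rw [hg, map_zero, zero_div])
  by_contra hcon
  push Not at hcon
  have h1 : ∀ q : MvPolynomial (Fin 1) K, q ≠ 0 → w (algebraMap E₁ E (MvPolynomial.aeval y q)) = 0 :=
    fun q hq => le_antisymm (hcon q hq) (nn hw.2 hf q)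
  apply hc
  have ha := XCls.ae_ne hy hg
  have hb := XCls.ae_ne hy hh
  have h2 : val (Api.res E₁ w) (MvPolynomial.aeval y g / MvPolynomial.aeval y h) = 0 := by
    rw [Api.val_div _ ha hb, Api.val_of (Api.res E₁ w) (m := 0) (h1 g hg),
      Api.val_of (Api.res E₁ w) (m := 0) (h1 h hh), sub_zero]
  have h3 := Api.coe_val (Api.res E₁ w) (div_ne_zero ha hb)
  rw [h2] at h3
  exact h3

/-- a prime polynomial of positive value -/
theorem exists_prime (hy : GenBy K y) [FiniteDimensional E₁ E] {w : AddValuation E (WithTop ℤ)}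
    (hw : Plc K w) (hf : 0 ≤ w (algebraMap E₁ E (y 0))) :
    ∃ p : MvPolynomial (Fin 1) K, Irreducible p ∧ 0 < w (algebraMap E₁ E (MvPolynomial.aeval y p)) := by
  obtain ⟨q, hq, hqp⟩ := exists_pos hy hw hf
  revert hq hqp
  induction q using WfDvdMonoid.induction_on_irreducible with
  | zero => intro h; exact absurd rfl h
  | unit u hu =>
    intro _ h
    obtain ⟨v, hv⟩ := hu.exists_right_inv
    have h1 := nn hw.2 hf v
    have h2 : w (algebraMap E₁ E (MvPolynomial.aeval y u)) +
        w (algebraMap E₁ E (MvPolynomial.aeval y v)) = 0 := by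
      rw [← AddValuation.map_mul, ← map_mul, ← map_mul, hv, map_one, map_one, AddValuation.map_one]
    have h3 := XCls.add_pos' h h1
    rw [h2] at h3
    exact absurd h3 (lt_irrefl _)
  | mul a i ha hi ih =>
    intro _ h
    by_cases h1 : 0 < w (algebraMap E₁ E (MvPolynomial.aeval y i))
    · exact ⟨i, hi, h1⟩
    · have h2 : w (algebraMap E₁ E (MvPolynomial.aeval y i)) = 0 := le_antisymm (not_lt.1 h1) (nn hw.2 hf i)
      rw [map_mul, map_mul, AddValuation.map_mul, h2, zero_add] at h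
      exact ih ha h

/-- a polynomial prime to `p` is a unit where `p` is not -/
theorem unit_of {w : AddValuation E (WithTop ℤ)} (hw : ∀ c : K, 0 ≤ w (algebraMap K E c))
    (hf : 0 ≤ w (algebraMap E₁ E (y 0))) {p g : MvPolynomial (Fin 1) K} (hp : Irreducible p)
    (hpw : 0 < w (algebraMap E₁ E (MvPolynomial.aeval y p))) (hg : ¬ p ∣ g) :
    w (algebraMap E₁ E (MvPolynomial.aeval y g)) = 0 := by
  have := XCls.pid (K := K)
  obtain ⟨a, b, hab⟩ := hp.coprime_iff_not_dvd.2 hg
  refine le_antisymm (not_lt.1 fun hpos => ?_) (nn hw hf g)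
  have h1 : 0 < w (algebraMap E₁ E (MvPolynomial.aeval y (a * p + b * g))) := by
    rw [map_add, map_add]
    apply AddValuation.map_lt_add
    · rw [map_mul, map_mul, AddValuation.map_mul]
      exact XCls.pos_add (nn hw hf a) hpw
    · rw [map_mul, map_mul, AddValuation.map_mul]
      exact XCls.pos_add (nn hw hf b) hpos
  rw [hab, map_one, map_one, AddValuation.map_one] at h1
  exact absurd h1 (lt_irrefl _)

theorem val_P {ν : AddValuation E₁ (WithTop ℤ)} (hy : GenBy K y) {p : MvPolynomial (Fin 1) K}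
    (hν : OrdP y p ν) {m : ℕ} {g : MvPolynomial (Fin 1) K} (hg : ¬ p ∣ g) :
    val ν (MvPolynomial.aeval y (p ^ m * g)) = m := by
  have hg0 : g ≠ 0 := by
    intro h
    exact hg (h ▸ dvd_zero p)
  have hp0 := hν.1.ne_zero
  have hne : MvPolynomial.aeval y (p ^ m * g) ≠ 0 := XCls.ae_ne hy (mul_ne_zero (pow_ne_zero m hp0) hg0)
  have h1 : (m : ℤ) ≤ val ν (MvPolynomial.aeval y (p ^ m * g)) := by
    rw [XCls.le_val hne]
    exact (hν.2 _ m).2 (dvd_mul_right _ _)
  have h2 : ¬ ((m + 1 : ℕ) : ℤ) ≤ val ν (MvPolynomial.aeval y (p ^ m * g)) := by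
    rw [XCls.le_val hne, hν.2, pow_succ]
    intro h
    exact hg ((mul_dvd_mul_iff_left (pow_ne_zero m hp0)).1 h)
  push_cast at h2
  omega

/-- a finite place with `w (p(f)) > 0` lies over `OrdP y p` -/
theorem lies_of (hy : GenBy K y) {w : AddValuation E (WithTop ℤ)} (hw : Plc K w)
    (hf : 0 ≤ w (algebraMap E₁ E (y 0))) {p : MvPolynomial (Fin 1) K} {ν : AddValuation E₁ (WithTop ℤ)}
    (hν : OrdP y p ν) (hpw : 0 < w (algebraMap E₁ E (MvPolynomial.aeval y p))) :
    ∃ e : ℕ, Lies ν w e ∧ val w (algebraMap E₁ E (MvPolynomial.aeval y p)) = e := by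
  have hp := hν.1
  have hpne := XCls.ae_ne hy hp.ne_zero
  have hpos : 0 < val (Api.res E₁ w) (MvPolynomial.aeval y p) := (XCls.val_pos hpne).2 hpw
  obtain ⟨e, he⟩ := Int.eq_ofNat_of_zero_le hpos.le
  refine ⟨e, ⟨by omega, ?_⟩, he⟩
  have hpoly : ∀ g : MvPolynomial (Fin 1) K, g ≠ 0 →
      val (Api.res E₁ w) (MvPolynomial.aeval y g) = e * val ν (MvPolynomial.aeval y g) := by
    intro g hg
    obtain ⟨m, a, hpa, rfl⟩ := WfDvdMonoid.max_power_factor hg hp
    rw [val_P hy hν hpa, map_mul, map_pow]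
    have ha0 : a ≠ 0 := by
      intro h
      exact hpa (h ▸ dvd_zero p)
    rw [Api.val_mul _ (pow_ne_zero m hpne) (XCls.ae_ne hy ha0), Api.val_pow _ hpne, he,
      Api.val_of (Api.res E₁ w) (m := 0) (unit_of hw.2 hf hp hpw hpa)]
    ring
  intro c hc
  obtain ⟨g, h, hh, rfl⟩ := XCls.exists_frac hy c
  have hg : g ≠ 0 := by
    intro hg
    exact hc (by rw [hg, map_zero, zero_div])
  rw [← val_res, Api.val_div _ (XCls.ae_ne hy hg) (XCls.ae_ne hy hh),
    Api.val_div _ (XCls.ae_ne hy hg) (XCls.ae_ne hy hh), hpoly g hg, hpoly h hh]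
  ring

theorem mv_surj (g : MvPolynomial (Fin 1) K) :
    ∃ p : Polynomial K, Polynomial.aeval (MvPolynomial.X 0 : MvPolynomial (Fin 1) K) p = g := by
  induction g using MvPolynomial.induction_on with
  | C a => exact ⟨Polynomial.C a, by rw [Polynomial.aeval_C]; rfl⟩
  | add p q hp hq =>
    obtain ⟨p', rfl⟩ := hp
    obtain ⟨q', rfl⟩ := hq
    exact ⟨p' + q', map_add _ _ _⟩
  | mul_X p i hp =>
    obtain ⟨p', rfl⟩ := hp
    have hi : i = 0 := Subsingleton.elim _ _
    subst hi
    exact ⟨p' * Polynomial.X, by rw [map_mul, Polynomial.aeval_X]⟩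

theorem ae_poly (p : Polynomial K) : MvPolynomial.aeval y
    (Polynomial.aeval (MvPolynomial.X 0 : MvPolynomial (Fin 1) K) p) = Polynomial.aeval (y 0) p := by
  rw [← Polynomial.aeval_algHom_apply, MvPolynomial.aeval_X]

theorem coe_le {w : AddValuation E (WithTop ℤ)} {g : E} (hg : g ≠ 0) (m : ℤ) :
    (m : WithTop ℤ) ≤ w g ↔ m ≤ val w g := (XCls.le_val hg m).symm

/-- a polynomial killing one bad place -/
theorem kill (hy : GenBy K y) [FiniteDimensional E₁ E] {p : MvPolynomial (Fin 1) K}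
    {ν : AddValuation E₁ (WithTop ℤ)} (hν : OrdP y p ν) {w : AddValuation E (WithTop ℤ)} (hw : Plc K w)
    (hf : 0 ≤ w (algebraMap E₁ E (y 0))) (hno : ¬ Ovr ν w) :
    ∃ q : MvPolynomial (Fin 1) K, ¬ p ∣ q ∧ 0 < w (algebraMap E₁ E (MvPolynomial.aeval y q)) := by
  obtain ⟨q, hq, hqp⟩ := exists_pos hy hw hf
  obtain ⟨m, a, hpa, rfl⟩ := WfDvdMonoid.max_power_factor hq hν.1
  refine ⟨a, hpa, ?_⟩
  have h0 : w (algebraMap E₁ E (MvPolynomial.aeval y p)) = 0 := by
    refine le_antisymm (not_lt.1 fun hpos => hno ?_) (nn hw.2 hf p)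
    obtain ⟨e, he, -⟩ := lies_of hy hw hf hν hpos
    exact ⟨hw.1, e, he⟩
  rw [map_mul, map_mul, AddValuation.map_mul, map_pow, map_pow, AddValuation.map_pow, h0, smul_zero,
    zero_add] at hqp
  exact hqp

/-- killing finitely many bad places -/
theorem kill_fin (hy : GenBy K y) [FiniteDimensional E₁ E] {p : MvPolynomial (Fin 1) K}
    {ν : AddValuation E₁ (WithTop ℤ)} (hν : OrdP y p ν) (D : AddValuation E (WithTop ℤ) → ℤ) {g : E}
    (hg : g ≠ 0) (B : Set (AddValuation E (WithTop ℤ))) (hB : B.Finite) :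
    (∀ w ∈ B, Plc K w ∧ 0 ≤ w (algebraMap E₁ E (y 0)) ∧ ¬ Ovr ν w) →
    ∃ q : MvPolynomial (Fin 1) K, ¬ p ∣ q ∧ ∀ w ∈ B,
      ((-(D w) : ℤ) : WithTop ℤ) ≤ w (algebraMap E₁ E (MvPolynomial.aeval y q) * g) := by
  have hpr : Prime p := (UniqueFactorizationMonoid.irreducible_iff_prime).1 hν.1
  induction B, hB using Set.Finite.induction_on with
  | empty =>
    intro _
    exact ⟨1, fun h => hν.1.not_isUnit (isUnit_of_dvd_one h), fun w hw => absurd hw (Set.notMem_empty w)⟩
  | @insert w B hwB hB ih =>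
    intro h
    obtain ⟨q, hq, hqB⟩ := ih fun w' hw' => h w' (Set.mem_insert_of_mem _ hw')
    obtain ⟨h1, h2, h3⟩ := h w (Set.mem_insert _ _)
    obtain ⟨r, hr, hrp⟩ := kill hy hν h1 h2 h3
    have hr0 : r ≠ 0 := by
      intro h
      exact hr (h ▸ dvd_zero p)
    have hq0 : q ≠ 0 := by
      intro h
      exact hq (h ▸ dvd_zero p)
    let N : ℕ := (-(D w) - val w g).toNat
    refine ⟨q * r ^ N, fun hd => ?_, ?_⟩
    · rcases hpr.dvd_or_dvd hd with h | h
      · exact hq h
      · exact hr (hpr.dvd_of_dvd_pow h)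
    · intro w' hw'
      obtain ⟨k1, k2, k3⟩ := h w' hw'
      have hmm : algebraMap E₁ E (MvPolynomial.aeval y (q * r ^ N)) =
          algebraMap E₁ E (MvPolynomial.aeval y q) * algebraMap E₁ E (MvPolynomial.aeval y (r ^ N)) := by
        rw [map_mul, map_mul]
      rw [hmm]
      rcases hw' with rfl | hw'
      · have hrne : algebraMap E₁ E (MvPolynomial.aeval y r) ≠ 0 :=
          (map_ne_zero _).2 (XCls.ae_ne hy hr0)
        have hqne : algebraMap E₁ E (MvPolynomial.aeval y q) ≠ 0 :=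
          (map_ne_zero _).2 (XCls.ae_ne hy hq0)
        rw [map_pow, map_pow, coe_le (mul_ne_zero (mul_ne_zero hqne (pow_ne_zero _ hrne)) hg),
          Api.val_mul _ (mul_ne_zero hqne (pow_ne_zero _ hrne)) hg,
          Api.val_mul _ hqne (pow_ne_zero _ hrne), Api.val_pow _ hrne]
        have e1 : 0 ≤ val w' (algebraMap E₁ E (MvPolynomial.aeval y q)) := by
          rw [Api.val_nonneg _ hqne]
          exact nn k1.2 k2 q
        have e2 : 0 < val w' (algebraMap E₁ E (MvPolynomial.aeval y r)) :=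
          (XCls.val_pos hrne).2 hrp
        have e3 : -(D w') - val w' g ≤ (N : ℤ) := Int.self_le_toNat _
        have e4 : (N : ℤ) ≤ N * val w' (algebraMap E₁ E (MvPolynomial.aeval y r)) :=
          le_mul_of_one_le_right (by positivity) e2
        linarith
      · have h4 := hqB w' hw'
        have h5 := nn k1.2 k2 (r ^ N)
        rw [mul_assoc, mul_comm (algebraMap E₁ E (MvPolynomial.aeval y (r ^ N))), ← mul_assoc,
          AddValuation.map_mul]
        calc ((-(D w') : ℤ) : WithTop ℤ) = ((-(D w') : ℤ) : WithTop ℤ) + 0 := (add_zero _).symm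
          _ ≤ _ := add_le_add h4 h5

/-- the place at infinity -/
theorem lies_inf (hy : GenBy K y) {w : AddValuation E (WithTop ℤ)} (hw : Plc K w)
    (hf : w (algebraMap E₁ E (y 0)) < 0) {ν : AddValuation E₁ (WithTop ℤ)} (hν : Plc K ν)
    (hν0 : ν (y 0) = ((-1 : ℤ) : WithTop ℤ)) :
    ∃ e : ℕ, Lies ν w e ∧ val w (algebraMap E₁ E (y 0)) = -e := by
  have hf0 : algebraMap E₁ E (y 0) ≠ 0 := by
    intro h
    rw [h, AddValuation.map_zero] at hf
    exact absurd hf (by simp)
  have hm : val w (algebraMap E₁ E (y 0)) < 0 := by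
    rw [Api.coe_val w hf0, ← WithTop.coe_zero, WithTop.coe_lt_coe] at hf
    exact hf
  have hν1 : ν (y 0) < 0 := by
    rw [hν0, ← WithTop.coe_zero, WithTop.coe_lt_coe]
    norm_num
  obtain ⟨e, he⟩ := Int.eq_ofNat_of_zero_le (neg_nonneg.2 hm.le)
  have he' : val w (algebraMap E₁ E (y 0)) = -e := by
    rw [← he]
    ring
  refine ⟨e, ⟨by omega, ?_⟩, he'⟩
  have hpoly : ∀ g : MvPolynomial (Fin 1) K, g ≠ 0 →
      val (Api.res E₁ w) (MvPolynomial.aeval y g) = e * val ν (MvPolynomial.aeval y g) := by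
    intro g hg
    obtain ⟨p, rfl⟩ := mv_surj g
    have hp : p ≠ 0 := by
      intro h
      exact hg (by rw [h, map_zero])
    rw [ae_poly]
    rw [Api.val_of _ (dom (Api.res E₁ w) (res_K hw.2) hf p hp), Api.val_of _ (dom ν hν.2 hν1 p hp),
      Api.val_of _ hν0, val_res, he']
    ring
  intro c hc
  obtain ⟨g, h, hh, rfl⟩ := XCls.exists_frac hy c
  have hg : g ≠ 0 := by
    intro hg
    exact hc (by rw [hg, map_zero, zero_div])
  rw [← val_res, Api.val_div _ (XCls.ae_ne hy hg) (XCls.ae_ne hy hh),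
    Api.val_div _ (XCls.ae_ne hy hg) (XCls.ae_ne hy hh), hpoly g hg, hpoly h hh]
  ring

/-- finite places are killed by a polynomial prime to `p` -/
theorem kill_all (hy : GenBy K y) [FiniteDimensional E₁ E] {p : MvPolynomial (Fin 1) K}
    {ν : AddValuation E₁ (WithTop ℤ)} (hν : OrdP y p ν) (D : AddValuation E (WithTop ℤ) → ℤ)
    (hfin : {w : AddValuation E (WithTop ℤ) | Plc K w ∧ D w ≠ 0}.Finite)
    (hZfn : ∀ s : E, s ≠ 0 → {w : AddValuation E (WithTop ℤ) | Plc K w ∧ val w s ≠ 0}.Finite) {g : E}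
    (hg : ∀ w : AddValuation E (WithTop ℤ), Ovr ν w → ((-(D w) : ℤ) : WithTop ℤ) ≤ w g) :
    ∃ q : MvPolynomial (Fin 1) K, ¬ p ∣ q ∧ ∀ w : AddValuation E (WithTop ℤ), Plc K w →
      0 ≤ w (algebraMap E₁ E (y 0)) → ((-(D w) : ℤ) : WithTop ℤ) ≤
        w (algebraMap E₁ E (MvPolynomial.aeval y q) * g) := by
  by_cases hg0 : g = 0
  · refine ⟨1, fun h => hν.1.not_isUnit (isUnit_of_dvd_one h), fun w _ _ => ?_⟩
    rw [hg0, mul_zero, AddValuation.map_zero]
    exact le_top
  obtain ⟨B, hBdef⟩ : ∃ B : Set (AddValuation E (WithTop ℤ)), B = {w | Plc K w ∧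
    0 ≤ w (algebraMap E₁ E (y 0)) ∧ ¬ (((-(D w) : ℤ) : WithTop ℤ) ≤ w g)} := ⟨_, rfl⟩
  have hB : B.Finite := by
    apply (hfin.union (hZfn g hg0)).subset
    rw [hBdef]
    rintro w ⟨h1, h2, h3⟩
    by_contra hcon
    rw [Set.mem_union, not_or] at hcon
    obtain ⟨h4, h5⟩ := hcon
    have h6 : D w = 0 := by
      by_contra h
      exact h4 ⟨h1, h⟩
    have h7 : val w g = 0 := by
      by_contra h
      exact h5 ⟨h1, h⟩
    apply h3
    rw [coe_le hg0, h6, h7]
    simp
  obtain ⟨q, hq, hqB⟩ := kill_fin hy hν D hg0 B hB (by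
    intro w hw
    rw [hBdef] at hw
    exact ⟨hw.1, hw.2.1, fun h => hw.2.2 (hg w h)⟩)
  refine ⟨q, hq, fun w hw1 hw2 => ?_⟩
  by_cases hwB : w ∈ B
  · exact hqB w hwB
  · have h1 : ((-(D w) : ℤ) : WithTop ℤ) ≤ w g := by
      by_contra h
      exact hwB (by rw [hBdef]; exact ⟨hw1, hw2, h⟩)
    rw [AddValuation.map_mul]
    calc ((-(D w) : ℤ) : WithTop ℤ) = 0 + ((-(D w) : ℤ) : WithTop ℤ) := (zero_add _).symm
      _ ≤ _ := add_le_add (nn hw1.2 hw2 q) h1

/-- derivations which kill `f` -/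
theorem der_zero [CharZero K] [FiniteDimensional E₁ E] (hy : GenBy K y) (θ : Derivation K E E)
    (h : θ (algebraMap E₁ E (y 0)) = 0) : θ = 0 := by
  have hE : CharZero E₁ := charZero_of_injective_algebraMap (algebraMap K E₁).injective
  have h1 : ∀ g : MvPolynomial (Fin 1) K, θ (algebraMap E₁ E (MvPolynomial.aeval y g)) = 0 := by
    intro g
    induction g using MvPolynomial.induction_on with
    | C a =>
      rw [MvPolynomial.aeval_C, ← IsScalarTower.algebraMap_apply]
      exact θ.map_algebraMap a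
    | add p q hp hq => rw [map_add, map_add, map_add, hp, hq, add_zero]
    | mul_X p i hp =>
      have hi : i = 0 := Subsingleton.elim _ _
      subst hi
      rw [map_mul, map_mul, MvPolynomial.aeval_X, Derivation.leibniz, h, hp, smul_zero, smul_zero, add_zero]
  have h2 : ∀ c : E₁, θ (algebraMap E₁ E c) = 0 := by
    intro c
    obtain ⟨g, q, hq, rfl⟩ := XCls.exists_frac hy c
    have hq0 : algebraMap E₁ E (MvPolynomial.aeval y q) ≠ 0 := (map_ne_zero _).2 (XCls.ae_ne hy hq)
    have h3 : algebraMap E₁ E (MvPolynomial.aeval y g / MvPolynomial.aeval y q) *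
        algebraMap E₁ E (MvPolynomial.aeval y q) = algebraMap E₁ E (MvPolynomial.aeval y g) := by
      rw [← map_mul, div_mul_cancel₀ _ (XCls.ae_ne hy hq)]
    have h4 := congrArg θ h3
    rw [Derivation.leibniz, h1, h1, smul_zero, zero_add, smul_eq_mul] at h4
    exact (mul_eq_zero.1 h4).resolve_left hq0
  let θ' : Derivation E₁ E E :=
    { toFun := θ
      map_add' := θ.map_add
      map_smul' := by
        intro c x
        rw [Algebra.smul_def, Derivation.leibniz, h2 c, smul_zero, add_zero, RingHom.id_apply,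
          smul_eq_mul, Algebra.smul_def]
      map_one_eq_zero' := θ.map_one_eq_zero
      leibniz' := θ.leibniz }
  have h3 : Algebra.FormallyUnramified E₁ E := Algebra.FormallyUnramified.of_isSeparable E₁ E
  have h4 : θ' = 0 := by
    apply (KaehlerDifferential.linearMapEquivDerivation E₁ E).symm.injective
    apply LinearMap.ext
    intro x
    have hx : x = 0 := Subsingleton.elim _ _
    rw [hx, map_zero, map_zero]
  ext x
  have h5 := congrArg (fun d : Derivation E₁ E E => d x) h4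
  exact h5

/-- division with remainder -/
theorem divis (hy : GenBy K y) {ν : AddValuation E₁ (WithTop ℤ)}
    (hdeg : ∀ p : Polynomial K, p ≠ 0 → ν (Polynomial.aeval (y 0) p) = ((-(p.natDegree : ℤ) : ℤ) : WithTop ℤ))
    (c : E₁) : ∃ (p : Polynomial K) (r : E₁), c = Polynomial.aeval (y 0) p + r ∧ ((1 : ℤ) : WithTop ℤ) ≤ ν r := by
  obtain ⟨g, h, hh, rfl⟩ := XCls.exists_frac hy c
  obtain ⟨P, rfl⟩ := mv_surj g
  obtain ⟨Q, rfl⟩ := mv_surj h
  have hQ : Q ≠ 0 := by
    intro h
    exact hh (by rw [h, map_zero])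
  have hQ0 : Polynomial.aeval (y 0) Q ≠ 0 := by
    have := XCls.ae_ne hy hh
    rwa [ae_poly] at this
  rw [ae_poly, ae_poly]
  have h1 : Polynomial.aeval (y 0) Q * Polynomial.aeval (y 0) (P / Q) + Polynomial.aeval (y 0) (P % Q) =
      Polynomial.aeval (y 0) P := by
    rw [← map_mul, ← map_add, EuclideanDomain.div_add_mod]
  refine ⟨P / Q, Polynomial.aeval (y 0) (P % Q) / Polynomial.aeval (y 0) Q, ?_, ?_⟩
  · rw [← h1]
    field_simp
  · by_cases hR : P % Q = 0
    · rw [hR, map_zero, zero_div, AddValuation.map_zero]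
      exact le_top
    · have hR0 : Polynomial.aeval (y 0) (P % Q) ≠ 0 := by
        intro h
        have h2 := hdeg _ hR
        rw [h, AddValuation.map_zero] at h2
        exact WithTop.coe_ne_top h2.symm
      rw [← XCls.le_val (div_ne_zero hR0 hQ0), Api.val_div _ hR0 hQ0, Api.val_of _ (hdeg _ hR),
        Api.val_of _ (hdeg _ hQ)]
      have h3 : (P % Q).natDegree < Q.natDegree := by
        apply Polynomial.natDegree_lt_natDegree hR
        exact EuclideanDomain.mod_lt P hQ
      omega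

/-- the derivative of an irreducible polynomial is prime to it -/
theorem not_dvd_der [CharZero K] {P : Polynomial K}
    (hP : Irreducible (Polynomial.aeval (MvPolynomial.X 0 : MvPolynomial (Fin 1) K) P)) :
    ¬ Polynomial.aeval (MvPolynomial.X 0 : MvPolynomial (Fin 1) K) P ∣
      Polynomial.aeval (MvPolynomial.X 0 : MvPolynomial (Fin 1) K) (Polynomial.derivative P) := by
  rintro ⟨q, hq⟩
  obtain ⟨Q, rfl⟩ := mv_surj q
  rw [← map_mul] at hq
  have hinj : Function.Injective (Polynomial.aeval (R := K) (MvPolynomial.X 0 : MvPolynomial (Fin 1) K)) :=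
    transcendental_iff_injective.1 (MvPolynomial.transcendental_X K (0 : Fin 1))
  have h1 : Polynomial.derivative P = P * Q := hinj hq
  have h0 : P ≠ 0 := by
    intro h
    exact hP.ne_zero (by rw [h, map_zero])
  have h2 : P.natDegree ≠ 0 := by
    intro h
    rw [Polynomial.natDegree_eq_zero] at h
    obtain ⟨c, rfl⟩ := h
    have hc : c ≠ 0 := by
      rintro rfl
      exact h0 (map_zero _)
    apply hP.not_isUnit
    rw [Polynomial.aeval_C]
    exact (isUnit_iff_ne_zero.2 hc).map _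
  have h3 : Polynomial.derivative P ≠ 0 := by
    intro h
    exact h2 (Polynomial.derivative_eq_zero.1 h)
  have h4 : (Polynomial.derivative P).degree < P.degree := Polynomial.degree_derivative_lt h0
  exact Polynomial.not_dvd_of_degree_lt h3 h4 ⟨Q, h1⟩

end

section
variable {K E₁ E : Type u} [Field K] [CharZero K] [Field E₁] [Field E] [Algebra K E₁] [Algebra K E] [Algebra E₁ E]
  [IsScalarTower K E₁ E] [FiniteDimensional E₁ E] {y : Fin 1 → E₁}

omit [CharZero K] [FiniteDimensional E₁ E] in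
theorem ovr_inf (hy : GenBy K y) {ν : AddValuation E₁ (WithTop ℤ)} (hν : Plc K ν)
    (hν0 : ν (y 0) = ((-1 : ℤ) : WithTop ℤ)) (w : AddValuation E (WithTop ℤ)) :
    Ovr ν w ↔ Plc K w ∧ w (algebraMap E₁ E (y 0)) < 0 := by
  constructor
  · rintro ⟨hπ, e, he0, he⟩
    have hy0 : y 0 ≠ 0 := by
      intro h
      rw [h, AddValuation.map_zero] at hν0
      exact WithTop.coe_ne_top hν0.symm
    refine ⟨⟨hπ, fun c => ?_⟩, ?_⟩
    · by_cases hc : c = 0
      · rw [hc, map_zero, AddValuation.map_zero]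
        exact le_top
      · have hc1 : algebraMap K E₁ c ≠ 0 := (map_ne_zero _).2 hc
        have hc2 : algebraMap K E c ≠ 0 := (map_ne_zero _).2 hc
        rw [← Api.val_nonneg w hc2, IsScalarTower.algebraMap_apply K E₁ E, he _ hc1]
        have := (Api.val_nonneg ν hc1).2 (hν.2 c)
        positivity
    · have h1 : algebraMap E₁ E (y 0) ≠ 0 := (map_ne_zero _).2 hy0
      rw [Api.coe_val w h1, he _ hy0, Api.val_of _ hν0, ← WithTop.coe_zero, WithTop.coe_lt_coe]
      have : (0 : ℤ) < e := by exact_mod_cast he0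
      linarith
  · rintro ⟨hw, hf⟩
    obtain ⟨e, he, -⟩ := lies_inf hy hw hf hν hν0
    exact ⟨hw.1, e, he⟩

theorem core (hOrd : StOrd.{u}) (hCls : StCls.{u}) (hZdk : StZdk.{u}) (hZfn : StZfn.{u}) (hZor : StZor.{u})
    (hZlc : StZlc.{u}) (hZlz : StZlz.{u}) (hZbk : StZbk.{u}) (hZtd : StZtd.{u}) (hy : GenBy K y)
    (hFF : FFn K E) (hFF1 : FFn K E₁) (θ : Derivation K E E) (hθ : θ ≠ 0) (D : AddValuation E (WithTop ℤ) → ℤ)
    (hfin : {w : AddValuation E (WithTop ℤ) | Plc K w ∧ D w ≠ 0}.Finite) (hN : Nsp θ D) (g : E) :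
    ∃ a b : E, g = a + b ∧
    (∀ w : AddValuation E (WithTop ℤ), Plc K w → 0 ≤ w (algebraMap E₁ E (y 0)) →
      ((-(D w) : ℤ) : WithTop ℤ) ≤ w a) ∧
    ∀ w : AddValuation E (WithTop ℤ), Plc K w → w (algebraMap E₁ E (y 0)) < 0 →
      ((-(D w) : ℤ) : WithTop ℤ) ≤ w b := by
  obtain ⟨hP, ν, hν⟩ := hOrd K E₁ 1 y hy
  obtain ⟨hc1, hc2, hc3, -, -, -⟩ := hCls K E₁ y hy
  obtain ⟨hνP, hν0⟩ := hc3 ν hν
  have hνm : ν (y 0) = ((-1 : ℤ) : WithTop ℤ) := by
    have h := hν (MvPolynomial.X 0) (MvPolynomial.X_ne_zero 0)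
    rw [MvPolynomial.aeval_X, MvPolynomial.totalDegree_X] at h
    exact h
  have hdiv : ∀ μ : AddValuation E₁ (WithTop ℤ), Plc K μ → Divisorial K μ :=
    fun μ h => hZdk K K E₁ hFF1 μ h
  have hdeg : ∀ p : Polynomial K, p ≠ 0 →
      ν (Polynomial.aeval (y 0) p) = ((-(p.natDegree : ℤ) : ℤ) : WithTop ℤ) := by
    intro p hp
    rw [dom ν hνP.2 hν0 p hp, Api.val_of _ hνm]
    congr 1
    ring
  have hfrac : ∀ c : E₁, ∃ p q : Polynomial K, q ≠ 0 ∧
      c * Polynomial.aeval (y 0) q = Polynomial.aeval (y 0) p := by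
    intro c
    obtain ⟨a, q, hq, rfl⟩ := XCls.exists_frac hy c
    obtain ⟨P, rfl⟩ := mv_surj a
    obtain ⟨Q, rfl⟩ := mv_surj q
    have hQ : Q ≠ 0 := by
      intro h
      exact hq (by rw [h, map_zero])
    refine ⟨P, Q, hQ, ?_⟩
    have h0 := XCls.ae_ne hy hq
    rw [ae_poly] at h0
    rw [ae_poly, ae_poly, div_mul_cancel₀ _ h0]
  obtain ⟨b, hb⟩ := hZlz K E₁ E y hy hFF D hfin
  obtain ⟨b', hb'⟩ := hZlc K E₁ E ν (hdiv ν hνP) D
  obtain ⟨e, a, he1, he2⟩ := hZbk K E₁ E (y 0) ν _ b b' hfrac hdeg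
  have hF : ∀ x : E, (∀ w : AddValuation E (WithTop ℤ), Plc K w → 0 ≤ w (algebraMap E₁ E (y 0)) →
      ((-(D w) : ℤ) : WithTop ℤ) ≤ w x) ↔ ∀ i, ∃ p : Polynomial K, e.repr x i = Polynomial.aeval (y 0) p :=
    fun x => (hb x).trans (he1 x)
  have hI : ∀ x : E, (∀ w : AddValuation E (WithTop ℤ), Plc K w → w (algebraMap E₁ E (y 0)) < 0 →
      ((-(D w) : ℤ) : WithTop ℤ) ≤ w x) ↔ ∀ i, ((-(a i) : ℤ) : WithTop ℤ) ≤ ν (e.repr x i) := by
    intro x
    rw [← he2 x, ← hb' x]
    constructor
    · intro h w hw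
      obtain ⟨h1, h2⟩ := (ovr_inf hy hνP hνm w).1 hw
      exact h w h1 h2
    · intro h w h1 h2
      exact h w ((ovr_inf hy hνP hνm w).2 ⟨h1, h2⟩)
  by_cases hA : ∀ i, -1 ≤ a i
  · choose P r hPr using fun i => divis hy hdeg (e.repr g i)
    refine ⟨∑ i, Polynomial.aeval (y 0) (P i) • e i, ∑ i, r i • e i, ?_, ?_, ?_⟩
    · rw [← Finset.sum_add_distrib]
      conv_lhs => rw [← e.sum_repr g]
      refine Finset.sum_congr rfl fun i _ => ?_
      rw [← add_smul, ← (hPr i).1]
    · rw [hF]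
      intro i
      exact ⟨P i, by rw [e.repr_sum_self]⟩
    · rw [hI]
      intro i
      rw [e.repr_sum_self]
      refine le_trans ?_ (hPr i).2
      rw [WithTop.coe_le_coe]
      have := hA i
      omega
  · exfalso
    push Not at hA
    obtain ⟨i, hi⟩ := hA
    have hE : CharZero E₁ := charZero_of_injective_algebraMap (algebraMap K E₁).injective
    obtain ⟨h, hh⟩ : ∃ h : E, h = e.traceDual i := ⟨_, rfl⟩
    have htr : ∀ x : E, Algebra.trace E₁ E (h * x) = e.repr x i := by
      intro x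
      have h1 := (e.traceDual).traceDual_repr_apply x i
      rw [Module.Basis.traceDual_traceDual, Algebra.traceForm_apply, mul_comm, ← hh] at h1
      exact h1.symm
    have hh0 : h ≠ 0 := by
      intro h0
      have h1 := htr (e i)
      rw [h0, zero_mul, map_zero, e.repr_self, Finsupp.single_eq_same] at h1
      exact zero_ne_one h1
    have hclaim : h * θ (algebraMap E₁ E (y 0)) = 0 := by
      apply hN
      intro w c hw hc
      rcases le_or_gt 0 (w (algebraMap E₁ E (y 0))) with hf | hf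
      · obtain ⟨p, hp, hpw⟩ := exists_prime hy hw hf
        obtain ⟨μ, hμ⟩ := hP p hp
        obtain ⟨m, hm, hmv⟩ := lies_of hy hw hf hμ hpw
        have h1 : ((D w - (m - 1) : ℤ) : WithTop ℤ) ≤ w h := by
          refine hZtd K E₁ E μ (hdiv μ (hc2 p μ hμ).1) D h ?_ w m hw.1 hm
          intro x hx
          obtain ⟨q, hq, hqx⟩ := kill_all hy hμ D hfin (hZfn K E hFF) hx
          have h2 := (hF _).1 hqx i
          obtain ⟨Q, hQ⟩ := h2
          rw [← Algebra.smul_def, map_smul, Finsupp.smul_apply, smul_eq_mul] at hQ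
          have h3 : 0 ≤ μ (Polynomial.aeval (y 0) Q) := by
            rw [← ae_poly]
            exact (hμ.2 _ 0).2 (by rw [pow_zero]; exact one_dvd _)
          rw [← hQ, AddValuation.map_mul] at h3
          have h4 : μ (MvPolynomial.aeval y q) = 0 := by
            have h5 := val_P hy hμ (m := 0) hq
            rw [pow_zero, one_mul] at h5
            have hq0 : q ≠ 0 := by
              intro h
              exact hq (h ▸ dvd_zero p)
            rw [Api.coe_val μ (XCls.ae_ne hy hq0), h5]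
            rfl
          rw [h4, zero_add] at h3
          rw [htr]
          exact h3
        obtain ⟨P, rfl⟩ := mv_surj p
        have hfp : algebraMap E₁ E (MvPolynomial.aeval y
            (Polynomial.aeval (MvPolynomial.X 0 : MvPolynomial (Fin 1) K) P)) =
            Polynomial.aeval (algebraMap E₁ E (y 0)) P := by
          rw [ae_poly, Polynomial.aeval_algebraMap_apply]
        have hfp' : algebraMap E₁ E (MvPolynomial.aeval y
            (Polynomial.aeval (MvPolynomial.X 0 : MvPolynomial (Fin 1) K) (Polynomial.derivative P))) =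
            Polynomial.aeval (algebraMap E₁ E (y 0)) (Polynomial.derivative P) := by
          rw [ae_poly, Polynomial.aeval_algebraMap_apply]
        have h2 := unit_of hw.2 hf hp hpw (not_dvd_der hp)
        rw [hfp'] at h2
        have hne : algebraMap E₁ E (MvPolynomial.aeval y
            (Polynomial.aeval (MvPolynomial.X 0 : MvPolynomial (Fin 1) K) P)) ≠ 0 :=
          (map_ne_zero _).2 (XCls.ae_ne hy hp.ne_zero)
        have h3 := Api.coe_val w hne
        rw [hmv] at h3
        have hm0 : (m : ℤ) ≠ 0 := by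
          have := hm.1
          omega
        have h4 := hZor K E hFF w θ c hw hc _ (m : ℤ) hm0 h3
        rw [hfp, Derivation.map_aeval, smul_eq_mul, AddValuation.map_mul, h2, zero_add] at h4
        rw [AddValuation.map_mul, h4]
        calc ((c + D w : ℤ) : WithTop ℤ) = ((D w - (m - 1) : ℤ) : WithTop ℤ) + ((c + m - 1 : ℤ) : WithTop ℤ) := by
              rw [← WithTop.coe_add]
              congr 1
              ring
          _ ≤ _ := add_le_add h1 le_rfl
      · obtain ⟨m, hm, hmv⟩ := lies_inf hy hw hf hνP hνm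
        have hy0 : y 0 ≠ 0 := by
          intro h
          rw [h, AddValuation.map_zero] at hνm
          exact WithTop.coe_ne_top hνm.symm
        have hf0 : algebraMap E₁ E (y 0) ≠ 0 := (map_ne_zero _).2 hy0
        have h1 : ((D w - (m - 1) : ℤ) : WithTop ℤ) ≤ w (algebraMap E₁ E ((y 0) ^ 2) * h) := by
          refine hZtd K E₁ E ν (hdiv ν hνP) D _ ?_ w m hw.1 hm
          intro x hx
          have h2 := (hI x).1 (fun w' hw1 hw2 => hx w' ((ovr_inf hy hνP hνm w').2 ⟨hw1, hw2⟩)) i
          rw [mul_assoc, ← Algebra.smul_def, map_smul, htr, smul_eq_mul, AddValuation.map_mul]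
          have h3 : ν ((y 0) ^ 2) = ((-2 : ℤ) : WithTop ℤ) := by
            rw [Api.coe_val ν (pow_ne_zero 2 hy0), Api.val_pow ν hy0, Api.val_of _ hνm]
            rfl
          rw [h3]
          calc (0 : WithTop ℤ) = ((0 : ℤ) : WithTop ℤ) := rfl
            _ ≤ ((-2 + -(a i) : ℤ) : WithTop ℤ) := by
              rw [WithTop.coe_le_coe]
              omega
            _ = ((-2 : ℤ) : WithTop ℤ) + ((-(a i) : ℤ) : WithTop ℤ) := WithTop.coe_add _ _
            _ ≤ _ := add_le_add le_rfl h2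
        have hff : algebraMap E₁ E ((y 0) ^ 2) ≠ 0 := (map_ne_zero _).2 (pow_ne_zero 2 hy0)
        rw [coe_le (mul_ne_zero hff hh0), Api.val_mul w hff hh0, map_pow, Api.val_pow w hf0, hmv] at h1
        have h3 := Api.coe_val w hf0
        rw [hmv] at h3
        have hm0 : (-(m : ℤ)) ≠ 0 := by
          have := hm.1
          omega
        have h4 := hZor K E hFF w θ c hw hc _ (-(m : ℤ)) hm0 h3
        rw [AddValuation.map_mul, h4, Api.coe_val w hh0, ← WithTop.coe_add, WithTop.coe_le_coe]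
        push_cast at h1
        linarith
    have h1 := (mul_eq_zero.1 hclaim).resolve_left hh0
    exact hθ (der_zero hy θ h1)

end

end XZhi

theorem pr_Zhi (hOrd : StOrd.{u}) (hCls : StCls.{u}) (hZdk : StZdk.{u}) (hZfn : StZfn.{u}) (hZor : StZor.{u})
    (_hZod : StZod.{u}) (hZlc : StZlc.{u}) (hZlz : StZlz.{u}) (hZbk : StZbk.{u}) (hZtd : StZtd.{u}) :
    StZhi.{u} := by
  intro K E _ _ _ _ hFF θ hθ D hfin hN f hf g
  have htr : Transcendental K f := hf
  have hFF' := hFF
  obtain ⟨hess0, x, hx⟩ := hFF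
  obtain ⟨y, hy⟩ : ∃ y : Fin 1 → E, y = fun _ => f := ⟨_, rfl⟩
  have hyi : AlgebraicIndependent K y := by
    rw [algebraicIndependent_singleton_iff (0 : Fin 1), hy]
    exact htr
  have hyb : IsTranscendenceBasis K y := by
    apply hyi.isTranscendenceBasis_of_lift_trdeg_le_of_finite
    have h := hx.lift_cardinalMk_eq_trdeg
    rw [← h]
  have hfm : f ∈ IntermediateField.adjoin K (Set.range y) :=
    IntermediateField.subset_adjoin _ _ ⟨0, by rw [hy]⟩
  have halg : Algebra.IsAlgebraic (IntermediateField.adjoin K (Set.range y)) E :=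
    hyb.isAlgebraic_field
  have hess : Algebra.EssFiniteType (IntermediateField.adjoin K (Set.range y)) E :=
    Algebra.EssFiniteType.of_comp K _ E
  have hfd : FiniteDimensional (IntermediateField.adjoin K (Set.range y)) E :=
    Algebra.finite_of_essFiniteType_of_isAlgebraic
  obtain ⟨y1, hy1⟩ : ∃ y1 : Fin 1 → IntermediateField.adjoin K (Set.range y),
    y1 = fun _ => ⟨f, hfm⟩ := ⟨_, rfl⟩
  have hgen : GenBy K y1 := by
    constructor
    · rw [algebraicIndependent_singleton_iff (0 : Fin 1), hy1]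
      intro h
      exact htr (h.algebraMap (A := E))
    · apply IntermediateField.lift_injective (IntermediateField.adjoin K (Set.range y))
      rw [IntermediateField.lift_adjoin, IntermediateField.lift_top]
      congr 1
      have hyv : ∀ i, y i = f := fun i => congrFun hy i
      have hy1v : ∀ i, ((y1 i : IntermediateField.adjoin K (Set.range y)) : E) = f := by
        intro i
        rw [hy1]
      ext z
      constructor
      · rintro ⟨_, ⟨i, rfl⟩, rfl⟩
        exact ⟨i, (hyv i).trans (hy1v i).symm⟩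
      · rintro ⟨i, rfl⟩
        exact ⟨y1 i, ⟨i, rfl⟩, (hy1v i).trans (hyv i).symm⟩
  have hFF1 : FFn K (IntermediateField.adjoin K (Set.range y)) := by
    refine ⟨IntermediateField.essFiniteType_iff.2
      (IntermediateField.fg_adjoin_of_finite (Set.finite_range y)), y1, ?_⟩
    apply IsTranscendenceBasis.of_comp_algebraMap (A' := E)
    have h5 : algebraMap (IntermediateField.adjoin K (Set.range y)) E ∘ y1 = y := by
      funext i
      rw [Function.comp_apply, hy1]
      exact (congrFun hy i).symm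
    rw [h5]
    exact hyb
  have h3 : algebraMap (IntermediateField.adjoin K (Set.range y)) E (y1 0) = f := by
    rw [hy1]
    rfl
  have h4 := XZhi.core (E := E) hOrd hCls hZdk hZfn hZor hZlc hZlz hZbk hZtd hgen hFF' hFF1 θ hθ D hfin hN g
  rw [h3] at h4
  exact h4

end Pool.Agent.Work.MP_a2680c_ag.HA
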