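import Pool.Agent.Work.MP_a2680c_ag.HA.StmtsZ

/-!
# MP_a2680c_ag, block HA, item Zlc: local lattices
-/

set_option autoImplicit false

noncomputable section

namespace Pool.Agent.Work.MP_a2680c_ag.HA

open MP7b66e6 MP7b66e6.Q
open scoped BigOperators

universe u

namespace XZlc

section ring
variable {E₁ : Type u} [Field E₁] (v : AddValuation E₁ (WithTop ℤ))

/-- the valuation ring of `v` -/
def VR : Subring E₁ where
  carrier := {f | 0 ≤ v f}
  mul_mem' := fun {a b} ha hb => by
    change 0 ≤ v (a * b)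
    rw [AddValuation.map_mul]
    exact add_nonneg ha hb
  one_mem' := by
    change 0 ≤ v 1
    rw [AddValuation.map_one]
  add_mem' := fun {a b} ha hb => le_trans (le_min ha hb) (AddValuation.map_add v a b)
  zero_mem' := by
    change 0 ≤ v 0
    rw [AddValuation.map_zero]
    exact le_top
  neg_mem' := fun {a} ha => by
    change 0 ≤ v (-a)
    rw [AddValuation.map_neg]
    exact ha

theorem mem_VR {f : E₁} : f ∈ VR v ↔ 0 ≤ v f := Iff.rfl

theorem pid : IsPrincipalIdealRing (VR v) := by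
  classical
  refine ⟨fun I => ?_⟩
  by_cases hI : I = ⊥
  · exact ⟨⟨0, by rw [hI]; simp⟩⟩
  · obtain ⟨a, ha, ha0⟩ := Submodule.exists_mem_ne_zero_of_ne_bot hI
    have hne : ∀ x : VR v, x ≠ 0 → (x : E₁) ≠ 0 := fun x hx h => hx (Subtype.ext h)
    have hnn : ∀ x : VR v, x ≠ 0 → 0 ≤ val v (x : E₁) := fun x hx =>
      (Api.val_nonneg v (hne x hx)).2 x.2
    have hex : ∃ n : ℕ, ∃ x ∈ I, x ≠ 0 ∧ val v (x : E₁) = n := by
      refine ⟨(val v (a : E₁)).toNat, a, ha, ha0, ?_⟩
      rw [Int.toNat_of_nonneg (hnn a ha0)]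
    obtain ⟨x, hx, hx0, hxn⟩ := Nat.find_spec hex
    have hmin : ∀ y ∈ I, y ≠ 0 → val v (x : E₁) ≤ val v (y : E₁) := by
      intro y hy hy0
      have h := Nat.find_min' hex (m := (val v (y : E₁)).toNat)
        ⟨y, hy, hy0, by rw [Int.toNat_of_nonneg (hnn y hy0)]⟩
      have h2 := Int.toNat_of_nonneg (hnn y hy0)
      rw [hxn, ← h2]
      exact_mod_cast h
    refine ⟨⟨x, le_antisymm ?_ ?_⟩⟩
    · intro y hy
      rw [Ideal.submodule_span_eq, Ideal.mem_span_singleton']
      by_cases hy0 : y = 0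
      · exact ⟨0, by rw [hy0, zero_mul]⟩
      · have hq : 0 ≤ v ((y : E₁) / x) := by
          rw [← Api.val_nonneg v (div_ne_zero (hne y hy0) (hne x hx0)),
            Api.val_div v (hne y hy0) (hne x hx0)]
          have := hmin y hy hy0
          omega
        refine ⟨⟨(y : E₁) / x, hq⟩, Subtype.ext ?_⟩
        change (y : E₁) / x * x = y
        exact div_mul_cancel₀ _ (hne x hx0)
    · rw [Ideal.submodule_span_eq, Ideal.span_singleton_le_iff_mem]
      exact hx

theorem frac {t : E₁} (ht : v t = 1) : IsFractionRing (VR v) E₁ := by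
  have ht0 : t ≠ 0 := by
    rintro rfl
    rw [AddValuation.map_zero] at ht
    exact absurd ht (by decide)
  have hvt : val v t = 1 := Api.val_of v ht
  have htm : (0 : WithTop ℤ) ≤ v t := by rw [ht]; exact zero_le_one
  refine IsFractionRing.of_field (VR v) E₁ fun z => ?_
  by_cases hz : z = 0
  · exact ⟨0, 1, by rw [hz]; simp⟩
  · have h : 0 ≤ v (z * t ^ (val v z).natAbs) := by
      rw [← Api.val_nonneg v (mul_ne_zero hz (pow_ne_zero _ ht0)), Api.val_mul v hz (pow_ne_zero _ ht0),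
        Api.val_pow v ht0, hvt]
      omega
    refine ⟨⟨_, h⟩, ⟨t, htm⟩ ^ (val v z).natAbs, ?_⟩
    rw [map_pow]
    change z = z * t ^ (val v z).natAbs / t ^ (val v z).natAbs
    exact (mul_div_cancel_right₀ _ (pow_ne_zero _ ht0)).symm

end ring

section lat
variable {E₁ E : Type u} [Field E₁] [Field E] [Algebra E₁ E] (v : AddValuation E₁ (WithTop ℤ))

theorem w_map {w : AddValuation E (WithTop ℤ)} (h : Ovr v w) {a : E₁} (ha : 0 ≤ v a) :
    0 ≤ w (algebraMap E₁ E a) := by
  by_cases h0 : a = 0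
  · rw [h0, map_zero, AddValuation.map_zero]
    exact le_top
  · obtain ⟨-, e, -, he⟩ := h
    have h1 : algebraMap E₁ E a ≠ 0 := (map_ne_zero _).2 h0
    rw [← Api.val_nonneg w h1, he a h0]
    exact mul_nonneg (Int.natCast_nonneg e) ((Api.val_nonneg v h0).2 ha)

/-- the lattice -/
def Lat (D : AddValuation E (WithTop ℤ) → ℤ) : Submodule (VR v) E where
  carrier := {g | ∀ w : AddValuation E (WithTop ℤ), Ovr v w → ((-(D w) : ℤ) : WithTop ℤ) ≤ w g}
  add_mem' := fun {a b} ha hb w hw => le_trans (le_min (ha w hw) (hb w hw)) (AddValuation.map_add w a b)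
  zero_mem' := fun w _ => by
    rw [AddValuation.map_zero]
    exact le_top
  smul_mem' := fun c x hx w hw => by
    have h : c • x = algebraMap E₁ E (c : E₁) * x := by
      rw [← Algebra.smul_def]
      rfl
    rw [h, AddValuation.map_mul]
    exact le_trans (hx w hw) (le_add_of_nonneg_left (w_map v hw c.2))

theorem mem_Lat {D : AddValuation E (WithTop ℤ) → ℤ} {g : E} :
    g ∈ Lat v D ↔ ∀ w : AddValuation E (WithTop ℤ), Ovr v w → ((-(D w) : ℤ) : WithTop ℤ) ≤ w g := Iff.rfl

/-- multiplication with `t^s` increases values by at least `s` -/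
theorem w_pow {w : AddValuation E (WithTop ℤ)} (h : Ovr v w) {t : E₁} (ht : v t = 1) (s : ℕ) (g : E) (m : ℤ)
    (hg : (m : WithTop ℤ) ≤ w g) : ((m + s : ℤ) : WithTop ℤ) ≤ w ((t ^ s) • g) := by
  have ht0 : t ≠ 0 := by
    rintro rfl
    rw [AddValuation.map_zero] at ht
    exact absurd ht (by decide)
  have hvt : val v t = 1 := Api.val_of v ht
  obtain ⟨-, e, he0, he⟩ := h
  have h1 : algebraMap E₁ E (t ^ s) ≠ 0 := (map_ne_zero _).2 (pow_ne_zero _ ht0)
  rw [Algebra.smul_def, AddValuation.map_mul, Api.coe_val w h1, he _ (pow_ne_zero _ ht0), Api.val_pow v ht0, hvt,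
    add_comm m, WithTop.coe_add]
  refine add_le_add ?_ hg
  rw [WithTop.coe_le_coe]
  have : (1 : ℤ) ≤ e := by exact_mod_cast he0
  nlinarith [Int.natCast_nonneg s]

theorem exists_pow (hfin : {w : AddValuation E (WithTop ℤ) | Ovr v w}.Finite) {t : E₁} (ht : v t = 1)
    (D : AddValuation E (WithTop ℤ) → ℤ) (g : E) : ∃ s : ℕ, (t ^ s) • g ∈ Lat v D := by
  by_cases hg : g = 0
  · exact ⟨0, by rw [hg, smul_zero]; exact Submodule.zero_mem _⟩
  · refine ⟨∑ w ∈ hfin.toFinset, (-(D w) - val w g).toNat, fun w hw => ?_⟩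
    have h1 := Finset.single_le_sum (f := fun w : AddValuation E (WithTop ℤ) => (-(D w) - val w g).toNat)
      (fun _ _ => Nat.zero_le _) (hfin.mem_toFinset.2 hw)
    have h2 := w_pow v hw ht (∑ w ∈ hfin.toFinset, (-(D w) - val w g).toNat) g (val w g)
      (le_of_eq (Api.coe_val w hg).symm)
    refine le_trans ?_ h2
    rw [WithTop.coe_le_coe]
    have h3 : (-(D w) - val w g) ≤ ((-(D w) - val w g).toNat : ℤ) := Int.self_le_toNat _
    have h4 : ((-(D w) - val w g).toNat : ℤ) ≤ ((∑ w ∈ hfin.toFinset, (-(D w) - val w g).toNat : ℕ) : ℤ) := by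
      exact_mod_cast h1
    omega

theorem exists_pow_all (hfin : {w : AddValuation E (WithTop ℤ) | Ovr v w}.Finite) {t : E₁} (ht : v t = 1)
    (D : AddValuation E (WithTop ℤ) → ℤ) : ∃ s : ℕ, ∀ g ∈ Lat v D, (t ^ s) • g ∈ Lat v (fun _ => 0) := by
  refine ⟨∑ w ∈ hfin.toFinset, (D w).toNat, fun g hg w hw => ?_⟩
  have h1 := Finset.single_le_sum (f := fun w : AddValuation E (WithTop ℤ) => (D w).toNat)
    (fun _ _ => Nat.zero_le _) (hfin.mem_toFinset.2 hw)
  have h2 := w_pow v hw ht (∑ w ∈ hfin.toFinset, (D w).toNat) g (-(D w)) (hg w hw)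
  refine le_trans ?_ h2
  rw [WithTop.coe_le_coe]
  change -(0 : ℤ) ≤ _
  have h3 : D w ≤ ((D w).toNat : ℤ) := Int.self_le_toNat _
  have h4 : ((D w).toNat : ℤ) ≤ ((∑ w ∈ hfin.toFinset, (D w).toNat : ℕ) : ℤ) := by
    exact_mod_cast h1
  omega

/-- a lattice contained in a finitely generated module has a basis -/
theorem basis_of_fg [FiniteDimensional E₁ E] {t : E₁} (ht : v t = 1) (M N : Submodule (VR v) E) (hMN : M ≤ N)
    (hN : IsNoetherian (VR v) N) (hM : ∀ g : E, ∃ s : ℕ, (t ^ s) • g ∈ M) :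
    ∃ b : Module.Basis (Fin (Module.finrank E₁ E)) E₁ E, ∀ g : E, g ∈ M ↔ ∀ i, 0 ≤ v (b.repr g i) := by
  classical
  have ht0 : t ≠ 0 := by
    rintro rfl
    rw [AddValuation.map_zero] at ht
    exact absurd ht (by decide)
  have := pid v
  have := frac v ht
  have : IsNoetherian (VR v) M := isNoetherian_of_le hMN
  have : Module.Finite (VR v) M := inferInstance
  have : Module.IsTorsionFree (VR v) E := by
    exact Module.IsTorsionFree.trans_faithfulSMul (VR v) E₁ E
  have : Module.Free (VR v) M := Module.free_of_finite_type_torsion_free'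
  let b₀ := Module.Free.chooseBasis (VR v) M
  have hli : LinearIndependent E₁ (fun i => (b₀ i : E)) := by
    rw [← LinearIndependent.iff_fractionRing (VR v) E₁]
    exact b₀.linearIndependent.map' M.subtype (Submodule.ker_subtype M)
  have hrep : ∀ g : M, (g : E) = ∑ i, ((b₀.repr g i : VR v) : E₁) • (b₀ i : E) := by
    intro g
    conv_lhs => rw [← b₀.sum_repr g]
    rw [Submodule.coe_sum]
    rfl
  have hsp : ⊤ ≤ Submodule.span E₁ (Set.range fun i => (b₀ i : E)) := by
    intro g _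
    obtain ⟨s, hs⟩ := hM g
    have h1 : (t ^ s) • g ∈ Submodule.span E₁ (Set.range fun i => (b₀ i : E)) := by
      have h2 := hrep ⟨_, hs⟩
      change (t ^ s) • g = _ at h2
      rw [h2]
      exact Submodule.sum_mem _ fun i _ => Submodule.smul_mem _ _ (Submodule.subset_span ⟨i, rfl⟩)
    exact (Submodule.smul_mem_iff _ (pow_ne_zero s ht0)).1 h1
  let B := Module.Basis.mk hli hsp
  have hB : ∀ i, B i = (b₀ i : E) := fun i => by
    change Module.Basis.mk hli hsp i = _
    rw [Module.Basis.mk_apply]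
  have hcard : Fintype.card (Module.Free.ChooseBasisIndex (VR v) M) = Module.finrank E₁ E :=
    (Module.finrank_eq_card_basis B).symm
  refine ⟨B.reindex (Fintype.equivFinOfCardEq hcard), fun g => ⟨fun hg i => ?_, fun hg => ?_⟩⟩
  · rw [Module.Basis.repr_reindex_apply]
    generalize (Fintype.equivFinOfCardEq hcard).symm i = j
    have h1 : B.repr g j = ((b₀.repr ⟨g, hg⟩ j : VR v) : E₁) := by
      have h2 := hrep ⟨g, hg⟩
      change g = _ at h2
      have h3 : g = ∑ i, ((b₀.repr ⟨g, hg⟩ i : VR v) : E₁) • B i :=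
        h2.trans (Finset.sum_congr rfl fun i _ => by rw [hB])
      conv_lhs => rw [h3]
      rw [Module.Basis.repr_sum_self]
    rw [h1]
    exact (b₀.repr ⟨g, hg⟩ j).2
  · rw [← (B.reindex (Fintype.equivFinOfCardEq hcard)).sum_repr g]
    refine Submodule.sum_mem _ fun i _ => ?_
    rw [Module.Basis.reindex_apply, hB]
    have h1 := M.smul_mem ⟨_, hg i⟩ (b₀ ((Fintype.equivFinOfCardEq hcard).symm i)).2
    exact h1

end lat

end XZlc

theorem pr_Zlc (hZfo : StZfo.{u}) (hZtp : StZtp.{u}) : StZlc.{u} := by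
  classical
  intro K E₁ E _ _ _ _ _ _ _ _ _ v hv D
  obtain ⟨t, ht⟩ := hv.1
  have hfin := hZfo E₁ E v hv.1
  have ht0 : t ≠ 0 := by
    rintro rfl
    rw [AddValuation.map_zero] at ht
    exact absurd ht (by decide)
  have := XZlc.pid v
  have : CharZero E₁ := charZero_of_injective_algebraMap (algebraMap K E₁).injective
  obtain ⟨s, hs⟩ := XZlc.exists_pow_all v hfin ht D
  let ω := Module.finBasis E₁ E
  choose r hr using fun j => XZlc.exists_pow v hfin ht (fun _ => 0) (ω j)
  let c : Module.Basis (Fin (Module.finrank E₁ E)) E₁ E := ω.unitsSMul fun j => (Units.mk0 t ht0) ^ r j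
  have hc : ∀ j, c j ∈ XZlc.Lat v (fun _ => 0) := fun j => by
    have h : c j = (t ^ r j) • ω j := by
      change (ω.unitsSMul fun j => (Units.mk0 t ht0) ^ r j) j = _
      rw [Module.Basis.unitsSMul_apply]
      rfl
    rw [h]
    exact hr j
  have hnd := traceForm_nondegenerate E₁ E
  let dd := LinearMap.BilinForm.dualBasis (Algebra.traceForm E₁ E) hnd c
  have hM0 : ∀ g ∈ XZlc.Lat (E := E) v (fun _ => 0), ∀ j, 0 ≤ v (dd.repr g j) := by
    intro g hg j
    rw [LinearMap.BilinForm.dualBasis_repr_apply, Algebra.traceForm_apply]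
    refine hZtp K E₁ E v hv _ fun w hw => ?_
    rw [AddValuation.map_mul]
    have h1 := hg w hw
    have h2 := hc j w hw
    have e0 : ((-(0 : ℤ) : ℤ) : WithTop ℤ) = 0 := by rw [neg_zero]; rfl
    rw [e0] at h1 h2
    exact add_nonneg h1 h2
  let N : Submodule (XZlc.VR v) E := Submodule.span (XZlc.VR v) (Set.range fun i => (t ^ s)⁻¹ • dd i)
  have hMN : XZlc.Lat v D ≤ N := by
    intro g hg
    have h1 := hM0 _ (hs g hg)
    have h2 : g = ∑ i, (⟨_, h1 i⟩ : XZlc.VR v) • ((t ^ s)⁻¹ • dd i) := by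
      have h3 := dd.sum_repr ((t ^ s) • g)
      have h4 : g = (t ^ s)⁻¹ • ((t ^ s) • g) := by
        rw [smul_smul, inv_mul_cancel₀ (pow_ne_zero s ht0), one_smul]
      conv_lhs => rw [h4, ← h3, Finset.smul_sum]
      refine Finset.sum_congr rfl fun i _ => ?_
      change _ = (dd.repr ((t ^ s) • g) i) • ((t ^ s)⁻¹ • dd i)
      rw [smul_comm]
    rw [h2]
    exact Submodule.sum_mem _ fun i _ => Submodule.smul_mem _ _ (Submodule.subset_span ⟨i, rfl⟩)
  obtain ⟨b, hb⟩ := XZlc.basis_of_fg v ht (XZlc.Lat v D) N hMN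
    (isNoetherian_span_of_finite _ (Set.finite_range _)) (XZlc.exists_pow v hfin ht D)
  exact ⟨b, fun g => hb g⟩

end Pool.Agent.Work.MP_a2680c_ag.HA
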