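import Mathlib

set_option autoImplicit false

namespace Pool.Agent.Work.MP_a2680c_ag.HA.LatZ

universe u

theorem lattice {R E₁ E : Type u} [CommRing R] [IsDomain R] [IsPrincipalIdealRing R] [Field E₁]
    [Algebra R E₁] [IsFractionRing R E₁] [Field E] [Algebra E₁ E] [Algebra R E]
    [IsScalarTower R E₁ E] [FiniteDimensional E₁ E] [Algebra.IsSeparable E₁ E]
    (M : Submodule R E) (ha : ∀ g : E, ∃ q : R, q ≠ 0 ∧ q • g ∈ M) (q : R) (hq : q ≠ 0)
    (hb : ∀ g ∈ M, ∀ h ∈ M, ∃ r : R,
      Algebra.trace E₁ E (algebraMap R E q * (g * h)) = algebraMap R E₁ r) :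
    ∃ b : Module.Basis (Fin (Module.finrank E₁ E)) E₁ E,
      ∀ g : E, g ∈ M ↔ ∀ i, ∃ r : R, b.repr g i = algebraMap R E₁ r := by
  classical
  have hinj1 : Function.Injective (algebraMap R E₁) := IsFractionRing.injective R E₁
  have hinjE : Function.Injective (algebraMap R E) := by
    rw [IsScalarTower.algebraMap_eq R E₁ E]
    exact (algebraMap E₁ E).injective.comp hinj1
  -- a basis inside M
  let n := Module.finrank E₁ E
  let ω0 : Module.Basis (Fin n) E₁ E := Module.finBasis E₁ E
  choose c hc0 hcM using fun j => ha (ω0 j)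
  have hcu : ∀ j, IsUnit (algebraMap R E₁ (c j)) := by
    intro j
    rw [isUnit_iff_ne_zero]
    intro h
    exact hc0 j (hinj1 (by rw [h, map_zero]))
  let ω : Module.Basis (Fin n) E₁ E := ω0.isUnitSMul hcu
  have hω : ∀ j, ω j ∈ M := by
    intro j
    have : ω j = c j • ω0 j := by
      rw [Module.Basis.isUnitSMul_apply, algebraMap_smul]
    rw [this]
    exact hcM j
  -- the map to E₁^n
  let tr : E →ₗ[R] E₁ := (Algebra.trace E₁ E).restrictScalars R
  let φ : E →ₗ[R] (Fin n → E₁) :=
    LinearMap.pi fun j => tr ∘ₗ (LinearMap.mulLeft R (algebraMap R E q * ω j))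
  have hφ : ∀ g j, φ g j = Algebra.trace E₁ E (algebraMap R E q * (g * ω j)) := by
    intro g j
    show Algebra.trace E₁ E ((algebraMap R E q * ω j) * g) = _
    congr 1
    ring
  have hqE : algebraMap R E q ≠ 0 := by
    intro h
    exact hq (hinjE (by rw [h, map_zero]))
  have hφinj : Function.Injective φ := by
    rw [← LinearMap.ker_eq_bot, LinearMap.ker_eq_bot']
    intro g hg
    have h1 : ∀ j, Algebra.trace E₁ E ((algebraMap R E q * g) * ω j) = 0 := by
      intro j
      have := congrFun hg j
      rw [hφ] at this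
      rw [mul_assoc]
      exact this
    have h2 : ∀ x, Algebra.traceForm E₁ E (algebraMap R E q * g) x = 0 := by
      intro x
      have h3 : Algebra.traceForm E₁ E (algebraMap R E q * g) = 0 := by
        refine ω.ext fun j => ?_
        rw [Algebra.traceForm_apply]
        exact h1 j
      rw [h3]; rfl
    have h4 : algebraMap R E q * g = 0 := (traceForm_nondegenerate E₁ E).1 _ h2
    exact (mul_eq_zero.mp h4).resolve_left hqE
  -- the target lattice
  let ρ : (Fin n → R) →ₗ[R] (Fin n → E₁) :=
    LinearMap.pi fun j => (Algebra.linearMap R E₁) ∘ₗ (LinearMap.proj j)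
  let N : Submodule R (Fin n → E₁) := LinearMap.range ρ
  have hφN : ∀ g : M, φ g.1 ∈ N := by
    intro g
    choose r hr using fun j => hb g.1 g.2 (ω j) (hω j)
    refine ⟨r, ?_⟩
    funext j
    show algebraMap R E₁ (r j) = φ g.1 j
    rw [hφ, hr]
  let ψ : M →ₗ[R] N := LinearMap.codRestrict N (φ ∘ₗ M.subtype) hφN
  have hψ : Function.Injective ψ := by
    intro x y hxy
    have : φ x.1 = φ y.1 := congrArg Subtype.val hxy
    exact Subtype.ext (hφinj this)
  have hNfin : Module.Finite R N := Module.Finite.range ρ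
  have hNN : IsNoetherian R N := isNoetherian_of_isNoetherianRing_of_finite R N
  have hMfin : Module.Finite R M := Module.Finite.of_injective ψ hψ
  have htfE : Module.IsTorsionFree R E := by
    have : FaithfulSMul R E := (faithfulSMul_iff_algebraMap_injective R E).mpr hinjE
    infer_instance
  have htfM : Module.IsTorsionFree R M := inferInstance
  have hfree : Module.Free R M := Module.free_of_finite_type_torsion_free'
  -- localization
  have hloc : IsLocalizedModule (nonZeroDivisors R) M.subtype := by
    constructor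
    · intro x
      rw [Module.End.isUnit_iff]
      have hx : algebraMap R E x.1 ≠ 0 := by
        intro h
        exact nonZeroDivisors.coe_ne_zero x (hinjE (by rw [h, map_zero]))
      constructor
      · intro a b hab
        have h5 : (x.1 : R) • a = (x.1 : R) • b := hab
        rw [Algebra.smul_def, Algebra.smul_def] at h5
        exact mul_left_cancel₀ hx h5
      · intro a
        refine ⟨(algebraMap R E x.1)⁻¹ * a, ?_⟩
        show (x.1 : R) • ((algebraMap R E x.1)⁻¹ * a) = a
        rw [Algebra.smul_def, ← mul_assoc, mul_inv_cancel₀ hx, one_mul]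
    · intro y
      obtain ⟨q', hq', hM⟩ := ha y
      exact ⟨(⟨q' • y, hM⟩, ⟨q', mem_nonZeroDivisors_of_ne_zero hq'⟩), rfl⟩
    · intro x₁ x₂ h
      exact ⟨1, by rw [Subtype.ext h]⟩
  let bM := Module.finBasis R M
  let bE := bM.ofIsLocalizedModule E₁ (nonZeroDivisors R) M.subtype
  have hcard : Module.finrank R M = Module.finrank E₁ E := by
    rw [Module.finrank_eq_card_basis bE, Fintype.card_fin]
  refine ⟨bE.reindex (finCongr hcard), ?_⟩
  intro g
  constructor
  · intro hg i
    refine ⟨bM.repr ⟨g, hg⟩ ((finCongr hcard).symm i), ?_⟩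
    rw [Module.Basis.repr_reindex_apply]
    exact Module.Basis.ofIsLocalizedModule_repr_apply E₁ (nonZeroDivisors R) M.subtype bM ⟨g, hg⟩ _
  · intro h
    choose r hr using h
    have h6 : g = ∑ i, (bE.reindex (finCongr hcard)).repr g i • (bE.reindex (finCongr hcard)) i :=
      ((bE.reindex (finCongr hcard)).sum_repr g).symm
    rw [h6]
    refine Submodule.sum_mem _ fun i _ => ?_
    rw [hr i, algebraMap_smul]
    refine Submodule.smul_mem _ _ ?_
    rw [Module.Basis.reindex_apply, Module.Basis.ofIsLocalizedModule_apply]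
    exact (bM _).2

end Pool.Agent.Work.MP_a2680c_ag.HA.LatZ
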