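import Pool.Agent.Work.MP_a2680c_ag.HA.StmtsZ
import Pool.Agent.Work.MP_a2680c_ag.HA.I_Eqt
import Pool.Agent.Work.MP_a2680c_ag.HA.I_Cls
import Pool.Agent.Work.MP_a2680c_ag.HA.LatZ

/-! Item [a2680c HA Zlz]: global lattices. -/

set_option autoImplicit false

noncomputable section

namespace Pool.Agent.Work.MP_a2680c_ag.HA

open MP7b66e6 MP7b66e6.Q
open scoped BigOperators

universe u

namespace XZlz

section
variable {K F : Type u} [Field K] [Field F] [Algebra K F]

theorem aeval_conv (y : Fin 1 → F) (r : Polynomial K) :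
    MvPolynomial.aeval y (Polynomial.aeval (MvPolynomial.X 0 : MvPolynomial (Fin 1) K) r) = Polynomial.aeval (y 0) r := by
  rw [← Polynomial.aeval_algHom_apply, MvPolynomial.aeval_X]

theorem surj (g : MvPolynomial (Fin 1) K) :
    ∃ r : Polynomial K, Polynomial.aeval (MvPolynomial.X 0 : MvPolynomial (Fin 1) K) r = g := by
  induction g using MvPolynomial.induction_on with
  | C a => exact ⟨Polynomial.C a, by rw [Polynomial.aeval_C]; rfl⟩
  | add p q hp hq =>
    obtain ⟨p', rfl⟩ := hp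
    obtain ⟨q', rfl⟩ := hq
    exact ⟨p' + q', map_add _ _ _⟩
  | mul_X p i hp =>
    obtain ⟨p', rfl⟩ := hp
    have hi : i = 0 := Subsingleton.elim _ _
    subst hi
    exact ⟨p' * Polynomial.X, by rw [map_mul, Polynomial.aeval_X]⟩

theorem ae_eq (y : Fin 1 → F) (g : MvPolynomial (Fin 1) K) :
    ∃ r : Polynomial K, MvPolynomial.aeval y g = Polynomial.aeval (y 0) r := by
  obtain ⟨r, hr⟩ := surj g
  exact ⟨r, by rw [← hr, aeval_conv]⟩

theorem inj {y : Fin 1 → F} (hy : GenBy K y) {r : Polynomial K} (hr : Polynomial.aeval (y 0) r = 0) : r = 0 :=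
  transcendental_iff.1 (hy.1.transcendental 0) r hr

theorem y_ne {y : Fin 1 → F} (hy : GenBy K y) : y 0 ≠ 0 := by
  intro h
  have h1 : Polynomial.aeval (y 0) (Polynomial.X : Polynomial K) = 0 := by rw [Polynomial.aeval_X, h]
  exact Polynomial.X_ne_zero (inj hy h1)

theorem frac {y : Fin 1 → F} (hy : GenBy K y) (f : F) :
    ∃ g h : Polynomial K, f = Polynomial.aeval (y 0) g / Polynomial.aeval (y 0) h := by
  obtain ⟨g, h, hh, hf⟩ := XCls.exists_frac hy f
  obtain ⟨g', hg'⟩ := ae_eq y g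
  obtain ⟨h', hh'⟩ := ae_eq y h
  exact ⟨g', h', by rw [hf, hg', hh']⟩

/-- functions without finite poles are polynomials -/
theorem int_of (hOrd : StOrd.{u}) {y : Fin 1 → F} (hy : GenBy K y) (f : F)
    (h : ∀ (p : MvPolynomial (Fin 1) K) (v : AddValuation F (WithTop ℤ)), OrdP y p v → 0 ≤ v f) :
    ∃ r : Polynomial K, f = Polynomial.aeval (y 0) r := by
  obtain ⟨g, q, hq, hfr⟩ := XCls.exists_frac hy f
  obtain ⟨q', g', c, hrel, hcq, hcg⟩ := UniqueFactorizationMonoid.exists_reduced_factors q hq g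
  have hc0 : c ≠ 0 := by
    rintro rfl
    exact hq (by rw [← hcq, zero_mul])
  have hq0 : q' ≠ 0 := by
    rintro rfl
    exact hq (by rw [← hcq, mul_zero])
  have hf : f * MvPolynomial.aeval y q' = MvPolynomial.aeval y g' := by
    rw [hfr, ← hcq, ← hcg, map_mul, map_mul, mul_div_mul_left _ _ (XCls.ae_ne hy hc0),
      div_mul_cancel₀ _ (XCls.ae_ne hy hq0)]
  by_cases hu : IsUnit q'
  · obtain ⟨u, hu⟩ := hu.exists_right_inv
    obtain ⟨r, hr⟩ := ae_eq y (g' * u)
    refine ⟨r, ?_⟩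
    rw [← hr, map_mul, ← hf, mul_assoc, ← map_mul, hu, map_one, mul_one]
  · obtain ⟨p, hp, hpq⟩ := WfDvdMonoid.exists_irreducible_factor hu hq0
    obtain ⟨v, hv⟩ := (hOrd K F 1 y hy).1 p hp
    exfalso
    have h1 := h p v hv
    have h2 : (((1 : ℕ) : ℤ) : WithTop ℤ) ≤ v (MvPolynomial.aeval y q') := (hv.2 q' 1).2 (by rw [pow_one]; exact hpq)
    have h3 : (((1 : ℕ) : ℤ) : WithTop ℤ) ≤ v (MvPolynomial.aeval y g') := by
      rw [← hf, AddValuation.map_mul]
      exact le_trans h2 (le_add_of_nonneg_left h1)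
    have h4 := (hv.2 g' 1).1 h3
    rw [pow_one] at h4
    exact hp.not_isUnit (hrel hpq h4)

theorem ffn {y : Fin 1 → F} (hy : GenBy K y) : FFn K F := by
  refine ⟨?_, y, ?_⟩
  · rw [← IntermediateField.fg_top_iff]
    exact ⟨(Set.finite_range y).toFinset, by rw [Set.Finite.coe_toFinset]; exact hy.2⟩
  · rw [isTranscendenceBasis_iff_algebraicIndependent_isAlgebraic]
    refine ⟨hy.1, ⟨fun z => ?_⟩⟩
    obtain ⟨g, h, hh, hf⟩ := XCls.exists_frac hy z
    have hmem : ∀ g : MvPolynomial (Fin 1) K, MvPolynomial.aeval y g ∈ Algebra.adjoin K (Set.range y) := by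
      intro g
      rw [Algebra.adjoin_range_eq_range_aeval]
      exact ⟨g, rfl⟩
    have hal : ∀ g : MvPolynomial (Fin 1) K, IsAlgebraic (Algebra.adjoin K (Set.range y)) (MvPolynomial.aeval y g) := by
      intro g
      exact isAlgebraic_algebraMap (A := F) (⟨_, hmem g⟩ : Algebra.adjoin K (Set.range y))
    rw [hf, div_eq_mul_inv]
    exact (hal g).mul (hal h).inv

theorem nonneg {w : AddValuation F (WithTop ℤ)} (hw : ∀ c : K, 0 ≤ w (algebraMap K F c)) {f : F} (h0 : 0 ≤ w f)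
    (r : Polynomial K) : 0 ≤ w (Polynomial.aeval f r) := by
  induction r using Polynomial.induction_on' with
  | add p q hp hq =>
    rw [map_add]
    exact w.map_le_add hp hq
  | monomial n a =>
    rw [Polynomial.aeval_monomial, AddValuation.map_mul, AddValuation.map_pow]
    exact add_nonneg (hw a) (nsmul_nonneg h0 n)

/-- a polynomial with high zeros at finitely many places -/
theorem exists_q (S : Set (AddValuation F (WithTop ℤ))) (hS : S.Finite) (f : F)
    (hfin : ∀ w ∈ S, Plc K w ∧ 0 ≤ w f)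
    (hpos : ∀ w ∈ S, ∃ r : Polynomial K, r ≠ 0 ∧ 1 ≤ w (Polynomial.aeval f r)) (N : ℕ) :
    ∃ q : Polynomial K, q ≠ 0 ∧ ∀ w ∈ S, ((N : ℤ) : WithTop ℤ) ≤ w (Polynomial.aeval f q) := by
  classical
  have hpos' : ∀ w : AddValuation F (WithTop ℤ), ∃ r : Polynomial K, r ≠ 0 ∧ (w ∈ S → 1 ≤ w (Polynomial.aeval f r)) := by
    intro w
    by_cases hw : w ∈ S
    · obtain ⟨r, hr, h⟩ := hpos w hw
      exact ⟨r, hr, fun _ => h⟩
    · exact ⟨1, one_ne_zero, fun h => absurd h hw⟩
  choose r hr hr1 using hpos'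
  refine ⟨∏ w ∈ hS.toFinset, r w ^ N, Finset.prod_ne_zero_iff.2 fun w _ => pow_ne_zero N (hr w), ?_⟩
  intro w hw
  have hmem : w ∈ hS.toFinset := hS.mem_toFinset.2 hw
  rw [← Finset.mul_prod_erase _ _ hmem, map_mul, AddValuation.map_mul, map_pow, AddValuation.map_pow]
  have h1 : 0 ≤ w (Polynomial.aeval f (∏ x ∈ hS.toFinset.erase w, r x ^ N)) :=
    nonneg (hfin w hw).1.2 (hfin w hw).2 _
  have h2 : ((N : ℤ) : WithTop ℤ) ≤ N • w (Polynomial.aeval f (r w)) := by
    have h3 : N • (1 : WithTop ℤ) ≤ N • w (Polynomial.aeval f (r w)) := nsmul_le_nsmul_right (hr1 w hw) N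
    rw [nsmul_one] at h3
    exact_mod_cast h3
  exact le_trans h2 (le_add_of_nonneg_right h1)

end

section
variable {K E₁ E : Type u} [Field K] [Field E₁] [Field E] [Algebra K E₁] [Algebra K E] [Algebra E₁ E] [IsScalarTower K E₁ E]

/-- a finite place is positive on some polynomial -/
theorem exists_pos (hCls : StCls.{u}) (hNOR : MgNOR.{u}) [Algebra.IsAlgebraic E₁ E] {y : Fin 1 → E₁} (hy : GenBy K y)
    {w : AddValuation E (WithTop ℤ)} (hw : Plc K w) (h0 : 0 ≤ w (algebraMap E₁ E (y 0))) :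
    ∃ r : Polynomial K, r ≠ 0 ∧ 1 ≤ w (Polynomial.aeval (algebraMap E₁ E (y 0)) r) := by
  obtain ⟨v, m, hv, hL⟩ := XEqt.place_over hNOR (E₀ := E₁) hw
  have hy0 := y_ne hy
  have hm : (0 : ℤ) < m := by exact_mod_cast hL.1
  have hv0 : 0 ≤ v (y 0) := by
    rw [← Api.val_nonneg w (XEqt.map_ne hy0), hL.2 _ hy0] at h0
    rw [← Api.val_nonneg v hy0]
    by_contra hcon
    push Not at hcon
    nlinarith
  rcases (hCls K E₁ y hy).1 v hv with ⟨_, p, hp⟩ | ⟨h, _⟩
  · obtain ⟨r, hr⟩ := ae_eq y p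
    have hp0 : p ≠ 0 := hp.1.ne_zero
    have hne : MvPolynomial.aeval y p ≠ 0 := XCls.ae_ne hy hp0
    have h1 : (((1 : ℕ) : ℤ) : WithTop ℤ) ≤ v (MvPolynomial.aeval y p) := (hp.2 p 1).2 (by rw [pow_one])
    rw [Api.coe_val v hne, WithTop.coe_le_coe] at h1
    refine ⟨r, ?_, ?_⟩
    · rintro rfl
      rw [map_zero] at hr
      exact hne hr
    · rw [Polynomial.aeval_algebraMap_apply, ← hr, Api.coe_val w (XEqt.map_ne hne), hL.2 _ hne,
        ← WithTop.coe_one, WithTop.coe_le_coe]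
      push_cast at h1
      nlinarith
  · exact absurd h (not_lt.2 hv0)

end

end XZlz

open XZlz

theorem pr_Zlz (hOrd : StOrd.{u}) (hCls : StCls.{u}) (hZdk : StZdk.{u}) (hZfn : StZfn.{u}) (hZtp : StZtp.{u})
    (hNOR : MgNOR.{u}) : StZlz.{u} := by
  intro K E₁ E _ _ _ _ _ _ _ _ _ y hy hFF D hD
  have : CharZero E₁ := charZero_of_injective_algebraMap (algebraMap K E₁).injective
  have hy0 := y_ne hy
  set f : E := algebraMap E₁ E (y 0) with hf
  have hpos : ∀ w : AddValuation E (WithTop ℤ), Plc K w → 0 ≤ w f →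
      ∃ r : Polynomial K, r ≠ 0 ∧ 1 ≤ w (Polynomial.aeval f r) := fun w hw h0 => exists_pos hCls hNOR hy hw h0
  have hq : ∀ (S : Set (AddValuation E (WithTop ℤ))), S.Finite → ∀ N : ℕ, ∃ q : Polynomial K, q ≠ 0 ∧
      ∀ w ∈ S, Plc K w → 0 ≤ w f → ((N : ℤ) : WithTop ℤ) ≤ w (Polynomial.aeval f q) := by
    intro S hS N
    obtain ⟨q, hq, h⟩ := exists_q (K := K) (S ∩ {w | Plc K w ∧ 0 ≤ w f}) (hS.subset Set.inter_subset_left) f
      (fun w hw => hw.2) (fun w hw => hpos w hw.2.1 hw.2.2) N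
    exact ⟨q, hq, fun w hw h1 h2 => h w ⟨hw, h1, h2⟩⟩
  -- the algebra structures
  letI a1 : Algebra (Polynomial K) E₁ := (Polynomial.aeval (R := K) (y 0)).toRingHom.toAlgebra
  letI a2 : Algebra (Polynomial K) E := (Polynomial.aeval (R := K) f).toRingHom.toAlgebra
  have hm1 : ∀ r : Polynomial K, algebraMap (Polynomial K) E₁ r = Polynomial.aeval (y 0) r := fun _ => rfl
  have hm2 : ∀ r : Polynomial K, algebraMap (Polynomial K) E r = Polynomial.aeval f r := fun _ => rfl
  haveI : IsScalarTower (Polynomial K) E₁ E := IsScalarTower.of_algebraMap_eq fun r => by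
    rw [hm2, hm1, hf, Polynomial.aeval_algebraMap_apply]
  haveI : FaithfulSMul (Polynomial K) E₁ := by
    rw [faithfulSMul_iff_algebraMap_injective, injective_iff_map_eq_zero]
    intro r hr
    exact inj hy hr
  haveI : IsFractionRing (Polynomial K) E₁ := IsFractionRing.of_field (Polynomial K) E₁ fun z => by
    obtain ⟨g, h, hz⟩ := frac hy z
    exact ⟨g, h, hz⟩
  let M : Submodule (Polynomial K) E :=
    { carrier := {g | ∀ w : AddValuation E (WithTop ℤ), Plc K w → 0 ≤ w f → ((-(D w) : ℤ) : WithTop ℤ) ≤ w g}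
      add_mem' := by
        intro a b ha hb w hw h0
        exact w.map_le_add (ha w hw h0) (hb w hw h0)
      zero_mem' := by
        intro w hw h0
        rw [AddValuation.map_zero]
        exact le_top
      smul_mem' := by
        intro c a ha w hw h0
        rw [Algebra.smul_def, hm2, AddValuation.map_mul]
        exact le_trans (ha w hw h0) (le_add_of_nonneg_left (nonneg hw.2 h0 c)) }
  have hM : ∀ g : E, g ∈ M ↔ ∀ w : AddValuation E (WithTop ℤ), Plc K w → 0 ≤ w f → ((-(D w) : ℤ) : WithTop ℤ) ≤ w g :=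
    fun g => Iff.rfl
  -- (1)
  have ha : ∀ g : E, ∃ q : Polynomial K, q ≠ 0 ∧ q • g ∈ M := by
    intro g
    by_cases hg : g = 0
    · exact ⟨1, one_ne_zero, by rw [hg, smul_zero]; exact M.zero_mem⟩
    · have hS := (hZfn K E hFF g hg).union hD
      -- a bound
      obtain ⟨N, hN⟩ : ∃ N : ℕ, ∀ w ∈ {w : AddValuation E (WithTop ℤ) | Plc K w ∧ val w g ≠ 0} ∪
          {w : AddValuation E (WithTop ℤ) | Plc K w ∧ D w ≠ 0}, -(D w) - val w g ≤ N := by
        obtain ⟨B, hB⟩ := (hS.image fun w => -(D w) - val w g).bddAbove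
        exact ⟨B.toNat, fun w hw => le_trans (hB ⟨w, hw, rfl⟩) (Int.self_le_toNat B)⟩
      obtain ⟨q, hq0, hq1⟩ := hq _ hS N
      refine ⟨q, hq0, fun w hw h0 => ?_⟩
      rw [Algebra.smul_def, hm2, AddValuation.map_mul]
      by_cases hwS : w ∈ {w : AddValuation E (WithTop ℤ) | Plc K w ∧ val w g ≠ 0} ∪
          {w : AddValuation E (WithTop ℤ) | Plc K w ∧ D w ≠ 0}
      · have h1 := hN w hwS
        have h2 := hq1 w hwS hw h0
        have h3 : ((-(D w) : ℤ) : WithTop ℤ) ≤ ((N : ℤ) : WithTop ℤ) + (val w g : WithTop ℤ) := by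
          rw [← WithTop.coe_add, WithTop.coe_le_coe]
          omega
        rw [Api.coe_val w hg]
        exact le_trans h3 (add_le_add_left h2 _)
      · rw [Set.mem_union, not_or] at hwS
        have h1 : val w g = 0 := by
          by_contra hne
          exact hwS.1 ⟨hw, hne⟩
        have h2 : D w = 0 := by
          by_contra hne
          exact hwS.2 ⟨hw, hne⟩
        rw [Api.coe_val w hg, h1, h2, neg_zero, WithTop.coe_zero, add_zero]
        exact nonneg hw.2 h0 q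
  -- (2)
  obtain ⟨N, hN⟩ : ∃ N : ℕ, ∀ w ∈ {w : AddValuation E (WithTop ℤ) | Plc K w ∧ D w ≠ 0}, 2 * D w ≤ N := by
    obtain ⟨B, hB⟩ := (hD.image fun w => 2 * D w).bddAbove
    exact ⟨B.toNat, fun w hw => le_trans (hB ⟨w, hw, rfl⟩) (Int.self_le_toNat B)⟩
  obtain ⟨q, hq0, hq1⟩ := hq _ hD N
  have hprod : ∀ g ∈ M, ∀ h ∈ M, ∀ w : AddValuation E (WithTop ℤ), Plc K w → 0 ≤ w f →
      0 ≤ w (algebraMap (Polynomial K) E q * (g * h)) := by
    intro g hg h hh w hw h0
    have h1 := hg w hw h0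
    have h2 := hh w hw h0
    rw [hm2, AddValuation.map_mul, AddValuation.map_mul]
    have h3 : ((-(2 * D w) : ℤ) : WithTop ℤ) ≤ w g + w h := by
      have e : (-(2 * D w) : ℤ) = -(D w) + -(D w) := by ring
      rw [e, WithTop.coe_add]
      exact add_le_add h1 h2
    by_cases hwS : D w = 0
    · have h4 : (0 : WithTop ℤ) ≤ w g + w h := by
        rw [hwS] at h3
        simpa using h3
      exact add_nonneg (nonneg hw.2 h0 q) h4
    · have h4 := hN w ⟨hw, hwS⟩
      have h5 := hq1 w ⟨hw, hwS⟩ hw h0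
      refine le_trans ?_ (add_le_add h5 h3)
      rw [← WithTop.coe_add, ← WithTop.coe_zero, WithTop.coe_le_coe]
      omega
  have hb : ∀ g ∈ M, ∀ h ∈ M, ∃ r : Polynomial K, Algebra.trace E₁ E (algebraMap (Polynomial K) E q * (g * h)) =
      algebraMap (Polynomial K) E₁ r := by
    intro g hg h hh
    apply int_of hOrd hy
    intro p v hv
    have hP : Plc K v ∧ 0 ≤ v (y 0) := (hCls K E₁ y hy).2.1 p v hv
    have hdiv : Divisorial K v := hZdk K K E₁ (ffn hy) v hP.1
    apply hZtp K E₁ E v hdiv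
    rintro w ⟨hπ, e, hL⟩
    apply hprod g hg h hh w (XEqt.plc_up hP.1 hπ hL)
    rw [hf, ← Api.val_nonneg w (XEqt.map_ne hy0), hL.2 _ hy0]
    exact mul_nonneg (Int.natCast_nonneg e) ((Api.val_nonneg v hy0).2 hP.2)
  obtain ⟨b, hb'⟩ := LatZ.lattice M ha q hq0 hb
  exact ⟨b, fun g => hb' g⟩

end Pool.Agent.Work.MP_a2680c_ag.HA
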