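import Pool.Agent.Work.MP_a2680c_ag.HA.StmtsZ

/-! Item [a2680c HA Zod] (helper88): the order of a vector field at a place exists. -/

set_option autoImplicit false

noncomputable section

namespace Pool.Agent.Work.MP_a2680c_ag.HA

open MP7b66e6 MP7b66e6.Q
open scoped BigOperators

universe u

namespace XZod

variable {K E : Type u} [Field K] [Field E] [Algebra K E]

theorem exists_bound (w : AddValuation E (WithTop ℤ)) (θ : Derivation K E E) (S : Finset E) :
    ∃ M : ℤ, ∀ g ∈ S, (M : WithTop ℤ) ≤ w (θ g) := by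
  classical
  induction S using Finset.induction_on with
  | empty => exact ⟨0, by simp⟩
  | insert a S _ ih =>
    obtain ⟨M, hM⟩ := ih
    have h1 : ∃ m : ℤ, (m : WithTop ℤ) ≤ w (θ a) := by
      by_cases h : w (θ a) = ⊤
      · exact ⟨0, by rw [h]; exact le_top⟩
      · obtain ⟨m, hm⟩ := WithTop.ne_top_iff_exists.1 h
        exact ⟨m, hm.le⟩
    obtain ⟨m, hm⟩ := h1
    refine ⟨min M m, ?_⟩
    intro g hg
    rcases Finset.mem_insert.1 hg with rfl | hg
    · refine le_trans ?_ hm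
      exact_mod_cast min_le_right M m
    · refine le_trans ?_ (hM g hg)
      exact_mod_cast min_le_left M m

theorem le_mul (w : AddValuation E (WithTop ℤ)) {M : WithTop ℤ} {a b : E} (ha : 0 ≤ w a)
    (hb : M ≤ w b) : M ≤ w (a * b) := by
  rw [AddValuation.map_mul]
  calc M = 0 + M := (zero_add M).symm
    _ ≤ w a + w b := add_le_add ha hb

theorem bound_adjoin (w : AddValuation E (WithTop ℤ)) (θ : Derivation K E E) (S : Finset E)
    (hS : ∀ a ∈ Algebra.adjoin K (S : Set E), 0 ≤ w a) (M : WithTop ℤ)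
    (hM : ∀ g ∈ S, M ≤ w (θ g)) : ∀ a ∈ Algebra.adjoin K (S : Set E), M ≤ w (θ a) := by
  intro a ha
  induction ha using Algebra.adjoin_induction with
  | mem x hx => exact hM x (by simpa using hx)
  | algebraMap r =>
    rw [Derivation.map_algebraMap, AddValuation.map_zero]
    exact le_top
  | add x y _ _ hx hy =>
    rw [map_add]
    exact le_trans (le_min hx hy) (AddValuation.map_add w _ _)
  | mul x y hx0 hy0 hx hy =>
    rw [Derivation.leibniz, smul_eq_mul, smul_eq_mul]
    exact le_trans (le_min (le_mul w (hS x hx0) hy) (le_mul w (hS y hy0) hx))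
      (AddValuation.map_add w _ _)

theorem bound (w : AddValuation E (WithTop ℤ)) (θ : Derivation K E E) (hw : Divisorial K w) :
    ∃ M : ℤ, ∀ f : E, 0 ≤ w f → (M : WithTop ℤ) ≤ w (θ f) := by
  obtain ⟨-, C, ⟨S, hSC⟩, hC, hfr⟩ := hw
  obtain ⟨M, hM⟩ := exists_bound w θ S
  have h1 : ∀ a ∈ C, (M : WithTop ℤ) ≤ w (θ a) := by
    intro a ha
    rw [← hSC] at ha
    refine bound_adjoin w θ S ?_ M hM a ha
    intro b hb
    rw [hSC] at hb
    exact hC b hb
  refine ⟨M, ?_⟩
  intro f hf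
  obtain ⟨a, ha, s, hs, hs0, hfs⟩ := hfr f hf
  have h2 : s * θ f = θ a - f * θ s := by
    rw [← hfs, Derivation.leibniz, smul_eq_mul, smul_eq_mul]
    ring
  have h3 : w (θ f) = w (s * θ f) := by
    rw [AddValuation.map_mul, hs0, zero_add]
  rw [h3, h2]
  exact le_trans (le_min (h1 a ha) (le_mul w hf (h1 s hs))) (AddValuation.map_sub w _ _)

theorem exists_ne (w : AddValuation E (WithTop ℤ)) (θ : Derivation K E E) (hθ : θ ≠ 0) :
    ∃ f : E, 0 ≤ w f ∧ θ f ≠ 0 := by
  have h1 : ∃ f, θ f ≠ 0 := by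
    by_contra hcon
    push Not at hcon
    exact hθ (Derivation.ext hcon)
  obtain ⟨f, hf⟩ := h1
  by_cases h : 0 ≤ w f
  · exact ⟨f, h, hf⟩
  · have hf0 : f ≠ 0 := by
      rintro rfl
      exact hf (map_zero θ)
    refine ⟨f⁻¹, ?_, ?_⟩
    · rw [not_le] at h
      have h2 := Api.coe_val w hf0
      have h3 := Api.coe_val w (inv_ne_zero hf0)
      rw [h2] at h
      rw [h3, Api.val_inv w hf0]
      have h4 : val w f < 0 := by exact_mod_cast h
      have h5 : 0 ≤ -val w f := by omega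
      exact_mod_cast h5
    · intro h2
      apply hf
      have h3 : θ (f * f⁻¹) = 0 := by
        rw [mul_inv_cancel₀ hf0, Derivation.map_one_eq_zero]
      rw [Derivation.leibniz, h2, smul_zero, zero_add, smul_eq_mul] at h3
      exact (mul_eq_zero.1 h3).resolve_left (inv_ne_zero hf0)

end XZod

theorem pr_Zod (hZdk : StZdk.{u}) : StZod.{u} := by
  intro K E _ _ _ _ hF θ hθ w hw
  have hD : Divisorial K w := hZdk K K E hF w hw
  obtain ⟨M, hM⟩ := XZod.bound w θ hD
  obtain ⟨f, hf, hf0⟩ := XZod.exists_ne w θ hθ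
  obtain ⟨c, ⟨g, hg, hgc⟩, hmin⟩ := Int.exists_least_of_bdd
    (P := fun m : ℤ => ∃ g : E, 0 ≤ w g ∧ w (θ g) = (m : WithTop ℤ))
    ⟨M, by
      rintro z ⟨g, hg, hz⟩
      have h1 := hM g hg
      rw [hz] at h1
      exact_mod_cast h1⟩
    ⟨val w (θ f), f, hf, Api.coe_val w hf0⟩
  refine ⟨c, ?_, g, hg, hgc⟩
  intro h hh
  by_cases h0 : θ h = 0
  · rw [h0, AddValuation.map_zero]
    exact le_top
  · rw [Api.coe_val w h0]
    exact_mod_cast hmin (val w (θ h)) ⟨h, hh, Api.coe_val w h0⟩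

end Pool.Agent.Work.MP_a2680c_ag.HA
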