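import Pool.Agent.Work.MP_a2680c_ag.HA.StmtsZ

/-! Item [a2680c HA Zor]: orders of derivatives. -/

set_option autoImplicit false

noncomputable section

namespace Pool.Agent.Work.MP_a2680c_ag.HA

open MP7b66e6 MP7b66e6.Q
open scoped BigOperators

universe u

namespace XZor

open Polynomial

variable {K E : Type u} [Field K] [Field E] [Algebra K E]

theorem alg_over (hF : FFn K E) (g : E) (hg : Transcendental K g) :
    Algebra.IsAlgebraic (Algebra.adjoin K {g}) E := by
  obtain ⟨-, x, hx⟩ := hF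
  have h1 : AlgebraicIndependent K ![g] := algebraicIndependent_iff_transcendental.2 hg
  have h2 : IsTranscendenceBasis K ![g] := by
    apply h1.isTranscendenceBasis_of_lift_trdeg_le_of_finite
    rw [← hx.lift_cardinalMk_eq_trdeg]
  have h3 := h2.isAlgebraic
  rwa [Matrix.range_cons, Matrix.range_empty, Set.union_empty] at h3

theorem ne_zero_of_eq_one {w : AddValuation E (WithTop ℤ)} {π : E} (hπ : w π = 1) : π ≠ 0 := by
  rintro rfl
  rw [AddValuation.map_zero] at hπ
  exact absurd hπ (by simp)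

theorem pow_nonneg' (w : AddValuation E (WithTop ℤ)) {π : E} (hπ : 0 ≤ w π) (n : ℕ) : 0 ≤ w (π ^ n) := by
  rw [AddValuation.map_pow]
  exact nsmul_nonneg hπ n

theorem aeval_nonneg (w : AddValuation E (WithTop ℤ)) (hK : ∀ c : K, 0 ≤ w (algebraMap K E c)) {g : E}
    (hg : 0 ≤ w g) (P : K[X]) : 0 ≤ w (aeval g P) := by
  have hle : Algebra.adjoin K {g} ≤ Api.ring w hK := Algebra.adjoin_le (Set.singleton_subset_iff.2 hg)
  exact hle (aeval_mem_adjoin_singleton _ _)

theorem exists_poly (hF : FFn K E) (w : AddValuation E (WithTop ℤ)) (hw : Plc K w) (g : E) (hg : 0 ≤ w g) :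
    ∃ P : K[X], P ≠ 0 ∧ 0 < w (aeval g P) := by
  by_cases ha : IsAlgebraic K g
  · obtain ⟨P, hP, h⟩ := ha
    refine ⟨P, hP, ?_⟩
    rw [h, AddValuation.map_zero]
    exact WithTop.coe_lt_top 0
  · obtain ⟨⟨π, hπ⟩, hK⟩ := hw
    have hπ0 : π ≠ 0 := ne_zero_of_eq_one hπ
    have hπn : 0 ≤ w π := by rw [hπ]; exact zero_le_one
    have hle : Algebra.adjoin K {g} ≤ Api.ring w hK := Algebra.adjoin_le (Set.singleton_subset_iff.2 hg)
    have hal := alg_over hF g ha
    obtain ⟨q, hq0, hq⟩ := (hal.isAlgebraic π).exists_nonzero_coeff_and_aeval_eq_zero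
      (mem_nonZeroDivisors_of_ne_zero hπ0)
    have hd : 0 ≤ w (aeval π q.divX) := by
      rw [aeval_eq_sum_range]
      refine AddValuation.map_le_sum _ ?_
      intro i _
      rw [Algebra.smul_def, AddValuation.map_mul]
      exact add_nonneg (hle (q.divX.coeff i).2) (pow_nonneg' w hπn i)
    have hc : ((q.coeff 0 : Algebra.adjoin K {g}) : E) = -(aeval π q.divX * π) := by
      have h1 := congrArg (aeval π) q.divX_mul_X_add
      rw [map_add, map_mul, aeval_X, aeval_C, hq] at h1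
      exact eq_neg_of_add_eq_zero_right h1
    have hall : ∀ z ∈ Algebra.adjoin K {g}, ∃ P : K[X], aeval g P = z := by
      intro z hz
      rw [Algebra.adjoin_singleton_eq_range_aeval] at hz
      exact hz
    obtain ⟨P, hP⟩ := hall _ (q.coeff 0).2
    refine ⟨P, ?_, ?_⟩
    · rintro rfl
      apply hq0
      apply Subtype.ext
      rw [← hP]
      simp
    · have hP' : aeval g P = -(aeval π q.divX * π) := hP.trans hc
      rw [hP', AddValuation.map_neg, AddValuation.map_mul, hπ]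
      exact lt_of_lt_of_le zero_lt_one (le_add_of_nonneg_left hd)

/-- if `w (θ π) > c` then `w (θ f) > c` for all `f` of positive value -/
theorem pos_val {w : AddValuation E (WithTop ℤ)} {θ : Derivation K E E} {c : ℤ}
    (hθ : ∀ f : E, 0 ≤ w f → (c : WithTop ℤ) ≤ w (θ f)) {π : E} (hπ : w π = 1)
    (hc : (c : WithTop ℤ) < w (θ π)) {f : E} (hf : 0 < w f) : (c : WithTop ℤ) < w (θ f) := by
  have hπ0 : π ≠ 0 := ne_zero_of_eq_one hπ
  by_cases hf0 : f = 0
  · rw [hf0, map_zero, AddValuation.map_zero]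
    exact WithTop.coe_lt_top c
  have hh0 : f / π ≠ 0 := div_ne_zero hf0 hπ0
  have hh : 0 ≤ w (f / π) := by
    rw [← Api.val_nonneg w hh0, Api.val_div w hf0 hπ0, Api.val_of w (m := 1) hπ]
    rw [Api.coe_val w hf0, ← WithTop.coe_zero, WithTop.coe_lt_coe] at hf
    omega
  have h1 : f = π * (f / π) := by field_simp
  have h2 : θ f = π * θ (f / π) + (f / π) * θ π := by
    conv_lhs => rw [h1]
    rw [Derivation.leibniz, smul_eq_mul, smul_eq_mul]
  rw [h2]
  refine lt_of_lt_of_le (lt_min ?_ ?_) (AddValuation.map_add w _ _)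
  · rw [AddValuation.map_mul, hπ]
    have h3 := hθ _ hh
    refine lt_of_lt_of_le ?_ (add_le_add_right h3 1)
    have h4 : (1 : WithTop ℤ) + (c : WithTop ℤ) = ((1 + c : ℤ) : WithTop ℤ) := rfl
    rw [h4, WithTop.coe_lt_coe]
    omega
  · rw [AddValuation.map_mul]
    exact lt_of_lt_of_le hc (le_add_of_nonneg_left hh)

theorem order_unif [CharZero K] (hF : FFn K E) (w : AddValuation E (WithTop ℤ)) (θ : Derivation K E E) (c : ℤ)
    (hw : Plc K w) (hc : Odr w θ c) {π : E} (hπ : w π = 1) : w (θ π) = (c : WithTop ℤ) := by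
  obtain ⟨hθ, f, hf0, hf⟩ := hc
  have hπn : 0 ≤ w π := by rw [hπ]; exact zero_le_one
  by_contra hne
  have hlt : (c : WithTop ℤ) < w (θ π) := lt_of_le_of_ne (hθ π hπn) (Ne.symm hne)
  -- a nonzero polynomial of least degree
  have hex : ∃ n : ℕ, ∃ P : K[X], P ≠ 0 ∧ 0 < w (aeval f P) ∧ P.natDegree = n := by
    obtain ⟨P, hP, h⟩ := exists_poly hF w hw f hf0
    exact ⟨_, P, hP, h, rfl⟩
  classical
  obtain ⟨P, hP0, hP, hPn⟩ := Nat.find_spec hex
  have hmin : ∀ Q : K[X], Q ≠ 0 → Q.natDegree < P.natDegree → ¬ 0 < w (aeval f Q) := by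
    intro Q hQ hQn h
    rw [hPn] at hQn
    exact Nat.find_min hex hQn ⟨Q, hQ, h, rfl⟩
  have hdeg : P.natDegree ≠ 0 := by
    intro h0
    obtain ⟨a, ha⟩ := natDegree_eq_zero.1 h0
    have ha0 : a ≠ 0 := by
      rintro rfl
      rw [map_zero] at ha
      exact hP0 ha.symm
    rw [← ha, aeval_C, Api.val_algebraMap hw.2 ha0] at hP
    exact lt_irrefl _ hP
  have hder : derivative P ≠ 0 := by
    intro h
    exact hdeg (derivative_eq_zero.1 h)
  have hderd : (derivative P).natDegree < P.natDegree := natDegree_derivative_lt hdeg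
  have h0 : w (aeval f (derivative P)) = 0 :=
    le_antisymm (not_lt.1 (hmin _ hder hderd)) (aeval_nonneg w hw.2 hf0 _)
  have h1 := pos_val hθ hπ hlt hP
  rw [Derivation.map_aeval, smul_eq_mul, AddValuation.map_mul, h0, zero_add, hf] at h1
  exact lt_irrefl _ h1

end XZor

theorem pr_Zor : StZor.{u} := by
  intro K E _ _ _ _ hF w θ c hw hc f m hm hf
  obtain ⟨⟨π, hπ⟩, hK⟩ := id hw
  have hπ1 := XZor.order_unif hF w θ c hw hc hπ
  have hπ0 : π ≠ 0 := XZor.ne_zero_of_eq_one hπ
  have hf0 : f ≠ 0 := by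
    rintro rfl
    rw [AddValuation.map_zero] at hf
    exact WithTop.coe_ne_top hf.symm
  have hz0 : π ^ m ≠ 0 := zpow_ne_zero m hπ0
  have hz1 : π ^ (m - 1) ≠ 0 := zpow_ne_zero _ hπ0
  have hθπ0 : θ π ≠ 0 := by
    intro h
    rw [h, AddValuation.map_zero] at hπ1
    exact WithTop.coe_ne_top hπ1.symm
  have hh0 : f / π ^ m ≠ 0 := div_ne_zero hf0 hz0
  have hvπ : val w π = 1 := Api.val_of w hπ
  have hvz : val w (π ^ m) = m := by rw [Api.val_zpow w hπ0, hvπ, mul_one]
  have hvh : val w (f / π ^ m) = 0 := by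
    rw [Api.val_div w hf0 hz0, hvz, Api.val_of w hf, sub_self]
  have hwh : w (f / π ^ m) = 0 := by rw [Api.coe_val w hh0, hvh]; rfl
  have h1 : f = π ^ m * (f / π ^ m) := by field_simp
  have h2 : θ f = π ^ m * θ (f / π ^ m) + (f / π ^ m) * (algebraMap K E (m : K) * (π ^ (m - 1) * θ π)) := by
    conv_lhs => rw [h1]
    rw [Derivation.leibniz, Derivation.leibniz_zpow]
    simp only [smul_eq_mul, zsmul_eq_mul, map_intCast]
  have hmK : (m : K) ≠ 0 := Int.cast_ne_zero.2 hm
  have h3 : w ((f / π ^ m) * (algebraMap K E (m : K) * (π ^ (m - 1) * θ π))) = ((c + m - 1 : ℤ) : WithTop ℤ) := by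
    rw [AddValuation.map_mul, AddValuation.map_mul, AddValuation.map_mul, hwh, Api.val_algebraMap hK hmK, hπ1,
      Api.coe_val w hz1, Api.val_zpow w hπ0, hvπ, zero_add, zero_add, ← WithTop.coe_add, WithTop.coe_inj]
    ring
  have h4 : ((c + m - 1 : ℤ) : WithTop ℤ) < w (π ^ m * θ (f / π ^ m)) := by
    rw [AddValuation.map_mul, Api.coe_val w hz0, hvz]
    have h5 := hc.1 (f / π ^ m) (by rw [hwh])
    refine lt_of_lt_of_le ?_ (add_le_add_right h5 _)
    rw [← WithTop.coe_add, WithTop.coe_lt_coe]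
    omega
  rw [h2, AddValuation.map_add_eq_of_lt_right, h3]
  rw [h3]
  exact h4

end Pool.Agent.Work.MP_a2680c_ag.HA
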