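import Pool.Agent.Work.MP_a2680c_ag.HA.StmtsZ

/-!
# MP_a2680c_ag, block HA, item Zpe (helper34): the residue field of a place is generated by one element
-/

set_option autoImplicit false

noncomputable section

namespace Pool.Agent.Work.MP_a2680c_ag.HA

open MP7b66e6 MP7b66e6.Q
open scoped BigOperators

universe u

namespace XZpe

section basics
variable {K E : Type u} [Field K] [Field E] [Algebra K E] {w : AddValuation E (WithTop ℤ)}

theorem pos_add {x y : E} (hx : 0 < w x) (hy : 0 < w y) : 0 < w (x + y) :=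
  lt_of_lt_of_le (lt_min hx hy) (AddValuation.map_add w x y)

theorem nonneg_add {x y : E} (hx : 0 ≤ w x) (hy : 0 ≤ w y) : 0 ≤ w (x + y) :=
  le_trans (le_min hx hy) (AddValuation.map_add w x y)

theorem pos_mul {x y : E} (hx : 0 < w x) (hy : 0 ≤ w y) : 0 < w (x * y) := by
  rw [AddValuation.map_mul]
  exact add_pos_of_pos_of_nonneg hx hy

theorem pos_neg {x : E} (hx : 0 < w x) : 0 < w (-x) := by
  rw [AddValuation.map_neg]; exact hx

theorem pos_sum {ι : Type*} (s : Finset ι) (f : ι → E) (h : ∀ i ∈ s, 0 < w (f i)) : 0 < w (∑ i ∈ s, f i) := by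
  classical
  induction s using Finset.induction_on with
  | empty => rw [Finset.sum_empty, AddValuation.map_zero]; exact WithTop.coe_lt_top 0
  | insert i s hi ih =>
    rw [Finset.sum_insert hi]
    exact pos_add (h i (Finset.mem_insert_self i s)) (ih fun j hj => h j (Finset.mem_insert_of_mem hj))

theorem aeval_nonneg (hc : ∀ c : K, 0 ≤ w (algebraMap K E c)) {g : E} (hg : 0 ≤ w g) (p : Polynomial K) :
    0 ≤ w (Polynomial.aeval g p) := by
  have h := Subalgebra.aeval_coe (Api.ring w hc) ⟨g, hg⟩ p
  have h2 : Polynomial.aeval g p = ((Polynomial.aeval (⟨g, hg⟩ : Api.ring w hc) p : Api.ring w hc) : E) := h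
  rw [h2]
  exact (Polynomial.aeval (⟨g, hg⟩ : Api.ring w hc) p).2

/-- the value of a polynomial at a uniformizer -/
theorem pol (hc : ∀ c : K, 0 ≤ w (algebraMap K E c)) {π : E} (hπ : w π = 1) :
    ∀ (n : ℕ) (p : Polynomial K), p.natDegree ≤ n → p ≠ 0 → ∃ (k : ℕ) (a : K), a ≠ 0 ∧ ∃ e : E, 0 < w e ∧
      Polynomial.aeval π p = π ^ k * (algebraMap K E a + e) := by
  have hπ0 : (0 : WithTop ℤ) ≤ w π := by rw [hπ]; exact zero_le_one
  have hπ1 : (0 : WithTop ℤ) < w π := by rw [hπ]; exact zero_lt_one
  have caseA : ∀ p : Polynomial K, p.coeff 0 ≠ 0 → ∃ (k : ℕ) (a : K), a ≠ 0 ∧ ∃ e : E, 0 < w e ∧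
      Polynomial.aeval π p = π ^ k * (algebraMap K E a + e) := by
    intro p h0
    refine ⟨0, p.coeff 0, h0, π * Polynomial.aeval π p.divX, pos_mul hπ1 (aeval_nonneg hc hπ0 _), ?_⟩
    have h1 := congrArg (Polynomial.aeval π) (Polynomial.divX_mul_X_add p)
    rw [map_add, map_mul, Polynomial.aeval_X, Polynomial.aeval_C] at h1
    rw [← h1, pow_zero, one_mul]
    ring
  intro n
  induction n with
  | zero =>
    intro p hp hne
    apply caseA
    intro h0
    apply hne
    rw [Polynomial.eq_C_of_natDegree_le_zero hp, h0, Polynomial.C_0]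
  | succ n ih =>
    intro p hp hne
    by_cases h0 : p.coeff 0 = 0
    · have h1 : p.divX * Polynomial.X = p := by
        have := Polynomial.divX_mul_X_add p
        rw [h0, Polynomial.C_0, add_zero] at this
        exact this
      have hd : p.divX ≠ 0 := by
        intro h2
        rw [h2, zero_mul] at h1
        exact hne h1.symm
      have hdeg : p.divX.natDegree ≤ n := by
        rw [Polynomial.natDegree_divX_eq_natDegree_tsub_one]
        omega
      obtain ⟨k, a, ha, e, he, h2⟩ := ih p.divX hdeg hd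
      refine ⟨k + 1, a, ha, e, he, ?_⟩
      rw [← h1, map_mul, Polynomial.aeval_X, h2]
      ring
    · exact caseA p h0

theorem unit_val (hc : ∀ c : K, 0 ≤ w (algebraMap K E c)) {a : K} (ha : a ≠ 0) {e : E} (he : 0 < w e) :
    algebraMap K E a + e ≠ 0 ∧ val w (algebraMap K E a + e) = 0 := by
  have hva : w (algebraMap K E a) = 0 := Api.val_algebraMap hc ha
  have h1 : w (algebraMap K E a + e) = 0 := by
    apply le_antisymm
    · by_contra hlt
      have hlt' : 0 < w (algebraMap K E a + e) := not_le.1 hlt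
      have h2 := pos_add hlt' (pos_neg he)
      rw [add_neg_cancel_right, hva] at h2
      exact lt_irrefl _ h2
    · exact nonneg_add hva.ge he.le
  refine ⟨?_, Api.val_of w (by rw [h1]; rfl)⟩
  intro h0
  rw [h0, AddValuation.map_zero] at h1
  exact WithTop.top_ne_zero h1

/-- elements of `K(π)` of value `≥ 0` are congruent to constants -/
theorem resL (hc : ∀ c : K, 0 ≤ w (algebraMap K E c)) {π : E} (hπ : w π = 1) (c : E)
    (hcL : c ∈ IntermediateField.adjoin K {π}) (h0 : 0 ≤ w c) : ∃ a : K, 0 < w (c - algebraMap K E a) := by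
  have hzero : c = 0 → ∃ a : K, 0 < w (c - algebraMap K E a) := by
    intro h
    refine ⟨0, ?_⟩
    rw [h, map_zero, sub_zero, AddValuation.map_zero]
    exact WithTop.coe_lt_top 0
  obtain ⟨r, s, hrs⟩ := (IntermediateField.mem_adjoin_simple_iff K c).1 hcL
  by_cases hr : r = 0
  · exact hzero (by rw [hrs, hr, map_zero, zero_div])
  by_cases hs : s = 0
  · exact hzero (by rw [hrs, hs, map_zero, div_zero])
  obtain ⟨n, a, ha, e, he, h1⟩ := pol hc hπ r.natDegree r le_rfl hr
  obtain ⟨m, b, hb, d, hd, h2⟩ := pol hc hπ s.natDegree s le_rfl hs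
  obtain ⟨hae, hvae⟩ := unit_val hc ha he
  obtain ⟨hbd, hvbd⟩ := unit_val hc hb hd
  have hπ0 : π ≠ 0 := by
    intro h
    rw [h, AddValuation.map_zero] at hπ
    exact WithTop.top_ne_one hπ
  have hvπ : val w π = 1 := Api.val_of w (by rw [hπ]; rfl)
  have hcne : c ≠ 0 := by
    rw [hrs, h1, h2]
    exact div_ne_zero (mul_ne_zero (pow_ne_zero _ hπ0) hae) (mul_ne_zero (pow_ne_zero _ hπ0) hbd)
  have hvc : val w c = (n : ℤ) - m := by
    rw [hrs, h1, h2, Api.val_div w (mul_ne_zero (pow_ne_zero _ hπ0) hae) (mul_ne_zero (pow_ne_zero _ hπ0) hbd),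
      Api.val_mul w (pow_ne_zero _ hπ0) hae, Api.val_mul w (pow_ne_zero _ hπ0) hbd, Api.val_pow w hπ0,
      Api.val_pow w hπ0, hvae, hvbd, hvπ]
    ring
  rcases Nat.lt_or_ge m n with hlt | hge
  · refine ⟨0, ?_⟩
    rw [map_zero, sub_zero, Api.coe_val w hcne, hvc, ← WithTop.coe_zero, WithTop.coe_lt_coe]
    omega
  · have h3 : 0 ≤ val w c := (Api.val_nonneg w hcne).2 h0
    have hnm : n = m := by omega
    subst hnm
    have hb' : algebraMap K E b ≠ 0 := by simpa using hb
    refine ⟨a / b, ?_⟩
    have h4 : c - algebraMap K E (a / b) =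
        (algebraMap K E b * e - algebraMap K E a * d) * (algebraMap K E b * (algebraMap K E b + d))⁻¹ := by
      rw [hrs, h1, h2, map_div₀]
      have hp := pow_ne_zero n hπ0
      field_simp
      ring
    rw [h4]
    apply pos_mul
    · rw [sub_eq_add_neg]
      apply pos_add
      · rw [mul_comm]; exact pos_mul he (hc b)
      · apply pos_neg
        rw [mul_comm]; exact pos_mul hd (hc a)
    · have h5 : algebraMap K E b * (algebraMap K E b + d) ≠ 0 := mul_ne_zero hb' hbd
      rw [← Api.val_nonneg w (inv_ne_zero h5), Api.val_inv w h5, Api.val_mul w hb' hbd, hvbd,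
        Api.val_of w (m := 0) (by rw [Api.val_algebraMap hc hb]; rfl)]
      omega

/-- independent residues are independent over `K(π)` -/
theorem indep (hc : ∀ c : K, 0 ≤ w (algebraMap K E c)) {π : E} (hπ : w π = 1) {ι : Type*} [Fintype ι]
    (g : ι → E) (hg : ∀ i, 0 ≤ w (g i))
    (hind : ∀ a : ι → K, 0 < w (∑ i, algebraMap K E (a i) * g i) → ∀ i, a i = 0) :
    LinearIndependent (IntermediateField.adjoin K {π}) g := by
  classical
  rw [Fintype.linearIndependent_iff]
  intro c hsum
  by_contra hcon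
  push Not at hcon
  obtain ⟨i₀, hi₀⟩ := hcon
  obtain ⟨i₁, -, hmin⟩ := Finset.exists_min_image Finset.univ (fun i => w ((c i : IntermediateField.adjoin K {π}) : E))
    ⟨i₀, Finset.mem_univ i₀⟩
  have hci₀ : ((c i₀ : IntermediateField.adjoin K {π}) : E) ≠ 0 := by
    intro h
    exact hi₀ (Subtype.ext h)
  have hci₁ : ((c i₁ : IntermediateField.adjoin K {π}) : E) ≠ 0 := by
    intro h
    have h1 := hmin i₀ (Finset.mem_univ _)
    simp only [h, AddValuation.map_zero, top_le_iff] at h1
    exact hci₀ ((AddValuation.top_iff w).1 h1)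
  have hnn : ∀ i, 0 ≤ w (((c i / c i₁ : IntermediateField.adjoin K {π})) : E) := by
    intro i
    by_cases hz : ((c i : IntermediateField.adjoin K {π}) : E) = 0
    · have : ((c i / c i₁ : IntermediateField.adjoin K {π}) : E) = 0 := by
        push_cast
        rw [hz, zero_div]
      rw [this, AddValuation.map_zero]
      exact le_top
    · have h1 := hmin i (Finset.mem_univ _)
      have h2 : ((c i / c i₁ : IntermediateField.adjoin K {π}) : E) = (c i : E) / (c i₁ : E) := by push_cast; rfl
      rw [h2, ← Api.val_nonneg w (div_ne_zero hz hci₁), Api.val_div w hz hci₁]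
      simp only [Api.coe_val w hz, Api.coe_val w hci₁, WithTop.coe_le_coe] at h1
      omega
  choose a ha using fun i => resL hc hπ _ (c i / c i₁).2 (hnn i)
  have hs2 : ∑ i, (((c i / c i₁ : IntermediateField.adjoin K {π})) : E) * g i = 0 := by
    have h1 : ∀ i, (((c i / c i₁ : IntermediateField.adjoin K {π})) : E) * g i = ((c i₁ : E))⁻¹ * (c i • g i) := by
      intro i
      rw [IntermediateField.smul_def, smul_eq_mul]
      push_cast
      rw [div_eq_mul_inv]
      ring
    rw [Finset.sum_congr rfl fun i _ => h1 i, ← Finset.mul_sum, hsum, mul_zero]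
  have hpos : 0 < w (∑ i, algebraMap K E (a i) * g i) := by
    have h1 : ∑ i, algebraMap K E (a i) * g i =
        - ∑ i, ((((c i / c i₁ : IntermediateField.adjoin K {π})) : E) - algebraMap K E (a i)) * g i := by
      have h2 : ∑ i, ((((c i / c i₁ : IntermediateField.adjoin K {π})) : E) - algebraMap K E (a i)) * g i =
          ∑ i, (((c i / c i₁ : IntermediateField.adjoin K {π})) : E) * g i - ∑ i, algebraMap K E (a i) * g i := by
        rw [← Finset.sum_sub_distrib]
        exact Finset.sum_congr rfl fun i _ => by ring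
      rw [h2, hs2]
      ring
    rw [h1]
    apply pos_neg
    exact pos_sum _ _ fun i _ => pos_mul (ha i) (hg i)
  have h3 := hind a hpos i₁
  have h4 := ha i₁
  rw [h3, map_zero, sub_zero] at h4
  have h5 : ((c i₁ / c i₁ : IntermediateField.adjoin K {π}) : E) = 1 := by
    push_cast
    exact div_self hci₁
  rw [h5, AddValuation.map_one] at h4
  exact lt_irrefl _ h4

/-- the maximal ideal -/
def mx (w : AddValuation E (WithTop ℤ)) (hc : ∀ c : K, 0 ≤ w (algebraMap K E c)) : Ideal (Api.ring w hc) where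
  carrier := {x | 0 < w (x : E)}
  add_mem' := fun {x y} hx hy => pos_add (w := w) (x := (x : E)) (y := (y : E)) hx hy
  zero_mem' := by
    change 0 < w ((0 : Api.ring w hc) : E)
    rw [ZeroMemClass.coe_zero, AddValuation.map_zero]
    exact WithTop.coe_lt_top 0
  smul_mem' := fun c x hx => by
    change 0 < w (((c • x : Api.ring w hc)) : E)
    rw [smul_eq_mul, MulMemClass.coe_mul, mul_comm]
    exact pos_mul (w := w) hx c.2

theorem mem_mx {hc : ∀ c : K, 0 ≤ w (algebraMap K E c)} {x : Api.ring w hc} : x ∈ mx w hc ↔ 0 < w (x : E) := Iff.rfl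

theorem mx_max (hc : ∀ c : K, 0 ≤ w (algebraMap K E c)) : (mx w hc).IsMaximal := by
  rw [Ideal.isMaximal_iff]
  constructor
  · rw [mem_mx, OneMemClass.coe_one, AddValuation.map_one]
    exact lt_irrefl _
  · intro J x _ hx hxJ
    have h0 : 0 ≤ w (x : E) := x.2
    have h1 : ¬ 0 < w (x : E) := fun h => hx h
    have h2 : w (x : E) = 0 := le_antisymm (not_lt.1 h1) h0
    have hx0 : (x : E) ≠ 0 := by
      intro h
      rw [h, AddValuation.map_zero] at h2
      exact WithTop.top_ne_zero h2
    have hinv : 0 ≤ w ((x : E)⁻¹) := by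
      rw [← Api.val_nonneg w (inv_ne_zero hx0), Api.val_inv w hx0, Api.val_of w (m := 0) (by rw [h2]; rfl)]
      omega
    have h3 : (⟨(x : E)⁻¹, hinv⟩ : Api.ring w hc) * x ∈ J := J.mul_mem_left _ hxJ
    have h4 : (⟨(x : E)⁻¹, hinv⟩ : Api.ring w hc) * x = 1 := by
      apply Subtype.ext
      exact inv_mul_cancel₀ hx0
    rwa [h4] at h3

end basics

end XZpe

theorem pr_Zpe : StZpe.{u} := by
  intro K E _ _ _ _ hF w hw
  obtain ⟨⟨π, hπ⟩, hc⟩ := hw
  obtain ⟨hess, x, hx⟩ := hF
  haveI := hess
  -- `E` is finite over `K(π)`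
  have hπ0 : π ≠ 0 := by
    intro h
    rw [h, AddValuation.map_zero] at hπ
    exact WithTop.top_ne_one hπ
  have htr : Transcendental K π := by
    intro halg
    obtain ⟨p, hp, h0⟩ := halg
    obtain ⟨k, a, ha, e, he, h1⟩ := XZpe.pol hc hπ p.natDegree p le_rfl hp
    rw [h0] at h1
    exact mul_ne_zero (pow_ne_zero _ hπ0) (XZpe.unit_val hc ha he).1 h1.symm
  have hyi : AlgebraicIndependent K (fun _ : Fin 1 => π) := by
    rw [algebraicIndependent_singleton_iff (0 : Fin 1)]
    exact htr
  have hyb : IsTranscendenceBasis K (fun _ : Fin 1 => π) := by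
    apply hyi.isTranscendenceBasis_of_lift_trdeg_le_of_finite
    have h := hx.lift_cardinalMk_eq_trdeg
    rw [← h]
  have halg : Algebra.IsAlgebraic (IntermediateField.adjoin K {π}) E := by
    have h1 : Set.range (fun _ : Fin 1 => π) = {π} := Set.range_const
    have h2 := hyb.isAlgebraic_field
    rw [h1] at h2
    exact h2
  haveI hess2 : Algebra.EssFiniteType (IntermediateField.adjoin K {π}) E := Algebra.EssFiniteType.of_comp K _ E
  haveI hfin : FiniteDimensional (IntermediateField.adjoin K {π}) E := Algebra.finite_of_essFiniteType_of_isAlgebraic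
  -- the residue field
  haveI hmax := XZpe.mx_max (w := w) hc
  obtain ⟨m, hm⟩ : ∃ m, m = XZpe.mx w hc := ⟨_, rfl⟩
  rw [← hm] at hmax
  have hmem : ∀ y : Api.ring w hc, y ∈ m ↔ 0 < w (y : E) := by
    intro y
    rw [hm]
    exact XZpe.mem_mx
  letI : Field (Api.ring w hc ⧸ m) := Ideal.Quotient.field m
  have hrank : Module.rank K (Api.ring w hc ⧸ m) ≤ (Module.finrank (IntermediateField.adjoin K {π}) E : Cardinal) := by
    apply rank_le
    intro s hs
    choose g hg using fun i : s => Ideal.Quotient.mk_surjective (I := m) (i : Api.ring w hc ⧸ m)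
    have hli := XZpe.indep hc hπ (fun i : s => ((g i : Api.ring w hc) : E)) (fun i => (g i).2) (by
      intro a ha i
      rw [Fintype.linearIndependent_iff] at hs
      apply hs a
      have h1 : (∑ i : s, a i • g i) ∈ m := by
        rw [hmem]
        have h2 : (((∑ i : s, a i • g i : Api.ring w hc)) : E) = ∑ i : s, algebraMap K E (a i) * ((g i : Api.ring w hc) : E) := by
          rw [AddSubmonoidClass.coe_finsetSum]
          exact Finset.sum_congr rfl fun i _ => by
            rw [SetLike.val_smul, Algebra.smul_def]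
        rw [h2]
        exact ha
      have h3 : Ideal.Quotient.mk m (∑ i : s, a i • g i) = 0 := Ideal.Quotient.eq_zero_iff_mem.2 h1
      rw [map_sum] at h3
      rw [← h3]
      refine Finset.sum_congr rfl fun i _ => ?_
      have h4 : Ideal.Quotient.mk m (a i • g i) = a i • Ideal.Quotient.mk m (g i) :=
        map_smul (Ideal.Quotient.mkₐ K m) (a i) (g i)
      rw [h4, hg i])
    have := hli.fintype_card_le_finrank
    rwa [Fintype.card_coe] at this
  haveI hfd : FiniteDimensional K (Api.ring w hc ⧸ m) :=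
    Module.rank_lt_aleph0_iff.1 (lt_of_le_of_lt hrank (Cardinal.nat_lt_aleph0 _))
  obtain ⟨α, hα⟩ := Field.exists_primitive_element K (Api.ring w hc ⧸ m)
  have hint : IsIntegral K α := Algebra.IsIntegral.isIntegral α
  have hall : ∀ y : Api.ring w hc ⧸ m, ∃ q : Polynomial K, Polynomial.aeval α q = y := by
    intro y
    have h1 : y ∈ (IntermediateField.adjoin K {α}).toSubalgebra := by
      rw [hα]
      exact Algebra.mem_top
    rw [IntermediateField.adjoin_simple_toSubalgebra_of_isAlgebraic hint.isAlgebraic,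
      Algebra.adjoin_singleton_eq_range_aeval] at h1
    exact h1
  obtain ⟨g, hg⟩ := Ideal.Quotient.mk_surjective (I := m) α
  have hae : ∀ q : Polynomial K, Ideal.Quotient.mk m (Polynomial.aeval g q) = Polynomial.aeval α q := by
    intro q
    rw [← hg]
    exact (Polynomial.aeval_algHom_apply (Ideal.Quotient.mkₐ K m) g q).symm
  have hco : ∀ q : Polynomial K, ((Polynomial.aeval g q : Api.ring w hc) : E) = Polynomial.aeval (g : E) q := by
    intro q
    exact (Subalgebra.aeval_coe (Api.ring w hc) g q).symm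
  refine ⟨(g : E), minpoly K α, g.2, minpoly.ne_zero hint, ?_, ?_⟩
  · rw [← hco, ← hmem, ← Ideal.Quotient.eq_zero_iff_mem, hae, minpoly.aeval]
  · intro h hh
    obtain ⟨q, hq⟩ := hall (Ideal.Quotient.mk m ⟨h, hh⟩)
    refine ⟨q, ?_⟩
    have h1 : (⟨h, hh⟩ : Api.ring w hc) - Polynomial.aeval g q ∈ m := by
      rw [← Ideal.Quotient.eq_zero_iff_mem, map_sub, hae, hq, sub_self]
    rw [hmem] at h1
    have h2 : (((⟨h, hh⟩ : Api.ring w hc) - Polynomial.aeval g q : Api.ring w hc) : E) = h - Polynomial.aeval (g : E) q := by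
      rw [AddSubgroupClass.coe_sub, hco]
    rwa [h2] at h1

end Pool.Agent.Work.MP_a2680c_ag.HA
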