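import Pool.Agent.Work.MP_a2680c_ag.HA.StmtsZ

/-! # MP_a2680c_ag, block HA, item Zpt: a point of the Jacobian -/

set_option autoImplicit false

noncomputable section

namespace Pool.Agent.Work.MP_a2680c_ag.HA

open MP7b66e6 MP7b66e6.Q
open scoped BigOperators

universe u

namespace XZpt

open WeierstrassCurve WeierstrassCurve.Affine

/-- `Lam` for a curve which is only propositionally equal to `WC a b` -/
def LamW {F : Type u} [Field F] (θ : Derivation ℤ F F) (a : F) (W : WeierstrassCurve.Affine F) :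
    W.Point → F → Prop
  | .zero, l => l = 0
  | @WeierstrassCurve.Affine.Point.some _ _ _ x y _, l => θ x = 2 * y * l ∧ θ y = (3 * x ^ 2 + a) * l

theorem lamW_iff {F : Type u} [Field F] (θ : Derivation ℤ F F) (a b : F) (Q : (WC a b).Point)
    (l : F) : LamW θ a (WC a b) Q l ↔ Lam θ a b Q l := by
  cases Q <;> rfl

open Classical in
theorem lamW_add (hZad : StZad.{u}) {F : Type u} [Field F] [CharZero F] (θ : Derivation ℤ F F)
    (a b : F) (ha : θ a = 0) (hb : θ b = 0) (W : WeierstrassCurve.Affine F) (hW : W = WC a b)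
    (Q Q' : W.Point) (l l' : F) (h : LamW θ a W Q l) (h' : LamW θ a W Q' l') :
    LamW θ a W (Q + Q') (l + l') := by
  subst hW
  rw [lamW_iff] at h h' ⊢
  exact hZad F θ a b ha hb Q Q' l l' h h'

theorem base_eq {E F : Type u} [Field E] [Field F] [Algebra E F] (a b : E) :
    (WeierstrassCurve.baseChange (WC a b) F : WeierstrassCurve.Affine F) =
      WC (algebraMap E F a) (algebraMap E F b) := by
  simp [WC, WeierstrassCurve.baseChange, WeierstrassCurve.map]

/-- equation and nonsingularity on `y^2 = x^3 + a x + b` -/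
theorem nonsing_iff {F : Type u} [Field F] (a b : F) (W : WeierstrassCurve.Affine F)
    (hW : W = WC a b) (x y : F) :
    W.Nonsingular x y ↔ y ^ 2 = x ^ 3 + a * x + b ∧ (3 * x ^ 2 + a ≠ 0 ∨ y ≠ -y) := by
  subst hW
  rw [WeierstrassCurve.Affine.nonsingular_iff, WeierstrassCurve.Affine.equation_iff]
  have e1 : (WC a b).a₁ = 0 := rfl
  have e2 : (WC a b).a₂ = 0 := rfl
  have e3 : (WC a b).a₃ = 0 := rfl
  have e4 : (WC a b).a₄ = a := rfl
  have e6 : (WC a b).a₆ = b := rfl
  rw [e1, e2, e3, e4, e6]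
  constructor
  · rintro ⟨h1, h2⟩
    refine ⟨by linear_combination h1, ?_⟩
    rcases h2 with h2 | h2
    · left
      intro h3
      exact h2 (by linear_combination -h3)
    · right
      intro h3
      exact h2 (by linear_combination h3)
  · rintro ⟨h1, h2⟩
    refine ⟨by linear_combination h1, ?_⟩
    rcases h2 with h2 | h2
    · left
      intro h3
      exact h2 (by linear_combination -h3)
    · right
      intro h3
      exact h2 (by linear_combination h3)

/-- the value of the invariant differential is invariant -/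
theorem lamW_map {E F : Type u} [Field E] [Field F] [DecidableEq F] [Algebra E F]
    (θ : Derivation ℤ F F)
    (a b : E) (hθ : ∀ (σ : F ≃ₐ[E] F) (f : F), σ (θ f) = θ (σ f)) (σ : F ≃ₐ[E] F)
    (Q : WeierstrassCurve.Affine.Point (WeierstrassCurve.baseChange (WC a b) F))
    (h : LamW θ (algebraMap E F a) _ Q 1) :
    LamW θ (algebraMap E F a) _
      (WeierstrassCurve.Affine.Point.map (W' := WC a b) (σ : F →ₐ[E] F) Q) 1 := by
  cases Q with
  | zero => exact h
  | some x y hxy =>
    obtain ⟨h1, h2⟩ := h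
    show θ (σ x) = 2 * σ y * 1 ∧ θ (σ y) = (3 * σ x ^ 2 + algebraMap E F a) * 1
    rw [← hθ, ← hθ, h1, h2]
    have hc2 : σ (2 : F) = 2 := map_ofNat σ 2
    have hc3 : σ (3 : F) = 3 := map_ofNat σ 3
    constructor
    · rw [map_mul, map_mul, map_one, hc2]
    · rw [map_mul, map_add, map_mul, map_pow, map_one, hc3, AlgEquiv.commutes]

end XZpt

open XZpt in
open Classical in
theorem pr_Zpt (hZad : StZad.{u}) : StZpt.{u} := by
  intro E F₁ _ _ _ _ _ _ θ₁ a b X hσ ha hb hX hXeq
  have hchar : CharZero F₁ := charZero_of_injective_algebraMap (algebraMap E F₁).injective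
  set a' := algebraMap E F₁ a with ha'
  set b' := algebraMap E F₁ b with hb'
  set W₁ : WeierstrassCurve.Affine F₁ := WeierstrassCurve.baseChange (WC a b) F₁ with hW₁
  have hW : W₁ = WC a' b' := base_eq a b
  set Y : F₁ := θ₁ X / 2 with hY
  have h2 : (2 : F₁) ≠ 0 := two_ne_zero
  have hXY : θ₁ X = 2 * Y := by rw [hY]; field_simp
  have hY0 : Y ≠ 0 := div_ne_zero hX h2
  have hYeq : Y ^ 2 = X ^ 3 + a' * X + b' := by
    rw [hXY] at hXeq
    have h4 : (4 : F₁) ≠ 0 := by norm_num
    apply mul_left_cancel₀ h4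
    linear_combination hXeq
  have hYY : θ₁ Y = 3 * X ^ 2 + a' := by
    have h3 := congrArg θ₁ hYeq
    rw [map_add, map_add, Derivation.leibniz, Derivation.leibniz_pow, Derivation.leibniz_pow, ha,
      hb] at h3
    simp only [smul_eq_mul, nsmul_eq_mul, mul_zero, add_zero] at h3
    rw [hXY] at h3
    norm_num at h3
    have h4 : (2 * Y) ≠ 0 := mul_ne_zero h2 hY0
    apply mul_left_cancel₀ h4
    linear_combination h3
  have hns : W₁.Nonsingular X Y := by
    rw [nonsing_iff a' b' W₁ hW]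
    refine ⟨hYeq, Or.inr fun h => hY0 ?_⟩
    have : 2 * Y = 0 := by linear_combination h
    exact (mul_eq_zero.1 this).resolve_left h2
  set Q : W₁.Point := WeierstrassCurve.Affine.Point.some X Y hns with hQ
  have hQ1 : LamW θ₁ a' W₁ Q 1 := by
    show θ₁ X = 2 * Y * 1 ∧ θ₁ Y = (3 * X ^ 2 + a') * 1
    rw [mul_one, mul_one]
    exact ⟨hXY, hYY⟩
  let m : (F₁ ≃ₐ[E] F₁) → W₁.Point →+ W₁.Point := fun σ =>
    WeierstrassCurve.Affine.Point.map (W' := WC a b) (σ : F₁ →ₐ[E] F₁)
  have hm1 : ∀ σ, LamW θ₁ a' W₁ (m σ Q) 1 := fun σ => lamW_map θ₁ a b hσ σ Q hQ1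
  have hmm : ∀ (τ σ : F₁ ≃ₐ[E] F₁) (P : W₁.Point), m τ (m σ P) = m (τ * σ) P := by
    intro τ σ P
    exact WeierstrassCurve.Affine.Point.map_map (W' := WC a b) (σ : F₁ →ₐ[E] F₁)
      (τ : F₁ →ₐ[E] F₁) P
  set S : W₁.Point := ∑ σ : F₁ ≃ₐ[E] F₁, m σ Q with hS
  have hsum : ∀ s : Finset (F₁ ≃ₐ[E] F₁), LamW θ₁ a' W₁ (∑ σ ∈ s, m σ Q) (s.card : F₁) := by
    intro s
    induction s using Finset.induction_on with
    | empty =>
      rw [Finset.sum_empty, Finset.card_empty, Nat.cast_zero]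
      rfl
    | insert σ s hs ih =>
      rw [Finset.sum_insert hs, Finset.card_insert_of_notMem hs, Nat.cast_add, Nat.cast_one,
        add_comm (s.card : F₁) 1]
      exact lamW_add hZad θ₁ a' b' ha hb W₁ hW _ _ _ _ (hm1 σ) ih
  set N : ℕ := Fintype.card (F₁ ≃ₐ[E] F₁) with hN
  have hN0 : 0 < N := Fintype.card_pos
  have hSN : LamW θ₁ a' W₁ S (N : F₁) := hsum Finset.univ
  have hinv : ∀ τ, m τ S = S := by
    intro τ
    rw [hS, map_sum]
    simp only [hmm]
    exact Fintype.sum_equiv (Equiv.mulLeft τ) _ _ (fun σ => rfl)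
  have hNF : (N : F₁) ≠ 0 := Nat.cast_ne_zero.2 hN0.ne'
  clear_value S
  cases S with
  | zero => exact absurd hSN hNF
  | some X₁ Y₁ hns₁ =>
    obtain ⟨h3, h4⟩ := hSN
    have hfix : ∀ τ : F₁ ≃ₐ[E] F₁, τ X₁ = X₁ ∧ τ Y₁ = Y₁ := by
      intro τ
      have h5 := hinv τ
      exact ⟨(WeierstrassCurve.Affine.Point.some.inj h5).1,
        (WeierstrassCurve.Affine.Point.some.inj h5).2⟩
    obtain ⟨X₀, rfl⟩ := (IsGalois.mem_range_algebraMap_iff_fixed (F := E) X₁).2 fun τ => (hfix τ).1
    obtain ⟨Y₀, rfl⟩ := (IsGalois.mem_range_algebraMap_iff_fixed (F := E) Y₁).2 fun τ => (hfix τ).2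
    obtain ⟨h6, h7⟩ := (nonsing_iff a' b' W₁ hW _ _).1 hns₁
    refine ⟨X₀, Y₀, N, hN0, ?_, ?_, ?_⟩
    · rintro rfl
      rw [map_zero] at h4 h7
      rw [map_zero] at h4
      rcases mul_eq_zero.1 h4.symm with h8 | h8
      · rcases h7 with h7 | h7
        · exact h7 h8
        · exact h7 (by rw [neg_zero])
      · exact hNF h8
    · apply (algebraMap E F₁).injective
      rw [map_pow, map_add, map_add, map_mul, map_pow]
      exact h6
    · rw [h3]
      ring

end Pool.Agent.Work.MP_a2680c_ag.HA
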