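import Pool.Agent.Work.MP_a2680c_ag.HA.StmtsZ

/-! Item [a2680c HA Zrp]: a rational point after an extension of the constants. -/

set_option autoImplicit false

noncomputable section

namespace Pool.Agent.Work.MP_a2680c_ag.HA

open MP7b66e6 MP7b66e6.Q
open scoped BigOperators TensorProduct

universe u

namespace XZrp

section basic
variable {K F : Type u} [Field K] [Field F] [Algebra K F] {W : AddValuation F (WithTop ℤ)}

theorem pos_add {a b : F} (ha : 0 < W a) (hb : 0 < W b) : 0 < W (a + b) :=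
  lt_of_lt_of_le (lt_min ha hb) (W.map_add a b)

theorem nonneg_add {a b : F} (ha : 0 ≤ W a) (hb : 0 ≤ W b) : 0 ≤ W (a + b) :=
  le_trans (le_min ha hb) (W.map_add a b)

theorem pos_mul {a b : F} (ha : 0 < W a) (hb : 0 ≤ W b) : 0 < W (a * b) := by
  rw [AddValuation.map_mul]
  exact add_pos_of_pos_of_nonneg ha hb

theorem nonneg_mul {a b : F} (ha : 0 ≤ W a) (hb : 0 ≤ W b) : 0 ≤ W (a * b) := by
  rw [AddValuation.map_mul]
  exact add_nonneg ha hb

theorem nonneg_pow {a : F} (ha : 0 ≤ W a) (n : ℕ) : 0 ≤ W (a ^ n) := by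
  induction n with
  | zero => rw [pow_zero, AddValuation.map_one]
  | succ n ih =>
    rw [pow_succ]
    exact nonneg_mul ih ha

theorem pos_zero : 0 < W 0 := by
  rw [AddValuation.map_zero]
  exact WithTop.coe_lt_top 0

theorem nonneg_sum {ι : Type*} (s : Finset ι) (f : ι → F) (h : ∀ i ∈ s, 0 ≤ W (f i)) :
    0 ≤ W (∑ i ∈ s, f i) := by
  classical
  induction s using Finset.induction_on with
  | empty =>
    rw [Finset.sum_empty]
    exact pos_zero.le
  | insert i s hi ih =>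
    rw [Finset.sum_insert hi]
    exact nonneg_add (h i (Finset.mem_insert_self i s))
      (ih fun j hj => h j (Finset.mem_insert_of_mem hj))

theorem pos_sum {ι : Type*} (s : Finset ι) (f : ι → F) (h : ∀ i ∈ s, 0 < W (f i)) :
    0 < W (∑ i ∈ s, f i) := by
  classical
  induction s using Finset.induction_on with
  | empty =>
    rw [Finset.sum_empty]
    exact pos_zero
  | insert i s hi ih =>
    rw [Finset.sum_insert hi]
    exact pos_add (h i (Finset.mem_insert_self i s))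
      (ih fun j hj => h j (Finset.mem_insert_of_mem hj))

theorem aeval_nonneg (hK : ∀ c : K, 0 ≤ W (algebraMap K F c)) {e : F} (he : 0 ≤ W e)
    (r : Polynomial K) : 0 ≤ W (Polynomial.aeval e r) := by
  induction r using Polynomial.induction_on' with
  | add p q hp hq =>
    rw [map_add]
    exact nonneg_add hp hq
  | monomial n a =>
    rw [Polynomial.aeval_monomial]
    exact nonneg_mul (hK a) (nonneg_pow he n)

theorem alg_nonneg (hK : ∀ c : K, 0 ≤ W (algebraMap K F c)) {d : F} (hd : IsAlgebraic K d) :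
    0 ≤ W d := by
  by_contra hneg
  have hd0 : d ≠ 0 := by
    rintro rfl
    exact hneg pos_zero.le
  have hei : IsIntegral K d⁻¹ := hd.inv.isIntegral
  have he0 : d⁻¹ ≠ 0 := inv_ne_zero hd0
  have hc : (minpoly K d⁻¹).coeff 0 ≠ 0 := minpoly.coeff_zero_ne_zero hei he0
  have hvd : ¬ 0 ≤ val W d := fun h => hneg ((Api.val_nonneg W hd0).1 h)
  have hepos : 0 < W d⁻¹ := by
    rw [Api.coe_val W he0, Api.val_inv W hd0, ← WithTop.coe_zero, WithTop.coe_lt_coe]
    omega
  have h1 : Polynomial.aeval d⁻¹ (minpoly K d⁻¹) = 0 := minpoly.aeval K d⁻¹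
  rw [← Polynomial.divX_mul_X_add (minpoly K d⁻¹), map_add, map_mul, Polynomial.aeval_X,
    Polynomial.aeval_C] at h1
  have h2 : 0 < W (algebraMap K F ((minpoly K d⁻¹).coeff 0)) := by
    rw [eq_neg_of_add_eq_zero_right h1, AddValuation.map_neg, mul_comm]
    exact pos_mul hepos (aeval_nonneg hK hepos.le _)
  rw [Api.val_algebraMap hK hc] at h2
  exact lt_irrefl _ h2

theorem pow_sub_pos {g b : F} (hg : 0 ≤ W g) (hb : 0 ≤ W b) (h : 0 < W (g - b)) (n : ℕ) :
    0 < W (g ^ n - b ^ n) := by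
  induction n with
  | zero =>
    rw [pow_zero, pow_zero, sub_self]
    exact pos_zero
  | succ n ih =>
    have e : g ^ (n + 1) - b ^ (n + 1) = (g - b) * g ^ n + (g ^ n - b ^ n) * b := by ring
    rw [e]
    exact pos_add (pos_mul h (nonneg_pow hg n)) (pos_mul ih hb)

theorem aeval_sub_pos (hK : ∀ c : K, 0 ≤ W (algebraMap K F c)) {g b : F} (hg : 0 ≤ W g)
    (hb : 0 ≤ W b) (h : 0 < W (g - b)) (q : Polynomial K) :
    0 < W (Polynomial.aeval g q - Polynomial.aeval b q) := by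
  induction q using Polynomial.induction_on' with
  | add p q hp hq =>
    have e : Polynomial.aeval g (p + q) - Polynomial.aeval b (p + q) =
        (Polynomial.aeval g p - Polynomial.aeval b p) +
          (Polynomial.aeval g q - Polynomial.aeval b q) := by
      rw [map_add, map_add]
      ring
    rw [e]
    exact pos_add hp hq
  | monomial n a =>
    have e : Polynomial.aeval g (Polynomial.monomial n a) -
        Polynomial.aeval b (Polynomial.monomial n a) = (g ^ n - b ^ n) * algebraMap K F a := by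
      rw [Polynomial.aeval_monomial, Polynomial.aeval_monomial]
      ring
    rw [e]
    exact pos_mul (pow_sub_pos hg hb h n) (hK a)

end basic

/-- a polynomial which splits and has positive value has a root near `g` -/
theorem exists_root {K K₁ F : Type u} [Field K] [Field K₁] [Field F] [Algebra K K₁] [Algebra K F]
    [Algebra K₁ F] [IsScalarTower K K₁ F] {W : AddValuation F (WithTop ℤ)} (p : Polynomial K)
    (hp : p ≠ 0) (hs : (p.map (algebraMap K K₁)).Splits) (g : F)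
    (hK : ∀ c : K₁, 0 ≤ W (algebraMap K₁ F c)) (hg : 0 ≤ W g)
    (hpg : 0 < W (Polynomial.aeval g p)) : ∃ β : K₁, 0 < W (g - algebraMap K₁ F β) := by
  by_contra hcon
  push Not at hcon
  have h0 : ∀ β : K₁, W (g - algebraMap K₁ F β) = 0 := by
    intro β
    refine le_antisymm (hcon β) ?_
    rw [sub_eq_add_neg]
    refine nonneg_add hg ?_
    rw [AddValuation.map_neg]
    exact hK β
  have hP0 : p.map (algebraMap K K₁) ≠ 0 := by
    rw [Ne, Polynomial.map_eq_zero]
    exact hp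
  have h1 : Polynomial.aeval g (p.map (algebraMap K K₁)) =
      algebraMap K₁ F (p.map (algebraMap K K₁)).leadingCoeff *
        ((p.map (algebraMap K K₁)).roots.map (fun a => g - algebraMap K₁ F a)).prod := by
    conv_lhs => rw [hs.eq_prod_roots]
    rw [map_mul, Polynomial.aeval_C, map_multiset_prod, Multiset.map_map]
    congr 2
    apply Multiset.map_congr rfl
    intro a _
    simp
  have h2 : ∀ s : Multiset K₁, W ((s.map (fun a => g - algebraMap K₁ F a)).prod) = 0 := by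
    intro s
    induction s using Multiset.induction_on with
    | empty =>
      rw [Multiset.map_zero, Multiset.prod_zero, AddValuation.map_one]
    | cons a s ih =>
      rw [Multiset.map_cons, Multiset.prod_cons, AddValuation.map_mul, h0 a, ih, add_zero]
  rw [← Polynomial.aeval_map_algebraMap K₁ g p, h1, AddValuation.map_mul, h2,
    Api.val_algebraMap hK (Polynomial.leadingCoeff_ne_zero.2 hP0), add_zero] at hpg
  exact lt_irrefl _ hpg

section gal
variable {K E K₁ F₁ : Type u} [Field K] [Field E] [Field K₁] [Field F₁] [Algebra K E]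
  [Algebra K K₁] [Algebra K F₁] [Algebra E F₁] [Algebra K₁ F₁] [IsScalarTower K E F₁]
  [IsScalarTower K K₁ F₁]

/-- an automorphism over `E` maps the constants to themselves -/
theorem exists_conj [Normal K K₁] (σ : F₁ ≃ₐ[E] F₁) (a : K₁) :
    ∃ a' : K₁, algebraMap K₁ F₁ a' = σ (algebraMap K₁ F₁ a) :=
  ⟨(σ.restrictScalars K).restrictNormal K₁ a,
    AlgEquiv.restrictNormal_commutes (σ.restrictScalars K) K₁ a⟩

/-- the separability element -/
theorem sep [FiniteDimensional K K₁] [IsGalois K K₁] [FiniteDimensional E F₁]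
    (hadj : IntermediateField.adjoin E (Set.range (algebraMap K₁ F₁)) = ⊤) :
    ∃ S : Finset (K₁ × K₁), (∀ σ : F₁ ≃ₐ[E] F₁, σ ≠ 1 →
      ∑ i ∈ S, algebraMap K₁ F₁ i.1 * σ (algebraMap K₁ F₁ i.2) = 0) ∧
      ∑ i ∈ S, algebraMap K₁ F₁ i.1 * algebraMap K₁ F₁ i.2 = 1 := by
  classical
  let m : (F₁ ≃ₐ[E] F₁) → (K₁ ⊗[K] K₁ →ₐ[K] F₁) := fun σ =>
    Algebra.TensorProduct.productMap (IsScalarTower.toAlgHom K K₁ F₁)
      (((σ.restrictScalars K : F₁ ≃ₐ[K] F₁) : F₁ →ₐ[K] F₁).comp (IsScalarTower.toAlgHom K K₁ F₁))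
  have hm : ∀ (σ : F₁ ≃ₐ[E] F₁) (a b : K₁),
      m σ (a ⊗ₜ b) = algebraMap K₁ F₁ a * σ (algebraMap K₁ F₁ b) := fun σ a b => rfl
  have hfac : ∀ σ : F₁ ≃ₐ[E] F₁, σ ≠ 1 → ∃ t : K₁ ⊗[K] K₁, m σ t = 0 ∧ m 1 t = 1 := by
    intro σ hσ
    have hex : ∃ a : K₁, σ (algebraMap K₁ F₁ a) ≠ algebraMap K₁ F₁ a := by
      by_contra hcon
      push Not at hcon
      apply hσ
      have htop : Algebra.adjoin E (Set.range (algebraMap K₁ F₁)) = ⊤ :=
        IntermediateField.adjoin_eq_top_iff.1 hadj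
      have h1 : (σ : F₁ →ₐ[E] F₁) = ((1 : F₁ ≃ₐ[E] F₁) : F₁ →ₐ[E] F₁) := by
        apply AlgHom.ext_of_adjoin_eq_top htop
        rintro _ ⟨a, rfl⟩
        exact hcon a
      ext f
      exact DFunLike.congr_fun h1 f
    obtain ⟨a, ha⟩ := hex
    obtain ⟨a', ha'⟩ := exists_conj (K := K) σ.symm a
    have h1 : σ (algebraMap K₁ F₁ a') = algebraMap K₁ F₁ a := by
      rw [ha', AlgEquiv.apply_symm_apply]
    have h2 : a - a' ≠ 0 := by
      intro h
      rw [sub_eq_zero] at h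
      apply ha
      rw [h, h1, h]
    have h3 : algebraMap K₁ F₁ (a - a')⁻¹ * (algebraMap K₁ F₁ a - algebraMap K₁ F₁ a') = 1 := by
      rw [← map_sub, ← map_mul, inv_mul_cancel₀ h2, map_one]
    refine ⟨((a - a')⁻¹ * a) ⊗ₜ 1 - (a - a')⁻¹ ⊗ₜ a', ?_, ?_⟩
    · rw [map_sub, hm, hm, h1, map_one, map_one, map_mul]
      ring
    · rw [map_sub, hm, hm]
      show algebraMap K₁ F₁ ((a - a')⁻¹ * a) * algebraMap K₁ F₁ 1 -
        algebraMap K₁ F₁ (a - a')⁻¹ * algebraMap K₁ F₁ a' = 1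
      have e : algebraMap K₁ F₁ (a - a')⁻¹ * algebraMap K₁ F₁ a * 1 -
          algebraMap K₁ F₁ (a - a')⁻¹ * algebraMap K₁ F₁ a' =
          algebraMap K₁ F₁ (a - a')⁻¹ * (algebraMap K₁ F₁ a - algebraMap K₁ F₁ a') := by ring
      rw [map_one, map_mul, e, h3]
  choose! t ht0 ht1 using hfac
  obtain ⟨S, hS⟩ := TensorProduct.exists_finset
    (∏ σ ∈ (Finset.univ : Finset (F₁ ≃ₐ[E] F₁)).erase 1, t σ)
  have h1 : ∀ σ : F₁ ≃ₐ[E] F₁, ∑ i ∈ S, algebraMap K₁ F₁ i.1 * σ (algebraMap K₁ F₁ i.2) =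
      m σ (∏ σ ∈ (Finset.univ : Finset (F₁ ≃ₐ[E] F₁)).erase 1, t σ) := by
    intro σ
    rw [hS, map_sum]
    exact Finset.sum_congr rfl (fun i _ => (hm σ i.1 i.2).symm)
  refine ⟨S, fun σ hσ => ?_, ?_⟩
  · rw [h1, map_prod]
    exact Finset.prod_eq_zero (Finset.mem_erase.2 ⟨hσ, Finset.mem_univ σ⟩) (ht0 σ hσ)
  · refine (h1 1).trans ?_
    rw [map_prod]
    exact Finset.prod_eq_one (fun τ hτ => ht1 τ (Finset.ne_of_mem_erase hτ))

end gal

section lies
variable {E F₁ : Type u} [Field E] [Field F₁] [Algebra E F₁] {w : AddValuation E (WithTop ℤ)}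
  {P : AddValuation F₁ (WithTop ℤ)} {m : ℕ}

theorem lies_nonneg (h : Lies w P m) (f : E) : 0 ≤ P (algebraMap E F₁ f) ↔ 0 ≤ w f := by
  by_cases hf : f = 0
  · rw [hf, map_zero, AddValuation.map_zero, AddValuation.map_zero]
  · have hf' : algebraMap E F₁ f ≠ 0 := by
      rw [map_ne_zero_iff _ (algebraMap E F₁).injective]
      exact hf
    have hm : (0 : ℤ) < m := by exact_mod_cast h.1
    rw [← Api.val_nonneg P hf', ← Api.val_nonneg w hf, h.2 f hf]
    exact mul_nonneg_iff_of_pos_left hm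

theorem lies_pos (h : Lies w P m) {f : E} (hf : 0 < w f) : 0 < P (algebraMap E F₁ f) := by
  by_cases hf0 : f = 0
  · rw [hf0, map_zero]
    exact pos_zero
  · have hf' : algebraMap E F₁ f ≠ 0 := by
      rw [map_ne_zero_iff _ (algebraMap E F₁).injective]
      exact hf0
    have hm : (0 : ℤ) < m := by exact_mod_cast h.1
    rw [Api.coe_val w hf0, ← WithTop.coe_zero, WithTop.coe_lt_coe] at hf
    rw [Api.coe_val P hf', ← WithTop.coe_zero, WithTop.coe_lt_coe, h.2 f hf0]
    exact mul_pos hm hf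

end lies

/-- the place `P` is rational -/
theorem rtl {K E K₁ F₁ : Type u} [Field K] [Field E] [Field K₁] [Field F₁] [Algebra K E]
    [Algebra K K₁] [Algebra K F₁] [Algebra E F₁] [Algebra K₁ F₁] [IsScalarTower K E F₁]
    [IsScalarTower K K₁ F₁] [FiniteDimensional K K₁] [IsGalois K K₁] [FiniteDimensional E F₁]
    [IsGalois E F₁] (hAPX : StAPX.{u})
    (hadj : IntermediateField.adjoin E (Set.range (algebraMap K₁ F₁)) = ⊤)
    (w : AddValuation E (WithTop ℤ)) (P : AddValuation F₁ (WithTop ℤ)) (m : ℕ) (hL : Lies w P m)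
    (hP1 : ∃ π : F₁, P π = 1) (hPK : ∀ c : K₁, 0 ≤ P (algebraMap K₁ F₁ c)) (g : E)
    (hg : 0 ≤ w g) (β : K₁) (hβ : 0 < P (algebraMap E F₁ g - algebraMap K₁ F₁ β))
    (hres : ∀ h : E, 0 ≤ w h → ∃ q : Polynomial K, 0 < w (h - Polynomial.aeval g q)) :
    Rtl K₁ P := by
  classical
  intro h hh
  obtain ⟨n, ⟨e⟩⟩ := Finite.exists_equiv_fin {σ : F₁ ≃ₐ[E] F₁ // cg σ P ≠ P}
  obtain ⟨π, hπ⟩ := hP1
  obtain ⟨u, hu0, hu⟩ := hAPX F₁ (Fin n) P (fun i => cg (e.symm i).1 P) ⟨π, hπ⟩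
    (fun i => ⟨(e.symm i).1.symm π, by
      rw [Api.cg_apply, AlgEquiv.apply_symm_apply]
      exact hπ⟩) (fun i => (e.symm i).2)
    (1 + ∑ σ : F₁ ≃ₐ[E] F₁, (val (cg σ P) h).natAbs)
  have hN1 : ((1 : ℕ) : WithTop ℤ) ≤ P (u - 1) := by
    refine le_trans ?_ hu0
    exact_mod_cast Nat.le_add_right 1 _
  have hu1 : 0 < P (u - 1) := lt_of_lt_of_le (by exact_mod_cast Nat.one_pos) hN1
  have hPu : 0 ≤ P u := by
    have e1 : u = (u - 1) + 1 := by ring
    rw [e1]
    refine nonneg_add hu1.le ?_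
    rw [AddValuation.map_one]
  have h1 : 0 < P (h - h * u) := by
    have e1 : h - h * u = -((u - 1) * h) := by ring
    rw [e1, AddValuation.map_neg]
    exact pos_mul hu1 hh
  have h2 : ∀ σ : F₁ ≃ₐ[E] F₁, 0 ≤ P (σ (h * u)) := by
    intro σ
    rw [← Api.cg_apply]
    by_cases hσ : cg σ P = P
    · rw [hσ]
      exact nonneg_mul hh hPu
    · by_cases h0 : h = 0
      · rw [h0, zero_mul]
        exact pos_zero.le
      · by_cases hu00 : u = 0
        · rw [hu00, mul_zero]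
          exact pos_zero.le
        · have h3 := hu (e ⟨σ, hσ⟩)
          rw [Equiv.symm_apply_apply] at h3
          change ((1 + ∑ σ : F₁ ≃ₐ[E] F₁, (val (cg σ P) h).natAbs : ℕ) : WithTop ℤ) ≤
            cg σ P u at h3
          rw [Api.coe_val (cg σ P) hu00] at h3
          have h4 : ((1 + ∑ σ : F₁ ≃ₐ[E] F₁, (val (cg σ P) h).natAbs : ℕ) : ℤ) ≤
              val (cg σ P) u := WithTop.coe_le_coe.1 h3
          have h5 : (val (cg σ P) h).natAbs ≤ ∑ σ : F₁ ≃ₐ[E] F₁, (val (cg σ P) h).natAbs :=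
            Finset.single_le_sum (f := fun σ : F₁ ≃ₐ[E] F₁ => (val (cg σ P) h).natAbs)
              (fun _ _ => Nat.zero_le _) (Finset.mem_univ σ)
          rw [← Api.val_nonneg _ (mul_ne_zero h0 hu00), Api.val_mul _ h0 hu00]
          omega
  obtain ⟨S, hS, hS1⟩ := sep (K := K) hadj
  have hid : h * u = ∑ i ∈ S, algebraMap K₁ F₁ i.1 *
      algebraMap E F₁ (Algebra.trace E F₁ (h * u * algebraMap K₁ F₁ i.2)) := by
    have e1 : ∀ i ∈ S, algebraMap K₁ F₁ i.1 *
        algebraMap E F₁ (Algebra.trace E F₁ (h * u * algebraMap K₁ F₁ i.2)) =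
        ∑ σ : F₁ ≃ₐ[E] F₁, σ (h * u) * (algebraMap K₁ F₁ i.1 * σ (algebraMap K₁ F₁ i.2)) := by
      intro i _
      rw [trace_eq_sum_automorphisms, Finset.mul_sum]
      refine Finset.sum_congr rfl (fun σ _ => ?_)
      rw [map_mul σ (h * u)]
      ring
    rw [Finset.sum_congr rfl e1, Finset.sum_comm,
      Finset.sum_eq_single (1 : F₁ ≃ₐ[E] F₁)]
    · show h * u = ∑ i ∈ S, h * u * (algebraMap K₁ F₁ i.1 * algebraMap K₁ F₁ i.2)
      rw [← Finset.mul_sum, hS1, mul_one]
    · intro σ _ hσ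
      rw [← Finset.mul_sum, hS σ hσ, mul_zero]
    · intro hσ
      exact absurd (Finset.mem_univ _) hσ
  have ht : ∀ i : K₁ × K₁, 0 ≤ w (Algebra.trace E F₁ (h * u * algebraMap K₁ F₁ i.2)) := by
    intro i
    rw [← lies_nonneg hL, trace_eq_sum_automorphisms]
    refine nonneg_sum _ _ (fun σ _ => ?_)
    rw [map_mul σ (h * u)]
    refine nonneg_mul (h2 σ) ?_
    obtain ⟨a', ha'⟩ := exists_conj (K := K) σ i.2
    rw [← ha']
    exact hPK a'
  have hq := fun i : K₁ × K₁ => hres _ (ht i)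
  choose q hq using hq
  refine ⟨∑ i ∈ S, i.1 * Polynomial.aeval β (q i), ?_⟩
  have e3 : h - algebraMap K₁ F₁ (∑ i ∈ S, i.1 * Polynomial.aeval β (q i)) =
      (h - h * u) + ∑ i ∈ S,
        (algebraMap E F₁ (Algebra.trace E F₁ (h * u * algebraMap K₁ F₁ i.2)) -
          algebraMap K₁ F₁ (Polynomial.aeval β (q i))) * algebraMap K₁ F₁ i.1 := by
    have e4 : ∑ i ∈ S,
        (algebraMap E F₁ (Algebra.trace E F₁ (h * u * algebraMap K₁ F₁ i.2)) -
          algebraMap K₁ F₁ (Polynomial.aeval β (q i))) * algebraMap K₁ F₁ i.1 =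
        h * u - algebraMap K₁ F₁ (∑ i ∈ S, i.1 * Polynomial.aeval β (q i)) := by
      rw [map_sum]
      conv_rhs => rw [hid]
      rw [← Finset.sum_sub_distrib]
      refine Finset.sum_congr rfl (fun i _ => ?_)
      rw [map_mul (algebraMap K₁ F₁)]
      ring
    rw [e4]
    ring
  rw [e3]
  refine pos_add h1 (pos_sum _ _ (fun i _ => pos_mul ?_ (hPK _)))
  have hKP : ∀ c : K, 0 ≤ P (algebraMap K F₁ c) := by
    intro c
    rw [IsScalarTower.algebraMap_apply K K₁ F₁]
    exact hPK _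
  have e5 : algebraMap E F₁ (Algebra.trace E F₁ (h * u * algebraMap K₁ F₁ i.2)) -
      algebraMap K₁ F₁ (Polynomial.aeval β (q i)) =
      algebraMap E F₁ (Algebra.trace E F₁ (h * u * algebraMap K₁ F₁ i.2) -
        Polynomial.aeval g (q i)) +
      (Polynomial.aeval (algebraMap E F₁ g) (q i) -
        Polynomial.aeval (algebraMap K₁ F₁ β) (q i)) := by
    rw [Polynomial.aeval_algebraMap_apply, Polynomial.aeval_algebraMap_apply, map_sub]
    ring
  rw [e5]
  exact pos_add (lies_pos hL (hq i))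
    (aeval_sub_pos hKP ((lies_nonneg hL g).2 hg) (hPK β) hβ (q i))

end XZrp

theorem pr_Zrp (_hOrd : StOrd.{u}) (hEXT : StEXT.{u, u, u}) (hAPX : StAPX.{u}) (hZdk : StZdk.{u})
    (hZpe : StZpe.{u}) (hZce : StZce.{u}) (hNop : StNop.{u}) : StZrp.{u} := by
  intro K E _ _ _ _ hFF hCcl
  -- a place
  obtain ⟨w, hw⟩ : ∃ w : AddValuation E (WithTop ℤ), Plc K w := by
    by_contra hcon
    push Not at hcon
    obtain ⟨hess, x, hx⟩ := hFF
    have h1 := hNop K E x hx (x 0) (fun w hw => absurd hw (hcon w))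
    exact hx.1.transcendental 0 h1
  have hdiv : Divisorial K w := hZdk K K E hFF w hw
  obtain ⟨g, p, hg, hp0, hpg, hres⟩ := hZpe K E hFF w hw
  obtain ⟨K₁, F₁, _, _, _, _, _, _, _, _, _, _, _, _, hadj, hFF₁, hCcl₁, hsp⟩ :=
    hZce K E hFF hCcl p hp0
  obtain ⟨P, m, hPd, hL⟩ := hEXT K E F₁ w hdiv
  obtain ⟨hP1, C, -, hC0, -⟩ := hPd
  have hKP : ∀ c : K, 0 ≤ P (algebraMap K F₁ c) := fun c =>
    hC0 _ (Subalgebra.algebraMap_mem C c)
  have hPK : ∀ c : K₁, 0 ≤ P (algebraMap K₁ F₁ c) := fun c =>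
    XZrp.alg_nonneg hKP ((Algebra.IsAlgebraic.isAlgebraic (R := K) c).algebraMap)
  have hPg : 0 < P (Polynomial.aeval (algebraMap E F₁ g) p) := by
    rw [Polynomial.aeval_algebraMap_apply]
    exact XZrp.lies_pos hL hpg
  obtain ⟨β, hβ⟩ := XZrp.exists_root p hp0 hsp (algebraMap E F₁ g) hPK
    ((XZrp.lies_nonneg hL g).2 hg) hPg
  exact ⟨K₁, F₁, inferInstance, inferInstance, inferInstance, inferInstance, inferInstance,
    inferInstance, inferInstance, inferInstance, inferInstance, inferInstance, inferInstance,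
    inferInstance, P, hadj, hFF₁, hCcl₁, ⟨hP1, hPK⟩,
    XZrp.rtl hAPX hadj w P m hL hP1 hPK g hg β hβ hres⟩

end Pool.Agent.Work.MP_a2680c_ag.HA
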