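import Pool.Agent.Work.MP_a2680c_ag.HA.StmtsZ

/-!
# MP_a2680c_ag, block HA, item Zrs: places under a constant field extension
-/

set_option autoImplicit false

noncomputable section

namespace Pool.Agent.Work.MP_a2680c_ag.HA

open MP7b66e6 MP7b66e6.Q
open scoped BigOperators

universe u

namespace XZrs

/-- The valuation subring of a valuation. -/
def vsr {K F : Type u} [Field K] [Field F] [Algebra K F] (W : AddValuation F (WithTop ℤ))
    (h : ∀ c : K, 0 ≤ W (algebraMap K F c)) : ValuationSubring F where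
  carrier := Api.ring W h
  mul_mem' := (Api.ring W h).mul_mem
  one_mem' := (Api.ring W h).one_mem
  add_mem' := (Api.ring W h).add_mem
  zero_mem' := (Api.ring W h).zero_mem
  neg_mem' := (Api.ring W h).neg_mem
  mem_or_inv_mem' := Api.isVal_ring W h

/-- Integral elements have nonnegative value. -/
theorem nonneg_int {K F : Type u} [Field K] [Field F] [Algebra K F] (W : AddValuation F (WithTop ℤ))
    (h : ∀ c : K, 0 ≤ W (algebraMap K F c)) {x : F} (hx : IsIntegral K x) : 0 ≤ W x := by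
  have h1 : IsIntegral (vsr W h) x := by
    obtain ⟨q, hq, he⟩ := hx
    let i : K →+* vsr W h :=
      { toFun := fun c => ⟨algebraMap K F c, h c⟩
        map_one' := Subtype.ext (map_one _)
        map_mul' := fun a b => Subtype.ext (map_mul _ a b)
        map_zero' := Subtype.ext (map_zero _)
        map_add' := fun a b => Subtype.ext (map_add _ a b) }
    refine ⟨q.map i, hq.map _, ?_⟩
    rw [Polynomial.eval₂_map]
    exact he
  obtain ⟨y, hy⟩ := (IsIntegrallyClosed.isIntegral_iff (R := vsr W h) (K := F)).1 h1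
  rw [← hy]
  exact y.2

end XZrs

theorem pr_Zrs (hZdk : StZdk.{u}) (hEXT : StEXT.{u,u,u}) (hUnr : StUnr.{u}) : StZrs.{u} := by
  intro K E K₁ F₁ _ _ _ _ _ _ _ _ _ _ _ _ _ _ _ _ hgen hFFn
  refine ⟨?_, ?_, ?_⟩
  · intro w hw
    have hdiv : Divisorial K w := hZdk K K E hFFn w hw
    obtain ⟨W, m, hW, hL⟩ := hEXT K E F₁ w hdiv
    refine ⟨W, m, ⟨hW.1, fun c => ?_⟩, hL⟩
    obtain ⟨_, C, _, hC, _⟩ := hW
    apply XZrs.nonneg_int (K := K) W (fun c => hC _ (C.algebraMap_mem c))
    have h1 : IsIntegral K c := Algebra.IsIntegral.isIntegral c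
    exact h1.algebraMap
  · intro W hW
    obtain ⟨π, hπ⟩ := hUnr K E K₁ F₁ hgen W hW
    refine ⟨Api.res E W, ⟨⟨π, hπ⟩, fun c => ?_⟩, Nat.one_pos, fun f _ => ?_⟩
    · rw [Api.res_apply, ← IsScalarTower.algebraMap_apply K E F₁,
        IsScalarTower.algebraMap_apply K K₁ F₁]
      exact hW.2 _
    · rw [Nat.cast_one, one_mul]
      rfl
  · intro W w m σ hW hL
    refine ⟨?_, Api.lies_cg hL σ⟩
    obtain ⟨⟨π, hπ⟩, hc⟩ := hW
    refine ⟨⟨σ.symm π, ?_⟩, fun c => ?_⟩
    · rw [Api.cg_apply, AlgEquiv.apply_symm_apply]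
      exact hπ
    · rw [Api.cg_apply]
      have h1 : σ (algebraMap K₁ F₁ c) =
          algebraMap K₁ F₁ ((σ.restrictScalars K).restrictNormal K₁ c) :=
        ((σ.restrictScalars K).restrictNormal_commutes K₁ c).symm
      rw [h1]
      exact hc _

end Pool.Agent.Work.MP_a2680c_ag.HA
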