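import Pool.Agent.Work.MP_a2680c_ag.HA.StmtsZ

/-!
# MP_a2680c_ag, block HA, item Zsg: the Weierstrass equation does not depend on the point
-/

set_option autoImplicit false

noncomputable section

namespace Pool.Agent.Work.MP_a2680c_ag.HA

open MP7b66e6 MP7b66e6.Q
open scoped BigOperators

universe u

namespace XZsg

section
variable {K E : Type u} [Field K] [Field E] [Algebra K E]

theorem lt_iff (w : AddValuation E (WithTop ℤ)) {t : E} (ht : t ≠ 0) : 0 < w t ↔ 0 < val w t := by
  rw [Api.coe_val w ht, ← WithTop.coe_zero, WithTop.coe_lt_coe]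

theorem le_iff (w : AddValuation E (WithTop ℤ)) {t : E} (ht : t ≠ 0) (m : ℤ) : (m : WithTop ℤ) ≤ w t ↔ m ≤ val w t := by
  rw [Api.coe_val w ht, WithTop.coe_le_coe]

theorem ne_zero (w : AddValuation E (WithTop ℤ)) {t : E} {m : ℤ} (h : w t = (m : WithTop ℤ)) : t ≠ 0 := by
  intro h0
  rw [h0, AddValuation.map_zero] at h
  exact absurd h (by simp)

/-- functions without poles are constants -/
theorem cst [CharZero K] (hNop : StNop.{u}) (hF : FFn K E) (hC : Ccl K E) {f : E}
    (hf : ∀ w : AddValuation E (WithTop ℤ), Plc K w → 0 ≤ w f) : ∃ c : K, algebraMap K E c = f := by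
  obtain ⟨h1, x, hx⟩ := hF
  exact hC f (hNop K E x hx f hf)

theorem cub {X : E} (hX : ¬ IsAlgebraic K X) {A B C D : K}
    (h : algebraMap K E A * X ^ 3 + algebraMap K E B * X ^ 2 + algebraMap K E C * X + algebraMap K E D = 0) :
    A = 0 ∧ B = 0 ∧ C = 0 ∧ D = 0 := by
  have htr : Transcendental K X := hX
  rw [transcendental_iff] at htr
  obtain ⟨P, hP⟩ : ∃ P : Cubic K, P = ⟨A, B, C, D⟩ := ⟨_, rfl⟩
  have h1 : P.toPoly = 0 := by
    apply htr
    rw [Cubic.toPoly, hP]
    simp only [map_add, map_mul, map_pow, Polynomial.aeval_C, Polynomial.aeval_X]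
    exact h
  have ha : P.a = 0 := by rw [← Cubic.coeff_eq_a, h1, Polynomial.coeff_zero]
  have hb : P.b = 0 := by rw [← Cubic.coeff_eq_b, h1, Polynomial.coeff_zero]
  have hc : P.c = 0 := by rw [← Cubic.coeff_eq_c, h1, Polynomial.coeff_zero]
  have hd : P.d = 0 := by rw [← Cubic.coeff_eq_d, h1, Polynomial.coeff_zero]
  rw [hP] at ha hb hc hd
  exact ⟨ha, hb, hc, hd⟩

/-- the same point -/
theorem same [CharZero K] (hZsp : StZsp.{u}) (hF : FFn K E) (hC : Ccl K E) (θ : Derivation K E E)
    (hθ : ∀ w : AddValuation E (WithTop ℤ), Plc K w → Odr w θ 0) {P : AddValuation E (WithTop ℤ)} (hP : Plc K P)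
    (hR : Rtl K P) {X X' : E} {a b a' b' : K} (h : Wei θ P X a b) (h' : Wei θ P X' a' b') : a = a' ∧ b = b' := by
  obtain ⟨h1, h2, h3⟩ := h
  obtain ⟨h1', h2', h3'⟩ := h'
  have hX0 := ne_zero P h1
  have hX0' := ne_zero P h1'
  have hv := Api.val_of P h1
  have hv' := Api.val_of P h1'
  have hq0 : X' / X ≠ 0 := div_ne_zero hX0' hX0
  have hq : val P (X' / X) = 0 := by rw [Api.val_div P hX0' hX0, hv, hv']; norm_num
  obtain ⟨α, hα⟩ := hR (X' / X) ((Api.val_nonneg P hq0).1 (by rw [hq]))
  have hα0 : α ≠ 0 := by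
    intro h0
    rw [h0, map_zero, sub_zero, lt_iff P hq0, hq] at hα
    exact lt_irrefl _ hα
  have hXn : ¬ IsAlgebraic K X := by
    intro hal
    obtain ⟨c, hc⟩ := hC X hal
    have hc0 : c ≠ 0 := by
      intro h0
      rw [h0, map_zero] at hc
      exact hX0 hc.symm
    have h4 := Api.val_algebraMap hP.2 hc0
    rw [hc, h1] at h4
    exact absurd h4 (by decide)
  have e1 : X' - algebraMap K E α * X = X * (X' / X - algebraMap K E α) := by
    field_simp
  have g1 : ((-1 : ℤ) : WithTop ℤ) ≤ P (X' - algebraMap K E α * X) := by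
    by_cases ht : X' / X - algebraMap K E α = 0
    · rw [e1, ht, mul_zero, AddValuation.map_zero]
      exact le_top
    · rw [lt_iff P ht] at hα
      rw [e1, le_iff P (mul_ne_zero hX0 ht), Api.val_mul P hX0 ht, hv]
      omega
  have g2 : ∀ w : AddValuation E (WithTop ℤ), Plc K w → w ≠ P → 0 ≤ w (X' - algebraMap K E α * X) := by
    intro w hw hne
    have i1 := h2 w hw hne
    have i2 := h2' w hw hne
    have i3 := Api.val_algebraMap hw.2 hα0
    have i4 : 0 ≤ w (algebraMap K E α * X) := by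
      rw [AddValuation.map_mul, i3, zero_add]
      exact i1
    exact le_trans (le_min i2 i4) (AddValuation.map_sub w _ _)
  obtain ⟨β, hβ⟩ := hZsp K E hF hC θ hθ P hP hR _ g1 g2
  have e2 : X' = algebraMap K E α * X + algebraMap K E β := by rw [hβ]; ring
  have e3 : θ X' = algebraMap K E α * θ X := by
    rw [e2, map_add, Derivation.map_algebraMap, add_zero, ← Algebra.smul_def, Derivation.map_smul, Algebra.smul_def]
  have e4 : algebraMap K E (4 * (α ^ 3 - α ^ 2)) * X ^ 3 + algebraMap K E (12 * α ^ 2 * β) * X ^ 2 +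
      algebraMap K E (12 * α * β ^ 2 + 4 * a' * α - 4 * α ^ 2 * a) * X +
      algebraMap K E (4 * β ^ 3 + 4 * a' * β + 4 * b' - 4 * α ^ 2 * b) = 0 := by
    rw [e3, e2] at h3'
    have h5 : (algebraMap K E α) ^ 2 * (4 * X ^ 3 + 4 * algebraMap K E a * X + 4 * algebraMap K E b) =
        4 * (algebraMap K E α * X + algebraMap K E β) ^ 3 +
          4 * algebraMap K E a' * (algebraMap K E α * X + algebraMap K E β) + 4 * algebraMap K E b' := by
      rw [← h3', ← h3]
      ring
    simp only [map_add, map_sub, map_mul, map_pow, map_ofNat]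
    linear_combination - h5
  obtain ⟨f1, f2, f3, f4⟩ := cub hXn e4
  have hα1 : α = 1 := by
    have h6 : α ^ 2 * (α - 1) = 0 := by
      have h4 : (4 : K) ≠ 0 := by norm_num
      have h7 : (4 : K) * (α ^ 2 * (α - 1)) = 0 := by linear_combination f1
      exact (mul_eq_zero.1 h7).resolve_left h4
    have h8 := (mul_eq_zero.1 h6).resolve_left (pow_ne_zero 2 hα0)
    linear_combination h8
  have hβ0 : β = 0 := by
    rw [hα1] at f2
    have h12 : (12 : K) ≠ 0 := by norm_num
    have h7 : (12 : K) * β = 0 := by linear_combination f2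
    exact (mul_eq_zero.1 h7).resolve_left h12
  rw [hα1, hβ0] at f3 f4
  have h4 : (4 : K) ≠ 0 := by norm_num
  constructor
  · have h7 : (4 : K) * (a' - a) = 0 := by linear_combination f3
    have h8 := (mul_eq_zero.1 h7).resolve_left h4
    linear_combination - h8
  · have h7 : (4 : K) * (b' - b) = 0 := by linear_combination f4
    have h8 := (mul_eq_zero.1 h7).resolve_left h4
    linear_combination - h8

end

section
variable {K L E : Type u} [Field K] [Field L] [Field E] [Algebra K L] [Algebra K E] [Algebra L E] [IsScalarTower K L E]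

theorem com (ι : E ≃ₐ[L] E) (c : K) : ι (algebraMap K E c) = algebraMap K E c := by
  rw [IsScalarTower.algebraMap_apply K L E]
  exact ι.commutes _

theorem plc_cg (ι : E ≃ₐ[L] E) {w : AddValuation E (WithTop ℤ)} (hw : Plc K w) : Plc K (cg ι w) := by
  obtain ⟨⟨π, hπ⟩, h2⟩ := hw
  refine ⟨⟨ι.symm π, ?_⟩, fun c => ?_⟩
  · rw [Api.cg_apply, AlgEquiv.apply_symm_apply]
    exact hπ
  · rw [Api.cg_apply, com]
    exact h2 c

theorem invol [CharZero L] [FiniteDimensional L E] (h : Module.finrank L E = 2) :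
    ∃ ι : E ≃ₐ[L] E, (∀ f, ι (ι f) = f) ∧ ∀ f : E, ∃ g : L, algebraMap L E g = f * ι f := by
  have hq : Algebra.IsQuadraticExtension L E := ⟨h⟩
  have hG : IsGalois L E := inferInstance
  have hcard : Nat.card (E ≃ₐ[L] E) = 2 := by rw [IsGalois.card_aut_eq_finrank, h]
  obtain ⟨ι, hι, hu⟩ := (Nat.card_eq_two_iff' (1 : E ≃ₐ[L] E)).1 hcard
  have h1 : ι * ι = 1 := by
    by_contra hne
    have h2 := hu _ hne
    exact hι (mul_eq_left.1 h2)
  have h2 : ∀ f, ι (ι f) = f := fun f => by
    have h3 := congrArg (fun σ : E ≃ₐ[L] E => σ f) h1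
    exact h3
  refine ⟨ι, h2, fun f => ?_⟩
  have h3 : f * ι f ∈ Set.range (algebraMap L E) := by
    rw [IsGalois.mem_range_algebraMap_iff_fixed]
    intro σ
    by_cases hσ : σ = 1
    · rw [hσ]; rfl
    · rw [hu σ hσ, map_mul, h2, mul_comm]
  exact h3

theorem swap (hCls : StCls.{u}) {y : Fin 1 → L} (hy : GenBy K y) {P P' : AddValuation E (WithTop ℤ)} (hP : Plc K P)
    (hP' : Plc K P') (hne : P ≠ P') (h1 : P (algebraMap L E (y 0)) = ((-1 : ℤ) : WithTop ℤ))
    (h1' : P' (algebraMap L E (y 0)) = ((-1 : ℤ) : WithTop ℤ))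
    (h2 : ∀ w : AddValuation E (WithTop ℤ), Plc K w → w ≠ P → w ≠ P' → 0 ≤ w (algebraMap L E (y 0)))
    (ι : E ≃ₐ[L] E) (h3 : ∀ f, ι (ι f) = f) (h4 : ∀ f : E, ∃ g : L, algebraMap L E g = f * ι f) : cg ι P = P' := by
  have hcc : ∀ w : AddValuation E (WithTop ℤ), cg ι (cg ι w) = w := by
    intro w
    ext f
    rw [Api.cg_apply, Api.cg_apply, h3]
  have hneg : ¬ (0 : WithTop ℤ) ≤ ((-1 : ℤ) : WithTop ℤ) := by decide
  have hone : ∀ w : AddValuation E (WithTop ℤ), Plc K w → w (algebraMap L E (y 0)) = ((-1 : ℤ) : WithTop ℤ) →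
      cg ι w = P ∨ cg ι w = P' := by
    intro w hw h5
    by_contra hcon
    rw [not_or] at hcon
    have h6 := h2 (cg ι w) (plc_cg ι hw) hcon.1 hcon.2
    rw [Api.cg_apply, ι.commutes, h5] at h6
    exact hneg h6
  rcases hone P hP h1 with hA | hA
  swap
  · exact hA
  exfalso
  have hB : cg ι P' = P' := by
    rcases hone P' hP' h1' with hB | hB
    · exfalso
      apply hne
      rw [← hcc P', hB, hA]
    · exact hB
  obtain ⟨-, -, -, -, hC5, -⟩ := hCls K L y hy
  have hy0 : y 0 ≠ 0 := by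
    intro h0
    rw [h0, map_zero, AddValuation.map_zero] at h1
    exact WithTop.coe_ne_top h1.symm
  have hres : ∀ w : AddValuation E (WithTop ℤ), Plc K w → w (algebraMap L E (y 0)) = ((-1 : ℤ) : WithTop ℤ) →
      Plc K (Api.res L w) := by
    intro w hw h5
    refine ⟨⟨(y 0)⁻¹, ?_⟩, fun c => ?_⟩
    · have h6 : val (Api.res L w) (y 0) = -1 := Api.val_of _ h5
      rw [Api.coe_val _ (inv_ne_zero hy0), Api.val_inv _ hy0, h6]
      rfl
    · rw [Api.res_apply, ← IsScalarTower.algebraMap_apply K L E]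
      exact hw.2 c
  have hlt : ((-1 : ℤ) : WithTop ℤ) < 0 := by decide
  have hEq : Api.res L P = Api.res L P' := by
    apply hC5 _ _ (hres P hP h1) (hres P' hP' h1')
    · rw [Api.res_apply, h1]; exact hlt
    · rw [Api.res_apply, h1']; exact hlt
  apply hne
  ext f
  by_cases hf : f = 0
  · rw [hf, AddValuation.map_zero, AddValuation.map_zero]
  obtain ⟨g, hg⟩ := h4 f
  have hιf : ι f ≠ 0 := by
    intro h0
    apply hf
    rw [← h3 f, h0, map_zero]
  have h5 : P (f * ι f) = P' (f * ι f) := by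
    rw [← hg, ← Api.res_apply, hEq, Api.res_apply]
  have h6 : val P (f * ι f) = val P' (f * ι f) := by rw [val, h5, val]
  rw [Api.val_mul P hf hιf, Api.val_mul P' hf hιf, ← Api.val_cg, ← Api.val_cg, hA, hB] at h6
  rw [Api.coe_val P hf, Api.coe_val P' hf]
  congr 1
  omega

theorem der_L (δ : Derivation K E E) {y : Fin 1 → L} (hy : GenBy K y) (h : δ (algebraMap L E (y 0)) = 0) (x : L) :
    δ (algebraMap L E x) = 0 := by
  have hx : x ∈ IntermediateField.adjoin K (Set.range y) := by
    rw [hy.2]; exact IntermediateField.mem_top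
  induction hx using IntermediateField.adjoin_induction with
  | mem x hx =>
    obtain ⟨i, rfl⟩ := hx
    rw [Subsingleton.elim i 0]
    exact h
  | algebraMap x =>
    rw [← IsScalarTower.algebraMap_apply K L E]
    exact δ.map_algebraMap x
  | add x y hx hy h1 h2 => rw [map_add, map_add, h1, h2, add_zero]
  | inv x hx h1 => rw [map_inv₀, Derivation.leibniz_inv, h1, smul_zero]
  | mul x y hx hy h1 h2 => rw [map_mul, Derivation.leibniz, h1, h2, smul_zero, smul_zero, add_zero]

theorem der_zero [CharZero L] [FiniteDimensional L E] (δ : Derivation K E E) {y : Fin 1 → L} (hy : GenBy K y)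
    (h : δ (algebraMap L E (y 0)) = 0) (f : E) : δ f = 0 := by
  have h1 := der_L δ hy h
  let δ' : Derivation L E E :=
    { toFun := fun f => δ f
      map_add' := fun f g => map_add δ f g
      map_smul' := fun c f => by
        rw [Algebra.smul_def, Derivation.leibniz, h1, smul_zero, add_zero, RingHom.id_apply, smul_eq_mul, Algebra.smul_def]
      map_one_eq_zero' := by
        change δ 1 = 0
        exact δ.map_one_eq_zero
      leibniz' := fun f g => δ.leibniz f g }
  have hsep : Algebra.IsSeparable L E := inferInstance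
  have hun : Algebra.FormallyUnramified L E := Algebra.FormallyUnramified.of_isSeparable L E
  have hsub : Subsingleton (Ω[E⁄L]) := inferInstance
  have h2 : δ' = 0 := by
    rw [← Derivation.liftKaehlerDifferential_comp δ', Subsingleton.elim δ'.liftKaehlerDifferential 0]
    ext f
    rfl
  have h3 := congrArg (fun d : Derivation L E E => d f) h2
  exact h3

/-- the conjugate vector field -/
def cjg (θ : Derivation K E E) (ι : E ≃ₐ[L] E) (h : ∀ f, ι (ι f) = f) : Derivation K E E :=
  Derivation.mk'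
    { toFun := fun f => ι (θ (ι f))
      map_add' := fun f g => by rw [map_add, map_add, map_add]
      map_smul' := fun c f => by
        rw [RingHom.id_apply, Algebra.smul_def, map_mul, com, ← Algebra.smul_def, Derivation.map_smul, Algebra.smul_def,
          map_mul, com, ← Algebra.smul_def] }
    (fun f g => by
      change ι (θ (ι (f * g))) = f • ι (θ (ι g)) + g • ι (θ (ι f))
      rw [map_mul, Derivation.leibniz, map_add, smul_eq_mul, smul_eq_mul, map_mul, map_mul, h, h, smul_eq_mul, smul_eq_mul])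

theorem der_conj [CharZero L] [FiniteDimensional L E] (θ : Derivation K E E) {y : Fin 1 → L} (hy : GenBy K y)
    (ι : E ≃ₐ[L] E) (h : ∀ f, ι (ι f) = f) (h0 : θ (algebraMap L E (y 0)) ≠ 0) (g : E) :
    ι (θ g) = ι (θ (algebraMap L E (y 0))) / θ (algebraMap L E (y 0)) * θ (ι g) := by
  have h1 : ∀ f : E, (θ (algebraMap L E (y 0)) • cjg θ ι h - ι (θ (algebraMap L E (y 0))) • θ) f =
      θ (algebraMap L E (y 0)) * ι (θ (ι f)) - ι (θ (algebraMap L E (y 0))) * θ f := fun f => rfl
  have h2 := der_zero (θ (algebraMap L E (y 0)) • cjg θ ι h - ι (θ (algebraMap L E (y 0))) • θ) hy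
    (by rw [h1, ι.commutes]; ring) (ι g)
  rw [h1, h] at h2
  rw [div_mul_eq_mul_div, eq_div_iff h0]
  linear_combination h2

end

end XZsg

open Classical in
theorem pr_Zsg (hCls : StCls.{u}) (hNop : StNop.{u}) (hZor : StZor.{u}) (hZex : StZex.{u}) (hZdg : StZdg.{u})
    (hZsp : StZsp.{u}) : StZsg.{u} := by
  intro K E _ _ _ _ hF hC θ hθ P P' hP hR hP' hR' X X' a b a' b' hW hW'
  by_cases hPP : P = P'
  · subst hPP
    exact XZsg.same hZsp hF hC θ hθ hP hR hW hW'
  have hθ0 : θ ≠ 0 := by
    intro h0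
    obtain ⟨-, f, -, h1⟩ := hθ P hP
    rw [h0] at h1
    change P 0 = _ at h1
    rw [AddValuation.map_zero] at h1
    exact WithTop.coe_ne_top h1.symm
  obtain ⟨D, hD⟩ : ∃ D : AddValuation E (WithTop ℤ) → ℤ, D = fun w => if w = P then 1 else 0 := ⟨_, rfl⟩
  have hD1 : D P = 1 := by rw [hD]; simp
  have hD0 : ∀ w, w ≠ P → D w = 0 := by
    intro w hw
    rw [hD]; simp [hw]
  have hfin : {w : AddValuation E (WithTop ℤ) | Plc K w ∧ D w ≠ 0}.Finite := by
    apply (Set.finite_singleton P).subset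
    rintro w ⟨-, hw⟩
    by_contra hne
    exact hw (hD0 w hne)
  have hNsp : Nsp θ D := by
    intro g hg
    have h1 : ∀ w : AddValuation E (WithTop ℤ), Plc K w → ((D w : ℤ) : WithTop ℤ) ≤ w g := by
      intro w hw
      have h2 := hg w 0 hw (hθ w hw)
      rwa [zero_add] at h2
    obtain ⟨c, hc⟩ := XZsg.cst hNop hF hC (f := g) (by
      intro w hw
      refine le_trans ?_ (h1 w hw)
      by_cases hw' : w = P
      · rw [hw', hD1]; decide
      · rw [hD0 w hw']; exact le_rfl)
    by_contra hne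
    have hc0 : c ≠ 0 := by
      intro h0
      rw [h0, map_zero] at hc
      exact hne hc.symm
    have h2 := h1 P hP
    rw [← hc, Api.val_algebraMap hP.2 hc0, hD1] at h2
    exact absurd h2 (by decide)
  obtain ⟨z, hz1, hz2⟩ := hZex K E hF θ hθ0 D hfin hNsp P' hP'
  have hPP' : P' ≠ P := fun h => hPP h.symm
  rw [hD0 P' hPP', neg_zero, zero_sub] at hz1
  have hz0 : z ≠ 0 := XZsg.ne_zero P' hz1
  have hz3 : ∀ w : AddValuation E (WithTop ℤ), Plc K w → w ≠ P → w ≠ P' → 0 ≤ w z := by
    intro w hw h1 h2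
    have h3 := hz2 w hw h2
    rw [hD0 w h1, neg_zero] at h3
    exact h3
  have hzn : ¬ IsAlgebraic K z := by
    intro hal
    obtain ⟨c, hc⟩ := hC z hal
    have h1 := hP'.2 c
    rw [hc, hz1] at h1
    exact absurd h1 (by decide)
  have hz4 : P z = ((-1 : ℤ) : WithTop ℤ) := by
    have h1 := hz2 P hP hPP
    rw [hD1, XZsg.le_iff P hz0] at h1
    rw [Api.coe_val P hz0]
    congr 1
    by_contra hne
    have h2 : 0 ≤ val P z := by omega
    rw [Api.val_nonneg P hz0] at h2
    obtain ⟨c, hc⟩ := hZsp K E hF hC θ hθ P' hP' hR' z (by rw [hz1]) (by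
      intro w hw hw'
      by_cases hwP : w = P
      · rw [hwP]; exact h2
      · exact hz3 w hw hwP hw')
    exact hzn (hc ▸ isAlgebraic_algebraMap c)
  obtain ⟨hfd, hrk⟩ := hZdg K E hF hC 2 ![P, P'] (by
    intro i
    fin_cases i
    · exact ⟨hP, hR⟩
    · exact ⟨hP', hR'⟩) z hzn (by
    intro w hw
    by_cases h1 : w = P
    · have h2 : {i : Fin 2 | ![P, P'] i = w} = {0} := by
        ext i
        fin_cases i
        · simp [h1]
        · simp [h1, hPP']
      rw [h2, Set.ncard_singleton, h1, hz4]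
      exact le_rfl
    by_cases h1' : w = P'
    · have h2 : {i : Fin 2 | ![P, P'] i = w} = {1} := by
        ext i
        fin_cases i
        · simp [h1', hPP]
        · simp [h1']
      rw [h2, Set.ncard_singleton, h1', hz1]
      exact le_rfl
    refine le_trans ?_ (hz3 w hw h1 h1')
    rw [← WithTop.coe_zero, WithTop.coe_le_coe]
    omega)
  obtain ⟨y, hy⟩ : ∃ y : Fin 1 → IntermediateField.adjoin K {z},
    y = fun _ => ⟨z, IntermediateField.subset_adjoin K {z} rfl⟩ := ⟨_, rfl⟩
  have hyz : algebraMap (IntermediateField.adjoin K {z}) E (y 0) = z := by rw [hy]; rfl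
  have hgen : GenBy K y := by
    constructor
    · rw [algebraicIndependent_singleton_iff (0 : Fin 1)]
      intro h
      apply hzn
      have h1 := h.algebraMap (A := E)
      rwa [hyz] at h1
    · apply IntermediateField.lift_injective (IntermediateField.adjoin K {z})
      rw [IntermediateField.lift_adjoin, IntermediateField.lift_top]
      congr 1
      ext t
      constructor
      · rintro ⟨_, ⟨i, rfl⟩, rfl⟩
        rw [Subsingleton.elim i 0]
        exact hyz
      · intro ht
        exact ⟨y 0, ⟨0, rfl⟩, hyz.trans (Set.mem_singleton_iff.1 ht).symm⟩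
  have hrk2 : Module.finrank (IntermediateField.adjoin K {z}) E = 2 := by
    have hpos : 0 < Module.finrank (IntermediateField.adjoin K {z}) E := Module.finrank_pos
    by_contra hne
    have h1 : Module.finrank (IntermediateField.adjoin K {z}) E = 1 := by omega
    have htop : IntermediateField.adjoin K {z} = ⊤ := IntermediateField.finrank_eq_one_iff_eq_top.1 h1
    obtain ⟨y', hy'⟩ : ∃ y' : Fin 1 → E, y' = fun _ => z := ⟨_, rfl⟩
    have hgen' : GenBy K y' := by
      constructor
      · rw [algebraicIndependent_singleton_iff (0 : Fin 1), hy']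
        exact hzn
      · rw [hy', Set.range_const]
        exact htop
    obtain ⟨-, -, -, -, hC5, -⟩ := hCls K E y' hgen'
    have hlt : ((-1 : ℤ) : WithTop ℤ) < 0 := by decide
    apply hPP
    apply hC5 P P' hP hP'
    · rw [hy', hz4]; exact hlt
    · rw [hy', hz1]; exact hlt
  obtain ⟨ι, hι, hN⟩ := XZsg.invol (L := IntermediateField.adjoin K {z}) (E := E) hrk2
  have hsw : cg ι P = P' := XZsg.swap hCls hgen hP hP' hPP (by rw [hyz, hz4]) (by rw [hyz, hz1])
    (by rw [hyz]; exact hz3) ι hι hN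
  have hcc : ∀ w : AddValuation E (WithTop ℤ), cg ι (cg ι w) = w := by
    intro w
    ext f
    rw [Api.cg_apply, Api.cg_apply, hι]
  have hsw' : cg ι P' = P := by rw [← hsw, hcc]
  have hθz : θ z ≠ 0 := by
    have h1 := hZor K E hF P θ 0 hP (hθ P hP) z (-1) (by norm_num) hz4
    exact XZsg.ne_zero P h1
  obtain ⟨c, hc⟩ : ∃ c : E, c = ι (θ z) / θ z := ⟨_, rfl⟩
  have hιz : ι z = z := by
    have h1 := ι.commutes (y 0)
    rwa [hyz] at h1
  have hconj : ∀ g : E, ι (θ g) = c * θ (ι g) := by
    intro g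
    have h1 := XZsg.der_conj θ hgen ι hι (by rw [hyz]; exact hθz) g
    rw [hyz, ← hc] at h1
    exact h1
  have hιθz : ι (θ z) ≠ 0 := by
    intro h0
    apply hθz
    rw [← hι (θ z), h0, map_zero]
  have hc0 : c ≠ 0 := by rw [hc]; exact div_ne_zero hιθz hθz
  obtain ⟨γ, hγ⟩ := XZsg.cst hNop hF hC (f := c) (by
    intro w hw
    obtain ⟨h1, f, h2, h3⟩ := hθ w hw
    have hw' : Plc K (cg ι w) := XZsg.plc_cg ι hw
    have h4 := (hθ (cg ι w) hw').1 (ι f) (by rw [Api.cg_apply, hι]; exact h2)
    rw [Api.cg_apply, hconj, hι, AddValuation.map_mul, h3] at h4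
    simpa using h4)
  have hc2 : c ^ 2 = 1 := by
    have h1 : ι c = c := by rw [← hγ, XZsg.com]
    have h2 : ι c = θ z / ι (θ z) := by rw [hc, map_div₀, hι]
    have h3 : c * ι c = 1 := by
      rw [h2, hc]
      field_simp
    rw [h1] at h3
    rw [pow_two]
    exact h3
  have hW2 : Wei θ P' (ι X) a b := by
    obtain ⟨h1, h2, h3⟩ := hW
    refine ⟨?_, ?_, ?_⟩
    · rw [← Api.cg_apply, hsw', h1]
    · intro w hw hne
      have h4 : cg ι w ≠ P := by
        intro h5
        apply hne
        rw [← hcc w, h5, hsw]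
      exact h2 (cg ι w) (XZsg.plc_cg ι hw) h4
    · have h4 := congrArg ι h3
      rw [map_pow, hconj, mul_pow, hc2, one_mul] at h4
      rw [h4]
      simp only [map_add, map_mul, map_pow, map_ofNat, XZsg.com]
  exact XZsg.same hZsp hF hC θ hθ hP' hR' hW2 hW'

end Pool.Agent.Work.MP_a2680c_ag.HA
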