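import Pool.Agent.Work.MP_a2680c_ag.HA.StmtsZ

/-! Item [a2680c HA Zsp] (helper54): no function with a single simple pole on a curve of genus one. -/

set_option autoImplicit false

noncomputable section

namespace Pool.Agent.Work.MP_a2680c_ag.HA

open MP7b66e6 MP7b66e6.Q
open scoped BigOperators

universe u

namespace XZsp

/-- the derivative of a polynomial in `g` is a multiple of the derivative of `g` -/
theorem chain {K E : Type u} [Field K] [Field E] [Algebra K E] (θ : Derivation K E E) (y : Fin 1 → E)
    (q : MvPolynomial (Fin 1) K) :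
    ∃ r : MvPolynomial (Fin 1) K, θ (MvPolynomial.aeval y q) = MvPolynomial.aeval y r * θ (y 0) := by
  induction q using MvPolynomial.induction_on with
  | C c =>
    refine ⟨0, ?_⟩
    rw [MvPolynomial.aeval_C, Derivation.map_algebraMap, map_zero, zero_mul]
  | add p q hp hq =>
    obtain ⟨r, hr⟩ := hp
    obtain ⟨s, hs⟩ := hq
    refine ⟨r + s, ?_⟩
    rw [map_add, map_add, hr, hs, map_add, add_mul]
  | mul_X p j hp =>
    obtain ⟨r, hr⟩ := hp
    have hj : j = 0 := Subsingleton.elim _ _
    subst hj
    refine ⟨p + MvPolynomial.X 0 * r, ?_⟩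
    rw [map_mul, Derivation.leibniz, hr, map_add, map_mul, MvPolynomial.aeval_X]
    simp only [smul_eq_mul]
    ring

theorem zero_of_const {K E : Type u} [Field K] [Field E] [Algebra K E] (w : AddValuation E (WithTop ℤ))
    (hw : Plc K w) (c : K) (hc : c ≠ 0) : w (algebraMap K E c) = 0 := by
  have h1 := hw.2 c
  have h2 := hw.2 c⁻¹
  have hne : algebraMap K E c ≠ 0 := by simpa using hc
  rw [← Api.val_nonneg w hne] at h1
  rw [map_inv₀, ← Api.val_nonneg w (inv_ne_zero hne), Api.val_inv w hne] at h2
  rw [Api.coe_val w hne, show val w (algebraMap K E c) = 0 by omega]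
  rfl

end XZsp

theorem pr_Zsp (_hOrd : StOrd.{u}) (hCls : StCls.{u}) (hNop : StNop.{u}) (hZor : StZor.{u}) (hZdg : StZdg.{u}) :
    StZsp.{u} := by
  classical
  intro K E _ _ _ _ hF hC θ hθ P hP hPr g hgP hg
  by_contra hcon
  have hcc : ∀ f : E, (∀ w : AddValuation E (WithTop ℤ), Plc K w → 0 ≤ w f) → ∃ c : K, algebraMap K E c = f := by
    intro f hf
    obtain ⟨he, x, hx⟩ := hF
    exact hC f (hNop K E x hx f hf)
  have hgt : ¬ IsAlgebraic K g := fun h => hcon (hC g h)
  have hg0 : g ≠ 0 := by
    rintro rfl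
    exact hcon ⟨0, map_zero _⟩
  -- the pole at `P` is simple
  have hPg : P g = ((-1 : ℤ) : WithTop ℤ) := by
    have h1 : ¬ 0 ≤ P g := by
      intro h
      apply hcon
      apply hcc
      intro w hw
      by_cases hwP : w = P
      · rw [hwP]; exact h
      · exact hg w hw hwP
    rw [← Api.val_nonneg P hg0] at h1
    rw [Api.coe_val P hg0, WithTop.coe_le_coe] at hgP
    rw [Api.coe_val P hg0, show val P g = -1 by omega]
  -- `E = K(g)`
  obtain ⟨hfd, hfr⟩ := hZdg K E hF hC 1 (fun _ => P) (fun _ => ⟨hP, hPr⟩) g hgt (by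
    intro w hw
    by_cases hwP : w = P
    · have h1 : Set.ncard {i : Fin 1 | P = w} = 1 := by
        rw [Set.ncard_eq_one]
        refine ⟨0, ?_⟩
        ext i
        simp [hwP, Subsingleton.elim i 0]
      rw [h1, hwP, hPg]
      rfl
    · have h1 : Set.ncard {i : Fin 1 | P = w} = 0 := by
        rw [Set.ncard_eq_zero]
        ext i
        simp [Ne.symm hwP]
      rw [h1]
      simpa using hg w hw hwP)
  have htop : IntermediateField.adjoin K {g} = ⊤ := by
    have h1 : 0 < Module.finrank (IntermediateField.adjoin K {g}) E := Module.finrank_pos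
    have h2 : Module.finrank (IntermediateField.adjoin K {g}) E = 1 := by omega
    exact IntermediateField.finrank_eq_one_iff_eq_top.mp h2
  set y : Fin 1 → E := fun _ => g with hy
  have hgen : GenBy K y := by
    constructor
    · rw [algebraicIndependent_unique_type_iff]
      exact hgt
    · have h1 : Set.range y = {g} := by
        rw [hy]
        exact Set.range_const
      rw [h1, htop]
  obtain ⟨hc1, -⟩ := hCls K E y hgen
  -- values of `θ g`
  have hθP : P (θ g) = ((-2 : ℤ) : WithTop ℤ) := by
    have h1 := hZor K E hF P θ 0 hP (hθ P hP) g (-1) (by norm_num) hPg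
    rw [h1]
    rfl
  have hθ0 : θ g ≠ 0 := by
    intro h
    rw [h, AddValuation.map_zero] at hθP
    exact WithTop.top_ne_coe hθP
  have hfin : ∀ w : AddValuation E (WithTop ℤ), Plc K w → w ≠ P → w (θ g) = 0 := by
    intro w hw hwP
    have hwg := hg w hw hwP
    have hwθ : 0 ≤ w (θ g) := (hθ w hw).1 g hwg
    rcases hc1 w hw with ⟨_, p, hp⟩ | ⟨hneg, _⟩
    · have hpv : w (MvPolynomial.aeval y p) = ((1 : ℤ) : WithTop ℤ) := by
        have h1 : (((1 : ℕ) : ℤ) : WithTop ℤ) ≤ w (MvPolynomial.aeval y p) := (hp.2 p 1).2 (by rw [pow_one])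
        have h2 : ¬ ((((2 : ℕ) : ℤ) : WithTop ℤ) ≤ w (MvPolynomial.aeval y p)) := by
          intro h
          have h3 := (hp.2 p 2).1 h
          exact hp.1.not_isUnit (isUnit_of_dvd_one (by
            rw [pow_two] at h3
            obtain ⟨s, hs⟩ := h3
            refine ⟨s, ?_⟩
            have h4 : p * 1 = p * (p * s) := by
              rw [mul_one, ← mul_assoc]
              exact hs
            exact mul_left_cancel₀ hp.1.ne_zero h4))
        have hne : MvPolynomial.aeval y p ≠ 0 := by
          intro h0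
          apply h2
          rw [h0, AddValuation.map_zero]
          exact le_top
        rw [Api.coe_val w hne, WithTop.coe_le_coe] at h1 h2
        rw [Api.coe_val w hne]
        congr 1
        omega
      have hd := hZor K E hF w θ 0 hw (hθ w hw) _ 1 (by norm_num) hpv
      obtain ⟨r, hr⟩ := XZsp.chain θ y p
      have hr0 : 0 ≤ w (MvPolynomial.aeval y r) := by
        have h1 := (hp.2 r 0).2 (by rw [pow_zero]; exact one_dvd _)
        simpa using h1
      have hy0 : y 0 = g := rfl
      rw [hr, hy0, AddValuation.map_mul] at hd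
      have hne : MvPolynomial.aeval y r ≠ 0 := by
        intro h0
        rw [h0, AddValuation.map_zero, top_add] at hd
        exact WithTop.top_ne_coe hd
      rw [Api.coe_val w hθ0] at hd hwθ ⊢
      rw [Api.coe_val w hne] at hd hr0
      rw [← WithTop.coe_zero, WithTop.coe_le_coe] at hwθ hr0
      rw [← WithTop.coe_add, WithTop.coe_inj] at hd
      rw [← WithTop.coe_zero, WithTop.coe_inj]
      omega
    · exact absurd hneg (not_lt.2 hwg)
  -- the inverse of `θ g` has no poles
  obtain ⟨c, hc⟩ := hcc (θ g)⁻¹ (by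
    intro w hw
    rw [← Api.val_nonneg w (inv_ne_zero hθ0), Api.val_inv w hθ0]
    by_cases hwP : w = P
    · rw [hwP, Api.val_of P hθP]
      norm_num
    · rw [Api.val_of w (m := 0) (hfin w hw hwP)]
      norm_num)
  have hc0 : c ≠ 0 := by
    rintro rfl
    rw [map_zero] at hc
    exact inv_ne_zero hθ0 hc.symm
  have h1 := XZsp.zero_of_const P hP c hc0
  rw [hc] at h1
  have h2 := Api.val_of P (m := 0) h1
  rw [Api.val_inv P hθ0, Api.val_of P hθP] at h2
  norm_num at h2

end Pool.Agent.Work.MP_a2680c_ag.HA
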