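import Pool.Agent.Work.MP_a2680c_ag.HA.StmtsZ

/-!
# MP_a2680c_ag, block HA, item Ztd: the trace dual
-/

set_option autoImplicit false

noncomputable section

namespace Pool.Agent.Work.MP_a2680c_ag.HA

open MP7b66e6 MP7b66e6.Q
open scoped BigOperators

universe u

namespace XZtd

theorem coe_val {K : Type u} [Field K] (ν : AddValuation K (WithTop ℤ)) {f : K} (hf : f ≠ 0) :
    ν f = (val ν f : WithTop ℤ) := by
  have h : ν f ≠ ⊤ := by
    intro h; exact hf ((AddValuation.top_iff ν).1 h)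
  obtain ⟨m, hm⟩ := WithTop.ne_top_iff_exists.1 h
  rw [val, ← hm]; rfl

theorem val_of {K : Type u} [Field K] (ν : AddValuation K (WithTop ℤ)) {f : K} {m : ℤ}
    (h : ν f = (m : WithTop ℤ)) : val ν f = m := by
  rw [val, h]; rfl

theorem val_mul {K : Type u} [Field K] (ν : AddValuation K (WithTop ℤ)) {f g : K} (hf : f ≠ 0)
    (hg : g ≠ 0) : val ν (f * g) = val ν f + val ν g := by
  apply val_of
  rw [AddValuation.map_mul, coe_val ν hf, coe_val ν hg]; rfl

theorem val_inv {K : Type u} [Field K] (ν : AddValuation K (WithTop ℤ)) {f : K} (hf : f ≠ 0) :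
    val ν f⁻¹ = - val ν f := by
  have h := val_mul ν hf (inv_ne_zero hf)
  have h1 : val ν (1 : K) = 0 := val_of ν (by rw [AddValuation.map_one]; rfl)
  rw [mul_inv_cancel₀ hf, h1] at h
  omega

/-- an element close to `1` has value `0` -/
theorem val_near {K : Type u} [Field K] (ν : AddValuation K (WithTop ℤ)) {f : K}
    (h : 0 < ν (f - 1)) : ν f = 0 := by
  have h1 : f = 1 + (f - 1) := by ring
  rw [h1, AddValuation.map_add_eq_of_lt_left, AddValuation.map_one]
  rw [AddValuation.map_one]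
  exact h

end XZtd

open XZtd in
theorem pr_Ztd (hfo : StZfo.{u}) (hapx : StAPX.{u}) (htr : StZtr.{u}) : StZtd.{u} := by
  intro K E₁ E _ _ _ _ _ _ _ _ _ v hv D h hyp w e hw hlies
  by_contra hcon
  rw [not_le] at hcon
  have hh : h ≠ 0 := by
    rintro rfl
    rw [AddValuation.map_zero] at hcon
    exact absurd hcon (not_lt.2 le_top)
  have hwh : val w h ≤ D w - e := by
    rw [coe_val w hh, WithTop.coe_lt_coe] at hcon
    omega
  obtain ⟨t, ht⟩ := hv.1
  have ht0 : t ≠ 0 := by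
    rintro rfl
    rw [AddValuation.map_zero] at ht
    exact absurd ht (by decide)
  have hvt : val v t = 1 := val_of v (by rw [ht]; rfl)
  set T : E := algebraMap E₁ E t with hTdef
  have hT0 : T ≠ 0 := by
    rw [hTdef]
    exact (map_ne_zero _).2 ht0
  have hTh : T * h ≠ 0 := mul_ne_zero hT0 hh
  have hwT : val w T = e := by
    have := hlies.2 t ht0
    rw [hvt, mul_one] at this
    exact this
  have hS : {w' : AddValuation E (WithTop ℤ) | Ovr v w' ∧ w' ≠ w}.Finite :=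
    (hfo E₁ E v ⟨t, ht⟩).subset fun w' h' => h'.1
  have := hS.to_subtype
  obtain ⟨n, ⟨φ⟩⟩ :=
    Finite.exists_equiv_fin {w' : AddValuation E (WithTop ℤ) | Ovr v w' ∧ w' ≠ w}
  let μ : Fin n → AddValuation E (WithTop ℤ) := fun i => (φ.symm i).1
  have hμ : ∀ i, Ovr v (μ i) ∧ μ i ≠ w := fun i => (φ.symm i).2
  obtain ⟨N, hN1, hN⟩ : ∃ N : ℕ, 1 ≤ N ∧ ∀ i, val (μ i) (T * h) - D (μ i) ≤ N := by
    refine ⟨1 + ∑ i, (val (μ i) (T * h) - D (μ i)).natAbs, by omega, fun i => ?_⟩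
    have h1 : (val (μ i) (T * h) - D (μ i)).natAbs ≤
        ∑ i, (val (μ i) (T * h) - D (μ i)).natAbs :=
      Finset.single_le_sum (f := fun i => (val (μ i) (T * h) - D (μ i)).natAbs)
        (fun _ _ => Nat.zero_le _) (Finset.mem_univ i)
    omega
  obtain ⟨u, hu1, hu2⟩ := hapx E (Fin n) w μ hw (fun i => (hμ i).1.1) (fun i => (hμ i).2) N
  have hN0 : (0 : WithTop ℤ) < (N : WithTop ℤ) := by
    have : (0 : ℤ) < (N : ℤ) := by exact_mod_cast hN1
    exact_mod_cast this
  have hwu : w u = 0 := val_near w (lt_of_lt_of_le hN0 hu1)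
  have hu0 : u ≠ 0 := by
    rintro rfl
    rw [AddValuation.map_zero] at hwu
    exact absurd hwu (by decide)
  have hvwu : val w u = 0 := val_of w (by rw [hwu]; rfl)
  have hother : ∀ w' : AddValuation E (WithTop ℤ), Ovr v w' → w' ≠ w →
      (N : WithTop ℤ) ≤ w' u ∧ val w' (T * h) - D w' ≤ N := by
    intro w' hw' hne
    have h1 := hu2 (φ ⟨w', hw', hne⟩)
    have h2 := hN (φ ⟨w', hw', hne⟩)
    have h3 : μ (φ ⟨w', hw', hne⟩) = w' := by
      change (φ.symm (φ ⟨w', hw', hne⟩)).1 = w'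
      rw [Equiv.symm_apply_apply]
    rw [h3] at h1 h2
    exact ⟨h1, h2⟩
  have hg0 : u * (T * h)⁻¹ ≠ 0 := mul_ne_zero hu0 (inv_ne_zero hTh)
  have key := hyp (u * (T * h)⁻¹) (by
    intro w' hw'
    rw [coe_val w' hg0, WithTop.coe_le_coe, val_mul w' hu0 (inv_ne_zero hTh), val_inv w' hTh]
    by_cases hne : w' = w
    · rw [hne, hvwu, val_mul w hT0 hh, hwT]
      omega
    · obtain ⟨h1, h2⟩ := hother w' hw' hne
      rw [coe_val w' hu0] at h1
      have h3 : ((N : ℤ) : WithTop ℤ) ≤ ((val w' u : ℤ) : WithTop ℤ) := by exact_mod_cast h1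
      rw [WithTop.coe_le_coe] at h3
      omega)
  have heq : h * (u * (T * h)⁻¹) = t⁻¹ • u := by
    rw [Algebra.smul_def, map_inv₀, ← hTdef]
    field_simp
  rw [heq, map_smul, smul_eq_mul, AddValuation.map_mul] at key
  have h0 : v (Algebra.trace E₁ E u) = 0 :=
    htr K E₁ E v hv w ⟨hw, e, hlies⟩ u (lt_of_lt_of_le hN0 hu1)
      (fun w' hw' hne => lt_of_lt_of_le hN0 (hother w' hw' hne).1)
  rw [h0, add_zero, coe_val v (inv_ne_zero ht0), val_inv v ht0, hvt] at key
  have h5 : (0 : ℤ) ≤ -1 := by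
    have h6 : ((0 : ℤ) : WithTop ℤ) ≤ ((-1 : ℤ) : WithTop ℤ) := key
    exact WithTop.coe_le_coe.1 h6
  omega

end Pool.Agent.Work.MP_a2680c_ag.HA
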