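import Pool.Agent.Work.MP_a2680c_ag.HA.StmtsZ

/-!
# MP_a2680c_ag, block HA, item Ztp: traces of integral elements
-/

set_option autoImplicit false

noncomputable section

namespace Pool.Agent.Work.MP_a2680c_ag.HA

open MP7b66e6 MP7b66e6.Q
open scoped BigOperators

universe u

namespace XZtp

/-- a nontrivial valuation of `F₁` restricted to `F` is a multiple of a normalized valuation -/
theorem norm_res (hNOR : MgNOR.{u}) {F₀ F F₁ : Type u} [Field F₀] [Field F] [Field F₁] [Algebra F₀ F] [Algebra F₀ F₁]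
    [Algebra F F₁] [IsScalarTower F₀ F F₁] {ν₀ : AddValuation F₀ (WithTop ℤ)} {w : AddValuation F₁ (WithTop ℤ)} {t : ℕ}
    (hπ : ∃ π : F₀, ν₀ π = 1) (h : Lies ν₀ w t) :
    ∃ (ν : AddValuation F (WithTop ℤ)) (η μ : ℕ), (∃ π : F, ν π = 1) ∧ Lies ν w η ∧ Lies ν₀ ν μ ∧ η * μ = t := by
  have hπ' := hπ
  obtain ⟨π, hπ1⟩ := hπ
  have hπ0 : π ≠ 0 := by
    intro h0; rw [h0, AddValuation.map_zero] at hπ1; exact absurd hπ1 (by simp)
  have hvπ : val ν₀ π = 1 := Api.val_of ν₀ hπ1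
  have hπF : algebraMap F₀ F π ≠ 0 := by
    rw [map_ne_zero_iff _ (algebraMap F₀ F).injective]; exact hπ0
  have hπF1 : algebraMap F F₁ (algebraMap F₀ F π) ≠ 0 := by
    rw [map_ne_zero_iff _ (algebraMap F F₁).injective]; exact hπF
  have hw : w (algebraMap F F₁ (algebraMap F₀ F π)) = ((t : ℤ) : WithTop ℤ) := by
    rw [Api.coe_val w hπF1, ← IsScalarTower.algebraMap_apply F₀ F F₁, h.2 π hπ0, hvπ, mul_one]
  have ht : (0 : ℤ) < t := by exact_mod_cast h.1
  obtain ⟨e, ν, he, hν, hm⟩ := hNOR F (Api.res F w) ⟨algebraMap F₀ F π, hπF, by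
    rw [Api.res_apply, hw, ← WithTop.coe_zero]
    intro hc
    have := WithTop.coe_injective hc
    omega⟩
  have hL : Lies ν w e.toNat := by
    refine ⟨by omega, fun f hf => ?_⟩
    have h1 := ((hm f (val ν f)).1).1 (Api.coe_val ν hf)
    rw [Api.res_apply] at h1
    rw [Int.toNat_of_nonneg he.le]
    exact Api.val_of w h1
  obtain ⟨μ, hμ, hμt⟩ := Api.lies_mid hπ' hL h
  exact ⟨ν, e.toNat, μ, hν, hL, hμ, hμt⟩

/-- nonnegativity above and below -/
theorem nonneg_iff {F F₁ : Type u} [Field F] [Field F₁] [Algebra F F₁] {ν : AddValuation F (WithTop ℤ)}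
    {w : AddValuation F₁ (WithTop ℤ)} {η : ℕ} (h : Lies ν w η) (g : F) : 0 ≤ w (algebraMap F F₁ g) ↔ 0 ≤ ν g := by
  by_cases hg : g = 0
  · subst hg
    rw [map_zero, AddValuation.map_zero, AddValuation.map_zero]
  · have hg1 : algebraMap F F₁ g ≠ 0 := by
      rw [map_ne_zero_iff _ (algebraMap F F₁).injective]; exact hg
    rw [← Api.val_nonneg w hg1, ← Api.val_nonneg ν hg, h.2 g hg]
    have hη : (0 : ℤ) < η := by exact_mod_cast h.1
    exact mul_nonneg_iff_of_pos_left hη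

theorem sum_nonneg {K ι : Type u} [Field K] (w : AddValuation K (WithTop ℤ)) (s : Finset ι) (f : ι → K)
    (h : ∀ i ∈ s, 0 ≤ w (f i)) : 0 ≤ w (∑ i ∈ s, f i) := by
  classical
  induction s using Finset.induction_on with
  | empty =>
    rw [Finset.sum_empty, AddValuation.map_zero]
    exact le_top
  | insert i s hi ih =>
    rw [Finset.sum_insert hi]
    refine le_trans (le_min (h i (Finset.mem_insert_self i s)) (ih fun j hj => h j (Finset.mem_insert_of_mem hj))) ?_
    exact AddValuation.map_add w _ _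

end XZtp

theorem pr_Ztp (hGcl : StGcl.{u}) (hEXT : StEXT.{u, u, u}) (hNOR : MgNOR.{u}) : StZtp.{u} := by
  intro K E₁ E _ _ _ _ _ _ _ _ _ v hv g hg
  have hcz : CharZero E₁ := charZero_of_injective_algebraMap (algebraMap K E₁).injective
  obtain ⟨N, i1, i2, i3, i4, i5, i6, hG0, hG⟩ := hGcl E₁ E
  let _ : Algebra K N := ((algebraMap E₁ N).comp (algebraMap K E₁)).toAlgebra
  have htow : IsScalarTower K E₁ N := IsScalarTower.of_algebraMap_eq' rfl
  obtain ⟨W, e, hWd, hWl⟩ := hEXT K E₁ N v hv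
  have key : ∀ σ : N ≃ₐ[E₁] N, 0 ≤ W (σ (algebraMap E N g)) := by
    intro σ
    obtain ⟨w, η, μ, hw, hη, hμ, -⟩ := XZtp.norm_res (F := E) hNOR hv.1 (Api.lies_cg hWl σ)
    have h1 := (XZtp.nonneg_iff hη g).2 (hg w ⟨hw, μ, hμ⟩)
    exact h1
  have hsum : algebraMap E₁ N (Algebra.trace E₁ N (algebraMap E N g)) = ∑ σ : N ≃ₐ[E₁] N, σ (algebraMap E N g) :=
    trace_eq_sum_automorphisms (algebraMap E N g)
  have h2 : 0 ≤ W (algebraMap E₁ N (Algebra.trace E₁ N (algebraMap E N g))) := by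
    rw [hsum]
    exact XZtp.sum_nonneg W _ _ fun σ _ => key σ
  have h3 : 0 ≤ v (Algebra.trace E₁ N (algebraMap E N g)) := (XZtp.nonneg_iff hWl _).1 h2
  have h4 : Algebra.trace E₁ N (algebraMap E N g) = Module.finrank E N • Algebra.trace E₁ E g := by
    rw [← Algebra.trace_trace (S := E), Algebra.trace_algebraMap, map_nsmul]
  rw [h4, nsmul_eq_mul] at h3
  have hfr : (Module.finrank E N : K) ≠ 0 := by
    exact_mod_cast (Module.finrank_pos (R := E) (M := N)).ne'
  obtain ⟨-, C, -, hC, -⟩ := hv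
  have h5 : 0 ≤ v (algebraMap K E₁ ((Module.finrank E N : K)⁻¹)) := hC _ (C.algebraMap_mem _)
  have h6 : Algebra.trace E₁ E g =
      algebraMap K E₁ ((Module.finrank E N : K)⁻¹) * ((Module.finrank E N : E₁) * Algebra.trace E₁ E g) := by
    rw [← mul_assoc, ← map_natCast (algebraMap K E₁), ← map_mul, inv_mul_cancel₀ hfr, map_one, one_mul]
  rw [h6, AddValuation.map_mul]
  exact add_nonneg h5 h3

end Pool.Agent.Work.MP_a2680c_ag.HA
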