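import Pool.Agent.Work.MP_a2680c_ag.HA.StmtsZ
import Pool.Agent.Work.MP_a2680c_ag.HA.I_Qav

/-!
# MP_a2680c_ag, block HA, item Ztr: a trace of value `0` (helper6)
-/

set_option autoImplicit false

noncomputable section

namespace Pool.Agent.Work.MP_a2680c_ag.HA

open MP7b66e6 MP7b66e6.Q
open scoped BigOperators

universe u

namespace XZtr

theorem pos_of_lies {E N : Type u} [Field E] [Field N] [Algebra E N] {ν : AddValuation E (WithTop ℤ)}
    {W : AddValuation N (WithTop ℤ)} {η : ℕ} (h : Lies ν W η) {f : E} (hf : 0 < ν f) : 0 < W (algebraMap E N f) := by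
  by_cases h0 : f = 0
  · subst h0
    rw [map_zero, AddValuation.map_zero]
    exact WithTop.coe_lt_top (0 : ℤ)
  · have h1 : algebraMap E N f ≠ 0 := by
      rw [map_ne_zero_iff _ (algebraMap E N).injective]; exact h0
    rw [Api.coe_val ν h0] at hf
    have h2 : (0 : ℤ) < val ν f := by exact_mod_cast hf
    have h3 : (0 : ℤ) < η := by exact_mod_cast h.1
    rw [Api.coe_val W h1, h.2 f h0]
    exact_mod_cast mul_pos h3 h2

theorem nonneg_const {K N : Type u} [Field K] [Field N] [Algebra K N] {W : AddValuation N (WithTop ℤ)}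
    (h : Divisorial K W) (c : K) : 0 ≤ W (algebraMap K N c) := by
  obtain ⟨_, C, _, hC, _⟩ := h
  exact hC _ (C.algebraMap_mem c)

end XZtr

theorem pr_Ztr (hGcl : StGcl.{u}) (hEXT : StEXT.{u, u, u}) (hNOR : MgNOR.{u}) (hQdv : StQdv.{u}) : StZtr.{u} := by
  classical
  intro K E₁ E _ _ _ _ _ _ _ _ _ v hv w₁ hw₁ u hu1 hu
  haveI : CharZero E₁ := charZero_of_injective_algebraMap (algebraMap K E₁).injective
  obtain ⟨⟨π₁, hπ₁⟩, e, hle⟩ := hw₁
  have hdw : Divisorial K w₁ := hQdv K E₁ E v w₁ e hv hle ⟨π₁, hπ₁⟩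
  obtain ⟨N, i1, i2, i3, i4, i5, i6, hG0, hG⟩ := hGcl E₁ E
  letI : Algebra K N := ((algebraMap E N).comp (algebraMap K E)).toAlgebra
  haveI : IsScalarTower K E N := IsScalarTower.of_algebraMap_eq' rfl
  obtain ⟨W, e', hdW, hlW⟩ := hEXT K E N w₁ hdw
  have hvW : Lies v W (e' * e) := Api.lies_trans hle hlW
  -- the two cases
  have hcase : ∀ σ : N ≃ₐ[E₁] N, 0 < W (σ (algebraMap E N u) - 1) ∨ 0 < W (σ (algebraMap E N u)) := by
    intro σ
    obtain ⟨ν, η, μ, hν, hη, hμ, hημ⟩ := XQav.norm_res (F := E) hNOR hv.1 (Api.lies_cg hvW σ)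
    by_cases hνw : ν = w₁
    · left
      subst hνw
      have h1 := XZtr.pos_of_lies hη hu1
      rw [Api.cg_apply, map_sub, map_one, map_sub, map_one] at h1
      exact h1
    · right
      have h1 := XZtr.pos_of_lies hη (hu ν ⟨hν, μ, hμ⟩ hνw)
      rw [Api.cg_apply] at h1
      exact h1
  set ε : (N ≃ₐ[E₁] N) → ℕ := fun σ => if 0 < W (σ (algebraMap E N u) - 1) then 1 else 0 with hε
  have hpos : ∀ σ, 0 < W (σ (algebraMap E N u) - (ε σ : N)) := by
    intro σ
    by_cases h : 0 < W (σ (algebraMap E N u) - 1)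
    · simp only [hε, if_pos h]
      rw [Nat.cast_one]
      exact h
    · simp only [hε, if_neg h]
      rw [Nat.cast_zero, sub_zero]
      exact (hcase σ).resolve_left h
  have hε1 : ε 1 = 1 := by
    have h1 := XZtr.pos_of_lies hlW hu1
    rw [map_sub, map_one] at h1
    simp only [hε]
    rw [if_pos]
    exact h1
  have hc : ∑ σ, ε σ ≠ 0 := by
    intro h0
    have h1 := (Finset.sum_eq_zero_iff.1 h0) 1 (Finset.mem_univ _)
    omega
  have hWc : W ((∑ σ, ε σ : ℕ) : N) = 0 :=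
    Api.val_natCast (k := K) (fun c => XZtr.nonneg_const hdW c) _ hc
  have hsum : 0 < W (∑ σ, (σ (algebraMap E N u) - (ε σ : N))) :=
    AddValuation.map_lt_sum W (by simp) (fun σ _ => hpos σ)
  have hS : W (∑ σ : N ≃ₐ[E₁] N, σ (algebraMap E N u)) = 0 := by
    have h1 : ∑ σ : N ≃ₐ[E₁] N, σ (algebraMap E N u) =
        ((∑ σ, ε σ : ℕ) : N) + ∑ σ, (σ (algebraMap E N u) - (ε σ : N)) := by
      rw [Finset.sum_sub_distrib]
      push_cast
      ring
    rw [h1, AddValuation.map_add_eq_of_lt_left W (by rw [hWc]; exact hsum), hWc]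
  have htr : ∑ σ : N ≃ₐ[E₁] N, σ (algebraMap E N u) =
      algebraMap E₁ N ((Module.finrank E N : E₁) * Algebra.trace E₁ E u) := by
    rw [← trace_eq_sum_automorphisms, ← Algebra.trace_trace (S := E), Algebra.trace_algebraMap, map_nsmul,
      nsmul_eq_mul]
  have hfr : Module.finrank E N ≠ 0 := (Module.finrank_pos (R := E) (M := N)).ne'
  rw [htr] at hS
  have hne : (Module.finrank E N : E₁) * Algebra.trace E₁ E u ≠ 0 := by
    intro h0
    rw [h0, map_zero, AddValuation.map_zero] at hS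
    exact absurd hS (by simp)
  have hT0 : Algebra.trace E₁ E u ≠ 0 := right_ne_zero_of_mul hne
  have hn0 : (Module.finrank E N : E₁) ≠ 0 := left_ne_zero_of_mul hne
  have hval : val W (algebraMap E₁ N ((Module.finrank E N : E₁) * Algebra.trace E₁ E u)) = 0 :=
    Api.val_of W hS
  rw [hvW.2 _ hne, Api.val_mul v hn0 hT0] at hval
  have hvn : val v (Module.finrank E N : E₁) = 0 :=
    Api.val_of v (Api.val_natCast (k := K) (fun c => XZtr.nonneg_const hv c) _ hfr)
  rw [hvn, zero_add] at hval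
  have hee : ((e' * e : ℕ) : ℤ) ≠ 0 := by exact_mod_cast hvW.1.ne'
  have hvT : val v (Algebra.trace E₁ E u) = 0 := by
    rcases mul_eq_zero.1 hval with h | h
    · exact absurd h hee
    · exact h
  rw [Api.coe_val v hT0, hvT]
  rfl

end Pool.Agent.Work.MP_a2680c_ag.HA
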