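import Pool.Agent.Work.MP_a2680c_ag.HA.StmtsZ

/-!
# Item Zur of block HA, part Z: ramification over the line
-/

set_option autoImplicit false

noncomputable section

namespace Pool.Agent.Work.MP_a2680c_ag.HA

open MP7b66e6 MP7b66e6.Q
open scoped BigOperators

universe u

namespace XZur

/-- generators which are algebraically independent form a transcendence basis -/
theorem basis_gen {K F : Type u} [Field K] [Field F] [Algebra K F] {n : ℕ} (z : Fin n → F)
    (hz : GenBy K z) : IsTranscendenceBasis K z := by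
  have halg : Algebra.IsAlgebraic (Algebra.adjoin K (Set.range z)) F := by
    refine ⟨fun x => ?_⟩
    have hx : x ∈ IntermediateField.adjoin K (Set.range z) := by
      rw [hz.2]
      exact IntermediateField.mem_top
    obtain ⟨r, hr, s, hs, rfl⟩ := IntermediateField.mem_adjoin_iff_div.1 hx
    rw [div_eq_mul_inv]
    have h5 : IsAlgebraic (Algebra.adjoin K (Set.range z)) r :=
      isAlgebraic_algebraMap (⟨r, hr⟩ : Algebra.adjoin K (Set.range z))
    have h6 : IsAlgebraic (Algebra.adjoin K (Set.range z)) s :=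
      isAlgebraic_algebraMap (⟨s, hs⟩ : Algebra.adjoin K (Set.range z))
    exact h5.mul h6.inv
  exact hz.1.isTranscendenceBasis_iff_isAlgebraic.2 halg

/-- `K(z)` is a function field of one variable -/
theorem ffn_gen {K F : Type u} [Field K] [Field F] [Algebra K F] (z : Fin 1 → F)
    (hz : GenBy K z) : FFn K F := by
  refine ⟨?_, z, basis_gen z hz⟩
  rw [← IntermediateField.fg_top_iff]
  refine ⟨(Set.finite_range z).toFinset, ?_⟩
  rw [Set.Finite.coe_toFinset]
  exact hz.2

/-- `z 0` is transcendental -/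
theorem ae_ne {K F : Type u} [Field K] [Field F] [Algebra K F] {z : Fin 1 → F}
    (hz : GenBy K z) {g : Polynomial K} (hg : g ≠ 0) : Polynomial.aeval (z 0) g ≠ 0 := by
  have h1 : Transcendental K (z 0) := hz.1.transcendental 0
  exact fun h => h1 ⟨g, hg, h⟩

section
variable {K E : Type u} [Field K] [Field E] [Algebra K E]

theorem val_pos_iff {w : AddValuation E (WithTop ℤ)} {f : E} (hf : f ≠ 0) :
    0 < val w f ↔ 0 < w f := by
  rw [Api.coe_val w hf, ← WithTop.coe_zero, WithTop.coe_lt_coe]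

theorem aeval_nonneg {w : AddValuation E (WithTop ℤ)} (hk : ∀ c : K, 0 ≤ w (algebraMap K E c))
    {X : E} (h0 : 0 ≤ w X) (P : Polynomial K) : 0 ≤ w (Polynomial.aeval X P) := by
  induction P using Polynomial.induction_on' with
  | add p q hp hq =>
    rw [map_add]
    exact w.map_le_add hp hq
  | monomial n a =>
    rw [Polynomial.aeval_monomial, w.map_mul, w.map_pow]
    exact add_nonneg (hk a) (nsmul_nonneg h0 n)

/-- a valuation which is trivial on a subfield is trivial on a finite extension -/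
theorem triv {E₀ : Type u} [Field E₀] [Algebra E₀ E] [FiniteDimensional E₀ E]
    (w : AddValuation E (WithTop ℤ)) (h : ∀ f : E₀, f ≠ 0 → w (algebraMap E₀ E f) = 0) (π : E)
    (hπ : w π = 1) : False := by
  have hk : ∀ f : E₀, 0 ≤ w (algebraMap E₀ E f) := by
    intro f
    by_cases hf : f = 0
    · rw [hf, map_zero, w.map_zero]
      exact le_top
    · rw [h f hf]
  have hint : IsIntegral E₀ π := Algebra.IsIntegral.isIntegral π
  have hπ0 : π ≠ 0 := by
    rintro rfl
    rw [w.map_zero] at hπ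
    exact absurd hπ (by simp)
  have hc : (minpoly E₀ π).coeff 0 ≠ 0 := minpoly.coeff_zero_ne_zero hint hπ0
  have h1 := minpoly.aeval E₀ π
  rw [← Polynomial.divX_mul_X_add (minpoly E₀ π), map_add, map_mul, Polynomial.aeval_X,
    Polynomial.aeval_C] at h1
  have h2 : 0 < w (Polynomial.aeval π (minpoly E₀ π).divX * π) := by
    rw [w.map_mul, hπ]
    have h4 := aeval_nonneg hk (X := π) (by rw [hπ]; exact zero_le_one) (minpoly E₀ π).divX
    exact lt_of_lt_of_le zero_lt_one (le_add_of_nonneg_left h4)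
  have h3 : Polynomial.aeval π (minpoly E₀ π).divX * π =
      - algebraMap E₀ E ((minpoly E₀ π).coeff 0) := eq_neg_of_add_eq_zero_left h1
  rw [h3, w.map_neg, h _ hc] at h2
  exact lt_irrefl _ h2

/-- a place which is finite on `z 0` lies over an irreducible polynomial -/
theorem exists_irr {E₀ : Type u} [Field E₀] [Algebra K E₀] [Algebra E₀ E] [IsScalarTower K E₀ E]
    [FiniteDimensional E₀ E] (z : Fin 1 → E₀) (hz : GenBy K z) (w : AddValuation E (WithTop ℤ))
    (hw : Plc K w) (h0 : 0 ≤ w (algebraMap E₀ E (z 0))) :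
    ∃ p : Polynomial K, Irreducible p ∧ 0 < w (algebraMap E₀ E (Polynomial.aeval (z 0) p)) := by
  by_contra hcon
  have hX : ∀ g : Polynomial K, algebraMap E₀ E (Polynomial.aeval (z 0) g) =
      Polynomial.aeval (algebraMap E₀ E (z 0)) g := fun g =>
    (Polynomial.aeval_algebraMap_apply E (z 0) g).symm
  have hall : ∀ g : Polynomial K, g ≠ 0 → w (algebraMap E₀ E (Polynomial.aeval (z 0) g)) = 0 := by
    intro g
    refine WfDvdMonoid.induction_on_irreducible
      (motive := fun g => g ≠ 0 → w (algebraMap E₀ E (Polynomial.aeval (z 0) g)) = 0) g ?_ ?_ ?_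
    · intro h
      exact absurd rfl h
    · intro u hu _
      obtain ⟨r, hr, rfl⟩ := Polynomial.isUnit_iff.1 hu
      rw [Polynomial.aeval_C, ← IsScalarTower.algebraMap_apply]
      exact Api.val_algebraMap hw.2 hr.ne_zero
    · intro a i ha hi ih _
      rw [map_mul, map_mul, w.map_mul, ih ha, add_zero]
      refine le_antisymm (not_lt.1 fun h => hcon ⟨i, hi, h⟩) ?_
      rw [hX]
      exact aeval_nonneg hw.2 h0 i
  obtain ⟨π, hπ⟩ := hw.1
  refine triv (E₀ := E₀) w (fun f hf => ?_) π hπ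
  have hf1 : f ∈ IntermediateField.adjoin K {z 0} := by
    have h1 : Set.range z = {z 0} := Set.range_unique
    rw [← h1, hz.2]
    exact IntermediateField.mem_top
  obtain ⟨r, s, hrs⟩ := (IntermediateField.mem_adjoin_simple_iff K f).1 hf1
  have hs0 : Polynomial.aeval (z 0) s ≠ 0 := by
    intro h
    rw [h, div_zero] at hrs
    exact hf hrs
  have hs : s ≠ 0 := by
    rintro rfl
    exact hs0 (map_zero _)
  have hr : r ≠ 0 := by
    rintro rfl
    rw [map_zero, zero_div] at hrs
    exact hf hrs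
  have h2 : f * Polynomial.aeval (z 0) s = Polynomial.aeval (z 0) r := by
    rw [hrs, div_mul_cancel₀ _ hs0]
  have h3 : w (algebraMap E₀ E f) + w (algebraMap E₀ E (Polynomial.aeval (z 0) s)) =
      w (algebraMap E₀ E (Polynomial.aeval (z 0) r)) := by
    rw [← w.map_mul, ← map_mul, h2]
  rw [hall s hs, hall r hr, add_zero] at h3
  exact h3

end

section
variable {K E : Type u} [Field K] [CharZero K] [Field E] [Algebra K E]

theorem ord' (hZor : StZor.{u}) (hE : FFn K E) (w : AddValuation E (WithTop ℤ))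
    (θ : Derivation K E E) (hw : Plc K w) (ho : Odr w θ 0) (f : E) (hf : f ≠ 0)
    (hm : val w f ≠ 0) : w (θ f) = ((val w f - 1 : ℤ) : WithTop ℤ) := by
  have h1 := hZor K E hE w θ 0 hw ho f (val w f) hm (Api.coe_val w hf)
  rw [zero_add] at h1
  exact h1

theorem two_N (w : AddValuation E (WithTop ℤ)) (hw : Plc K w) (N : ℕ) (hN : 0 < N) (Y : E) :
    w (2 * (N : E) * Y) = w Y := by
  have h1 : (2 * (N : E)) = algebraMap K E (2 * (N : K)) := by
    rw [map_mul, map_natCast, map_ofNat]
  have h2 : (2 * (N : K)) ≠ 0 := by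
    refine mul_ne_zero two_ne_zero ?_
    exact_mod_cast hN.ne'
  rw [w.map_mul, h1, Api.val_algebraMap hw.2 h2, zero_add]

/-- poles of `X` -/
theorem neg_case (hZor : StZor.{u}) (hE : FFn K E) (w : AddValuation E (WithTop ℤ))
    (θ : Derivation K E E) (hw : Plc K w) (ho : Odr w θ 0) (X Y : E) (a b : K) (N : ℕ)
    (hN : 0 < N) (hX : X ≠ 0) (hY : Y ≠ 0)
    (hc : Y ^ 2 = X ^ 3 + algebraMap K E a * X + algebraMap K E b)
    (hθ : θ X = 2 * (N : E) * Y) (hneg : val w X < 0) : val w X = -2 := by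
  have h1 := ord' hZor hE w θ hw ho X hX hneg.ne
  rw [hθ, two_N w hw N hN] at h1
  have h2 : val w Y = val w X - 1 := Api.val_of w h1
  have h3 : w (X ^ 3) = ((3 * val w X : ℤ) : WithTop ℤ) := by
    rw [Api.coe_val w (pow_ne_zero 3 hX), Api.val_pow w hX]
    rfl
  have h4 : ((val w X : ℤ) : WithTop ℤ) ≤ w (algebraMap K E a * X + algebraMap K E b) := by
    refine w.map_le_add ?_ ?_
    · rw [w.map_mul, ← Api.coe_val w hX]
      exact le_add_of_nonneg_left (hw.2 a)
    · refine le_trans ?_ (hw.2 b)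
      rw [← WithTop.coe_zero, WithTop.coe_le_coe]
      exact hneg.le
  have h5 : w (X ^ 3) < w (algebraMap K E a * X + algebraMap K E b) := by
    refine lt_of_lt_of_le ?_ h4
    rw [h3, WithTop.coe_lt_coe]
    omega
  have h6 : w (Y ^ 2) = w (X ^ 3) := by
    rw [hc, add_assoc]
    exact w.map_add_eq_of_lt_left h5
  rw [h3, Api.coe_val w (pow_ne_zero 2 hY), Api.val_pow w hY, WithTop.coe_inj] at h6
  push_cast at h6
  omega

/-- zeros of irreducible polynomials in `X` -/
theorem pos_case (hZor : StZor.{u}) (hE : FFn K E) (w : AddValuation E (WithTop ℤ))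
    (θ : Derivation K E E) (hw : Plc K w) (ho : Odr w θ 0) (X Y : E) (N : ℕ)
    (hN : 0 < N) (hθ : θ X = 2 * (N : E) * Y) (h0 : 0 ≤ w X) (p : Polynomial K)
    (hp : Irreducible p) (hne : Polynomial.aeval X p ≠ 0) (hpos : 0 < w (Polynomial.aeval X p)) :
    val w Y = val w (Polynomial.aeval X p) - 1 := by
  have h1 := ord' hZor hE w θ hw ho _ hne ((val_pos_iff hne).2 hpos).ne'
  rw [Derivation.map_aeval, smul_eq_mul, w.map_mul, hθ, two_N w hw N hN] at h1
  have h2 : w (Polynomial.aeval X (Polynomial.derivative p)) = 0 := by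
    refine le_antisymm (not_lt.1 fun h => ?_) (aeval_nonneg hw.2 h0 _)
    obtain ⟨u, v, huv⟩ := hp.separable
    have h3 := congrArg (Polynomial.aeval X) huv
    rw [map_add, map_mul, map_mul, map_one] at h3
    have h4 : 0 < w (Polynomial.aeval X u * Polynomial.aeval X p +
        Polynomial.aeval X v * Polynomial.aeval X (Polynomial.derivative p)) := by
      refine w.map_lt_add ?_ ?_
      · rw [w.map_mul]
        exact lt_of_lt_of_le hpos (le_add_of_nonneg_left (aeval_nonneg hw.2 h0 u))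
      · rw [w.map_mul]
        exact lt_of_lt_of_le h (le_add_of_nonneg_left (aeval_nonneg hw.2 h0 v))
    rw [h3, w.map_one] at h4
    exact lt_irrefl _ h4
  rw [h2, zero_add] at h1
  exact Api.val_of w h1

end

end XZur

open XZur in
theorem pr_Zur (_hCls : StCls.{u}) (hZfn : StZfn.{u}) (hZor : StZor.{u}) : StZur.{u} := by
  intro K E₀ E _ _ _ _ _ _ _ _ _ z hz hE θ hθo a b Y N hN hY hc hθ
  have hz0 : z 0 ≠ 0 := by
    have h1 := ae_ne hz (g := Polynomial.X) Polynomial.X_ne_zero
    rwa [Polynomial.aeval_X] at h1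
  have hX : algebraMap E₀ E (z 0) ≠ 0 := by
    rw [map_ne_zero_iff _ (algebraMap E₀ E).injective]
    exact hz0
  obtain ⟨q, hq⟩ : ∃ q : E₀, q = z 0 ^ 3 + algebraMap K E₀ a * z 0 + algebraMap K E₀ b := ⟨_, rfl⟩
  have hqE : algebraMap E₀ E q = Y ^ 2 := by
    rw [hc, hq, map_add, map_add, map_mul, map_pow, ← IsScalarTower.algebraMap_apply,
      ← IsScalarTower.algebraMap_apply]
  have hq0 : q ≠ 0 := by
    rintro rfl
    rw [map_zero] at hqE
    exact pow_ne_zero 2 hY hqE.symm
  -- the equation for the index over a finite place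
  have key : ∀ (w₀ : AddValuation E₀ (WithTop ℤ)) (w : AddValuation E (WithTop ℤ)) (m : ℕ),
      Plc K w → Lies w₀ w m → 0 ≤ val w₀ (z 0) → ∀ p : Polynomial K, Irreducible p →
      0 < val w₀ (Polynomial.aeval (z 0) p) →
      2 * ((m : ℤ) * val w₀ (Polynomial.aeval (z 0) p) - 1) = m * val w₀ q := by
    intro w₀ w m hw hL h0 p hp hpos
    have hpne : Polynomial.aeval (z 0) p ≠ 0 := ae_ne hz hp.ne_zero
    have hpE : Polynomial.aeval (algebraMap E₀ E (z 0)) p =
        algebraMap E₀ E (Polynomial.aeval (z 0) p) := Polynomial.aeval_algebraMap_apply E (z 0) p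
    have hpneE : Polynomial.aeval (algebraMap E₀ E (z 0)) p ≠ 0 := by
      rw [hpE, map_ne_zero_iff _ (algebraMap E₀ E).injective]
      exact hpne
    have hm : (0 : ℤ) < m := by exact_mod_cast hL.1
    have h1 : 0 ≤ w (algebraMap E₀ E (z 0)) := by
      rw [← Api.val_nonneg w hX, hL.2 _ hz0]
      exact mul_nonneg hm.le h0
    have h2 : 0 < w (Polynomial.aeval (algebraMap E₀ E (z 0)) p) := by
      rw [← val_pos_iff hpneE, hpE, hL.2 _ hpne]
      exact mul_pos hm hpos
    have h3 := pos_case hZor hE w θ hw (hθo w hw) (algebraMap E₀ E (z 0)) Y N hN hθ h1 p hp hpneE h2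
    rw [hpE, hL.2 _ hpne] at h3
    have h4 : val w (Y ^ 2) = m * val w₀ q := by
      rw [← hqE, hL.2 _ hq0]
    rw [Api.val_pow w hY, h3] at h4
    exact_mod_cast h4
  have irr : ∀ (w₀ : AddValuation E₀ (WithTop ℤ)) (w : AddValuation E (WithTop ℤ)) (m : ℕ),
      Plc K w → Lies w₀ w m → 0 ≤ val w₀ (z 0) → ∃ p : Polynomial K, Irreducible p ∧
      0 < val w₀ (Polynomial.aeval (z 0) p) := by
    intro w₀ w m hw hL h0
    have hm : (0 : ℤ) < m := by exact_mod_cast hL.1
    have h1 : 0 ≤ w (algebraMap E₀ E (z 0)) := by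
      rw [← Api.val_nonneg w hX, hL.2 _ hz0]
      exact mul_nonneg hm.le h0
    obtain ⟨p, hp, hpos⟩ := exists_irr z hz w hw h1
    refine ⟨p, hp, ?_⟩
    have hpne : Polynomial.aeval (z 0) p ≠ 0 := ae_ne hz hp.ne_zero
    have hpneE : algebraMap E₀ E (Polynomial.aeval (z 0) p) ≠ 0 := by
      rw [map_ne_zero_iff _ (algebraMap E₀ E).injective]
      exact hpne
    rw [← val_pos_iff hpneE, hL.2 _ hpne] at hpos
    exact pos_of_mul_pos_right hpos hm.le
  constructor
  · intro w₀ w w' m m' hw hw' hL hL'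
    have hm : (0 : ℤ) < m := by exact_mod_cast hL.1
    have hm' : (0 : ℤ) < m' := by exact_mod_cast hL'.1
    rcases lt_or_ge (val w₀ (z 0)) 0 with h0 | h0
    · have e1 := hL.2 _ hz0
      have e2 := hL'.2 _ hz0
      have h1 := neg_case hZor hE w θ hw (hθo w hw) _ Y a b N hN hX hY hc hθ
        (by rw [e1]; exact mul_neg_of_pos_of_neg hm h0)
      have h2 := neg_case hZor hE w' θ hw' (hθo w' hw') _ Y a b N hN hX hY hc hθ
        (by rw [e2]; exact mul_neg_of_pos_of_neg hm' h0)
      rw [e1] at h1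
      rw [e2] at h2
      have h3 : (m : ℤ) = m' := mul_right_cancel₀ h0.ne (h1.trans h2.symm)
      exact_mod_cast h3
    · obtain ⟨p, hp, hpos⟩ := irr w₀ w m hw hL h0
      have e1 := key w₀ w m hw hL h0 p hp hpos
      have e2 := key w₀ w' m' hw' hL' h0 p hp hpos
      obtain ⟨c, hc'⟩ : ∃ c, c = val w₀ (Polynomial.aeval (z 0) p) := ⟨_, rfl⟩
      obtain ⟨d, hd⟩ : ∃ d, d = val w₀ q := ⟨_, rfl⟩
      rw [← hc', ← hd] at e1 e2
      have e3 : (m : ℤ) * (2 * c - d) = 2 := by linarith
      have e4 : (m' : ℤ) * (2 * c - d) = 2 := by linarith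
      have e5 : 2 * c - d ≠ 0 := by
        intro h
        rw [h, mul_zero] at e3
        omega
      have h3 : (m : ℤ) = m' := mul_right_cancel₀ e5 (e3.trans e4.symm)
      exact_mod_cast h3
  · refine ((hZfn K E₀ (ffn_gen z hz) (z 0) hz0).union
      (hZfn K E₀ (ffn_gen z hz) q hq0)).subset ?_
    rintro w₀ ⟨hw₀, w, m, hw, hL, hm1⟩
    by_cases h0 : val w₀ (z 0) = 0
    · right
      refine ⟨hw₀, fun hd => hm1 ?_⟩
      obtain ⟨p, hp, hpos⟩ := irr w₀ w m hw hL h0.ge
      have e1 := key w₀ w m hw hL h0.ge p hp hpos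
      rw [hd, mul_zero] at e1
      have e2 : (m : ℤ) * val w₀ (Polynomial.aeval (z 0) p) = 1 := by linarith
      have e3 := Int.eq_one_or_neg_one_of_mul_eq_one e2
      omega
    · left
      exact ⟨hw₀, h0⟩

end Pool.Agent.Work.MP_a2680c_ag.HA
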