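import Pool.Agent.Work.MP_a2680c_ag.HA.StmtsZ

/-!
# MP_a2680c_ag, block HA, item Zwe (helper5): the Weierstrass equation
-/

set_option autoImplicit false

noncomputable section

namespace Pool.Agent.Work.MP_a2680c_ag.HA

open MP7b66e6 MP7b66e6.Q
open scoped BigOperators

universe u

namespace XZwe

section
variable {K E : Type u} [Field K] [Field E] [Algebra K E] {P : AddValuation E (WithTop ℤ)}

/-- no poles outside `P` -/
def Rg (K : Type u) {E : Type u} [Field K] [Field E] [Algebra K E] (P : AddValuation E (WithTop ℤ)) (g : E) : Prop :=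
  ∀ w : AddValuation E (WithTop ℤ), Plc K w → w ≠ P → 0 ≤ w g

theorem rg_const (c : K) : Rg K P (algebraMap K E c) := fun _ hw _ => hw.2 c

theorem rg_add {f g : E} (hf : Rg K P f) (hg : Rg K P g) : Rg K P (f + g) :=
  fun w hw hne => AddValuation.map_le_add w (hf w hw hne) (hg w hw hne)

theorem rg_sub {f g : E} (hf : Rg K P f) (hg : Rg K P g) : Rg K P (f - g) :=
  fun w hw hne => AddValuation.map_le_sub w (hf w hw hne) (hg w hw hne)

theorem rg_mul {f g : E} (hf : Rg K P f) (hg : Rg K P g) : Rg K P (f * g) := by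
  intro w hw hne
  rw [AddValuation.map_mul]
  exact add_nonneg (hf w hw hne) (hg w hw hne)

theorem rg_pow {f : E} (hf : Rg K P f) (n : ℕ) : Rg K P (f ^ n) := by
  intro w hw hne
  rw [AddValuation.map_pow]
  exact nsmul_nonneg (hf w hw hne) n

theorem rg_theta {θ : Derivation K E E} (hθ : ∀ w : AddValuation E (WithTop ℤ), Plc K w → Odr w θ 0) {f : E}
    (hf : Rg K P f) : Rg K P (θ f) := by
  intro w hw hne
  exact_mod_cast (hθ w hw).1 f (hf w hw hne)

theorem const_zero (hP : Plc K P) {c : K} (hc : c ≠ 0) : P (algebraMap K E c) = 0 :=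
  Api.val_algebraMap hP.2 hc

theorem vm {a b : E} {m n : ℤ} (ha : P a = (m : WithTop ℤ)) (hb : P b = (n : WithTop ℤ)) :
    P (a * b) = ((m + n : ℤ) : WithTop ℤ) := by
  rw [AddValuation.map_mul, ha, hb]; rfl

theorem cmul_eq (hP : Plc K P) {c : K} (hc : c ≠ 0) {f : E} {n : ℤ} (hf : P f = (n : WithTop ℤ)) :
    P (algebraMap K E c * f) = (n : WithTop ℤ) := by
  rw [AddValuation.map_mul, const_zero hP hc, zero_add, hf]

theorem cmul_le (hP : Plc K P) (c : K) {f : E} {n m : ℤ} (hf : P f = (m : WithTop ℤ)) (hnm : n ≤ m) :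
    (n : WithTop ℤ) ≤ P (algebraMap K E c * f) := by
  rcases eq_or_ne c 0 with rfl | hc
  · rw [map_zero, zero_mul, AddValuation.map_zero]; exact le_top
  · rw [cmul_eq hP hc hf]; exact_mod_cast hnm

theorem lt_step {x : WithTop ℤ} {n : ℤ} (h : (n : WithTop ℤ) < x) : ((n + 1 : ℤ) : WithTop ℤ) ≤ x := by
  induction x using WithTop.recTopCoe with
  | top => exact le_top
  | coe m =>
    have h1 : n < m := by exact_mod_cast h
    have h2 : n + 1 ≤ m := by omega
    exact_mod_cast h2

theorem step (hR : Rtl K P) {g h : E} {n : ℤ} (hg : (n : WithTop ℤ) ≤ P g) (hh : P h = (n : WithTop ℤ)) :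
    ∃ c : K, ((n + 1 : ℤ) : WithTop ℤ) ≤ P (g - algebraMap K E c * h) := by
  have hh0 : h ≠ 0 := by
    rintro rfl
    rw [AddValuation.map_zero] at hh
    exact WithTop.top_ne_coe hh
  have h1 : P (g / h) + (n : WithTop ℤ) = P g := by
    rw [← hh, ← AddValuation.map_mul, div_mul_cancel₀ g hh0]
  have h2 : 0 ≤ P (g / h) := by
    rw [← h1] at hg
    revert hg
    generalize P (g / h) = x
    intro hg
    induction x using WithTop.recTopCoe with
    | top => exact le_top
    | coe m =>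
      have h3 : n ≤ m + n := by exact_mod_cast hg
      have h4 : 0 ≤ m := by omega
      exact_mod_cast h4
  obtain ⟨c, hc⟩ := hR _ h2
  refine ⟨c, ?_⟩
  have h3 : g - algebraMap K E c * h = (g / h - algebraMap K E c) * h := by
    rw [sub_mul, div_mul_cancel₀ g hh0]
  rw [h3, AddValuation.map_mul, hh]
  revert hc
  generalize P (g / h - algebraMap K E c) = x
  intro hc
  induction x using WithTop.recTopCoe with
  | top => exact le_top
  | coe m =>
    have h4 : 0 < m := by exact_mod_cast hc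
    have h5 : n + 1 ≤ m + n := by omega
    exact_mod_cast h5

theorem kill (hP : Plc K P) {c : K} {f g : E} (n : ℤ) (h : algebraMap K E c * f + g = 0) (hf : P f = (n : WithTop ℤ))
    (hg : ((n + 1 : ℤ) : WithTop ℤ) ≤ P g) : c = 0 := by
  by_contra hc
  have h1 := cmul_eq hP hc hf
  have h2 : algebraMap K E c * f = -g := by linear_combination h
  rw [h2, AddValuation.map_neg] at h1
  rw [h1] at hg
  have h3 : n + 1 ≤ n := by exact_mod_cast hg
  omega

theorem vX2 {X : E} (hX : P X = ((-2 : ℤ) : WithTop ℤ)) : P (X ^ 2) = ((-4 : ℤ) : WithTop ℤ) := by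
  rw [pow_two]; exact vm hX hX

theorem vX3 {X : E} (hX : P X = ((-2 : ℤ) : WithTop ℤ)) : P (X ^ 3) = ((-6 : ℤ) : WithTop ℤ) := by
  rw [pow_succ]; exact vm (vX2 hX) hX

theorem v1 : P (1 : E) = ((0 : ℤ) : WithTop ℤ) := by rw [AddValuation.map_one]; rfl

/-- `1`, `U` are independent over `K(X)` -/
theorem indep (hP : Plc K P) {X U : E} (hX : P X = ((-2 : ℤ) : WithTop ℤ)) (hU : P U = ((-3 : ℤ) : WithTop ℤ))
    {a0 a1 a2 a3 b0 b1 b2 : K}
    (h : algebraMap K E a3 * X ^ 3 + algebraMap K E a2 * X ^ 2 + algebraMap K E a1 * X + algebraMap K E a0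
      + (algebraMap K E b2 * X ^ 2 + algebraMap K E b1 * X + algebraMap K E b0) * U = 0) :
    a3 = 0 ∧ a2 = 0 ∧ a1 = 0 ∧ a0 = 0 ∧ b2 = 0 ∧ b1 = 0 ∧ b0 = 0 := by
  have hX2 := vX2 hX
  have hX3 := vX3 hX
  have hXU : P (X * U) = ((-5 : ℤ) : WithTop ℤ) := vm hX hU
  have hX2U : P (X ^ 2 * U) = ((-7 : ℤ) : WithTop ℤ) := vm hX2 hU
  have h1 : P (1 : E) = ((0 : ℤ) : WithTop ℤ) := v1
  have hb2 : b2 = 0 := by
    refine kill hP (-7) (f := X ^ 2 * U) (g := algebraMap K E a3 * X ^ 3 + (algebraMap K E b1 * (X * U)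
      + (algebraMap K E a2 * X ^ 2 + (algebraMap K E b0 * U + (algebraMap K E a1 * X + algebraMap K E a0 * 1))))) ?_ hX2U ?_
    · linear_combination h
    · refine AddValuation.map_le_add P (cmul_le hP _ hX3 (by norm_num)) (AddValuation.map_le_add P (cmul_le hP _ hXU (by norm_num))
        (AddValuation.map_le_add P (cmul_le hP _ hX2 (by norm_num)) (AddValuation.map_le_add P (cmul_le hP _ hU (by norm_num))
        (AddValuation.map_le_add P (cmul_le hP _ hX (by norm_num)) (cmul_le hP _ h1 (by norm_num))))))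
  rw [hb2, map_zero] at h
  have ha3 : a3 = 0 := by
    refine kill hP (-6) (f := X ^ 3) (g := (algebraMap K E b1 * (X * U)
      + (algebraMap K E a2 * X ^ 2 + (algebraMap K E b0 * U + (algebraMap K E a1 * X + algebraMap K E a0 * 1))))) ?_ hX3 ?_
    · linear_combination h
    · refine (AddValuation.map_le_add P (cmul_le hP _ hXU (by norm_num))
        (AddValuation.map_le_add P (cmul_le hP _ hX2 (by norm_num)) (AddValuation.map_le_add P (cmul_le hP _ hU (by norm_num))
        (AddValuation.map_le_add P (cmul_le hP _ hX (by norm_num)) (cmul_le hP _ h1 (by norm_num))))))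
  rw [ha3, map_zero] at h
  have hb1 : b1 = 0 := by
    refine kill hP (-5) (f := X * U) (g := (algebraMap K E a2 * X ^ 2 + (algebraMap K E b0 * U + (algebraMap K E a1 * X
      + algebraMap K E a0 * 1)))) ?_ hXU ?_
    · linear_combination h
    · refine (AddValuation.map_le_add P (cmul_le hP _ hX2 (by norm_num)) (AddValuation.map_le_add P
        (cmul_le hP _ hU (by norm_num))
        (AddValuation.map_le_add P (cmul_le hP _ hX (by norm_num)) (cmul_le hP _ h1 (by norm_num)))))
  rw [hb1, map_zero] at h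
  have ha2 : a2 = 0 := by
    refine kill hP (-4) (f := X ^ 2) (g := (algebraMap K E b0 * U + (algebraMap K E a1 * X
      + algebraMap K E a0 * 1))) ?_ hX2 ?_
    · linear_combination h
    · refine (AddValuation.map_le_add P (cmul_le hP _ hU (by norm_num))
        (AddValuation.map_le_add P (cmul_le hP _ hX (by norm_num)) (cmul_le hP _ h1 (by norm_num))))
  rw [ha2, map_zero] at h
  have hb0 : b0 = 0 := by
    refine kill hP (-3) (f := U) (g := (algebraMap K E a1 * X + algebraMap K E a0 * 1)) ?_ hU ?_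
    · linear_combination h
    · refine (AddValuation.map_le_add P (cmul_le hP _ hX (by norm_num)) (cmul_le hP _ h1 (by norm_num)))
  rw [hb0, map_zero] at h
  have ha1 : a1 = 0 := by
    refine kill hP (-2) (f := X) (g := algebraMap K E a0 * 1) ?_ hX ?_
    · linear_combination h
    · exact cmul_le hP _ h1 (by norm_num)
  rw [ha1, map_zero] at h
  have ha0 : a0 = 0 := by
    have h3 : algebraMap K E a0 = 0 := by linear_combination h
    exact (map_eq_zero (algebraMap K E)).1 h3
  exact ⟨ha3, ha2, ha1, ha0, hb2, hb1, hb0⟩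

/-- functions with a pole of order at most `4` at `P` only -/
theorem span4 (hR : Rtl K P)
    (hsp : ∀ g : E, ((-1 : ℤ) : WithTop ℤ) ≤ P g → Rg K P g → ∃ c : K, algebraMap K E c = g)
    {X U : E} (hX : P X = ((-2 : ℤ) : WithTop ℤ)) (hU : P U = ((-3 : ℤ) : WithTop ℤ)) (hrX : Rg K P X) (hrU : Rg K P U)
    {g : E} (hg : ((-4 : ℤ) : WithTop ℤ) ≤ P g) (hrg : Rg K P g) : ∃ c2 cU c1 c0 : K,
    g = algebraMap K E c2 * X ^ 2 + algebraMap K E cU * U + algebraMap K E c1 * X + algebraMap K E c0 := by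
  obtain ⟨c2, h2⟩ := step hR hg (vX2 hX)
  have hr2 := rg_sub hrg (rg_mul (rg_const c2) (rg_pow hrX 2))
  obtain ⟨cU, h3⟩ := step hR (n := -3) h2 hU
  have hr3 := rg_sub hr2 (rg_mul (rg_const cU) hrU)
  obtain ⟨c1, h4⟩ := step hR (n := -2) h3 hX
  have hr4 := rg_sub hr3 (rg_mul (rg_const c1) hrX)
  obtain ⟨c0, h5⟩ := hsp _ h4 hr4
  refine ⟨c2, cU, c1, c0, ?_⟩
  rw [h5]
  ring

end

end XZwe

open XZwe in
theorem pr_Zwe (hNop : StNop.{u}) (hZor : StZor.{u}) (hZex : StZex.{u}) (hZsp : StZsp.{u}) : StZwe.{u} := by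
  classical
  intro K E _ _ _ _ hF hC θ hθ P hP hR
  have hE : Algebra.EssFiniteType K E := hF.1
  obtain ⟨x, hx⟩ := hF.2
  have hsp : ∀ g : E, ((-1 : ℤ) : WithTop ℤ) ≤ P g → Rg K P g → ∃ c : K, algebraMap K E c = g :=
    fun g hg hr => hZsp K E hF hC θ hθ P hP hR g hg hr
  -- `θ ≠ 0`
  have hθ0 : θ ≠ 0 := by
    rintro rfl
    obtain ⟨f, _, hf⟩ := (hθ P hP).2
    rw [Derivation.zero_apply, AddValuation.map_zero] at hf
    exact WithTop.top_ne_coe hf
  -- the function `X`
  have hexX : ∃ X : E, P X = ((-2 : ℤ) : WithTop ℤ) ∧ Rg K P X := by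
    set D : AddValuation E (WithTop ℤ) → ℤ := fun w => if w = P then 1 else 0 with hD
    have hDP : D P = 1 := by simp [hD]
    have hDw : ∀ w, w ≠ P → D w = 0 := fun w hw => by simp [hD, hw]
    have hfin : {w : AddValuation E (WithTop ℤ) | Plc K w ∧ D w ≠ 0}.Finite := by
      refine (Set.finite_singleton P).subset ?_
      rintro w ⟨_, hw⟩
      by_contra hne
      exact hw (hDw w hne)
    have hN : Nsp θ D := by
      intro g hg
      have h1 : ∀ w : AddValuation E (WithTop ℤ), Plc K w → ((D w : ℤ) : WithTop ℤ) ≤ w g := by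
        intro w hw
        have h2 := hg w 0 hw (hθ w hw)
        rwa [zero_add] at h2
      have h2 : ∀ w : AddValuation E (WithTop ℤ), Plc K w → 0 ≤ w g := by
        intro w hw
        refine le_trans ?_ (h1 w hw)
        by_cases h : w = P
        · rw [h, hDP]; exact_mod_cast (zero_le_one : (0 : ℤ) ≤ 1)
        · rw [hDw w h]; exact le_rfl
      obtain ⟨c, hc⟩ := hC g (hNop K E x hx g h2)
      by_contra hg0
      have hc0 : c ≠ 0 := by
        rintro rfl
        exact hg0 (by rw [← hc, map_zero])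
      have h3 := h1 P hP
      rw [hDP, ← hc, const_zero hP hc0] at h3
      have h4 : (1 : ℤ) ≤ 0 := by exact_mod_cast h3
      omega
    obtain ⟨X, hX, hXr⟩ := hZex K E hF θ hθ0 D hfin hN P hP
    refine ⟨X, ?_, ?_⟩
    · rw [hX, hDP]; rfl
    · intro w hw hne
      have := hXr w hw hne
      rw [hDw w hne] at this
      exact_mod_cast this
  obtain ⟨X, hX, hrX⟩ := hexX
  have hY : P (θ X) = ((-3 : ℤ) : WithTop ℤ) := by
    have := hZor K E hF P θ 0 hP (hθ P hP) X (-2) (by norm_num) hX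
    rw [this]; rfl
  have hrY : Rg K P (θ X) := rg_theta hθ hrX
  -- the cubic equation
  obtain ⟨A, b, C, d, E₁, F₁, hA, heq⟩ : ∃ A b C d E₁ F₁ : K, A ≠ 0 ∧ (θ X) ^ 2 = algebraMap K E A * X ^ 3
      + 2 * algebraMap K E b * (X * θ X) + algebraMap K E C * X ^ 2 + 2 * algebraMap K E d * θ X + algebraMap K E E₁ * X
      + algebraMap K E F₁ := by
    have hY2 : P ((θ X) ^ 2) = ((-6 : ℤ) : WithTop ℤ) := by rw [pow_two]; exact vm hY hY
    obtain ⟨A, h1⟩ := step hR (le_of_eq hY2.symm) (vX3 hX)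
    have hr1 := rg_sub (rg_pow hrY 2) (rg_mul (rg_const A) (rg_pow hrX 3))
    obtain ⟨B, h2⟩ := step hR (n := -5) h1 (vm hX hY : P (X * θ X) = ((-5 : ℤ) : WithTop ℤ))
    have hr2 := rg_sub hr1 (rg_mul (rg_const B) (rg_mul hrX hrY))
    obtain ⟨C, D, E₁, F₁, h3⟩ := span4 hR hsp hX hY hrX hrY h2 hr2
    refine ⟨A, B / 2, C, D / 2, E₁, F₁, ?_, ?_⟩
    · rintro rfl
      rw [map_zero, zero_mul, sub_zero, hY2] at h1
      have : (-6 + 1 : ℤ) ≤ -6 := by exact_mod_cast h1
      omega
    · rw [map_div₀, map_div₀, map_ofNat]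
      have h2' : (2 : E) ≠ 0 := by
        have := (map_ne_zero (algebraMap K E)).2 (two_ne_zero (α := K))
        rwa [map_ofNat] at this
      field_simp
      linear_combination h3
  have h2' : (2 : E) ≠ 0 := by
    have := (map_ne_zero (algebraMap K E)).2 (two_ne_zero (α := K))
    rwa [map_ofNat] at this
  -- `U`
  obtain ⟨U, hUdef⟩ : ∃ U : E, U = θ X - (algebraMap K E b * X + algebraMap K E d) := ⟨_, rfl⟩
  have hUY : θ X = U + (algebraMap K E b * X + algebraMap K E d) := by rw [hUdef]; ring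
  have hU : P U = ((-3 : ℤ) : WithTop ℤ) := by
    have h1 : ((-2 : ℤ) : WithTop ℤ) ≤ P (algebraMap K E b * X + algebraMap K E d * 1) :=
      AddValuation.map_le_add P (cmul_le hP _ hX le_rfl) (cmul_le hP _ v1 (by norm_num))
    rw [mul_one] at h1
    rw [hUdef, AddValuation.map_sub_eq_of_lt_left P, hY]
    rw [hY]
    refine lt_of_lt_of_le ?_ h1
    exact_mod_cast (by norm_num : (-3 : ℤ) < -2)
  have hrU : Rg K P U := by
    rw [hUdef]
    exact rg_sub hrY (rg_add (rg_mul (rg_const b) hrX) (rg_const d))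
  have hUeq : U ^ 2 = algebraMap K E A * X ^ 3 + algebraMap K E (C + b ^ 2) * X ^ 2 + algebraMap K E (E₁ + 2 * b * d) * X
      + algebraMap K E (F₁ + d ^ 2) := by
    rw [map_add, map_add, map_add, map_mul, map_mul, map_pow, map_pow, map_ofNat]
    rw [hUdef]
    linear_combination heq
  obtain ⟨C₂, hC₂⟩ : ∃ c, c = C + b ^ 2 := ⟨_, rfl⟩
  obtain ⟨E₂, hE₂⟩ : ∃ c, c = E₁ + 2 * b * d := ⟨_, rfl⟩
  obtain ⟨F₂, hF₂⟩ : ∃ c, c = F₁ + d ^ 2 := ⟨_, rfl⟩
  rw [← hC₂, ← hE₂, ← hF₂] at hUeq
  -- the derivative of `U`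
  have hθU : P (θ U) = ((-4 : ℤ) : WithTop ℤ) := by
    have := hZor K E hF P θ 0 hP (hθ P hP) U (-3) (by norm_num) hU
    rw [this]; rfl
  obtain ⟨α, β, γ, δ, hθU'⟩ := span4 hR hsp hX hU hrX hrU (le_of_eq hθU.symm) (rg_theta hθ hrU)
  have hder : 2 * U * θ U = (3 * algebraMap K E A * X ^ 2 + 2 * algebraMap K E C₂ * X + algebraMap K E E₂) * θ X := by
    have h1 := congrArg θ hUeq
    rw [map_add, map_add, map_add, Derivation.leibniz, Derivation.leibniz, Derivation.leibniz, Derivation.leibniz_pow,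
      Derivation.leibniz_pow, Derivation.leibniz_pow, Derivation.map_algebraMap, Derivation.map_algebraMap,
      Derivation.map_algebraMap, Derivation.map_algebraMap] at h1
    simp only [smul_eq_mul, nsmul_eq_mul, mul_zero, add_zero] at h1
    push_cast at h1
    norm_num at h1
    linear_combination h1
  have hlin : algebraMap K E (2 * β * A - 3 * A * b) * X ^ 3 + algebraMap K E (2 * β * C₂ - 3 * A * d - 2 * C₂ * b) * X ^ 2
      + algebraMap K E (2 * β * E₂ - 2 * C₂ * d - E₂ * b) * X + algebraMap K E (2 * β * F₂ - E₂ * d)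
      + (algebraMap K E (2 * α - 3 * A) * X ^ 2 + algebraMap K E (2 * γ - 2 * C₂) * X + algebraMap K E (2 * δ - E₂)) * U = 0 := by
    simp only [map_sub, map_mul, map_ofNat]
    rw [hθU', hUY] at hder
    linear_combination hder - 2 * algebraMap K E β * hUeq
  obtain ⟨e3, e2, e1, e0, _, _, _⟩ := indep hP hX hU hlin
  have g3 : 2 * β = 3 * b := by
    have : A * (2 * β - 3 * b) = 0 := by linear_combination e3
    rcases mul_eq_zero.1 this with h | h
    · exact absurd h hA
    · linear_combination h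
  have g2 : b * C₂ = 3 * A * d := by linear_combination e2 - C₂ * g3
  have g1 : b * E₂ = C₂ * d := by
    have : 2 * (b * E₂ - C₂ * d) = 0 := by linear_combination e1 - E₂ * g3
    rcases mul_eq_zero.1 this with h | h
    · exact absurd h two_ne_zero
    · linear_combination h
  have g0 : 3 * b * F₂ = E₂ * d := by linear_combination e0 - F₂ * g3
  -- `b = 0`
  have hb : b = 0 := by
    by_contra hb
    obtain ⟨s, hs⟩ : ∃ s, d = b * s := ⟨d / b, by field_simp⟩
    have k2 : C₂ = 3 * A * s := by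
      apply mul_left_cancel₀ hb
      rw [g2, hs]; ring
    have k1 : E₂ = 3 * A * s ^ 2 := by
      apply mul_left_cancel₀ hb
      rw [g1, hs, k2]; ring
    have k0 : F₂ = A * s ^ 3 := by
      have h3 : (3 : K) ≠ 0 := three_ne_zero
      apply mul_left_cancel₀ (mul_ne_zero h3 hb)
      rw [g0, hs, k1]; ring
    have hXs : P (X + algebraMap K E s) = ((-2 : ℤ) : WithTop ℤ) := by
      rw [AddValuation.map_add_eq_of_lt_left P, hX]
      rw [hX]
      refine lt_of_lt_of_le ?_ (hP.2 s)
      exact_mod_cast (by norm_num : (-2 : ℤ) < 0)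
    have hXs0 : X + algebraMap K E s ≠ 0 := by
      intro h0
      rw [h0, AddValuation.map_zero] at hXs
      exact WithTop.top_ne_coe hXs
    obtain ⟨h, hh⟩ : ∃ h : E, h = U / (X + algebraMap K E s) := ⟨_, rfl⟩
    have hh2 : h * h = algebraMap K E A * (X + algebraMap K E s) := by
      rw [hh]
      field_simp
      rw [hUeq, k2, k1, k0]
      simp only [map_mul, map_pow, map_ofNat]
      ring
    have hPh : P h + P h = ((-2 : ℤ) : WithTop ℤ) := by
      rw [← AddValuation.map_mul, hh2]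
      exact cmul_eq hP hA hXs
    have hrh : Rg K P h := by
      intro w hw hne
      have h1 : 0 ≤ w h + w h := by
        rw [← AddValuation.map_mul, hh2]
        exact rg_mul (rg_const A) (rg_add hrX (rg_const s)) w hw hne
      revert h1
      generalize w h = y
      intro h1
      induction y using WithTop.recTopCoe with
      | top => exact le_top
      | coe m =>
        have h4 : 0 ≤ m + m := by exact_mod_cast h1
        have h5 : 0 ≤ m := by omega
        exact_mod_cast h5
    have hh1 : ((-1 : ℤ) : WithTop ℤ) ≤ P h := by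
      revert hPh
      generalize P h = y
      intro h1
      induction y using WithTop.recTopCoe with
      | top => exact le_top
      | coe m =>
        have h4 : m + m = -2 := by exact_mod_cast h1
        have h5 : -1 ≤ m := by omega
        exact_mod_cast h5
    obtain ⟨c, hc⟩ := hsp h hh1 hrh
    have h6 : 0 ≤ P h := by rw [← hc]; exact hP.2 c
    have h7 : 0 ≤ P h + P h := add_nonneg h6 h6
    rw [hPh] at h7
    have h8 : (0 : ℤ) ≤ -2 := by exact_mod_cast h7
    omega
  have hd : d = 0 := by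
    rw [hb, zero_mul] at g2
    have h3 : (3 : K) ≠ 0 := three_ne_zero
    rcases mul_eq_zero.1 g2.symm with h | h
    · exact absurd h (mul_ne_zero h3 hA)
    · exact h
  rw [hb, hd, map_zero] at heq
  -- the scaling
  have h4 : (4 : K) ≠ 0 := by exact_mod_cast (show (4 : ℕ) ≠ 0 by norm_num)
  have h12 : (12 : K) ≠ 0 := by exact_mod_cast (show (12 : ℕ) ≠ 0 by norm_num)
  obtain ⟨p, hp⟩ : ∃ p : K, A = 4 * p := ⟨A / 4, by field_simp⟩
  obtain ⟨q, hq⟩ : ∃ q : K, C = 12 * q := ⟨C / 12, by field_simp⟩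
  have hp0 : p ≠ 0 := by
    rintro rfl
    exact hA (by rw [hp, mul_zero])
  have hpX : P (algebraMap K E p * X + algebraMap K E q) = ((-2 : ℤ) : WithTop ℤ) := by
    rw [AddValuation.map_add_eq_of_lt_left P, cmul_eq hP hp0 hX]
    rw [cmul_eq hP hp0 hX]
    refine lt_of_lt_of_le ?_ (hP.2 q)
    exact_mod_cast (by norm_num : (-2 : ℤ) < 0)
  refine ⟨algebraMap K E p * X + algebraMap K E q, (p * E₁ - 12 * q ^ 2) / 4,
    (p ^ 2 * F₁ - 4 * q ^ 3 - (p * E₁ - 12 * q ^ 2) * q) / 4, hpX, ?_, ?_⟩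
  · exact rg_add (rg_mul (rg_const p) hrX) (rg_const q)
  · have h4' : (4 : E) ≠ 0 := by
      have := (map_ne_zero (algebraMap K E)).2 h4
      rwa [map_ofNat] at this
    rw [map_add, Derivation.leibniz, Derivation.map_algebraMap, Derivation.map_algebraMap, smul_zero, add_zero, add_zero,
      smul_eq_mul, mul_pow, heq, hp, hq]
    simp only [map_sub, map_mul, map_pow, map_ofNat, map_div₀]
    field_simp
    ring

end Pool.Agent.Work.MP_a2680c_ag.HA
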