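import Pool.Agent.Work.MP_7b66e6_ag.N.I_REG
import Pool.Agent.Work.MP_7b66e6_ag.N.I_PDV
import Pool.Agent.Work.MP_7b66e6_ag.N.I_BAS
import Pool.Agent.Work.MP_7b66e6_ag.N.I_LDX
import Pool.Agent.Work.MP_7b66e6_ag.N.I_DVL
import Pool.Agent.Work.MP_7b66e6_ag.N.I_ALG
import Pool.Agent.Work.MP_7b66e6_ag.N.I_TRB
import Pool.Agent.Work.MP_7b66e6_ag.M.I_RES
import Pool.Agent.Work.MP_7b66e6_ag.M.I_DIV
import Pool.Agent.Work.MP_7b66e6_ag.M.I_NOR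
import Pool.Agent.Work.MP_7b66e6_ag.K.I_BDD
import Pool.Agent.Work.MP_a2680c_ag.HA.I_Asa
import Pool.Agent.Work.MP_a2680c_ag.HA.I_Asb
import Pool.Agent.Work.MP_a2680c_ag.HA.I_Asc
import Pool.Agent.Work.MP_a2680c_ag.HA.I_Asd
import Pool.Agent.Work.MP_a2680c_ag.HA.I_Ase
import Pool.Agent.Work.MP_a2680c_ag.HA.I_Asf
import Pool.Agent.Work.MP_a2680c_ag.HA.I_Avg
import Pool.Agent.Work.MP_a2680c_ag.HA.I_Ba1
import Pool.Agent.Work.MP_a2680c_ag.HA.I_Ba2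
import Pool.Agent.Work.MP_a2680c_ag.HA.I_Bp1
import Pool.Agent.Work.MP_a2680c_ag.HA.I_Bp2
import Pool.Agent.Work.MP_a2680c_ag.HA.I_Bp3
import Pool.Agent.Work.MP_a2680c_ag.HA.I_Can
import Pool.Agent.Work.MP_a2680c_ag.HA.I_Cor
import Pool.Agent.Work.MP_a2680c_ag.HA.I_Crb
import Pool.Agent.Work.MP_a2680c_ag.HA.I_Cst
import Pool.Agent.Work.MP_a2680c_ag.HA.I_Ctr
import Pool.Agent.Work.MP_a2680c_ag.HA.I_Dcj
import Pool.Agent.Work.MP_a2680c_ag.HA.I_Dlt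
import Pool.Agent.Work.MP_a2680c_ag.HA.I_Eff
import Pool.Agent.Work.MP_a2680c_ag.HA.I_Fac
import Pool.Agent.Work.MP_a2680c_ag.HA.I_Far
import Pool.Agent.Work.MP_a2680c_ag.HA.I_Fid
import Pool.Agent.Work.MP_a2680c_ag.HA.I_Fsc
import Pool.Agent.Work.MP_a2680c_ag.HA.I_Fsp
import Pool.Agent.Work.MP_a2680c_ag.HA.I_Grm
import Pool.Agent.Work.MP_a2680c_ag.HA.I_Hor
import Pool.Agent.Work.MP_a2680c_ag.HA.I_Ine
import Pool.Agent.Work.MP_a2680c_ag.HA.I_Jac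
import Pool.Agent.Work.MP_a2680c_ag.HA.I_Key
import Pool.Agent.Work.MP_a2680c_ag.HA.I_Kru
import Pool.Agent.Work.MP_a2680c_ag.HA.I_Lbs
import Pool.Agent.Work.MP_a2680c_ag.HA.I_Lfs
import Pool.Agent.Work.MP_a2680c_ag.HA.I_Lif
import Pool.Agent.Work.MP_a2680c_ag.HA.I_Loc
import Pool.Agent.Work.MP_a2680c_ag.HA.I_Lpd
import Pool.Agent.Work.MP_a2680c_ag.HA.I_Mai
import Pool.Agent.Work.MP_a2680c_ag.HA.I_Mdv
import Pool.Agent.Work.MP_a2680c_ag.HA.I_Mlg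
import Pool.Agent.Work.MP_a2680c_ag.HA.I_Mnv
import Pool.Agent.Work.MP_a2680c_ag.HA.I_Opt
import Pool.Agent.Work.MP_a2680c_ag.HA.I_Ord
import Pool.Agent.Work.MP_a2680c_ag.HA.I_Pb
import Pool.Agent.Work.MP_a2680c_ag.HA.I_Pdd
import Pool.Agent.Work.MP_a2680c_ag.HA.I_Rat
import Pool.Agent.Work.MP_a2680c_ag.HA.I_Smo
import Pool.Agent.Work.MP_a2680c_ag.HA.I_Tb
import Pool.Agent.Work.MP_a2680c_ag.HA.I_Tfr
import Pool.Agent.Work.MP_a2680c_ag.HA.I_Twa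
import Pool.Agent.Work.MP_a2680c_ag.HA.I_Two
import Pool.Agent.Work.MP_a2680c_ag.HA.I_Wdl

/-! # MP_a2680c_ag, block HA: assembly -/

set_option autoImplicit false

namespace Pool.Agent.Work.MP_a2680c_ag.HA

open MP7b66e6 MP7b66e6.Q

universe u

/-! statements of the library MP_7b66e6_ag -/

theorem lREG : NgREG.{u, u} := nREG nPDV
theorem lLDX : NgLDX.{u, u} := nLDX kBDD
theorem lDVL : NgDVL.{u, u} := nDVL iMgRES iMgDIV nALG (nTRB iMgRES nALG)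

/-! constants -/

theorem gLpd : StLpd := pr_Lpd pr_Far pr_Rat pr_Ba1 pr_Ba2
theorem gPb : StPb := pr_Pb pr_Rat pr_Ba1 pr_Ba2
theorem gCst : StCst := pr_Cst pr_Ba2 gPb pr_Fid pr_Dlt pr_Dcj

/-! derivations and valuations -/

theorem gCan : StCan.{u} := pr_Can lLDX
theorem gCor : StCor.{u} := pr_Cor pr_Lif
theorem gLbs : StLbs.{u} := pr_Lbs nBAS
theorem gJac : StJac.{u} := pr_Jac pr_Tb gCor
theorem gIne : StIne.{u} := pr_Ine pr_Tb gCor gLbs gJac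
theorem gMnv : StMnv.{u} := pr_Mnv iMgNOR
theorem gMdv : StMdv.{u} := pr_Mdv lDVL pr_Tb pr_Lif pr_Tfr gLbs pr_Mlg
theorem gTwa : StTwa.{u} := pr_Twa gJac gMnv gMdv pr_Crb
theorem gFac : StFac.{u} := pr_Fac pr_Ord
theorem gHor : StHor.{u} := pr_Hor pr_Tb gCor pr_Tfr pr_Smo

/-! varieties -/

theorem gGrm : StGrm.{u} := pr_Grm pr_Loc pr_Pdd
theorem gFsp : StFsp.{u} := pr_Fsp pr_Pdd
theorem gFsc : StFsc.{u} := pr_Fsc pr_Tb pr_Smo pr_Pdd gGrm gFsp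
theorem gEff : StEff.{u} := pr_Eff lREG pr_Rat pr_Tb gGrm gFsp
theorem gWdl : StWdl.{u} := pr_Wdl pr_Loc gEff
theorem gLfs : StLfs.{u} := pr_Lfs pr_Loc pr_Pdd gFsp gWdl
theorem gCtr : StCtr.{u} := pr_Ctr pr_Loc
theorem gKru : StKru.{u} := pr_Kru nPDV pr_Loc pr_Pdd gGrm pr_Tfr gMnv gCtr
theorem gBp2 : StBp2.{u} := pr_Bp2 pr_Loc pr_Bp1
theorem gBp3 : StBp3.{u} := pr_Bp3 lREG pr_Tb gGrm gBp2

/-! the fibration -/

theorem gKey : StKey.{u} := pr_Key pr_Tb pr_Tfr gGrm pr_Pdd pr_Ord gHor gFac gEff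
theorem gTwo : StTwo.{u} := pr_Two pr_Tb gCor gCan gGrm gCtr gWdl gTwa
theorem gOpt : StOpt.{u} := pr_Opt pr_Ba1 pr_Ba2 gLpd gTwo
theorem gAvg : StAvg.{u} := pr_Avg pr_Tb gCor gCan gIne gWdl
theorem gAsa : StAsa.{u} := pr_Asa gGrm pr_Pdd gKru gAvg
theorem gAsb : StAsb.{u} := pr_Asb gBp3
theorem gAsc : StAsc.{u} := pr_Asc pr_Loc pr_Pdd gCan pr_Tb gEff gWdl gFsp
theorem gAsd : StAsd.{u} := pr_Asd pr_Loc pr_Tb pr_Tfr gGrm pr_Pdd gEff gWdl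
theorem gAse : StAse.{u} := pr_Ase gGrm gCtr pr_Loc gCan pr_Tb gCor gWdl gTwa gAvg
theorem gAsf : StAsf.{u} := pr_Asf gFsp gFsc gLfs

/-- THEOREM HA. -/
theorem mainHA : MainHA.{u} :=
  pr_Mai gCst gJac gGrm pr_Pdd gKey gOpt gAsa gAsb gAsc gAsd gAse gAsf

end Pool.Agent.Work.MP_a2680c_ag.HA
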