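import Pool.Agent.Work.MP_a2680c_ag.HA.DefsE
import Pool.Agent.Work.MP_a2680c_ag.HA.Main
import Pool.Agent.Work.MP_a2680c_ag.HA.I_Mun
import Pool.Agent.Work.MP_a2680c_ag.HA.I_Pac
import Pool.Agent.Work.MP_a2680c_ag.HA.I_Ram
import Pool.Agent.Work.MP_a2680c_ag.HA.I_Rsd
import Pool.Agent.Work.MP_a2680c_ag.HA.I_Itg
import Pool.Agent.Work.MP_a2680c_ag.HA.I_Imn
import Pool.Agent.Work.MP_a2680c_ag.HA.I_Ixb
import Pool.Agent.Work.MP_a2680c_ag.HA.I_Ixa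
import Pool.Agent.Work.MP_a2680c_ag.HA.I_Asg

/-! # MP_a2680c_ag, block HA: assembly of the final statement -/

set_option autoImplicit false

noncomputable section

namespace Pool.Agent.Work.MP_a2680c_ag.HA

open MP7b66e6 MP7b66e6.Q
open scoped BigOperators

universe u

theorem gPac : StPac.{u} := pr_Pac pr_Mun
theorem gRam : StRam.{u} := pr_Ram gMnv
theorem gItg : StItg.{u} := pr_Itg gPac gRam pr_Rsd
theorem gImn : StImn.{u} := pr_Imn gItg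
theorem gIxb : StIxb.{u} := pr_Ixb gBp3 gImn pr_Pdd pr_Loc
theorem gIxa : StIxa.{u} := pr_Ixa gGrm pr_Pdd gKru gAvg gImn
theorem gAsg : StAsg.{u} := pr_Asg pr_Pdd gEff gWdl gFsp

/-- both conclusions, before splitting -/
theorem mainBoth : ∀ (n : ℕ), 1 ≤ n → ∀ I : Set ℝ, I ⊆ Set.Ioc 0 1 → DCC I →
  ∃ (J Γ : Set ℝ) (m : ℕ), J ⊆ Set.Ioc 0 1 ∧ DCC J ∧ Γ ⊆ Set.Ioc 0 1 ∧ Γ.Finite ∧ 1 ≤ m ∧
    ∀ (κ : Prop) (k K F : Type u) [Field k] [CharZero k] [Field K] [Field F] [Algebra k K] [Algebra k F] [Algebra K F]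
      [IsScalarTower k K F] (e N : ℕ) (r : Fin e → K) (y : Fin n → F) (Z : Set (Subalgebra k K)) (X : Set (Subalgebra k F))
      (D : AddValuation F (WithTop ℤ) → ℝ) (L : AddValuation K (WithTop ℤ) → ℝ) (a : Fin N → Fin (n + 1) → K) (d : Fin N → ℝ),
      Fib κ I r y Z X D L → Arr I y X D a d →
      ∃ Dd Dm : AddValuation K (WithTop ℤ) → ℝ, AdjE κ J Γ m r y Z X D a d Dd Dm ∧
        ∀ M : ℕ, 0 < M → (∀ i, ∃ u : ℕ, (M : ℝ) * d i = u) →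
    Bpf Z (fun ν => M * Dm ν) ∧
    (∀ v : AddValuation K (WithTop ℤ), DivOver Z v →
      IsLeast {s : ℝ | ∃ B ∈ Tup a d M, s = ∑ t, (val v (mnr a (B t)) : ℝ)} (- (M * Dm v))) ∧
    ∀ v : AddValuation K (WithTop ℤ), PD Z v → ∃ (E : AddValuation F (WithTop ℤ)) (j μ : ℕ), PD X E ∧ Lies v E μ ∧
      D E + j / M ≤ 1 ∧ Dd v = 1 - (1 - D E - j / M) / μ := by
  intro n hn I hI hD
  obtain ⟨J, Γ, m, hJ, hJD, hΓ, hΓf, hm, hC⟩ := gCst n I hI hD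
  refine ⟨J, Γ, m, hJ, hJD, hΓ, hΓf, hm, ?_⟩
  intro κ k K F _ _ _ _ _ _ _ _ e N r y Z X D L a d hF hA
  haveI : Algebra.EssFiniteType k K := (gGrm k K Z hF.vz).1
  have hG : GenBy K y := ⟨hA.indep, hA.gen⟩
  have hlin : ∀ i, lin y (a i) ≠ 0 := (gJac k K F e n N r y a hF.basis hG hA.nz).1
  obtain ⟨Ξ, hΞ⟩ := gKey κ k K F e n N I r y Z X D L a d hn hF hA
  have hd : ∀ i, 0 ≤ d i := fun i => (hI (hA.mem i)).1.le
  have hO : ∀ v : AddValuation K (WithTop ℤ), DivOver Z v → OptC κ a d (Tv r Z L Ξ v) v := fun v hv =>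
    gOpt κ k K F e n N I r y Z X D L a d Ξ hF hG hA.nz hd hΞ v hv
  obtain ⟨hC1, l, w, G, hw, hw1, hP⟩ := hC N d hA.mem hΞ.1
  have hfs := gAsf k K e n N r Z L a d Ξ hF.basis hF.vz hF.divL hF.carL
  have hPDO : ∀ v : AddValuation K (WithTop ℤ), PD Z v → DivOver Z v := by
    intro v hv
    obtain ⟨h1, R, hR, hc, _⟩ := pr_Pdd k K Z hF.vz v hv
    exact ⟨h1, R, hR, hc⟩
  have hc := gAsg κ k K e n N r Z L a d Ξ hF.basis hF.vz hF.divL hF.carL hO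
  refine ⟨Ddd r Z L Ξ a d, Dmm a d, ?_, ?_⟩
  refine
    { bdiv := hfs.1
      bmod := hfs.2
      pa := ?_
      pb := ?_
      pc := fun hQ => hc.2 (hc.1 hQ)
      pg := ?_
      pd := ?_
      dis := ?_
      hull := ?_
      car := hc.1
      lcc := hc.2 }
  · intro ν hν
    obtain ⟨l', c, δ, μ, h1, h2, h3, h4, h5, h6⟩ :=
      gAsa κ k K F e n N I r y Z X D L a d Ξ hF hG hA.nz hΞ ν hν (hO ν (hPDO ν hν))
    rw [h6]
    exact hC1 (bas a) l' c δ μ h1 h2 h3 h4 h5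
  · refine gAsb k K e n N r Z a d Γ m l w G hF.basis hF.vz hw hw1 hP ?_
    intro v hv
    obtain ⟨_, _, _, _, h, _⟩ := hO v hv
    exact h
  · intro ν hν
    obtain ⟨_, _, _, _, _, h, _⟩ := hO ν hν
    have : (1 : ℝ) - Ddd r Z L Ξ a d ν = Tv r Z L Ξ ν - mv a d ν := by unfold Ddd; ring
    rw [this]
    exact h
  · exact gAsd κ k K F e n N I r y Z X D L a d Ξ hF hG hA.nz hlin hΞ
  · intro v hv
    exact gAse κ k K F e n N I r y Z X D L a d Ξ hF hG hA.nz hd hΞ v hv (hO v hv)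
  · intro v hv
    obtain ⟨_, _, _, _, h, _⟩ := hO v hv
    have : - Dmm a d v = mv a d v := by unfold Dmm; ring
    rw [this]
    exact h
  · intro M hM hu
    refine ⟨?_, ?_, ?_⟩
    · exact gIxb κ k K e n N M r Z a d (Tv r Z L Ξ) hF.basis hF.vz hM hu hΞ.1 hO
    · intro v hv
      have h := gImn κ K v hv.1.1 n N M a d (Tv r Z L Ξ v) hM hu hΞ.1 (hO v hv)
      have : - ((M : ℝ) * Dmm a d v) = M * mv a d v := by unfold Dmm; ring
      rw [this]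
      exact h
    · intro v hv
      exact gIxa κ k K F e n N M I r y Z X D L a d Ξ hF hG hA.nz hΞ hM hu v hv (hO v (hPDO v hv))

theorem mainHE : MainHE.{u} := by
  intro n hn I hI hD
  obtain ⟨J, Γ, m, hJ, hJD, hΓ, hΓf, hm, hC⟩ := mainBoth n hn I hI hD
  refine ⟨J, Γ, m, hJ, hJD, hΓ, hΓf, hm, ?_⟩
  intro κ k K F _ _ _ _ _ _ _ _ e N r y Z X D L a d hF hA
  obtain ⟨Dd, Dm, h, _⟩ := hC κ k K F e N r y Z X D L a d hF hA
  exact ⟨Dd, Dm, h⟩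

theorem IM_sub (M : ℕ) : IM M ⊆ Set.Ioc 0 1 := by
  rintro t ⟨j, hj, hjM, rfl⟩
  have h1 : (0 : ℝ) < j := by exact_mod_cast hj
  have h2 : (j : ℝ) ≤ M := by exact_mod_cast hjM
  have h3 : (0 : ℝ) < M := lt_of_lt_of_le h1 h2
  exact ⟨div_pos h1 h3, (div_le_one h3).2 h2⟩

theorem IM_fin (M : ℕ) : (IM M).Finite := by
  refine ((Finset.range (M + 1)).finite_toSet.image fun j : ℕ => (j : ℝ) / M).subset ?_
  rintro t ⟨j, _, hjM, rfl⟩
  exact ⟨j, by simpa using Nat.lt_succ_of_le hjM, rfl⟩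

theorem IM_dcc (M : ℕ) : DCC (IM M) := by
  intro s hs hanti
  have hinj : Function.Injective s := hanti.injective
  exact Set.infinite_of_injective_forall_mem hinj hs (IM_fin M)

theorem mainHM : MainHM.{u} := by
  intro n M hn hM κ k K F _ _ _ _ _ _ _ _ e N r y Z X D L a d hF hA
  obtain ⟨J, Γ, m, _, _, _, _, _, hC⟩ := mainBoth n hn (IM M) (IM_sub M) (IM_dcc M)
  obtain ⟨Dd, Dm, h, ho⟩ := hC κ k K F e N r y Z X D L a d hF hA
  have hM' : (0 : ℝ) < M := by exact_mod_cast hM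
  have hu : ∀ i, ∃ u : ℕ, (M : ℝ) * d i = u := by
    intro i
    obtain ⟨j, _, _, hj⟩ := hA.mem i
    exact ⟨j, by rw [hj, mul_div_cancel₀ _ hM'.ne']⟩
  obtain ⟨h1, h2, h3⟩ := ho M hM hu
  refine ⟨Dd, Dm, h.bdiv, h.bmod, ?_, h1, h.car, h.lcc, h.pg, h.pd, h.dis, h2⟩
  intro ν hν
  obtain ⟨E, j, μ, hE, hL, hle, heq⟩ := h3 ν hν
  have hDE : ∃ j₀ : ℕ, D E = (j₀ : ℝ) / M := by
    rcases hF.coef E hE with h0 | ⟨j₀, _, _, hj₀⟩
    · exact ⟨0, by rw [h0]; simp⟩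
    · exact ⟨j₀, hj₀⟩
  obtain ⟨j₀, hj₀⟩ := hDE
  rw [hj₀] at hle heq
  refine ⟨j₀ + j, μ, ?_, hL.1, ?_⟩
  · have h4 : ((j₀ + j : ℕ) : ℝ) / M ≤ 1 := by
      push_cast
      rw [add_div]; exact hle
    rw [div_le_one hM'] at h4
    exact_mod_cast h4
  · rw [heq]
    push_cast
    rw [add_div]
    ring

end Pool.Agent.Work.MP_a2680c_ag.HA
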