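import Pool.Agent.Work.MP_a2680c_ag.HA.MainE
import Pool.Agent.Work.MP_7b66e6_ag.K.Main
import Pool.Agent.Work.MP_a2680c_ag.HA.DefsH
import Pool.Agent.Work.MP_a2680c_ag.HA.I_Mag
import Pool.Agent.Work.MP_a2680c_ag.HA.I_Tbs
import Pool.Agent.Work.MP_a2680c_ag.HA.I_Tbx
import Pool.Agent.Work.MP_a2680c_ag.HA.I_Rmf
import Pool.Agent.Work.MP_a2680c_ag.HA.I_Jcb
import Pool.Agent.Work.MP_a2680c_ag.HA.I_Cgd
import Pool.Agent.Work.MP_a2680c_ag.HA.I_Upd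
import Pool.Agent.Work.MP_a2680c_ag.HA.I_Rmi
import Pool.Agent.Work.MP_a2680c_ag.HA.I_Nrm
import Pool.Agent.Work.MP_a2680c_ag.HA.I_Nmx
import Pool.Agent.Work.MP_a2680c_ag.HA.I_Hul
import Pool.Agent.Work.MP_a2680c_ag.HA.I_Keg
import Pool.Agent.Work.MP_a2680c_ag.HA.I_Twg
import Pool.Agent.Work.MP_a2680c_ag.HA.I_Opg
import Pool.Agent.Work.MP_a2680c_ag.HA.I_Avc
import Pool.Agent.Work.MP_a2680c_ag.HA.I_Dsg
import Pool.Agent.Work.MP_a2680c_ag.HA.I_Lst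
import Pool.Agent.Work.MP_a2680c_ag.HA.I_Krg
import Pool.Agent.Work.MP_a2680c_ag.HA.I_Aag
import Pool.Agent.Work.MP_a2680c_ag.HA.I_Acg
import Pool.Agent.Work.MP_a2680c_ag.HA.I_Adg
import Pool.Agent.Work.MP_a2680c_ag.HA.I_Afg
import Pool.Agent.Work.MP_a2680c_ag.HA.I_Ibg
import Pool.Agent.Work.MP_a2680c_ag.HA.I_Csg
import Pool.Agent.Work.MP_a2680c_ag.HA.I_Abg
import Pool.Agent.Work.MP_a2680c_ag.HA.I_Cmp

/-! # MP_a2680c_ag, block HA, part G: assembly -/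

set_option autoImplicit false

noncomputable section

namespace Pool.Agent.Work.MP_a2680c_ag.HA

open MP7b66e6 MP7b66e6.Q

universe u

theorem gCmp : StCmp.{u} := pr_Cmp kEXT kAPX iMgNOR pr_Cgd
theorem gCsg : StCsg := pr_Csg pr_Ba2 gPb pr_Fid pr_Dlt pr_Dcj
theorem gAbg : StAbg.{u} := pr_Abg gBp3
theorem gTbx : StTbx.{u} := pr_Tbx pr_Tbs pr_Tfr
theorem gRmf : StRmf.{u} := pr_Rmf kDEX kLFT_all gLbs
theorem gJcb : StJcb.{u} := pr_Jcb pr_Tb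
theorem gUpd : StUpd.{u} := pr_Upd gCmp
theorem gHul : StHul.{u} := pr_Hul pr_Nrm
theorem gKeg : StKeg.{u} :=
  pr_Keg pr_Tbs gTbx pr_Tb gCan gGrm pr_Pdd pr_Ord gHor gJac gFac gEff gRmf gJcb gUpd
theorem gTwg : StTwg.{u} := pr_Twg pr_Tbs gTbx pr_Tb gCan gGrm gCtr gWdl gTwa gRmf kRES_all
theorem gOpg : StOpg.{u} := pr_Opg pr_Ba1 pr_Ba2 gLpd gTwg
theorem gAvc : StAvc.{u} := pr_Avc pr_Tbs gTbx pr_Tb gCan gGrm gIne gWdl gRmf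
theorem gDsg : StDsg.{u} := pr_Dsg gCmp gTwg gAvc
theorem gLst : StLst.{u} := pr_Lst pr_Cgd
theorem gKrg : StKrg.{u} := pr_Krg nPDV pr_Loc pr_Pdd gGrm gCtr
theorem gAag : StAag.{u} := pr_Aag pr_Tbs gTbx pr_Tb gGrm pr_Pdd gMnv gKrg gCmp pr_Rmi gAvc
theorem gAcg : StAcg.{u} := pr_Acg pr_Pdd gEff gWdl gFsp
theorem gAdg : StAdg.{u} := pr_Adg pr_Loc pr_Tb gGrm pr_Pdd gEff gWdl
theorem gAfg : StAfg.{u} := pr_Afg gFsp gFsc gLfs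
theorem gIbg : StIbg.{u} := pr_Ibg gBp3 gImn pr_Pdd pr_Loc pr_Nrm

theorem mainHG : MainHG.{u} :=
  pr_Mag kEXT gTbx gGrm pr_Pdd pr_Cgd pr_Nmx gCsg gHul gKeg gOpg gDsg gLst gAag gAbg gAcg gAdg gAfg gImn gIbg

theorem mainHH : MainHH.{u} :=
  pr_Mah kEXT gTbx gGrm pr_Pdd pr_Cgd pr_Nmx gCsg gHul gKeg gOpg gDsg gLst gAag gAbg gAcg gAdg gAfg gImn gIbg

end Pool.Agent.Work.MP_a2680c_ag.HA
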