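import Pool.Agent.Work.MP_a2680c_ag.HA.MainG
import Pool.Agent.Work.MP_a2680c_ag.HA.I_Rex
import Pool.Agent.Work.MP_a2680c_ag.HA.I_Rka
import Pool.Agent.Work.MP_a2680c_ag.HA.I_Rkb
import Pool.Agent.Work.MP_a2680c_ag.HA.I_Rbd
import Pool.Agent.Work.MP_a2680c_ag.HA.I_Rlb
import Pool.Agent.Work.MP_a2680c_ag.HA.I_Rlg
import Pool.Agent.Work.MP_a2680c_ag.HA.I_Rcr
import Pool.Agent.Work.MP_a2680c_ag.HA.I_Rne
import Pool.Agent.Work.MP_a2680c_ag.HA.I_Rdt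
import Pool.Agent.Work.MP_a2680c_ag.HA.I_Rky
import Pool.Agent.Work.MP_a2680c_ag.HA.I_Rfn
import Pool.Agent.Work.MP_a2680c_ag.HA.I_Rsg
import Pool.Agent.Work.MP_a2680c_ag.HA.I_Rst
import Pool.Agent.Work.MP_a2680c_ag.HA.I_Mar

/-! # MP_a2680c_ag, block HA, part R: assembly -/

set_option autoImplicit false

noncomputable section

namespace Pool.Agent.Work.MP_a2680c_ag.HA

open MP7b66e6 MP7b66e6.Q

universe u

theorem gRka : StRka.{u} := pr_Rka pr_Rex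
theorem gRlb : StRlb.{u} := pr_Rlb pr_Tb gCan gLbs iMgRES nALG (nTRB iMgRES nALG)
theorem gRlg : StRlg.{u} := pr_Rlg pr_Rex pr_Rbd gRlb kRSP
theorem gRne : StRne.{u} := pr_Rne pr_Rex pr_Rcr
theorem gRdt : StRdt.{u} := pr_Rdt pr_Rcr
theorem gRky : StRky.{u} := pr_Rky iMgNOR nBAS lDVL gCan
theorem gRfn : StRfn.{u} := pr_Rfn pr_Loc pr_Pdd gFsp gWdl
theorem gRst : StRst.{u} := pr_Rst pr_Tb gGrm gCan gRka pr_Rkb gRlg gRne gRdt gRky gRfn pr_Rsg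

theorem mainHR : MainHR.{u} :=
  pr_Mar kEXT gTbx gGrm pr_Pdd pr_Nmx gCsg gHul gKeg gOpg gDsg gLst gAag gAcg gAdg gAfg gRst gAbg

end Pool.Agent.Work.MP_a2680c_ag.HA
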