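import Pool.Agent.Work.MP_a2680c_ag.HA.MainR
import Pool.Agent.Work.MP_a2680c_ag.HA.I_Kev
import Pool.Agent.Work.MP_a2680c_ag.HA.I_Mav
import Pool.Agent.Work.MP_a2680c_ag.HA.I_Mvr

/-! # MP_a2680c_ag, block HA, part V: assembly -/

set_option autoImplicit false

noncomputable section

namespace Pool.Agent.Work.MP_a2680c_ag.HA

open MP7b66e6 MP7b66e6.Q

universe u

theorem gKev : StKev.{u} :=
  pr_Kev pr_Tbs gTbx pr_Tb gCan gGrm pr_Pdd pr_Ord gHor gJac gFac gEff gRmf gJcb gUpd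

theorem mainVG : MainVG.{u} :=
  pr_Mvg kEXT gTbx gGrm pr_Pdd pr_Cgd pr_Nmx gCsg gHul gKev gOpg gDsg gLst gAag gAbg gAcg gAdg gAfg gImn gIbg

theorem mainVH : MainVH.{u} :=
  pr_Mvh kEXT gTbx gGrm pr_Pdd pr_Cgd pr_Nmx gCsg gHul gKev gOpg gDsg gLst gAag gAbg gAcg gAdg gAfg gImn gIbg

theorem mainVR : MainVR.{u} :=
  pr_Mvr kEXT gTbx gGrm pr_Pdd pr_Nmx gCsg gHul gKev gOpg gDsg gLst gAag gAcg gAdg gAfg gRst gAbg

end Pool.Agent.Work.MP_a2680c_ag.HA
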