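import Pool.Agent.Work.MP_a2680c_ag.HA.MainV
import Pool.Agent.Work.MP_a2680c_ag.HA.I_Gpt
import Pool.Agent.Work.MP_a2680c_ag.HA.I_Cnt
import Pool.Agent.Work.MP_a2680c_ag.HA.I_Lfg
import Pool.Agent.Work.MP_a2680c_ag.HA.I_Bxy
import Pool.Agent.Work.MP_a2680c_ag.HA.I_Byz
import Pool.Agent.Work.MP_a2680c_ag.HA.I_Bcr
import Pool.Agent.Work.MP_a2680c_ag.HA.I_Fbf
import Pool.Agent.Work.MP_a2680c_ag.HA.I_Gex
import Pool.Agent.Work.MP_a2680c_ag.HA.I_Rsv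
import Pool.Agent.Work.MP_a2680c_ag.HA.I_Dim
import Pool.Agent.Work.MP_a2680c_ag.HA.I_Mnf
import Pool.Agent.Work.MP_a2680c_ag.HA.I_Csb
import Pool.Agent.Work.MP_a2680c_ag.HA.I_Keb
import Pool.Agent.Work.MP_a2680c_ag.HA.I_Twb
import Pool.Agent.Work.MP_a2680c_ag.HA.I_Opb
import Pool.Agent.Work.MP_a2680c_ag.HA.I_Avb
import Pool.Agent.Work.MP_a2680c_ag.HA.I_Dsb
import Pool.Agent.Work.MP_a2680c_ag.HA.I_Cls
import Pool.Agent.Work.MP_a2680c_ag.HA.I_Fpl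
import Pool.Agent.Work.MP_a2680c_ag.HA.I_Rpv
import Pool.Agent.Work.MP_a2680c_ag.HA.I_Pol
import Pool.Agent.Work.MP_a2680c_ag.HA.I_Lsp
import Pool.Agent.Work.MP_a2680c_ag.HA.I_Unr
import Pool.Agent.Work.MP_a2680c_ag.HA.I_Gcp
import Pool.Agent.Work.MP_a2680c_ag.HA.I_Fnp
import Pool.Agent.Work.MP_a2680c_ag.HA.I_Cvc
import Pool.Agent.Work.MP_a2680c_ag.HA.I_Hix
import Pool.Agent.Work.MP_a2680c_ag.HA.I_Fxd
import Pool.Agent.Work.MP_a2680c_ag.HA.I_Ytr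
import Pool.Agent.Work.MP_a2680c_ag.HA.I_Gfx
import Pool.Agent.Work.MP_a2680c_ag.HA.I_Rdk
import Pool.Agent.Work.MP_a2680c_ag.HA.I_Dsc
import Pool.Agent.Work.MP_a2680c_ag.HA.I_Bck
import Pool.Agent.Work.MP_a2680c_ag.HA.I_Spl
import Pool.Agent.Work.MP_a2680c_ag.HA.I_Mvb
import Pool.Agent.Work.MP_a2680c_ag.HA.I_Cnb
import Pool.Agent.Work.MP_a2680c_ag.HA.I_Ind
import Pool.Agent.Work.MP_a2680c_ag.HA.I_Mnw

/-! # MP_a2680c_ag, block HA, parts W, X: assembly -/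

set_option autoImplicit false

noncomputable section

namespace Pool.Agent.Work.MP_a2680c_ag.HA

open MP7b66e6 MP7b66e6.Q

universe u

theorem gCnt : StCnt.{u} := pr_Cnt pr_Loc
theorem gLfg : StLfg.{u} := pr_Lfg pr_Loc pr_Pdd gFsp gWdl
theorem gBxy : StBxy.{u} := pr_Bxy gLfg
theorem gByz : StByz.{u} := pr_Byz gGrm gCnt gLfg
theorem gBcr : StBcr.{u} := pr_Bcr pr_Tbs pr_Tb gCan gGrm gRmf kEXT pr_Cgd gCmp pr_Nmx gCtr gWdl gLfg pr_Rmi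
theorem gFbf : StFbf.{u} := pr_Fbf gGrm pr_Pdd gEff gWdl gCnt pr_Loc
theorem gGex : StGex.{u} := pr_Gex pr_Tb pr_Tfr gCan gMnv gMdv kEXT
theorem gRsv : StRsv.{u} := pr_Rsv nBAS lDVL iMgNOR pr_Tb gCan
theorem gDim : StDim.{u} := pr_Dim pr_Tbs pr_Tfr
theorem gCsb : StCsb := pr_Csb pr_Ba2 gPb pr_Fid
theorem gKeb : StKeb.{u} :=
  pr_Keb pr_Tbs pr_Tfr pr_Tb gCan gGrm pr_Gpt pr_Ord gHor gJac gFac gRmf gJcb gUpd gWdl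
theorem gTwb : StTwb.{u} := pr_Twb pr_Tbs pr_Tfr pr_Tb gCan gGrm gWdl gTwa gRmf kRES_all
theorem gOpb : StOpb.{u} := pr_Opb pr_Ba1 pr_Ba2 gLpd gTwb
theorem gAvb : StAvb.{u} := pr_Avb pr_Tbs pr_Tfr pr_Tb gCan gGrm gIne gWdl gRmf
theorem gDsb : StDsb.{u} := pr_Dsb gCmp gTwb gAvb
theorem gFpl : StFpl.{u} := pr_Fpl pr_Cls
theorem gRpv : StRpv.{u} := pr_Rpv pr_Cls
theorem gPol : StPol.{u} := pr_Pol pr_Cls
theorem gLsp : StLsp.{u} := pr_Lsp pr_Cls pr_Ord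
theorem gUnr : StUnr.{u} := pr_Unr kAPX
theorem gGcp : StGcp.{u} := pr_Gcp nPDV pr_Tb gGrm pr_Gpt pr_Loc gCnt
theorem gFnp : StFnp.{u} := pr_Fnp gGrm pr_Pdd gFsp gFsc gWdl pr_Gpt gGcp
theorem gCvc : StCvc.{u} := pr_Cvc pr_Cls gFpl gRpv gUnr
theorem gYtr : StYtr.{u} := pr_Ytr pr_Cls gPol gLsp
theorem gRdk : StRdk.{u} := pr_Rdk pr_Cls pr_Ord
theorem gDsc : StDsc.{u} := pr_Dsc pr_Hix pr_Fxd gYtr pr_Gfx gRdk
theorem gMvb : StMvb.{u} :=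
  pr_Mvbw kEXT gGrm pr_Nmx gCsb gHul gKeb gOpb gDsb gLst gCmp gAvb pr_Rmi gRst
theorem gSpl : StSpl.{u} := pr_Spl pr_Cls
theorem gBck : StBck.{u} := pr_Bck pr_Tbs pr_Tb gCan gGrm gRmf kRES_all gLfg gWdl
theorem gCnb : StCnb.{u} := pr_Cnb pr_Fid gKeb gFnp gCvc gSpl gDsc
theorem gInd : StInd.{u} :=
  pr_Ind gMvb gCnb gDim gGrm pr_Pdd gCnt gBxy gByz gBck gBcr gRsv pr_Mnf pr_Dcj gGcp

/-- THEOREM W. -/
theorem mainW : MainW.{u} :=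
  pr_Mnw gInd pr_Mnf pr_Dcj gFbf gGex gKrg pr_Pdd gGrm pr_Tb gAcg gAdg gAfg gAbg

end Pool.Agent.Work.MP_a2680c_ag.HA
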