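import Pool.Agent.Work.MP_a2680c_ag.HA.MainW
import Pool.Agent.Work.MP_a2680c_ag.HA.I_Etb
import Pool.Agent.Work.MP_a2680c_ag.HA.I_Gcl
import Pool.Agent.Work.MP_a2680c_ag.HA.I_Qav
import Pool.Agent.Work.MP_a2680c_ag.HA.I_Qcn
import Pool.Agent.Work.MP_a2680c_ag.HA.I_Qdv
import Pool.Agent.Work.MP_a2680c_ag.HA.I_Qbf
import Pool.Agent.Work.MP_a2680c_ag.HA.I_Qrs
import Pool.Agent.Work.MP_a2680c_ag.HA.I_Nop
import Pool.Agent.Work.MP_a2680c_ag.HA.I_Nnp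
import Pool.Agent.Work.MP_a2680c_ag.HA.I_Fcc
import Pool.Agent.Work.MP_a2680c_ag.HA.I_Gcn
import Pool.Agent.Work.MP_a2680c_ag.HA.I_Elz
import Pool.Agent.Work.MP_a2680c_ag.HA.I_Eqt
import Pool.Agent.Work.MP_a2680c_ag.HA.I_Crv
import Pool.Agent.Work.MP_a2680c_ag.HA.I_Iny
import Pool.Agent.Work.MP_a2680c_ag.HA.I_Mny

/-! # MP_a2680c_ag, block HA, part Y: assembly -/

set_option autoImplicit false

noncomputable section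

namespace Pool.Agent.Work.MP_a2680c_ag.HA

open MP7b66e6 MP7b66e6.Q

universe u

theorem gQav : StQav.{u} := pr_Qav pr_Gcl pr_Nmx kEXT iMgNOR
theorem gQcn : StQcn.{u} := pr_Qcn pr_Tbs pr_Tb gCan gRmf gJcb pr_Gcl
theorem gQdv : StQdv.{u} := pr_Qdv pr_Gcl gCmp kRES_all
theorem gQbf : StQbf.{u} := pr_Qbf pr_Tbs kEXT gQcn gQav gQdv gWdl
theorem gQrs : StQrs.{u} := pr_Qrs gRsv
theorem gNop : StNop.{u} := pr_Nop pr_Ord kEXT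
theorem gNnp : StNnp.{u} := pr_Nnp pr_Rat gNop
theorem gFcc : StFcc.{u} := pr_Fcc gNop
theorem gEqt : StEqt.{u} := pr_Eqt gGrm pr_Pdd pr_Gpt gWdl kEXT gQcn gQav gQdv gGcp gFcc iMgNOR
theorem gGcn : StGcn.{u} := pr_Gcn pr_Tb gCan pr_Smo kLFT_all
theorem gElz : StElz.{u} :=
  pr_Elz gGrm pr_Pdd gFsp pr_Gpt gWdl gJcb gCan pr_Tb gGcp gNnp gGcn
theorem gCrv : StCrv.{u} := pr_Crv gMvb gCnb gDim gGrm pr_Tb pr_Tbs pr_Dcj gElz gEqt gQrs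
theorem gIny : StIny.{u} :=
  pr_Iny gMvb gCrv gDim gGrm pr_Pdd gCnt gBxy gByz gBck gBcr gRsv pr_Mnf pr_Dcj gGcp pr_Tbs pr_Etb gQbf gQrs

/-- THEOREM Y. -/
theorem mainY : MainY.{u} :=
  pr_Mny gIny pr_Mnf pr_Dcj gFbf gGex gKrg pr_Pdd gGrm pr_Tb gAcg gAdg gAfg gAbg

end Pool.Agent.Work.MP_a2680c_ag.HA
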