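import Pool.Agent.Work.MP_a2680c_ag.HA.MainY
import Pool.Agent.Work.MP_a2680c_ag.HA.I_Mnz
import Pool.Agent.Work.MP_a2680c_ag.HA.I_Zdk
import Pool.Agent.Work.MP_a2680c_ag.HA.I_Zfo
import Pool.Agent.Work.MP_a2680c_ag.HA.I_Zfn
import Pool.Agent.Work.MP_a2680c_ag.HA.I_Zor
import Pool.Agent.Work.MP_a2680c_ag.HA.I_Zod
import Pool.Agent.Work.MP_a2680c_ag.HA.I_Zcn
import Pool.Agent.Work.MP_a2680c_ag.HA.I_Ztp
import Pool.Agent.Work.MP_a2680c_ag.HA.I_Ztr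
import Pool.Agent.Work.MP_a2680c_ag.HA.I_Ztd
import Pool.Agent.Work.MP_a2680c_ag.HA.I_Zlc
import Pool.Agent.Work.MP_a2680c_ag.HA.I_Zlz
import Pool.Agent.Work.MP_a2680c_ag.HA.I_Zbk
import Pool.Agent.Work.MP_a2680c_ag.HA.I_Zhi
import Pool.Agent.Work.MP_a2680c_ag.HA.I_Zex
import Pool.Agent.Work.MP_a2680c_ag.HA.I_Zdg
import Pool.Agent.Work.MP_a2680c_ag.HA.I_Zpe
import Pool.Agent.Work.MP_a2680c_ag.HA.I_Zce
import Pool.Agent.Work.MP_a2680c_ag.HA.I_Zrp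
import Pool.Agent.Work.MP_a2680c_ag.HA.I_Zbo
import Pool.Agent.Work.MP_a2680c_ag.HA.I_Zrs
import Pool.Agent.Work.MP_a2680c_ag.HA.I_Zgr
import Pool.Agent.Work.MP_a2680c_ag.HA.I_Zsp
import Pool.Agent.Work.MP_a2680c_ag.HA.I_Zwe
import Pool.Agent.Work.MP_a2680c_ag.HA.I_Zsg
import Pool.Agent.Work.MP_a2680c_ag.HA.I_Zad
import Pool.Agent.Work.MP_a2680c_ag.HA.I_Zpt
import Pool.Agent.Work.MP_a2680c_ag.HA.I_Zur
import Pool.Agent.Work.MP_a2680c_ag.HA.I_Zgo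
import Pool.Agent.Work.MP_a2680c_ag.HA.I_Zdi
import Pool.Agent.Work.MP_a2680c_ag.HA.I_Zeq

/-! # MP_a2680c_ag, block HA, part Z: assembly -/

set_option autoImplicit false

noncomputable section

namespace Pool.Agent.Work.MP_a2680c_ag.HA

open MP7b66e6 MP7b66e6.Q

universe u

theorem gZdk : StZdk.{u} := pr_Zdk pr_Ord gQdv
theorem gZfo : StZfo.{u} := pr_Zfo kAPX
theorem gZfn : StZfn.{u} := pr_Zfn kAPX
theorem gZod : StZod.{u} := pr_Zod gZdk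
theorem gZcn : StZcn.{u} := pr_Zcn gGcn gZdk
theorem gZtp : StZtp.{u} := pr_Ztp pr_Gcl kEXT iMgNOR
theorem gZtr : StZtr.{u} := pr_Ztr pr_Gcl kEXT iMgNOR gQdv
theorem gZtd : StZtd.{u} := pr_Ztd gZfo kAPX gZtr
theorem gZlc : StZlc.{u} := pr_Zlc gZfo gZtp
theorem gZlz : StZlz.{u} := pr_Zlz pr_Ord pr_Cls gZdk gZfn gZtp iMgNOR
theorem gZhi : StZhi.{u} := pr_Zhi pr_Ord pr_Cls gZdk gZfn pr_Zor gZod gZlc gZlz pr_Zbk gZtd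
theorem gZex : StZex.{u} := pr_Zex gZfn kAPX gZhi
theorem gZdg : StZdg.{u} := pr_Zdg gNop
theorem gZrp : StZrp.{u} := pr_Zrp pr_Ord kEXT kAPX gZdk pr_Zpe pr_Zce gNop
theorem gZbo : StZbo.{u} := pr_Zbo kDEX gUnr pr_Zor gZod
theorem gZrs : StZrs.{u} := pr_Zrs gZdk kEXT gUnr
theorem gZgr : StZgr.{u} := pr_Zgr gZrp gZrs gZbo gZod gZex gZdg
theorem gZsp : StZsp.{u} := pr_Zsp pr_Ord pr_Cls gNop pr_Zor gZdg
theorem gZwe : StZwe.{u} := pr_Zwe gNop pr_Zor gZex gZsp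
theorem gZsg : StZsg.{u} := pr_Zsg pr_Cls gNop pr_Zor gZex gZdg gZsp
theorem gZpt : StZpt.{u} := pr_Zpt pr_Zad
theorem gZur : StZur.{u} := pr_Zur pr_Cls gZfn pr_Zor
theorem gZgo : StZgo.{u} := pr_Zgo gZrp gZrs gZbo gZwe gZsg gZpt gZur
theorem gZdi : StZdi.{u} := pr_Zdi pr_Tb gCan pr_Gpt gWdl gJcb gNnp gZdk gZfn gZod gZcn gZgr
theorem gZeq : StZeq.{u} := pr_Zeq gGrm pr_Gpt gWdl kEXT gQcn gQav gQdv gFcc iMgNOR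
theorem gCbz : StCbz.{u} := pr_Cbz pr_Fid gKeb gCvc gSpl gDsc
theorem gCrz : StCrz.{u} := pr_Crz gMvb gCbz gGrm pr_Tb pr_Dcj gFnp gElz gQrs gZdk gZgo gZdi gZeq
theorem gInz : StInz.{u} :=
  pr_Inz gMvb gCrz gDim gGrm pr_Pdd gCnt gBxy gByz gBck gBcr gRsv pr_Mnf pr_Dcj gGcp pr_Tbs pr_Etb gQbf gQrs

/-- THEOREM Z. -/
theorem mainZ : MainZ.{u} :=
  pr_Mnz gInz pr_Mnf pr_Dcj gFbf gGex gKrg pr_Pdd gGrm pr_Tb gAcg gAdg gAfg gAbg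

end Pool.Agent.Work.MP_a2680c_ag.HA
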