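import Pool.Agent.Work.MP_a2680c_ag.HA.Defs

/-!
# MP_a2680c_ag, block HA, part A: linear programming and constants (no algebraic geometry)

An item `NAME` is a theorem `pr_NAME : StNAME` (hypotheses: the statements named in the docstring, in that order, e.g.
`theorem pr_Lpd (hFar : StFar) (hRat : StRat) : StLpd`) in the file `HA/I_NAME.lean`, namespace
`Pool.Agent.Work.MP_a2680c_ag.HA`, auxiliary lemmas in the namespace `Pool.Agent.Work.MP_a2680c_ag.HA.XNAME`.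
Import this file only; nobody waits for another item.  `β = Fin (n+1) → Fin N` is a finite type; the number
`∑ j, if b j = i then 1 else 0` is the incidence number of `b` and `i`, the sum over `i` of it is `n + 1`.
-/

set_option autoImplicit false

noncomputable section

namespace Pool.Agent.Work.MP_a2680c_ag.HA

open scoped BigOperators

/-- the decomposition `l` is basic: the incidence vectors of its support are linearly independent -/
def Basic {n N : ℕ} {𝕜 : Type} [Field 𝕜] (l : (Fin (n + 1) → Fin N) → 𝕜) : Prop :=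
  ∀ μ : (Fin (n + 1) → Fin N) → 𝕜, (∀ b, l b = 0 → μ b = 0) →
    (∀ i, ∑ b, μ b * (∑ j, if b j = i then 1 else 0) = 0) → μ = 0

/-- **Far** (EASY-MEDIUM; Farkas lemma).  Bartl's proof by induction on the number of rows `b` (transfer to `Fin m`, or induct on a
`Finset` of rows; `A b z` is short for `∑ i, A b i * z i`, `γ z` likewise).  No rows: `γ z ≤ 0` and `γ (-z) ≤ 0` for all `z`, so
`γ = 0`.  Step: let `b₀` be the last row.  If `γ z ≤ 0` for all `z` with `A b z ≤ 0` for `b ≠ b₀`, use the induction hypothesis and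
`l b₀ = 0`.  Otherwise there is `z₀` with `A b z₀ ≤ 0` (`b ≠ b₀`) and `γ z₀ > 0`; then `A b₀ z₀ > 0`, scale it to `1`.  Put
`A' b i = A b i - A b z₀ * A b₀ i`, `γ' i = γ i - γ z₀ * A b₀ i`, i.e. `A' b z = A b z'`, `γ' z = γ z'` with
`z' = z - (A b₀ z) z₀`, `A b₀ z' = 0`.  So `A' b z ≤ 0` for all `b ≠ b₀` implies `γ' z = γ z' ≤ 0`, and the induction hypothesis gives
`γ' = Σ_(b ≠ b₀) l b A' b`.  Hence `γ = Σ_(b ≠ b₀) l b A b + (γ z₀ - Σ l b A b z₀) A b₀`, the last coefficient is `≥ 0`. -/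
def StFar : Prop := ∀ (ι β : Type) [Fintype ι] [Fintype β] (A : β → ι → ℝ) (γ : ι → ℝ),
  (∀ z : ι → ℝ, (∀ b, ∑ i, A b i * z i ≤ 0) → ∑ i, γ i * z i ≤ 0) →
  ∃ l : β → ℝ, (∀ b, 0 ≤ l b) ∧ ∀ i, γ i = ∑ b, l b * A b i

/-- **Rat** (MEDIUM; simultaneous rational perturbation).  Let `V` be the `ℚ`-span of `W` in `ℝ`, finite dimensional with a basis
`e_1, ..., e_s` (real numbers), `w = Σ_j q_wj e_j` with rational `q_wj`.  Choose `ε > 0` with `ε Σ_j |q_wj| < w` for all `w ∈ W` and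
rationals `e_j - ε < f_j^- < e_j < f_j^+ < e_j + ε`.  The index set is the set of all sign vectors `σ : Fin s → Bool` (transfer to
`Fin l`, `l = 2^s`, by `Fintype.equivFin`).  `a_σ = ∏_j t_j^(σ_j)` with `t_j^+ = (e_j - f_j^-) / (f_j^+ - f_j^-)`, `t_j^- = 1 - t_j^+`
(all positive); `Σ_σ a_σ = ∏_j (t_j^+ + t_j^-) = 1` (`Finset.prod_add`, `Fintype.sum_pow`, `Finset.prod_univ_sum`).
`Φ_σ : ℝ → ℚ` is `ℚ`-linear with `Φ_σ (e_j) = f_j^(σ_j)` (define it on `V` by the basis and extend it,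
`LinearMap.exists_extend`).  `Φ_σ w = Σ_j q_wj f_j^(σ_j) > w - ε Σ_j |q_wj| > 0`, and
`Σ_σ a_σ Φ_σ w = Σ_j q_wj Σ_σ a_σ f_j^(σ_j) = Σ_j q_wj (t_j^+ f_j^+ + t_j^- f_j^-) = Σ_j q_wj e_j = w`.
(Alternative: induction on `s`, one coordinate after the other.) -/
def StRat : Prop := ∀ W : Finset ℝ, (∀ w ∈ W, 0 < w) →
  ∃ (l : ℕ) (a : Fin l → ℝ) (Φ : Fin l → ℝ →ₗ[ℚ] ℚ), (∀ i, 0 < a i) ∧ ∑ i, a i = 1 ∧
    ∀ w ∈ W, (∀ i, 0 < Φ i w) ∧ w = ∑ i, a i * ((Φ i w : ℚ) : ℝ)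

/-- **Ba1** (EASY-MEDIUM; reduction to a basic decomposition; any ordered field `𝕜`).  Among all `l'` with `Feas S d l'`, support
contained in that of `l` and `Σ l' c ≤ Σ l c` choose one with the least number of elements in the support (well-founded; `l` itself
is a candidate).  If it is not basic, there is `μ ≠ 0` supported on the support of `l'` with
`Σ_b μ b inc(b, i) = 0` for all `i`.  Summing over `i`: `(n+1) Σ_b μ b = 0`, so `μ` has positive and negative values.  Replacing `μ`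
by `-μ` we may assume `Σ μ c ≤ 0`.  Let `t = min {l' b / (-μ b) : μ b < 0} > 0` and `l'' = l' + t μ`: `l'' ≥ 0`,
`Σ l'' inc = d`, `Σ l'' c ≤ Σ l' c`, support contained in that of `l'` and smaller (the minimizing `b`): contradiction. -/
def StBa1 : Prop := ∀ (𝕜 : Type) [Field 𝕜] [LinearOrder 𝕜] [IsStrictOrderedRing 𝕜] (n N : ℕ) (S : Set (Fin (n + 1) → Fin N))
  (d : Fin N → 𝕜) (l : (Fin (n + 1) → Fin N) → 𝕜) (c : (Fin (n + 1) → Fin N) → ℤ), Feas S d l →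
  ∃ l', Feas S d l' ∧ Basic l' ∧ (∀ b, l b = 0 → l' b = 0) ∧ ∑ b, l' b * (c b : 𝕜) ≤ ∑ b, l b * (c b : 𝕜)

/-- **Ba2** (EASY).  The map `l ↦ {b | l b ≠ 0}` from this set to the finite set of all subsets of `β` is injective: if `l`, `l'` are
basic decompositions of the same `d` with the same support, then `μ = l - l'` is supported there and `Σ μ b inc(b,i) = 0`, so
`μ = 0`.  (`Set.Finite.of_injOn` / `Set.Finite.of_finite_image`.) -/
def StBa2 : Prop := ∀ (𝕜 : Type) [Field 𝕜] [LinearOrder 𝕜] [IsStrictOrderedRing 𝕜] (n N : ℕ) (d : Fin N → 𝕜),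
  {l : (Fin (n + 1) → Fin N) → 𝕜 | ∃ S, Feas S d l ∧ Basic l}.Finite

/-- **Lpd** (MEDIUM; linear programming duality with rational optimum; USES `StFar`, `StRat`, `StBa1`, `StBa2`).  Write
`A_b z = Σ_j z (b j) = Σ_i inc(b,i) z_i`.  Call `(q, Y)` feasible if `0 < q` and `A_b Y ≤ q c_b` for `b ∈ S`.
(1) There is `l` with `Feas S d l`.  By `StFar` (rows `b ∈ S`, e.g. `β` = the subtype, or use the zero row for `b ∉ S`) it suffices:
if `z` real, `A_b z ≤ 0` for `b ∈ S`, then `Σ d_i z_i ≤ 0`.  Suppose `Σ d_i z_i > 0`.  Subtract a small `η > 0` from all coordinates: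
`A_b z < 0` for `b ∈ S`, still `Σ d_i z_i > 0`; approximate by rational `z` and clear denominators: integers `z_i` with `A_b z ≤ -1`
(`b ∈ S`), `Σ d_i z_i > 0`.  For all natural `t ≥ max |c_b|` the pair `(1, t z)` is feasible and `t Σ d_i z_i ≤ T` for all
large `t`: contradiction.
(2) By `StBa1`, `StBa2` there is `l` with `Feas S d l` (basic) for which `T' = Σ l c` is least among ALL decompositions
(minimum over the finite nonempty set of basic ones).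
(3) There is a REAL `y` with `A_b y ≤ c_b` (`b ∈ S`) and `Σ d_i y_i ≥ T'`.  Otherwise consider on `ℝ^N × ℝ` the rows
`(z, t) ↦ A_b z - c_b t` (`b ∈ S`) and `(z, t) ↦ -Σ d_i z_i + T' t`, and `γ (z, t) = t`: if all rows are `≤ 0` then `t ≤ 0`
(else `y = z / t`).  By `StFar` there are `μ_b, s ≥ 0` with `Σ μ_b inc(b, i) = s d_i` and `- Σ μ_b c_b + s T' = 1`.  If
`s > 0`, `μ / s` is a decomposition of `d` with `Σ (μ/s) c < T'`; if `s = 0` then `Σ_b μ_b inc(b,i) = 0`, summing over `i`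
gives `(n+1) Σ μ_b = 0`, `μ = 0` and `0 = 1`.
(4) `T' = Σ l_b c_b ≥ Σ l_b A_b y = Σ d_i y_i ≥ T'`, so `A_b y = c_b` whenever `l_b > 0`.
(5) Apply `StRat` to `W` = `{1}`, all `|y_i|` that are not `0` and all `c_b - A_b y > 0`, `b ∈ S`; let `Φ` be one of the `Φ_i` (there
is one since `Σ a_i = 1`).  `y'_i = Φ(y_i) / Φ(1)`: rational, `c_b - A_b y' = Φ (c_b - A_b y) / Φ(1) ≥ 0`, with equality if
`l_b > 0` (`Φ` is `ℚ`-linear, `c_b` an integer).  `q` = common denominator of the `y'_i`, `Y = q y'`: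
`q Σ l_b c_b = Σ l_b A_b Y = Σ d_i Y_i`. -/
def StLpd : Prop := ∀ (n N : ℕ) (S : Set (Fin (n + 1) → Fin N)) (c : (Fin (n + 1) → Fin N) → ℤ) (d : Fin N → ℝ) (T : ℝ),
  (∀ (q : ℕ) (Y : Fin N → ℤ), 0 < q → (∀ b ∈ S, ∑ j, Y (b j) ≤ q * c b) → ∑ i, d i * (Y i : ℝ) ≤ q * T) →
  ∃ l, Feas S d l ∧ ∃ (q : ℕ) (Y : Fin N → ℤ), 0 < q ∧ (∀ b ∈ S, ∑ j, Y (b j) ≤ q * c b) ∧
    (q : ℝ) * ∑ b, l b * (c b : ℝ) = ∑ i, d i * (Y i : ℝ)

/-- the conclusion of `StPb` for the numbers `a`, `m` and the finite sets `G i` -/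
def PbC {n N : ℕ} (d : Fin N → ℝ) (m : ℕ) {l : ℕ} (a : Fin l → ℝ) (G : Fin l → Finset ((Fin (n + 1) → Fin N) → ℕ)) : Prop :=
  ∀ S : Set (Fin (n + 1) → Fin N), (∃ l₀, Feas S d l₀) →
    (∀ i, ∃ κ ∈ G i, ∀ b, b ∉ S → κ b = 0) ∧
    ∀ (c : (Fin (n + 1) → Fin N) → ℤ) (t : ℝ), IsLeast (vals S d c) t → ∀ τ : Fin l → ℤ,
      (∀ i, IsLeast {s : ℤ | ∃ κ ∈ G i, (∀ b, b ∉ S → κ b = 0) ∧ s = ∑ b, (κ b : ℤ) * c b} (τ i)) →
      (m : ℝ) * t = ∑ i, a i * (τ i : ℝ)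

/-- **Pb** (MEDIUM; the value function is a convex combination of value functions at rational points; USES `StRat`, `StBa1`,
`StBa2`).  `Λ` = the finite set of basic real decompositions of `d` (`StBa2`, `𝕜 = ℝ`).  Apply `StRat` to `W` = all `d_i` and all
positive `λ_b`, `λ ∈ Λ`: `a`, `Φ`.  `u_ρ = Φ_ρ ∘ d` (rational vectors); `Q_ρ` = the finite set of basic RATIONAL decompositions of `u_ρ`
(`StBa2`, `𝕜 = ℚ`).  `m₀` = a common denominator of all entries of all `λ ∈ Q_ρ`, all `ρ`.  If `m₀ ∣ m`, `0 < m`: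
`G_ρ = {m λ : λ ∈ Q_ρ}` (as functions to `ℕ`).  Let `S` be given with a decomposition.
(i) If `λ ∈ Λ` is supported in `S` (one exists by `StBa1`) then `Φ_ρ ∘ λ` is a rational decomposition of `u_ρ` supported in `S`
(`Φ_ρ` is `ℚ`-linear and positive on the positive `λ_b`); by `StBa1` over `ℚ` there is `λ' ∈ Q_ρ` supported in `S` with
`Σ λ' c ≤ Σ (Φ_ρ ∘ λ) c`.  This gives the first claim and, with `c`, `τ` as in the second, `τ_ρ ≤ m Σ_b Φ_ρ(λ_b) c_b`.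
(ii) `t` is attained by some `λ ∈ Λ` (`StBa1`: an optimal one can be replaced by a basic one).  `λ_b = Σ_ρ a_ρ Φ_ρ(λ_b)` for all `b`
(`StRat`; also if `λ_b = 0`), so `m t = Σ_ρ a_ρ m Σ_b Φ_ρ(λ_b) c_b ≥ Σ a_ρ τ_ρ`.
(iii) Let `κ^ρ ∈ G_ρ` attain `τ_ρ`, `κ^ρ = m λ^ρ`.  `Σ_ρ a_ρ λ^ρ` is a decomposition of `Σ_ρ a_ρ u_ρ = d` supported in `S`, so
`t ≤ Σ_ρ a_ρ Σ_b λ^ρ_b c_b = (1/m) Σ a_ρ τ_ρ`. -/
def StPb : Prop := ∀ (n N : ℕ) (d : Fin N → ℝ), (∀ i, 0 < d i) → ∃ (l : ℕ) (a : Fin l → ℝ) (m₀ : ℕ),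
  (∀ i, 0 < a i) ∧ ∑ i, a i = 1 ∧ 0 < m₀ ∧ ∀ m : ℕ, 0 < m → m₀ ∣ m →
    ∃ G : Fin l → Finset ((Fin (n + 1) → Fin N) → ℕ), PbC d m a G

/-- **Fid** (EASY-MEDIUM).  If `I` is empty or no such `d` exists, easy.  (1) `I` has a least element `δ₀ > 0` if it is not empty
(otherwise choose a strictly decreasing sequence; or `DCC I` gives `Set.IsWF I`); `N δ₀ ≤ Σ d_i = n + 1`, so
`N ≤ N₀ = ⌈(n+1)/δ₀⌉`.  (2) Fixed `N`: `I` is partially well ordered (`DCC` for a linear order: `Set.isPWO_iff_isWF`,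
`Set.isWF_iff_no_descending_seq`), so the set of all `d` with values in `I` is partially well ordered (`Set.PartiallyWellOrderedOn`,
`Set.IsPWO.pi` or `Pi.isPWO`, Dickson).  If the set in question were infinite there would be an injective sequence `d^(1), d^(2), ..`
in it with a monotone subsequence (coordinatewise); all sums are `n+1`, so `d^(1) ≤ d^(2)` with equal sums gives
`d^(1) = d^(2)`: contradiction. -/
def StFid : Prop := ∀ (n : ℕ) (I : Set ℝ), I ⊆ Set.Ioc 0 1 → DCC I →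
  (∃ N₀ : ℕ, ∀ (N : ℕ) (d : Fin N → ℝ), (∀ i, d i ∈ I) → ∑ i, d i = n + 1 → N ≤ N₀) ∧
  ∀ N : ℕ, {d : Fin N → ℝ | (∀ i, d i ∈ I) ∧ ∑ i, d i = n + 1}.Finite

/-- **Dlt** (EASY).  Finite union over `l ∈ Λ`.  For fixed `l` only the `b` with `l b > 0` matter, and for them
`l b * κ b ≤ t ≤ 1`, so `κ b ≤ 1 / l b`; replace `κ` by `0` where `l b = 0`: finitely many `κ`. -/
def StDlt : Prop := ∀ (β : Type) [Fintype β] (Λ : Set (β → ℝ)), Λ.Finite → (∀ l ∈ Λ, ∀ b, 0 ≤ l b) →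
  {t : ℝ | t ≤ 1 ∧ ∃ l ∈ Λ, ∃ κ : β → ℕ, t = ∑ b, l b * (κ b : ℝ)}.Finite

/-- the coefficients of the discriminant -/
def JJ (I E : Set ℝ) : Set ℝ := {t | 0 < t ∧ ∃ δ ∈ insert 0 I, ∃ Δ ∈ E, ∃ μ : ℕ, 0 < μ ∧ 0 ≤ Δ ∧ δ + Δ ≤ 1 ∧
  t = 1 - (1 - δ - Δ) / μ}

/-- **Dcj** (EASY-MEDIUM).  `t ≤ 1` because `1 - δ - Δ ≥ 0`.  DCC: let `t_j` be a strictly decreasing sequence in `JJ I E` with
`δ_j, Δ_j, μ_j`.  Pass to subsequences: `Δ_j` constant (`E` finite), `δ_j` monotone (nondecreasing; `insert 0 I` is DCC: Ramsey or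
`Set.IsPWO.exists_monotone_subseq`), `μ_j` nondecreasing (natural numbers).  Then
`(1 - δ_j - Δ_j) / μ_j` is nonincreasing, so `t_j` is nondecreasing: contradiction.  (The set of triples
`(δ, Δ, μ)` is partially well ordered and `t` is monotone in each of the variables.) -/
def StDcj : Prop := ∀ I E : Set ℝ, I ⊆ Set.Ioc 0 1 → DCC I → E.Finite → DCC (JJ I E) ∧ JJ I E ⊆ Set.Ioc 0 1

/-- **Cst** (MEDIUM; all constants; USES `StBa2`, `StPb`, `StFid`, `StDlt`, `StDcj`).  By `StFid` there are only finitely many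
pairs `(N, d)`.  `E` = the union over these pairs of the sets of `StDlt` for `β = Fin (n+1) → Fin N` and
`Λ` = the basic real decompositions of `d` (finite by `StBa2`); `E` is finite.  `J = JJ I E` (`StDcj`).  First claim: put
`Δ = Σ l b κ b ≥ 0`, `Δ ≤ 1 - δ ≤ 1`, so `Δ ∈ E`; `t = 1 - (1 - δ - Δ)/μ ≥ 0` because `0 ≤ 1 - δ - Δ ≤ 1 ≤ μ`; so `t = 0` or
`t ∈ J`.  Second claim: `StPb` for every pair (`d_i > 0`) gives `l, a, m₀`; `Γ` = the set of all the numbers `a i` (each is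
positive and `≤ 1` since the sum is `1`), `m` = the product of all `m₀`.  If there is no pair at all: `J = JJ I ∅`, `Γ = ∅`,
`m = 1`. -/
def StCst : Prop := ∀ (n : ℕ) (I : Set ℝ), I ⊆ Set.Ioc 0 1 → DCC I →
  ∃ (J Γ : Set ℝ) (m : ℕ), J ⊆ Set.Ioc 0 1 ∧ DCC J ∧ Γ ⊆ Set.Ioc 0 1 ∧ Γ.Finite ∧ 1 ≤ m ∧
    ∀ (N : ℕ) (d : Fin N → ℝ), (∀ i, d i ∈ I) → ∑ i, d i = n + 1 →
      (∀ (S : Set (Fin (n + 1) → Fin N)) (l : (Fin (n + 1) → Fin N) → ℝ) (κ : (Fin (n + 1) → Fin N) → ℕ) (δ : ℝ) (μ : ℕ),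
        Feas S d l → Basic l → (δ = 0 ∨ δ ∈ I) → 0 < μ → δ + ∑ b, l b * (κ b : ℝ) ≤ 1 →
        (1 - (1 - δ - ∑ b, l b * (κ b : ℝ)) / μ = 0 ∨ 1 - (1 - δ - ∑ b, l b * (κ b : ℝ)) / μ ∈ J)) ∧
      ∃ (l : ℕ) (a : Fin l → ℝ) (G : Fin l → Finset ((Fin (n + 1) → Fin N) → ℕ)),
        (∀ i, a i ∈ Γ) ∧ ∑ i, a i = 1 ∧ PbC d m a G

end Pool.Agent.Work.MP_a2680c_ag.HA
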