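import Pool.Agent.Work.MP_a2680c_ag.HA.StmtsA

/-!
# MP_a2680c_ag, block HA, part B: derivations and valuations of function fields

An item `NAME` is a theorem `pr_NAME : StNAME.{u}` (hypotheses: the statements named in the docstring, in that order, e.g.
`theorem pr_Lbs (hBAS : NgBAS.{u, u}) : StLbs.{u}`) in the file `HA/I_NAME.lean`, namespace
`Pool.Agent.Work.MP_a2680c_ag.HA`, auxiliary lemmas in the namespace `Pool.Agent.Work.MP_a2680c_ag.HA.XNAME`.
Import this file only; nobody waits for another item.  The statements `NgXXX`, `MgXXX`, `StXXX` of the library MP_7b66e6_ag are in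
`MP_7b66e6_ag/N/Stmts.lean`, `M/Stmts.lean`, `K/Stmts.lean` (namespaces `MP7b66e6.Q`, open here); they may be used as hypotheses
where named, `.{u, u}`.
`val ν f` is the integer value (`f ≠ 0`; `ν f = (val ν f : WithTop ℤ)`), `val ν 0 = 0`.  `LogGe ν E 0` means `ν f ≤ ν (E f)`.
`LogDisc k ν x A`: `A` is the least value of `det (δ_i x_j)` over all tuples of logarithmic derivations.
-/

set_option autoImplicit false

noncomputable section

namespace Pool.Agent.Work.MP_a2680c_ag.HA

open MP7b66e6 MP7b66e6.Q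
open scoped BigOperators

universe u

/-- the derivations `pd` are dual to `x`, and a derivation is determined by its values at `x` -/
def Dual {k K : Type u} [Field k] [Field K] [Algebra k K] {d : ℕ} (x : Fin d → K) (pd : Fin d → Derivation k K K) : Prop :=
  (∀ i j, pd i (x j) = if i = j then 1 else 0) ∧ ∀ E : Derivation k K K, (∀ j, E (x j) = 0) → E = 0

/-- `F = K(z)`, a field of rational functions -/
def GenBy (K : Type u) {F : Type u} [Field K] [Field F] [Algebra K F] {n : ℕ} (z : Fin n → F) : Prop :=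
  AlgebraicIndependent K z ∧ IntermediateField.adjoin K (Set.range z) = ⊤

/-- the coordinates `z_j = l_(b (j+1)) / l_(b 0)` of the basis `b` -/
def zz {K F : Type u} [Field K] [Field F] [Algebra K F] {n N : ℕ} (y : Fin n → F) (a : Fin N → Fin (n + 1) → K)
    (b : Fin (n + 1) → Fin N) (j : Fin n) : F := lin y (a (b j.succ)) / lin y (a (b 0))

/-- `g W` is the monomial valuation with the weights `q v` on `K` and `w j` on `z j` -/
def MonV {K F : Type u} [Field K] [Field F] [Algebra K F] {n : ℕ} (z : Fin n → F) (v : AddValuation K (WithTop ℤ)) (q : ℕ)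
    (w : Fin n → ℤ) (W : AddValuation F (WithTop ℤ)) (g : ℕ) : Prop :=
  ∀ P : MvPolynomial (Fin n) K, P ≠ 0 →
    (∀ s ∈ P.support, (g : ℤ) * val W (MvPolynomial.aeval z P) ≤ q * val v (P.coeff s) + ∑ j, w j * (s j : ℤ)) ∧
    ∃ s ∈ P.support, (g : ℤ) * val W (MvPolynomial.aeval z P) = q * val v (P.coeff s) + ∑ j, w j * (s j : ℤ)

/-- **Can** (EASY; USES `NgLDX.{u,u}`).  (1) two numbers with the property `LogDisc` are equal (each is attained and a lower bound),
so `Classical.epsilon` gives `A` (`Classical.epsilon_spec`).  (2) `NgLDX` needs a tuple with `det ≠ 0`: the dual tuple has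
determinant `1`. -/
def StCan : Prop := ∀ (k K : Type u) [Field k] [Field K] [Algebra k K] (d : ℕ) (x : Fin d → K) (ν : AddValuation K (WithTop ℤ)),
  (∀ A : ℤ, LogDisc k ν x A → can k x ν = (A : ℝ) - 1) ∧
  ∀ pd : Fin d → Derivation k K K, Dual x pd → Divisorial k ν → ∃ A : ℤ, LogDisc k ν x A

/-- **Tb** (EASY-MEDIUM; may use `StDEX.{u,u,u}` of `K/Stmts` as hypothesis: write `theorem pr_Tb (hDEX : StDEX.{u,u,u})`).
`L = IntermediateField.adjoin k (range r)` is the field of rational functions (`r` algebraically independent); `∂/∂r_i` exists on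
`MvPolynomial (Fin e) k` (`MvPolynomial.pderiv`), extends to its fraction field `L` (quotient rule, `Derivation.liftOfSurjective`
is of no use; build it as in `MP_7b66e6_ag/G/I_DER.lean` with dual numbers, or by `Derivation` on `FractionRing`), and to the
finite extension `K` of `L` (finite: algebraic and essentially of finite type) by `StDEX` (used with base field `k`, fields `L`, `K`).
Uniqueness: a derivation of `K` that vanishes on `r` vanishes on `k(r)` and on the algebraic extension `K`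
(`0 = E (P(f)) = P'(f) E f` for the minimal polynomial `P` of `f`; lemma `killAlg` in `MP_7b66e6_ag/N/I_TRD.lean`).  The
transcendence degree is the cardinality of the basis. -/
def StTb : Prop := ∀ (k K : Type u) [Field k] [CharZero k] [Field K] [Algebra k K] [Algebra.EssFiniteType k K] (e : ℕ)
  (r : Fin e → K), IsTranscendenceBasis k r → (∃ pd : Fin e → Derivation k K K, Dual r pd) ∧ Algebra.trdeg k K = (e : Cardinal)

/-- **Lif** (EASY-MEDIUM; no hypotheses).  `F` is the fraction field of `K[z] = MvPolynomial (Fin n) K` (`z` algebraically independent).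
(1) `D` acts on the coefficients of polynomials: a derivation `K[z] → K[z]` over `k`, extended to `F` by the quotient rule.
(2) `∂/∂z_i` likewise (over `K`, restrict scalars to `k`).  A convenient way for both: a `k`-derivation of `F` is the same as a
`k`-algebra map `F → F[ε]` (dual numbers `TrivSqZeroExt F F`) over the identity, and an injective-on-units map of `K[z]` extends to
the fraction field `F` (nonzero polynomials go to units); see `MP_7b66e6_ag/G/I_DER.lean`.  (3) `E` vanishes on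
`K[z]`, hence on quotients. -/
def StLif : Prop := ∀ (k K F : Type u) [Field k] [Field K] [Field F] [Algebra k K] [Algebra k F] [Algebra K F]
  [IsScalarTower k K F] (n : ℕ) (z : Fin n → F), GenBy K z →
  (∀ D : Derivation k K K, ∃ E : Derivation k F F, (∀ f : K, E (algebraMap K F f) = algebraMap K F (D f)) ∧ ∀ j, E (z j) = 0) ∧
  (∀ i, ∃ E : Derivation k F F, (∀ f : K, E (algebraMap K F f) = 0) ∧ ∀ j, E (z j) = if i = j then 1 else 0) ∧
  ∀ E : Derivation k F F, (∀ f : K, E (algebraMap K F f) = 0) → (∀ j, E (z j) = 0) → E = 0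

/-- **Cor** (EASY; USES `StLif`).  `pe` = the extensions of the `pd i` and the `∂/∂z_j` from `StLif`.  Duality on
`cor r z` (`Fin.addCases`).  Uniqueness: let `E` vanish at `cor r z`.  For `f ∈ K`: `f` is algebraic over
`k(r)` and `E` vanishes there, so `E f = 0` (minimal polynomial: `0 = E (P(f)) = P'(f) E f`, `P'(f) ≠ 0`, characteristic zero);
then `StLif` (3).  The chain rule is a consequence: `E = Σ_j E (cor r z j) • pe j` for every `E`. -/
def StCor : Prop := ∀ (k K F : Type u) [Field k] [CharZero k] [Field K] [Field F] [Algebra k K] [Algebra k F] [Algebra K F]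
  [IsScalarTower k K F] (e n : ℕ) (r : Fin e → K) (z : Fin n → F), IsTranscendenceBasis k r → GenBy K z →
  ∀ pd : Fin e → Derivation k K K, Dual r pd → ∃ pe : Fin (e + n) → Derivation k F F, Dual (cor r z) pe ∧
    (∀ i f, pe (Fin.castAdd n i) (algebraMap K F f) = algebraMap K F (pd i f)) ∧
    (∀ j (f : K), pe (Fin.natAdd e j) (algebraMap K F f) = 0)

/-- **Tfr** (EASY-MEDIUM).  `F` is the fraction field of `MvPolynomial (Fin n) K`, and the transcendence degree of `F/k` is
`e + n`: `cor r z` is a transcendence basis of `F` over `k` (`IsTranscendenceBasis.sumElim_comp` or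
`Algebra.trdeg_add_eq`).  Essentially of finite type: `K/k` is, and `F/K` is
(`Algebra.EssFiniteType.comp`, localization of a polynomial ring). -/
def StTfr : Prop := ∀ (k K F : Type u) [Field k] [Field K] [Field F] [Algebra k K] [Algebra k F] [Algebra K F]
  [IsScalarTower k K F] [Algebra.EssFiniteType k K] (e n : ℕ) (r : Fin e → K) (z : Fin n → F), IsTranscendenceBasis k r →
  GenBy K z → Algebra.EssFiniteType k F ∧ Algebra.trdeg k F = ((e + n : ℕ) : Cardinal) ∧ IsTranscendenceBasis k (cor r z)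

/-- **Lbs** (EASY; USES `NgBAS.{u,u}`).  Apply `NgBAS` with `c = A`.  Its hypothesis: let `f` be a tuple with
`det (pd_m f_j / f_j) ≠ 0` and let `δ` be the logarithmic tuple of `LogDisc` with `det (δ_i r_j)` of value `A`.  By the chain rule
`δ_i f = Σ_m δ_i(r_m) pd_m f` (both sides agree on `r`, `Dual`), so `det (δ_i f_j / f_j) = det (δ_i r_m) det (pd_m f_j / f_j)`; the
entries on the left have value `≥ 0`; so `0 ≤ A + val (det (pd f/f))`.  The result has `a ≤ A`, and `A ≤ a` by `LogDisc`. -/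
def StLbs : Prop := ∀ (k K : Type u) [Field k] [Field K] [Algebra k K] (e : ℕ) (r : Fin e → K) (pd : Fin e → Derivation k K K),
  Dual r pd → ∀ (v : AddValuation K (WithTop ℤ)) (A : ℤ), LogDisc k v r A →
  ∃ (f : Fin e → K) (δ : Fin e → Derivation k K K), (∀ j, f j ≠ 0) ∧ (∀ i j, δ i (f j) = if i = j then f j else 0) ∧
    (∀ i, LogGe v (δ i) 0) ∧ v (Matrix.det (fun i j => δ i (r j))) = (A : WithTop ℤ)

/-- **Jac** (MEDIUM; USES `StTb`, `StCor`).  First, `l_i := lin y (a i) ≠ 0` (`a i ≠ 0`, `1, y_1, ..., y_n` linearly independent over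
`K`).  For `E = E_i`: `E z_j / z_j = E l_(b(j+1)) / l_(b(j+1)) - E l_(b 0) / l_(b 0)`, and
`E (lin y α) = E(α_0) + Σ_l (E(α_(l+1)) y_l + α_(l+1) E(y_l))`, where for `α ∈ K`, `E α = Σ_m E(r_m) pd_m α` (chain rule from `StCor`
and `Dual`; the coefficients `pd_m α` do not depend on `i`).  So the matrix `(E_i r_m | E_i z_j / z_j)` is
`(E_i r_m | E_i y_l)` times a block matrix `[[1, *], [0, J]]` with
`J_lj = a_(b(j+1), l+1) / l_(b(j+1)) - a_(b 0, l+1) / l_(b 0)` (`l, j : Fin n`), hence the determinants are related by `det J`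
(`Matrix.det_fromBlocks_zero₂₁`, reindex `Fin (e+n)` with `finSumFinEquiv`).  `det J = ± mnr a b / ∏_(j : Fin (n+1)) l_(b j)`:
let `Q` be the `(n+1) × (n+1)` matrix `Q_lk = a_(b k, l) / l_(b k)`, `det Q = mnr a b / ∏ l_(b k)` (transpose, scaling of columns).
Add `y_l` times the row `l+1` (all `l`) to the row `0`: it becomes `1, 1, ..., 1`; subtract the column `0` from all other columns:
the row `0` becomes `1, 0, ..., 0` and the rest of the columns is `J`.  (Or: `Q = T Q'` ...; any proof.)  Sign `ε = ±1` as you like. -/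
def StJac : Prop := ∀ (k K F : Type u) [Field k] [CharZero k] [Field K] [Field F] [Algebra k K] [Algebra k F] [Algebra K F]
  [IsScalarTower k K F] [Algebra.EssFiniteType k K] (e n N : ℕ) (r : Fin e → K) (y : Fin n → F) (a : Fin N → Fin (n + 1) → K),
  IsTranscendenceBasis k r → GenBy K y → (∀ i, a i ≠ 0) → (∀ i, lin y (a i) ≠ 0) ∧
  ∀ b : Fin (n + 1) → Fin N, ∃ ε : F, (ε = 1 ∨ ε = -1) ∧ ∀ E : Fin (e + n) → Derivation k F F,
    (∏ j, lin y (a (b j))) * Matrix.det (fun i => Fin.append (fun j => E i (algebraMap K F (r j)))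
      (fun j => E i (zz y a b j) / zz y a b j)) =
    ε * algebraMap K F (mnr a b) * Matrix.det (fun i j => E i (cor r y j))

/-- **Ine** (EASY-MEDIUM; inequality (I); USES `StTb`, `StCor`, `StLbs`, `StJac`).  Let `δ` be the `W`-logarithmic tuple of length
`e + n` with `det (δ_i (cor r y j))` of value `A'`, and `f`, `Θ` the dual logarithmic basis on `K` from `StLbs` (value `A`).  For
`α ∈ K`: `δ_i α = Σ_l (δ_i f_l / f_l) Θ_l α` (chain rule: both sides are `k`-derivations `K → F` and
`δ_i α = Σ_m δ_i(r_m) pd_m α`, `Θ_l α = Σ_m Θ_l(r_m) pd_m α`; apply the first formula to `f_l`: the matrix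
`(Θ_l r_m)` is inverse to `(pd_m f_l / f_l)`).  So `(δ_i r_m | δ_i z_j / z_j) = (δ_i f_l / f_l | δ_i z_j / z_j) [[Θ_l r_m, 0], [0, 1]]`
with `z = zz y a b`; the first factor on the right has entries of `W`-value `≥ 0`; `det (Θ_l r_m)` has `W`-value
`m A` (`Lies`).  So `W (det (δ_i r_m | δ_i z_j/z_j)) ≥ m A`, and `StJac` gives
`Σ_j val W (l_(b j)) + (≥ m A) = m val v (mnr a b) + A'` (`mnr a b ≠ 0`, and `val W` of `algebraMap (mnr a b)` is
`m val v (mnr a b)`), if the determinants are not `0` (they are not: `A'` is a number). -/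
def StIne : Prop := ∀ (k K F : Type u) [Field k] [CharZero k] [Field K] [Field F] [Algebra k K] [Algebra k F] [Algebra K F]
  [IsScalarTower k K F] [Algebra.EssFiniteType k K] (e n N : ℕ) (r : Fin e → K) (y : Fin n → F) (a : Fin N → Fin (n + 1) → K),
  IsTranscendenceBasis k r → GenBy K y → (∀ i, a i ≠ 0) →
  ∀ (v : AddValuation K (WithTop ℤ)) (W : AddValuation F (WithTop ℤ)) (m : ℕ), Lies v W m →
  ∀ A A' : ℤ, LogDisc k v r A → LogDisc k W (cor r y) A' → ∀ b ∈ bas a,
    (m : ℤ) * A - m * val v (mnr a b) + ∑ j, val W (lin y (a (b j))) ≤ A'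

/-- **Mnv** (MEDIUM; monomial valuations; compare `MP_7b66e6_ag/I_MON.lean`).  For `0 ≠ P ∈ K[z]` let
`m(P) = min over s ∈ supp P of q val v (coeff) + Σ w_j s_j` (integer).  `m(P + Q) ≥ min`.  `m(P Q) = m(P) + m(Q)`: `≥` is clear; for
`=` let `s`, `t` be the largest exponents, in a monomial order (e.g. lexicographic), among those of `P`, `Q` where the minimum
is attained; the coefficient of `s + t` in `P Q` is `p_s q_t` plus products `p_s' q_t'`, `s' + t' = s + t`, `(s', t') ≠ (s, t)`, for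
which `s' > s` or `t' > t`, so their value (weight included) is strictly larger.  Extend to the fraction field `F` of
`K[z]`: `m(P/Q) = m(P) - m(Q)` (see `MP_7b66e6_ag/I_MON.lean`, `Valuation.extendToLocalization`, or construct the
`AddValuation` by hand with `AddValuation.of`).  `m(π) = q > 0` for `v π = 1`, so the set of values is `g ℤ`, `g > 0`; divide by `g`
(`MgNOR.{u}` of `M/Stmts.lean` may be used: write `theorem pr_Mnv (hNOR : MgNOR.{u})`). -/
def StMnv : Prop := ∀ (K F : Type u) [Field K] [Field F] [Algebra K F] (n : ℕ) (z : Fin n → F), GenBy K z →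
  ∀ v : AddValuation K (WithTop ℤ), (∃ π : K, v π = 1) → ∀ (q : ℕ) (w : Fin n → ℤ), 0 < q →
  ∃ (W : AddValuation F (WithTop ℤ)) (g : ℕ), 0 < g ∧ (∃ π : F, W π = 1) ∧ MonV z v q w W g

/-- **Mlg** (EASY-MEDIUM).  For a polynomial `P(z)`, `E (P(z))` is `P^D(z)` (coefficients `D c`, `v (D c) ≥ v c`), resp.
`(z_i ∂P/∂z_i)(z)` (coefficients `s_i c`), so by `MonV` `g W (E (P(z))) ≥ g W (P(z))`.  Every `f ∈ F` is
`P(z)/Q(z)`, `E f = (E P) / Q - f (E Q) / Q`. -/
def StMlg : Prop := ∀ (k K F : Type u) [Field k] [Field K] [Field F] [Algebra k K] [Algebra k F] [Algebra K F]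
  [IsScalarTower k K F] (n : ℕ) (z : Fin n → F), GenBy K z → ∀ (v : AddValuation K (WithTop ℤ)) (q : ℕ) (w : Fin n → ℤ)
  (W : AddValuation F (WithTop ℤ)) (g : ℕ), 0 < g → MonV z v q w W g → ∀ E : Derivation k F F,
  ((∃ D : Derivation k K K, LogGe v D 0 ∧ (∀ f : K, E (algebraMap K F f) = algebraMap K F (D f)) ∧ ∀ j, E (z j) = 0) ∨
    ∃ i, (∀ f : K, E (algebraMap K F f) = 0) ∧ ∀ j, E (z j) = if i = j then z j else 0) → LogGe W E 0

/-- **Mdv** (EASY-MEDIUM; USES `NgDVL.{u,u}`, `StTb`, `StLif`, `StTfr`, `StLbs`, `StMlg`).  `f`, `Θ` = the dual logarithmic basis of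
`StLbs` on `K`.  `E` = the extensions of the `Θ_i` with `E z = 0`, and `z_j ∂/∂z_j` (`StLif`); all are `W`-logarithmic (`StMlg`), and
dual to the tuple `(f, z)` in the sense `E_i t_j = δ_ij t_j`.  So `W` is divisorial by `NgDVL` (`trdeg = e + n`, `StTfr`; `W` is `0` on
`k^*` because `v` is, by `MonV` for constants and `Divisorial k v`).  `Lies`: `MonV` for constants:
`g val W (c) = q val v c`; with `v π = 1`, `g ∣ q`, `m = q/g > 0`.  The determinant is that of
`[[Θ_i r_j, 0], [0, 1]]` (block triangular: `E_i (z_j) / z_j = 0` for `i ≤ e`, `E_i (r_j) = 0` for the others), i.e.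
`algebraMap (det (Θ_i r_j))`, and `g val W` of it is `q A`. -/
def StMdv : Prop := ∀ (k K F : Type u) [Field k] [CharZero k] [Field K] [Field F] [Algebra k K] [Algebra k F] [Algebra K F]
  [IsScalarTower k K F] [Algebra.EssFiniteType k K] (e n : ℕ) (r : Fin e → K) (z : Fin n → F), IsTranscendenceBasis k r →
  GenBy K z → ∀ (v : AddValuation K (WithTop ℤ)) (q : ℕ) (w : Fin n → ℤ) (W : AddValuation F (WithTop ℤ)) (g : ℕ),
  Divisorial k v → 0 < q → 0 < g → (∃ π : F, W π = 1) → MonV z v q w W g → ∀ A : ℤ, LogDisc k v r A →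
  Divisorial k W ∧ (∃ m : ℕ, g * m = q ∧ Lies v W m) ∧
  ∃ E : Fin (e + n) → Derivation k F F, (∀ i, LogGe W (E i) 0) ∧
    Matrix.det (fun i => Fin.append (fun j => E i (algebraMap K F (r j))) (fun j => E i (z j) / z j)) ≠ 0 ∧
    (g : ℤ) * val W (Matrix.det (fun i => Fin.append (fun j => E i (algebraMap K F (r j))) (fun j => E i (z j) / z j))) = q * A

/-- **Crb** (MEDIUM; linear algebra of a basis `b`).  Cramer's rule: with `M_kj = a (b k) j` (invertible), `a i = Σ_k ε_k a (b k)`,
`ε_k = mnr a (Function.update b k i) / mnr a b` (`Matrix.cramer`, transpose), so `lin y (a i) = Σ_k ε_k l_(b k)` (`lin` is linear in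
the coefficients), where `l_(b k) = lin y (a (b k))`, and dividing by `l_(b 0)`: the first claim.
`GenBy K (zz y a b)`: the unit vectors are combinations of the rows `a (b k)`, so
`1 = Σ_k e_k l_(b k)`, `y_j = Σ_k e_jk l_(b k)`; dividing, `1 / l_(b 0)` and `y_j / l_(b 0)` are in
`K(zz y a b)`, hence `y_j` too, and the field generated is `F`.  Algebraic independence: `F/K` has transcendence degree `n` (basis
`y`), and `n` generators of it are algebraically independent (from a generating set one can choose a transcendence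
basis, it has `n` elements: `exists_isTranscendenceBasis_subset`... , `AlgebraicIndependent` / cardinality). -/
def StCrb : Prop := ∀ (K F : Type u) [Field K] [Field F] [Algebra K F] (n N : ℕ) (y : Fin n → F)
  (a : Fin N → Fin (n + 1) → K), GenBy K y → (∀ i, a i ≠ 0) → ∀ b ∈ bas a, GenBy K (zz y a b) ∧
  ∀ i, lin y (a i) / lin y (a (b 0)) = algebraMap K F (mnr a (Function.update b 0 i) / mnr a b) +
    ∑ j : Fin n, algebraMap K F (mnr a (Function.update b j.succ i) / mnr a b) * zz y a b j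

/-- **Twa** (MEDIUM; the valuation of inequality (II); USES `StJac`, `StMnv`, `StMdv`, `StCrb`).  Let `c_b = val v (mnr a b)`, and
let `b₀ ∈ bas a` minimize `q c_b - Σ_j Y (b j)` over the finite nonempty set `bas a`.  `z = zz y a b₀`, `w j = Y (b₀ (j+1)) - Y (b₀ 0)`,
`W`, `g` from `StMnv`; `Divisorial`, `Lies`, `E` from `StMdv`.  `c = g val W (l_(b₀ 0)) - Y (b₀ 0)`, `l_i = lin y (a i)` (`≠ 0`, `StJac`).
(i) `g val W (z_j) = w j` (`MonV` for `P = X_j`; `val v 1 = 0`), so `g val W (l_(b₀ k)) = c + Y (b₀ k)` for all `k : Fin (n+1)`.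
(ii) For every `i`: `l_i / l_(b₀ 0) = ε_0 + Σ_j ε_(j+1) z_j`, `ε_k = mnr a (update b₀ k i) / mnr a b₀` (`StCrb`); by `MonV` for this linear
polynomial (not `0`) there is `k` with `ε_k ≠ 0` and `g val W (l_i / l_(b₀ 0)) = q val v ε_k + (Y (b₀ k) - Y (b₀ 0))`.  As `b' = update b₀ k i ∈ bas a`,
minimality gives `q c_b' - Σ Y (b' j) ≥ q c_b₀ - Σ Y (b₀ j)`, i.e. `q val v ε_k ≥ Y i - Y (b₀ k)`.  So
`g val W (l_i) ≥ g val W (l_(b₀ 0)) + Y i - Y (b₀ 0) = c + Y i`.
(iii) For the tuple `E` of `StMdv` and `StJac`: with `Δ = det (E_i (cor r y j))` (not `0`),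
`Σ_k val W (l_(b₀ k)) + val W (det (E r | E z / z)) = val W (algebraMap (mnr a b₀)) + val W Δ`; `A' ≤ val W Δ` by `LogDisc`.
Multiply by `g`: `g A' ≤ Σ_k (c + Y (b₀ k)) + q A - q c_b₀ ≤ (n+1) c + q A` because `Σ_k Y (b₀ k) ≤ q c_b₀`. -/
def StTwa : Prop := ∀ (k K F : Type u) [Field k] [CharZero k] [Field K] [Field F] [Algebra k K] [Algebra k F] [Algebra K F]
  [IsScalarTower k K F] [Algebra.EssFiniteType k K] (e n N : ℕ) (r : Fin e → K) (y : Fin n → F) (a : Fin N → Fin (n + 1) → K),
  IsTranscendenceBasis k r → GenBy K y → (∀ i, a i ≠ 0) → (bas a).Nonempty →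
  ∀ v : AddValuation K (WithTop ℤ), Divisorial k v → ∀ (q : ℕ) (Y : Fin N → ℤ), 0 < q →
  (∀ b ∈ bas a, ∑ j, Y (b j) ≤ q * val v (mnr a b)) → ∀ A : ℤ, LogDisc k v r A →
  ∃ (W : AddValuation F (WithTop ℤ)) (m g : ℕ) (c : ℤ), Divisorial k W ∧ Lies v W m ∧ 0 < g ∧ g * m = q ∧
    (∀ i, c + Y i ≤ g * val W (lin y (a i))) ∧ ∀ A' : ℤ, LogDisc k W (cor r y) A' → (g : ℤ) * A' ≤ q * A + (n + 1) * c

/-- **Smo** (MEDIUM; regular coordinates have log discrepancy `1`).  `v π = 1` (`ν` here).
(α) `ν (pd_j π) = 0` for some `j`.  Otherwise `ν (pd_j π) ≥ 1` for all `j` (it is `≥ 0`), so `pd_j` maps `{ν ≥ 1}` to itself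
(`f = π u`).  Claim: `ν (P(x)) = 0` for all `0 ≠ P ∈ k[X_1..X_d]`: it is `≥ 0`; take `P` of least total degree with
`ν (P(x)) > 0`; `pd_j (P(x)) = (∂P/∂X_j)(x)` has value `≥ 1` for all `j`, so by minimality `∂P/∂X_j = 0` for all `j`, `P` is a nonzero
constant (characteristic zero) of value `0` (`Divisorial`: `ν ≥ 0` on `k`), contradiction.  `π` is algebraic over
`k(x)`: `Σ c_i π^i = 0` with `c_i` polynomials in `x`, `c_0 ≠ 0` (divide by a power of `π`): `ν (c_0) = 0` but the other terms have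
value `≥ 1`: contradiction.
(β) The tuple `δ_j = π pd_j`, `δ_i = pd_i - (pd_i π / pd_j π) pd_j` (`i ≠ j`) is logarithmic: it maps `{ν ≥ 0}` to itself and
`ν (δ π) ≥ 1`, so for `f = π^s u`, `δ f = s π^(s-1) u δ π + π^s δ u`.  Its determinant `det (δ_i x_l)` is `π`.
(γ) Let `δ` be a logarithmic tuple; the entries `δ_i x_l` have value `≥ 0`.  If the determinant had value `0`, then
`pd_j = Σ_i (inverse matrix) δ_i` with coefficients of value `≥ 0` (`δ_i = Σ_l δ_i(x_l) pd_l` by `Dual`), so
`ν (pd_j π) ≥ 1` for all `j`, contradiction to (α).  So the value is `≥ 1`. -/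
def StSmo : Prop := ∀ (k K : Type u) [Field k] [CharZero k] [Field K] [Algebra k K] (d : ℕ) (x : Fin d → K),
  IsTranscendenceBasis k x → ∀ pd : Fin d → Derivation k K K, Dual x pd → ∀ ν : AddValuation K (WithTop ℤ), Divisorial k ν →
  (∀ j, 0 ≤ ν (x j)) → (∀ j (f : K), 0 ≤ ν f → 0 ≤ ν (pd j f)) → LogDisc k ν x 1

/-- **Ord** (MEDIUM).  `F` is the fraction field of `K[y] = MvPolynomial (Fin n) K` (`y` algebraically independent, generating).
(1) `p` irreducible, hence prime (unique factorization); the multiplicity of `p` (`emultiplicity p`, additive for a prime in a domain,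
`≥ min` for sums) is an additive valuation on `K[y]`, extended to `F` by `P/Q ↦ m(P) - m(Q)`
(`multiplicity.addValuation` of Mathlib may help; construction of the extension as in `MP_7b66e6_ag/I_MON.lean` or
`N/I_PDV.lean`, `exists_ext`).  (2) minus the total degree is an additive valuation on polynomials
(`MvPolynomial.totalDegree_mul_of_isDomain`, `totalDegree_add`), extended in the same way. -/
def StOrd : Prop := ∀ (K F : Type u) [Field K] [Field F] [Algebra K F] (n : ℕ) (y : Fin n → F), GenBy K y →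
  (∀ p : MvPolynomial (Fin n) K, Irreducible p → ∃ ν : AddValuation F (WithTop ℤ), OrdP y p ν) ∧
  ∃ ν : AddValuation F (WithTop ℤ), OrdI K y ν

/-- **Fac** (MEDIUM; USES `StOrd`).  Each `φ ∈ supp Θ` (a unit of `F`, the fraction field of the factorial ring `K[y]`) is
`κ_φ ∏_(p ∈ 𝒫) p(y)^(e_φp)` with `κ_φ ∈ K^*`, `𝒫` a finite set of pairwise non-associated irreducible polynomials (the same for all
`φ`; normalized factors of numerators and denominators) and integers `e_φp`.  For every valuation `W` of `F`: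
`val W φ = val W κ_φ + Σ_p e_φp val W (p(y))`.  For `ν_p` with `OrdP y p ν_p` (`StOrd`): `ν_p` is `0` on `K^*` and on `p'(y)`,
`p' ∈ 𝒫`, `p' ≠ p`, and `1` on `p(y)`; so `0 = ev ν_p Θ = Σ_φ Θ(φ) e_φp`.  Hence `ev W Θ = Σ_φ Θ(φ) val W (κ_φ)`, and
`Ξ = Σ_φ Θ(φ) [κ_φ]` (`Finsupp.single`, sum over the support). -/
def StFac : Prop := ∀ (K F : Type u) [Field K] [Field F] [Algebra K F] (n : ℕ) (y : Fin n → F), GenBy K y →
  ∀ Θ : Fˣ →₀ ℝ, (∀ (p : MvPolynomial (Fin n) K) (ν : AddValuation F (WithTop ℤ)), OrdP y p ν → ev ν Θ = 0) →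
  ∃ Ξ : Kˣ →₀ ℝ, ∀ W : AddValuation F (WithTop ℤ), ev W Θ = ev W (push K F Ξ)

/-- **Hor** (MEDIUM; USES `StTb`, `StCor`, `StTfr`, `StSmo`).  (1) `OrdP y p ν`: `cor r y` is a transcendence basis (`StTfr`) with the
dual derivations `pe` of `StCor`.  `ν ≥ 0` on `K[y]`, `ν` is `0` on `K^*`; every `f` with `ν f ≥ 0` is `P(y)/Q(y)` with `p ∤ Q`
(cancel `p`), and `pe_i` maps `K[y]` to itself (coefficientwise resp. partial derivatives: check on generators), so
`ν (pe_i f) = ν ((Q pe_i P - P pe_i Q)/Q²) ≥ 0`; `StSmo`.  (2) `OrdI K y ν`, `1 ≤ n`: let `y'_0 = 1 / y_0`, `y'_j = y_j / y_0`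
(`j > 0`): `GenBy K y'`, `ν (y'_0) = 1`, `ν (y'_j) = 0`, and `OrdP y' X_0 ν` (a polynomial `g(y)` of degree `d` is `y'_0^(-d)` times
a polynomial in `y'` not divisible by `X_0`; conversely compare).  By (1), `LogDisc k ν (cor r y') 1`.  For every tuple `E` of
derivations `det (E_i (cor r y j)) = ± y_0^(n+1) det (E_i (cor r y' j))`: `E y_0 = - y_0^2 E y'_0`,
`E y_j = y_0 E y'_j + y'_j E y_0` (column operations).  Values: `val ν (y_0^(n+1)) = -(n+1)`.  So
`LogDisc k ν (cor r y) (1 - (n+1))`. -/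
def StHor : Prop := ∀ (k K F : Type u) [Field k] [CharZero k] [Field K] [Field F] [Algebra k K] [Algebra k F] [Algebra K F]
  [IsScalarTower k K F] [Algebra.EssFiniteType k K] (e n : ℕ) (r : Fin e → K) (y : Fin n → F), IsTranscendenceBasis k r →
  GenBy K y →
  (∀ (p : MvPolynomial (Fin n) K) (ν : AddValuation F (WithTop ℤ)), OrdP y p ν → Divisorial k ν → LogDisc k ν (cor r y) 1) ∧
  (1 ≤ n → ∀ ν : AddValuation F (WithTop ℤ), OrdI K y ν → Divisorial k ν → LogDisc k ν (cor r y) (-(n : ℤ)))

end Pool.Agent.Work.MP_a2680c_ag.HA
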