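import Pool.Agent.Work.MP_a2680c_ag.HA.Api

/-!
# MP_a2680c_ag, block HA, part C: varieties as sets of local rings

An item `NAME` is a theorem `pr_NAME : StNAME.{u}` (hypotheses: the statements named in the docstring, in that order, e.g.
`theorem pr_Eff (hREG : NgREG.{u, u}) (hTb : StTb.{u}) ... : StEff.{u}`) in the file `HA/I_NAME.lean`, namespace
`Pool.Agent.Work.MP_a2680c_ag.HA`, auxiliary lemmas in the namespace `Pool.Agent.Work.MP_a2680c_ag.HA.XNAME`.
Import this file only; nobody waits for another item.  `HA/Api.lean` (imported) contains PROVED lemmas: `Api.coe_val`,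
`Api.val_mul`, ..., `Api.ev_add`, `Api.ev_single`, `Api.ev_push_lies`, `Api.res` (restriction of a valuation to `K`), `Api.ev_res`,
`Api.can_eq`, `Api.ring ν h` (the valuation ring as a subalgebra), `Api.isVal_ring`, `Api.dom_ring_iff`.
For `w ≥ 0` on a `k`-subalgebra, `w = 0` on `k^*` (`Api.val_algebraMap`).
-/

set_option autoImplicit false

noncomputable section

namespace Pool.Agent.Work.MP_a2680c_ag.HA

open MP7b66e6 MP7b66e6.Q
open scoped BigOperators

universe u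

/-- **Loc** (EASY-MEDIUM; no hypotheses).  `P ∈ Z` is `IsLoc C p P` for a chart `C` and a prime `p` of `C` (so `C ≤ P`).
(1) For a prime `𝔭` of `P` let `p' = {c ∈ C : c ∈ 𝔭}`, a prime ideal of `C` contained in `p`; `R = {f : ∃ a s ∈ C, s ∉ p', f s = a}` is a
`k`-subalgebra (build it), `R ∈ Z`, and `IsLoc P 𝔭 R` (an element of `P` outside `𝔭` is `a/s` with `a, s ∈ C`, `s ∉ p`, `a ∉ p'`).
(2) `𝔭 = {f ∈ P : 0 < w f}` is a prime ideal of `P` (`w ≥ 0` on `P`, `w 1 = 0`); take `R` from (1): `R` is contained in `{w ≥ 0}`, and if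
`f = a/s ∈ R`, `w f = 0`, then `w a = 0`, `a ∉ 𝔭`, `f⁻¹ = s/a ∈ R`.  (3) `V = Api.ring w _`, `Api.isVal_ring`, `Api.dom_ring_iff` and
separatedness. -/
def StLoc : Prop := ∀ (k K : Type u) [Field k] [Field K] [Algebra k K] (Z : Set (Subalgebra k K)), Vty Z →
  (∀ P ∈ Z, ∀ p : Ideal P, p.IsPrime → ∃ R ∈ Z, P ≤ R ∧ IsLoc P p R) ∧
  (∀ P ∈ Z, ∀ w : AddValuation K (WithTop ℤ), (∀ f ∈ P, 0 ≤ w f) → ∃ R ∈ Z, P ≤ R ∧ Cen R w ∧
    ∃ p : Ideal P, p.IsPrime ∧ IsLoc P p R ∧ ∀ f : P, f ∈ p ↔ 0 < w (f : K)) ∧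
  ∀ R ∈ Z, ∀ S ∈ Z, ∀ w : AddValuation K (WithTop ℤ), Cen R w → Cen S w → R = S

/-- **Pdd** (EASY; no hypotheses).  Let `R ∈ Z` be the ring `{ν ≥ 0}`, `IsLoc C p R` with a chart `C`.  `Divisorial`: the algebra `C` is
finitely generated, `ν ≥ 0` on `C ⊆ R`; `f` with `ν f ≥ 0` is in `R`: `f s = a`, `s ∉ p`; `s⁻¹ ∈ R` (`IsLoc`: `s⁻¹ s = 1`), so `ν s = 0`.
`Cen R ν`: `ν f = 0` gives `ν f⁻¹ = 0`. -/
def StPdd : Prop := ∀ (k K : Type u) [Field k] [Field K] [Algebra k K] (Z : Set (Subalgebra k K)), Vty Z →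
  ∀ ν : AddValuation K (WithTop ℤ), PD Z ν → Divisorial k ν ∧ ∃ R ∈ Z, Cen R ν ∧ ∀ f : K, f ∈ R ↔ 0 ≤ ν f

/-- **Grm** (MEDIUM; USES `StLoc`, `StPdd`).  Let `C` be a chart with `IsLoc C p P`.  `K` is a localization of the finitely generated
`C`: essentially of finite type.  `Germ P d`: `P` is the localization of `C` at `p` (`IsLocalization.AtPrime`), so it is local,
integrally closed (`IsIntegrallyClosed.of_isLocalization` or similar), essentially of finite type, with fraction field `K`.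
`PrimeDiv P ν → PDat Z P ν`: let `𝔭 = {ν > 0}` be the prime of height one of `P`, `R ∈ Z` with `IsLoc P 𝔭 R` (`StLoc` (1)); `R` is a
Noetherian integrally closed local domain of dimension one, a discrete valuation ring (see `isDVR` in `MP_7b66e6_ag/N/I_PDV.lean`),
so `f ∈ R` or `f⁻¹ ∈ R` for all `f`; if `ν f ≥ 0` and `f ∉ R`, then `f⁻¹` is in the maximal ideal of `R`: `f⁻¹ = a/s`, `a ∈ 𝔭`, `s ∉ 𝔭`,
so `ν (f⁻¹) > 0`, contradiction.  So `R = {ν ≥ 0}` and `PD Z ν`.
`PDat Z P ν → PrimeDiv P ν`: `Divisorial` by `StPdd`.  `𝔭 = {f ∈ P : ν f > 0}`; by `StLoc` (2) there is `R ∈ Z` with `Cen R ν` and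
`IsLoc P 𝔭 R`; by `StLoc` (3) and `StPdd`, `R = {ν ≥ 0}`, a discrete valuation ring, the localization of `P` at `𝔭`.  So
`𝔭` has height one (height of a prime = Krull dimension of the localization, `IsLocalization.AtPrime`; or directly: `𝔭 ≠ 0`, and a
prime `0 ≠ 𝔮 < 𝔭` would give a prime of `R` strictly between `0` and the maximal ideal). -/
def StGrm : Prop := ∀ (k K : Type u) [Field k] [Field K] [Algebra k K] (Z : Set (Subalgebra k K)), Vty Z →
  Algebra.EssFiniteType k K ∧ ∀ P ∈ Z, ∀ d : ℕ, Algebra.trdeg k K = (d : Cardinal) → Germ P d ∧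
    ∀ ν : AddValuation K (WithTop ℤ), PrimeDiv P ν ↔ PDat Z P ν

/-- **Fsp** (MEDIUM; USES `StPdd`).  There are finitely many charts, so fix a chart `C` and consider the `ν` whose ring is
`IsLoc C p R`.  `s = a/b`, `a, b ∈ C` not `0`; `val ν s ≠ 0` implies that `a` or `b` is in `p` (elements of `C` outside `p` have value
`0`), so `a b ∈ p`.  `R = C_p` is a discrete valuation ring (not a field since `ν π = 1`), so there is no prime strictly between
`0` and `p`, and `p` is a minimal prime over `(a b)`: finitely many (`C` Noetherian, `Ideal.finite_minimalPrimes_of_isNoetherianRing`).  `ν` is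
determined by its ring `R`, hence by `p`: if `ν, ν'` have the same ring and take the value `1` then `ν = ν'` (`ν' = 0` iff both
`f, f⁻¹ ∈ R`; a uniformizer `π` of `ν` has `ν' π = t > 0`, every `f` is `π^j u` with `u` a unit, so `ν' f = t ν f`; `t = 1`). -/
def StFsp : Prop := ∀ (k K : Type u) [Field k] [Field K] [Algebra k K] (Z : Set (Subalgebra k K)), Vty Z →
  (∀ s : K, s ≠ 0 → {ν : AddValuation K (WithTop ℤ) | PD Z ν ∧ val ν s ≠ 0}.Finite) ∧
  ∀ ν ν' : AddValuation K (WithTop ℤ), (∃ π : K, ν π = 1) → (∃ π : K, ν' π = 1) → (∀ f : K, 0 ≤ ν f ↔ 0 ≤ ν' f) → ν = ν'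

/-- **Fsc** (EASY-MEDIUM; USES `StTb`, `StSmo`, `StPdd`, `StGrm`, `StFsp`).  `pd` dual to `r` (`StTb`; `EssFiniteType` from `StGrm`).  For
every chart `C` (finitely many) with generators `c_1, ..., c_t` let `0 ≠ h ∈ C` be a common denominator of all `pd_i c_j` and all
`r_i`: `h pd_i c_j ∈ C`, `h r_i ∈ C`.  Let `PD Z ν`, ring `R` with `IsLoc C p R`, `val ν h = 0`, so `h⁻¹ ∈ R`.  Then
`r_i ∈ R`, `pd_i c_j ∈ R`, so `pd_i` maps `C` to `R` (`Algebra.adjoin_induction`) and `R` to `R` (quotient rule), `StSmo` gives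
`LogDisc k ν r 1` and `can k r ν = 0` (`Api.can_eq`).  The `ν` with `val ν h ≠ 0` for one of the `h` are finitely many (`StFsp`). -/
def StFsc : Prop := ∀ (k K : Type u) [Field k] [CharZero k] [Field K] [Algebra k K] (Z : Set (Subalgebra k K)), Vty Z →
  ∀ (e : ℕ) (r : Fin e → K), IsTranscendenceBasis k r → {ν : AddValuation K (WithTop ℤ) | PD Z ν ∧ can k r ν ≠ 0}.Finite

/-- **Eff** (MEDIUM; effective `ℝ`-principal divisors; USES `NgREG.{u,u}`, `StRat`, `StTb`, `StGrm`, `StFsp`).  `P` is normal: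
by `NgREG` (`Germ P e`, `trdeg = e` by `StTb`; `PrimeDiv P ν ↔ PDat Z P ν` by `StGrm`) an `f ∈ K` with `0 ≤ ν f` for all `PDat Z P ν`
is in `P`.  Let `φ = Σ r_s [s]`.  There are finitely many `ν` with `PD Z ν` and `val ν s ≠ 0` for some `s ∈ supp φ` (`StFsp`).  Apply `StRat`
to `W` = all `|r_s|` (not `0`) and all positive values `ev ν φ` among these `ν`: `a_i, Φ_i`.  Fix `i`, `ρ_s = Φ_i (r_s)` (rational).  For
`PDat Z P ν`: `Σ_s ρ_s val ν s = Φ_i (ev ν φ) ≥ 0` (`Φ_i` is `ℚ`-linear, `ev ν φ` is `0` or in `W`).  With `q > 0` a common denominator,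
`f = ∏ s^(q ρ_s)` (integer exponents) has `ν f ≥ 0` for all `PDat Z P ν`, so `f ∈ P` and `w f ≥ 0`, i.e. `Σ_s ρ_s val w s ≥ 0`.  Finally
`ev w φ = Σ_s r_s val w s = Σ_i a_i Σ_s Φ_i (r_s) val w s ≥ 0`, since `r_s = Σ_i a_i Φ_i (r_s)` (also for negative `r_s`). -/
def StEff : Prop := ∀ (k K : Type u) [Field k] [CharZero k] [Field K] [Algebra k K] (Z : Set (Subalgebra k K)), Vty Z →
  ∀ (e : ℕ) (r : Fin e → K), IsTranscendenceBasis k r → ∀ P ∈ Z, ∀ φ : Kˣ →₀ ℝ,
  (∀ ν : AddValuation K (WithTop ℤ), PDat Z P ν → 0 ≤ ev ν φ) →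
  ∀ w : AddValuation K (WithTop ℤ), (∀ f ∈ P, 0 ≤ w f) → 0 ≤ ev w φ

/-- the multiplicity along `v` of the pull-back of the `ℝ`-Cartier divisor `L` of `Z` -/
def Lv {k K : Type u} [Field k] [Field K] [Algebra k K] (Z : Set (Subalgebra k K)) (L : AddValuation K (WithTop ℤ) → ℝ)
    (v : AddValuation K (WithTop ℤ)) : ℝ :=
  Classical.epsilon fun t : ℝ => ∃ P ∈ Z, Cen P v ∧ ∃ φ : Kˣ →₀ ℝ, Rep Z L P φ ∧ t = ev v φ

/-- **Wdl** (EASY-MEDIUM; `Lv` is well defined; USES `StLoc`, `StEff`).  `R` = the centre of `v` (`StLoc` (2)), `P ≤ R`, so `φ` is also a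
representation of `L` at `R` (`PDat Z R ν → PDat Z P ν`).  The set of the `t` in the definition of `Lv` contains `ev v φ`; every element of
it is `ev v φ'` for a representation `φ'` at the centre `R` (unique, `StLoc` (3)), and `ev ν (φ - φ') = 0` for all `PDat Z R ν`, so by
`StEff` for `± (φ - φ')`, `ev v φ = ev v φ'`.  `Classical.epsilon_spec`. -/
def StWdl : Prop := ∀ (k K : Type u) [Field k] [CharZero k] [Field K] [Algebra k K] (Z : Set (Subalgebra k K)), Vty Z →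
  ∀ (e : ℕ) (r : Fin e → K), IsTranscendenceBasis k r → ∀ (L : AddValuation K (WithTop ℤ) → ℝ), ∀ P ∈ Z, ∀ φ : Kˣ →₀ ℝ,
  Rep Z L P φ → ∀ v : AddValuation K (WithTop ℤ), (∀ f ∈ P, 0 ≤ v f) → Lv Z L v = ev v φ

/-- **Lfs** (MEDIUM; USES `StLoc`, `StPdd`, `StFsp`, `StWdl`).  For a chart `C` of `Z` and a prime `p` of `C` let `P ∈ Z` be the local ring,
`φ` a representation of `L` at `P` (`RCar`).  The set of the `ν` with `PD Z ν` and `L ν ≠ ev ν φ` is finite (`L` has finite support, `ev ν φ` too by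
`StFsp`).  Those with `ν ≥ 0` on `C` are not `≥ 0` on `P`, i.e. there is `h_ν ∈ C`, `h_ν ∉ p`, `ν h_ν > 0`; `h` = the product of the
`h_ν`, `h ∉ p`.  So for every `Q ∈ Z`, `C ≤ Q`, `h⁻¹ ∈ Q`, `φ` is a representation of `L` at `Q`.  The elements `h` obtained for all primes `p` of `C`
generate the unit ideal, so finitely many `h_1, ..., h_t` (with `φ_1, ..., φ_t`) do: every local ring of `Spec C` contains some
`h_i⁻¹`.  Now let `PD Z' v`; `v ≥ 0` on some `P' ∈ Z'`, which dominates some `Q ∈ Z` (`Mor`), and `Q` is `IsLoc C p Q` for a chart `C`; so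
`v ≥ 0` on `Q`, `φ_i` is a representation at `Q` for some `i`, and `Lv Z L v = ev v φ_i` (`StWdl`).  By `StFsp` for `Z'` only finitely many `v`
have `ev v φ_i ≠ 0` for one of the finitely many `φ_i` (all charts). -/
def StLfs : Prop := ∀ (k K : Type u) [Field k] [CharZero k] [Field K] [Algebra k K] (Z : Set (Subalgebra k K)), Vty Z →
  ∀ (e : ℕ) (r : Fin e → K), IsTranscendenceBasis k r → ∀ L : AddValuation K (WithTop ℤ) → ℝ, IsDiv Z L → RCar Z L → IsB Z (Lv Z L)

/-- **Ctr** (EASY; USES `StLoc`).  `V = Api.ring W _` (`W ≥ 0` on `k`), `IsVal V`.  `Dom P V`: for `f ∈ P`, `v f ≥ 0`, so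
`W (algebraMap f) = m v f ≥ 0` (`Lies`; `f = 0` separately); if its inverse is in `V`, then `v f = 0`, `f⁻¹ ∈ P` by `Cen P v`.  Properness gives
`O ∈ X` with `Dom O V`, i.e. `Cen O W` (`Api.dom_ring_iff`).  `Mor`: `P' ∈ Z` with `Dom P' O`; then `Cen P' v`: `v ≥ 0` on `P'`; `f ∈ P'`,
`v f = 0` implies `W f = 0`, so `f⁻¹ ∈ O` by `Cen O W`, so `f⁻¹ ∈ P'` (`Dom P' O`).  `P' = P` by `StLoc` (3). -/
def StCtr : Prop := ∀ (k K F : Type u) [Field k] [Field K] [Field F] [Algebra k K] [Algebra k F] [Algebra K F]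
  [IsScalarTower k K F] (Z : Set (Subalgebra k K)) (X : Set (Subalgebra k F)), Vty Z → Vty X → Mor X Z → Prp X Z →
  ∀ (v : AddValuation K (WithTop ℤ)) (W : AddValuation F (WithTop ℤ)) (m : ℕ), (∀ c : k, 0 ≤ W (algebraMap k F c)) →
  Lies v W m → ∀ P ∈ Z, Cen P v → ∃ O ∈ X, Cen O W ∧ Dom P O

/-- **Kru** (MEDIUM; a divisor of `X` over a prime divisor of `Z`; USES `NgPDV.{u,u}`, `StLoc`, `StPdd`, `StGrm`, `StTfr`, `StMnv`, `StCtr`).
`P = {v ≥ 0} ∈ Z`, `Cen P v` (`StPdd`).  `W`, `g` from `StMnv` with `z = y`, `q = 1`, `w = 0` (Gauss valuation; `g ∣ 1` by `v π = 1`, so `g = 1`).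
`W` lies over `v` with `m = 1`, so `StCtr` gives a point `O ∈ X` with `Dom P O`.
Let `v π = 1`: `π ∈ P`, `π⁻¹ ∉ P`, so `π` is a non-unit of `O` (`Dom`).  `O` is Noetherian, so there is a minimal prime `𝔭` of `(π)` in `O`,
of height `≤ 1` (Krull, `Ideal.height_le_one_of_isPrincipal_of_mem_minimalPrimes`), not `0`, so of height one.  `Germ O (e+n)` (`StGrm`,
`StTfr`), `NgPDV`: `E` with `Divisorial k E`, `E ≥ 0` on `O`, `E > 0` on `O` exactly on `𝔭`; so `PrimeDiv O E` and `PDat X O E` (`StGrm`).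
`Lies v E m` with `m = val E π > 0`: for `f ∈ K^*`, `f = π^j u`, `v u = 0`, so `u, u⁻¹ ∈ P ⊆ O`, `E u = 0`. -/
def StKru : Prop := ∀ (k K F : Type u) [Field k] [CharZero k] [Field K] [Field F] [Algebra k K] [Algebra k F] [Algebra K F]
  [IsScalarTower k K F] (e n : ℕ) (r : Fin e → K) (y : Fin n → F) (Z : Set (Subalgebra k K)) (X : Set (Subalgebra k F)),
  IsTranscendenceBasis k r → GenBy K y → Vty Z → Vty X → Mor X Z → Prp X Z → ∀ v : AddValuation K (WithTop ℤ), PD Z v →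
  ∃ (E : AddValuation F (WithTop ℤ)) (m : ℕ) (O : Subalgebra k F) (P : Subalgebra k K), Divisorial k E ∧ Lies v E m ∧ O ∈ X ∧
    PDat X O E ∧ P ∈ Z ∧ Dom P O ∧ ∀ f : K, f ∈ P ↔ 0 ≤ v f

/-- **Bp1** (MEDIUM; no hypotheses).  `B = Algebra.adjoin k (C ∪ T)` is a finitely generated `k`-algebra with fraction field `K`, and
`C' = integralClosure B K`, as a `k`-subalgebra of `K` (the set of the `f` integral over `B`).  `C'` is a finite `B`-module, hence a
finitely generated `k`-algebra: Noether normalization (`exists_finite_inj_algHom_of_fg` / `Algebra.FiniteType` version in Mathlib): `B` is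
finite over a polynomial ring `A`; `K` is a finite separable extension of `Frac A` (characteristic zero) and `C'` is the integral closure
of the integrally closed Noetherian ring `A` in `K`, so it is a finite `A`-module (`IsIntegralClosure.finite`). -/
def StBp1 : Prop := ∀ (k K : Type u) [Field k] [CharZero k] [Field K] [Algebra k K] (C : Subalgebra k K), C.FG →
  IsFractionRing C K → ∀ T : Set K, T.Finite → ∃ C' : Subalgebra k K, C'.FG ∧ IsIntegrallyClosed C' ∧ IsFractionRing C' K ∧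
    C ≤ C' ∧ T ⊆ C' ∧ ∀ f ∈ C', IsIntegral (Algebra.adjoin k ((C : Set K) ∪ T)) f

/-- **Bp2** (MEDIUM-HARD; normalized blow up; USES `StLoc`, `StBp1`).  For every chart `C` of `Z` and `s ∈ S` let `C_s` be the algebra of
`StBp1` for `T = {s'/s : s' ∈ S}`; `Z'` = the set of the local rings (`IsLoc`) of all `C_s` at all primes; finitely many charts.
(Sep) Let `R, R' ∈ Z'` (from `(C, s)`, prime `p`, and `(C', s')`, prime `p'`) be dominated by the valuation ring `V`.  The contraction of `p` to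
`C` gives `P ∈ Z` with `Dom P R`, so `Dom P V`, and `P' ∈ Z` with `Dom P' R'`, `Dom P' V`: `P = P'`.  `s'/s ∈ R ⊆ V` and
`s/s' ∈ R' ⊆ V`; so `s'/s ∈ R` is a unit of `V`, hence of `R` (`Dom R V`).  Claim `R' ⊆ R`: `C' ⊆ P' = P ⊆ R`, `s''/s' = (s''/s)(s/s') ∈ R`, so
`R` contains the algebra generated by `C'` and the `s''/s'`; `R` is integrally closed (localization of `C_s`), so `C'_(s') ⊆ R`.  An element
`c ∈ C'_(s')`, `c ∉ p'` is a unit of `R'`, hence of `V`, and `c ∈ R`, so it is a unit of `R`.  So `R' ⊆ R`; symmetric.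
(Mor) `R` from `(C, s, p)`: `P` = local ring of `C` at `p ∩ C`: `Dom P R` (non-units of `P` are `a/t` with `a ∈ p`).  (Prp) `V` a valuation ring with
`Dom P V`, `P ∈ Z` a local ring of `C`.  There is `s ∈ S` with `s'/s ∈ V` for all `s' ∈ S` (finite set, `V` valuation ring: induct), so
`V` contains `C` and the `s'/s`, and, being integrally closed, `C_s`.  `p = {c ∈ C_s : c = 0 or c⁻¹ ∉ V}` is a prime ideal and its local ring is
dominated by `V`.  (Last claim) the local ring of `C_s` contains all `s'/s`. -/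
def StBp2 : Prop := ∀ (k K : Type u) [Field k] [CharZero k] [Field K] [Algebra k K] (Z : Set (Subalgebra k K)), Vty Z →
  ∀ S : Finset Kˣ, S.Nonempty → ∃ Z' : Set (Subalgebra k K), Vty Z' ∧ Mor Z' Z ∧ Prp Z' Z ∧
    ∀ P ∈ Z', ∃ s ∈ S, ∀ s' ∈ S, (s' : K) / (s : K) ∈ P

/-- **Bp3** (EASY-MEDIUM; USES `NgREG.{u,u}`, `StTb`, `StGrm`, `StBp2`).  `Z'` from `StBp2`.  At `P ∈ Z'` take the `s ∈ S` with `s'/s ∈ P` for all
`s' ∈ S`: if `w ≥ 0` on `P` then `val w s' ≥ val w s` for all `s' ∈ S`, so `M w = - val w s` (`hM`).  This gives `M ν + val ν s = 0` for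
`PDat Z' P ν`, and `M ν + val ν s ≥ 0` for all `ν` by `hM`.  Pull-back: let `s₁ ∈ K^*` be another element with `M ν + val ν s₁ = 0` for all `PDat Z' P ν`;
then `val ν (s₁/s) = 0` for all these `ν`, so `s₁/s ∈ P` and `s/s₁ ∈ P` (`NgREG` for `P`, `StGrm`, `trdeg = e` by `StTb`), and for `ν ≥ 0` on
`P`, `val ν s₁ = val ν s = - M ν`. -/
def StBp3 : Prop := ∀ (k K : Type u) [Field k] [CharZero k] [Field K] [Algebra k K] (Z : Set (Subalgebra k K)), Vty Z →
  ∀ (e : ℕ) (r : Fin e → K), IsTranscendenceBasis k r → ∀ S : Finset Kˣ, S.Nonempty → ∀ M : AddValuation K (WithTop ℤ) → ℝ,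
  (∀ ν : AddValuation K (WithTop ℤ), (∃ s ∈ S, M ν + (val ν (s : K) : ℝ) = 0) ∧ ∀ s ∈ S, 0 ≤ M ν + (val ν (s : K) : ℝ)) → Bpf Z M

end Pool.Agent.Work.MP_a2680c_ag.HA
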