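import Pool.Agent.Work.MP_a2680c_ag.HA.StmtsC

/-!
# MP_a2680c_ag, block HA, part D: the fibration

An item `NAME` is a theorem `pr_NAME : StNAME.{u}` (hypotheses: the statements named in the docstring, in that order) in the file
`HA/I_NAME.lean`, namespace `Pool.Agent.Work.MP_a2680c_ag.HA`, auxiliary lemmas in the namespace
`Pool.Agent.Work.MP_a2680c_ag.HA.XNAME`.  Import this file only; nobody waits for another item.  `HA/Api.lean` contains proved lemmas.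
`GenBy K y` is `⟨hA.indep, hA.gen⟩` for `hA : Arr ..`.  `EssFiniteType k K` comes from `StGrm` for `Z`; `Dual` bases from `StTb`, `StCor`.
-/

set_option autoImplicit false

noncomputable section

namespace Pool.Agent.Work.MP_a2680c_ag.HA

open MP7b66e6 MP7b66e6.Q
open scoped BigOperators

universe u

section defs
variable {k K F : Type u} [Field k] [Field K] [Field F] [Algebra k K] [Algebra k F] [Algebra K F] {e n N : ℕ}

/-- the key identity: `K_X + D` is the pull-back of `L' = L + Ξ` plus `Σ d_i div (l_i)`, for all valuations, and `Σ d_i = n + 1` -/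
def KeyId (r : Fin e → K) (y : Fin n → F) (Z : Set (Subalgebra k K)) (X : Set (Subalgebra k F))
    (D : AddValuation F (WithTop ℤ) → ℝ) (L : AddValuation K (WithTop ℤ) → ℝ) (a : Fin N → Fin (n + 1) → K) (d : Fin N → ℝ)
    (Ξ : Kˣ →₀ ℝ) : Prop :=
  ∑ i, d i = n + 1 ∧ ∀ O ∈ X, ∀ P ∈ Z, Dom P O → ∀ φ : Kˣ →₀ ℝ, Rep Z L P φ → ∀ ψ : Fˣ →₀ ℝ,
    Rep X (fun ν => can k (cor r y) ν + D ν) O ψ → ∀ W : AddValuation F (WithTop ℤ), (∀ f ∈ O, 0 ≤ W f) →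
    ev W ψ = ev W (push K F φ) + ev W (push K F Ξ) + ∑ i, d i * (val W (lin y (a i)) : ℝ)

/-- `T_v = 1 + v(K_Z) - v(L')` -/
def Tv (r : Fin e → K) (Z : Set (Subalgebra k K)) (L : AddValuation K (WithTop ℤ) → ℝ) (Ξ : Kˣ →₀ ℝ)
    (v : AddValuation K (WithTop ℤ)) : ℝ := 1 + can k r v - Lv Z L v - ev v Ξ

/-- the discriminant -/
def Ddd (r : Fin e → K) (Z : Set (Subalgebra k K)) (L : AddValuation K (WithTop ℤ) → ℝ) (Ξ : Kˣ →₀ ℝ)
    (a : Fin N → Fin (n + 1) → K) (d : Fin N → ℝ) (v : AddValuation K (WithTop ℤ)) : ℝ := 1 - (Tv r Z L Ξ v - mv a d v)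

/-- the moduli part -/
def Dmm (a : Fin N → Fin (n + 1) → K) (d : Fin N → ℝ) (v : AddValuation K (WithTop ℤ)) : ℝ := - mv a d v

/-- the conclusion of `StOpt` for the valuation `v` -/
def OptC (κ : Prop) (a : Fin N → Fin (n + 1) → K) (d : Fin N → ℝ) (T : ℝ) (v : AddValuation K (WithTop ℤ)) : Prop :=
  ∃ l : (Fin (n + 1) → Fin N) → ℝ, Feas (bas a) d l ∧ Basic l ∧ mv a d v = ∑ b, l b * (val v (mnr a b) : ℝ) ∧
    IsLeast (vals (bas a) d fun b => val v (mnr a b)) (mv a d v) ∧ Pos κ (T - mv a d v) ∧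
    ∃ (q : ℕ) (Y : Fin N → ℤ), 0 < q ∧ (∀ b ∈ bas a, ∑ j, Y (b j) ≤ q * val v (mnr a b)) ∧
      (q : ℝ) * mv a d v = ∑ i, d i * (Y i : ℝ)

end defs

/-- **Key** (MEDIUM; USES `StTb`, `StTfr`, `StGrm`, `StPdd`, `StOrd`, `StHor`, `StFac`, `StEff`).  Let `Φ` be as in `Fib.triv`,
`l_i = lin y (a i) ≠ 0` (`a i ≠ 0`, `y` algebraically independent), as units of `F`, `Θ = Φ - Σ_i d_i [l_i]`.
(1) `OrdP y p ν`: `PD X ν` (`Arr.fin`), ring `O = {ν ≥ 0} ∈ X` (`StPdd`); `P ∈ Z` with `Dom P O` (`Mor`), `φ` a representation of `L` at `P`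
(`RCar`).  `ν` is `0` on `K^*` (constants are not divisible by `p`), so `ev ν (push φ) = 0`; `can = 1 - 1 = 0` (`StHor`, `Api.can_eq`).  So
`Fib.triv` gives `Σ_i d_i val ν (l_i) = D ν = ev ν Φ`, i.e. `ev ν Θ = 0`.  `StFac`: `Ξ` with `ev W Θ = ev W (push Ξ)` for all `W`.
(2) `OrdI K y ν` (exists by `StOrd`): in the same way `can = -n - 1` (`StHor`, `1 ≤ n`) and `Arr.inf`:
`-n - 1 + Σ d_i (1 + val ν (l_i)) = ev ν Φ = ev ν Θ + Σ d_i val ν (l_i)`, `ev ν Θ = ev ν (push Ξ) = 0`.  So `Σ d_i = n + 1`.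
(3) `O, P, φ, ψ, W` as in `KeyId`: `ψ` and `push φ + Φ` are both representations of `K_X + D` at `O` (`Fib.triv`); by `StEff` for `X`
(basis `cor r y`, `StTfr`) applied to `± (ψ - push φ - Φ)`, `ev W ψ = ev W (push φ) + ev W Φ`, and
`ev W Φ = ev W Θ + Σ d_i val W (l_i)`. -/
def StKey : Prop := ∀ (κ : Prop) (k K F : Type u) [Field k] [CharZero k] [Field K] [Field F] [Algebra k K] [Algebra k F]
  [Algebra K F] [IsScalarTower k K F] (e n N : ℕ) (I : Set ℝ) (r : Fin e → K) (y : Fin n → F) (Z : Set (Subalgebra k K))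
  (X : Set (Subalgebra k F)) (D : AddValuation F (WithTop ℤ) → ℝ) (L : AddValuation K (WithTop ℤ) → ℝ)
  (a : Fin N → Fin (n + 1) → K) (d : Fin N → ℝ), 1 ≤ n → Fib κ I r y Z X D L → Arr I y X D a d →
  ∃ Ξ : Kˣ →₀ ℝ, KeyId r y Z X D L a d Ξ

/-- **Two** (EASY-MEDIUM; inequality (II); USES `StTb`, `StCor`, `StCan`, `StGrm`, `StCtr`, `StWdl`, `StTwa`).  `A` with
`LogDisc k v r A` exists (`StCan`).  `W, m, g, c` from `StTwa`.  `P ∈ Z` with `Cen P v` (`DivOver`), `O ∈ X` with `Cen O W`, `Dom P O` (`StCtr`).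
`φ` = representation of `L` at `P`, `ψ` = representation of `K_X + D` at `O` (`Lc.1`).  `A'` with `LogDisc k W (cor r y) A'`
(`StCan`, `StCor`).  `Lc.2`: `Pos κ (A' - ev W ψ)` (`Api.can_eq`), and `ev W ψ = m (ev v φ + ev v Ξ) + Σ d_i val W (l_i)` (`KeyId`,
`Api.ev_push_lies`), `ev v φ = Lv Z L v` (`StWdl`).  Multiply by `g > 0` (`g m = q`):
`g A' ≤ q A + (n+1) c`, `Σ d_i g val W (l_i) ≥ Σ d_i (c + Y_i) = (n+1) c + Σ d_i Y_i` (`d_i ≥ 0`), so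
`g (A' - ev W ψ) ≤ q A - q (Lv + ev v Ξ) - Σ d_i Y_i = q Tv - Σ d_i Y_i` (`Tv = A - Lv - ev v Ξ`). -/
def StTwo : Prop := ∀ (κ : Prop) (k K F : Type u) [Field k] [CharZero k] [Field K] [Field F] [Algebra k K] [Algebra k F]
  [Algebra K F] [IsScalarTower k K F] (e n N : ℕ) (I : Set ℝ) (r : Fin e → K) (y : Fin n → F) (Z : Set (Subalgebra k K))
  (X : Set (Subalgebra k F)) (D : AddValuation F (WithTop ℤ) → ℝ) (L : AddValuation K (WithTop ℤ) → ℝ)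
  (a : Fin N → Fin (n + 1) → K) (d : Fin N → ℝ) (Ξ : Kˣ →₀ ℝ), Fib κ I r y Z X D L → GenBy K y → (∀ i, a i ≠ 0) →
  (∀ i, 0 ≤ d i) → KeyId r y Z X D L a d Ξ → (bas a).Nonempty →
  ∀ v : AddValuation K (WithTop ℤ), DivOver Z v → ∀ (q : ℕ) (Y : Fin N → ℤ), 0 < q →
  (∀ b ∈ bas a, ∑ j, Y (b j) ≤ q * val v (mnr a b)) → Pos κ (q * Tv r Z L Ξ v - ∑ i, d i * (Y i : ℝ))

/-- **Opt** (MEDIUM; linear programming for `v`; USES `StBa1`, `StBa2`, `StLpd`, `StTwo`).  Extend the arrangement by the unit vectors: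
`a⁺ : Fin (N + (n+1)) → _`, `a⁺ = Fin.append a (fun j => Pi.single j 1)`, `d⁺ = Fin.append d 0`.  `KeyId` holds for `a⁺, d⁺` too (the new
weights are `0`), and `bas a⁺` is not empty (the unit vectors: determinant `1`).  So `StTwo` for `a⁺, d⁺`:
`Pos κ (q T - Σ d⁺_i Y_i)` for all feasible `(q, Y)` for `S⁺ = bas a⁺`, `c⁺ = val v (mnr a⁺ ·)`.  `StLpd` for `S⁺, c⁺, d⁺, T`: `l⁺`, `(q, Y⁺)` with
`q Σ l⁺ c⁺ = Σ d⁺ Y⁺`.  `d⁺` is `0` at the new indices, so `l⁺ b = 0` if `b` has a value there (terms `≥ 0`); the other `b` are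
`Fin.castAdd (n+1) ∘ b'`, `mnr a⁺ b = mnr a b'`; `l₀ b' = l⁺ (castAdd ∘ b')` satisfies `Feas (bas a) d l₀`, and
`Y = Y⁺ ∘ Fin.castAdd` is feasible for `bas a`.  So `q Σ l₀ c = Σ d_i Y_i`.  For every `l` with `Feas (bas a) d l`:
`q Σ l c ≥ Σ_b l b Σ_j Y (b j) = Σ_i d_i Y_i = q Σ l₀ c`.  So `Σ l₀ c` is the least element of `vals`, equal to `mv a d v`
(`IsLeast.csInf_eq`); by `StBa1` there is a basic `l` with `Σ l c ≤ Σ l₀ c`, hence equality.  `q (T - mv) = q T - Σ d_i Y_i` and `Pos κ` of it (divide by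
`q`). -/
def StOpt : Prop := ∀ (κ : Prop) (k K F : Type u) [Field k] [CharZero k] [Field K] [Field F] [Algebra k K] [Algebra k F]
  [Algebra K F] [IsScalarTower k K F] (e n N : ℕ) (I : Set ℝ) (r : Fin e → K) (y : Fin n → F) (Z : Set (Subalgebra k K))
  (X : Set (Subalgebra k F)) (D : AddValuation F (WithTop ℤ) → ℝ) (L : AddValuation K (WithTop ℤ) → ℝ)
  (a : Fin N → Fin (n + 1) → K) (d : Fin N → ℝ) (Ξ : Kˣ →₀ ℝ), Fib κ I r y Z X D L → GenBy K y → (∀ i, a i ≠ 0) →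
  (∀ i, 0 ≤ d i) → KeyId r y Z X D L a d Ξ → ∀ v : AddValuation K (WithTop ℤ), DivOver Z v → OptC κ a d (Tv r Z L Ξ v) v

/-- **Avg** (EASY-MEDIUM; averaged inequality (I); USES `StTb`, `StCor`, `StCan`, `StIne`, `StWdl`).  Let `l` be a decomposition as in `OptC` and
`W` over `v` (ramification `m`), divisorial, `W ≥ 0` on `O ∈ X`, `Dom P O`, `P ∈ Z`, `v ≥ 0` on `P`; `ψ` a representation of `K_X + D` at `O`.
`A`, `A'` with `LogDisc` for `v`, `W`.  For every `b` with `l b > 0` (`b ∈ bas a`) let `κ b = A' - (m A - m c_b + Σ_j val W (l_(b j)))`, an integer `≥ 0`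
by `StIne` (`κ b = 0` for the other `b`).  Multiply by `l b` and sum: `Σ_b l b = 1` (sum over `i` of `Σ_b l b inc(b, i) = d_i`:
`(n+1) Σ l b = Σ d_i = n+1`; `Σ_i inc(b,i) = n+1`), `Σ_b l b Σ_j val W (l_(b j)) = Σ_i d_i val W (l_i)`:
`A' = m A - m mv + Σ_i d_i val W (l_i) + Σ_b l b κ b`.  `KeyId`, `StWdl`: `ev W ψ = m (Lv + ev v Ξ) + Σ_i d_i val W (l_i)`.  Subtract:
`A' - ev W ψ = m (Tv - mv) + Σ_b l b κ b`. -/
def StAvg : Prop := ∀ (κ : Prop) (k K F : Type u) [Field k] [CharZero k] [Field K] [Field F] [Algebra k K] [Algebra k F]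
  [Algebra K F] [IsScalarTower k K F] [Algebra.EssFiniteType k K] (e n N : ℕ) (I : Set ℝ) (r : Fin e → K) (y : Fin n → F)
  (Z : Set (Subalgebra k K))
  (X : Set (Subalgebra k F)) (D : AddValuation F (WithTop ℤ) → ℝ) (L : AddValuation K (WithTop ℤ) → ℝ)
  (a : Fin N → Fin (n + 1) → K) (d : Fin N → ℝ) (Ξ : Kˣ →₀ ℝ), Fib κ I r y Z X D L → GenBy K y → (∀ i, a i ≠ 0) →
  KeyId r y Z X D L a d Ξ → ∀ v : AddValuation K (WithTop ℤ), Divisorial k v →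
  ∀ l : (Fin (n + 1) → Fin N) → ℝ, Feas (bas a) d l → mv a d v = ∑ b, l b * (val v (mnr a b) : ℝ) →
  ∀ (W : AddValuation F (WithTop ℤ)) (m : ℕ) (O : Subalgebra k F) (P : Subalgebra k K), Divisorial k W → Lies v W m →
  O ∈ X → P ∈ Z → Dom P O → (∀ f ∈ O, 0 ≤ W f) → (∀ f ∈ P, 0 ≤ v f) → ∀ ψ : Fˣ →₀ ℝ,
  Rep X (fun ν => can k (cor r y) ν + D ν) O ψ →
  ∃ c : (Fin (n + 1) → Fin N) → ℕ, 1 + can k (cor r y) W - ev W ψ = m * (Tv r Z L Ξ v - mv a d v) + ∑ b, l b * (c b : ℝ)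

/-- **Asa** (EASY-MEDIUM; part (a); USES `StGrm`, `StPdd`, `StKru`, `StAvg`).  `E, m, O, P` from `StKru`.  `ψ` = representation of `K_X + D` at `O`.
`PDat X O E`: `ev E ψ = can E + D E`, so `1 + can E - ev E ψ = 1 - D E`, and `D E = δ` is `0` or in `I`.  `StAvg` with the `l` of `OptC`:
`1 - δ = m (Tv - mv) + Σ l b c b`, i.e. `Ddd v = 1 - (Tv - mv) = 1 - (1 - δ - Σ l b c b) / m`, and `Tv - mv ≥ 0` gives
`δ + Σ l b c b ≤ 1`. -/
def StAsa : Prop := ∀ (κ : Prop) (k K F : Type u) [Field k] [CharZero k] [Field K] [Field F] [Algebra k K] [Algebra k F]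
  [Algebra K F] [IsScalarTower k K F] (e n N : ℕ) (I : Set ℝ) (r : Fin e → K) (y : Fin n → F) (Z : Set (Subalgebra k K))
  (X : Set (Subalgebra k F)) (D : AddValuation F (WithTop ℤ) → ℝ) (L : AddValuation K (WithTop ℤ) → ℝ)
  (a : Fin N → Fin (n + 1) → K) (d : Fin N → ℝ) (Ξ : Kˣ →₀ ℝ), Fib κ I r y Z X D L → GenBy K y → (∀ i, a i ≠ 0) →
  KeyId r y Z X D L a d Ξ → ∀ v : AddValuation K (WithTop ℤ), PD Z v → OptC κ a d (Tv r Z L Ξ v) v →
  ∃ (l : (Fin (n + 1) → Fin N) → ℝ) (c : (Fin (n + 1) → Fin N) → ℕ) (δ : ℝ) (μ : ℕ), Feas (bas a) d l ∧ Basic l ∧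
    (δ = 0 ∨ δ ∈ I) ∧ 0 < μ ∧ δ + ∑ b, l b * (c b : ℝ) ≤ 1 ∧ Ddd r Z L Ξ a d v = 1 - (1 - δ - ∑ b, l b * (c b : ℝ)) / μ

/-- **Asb** (MEDIUM; part (b); USES `StBp3`).  `c_v b = val v (mnr a b)`.  Case 1: there is `l₀` with `Feas (bas a) d l₀`.  For `i : Fin l` let
`G'_i = {κ ∈ G i : κ b = 0 for b ∉ bas a}`, not empty (`PbC`), `S_i` = the set of the units `∏_b (mnr a b)^(κ b)`, `κ ∈ G'_i` (product over `b` with
`κ b ≠ 0`; all factors are not `0`), and `M_i ν = - min over S_i of val ν`; `val ν (∏ ..) = Σ_b κ b c_ν b`.  `Bpf Z M_i` by `StBp3`.  For `DivOver Z v`: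
`mv a d v` is the least element of `vals` (`hopt`), `τ_i = - M_i v` is the least element of the set in `PbC`, so
`m mv a d v = Σ a_i τ_i`, i.e. `m Dmm a d v = Σ a_i M_i v`.  Case 2: there is no such `l₀`.  Then there is no `v` with `DivOver Z v` (`hopt`), and
`N i = 0` is base point free (`StBp3` with `S = {1}`). -/
def StAsb : Prop := ∀ (k K : Type u) [Field k] [CharZero k] [Field K] [Algebra k K] (e n N : ℕ) (r : Fin e → K)
  (Z : Set (Subalgebra k K)) (a : Fin N → Fin (n + 1) → K) (d : Fin N → ℝ) (Γ : Set ℝ) (m l : ℕ) (w : Fin l → ℝ)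
  (G : Fin l → Finset ((Fin (n + 1) → Fin N) → ℕ)), IsTranscendenceBasis k r → Vty Z → (∀ i, w i ∈ Γ) → ∑ i, w i = 1 →
  PbC d m w G → (∀ v : AddValuation K (WithTop ℤ), DivOver Z v → IsLeast (vals (bas a) d fun b => val v (mnr a b)) (mv a d v)) →
  GBpf Z Γ (fun ν => m * Dmm a d ν)

/-- **Asc** (MEDIUM; part (c); USES `StLoc`, `StPdd`, `StCan`, `StTb`, `StEff`, `StWdl`, `StFsp`).  (1) `K_Z + Ddd` is `L + Ξ - Dmm` on `PD Z ν`: indeed
`can + Ddd = Lv + ev Ξ + mv` and `Lv Z L ν = L ν` for `PD Z ν` (`StWdl` and `Rep` at the ring of `ν`).  `ℝ`-Cartier at `P ∈ Z`: `L` has a representation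
`φ`.  `mv` restricted to prime divisors of `Z` has finite support (`mv a d ν = 0` unless `val ν (mnr a b) ≠ 0` for some `b ∈ bas a`, because
all elements of `vals` are `0` then, `StFsp`); for each `μ` in the support `QFac` gives `m_μ, s_μ` at `P`, and `χ = Σ_μ (mv μ / m_μ) [s_μ]` represents
`mv` at `P`.  (2) Let `P ∈ Z`, `φ'` any representation of `K_Z + Ddd` at `P`, `v` divisorial, `Cen P v`.  By `StEff` (`±`) `ev v φ' = ev v (φ + Ξ + χ)`, so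
`1 + can v - ev v φ' = Tv v - ev v χ` (`StWdl`).  `OptC`: `l` with `mv v = Σ l b c_v b`, `Feas (bas a) d l`.  The element
`ω = Σ_(b ∈ bas a) l b [mnr a b] - χ` has `ev ν ω = Σ l b c_ν b - mv ν ≥ 0` for `PDat Z P ν` (`mv ν` is the least value:
`IsLeast` from `OptC` for `ν`, `DivOver Z ν` by `StPdd`); by `StEff`, `ev v χ ≤ Σ l b c_v b = mv v`.  So
`Tv v - ev v χ ≥ Tv v - mv v` and `Pos κ`. -/
def StAsc : Prop := ∀ (κ : Prop) (k K : Type u) [Field k] [CharZero k] [Field K] [Algebra k K] (e n N : ℕ) (r : Fin e → K)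
  (Z : Set (Subalgebra k K)) (L : AddValuation K (WithTop ℤ) → ℝ) (a : Fin N → Fin (n + 1) → K) (d : Fin N → ℝ)
  (Ξ : Kˣ →₀ ℝ), IsTranscendenceBasis k r → Vty Z → IsDiv Z L → RCar Z L → QFac Z →
  (∀ v : AddValuation K (WithTop ℤ), DivOver Z v → OptC κ a d (Tv r Z L Ξ v) v) → Lc κ Z r (Ddd r Z L Ξ a d)

/-- **Asd** (EASY-MEDIUM; part (d); USES `StLoc`, `StTb`, `StTfr`, `StGrm`, `StPdd`, `StEff`, `StWdl`).  `can + Ddd + Dmm = Lv Z L + ev Ξ` (as functions).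
(1) `ℝ`-Cartier on `Z'`: for `P' ∈ Z'` let `P ∈ Z`, `Dom P P'`, `φ` a representation of `L` at `P`; for `PDat Z' P' ν`, `ν ≥ 0` on `P' ⊇ P`, so
`Lv Z L ν = ev ν φ` (`StWdl`): `φ + Ξ` is a representation.  (2) `Ψ = Σ_i d_i [lin y (a i)]`.  Given `O', O, P', φ, ψ, ν` as in `Crep`: let
`P ∈ Z`, `Dom P P'`, and `P₀ ∈ Z` with `Dom P₀ O` (`Mor`).  `ν ≥ 0` on `O'`, hence on `O`, `P₀`, `P'`, `P`.  Let `w` be the restriction of `ν` to `K`
(`Api.res`).  `φ₀`, `φ₁` representations of `L` at `P₀`, `P`.  `KeyId`: `ev ν φ = ev w φ₀ + ev w Ξ + Σ d_i val ν (l_i)` (`Api.ev_res`), and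
`ev w φ₀ = Lv Z L w = ev w φ₁` (`StWdl`).  `ψ` and `φ₁ + Ξ` are representations of the same divisor at `P'` (by (1)), so
`ev w ψ = ev w φ₁ + ev w Ξ` by `StEff` for `Z'`.  Together. -/
def StAsd : Prop := ∀ (κ : Prop) (k K F : Type u) [Field k] [CharZero k] [Field K] [Field F] [Algebra k K] [Algebra k F]
  [Algebra K F] [IsScalarTower k K F] (e n N : ℕ) (I : Set ℝ) (r : Fin e → K) (y : Fin n → F) (Z : Set (Subalgebra k K))
  (X : Set (Subalgebra k F)) (D : AddValuation F (WithTop ℤ) → ℝ) (L : AddValuation K (WithTop ℤ) → ℝ)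
  (a : Fin N → Fin (n + 1) → K) (d : Fin N → ℝ) (Ξ : Kˣ →₀ ℝ), Fib κ I r y Z X D L → GenBy K y → (∀ i, a i ≠ 0) →
  (∀ i, lin y (a i) ≠ 0) → KeyId r y Z X D L a d Ξ → Crep r y Z X D (Ddd r Z L Ξ a d) (Dmm a d)

/-- **Ase** (MEDIUM; the discriminant; USES `StGrm`, `StCtr`, `StLoc`, `StCan`, `StTb`, `StCor`, `StWdl`, `StTwa`, `StAvg`).  `1 - Ddd v = Tv - mv`.
Lower bound: `W, m, O, φ` as in `Dis`.  `P ∈ Z` with `Dom P O` (`Mor`); `v ≥ 0` on `P` (`Lies`, `W ≥ 0` on `O`), and `StAvg` with the `l` of `OptC`: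
`(1 + can W - ev W φ) / m = Tv - mv + (Σ l b c b) / m ≥ Tv - mv`.
Attained: by `OptC` there is `(q, Y)` feasible with `q mv = Σ d_i Y_i`; `bas a` is not empty: `Feas (bas a) d l` with
`Σ d_i = n + 1 ≠ 0`.  `W, m, g, c` from `StTwa`; `O ∈ X` with `Cen O W`, `Dom P O` from `StCtr`, `φ` a representation of `K_X + D` at `O`.
As in `StTwo`: `g (1 + can W - ev W φ) ≤ q Tv - Σ d_i Y_i = q (Tv - mv)`, `q = g m`, so the element
`(1 + can W - ev W φ) / m` of `Dis` is `≤ Tv - mv`; with the lower bound it is equal. -/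
def StAse : Prop := ∀ (κ : Prop) (k K F : Type u) [Field k] [CharZero k] [Field K] [Field F] [Algebra k K] [Algebra k F]
  [Algebra K F] [IsScalarTower k K F] (e n N : ℕ) (I : Set ℝ) (r : Fin e → K) (y : Fin n → F) (Z : Set (Subalgebra k K))
  (X : Set (Subalgebra k F)) (D : AddValuation F (WithTop ℤ) → ℝ) (L : AddValuation K (WithTop ℤ) → ℝ)
  (a : Fin N → Fin (n + 1) → K) (d : Fin N → ℝ) (Ξ : Kˣ →₀ ℝ), Fib κ I r y Z X D L → GenBy K y → (∀ i, a i ≠ 0) →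
  (∀ i, 0 ≤ d i) → KeyId r y Z X D L a d Ξ → ∀ v : AddValuation K (WithTop ℤ), DivOver Z v → OptC κ a d (Tv r Z L Ξ v) v →
  IsLeast (Dis r y X D v) (1 - Ddd r Z L Ξ a d v)

/-- **Asf** (EASY-MEDIUM; finite supports; USES `StFsp`, `StFsc`, `StLfs`).  `Ddd = Lv + ev Ξ - can + mv` on the prime divisors of `Z'` (`Vty Z'`,
`Mor Z' Z`): `Lv` by `StLfs`, `ev Ξ` by `StFsp` for `Z'` (finitely many `s` in the support), `can` by `StFsc` for `Z'`, and `mv a d ν = 0` unless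
`val ν (mnr a b) ≠ 0` for some `b ∈ bas a` (otherwise `vals ⊆ {0}`, whose `sInf` is `0`, also for the empty set), `StFsp`. -/
def StAsf : Prop := ∀ (k K : Type u) [Field k] [CharZero k] [Field K] [Algebra k K] (e n N : ℕ) (r : Fin e → K)
  (Z : Set (Subalgebra k K)) (L : AddValuation K (WithTop ℤ) → ℝ) (a : Fin N → Fin (n + 1) → K) (d : Fin N → ℝ)
  (Ξ : Kˣ →₀ ℝ), IsTranscendenceBasis k r → Vty Z → IsDiv Z L → RCar Z L → IsB Z (Ddd r Z L Ξ a d) ∧ IsB Z (Dmm a d)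

/-- **Mai** (EASY-MEDIUM; assembly; USES `StCst`, `StJac`, `StGrm`, `StPdd`, `StKey`, `StOpt`, `StAsa`, `StAsb`, `StAsc`, `StAsd`, `StAse`, `StAsf`).
`J, Γ, m` from `StCst`.  `GenBy K y` and `a i ≠ 0`, `d i ∈ I` (`0 < d i`) from `Arr`; `lin y (a i) ≠ 0` from `StJac` (`EssFiniteType` from `StGrm`).  `Ξ` from
`StKey`, `Σ d_i = n + 1` (`KeyId`).  `Dd = Ddd r Z L Ξ a d`, `Dm = Dmm a d`.  `OptC` for all `DivOver Z v` from `StOpt`.
`pa`: `StAsa` and the first claim of `StCst` (`DivOver Z v` for `PD Z v` by `StPdd`).  `pg`: `1 - Dd = Tv - mv`, `OptC`.  `hull`: `- Dm = mv`. -/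
def StMai : Prop := MainHA.{u}

end Pool.Agent.Work.MP_a2680c_ag.HA
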