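import Pool.Agent.Work.MP_a2680c_ag.HA.StmtsD
import Pool.Agent.Work.MP_a2680c_ag.HA.DefsT

/-!
# MP_a2680c_ag, block HA, part E: integrality (explicit constants)

If `M d_i` are integers, then `M D_mod` is base-point free and the coefficients of the discriminant are explicit.

An item `NAME` is a theorem `pr_NAME : StNAME` (hypotheses: the statements named in the docstring, in that order) in the file
`HA/I_NAME.lean`, namespace `Pool.Agent.Work.MP_a2680c_ag.HA`, auxiliary lemmas in the namespace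
`Pool.Agent.Work.MP_a2680c_ag.HA.XNAME`.  Import this file only; nobody waits for another item.
-/

set_option autoImplicit false

noncomputable section

namespace Pool.Agent.Work.MP_a2680c_ag.HA

open MP7b66e6 MP7b66e6.Q
open scoped BigOperators

universe u

/-- **Mun** (MEDIUM; matroid union theorem for linear matroids, Rado - Horn - Edmonds; no hypotheses).  Prove the general form: `E` finite
type, `V j` (`j : Fin N`) vector spaces over `κ`, `f j : E → V j`, and `|A| ≤ Σ_j dim span (f j '' A)` for every `A : Finset E`; then there is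
`c : E → Fin N` such that for every `j` the family `f j e`, `c e = j`, is linearly independent.  Induction on `|E|` (all `V`, `f`; e.g. for
finsets `E` of a fixed type, with sets `A ⊆ E`).  `E` empty: trivial (any `c`; if `E ≠ ∅` then `N > 0`).
Case 1: there is a tight `A`, `∅ ≠ A ≠ E`, `|A| = Σ_j dim span (f j '' A)`.  By induction `A` has a good colouring `c₁` (the condition holds for the
subsets of `A`).  Let `U j = span (f j '' A)`, `V' j = V j / U j`, `f' j` the composition.  For `B ⊆ E \ A`: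
`|B| = |A ∪ B| - |A| ≤ Σ_j (dim span (f j '' (A ∪ B)) - dim U j) = Σ_j dim span (f' j '' B)`.  By induction a colouring `c₂` of `E \ A` is good for
`f'`.  The union is good: a vanishing combination of `f j e`, `c e = j`, gives one of `f' j e`, `c₂ e = j`, in `V' j`, so its coefficients on `E \ A` are
`0`, and then those on `A` are `0`.
Case 2: no such tight set.  Choose `e₀ ∈ E`; `1 = |{e₀}| ≤ Σ_j dim span {f j e₀}`, so `f j₀ e₀ ≠ 0` for some `j₀`.  Colour `e₀` with `j₀`, and
replace `V j₀` by `V j₀ / span {f j₀ e₀}`, `E` by `E \ {e₀}`.  For `∅ ≠ A ⊆ E \ {e₀}` (not tight, proper): `|A| ≤ Σ_j dim span (f j '' A) - 1`, and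
`dim` of the image of `span (f j₀ '' A)` in the quotient is `≥ dim - 1`; so the condition holds for the new data.  By induction a good colouring of
`E \ {e₀}`; together with `e₀` the family of colour `j₀` is independent (as in Case 1). -/
def StMun : Prop := ∀ (κ : Type u) [Field κ] (E : Type) [Fintype E] (N s : ℕ) (f : E → Fin s → κ),
  (∀ A : Finset E, A.card ≤ N * Module.finrank κ (Submodule.span κ (f '' (A : Set E)))) →
  ∃ c : E → Fin N, ∀ j, LinearIndependent κ (fun e : {e : E // c e = j} => f e.1)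

/-- **Pac** (MEDIUM; packing of bases; USES `StMun`).  `E = Σ i : Fin N, Fin (u i)` (a `Fintype`), `f (i, t) = a i`; `|E| = Σ u i = M (n+1)`.
For `A ⊆ E` let `I` be the set of the first coordinates: `|A| ≤ Σ_(i ∈ I) u i = Σ_b l b |{j : b j ∈ I}|` (`Feas.sum`, real numbers), and for `b` with
`l b > 0` the rows `a (b j)` are linearly independent (`mnr a b ≠ 0`), so `|{j : b j ∈ I}| ≤ dim span {a i : i ∈ I} = dim span (f '' A)`; and
`Σ_b l b = M` (sum `Feas.sum` over `i`: `(n+1) Σ l b = Σ u i = M (n+1)`).  So `|A| ≤ M dim span (f '' A)`.  `StMun`: colouring `c : E → Fin M`; each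
colour class is independent in a space of dimension `n+1`, so it has at most `n+1` elements, and the total is `M (n+1)`, so all have exactly
`n+1`: choose a bijection of `Fin (n+1)` with the class `t` and let `B t j` be the first coordinate.  `mnr a (B t) ≠ 0`: the rows are
linearly independent (`Matrix.linearIndependent_rows_iff_isUnit`), and `Σ_t Σ_j [B t j = i]` = number of elements of `E` over `i` = `u i`. -/
def StPac : Prop := ∀ (κ : Type u) [Field κ] (n N M : ℕ) (a : Fin N → Fin (n + 1) → κ) (u : Fin N → ℕ)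
  (l : (Fin (n + 1) → Fin N) → ℝ), Feas (bas a) (fun i => (u i : ℝ)) l → ∑ i, u i = M * (n + 1) →
  ∃ B : Fin M → Fin (n + 1) → Fin N, (∀ t, B t ∈ bas a) ∧ ∀ i, (∑ t, ∑ j, if B t j = i then 1 else 0) = u i

/-- **Ram** (EASY-MEDIUM; USES `StMnv`).  `F = RatFunc K`, `T = RatFunc.X`, `z : Fin 1 → F` constant `T`: `GenBy K z`.  `StMnv` with the weight `w = 1`:
`W, g` with `MonV z v q w W g`; for constants `g val W c = q val v c`, and for `P = X_0`: `g val W T = 1`, so `g = 1`. -/
def StRam : Prop := ∀ (K : Type u) [Field K] (v : AddValuation K (WithTop ℤ)), (∃ π : K, v π = 1) → ∀ q : ℕ, 0 < q →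
  ∃ (F : Type u) (_ : Field F) (_ : Algebra K F) (W : AddValuation F (WithTop ℤ)) (T : F), W T = 1 ∧
    ∀ c : K, c ≠ 0 → val W (algebraMap K F c) = q * val v c

/-- **Rsd** (MEDIUM; the residue matroid; no hypotheses).  Let `m₀ = mnr a b₀`, `W m₀ = 0`.  The coordinates of the row `a i` in the basis `a (b₀ k)` are
`α i k = mnr a (Function.update b₀ k i) / m₀` (Cramer; see `StCrb`), of value `≥ 0`, and `mnr α b = mnr a b / m₀` for all `b` (multiplicativity of
the determinant: the matrix `(a (b j) l)` is `(α (b j) k)` times `(a (b₀ k) l)`).  Let `O = {W ≥ 0}` (a subring of `F`, a local ring with maximal ideal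
`{W > 0}`; e.g. the `ValuationSubring` of `W`), `κ` its residue field, `ρ i k` the residue class of `α i k`.  `mnr ρ b` is the residue class of
`mnr α b`, so it is not `0` iff `W (mnr α b) = 0` iff `W (mnr a b) = 0`. -/
def StRsd : Prop := ∀ (F : Type u) [Field F] (W : AddValuation F (WithTop ℤ)) (n N : ℕ) (a : Fin N → Fin (n + 1) → F),
  (∀ b, 0 ≤ W (mnr a b)) → ∀ b₀ : Fin (n + 1) → Fin N, W (mnr a b₀) = 0 →
  ∃ (κ : Type u) (_ : Field κ) (ρ : Fin N → Fin (n + 1) → κ), ∀ b, mnr ρ b ≠ 0 ↔ W (mnr a b) = 0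

/-- **Itg** (EASY-MEDIUM; integrality of the optimal decomposition; USES `StPac`, `StRam`, `StRsd`).  Feasibility of `(q, Y)` and the equality give
`q c_b = Σ_j Y (b j)` for all `b` with `l b > 0` (`Σ_b l b (q c_b - Σ_j Y (b j)) = 0`, all terms `≥ 0`); such a `b` exists unless `M = 0` (then `u = 0`,
`B` = empty).  `F, W, T` from `StRam`.  `a' i = T^(-Y i) • a i` (entries `algebraMap (a i l)`): `mnr a' b = T^(-Σ_j Y (b j)) algebraMap (mnr a b)`
(row scaling), so for `b ∈ bas a`, `W (mnr a' b) = q c_b - Σ_j Y (b j) ≥ 0`, and `mnr a' b = 0` for the other `b`.  `StRsd` with a tight `b₀`: `κ`, `ρ`.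
`l` is supported on the `b` with `mnr ρ b ≠ 0`; `StPac` for `ρ`: `B` with `mnr ρ (B t) ≠ 0`, i.e. `W (mnr a' (B t)) = 0`: `B t ∈ bas a` and
tight. -/
def StItg : Prop := ∀ (K : Type u) [Field K] (v : AddValuation K (WithTop ℤ)), (∃ π : K, v π = 1) →
  ∀ (n N M : ℕ) (a : Fin N → Fin (n + 1) → K) (u : Fin N → ℕ) (l : (Fin (n + 1) → Fin N) → ℝ),
  Feas (bas a) (fun i => (u i : ℝ)) l → ∑ i, u i = M * (n + 1) → ∀ (q : ℕ) (Y : Fin N → ℤ), 0 < q →
  (∀ b ∈ bas a, ∑ j, Y (b j) ≤ q * val v (mnr a b)) →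
  (q : ℝ) * ∑ b, l b * (val v (mnr a b) : ℝ) = ∑ i, (u i : ℝ) * (Y i : ℝ) →
  ∃ B : Fin M → Fin (n + 1) → Fin N, (∀ t, B t ∈ bas a) ∧ (∀ i, (∑ t, ∑ j, if B t j = i then 1 else 0) = u i) ∧
    ∀ t, ∑ j, Y (B t j) = q * val v (mnr a (B t))

/-- **Imn** (EASY-MEDIUM; USES `StItg`).  Let `u i` be the natural number `M d i`; `Σ u i = M (n+1)`.  From `OptC`: `l`, `(q, Y)` with
`q mv = Σ d_i Y_i`, `mv = Σ l b c_b`.  Apply `StItg` to `M l` (a decomposition of `u`): `B ∈ Tup a d M` with `q c_(B t) = Σ_j Y (B t j)`, so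
`q Σ_t c_(B t) = Σ_t Σ_j Y (B t j) = Σ_i u_i Y_i = M q mv`, `Σ_t c_(B t) = M mv`.  Conversely for any `B ∈ Tup a d M` the function
`l' b = |{t : B t = b}| / M` is a decomposition of `d` with `Σ l' c = (1/M) Σ_t c_(B t)`, so `M mv ≤ Σ_t c_(B t)` (`IsLeast` in `OptC`). -/
def StImn : Prop := ∀ (κ : Prop) (K : Type u) [Field K] (v : AddValuation K (WithTop ℤ)), (∃ π : K, v π = 1) →
  ∀ (n N M : ℕ) (a : Fin N → Fin (n + 1) → K) (d : Fin N → ℝ) (T : ℝ), 0 < M → (∀ i, ∃ u : ℕ, (M : ℝ) * d i = u) →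
  ∑ i, d i = n + 1 → OptC κ a d T v →
  IsLeast {s : ℝ | ∃ B ∈ Tup a d M, s = ∑ t, (val v (mnr a (B t)) : ℝ)} (M * mv a d v)

/-- **Ixb** (EASY-MEDIUM; `M D_mod` is base-point free; USES `StBp3`, `StImn`).  `S` = the set of the units `∏_t mnr a (B t)`, `B ∈ Tup a d M`, if `Tup a d M` is not empty, and `{1}` otherwise;
`M' ν = - min_S val ν`; `Bpf Z M'` by `StBp3`.  For `DivOver Z ν`, `M' ν = - M mv a d ν = M Dmm a d ν` by `StImn` (which shows that `Tup` is not
empty).  Finally `Bpf Z M'` implies `Bpf Z (M Dmm)` because both functions agree on all `ν` with `DivOver Z ν`, and the definition of `Bpf Z`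
only speaks about such `ν`: `PD Z' ν` or `PDat Z' P ν` or `Divisorial`, `Cen P ν` with `P ∈ Z'`, `Mor Z' Z`; in each case `ν` is divisorial (`StPdd`) and has a
centre on `Z` (`StLoc` (2) for the point of `Z` dominated by its centre on `Z'`).  USES also `StPdd`, `StLoc` (hypotheses in the order `StBp3`, `StImn`,
`StPdd`, `StLoc`). -/
def StIxb : Prop := ∀ (κ : Prop) (k K : Type u) [Field k] [CharZero k] [Field K] [Algebra k K] (e n N M : ℕ) (r : Fin e → K)
  (Z : Set (Subalgebra k K)) (a : Fin N → Fin (n + 1) → K) (d : Fin N → ℝ) (T : AddValuation K (WithTop ℤ) → ℝ),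
  IsTranscendenceBasis k r → Vty Z → 0 < M → (∀ i, ∃ u : ℕ, (M : ℝ) * d i = u) → ∑ i, d i = n + 1 →
  (∀ v : AddValuation K (WithTop ℤ), DivOver Z v → OptC κ a d (T v) v) → Bpf Z (fun ν => M * Dmm a d ν)

/-- **Ixa** (EASY-MEDIUM; explicit coefficients; USES `StGrm`, `StPdd`, `StKru`, `StAvg`, `StImn`).  As `StAsa` (copy `HA/I_Asa.lean`), with the decomposition
`l b = |{t : B t = b}| / M` for the `B ∈ Tup a d M` with `Σ_t c_(B t) = M mv` (`StImn`): `Feas (bas a) d l`, `mv = Σ l b c_b`, and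
`Σ_b l b c b = (1/M) Σ_t c (B t) = j / M`. -/
def StIxa : Prop := ∀ (κ : Prop) (k K F : Type u) [Field k] [CharZero k] [Field K] [Field F] [Algebra k K] [Algebra k F]
  [Algebra K F] [IsScalarTower k K F] (e n N M : ℕ) (I : Set ℝ) (r : Fin e → K) (y : Fin n → F) (Z : Set (Subalgebra k K))
  (X : Set (Subalgebra k F)) (D : AddValuation F (WithTop ℤ) → ℝ) (L : AddValuation K (WithTop ℤ) → ℝ)
  (a : Fin N → Fin (n + 1) → K) (d : Fin N → ℝ) (Ξ : Kˣ →₀ ℝ), Fib κ I r y Z X D L → GenBy K y → (∀ i, a i ≠ 0) →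
  KeyId r y Z X D L a d Ξ → 0 < M → (∀ i, ∃ u : ℕ, (M : ℝ) * d i = u) →
  ∀ v : AddValuation K (WithTop ℤ), PD Z v → OptC κ a d (Tv r Z L Ξ v) v →
  ∃ (E : AddValuation F (WithTop ℤ)) (j μ : ℕ), PD X E ∧ Lies v E μ ∧ D E + j / M ≤ 1 ∧
    Ddd r Z L Ξ a d v = 1 - (1 - D E - j / M) / μ

/-- **Asg** (MEDIUM; part (c) in general; copy and generalize `HA/I_Asc.lean`; USES `StPdd`, `StEff`, `StWdl`, `StFsp`).  (1) `QFac Z` implies that the
trace of `Dmm` is `ℝ`-Cartier (first half of `I_Asc`).  (2) If the trace of `Dmm` is `ℝ`-Cartier then `Lc κ Z r Ddd`: the second half of `I_Asc`, where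
`QFac` is only used to get the representation `χ` of `mv = - Dmm` at `P`; take `-` the representation of `Dmm`. -/
def StAsg : Prop := ∀ (κ : Prop) (k K : Type u) [Field k] [CharZero k] [Field K] [Algebra k K] (e n N : ℕ) (r : Fin e → K)
  (Z : Set (Subalgebra k K)) (L : AddValuation K (WithTop ℤ) → ℝ) (a : Fin N → Fin (n + 1) → K) (d : Fin N → ℝ)
  (Ξ : Kˣ →₀ ℝ), IsTranscendenceBasis k r → Vty Z → IsDiv Z L → RCar Z L →
  (∀ v : AddValuation K (WithTop ℤ), DivOver Z v → OptC κ a d (Tv r Z L Ξ v) v) →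
  (QFac Z → RCar Z (Dmm a d)) ∧ (RCar Z (Dmm a d) → Lc κ Z r (Ddd r Z L Ξ a d))

end Pool.Agent.Work.MP_a2680c_ag.HA
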