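import Pool.Agent.Work.MP_a2680c_ag.HA.ApiG

/-!
# MP_a2680c_ag, block HA, part G: finite quotients and Galois forms

The generic fibre is dominated (crepantly) by a weighted hyperplane arrangement over `K'`: `K'/K`, `F'/F` finite Galois, `F' = K'(y)`.
Read `HA/DefsG.lean` and `HA/ApiG.lean` (PROVED lemmas `Api.lies_trans`, `Api.lies_mid`, `Api.lies_cg`, `Api.mnS_spec`,
`Api.ev_push_push`, `Api.val_natCast`, and the older ones in `HA/Api.lean`).  Notation of the docstrings: `r' = up K' r`, `l_i = lin y (a i)`.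

An item `NAME` is a theorem `pr_NAME : StNAME.{u}` (hypotheses: the statements named in the docstring, in that order) in the file
`HA/I_NAME.lean`, namespace `Pool.Agent.Work.MP_a2680c_ag.HA`, auxiliary lemmas in the namespace
`Pool.Agent.Work.MP_a2680c_ag.HA.XNAME`.  Import this file only; nobody waits for another item.  The statements `StDEX.{u,u,u}`,
`StLFT.{u,u,u}`, `StEXT.{u,u,u}`, `StRES.{u,u,u}`, `StAPX.{u}` are in `MP_7b66e6_ag/K/Stmts.lean`, `MgNOR.{u}` in `MP_7b66e6_ag/M/Stmts.lean` (imported).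
-/

set_option autoImplicit false

noncomputable section

namespace Pool.Agent.Work.MP_a2680c_ag.HA

open MP7b66e6 MP7b66e6.Q
open scoped BigOperators

universe u

/-- **Tbs** (EASY; no hypotheses).  `r` stays algebraically independent in `K'` (injectivity), and `K'` is algebraic over `K`, which is algebraic
over `k(r)`.  `Algebra.EssFiniteType.comp` (`K'/K` is of finite type). -/
def StTbs : Prop := ∀ (k K K' : Type u) [Field k] [Field K] [Field K'] [Algebra k K] [Algebra k K'] [Algebra K K']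
  [IsScalarTower k K K'] [FiniteDimensional K K'] (e : ℕ) (r : Fin e → K), IsTranscendenceBasis k r →
  IsTranscendenceBasis k (up K' r) ∧ (Algebra.EssFiniteType k K → Algebra.EssFiniteType k K')

/-- **Tbx** (EASY-MEDIUM; USES `StTbs`, `StTfr`).  `StTbs` for `K'/K` and `StTfr` for `(k, K', F')`: `F'/k` is essentially of finite type,
`trdeg k F' = e + n`, `cor (up K' r) y` is a transcendence basis.  `F'/F` is algebraic, so `trdeg k F = e + n`; `cor r x` is algebraically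
independent over `k` (`r` over `k`, `x` over `K`; see the proof of `pr_Tfr` in `HA/I_Tfr.lean`) and has `e + n` elements, so it is a transcendence
basis; `StTbs` for `F'/F`. -/
def StTbx : Prop := ∀ (k K F K' F' : Type u) [Field k] [Field K] [Field F] [Field K'] [Field F'] [Algebra k K] [Algebra k F]
  [Algebra k K'] [Algebra k F'] [Algebra K F] [Algebra K K'] [Algebra F F'] [Algebra K' F'] [IsScalarTower k K F]
  [IsScalarTower k K K'] [IsScalarTower k F F'] [IsScalarTower k K' F'] [FiniteDimensional K K'] [FiniteDimensional F F']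
  (e n : ℕ) (r : Fin e → K) (x : Fin n → F) (y : Fin n → F'), Algebra.EssFiniteType k K → IsTranscendenceBasis k r →
  GenBy K' y → AlgebraicIndependent K x → IsTranscendenceBasis k (cor r x) ∧ IsTranscendenceBasis k (up F' (cor r x)) ∧
    IsTranscendenceBasis k (cor (up K' r) y) ∧ Algebra.EssFiniteType k F'

/-- **Rmf** (MEDIUM; log discrepancy and finite extensions; USES `StDEX.{u,u,u}`, `StLFT.{u,u,u}`, `StLbs`).  `f`, `Θ` from `StLbs` for `ν`; `Θ'` the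
extensions to `K'` (`StDEX`), logarithmic at `ν'` (`StLFT` with `n = 0`).  `det (Θ'_i x_j) = algebraMap (det (Θ_i x_j))` has value `ε A`.
Lower bound: let `δ'` be a logarithmic tuple on `K'`.  (i) A derivation `E` of `K'` with `E x_j = 0` for all `j` is `0`: for a `K`-linear
functional `λ : K' → K` the map `λ ∘ E ∘ algebraMap` is a derivation of `K` which vanishes at the `x_j`, so it is `0` (`Dual`); hence `E = 0` on `K`, and
`E = 0` by `StDEX` (uniqueness).  (ii) So `E = Σ_j E(x_j) pd'_j` for every `E` (`pd'` = extensions of `pd`).  As `Θ_l = Σ_j Θ_l(x_j) pd_j`, the matrix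
`(Θ_l x_j)` is inverse to `(pd_j f_l / f_l)`, so `δ'_i x_j = Σ_l (δ'_i f_l / f_l) Θ_l x_j`, `det (δ'_i x_j) = det (δ'_i f_l / f_l) det (Θ_l x_j)` has
value `≥ 0 + ε A`. -/
def StRmf : Prop := ∀ (k K K' : Type u) [Field k] [CharZero k] [Field K] [Field K'] [Algebra k K] [Algebra k K'] [Algebra K K']
  [IsScalarTower k K K'] [FiniteDimensional K K'] (d : ℕ) (x : Fin d → K) (pd : Fin d → Derivation k K K), Dual x pd →
  ∀ (ν : AddValuation K (WithTop ℤ)) (ν' : AddValuation K' (WithTop ℤ)) (ε : ℕ), Divisorial k ν → Divisorial k ν' →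
  Lies ν ν' ε → ∀ A : ℤ, LogDisc k ν x A → LogDisc k ν' (up K' x) (ε * A)

/-- **Jcb** (EASY-MEDIUM; change of coordinates; USES `StTb`).  `pd` dual to `y` (`StTb`), `J = det (pd_i x_j)`.  For every tuple `δ`:
`δ_i x_j = Σ_l δ_i(y_l) pd_l x_j`, so `det (δ_i x_j) = det (δ_i y_l) J`.  With the tuple dual to `x` the left side is `1`, so `J ≠ 0`. -/
def StJcb : Prop := ∀ (k F : Type u) [Field k] [CharZero k] [Field F] [Algebra k F] [Algebra.EssFiniteType k F] (d : ℕ)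
  (x y : Fin d → F), IsTranscendenceBasis k x → IsTranscendenceBasis k y →
  ∃ J : Fˣ, ∀ (W : AddValuation F (WithTop ℤ)) (A : ℤ), LogDisc k W y A → LogDisc k W x (A + val W (J : F))

/-- **Cgd** (EASY; no hypotheses).  See `divisorial_conj` in `MP_7b66e6_ag/E/I_CEN.lean` (copy its proof: `C ↦ g⁻¹(C)`). -/
def StCgd : Prop := ∀ (k K K' : Type u) [Field k] [Field K] [Field K'] [Algebra k K] [Algebra k K'] [Algebra K K']
  [IsScalarTower k K K'] (g : K' ≃ₐ[K] K') (v' : AddValuation K' (WithTop ℤ)), Divisorial k v' → Divisorial k (cg g v')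

/-- **Cmp** (MEDIUM; a valuation of `F'` over given valuations of `F` and `K'`; USES `StEXT.{u,u,u}`, `StAPX.{u}`, `MgNOR.{u}`, `StCgd`).
`W₀` over `W` on `F'` (`StEXT`), `G = (F' ≃ₐ[F] F')`.  For `g ∈ G`: `W_g = cg g W₀` is divisorial, over `W` with the same index; its restriction
`μ_g` to `K'` (`Api.res`) is not trivial (on `K` it is a positive multiple of `v`); `ν_g` the normalized valuation (`MgNOR`), `μ_g = m_g ν_g`.
If `ν_g = v'` for some `g`, then `W' = W_g`, `m' = m_g`.  Suppose not.  `StAPX` (`ι` = `Fin` of the cardinality of `G`) gives `θ ∈ K'` with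
`v' (θ - 1) ≥ 1` and `ν_g θ ≥ 1` for all `g`; so `v' θ = 0` and `W₀ (g θ) ≥ 1` for all `g ∈ G`.  The polynomial
`P = ∏_g (T - g θ)` (or the minimal polynomial of `θ` over `F`, whose roots are conjugates `g θ`) has coefficients in `F`, which are
algebraic over `K` (`θ` is), hence in `K`: `P = T^s + Σ_(j < s) c_j T^j`, `s ≥ 1`, and `W₀ (c_j) > 0` (`c_j` is `±` a sum of products of at least one of
the `g θ`), so `v c_j > 0` and `v' c_j > 0` (or `c_j = 0`).  `θ^s = - Σ c_j θ^j` has `v'`-value `0` on the left and `> 0` on the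
right: contradiction. -/
def StCmp : Prop := ∀ (k K F K' F' : Type u) [Field k] [CharZero k] [Field K] [Field F] [Field K'] [Field F']
  [Algebra k K] [Algebra k F] [Algebra k K'] [Algebra k F'] [Algebra K F] [Algebra K K'] [Algebra K F'] [Algebra F F']
  [Algebra K' F'] [IsScalarTower k K F] [IsScalarTower k K K'] [IsScalarTower k F F'] [IsScalarTower k K' F']
  [IsScalarTower K F F'] [IsScalarTower K K' F'] [FiniteDimensional K K'] [FiniteDimensional F F'] [IsGalois F F'],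
  (∀ f : F, IsAlgebraic K f → ∃ c : K, algebraMap K F c = f) →
  ∀ (v : AddValuation K (WithTop ℤ)) (W : AddValuation F (WithTop ℤ)) (v' : AddValuation K' (WithTop ℤ)) (m ε : ℕ),
  Divisorial k W → Lies v W m → (∃ π : K', v' π = 1) → Lies v v' ε →
  ∃ (W' : AddValuation F' (WithTop ℤ)) (η m' : ℕ), Divisorial k W' ∧ Lies W W' η ∧ Lies v' W' m'

/-- **Upd** (EASY; USES `StCmp`).  `StCmp` with `K = F`, `K' = F'` (identity maps `K → F`, `K' → F'`), `v = W` (`m = 1`), `v' = W'`: there is a divisorial `W''` on `F'`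
with `val W'' f = m' val W' f` for all `f ≠ 0`; `W''` takes the value `1`, so `m' = 1` and `W'' = W'`. -/
def StUpd : Prop := ∀ (k F F' : Type u) [Field k] [CharZero k] [Field F] [Field F'] [Algebra k F] [Algebra k F'] [Algebra F F']
  [IsScalarTower k F F'] [FiniteDimensional F F'] [IsGalois F F'] (W : AddValuation F (WithTop ℤ))
  (W' : AddValuation F' (WithTop ℤ)) (η : ℕ), Divisorial k W → Lies W W' η → (∃ π : F', W' π = 1) → Divisorial k W'

/-- **Rmi** (EASY-MEDIUM; no hypotheses).  `W' π = 1`.  `1, π, ..., π^(η-1)` are linearly independent over `F`: in `Σ c_i π^i` the nonzero terms have the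
values `η val W (c_i) + i`, pairwise different modulo `η`, so the sum has the least of these values and is not `0`. -/
def StRmi : Prop := ∀ (F F' : Type u) [Field F] [Field F'] [Algebra F F'] [FiniteDimensional F F']
  (W : AddValuation F (WithTop ℤ)) (W' : AddValuation F' (WithTop ℤ)) (η : ℕ), Lies W W' η → (∃ π : F', W' π = 1) →
  η ≤ Module.finrank F F'

/-- **Nrm** (MEDIUM; norms of general combinations; no hypotheses).  `S = {s_1, ..., s_p}`, `G = (K' ≃ₐ[K] K')`; for `t = 0, 1, ..., |G| (p - 1)` let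
`σ_t = Σ_l t^(l-1) s_l ∈ K'`.  `T` = the set of the norms `N(σ_t) = ∏_g g σ_t ∈ K` (`Algebra.norm K`, `Algebra.norm_eq_prod_automorphisms`) of the
`σ_t ≠ 0`; not empty since `σ_0 = s_1`.  Let `v, v', ε, μ` be given.  (1) `v'(g σ_t) ≥ μ_g` for all `t`, `g` (natural numbers have value `≥ 0`), so
`ε val v (N σ_t) = val v' (N σ_t) = Σ_g val v' (g σ_t) ≥ Σ_g μ_g` if `σ_t ≠ 0`.  (2) For fixed `g` there are at most `p - 1` values of `t` with
`v'(g σ_t) > μ_g`: for `p` different values `t_1, ..., t_p` the Vandermonde determinant is a nonzero integer, of value `0`, so each `g s_l` is a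
combination of the `g σ_(t_j)` with coefficients of value `≥ 0` and `v'(g s_l) > μ_g` for all `l`, a contradiction.  So at most
`|G| (p - 1)` values of `t` are bad for some `g`, and there is one more: a `t` with `v'(g σ_t) = μ_g` for all `g` (in particular `σ_t ≠ 0`). -/
def StNrm : Prop := ∀ (K K' : Type u) [Field K] [CharZero K] [Field K'] [Algebra K K'] [FiniteDimensional K K'] [IsGalois K K']
  (S : Finset K'ˣ), S.Nonempty → ∃ T : Finset Kˣ, T.Nonempty ∧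
    ∀ (v : AddValuation K (WithTop ℤ)) (v' : AddValuation K' (WithTop ℤ)) (ε : ℕ), Lies v v' ε →
    (∀ m : ℕ, m ≠ 0 → v' (m : K') = 0) → ∀ μ : (K' ≃ₐ[K] K') → ℤ,
    (∀ g : K' ≃ₐ[K] K', IsLeast {t : ℤ | ∃ s ∈ S, t = val v' (g (s : K'))} (μ g)) →
    IsLeast {t : ℤ | ∃ s ∈ T, t = ε * val v (s : K)} (∑ g, μ g)

/-- **Nmx** (EASY-MEDIUM; norm of an `ℝ`-divisor; no hypotheses).  `Ξ₀ = Σ_s Ξ(s) [N s]` (sum over the support; `N` = norm as a map
`K'ˣ → Kˣ`, e.g. `Units.map`; `Finsupp.mapDomain`).  `ε val v (N s) = val v' (algebraMap (N s)) = Σ_g val v' (g s)`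
(`Algebra.norm_eq_prod_automorphisms`), so `ε ev v (mapDomain N Ξ) = Σ_g ev (cg g v') Ξ`; divide by `γ = finrank K K'`: `Ξ₀ = γ⁻¹ • ...`. -/
def StNmx : Prop := ∀ (K K' : Type u) [Field K] [Field K'] [Algebra K K'] [FiniteDimensional K K'] [IsGalois K K']
  (Ξ : K'ˣ →₀ ℝ), ∃ Ξ₀ : Kˣ →₀ ℝ, ∀ (v : AddValuation K (WithTop ℤ)) (v' : AddValuation K' (WithTop ℤ)) (ε : ℕ), Lies v v' ε →
    (Module.finrank K K' : ℝ) * (ε * ev v Ξ₀) = ∑ g : K' ≃ₐ[K] K', ev (cg g v') Ξ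

/-- **Csg** (MEDIUM; all constants; USES `StBa2`, `StPb`, `StFid`, `StDlt`, `StDcj`).  As `StCst` (copy `HA/I_Cst.lean`), with
`Λ` = all `l/η`, `l` a basic real decomposition of `d`, `1 ≤ η ≤ δ` (still finite): `(Σ l b κ b)/η = Σ (l b/η) κ b`. -/
def StCsg : Prop := ∀ (n δ : ℕ) (I : Set ℝ), I ⊆ Set.Ioc 0 1 → DCC I →
  ∃ (J Γ : Set ℝ) (m : ℕ), J ⊆ Set.Ioc 0 1 ∧ DCC J ∧ Γ ⊆ Set.Ioc 0 1 ∧ Γ.Finite ∧ 1 ≤ m ∧
    ∀ (N : ℕ) (d : Fin N → ℝ), (∀ i, d i ∈ I) → ∑ i, d i = n + 1 →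
      (∀ (S : Set (Fin (n + 1) → Fin N)) (l : (Fin (n + 1) → Fin N) → ℝ) (κ : (Fin (n + 1) → Fin N) → ℕ) (t : ℝ)
        (μ η : ℕ), Feas S d l → Basic l → (t = 0 ∨ t ∈ I) → 0 < μ → 0 < η → η ≤ δ →
        t + (∑ b, l b * (κ b : ℝ)) / η ≤ 1 →
        (1 - (1 - t - (∑ b, l b * (κ b : ℝ)) / η) / μ = 0 ∨ 1 - (1 - t - (∑ b, l b * (κ b : ℝ)) / η) / μ ∈ J)) ∧
      ∃ (l : ℕ) (a : Fin l → ℝ) (G : Fin l → Finset ((Fin (n + 1) → Fin N) → ℕ)),
        (∀ i, a i ∈ Γ) ∧ ∑ i, a i = 1 ∧ PbC d m a G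

/-- **Hul** (MEDIUM; the lower hull and norms; USES `StNrm`).  `G'_i = {κ ∈ G i : κ b = 0 for b ∉ bas a}`, not empty (`PbC`).  `S'_i` = the set of the units
`∏_b (mnr a b)^(κ b)` of `K'`, `κ ∈ G'_i` (product over `b ∈ bas a`; compare `HA/I_Asb.lean`); `S i` = the set `T` of `StNrm` for `S'_i`.  Let `v, v', ε` be
given.  For `g` and `i` let `μ_(g,i)` = the least value of `Σ_b κ b val (cg g v') (mnr a b)`, `κ ∈ G'_i`, i.e. of
`val v' (g s)`, `s ∈ S'_i`.  `PbC` for `c_b = val (cg g v') (mnr a b)`: `m mv a d (cg g v') = Σ_i w_i μ_(g,i)`.  `StNrm` and `Api.mnS_isLeast`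
(uniqueness of the least element): `ε mnS (S i) v = Σ_g μ_(g,i)`.  Sum over `g`. -/
def StHul : Prop := ∀ (K K' : Type u) [Field K] [CharZero K] [Field K'] [Algebra K K'] [FiniteDimensional K K'] [IsGalois K K']
  (n N : ℕ) (a : Fin N → Fin (n + 1) → K') (d : Fin N → ℝ) (m l : ℕ) (w : Fin l → ℝ)
  (G : Fin l → Finset ((Fin (n + 1) → Fin N) → ℕ)), PbC d m w G → (∃ l₀, Feas (bas a) d l₀) →
  ∃ S : Fin l → Finset Kˣ, (∀ i, (S i).Nonempty) ∧
    ∀ (v : AddValuation K (WithTop ℤ)) (v' : AddValuation K' (WithTop ℤ)) (ε : ℕ), Lies v v' ε →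
    (∀ m : ℕ, m ≠ 0 → v' (m : K') = 0) →
    (∀ g : K' ≃ₐ[K] K', IsLeast (vals (bas a) d fun b => val (cg g v') (mnr a b)) (mv a d (cg g v'))) →
    (m : ℝ) * ∑ g : K' ≃ₐ[K] K', mv a d (cg g v') = ε * ∑ i, w i * (mnS (S i) v : ℝ)

/-- **Keg** (MEDIUM; the key identity; USES `StTbs`, `StTbx`, `StTb`, `StCan`, `StGrm`, `StPdd`, `StOrd`, `StHor`, `StJac`, `StFac`, `StEff`, `StRmf`, `StJcb`,
`StUpd`).  Compare `HA/I_Key.lean`.  `Φ` from `Fib.triv`.  `EssFiniteType k K` (`StGrm` for `Z`), `k K'` (`StTbs`), `k F'` (`StTbx`).  `J` from `StJcb` on `F'` for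
`up F' (cor r x)` and `cor r' y` (transcendence bases by `StTbx`).  `l_i ≠ 0` (`StJac` for `k, K', F'`, first claim).
`Θ = push F F' Φ - [J] - Σ_i d_i [l_i]`.
(1) Let `OrdP y p ν'`, `ν, ε` from `Cov.fin`.  `ν' (p(y)) = 1`; `Divisorial k ν` (`StPdd`), so `Divisorial k ν'` (`StUpd`).  `StHor` for `k, K', F'`:
`LogDisc k ν' (cor r' y) 1`, so `LogDisc k ν' (up F' (cor r x)) (1 + val ν' J)`.  Let `LogDisc k ν (cor r x) A` (`StCan`, `Dual` from
`StTb`); `StRmf` and `Api.logDisc_unique`: `ε A = 1 + val ν' J`; `can k (cor r x) ν = A - 1`.  The ring `O` of `ν` is in `X` (`StPdd`), `P ∈ Z` with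
`Dom P O` (`Fib.mor`), `φ` a representation of `L` at `P`.  `ν'` is `0` on `K'^*`, so `ν` is `0` on `K^*` and `ev ν (push K F φ) = 0`.  `Fib.triv`:
`A - 1 + D ν = ev ν Φ`.  So `ev ν' (push F F' Φ) = ε ev ν Φ = ε A - ε (1 - D ν) = val ν' J + 1 - ε (1 - D ν) = val ν' J + Σ d_i val ν' l_i`
(`Api.ev_push_lies`), i.e. `ev ν' Θ = 0`.  `StFac` for `K', F'`: `Ξ` with `ev W' Θ = ev W' (push K' F' Ξ)` for all `W'`.
(2) Let `OrdI K' y ν'` (`StOrd`).  `ν' (y_0⁻¹) = 1`.  As in (1), with `LogDisc k ν' (cor r' y) (-n)`, `ε A = -n + val ν' J`: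
`ev ν' (push F F' Φ) = - n - 1 + val ν' J + Σ d_i (1 + val ν' l_i)`; and `ev ν' Θ = ev ν' (push Ξ) = 0`.  So `Σ d_i = n + 1`.
(3) `O, P, φ, ψ, W'` as in `KeyG`, `W = Api.res F W'` (`≥ 0` on `O`).  `ψ` and `push K F φ + Φ` represent `K_X + D` at `O` (`Fib.triv`), so by
`StEff` for `X` (basis `cor r x`, both signs) `ev W ψ = ev W (push K F φ) + ev W Φ`.  On `F'` (`Api.ev_res`, `Api.ev_push_push` for `K, F, F'`):
`ev W' (push ψ) = ev W' (push K F' φ) + ev W' (push Φ)`, and `ev W' (push Φ) = ev W' Θ + val W' J + Σ d_i val W' l_i`. -/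
def StKeg : Prop := ∀ (κ : Prop) (k K F K' F' : Type u) [Field k] [CharZero k] [Field K] [Field F] [Field K'] [Field F']
  [Algebra k K] [Algebra k F] [Algebra k K'] [Algebra k F'] [Algebra K F] [Algebra K K'] [Algebra K F'] [Algebra F F']
  [Algebra K' F'] [IsScalarTower k K F] [IsScalarTower k K K'] [IsScalarTower k F F'] [IsScalarTower k K' F']
  [IsScalarTower K F F'] [IsScalarTower K K' F'] [FiniteDimensional K K'] [FiniteDimensional F F'] [IsGalois F F']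
  (δ e n N : ℕ) (I : Set ℝ) (r : Fin e → K) (x : Fin n → F) (y : Fin n → F') (Z : Set (Subalgebra k K))
  (X : Set (Subalgebra k F)) (D : AddValuation F (WithTop ℤ) → ℝ) (L : AddValuation K (WithTop ℤ) → ℝ)
  (a : Fin N → Fin (n + 1) → K') (d : Fin N → ℝ), 1 ≤ n → Fib κ I r x Z X D L → Cov (K := K) δ I x y X D a d →
  ∃ (Ξ : K'ˣ →₀ ℝ) (J : F'ˣ), KeyG r x y Z X D L a d Ξ J

/-- **Twg** (MEDIUM; inequality (II); USES `StTbs`, `StTbx`, `StTb`, `StCan`, `StGrm`, `StCtr`, `StWdl`, `StTwa`, `StRmf`, `StRES.{u,u,u}`).  Compare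
`HA/I_Two.lean`.  `LogDisc k v r A` (`StCan`, `StTb`), so `LogDisc k v' r' (ε A)` (`StRmf`).  `StTwa` for `k, K', F', r', y, v'`:
`W', m', g, c` with `g m' = q`, `c + Y_i ≤ g val W' l_i`, and `g A' ≤ q ε A + (n+1) c` if `LogDisc k W' (cor r' y) A'` (exists: `StCan`, `StTb`).  `StRES`:
`W, η`, `Divisorial k W`, `Lies W W' η`.  `Api.lies_trans`, `Api.lies_mid`: `Lies v W μ`, `η μ = m' ε`.  `P ∈ Z` with `Cen P v`; `StCtr`: `O ∈ X`,
`Cen O W`, `Dom P O`.  `φ` represents `L` at `P`, `ψ` represents `K_X + D` at `O`.  `LogDisc k W (cor r x) B`; `StRmf` and `KeyG` (second part):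
`η B = A' + val W' J`.  `KeyG` (third part; `W' ≥ 0` on `O`) and `StWdl`:
`η ev W ψ = ev W' (push ψ) = m' ε Lv Z L v + val W' J + m' ev v' Ξ + Σ d_i val W' l_i`.  So
`g η (B - ev W ψ) = g A' - q ε Lv - q ev v' Ξ - Σ d_i g val W' l_i ≤ q ε A + (n+1) c - q ε Lv - q ev v' Ξ - Σ d_i (c + Y_i) = q Tg - Σ d_i Y_i`.
`t = (B - ev W ψ)/μ` is in `Dis`, `Pos κ t` by `Lc`, and `g η μ = g m' ε = q ε`. -/
def StTwg : Prop := ∀ (κ : Prop) (k K F K' F' : Type u) [Field k] [CharZero k] [Field K] [Field F] [Field K'] [Field F']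
  [Algebra k K] [Algebra k F] [Algebra k K'] [Algebra k F'] [Algebra K F] [Algebra K K'] [Algebra K F'] [Algebra F F']
  [Algebra K' F'] [IsScalarTower k K F] [IsScalarTower k K K'] [IsScalarTower k F F'] [IsScalarTower k K' F']
  [IsScalarTower K F F'] [IsScalarTower K K' F'] [FiniteDimensional K K'] [FiniteDimensional F F'] [IsGalois F F']
  (e n N : ℕ) (I : Set ℝ) (r : Fin e → K) (x : Fin n → F)
  (y : Fin n → F') (Z : Set (Subalgebra k K)) (X : Set (Subalgebra k F)) (D : AddValuation F (WithTop ℤ) → ℝ)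
  (L : AddValuation K (WithTop ℤ) → ℝ) (a : Fin N → Fin (n + 1) → K') (d : Fin N → ℝ) (Ξ : K'ˣ →₀ ℝ) (J : F'ˣ),
  Fib κ I r x Z X D L → GenBy K' y → AlgebraicIndependent K x → (∀ i, a i ≠ 0) →
  (∀ i, 0 ≤ d i) → KeyG r x y Z X D L a d Ξ J →
  (bas a).Nonempty → ∀ v : AddValuation K (WithTop ℤ), DivOver Z v → ∀ (v' : AddValuation K' (WithTop ℤ)) (ε : ℕ),
  Divisorial k v' → Lies v v' ε → ∀ (q : ℕ) (Y : Fin N → ℤ), 0 < q → (∀ b ∈ bas a, ∑ j, Y (b j) ≤ q * val v' (mnr a b)) →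
  ∃ t ∈ Dis r x X D v, Pos κ t ∧ (q : ℝ) * (ε * t) ≤ q * Tg r Z L Ξ v v' ε - ∑ i, d i * (Y i : ℝ)

/-- **Opg** (MEDIUM; linear programming; USES `StBa1`, `StBa2`, `StLpd`, `StTwg`).  As `StOpt` (copy `HA/I_Opt.lean`): extend the arrangement by the
unit vectors with weights `0` (`a⁺ = Fin.append a (fun j => Pi.single j 1)`, `d⁺ = Fin.append d 0`); `KeyG` holds for `a⁺, d⁺`, `bas a⁺` is not empty;
`StTwg` gives `Pos κ (q Tg - Σ d⁺_i Y_i)` for all feasible `(q, Y)` (`q ε t ≤ ...`, `Pos κ t`), and `StLpd` as in `StOpt`, with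
`T = Tg r Z L Ξ v v' ε` and the valuation `v'`. -/
def StOpg : Prop := ∀ (κ : Prop) (k K F K' F' : Type u) [Field k] [CharZero k] [Field K] [Field F] [Field K'] [Field F']
  [Algebra k K] [Algebra k F] [Algebra k K'] [Algebra k F'] [Algebra K F] [Algebra K K'] [Algebra K F'] [Algebra F F']
  [Algebra K' F'] [IsScalarTower k K F] [IsScalarTower k K K'] [IsScalarTower k F F'] [IsScalarTower k K' F']
  [IsScalarTower K F F'] [IsScalarTower K K' F'] [FiniteDimensional K K'] [FiniteDimensional F F'] [IsGalois F F']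
  (e n N : ℕ) (I : Set ℝ) (r : Fin e → K) (x : Fin n → F)
  (y : Fin n → F') (Z : Set (Subalgebra k K)) (X : Set (Subalgebra k F)) (D : AddValuation F (WithTop ℤ) → ℝ)
  (L : AddValuation K (WithTop ℤ) → ℝ) (a : Fin N → Fin (n + 1) → K') (d : Fin N → ℝ) (Ξ : K'ˣ →₀ ℝ) (J : F'ˣ),
  Fib κ I r x Z X D L → GenBy K' y → AlgebraicIndependent K x → (∀ i, a i ≠ 0) →
  (∀ i, 0 ≤ d i) → KeyG r x y Z X D L a d Ξ J →
  ∀ v : AddValuation K (WithTop ℤ), DivOver Z v → ∀ (v' : AddValuation K' (WithTop ℤ)) (ε : ℕ),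
  Divisorial k v' → Lies v v' ε → OptC κ a d (Tg r Z L Ξ v v' ε) v'

/-- **Avc** (MEDIUM; averaged inequality (I); USES `StTbs`, `StTbx`, `StTb`, `StCan`, `StGrm`, `StIne`, `StWdl`, `StRmf`).  Compare `HA/I_Avg.lean`.
`LogDisc k v r A`, `LogDisc k v' r' (ε A)` (`StRmf`), `LogDisc k W (cor r x) B`, `LogDisc k W' (cor r' y) A'` (`StCan`, `StTb`), and as in
`StTwg` `η B = A' + val W' J`.  `StIne` for `k, K', F', v', W'`: for `l b > 0` (so `b ∈ bas a`) the integer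
`c b = A' - (m' ε A - m' val v' (mnr a b) + Σ_j val W' l_(b j))` is `≥ 0` (`c b = 0` for the other `b`).  Multiply by `l b` and sum (`Σ l b = 1`,
`Σ_b l b Σ_j val W' l_(b j) = Σ d_i val W' l_i`; lemmas in `HA/I_Avg.lean`): `A' = m' ε A - m' mv a d v' + Σ d_i val W' l_i + Σ l b c b`.  `KeyG` and
`StWdl`: `η ev W ψ = m' ε Lv Z L v + val W' J + m' ev v' Ξ + Σ d_i val W' l_i`.  So
`η (B - ev W ψ) = m' (ε (A - Lv) - ev v' Ξ - mv a d v') + Σ l b c b`. -/
def StAvc : Prop := ∀ (κ : Prop) (k K F K' F' : Type u) [Field k] [CharZero k] [Field K] [Field F] [Field K'] [Field F']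
  [Algebra k K] [Algebra k F] [Algebra k K'] [Algebra k F'] [Algebra K F] [Algebra K K'] [Algebra K F'] [Algebra F F']
  [Algebra K' F'] [IsScalarTower k K F] [IsScalarTower k K K'] [IsScalarTower k F F'] [IsScalarTower k K' F']
  [IsScalarTower K F F'] [IsScalarTower K K' F'] [FiniteDimensional K K'] [FiniteDimensional F F'] [IsGalois F F']
  (e n N : ℕ) (I : Set ℝ) (r : Fin e → K) (x : Fin n → F)
  (y : Fin n → F') (Z : Set (Subalgebra k K)) (X : Set (Subalgebra k F)) (D : AddValuation F (WithTop ℤ) → ℝ)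
  (L : AddValuation K (WithTop ℤ) → ℝ) (a : Fin N → Fin (n + 1) → K') (d : Fin N → ℝ) (Ξ : K'ˣ →₀ ℝ) (J : F'ˣ),
  Fib κ I r x Z X D L → GenBy K' y → AlgebraicIndependent K x → (∀ i, a i ≠ 0) →
  (∀ i, 0 ≤ d i) → KeyG r x y Z X D L a d Ξ J →
  ∀ (v : AddValuation K (WithTop ℤ)) (v' : AddValuation K' (WithTop ℤ)) (ε : ℕ), Divisorial k v → Divisorial k v' →
  Lies v v' ε → ∀ l : (Fin (n + 1) → Fin N) → ℝ, Feas (bas a) d l → mv a d v' = ∑ b, l b * (val v' (mnr a b) : ℝ) →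
  ∀ (W : AddValuation F (WithTop ℤ)) (W' : AddValuation F' (WithTop ℤ)) (η m' : ℕ) (O : Subalgebra k F)
    (P : Subalgebra k K), Divisorial k W → Divisorial k W' → Lies W W' η → Lies v' W' m' → O ∈ X → P ∈ Z → Dom P O →
  (∀ f ∈ O, 0 ≤ W f) → (∀ f ∈ P, 0 ≤ v f) → ∀ ψ : Fˣ →₀ ℝ, Rep X (fun ν => can k (cor r x) ν + D ν) O ψ →
  ∃ c : (Fin (n + 1) → Fin N) → ℕ,
    (η : ℝ) * (1 + can k (cor r x) W - ev W ψ) = m' * (Tg r Z L Ξ v v' ε - mv a d v') + ∑ b, l b * (c b : ℝ)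

/-- **Dsg** (EASY-MEDIUM; the discriminant; USES `StCmp`, `StTwg`, `StAvc`).  Lower bound: let `(1 + can W - ev W φ)/m ∈ Dis`, `P ∈ Z` with `Dom P O` (`Fib.mor`);
`v ≥ 0` on `P` (`Lies`, `W ≥ 0` on `O ⊇ P`).  `StCmp`: `W', η, m'` with `Lies W W' η`, `Lies v' W' m'`; `η m = m' ε` (both are the index of
`W'` over `v`: `Api.lies_trans`, evaluate at `π`, `v π = 1`).  `StAvc` with the `l` of `OptC`: `η (1 + can W - ev W φ) ≥ m' (Tg - mv)`; divide by
`η m = m' ε`.  Attained: `(q, Y)` from `OptC`, `q mv = Σ d_i Y_i`; `bas a` is not empty (`Feas`, `Σ d_i = n + 1 ≠ 0`).  `StTwg`: `t ∈ Dis` with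
`q ε t ≤ q (Tg - mv)`, so `t ≤ (Tg - mv)/ε`, and equality by the lower bound. -/
def StDsg : Prop := ∀ (κ : Prop) (k K F K' F' : Type u) [Field k] [CharZero k] [Field K] [Field F] [Field K'] [Field F']
  [Algebra k K] [Algebra k F] [Algebra k K'] [Algebra k F'] [Algebra K F] [Algebra K K'] [Algebra K F'] [Algebra F F']
  [Algebra K' F'] [IsScalarTower k K F] [IsScalarTower k K K'] [IsScalarTower k F F'] [IsScalarTower k K' F']
  [IsScalarTower K F F'] [IsScalarTower K K' F'] [FiniteDimensional K K'] [FiniteDimensional F F'] [IsGalois F F']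
  (e n N : ℕ) (I : Set ℝ) (r : Fin e → K) (x : Fin n → F)
  (y : Fin n → F') (Z : Set (Subalgebra k K)) (X : Set (Subalgebra k F)) (D : AddValuation F (WithTop ℤ) → ℝ)
  (L : AddValuation K (WithTop ℤ) → ℝ) (a : Fin N → Fin (n + 1) → K') (d : Fin N → ℝ) (Ξ : K'ˣ →₀ ℝ) (J : F'ˣ),
  Fib κ I r x Z X D L → GenBy K' y → AlgebraicIndependent K x → (∀ i, a i ≠ 0) →
  (∀ i, 0 ≤ d i) → KeyG r x y Z X D L a d Ξ J →
  (∀ f : F, IsAlgebraic K f → ∃ c : K, algebraMap K F c = f) →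
  ∀ v : AddValuation K (WithTop ℤ), DivOver Z v → ∀ (v' : AddValuation K' (WithTop ℤ)) (ε : ℕ),
  Divisorial k v' → Lies v v' ε → OptC κ a d (Tg r Z L Ξ v v' ε) v' →
  IsLeast (Dis r x X D v) ((Tg r Z L Ξ v v' ε - mv a d v') / ε)

/-- **Lst** (EASY-MEDIUM; averaging over the Galois group; USES `StCgd`).  `hD` says that `(Tg v' - mv v')/ε` is the least element of `𝒟` for all `v'` over `v`.
For `g ∈ G = (K' ≃ₐ[K] K')` the valuation `cg g v'` is divisorial (`StCgd`) and over `v` with index `ε` (`Api.lies_cg`), so all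
`Tg r Z L Ξ v (cg g v') ε - mv a d (cg g v')` are equal to `ε t`, `t` the least element of `𝒟` (uniqueness).  Sum over `g`, `γ = finrank K K' = |G|`
(`IsGalois.card_aut_eq_finrank`): `γ ε t = γ ε (1 + can v - Lv v) - Σ_g ev (cg g v') Ξ - Σ_g mv a d (cg g v')`, the first sum is
`γ ε ev v Ξ₀` (`hN`), and `Σ_g mv a d (cg g v') = γ ε (- Dmg v)` (`hS`, `M = m γ`; `v' = 0` on natural numbers by `Api.val_natCast`, `v' ≥ 0` on `k`).  Divide by `γ ε`:
`t = Tv r Z L Ξ₀ v + Dmg w S (m γ) v`. -/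
def StLst : Prop := ∀ (k K K' : Type u) [Field k] [CharZero k] [Field K] [Field K'] [Algebra k K] [Algebra k K'] [Algebra K K']
  [IsScalarTower k K K'] [FiniteDimensional K K'] [IsGalois K K'] (e n N m l : ℕ) (r : Fin e → K) (Z : Set (Subalgebra k K))
  (L : AddValuation K (WithTop ℤ) → ℝ) (a : Fin N → Fin (n + 1) → K') (d : Fin N → ℝ) (Ξ : K'ˣ →₀ ℝ) (Ξ₀ : Kˣ →₀ ℝ)
  (w : Fin l → ℝ) (S : Fin l → Finset Kˣ) (v : AddValuation K (WithTop ℤ)) (𝒟 : Set ℝ), 0 < m →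
  (∀ (v' : AddValuation K' (WithTop ℤ)) (ε : ℕ), Lies v v' ε →
    (Module.finrank K K' : ℝ) * (ε * ev v Ξ₀) = ∑ g : K' ≃ₐ[K] K', ev (cg g v') Ξ) →
  (∀ (v' : AddValuation K' (WithTop ℤ)) (ε : ℕ), Lies v v' ε → (∀ m : ℕ, m ≠ 0 → v' (m : K') = 0) →
    (∀ g : K' ≃ₐ[K] K', IsLeast (vals (bas a) d fun b => val (cg g v') (mnr a b)) (mv a d (cg g v'))) →
    (m : ℝ) * ∑ g : K' ≃ₐ[K] K', mv a d (cg g v') = ε * ∑ i, w i * (mnS (S i) v : ℝ)) →
  (∀ (v' : AddValuation K' (WithTop ℤ)) (ε : ℕ), Divisorial k v' → Lies v v' ε →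
    IsLeast (vals (bas a) d fun b => val v' (mnr a b)) (mv a d v') ∧
    IsLeast 𝒟 ((Tg r Z L Ξ v v' ε - mv a d v') / ε)) →
  ∀ (v' : AddValuation K' (WithTop ℤ)) (ε : ℕ), Divisorial k v' → Lies v v' ε →
    (Module.finrank K K' : ℝ) * (ε * (- Dmg w S (m * Module.finrank K K') v)) = ∑ g : K' ≃ₐ[K] K', mv a d (cg g v') ∧
    (Tg r Z L Ξ v v' ε - mv a d v') / ε = Tv r Z L Ξ₀ v + Dmg w S (m * Module.finrank K K') v

/-- **Krg** (MEDIUM; a divisor of `X` over a prime divisor of `Z`; USES `NgPDV.{u,u}`, `StLoc`, `StPdd`, `StGrm`, `StCtr`).  As `StKru` (copy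
`HA/I_Kru.lean`): the valuation `W` is now given (there it is a Gauss valuation), and `Germ O s` from `StGrm` for `X`, `trdeg k F = s`. -/
def StKrg : Prop := ∀ (k K F : Type u) [Field k] [CharZero k] [Field K] [Field F] [Algebra k K] [Algebra k F] [Algebra K F]
  [IsScalarTower k K F] (s : ℕ) (Z : Set (Subalgebra k K)) (X : Set (Subalgebra k F)), Algebra.trdeg k F = (s : Cardinal) →
  Vty Z → Vty X → Mor X Z → Prp X Z → ∀ v : AddValuation K (WithTop ℤ), PD Z v →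
  (∃ (W : AddValuation F (WithTop ℤ)) (m : ℕ), (∀ c : k, 0 ≤ W (algebraMap k F c)) ∧ Lies v W m) →
  ∃ (E : AddValuation F (WithTop ℤ)) (m : ℕ) (O : Subalgebra k F) (P : Subalgebra k K), Divisorial k E ∧ Lies v E m ∧ O ∈ X ∧
    PDat X O E ∧ P ∈ Z ∧ Dom P O ∧ ∀ f : K, f ∈ P ↔ 0 ≤ v f

/-- **Aag** (MEDIUM; coefficients of the discriminant; USES `StTbs`, `StTbx`, `StTb`, `StGrm`, `StPdd`, `StMnv`, `StKrg`, `StCmp`, `StRmi`, `StAvc`).  `v' π' = 1` for some
`π'` (`Divisorial`).  `W₀` = the Gauss valuation of `F'` over `v'` (`StMnv` for `K', F', y`, `q = 1`, `w = 0`; constants give `g val W₀ c = val v' c`, so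
`g = 1`, `Lies v' W₀ 1`); its restriction `Api.res F W₀` to `F` lies over `v` (`Api.lies_trans`: `val` on `K` is `ε val v`) and is `≥ 0` on `k`.  `StKrg`
(`trdeg k F = e + n`: `StTb` for `cor r x`, or `IsTranscendenceBasis` and cardinality): `E, μ, O, P`.  `StCmp` for `E`, `v'`:
`W', η, m'`; `η ≤ finrank F F'` (`StRmi`), `η μ = m' ε`.  `ψ` represents `K_X + D` at `O`; `PDat X O E`: `1 + can E - ev E ψ = 1 - D E`.  `StAvc`:
`η (1 - D E) = m' (Tg - mv) + Σ l b c b`.  Divide by `η` and use `m' / η = μ / ε`. -/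
def StAag : Prop := ∀ (κ : Prop) (k K F K' F' : Type u) [Field k] [CharZero k] [Field K] [Field F] [Field K'] [Field F']
  [Algebra k K] [Algebra k F] [Algebra k K'] [Algebra k F'] [Algebra K F] [Algebra K K'] [Algebra K F'] [Algebra F F']
  [Algebra K' F'] [IsScalarTower k K F] [IsScalarTower k K K'] [IsScalarTower k F F'] [IsScalarTower k K' F']
  [IsScalarTower K F F'] [IsScalarTower K K' F'] [FiniteDimensional K K'] [FiniteDimensional F F'] [IsGalois F F']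
  (e n N : ℕ) (I : Set ℝ) (r : Fin e → K) (x : Fin n → F)
  (y : Fin n → F') (Z : Set (Subalgebra k K)) (X : Set (Subalgebra k F)) (D : AddValuation F (WithTop ℤ) → ℝ)
  (L : AddValuation K (WithTop ℤ) → ℝ) (a : Fin N → Fin (n + 1) → K') (d : Fin N → ℝ) (Ξ : K'ˣ →₀ ℝ) (J : F'ˣ),
  Fib κ I r x Z X D L → GenBy K' y → AlgebraicIndependent K x → (∀ i, a i ≠ 0) →
  (∀ i, 0 ≤ d i) → KeyG r x y Z X D L a d Ξ J →
  (∀ f : F, IsAlgebraic K f → ∃ c : K, algebraMap K F c = f) →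
  ∀ v : AddValuation K (WithTop ℤ), PD Z v → ∀ (v' : AddValuation K' (WithTop ℤ)) (ε : ℕ), Divisorial k v' →
  Lies v v' ε → ∀ l : (Fin (n + 1) → Fin N) → ℝ, Feas (bas a) d l → mv a d v' = ∑ b, l b * (val v' (mnr a b) : ℝ) →
  ∃ (E : AddValuation F (WithTop ℤ)) (c : (Fin (n + 1) → Fin N) → ℕ) (μ η : ℕ), PD X E ∧ Lies v E μ ∧ 0 < η ∧
    η ≤ Module.finrank F F' ∧
    1 - D E - (∑ b, l b * (c b : ℝ)) / η = μ * ((Tg r Z L Ξ v v' ε - mv a d v') / ε)

/-- **Abg** (EASY; part (b); USES `StBp3`).  `(c M) Dmg w S M ν = Σ_i w_i M_i ν` with `M_i ν = - c mnS (S i) ν`, the function of `StBp3` for the finite set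
of the `c`-th powers of the elements of `S i` (`val ν (s^c) = c val ν s`, `Api.mnS_spec`). -/
def StAbg : Prop := ∀ (k K : Type u) [Field k] [CharZero k] [Field K] [Algebra k K] (e l M c : ℕ) (r : Fin e → K)
  (Z : Set (Subalgebra k K)) (Γ : Set ℝ) (w : Fin l → ℝ) (S : Fin l → Finset Kˣ), IsTranscendenceBasis k r → Vty Z →
  0 < M → 0 < c → (∀ i, w i ∈ Γ) → ∑ i, w i = 1 → (∀ i, (S i).Nonempty) →
  GBpf Z Γ (fun ν => ((c * M : ℕ) : ℝ) * Dmg w S M ν)

/-- **Acg** (MEDIUM; part (c); USES `StPdd`, `StEff`, `StWdl`, `StFsp`).  As `StAsg` (copy `HA/I_Asg.lean`), with `Dmg w S M` instead of `Dmm a d`.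
(1) `Dmg w S M ν = 0` for the `PD Z ν` with `val ν s = 0` for all `s` in the finitely many finite sets `S i` (`StFsp`), so the
trace has finite support, and `QFac` gives a representation.  (2) Let `χ` represent `- Dmg` at `P` and `Cen P v`, `v` divisorial.  For every `i` choose
`s_i ∈ S i` with `val v s_i = mnS (S i) v`; `ω = Σ_i (w_i/M) [s_i]` satisfies `ev v ω = - Dmg v` and `ev ν ω ≥ - Dmg ν` for all `ν`
(`w_i ≥ 0`), so `ev v χ ≤ ev v ω = - Dmg v` by `StEff`, and `1 + can v - ev v φ' = Tv v - ev v χ ≥ Tv v + Dmg v`, `Pos κ`. -/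
def StAcg : Prop := ∀ (κ : Prop) (k K : Type u) [Field k] [CharZero k] [Field K] [Algebra k K] (e l M : ℕ) (r : Fin e → K)
  (Z : Set (Subalgebra k K)) (L : AddValuation K (WithTop ℤ) → ℝ) (Ξ : Kˣ →₀ ℝ) (w : Fin l → ℝ) (S : Fin l → Finset Kˣ),
  IsTranscendenceBasis k r → Vty Z → IsDiv Z L → RCar Z L → 0 < M → (∀ i, 0 ≤ w i) → (∀ i, (S i).Nonempty) →
  (∀ v : AddValuation K (WithTop ℤ), DivOver Z v → Pos κ (Tv r Z L Ξ v + Dmg w S M v)) →
  (QFac Z → RCar Z (Dmg w S M)) ∧ (RCar Z (Dmg w S M) → Lc κ Z r (Ddg r Z L Ξ w S M))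

/-- **Adg** (EASY-MEDIUM; part (d) in general; USES `StLoc`, `StTb`, `StGrm`, `StPdd`, `StEff`, `StWdl`).  Compare `HA/I_Asd.lean`.
(1) `ℝ`-Cartier on `Z'`: as in `StAsd` (`φ + Ξ` is a representation at `P' ∈ Z'` if `φ` represents `L` at `P`, `Dom P P'`).
(2) `Φ` from `Fib.triv`, `Ψ = Φ - push K F Ξ`.  Given `O', O, P', φ, ψ, ν` as in `Crep`: `P ∈ Z`, `Dom P P'`, and `P₀ ∈ Z`, `Dom P₀ O`.  `ν ≥ 0` on
`O'`, hence on `O`, `P₀`, `P'`, `P`.  `w = Api.res K ν`.  `φ₀`, `φ₁` representations of `L` at `P₀`, `P`.  `φ` and `push φ₀ + Φ` represent `K_X + D` at `O`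
(`Fib.triv`), so `ev ν φ = ev w φ₀ + ev ν Φ` (`StEff` for `X`, basis `cor r x`, both signs); `ev w φ₀ = Lv Z L w = ev w φ₁` (`StWdl`).  `ψ` and
`φ₁ + Ξ` represent the same divisor at `P'` (by (1) and `hsum`), so `ev w ψ = ev w φ₁ + ev w Ξ` (`StEff` for `Z'`).  Together. -/
def StAdg : Prop := ∀ (κ : Prop) (k K F : Type u) [Field k] [CharZero k] [Field K] [Field F] [Algebra k K] [Algebra k F]
  [Algebra K F] [IsScalarTower k K F] (e n : ℕ) (I : Set ℝ) (r : Fin e → K) (x : Fin n → F) (Z : Set (Subalgebra k K))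
  (X : Set (Subalgebra k F)) (D : AddValuation F (WithTop ℤ) → ℝ) (L : AddValuation K (WithTop ℤ) → ℝ) (Ξ : Kˣ →₀ ℝ)
  (Dd Dm : AddValuation K (WithTop ℤ) → ℝ), Fib κ I r x Z X D L → IsTranscendenceBasis k (cor r x) →
  (∀ ν : AddValuation K (WithTop ℤ), can k r ν + Dd ν + Dm ν = Lv Z L ν + ev ν Ξ) → Crep r x Z X D Dd Dm

/-- **Afg** (EASY-MEDIUM; finite supports; USES `StFsp`, `StFsc`, `StLfs`).  As `StAsf` (copy `HA/I_Asf.lean`): `Ddg = Lv + ev Ξ - can - Dmg`, and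
`Dmg w S M ν = 0` unless `val ν s ≠ 0` for some `s ∈ S i`, some `i`. -/
def StAfg : Prop := ∀ (k K : Type u) [Field k] [CharZero k] [Field K] [Algebra k K] (e l M : ℕ) (r : Fin e → K)
  (Z : Set (Subalgebra k K)) (L : AddValuation K (WithTop ℤ) → ℝ) (Ξ : Kˣ →₀ ℝ) (w : Fin l → ℝ) (S : Fin l → Finset Kˣ),
  IsTranscendenceBasis k r → Vty Z → IsDiv Z L → RCar Z L → IsB Z (Ddg r Z L Ξ w S M) ∧ IsB Z (Dmg w S M)

/-- **Ibg** (EASY-MEDIUM; `M [K':K] D_mod` is base-point free; USES `StBp3`, `StImn`, `StPdd`, `StLoc`, `StNrm`).  Compare `HA/I_Ixb.lean`.  If `Tup a d M` is not empty let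
`S'` = the set of the units `∏_t mnr a (B t)` of `K'`, `B ∈ Tup a d M`, and `T` from `StNrm`; otherwise `T = {1}`.  `M' ν = - mnS T ν`: `Bpf Z M'` by `StBp3`.
For `DivOver Z ν` let `v', ε` be as in `hO`: for every `g`, `M mv a d (cg g v')` is the least value of `Σ_t val v' (g (mnr a (B t)))`, `B ∈ Tup a d M` (`StImn`; so `Tup` is not
empty), so by `StNrm` `ε mnS T ν = Σ_g M mv a d (cg g v') = M γ ε (- Dm ν)` (`v' = 0` on natural numbers: `Api.val_natCast`), i.e. `M' ν = M γ Dm ν`.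
`Bpf Z` depends only on the values at `DivOver Z ν`, as in `StIxb`. -/
def StIbg : Prop := ∀ (κ : Prop) (k K K' : Type u) [Field k] [CharZero k] [Field K] [Field K'] [Algebra k K] [Algebra k K']
  [Algebra K K'] [IsScalarTower k K K'] [FiniteDimensional K K'] [IsGalois K K'] (e n N M : ℕ) (r : Fin e → K)
  (Z : Set (Subalgebra k K)) (a : Fin N → Fin (n + 1) → K') (d : Fin N → ℝ) (Dm : AddValuation K (WithTop ℤ) → ℝ),
  IsTranscendenceBasis k r → Vty Z → 0 < M → (∀ i, ∃ u : ℕ, (M : ℝ) * d i = u) → ∑ i, d i = n + 1 →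
  (∀ v : AddValuation K (WithTop ℤ), DivOver Z v → ∃ (v' : AddValuation K' (WithTop ℤ)) (ε : ℕ), Divisorial k v' ∧
    Lies v v' ε ∧ (∀ g : K' ≃ₐ[K] K', (∃ π : K', cg g v' π = 1) ∧ ∃ T : ℝ, OptC κ a d T (cg g v')) ∧
    (Module.finrank K K' : ℝ) * (ε * (- Dm v)) = ∑ g : K' ≃ₐ[K] K', mv a d (cg g v')) →
  Bpf Z (fun ν => ((M * Module.finrank K K' : ℕ) : ℝ) * Dm ν)

end Pool.Agent.Work.MP_a2680c_ag.HA
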