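import Pool.Agent.Work.MP_a2680c_ag.HA.StmtsG
import Pool.Agent.Work.MP_a2680c_ag.HA.DefsR

/-!
# MP_a2680c_ag, block HA, part R: general members without resolution of singularities

The remaining point of question Q1 (part (c) for every base `Z`): replace the moduli part by general members of the free linear systems.
We need (STAR): if `1 - D_div v = T_v + D_mod v`, `- M D_mod v = Σ w_i min_(s ∈ S i) v(s)`, and `σ_i = Σ_(s ∈ S i) t_(i,s) s` with general
constants `t_(i,s) ∈ k`, then `Σ_i (v(σ_i) - min_(s ∈ S i) v(s)) ≤ 1 - D_div v` for all divisors `v` over `Z`.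

IDEA.  `k` algebraically closed of infinite transcendence degree over `ℚ`.  There are an endomorphism `ι` of the field `k` and an
endomorphism `I` of `K` over it (`I(c) = ι(c)` for `c ∈ k`) which fixes all finitely many functions that occur (the coordinates, the
generators of the charts, local equations, the elements of `S i`), and the `t_(i,s)` are independent over `ι(k)`: there are
derivations `∂_(i,s)` of `k` which kill `ι(k)` and are dual to the `t_(i,s)`.  Let `v` be a divisor over `Z` and `μ = v ∘ I`.  The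
derivations `∂_(i,s)` lift to derivations of `K` which are LOGARITHMIC at `v` (item Lg).  With them and the coordinates
`σ_i / s_i` one gets (item Dt) that `A(v)` is at least the log discrepancy of `μ` plus `Σ_i (v(σ_i) - v(s_i))`, `s_i ∈ S i` of
least value; so (item Ky) `μ` is trivial or a multiple of a divisor `w` over `Z`, and `1 - D_div w ≥ 0` gives (STAR).

An item `NAME` is a theorem `pr_NAME : StNAME.{u}` (hypotheses: the statements named in the docstring, in that order) in the file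
`HA/I_NAME.lean`, namespace `Pool.Agent.Work.MP_a2680c_ag.HA`, auxiliary lemmas in the namespace
`Pool.Agent.Work.MP_a2680c_ag.HA.XNAME`.  Import this file only (and landed `I_` files of the libraries if you copy from them).
Small proved lemmas: `HA/Api.lean`, `HA/ApiG.lean` (`Api.val_mul`, `Api.val_prod`, `Api.coe_val`, `Api.val_algebraMap`, ...).
All derivations `D : Derivation ℤ K K` are additive maps with the Leibniz rule.
-/

set_option autoImplicit false

noncomputable section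

namespace Pool.Agent.Work.MP_a2680c_ag.HA

open MP7b66e6 MP7b66e6.Q
open scoped BigOperators

universe u v

/-- the general member `Σ_(s ∈ S) t_s s` -/
def sgm {k K : Type u} [Field k] [Field K] [Algebra k K] (S : Finset Kˣ) (t : Kˣ → k) : K :=
  ∑ s ∈ S, algebraMap k K (t s) * (s : K)

/-- `D` extends the derivation `δ` of `k` -/
def Ext {k K : Type u} [Field k] [Field K] [Algebra k K] (δ : Derivation ℤ k k) (D : Derivation ℤ K K) : Prop :=
  ∀ c : k, D (algebraMap k K c) = algebraMap k K (δ c)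

/-- **Rex** (EASY-MEDIUM; extension of derivations; no hypotheses; `theorem pr_Rex : StRex.{u, v}`).  On `k[T] = MvPolynomial γ k` let `D₀` = `δ` on the coefficients
(`T_g ↦ 0`) plus `Σ_g c_g ∂/∂T_g`, with values in `K` (through `T_g ↦ t_g`).  It extends to the field `k(t)` (quotient rule) and to the
algebraic separable extension `K` of `k(t)` (also infinite).  Ways: (1) `Algebra.FormallyEtale` of a separable algebraic extension
(`Algebra.FormallyEtale.of_isSeparable`) and of a localization, lifting a ring homomorphism to the dual numbers `K[ε]` (`TrivSqZeroExt` or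
`DualNumber`): `k[T] → K[ε]`, `P ↦ P(t) + ε D₀ P`, lifts to `K → K[ε]` over `K[ε] → K`; the `ε`-part of the lift is `D`.  (2) By hand with minimal
polynomials and Zorn. -/
def StRex : Prop := ∀ (k K : Type u) [Field k] [CharZero k] [Field K] [Algebra k K] (γ : Type v) (t : γ → K),
  IsTranscendenceBasis k t → ∀ (δ : Derivation ℤ k k) (c : γ → K),
  ∃ D : Derivation ℤ K K, Ext δ D ∧ ∀ g, D (t g) = c g

/-- **Rka** (MEDIUM; the endomorphism of `k`; USES `StRex.{u, u}`).  `k₀ = IntermediateField.adjoin ℚ B`, `x : β → k` a transcendence basis of `k`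
over `k₀`.  `β` is infinite: otherwise `k` is algebraic over `k₀(x)`, which is generated over `ℚ` by a finite set, so `Algebra.trdeg ℚ k` is finite.
So there is a bijection `β ⊕ Fin N ≃ β`; let `x' : β → k`, `t : Fin N → k` be the two parts of the basis.  `x'` is algebraically independent over
`k₀`, so there is a `k₀`-homomorphism of fields `k₀(x) → k`, `x_b ↦ x'_b`, and it extends to `ι : k → k` (`k` is algebraic over `k₀(x)`,
target algebraically closed: `IsAlgClosed.lift`).  `pt i` = the derivation of `k` from `StRex` (ground field `k₀`, `δ = 0`, basis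
`x`, `c` = `1` at the basis element `t_i`, `0` else).  It kills `k₀`, the `x'_b`, so the field `ι(k₀(x))`.  For `c ∈ k` let `P` be the
minimal polynomial over `k₀(x)`, `P^ι` its image; `0 = pt i (P^ι(ι c)) = (P^ι)'(ι c) pt i (ι c)` and `(P^ι)'(ι c) = ι(P'(c)) ≠ 0`. -/
def StRka : Prop := ∀ (k : Type u) [Field k] [CharZero k] [IsAlgClosed k], Cardinal.aleph0 ≤ Algebra.trdeg ℚ k →
  ∀ (B : Finset k) (N : ℕ), ∃ (ι : k →+* k) (t : Fin N → k) (pt : Fin N → Derivation ℤ k k), (∀ b ∈ B, ι b = b) ∧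
    (∀ i c, pt i (ι c) = 0) ∧ ∀ i j, pt i (t j) = if i = j then 1 else 0

/-- **Rkb** (MEDIUM; the endomorphism of `K`; no hypotheses).  `K` is the fraction field of a finitely generated `k`-algebra `C = k[y_1, ..., y_q]`;
we may assume that all elements of `A` are among the `y_j`.  The kernel `𝔭` of `k[T_1, ..., T_q] → K`, `T_j ↦ y_j`, is generated by
finitely many `p_i` (Hilbert); `B` = the set of their coefficients.  Let `ι` fix `B`.  Then `P ↦ (P^ι)(y)` (`ι` on the coefficients, `MvPolynomial.map ι`)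
maps the `p_i` to `p_i(y) = 0`, so it vanishes on `𝔭` and defines a ring homomorphism `C → K` which fixes the `y_j` and is `ι` on `k`.
It is injective: let `P^ι ∈ 𝔭`, `P^ι = Σ p_i q_i`.  `k` is a vector space over its subfield `ι(k)`; let `ρ : k → k` be additive with
`ρ(ι(c) d) = c ρ(d)`, `ρ(1) = 1` (a linear projection `k → ι(k)` followed by `ι⁻¹`).  Apply `ρ` to all coefficients: `P = Σ p_i ρ(q_i)` (the
coefficients `b` of `p_i` satisfy `ρ(b d) = ρ(ι(b) d) = b ρ(d)`), so `P ∈ 𝔭`.  An injective homomorphism `C → K` extends to `Frac C = K`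
(`IsFractionRing.lift`). -/
def StRkb : Prop := ∀ (k K : Type u) [Field k] [Field K] [Algebra k K] [Algebra.EssFiniteType k K] (A : Finset K),
  ∃ B : Finset k, ∀ ι : k →+* k, (∀ b ∈ B, ι b = b) → ∃ I : K →+* K,
    (∀ c : k, I (algebraMap k K c) = algebraMap k K (ι c)) ∧ ∀ a ∈ A, I a = a

/-- **Rbd** (EASY; no hypotheses).  Copy the proof of `kBDD` (`MP_7b66e6_ag/K/I_BDD.lean`); for `c ∈ k` the value of `D c = δ c ∈ k` is `≥ 0`. -/
def StRbd : Prop := ∀ (k K : Type u) [Field k] [Field K] [Algebra k K] (ν : AddValuation K (WithTop ℤ)), Divisorial k ν →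
  ∀ (δ : Derivation ℤ k k) (D : Derivation ℤ K K), Ext δ D → ∃ C : ℤ, ∀ f : K, ν f + (C : WithTop ℤ) ≤ ν (D f)

/-- **Rlb** (EASY-MEDIUM; a uniformizer and units; USES `StTb`, `StCan`, `StLbs`, `MgRES.{u,u}`, `NgALG.{u,u}`, `NgTRB.{u,u}`).  A transcendence basis of `K/k` is finite
(`EssFiniteType`); `StTb` (`pd`), `StCan` (`LogDisc`), `StLbs`: a tuple `f` with logarithmic dual derivations; `NgTRB` gives `t`, `δ'`, `i₀`.  `K` is finite over `k(t)` by `NgALG`,
and `t` is algebraically independent (`trdeg`, or from the dual derivations).  If `X_{i₀}` does not divide `P` then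
`P = P₀ + X_{i₀} P₁`, `P₀ ≠ 0` the sum of the monomials without `X_{i₀}`, `ν (P₀(t)) = 0` by `MgRES` with `J = {j ≠ i₀}`, and `ν (t_{i₀} P₁(t)) ≥ 1`: see the
proof of `NgDVL` (`MP_7b66e6_ag/N/I_DVL.lean`). -/
def StRlb : Prop := ∀ (k K : Type u) [Field k] [CharZero k] [Field K] [Algebra k K] [Algebra.EssFiniteType k K]
  (ν : AddValuation K (WithTop ℤ)), Divisorial k ν → ∃ (e : ℕ) (t : Fin e → K) (i₀ : Fin e), IsTranscendenceBasis k t ∧
    FiniteDimensional (IntermediateField.adjoin k (Set.range t)) K ∧ ν (t i₀) = 1 ∧ (∀ j, 0 ≤ ν (t j)) ∧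
    ∀ P : MvPolynomial (Fin e) k, ¬ (MvPolynomial.X i₀ ∣ P) → ν (MvPolynomial.aeval t P) = 0

/-- **Rlg** (MEDIUM; derivations of `k` lift to derivations of `K` which are logarithmic at `ν`; USES `StRex.{u, 0}`, `StRbd`, `StRlb`, `StRSP.{u,u}`).  `t`, `i₀` from `StRlb`,
`D` from `StRex` with `c = 0`: `D t_j = 0`.  Put `L = k(t)` (`IntermediateField.adjoin`), `π = t_{i₀}`.  (1) For `0 ≠ P ∈ k[X]` write `P = X_{i₀}^n P'` with `X_{i₀} ∤ P'`;
`ν (P(t)) = n` and `D (P(t)) = π^n (δP')(t)` (`δ` on the coefficients), of value `≥ n`.  (2) So `ν (D f) ≥ ν f` for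
`f = a/b ∈ L` (`D f = (b D a - a D b)/b²`).  (3) Suppose that `ν (D f) ≥ ν f` fails for some `f ∈ K`.  By `StRbd` there is a largest
integer `c < 0` with `ν (D f) ≥ ν f + c` for all `f`, and an `f ≠ 0` with `ν (D f) = ν f + c`.  With `j = ν f` the element `u = f / π^j` has `ν u = 0`,
`D u = D f / π^j`, so `ν (D u) = c`.  `StRSP` for `K/L` (the restriction of `ν` to `L` takes the value `1` at `π`, so `Lies` with index `1`): a monic `P` with coefficients in `L` of value
`≥ 0`, `ν (P(u)) > 0`, `ν (P'(u)) = 0`.  `D (P(u)) = P^D(u) + P'(u) D u` where `P^D` has coefficients of value `≥ 0` by (2), so `ν (D (P(u))) = c`; but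
`ν (D (P(u))) ≥ ν (P(u)) + c > c`.  Contradiction.  (Compare `MP_7b66e6_ag/K/I_LFT.lean`.) -/
def StRlg : Prop := ∀ (k K : Type u) [Field k] [CharZero k] [Field K] [Algebra k K] [Algebra.EssFiniteType k K]
  (ν : AddValuation K (WithTop ℤ)), Divisorial k ν → ∀ δ : Derivation ℤ k k,
  ∃ D : Derivation ℤ K K, Ext δ D ∧ ∀ f : K, ν f ≤ ν (D f)

/-- **Rcr** (EASY-MEDIUM; chain rule; no hypotheses).  `T(f) = E(I f) - Σ_m E(r_m) I(pd_m f)` is additive, `T(f g) = I(f) T(g) + I(g) T(f)`, `T` vanishes on `k`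
(`I c = ι c`, `E (ι c) = 0`, `pd_m c = 0`) and at the `r_j` (`I r_j = r_j`).  So `{f : T f = 0}` is a subfield (`T(f⁻¹) = - I(f)^(-2) T f`) which contains
`k(r)`; `K` is algebraic over `k(r)`, and for the minimal polynomial `P` of `f` over `k(r)`: `0 = T(P(f)) = I(P'(f)) T(f)` (`T` of the coefficients
is `0`), `P'(f) ≠ 0`.  Compare `killAlg` in `MP_7b66e6_ag/N/I_TRD.lean`. -/
def StRcr : Prop := ∀ (k K : Type u) [Field k] [CharZero k] [Field K] [Algebra k K] (e : ℕ) (r : Fin e → K)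
  (pd : Fin e → Derivation k K K), Dual r pd → IsTranscendenceBasis k r → ∀ (ι : k →+* k) (I : K →+* K),
  (∀ c : k, I (algebraMap k K c) = algebraMap k K (ι c)) → (∀ j, I (r j) = r j) → ∀ E : Derivation ℤ K K,
  (∀ c : k, E (algebraMap k K (ι c)) = 0) → ∀ f : K, E (I f) = ∑ m, E (r m) * I (pd m f)

/-- **Rne** (EASY-MEDIUM; the general member is not `0`; USES `StRex.{u, 0}`, `StRcr`).  Let `s ∈ S`, `E` = the derivation of `StRex` for the basis `r`,
`c = 0`, which extends `pt s`.  `E (ι c) = 0`, so by `StRcr` `E (I f) = 0` for all `f`, in particular `E s' = 0` for `s' ∈ S`.  So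
`E (Σ t_(s') s') = Σ pt s (t_(s')) s' = s ≠ 0`. -/
def StRne : Prop := ∀ (k K : Type u) [Field k] [CharZero k] [Field K] [Algebra k K] (e : ℕ) (r : Fin e → K)
  (pd : Fin e → Derivation k K K), Dual r pd → IsTranscendenceBasis k r → ∀ (ι : k →+* k) (I : K →+* K),
  (∀ c : k, I (algebraMap k K c) = algebraMap k K (ι c)) → (∀ j, I (r j) = r j) → ∀ (S : Finset Kˣ) (t : Kˣ → k)
  (pt : Kˣ → Derivation ℤ k k), S.Nonempty → (∀ s ∈ S, I (s : K) = s) → (∀ s ∈ S, ∀ c, pt s (ι c) = 0) →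
  (∀ s ∈ S, pt s (t s) = 1) → (∀ s ∈ S, ∀ s' ∈ S, s ≠ s' → pt s (t s') = 0) → sgm S t ≠ 0

/-- **Rdt** (MEDIUM; the main inequality; USES `StRcr`).  `s_i ∈ S i` of least value (`Api.mnS_spec`), `g_i = sgm (S i) (t i) / s_i = Σ_s t_(i,s) s/s_i`, `D_i` the
derivation of `hD` for `pt i s_i` (it extends `pt i s_i` and is logarithmic at `ν`), `δ` the logarithmic tuple of `LogDisc`, `ν (det (δ_j r_m)) = A`.  For
every `E ∈ {δ_j, D_j}`, as `E` kills `ι(k)`, `StRcr` gives `E (I f) = Σ_m E(r_m) I(pd_m f)`, in particular (`s/s_i` is fixed by `I`)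
`E g_i = Σ_s E(t_(i,s)) s/s_i + Σ_m E(r_m) G_mi`, `G_mi = Σ_s t_(i,s) I(pd_m (s/s_i))`; the first sum is `0` for `E = δ_j`, and for
`E = D_j` it is `1` if `i = j` and `0` else.  So the `(e + l) × (e + l)` block matrix of the `(E (I f_j)/I f_j | E g_i / g_i)` (rows: `E = δ_1, ..., δ_e, D_1, ..., D_l`) is
the product of `[[δ_j r_m, 0], [D_j r_m, 1]]` and `[[I(pd_m f_j)/I f_j, G_mi/g_i], [0, diag (1/g_i)]]`.  Its entries have value `≥ 0`, so does
its determinant, which is `det (δ_j r_m) I(det (pd_m f_j/f_j)) ∏ 1/g_i` (`Matrix.det_fromBlocks_zero₁₂`, `Matrix.det_fromBlocks_zero₂₁`).  So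
`0 ≤ A + val ν (I det) - Σ_i (val ν (sgm ..) - mnS (S i) ν)`. -/
def StRdt : Prop := ∀ (k K : Type u) [Field k] [CharZero k] [Field K] [Algebra k K] (e l : ℕ) (r : Fin e → K)
  (pd : Fin e → Derivation k K K), Dual r pd → IsTranscendenceBasis k r → ∀ (ι : k →+* k) (I : K →+* K),
  (∀ c : k, I (algebraMap k K c) = algebraMap k K (ι c)) → (∀ j, I (r j) = r j) → ∀ (S : Fin l → Finset Kˣ)
  (t : Fin l → Kˣ → k) (pt : Fin l → Kˣ → Derivation ℤ k k), (∀ i, (S i).Nonempty) → (∀ i, ∀ s ∈ S i, I (s : K) = s) →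
  (∀ i, ∀ s ∈ S i, ∀ c, pt i s (ι c) = 0) →
  (∀ i, ∀ s ∈ S i, pt i s (t i s) = 1) →
  (∀ i, ∀ s ∈ S i, ∀ j, ∀ s' ∈ S j, ¬ (i = j ∧ s = s') → pt i s (t j s') = 0) →
  (∀ i, sgm (S i) (t i) ≠ 0) → ∀ (ν : AddValuation K (WithTop ℤ)) (A : ℤ), (∀ c : k, 0 ≤ ν (algebraMap k K c)) →
  (∀ δ : Derivation ℤ k k, ∃ D : Derivation ℤ K K, Ext δ D ∧ ∀ f : K, ν f ≤ ν (D f)) → LogDisc k ν r A →
  ∀ f : Fin e → K, (∀ j, f j ≠ 0) → Matrix.det (fun m j => pd m (f j) / f j) ≠ 0 →
  (∑ i, (val ν (sgm (S i) (t i)) - mnS (S i) ν)) - A ≤ val ν (I (Matrix.det (fun m j => pd m (f j) / f j)))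

/-- **Rky** (EASY-MEDIUM; a valuation with bounded log discrepancy is trivial or a multiple of a divisor; USES `MgNOR.{u}`, `NgBAS.{u,u}`, `NgDVL.{u,u}`, `StCan`).
See `NgKYB` (`MP_7b66e6_ag/N/I_KYB.lean`).  If `μ` is `0` on `K^*`: `f = r` (`r_j ≠ 0`, `det (pd_m r_j/r_j) = 1/∏ r_j ≠ 0`) gives `- T ≤ 0`.  Otherwise `MgNOR`: `μ = ε w`, `w π = 1`,
`ε > 0`.  For all tuples `- T ≤ ε w (det)`, so the hypothesis of `NgBAS` holds for `w` and the integer part `c` of `T/ε`: a dual logarithmic basis, `w` is divisorial by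
`NgDVL` (`w = 0` on `k^*`; `Algebra.trdeg k K = e` from the transcendence basis), and a logarithmic tuple with determinant of value `a ≤ c`.  `StCan` gives `A` with `LogDisc k w r A`, and `A ≤ a`, so
`ε A ≤ ε c ≤ T`. -/
def StRky : Prop := ∀ (k K : Type u) [Field k] [CharZero k] [Field K] [Algebra k K] [Algebra.EssFiniteType k K] (e : ℕ)
  (r : Fin e → K) (pd : Fin e → Derivation k K K), Dual r pd → IsTranscendenceBasis k r →
  ∀ μ : AddValuation K (WithTop ℤ), (∀ c : k, 0 ≤ μ (algebraMap k K c)) → ∀ T : ℤ,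
  (∀ f : Fin e → K, (∀ j, f j ≠ 0) → Matrix.det (fun m j => pd m (f j) / f j) ≠ 0 →
    - T ≤ val μ (Matrix.det (fun m j => pd m (f j) / f j))) →
  ((∀ f : K, f ≠ 0 → val μ f = 0) ∧ 0 ≤ T) ∨
  ∃ (w : AddValuation K (WithTop ℤ)) (ε : ℕ) (A : ℤ), 0 < ε ∧ Divisorial k w ∧ (∀ f : K, f ≠ 0 → val μ f = ε * val w f) ∧
    LogDisc k w r A ∧ ε * A ≤ T

/-- **Rfn** (MEDIUM; finitely many local representations of `L`; USES `StLoc`, `StPdd`, `StFsp`, `StWdl`).  Copy `HA/I_Lfs.lean`: for a chart `C` and a prime `p` of `C`, `P` the local ring, `φ` a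
representation of `L` at `P`; the finitely many `PD Z ν` with `ν ≥ 0` on `C` and `L ν ≠ ev ν φ` are not `≥ 0` on `P`, so there is `h_ν ∈ C`, `h_ν ∉ p`, `ν h_ν > 0`;
`h` = the product of the `h_ν`.  `φ` is a representation of `L` at every `Q = C_q ∈ Z` with `h ∉ q` (`ν ≥ 0` on `Q` implies `ν h = 0`).  The `h` for all `p`
generate the unit ideal of `C`, so finitely many do.  The index set is the set of all these pairs (chart, `h`); `G i` = generators of the chart, `g i = h`.
(1) `v` over `Z` with centre `O = C_p`: `q = {c ∈ C : v c > 0}` is a prime ideal, some `h ∉ q`, `v h = 0`.  (2) `v` divisorial, `≥ 0` on `G i` (so on the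
chart `C`), `v (g i) = 0`: `q` as in (1), `Q = C_q ∈ Z`, `Cen Q v`, and `φ i` is a representation at `Q`; `StWdl`. -/
def StRfn : Prop := ∀ (k K : Type u) [Field k] [CharZero k] [Field K] [Algebra k K] (e : ℕ) (r : Fin e → K)
  (Z : Set (Subalgebra k K)) (L : AddValuation K (WithTop ℤ) → ℝ), IsTranscendenceBasis k r → Vty Z → IsDiv Z L → RCar Z L →
  ∃ (q : ℕ) (G : Fin q → Finset K) (g : Fin q → K) (φ : Fin q → Kˣ →₀ ℝ),
    (∀ v : AddValuation K (WithTop ℤ), DivOver Z v → ∃ i, (∀ c ∈ G i, 0 ≤ v c) ∧ v (g i) = 0) ∧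
    ∀ (i : Fin q) (v : AddValuation K (WithTop ℤ)), Divisorial k v → (∀ c ∈ G i, 0 ≤ v c) → v (g i) = 0 →
      DivOver Z v ∧ Lv Z L v = ev v (φ i)

/-- **Rsg** (EASY; the value of a general member is at least the least value; no hypotheses).  `v ≥ 0` on `k`; `Api.mnS_spec`. -/
def StRsg : Prop := ∀ (k K : Type u) [Field k] [Field K] [Algebra k K] (S : Finset Kˣ) (t : Kˣ → k)
  (v : AddValuation K (WithTop ℤ)), (∀ c : k, 0 ≤ v (algebraMap k K c)) → S.Nonempty → sgm S t ≠ 0 →
  mnS S v ≤ val v (sgm S t)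

/-- **Rst** (MEDIUM, helper9; STAR; USES all items above). -/
def StRst : Prop := ∀ (k K : Type u) [Field k] [CharZero k] [IsAlgClosed k] [Field K] [Algebra k K] (e l M : ℕ)
  (r : Fin e → K) (Z : Set (Subalgebra k K)) (L : AddValuation K (WithTop ℤ) → ℝ) (Ξ : Kˣ →₀ ℝ) (w : Fin l → ℝ)
  (S : Fin l → Finset Kˣ), Cardinal.aleph0 ≤ Algebra.trdeg ℚ k → IsTranscendenceBasis k r → Vty Z → IsDiv Z L → RCar Z L →
  0 < M → (∀ i, 0 ≤ w i) → (∀ i, (S i).Nonempty) →
  (∀ v : AddValuation K (WithTop ℤ), DivOver Z v → 0 ≤ Tv r Z L Ξ v + Dmg w S M v) →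
  ∃ σ : Fin l → Kˣ, (∀ (i : Fin l) (v : AddValuation K (WithTop ℤ)), DivOver Z v → mnS (S i) v ≤ val v (σ i : K)) ∧
    ∀ v : AddValuation K (WithTop ℤ), DivOver Z v →
      ∑ i, ((val v (σ i : K) : ℝ) - (mnS (S i) v : ℝ)) ≤ Tv r Z L Ξ v + Dmg w S M v

/-- **Rbz** (EASY; the zero b-divisor is base-point free; no hypotheses).  `Z' = Z`, `s = 1`. -/
def StRbz : Prop := ∀ (k K : Type u) [Field k] [Field K] [Algebra k K] (Z : Set (Subalgebra k K)), Vty Z →
  GBpf Z {1} (fun _ => ((1 : ℕ) : ℝ) * 0)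

end Pool.Agent.Work.MP_a2680c_ag.HA
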