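import Pool.Agent.Work.MP_a2680c_ag.HA.StmtsG
import Pool.Agent.Work.MP_a2680c_ag.HA.StmtsR
import Pool.Agent.Work.MP_a2680c_ag.HA.DefsW

/-!
# MP_a2680c_ag, block HA, part W: b-fibrations and towers

The theory of part G in terms of function fields: instead of `(X, D)` there is a function `𝔻` on the divisorial valuations of `F`
(`𝔻 ν` = multiplicity of the boundary on a high model; `1 - 𝔻 ν` = log discrepancy).  Read `DefsW.lean`, and `ApiG.lean`, `Api.lean` for proved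
lemmas.

An item `NAME` is a theorem `pr_NAME : StNAME.{u}` (hypotheses: the statements named in the docstring after USES, in that order) in the
file `HA/I_NAME.lean`, namespace `Pool.Agent.Work.MP_a2680c_ag.HA`, auxiliary lemmas in the namespace
`Pool.Agent.Work.MP_a2680c_ag.HA.XNAME`.  Import this file (and the older `I_...` files whose lemmas you want); nobody waits for another
item.  Several items are copies of older items with simplifications; the docstring names the file to copy.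
-/

set_option autoImplicit false

noncomputable section

namespace Pool.Agent.Work.MP_a2680c_ag.HA

open MP7b66e6 MP7b66e6.Q
open scoped BigOperators

universe u

section defs
variable {k K F : Type u} [Field k] [Field K] [Field F] [Algebra k K] [Algebra k F] [Algebra K F]

/-- the valuation `ν` of `F` has a centre on `Z` -/
def Ov (Z : Set (Subalgebra k K)) (ν : AddValuation F (WithTop ℤ)) : Prop := ∃ P ∈ Z, ∀ f ∈ P, 0 ≤ ν (algebraMap K F f)

/-- A b-fibration: `K_X + 𝔻 = f^* L + Φ` for all divisors over `Z`, with log discrepancies `1 - 𝔻 ν ≥ 0` (`> 0` if `κ`);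
`K_X = div (dc_1 ∧ ... ∧ dc_d)`, `c` any transcendence basis of `F/k`. -/
structure BFib (κ : Prop) {e d : ℕ} (r : Fin e → K) (c : Fin d → F) (Z : Set (Subalgebra k K))
    (𝔻 : AddValuation F (WithTop ℤ) → ℝ) (L : AddValuation K (WithTop ℤ) → ℝ) (Φ : Fˣ →₀ ℝ) : Prop where
  vz : Vty Z
  basis : IsTranscendenceBasis k r
  basisF : IsTranscendenceBasis k c
  ess : Algebra.EssFiniteType k F
  divL : IsDiv Z L
  carL : RCar Z L
  pos : ∀ ν : AddValuation F (WithTop ℤ), Divisorial k ν → Ov Z ν → Pos κ (1 - 𝔻 ν)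
  triv : ∀ ν : AddValuation F (WithTop ℤ), Divisorial k ν → Ov Z ν → can k c ν + 𝔻 ν = Lv Z L (Api.res K ν) + ev ν Φ

/-- the log discrepancies of the divisors over `v`, divided by the ramification index -/
def DisB (k : Type u) {K F : Type u} [Field k] [Field K] [Field F] [Algebra k F] [Algebra K F]
    (𝔻 : AddValuation F (WithTop ℤ) → ℝ) (v : AddValuation K (WithTop ℤ)) : Set ℝ :=
  {t | ∃ (W : AddValuation F (WithTop ℤ)) (m : ℕ), Divisorial k W ∧ Lies v W m ∧ t = (1 - 𝔻 W) / m}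

/-- The result for a b-fibration: `T_v = 1 + v(K_Z) - v(L) - v(Ξ)` is the log discrepancy of `v` for the new boundary on `Z`. -/
def Rsl (κ : Prop) (G : Set ℝ) {e : ℕ} (r : Fin e → K) (Z : Set (Subalgebra k K)) (𝔻 : AddValuation F (WithTop ℤ) → ℝ)
    (L : AddValuation K (WithTop ℤ) → ℝ) (Ξ : Kˣ →₀ ℝ) : Prop :=
  (∀ v : AddValuation K (WithTop ℤ), DivOver Z v → Pos κ (Tv r Z L Ξ v)) ∧
  ∀ v : AddValuation K (WithTop ℤ), DivOver Z v → ∀ (ν : AddValuation F (WithTop ℤ)) (m : ℕ), Divisorial k ν → Lies v ν m →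
    (1 - 𝔻 ν) - m * Tv r Z L Ξ v ∈ AddSubmonoid.closure G

end defs

/-- the key identity of a cover: `Φ = J + Ξ + Σ d_i div (l_i)` on `F'`, for all valuations, where `J` is the quotient of the
differential forms `dc` and `dr ∧ dy`; and `Σ d_i = n + 1` -/
def KeyB (k : Type u) {K F K' F' : Type u} [Field k] [Field K] [Field F] [Field K'] [Field F'] [Algebra k F'] [Algebra K K']
    [Algebra F F'] [Algebra K' F'] {e n N : ℕ} (r : Fin e → K) (c : Fin (e + n) → F) (y : Fin n → F')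
    (a : Fin N → Fin (n + 1) → K') (d : Fin N → ℝ) (Φ : Fˣ →₀ ℝ) (Ξ : K'ˣ →₀ ℝ) (J : F'ˣ) : Prop :=
  ∑ i, d i = n + 1 ∧
  (∀ (W' : AddValuation F' (WithTop ℤ)) (A : ℤ), LogDisc k W' (cor (up K' r) y) A →
    LogDisc k W' (up F' c) (A + val W' (J : F'))) ∧
  ∀ W' : AddValuation F' (WithTop ℤ), ev W' (push F F' Φ) = val W' (J : F') + ev W' (push K' F' Ξ) +
    ∑ i, d i * (val W' (lin y (a i)) : ℝ)

/-! ## Centres, restrictions -/

/-- **Gpt** (EASY; no hypotheses).  For a chart `C` the local ring at the prime ideal `⊥` is `⊤` (`IsFractionRing C K`). -/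
def StGpt : Prop := ∀ (k K : Type u) [Field k] [Field K] [Algebra k K] (Z : Set (Subalgebra k K)), Vty Z →
  (⊤ : Subalgebra k K) ∈ Z

/-- **Cnt** (EASY; USES `StLoc`).  (1) `StLoc` (2).  (2) `P` with `0 ≤ w` on `P`; let `v = Api.res K w`; by (1) there is `P' ∈ Z` with
`Cen P' v`, and `V = Api.ring w _` (`w ≥ 0` on `k`) is dominated... `Dom P' V` (as in the proof of `StCtr`, file `I_Ctr.lean`), so `Prp` gives
`O ∈ Y` with `Dom O V`, i.e. `Cen O w` (`Api.dom_ring_iff`). -/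
def StCnt : Prop := ∀ (k K E : Type u) [Field k] [Field K] [Field E] [Algebra k K] [Algebra k E] [Algebra K E]
  [IsScalarTower k K E] (Z : Set (Subalgebra k K)), Vty Z →
  (∀ v : AddValuation K (WithTop ℤ), (∃ P ∈ Z, ∀ f ∈ P, 0 ≤ v f) → ∃ O ∈ Z, Cen O v) ∧
  ∀ Y : Set (Subalgebra k E), Prp Y Z → ∀ w : AddValuation E (WithTop ℤ), Ov Z w → ∃ O ∈ Y, Cen O w

/-- **Lfg** (MEDIUM; pull-back of `L` to `Y`; USES `StLoc`, `StPdd`, `StFsp`, `StWdl`).  (3): for `PDat Y O ν`, `ν ≥ 0` on `O ⊇ P` (`Dom`), so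
`Lv Z L (Api.res K ν) = ev (res ν) φ = ev ν (push φ)` (`StWdl`, `Api.ev_res`).  (2) from (3), `Mor`, `RCar Z L`.  (4): let `w ≥ 0` on `O ∈ Y`, `P ∈ Z`, `Dom P O`,
`φ` a representation of `L` at `P`: `StWdl` for `Y` (with `push φ`, by (3)) and for `Z`: both are `ev (res w) φ`.  (1): copy `HA/I_Lfs.lean`; only the last
lines change: `PD Y ν`, ring `R ∈ Y` (`StPdd`), `Q ∈ Z` with `Dom Q R`, `Lv Z L (res ν) = ev (res ν) φ = ev ν (push K E φ)` for one of the
finitely many `φ`, and finiteness by `StFsp` for `Y`. -/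
def StLfg : Prop := ∀ (k K E : Type u) [Field k] [CharZero k] [Field K] [Field E] [Algebra k K] [Algebra k E] [Algebra K E]
  [IsScalarTower k K E] (e d : ℕ) (r : Fin e → K) (c : Fin d → E) (Z : Set (Subalgebra k K)) (Y : Set (Subalgebra k E))
  (L : AddValuation K (WithTop ℤ) → ℝ), IsTranscendenceBasis k r → IsTranscendenceBasis k c → Vty Z → Vty Y → Mor Y Z →
  IsDiv Z L → RCar Z L →
  IsDiv Y (fun w => Lv Z L (Api.res K w)) ∧ RCar Y (fun w => Lv Z L (Api.res K w)) ∧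
  (∀ O ∈ Y, ∀ P ∈ Z, Dom P O → ∀ φ : Kˣ →₀ ℝ, Rep Z L P φ → Rep Y (fun w => Lv Z L (Api.res K w)) O (push K E φ)) ∧
  ∀ w : AddValuation E (WithTop ℤ), (∃ O ∈ Y, ∀ f ∈ O, 0 ≤ w f) →
    Lv Y (fun w => Lv Z L (Api.res K w)) w = Lv Z L (Api.res K w)

/-- **Bxy** (EASY; the fibration `X → Y`; USES `StLfg`).  `Ov Y ν → Ov Z ν` (`Mor Y Z`: `P ∈ Z`, `Dom P O`; `IsScalarTower K E F`).
`triv`: `Lv Y L_Y (res E ν) = Lv Z L (res K (res E ν)) = Lv Z L (res K ν)` (`StLfg` (4); `Api.res` is a comap, the last equality by `rfl` up to the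
scalar tower). -/
def StBxy : Prop := ∀ (κ : Prop) (k K E F : Type u) [Field k] [CharZero k] [Field K] [Field E] [Field F] [Algebra k K]
  [Algebra k E] [Algebra k F] [Algebra K E] [Algebra K F] [Algebra E F] [IsScalarTower k K F] [IsScalarTower k K E]
  [IsScalarTower k E F] [IsScalarTower K E F] (e e₂ d : ℕ) (r : Fin e → K) (c₂ : Fin e₂ → E) (c : Fin d → F)
  (Z : Set (Subalgebra k K)) (Y : Set (Subalgebra k E)) (𝔻 : AddValuation F (WithTop ℤ) → ℝ)
  (L : AddValuation K (WithTop ℤ) → ℝ) (Φ : Fˣ →₀ ℝ), BFib κ r c Z 𝔻 L Φ → IsTranscendenceBasis k c₂ → Vty Y → Mor Y Z →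
  BFib κ c₂ c Y 𝔻 (fun w => Lv Z L (Api.res K w)) Φ

/-- **Byz** (EASY-MEDIUM; the fibration `Y → Z`; USES `StGrm`, `StCnt`, `StLfg`).  `EssFiniteType k E` from `StGrm` for `Y`.  A divisorial `w` with `Ov Z w` has a centre on
`Y` (`StCnt` (2)), so `DivOver Y w`: `pos` by the hypothesis (`1 - (1 - Tv) = Tv`).  `triv`: `can w + 1 - Tv = Lv Y L_Y w + ev w Ξ` (definition of `Tv`) and
`StLfg` (4). -/
def StByz : Prop := ∀ (κ : Prop) (k K E : Type u) [Field k] [CharZero k] [Field K] [Field E] [Algebra k K] [Algebra k E]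
  [Algebra K E] [IsScalarTower k K E] (e e₂ : ℕ) (r : Fin e → K) (c₂ : Fin e₂ → E) (Z : Set (Subalgebra k K))
  (Y : Set (Subalgebra k E)) (L : AddValuation K (WithTop ℤ) → ℝ) (Ξ : Eˣ →₀ ℝ), IsTranscendenceBasis k r →
  IsTranscendenceBasis k c₂ → Vty Z → Vty Y → Mor Y Z → Prp Y Z → IsDiv Z L → RCar Z L →
  (∀ w : AddValuation E (WithTop ℤ), DivOver Y w → Pos κ (Tv c₂ Y (fun w => Lv Z L (Api.res K w)) Ξ w)) →
  BFib κ r c₂ Z (fun w => 1 - Tv c₂ Y (fun w => Lv Z L (Api.res K w)) Ξ w) L Ξ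

/-- **Bck** (MEDIUM; base change; USES `StTbs`, `StTb`, `StCan`, `StGrm`, `StRmf`, `StRES.{u,u,u}`, `StLfg`).  `StTbs` for `K'/K`, `F'/F` (transcendence bases, essentially of
finite type); `StLfg` for `K'` (`Y = Z'`, basis `up K' r`).  Let `ν'` be divisorial on `F'`, `Ov Z' ν'`; `StRES` for `F'/F`: `ν, ε` with `Divisorial k ν`, `Lies ν ν' ε`;
`Ov Z ν` (`Mor Z' Z`; `ν' = ε ν` on `F`, `ε > 0`).  `1 - 𝔻' ν' = ε (1 - 𝔻 ν)`: `pos`.  `LogDisc k ν c A` (`StCan`, `StTb`), `LogDisc k ν' (up F' c) (ε A)`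
(`StRmf`), `Api.can_eq`: `can (up F' c) ν' + 𝔻' ν' = ε (can c ν + 𝔻 ν) = ε (Lv Z L (res K ν) + ev ν Φ)`; `ε ev ν Φ = ev ν' (push F F' Φ)`
(`Api.ev_push_lies`); with `P ∈ Z`, `ν ≥ 0` on `P`, and `φ` representing `L` at `P` (`StWdl` is not needed separately if you use `StLfg` (4) for `Y = Z'` and write `Lv` as
`ev φ`; you may also take `hWdl : StWdl.{u}` as a further last hypothesis): `ε Lv Z L (res K ν) = ε ev (res K ν) φ = ev (res K ν') φ = Lv Z L (res K ν')`, and by `StLfg` (4)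
`Lv Z' L' (res K' ν') = Lv Z L (res K (res K' ν'))`. -/
def StBck : Prop := ∀ (κ : Prop) (k K F K' F' : Type u) [Field k] [CharZero k] [Field K] [Field F] [Field K'] [Field F']
  [Algebra k K] [Algebra k F] [Algebra k K'] [Algebra k F'] [Algebra K F] [Algebra K K'] [Algebra K F'] [Algebra F F']
  [Algebra K' F'] [IsScalarTower k K F] [IsScalarTower k K K'] [IsScalarTower k F F'] [IsScalarTower k K' F']
  [IsScalarTower K F F'] [IsScalarTower K K' F'] [FiniteDimensional K K'] [IsGalois K K'] [FiniteDimensional F F']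
  [IsGalois F F'] (e d : ℕ) (r : Fin e → K) (c : Fin d → F) (Z : Set (Subalgebra k K)) (Z' : Set (Subalgebra k K'))
  (𝔻 : AddValuation F (WithTop ℤ) → ℝ) (𝔻' : AddValuation F' (WithTop ℤ) → ℝ) (L : AddValuation K (WithTop ℤ) → ℝ)
  (Φ : Fˣ →₀ ℝ), BFib κ r c Z 𝔻 L Φ → Vty Z' → Mor Z' Z →
  (∀ (ν : AddValuation F (WithTop ℤ)) (ν' : AddValuation F' (WithTop ℤ)) (ε : ℕ), Divisorial k ν → Lies ν ν' ε →
    1 - 𝔻' ν' = ε * (1 - 𝔻 ν)) →
  BFib κ (up K' r) (up F' c) Z' 𝔻' (fun v' => Lv Z L (Api.res K v')) (push F F' Φ)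

/-- **Bcr** (MEDIUM; descent from `Z'` to `Z`; USES `StTbs`, `StTb`, `StCan`, `StGrm`, `StRmf`, `StEXT.{u,u,u}`, `StCgd`, `StCmp`, `StNmx`, `StCtr`, `StWdl`, `StLfg`).  `Ξ` = the `Ξ₀` of `StNmx`
for `Ξ'`, `γ = finrank K K'`.  Let `DivOver Z v`, `v'` divisorial over `v`, index `ε` (`StEXT`).  For `g ∈ Gal(K'/K)` the valuation `cg g v'` is divisorial (`StCgd`), over
`v` with index `ε` (`Api.lies_cg`), has a centre on `Z'` (`StCtr` with `X = Z'`), and
`T'(cg g v') = ε (1 + can r v) - ε Lv Z L v - ev (cg g v') Ξ'` where `T' = Tv (up K' r) Z' L' Ξ'`: `StRmf` and `Api.can_eq` for `can`, and `StLfg` (4) with `StWdl` for `Lv`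
(`Lv Z' L' v'' = Lv Z L (res K v'') = ev (res K v'') φ = ε ev v φ = ε Lv Z L v`).  Sum over `g`: `Σ_g T'(cg g v') = γ ε Tv r Z L Ξ v` (`StNmx`).  So `Pos κ`.
Second part: let `ν` be divisorial over `v`, index `m`.  For every `g` `StCmp` (with `v' := cg g v'`) gives `ν'_g` divisorial on `F'` with `Lies ν ν'_g η_g`,
`Lies (cg g v') ν'_g m_g`, `η_g m = m_g ε` (`Api.lies_trans`, both are the index of `ν'_g` over `v`; evaluate at `π`, `v π = 1`).  All `η_g` are equal?  Not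
needed: `1 - 𝔻 ν = (1 - 𝔻' ν'_g)/η_g`, so `(1 - 𝔻 ν) - m Tv v = (1/γ) Σ_g [(1 - 𝔻 ν) - (m/ε) T'(cg g v')] = (1/γ) Σ_g (1/η_g) [(1 - 𝔻' ν'_g) - m_g T'(cg g v')]`, and each bracket is in
`closure G`; `1 ≤ η_g ≤ finrank F F' ≤ δ` (`StRmi`, take `hRmi : StRmi.{u}` as the last hypothesis), `1 ≤ γ ≤ δ`.  Multiplication by a real number `t` maps `closure G` to `closure (t G)`. -/
def StBcr : Prop := ∀ (κ : Prop) (k K F K' F' : Type u) [Field k] [CharZero k] [Field K] [Field F] [Field K'] [Field F']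
  [Algebra k K] [Algebra k F] [Algebra k K'] [Algebra k F'] [Algebra K F] [Algebra K K'] [Algebra K F'] [Algebra F F']
  [Algebra K' F'] [IsScalarTower k K F] [IsScalarTower k K K'] [IsScalarTower k F F'] [IsScalarTower k K' F']
  [IsScalarTower K F F'] [IsScalarTower K K' F'] [FiniteDimensional K K'] [IsGalois K K'] [FiniteDimensional F F']
  [IsGalois F F'] (δ e : ℕ) (r : Fin e → K) (Z : Set (Subalgebra k K)) (Z' : Set (Subalgebra k K'))
  (𝔻 : AddValuation F (WithTop ℤ) → ℝ) (𝔻' : AddValuation F' (WithTop ℤ) → ℝ) (L : AddValuation K (WithTop ℤ) → ℝ)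
  (Ξ' : K'ˣ →₀ ℝ) (G : Set ℝ), IsTranscendenceBasis k r → Vty Z → IsDiv Z L → RCar Z L → Vty Z' → Mor Z' Z → Prp Z' Z →
  (∀ f : F, IsAlgebraic K f → ∃ c : K, algebraMap K F c = f) → Module.finrank K K' ≤ δ → Module.finrank F F' ≤ δ →
  (∀ (ν : AddValuation F (WithTop ℤ)) (ν' : AddValuation F' (WithTop ℤ)) (ε : ℕ), Divisorial k ν → Lies ν ν' ε →
    1 - 𝔻' ν' = ε * (1 - 𝔻 ν)) →
  Rsl κ G (up K' r) Z' 𝔻' (fun v' => Lv Z L (Api.res K v')) Ξ' →
  ∃ Ξ : Kˣ →₀ ℝ, Rsl κ {t | ∃ g ∈ G, ∃ γ η : ℕ, 0 < γ ∧ γ ≤ δ ∧ 0 < η ∧ η ≤ δ ∧ t = g / (γ * η)} r Z 𝔻 L Ξ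

/-- **Fbf** (MEDIUM; an lc-trivial fibration is a b-fibration; USES `StGrm`, `StPdd`, `StEff`, `StWdl`, `StCnt`).  `crp ν = 1 - A` if `LDis r x X D ν A`: `A` is unique (two centres coincide:
`StLoc` may be taken as the last hypothesis `hLoc : StLoc.{u}`; two representations at the centre have the same `ev ν` by `StEff`, both signs, basis `cor r x`).  For a divisorial `ν` with
`Ov Z ν` there is `O ∈ X` with `Cen O ν` (`StCnt` (2)), `ψ` a representation of `K_X + D` at `O` (`Lc.1`), so `LDis ν (1 + can ν - ev ν ψ)` and `Lc.2` gives `pos`.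
`triv`: `can + crp = ev ν ψ`; `P ∈ Z` with `Dom P O` (`Fib.mor`), `φ` represents `L` at `P`; `ψ` and `push K F φ + Φ` (`Φ` from `Fib.triv`) represent the same divisor at `O`, so
`ev ν ψ = ev ν (push φ) + ev ν Φ` (`StEff`), `ev ν (push φ) = ev (res ν) φ = Lv Z L (res ν)` (`StWdl`).  Last claim: `PD X ν`: `StPdd` gives the ring `O` of `ν`, `PDat X O ν`, so
`ev ν ψ = can ν + D ν`. -/
def StFbf : Prop := ∀ (κ : Prop) (k K F : Type u) [Field k] [CharZero k] [Field K] [Field F] [Algebra k K] [Algebra k F]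
  [Algebra K F] [IsScalarTower k K F] (e n : ℕ) (I : Set ℝ) (r : Fin e → K) (x : Fin n → F) (Z : Set (Subalgebra k K))
  (X : Set (Subalgebra k F)) (D : AddValuation F (WithTop ℤ) → ℝ) (L : AddValuation K (WithTop ℤ) → ℝ),
  Fib κ I r x Z X D L → IsTranscendenceBasis k (cor r x) →
  (∃ Φ : Fˣ →₀ ℝ, BFib κ r (cor r x) Z (crp r x X D) L Φ) ∧
  ∀ ν : AddValuation F (WithTop ℤ), PD X ν → crp r x X D ν = D ν

/-- **Gex** (EASY-MEDIUM; existence of divisors over `v`; USES `StTb`, `StTfr`, `StCan`, `StMnv`, `StMdv`, `StEXT.{u,u,u}`).  From the transcendence basis `c` of `F/k` and `K ⊆ F` choose a transcendence basis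
`x` of `F/K` (finite: `Fin n → F`), `F₀ = K(x) = IntermediateField.adjoin K (range x)`: `F/F₀` is algebraic and essentially of finite type, so finite (`StTb` and its proof
use the same argument, see `HA/I_Tb.lean`); on `F₀` the Gauss valuation `W₀` over `v` (`StMnv`, `q = 1`, `w = 0`) is divisorial (`StMdv`) and over `v`; `StEXT` to `F`, `Api.lies_trans`. -/
def StGex : Prop := ∀ (k K F : Type u) [Field k] [CharZero k] [Field K] [Field F] [Algebra k K] [Algebra k F] [Algebra K F]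
  [IsScalarTower k K F] [Algebra.EssFiniteType k K] [Algebra.EssFiniteType k F] (e d : ℕ) (r : Fin e → K) (c : Fin d → F),
  IsTranscendenceBasis k r → IsTranscendenceBasis k c → ∀ v : AddValuation K (WithTop ℤ), Divisorial k v →
  ∃ (W : AddValuation F (WithTop ℤ)) (m : ℕ), Divisorial k W ∧ Lies v W m

/-- **Rsv** (MEDIUM; the restriction of a divisorial valuation to a subfield is divisorial; USES `NgBAS.{u,u}`, `NgDVL.{u,u}`, `MgNOR.{u}`, `StTb`, `StCan`).  `MgNOR` for `Api.res E ν`: `w`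
with `w π = 1` and `res E ν = m w`, i.e. `Lies w ν m`.  Choose `x' : Fin n → F` such that `c' = cor r x'` is a transcendence basis of `F/k` (transcendence basis of `F/E`, a finite one: from `c`).
`pd` dual to `r` on `E`, `pe` dual to `c'` on `F` (`StTb`); for `f ∈ E`, `pe_(castAdd m) f = pd_m f` and `pe_(natAdd j) f = 0` (uniqueness of derivations `E → F` with given values on `r`; minimal polynomials, lemma
`killAlg` in `MP_7b66e6_ag/N/I_TRD.lean`).  `LogDisc k ν c' A` (`StCan`).  (i) For all `g : Fin (e + n) → F` with `g_j ≠ 0` and `det (pe_m g_j / g_j) ≠ 0` its value is `≥ -A`: see the proof of `pr_Lbs` in `HA/I_Lbs.lean`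
(`δ` logarithmic with `det (δ_i c'_j)` of value `A`; `det (δ_i g_j / g_j) = det (δ_i c'_m) det (pe_m g_j / g_j)` has value `≥ 0`).  (ii) For `f : Fin e → E` take `g = Fin.append f x'` (`x'_j ≠ 0`): the matrix is block triangular,
`det (pe_m g_j / g_j) = det (pd_m f_j / f_j) ∏ x'_j⁻¹`.  So `m val w (det (pd_m f_j / f_j)) ≥ - A + Σ val ν x'_j`: bounded below, i.e. `- c ≤ val w (...)` for a suitable integer `c`.  `NgBAS` for `E, r, pd, w`, then `NgDVL`
(`trdeg k E = e` by `StTb`; `w` is `0` on `k^*`). -/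
def StRsv : Prop := ∀ (k E F : Type u) [Field k] [CharZero k] [Field E] [Field F] [Algebra k E] [Algebra k F] [Algebra E F]
  [IsScalarTower k E F] [Algebra.EssFiniteType k E] [Algebra.EssFiniteType k F] (e d : ℕ) (r : Fin e → E) (c : Fin d → F),
  IsTranscendenceBasis k r → IsTranscendenceBasis k c → ∀ ν : AddValuation F (WithTop ℤ), Divisorial k ν →
  (∃ f : E, f ≠ 0 ∧ val ν (algebraMap E F f) ≠ 0) →
  ∃ (w : AddValuation E (WithTop ℤ)) (m : ℕ), Divisorial k w ∧ Lies w ν m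

/-- **Dim** (EASY; USES `StTbs`, `StTfr`).  `StTfr` for `(k, K', F')` (basis `up K' r`): `cor (up K' r) y` is a transcendence basis of `F'/k` with `e + n` elements; `up F' c` too, with `d`
elements.  Second claim: `K` is algebraic over ... `F₁ = K₁(y)` has transcendence degree `e + 1` over `k`, `E ⊆ F₁` is algebraic (generated by the algebraic `K₁`), so `trdeg k E = e + 1`;
here `E`, `K₁`, `F₁` have no `k`-algebra structure except on `E`: put `Algebra k K₁` = composition with `K → K₁`, or argue over `K`: `trdeg K E = 1` and additivity. -/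
def StDim : Prop :=
  (∀ (k K F K' F' : Type u) [Field k] [CharZero k] [Field K] [Field F] [Field K'] [Field F'] [Algebra k K] [Algebra k F]
    [Algebra k K'] [Algebra k F'] [Algebra K F] [Algebra K K'] [Algebra F F'] [Algebra K' F'] [IsScalarTower k K F]
    [IsScalarTower k K K'] [IsScalarTower k F F'] [IsScalarTower k K' F'] [FiniteDimensional K K'] [FiniteDimensional F F']
    [Algebra.EssFiniteType k K] (e d n : ℕ) (r : Fin e → K) (c : Fin d → F) (y : Fin n → F'), IsTranscendenceBasis k r →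
    IsTranscendenceBasis k c → GenBy K' y → d = e + n) ∧
  ∀ (k K E : Type u) [Field k] [CharZero k] [Field K] [Field E] [Algebra k K] [Algebra k E] [Algebra K E]
    [IsScalarTower k K E] (e : ℕ) (r : Fin e → K), IsTranscendenceBasis k r → GRat K E →
    (∃ x : Fin 1 → E, IsTranscendenceBasis K x ∧ IsTranscendenceBasis k (cor r x)) ∧
    ∀ (d : ℕ) (c : Fin d → E), IsTranscendenceBasis k c → d = e + 1

/-- **Mnf** (EASY; no hypotheses).  An element of the closure is `Σ_(g ∈ G) n_g g` with natural numbers `n_g` (`AddSubmonoid.mem_closure_finset` or induction); if it is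
`≤ 1` then `n_g ≤ 1 / g`: finitely many. -/
def StMnf : Prop := ∀ G : Set ℝ, G.Finite → (∀ g ∈ G, 0 < g) →
  {t : ℝ | t ∈ AddSubmonoid.closure G ∧ t ≤ 1}.Finite ∧ ∀ t ∈ AddSubmonoid.closure G, 0 ≤ t

/-- **Csb** (EASY-MEDIUM; the constants; USES `StBa2`, `StPb`, `StFid`).  Compare `HA/I_Csg.lean`.  Finitely many `(N, d)` (`StFid`); `G` = all the numbers `l b / η > 0`, `l` a basic
real decomposition of one of these `d` (finitely many, `StBa2`), `1 ≤ η ≤ δ`.  `Γ`, `m` as in `StCsg` (same proof, from `StPb`). -/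
def StCsb : Prop := ∀ (n δ : ℕ) (I : Set ℝ), I ⊆ Set.Ioc 0 1 → DCC I →
  ∃ (G Γ : Set ℝ) (m : ℕ), G.Finite ∧ (∀ g ∈ G, 0 < g) ∧ Γ ⊆ Set.Ioc 0 1 ∧ Γ.Finite ∧ 1 ≤ m ∧
    ∀ (N : ℕ) (d : Fin N → ℝ), (∀ i, d i ∈ I) → ∑ i, d i = n + 1 →
      (∀ (S : Set (Fin (n + 1) → Fin N)) (l : (Fin (n + 1) → Fin N) → ℝ) (η : ℕ), Feas S d l → Basic l → 0 < η → η ≤ δ →
        ∀ b, l b = 0 ∨ l b / η ∈ G) ∧
      ∃ (l : ℕ) (a : Fin l → ℝ) (G' : Fin l → Finset ((Fin (n + 1) → Fin N) → ℕ)),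
        (∀ i, a i ∈ Γ) ∧ ∑ i, a i = 1 ∧ PbC d m a G'

/-! ## The b-version of part G -/

/-- **Keb** (MEDIUM; the key identity; USES `StTbs`, `StTfr`, `StTb`, `StCan`, `StGrm`, `StGpt`, `StOrd`, `StHor`, `StJac`, `StFac`, `StRmf`, `StJcb`, `StUpd`, `StWdl`).  Copy `HA/I_Kev.lean`: instead
of `LDis r x X D ν A₀` one has `Divisorial k ν` and `A₀ = 1 - 𝔻 ν`.  `EssFiniteType k F` is `BFib.ess`, `up F' c` is a transcendence basis (`StTbs`), `cor (up K' r) y` too (`StTfr`).  In `hhor`: `ν` is `0` on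
`K^*` (the block `h6`), so `Ov Z ν` with `P = ⊤` (`StGpt`), and `Lv Z L (Api.res K ν) = ev (res ν) φ = 0` (`φ` a representation at `⊤` (`carL`), `StWdl`); `BFib.triv`: `ev ν Φ = can ν + 𝔻 ν`, the
old `h5`.  The last part of `I_Kev.lean` (`O ∈ X`, ...) disappears: the third claim of `KeyB` is the identity `hΘ` with `hΞ`. -/
def StKeb : Prop := ∀ (κ : Prop) (k K F K' F' : Type u) [Field k] [CharZero k] [Field K] [Field F] [Field K'] [Field F']
  [Algebra k K] [Algebra k F] [Algebra k K'] [Algebra k F'] [Algebra K F] [Algebra K K'] [Algebra K F'] [Algebra F F']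
  [Algebra K' F'] [IsScalarTower k K F] [IsScalarTower k K K'] [IsScalarTower k F F'] [IsScalarTower k K' F']
  [IsScalarTower K F F'] [IsScalarTower K K' F'] [FiniteDimensional K K'] [FiniteDimensional F F'] [IsGalois F F']
  (δ e n N : ℕ) (I : Set ℝ) (r : Fin e → K) (c : Fin (e + n) → F) (y : Fin n → F') (Z : Set (Subalgebra k K))
  (𝔻 : AddValuation F (WithTop ℤ) → ℝ) (L : AddValuation K (WithTop ℤ) → ℝ) (Φ : Fˣ →₀ ℝ)
  (a : Fin N → Fin (n + 1) → K') (d : Fin N → ℝ), 1 ≤ n → BFib κ r c Z 𝔻 L Φ → Cvd (K := K) k δ I y 𝔻 a d →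
  ∃ (Ξ : K'ˣ →₀ ℝ) (J : F'ˣ), KeyB k r c y a d Φ Ξ J

/-- **Twb** (MEDIUM; inequality (II); USES `StTbs`, `StTfr`, `StTb`, `StCan`, `StGrm`, `StWdl`, `StTwa`, `StRmf`, `StRES.{u,u,u}`).  Copy `HA/I_Twg.lean`; `W'`, `m'`, `g`, `c₀` from `StTwa`, `W`, `η` from `StRES`, `Lies v W μ`,
`η μ = m' ε`; no centre on `X` is needed: `1 - 𝔻 W = B - Lv Z L (res K W) - ev W Φ` (`BFib.triv`, `LogDisc k W c B`, `Ov Z W`), `Lv Z L (res K W) = μ Lv Z L v` (`StWdl`, `v ≥ 0` on `P`, `ev (res K W) φ = μ ev v φ`), and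
`η ev W Φ = ev W' (push Φ)` is given by `KeyB`.  `η B = A' + val W' J`.  So `g η (1 - 𝔻 W) ≤ q Tg - Σ d_i Y_i` as there; `t = (1 - 𝔻 W)/μ`, `Pos κ t` by `BFib.pos`. -/
def StTwb : Prop := ∀ (κ : Prop) (k K F K' F' : Type u) [Field k] [CharZero k] [Field K] [Field F] [Field K'] [Field F']
  [Algebra k K] [Algebra k F] [Algebra k K'] [Algebra k F'] [Algebra K F] [Algebra K K'] [Algebra K F'] [Algebra F F']
  [Algebra K' F'] [IsScalarTower k K F] [IsScalarTower k K K'] [IsScalarTower k F F'] [IsScalarTower k K' F']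
  [IsScalarTower K F F'] [IsScalarTower K K' F'] [FiniteDimensional K K'] [FiniteDimensional F F'] [IsGalois F F']
  (e n N : ℕ) (r : Fin e → K) (c : Fin (e + n) → F) (y : Fin n → F') (Z : Set (Subalgebra k K))
  (𝔻 : AddValuation F (WithTop ℤ) → ℝ) (L : AddValuation K (WithTop ℤ) → ℝ) (Φ : Fˣ →₀ ℝ)
  (a : Fin N → Fin (n + 1) → K') (d : Fin N → ℝ) (Ξ : K'ˣ →₀ ℝ) (J : F'ˣ),
  BFib κ r c Z 𝔻 L Φ → GenBy K' y → (∀ i, a i ≠ 0) → (∀ i, 0 ≤ d i) → KeyB k r c y a d Φ Ξ J →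
  (bas a).Nonempty → ∀ v : AddValuation K (WithTop ℤ), DivOver Z v → ∀ (v' : AddValuation K' (WithTop ℤ)) (ε : ℕ),
  Divisorial k v' → Lies v v' ε → ∀ (q : ℕ) (Y : Fin N → ℤ), 0 < q → (∀ b ∈ bas a, ∑ j, Y (b j) ≤ q * val v' (mnr a b)) →
  ∃ t ∈ DisB k 𝔻 v, Pos κ t ∧ (q : ℝ) * (ε * t) ≤ q * Tg r Z L Ξ v v' ε - ∑ i, d i * (Y i : ℝ)

/-- **Opb** (EASY-MEDIUM; linear programming; USES `StBa1`, `StBa2`, `StLpd`, `StTwb`).  Copy `HA/I_Opg.lean` (`KeyB` holds for `a⁺, d⁺`). -/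
def StOpb : Prop := ∀ (κ : Prop) (k K F K' F' : Type u) [Field k] [CharZero k] [Field K] [Field F] [Field K'] [Field F']
  [Algebra k K] [Algebra k F] [Algebra k K'] [Algebra k F'] [Algebra K F] [Algebra K K'] [Algebra K F'] [Algebra F F']
  [Algebra K' F'] [IsScalarTower k K F] [IsScalarTower k K K'] [IsScalarTower k F F'] [IsScalarTower k K' F']
  [IsScalarTower K F F'] [IsScalarTower K K' F'] [FiniteDimensional K K'] [FiniteDimensional F F'] [IsGalois F F']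
  (e n N : ℕ) (r : Fin e → K) (c : Fin (e + n) → F) (y : Fin n → F') (Z : Set (Subalgebra k K))
  (𝔻 : AddValuation F (WithTop ℤ) → ℝ) (L : AddValuation K (WithTop ℤ) → ℝ) (Φ : Fˣ →₀ ℝ)
  (a : Fin N → Fin (n + 1) → K') (d : Fin N → ℝ) (Ξ : K'ˣ →₀ ℝ) (J : F'ˣ),
  BFib κ r c Z 𝔻 L Φ → GenBy K' y → (∀ i, a i ≠ 0) → (∀ i, 0 ≤ d i) → KeyB k r c y a d Φ Ξ J →
  ∀ v : AddValuation K (WithTop ℤ), DivOver Z v → ∀ (v' : AddValuation K' (WithTop ℤ)) (ε : ℕ),
  Divisorial k v' → Lies v v' ε → OptC κ a d (Tg r Z L Ξ v v' ε) v'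

/-- **Avb** (MEDIUM; averaged inequality (I); USES `StTbs`, `StTfr`, `StTb`, `StCan`, `StGrm`, `StIne`, `StWdl`, `StRmf`).  Copy `HA/I_Avc.lean`, with `1 - 𝔻 W = B - Lv Z L (res K W) - ev W Φ` instead of
`1 + can W - ev W ψ` as in `StTwb`; `Ov Z W` because `v ≥ 0` on `P ∈ Z` and `W`, `v'`, `v` are compatible: `W' = m' v'` on `K'`, `v' = ε v` on `K`, `W' = η W` on `F`, so
`η val W f = m' ε val v f` for `f ∈ K^*`. -/
def StAvb : Prop := ∀ (κ : Prop) (k K F K' F' : Type u) [Field k] [CharZero k] [Field K] [Field F] [Field K'] [Field F']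
  [Algebra k K] [Algebra k F] [Algebra k K'] [Algebra k F'] [Algebra K F] [Algebra K K'] [Algebra K F'] [Algebra F F']
  [Algebra K' F'] [IsScalarTower k K F] [IsScalarTower k K K'] [IsScalarTower k F F'] [IsScalarTower k K' F']
  [IsScalarTower K F F'] [IsScalarTower K K' F'] [FiniteDimensional K K'] [FiniteDimensional F F'] [IsGalois F F']
  (e n N : ℕ) (r : Fin e → K) (c : Fin (e + n) → F) (y : Fin n → F') (Z : Set (Subalgebra k K))
  (𝔻 : AddValuation F (WithTop ℤ) → ℝ) (L : AddValuation K (WithTop ℤ) → ℝ) (Φ : Fˣ →₀ ℝ)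
  (a : Fin N → Fin (n + 1) → K') (d : Fin N → ℝ) (Ξ : K'ˣ →₀ ℝ) (J : F'ˣ),
  BFib κ r c Z 𝔻 L Φ → GenBy K' y → (∀ i, a i ≠ 0) → (∀ i, 0 ≤ d i) → KeyB k r c y a d Φ Ξ J →
  ∀ (v : AddValuation K (WithTop ℤ)) (v' : AddValuation K' (WithTop ℤ)) (ε : ℕ), DivOver Z v → Divisorial k v' →
  Lies v v' ε → ∀ l : (Fin (n + 1) → Fin N) → ℝ, Feas (bas a) d l → mv a d v' = ∑ b, l b * (val v' (mnr a b) : ℝ) →
  ∀ (W : AddValuation F (WithTop ℤ)) (W' : AddValuation F' (WithTop ℤ)) (η m' : ℕ), Divisorial k W → Divisorial k W' →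
  Lies W W' η → Lies v' W' m' →
  ∃ b' : (Fin (n + 1) → Fin N) → ℕ,
    (η : ℝ) * (1 - 𝔻 W) = m' * (Tg r Z L Ξ v v' ε - mv a d v') + ∑ b, l b * (b' b : ℝ)

/-- **Dsb** (EASY-MEDIUM; the discriminant; USES `StCmp`, `StTwb`, `StAvb`).  Copy `HA/I_Dsg.lean` (simpler: no `O`, `φ`). -/
def StDsb : Prop := ∀ (κ : Prop) (k K F K' F' : Type u) [Field k] [CharZero k] [Field K] [Field F] [Field K'] [Field F']
  [Algebra k K] [Algebra k F] [Algebra k K'] [Algebra k F'] [Algebra K F] [Algebra K K'] [Algebra K F'] [Algebra F F']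
  [Algebra K' F'] [IsScalarTower k K F] [IsScalarTower k K K'] [IsScalarTower k F F'] [IsScalarTower k K' F']
  [IsScalarTower K F F'] [IsScalarTower K K' F'] [FiniteDimensional K K'] [FiniteDimensional F F'] [IsGalois F F']
  (e n N : ℕ) (r : Fin e → K) (c : Fin (e + n) → F) (y : Fin n → F') (Z : Set (Subalgebra k K))
  (𝔻 : AddValuation F (WithTop ℤ) → ℝ) (L : AddValuation K (WithTop ℤ) → ℝ) (Φ : Fˣ →₀ ℝ)
  (a : Fin N → Fin (n + 1) → K') (d : Fin N → ℝ) (Ξ : K'ˣ →₀ ℝ) (J : F'ˣ),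
  BFib κ r c Z 𝔻 L Φ → GenBy K' y → (∀ i, a i ≠ 0) → (∀ i, 0 ≤ d i) → KeyB k r c y a d Φ Ξ J →
  (∀ f : F, IsAlgebraic K f → ∃ c : K, algebraMap K F c = f) →
  ∀ v : AddValuation K (WithTop ℤ), DivOver Z v → ∀ (v' : AddValuation K' (WithTop ℤ)) (ε : ℕ),
  Divisorial k v' → Lies v v' ε → OptC κ a d (Tg r Z L Ξ v v' ε) v' →
  IsLeast (DisB k 𝔻 v) ((Tg r Z L Ξ v v' ε - mv a d v') / ε)

/-- **Mvb** (MEDIUM, helper9; b-fibrations crepantly dominated by hyperplane arrangements). -/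
def StMvb : Prop := ∀ n δ : ℕ, 1 ≤ n → ∀ I : Set ℝ, I ⊆ Set.Ioc 0 1 → DCC I →
  ∃ G : Set ℝ, G.Finite ∧ (∀ g ∈ G, 0 < g) ∧
    ∀ (κ : Prop) (k K F K' F' : Type u) [Field k] [CharZero k] [IsAlgClosed k] [Field K] [Field F] [Field K'] [Field F']
      [Algebra k K] [Algebra k F] [Algebra k K'] [Algebra k F'] [Algebra K F] [Algebra K K'] [Algebra K F'] [Algebra F F']
      [Algebra K' F'] [IsScalarTower k K F] [IsScalarTower k K K'] [IsScalarTower k F F'] [IsScalarTower k K' F']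
      [IsScalarTower K F F'] [IsScalarTower K K' F'] [FiniteDimensional K K'] [IsGalois K K'] [FiniteDimensional F F']
      [IsGalois F F'] (e N : ℕ) (r : Fin e → K) (c : Fin (e + n) → F) (y : Fin n → F') (Z : Set (Subalgebra k K))
      (𝔻 : AddValuation F (WithTop ℤ) → ℝ) (L : AddValuation K (WithTop ℤ) → ℝ) (Φ : Fˣ →₀ ℝ)
      (a : Fin N → Fin (n + 1) → K') (d : Fin N → ℝ), Cardinal.aleph0 ≤ Algebra.trdeg ℚ k →
      BFib κ r c Z 𝔻 L Φ → Cvd (K := K) k δ I y 𝔻 a d → ∃ Ξ : Kˣ →₀ ℝ, Rsl κ G r Z 𝔻 L Ξ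

/-- **Ind** (MEDIUM, helper9; the class of height `s`). -/
def StInd : Prop := ∀ n δ : ℕ, 1 ≤ n → 1 ≤ δ → ∀ (s : ℕ) (I : Set ℝ), I ⊆ Set.Ioc 0 1 → DCC I →
  ∃ G : Set ℝ, G.Finite ∧ (∀ g ∈ G, 0 < g) ∧
    ∀ (κ : Prop) (k K F : Type u) [Field k] [CharZero k] [IsAlgClosed k] [Field K] [Field F]
      [Algebra k K] [Algebra k F] [Algebra K F] [IsScalarTower k K F] (e d : ℕ) (r : Fin e → K) (c : Fin d → F)
      (Z : Set (Subalgebra k K)) (𝔻 : AddValuation F (WithTop ℤ) → ℝ) (L : AddValuation K (WithTop ℤ) → ℝ) (Φ : Fˣ →₀ ℝ),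
      Cardinal.aleph0 ≤ Algebra.trdeg ℚ k → BFib κ r c Z 𝔻 L Φ → Tow n δ I s K F Z 𝔻 →
      ∃ Ξ : Kˣ →₀ ℝ, Rsl κ G r Z 𝔻 L Ξ

end Pool.Agent.Work.MP_a2680c_ag.HA
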