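import Pool.Agent.Work.MP_a2680c_ag.HA.StmtsW

/-!
# MP_a2680c_ag, block HA, part X: geometrically rational curves

An item `NAME` is a theorem `pr_NAME : StNAME.{u}` (hypotheses: the statements named in the docstring after USES, in that order) in the
file `HA/I_NAME.lean`, namespace `Pool.Agent.Work.MP_a2680c_ag.HA`, auxiliary lemmas in the namespace
`Pool.Agent.Work.MP_a2680c_ag.HA.XNAME`.  Import this file (and the older `I_...` files whose lemmas you want); nobody waits for another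
item.  `K[y] = MvPolynomial (Fin 1) K` is a principal ideal domain (isomorphic to `K[X]`).  `Plc K ν`: place of `F/K` (`DefsW.lean`).
-/

set_option autoImplicit false

noncomputable section

namespace Pool.Agent.Work.MP_a2680c_ag.HA

open MP7b66e6 MP7b66e6.Q
open scoped BigOperators

universe u

/-- the place `ν` is `K`-rational: its residue field is `K` -/
def Rtl (K : Type u) {F : Type u} [Field K] [Field F] [Algebra K F] (ν : AddValuation F (WithTop ℤ)) : Prop :=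
  ∀ f : F, 0 ≤ ν f → ∃ c : K, 0 < ν (f - algebraMap K F c)

/-- `ν` is the point of the projective line with coordinate `y` where the linear form `c` vanishes -/
def Rpt {K F : Type u} [Field K] [Field F] [Algebra K F] (y : Fin 1 → F) (ν : AddValuation F (WithTop ℤ)) (c : Fin 2 → K) : Prop :=
  c ≠ 0 ∧ (c 1 ≠ 0 → 0 < ν (lin y c)) ∧ (c 1 = 0 → ν (y 0) < 0)

section
variable {E K' F' : Type u} [Field E] [Field K'] [Field F'] [Algebra E F'] [Algebra K' F']

/-- the places of `F'/K'` over the places `𝒮` of `E` -/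
def Abv (K' : Type u) {E F' : Type u} [Field E] [Field K'] [Field F'] [Algebra E F'] [Algebra K' F']
    (𝒮 : Set (AddValuation E (WithTop ℤ))) : Set (AddValuation F' (WithTop ℤ)) :=
  {ν' | Plc K' ν' ∧ ∃ ν ∈ 𝒮, ∃ m : ℕ, Lies ν ν' m}

/-- `F' = K'(y)` is generated by `E` and `K'`, and the places of `F'/K'` over `𝒮` are `K'`-rational -/
structure Spt (𝒮 : Set (AddValuation E (WithTop ℤ))) (y : Fin 1 → F') : Prop where
  gen : GenBy K' y
  comp : IntermediateField.adjoin E (Set.range (algebraMap K' F')) = ⊤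
  rat : ∀ ν' ∈ Abv K' 𝒮, Rtl K' (ν' : AddValuation F' (WithTop ℤ))

end

/-! ## The projective line -/

/-- **Cls** (MEDIUM; places of `K(y)`; no hypotheses; may use `StOrd`-like arguments of `HA/I_Ord.lean`).  (1) `0 ≤ ν (y 0)`: `ν ≥ 0` on `K[y]`, `{g : 0 < ν (g(y))}` is a prime ideal, not `0` (otherwise `ν` is trivial on `F = Frac K[y]`), generated by an irreducible `p`;
`s = ν (p(y)) > 0`; for `g = p^m h`, `p ∤ h`: `ν (h(y)) = 0`, `ν (g(y)) = m s`; all values on `F` are multiples of `s`, so `s = 1` (`ν π = 1`).  `ν (y 0) < 0`: for `g` of degree `m`,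
`ν (g(y)) = m ν (y 0)` (leading term), all values are multiples of `ν (y 0)`, so `ν (y 0) = -1`.  (2), (3) immediate from the definitions (constants are prime to `p`; `π = p(y)` resp. `1/y`).
(4) the ideal of `ν'` contains `p`, so it is generated by `p` and `ν'` is `OrdP y p` by the argument of (1); both are determined on `K[y]`, so on `F`.  (5) the same.  (6) `f = g(y)/h(y)`.  If `0 < ν (y 0 - β)`: `ν` is
`OrdP` of `X_0 - β` by (4); cancel powers of `X_0 - β`, so that not both `g(β)`, `h(β)` are `0`; `0 ≤ ν f` implies `h(β) ≠ 0`, and `c = g(β)/h(β)`.  If `ν (y 0) < 0`: `deg g ≤ deg h`, `c` = quotient of the coefficients of `y^(deg h)`. -/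
def StCls : Prop := ∀ (K F : Type u) [Field K] [Field F] [Algebra K F] (y : Fin 1 → F), GenBy K y →
  (∀ ν : AddValuation F (WithTop ℤ), Plc K ν → (0 ≤ ν (y 0) ∧ ∃ p : MvPolynomial (Fin 1) K, OrdP y p ν) ∨
    (ν (y 0) < 0 ∧ OrdI K y ν)) ∧
  (∀ (p : MvPolynomial (Fin 1) K) (ν : AddValuation F (WithTop ℤ)), OrdP y p ν → Plc K ν ∧ 0 ≤ ν (y 0)) ∧
  (∀ ν : AddValuation F (WithTop ℤ), OrdI K y ν → Plc K ν ∧ ν (y 0) < 0) ∧
  (∀ (p : MvPolynomial (Fin 1) K) (ν ν' : AddValuation F (WithTop ℤ)), OrdP y p ν → Plc K ν' → 0 ≤ ν' (y 0) →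
    0 < ν' (MvPolynomial.aeval y p) → ν' = ν) ∧
  (∀ ν ν' : AddValuation F (WithTop ℤ), Plc K ν → Plc K ν' → ν (y 0) < 0 → ν' (y 0) < 0 → ν = ν') ∧
  ∀ ν : AddValuation F (WithTop ℤ), Plc K ν → (ν (y 0) < 0 ∨ ∃ β : K, 0 < ν (y 0 - algebraMap K F β)) → Rtl K ν

/-- **Fpl** (EASY-MEDIUM; USES `StCls`).  `f = g(y)/h(y)`.  A place with `val ν f ≠ 0` is the infinite one (unique, `StCls` (5)) or `OrdP y p` with `p ∣ g h` (`StCls` (1)); up to units `p` is one of the finitely many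
irreducible factors of `g h`, and `ν` is determined by it (`StCls` (4)). -/
def StFpl : Prop := ∀ (K F : Type u) [Field K] [Field F] [Algebra K F] (y : Fin 1 → F), GenBy K y → ∀ f : F, f ≠ 0 →
  {ν : AddValuation F (WithTop ℤ) | Plc K ν ∧ val ν f ≠ 0}.Finite

/-- **Rpv** (EASY-MEDIUM; USES `StCls`).  (1) `ν (y 0) < 0`: `c = (1, 0)`.  Otherwise `Rtl` for `f = y 0` gives `β`, `c = (-β, 1)`, `lin y c = y 0 - β`.  (2) If `c 1 ≠ 0`: `q = C (c 0) + C (c 1) X_0` is irreducible, `lin y c = q(y)`,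
`0 ≤ ν (y 0)` (from `0 < ν (c 0 + c 1 y)`), so `ν` is the place `OrdP y q` (`StCls` (4)).  If `OrdP y p μ`: `p ∼ q` (then `μ = ν`, value `1`) or `p ∤ q` (value `0`, and `μ ≠ ν`).  If `OrdI K y μ`: `μ (y 0) < 0`, `μ ≠ ν`, value `- 1`.
If `c 1 = 0`: `lin y c = c 0 ≠ 0` has value `0` at all places; `ν (y 0) < 0`, so `ν` is the infinite place (`StCls` (1), (5)), and different from all `OrdP` (`StCls` (2)). -/
def StRpv : Prop := ∀ (K F : Type u) [Field K] [Field F] [Algebra K F] (y : Fin 1 → F), GenBy K y →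
  (∀ ν : AddValuation F (WithTop ℤ), Plc K ν → Rtl K ν → ∃ c : Fin 2 → K, Rpt y ν c) ∧
  ∀ (ν : AddValuation F (WithTop ℤ)) (c : Fin 2 → K), Plc K ν → Rpt y ν c →
    (∀ (p : MvPolynomial (Fin 1) K) (μ : AddValuation F (WithTop ℤ)), OrdP y p μ →
      (μ = ν → val μ (lin y c) = 1) ∧ (μ ≠ ν → val μ (lin y c) = 0)) ∧
    ∀ μ : AddValuation F (WithTop ℤ), OrdI K y μ → (μ = ν → val μ (lin y c) = 0) ∧ (μ ≠ ν → val μ (lin y c) = -1)

/-- **Pol** (EASY-MEDIUM; a coordinate with its pole at a given rational point; USES `StCls`).  `ν (y 0) < 0`: `z = y` (`StCls` (1)).  Otherwise `β` with `0 < ν (y 0 - β)` (`Rtl`), `z = 1/(y 0 - β)`; `K(z) = K(y)`, `z` is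
transcendental, `ν z < 0`, so `OrdI K z ν` by `StCls` (1) for `z`. -/
def StPol : Prop := ∀ (K F : Type u) [Field K] [Field F] [Algebra K F] (y : Fin 1 → F), GenBy K y →
  ∀ ν : AddValuation F (WithTop ℤ), Plc K ν → Rtl K ν → ∃ z : Fin 1 → F, GenBy K z ∧ OrdI K z ν

/-- **Lsp** (EASY-MEDIUM; functions with a simple pole; USES `StCls`, `StOrd`).  `f = g(z)/h(z)` in lowest terms; if `h` had an irreducible factor `p`, the place `OrdP z p` (`StOrd`; it is not `ν` by `StCls` (2), (3)) would have `μ f < 0`.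
So `h` is constant, `f = g(z)`, and `- deg g = ν f ≥ -1`. -/
def StLsp : Prop := ∀ (K F : Type u) [Field K] [Field F] [Algebra K F] (z : Fin 1 → F), GenBy K z →
  ∀ ν : AddValuation F (WithTop ℤ), OrdI K z ν → ∀ f : F, (∀ μ : AddValuation F (WithTop ℤ), Plc K μ → μ ≠ ν → 0 ≤ μ f) →
  ((-1 : ℤ) : WithTop ℤ) ≤ ν f → ∃ a b : K, f = algebraMap K F a * z 0 + algebraMap K F b

/-! ## Constant field extensions -/

/-- **Unr** (MEDIUM; a constant field extension is unramified; USES `StAPX.{u}`).  `G = (F' ≃ₐ[E] F')` (finite).  For `σ ∈ G`: `σ` maps the image of `K'` to itself (`K'/K` is normal: `σ c` is a root of the minimal polynomial of `c` over `K`, all of whose roots in `F'` come from `K'`),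
and two different `σ` differ on `K'` (`comp`).  `ν'` has value `0` on the image of `K'^*`.  Let `ν' π = 1`; `ν_σ f = ν' (σ f)`.  By `StAPX` (`ι` = the `σ` with `ν_σ ≠ ν'`, transferred to a `Type` by `Finite`; `N = 1`) there is `θ` with `1 ≤ ν' (θ - 1)` and `1 ≤ ν_σ θ` for these; `z = π θ^M`, `M` large:
`ν' (z) = 1` and `1 ≤ ν' (σ z)` for all `σ` (if `ν_σ = ν'` clear).  Claim: there is `c ∈ K'` with `ν' (Σ_σ σ(c) σ(z)) = 1`; then `π₀ = Σ_σ σ(c z) ∈ E` (fixed by `G`, `IsGalois E F'`) is the element we want.  Otherwise `2 ≤ ν' (Σ_σ σ(c) σ(z))` for all `c`.  Dedekind's argument: for every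
finite set `T ⊆ G` and `z_σ ∈ F'` (`σ ∈ T`) with `2 ≤ ν' (Σ_(σ ∈ T) σ(c) z_σ)` for all `c ∈ K'` one has `2 ≤ ν' (z_σ)` for all `σ ∈ T`: induction on `|T|`; for `σ₀ ≠ τ` in `T` choose `d ∈ K'`, `σ₀ d ≠ τ d`; subtract `τ(d)` times the relation for `c` from the relation for `c d`: a relation for
`T \ {τ}` with `(σ(d) - τ(d)) z_σ`, so `2 ≤ ν' ((σ₀(d) - τ(d)) z_(σ₀)) = ν' (z_(σ₀))`.  With `T = G`, `z_σ = σ z`, `σ = 1`: `2 ≤ ν' z = 1`, a contradiction. -/
def StUnr : Prop := ∀ (K E K' F' : Type u) [Field K] [Field E] [Field K'] [Field F'] [Algebra K E] [Algebra K K']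
  [Algebra K F'] [Algebra E F'] [Algebra K' F'] [IsScalarTower K E F'] [IsScalarTower K K' F'] [CharZero K]
  [FiniteDimensional K K'] [IsGalois K K'] [FiniteDimensional E F'] [IsGalois E F'],
  IntermediateField.adjoin E (Set.range (algebraMap K' F')) = ⊤ →
  ∀ ν' : AddValuation F' (WithTop ℤ), Plc K' ν' → ∃ π : E, ν' (algebraMap E F' π) = 1

/-- **Gcp** (MEDIUM-HARD; the points of the generic fibre are prime divisors of `Y`; USES `NgPDV.{u,u}`, `StTb`, `StGrm`, `StGpt`, `StLoc`, `StCnt`).  `ν` is `0` on `K^*`, so `Ov Z ν` with `P = ⊤` (`StGpt`): `O ∈ Y`, `Cen O ν` (`StCnt` (2)).  `P ∈ Z` with `Dom P O` (`Mor`); `P` and `⊤` are both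
centres of `Api.res K ν`, so `P = ⊤` (`StLoc` (3)): `K ⊆ O`.  `O ≠ E` (`ν π = 1`, `π⁻¹`...: if `π⁻¹ ∈ O` then `ν (π⁻¹) ≥ 0`).  `Germ O (e+1)` (`StGrm`, `StTb`): `O` is Noetherian; let `0 ≠ f₀ ∈ O`, `ν f₀ > 0` (a non-unit) and `p` a minimal prime of `(f₀)`: height one (Krull, as in `HA/I_Krg.lean`), `NgPDV`: `μ`
divisorial, `μ ≥ 0` on `O`, `p = {f ∈ O : μ f > 0}`; `p ⊆ m_O = {f ∈ O : ν f > 0}` (elements of value `0` are units of `O` by `Cen`).  Claim `p = m_O`.  Let `g ∈ m_O`, `g ∉ p`, `0 ≠ f ∈ p`.  `E/K` has transcendence degree `1` (`trdeg k E = e + 1`, `trdeg k K = e`), so there is a relation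
`Σ c_ij g^i f^j = 0`, `c_ij ∈ K` not all `0`; divide by the largest possible power of `f`, so some `c_i0 ≠ 0`; then `μ (Σ_i c_i0 g^i) > 0`; with `a` = least `i` with `c_i0 ≠ 0` and `μ g = 0`: `μ (h) > 0` for `h = c_a0 + c_(a+1)0 g + ... ∈ O`, but `ν h = 0`, so `h⁻¹ ∈ O` and `μ h = 0`, a
contradiction.  So `p = m_O` and `O` is the local ring at a height one prime; `PDat Y O μ` (`StGrm`: `PrimeDiv O μ`), and the ring of `μ` is `O`: by `StLoc` (3) (`Cen O μ`, and the ring of `μ` is in `Y`, `StPdd` may be taken as the last hypothesis).  So `ν ≥ 0` on `{μ ≥ 0}`, which gives `{ν ≥ 0} = {μ ≥ 0} = O`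
(if `ν f ≥ 0` and `f ∉ O` then `μ (f⁻¹) > 0`, `f⁻¹ ∈ m_O`, `ν (f⁻¹) > 0`).  `PD Y ν`. -/
def StGcp : Prop := ∀ (k K E : Type u) [Field k] [CharZero k] [Field K] [Field E] [Algebra k K] [Algebra k E] [Algebra K E]
  [IsScalarTower k K E] (e : ℕ) (r : Fin e → K) (c : Fin (e + 1) → E) (Z : Set (Subalgebra k K)) (Y : Set (Subalgebra k E)),
  IsTranscendenceBasis k r → IsTranscendenceBasis k c → Vty Z → Vty Y → Mor Y Z → Prp Y Z →
  ∀ ν : AddValuation E (WithTop ℤ), Plc K ν → PD Y ν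

/-- **Fnp** (EASY-MEDIUM; finitely many points in the boundary; USES `StGrm`, `StPdd`, `StFsp`, `StFsc`, `StWdl`, `StGpt`, `StGcp`).  `Plc K w` implies `PD Y w` (`StGcp`), so `Divisorial k w`; `Ov Z w` with `P = ⊤`; `Lv Z L (res K w) = ev (res K w) φ = 0` (`φ` a representation at `⊤`), so
`𝔻 w = ev w Φ - can k c w`; the sets of the `PD Y w` with `ev w Φ ≠ 0` (lemma `XLfs.fin_ev` in `HA/I_Lfs.lean`, `StFsp`) and with `can k c w ≠ 0` (`StFsc`) are finite. -/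
def StFnp : Prop := ∀ (κ : Prop) (k K E : Type u) [Field k] [CharZero k] [Field K] [Field E] [Algebra k K] [Algebra k E]
  [Algebra K E] [IsScalarTower k K E] (e : ℕ) (r : Fin e → K) (c : Fin (e + 1) → E) (Z : Set (Subalgebra k K))
  (Y : Set (Subalgebra k E)) (𝔻 : AddValuation E (WithTop ℤ) → ℝ) (L : AddValuation K (WithTop ℤ) → ℝ) (Φ : Eˣ →₀ ℝ),
  BFib κ r c Z 𝔻 L Φ → Vty Y → Mor Y Z → Prp Y Z →
  (∀ w : AddValuation E (WithTop ℤ), Plc K w → Divisorial k w) ∧ {w : AddValuation E (WithTop ℤ) | Plc K w ∧ 𝔻 w ≠ 0}.Finite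

/-- **Cvc** (MEDIUM; the criterion; USES `StCls`, `StFpl`, `StRpv`, `StUnr`).  `𝒮 = {w | Plc K w ∧ 𝔻 w ≠ 0}`.  (i) For a place `ν'` of `F'/K'` let `ν = Api.res E ν'`: it takes the value `1` (`StUnr`), `Plc K ν`, `Lies ν ν' 1`, and `Lies w ν' m` with `w` normalized implies `w = ν`, `m = 1`.
(ii) `Abv K' 𝒮` is finite: it is the set of the places over the finite set `𝒮`; for `w ∈ 𝒮` with `w π = 1` they have `val ν' π ≠ 0` (`StFpl`).  Let `N` be its cardinality (`Set.Finite`, `Finset.equivFin`), `ν'_1, ..., ν'_N` the elements, `a i` a linear form with `Rpt y (ν'_i) (a i)` (`StRpv` (1), `Spt.rat`),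
`d i = 𝔻 (res E ν'_i) ∈ I`.  (iii) `Cvd.fin`: `OrdP y p ν'` is a place (`StCls` (2)), `ν = res E ν'`, `ε = 1`, and `Σ_i d_i val ν' (lin y (a i))` is `d_i` if `ν' = ν'_i` and `0` if `ν'` is none of them (`StRpv` (2)), in which case `𝔻 ν = 0`.  `Cvd.inf` likewise. -/
def StCvc : Prop := ∀ (k K E K' F' : Type u) [Field k] [CharZero k] [Field K] [Field E] [Field K'] [Field F'] [Algebra k K]
  [Algebra k E] [Algebra k K'] [Algebra k F'] [Algebra K E] [Algebra K K'] [Algebra K F'] [Algebra E F'] [Algebra K' F']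
  [IsScalarTower k K E] [IsScalarTower k K K'] [IsScalarTower k E F'] [IsScalarTower k K' F'] [IsScalarTower K E F']
  [IsScalarTower K K' F'] [FiniteDimensional K K'] [IsGalois K K'] [FiniteDimensional E F'] [IsGalois E F'] (δ : ℕ)
  (I : Set ℝ) (𝔻 : AddValuation E (WithTop ℤ) → ℝ) (y : Fin 1 → F'),
  (∀ f : E, IsAlgebraic K f → ∃ c : K, algebraMap K E c = f) →
  (∀ w : AddValuation E (WithTop ℤ), Plc K w → Divisorial k w) → {w : AddValuation E (WithTop ℤ) | Plc K w ∧ 𝔻 w ≠ 0}.Finite →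
  (∀ w : AddValuation E (WithTop ℤ), Plc K w → 𝔻 w = 0 ∨ 𝔻 w ∈ I) →
  Spt (K' := K') {w : AddValuation E (WithTop ℤ) | Plc K w ∧ 𝔻 w ≠ 0} y → Module.finrank K K' ≤ δ → Module.finrank E F' ≤ δ →
  ∃ (N : ℕ) (a : Fin N → Fin 2 → K') (d : Fin N → ℝ), Cvd (K := K) k δ I y 𝔻 a d ∧
    N = (Abv K' {w : AddValuation E (WithTop ℤ) | Plc K w ∧ 𝔻 w ≠ 0} : Set (AddValuation F' (WithTop ℤ))).ncard

/-! ## Splitting and descent -/

/-- **Spl** (MEDIUM-HARD; a splitting field; USES `StCls`).  `K₁, F₁, y₁` from `GRat`.  For `w ∈ 𝒮` choose `π_w ∈ E`, `w π_w = 1`; its image in `F₁ = K₁(y₁)` is `g_w(y₁)/h_w(y₁)`, `g_w, h_w ∈ K₁[T]` not `0`.  `Ω = AlgebraicClosure K₁`, `K₂ ⊆ Ω` an intermediate field of `Ω/K`, finite and normal over `K`, which contains `K₁` and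
all roots of all `g_w`, `h_w` (e.g. `IntermediateField.normalClosure K _ Ω` of the field generated by `K₁` and the roots; or the field generated over `K` by the roots in `Ω` of a product of minimal polynomials over `K`); `F₂ = FractionRing K₂[X]` (or `RatFunc K₂`), `y₂ = X`; the map `F₁ = K₁(y₁) → F₂`, `y₁ ↦ X`, extending
`K₁ → K₂` (`F₁` is the fraction field of `K₁[y₁]`).  `Algebra E F₂` = the composite `E → F₁ → F₂`.  `comp`: the field generated by `E` and `K₂` contains (the image of) `K₁`, hence `F₁ ∋ y₁` (`F₁` is generated by `E`, `K₁`), so `X`, and `K₂`: everything.  `F₂ = E(K₂)` is finite over `E` and normal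
(`K₂` is generated over `K` by all the roots of some polynomials over `K`), separable in characteristic `0`: Galois.  `rat`: let `ν₂ ∈ Abv K₂ 𝒮` over `w ∈ 𝒮`: `ν₂ (π_w) = m > 0`, so `ν₂ (g_w(X)) ≠ 0` or `ν₂ (h_w(X)) ≠ 0`.  If `0 ≤ ν₂ X`, one of the linear factors `X - β` of `g_w` or `h_w` over `K₂` has `ν₂ (X - β) > 0`
(a nonzero value of a polynomial is `> 0`); otherwise `ν₂ X < 0`; `StCls` (6). -/
def StSpl : Prop := ∀ (K E : Type u) [Field K] [CharZero K] [Field E] [Algebra K E], GRat K E →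
  ∀ 𝒮 : Set (AddValuation E (WithTop ℤ)), 𝒮.Finite → (∀ w ∈ 𝒮, Plc K (w : AddValuation E (WithTop ℤ))) →
  ∃ (K₂ F₂ : Type u) (_ : Field K₂) (_ : Field F₂) (_ : Algebra K K₂) (_ : Algebra K F₂) (_ : Algebra E F₂)
    (_ : Algebra K₂ F₂) (_ : IsScalarTower K E F₂) (_ : IsScalarTower K K₂ F₂) (_ : FiniteDimensional K K₂)
    (_ : IsGalois K K₂) (_ : FiniteDimensional E F₂) (_ : IsGalois E F₂) (y : Fin 1 → F₂), Spt (K' := K₂) 𝒮 y

/-- **Hix** (EASY-MEDIUM; no hypotheses).  `G = (F ≃ₐ[E] F)` acts on the finite set `𝒬`: `σ ↦ (ν ↦ cg σ⁻¹ ν)` is a homomorphism `G → Equiv.Perm 𝒬` (`cg (σ τ) ν = cg τ (cg σ ν)`, `Api.cg_apply`), `H` its kernel: normal, `G/H` embeds in `Equiv.Perm 𝒬`, which has `(ncard 𝒬)!` elements. -/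
def StHix : Prop := ∀ (E F : Type u) [Field E] [Field F] [Algebra E F] [FiniteDimensional E F]
  (𝒬 : Set (AddValuation F (WithTop ℤ))), 𝒬.Finite → (∀ (σ : F ≃ₐ[E] F), ∀ ν ∈ 𝒬, cg σ ν ∈ 𝒬) →
  ∃ H : Subgroup (F ≃ₐ[E] F), H.Normal ∧ H.index ≤ (𝒬.ncard).factorial ∧ ∀ σ ∈ H, ∀ ν ∈ 𝒬, cg σ ν = ν

/-- **Fxd** (MEDIUM-HARD; fixed fields; no hypotheses).  `F' = IntermediateField.fixedField H`, `K' = {c ∈ K₂ : algebraMap K₂ F₂ c ∈ F'}` (comap).  `E ≤ F'` has degree `H.index` and is Galois (`H` normal; `IsGalois.of_fixedField_normal_subgroup` or `InfiniteGalois`/`IsGalois` lemmas); `[F₂ : F'] = |H|`.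
(a) Restriction: every `σ ∈ G = (F₂ ≃ₐ[E] F₂)` maps (the image of) `K₂` to itself (normal over `K`): `ρ : G → (K₂ ≃ₐ[K] K₂)` (`AlgEquiv.restrictNormalHom`), injective because `F₂` is generated by `E` and `K₂`.  `K'` = the fixed field of `ρ(H)`, so `[K₂ : K'] = |ρ(H)| = |H|`.
(b) `ρ` is surjective: the fixed field of `ρ(G)` in `K₂` consists of elements of `K₂` whose image is fixed by `G`, i.e. lies in `E`, and is algebraic over `K`, hence in `K` (`conn`); Galois correspondence.  So `ρ(H)` is normal, `K'/K` is Galois and `[K' : K] = H.index`.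
(c) `F'` is generated by `E` and `K'`: let `M` be the field generated; an element `σ ∈ G` fixing `M` has `ρ(σ)` trivial on `K'`, so `ρ(σ) ∈ ρ(H)` (Galois correspondence for `K₂/K`), `σ ∈ H` (`ρ` injective), so `σ` fixes `F'`; Galois correspondence for `F₂/E`: `F' ≤ M`. -/
def StFxd : Prop := ∀ (K E K₂ F₂ : Type u) [Field K] [Field E] [Field K₂] [Field F₂] [Algebra K E] [Algebra K K₂]
  [Algebra K F₂] [Algebra E F₂] [Algebra K₂ F₂] [IsScalarTower K E F₂] [IsScalarTower K K₂ F₂] [CharZero K]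
  [FiniteDimensional K K₂] [IsGalois K K₂] [FiniteDimensional E F₂] [IsGalois E F₂],
  (∀ f : E, IsAlgebraic K f → ∃ c : K, algebraMap K E c = f) →
  IntermediateField.adjoin E (Set.range (algebraMap K₂ F₂)) = ⊤ → ∀ H : Subgroup (F₂ ≃ₐ[E] F₂), H.Normal →
  ∃ (K' : IntermediateField K K₂) (F' : IntermediateField E F₂),
    (∀ f : F₂, f ∈ F' ↔ ∀ h ∈ H, h f = f) ∧ (∀ c : K₂, c ∈ K' ↔ algebraMap K₂ F₂ c ∈ F') ∧ IsGalois K K' ∧ IsGalois E F' ∧
    Module.finrank K K' ≤ H.index ∧ Module.finrank E F' ≤ H.index ∧ Module.finrank F' F₂ = Module.finrank K' K₂ ∧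
    IntermediateField.adjoin E ((algebraMap K₂ F₂) '' (K' : Set K₂)) = F'

/-- **Ytr** (MEDIUM; an invariant coordinate; USES `StCls`, `StPol`, `StLsp`).  `z` from `StPol` (`OrdI K₂ z ν`, `ν z = -1`).  `h ∈ H` maps the image of `K₂` to itself (normal over `K`; as in `StUnr`), so for a place `μ` of `F₂/K₂` also `cg h μ` is a place, and `μ (h z) = (cg h μ)(z) ≥ 0` if `cg h μ ≠ ν`, i.e. `μ ≠ ν`
(`cg h ν = ν` and `cg h` is injective; places `≠ ν` have `z`-value `≥ 0` by `StCls` (1), (5)), and `ν (h z) = -1`.  `StLsp`: `h z = α_h z + β_h` (`α_h, β_h ∈ K₂`, `α_h ≠ 0` since `ν (h z) = -1`).  For `c ∈ K₂`: `t_c = Σ_(h ∈ H) h(c z) = A_c z + B_c`, `A_c = Σ_h h(c) α_h`.  The `h` restricted to `K₂` are pairwise different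
(`comp`), so by linear independence of characters (`linearIndependent_monoidHom`, with values in `K₂` or `F₂`) `A_c ≠ 0` for some `c`.  `t_c` is fixed by `H` and `K₂(t_c) = K₂(z) = F₂`. -/
def StYtr : Prop := ∀ (K E K₂ F₂ : Type u) [Field K] [Field E] [Field K₂] [Field F₂] [Algebra K E] [Algebra K K₂]
  [Algebra K F₂] [Algebra E F₂] [Algebra K₂ F₂] [IsScalarTower K E F₂] [IsScalarTower K K₂ F₂] [CharZero K]
  [FiniteDimensional K K₂] [IsGalois K K₂] [FiniteDimensional E F₂] [IsGalois E F₂],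
  IntermediateField.adjoin E (Set.range (algebraMap K₂ F₂)) = ⊤ → ∀ y : Fin 1 → F₂, GenBy K₂ y →
  ∀ ν : AddValuation F₂ (WithTop ℤ), Plc K₂ ν → Rtl K₂ ν → ∀ H : Subgroup (F₂ ≃ₐ[E] F₂), (∀ h ∈ H, cg h ν = ν) →
  ∃ z : Fin 1 → F₂, GenBy K₂ z ∧ ∀ h ∈ H, h (z 0) = z 0

/-- **Gfx** (EASY-MEDIUM; no hypotheses).  `y` is algebraically independent over `K'` (its image is over `K₂ ⊇ K'`; injectivity).  `M = IntermediateField.adjoin K' (range y) ⊆ F'`.  `F₂` is generated over `M` by (the image of) `K₂`, because it is generated over `K₂` by `y`; so `[F₂ : M] ≤ [K₂ : K']` (a `K'`-basis of `K₂` spans a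
subring containing `M` and `K₂` which is finite over the field `M`, hence a field, hence `F₂`).  `[F₂ : M] = [F₂ : F'] [F' : M]` and `[F₂ : F'] = [K₂ : K'] > 0`: `[F' : M] = 1`, `M = F'`. -/
def StGfx : Prop := ∀ (K' F' K₂ F₂ : Type u) [Field K'] [Field F'] [Field K₂] [Field F₂] [Algebra K' F'] [Algebra K' K₂]
  [Algebra K' F₂] [Algebra F' F₂] [Algebra K₂ F₂] [IsScalarTower K' F' F₂] [IsScalarTower K' K₂ F₂] [FiniteDimensional K' K₂]
  [FiniteDimensional F' F₂] (y : Fin 1 → F'), Module.finrank F' F₂ = Module.finrank K' K₂ → GenBy K₂ (up F₂ y) → GenBy K' y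

/-- **Rdk** (MEDIUM; rationality descends; USES `StCls`, `StOrd`).  By `StCls` (1) for `F' = K'(y)`: if `μ (y 0) < 0` use (6).  Otherwise `OrdP y p μ`, `0 ≤ μ (y 0)`.  Let `q` be an irreducible factor of `p` in `K₂[T]` (`MvPolynomial.map`), `ν₂` the place of `F₂ = K₂(y)` with `OrdP (up F₂ y) q ν₂` (`StOrd`), `Plc K₂ ν₂` (`StCls` (2)).
`Lies μ ν₂ m` with `m = ν₂ (p(y)) ≥ 1`: for `g ∈ K'[T]` prime to `p`, `1 = u g + v p` and `ν₂ ≥ 0`, `ν₂ (p(y)) > 0` give `ν₂ (g(y)) = 0`; every `g` is `p^s g'`.  By hypothesis `ν₂` is rational and fixed by all `σ`.  `β ∈ K₂` with `0 < ν₂ (y 0 - β)` (`0 ≤ ν₂ (y 0)`).  For `σ ∈ (F₂ ≃ₐ[F'] F₂)`: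
`ν₂ (y 0 - σ β) = ν₂ (σ (y 0 - β)) = (cg σ ν₂) (y 0 - β) > 0`, so `0 < ν₂ (β - σ β)`; but `β - σ β` is algebraic over `K'`, on which `ν₂` is trivial, so `ν₂` of it is `0` unless `σ β = β`.  So `β` comes from some `β' ∈ K'`, `0 < μ (y 0 - β')` (`Lies`), and `StCls` (6). -/
def StRdk : Prop := ∀ (K' F' K₂ F₂ : Type u) [Field K'] [Field F'] [Field K₂] [Field F₂] [Algebra K' F'] [Algebra K' K₂]
  [Algebra K' F₂] [Algebra F' F₂] [Algebra K₂ F₂] [IsScalarTower K' F' F₂] [IsScalarTower K' K₂ F₂] [FiniteDimensional K' K₂]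
  [FiniteDimensional F' F₂] (y : Fin 1 → F'), GenBy K' y → GenBy K₂ (up F₂ y) →
  (∀ c : K₂, (∀ σ : F₂ ≃ₐ[F'] F₂, σ (algebraMap K₂ F₂ c) = algebraMap K₂ F₂ c) → ∃ c' : K', algebraMap K' K₂ c' = c) →
  ∀ μ : AddValuation F' (WithTop ℤ), Plc K' μ →
  (∀ ν₂ : AddValuation F₂ (WithTop ℤ), Plc K₂ ν₂ → (∃ m : ℕ, Lies μ ν₂ m) →
    Rtl K₂ ν₂ ∧ ∀ σ : F₂ ≃ₐ[F'] F₂, cg σ ν₂ = ν₂) → Rtl K' μ

/-- **Dsc** (MEDIUM-HARD; descent to a field of bounded degree; USES `StHix`, `StFxd`, `StYtr`, `StGfx`, `StRdk`).  `𝒬 = Abv K₂ 𝒮` is finite and not empty (`0 < ncard`), stable under `G = (F₂ ≃ₐ[E] F₂)` (`σ` maps `K₂` to itself, and `cg σ ν` is over the same place of `E`, `Api.lies_cg`).  `H` from `StHix`, `K'`, `F'` from `StFxd` (as types: the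
coerced intermediate fields; `Algebra K' F'` is the restriction of `algebraMap K₂ F₂`, `RingHom.toAlgebra`).  `z` from `StYtr` for some `ν ∈ 𝒬`; `z 0 ∈ F'`; `y : Fin 1 → F'` with `up F₂ y = z`; `GenBy K' y` by `StGfx`.  `comp` from the last claim of `StFxd`.  `rat`: let `μ ∈ Abv K' 𝒮`, over `w ∈ 𝒮`; a place
`ν₂` of `F₂/K₂` over `μ` is over `w` (`Api.lies_trans`), so it is in `𝒬`, rational, and fixed by `H`, i.e. by all `σ ∈ (F₂ ≃ₐ[F'] F₂)` (such a `σ`, as an element of `G`, fixes `F'`, so it is in `H` by the Galois correspondence, `IntermediateField.fixingSubgroup_fixedField`; use the first claim of `StFxd`: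
`F'` is the fixed field of `H`).  An element `c ∈ K₂` fixed by all these `σ` is in `F'` (`h ∈ H` fixes `F'`), so in `K'`.  `StRdk`. -/
def StDsc : Prop := ∀ (K E K₂ F₂ : Type u) [Field K] [Field E] [Field K₂] [Field F₂] [Algebra K E] [Algebra K K₂]
  [Algebra K F₂] [Algebra E F₂] [Algebra K₂ F₂] [IsScalarTower K E F₂] [IsScalarTower K K₂ F₂] [CharZero K]
  [FiniteDimensional K K₂] [IsGalois K K₂] [FiniteDimensional E F₂] [IsGalois E F₂],
  (∀ f : E, IsAlgebraic K f → ∃ c : K, algebraMap K E c = f) → ∀ (𝒮 : Set (AddValuation E (WithTop ℤ))) (y : Fin 1 → F₂),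
  Spt (K' := K₂) 𝒮 y → ∀ N : ℕ, 0 < (Abv K₂ 𝒮 : Set (AddValuation F₂ (WithTop ℤ))).ncard →
  (Abv K₂ 𝒮 : Set (AddValuation F₂ (WithTop ℤ))).ncard ≤ N →
  ∃ (K' F' : Type u) (_ : Field K') (_ : Field F') (_ : Algebra K K') (_ : Algebra K F') (_ : Algebra E F')
    (_ : Algebra K' F') (_ : IsScalarTower K E F') (_ : IsScalarTower K K' F') (_ : FiniteDimensional K K')
    (_ : IsGalois K K') (_ : FiniteDimensional E F') (_ : IsGalois E F') (y' : Fin 1 → F'), Spt (K' := K') 𝒮 y' ∧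
    Module.finrank K K' ≤ N.factorial ∧ Module.finrank E F' ≤ N.factorial

/-- **Cnb** (MEDIUM, helper9; conics are covers of bounded degree). -/
def StCnb : Prop := ∀ I : Set ℝ, I ⊆ Set.Ioc 0 1 → DCC I → ∃ δ : ℕ, 1 ≤ δ ∧
  ∀ (κ : Prop) (k K E : Type u) [Field k] [CharZero k] [Field K] [Field E] [Algebra k K] [Algebra k E] [Algebra K E]
    [IsScalarTower k K E] (e : ℕ) (r : Fin e → K) (c : Fin (e + 1) → E) (Z : Set (Subalgebra k K))
    (Y : Set (Subalgebra k E)) (𝔻 : AddValuation E (WithTop ℤ) → ℝ) (L : AddValuation K (WithTop ℤ) → ℝ) (Φ : Eˣ →₀ ℝ),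
    BFib κ r c Z 𝔻 L Φ → Cnc Z Y → (∀ w : AddValuation E (WithTop ℤ), Plc K w → 𝔻 w = 0 ∨ 𝔻 w ∈ I) →
    ∃ (K' F' : Type u) (_ : Field K') (_ : Field F') (_ : Algebra k K') (_ : Algebra k F') (_ : Algebra K K')
      (_ : Algebra K F') (_ : Algebra E F') (_ : Algebra K' F') (_ : IsScalarTower k K K') (_ : IsScalarTower k E F')
      (_ : IsScalarTower k K' F') (_ : IsScalarTower K E F') (_ : IsScalarTower K K' F') (_ : FiniteDimensional K K')
      (_ : IsGalois K K') (_ : FiniteDimensional E F') (_ : IsGalois E F') (y : Fin 1 → F') (N : ℕ)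
      (a : Fin N → Fin 2 → K') (d : Fin N → ℝ), Cvd (K := K) k δ I y 𝔻 a d

end Pool.Agent.Work.MP_a2680c_ag.HA
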