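import Pool.Agent.Work.MP_a2680c_ag.HA.StmtsX
import Pool.Agent.Work.MP_a2680c_ag.HA.DefsY

/-!
# MP_a2680c_ag, block HA, part Y: quotients, curves of genus one

An item `NAME` is a theorem `pr_NAME : StNAME.{u}` (hypotheses: the statements named in the docstring after USES, in that order) in the
file `HA/I_NAME.lean`, namespace `Pool.Agent.Work.MP_a2680c_ag.HA`, auxiliary lemmas in the namespace
`Pool.Agent.Work.MP_a2680c_ag.HA.XNAME`.  Import this file (and the older `I_...` files whose lemmas you want); nobody waits for another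
item.
-/

set_option autoImplicit false

noncomputable section

namespace Pool.Agent.Work.MP_a2680c_ag.HA

open MP7b66e6 MP7b66e6.Q
open scoped BigOperators

universe u

/-- **Etb** (EASY; no hypotheses).  `F` is algebraic over a purely transcendental extension of finite degree (essentially of finite type): a transcendence basis exists
(`exists_isTranscendenceBasis'`) and is finite (`Algebra.trdeg` is finite; see the proof of `StTb` or `StGrm` for the finiteness, or: `F` is algebraic over the field generated by a finite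
set, which contains a transcendence basis), index it by `Fin d`. -/
def StEtb : Prop := ∀ (k F : Type u) [Field k] [Field F] [Algebra k F] [Algebra.EssFiniteType k F],
  ∃ (d : ℕ) (c : Fin d → F), IsTranscendenceBasis k c

/-- **Gcl** (EASY-MEDIUM; Galois closure; no hypotheses).  `Ω = AlgebraicClosure F`, `F̃` = the normal closure of `F` over `F₀` in `Ω` (`normalClosure F₀ F Ω` or
`IntermediateField.normalClosure`), an intermediate field of `Ω/F` resp. `Ω/F₀`, finite; characteristic zero. -/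
def StGcl : Prop := ∀ (F₀ F : Type u) [Field F₀] [CharZero F₀] [Field F] [Algebra F₀ F] [FiniteDimensional F₀ F],
  ∃ (F₁ : Type u) (_ : Field F₁) (_ : Algebra F₀ F₁) (_ : Algebra F F₁) (_ : IsScalarTower F₀ F F₁)
    (_ : FiniteDimensional F₀ F₁) (_ : FiniteDimensional F F₁), IsGalois F₀ F₁ ∧ IsGalois F F₁

/-- **Qav** (MEDIUM; an averaged function; USES `StGcl`, `StNmx`, `StEXT.{u,u,u}`).  `F₁` from `StGcl`; `Ξ := Φ` pushed to `F₁`, `Ξ₀` from `StNmx` for `F₁/F₀`.  `ν₀` divisorial in `𝒯`; `ν₁` on `F₁` over `ν₀`, index `η₁` (`StEXT`; algebra structure of `F₁` over `k`: composite with `F → F₁`).  For `g ∈ Gal(F₁/F₀)`: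
`cg g ν₁` is over `ν₀` with index `η₁` (`Api.lies_cg`); its restriction to `F` is `θ ν` with `ν` normalized (it is not trivial; `MgNOR.{u}` may be taken as the last hypothesis), and `Lies ν₀ ν η`, `θ η = η₁` (`Api.lies_mid` or directly: `ν` is over `ν₀` because its multiple `θ ν` is).
So `ev (cg g ν₁) Ξ = θ ev ν Φ = θ η h ν₀ = η₁ h ν₀`; sum over `g` and divide by `|G| η₁`. -/
def StQav : Prop := ∀ (k F₀ F : Type u) [Field k] [CharZero k] [Field F₀] [Field F] [Algebra k F₀] [Algebra k F]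
  [Algebra F₀ F] [IsScalarTower k F₀ F] [FiniteDimensional F₀ F] (Φ : Fˣ →₀ ℝ) (𝒯 : Set (AddValuation F₀ (WithTop ℤ)))
  (h : AddValuation F₀ (WithTop ℤ) → ℝ), (∀ ν₀ ∈ 𝒯, Divisorial k (ν₀ : AddValuation F₀ (WithTop ℤ))) →
  (∀ ν₀ ∈ 𝒯, ∀ (ν : AddValuation F (WithTop ℤ)) (η : ℕ), (∃ π : F, ν π = 1) → Lies ν₀ ν η → ev ν Φ = η * h ν₀) →
  ∃ Φ₀ : F₀ˣ →₀ ℝ, ∀ ν₀ ∈ 𝒯, ev ν₀ Φ₀ = h ν₀

/-- **Qcn** (EASY-MEDIUM; canonical divisors of finite extensions, two coordinate systems; USES `StTbs`, `StTb`, `StCan`, `StRmf`, `StJcb`, `StGcl`).  `up F c₀` is a transcendence basis of `F/k` (`StTbs`; so `d₀ = d`, `subst`); `J` from `StJcb` on `F` for `x := c`, `y := up F c₀`.  For `ν` divisorial over `ν₀`, index `η`: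
`LogDisc k ν₀ c₀ A` (`StCan`, `StTb`), `LogDisc k ν (up F c₀) (η A)` (`StRmf`), `LogDisc k ν c (η A + val ν J)` (`StJcb`), and `Api.can_eq`.  `EssFiniteType k F` from `k F₀` (`StTbs` (2)). -/
def StQcn : Prop := ∀ (k F₀ F : Type u) [Field k] [CharZero k] [Field F₀] [Field F] [Algebra k F₀] [Algebra k F]
  [Algebra F₀ F] [IsScalarTower k F₀ F] [FiniteDimensional F₀ F] [Algebra.EssFiniteType k F₀] (d₀ d : ℕ) (c₀ : Fin d₀ → F₀)
  (c : Fin d → F), IsTranscendenceBasis k c₀ → IsTranscendenceBasis k c →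
  ∃ J : Fˣ, ∀ (ν₀ : AddValuation F₀ (WithTop ℤ)) (ν : AddValuation F (WithTop ℤ)) (η : ℕ), Divisorial k ν₀ →
    Divisorial k ν → Lies ν₀ ν η → can k c ν = η * (1 + can k c₀ ν₀) - 1 + val ν (J : F)

/-- **Qdv** (EASY-MEDIUM; a normalized extension of a divisorial valuation is divisorial; USES `StGcl`, `StCmp`, `StRES.{u,u,u}`).  `F₁` from `StGcl` (`Algebra k F₁` = the composite of `k → F → F₁`).  `StCmp` with `K = F := F₀` (identity map, `conn` trivial), `K' := F`, `F' := F₁` (Galois over `F₀`), `v = W := ν₀` (`m = 1`), `v' := ν`, `ε := η`: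
`W'` divisorial on `F₁` with `Lies ν W' m'`.  `StRES` for `F₁/F`: `ν''` divisorial on `F`, `Lies ν'' W' e'`.  So `m' val ν f = e' val ν'' f` for `f ∈ F^*`; both take the value `1`, so `m' = e'` and `ν = ν''`. -/
def StQdv : Prop := ∀ (k F₀ F : Type u) [Field k] [CharZero k] [Field F₀] [Field F] [Algebra k F₀] [Algebra k F]
  [Algebra F₀ F] [IsScalarTower k F₀ F] [FiniteDimensional F₀ F] (ν₀ : AddValuation F₀ (WithTop ℤ))
  (ν : AddValuation F (WithTop ℤ)) (η : ℕ), Divisorial k ν₀ → Lies ν₀ ν η → (∃ π : F, ν π = 1) → Divisorial k ν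

/-- **Qbf** (MEDIUM; a finite quotient of a b-fibration; USES `StTbs`, `StEXT.{u,u,u}`, `StQcn`, `StQav`, `StQdv`).  `J` from `StQcn`; `Φ' = Φ - [J]`.  For `ν` divisorial on `F` over the divisorial `ν₀` (index `η`), `Ov Z ν₀` (hence `Ov Z ν`): `BFib.triv` and the crepancy give
`ev ν Φ' = can k c ν - val ν J + 𝔻 ν - Lv Z L (res K ν) = η (1 + can k c₀ ν₀) - η (1 - 𝔻₀ ν₀) - η Lv Z L (res K ν₀) = η h ν₀` with `h ν₀ = can k c₀ ν₀ + 𝔻₀ ν₀ - Lv Z L (res K ν₀)` (`Lv Z L (res K ν) = η Lv Z L (res K ν₀)`: take `hWdl : StWdl.{u}` as the last hypothesis; `res K ν` is `η` times `res K ν₀`, both `≥ 0` on `P`).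
`StQav` (with `StQdv` for the divisoriality of `ν`), `𝒯` = the divisorial `ν₀` with `Ov Z ν₀`: `Φ₀` with `ev ν₀ Φ₀ = h ν₀`: this is `triv`.  `pos`: extend `ν₀` to a divisorial `ν` (`StEXT`): `1 - 𝔻 ν = η (1 - 𝔻₀ ν₀)`. -/
def StQbf : Prop := ∀ (κ : Prop) (k K F₀ F : Type u) [Field k] [CharZero k] [Field K] [Field F₀] [Field F] [Algebra k K]
  [Algebra k F₀] [Algebra k F] [Algebra K F₀] [Algebra K F] [Algebra F₀ F] [IsScalarTower k K F₀] [IsScalarTower k K F]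
  [IsScalarTower k F₀ F] [IsScalarTower K F₀ F] [FiniteDimensional F₀ F] [Algebra.EssFiniteType k F₀] (e d₀ d : ℕ)
  (r : Fin e → K) (c₀ : Fin d₀ → F₀) (c : Fin d → F) (Z : Set (Subalgebra k K)) (𝔻₀ : AddValuation F₀ (WithTop ℤ) → ℝ)
  (𝔻 : AddValuation F (WithTop ℤ) → ℝ) (L : AddValuation K (WithTop ℤ) → ℝ) (Φ : Fˣ →₀ ℝ), BFib κ r c Z 𝔻 L Φ →
  IsTranscendenceBasis k c₀ →
  (∀ (ν : AddValuation F₀ (WithTop ℤ)) (ν' : AddValuation F (WithTop ℤ)) (ε : ℕ), Divisorial k ν → Ov Z ν →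
    (∃ π : F, ν' π = 1) → Lies ν ν' ε → 1 - 𝔻 ν' = ε * (1 - 𝔻₀ ν)) → ∃ Φ₀ : F₀ˣ →₀ ℝ, BFib κ r c₀ Z 𝔻₀ L Φ₀

/-- **Qrs** (EASY; the result for a quotient; USES `StRsv`).  `ν` divisorial on `F` over `v` (index `m`); `StRsv` for `F₀ ⊆ F`: `ν₀` divisorial, `Lies ν₀ ν η`; `Api.lies_mid`: `Lies v ν₀ m₀`, `η m₀ = m`; `Ov Z ν₀`.  So `(1 - 𝔻 ν) - m T = η ((1 - 𝔻₀ ν₀) - m₀ T)`, a multiple of an element of `closure G`. -/
def StQrs : Prop := ∀ (κ : Prop) (k K F₀ F : Type u) [Field k] [CharZero k] [Field K] [Field F₀] [Field F] [Algebra k K]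
  [Algebra k F₀] [Algebra k F] [Algebra K F₀] [Algebra K F] [Algebra F₀ F] [IsScalarTower k K F₀] [IsScalarTower k K F]
  [IsScalarTower k F₀ F] [IsScalarTower K F₀ F] [Algebra.EssFiniteType k F₀] [Algebra.EssFiniteType k F]
  (G : Set ℝ) (e d₀ d : ℕ) (r : Fin e → K) (c₀ : Fin d₀ → F₀) (c : Fin d → F) (Z : Set (Subalgebra k K))
  (𝔻₀ : AddValuation F₀ (WithTop ℤ) → ℝ) (𝔻 : AddValuation F (WithTop ℤ) → ℝ) (L : AddValuation K (WithTop ℤ) → ℝ)
  (Ξ : Kˣ →₀ ℝ), IsTranscendenceBasis k c₀ → IsTranscendenceBasis k c →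
  (∀ (ν : AddValuation F₀ (WithTop ℤ)) (ν' : AddValuation F (WithTop ℤ)) (ε : ℕ), Divisorial k ν → Ov Z ν →
    (∃ π : F, ν' π = 1) → Lies ν ν' ε → 1 - 𝔻 ν' = ε * (1 - 𝔻₀ ν)) → Rsl κ G r Z 𝔻₀ L Ξ → Rsl κ G r Z 𝔻 L Ξ

/-- **Nop** (MEDIUM; a function without poles is constant; USES `StOrd`, `StEXT.{u,u,u}`).  Suppose `f` is transcendental over `K`.  `{f}` is a transcendence basis of `E/K` (`x` has one element), `E₁ = IntermediateField.adjoin K {f}`, `E/E₁` algebraic and essentially of finite type, hence finite (see `HA/I_Tb.lean`).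
`ν` on `E₁ = K(f)` with `OrdI K y ν`, `y = f` (`StOrd`), `ν f = -1`.  `Divisorial K ν`: `C = Algebra.adjoin K {1/f}`; every `g` with `ν g ≥ 0` is `a(f)/b(f)`, `deg a ≤ deg b =: m`, so `g` times `s = b(f)/f^m ∈ C` (value `0`) is `a(f)/f^m ∈ C`.  `StEXT` with base field `K`: `w` on `E`, `Divisorial K w`, `Lies ν w m`: `w f < 0` and
`Plc K w` (`w ≥ 0` on `K ⊆ C'`).  Contradiction. -/
def StNop : Prop := ∀ (K E : Type u) [Field K] [CharZero K] [Field E] [Algebra K E] [Algebra.EssFiniteType K E]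
  (x : Fin 1 → E), IsTranscendenceBasis K x → ∀ f : E, (∀ w : AddValuation E (WithTop ℤ), Plc K w → 0 ≤ w f) →
  IsAlgebraic K f

/-- **Nnp** (MEDIUM; effective `ℝ`-principal divisors on a complete curve are `0`; USES `StRat`, `StNop`).  `W` = all `|Θ(s)|`, `s ∈ supp Θ`, and all positive values `ev w Θ`, `w` a place (finitely many places have `ev w Θ ≠ 0` by `hfin`).  `StRat`: `a_i, Φ_i`.  Fix `i`; `ρ_s = Φ_i (Θ(s))`, `q > 0` a common denominator, `f = ∏ s^(q ρ_s)`: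
`val w f = q Σ ρ_s val w s = q Φ_i (ev w Θ) ≥ 0` for all places (`ev w Θ` is `0` or in `W`), and the same for `f`...: `f` is algebraic over `K` (`StNop`), so in `K` (`conn`), so `val w f = 0` and `Φ_i (ev w Θ) = 0` for all places; since `Φ_i > 0` on `W`, no value is positive (there is an index `i` because `Σ a_i = 1`). -/
def StNnp : Prop := ∀ (K E : Type u) [Field K] [CharZero K] [Field E] [Algebra K E] [Algebra.EssFiniteType K E]
  (x : Fin 1 → E), IsTranscendenceBasis K x → (∀ f : E, IsAlgebraic K f → ∃ c : K, algebraMap K E c = f) →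
  (∀ s : E, s ≠ 0 → {w : AddValuation E (WithTop ℤ) | Plc K w ∧ val w s ≠ 0}.Finite) → ∀ Θ : Eˣ →₀ ℝ,
  (∀ w : AddValuation E (WithTop ℤ), Plc K w → 0 ≤ ev w Θ) → ∀ w : AddValuation E (WithTop ℤ), Plc K w → ev w Θ = 0

/-- **Fcc** (MEDIUM; functions with trivial divisor; USES `StNop`).  Let `V` be the `ℚ`-span of the coefficients `Θ(s)` in `ℝ`, with a basis `e_1, ..., e_m` (real numbers linearly independent over `ℚ`), `Θ(s) = Σ_j q_sj e_j`.  For a place `w`: `0 = ev w Θ = Σ_j e_j (Σ_s q_sj val w s)`, so `Σ_s q_sj val w s = 0` for all `j`.  With a common denominator `q > 0`: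
`f_j = ∏_s s^(q q_sj)` has `val w f_j = 0` for all places, so `f_j` comes from `K^*` (`StNop`, `conn`), `f_j = g_j`.  For every valuation `W`: `ev W Θ = Σ_j (e_j/q) val W f_j`; `Ξ = Σ_j (e_j/q) [g_j]`. -/
def StFcc : Prop := ∀ (K E : Type u) [Field K] [CharZero K] [Field E] [Algebra K E] [Algebra.EssFiniteType K E]
  (x : Fin 1 → E), IsTranscendenceBasis K x → (∀ f : E, IsAlgebraic K f → ∃ c : K, algebraMap K E c = f) →
  ∀ Θ : Eˣ →₀ ℝ, (∀ w : AddValuation E (WithTop ℤ), Plc K w → ev w Θ = 0) →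
  ∃ Ξ : Kˣ →₀ ℝ, ∀ W : AddValuation E (WithTop ℤ), ev W Θ = ev W (push K E Ξ)

/-- **Gcn** (MEDIUM-HARD; the canonical divisor of a curve of genus one; USES `StTb`, `StCan`, `StSmo`, `StLFT.{u,u,u}`).  `w π = 1`.  (1) `w (θ π) = 0`: otherwise `w (θ π) ≥ 1`, and for all `g` with `w g ≥ 0` one gets `w (θ g) ≥ 1` (contradiction to the hypothesis): the residue of `g` is algebraic over `K` (`trdeg K E = 1`: if `P(g)` has value `0` for all `0 ≠ P ∈ K[T]` then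
`π`, algebraic over `K(g)`, has value `0`); let `P ∈ K[T]` be monic of least degree with `w (P(g)) > 0`: `w (P'(g)) = 0`; `P(g) = π h`, `w h ≥ 0`, and `P'(g) θ g = θ (P(g)) = h θ π + π θ h` has value `≥ 1`.  (2) `c' = cor r π` is a transcendence basis of `E/k` (`π` is transcendental over `K`: `w π = 1`), `pe` its dual
derivations (`StTb`).  The last one is `(θ π)⁻¹ θ` (it is `0` on `K`: on `r`, hence on `k(r)` and on `K`; a `K`-derivation of `E` is determined by its value at `π`), so it maps `{w ≥ 0}` to itself.  The others are logarithmic at `w`: on `E₁ = K(π)` with the `π`-adic valuation `v₁` (the restriction of `w`, values `val w`, index `1`) `pe_i` acts on the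
coefficients of polynomials in `π`, which all have value `0`: it maps `E₁` to itself and is logarithmic there (`f = π^m g(π)/h(π)`, `g(0) h(0) ≠ 0`); `E/E₁` is finite, and `StLFT` (base field `k`, fields `E₁`, `E`, `n = 0`) gives `LogGe w pe_i 0`, so it maps `{w ≥ 0}` to itself.  `StSmo`: `LogDisc k w c' 1`.
(3) For every tuple `δ` of derivations `det (δ_i (cor r x)_j) = det (δ_i c'_j) det (pe_m (cor r x)_j)`, and the last matrix is block triangular with determinant `pe_last (x 0) = θ (x 0) / θ π`.  So `LogDisc k w (cor r x) (1 + val w (θ (x 0)))` (`θ (x 0) ≠ 0`: both `cor r x` and `c'` are transcendence bases, the determinant is not `0`). -/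
def StGcn : Prop := ∀ (k K E : Type u) [Field k] [CharZero k] [Field K] [Field E] [Algebra k K] [Algebra k E] [Algebra K E]
  [IsScalarTower k K E] [Algebra.EssFiniteType k K] [Algebra.EssFiniteType k E] (e : ℕ) (r : Fin e → K) (x : Fin 1 → E)
  (θ : Derivation K E E) (w : AddValuation E (WithTop ℤ)), IsTranscendenceBasis k r → IsTranscendenceBasis k (cor r x) →
  Plc K w → Divisorial k w → (∀ f : E, 0 ≤ w f → 0 ≤ w (θ f)) → (∃ f : E, 0 ≤ w f ∧ w (θ f) = 0) →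
  θ (x 0) ≠ 0 ∧ can k (cor r x) w = val w (θ (x 0))

/-- **Elz** (EASY-MEDIUM; the boundary on a curve of genus one is `0`; USES `StGrm`, `StPdd`, `StFsp`, `StGpt`, `StWdl`, `StJcb`, `StCan`, `StTb`, `StGcp`, `StNnp`, `StGcn`).  `x : Fin 1 → E` with `cor r x` a transcendence basis of `E/k` and `IsTranscendenceBasis K x` are given.  Places are prime divisors of `Y` (`StGcp`), so divisorial (`StPdd`), and `hfin` of `StNnp` is
`StFsp` for `Y`.  `J` from `StJcb` on `E` for `c` and `cor r x`: `can k c w = can k (cor r x) w + val w J`.  For a place `w`: `Lv Z L (res K w) = 0` (`P = ⊤`, as in `StKeb`), so `BFib.triv` and `StGcn`: `𝔻 w = ev w (Φ - [J] - [θ (x 0)])`, which is `≥ 0` for all places.  `StNnp`. -/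
def StElz : Prop := ∀ (κ : Prop) (k K E : Type u) [Field k] [CharZero k] [Field K] [Field E] [Algebra k K] [Algebra k E]
  [Algebra K E] [IsScalarTower k K E] [Algebra.EssFiniteType K E] (e : ℕ) (r : Fin e → K) (x : Fin 1 → E)
  (c : Fin (e + 1) → E) (Z : Set (Subalgebra k K)) (Y : Set (Subalgebra k E)) (𝔻 : AddValuation E (WithTop ℤ) → ℝ)
  (L : AddValuation K (WithTop ℤ) → ℝ) (Φ : Eˣ →₀ ℝ), BFib κ r c Z 𝔻 L Φ → IsTranscendenceBasis k (cor r x) →
  IsTranscendenceBasis K x → Vty Y → Mor Y Z → Prp Y Z → GOne K E →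
  (∀ w : AddValuation E (WithTop ℤ), Plc K w → 0 ≤ 𝔻 w) → ∀ w : AddValuation E (WithTop ℤ), Plc K w → 𝔻 w = 0

/-- **Eqt** (MEDIUM-HARD; the quotient of a curve of genus one; USES `StGrm`, `StPdd`, `StGpt`, `StWdl`, `StEXT.{u,u,u}`, `StQcn`, `StQav`, `StQdv`, `StGcp`, `StFcc`).  `J` from `StQcn` (fields `E₀ ⊆ E`), `Φ' = Φ - [J]`; `Ov`, `Lv` as in `StQbf`.  (1) For a place `w₀` of `E₀/K` (divisorial by `StGcp` for `Y₀`) all places `w` of `E` over `w₀` have the same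
index `e(w₀)` and `𝔻 w = 0`; so `ev w Φ' = can k c w - val w J = e(w₀) (1 + can k c₀ w₀) - 1 = e(w₀) h(w₀)`, `h(w₀) = 1 + can k c₀ w₀ - 1/e(w₀)` (a normalized `w` over `w₀` is a place; `e(w₀)` = the index of some `w`, `StEXT`).  `StQav` with `𝒯` = the places of `E₀/K`: `Φ₁` on `E₀` with `ev w₀ Φ₁ = h(w₀)`.  (2) `Θ = Φ' - push E₀ E Φ₁` has `ev w Θ = 0` for all
places `w` of `E/K` (the restriction of `w` to `E₀` is a multiple of a place of `E₀/K`: `MgNOR.{u}`, last hypothesis), so `ev W Θ = ev W (push K E Ξ)` for all `W` (`StFcc`); `Φ₀ = Φ₁ + push K E₀ Ξ`: `ev W Φ' = ev W (push E₀ E Φ₀)` for all `W` (`Api.ev_push_push`).  (3) `𝔻₀ ν = Lv Z L (res K ν) + ev ν Φ₀ - can k c₀ ν`: `triv` by definition.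
Crepancy: `ν` divisorial on `E₀`, `Ov Z ν`, `ν'` over `ν` (index `ε`; if `ν'` does not take the value `1` replace it... it is enough and intended to treat `ν'` with `ν' π = 1`, see the statement), divisorial by `StQdv`: `can k c ν' + 𝔻 ν' = Lv Z L (res ν') + ev ν' Φ`, i.e. `ε (1 + can c₀ ν) - 1 + 𝔻 ν' = ε Lv Z L (res ν) + ε ev ν Φ₀ = ε (can c₀ ν + 𝔻₀ ν)`, so `1 - 𝔻 ν' = ε (1 - 𝔻₀ ν)`.
`pos` by crepancy and `StEXT`.  (4) For a place `w₀`: `1 - 0 = e(w₀) (1 - 𝔻₀ w₀)`. -/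
def StEqt : Prop := ∀ (κ : Prop) (k K E₀ E : Type u) [Field k] [CharZero k] [Field K] [Field E₀] [Field E] [Algebra k K]
  [Algebra k E₀] [Algebra k E] [Algebra K E₀] [Algebra K E] [Algebra E₀ E] [IsScalarTower k K E₀] [IsScalarTower k K E]
  [IsScalarTower k E₀ E] [IsScalarTower K E₀ E] [FiniteDimensional E₀ E] [Algebra.EssFiniteType k E₀]
  [Algebra.EssFiniteType K E] (e : ℕ) (r : Fin e → K) (x : Fin 1 → E) (c₀ : Fin (e + 1) → E₀) (c : Fin (e + 1) → E)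
  (Z : Set (Subalgebra k K)) (Y₀ : Set (Subalgebra k E₀)) (𝔻 : AddValuation E (WithTop ℤ) → ℝ)
  (L : AddValuation K (WithTop ℤ) → ℝ) (Φ : Eˣ →₀ ℝ), BFib κ r c Z 𝔻 L Φ → IsTranscendenceBasis k c₀ →
  IsTranscendenceBasis K x → (∀ f : E, IsAlgebraic K f → ∃ c : K, algebraMap K E c = f) → Vty Y₀ → Mor Y₀ Z → Prp Y₀ Z →
  (∀ (w₀ : AddValuation E₀ (WithTop ℤ)) (w w' : AddValuation E (WithTop ℤ)) (m m' : ℕ), Plc K w → Plc K w' →
    Lies w₀ w m → Lies w₀ w' m' → m = m') → (∀ w : AddValuation E (WithTop ℤ), Plc K w → 𝔻 w = 0) →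
  ∃ (𝔻₀ : AddValuation E₀ (WithTop ℤ) → ℝ) (Φ₀ : E₀ˣ →₀ ℝ), BFib κ r c₀ Z 𝔻₀ L Φ₀ ∧
    (∀ (ν : AddValuation E₀ (WithTop ℤ)) (ν' : AddValuation E (WithTop ℤ)) (ε : ℕ), Divisorial k ν → Ov Z ν →
      (∃ π : E, ν' π = 1) → Lies ν ν' ε → 1 - 𝔻 ν' = ε * (1 - 𝔻₀ ν)) ∧
    ∀ w₀ : AddValuation E₀ (WithTop ℤ), Plc K w₀ → 𝔻₀ w₀ = 0 ∨ ∃ μ : ℕ, 2 ≤ μ ∧ 𝔻₀ w₀ = 1 - 1 / μ

/-- the results for a fibration by curves -/
def StCrv : Prop := ∀ I : Set ℝ, I ⊆ Set.Ioc 0 1 → DCC I → ∃ G : Set ℝ, G.Finite ∧ (∀ g ∈ G, 0 < g) ∧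
  ∀ (κ : Prop) (k K E : Type u) [Field k] [CharZero k] [IsAlgClosed k] [Field K] [Field E] [Algebra k K] [Algebra k E]
    [Algebra K E] [IsScalarTower k K E] (e d : ℕ) (r : Fin e → K) (c : Fin d → E) (Z : Set (Subalgebra k K))
    (Y : Set (Subalgebra k E)) (𝔻 : AddValuation E (WithTop ℤ) → ℝ) (L : AddValuation K (WithTop ℤ) → ℝ) (Φ : Eˣ →₀ ℝ),
    Cardinal.aleph0 ≤ Algebra.trdeg ℚ k → BFib κ r c Z 𝔻 L Φ → Cur Z Y →
    (∀ w : AddValuation E (WithTop ℤ), Plc K w → 𝔻 w = 0 ∨ 𝔻 w ∈ I) → ∃ Ξ : Kˣ →₀ ℝ, Rsl κ G r Z 𝔻 L Ξ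

/-- **Iny** (MEDIUM, helper9; the class of height `s`). -/
def StIny : Prop := ∀ n δ : ℕ, 1 ≤ n → 1 ≤ δ → ∀ (s : ℕ) (I : Set ℝ), I ⊆ Set.Ioc 0 1 → DCC I →
  ∃ G : Set ℝ, G.Finite ∧ (∀ g ∈ G, 0 < g) ∧
    ∀ (κ : Prop) (k K F : Type u) [Field k] [CharZero k] [IsAlgClosed k] [Field K] [Field F]
      [Algebra k K] [Algebra k F] [Algebra K F] [IsScalarTower k K F] (e d : ℕ) (r : Fin e → K) (c : Fin d → F)
      (Z : Set (Subalgebra k K)) (𝔻 : AddValuation F (WithTop ℤ) → ℝ) (L : AddValuation K (WithTop ℤ) → ℝ) (Φ : Fˣ →₀ ℝ),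
      Cardinal.aleph0 ≤ Algebra.trdeg ℚ k → BFib κ r c Z 𝔻 L Φ → Twr n δ I s K F Z 𝔻 →
      ∃ Ξ : Kˣ →₀ ℝ, Rsl κ G r Z 𝔻 L Ξ

end Pool.Agent.Work.MP_a2680c_ag.HA
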