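import Pool.Agent.Work.MP_a2680c_ag.HA.StmtsY

/-!
# MP_a2680c_ag, block HA, part Z: all curves

Riemann-Roch for function fields of one variable (as far as it is needed), conics and curves of genus one.

An item `NAME` is a theorem `pr_NAME : StNAME.{u}` (hypotheses: the statements named in the docstring after USES, in that order) in the
file `HA/I_NAME.lean`, namespace `Pool.Agent.Work.MP_a2680c_ag.HA`, auxiliary lemmas in the namespace
`Pool.Agent.Work.MP_a2680c_ag.HA.XNAME`.  Import this file (and the older `I_...` files whose lemmas you want); nobody waits for another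
item.  You may add hypotheses which are statements `St...` of this block (all files) at the end; tell helper9.
`w f = m` for an integer `m` means `w f = (m : WithTop ℤ)`; `val w f` is this integer for `f ≠ 0` (`Api`).
-/

set_option autoImplicit false

noncomputable section

namespace Pool.Agent.Work.MP_a2680c_ag.HA

open MP7b66e6 MP7b66e6.Q
open scoped BigOperators

universe u

/-! ## Definitions -/

/-- `E` is a function field of one variable over `K` -/
def FFn (K E : Type u) [Field K] [Field E] [Algebra K E] : Prop :=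
  Algebra.EssFiniteType K E ∧ ∃ x : Fin 1 → E, IsTranscendenceBasis K x

/-- `K` is algebraically closed in `E` -/
def Ccl (K E : Type u) [Field K] [Field E] [Algebra K E] : Prop :=
  ∀ f : E, IsAlgebraic K f → ∃ c : K, algebraMap K E c = f

/-- the vector field `θ` has order `c` at the place `w` -/
def Odr {K E : Type u} [Field K] [Field E] [Algebra K E] (w : AddValuation E (WithTop ℤ)) (θ : Derivation K E E) (c : ℤ) :
    Prop :=
  (∀ f : E, 0 ≤ w f → (c : WithTop ℤ) ≤ w (θ f)) ∧ ∃ f : E, 0 ≤ w f ∧ w (θ f) = (c : WithTop ℤ)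

/-- the normalized valuation `w` of `E` lies over `v` -/
def Ovr {E₁ E : Type u} [Field E₁] [Field E] [Algebra E₁ E] (v : AddValuation E₁ (WithTop ℤ)) (w : AddValuation E (WithTop ℤ)) :
    Prop := (∃ π : E, w π = 1) ∧ ∃ e : ℕ, Lies v w e

/-- the only function with `c w + D w ≤ w g` at all places, `c` the order of `θ`, is `0` (i.e. `L(W - D) = 0`, `W` canonical) -/
def Nsp {K E : Type u} [Field K] [Field E] [Algebra K E] (θ : Derivation K E E) (D : AddValuation E (WithTop ℤ) → ℤ) : Prop :=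
  ∀ g : E, (∀ (w : AddValuation E (WithTop ℤ)) (c : ℤ), Plc K w → Odr w θ c → ((c + D w : ℤ) : WithTop ℤ) ≤ w g) → g = 0

/-! ## Places -/

/-- **Zdk** (MEDIUM; places are divisorial; USES `StOrd`, `StQdv`).  `w π = 1`; `π` is transcendental over `K` (an algebraic element has a polynomial relation with constant term `≠ 0`, so its value is not `> 0`).  `K₁ = IntermediateField.adjoin K {π}`, `v₁` on `K₁` with `OrdP y (X 0) v₁`, `y 0 = π` (`StOrd`); for `g ∈ K[T]`, `g = T^m h`, `h(0) ≠ 0`: `w (g(π)) = m`;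
so `Lies v₁ w 1`.  `E/K₁` is algebraic and essentially of finite type, so finite.  `Divisorial k v₁`: `A ⊆ K` a finitely generated `k`-subalgebra with fraction field `K` (`EssFiniteType`), `C = A[π]`; an element of value `≥ 0` is `a(π)/b(π)`, `b(0) ≠ 0`, and after multiplication with an element of `A` the coefficients are in `A`.  `StQdv`. -/
def StZdk : Prop := ∀ (k K E : Type u) [Field k] [CharZero k] [Field K] [Field E] [Algebra k K] [Algebra k E] [Algebra K E]
  [IsScalarTower k K E] [Algebra.EssFiniteType k K], FFn K E → ∀ w : AddValuation E (WithTop ℤ), Plc K w → Divisorial k w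

/-- **Zfo** (EASY-MEDIUM; finitely many extensions; USES `StAPX.{u}`).  Let `n = [E : E₁]` and `w_0, ..., w_n` pairwise different ones.  `StAPX`: `θ_i` with `1 ≤ w_i (θ_i - 1)`, `1 ≤ w_j θ_i` for `j ≠ i`.  A relation `Σ c_i θ_i = 0`, `c_i ∈ E₁` not all `0`, may be scaled (`v π = 1`) such that all
`v (c_i) ≥ 0` and `v (c_i) = 0` for some `i`; at `w_i` one term has value `0` and the others `≥ 1`, a contradiction.  So the `θ_i` are independent over `E₁`, impossible. -/
def StZfo : Prop := ∀ (E₁ E : Type u) [Field E₁] [Field E] [Algebra E₁ E] [FiniteDimensional E₁ E]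
  (v : AddValuation E₁ (WithTop ℤ)), (∃ π : E₁, v π = 1) → {w : AddValuation E (WithTop ℤ) | Ovr v w}.Finite

/-- **Zfn** (EASY-MEDIUM; finitely many zeros and poles; USES `StAPX.{u}`).  If `s` is algebraic over `K` all values are `0` (`s`, `s⁻¹` are integral over `K`).  Otherwise `E` is finite over `K(s)`, of degree `n` (algebraic, essentially of finite type).  Replace `s` by `s⁻¹`: it is enough that there are at most `n` places with
`w s > 0`.  `w_0, ..., w_n` different ones, `θ_i` as in `StZfo` (`StAPX`).  A relation over `K(s)` gives `Σ p_i(s) θ_i = 0` with `p_i ∈ K[T]` not all divisible by `T`; if `p_i(0) ≠ 0`, then `w_i (p_i(s)) = 0` and all other terms have `w_i`-value `≥ 1`, a contradiction. -/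
def StZfn : Prop := ∀ (K E : Type u) [Field K] [CharZero K] [Field E] [Algebra K E], FFn K E → ∀ s : E, s ≠ 0 →
  {w : AddValuation E (WithTop ℤ) | Plc K w ∧ val w s ≠ 0}.Finite

/-- **Zor** (MEDIUM; orders of derivatives; no hypotheses).  `w π = 1`.  (1) `w (θ π) = c`.  It is `≥ c`.  Suppose `w (θ π) > c`; claim: `w (θ g) > c` for all `g` with `w g ≥ 0`, a contradiction.  There is a polynomial `P ∈ K[T]`, not `0`, with `w (P(g)) > 0`: if `g` is algebraic over `K`, its minimal polynomial; otherwise `π` is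
algebraic over `K(g)`, and if all nonzero `P(g)` had value `0` then `π` would have value `0` (an equation of `π` over `K[g]` with constant term `≠ 0`).  Take `P` of least degree; then `w (P'(g)) = 0` (characteristic `0`: `P' ≠ 0` has smaller degree).  `P(g) = π h`, `w h ≥ 0`:
`P'(g) θ g = h θ π + π θ h` has value `> c`.  (2) `f = π^m h`, `w h = 0`: `θ f = m π^(m-1) h θ π + π^m θ h`, values `m - 1 + c` and `≥ m + c`. -/
def StZor : Prop := ∀ (K E : Type u) [Field K] [CharZero K] [Field E] [Algebra K E], FFn K E →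
  ∀ (w : AddValuation E (WithTop ℤ)) (θ : Derivation K E E) (c : ℤ), Plc K w → Odr w θ c → ∀ (f : E) (m : ℤ), m ≠ 0 →
  w f = (m : WithTop ℤ) → w (θ f) = ((c + m - 1 : ℤ) : WithTop ℤ)

/-- **Zod** (EASY-MEDIUM; the order exists; USES `StZdk`).  `StZdk` with `k = K`: `Divisorial K w`, `C` generated by `g_1, ..., g_s` over `K`; `M ≤ 0` with `M ≤ w (θ g_j)`; then `M ≤ w (θ a)` for `a ∈ C`, and for `w f ≥ 0`, `f s = a`, `w s = 0`: `s θ f = θ a - f θ s` has value `≥ M` (compare `StBDD` in `MP_7b66e6_ag/K`).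
`θ ≠ 0`: there is `f` with `w f ≥ 0` and `θ f ≠ 0` (`f` or `f⁻¹`).  Take the least value. -/
def StZod : Prop := ∀ (K E : Type u) [Field K] [CharZero K] [Field E] [Algebra K E], FFn K E → ∀ θ : Derivation K E E, θ ≠ 0 →
  ∀ w : AddValuation E (WithTop ℤ), Plc K w → ∃ c : ℤ, Odr w θ c

/-- **Zcn** (EASY-MEDIUM; canonical divisors; USES `StGcn`, `StZdk`).  `w π = 1`; `θ' = π^(-c) θ` satisfies the hypotheses of `StGcn`: `θ' (x 0) ≠ 0`, `can k (cor r x) w = val w (θ' (x 0)) = val w (θ (x 0)) - c`.  (`EssFiniteType k E` by transitivity.) -/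
def StZcn : Prop := ∀ (k K E : Type u) [Field k] [CharZero k] [Field K] [Field E] [Algebra k K] [Algebra k E] [Algebra K E]
  [IsScalarTower k K E] [Algebra.EssFiniteType k K], FFn K E → ∀ (e : ℕ) (r : Fin e → K) (x : Fin 1 → E)
  (θ : Derivation K E E) (w : AddValuation E (WithTop ℤ)) (c : ℤ), IsTranscendenceBasis k r →
  IsTranscendenceBasis k (cor r x) → Plc K w → Odr w θ c → θ (x 0) ≠ 0 ∧ can k (cor r x) w = val w (θ (x 0)) - c

/-! ## Traces and lattices -/

/-- **Ztp** (MEDIUM; traces of integral elements; USES `StGcl`, `StEXT.{u,u,u}`, `MgNOR.{u}`).  `N` from `StGcl` (Galois over `E₁` and over `E`), `𝔚` on `N` over `v` (`StEXT`; algebra structure of `N` over `K` through `E`).  For `σ ∈ Gal(N/E₁)`: `(cg σ 𝔚)` restricted to `E` is `m w`, `w` normalized (`MgNOR`), `Ovr v w`;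
so `𝔚 (σ g) ≥ 0`.  `[N : E] Tr_(E/E₁)(g) = Tr_(N/E₁)(g) = Σ_σ σ g` (`Algebra.trace_trace`, `Algebra.trace_algebraMap`, `trace_eq_sum_automorphisms`) has `𝔚`-value `≥ 0`, and integers `≠ 0` have value `0` (they are in `K`, and `0 ≤ v` on `K`). -/
def StZtp : Prop := ∀ (K E₁ E : Type u) [Field K] [CharZero K] [Field E₁] [Field E] [Algebra K E₁] [Algebra K E] [Algebra E₁ E]
  [IsScalarTower K E₁ E] [FiniteDimensional E₁ E] (v : AddValuation E₁ (WithTop ℤ)), Divisorial K v → ∀ g : E,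
  (∀ w : AddValuation E (WithTop ℤ), Ovr v w → 0 ≤ w g) → 0 ≤ v (Algebra.trace E₁ E g)

/-- **Ztr** (MEDIUM; a trace of value `0`; USES `StGcl`, `StEXT.{u,u,u}`, `MgNOR.{u}`, `StAPX.{u}`).  Notation of `StZtp`.  For `σ ∈ Gal(N/E₁)` let `w_σ` be the normalized valuation proportional to the restriction of `cg σ 𝔚` to `E`.  `𝔚 (σ u - ε_σ) > 0` with `ε_σ = 1` if `w_σ = w₁`, `ε_σ = 0` otherwise.  So
`[N : E] Tr(u) = Σ_σ σ u` is modulo `𝔚 > 0` the number `c` of the `σ` with `w_σ = w₁`.  `c ≥ 1`: let `𝔚'` be an extension of `w₁` to `N` (`StEXT`; `w₁` is divisorial by `StQdv`, last hypothesis, or use any extension); it is `cg σ 𝔚` for some `σ`: otherwise by `StAPX` (for `N`, `ι` = the set of the `cg σ 𝔚`) there is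
`z ∈ N` with `1 ≤ 𝔚' (z - 1)` and `1 ≤ (cg σ 𝔚)(z)` for all `σ`; the norm `∏ σ z ∈ E₁` has `v > 0`; but replacing `z` by one with moreover `1 ≤ (cg σ 𝔚')(z - 1)` for all `σ` (the sets of the conjugates of `𝔚'` and of `𝔚` are disjoint; or use `1 - z` and norms) the norm is `1` modulo `𝔚' > 0`, a contradiction.  So the sum has value `0`. -/
def StZtr : Prop := ∀ (K E₁ E : Type u) [Field K] [CharZero K] [Field E₁] [Field E] [Algebra K E₁] [Algebra K E] [Algebra E₁ E]
  [IsScalarTower K E₁ E] [FiniteDimensional E₁ E] (v : AddValuation E₁ (WithTop ℤ)), Divisorial K v →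
  ∀ w₁ : AddValuation E (WithTop ℤ), Ovr v w₁ → ∀ u : E, 0 < w₁ (u - 1) →
  (∀ w : AddValuation E (WithTop ℤ), Ovr v w → w ≠ w₁ → 0 < w u) → v (Algebra.trace E₁ E u) = 0

/-- **Ztd** (MEDIUM; the trace dual; USES `StZfo`, `StAPX.{u}`, `StZtr`).  Suppose `w₁ h < D w₁ - (e₁ - 1)`, i.e. `h ≠ 0` and `w₁ h ≤ D w₁ - e₁`, for `w₁ = w`, `e₁ = e`.  `v t = 1`.  The other `w` over `v` are finitely many (`StZfo`); `u ∈ E` with `1 ≤ w₁ (u - 1)`, `N ≤ w u` for them (`StAPX`), `N` large.  `g = u/(t h)`: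
`w₁ g = - e₁ - w₁ h ≥ - D w₁`, `w g ≥ N - e_w - w h ≥ - D w`.  So `v (Tr (h g)) ≥ 0`; but `h g = u/t` and `v (Tr u) = 0` (`StZtr`): `v (Tr (h g)) = -1`. -/
def StZtd : Prop := ∀ (K E₁ E : Type u) [Field K] [CharZero K] [Field E₁] [Field E] [Algebra K E₁] [Algebra K E] [Algebra E₁ E]
  [IsScalarTower K E₁ E] [FiniteDimensional E₁ E] (v : AddValuation E₁ (WithTop ℤ)), Divisorial K v →
  ∀ (D : AddValuation E (WithTop ℤ) → ℤ) (h : E), (∀ g : E,
    (∀ w : AddValuation E (WithTop ℤ), Ovr v w → ((-(D w) : ℤ) : WithTop ℤ) ≤ w g) → 0 ≤ v (Algebra.trace E₁ E (h * g))) →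
  ∀ (w : AddValuation E (WithTop ℤ)) (e : ℕ), (∃ π : E, w π = 1) → Lies v w e → ((D w - (e - 1) : ℤ) : WithTop ℤ) ≤ w h

/-- **Zlc** (MEDIUM; local lattices; USES `StZfo`, `StZtp`).  `A = {v ≥ 0}` is a discrete valuation ring (a principal ideal domain) with fraction field `E₁`; `M = {g : - D w ≤ w g for all w over v}` is an `A`-submodule of `E`.  `v t = 1`.  With `t^s g ∈ M` for large `s` (`StZfo`), `M` contains a basis `ω_1, ..., ω_n` of `E/E₁`.
`M` is contained in a finitely generated module: for large `s`, `t^s M ⊆ M_0 = {w ≥ 0}`, `t^s ω_j ∈ M_0`, and `g ∈ M_0` satisfies `v (Tr (g t^s ω_j)) ≥ 0` (`StZtp`; `M_0` is a ring), so `M_0` is in the dual lattice of `Σ A t^s ω_j` (the trace form is nondegenerate, characteristic `0`).  So `M` is finitely generated and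
torsion free, hence free, of rank `n` (`Module.free_of_finite_type_torsion_free'`, `Submodule` of a free module over a PID), and a basis of `M` is a basis `b` of `E/E₁`; `g ∈ M` if and only if its coordinates are in `A`. -/
def StZlc : Prop := ∀ (K E₁ E : Type u) [Field K] [CharZero K] [Field E₁] [Field E] [Algebra K E₁] [Algebra K E] [Algebra E₁ E]
  [IsScalarTower K E₁ E] [FiniteDimensional E₁ E] (v : AddValuation E₁ (WithTop ℤ)), Divisorial K v →
  ∀ D : AddValuation E (WithTop ℤ) → ℤ, ∃ b : Module.Basis (Fin (Module.finrank E₁ E)) E₁ E, ∀ g : E,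
    (∀ w : AddValuation E (WithTop ℤ), Ovr v w → ((-(D w) : ℤ) : WithTop ℤ) ≤ w g) ↔ ∀ i, 0 ≤ v (b.repr g i)

/-- **Zlz** (MEDIUM-HARD; global lattices; USES `StOrd`, `StCls`, `StZdk`, `StZfn`, `StZtp`).  `f = y 0`, `E₁ = K(f)`; `R = K[f]` (principal ideal domain); `M` = the set on the left, an `R`-submodule of `E`.  (0) Every finite place `w` (`w f ≥ 0`) lies over a place `v` of `E₁` with `OrdP y p v` (the restriction is `e v`, `StCls` (1)), and `w (p(f)) = e > 0`.
So for finitely many finite places and `N` there is `q ∈ R`, `q ≠ 0`, with `w q ≥ N` for them, and `w q ≥ 0` at all finite places.  (1) For `g ∈ E` there is `q` with `q g ∈ M` (finitely many poles, `StZfn`, finite support of `D`); so `M` contains a basis `ω_1, ..., ω_n` of `E/E₁`.  (2) With some `q ≠ 0`: `q M ⊆ M_0 = {w ≥ 0 at all finite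
places}` and `q ω_j ∈ M_0`.  For `g ∈ M_0` and `v` with `OrdP y p v` (divisorial over `K`, `StZdk` for `E₁/K`): `v (Tr (g q ω_j)) ≥ 0` (`StZtp`; a normalized `w` over `v` is a finite place), for all `p`, so `Tr (g q ω_j) ∈ R` (a reduced fraction whose denominator has an irreducible factor `p` has negative value, `StOrd`).  So `M_0` is in the dual lattice
of `Σ R q ω_j`.  (3) `M` is finitely generated, torsion free, of rank `n`, so free. -/
def StZlz : Prop := ∀ (K E₁ E : Type u) [Field K] [CharZero K] [Field E₁] [Field E] [Algebra K E₁] [Algebra K E] [Algebra E₁ E]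
  [IsScalarTower K E₁ E] [FiniteDimensional E₁ E] (y : Fin 1 → E₁), GenBy K y → FFn K E →
  ∀ D : AddValuation E (WithTop ℤ) → ℤ, {w : AddValuation E (WithTop ℤ) | Plc K w ∧ D w ≠ 0}.Finite →
  ∃ b : Module.Basis (Fin (Module.finrank E₁ E)) E₁ E, ∀ g : E,
    (∀ w : AddValuation E (WithTop ℤ), Plc K w → 0 ≤ w (algebraMap E₁ E (y 0)) → ((-(D w) : ℤ) : WithTop ℤ) ≤ w g) ↔
      ∀ i, ∃ p : Polynomial K, b.repr g i = Polynomial.aeval (y 0) p

/-- **Zbk** (MEDIUM; pairs of lattices (vector bundles on the projective line) split; pure algebra, no hypotheses).  `M_0` = the elements with coordinates in `K[f]` with respect to `b`, `M_∞` = those with coordinates of `v ≥ 0` with respect to `b'` (a lattice over `A = {v ≥ 0}`, a discrete valuation ring with uniformizer `1/f`, residue field `K`: every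
`c` with `v c ≥ 0` is `c₀ + c'`, `c₀ ∈ K`, `v c' ≥ 1`, leading coefficients).  For `g ≠ 0` let `δ(g)` be the least integer `j` with `f^(-j) g ∈ M_∞` (`= - min_i v (b'.repr g i)`); `δ(p(f) g) = deg p + δ(g)`, `δ(g + g') ≤ max`.  `δ` is bounded below on `M_0 \ {0}` (compare `b` and `b'`: `δ` differs by at most a constant from
`- min_i v (b.repr g i)`, which is `≥ 0` on `M_0 \ {0}`).  Among the bases `e` of `M_0` over `K[f]` (bases of `V` with the first equivalence) take one with `Σ δ(e_i)` minimal; `a_i = - δ(e_i)`.  The residues of `f^(a_i) e_i ∈ M_∞` in `M_∞ / f⁻¹ M_∞` (dimension `n` over `K`) are linearly independent over `K`: otherwise `Σ c_i f^(a_i) e_i ∈ f⁻¹ M_∞`, `c_i ∈ K` not all `0`;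
let `i` be such that `c_i ≠ 0` and `δ(e_i)` is maximal (`a_i` minimal) among these; replace `e_i` by `e_i' = Σ_j c_j f^(a_j - a_i) e_j ∈ M_0`: again a basis of `M_0`, `δ(e_i') ≤ δ(e_i) - 1`, a contradiction.  So they are a basis of the quotient, and by Nakayama (or: the matrix expressing them in `b'` has entries in `A` and a determinant which is a unit) the `f^(a_i) e_i` are an `A`-basis of
`M_∞`: `g ∈ M_∞` if and only if `v (e.repr g i) ≥ - a_i`. -/
def StZbk : Prop := ∀ (K E₁ V : Type u) [Field K] [Field E₁] [Algebra K E₁] [AddCommGroup V] [Module E₁ V] (f : E₁)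
  (v : AddValuation E₁ (WithTop ℤ)) (n : ℕ) (b b' : Module.Basis (Fin n) E₁ V),
  (∀ g : E₁, ∃ p q : Polynomial K, q ≠ 0 ∧ g * Polynomial.aeval f q = Polynomial.aeval f p) →
  (∀ p : Polynomial K, p ≠ 0 → v (Polynomial.aeval f p) = ((-(p.natDegree : ℤ) : ℤ) : WithTop ℤ)) →
  ∃ (e : Module.Basis (Fin n) E₁ V) (a : Fin n → ℤ),
    (∀ g : V, (∀ i, ∃ p : Polynomial K, b.repr g i = Polynomial.aeval f p) ↔
      ∀ i, ∃ p : Polynomial K, e.repr g i = Polynomial.aeval f p) ∧
    ∀ g : V, (∀ i, 0 ≤ v (b'.repr g i)) ↔ ∀ i, ((-(a i) : ℤ) : WithTop ℤ) ≤ v (e.repr g i)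

/-- **Zhi** (HARD; vanishing of `H^1`, duality; USES `StOrd`, `StCls`, `StZdk`, `StZfn`, `StZor`, `StZod`, `StZlc`, `StZlz`, `StZbk`, `StZtd`).  `E₁ = IntermediateField.adjoin K {f}`, `y 0 = f`, `GenBy K y`; `E/E₁` finite, separable.  `v` on `E₁` with `OrdI K y v` (`StOrd`); a normalized `w` lies over `v` if and only if `Plc K w` and `w f < 0` (`StCls`; then `Lies v w e`,
`e = - w f`).  `b` from `StZlz`, `b'` from `StZlc` for `v`, `(e_i)`, `a_i` from `StZbk`.  (A) If all `a_i ≥ -1`: `g = Σ g_i e_i`, `g_i = p_i(f) + g_i'` with `p_i ∈ K[T]`, `v (g_i') ≥ 1 ≥ - a_i` (division with remainder); `a = Σ p_i(f) e_i`, `b = Σ g_i' e_i`.  (B) Suppose `a_i ≤ -2`.  The trace form of `E/E₁` is nondegenerate; `h ∈ E` with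
`Tr (h e_j) = δ_ij`; so `Tr (h g) = e.repr g i` for all `g`, `h ≠ 0`.  (B1) `w` a finite place over `v' = OrdP y p`, index `e`: `StZtd` for `v'`: let `g` satisfy `- D w' ≤ w' g` for all `w'` over `v'`; there is `q ∈ K[T]`, `v' (q(f)) = 0`, such that `q(f) g` satisfies this at all finite places (finitely many other finite places have to be killed, `StZfn`, they
lie over other `p'`); so `Tr (h q(f) g) ∈ K[f]`, `v' (Tr (h g)) ≥ 0`.  Hence `w h ≥ D w - e + 1`.  (B2) `w` infinite, index `e`: if `- D w' ≤ w' g` for all infinite places then `v (Tr (h g)) = v (e.repr g i) ≥ - a_i ≥ 2`, `v (Tr (f^2 h g)) ≥ 0`; `StZtd`: `w (f^2 h) ≥ D w - e + 1`, `w h ≥ D w + e + 1`.  (B3) `c` = the order of `θ` at `w` (`StZod`).  Finite `w`: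
`w (p(f)) = e`, `θ (p(f)) = p'(f) θ f`, `w (p'(f)) = 0`; so `w (θ f) = c + e - 1` (`StZor`).  Infinite `w`: `w f = - e`, `w (θ f) = c - e - 1`.  In both cases `w (h θ f) ≥ c + D w`.  So `h θ f = 0` (`Nsp`), but `θ f ≠ 0` (otherwise `θ = 0`, `E/K(f)` is algebraic and separable), a contradiction. -/
def StZhi : Prop := ∀ (K E : Type u) [Field K] [CharZero K] [Field E] [Algebra K E], FFn K E → ∀ θ : Derivation K E E, θ ≠ 0 →
  ∀ D : AddValuation E (WithTop ℤ) → ℤ, {w : AddValuation E (WithTop ℤ) | Plc K w ∧ D w ≠ 0}.Finite → Nsp θ D →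
  ∀ f : E, ¬ IsAlgebraic K f → ∀ g : E, ∃ a b : E, g = a + b ∧
    (∀ w : AddValuation E (WithTop ℤ), Plc K w → 0 ≤ w f → ((-(D w) : ℤ) : WithTop ℤ) ≤ w a) ∧
    ∀ w : AddValuation E (WithTop ℤ), Plc K w → w f < 0 → ((-(D w) : ℤ) : WithTop ℤ) ≤ w b

/-- **Zex** (EASY-MEDIUM; functions with a given pole; USES `StZfn`, `StAPX.{u}`, `StZhi`).  `P π = 1`, `f = π⁻¹` (transcendental over `K`: algebraic elements have value `0` at places).  `u ∈ E` with `1 ≤ P (u - 1)` and `N ≤ w u` at the other places with `w f < 0` (finitely many, `StZfn`; `StAPX`), `N` large; `g₁ = u π^(- D P - 1)`: `P (g₁) = - D P - 1` and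
`w (g₁) ≥ - D w` at the other places with `w f < 0`.  `g₁ = a + b` (`StZhi`); `g = a = g₁ - b`. -/
def StZex : Prop := ∀ (K E : Type u) [Field K] [CharZero K] [Field E] [Algebra K E], FFn K E → ∀ θ : Derivation K E E, θ ≠ 0 →
  ∀ D : AddValuation E (WithTop ℤ) → ℤ, {w : AddValuation E (WithTop ℤ) | Plc K w ∧ D w ≠ 0}.Finite → Nsp θ D →
  ∀ P : AddValuation E (WithTop ℤ), Plc K P → ∃ g : E, P g = ((-(D P) - 1 : ℤ) : WithTop ℤ) ∧
    ∀ w : AddValuation E (WithTop ℤ), Plc K w → w ≠ P → ((-(D w) : ℤ) : WithTop ℤ) ≤ w g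

/-- **Zdg** (MEDIUM; the degree of a function; USES `StCls`, `StZfn`, `StNop`).  Suppose `g_0, ..., g_m ∈ E` are linearly independent over `K(z)`.  (1) Multiplying by polynomials in `z` we may assume that the `g_i` have no poles at the places with `w z ≥ 0` (finitely many poles, `StZfn`; a place restricts to a nontrivial valuation of `K(z)`, so it has
`w (p(z)) > 0` for some `p`, `StCls`), so all their poles are among the `P_i`.  (2) For `M ≥ 0` let `L_M` be the `K`-space of the functions whose poles are among the `P_i`, of order at most `M ncard {i | P i = w}` at `w`.  `dim L_M ≤ 1 + m M`: `L_0 = K` (`StNop`, `Ccl`), and allowing one more order of pole at a rational place raises the dimension by at most `1`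
(if `w g = w g' = - s` there is `c ∈ K` with `w (g - c g') > - s`, from `Rtl` for `g/g'`).  (3) For some `M₀` and all `N` the `(m + 1)(N + 1)` functions `z^j g_i`, `j ≤ N`, are in `L_(M₀ + N)` and linearly independent over `K`: `(m + 1)(N + 1) ≤ 1 + m (M₀ + N)`, false for large `N`.  (`E/K(z)` is finite; `finrank > m` gives such `g_i`.) -/
def StZdg : Prop := ∀ (K E : Type u) [Field K] [CharZero K] [Field E] [Algebra K E], FFn K E → Ccl K E →
  ∀ (m : ℕ) (P : Fin m → AddValuation E (WithTop ℤ)), (∀ i, Plc K (P i) ∧ Rtl K (P i)) → ∀ z : E, ¬ IsAlgebraic K z →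
  (∀ w : AddValuation E (WithTop ℤ), Plc K w → ((-((Set.ncard {i | P i = w} : ℕ) : ℤ) : ℤ) : WithTop ℤ) ≤ w z) →
  FiniteDimensional (IntermediateField.adjoin K {z}) E ∧ Module.finrank (IntermediateField.adjoin K {z}) E ≤ m

/-! ## Extension of the constants -/

/-- **Zpe** (EASY-MEDIUM; the residue field is generated by one element; no hypotheses).  The residue field `κ` of `{w ≥ 0}` is algebraic over `K` (as in `StZor`, (1): for every `g` with `w g ≥ 0` there is `P ≠ 0` with `w (P(g)) > 0`) and finite over `K`: if `w π = 1` and residues `g_0, ..., g_n` are linearly independent over `K`, then `g_0, ..., g_n` are linearly independent over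
`K(π)` (a relation with coefficients in `K[π]`, not all divisible by `π`), so `n < [E : K(π)]`.  Primitive element theorem (`Field.exists_primitive_element`).  Also `E` has a place at all is not asserted here. -/
def StZpe : Prop := ∀ (K E : Type u) [Field K] [CharZero K] [Field E] [Algebra K E], FFn K E →
  ∀ w : AddValuation E (WithTop ℤ), Plc K w → ∃ (g : E) (p : Polynomial K), 0 ≤ w g ∧ p ≠ 0 ∧
    0 < w (Polynomial.aeval g p) ∧ ∀ h : E, 0 ≤ w h → ∃ q : Polynomial K, 0 < w (h - Polynomial.aeval g q)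

/-- **Zce** (MEDIUM; constant field extensions; no hypotheses).  `Ω = AlgebraicClosure E`; `K₁` = the subfield of `Ω` generated over `K` by the roots of `p` in `Ω` (an intermediate field of `Ω/K`): finite, normal, separable over `K`.  `F₁` = the subfield of `Ω` generated by `E` and `K₁`, an intermediate field of `Ω/E`, generated by the roots of `p`: finite Galois over `E`.  `K₁ → F₁` the
inclusion.  `FFn K₁ F₁`: `F₁` is essentially of finite type over `K`, hence over `K₁`, and the image of `x` is a transcendence basis.  `Ccl`: `[F₁ : E] = [K₁ : K]`, more generally for a finite extension `K₂` of `K` in `Ω`: `[E K₂ : E] = [K₂ : K]` (`K₂ = K(α)`; the minimal polynomial of `α` over `E` divides the one over `K`, its coefficients are algebraic over `K`, so in `K` by `Ccl K E`, so they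
are equal).  If `β ∈ F₁` is algebraic over `K₁`, `K₂ = K₁(β)`: `E K₂ = F₁`, `[K₂ : K] = [F₁ : E] = [K₁ : K]`, `β ∈ K₁`. -/
def StZce : Prop := ∀ (K E : Type u) [Field K] [CharZero K] [Field E] [Algebra K E], FFn K E → Ccl K E →
  ∀ p : Polynomial K, p ≠ 0 → ∃ (K₁ F₁ : Type u) (_ : Field K₁) (_ : Field F₁) (_ : Algebra K K₁) (_ : Algebra K F₁)
    (_ : Algebra E F₁) (_ : Algebra K₁ F₁) (_ : IsScalarTower K E F₁) (_ : IsScalarTower K K₁ F₁) (_ : FiniteDimensional K K₁)
    (_ : IsGalois K K₁) (_ : FiniteDimensional E F₁) (_ : IsGalois E F₁),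
    IntermediateField.adjoin E (Set.range (algebraMap K₁ F₁)) = ⊤ ∧ FFn K₁ F₁ ∧ Ccl K₁ F₁ ∧
    (p.map (algebraMap K K₁)).Splits

/-- **Zrp** (MEDIUM; a rational point after an extension of the constants; USES `StOrd`, `StEXT.{u,u,u}`, `StAPX.{u}`, `StZdk`, `StZpe`, `StZce`).  A place `w` of `E/K`: `f ∈ E` transcendental, `v` on `K(f)` with `OrdI` (`StOrd`), divisorial over `K` (`StZdk`), `StEXT`.  `g`, `p` from `StZpe`; `K₁`, `F₁` from `StZce` for `p`.  `P` on `F₁` over `w` (`StEXT` over `K`), index `m`; `Plc K₁ P` (`K₁` is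
algebraic over `K`).  `P (p(g)) > 0` and `p` splits over `K₁`: `β ∈ K₁` with `P (g - β) > 0`.  `Rtl K₁ P`: let `P h ≥ 0`, `h ∈ F₁`.  `G = Gal(F₁/E)`; `StAPX` for the `cg σ P ≠ P`: `u` with `1 ≤ P (u - 1)`, `N ≤ (cg σ P) u`; `h' = h u` has `P (h' - h) ≥ 1` and `P (σ h') ≥ 0` for all `σ ∈ G`.  `K₁ = K(α)`, `h' = Σ_(i < n) h_i α^i`, `h_i ∈ E` (`F₁ = E(α)`).  The
`σ α`, `σ ∈ G`, are pairwise different elements of (the image of) `K₁`, so from the equations `σ h' = Σ h_i (σ α)^i` (Vandermonde; `|G| = [F₁ : E] = n` if `n` is the degree of `α` over `E`) `P (h_i) ≥ 0`, so `w (h_i) ≥ 0`, `h_i ≡ q_i(g)` modulo `w > 0`, `≡ q_i(β)` modulo `P > 0`; `h ≡ Σ q_i(β) α^i ∈ K₁`. -/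
def StZrp : Prop := ∀ (K E : Type u) [Field K] [CharZero K] [Field E] [Algebra K E], FFn K E → Ccl K E →
  ∃ (K₁ F₁ : Type u) (_ : Field K₁) (_ : Field F₁) (_ : Algebra K K₁) (_ : Algebra K F₁)
    (_ : Algebra E F₁) (_ : Algebra K₁ F₁) (_ : IsScalarTower K E F₁) (_ : IsScalarTower K K₁ F₁) (_ : FiniteDimensional K K₁)
    (_ : IsGalois K K₁) (_ : FiniteDimensional E F₁) (_ : IsGalois E F₁) (P : AddValuation F₁ (WithTop ℤ)),
    IntermediateField.adjoin E (Set.range (algebraMap K₁ F₁)) = ⊤ ∧ FFn K₁ F₁ ∧ Ccl K₁ F₁ ∧ Plc K₁ P ∧ Rtl K₁ P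

/-- **Zbo** (MEDIUM; vector fields and constant field extensions; USES `StDEX.{u,u,u}`, `StUnr`, `StZor`, `StZod`).  `StDEX` (base field `K`, `F₁/E`): `D'` extends `θ`, unique; it is `0` on `K₁` (algebraic over `K`, characteristic `0`), so it is a `K₁`-derivation `θ₁`; `σ⁻¹ θ₁ σ` is another extension of `θ`, so `= θ₁`.  Order: `StUnr`: `π ∈ E` with `W π = 1`; so `m = 1`, `w π = 1`.  `θ ≠ 0` (`Odr`), `θ₁ ≠ 0`;
`c'` the order of `θ₁` at `W` (`StZod`); by `StZor` `c = w (θ π) = W (θ₁ π) = c'`. -/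
def StZbo : Prop := ∀ (K E K₁ F₁ : Type u) [Field K] [Field E] [Field K₁] [Field F₁] [Algebra K E] [Algebra K K₁]
  [Algebra K F₁] [Algebra E F₁] [Algebra K₁ F₁] [IsScalarTower K E F₁] [IsScalarTower K K₁ F₁] [CharZero K]
  [FiniteDimensional K K₁] [IsGalois K K₁] [FiniteDimensional E F₁] [IsGalois E F₁],
  IntermediateField.adjoin E (Set.range (algebraMap K₁ F₁)) = ⊤ → FFn K E → FFn K₁ F₁ → ∀ θ : Derivation K E E,
  ∃ θ₁ : Derivation K₁ F₁ F₁, (∀ f : E, θ₁ (algebraMap E F₁ f) = algebraMap E F₁ (θ f)) ∧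
    (∀ (σ : F₁ ≃ₐ[E] F₁) (f : F₁), σ (θ₁ f) = θ₁ (σ f)) ∧
    ∀ (W : AddValuation F₁ (WithTop ℤ)) (w : AddValuation E (WithTop ℤ)) (m : ℕ) (c : ℤ), Plc K₁ W → Plc K w →
      Lies w W m → Odr w θ c → m = 1 ∧ Odr W θ₁ c

/-- **Zrs** (EASY-MEDIUM; places under a constant field extension; USES `StZdk`, `StEXT.{u,u,u}`, `StUnr`).  (1) `w` is divisorial over `K` (`StZdk`), `StEXT` (base field `K`); `W ≥ 0` on `K₁` (algebraic over `K`).  (2) `w = Api.res E W`: it takes the value `1` (`StUnr`), `Lies w W 1`, `w ≥ 0` on `K`.  (3) `σ` maps the image of `K₁` to itself (`K₁/K` normal, as in `StUnr`), so `Plc K₁ (cg σ W)`;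
`Api.lies_cg`. -/
def StZrs : Prop := ∀ (K E K₁ F₁ : Type u) [Field K] [Field E] [Field K₁] [Field F₁] [Algebra K E] [Algebra K K₁]
  [Algebra K F₁] [Algebra E F₁] [Algebra K₁ F₁] [IsScalarTower K E F₁] [IsScalarTower K K₁ F₁] [CharZero K]
  [FiniteDimensional K K₁] [IsGalois K K₁] [FiniteDimensional E F₁] [IsGalois E F₁],
  IntermediateField.adjoin E (Set.range (algebraMap K₁ F₁)) = ⊤ → FFn K E →
  (∀ w : AddValuation E (WithTop ℤ), Plc K w → ∃ (W : AddValuation F₁ (WithTop ℤ)) (m : ℕ), Plc K₁ W ∧ Lies w W m) ∧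
  (∀ W : AddValuation F₁ (WithTop ℤ), Plc K₁ W → ∃ (w : AddValuation E (WithTop ℤ)), Plc K w ∧ Lies w W 1) ∧
  ∀ (W : AddValuation F₁ (WithTop ℤ)) (w : AddValuation E (WithTop ℤ)) (m : ℕ) (σ : F₁ ≃ₐ[E] F₁), Plc K₁ W → Lies w W m →
    Plc K₁ (cg σ W) ∧ Lies w (cg σ W) m

/-- **Zgr** (MEDIUM; conics; USES `StZrp`, `StZrs`, `StZbo`, `StZod`, `StZex`, `StZdg`).  `K₁, F₁, P` from `StZrp`, `θ₁` from `StZbo`.  Claim `Nsp θ₁ 0`: let `g ∈ F₁` with `c ≤ W g` at all places `W` of `F₁/K₁`, `c` the order of `θ₁` at `W`.  For `α ∈ K₁`: `t = Σ_σ σ(α g) ∈ E` (`σ ∈ Gal(F₁/E)`); for a place `w` of `E/K`, `c` the order of `θ` at `w` (`StZod`), `W` over `w`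
(`StZrs`): `W (σ(α g)) = (cg σ W)(g) ≥ c` (the order of `θ₁` at `cg σ W` is `c` too), so `w t = W t ≥ c` (index `1`).  So `t = 0` for all `α`, and by `E`-linearity `Tr_(F₁/E) (b g) = 0` for all `b ∈ F₁` (`F₁` is the `E`-span of `K₁`), so `g = 0`.  `StZex` with `D = 0`: `y ∈ F₁` with `P y = -1`, no other poles.  `StZdg` with `m = 1`: `[F₁ : K₁(y)] ≤ 1`, so `F₁ = K₁(y)`. -/
def StZgr : Prop := ∀ (K E : Type u) [Field K] [CharZero K] [Field E] [Algebra K E], FFn K E → Ccl K E →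
  ∀ θ : Derivation K E E, θ ≠ 0 → Nsp θ (fun _ => 0) → GRat K E

/-! ## Curves of genus one -/

/-- **Zsp** (MEDIUM; no function with a single simple pole; USES `StOrd`, `StCls`, `StNop`, `StZor`, `StZdg`).  Otherwise `P g = -1` (no poles: `StNop`, `Ccl`) and `g` is transcendental.  `StZdg` with `m = 1`: `E = K(g)`, `P` is the place `OrdI`.  `P (θ g) = -2` (`StZor`, `c = 0`, `m = -1`), `w (θ g) ≥ 0` for `w ≠ P`.  So `θ g = q(g)` with `q ∈ K[T]` of degree `2` (a function without finite poles is a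
polynomial).  `p` an irreducible factor of `q`, `w = OrdP g p` (`StOrd`), `w (p(g)) = 1`: `w (θ (p(g))) = 0` (`StZor`), but `θ (p(g)) = p'(g) q(g)` has value `≥ 1`. -/
def StZsp : Prop := ∀ (K E : Type u) [Field K] [CharZero K] [Field E] [Algebra K E], FFn K E → Ccl K E →
  ∀ θ : Derivation K E E, (∀ w : AddValuation E (WithTop ℤ), Plc K w → Odr w θ 0) →
  ∀ P : AddValuation E (WithTop ℤ), Plc K P → Rtl K P → ∀ g : E, ((-1 : ℤ) : WithTop ℤ) ≤ P g →
  (∀ w : AddValuation E (WithTop ℤ), Plc K w → w ≠ P → 0 ≤ w g) → ∃ c : K, algebraMap K E c = g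

/-- the function `X` with a double pole at `P` and the equation of `θ X` -/
def Wei {K E : Type u} [Field K] [Field E] [Algebra K E] (θ : Derivation K E E) (P : AddValuation E (WithTop ℤ)) (X : E) (a b : K) :
    Prop :=
  P X = ((-2 : ℤ) : WithTop ℤ) ∧ (∀ w : AddValuation E (WithTop ℤ), Plc K w → w ≠ P → 0 ≤ w X) ∧
    (θ X) ^ 2 = 4 * X ^ 3 + 4 * algebraMap K E a * X + 4 * algebraMap K E b

/-- **Zwe** (MEDIUM-HARD; Weierstrass equation; USES `StNop`, `StZor`, `StZex`, `StZsp`).  (0) `θ ≠ 0`.  `D = 1` at `P`, `0` elsewhere: `Nsp θ D` (`g` without poles and with `P g ≥ 1`: `g` is a constant by `StNop`, `Ccl`, so `0`).  `StZex`: `X'` with `P X' = -2`, no other poles.  `Y' = θ X'`: `P Y' = -3` (`StZor`), no other poles.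
(1) Every function without poles outside `P` is a `K`-combination of `X'^i`, `X'^i Y'`, using only those of at most its pole order (`Rtl`: subtract a multiple of the one with the same pole order; pole orders `0, 2, 3, 4, ...` occur; pole order `1` is impossible by `StZsp`).  `1, Y'` are linearly independent over `K(X')` (elements of `K(X')` have even values at `P`).
(2) `Y'^2 = A X'^3 + B X' Y' + C X'^2 + D Y' + E X' + F`, `A ≠ 0`.  `U = Y' - (B X' + D)/2`: `U^2 = c(X')`, `c` a cubic polynomial with leading coefficient `A`; `P U = -3`.  `θ U` has no poles outside `P` and `P (θ U) = -4`: `θ U = α X'^2 + β U + γ X' + δ`.  From `2 U θ U = c'(X') θ X' = c'(X') (U + (B X' + D)/2)` and `U^2 = c(X')`, comparing coefficients of `1`, `U` over `K(X')`: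
`4 β c = c' (B T + D)` in `K[T]`.  (3) Suppose `(B, D) ≠ (0, 0)`.  Then `β ≠ 0`, so `B ≠ 0` (degrees), `s = D/B`, `c' (T + s) = (4 β/B) c`; leading coefficients: `4 β/B = 3`; a polynomial of degree `3` with `c' (T + s) = 3 c` is `A (T + s)^3` (Taylor expansion at `- s`).  `h = U/(X' + s)`: `h^2 = A (X' + s)`, so `P h = -1` and `w h ≥ 0` elsewhere; contradiction to `StZsp`.
(4) So `Y'^2 = A X'^3 + C X'^2 + E X' + F`.  `X' = (4/A) X - C/(3A)`: `θ X' = (4/A) θ X` and `(θ X)^2 = 4 X^3 + 4 a X + 4 b`. -/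
def StZwe : Prop := ∀ (K E : Type u) [Field K] [CharZero K] [Field E] [Algebra K E], FFn K E → Ccl K E →
  ∀ θ : Derivation K E E, (∀ w : AddValuation E (WithTop ℤ), Plc K w → Odr w θ 0) →
  ∀ P : AddValuation E (WithTop ℤ), Plc K P → Rtl K P → ∃ (X : E) (a b : K), Wei θ P X a b

/-- **Zsg** (HARD; the equation does not depend on the point; USES `StCls`, `StNop`, `StZor`, `StZex`, `StZdg`, `StZsp`).  (0) If `Wei θ P X a b` and `Wei θ P X' a' b'` (same point): `X' - α X`, `α ∈ K^*`, has at most a simple pole at `P` (`Rtl`), so `X' = α X + β` (`StZsp`); `α^2 (4 X^3 + 4 a X + 4 b) = 4 (α X + β)^3 + 4 a' (α X + β) + 4 b'`, `X` transcendental: `α = 1`, `β = 0`, `a = a'`, `b = b'`.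
(1) Let `P ≠ P'`.  `D = 1` at `P`, `0` elsewhere (`Nsp θ D`: `StNop`), `StZex` at `P'`: `z` with `P' z = -1`, `P z ≥ -1`, no other poles; `P z = -1` (otherwise `z` is a constant by `StZsp` at `P'`).  `StZdg` for `(P, P')`: `[E : K(z)] ≤ 2`.  It is not `1` (`K(z)` has only one place with `w z < 0`, `StCls`, but `P`, `P'` are two).  So `E/K(z)` is Galois of degree `2`; `ι` the automorphism of order
`2` (over `K(z)`, so over `K`).  (2) `cg ι P = P'`: the places with `w z < 0` are `P`, `P'`, so `cg ι P ∈ {P, P'}`.  If `cg ι P = P` then `cg ι P' = P'`; for `g ∈ E`: `g ι(g) ∈ K(z)`, where `P` and `P'` both are the valuation `OrdI` (index `1`, since `P z = P' z = -1`), so `2 P g = P (g ι g) = P' (g ι g) = 2 P' g`, `P = P'`, a contradiction.  (3) `ι θ ι⁻¹ = c θ` with `c ∈ E` (`E/K` has only one derivation up to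
factors: `θ (z) ≠ 0`, two derivations which agree on `z` are equal, separability); both have order `0` at all places, so `c` has value `0` everywhere, `c ∈ K` (`StNop`, `Ccl`), `c ≠ 0`; `ι^2 = 1`: `c^2 = 1`.  (4) `X₂ = ι X`: `P' X₂ = -2`, no other poles, `(θ X₂)^2 = c^(-2) (ι θ X)^2 = 4 X₂^3 + 4 a X₂ + 4 b`: `Wei θ P' X₂ a b`; (0) at `P'`. -/
def StZsg : Prop := ∀ (K E : Type u) [Field K] [CharZero K] [Field E] [Algebra K E], FFn K E → Ccl K E →
  ∀ θ : Derivation K E E, (∀ w : AddValuation E (WithTop ℤ), Plc K w → Odr w θ 0) →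
  ∀ P P' : AddValuation E (WithTop ℤ), Plc K P → Rtl K P → Plc K P' → Rtl K P' → ∀ (X X' : E) (a b a' b' : K),
  Wei θ P X a b → Wei θ P' X' a' b' → a = a' ∧ b = b'

/-- the Weierstrass curve `y^2 = x^3 + a x + b` -/
def WC {F : Type u} [Field F] (a b : F) : WeierstrassCurve.Affine F := { a₁ := 0, a₂ := 0, a₃ := 0, a₄ := a, a₆ := b }

/-- `l` is the value of the invariant differential at the `F`-valued point `Q` and the derivation `θ` of `F` -/
def Lam {F : Type u} [Field F] (θ : Derivation ℤ F F) (a b : F) : (WC a b).Point → F → Prop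
  | .zero, l => l = 0
  | @WeierstrassCurve.Affine.Point.some _ _ _ x y _, l => θ x = 2 * y * l ∧ θ y = (3 * x ^ 2 + a) * l

open Classical in
/-- **Zad** (MEDIUM; additivity; no hypotheses).  Case distinction of the group law (`WeierstrassCurve.Affine.Point.add_some`, `add_of_...`): one of the points `0`: clear.  `Q' = - Q`: `θ x = 2 y l = - 2 y l'`, `θ y = (3 x^2 + a) l` and `- θ y = (3 x^2 + a) l'`, so `l + l' = 0` because `2 y ≠ 0` or `3 x^2 + a ≠ 0` (nonsingular).  Otherwise with the slope `s` (`(y₁ - y₂)/(x₁ - x₂)` or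
`(3 x₁^2 + a)/(2 y₁)`): `x₃ = s^2 - x₁ - x₂`, `y₃ = - (s (x₃ - x₁) + y₁)`; compute `θ s` by the quotient rule, and verify `θ x₃ = 2 y₃ (l + l')`, `θ y₃ = (3 x₃^2 + a)(l + l')` with `field_simp`, `ring`/`linear_combination` modulo `y_i^2 = x_i^3 + a x_i + b` (`θ a = θ b = 0`). -/
def StZad : Prop := ∀ (F : Type u) [Field F] [CharZero F] (θ : Derivation ℤ F F) (a b : F), θ a = 0 → θ b = 0 →
  ∀ (Q Q' : (WC a b).Point) (l l' : F), Lam θ a b Q l → Lam θ a b Q' l' → Lam θ a b (Q + Q') (l + l')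

/-- **Zpt** (MEDIUM; a point of the Jacobian; USES `StZad`).  `Y = θ₁ X / 2`, `Q = (X, Y)` on `WC a b` over `F₁` (`Y ≠ 0`, so nonsingular), `Lam Q 1`: `2 Y θ₁ Y = (3 X^2 + a) θ₁ X = (3 X^2 + a) 2 Y`.  For `σ ∈ G = Gal(F₁/E)`: `σ Q = (σ X, σ Y)` (`WeierstrassCurve.Affine.Point.map` or by hand; the curve has coefficients in `E`), `Lam (σ Q) 1` since `θ₁` commutes with `σ`.  `S = Σ_σ σ Q`:
`Lam S N`, `N = |G|` (`StZad`, induction), so `S ≠ 0`, `S = (X₀, Y₀)`, invariant under `G` (`σ` acts by group homomorphisms), so `X₀, Y₀ ∈ E` (`IsGalois`).  `Y₀ ≠ 0`: otherwise `θ₁ Y₀ = 0 = (3 X₀^2 + a) N`, so `3 X₀^2 + a = 0` and `Y₀ = 0`: singular, a contradiction. -/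
def StZpt : Prop := ∀ (E F₁ : Type u) [Field E] [CharZero E] [Field F₁] [Algebra E F₁] [FiniteDimensional E F₁]
  [IsGalois E F₁] (θ₁ : Derivation ℤ F₁ F₁) (a b : E) (X : F₁), (∀ (σ : F₁ ≃ₐ[E] F₁) (f : F₁), σ (θ₁ f) = θ₁ (σ f)) →
  θ₁ (algebraMap E F₁ a) = 0 → θ₁ (algebraMap E F₁ b) = 0 → θ₁ X ≠ 0 →
  (θ₁ X) ^ 2 = 4 * X ^ 3 + 4 * algebraMap E F₁ a * X + 4 * algebraMap E F₁ b →
  ∃ (X₀ Y₀ : E) (N : ℕ), 0 < N ∧ Y₀ ≠ 0 ∧ Y₀ ^ 2 = X₀ ^ 3 + a * X₀ + b ∧
    θ₁ (algebraMap E F₁ X₀) = 2 * (N : F₁) * algebraMap E F₁ Y₀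

/-- **Zur** (MEDIUM; ramification over the line; USES `StCls`, `StZfn`, `StZor`).  `X = z 0`.  Let `w₀` be a place of `E₀ = K(X)`, `w` over `w₀`, index `m`.  (1) `w₀ = OrdP z p` (`StCls`): `w (p(X)) = m`; `θ (p(X)) = p'(X) 2 N Y`, `w (p'(X)) = 0`, so `m - 1 = w Y` (`StZor`, `c = 0`).  `2 w Y = w (X^3 + a X + b) = j m`, `j` the multiplicity of `p` in `T^3 + a T + b`.  So `2 m - 2 = j m`: `j = 0`, `m = 1`, or
`j = 1`, `m = 2`: determined by `w₀`.  (2) `w₀ = OrdI`: `w X = - m`, `2 w Y = - 3 m`, `w (θ X) = - m - 1 = w Y`: `m = 2`.  If `w₀` is not a place (not normalized) it is a multiple of one, `w₀ = s w₀'`, and `s m` is determined.  (A `w₀` which is trivial on `E₀` has no `w` over it: `E/E₀` is algebraic.)  (3) `m ≠ 1` only for `p ∣ T^3 + a T + b` and for `OrdI`: finitely many places (`StZfn` for `E₀/K` and `z 0 ^ 3 + a z 0 + b`, `z 0`). -/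
def StZur : Prop := ∀ (K E₀ E : Type u) [Field K] [CharZero K] [Field E₀] [Field E] [Algebra K E₀] [Algebra K E] [Algebra E₀ E]
  [IsScalarTower K E₀ E] [FiniteDimensional E₀ E] (z : Fin 1 → E₀), GenBy K z → FFn K E → ∀ θ : Derivation K E E,
  (∀ w : AddValuation E (WithTop ℤ), Plc K w → Odr w θ 0) → ∀ (a b : K) (Y : E) (N : ℕ), 0 < N → Y ≠ 0 →
  Y ^ 2 = (algebraMap E₀ E (z 0)) ^ 3 + algebraMap K E a * algebraMap E₀ E (z 0) + algebraMap K E b →
  θ (algebraMap E₀ E (z 0)) = 2 * (N : E) * Y →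
  (∀ (w₀ : AddValuation E₀ (WithTop ℤ)) (w w' : AddValuation E (WithTop ℤ)) (m m' : ℕ), Plc K w → Plc K w' →
    Lies w₀ w m → Lies w₀ w' m' → m = m') ∧
  {w₀ : AddValuation E₀ (WithTop ℤ) | Plc K w₀ ∧ ∃ (w : AddValuation E (WithTop ℤ)) (m : ℕ), Plc K w ∧ Lies w₀ w m ∧
    m ≠ 1}.Finite

/-- **Zgo** (MEDIUM; the quotient of a curve of genus one; USES `StZrp`, `StZrs`, `StZbo`, `StZwe`, `StZsg`, `StZpt`, `StZur`).  `θ` from `GOne` (order `0` at all places, `θ ≠ 0` since there is a place).  `K₁, F₁, P` from `StZrp`, `θ₁` from `StZbo`, of order `0` at all places of `F₁/K₁` (`StZrs` (2)).  `X, a, b` from `StZwe` (`a, b ∈ K₁`).  For `σ ∈ Gal(F₁/E)`: `σ` maps `K₁` to itself, `σ : K₁ → K₁` call it `σ_K`; `Plc`, `Rtl` hold for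
`P' = cg σ⁻¹ P` (`P'(g) = P (σ⁻¹ g)`, in the convention of `cg`), and `Wei θ₁ P' (σ X) (σ_K a) (σ_K b)` (`θ₁` commutes with `σ`).  `StZsg`: `σ_K a = a`, `σ_K b = b`.  So (the images in `F₁` of) `a`, `b` are in `E` (`IsGalois`), algebraic over `K`, so in `K` (`Ccl`).  `StZpt` (`θ₁` as a `ℤ`-derivation, `θ₁ X ≠ 0` since `P (θ₁ X) = -3`, from the equation): `X₀, Y₀ ∈ E`, `N`; `θ X₀ = 2 N Y₀ ≠ 0`, so `X₀` is transcendental over `K`.
`E₀ = IntermediateField.adjoin K {X₀}`, `z 0 = X₀`; `E/E₀` finite.  `GRat K E₀`: `Ccl` from `E`; `K₁ := K`, `F₁ := E₀`, `y = z`.  `StZur`. -/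
def StZgo : Prop := ∀ (K E : Type u) [Field K] [CharZero K] [Field E] [Algebra K E], FFn K E → GOne K E →
  ∃ (E₀ : Type u) (_ : Field E₀) (_ : Algebra K E₀) (_ : Algebra E₀ E) (_ : IsScalarTower K E₀ E)
    (_ : FiniteDimensional E₀ E), GRat K E₀ ∧ FFn K E₀ ∧
    (∀ (w₀ : AddValuation E₀ (WithTop ℤ)) (w w' : AddValuation E (WithTop ℤ)) (m m' : ℕ), Plc K w → Plc K w' →
      Lies w₀ w m → Lies w₀ w' m' → m = m') ∧
    {w₀ : AddValuation E₀ (WithTop ℤ) | Plc K w₀ ∧ ∃ (w : AddValuation E (WithTop ℤ)) (m : ℕ), Plc K w ∧ Lies w₀ w m ∧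
      m ≠ 1}.Finite

/-! ## b-fibrations -/

/-- **Zdi** (MEDIUM; the two cases; USES `StTb`, `StCan`, `StGpt`, `StWdl`, `StJcb`, `StNnp`, `StZdk`, `StZfn`, `StZod`, `StZcn`, `StZgr`).  Compare `HA/I_Elz.lean`.  `θ` the `K`-derivation of `E` with `θ (x 0) = 1` (`StTb` for `E/K`).  For a place `w` let `c_w` be its order (`StZod`); `can k (cor r x) w = - c_w` (`StZcn`).  `J` from `StJcb`: `can k c w = can k (cor r x) w + val w J`.  `Ov Z w` with `P = ⊤`,
`Lv Z L (res K w) = 0`, `w` divisorial over `k` (`StZdk`); so `c_w = 𝔻 w - ev w Φ'`, `Φ' = Φ - [J]`.  If `Nsp θ 0`: `StZgr`.  Otherwise `g ≠ 0` with `c_w ≤ val w g` for all places (`Odr w θ c` determines `c = c_w`): `ev w ([g] + Φ') = val w g - c_w + 𝔻 w ≥ 0` for all places, so `= 0` by `StNnp` (`hfin` = `StZfn`); hence `val w g = c_w` (both terms are `≥ 0`), and `θ' = g⁻¹ • θ` has order `0` at all places: `GOne K E`. -/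
def StZdi : Prop := ∀ (κ : Prop) (k K E : Type u) [Field k] [CharZero k] [Field K] [Field E] [Algebra k K] [Algebra k E]
  [Algebra K E] [IsScalarTower k K E] [Algebra.EssFiniteType k K], FFn K E → Ccl K E → ∀ (e : ℕ) (r : Fin e → K)
  (x : Fin 1 → E) (c : Fin (e + 1) → E) (Z : Set (Subalgebra k K)) (𝔻 : AddValuation E (WithTop ℤ) → ℝ)
  (L : AddValuation K (WithTop ℤ) → ℝ) (Φ : Eˣ →₀ ℝ), BFib κ r c Z 𝔻 L Φ → IsTranscendenceBasis k (cor r x) →
  IsTranscendenceBasis K x → (∀ w : AddValuation E (WithTop ℤ), Plc K w → 0 ≤ 𝔻 w) → GRat K E ∨ GOne K E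

/-- **Zeq** (MEDIUM, start from `HA/I_Eqt.lean` of helper39; the quotient of a curve of genus one; USES `StGrm`, `StGpt`, `StWdl`, `StEXT.{u,u,u}`, `StQcn`, `StQav`, `StQdv`, `StFcc`, `MgNOR.{u}`).  The same as `StEqt` without the model `Y₀`: places of `E₀/K` are divisorial by hypothesis.  Last claim: for a place `w₀` take any normalized `w` over it, index `μ` (`StEXT`): `1 - 𝔻 w = 1 = μ (1 - 𝔻₀ w₀)` by the crepancy. -/
def StZeq : Prop := ∀ (κ : Prop) (k K E₀ E : Type u) [Field k] [CharZero k] [Field K] [Field E₀] [Field E] [Algebra k K]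
  [Algebra k E₀] [Algebra k E] [Algebra K E₀] [Algebra K E] [Algebra E₀ E] [IsScalarTower k K E₀] [IsScalarTower k K E]
  [IsScalarTower k E₀ E] [IsScalarTower K E₀ E] [FiniteDimensional E₀ E] [Algebra.EssFiniteType k E₀]
  [Algebra.EssFiniteType K E] (e : ℕ) (r : Fin e → K) (x : Fin 1 → E) (c₀ : Fin (e + 1) → E₀) (c : Fin (e + 1) → E)
  (Z : Set (Subalgebra k K)) (𝔻 : AddValuation E (WithTop ℤ) → ℝ)
  (L : AddValuation K (WithTop ℤ) → ℝ) (Φ : Eˣ →₀ ℝ), BFib κ r c Z 𝔻 L Φ → IsTranscendenceBasis k c₀ →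
  IsTranscendenceBasis K x → (∀ f : E, IsAlgebraic K f → ∃ c : K, algebraMap K E c = f) →
  (∀ w₀ : AddValuation E₀ (WithTop ℤ), Plc K w₀ → Divisorial k w₀) →
  (∀ (w₀ : AddValuation E₀ (WithTop ℤ)) (w w' : AddValuation E (WithTop ℤ)) (m m' : ℕ), Plc K w → Plc K w' →
    Lies w₀ w m → Lies w₀ w' m' → m = m') → (∀ w : AddValuation E (WithTop ℤ), Plc K w → 𝔻 w = 0) →
  ∃ (𝔻₀ : AddValuation E₀ (WithTop ℤ) → ℝ) (Φ₀ : E₀ˣ →₀ ℝ), BFib κ r c₀ Z 𝔻₀ L Φ₀ ∧
    (∀ (ν : AddValuation E₀ (WithTop ℤ)) (ν' : AddValuation E (WithTop ℤ)) (ε : ℕ), Divisorial k ν → Ov Z ν →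
      (∃ π : E, ν' π = 1) → Lies ν ν' ε → 1 - 𝔻 ν' = ε * (1 - 𝔻₀ ν)) ∧
    ∀ w₀ : AddValuation E₀ (WithTop ℤ), Plc K w₀ → ∃ (w : AddValuation E (WithTop ℤ)) (μ : ℕ), Plc K w ∧ Lies w₀ w μ ∧
      𝔻₀ w₀ = 1 - 1 / μ

end Pool.Agent.Work.MP_a2680c_ag.HA
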